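import Pool.Agent.Lib_MP_2af48a_lc.AboveSel

open Finset Filter

namespace Pool.Agent.Results.MP_2af48a_lc.FewNegations

/-! ## Copies of one function on selected variables -/

/-- the disjunction of `K` copies of `F` on disjoint blocks of variables -/
def copyF (K m : ℕ) (F : (Fin m → Bool) → Bool) (z : Fin (K * m) → Bool) : Bool :=
  decide (∃ j < K, F (rst m (fun p => ext z (j * m + p))) = true)

/-- **Lower bound.**  Few NOT gates above the selected variables can be removed. -/
theorem copies_lower {n K m : ℕ} (F : (Fin m → Bool) → Bool) (hF0 : F (fun _ => false) = false)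
    (C : Circuit n) (hC : ∀ x, C.eval x = selF n (K * m) (copyF K m F) x)
    (P : Finset (Fin n)) (hP : K * m * (2 * LL n + 1) ≤ P.card) (t : ℕ)
    (ht : C.negationsAbove P ≤ t) (hK : 2 ^ t * (t + 1) < K) :
    ∃ D : MonotoneSeparation.MonCircuit m, (∀ x, D.eval x = F x) ∧
      D.depth ≤ C.depth + 1 + 2 * t ∧ D.size ≤ 2 ^ (2 * t) * (C.size + 2) := by
  obtain ⟨C', c1, c2, c3, c4⟩ := circuit_select (copyF K m F) C hC P hP
  have hn : C'.negations ≤ t := le_trans c4 ht
  have hB : 2 ^ C'.negations * (C'.negations + 1) < K :=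
    lt_of_le_of_lt (Nat.mul_le_mul (Nat.pow_le_pow_right (by norm_num) hn) (by omega)) hK
  obtain ⟨D, hD1, hD2, hD3, hD4⟩ := circuit_copies C' K hB F hF0 (blk m) (fun j hj y hy z => by
      rw [c1]
      exact copies_spec' F K (K * m) (le_refl _) hF0 j hj y hy z)
  obtain ⟨D', hD'1, hD'2, hD'3⟩ := circuit_to_mon (m := m) (r := 0) D hD2.negations.le
    F (fun X => by
      rw [hD1]; rfl)
  refine ⟨D', hD'1, by omega, ?_⟩
  rw [hD'2]
  have h1 : 2 ^ (2 * C'.negations) ≤ 2 ^ (2 * t) :=
    Nat.pow_le_pow_right (by norm_num) (by omega)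
  calc D.size ≤ 2 ^ (2 * C'.negations) * (C'.size + 2) := by omega
    _ ≤ 2 ^ (2 * t) * (C.size + 2) := by rw [c2]; exact Nat.mul_le_mul_right _ h1

namespace SCup

/-! ## Programs for the selected variables -/

/-- the part of the selection program for the variable `j` -/
def sel1P (n i R j : ℕ) : List Ins :=
  [.var (R + 1) j] ++ (List.range (LL n)).flatMap (fun b =>
    [.var (R + 2) (apos n i b (j.testBit b)), .and (R + 1) (R + 1) (R + 2)]) ++
  [.or R R (R + 1)]

/-- the selection program -/
def selP (n i R : ℕ) : List Ins :=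
  [.cst R false] ++ (List.range n).flatMap (fun j => sel1P n i R j)

lemma step_eq (X s : ℕ → Bool) (i : Ins) : step X s i i.dst = i.val X s := by
  simp [step]

lemma step_neq (X s : ℕ → Bool) (i : Ins) (g : ℕ) (h : g ≠ i.dst) : step X s i g = s g := by
  simp [step, Function.update_of_ne h]

/-- the inner loop -/
lemma bits_run (n i R j : ℕ) (X : ℕ → Bool) (L : List ℕ) : ∀ s,
    (∀ g ≤ R, run X s (L.flatMap (fun b =>
      [.var (R + 2) (apos n i b (j.testBit b)), .and (R + 1) (R + 1) (R + 2)])) g = s g) ∧
    run X s (L.flatMap (fun b =>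
      [.var (R + 2) (apos n i b (j.testBit b)), .and (R + 1) (R + 1) (R + 2)])) (R + 1)
      = (s (R + 1) && L.all (fun b => X (apos n i b (j.testBit b)))) := by
  induction L with
  | nil => intro s; exact ⟨fun g _ => rfl, by simp [run_nil]⟩
  | cons b L ih =>
    intro s
    rw [List.flatMap_cons]
    set s1 := run X s [.var (R + 2) (apos n i b (j.testBit b)), .and (R + 1) (R + 1) (R + 2)] with hs1
    have e1 : ∀ g ≤ R, s1 g = s g := by
      intro g hg
      rw [hs1, run_cons, run_cons, run_nil, step_neq _ _ _ _ (by change g ≠ R + 1; omega),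
        step_neq _ _ _ _ (by change g ≠ R + 2; omega)]
    have e2 : s1 (R + 1) = (s (R + 1) && X (apos n i b (j.testBit b))) := by
      rw [hs1, run_cons, run_cons, run_nil]
      simp [step, Ins.dst, Ins.val]
    obtain ⟨h1, h2⟩ := ih s1
    refine ⟨fun g hg => ?_, ?_⟩
    · rw [run_append, h1 g hg, e1 g hg]
    · rw [run_append, h2, e2, List.all_cons, Bool.and_assoc]

lemma sel1P_run (n i R j : ℕ) (X s : ℕ → Bool) :
    (∀ g < R, run X s (sel1P n i R j) g = s g) ∧
    run X s (sel1P n i R j) R
      = (s R || (X j && (List.range (LL n)).all (fun b => X (apos n i b (j.testBit b))))) := by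
  unfold sel1P
  rw [run_append, run_append]
  set s1 := run X s [.var (R + 1) j] with hs1
  have e1 : ∀ g ≤ R, s1 g = s g := by
    intro g hg
    rw [hs1, run_cons, run_nil, step_neq _ _ _ _ (by change g ≠ R + 1; omega)]
  have e2 : s1 (R + 1) = X j := by
    rw [hs1, run_cons, run_nil]
    simp [step, Ins.dst, Ins.val]
  obtain ⟨h1, h2⟩ := bits_run n i R j X (List.range (LL n)) s1
  refine ⟨fun g hg => ?_, ?_⟩
  · rw [run_cons, run_nil, step_neq _ _ _ _ (by change g ≠ R; omega), h1 g (by omega),
      e1 g (by omega)]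
  · rw [run_cons, run_nil]
    simp only [step, Ins.dst, Ins.val, Function.update_self]
    rw [h1 R le_rfl, h2, e1 R le_rfl, e2]

lemma selL_run (n i R : ℕ) (X : ℕ → Bool) (L : List ℕ) : ∀ s,
    (∀ g < R, run X s (L.flatMap (fun j => sel1P n i R j)) g = s g) ∧
    run X s (L.flatMap (fun j => sel1P n i R j)) R
      = (s R || L.any (fun j => X j && (List.range (LL n)).all (fun b =>
          X (apos n i b (j.testBit b))))) := by
  induction L with
  | nil => intro s; exact ⟨fun g _ => rfl, by simp [run_nil]⟩
  | cons j L ih =>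
    intro s
    rw [List.flatMap_cons]
    obtain ⟨e1, e2⟩ := sel1P_run n i R j X s
    obtain ⟨h1, h2⟩ := ih (run X s (sel1P n i R j))
    refine ⟨fun g hg => ?_, ?_⟩
    · rw [run_append, h1 g hg, e1 g hg]
    · rw [run_append, h2, e2, List.any_cons, Bool.or_assoc]

lemma selP_run (n i R : ℕ) (X s : ℕ → Bool) :
    (∀ g < R, run X s (selP n i R) g = s g) ∧ run X s (selP n i R) R = sel n i X := by
  unfold selP
  rw [run_append]
  obtain ⟨h1, h2⟩ := selL_run n i R X (List.range n) (run X s [.cst R false])
  refine ⟨fun g hg => ?_, ?_⟩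
  · rw [h1 g hg, run_cons, run_nil, step_neq _ _ _ _ (by change g ≠ R; omega)]
  · rw [h2]
    have e : run X s [.cst R false] R = false := by
      rw [run_cons, run_nil]
      simp [step, Ins.dst, Ins.val]
    rw [e, Bool.false_or]
    apply Bool.eq_iff_iff.mpr
    unfold sel
    rw [decide_eq_true_eq, List.any_eq_true]
    constructor
    · rintro ⟨j, hj, h⟩
      rw [Bool.and_eq_true, List.all_eq_true] at h
      exact ⟨j, List.mem_range.mp hj, h.1, fun b hb => h.2 b (List.mem_range.mpr hb)⟩
    · rintro ⟨j, hj, h3, h4⟩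
      refine ⟨j, List.mem_range.mpr hj, ?_⟩
      rw [Bool.and_eq_true, List.all_eq_true]
      exact ⟨h3, fun b hb => h4 b (List.mem_range.mp hb)⟩

lemma flatMap_length_le' {ι : Type*} (L : List ι) (P : ι → List Ins) (c : ℕ)
    (h : ∀ x, (P x).length ≤ c) : (L.flatMap P).length ≤ L.length * c := by
  induction L with
  | nil => simp
  | cons x L ih =>
    rw [List.flatMap_cons, List.length_append, List.length_cons, add_mul, one_mul]
    have := h x
    omega

lemma selP_length (n i R : ℕ) : (selP n i R).length ≤ n * (2 * LL n + 2) + 1 := by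
  unfold selP
  rw [List.length_append]
  have h1 : ∀ j, (sel1P n i R j).length ≤ 2 * LL n + 2 := by
    intro j
    unfold sel1P
    rw [List.length_append, List.length_append]
    have h2 := flatMap_length_le' (List.range (LL n)) (fun b =>
      [Ins.var (R + 2) (apos n i b (j.testBit b)), Ins.and (R + 1) (R + 1) (R + 2)]) 2
      (fun b => by simp)
    rw [List.length_range] at h2
    simp only [List.length_cons, List.length_nil]
    omega
  have h3 := flatMap_length_le' (List.range n) (fun j => sel1P n i R j) _ h1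
  rw [List.length_range] at h3
  simp only [List.length_cons, List.length_nil]
  omega

lemma selP_ok (n i R : ℕ) (hi : ∀ b < LL n, ∀ c, apos n i b c < n) :
    ∀ q ∈ selP n i R, q.ok (R + 3) n ∧ q.isNot = false := by
  intro q hq
  unfold selP at hq
  rw [List.mem_append, List.mem_singleton, List.mem_flatMap] at hq
  rcases hq with rfl | ⟨j, hj, hq⟩
  · exact ⟨by change R < R + 3; omega, rfl⟩
  · unfold sel1P at hq
    rw [List.mem_append, List.mem_append, List.mem_singleton, List.mem_singleton,
      List.mem_flatMap] at hq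
    rcases hq with (rfl | ⟨b, hb, hq⟩) | rfl
    · exact ⟨⟨by omega, List.mem_range.mp hj⟩, rfl⟩
    · simp only [List.mem_cons, List.not_mem_nil, or_false] at hq
      rcases hq with rfl | rfl
      · exact ⟨⟨by omega, hi b (List.mem_range.mp hb) _⟩, rfl⟩
      · exact ⟨⟨by omega, by omega, by omega⟩, rfl⟩
    · exact ⟨⟨by omega, by omega, by omega⟩, rfl⟩

/-- the program for one instruction with selected variables -/
def subS (n R : ℕ) (φ : ℕ → ℕ) : Ins → List Ins
  | .var d p => selP n (φ p) R ++ [.or d R R]
  | .cst d b => [.cst d b]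
  | .and d a b => [.and d a b]
  | .or d a b => [.or d a b]
  | .not d a => [.not d a]

lemma subS_step (n R M : ℕ) (φ : ℕ → ℕ) (X : ℕ → Bool) (i : Ins) (hi : i.ok R M) (s s' : ℕ → Bool)
    (hs : ∀ g < R, s g = s' g) : ∀ g < R,
    run X s (subS n R φ i) g = step (fun p => sel n (φ p) X) s' i g := by
  intro g hg
  cases i with
  | var d p =>
    unfold subS
    obtain ⟨h1, h2⟩ := selP_run n (φ p) R X s
    rw [run_append, run_cons, run_nil]
    by_cases hd : g = d
    · subst hd
      simp only [step, Ins.dst, Ins.val, Function.update_self, h2, Bool.or_self]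
    · rw [step_neq _ _ _ _ (by change g ≠ d; exact hd), step_neq _ _ _ _ (by change g ≠ d; exact hd),
        h1 g hg, hs g hg]
  | cst d b =>
    unfold subS
    rw [run_cons, run_nil]
    by_cases hd : g = d
    · subst hd
      simp only [step, Ins.dst, Ins.val, Function.update_self]
    · rw [step_neq _ _ _ _ (by change g ≠ d; exact hd), step_neq _ _ _ _ (by change g ≠ d; exact hd),
        hs g hg]
  | and d a b =>
    unfold subS
    rw [run_cons, run_nil]
    by_cases hd : g = d
    · subst hd
      simp only [step, Ins.dst, Ins.val, Function.update_self]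
      rw [hs a hi.2.1, hs b hi.2.2]
    · rw [step_neq _ _ _ _ (by change g ≠ d; exact hd), step_neq _ _ _ _ (by change g ≠ d; exact hd),
        hs g hg]
  | or d a b =>
    unfold subS
    rw [run_cons, run_nil]
    by_cases hd : g = d
    · subst hd
      simp only [step, Ins.dst, Ins.val, Function.update_self]
      rw [hs a hi.2.1, hs b hi.2.2]
    · rw [step_neq _ _ _ _ (by change g ≠ d; exact hd), step_neq _ _ _ _ (by change g ≠ d; exact hd),
        hs g hg]
  | not d a =>
    unfold subS
    rw [run_cons, run_nil]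
    by_cases hd : g = d
    · subst hd
      simp only [step, Ins.dst, Ins.val, Function.update_self]
      rw [hs a hi.2]
    · rw [step_neq _ _ _ _ (by change g ≠ d; exact hd), step_neq _ _ _ _ (by change g ≠ d; exact hd),
        hs g hg]

lemma subS_run (n R M : ℕ) (φ : ℕ → ℕ) (X : ℕ → Bool) (P : List Ins) : (∀ i ∈ P, i.ok R M) →
    ∀ s s' : ℕ → Bool, (∀ g < R, s g = s' g) → ∀ g < R,
    run X s (P.flatMap (subS n R φ)) g = run (fun p => sel n (φ p) X) s' P g := by
  induction P with
  | nil => intro _ s s' hs g hg; exact hs g hg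
  | cons i P ih =>
    intro hP s s' hs g hg
    rw [List.flatMap_cons, run_append, run_cons]
    exact ih (fun i' hi' => hP i' (List.mem_cons_of_mem _ hi')) _ _
      (subS_step n R M φ X i (hP i List.mem_cons_self) s s' hs) g hg

lemma subS_length (n R : ℕ) (φ : ℕ → ℕ) (i : Ins) :
    (subS n R φ i).length ≤ n * (2 * LL n + 2) + 2 := by
  cases i with
  | var d p =>
    unfold subS
    rw [List.length_append]
    have := selP_length n (φ p) R
    simp only [List.length_cons, List.length_nil]
    omega
  | cst d b => simp [subS]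
  | and d a b => simp [subS]
  | or d a b => simp [subS]
  | not d a => simp [subS]

lemma subS_ok (n R M : ℕ) (φ : ℕ → ℕ) (hφ : ∀ p < M, ∀ b < LL n, ∀ c, apos n (φ p) b c < n)
    (i : Ins) (hi : i.ok R M ∧ i.isNot = false) :
    ∀ q ∈ subS n R φ i, q.ok (R + 3) n ∧ q.isNot = false := by
  intro q hq
  obtain ⟨h1, h2⟩ := hi
  cases i with
  | var d p =>
    unfold subS at hq
    rw [List.mem_append, List.mem_singleton] at hq
    rcases hq with hq | rfl
    · exact selP_ok n (φ p) R (hφ p h1.2) q hq
    · have := h1.1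
      exact ⟨⟨by omega, by omega, by omega⟩, rfl⟩
  | cst d b =>
    unfold subS at hq
    rw [List.mem_singleton] at hq
    subst hq
    have h3 : d < R := h1
    exact ⟨by change d < R + 3; omega, rfl⟩
  | and d a b =>
    unfold subS at hq
    rw [List.mem_singleton] at hq
    subst hq
    obtain ⟨g1, g2, g3⟩ := h1
    exact ⟨⟨by omega, by omega, by omega⟩, rfl⟩
  | or d a b =>
    unfold subS at hq
    rw [List.mem_singleton] at hq
    subst hq
    obtain ⟨g1, g2, g3⟩ := h1
    exact ⟨⟨by omega, by omega, by omega⟩, rfl⟩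
  | not d a => exact absurd h2 (by simp [Ins.isNot])

end SCup

open SCup in
/-- **Upper bound.**  Copies on selected variables of a function with a short program. -/
theorem copies_upper (n K m : ℕ) (hn : K * m * (2 * LL n + 1) ≤ n) (F : (Fin m → Bool) → Bool)
    (P : List Ins) (R out : ℕ) (hout : out < R) (hok : ∀ i ∈ P, i.ok R m ∧ i.isNot = false)
    (hP : ∀ X s, run X s P out = F (rst m X)) :
    ∃ D : Layered n, (∀ x, D.eval x = selF n (K * m) (copyF K m F) x) ∧ D.negations = 0 ∧
      D.maxWidth ≤ R + 4 ∧
      D.size ≤ (K * (P.length * (n * (2 * LL n + 2) + 2) + 1) + 1) * (R + 4) := by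
  have hpos : ∀ j < K, ∀ p < m, ∀ b < LL n, ∀ c, apos n (j * m + p) b c < n := by
    intro j hj p hp b hb c
    have h1 : (j + 1) * m ≤ K * m := Nat.mul_le_mul_right _ hj
    rw [add_mul, one_mul] at h1
    have h2 := apos_lt n (K * m) (j * m + p) b c (by omega) hb
    have h3 : K * m * (2 * LL n + 1) = 2 * (K * m * LL n) + K * m := by ring
    omega
  have hval : ∀ j X s, run X s (P.flatMap (subS n R (fun p => j * m + p))) out
      = F (rst m (fun p => sel n (j * m + p) X)) := by
    intro j X s
    rw [subS_run n R m _ X P (fun i hi => (hok i hi).1) s s (fun _ _ => rfl) out hout, hP]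
  obtain ⟨E, h1, h2, h3, h4⟩ := exists_orL (R + 3) n (P.length * (n * (2 * LL n + 2) + 2))
    ((List.range K).map (fun j => (P.flatMap (subS n R (fun p => j * m + p)), out)))
    (fun Q X => run X (fun _ => false) Q.1 Q.2) (by
      intro Q hQ
      rw [List.mem_map] at hQ
      obtain ⟨j, hj, rfl⟩ := hQ
      rw [List.mem_range] at hj
      refine ⟨by change out < R + 3; omega, ?_, ?_, ?_⟩
      · intro q hq
        change q ∈ P.flatMap (subS n R (fun p => j * m + p)) at hq
        rw [List.mem_flatMap] at hq
        obtain ⟨i, hi, hq⟩ := hq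
        exact subS_ok n R m _ (hpos j hj) i (hok i hi) q hq
      · exact flatMap_length_le' P _ _ (subS_length n R _)
      · intro X s
        simp only
        rw [hval, hval])
  refine ⟨E, fun x => ?_, h2, h3, ?_⟩
  · have h5 := h1 (ext x)
    rw [rst_ext] at h5
    rw [h5]
    apply Bool.eq_iff_iff.mpr
    unfold selF copyF
    rw [decide_eq_true_eq, List.any_eq_true]
    have key : ∀ j < K, rst m (fun p => sel n (j * m + p) (ext x))
        = rst m (fun p => ext (fun i : Fin (K * m) => sel n i.val (ext x)) (j * m + p)) := by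
      intro j hj
      funext q
      have h1 : (j + 1) * m ≤ K * m := Nat.mul_le_mul_right _ hj
      rw [add_mul, one_mul] at h1
      have h2 := q.isLt
      have h3 : j * m + q.val < K * m := by omega
      simp [rst, ext, h3]
    constructor
    · rintro ⟨Q, hQ, hv⟩
      rw [List.mem_map] at hQ
      obtain ⟨j, hj, rfl⟩ := hQ
      rw [List.mem_range] at hj
      simp only at hv
      rw [hval, key j hj] at hv
      exact ⟨j, hj, hv⟩
    · rintro ⟨j, hj, hv⟩
      refine ⟨_, List.mem_map.mpr ⟨j, List.mem_range.mpr hj, rfl⟩, ?_⟩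
      simp only
      rw [hval, key j hj]
      exact hv
  · rw [List.length_map, List.length_range] at h4
    exact h4

end Pool.Agent.Results.MP_2af48a_lc.FewNegations
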