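import Pool.Agent.Lib_MP_2af48a_lc.FewNegDefs

open Finset

namespace Pool.Agent.Results.MP_2af48a_lc.FewNegations

/-! ### NOT gates above a set of variables -/

/-- Does a wire come from a variable in `P` or from one of the gates marked by `R`? -/
def Wire.above {n k : ℕ} (P : Finset (Fin n)) (R : Fin k → Bool) : Wire n k → Bool
  | .const _ => false
  | .var i => decide (i ∈ P)
  | .gate g => R g

/-- Does one of the input wires of a gate come from a variable in `P` or from a marked gate? -/
def Gate.above {n k : ℕ} (P : Finset (Fin n)) (R : Fin k → Bool) : Gate n k → Bool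
  | .and a b => a.above P R || b.above P R
  | .or a b => a.above P R || b.above P R
  | .not a => a.above P R

/-- Is gate number `g` above `P`, that is, is there a path from a variable in `P` to this gate? -/
def Circuit.above {n : ℕ} (C : Circuit n) (P : Finset (Fin n)) (g : ℕ) (hg : g < C.size) : Bool :=
  (C.gate ⟨g, hg⟩).above P (fun g' => C.above P g'.val (lt_trans g'.isLt hg))
termination_by g
decreasing_by exact g'.isLt

/-- The number of NOT gates above `P`. -/
def Circuit.negationsAbove {n : ℕ} (C : Circuit n) (P : Finset (Fin n)) : ℕ :=
  (univ.filter (fun g : Fin C.size =>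
    (C.gate g).isNot = true ∧ C.above P g.val g.isLt = true)).card

/-- Which gates of layer `j` are above `P`, that is, reached by a path from a variable in `P`? -/
def Layered.above {n : ℕ} (C : Layered n) (P : Finset (Fin n)) : (j : ℕ) → Fin (C.width j) → Bool
  | 0 => fun _ => false
  | j + 1 => fun g => (C.gate j g).above P (C.above P j)

/-- The number of NOT gates above `P`. -/
def Layered.negationsAbove {n : ℕ} (C : Layered n) (P : Finset (Fin n)) : ℕ :=
  ∑ j ∈ range C.layers, (univ.filter (fun g =>
    (C.gate j g).isNot = true ∧ C.above P (j + 1) g = true)).card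

/-- Functions computed by layered circuits of polynomial size and polylogarithmic width with a set
of `N n` variables above which there are at most `r n` NOT gates; all other NOT gates are free. -/
def SCAbove (N r : ℕ → ℕ) (f : (n : ℕ) → (Fin n → Bool) → Bool) : Prop :=
  ∃ C : (n : ℕ) → Layered n, (∀ n x, (C n).eval x = f n x) ∧
    PolyBounded (fun n => (C n).size) ∧ PolylogBounded (fun n => (C n).maxWidth) ∧
    ∀ n, ∃ P : Finset (Fin n), N n ≤ P.card ∧ (C n).negationsAbove P ≤ r n

/-- Functions computed by circuits of polynomial size and polylogarithmic depth with a set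
of `N n` variables above which there are at most `r n` NOT gates; all other NOT gates are free. -/
def NCAbove (N r : ℕ → ℕ) (f : (n : ℕ) → (Fin n → Bool) → Bool) : Prop :=
  ∃ C : (n : ℕ) → Circuit n, (∀ n x, (C n).eval x = f n x) ∧
    PolyBounded (fun n => (C n).size) ∧ PolylogBounded (fun n => (C n).depth) ∧
    ∀ n, ∃ P : Finset (Fin n), N n ≤ P.card ∧ (C n).negationsAbove P ≤ r n

end Pool.Agent.Results.MP_2af48a_lc.FewNegations
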