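import Pool.Agent.Lib_MP_2af48a_lc.AboveSel

open Finset Filter

namespace Pool.Agent.Results.MP_2af48a_lc.FewNegations

/-! ## Parameters -/

/-- number of selected variables -/
def m0 (N : ℕ → ℕ) (n : ℕ) : ℕ := N n / (2 * LL n + 1)

/-- the exponent -/
noncomputable def Rx (N r : ℕ → ℕ) (n : ℕ) : ℝ := Real.logb 2 (N n) - r n

lemma m0_mul_le (N : ℕ → ℕ) (n : ℕ) : m0 N n * (2 * LL n + 1) ≤ N n := Nat.div_mul_le_self _ _

lemma m0_le (N : ℕ → ℕ) (n : ℕ) : m0 N n ≤ N n := Nat.div_le_self _ _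

/-- polylogarithmic terms are small -/
lemma polylog_le (N r : ℕ → ℕ) (δ : ℝ) (hδ : 0 < δ)
    (hr : Tendsto (fun n : ℕ => Rx N r n / (Real.logb 2 n) ^ δ) atTop atTop) (K c : ℕ) :
    ∀ᶠ n : ℕ in atTop, (K : ℝ) * ((Nat.log 2 n : ℝ) + 1) ^ c ≤ (2 : ℝ) ^ (Rx N r n / 7) := by
  have hlog : Tendsto (fun n : ℕ => Real.logb 2 (n : ℝ)) atTop atTop :=
    (Real.tendsto_logb_atTop (by norm_num)).comp tendsto_natCast_atTop_atTop
  have hlo : ∀ᶠ x : ℝ in atTop, Real.log x ≤ x ^ δ := by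
    have h := (isLittleO_log_rpow_atTop hδ).bound (by norm_num : (0 : ℝ) < 1)
    filter_upwards [h, eventually_ge_atTop 1] with x hx hx1
    rw [one_mul, Real.norm_eq_abs, Real.norm_eq_abs, abs_of_nonneg (Real.log_nonneg hx1),
      abs_of_nonneg (Real.rpow_nonneg (by linarith) _)] at hx
    exact hx
  filter_upwards [hr.eventually_ge_atTop (14 * ((K : ℝ) + 2 * c)), hlog.eventually_ge_atTop 1,
    hlog.eventually hlo, eventually_ge_atTop 2] with n h1 h2 h2l h3
  set L := Real.logb 2 (n : ℝ) with hL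
  have hn0 : (0 : ℝ) < n := by exact_mod_cast (by omega : 0 < n)
  have hT1 : 1 ≤ L ^ δ := Real.one_le_rpow h2 hδ.le
  have h4 : (14 * ((K : ℝ) + 2 * c)) * L ^ δ ≤ Rx N r n := by
    rwa [le_div_iff₀ (by linarith)] at h1
  have hl1 : (Nat.log 2 n : ℝ) ≤ L := by
    rw [hL, Real.le_logb_iff_rpow_le (by norm_num) hn0, Real.rpow_natCast]
    exact_mod_cast Nat.pow_log_le_self 2 (by omega : n ≠ 0)
  have hl2 : (0.5 : ℝ) ≤ Real.log 2 := by
    have := Real.log_two_gt_d9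
    linarith
  have hl3 : Real.log 2 ≤ 1 := by
    have := Real.log_two_lt_d9
    linarith
  have hK0 : (0 : ℝ) ≤ K := Nat.cast_nonneg K
  have hc0 : (0 : ℝ) ≤ c := Nat.cast_nonneg c
  have h5 : (Nat.log 2 n : ℝ) + 1 ≤ 2 * L := by linarith
  have hKe : (K : ℝ) ≤ Real.exp K := by
    have := Real.add_one_le_exp (K : ℝ)
    linarith
  have h6 : ((Nat.log 2 n : ℝ) + 1) ^ c ≤ Real.exp (c * (1 + L ^ δ)) := by
    calc ((Nat.log 2 n : ℝ) + 1) ^ c ≤ (2 * L) ^ c := pow_le_pow_left₀ (by positivity) h5 c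
      _ = Real.exp (Real.log ((2 * L) ^ c)) := (Real.exp_log (by positivity)).symm
      _ ≤ Real.exp (c * (1 + L ^ δ)) := by
          apply Real.exp_le_exp.mpr
          rw [Real.log_pow, Real.log_mul (by norm_num) (by linarith)]
          apply mul_le_mul_of_nonneg_left _ hc0
          linarith
  calc (K : ℝ) * ((Nat.log 2 n : ℝ) + 1) ^ c ≤ Real.exp K * Real.exp (c * (1 + L ^ δ)) :=
        mul_le_mul hKe h6 (by positivity) (by positivity)
    _ = Real.exp (K + c * (1 + L ^ δ)) := (Real.exp_add _ _).symm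
    _ ≤ Real.exp (Real.log 2 * (Rx N r n / 7)) := by
        apply Real.exp_le_exp.mpr
        have e1 : (K : ℝ) ≤ K * L ^ δ := le_mul_of_one_le_right hK0 hT1
        have e2 : (c : ℝ) ≤ c * L ^ δ := le_mul_of_one_le_right hc0 hT1
        have e3 : 2 * ((K : ℝ) + 2 * c) * L ^ δ ≤ Rx N r n / 7 := by linarith
        have e4 : 0 ≤ Rx N r n / 7 := le_trans (by positivity) e3
        nlinarith
    _ = (2 : ℝ) ^ (Rx N r n / 7) := (Real.rpow_def_of_pos (by norm_num) _).symm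

/-- **Growth of the number of variables of a copy.** -/
theorem growthA (N r : ℕ → ℕ) (hN : ∀ n, N n ≤ n) (δ : ℝ) (hδ : 0 < δ)
    (hr : Tendsto (fun n : ℕ => Rx N r n / (Real.logb 2 n) ^ δ) atTop atTop)
    (q : ℕ) (hq : 1 ≤ δ * q) (K : ℕ) :
    ∀ᶠ n : ℕ in atTop, 3125 ≤ (2 : ℝ) ^ (Rx N r n / 7) ∧
      ((2 : ℝ) ^ (Rx N r n / 7)) ^ 6 ≤ mb (fun _ => r n) (m0 N n) ∧
      nb (fun _ => r n) (m0 N n) ≤ m0 N n ∧
      K ≤ Nat.log 2 (mb (fun _ => r n) (m0 N n)) ∧
      K * (Nat.log 2 n + 1) ≤ (Nat.log 2 (mb (fun _ => r n) (m0 N n))) ^ q := by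
  have hlog : Tendsto (fun n : ℕ => Real.logb 2 (n : ℝ)) atTop atTop :=
    (Real.tendsto_logb_atTop (by norm_num)).comp tendsto_natCast_atTop_atTop
  filter_upwards [polylog_le N r δ hδ hr 3125 1, polylog_le N r δ hδ hr 24 2,
    hr.eventually_ge_atTop (4 * (K : ℝ) + 4), hlog.eventually_ge_atTop 1, eventually_ge_atTop 2]
    with n hA hB hC h2 h3
  set L := Real.logb 2 (n : ℝ) with hL
  set E := (2 : ℝ) ^ (Rx N r n / 7) with hE
  set t := r n with ht
  set l := Nat.log 2 n with hl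
  have hn0 : (0 : ℝ) < n := by exact_mod_cast (by omega : 0 < n)
  have hK0 : (0 : ℝ) ≤ K := Nat.cast_nonneg K
  have hl0 : (0 : ℝ) ≤ l := Nat.cast_nonneg l
  have hT1 : 1 ≤ L ^ δ := Real.one_le_rpow h2 hδ.le
  have hR : (4 * (K : ℝ) + 4) * L ^ δ ≤ Rx N r n := by
    rwa [le_div_iff₀ (by linarith)] at hC
  have hRpos : 4 ≤ Rx N r n := by nlinarith
  have hE1 : 3125 ≤ E := by
    calc (3125 : ℝ) ≤ 3125 * ((l : ℝ) + 1) ^ 1 := by rw [pow_one]; nlinarith
      _ ≤ E := by exact_mod_cast hA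
  have hEpos : 0 < E := by linarith
  have hE7 : E ^ 7 = (2 : ℝ) ^ (Rx N r n) := by
    rw [hE, ← Real.rpow_natCast, ← Real.rpow_mul (by norm_num)]
    congr 1
    push_cast
    ring
  -- `N n` is positive
  have hN0 : N n ≠ 0 := by
    intro h
    unfold Rx at hRpos
    rw [h, Nat.cast_zero, Real.logb_zero] at hRpos
    have : (0 : ℝ) ≤ r n := Nat.cast_nonneg _
    linarith
  have hNpos : (0 : ℝ) < N n := by exact_mod_cast Nat.pos_of_ne_zero hN0
  have hNE : (N n : ℝ) = E ^ 7 * 2 ^ t := by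
    rw [hE7, Rx, Real.rpow_sub (by norm_num), Real.rpow_logb (by norm_num) (by norm_num) hNpos,
      Real.rpow_natCast, div_mul_cancel₀ _ (by positivity)]
  -- the number of NOT gates
  have htl : t ≤ l := by
    rw [hl]
    apply Nat.le_log_of_pow_le (by norm_num)
    have e1 : (1 : ℝ) ≤ E ^ 7 := one_le_pow₀ (by linarith)
    have e2 : ((2 : ℝ)) ^ t ≤ N n := by
      rw [hNE]
      exact le_mul_of_one_le_left (by positivity) e1
    have e3 : (2 : ℝ) ^ t ≤ n := le_trans e2 (by exact_mod_cast hN n)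
    exact_mod_cast e3
  set m := m0 N n with hm
  -- lower bound for `m`
  have hLL : 2 * LL n + 1 = 2 * l + 3 := by
    unfold LL
    omega
  have hN2 : (N n : ℝ) < (m + 1) * (2 * l + 3) := by
    have : N n < (2 * LL n + 1) * (N n / (2 * LL n + 1) + 1) :=
      Nat.lt_mul_div_succ _ (Nat.succ_pos _)
    rw [hLL] at this
    have h4 : N n < (2 * l + 3) * (m + 1) := by
      rw [hm, m0, hLL]
      exact this
    have h5 : (N n : ℝ) < (2 * l + 3) * (m + 1) := by exact_mod_cast h4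
    linarith
  set c := nb (fun _ => t) m with hc
  have hcval : (c : ℝ) ≤ 2 ^ t * (l + 2) := by
    have : c = 2 ^ t * (t + 1) + 1 := rfl
    have h1 : 1 ≤ 2 ^ t := Nat.one_le_two_pow
    have h4 : c ≤ 2 ^ t * (l + 2) := by
      rw [this]
      calc 2 ^ t * (t + 1) + 1 ≤ 2 ^ t * (t + 1) + 2 ^ t := by omega
        _ = 2 ^ t * (t + 2) := by ring
        _ ≤ _ := Nat.mul_le_mul_left _ (by omega)
    exact_mod_cast h4
  have hc1 : 1 ≤ c := nb_pos _ _
  set M := mb (fun _ => t) m with hM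
  have hM2 : (m : ℝ) < (M + 1) * c := by
    have h4 : m < c * (M + 1) := Nat.lt_mul_div_succ m (nb_pos _ _)
    have h5 : (m : ℝ) < c * (M + 1) := by exact_mod_cast h4
    linarith
  have hB' : 24 * ((l : ℝ) + 1) ^ 2 ≤ E := by exact_mod_cast hB
  have h2t : (1 : ℝ) ≤ 2 ^ t := one_le_pow₀ (by norm_num)
  have hc1' : (1 : ℝ) ≤ c := by exact_mod_cast hc1
  -- `E ^ 6 ≤ M`
  have hM6 : E ^ 6 ≤ M := by
    have e1 : E ^ 7 * 2 ^ t < ((M + 1) * c + 1) * (2 * l + 3) := by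
      rw [← hNE]
      refine lt_of_lt_of_le hN2 ?_
      apply mul_le_mul_of_nonneg_right _ (by positivity)
      linarith
    have e2 : ((M + 1) * c + 1) * (2 * (l : ℝ) + 3) ≤ (M + 2) * (2 ^ t * (l + 2)) * (2 * l + 3) := by
      apply mul_le_mul_of_nonneg_right _ (by positivity)
      have hM0 : (0 : ℝ) ≤ M := Nat.cast_nonneg M
      calc ((M : ℝ) + 1) * c + 1 ≤ (M + 1) * c + c := by linarith
        _ = (M + 2) * c := by ring
        _ ≤ (M + 2) * (2 ^ t * (l + 2)) := mul_le_mul_of_nonneg_left hcval (by linarith)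
    have e3 : E ^ 7 * 2 ^ t < ((M + 2) * ((l + 2) * (2 * l + 3))) * 2 ^ t := by
      calc E ^ 7 * 2 ^ t < _ := e1
        _ ≤ _ := e2
        _ = _ := by ring
    have e4 : E ^ 7 < (M + 2) * ((l + 2) * (2 * l + 3)) := lt_of_mul_lt_mul_right e3 (by positivity)
    have e5 : ((l : ℝ) + 2) * (2 * l + 3) ≤ 6 * (l + 1) ^ 2 := by nlinarith
    have hM0 : (0 : ℝ) ≤ M := Nat.cast_nonneg M
    have e6 : E ^ 7 < (M + 2) * (E / 4) := by
      refine lt_of_lt_of_le e4 (mul_le_mul_of_nonneg_left ?_ (by linarith))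
      linarith
    have e7 : E ^ 6 * E < ((M + 2) / 4) * E := by
      calc E ^ 6 * E = E ^ 7 := by ring
        _ < _ := e6
        _ = _ := by ring
    have e8 : E ^ 6 < (M + 2) / 4 := lt_of_mul_lt_mul_right e7 hEpos.le
    have e9 : (1 : ℝ) ≤ E ^ 6 := one_le_pow₀ (by linarith)
    linarith
  have hM1 : 1 ≤ M := by
    have e9 : (1 : ℝ) ≤ E ^ 6 := one_le_pow₀ (by linarith)
    have : (1 : ℝ) ≤ M := le_trans e9 hM6
    exact_mod_cast this
  have hcm : c ≤ m := by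
    have h4 : M = m / c := rfl
    rw [h4] at hM1
    by_contra hlt
    push Not at hlt
    rw [Nat.div_eq_of_lt hlt] at hM1
    omega
  -- logarithm of `M`
  set lM := Nat.log 2 M with hlM
  have hlM1 : Rx N r n / 2 ≤ lM := by
    have e1 : M < 2 ^ (lM + 1) := Nat.lt_pow_succ_log_self (by norm_num) M
    have e2 : E ^ 6 < (2 : ℝ) ^ (((lM + 1 : ℕ)) : ℝ) := by
      rw [Real.rpow_natCast]
      exact lt_of_le_of_lt hM6 (by exact_mod_cast e1)
    have e3 : E ^ 6 = (2 : ℝ) ^ (6 * (Rx N r n / 7)) := by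
      rw [hE, ← Real.rpow_natCast, ← Real.rpow_mul (by norm_num)]
      congr 1
      push_cast
      ring
    rw [e3, Real.rpow_lt_rpow_left_iff (by norm_num)] at e2
    push_cast at e2
    linarith
  refine ⟨hE1, hM6, hcm, ?_, ?_⟩
  · have : (K : ℝ) ≤ lM := by nlinarith
    exact_mod_cast this
  · have hq0 : q ≠ 0 := by
      rintro rfl
      norm_num at hq
    have h12 : ((2 * (K : ℝ) + 2) * L ^ δ) ^ q ≤ (lM : ℝ) ^ q := by
      apply pow_le_pow_left₀ (by positivity)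
      linarith
    have h13 : 2 * (K : ℝ) + 2 ≤ (2 * (K : ℝ) + 2) ^ q := le_self_pow₀ (by linarith) hq0
    have h14 : L ≤ (L ^ δ) ^ q := by
      rw [← Real.rpow_natCast, ← Real.rpow_mul (by linarith)]
      calc L = L ^ (1 : ℝ) := (Real.rpow_one L).symm
        _ ≤ L ^ (δ * q) := Real.rpow_le_rpow_of_exponent_le h2 hq
    have h15 : (2 * (K : ℝ) + 2) * L ≤ (lM : ℝ) ^ q := by
      rw [mul_pow] at h12
      refine le_trans ?_ h12
      exact mul_le_mul h13 h14 (by linarith) (by positivity)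
    have hl1 : (l : ℝ) ≤ L := by
      rw [hL, Real.le_logb_iff_rpow_le (by norm_num) hn0, Real.rpow_natCast]
      exact_mod_cast Nat.pow_log_le_self 2 (by omega : n ≠ 0)
    have h16 : ((K * (l + 1) : ℕ) : ℝ) ≤ ((lM ^ q : ℕ) : ℝ) := by
      push_cast
      nlinarith
    exact_mod_cast h16

end Pool.Agent.Results.MP_2af48a_lc.FewNegations
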