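import Pool.Agent.Lib_MP_2af48a_lc.CopiesProof

open Finset Filter

namespace Pool.Agent.Results.MP_2af48a_lc.FewNegations

/-! ## Building circuits with several outputs -/

/-- values of an infinite sequence of gates -/
def tval {n : ℕ} (G : (g : ℕ) → Gate n g) (x : Fin n → Bool) (g : ℕ) : Bool :=
  (G g).val x (fun g' => tval G x g'.val)
termination_by g
decreasing_by exact g'.isLt

/-- depths of an infinite sequence of gates -/
def tdep {n : ℕ} (G : (g : ℕ) → Gate n g) (g : ℕ) : ℕ :=
  (G g).depth (fun g' => tdep G g'.val)
termination_by g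
decreasing_by exact g'.isLt

lemma tval_eq {n : ℕ} (G : (g : ℕ) → Gate n g) (x : Fin n → Bool) (g : ℕ) :
    tval G x g = (G g).val x (fun g' => tval G x g'.val) := by
  rw [tval]

lemma tdep_eq {n : ℕ} (G : (g : ℕ) → Gate n g) (g : ℕ) :
    tdep G g = (G g).depth (fun g' => tdep G g'.val) := by
  rw [tdep]

/-- the functions `F i` are computed by the first `s` gates of some sequence of gates without NOT
gates, in depth at most `d` -/
def Comp {n : ℕ} {ι : Type} (s d : ℕ) (F : ι → (Fin n → Bool) → Bool) : Prop :=
  ∃ G : (g : ℕ) → Gate n g, (∀ g < s, (G g).isNot = false) ∧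
    ∃ p : ι → ℕ, ∀ i, p i < s ∧ tdep G (p i) ≤ d ∧ ∀ x, tval G x (p i) = F i x

/-- where a new gate takes an input from -/
inductive Src (ι : Type) (n : ℕ)
  | fn (i : ι)
  | var (i : Fin n)
  | cst (b : Bool)

/-- value of a source -/
def Src.val {ι : Type} {n : ℕ} (F : ι → (Fin n → Bool) → Bool) (x : Fin n → Bool) : Src ι n → Bool
  | .fn i => F i x
  | .var i => x i
  | .cst b => b

/-- wire of a source -/
def Src.wire {ι : Type} {n : ℕ} (p : ι → ℕ) (g : ℕ) : Src ι n → Wire n g
  | .fn i => if h : p i < g then .gate ⟨p i, h⟩ else .const false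
  | .var i => .var i
  | .cst b => .const b

lemma tval_congr {n : ℕ} (G G' : (g : ℕ) → Gate n g) (s : ℕ) (h : ∀ g < s, G g = G' g)
    (x : Fin n → Bool) : ∀ g < s, tval G x g = tval G' x g := by
  intro g
  induction g using Nat.strong_induction_on with
  | _ g ih =>
    intro hg
    rw [tval_eq, tval_eq G', h g hg]
    congr 1
    funext g'
    exact ih g'.val g'.isLt (lt_trans g'.isLt hg)

lemma tdep_congr {n : ℕ} (G G' : (g : ℕ) → Gate n g) (s : ℕ) (h : ∀ g < s, G g = G' g) :
    ∀ g < s, tdep G g = tdep G' g := by
  intro g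
  induction g using Nat.strong_induction_on with
  | _ g ih =>
    intro hg
    rw [tdep_eq, tdep_eq G', h g hg]
    congr 1
    funext g'
    exact ih g'.val g'.isLt (lt_trans g'.isLt hg)

/-- Adding one layer of gates. -/
theorem Comp.layer {n : ℕ} {ι κ : Type} [Fintype κ] {s d : ℕ} {F : ι → (Fin n → Bool) → Bool}
    (hF : Comp s d F) (op : Bool) (a b : κ → Src ι n) :
    Comp (s + Fintype.card κ) (d + 1) (Sum.elim F (fun j x =>
      if op then ((a j).val F x && (b j).val F x) else ((a j).val F x || (b j).val F x))) := by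
  classical
  obtain ⟨G, hG, p, hp⟩ := hF
  let e := Fintype.equivFin κ
  let newG : (j : κ) → (g : ℕ) → Gate n g := fun j g =>
    if op then .and ((a j).wire p g) ((b j).wire p g) else .or ((a j).wire p g) ((b j).wire p g)
  let G' : (g : ℕ) → Gate n g := fun g =>
    if g < s then G g else if h : g - s < Fintype.card κ then newG (e.symm ⟨g - s, h⟩) g else G g
  have hsame : ∀ g < s, G' g = G g := by
    intro g hg
    simp only [G', if_pos hg]
  have hnew : ∀ j, G' (s + (e j).val) = newG j (s + (e j).val) := by
    intro j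
    have h1 : ¬ (s + (e j).val < s) := by omega
    have h2 : s + (e j).val - s < Fintype.card κ := by
      have := (e j).isLt
      omega
    simp only [G', if_neg h1, dif_pos h2]
    congr 1
    rw [Equiv.symm_apply_eq]
    apply Fin.ext
    simp
  have hwire : ∀ (c : Src ι n) (j : κ) (x : Fin n → Bool),
      (c.wire p (s + (e j).val)).val x (fun g' => tval G' x g'.val) = c.val F x := by
    intro c j x
    cases c with
    | fn i =>
      have h1 : p i < s + (e j).val := lt_of_lt_of_le (hp i).1 (Nat.le_add_right _ _)
      simp only [Src.wire, dif_pos h1, Wire.val, Src.val]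
      rw [tval_congr G' G s hsame x _ (hp i).1, (hp i).2.2]
    | var i => rfl
    | cst b => rfl
  have hwdep : ∀ (c : Src ι n) (j : κ),
      (c.wire p (s + (e j).val)).depth (fun g' => tdep G' g'.val) ≤ d := by
    intro c j
    cases c with
    | fn i =>
      have h1 : p i < s + (e j).val := lt_of_lt_of_le (hp i).1 (Nat.le_add_right _ _)
      simp only [Src.wire, dif_pos h1, Wire.depth]
      rw [tdep_congr G' G s hsame _ (hp i).1]
      exact (hp i).2.1
    | var i => exact Nat.zero_le _
    | cst b => exact Nat.zero_le _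
  refine ⟨G', ?_, Sum.elim p (fun j => s + (e j).val), ?_⟩
  · intro g hg
    by_cases h1 : g < s
    · rw [hsame g h1]
      exact hG g h1
    · have h2 : g - s < Fintype.card κ := by omega
      simp only [G', if_neg h1, dif_pos h2, newG]
      cases op <;> rfl
  · intro i
    rcases i with i | j
    · refine ⟨lt_of_lt_of_le (hp i).1 (Nat.le_add_right _ _), ?_, fun x => ?_⟩
      · simp only [Sum.elim_inl]
        rw [tdep_congr G' G s hsame _ (hp i).1]
        exact le_trans (hp i).2.1 (Nat.le_succ _)
      · simp only [Sum.elim_inl]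
        rw [tval_congr G' G s hsame x _ (hp i).1]
        exact (hp i).2.2 x
    · refine ⟨?_, ?_, fun x => ?_⟩
      · simp only [Sum.elim_inr]
        have := (e j).isLt
        omega
      · simp only [Sum.elim_inr]
        rw [tdep_eq, hnew]
        have h1 := hwdep (a j) j
        have h2 := hwdep (b j) j
        simp only [newG]
        cases op
        · simp only [Bool.false_eq_true, if_false, Gate.depth]
          omega
        · simp only [if_true, Gate.depth]
          omega
      · simp only [Sum.elim_inr]
        rw [tval_eq, hnew]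
        have h1 := hwire (a j) j x
        have h2 := hwire (b j) j x
        simp only [newG]
        cases op
        · simp only [Bool.false_eq_true, if_false, Gate.val]
          rw [h1, h2]
        · simp only [if_true, Gate.val]
          rw [h1, h2]

/-- Change of the index set. -/
lemma Comp.reindex {n : ℕ} {ι κ : Type} {s d s' d' : ℕ} {F : ι → (Fin n → Bool) → Bool}
    (hF : Comp s d F) (hs : s ≤ s') (hd : d ≤ d') (F' : κ → (Fin n → Bool) → Bool)
    (q : κ → ι) (hq : ∀ j x, F' j x = F (q j) x) : Comp s' d' F' := by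
  obtain ⟨G, hG, p, hp⟩ := hF
  refine ⟨fun g => if g < s then G g else .or (.const false) (.const false), ?_, fun j => p (q j), ?_⟩
  · intro g _
    by_cases h : g < s
    · simp only [if_pos h]
      exact hG g h
    · simp only [if_neg h]
      rfl
  · intro j
    obtain ⟨h1, h2, h3⟩ := hp (q j)
    have hsame : ∀ g < s, (fun g => if g < s then G g else .or (.const false) (.const false) :
        (g : ℕ) → Gate n g) g = G g := by
      intro g hg
      simp only [if_pos hg]
    refine ⟨lt_of_lt_of_le h1 hs, ?_, fun x => ?_⟩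
    · rw [tdep_congr _ G s hsame _ h1]
      exact le_trans h2 hd
    · rw [tval_congr _ G s hsame x _ h1, h3, hq]

/-- big conjunction or disjunction over `Fin N` -/
def big (op : Bool) (N : ℕ) (v : ℕ → Bool) : Bool :=
  if op then decide (∀ a < N, v a = true) else decide (∃ a < N, v a = true)

lemma big_split (op : Bool) (N : ℕ) (v : ℕ → Bool) :
    big op (N + N) v = big op N (fun a => if op then (v a && v (a + N)) else (v a || v (a + N))) := by
  cases op
  · simp only [big, Bool.false_eq_true, if_false]
    apply Bool.eq_iff_iff.mpr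
    simp only [decide_eq_true_eq, Bool.or_eq_true]
    constructor
    · rintro ⟨a, ha, h⟩
      by_cases h1 : a < N
      · exact ⟨a, h1, Or.inl h⟩
      · exact ⟨a - N, by omega, Or.inr (by rw [show a - N + N = a by omega]; exact h)⟩
    · rintro ⟨a, ha, h | h⟩
      · exact ⟨a, by omega, h⟩
      · exact ⟨a + N, by omega, h⟩
  · simp only [big, if_true]
    apply Bool.eq_iff_iff.mpr
    simp only [decide_eq_true_eq, Bool.and_eq_true]
    constructor
    · intro h a ha
      exact ⟨h a (by omega), h (a + N) (by omega)⟩
    · intro h a ha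
      by_cases h1 : a < N
      · exact (h a h1).1
      · have := (h (a - N) (by omega)).2
        rw [show a - N + N = a by omega] at this
        exact this

/-- Trees of AND or OR gates. -/
theorem Comp.reduce {n : ℕ} (op : Bool) (κ : Type) [Fintype κ] : ∀ (l : ℕ) (ι : Type) (s d : ℕ)
    (F : ι → (Fin n → Bool) → Bool), Comp s d F → ∀ c : κ → ℕ → Src ι n,
    Comp (s + Fintype.card κ * 2 ^ l) (d + l + 1)
      (fun j x => big op (2 ^ l) (fun a => (c j a).val F x)) := by
  intro l
  induction l with
  | zero =>
    intro ι s d F hF c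
    have h := hF.layer op (fun j : κ => c j 0) (fun j : κ => c j 0)
    refine h.reindex (by simp) (by omega) _ (fun j => Sum.inr j) (fun j x => ?_)
    simp only [Sum.elim_inr, pow_zero]
    cases op
    · simp only [big, Bool.false_eq_true, if_false]
      apply Bool.eq_iff_iff.mpr
      simp
    · simp only [big, if_true]
      apply Bool.eq_iff_iff.mpr
      simp
  | succ l ih =>
    intro ι s d F hF c
    have h := hF.layer op (fun j : κ × Fin (2 ^ l) => c j.1 j.2.val)
      (fun j : κ × Fin (2 ^ l) => c j.1 (j.2.val + 2 ^ l))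
    have h2 := ih _ _ _ _ h (fun j a => if ha : a < 2 ^ l then .fn (Sum.inr (j, ⟨a, ha⟩)) else .cst op)
    refine h2.reindex (le_of_eq ?_) (by omega) _ (fun j => j) (fun j x => ?_)
    · rw [Fintype.card_prod, Fintype.card_fin, pow_succ]
      ring
    · rw [pow_succ, mul_two, big_split]
      cases op
      · simp only [big, Bool.false_eq_true, if_false]
        apply Bool.eq_iff_iff.mpr
        simp only [decide_eq_true_eq]
        apply exists_congr
        intro a
        apply and_congr_right
        intro ha
        rw [dif_pos ha]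
        simp [Src.val]
      · simp only [big, if_true]
        apply Bool.eq_iff_iff.mpr
        simp only [decide_eq_true_eq]
        apply forall_congr'
        intro a
        apply imp_congr_right
        intro ha
        rw [dif_pos ha]
        simp [Src.val]

theorem Comp.circuit {n : ℕ} {ι : Type} {s d : ℕ} {F : ι → (Fin n → Bool) → Bool}
    (hF : Comp s d F) (i : ι) : ∃ C : Circuit n, Pos C ∧ C.size = s ∧ C.depth ≤ d ∧
      ∀ x, C.eval x = F i x := by
  obtain ⟨G, hG, p, hp⟩ := hF
  obtain ⟨h1, h2, h3⟩ := hp i
  let C : Circuit n := ⟨s, fun g => G g.val, ⟨p i, h1⟩⟩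
  refine ⟨C, fun g => hG g.val g.isLt, rfl, ?_, fun x => ?_⟩
  · have h4 := gateDepth_le C (fun g => tdep G g) (fun g hg => by
      rw [tdep_eq G g]) (p i) h1
    exact le_trans h4 h2
  · have h4 := gateVal_unique C x (fun g => tval G x g) (fun g hg => by
      rw [tval_eq G x g]) (p i) h1
    exact h4.trans (h3 x)

/-! ## Iterated AND-OR reachability in small depth -/

open MonotoneSeparation (run edges idx fn)

theorem run_comp (n w m : ℕ) (hw : 0 < w) (hm : 0 < m) (l1 l2 : ℕ) (h1 : m ≤ 2 ^ l1)
    (h2 : w ≤ 2 ^ l2) : ∀ t : ℕ, Comp (1 + t * ((w * m) * (w * m) + (w * m) * w * 2 ^ l1 + (w * m) * 2 ^ l2))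
      (1 + t * (l1 + l2 + 3)) (fun (p : Fin w × Fin m) (x : Fin n → Bool) => run (edges x) t p) := by
  intro t
  induction t with
  | zero =>
    refine ⟨fun g => .or (.const true) (.const true), fun g _ => rfl, fun _ => 0, fun p => ?_⟩
    refine ⟨Nat.lt_of_lt_of_le Nat.zero_lt_one (Nat.le_add_right _ _), ?_, fun x => ?_⟩
    · rw [tdep_eq]
      simp [Gate.depth, Wire.depth]
    · rw [tval_eq]
      simp [Gate.val, Wire.val, run]
  | succ t ih =>
    -- products
    have c1 : Comp (1 + t * ((w * m) * (w * m) + (w * m) * w * 2 ^ l1 + (w * m) * 2 ^ l2)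
        + (w * m) * (w * m)) (1 + t * (l1 + l2 + 3) + 1)
        (fun (j : (Fin w × Fin m) × (Fin w × Fin m)) (x : Fin n → Bool) =>
          run (edges x) t j.2 && edges x t j.2 j.1) := by
      have c := ih.layer true
        (fun j : (Fin w × Fin m) × (Fin w × Fin m) => Src.fn j.2)
        (fun j : (Fin w × Fin m) × (Fin w × Fin m) =>
          if h : idx t j.2 j.1 < n then Src.var ⟨idx t j.2 j.1, h⟩ else Src.cst false)
      refine c.reindex (le_of_eq ?_) le_rfl _ (fun j => Sum.inr j) (fun j x => ?_)
      · simp only [Fintype.card_prod, Fintype.card_fin]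
      · simp only [Sum.elim_inr, if_true, Src.val]
        congr 1
        unfold edges
        by_cases h : idx t j.2 j.1 < n
        · rw [dif_pos h, dif_pos h]
        · rw [dif_neg h, dif_neg h]
    have c2 : Comp (1 + t * ((w * m) * (w * m) + (w * m) * w * 2 ^ l1 + (w * m) * 2 ^ l2)
        + (w * m) * (w * m) + (w * m) * w * 2 ^ l1) (1 + t * (l1 + l2 + 3) + 1 + l1 + 1)
        (fun (j : (Fin w × Fin m) × Fin w) (x : Fin n → Bool) =>
          decide (∃ a, run (edges x) t (j.2, a) = true ∧ edges x t (j.2, a) j.1 = true)) := by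
      have c := c1.reduce false ((Fin w × Fin m) × Fin w) l1 _ _ _ _
        (fun j a => if h : a < m then Src.fn (j.1, (j.2, ⟨a, h⟩)) else Src.cst false)
      refine c.reindex (le_of_eq ?_) le_rfl _ (fun j => j) (fun j x => ?_)
      · simp only [Fintype.card_prod, Fintype.card_fin]
      · apply Bool.eq_iff_iff.mpr
        simp only [big, Bool.false_eq_true, if_false, decide_eq_true_eq]
        constructor
        · rintro ⟨a, h3, h4⟩
          refine ⟨a.val, lt_of_lt_of_le a.isLt h1, ?_⟩
          rw [dif_pos a.isLt]
          simp only [Src.val, Bool.and_eq_true]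
          exact ⟨h3, h4⟩
        · rintro ⟨a, _, hv⟩
          by_cases ham : a < m
          · rw [dif_pos ham] at hv
            simp only [Src.val, Bool.and_eq_true] at hv
            exact ⟨⟨a, ham⟩, hv⟩
          · rw [dif_neg ham] at hv
            exact absurd hv (by simp [Src.val])
    have c3 := c2.reduce true (Fin w × Fin m) l2 _ _ _ _
      (fun j i => if h : i < w then Src.fn (j, ⟨i, h⟩) else Src.cst true)
    refine c3.reindex (le_of_eq ?_) (le_of_eq ?_) _ (fun p => p) (fun p x => ?_)
    · simp only [Fintype.card_prod, Fintype.card_fin]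
      ring
    · ring
    · apply Bool.eq_iff_iff.mpr
      simp only [big, if_true, run, decide_eq_true_eq]
      constructor
      · intro h i _
        by_cases hi : i < w
        · rw [dif_pos hi]
          simp only [Src.val, decide_eq_true_eq]
          exact h ⟨i, hi⟩
        · rw [dif_neg hi]
          rfl
      · intro h i
        have hi := h i.val (lt_of_lt_of_le i.isLt h2)
        rw [dif_pos i.isLt] at hi
        simp only [Src.val, decide_eq_true_eq] at hi
        exact hi

/-- Circuits of small depth for the function `fn`. -/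
theorem fn_circuit (n w m : ℕ) (hw : 0 < w) (hm : 0 < m) (l1 l2 t : ℕ) (h1 : m ≤ 2 ^ l1)
    (h2 : w ≤ 2 ^ l2) : ∃ C : Circuit n, Pos C ∧
      C.size = 1 + t * ((w * m) * (w * m) + (w * m) * w * 2 ^ l1 + (w * m) * 2 ^ l2) ∧
      C.depth ≤ 1 + t * (l1 + l2 + 3) ∧ ∀ x, C.eval x = fn n w m hw hm t x :=
  (run_comp n w m hw hm l1 l2 h1 h2 t).circuit (⟨0, hw⟩, ⟨0, hm⟩)

end Pool.Agent.Results.MP_2af48a_lc.FewNegations
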