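import Pool.Agent.Lib_MP_2af48a_lc.AboveSel
import Pool.Agent.Lib_MP_2af48a_lc.NarrowUpper

open Finset Filter

namespace Pool.Agent.Results.MP_2af48a_lc.FewNegations

/-! ## Upper bounds in small depth -/

/-- source of the variable at position `p` -/
def psrc {ι : Type} (n p : ℕ) (b : Bool) : Src ι n := if h : p < n then .var ⟨p, h⟩ else .cst b

lemma psrc_val {ι : Type} (n p : ℕ) (F : ι → (Fin n → Bool) → Bool) (x : Fin n → Bool) :
    (psrc n p false : Src ι n).val F x = ext x p := by
  unfold psrc ext
  by_cases h : p < n
  · simp [h, Src.val]
  · simp [h, Src.val]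

/-- The selected values in small depth. -/
theorem sel_comp (n m l1 l2 : ℕ) (h1 : LL n ≤ 2 ^ l1) (h2 : n ≤ 2 ^ l2) :
    Comp (m * n * 2 ^ l1 + m * n + m * 2 ^ l2) (l1 + l2 + 3)
      (fun (i : Fin m) (x : Fin n → Bool) => sel n i.val (ext x)) := by
  classical
  have c0 : Comp (n := n) (ι := Empty) 0 0 (fun i _ => i.elim) :=
    ⟨fun g => .or (.const false) (.const false), fun g hg => absurd hg (Nat.not_lt_zero _),
      fun i => i.elim, fun i => i.elim⟩
  have c1 := Comp.reduce true (Fin m × Fin n) l1 Empty 0 0 _ c0
    (fun q b => if b < LL n then psrc n (apos n q.1.val b (q.2.val.testBit b)) false else .cst true)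
  have c2 := c1.layer true (fun q : Fin m × Fin n => .fn q) (fun q : Fin m × Fin n => .var q.2)
  have c3 := Comp.reduce false (Fin m) l2 _ _ _ _ c2
    (fun i j => if h : j < n then .fn (Sum.inr (i, ⟨j, h⟩)) else .cst false)
  refine c3.reindex (le_of_eq ?_) (by omega) _ (fun i => i) (fun i x => ?_)
  · rw [Fintype.card_prod, Fintype.card_fin, Fintype.card_fin]
    ring
  · unfold sel
    simp only [big, Bool.false_eq_true, if_false]
    apply Bool.eq_iff_iff.mpr
    simp only [decide_eq_true_eq]
    have key : ∀ (j : ℕ) (hj : j < n),
        (Src.val (Sum.elim (fun (q : Fin m × Fin n) (x : Fin n → Bool) => big true (2 ^ l1) (fun a =>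
          (if a < LL n then psrc n (apos n q.1.val a (q.2.val.testBit a)) false
            else Src.cst true : Src Empty n).val (fun i _ => i.elim) x))
          (fun (q : Fin m × Fin n) (x : Fin n → Bool) => if true = true then
            ((Src.fn q : Src (Fin m × Fin n) n).val (fun (q : Fin m × Fin n) (x : Fin n → Bool) =>
              big true (2 ^ l1) (fun a =>
                (if a < LL n then psrc n (apos n q.1.val a (q.2.val.testBit a)) false
                  else Src.cst true : Src Empty n).val (fun i _ => i.elim) x)) x &&
              (Src.var q.2 : Src (Fin m × Fin n) n).val (fun (q : Fin m × Fin n)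
              (x : Fin n → Bool) => big true (2 ^ l1) (fun a =>
                (if a < LL n then psrc n (apos n q.1.val a (q.2.val.testBit a)) false
                  else Src.cst true : Src Empty n).val (fun i _ => i.elim) x)) x)
            else false)) x (Src.fn (Sum.inr (i, ⟨j, hj⟩))) = true) ↔
        (ext x j = true ∧ ∀ b < LL n, ext x (apos n i.val b (j.testBit b)) = true) := by
      intro j hj
      simp only [Src.val, Sum.elim_inr, if_true, Bool.and_eq_true, big, decide_eq_true_eq]
      constructor
      · rintro ⟨e1, e2⟩
        refine ⟨by simpa [ext, hj] using e2, fun b hb => ?_⟩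
        have e3 := e1 b (lt_of_lt_of_le hb h1)
        rw [if_pos hb] at e3
        rw [← psrc_val (ι := Empty) n _ (fun i _ => i.elim) x]
        exact e3
      · rintro ⟨e1, e2⟩
        refine ⟨fun b _ => ?_, by simpa [ext, hj] using e1⟩
        by_cases hb : b < LL n
        · rw [if_pos hb]
          have e3 := e2 b hb
          rw [← psrc_val (ι := Empty) n _ (fun i _ => i.elim) x] at e3
          exact e3
        · rw [if_neg hb]
    constructor
    · rintro ⟨j, hj, h3, h4⟩
      refine ⟨j, lt_of_lt_of_le hj h2, ?_⟩
      rw [dif_pos hj]
      exact (key j hj).mpr ⟨h3, h4⟩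
    · rintro ⟨j, _, h3⟩
      by_cases hj : j < n
      · rw [dif_pos hj] at h3
        exact ⟨j, hj, (key j hj).mp h3⟩
      · rw [dif_neg hj] at h3
        exact absurd h3 (by simp [Src.val])

/-- Composition of a circuit with functions computed in small depth. -/
theorem Comp.comp {n m : ℕ} {s d : ℕ} {F : Fin m → (Fin n → Bool) → Bool} (hF : Comp s d F)
    (C : Circuit m) (hC : Pos C) : ∃ E : Circuit n, Pos E ∧ E.size = s + C.size ∧
      E.depth ≤ d + C.depth ∧ ∀ x, E.eval x = C.eval (fun i => F i x) := by
  classical
  obtain ⟨G, hG, p, hp⟩ := hF
  let fv : (g : ℕ) → Fin m → Wire n g := fun g i => if h : p i < g then .gate ⟨p i, h⟩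
    else .const false
  let fg : (g : ℕ) → (hg : s ≤ g) → Fin (g - s) → Wire n g := fun g hg g' =>
    .gate ⟨s + g'.val, by have := g'.isLt; omega⟩
  let G' : (g : ℕ) → Gate n g := fun g =>
    if h1 : g < s then G g else if h2 : g - s < C.size then
      (C.gate ⟨g - s, h2⟩).mapTo (fv g) (fg g (by omega)) else .or (.const false) (.const false)
  let E : Circuit n := ⟨s + C.size, fun g => G' g.val, ⟨s + C.out.val, by
    have := C.out.isLt
    omega⟩⟩
  have hG1 : ∀ g < s, G' g = G g := by
    intro g hg
    simp only [G', dif_pos hg]
  have hG2 : ∀ (g : ℕ) (hg : s ≤ g) (h2 : g - s < C.size), G' g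
      = (C.gate ⟨g - s, h2⟩).mapTo (fv g) (fg g hg) := by
    intro g hg h2
    have h1 : ¬ g < s := by omega
    simp only [G', dif_neg h1, dif_pos h2]
  refine ⟨E, ?_, rfl, ?_, fun x => ?_⟩
  · intro g
    change (G' g.val).isNot = false
    by_cases hg : g.val < s
    · rw [hG1 _ hg]
      exact hG _ hg
    · have h2 : g.val - s < C.size := by
        have := g.isLt
        change g.val < s + C.size at this
        omega
      rw [hG2 _ (by omega) h2, Gate.mapTo_isNot]
      exact hC _
  · let dd : ℕ → ℕ := fun g => if g < s then tdep G g else if h : g - s < C.size then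
      d + C.gateDepth (g - s) h else 0
    have h := gateDepth_le E dd (by
      intro g hg
      change g < s + C.size at hg
      change (G' g).depth _ ≤ _
      by_cases h1 : g < s
      · rw [hG1 _ h1]
        have e1 : dd g = tdep G g := if_pos h1
        rw [e1, tdep_eq]
        apply Gate.depth_mono
        intro g'
        have e2 : dd g'.val = tdep G g'.val := if_pos (lt_trans g'.isLt h1)
        exact e2.le
      · have h2 : g - s < C.size := by omega
        rw [hG2 _ (by omega) h2]
        have e1 : dd g = d + C.gateDepth (g - s) h2 := by
          change (if g < s then tdep G g else if h : g - s < C.size then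
            d + C.gateDepth (g - s) h else 0) = _
          rw [if_neg h1, dif_pos h2]
        rw [e1]
        have e3 := Gate.mapTo_depth (fv g) (fg g (by omega)) (C.gate ⟨g - s, h2⟩)
          (fun g' => C.gateDepth g'.val (lt_trans g'.isLt h2)) (fun g' : Fin g => dd g'.val) d
          (by
            intro i
            change (if h : p i < g then Wire.gate ⟨p i, h⟩ else Wire.const false : Wire n g).depth _
              ≤ d
            by_cases h3 : p i < g
            · rw [dif_pos h3]
              change dd (p i) ≤ d
              have e4 : dd (p i) = tdep G (p i) := if_pos (hp i).1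
              rw [e4]
              exact (hp i).2.1
            · rw [dif_neg h3]
              exact Nat.zero_le _)
          (by
            intro g'
            change dd (s + g'.val) ≤ _
            have h4 : s + g'.val - s = g'.val := by omega
            have h5 : g'.val < C.size := lt_trans g'.isLt h2
            have e5 : dd (s + g'.val) = d + C.gateDepth g'.val h5 := by
              change (if s + g'.val < s then tdep G (s + g'.val) else
                if h : s + g'.val - s < C.size then d + C.gateDepth (s + g'.val - s) h else 0) = _
              have h6 : ¬ (s + g'.val < s) := by omega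
              have h7 : s + g'.val - s < C.size := by omega
              rw [if_neg h6, dif_pos h7]
              congr 1
              simp only [h4]
            rw [e5]
            omega)
        have e6 : C.gateDepth (g - s) h2 = (C.gate ⟨g - s, h2⟩).depth
            (fun g' => C.gateDepth g'.val (lt_trans g'.isLt h2)) := by
          rw [Circuit.gateDepth]
        refine le_trans e3 ?_
        rw [e6]
        exact (Nat.add_comm _ _).le) E.out.val E.out.isLt
    have e : dd (s + C.out.val) = d + C.depth := by
      change (if s + C.out.val < s then tdep G (s + C.out.val) else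
        if h : s + C.out.val - s < C.size then d + C.gateDepth (s + C.out.val - s) h else 0) = _
      have h6 : ¬ (s + C.out.val < s) := by omega
      have h4 : s + C.out.val - s = C.out.val := by omega
      have h7 : s + C.out.val - s < C.size := by
        have := C.out.isLt
        omega
      rw [if_neg h6, dif_pos h7]
      simp only [h4]
      rfl
    exact le_trans h e.le
  · let V : ℕ → Bool := fun g => if g < s then tval G x g else if h : g - s < C.size then
      C.gateVal (fun i => F i x) (g - s) h else false
    have h := gateVal_unique E x V (by
      intro g hg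
      change g < s + C.size at hg
      change _ = (G' g).val x _
      by_cases h1 : g < s
      · rw [hG1 _ h1]
        have e1 : V g = tval G x g := if_pos h1
        rw [e1, tval_eq]
        congr 1
        funext g'
        have e2 : V g'.val = tval G x g'.val := if_pos (lt_trans g'.isLt h1)
        exact e2.symm
      · have h2 : g - s < C.size := by omega
        rw [hG2 _ (by omega) h2]
        have e1 : V g = C.gateVal (fun i => F i x) (g - s) h2 := by
          change (if g < s then tval G x g else if h : g - s < C.size then
            C.gateVal (fun i => F i x) (g - s) h else false) = _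
          rw [if_neg h1, dif_pos h2]
        rw [e1, Gate.mapTo_val, gateVal_eq]
        congr 1
        · funext i
          change F i x = (if h : p i < g then Wire.gate ⟨p i, h⟩ else Wire.const false :
            Wire n g).val x _
          have h3 : p i < g := lt_of_lt_of_le (hp i).1 (by omega)
          rw [dif_pos h3]
          change F i x = V (p i)
          have e4 : V (p i) = tval G x (p i) := if_pos (hp i).1
          rw [e4]
          exact ((hp i).2.2 x).symm
        · funext g'
          change _ = V (s + g'.val)
          have h4 : s + g'.val - s = g'.val := by omega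
          have h5 : g'.val < C.size := lt_trans g'.isLt h2
          have e5 : V (s + g'.val) = C.gateVal (fun i => F i x) g'.val h5 := by
            change (if s + g'.val < s then tval G x (s + g'.val) else
              if h : s + g'.val - s < C.size then C.gateVal (fun i => F i x) (s + g'.val - s) h
              else false) = _
            have h6 : ¬ (s + g'.val < s) := by omega
            have h7 : s + g'.val - s < C.size := by omega
            rw [if_neg h6, dif_pos h7]
            simp only [h4]
          rw [e5]) E.out.val E.out.isLt
    have e : V (s + C.out.val) = C.eval (fun i => F i x) := by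
      change (if s + C.out.val < s then tval G x (s + C.out.val) else
        if h : s + C.out.val - s < C.size then C.gateVal (fun i => F i x) (s + C.out.val - s) h
        else false) = _
      have h6 : ¬ (s + C.out.val < s) := by omega
      have h4 : s + C.out.val - s = C.out.val := by omega
      have h7 : s + C.out.val - s < C.size := by
        have := C.out.isLt
        omega
      rw [if_neg h6, dif_pos h7]
      simp only [h4]
      rfl
    exact h.trans e

/-- **Upper bound in small depth.** -/
theorem selF_circuit (n m : ℕ) (hm : m ≤ n) (C : Circuit m) (hC : Pos C) :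
    ∃ E : Circuit n, Pos E ∧ E.size ≤ 16 * (n + 1) ^ 3 + C.size ∧
      E.depth ≤ 2 * Nat.log 2 n + 5 + C.depth ∧
      ∀ x, E.eval x = selF n m C.eval x := by
  have h1 : LL n ≤ 2 ^ (Nat.log 2 n + 1) := (Nat.lt_two_pow_self).le
  have h2 : n ≤ 2 ^ (Nat.log 2 n + 1) := (Nat.lt_pow_succ_log_self (by norm_num) n).le
  obtain ⟨E, e1, e2, e3, e4⟩ := (sel_comp n m _ _ h1 h2).comp C hC
  refine ⟨E, e1, ?_, ?_, e4⟩
  · rw [e2]
    have h3 := two_pow_log_le n
    apply Nat.add_le_add_right
    calc m * n * 2 ^ (Nat.log 2 n + 1) + m * n + m * 2 ^ (Nat.log 2 n + 1)
        ≤ n * n * (2 * (n + 1)) + n * n + n * (2 * (n + 1)) := by gcongr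
      _ ≤ 16 * (n + 1) ^ 3 := by nlinarith [sq_nonneg (n : ℤ)]
  · refine le_trans e3 (by omega)

end Pool.Agent.Results.MP_2af48a_lc.FewNegations
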