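import Pool.Agent.Lib_MP_2af48a_lc.NarrowIface

set_option autoImplicit false

open Finset

namespace Pool.Agent.Results.MP_2af48a_lc.FewNegations

section NLRec

open StConnectivity (Dense popular exists_good restore dense_sub card_fixed_le card_prescribed
  MonLayered readVars readVars_card stateOf sepS sepS_iff step_sep width_le empty_layer)
open MonotoneSeparation (al EA yh EB run fn run_alice run_bob Inv pointed exists_ptr answer
  inv_step mk edges edges_mk run_congr pairOf xA xB)

/-- in a spread set there is a point which avoids few cells at all free positions -/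
lemma avoid_cells {V M : Type*} [DecidableEq V] [DecidableEq M] [Fintype V] [Fintype M]
    (r S : ℕ) (P : Finset (V → M)) (hP : P.Nonempty) (I : Finset V)
    (hd : Dense r P I) (Rd : Finset (V × M)) (hRd : Rd.card ≤ 4 * S) (hr : 4 * S < r) :
    ∃ x ∈ P, ∀ e ∈ Rd, e.1 ∉ I → x e.1 ≠ e.2 := by
  classical
  by_contra hcon
  push Not at hcon
  have hPc := hP.card_pos
  let A : V × M → Finset (V → M) := fun e =>
    P.filter (fun x => e.1 ∉ I ∧ x e.1 = e.2)
  have hA : ∀ e, (A e).card * r ≤ P.card := by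
    intro e
    by_cases h : e.1 ∉ I
    · have h1 := hd {e.1} (by simpa using h) (fun _ => e.2)
      have h2 : (P.filter (fun x => x e.1 = e.2)).card * r ≤ P.card := by simpa using h1
      refine le_trans (Nat.mul_le_mul_right _ (Finset.card_le_card ?_)) h2
      intro x hx
      simp only [A, mem_filter] at hx ⊢
      exact ⟨hx.1, hx.2.2⟩
    · have : A e = ∅ := by
        apply Finset.filter_eq_empty_iff.mpr
        rintro x _ ⟨h', _⟩
        exact h h'
      rw [this]
      simp
  have hcover : P ⊆ Rd.biUnion A := by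
    intro x hx
    obtain ⟨e, he, hI, hv⟩ := hcon x hx
    rw [Finset.mem_biUnion]
    exact ⟨e, he, by simp only [A, mem_filter]; exact ⟨hx, hI, hv⟩⟩
  have h1 : P.card * r ≤ (4 * S) * P.card := by
    calc P.card * r ≤ (Rd.biUnion A).card * r := Nat.mul_le_mul_right _ (Finset.card_le_card hcover)
      _ ≤ (∑ e ∈ Rd, (A e).card) * r := Nat.mul_le_mul_right _ Finset.card_biUnion_le
      _ = ∑ e ∈ Rd, (A e).card * r := Finset.sum_mul _ _ _
      _ ≤ ∑ _e ∈ Rd, P.card := Finset.sum_le_sum (fun e _ => hA e)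
      _ = Rd.card * P.card := by rw [Finset.sum_const, smul_eq_mul]
      _ ≤ (4 * S) * P.card := Nat.mul_le_mul_right _ hRd
  have h2 : (4 * S) * P.card < r * P.card := Nat.mul_lt_mul_of_pos_right hr hPc
  have h3 : P.card * r = r * P.card := mul_comm _ _
  omega

/-- Violated edge: true for Alice, false for Bob, and both cells are in the set `Rd`. -/
def Viol {T w m : ℕ} (w0 : Fin w) (Rd : Finset ((Fin T × Fin w) × Fin m))
    (x : Fin T × Fin w → Fin m) (y : (Fin T × Fin w) × Fin m → Option (Fin w)) : Prop :=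
  ∃ (s : ℕ) (p p' : Fin w × Fin m), al x s p ∧ al x (s + 1) p' ∧
    yh w0 y (s + 1) p' = some p.1 ∧ yh w0 y s p = none ∧
    (∀ h : 0 < s ∧ s - 1 < T, ((⟨s - 1, h.2⟩, p.1), p.2) ∈ Rd) ∧
    (∀ h : s < T, ((⟨s, h⟩, p'.1), p'.2) ∈ Rd)

/-- base case: a violated edge among the cells of `I` contradicts the invariant -/
lemma viol_inv {T w m : ℕ} (hw : 0 < w) (hT : 1 ≤ T) (Rd : Finset ((Fin T × Fin w) × Fin m))
    (x : Fin T × Fin w → Fin m) (y : (Fin T × Fin w) × Fin m → Option (Fin w))
    (hv : Viol ⟨0, hw⟩ Rd x y) (I : Finset (Fin T × Fin w))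
    (hav : ∀ e ∈ Rd, e.1 ∉ I → x e.1 ≠ e.2) (z : Fin T × Fin w → Option (Fin w))
    (hyz : ∀ v ∈ I, y (v, x v) = z v) (hinv : Inv I z 0) : False := by
  obtain ⟨i1, i2, i3⟩ := hinv
  obtain ⟨s, p, p', hl1, hl2, hup, hlow, hR1, hR2⟩ := hv
  -- the cell below
  have hlowI : ∀ h : 0 < s ∧ s - 1 < T, (⟨s - 1, h.2⟩, p.1) ∈ I ∧ z (⟨s - 1, h.2⟩, p.1) = none := by
    intro h
    have hx := (hl1 h).symm
    have hmem : (⟨s - 1, h.2⟩, p.1) ∈ I := by
      by_contra hI
      exact hav _ (hR1 h) hI hx
    refine ⟨hmem, ?_⟩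
    have h1 := hyz _ hmem
    rw [hx] at h1
    rw [← h1]
    unfold yh at hlow
    rw [if_neg (by omega), dif_pos h.2] at hlow
    exact hlow
  have hupI : ∀ h : s < T, (⟨s, h⟩, p'.1) ∈ I ∧ z (⟨s, h⟩, p'.1) = some p.1 := by
    intro h
    have hx : x (⟨s, h⟩, p'.1) = p'.2 := by
      have := (hl2 ⟨by omega, by simpa using h⟩).symm
      simpa using this
    have hmem : (⟨s, h⟩, p'.1) ∈ I := by
      by_contra hI
      exact hav _ (hR2 h) hI hx
    refine ⟨hmem, ?_⟩
    have h1 := hyz _ hmem
    rw [hx] at h1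
    rw [← h1]
    unfold yh at hup
    rw [if_neg (by omega), dif_pos (by simpa using h)] at hup
    simpa using hup
  have hs1 : 1 ≤ s := by
    by_cases h : s < T
    · obtain ⟨h1, h2⟩ := hupI h
      have := i1 _ h1 (by rw [h2]; simp)
      simp only at this
      omega
    · omega
  have hsT : s - 1 < T := by
    by_contra hge
    unfold yh at hlow
    rw [if_neg (by omega), dif_neg hge] at hlow
    simp at hlow
  obtain ⟨h1, h2⟩ := hlowI ⟨hs1, hsT⟩
  by_cases h : s < T
  · obtain ⟨h3, h4⟩ := hupI h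
    exact i2 _ h3 p.1 h4 _ h1 (by simp only; omega) rfl h2
  · unfold yh at hup
    rw [if_neg (by omega), dif_neg (by simpa using h)] at hup
    rw [Option.some.injEq] at hup
    exact i3 _ h1 (by simp only; omega) (by simp only; rw [← hup]) h2

/-- The recursion over time intervals. -/
theorem nl_recursion {T w r : ℕ} {σ : Type*} [Fintype σ] [DecidableEq σ]
    (r1 q S R δ lc lq Tm : ℕ) (hw0 : 0 < w)
    (hr : r = 4 * q * r1) (hr1 : 0 < r1) (hq : 0 < q) (hSr : 4 * S < r) (hRT : R + 2 ≤ T)
    (hRw : 2 * R < w) (hσ : Fintype.card σ ≤ 2 ^ S)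
    (hlc : T * w * (r * r) * (w + 1) + 1 ≤ 2 ^ lc) (hlq : 2 * q ≤ 2 ^ lq)
    (hδ : R * lc + 2 * S + lq + 1 ≤ δ)
    (hbig : 20 * R * ((R * δ + 2) * (w + 1)) ≤ r1)
    (st : ℕ → ((Fin T × Fin w) × Fin (r * r) → Option (Fin w)) → σ)
    (sep : ℕ → (Fin T × Fin w → Fin (r * r)) → σ → Prop)
    (Rd : ℕ → Finset ((Fin T × Fin w) × Fin (r * r))) (hRd : ∀ t < Tm, (Rd t).card ≤ 4 * S)
    (hstep : ∀ t < Tm, ∀ x y, ¬ sep t x (st t y) → sep (t + 1) x (st (t + 1) y) →
      Viol ⟨0, hw0⟩ (Rd t) x y)
    (k : ℕ) : ∀ s, k + s = R → ∀ t0 t1, t0 ≤ t1 → t1 ≤ Tm → t1 ≤ t0 + q ^ k →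
    ∀ (P : Finset (Fin T × Fin w → Fin (r * r))) (I : Finset (Fin T × Fin w))
      (γ : Fin T × Fin w → Fin (r * r)) (z : Fin T × Fin w → Option (Fin w))
      (Y : Finset ((Fin T × Fin w) × Fin (r * r) → Option (Fin w))),
      P.Nonempty → (∀ x ∈ P, ∀ v ∈ I, x v = γ v) → Dense r P I →
      (r * r) ^ (T * w) ≤ P.card * (4 * q) ^ s * r ^ I.card →
      (w + 1) ^ (T * w * (r * r)) ≤ Y.card * 2 ^ (s * δ) →
      (∀ y ∈ Y, ∀ v ∈ I, y (v, γ v) = z v) →
      Inv I z k → I.card ≤ R →
      (∀ x ∈ P, ∀ y ∈ Y, ¬ sep t0 x (st t0 y) ∧ sep t1 x (st t1 y)) → False := by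
  classical
  have hr0 : 0 < r := by rw [hr]; positivity
  have hcQ : Fintype.card (Option (Fin w)) = w + 1 := by simp
  have hcV : Fintype.card (Fin T × Fin w) = T * w := by simp
  have hcM : Fintype.card (Fin (r * r)) = r * r := by simp
  have hcVM : Fintype.card ((Fin T × Fin w) × Fin (r * r)) = T * w * (r * r) := by simp
  induction k with
  | zero =>
    intro s hs t0 t1 h01 h1T hlen P I γ z Y hP hγ hd hc hY hyz hinv hIR hall
    have hYne : Y.Nonempty := by
      rw [Finset.nonempty_iff_ne_empty]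
      rintro rfl
      simp at hY
    rw [pow_zero] at hlen
    rcases Nat.lt_or_ge t0 t1 with hlt | hge
    · have ht1 : t1 = t0 + 1 := by omega
      subst ht1
      obtain ⟨x, hx, hav⟩ := avoid_cells r S P hP I hd (Rd t0) (hRd t0 (by omega)) hSr
      obtain ⟨y, hy⟩ := hYne
      refine viol_inv hw0 (by omega) (Rd t0) x y
        (hstep t0 (by omega) x y (hall x hx y hy).1 (hall x hx y hy).2) I hav z ?_ hinv
      intro v hv
      rw [hγ x hx v hv]
      exact hyz y hy v hv
    · have : t1 = t0 := by omega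
      subst this
      obtain ⟨x, hx⟩ := hP
      obtain ⟨y, hy⟩ := hYne
      exact (hall x hx y hy).1 (hall x hx y hy).2
  | succ k ih =>
    intro s hs t0 t1 h01 h1T hlen P I γ z Y hP hγ hd hc hY hyz hinv hIR hall
    have hYne : Y.Nonempty := by
      rw [Finset.nonempty_iff_ne_empty]
      rintro rfl
      simp at hY
    -- partition points
    let τ : ℕ → ℕ := fun a => min (t0 + a * q ^ k) t1
    have hτ0 : τ 0 = t0 := by simp only [τ]; rw [zero_mul, add_zero]; exact min_eq_left h01
    have hτq : τ q = t1 := by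
      simp only [τ]
      apply min_eq_right
      rw [pow_succ, mul_comm] at hlen
      exact hlen
    have hτle : ∀ a, τ a ≤ τ (a + 1) := by
      intro a
      simp only [τ]
      apply min_le_min_right
      have : a * q ^ k ≤ (a + 1) * q ^ k := Nat.mul_le_mul_right _ (by omega)
      omega
    have hτlen : ∀ a, τ (a + 1) ≤ τ a + q ^ k := by
      intro a
      simp only [τ]
      have e : (a + 1) * q ^ k = a * q ^ k + q ^ k := by ring
      rw [e]
      omega
    have hτT : ∀ a, τ a ≤ Tm := fun a => le_trans (min_le_right _ _) h1T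
    let st' : ℕ → ((Fin T × Fin w) × Fin (r * r) → Option (Fin w)) → σ × σ :=
      fun a y => (st (τ a) y, st (τ (a + 1)) y)
    let E : ℕ → (Fin T × Fin w → Fin (r * r)) → σ × σ → Prop :=
      fun a x b => ¬ sep (τ a) x b.1 ∧ sep (τ (a + 1)) x b.2
    have hex : ∀ x ∈ P, ∀ y ∈ Y, ∃ a < q, E a x (st' a y) := by
      intro x hx y hy
      obtain ⟨h1, h2⟩ := hall x hx y hy
      by_contra hno
      push Not at hno
      have : ∀ a ≤ q, ¬ sep (τ a) x (st (τ a) y) := by
        intro a
        induction a with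
        | zero => intro _; rw [hτ0]; exact h1
        | succ a iha =>
          intro ha h3
          exact hno a (by omega) ⟨iha (by omega), h3⟩
      have h4 := this q le_rfl
      rw [hτq] at h4
      exact h4 h2
    obtain ⟨a, haq, b, hPc, hYc⟩ := popular q P Y hP hYne st' E hex
    set P1 := P.filter (fun x => E a x b) with hP1
    set Y1 := Y.filter (fun y => st' a y = b) with hY1
    have hP1sub : P1 ⊆ P := Finset.filter_subset _ _
    have hY1sub : Y1 ⊆ Y := Finset.filter_subset _ _
    have hPpos : 0 < P.card := hP.card_pos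
    have hP1pos : 0 < P1.card := by
      by_contra h0
      have : P1.card = 0 := by omega
      rw [this] at hPc
      omega
    have hσσ : Fintype.card (σ × σ) ≤ 2 ^ (2 * S) := by
      rw [Fintype.card_prod]
      calc _ ≤ 2 ^ S * 2 ^ S := Nat.mul_le_mul hσ hσ
        _ = 2 ^ (2 * S) := by rw [← pow_add]; congr 1; ring
    -- size of Y1
    have hY1c : (w + 1) ^ (T * w * (r * r)) ≤ Y1.card * 2 ^ (s * δ + 2 * S + lq) := by
      calc (w + 1) ^ (T * w * (r * r)) ≤ Y.card * 2 ^ (s * δ) := hY
        _ ≤ (2 * q * Fintype.card (σ × σ) * Y1.card) * 2 ^ (s * δ) := Nat.mul_le_mul_right _ hYc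
        _ ≤ (2 ^ lq * 2 ^ (2 * S) * Y1.card) * 2 ^ (s * δ) := by gcongr
        _ = Y1.card * 2 ^ (s * δ + 2 * S + lq) := by rw [pow_add, pow_add]; ring
    have hsR : s + 1 ≤ R := by omega
    have hΔ1 : s * δ + 2 * S + lq + 1 + R * lc ≤ (s + 1) * δ := by
      have : (s + 1) * δ = s * δ + δ := by ring
      omega
    have hΔR : (s + 1) * δ ≤ R * δ := Nat.mul_le_mul_right _ hsR
    have hTw : 2 * R ≤ T * w := by
      calc 2 * R ≤ w := hRw.le
        _ = 1 * w := (one_mul w).symm
        _ ≤ T * w := Nat.mul_le_mul_right _ (by omega)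
    -- good points
    let good : (Fin T × Fin w → Fin (r * r)) → Prop := fun x =>
      ∀ J : Finset (Fin T × Fin w), J.card ≤ R → Disjoint J I →
      ∀ c : Fin T × Fin w → Option (Fin w), (w + 1) ^ (T * w * (r * r)) ≤
        (Y1.filter (fun y => ∀ v ∈ J, y (v, x v) = c v)).card * 2 ^ ((s + 1) * δ)
    have hbad : 2 * (P1.filter (fun x => ¬ good x)).card < P1.card := by
      by_contra hlt
      push Not at hlt
      set bad := P1.filter (fun x => ¬ good x) with hbad
      have hbadpos : 0 < bad.card := by omega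
      have hdb : Dense r1 bad I := by
        apply dense_sub r1 (4 * q) P bad I
        · rw [← hr]; exact hd
        · exact (Finset.filter_subset _ _).trans hP1sub
        · omega
        · calc P.card ≤ 2 * q * P1.card := hPc
            _ ≤ 2 * q * (2 * bad.card) := Nat.mul_le_mul_left _ hlt
            _ = 4 * q * bad.card := by ring
      obtain ⟨x, hx, hgx⟩ := exists_good (Q := Option (Fin w)) r1 R (s * δ + 2 * S + lq)
        ((s + 1) * δ) bad
        (Finset.card_pos.mp hbadpos) I hIR hdb (by simp) hr1 (by rw [hcV]; exact hTw) (by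
          rw [hcQ]
          refine le_trans ?_ hbig
          apply Nat.mul_le_mul_left
          apply Nat.mul_le_mul_right
          omega) Y1 (by rw [hcQ, hcVM]; exact hY1c) (by
          rw [hcQ, hcV, hcM]
          calc (T * w * (r * r) * (w + 1) + 1) ^ R * 2 ^ (s * δ + 2 * S + lq + 1)
              ≤ (2 ^ lc) ^ R * 2 ^ (s * δ + 2 * S + lq + 1) := by gcongr
            _ = 2 ^ (s * δ + 2 * S + lq + 1 + R * lc) := by
                rw [← pow_mul, ← pow_add]; congr 1; ring
            _ ≤ 2 ^ ((s + 1) * δ) := Nat.pow_le_pow_right (by norm_num) hΔ1)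
      rw [hbad, Finset.mem_filter] at hx
      apply hx.2
      intro J hJ hJI c
      have := hgx J hJ hJI c
      rw [hcQ, hcVM] at this
      convert this
    set P2 := P1.filter (fun x => good x) with hP2
    have hP2c : P.card ≤ 4 * q * P2.card := by
      have h1 : P2.card + (P1.filter (fun x => ¬ good x)).card = P1.card :=
        Finset.card_filter_add_card_filter_not _
      have h2 : P1.card ≤ 2 * P2.card := by omega
      calc P.card ≤ 2 * q * P1.card := hPc
        _ ≤ 2 * q * (2 * P2.card) := Nat.mul_le_mul_left _ h2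
        _ = 4 * q * P2.card := by ring
    have hP2pos : 0 < P2.card := by
      by_contra h0
      have : P2.card = 0 := by omega
      rw [this] at hP2c
      omega
    have hP2sub : P2 ⊆ P1 := Finset.filter_subset _ _
    obtain ⟨K, γ', P3, hKI, hγ', hP3sub, hP3K, hrest, hd'⟩ := restore r hr0 P2 I γ
    have hP3pos : 0 < P3.card := by
      by_contra h0
      have : P3.card = 0 := by omega
      rw [this] at hrest
      omega
    have hcardI : (I ∪ K).card = I.card + K.card := Finset.card_union_of_disjoint hKI.symm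
    have hc' : (r * r) ^ (T * w) ≤ P3.card * (4 * q) ^ (s + 1) * r ^ (I ∪ K).card := by
      calc (r * r) ^ (T * w) ≤ P.card * (4 * q) ^ s * r ^ I.card := hc
        _ ≤ (4 * q * P2.card) * (4 * q) ^ s * r ^ I.card := by gcongr
        _ ≤ (4 * q * (P3.card * r ^ K.card)) * (4 * q) ^ s * r ^ I.card := by gcongr
        _ = P3.card * (4 * q) ^ (s + 1) * r ^ (I ∪ K).card := by
            rw [hcardI, pow_add, pow_succ]; ring
    have hfixed : ∀ x ∈ P3, ∀ v ∈ I ∪ K, x v = γ' v := by
      intro x hx v hv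
      rw [Finset.mem_union] at hv
      rcases hv with hv | hv
      · rw [hγ' v hv]
        exact hγ x (hP1sub (hP2sub (hP3sub hx))) v hv
      · exact hP3K x hx v hv
    have hI' : (I ∪ K).card ≤ s + 1 := by
      have hMpos : 0 < Fintype.card (Fin (r * r)) := by rw [hcM]; positivity
      have h1 : P3.card * (r * r) ^ (I ∪ K).card ≤ (r * r) ^ (T * w) := by
        have h2 := card_fixed_le (I ∪ K) γ' hMpos P3
        rw [hcM, hcV] at h2
        refine le_trans (Nat.mul_le_mul_right _ (Finset.card_le_card ?_)) h2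
        intro x hx
        simp only [Finset.mem_filter]
        exact ⟨hx, hfixed x hx⟩
      have h3 : P3.card * (r * r) ^ (I ∪ K).card ≤ P3.card * ((4 * q) ^ (s + 1) * r ^ (I ∪ K).card) := by
        calc _ ≤ _ := h1
          _ ≤ _ := hc'
          _ = _ := by ring
      have h4 := Nat.le_of_mul_le_mul_left h3 hP3pos
      rw [mul_pow] at h4
      have h5 : r ^ (I ∪ K).card ≤ (4 * q) ^ (s + 1) :=
        Nat.le_of_mul_le_mul_right h4 (by positivity)
      have h6 : (4 * q) ^ (s + 1) ≤ r ^ (s + 1) := by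
        apply Nat.pow_le_pow_left
        rw [hr]
        exact Nat.le_mul_of_pos_right _ hr1
      have h7 : 1 < r := by
        rw [hr]
        have : 1 ≤ q * r1 := Nat.mul_pos hq hr1
        calc 1 < 4 * (q * r1) := by omega
          _ = 4 * q * r1 := by ring
      exact (Nat.pow_le_pow_iff_right h7).mp (le_trans h5 h6)
    have hIKR : (I ∪ K).card ≤ R := by omega
    -- the answers
    let z' : Fin T × Fin w → Option (Fin w) := fun v =>
      if v ∈ I then z v else answer R hRw I hIR z (I ∪ K) v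
    have hzI : ∀ v ∈ I, z' v = z v := by
      intro v hv
      simp only [z', if_pos hv]
    have hinv' : Inv (I ∪ K) z' k := by
      apply inv_step R hRw I hIR z (k + 1) k hinv (by omega) (by omega) (I ∪ K) hIKR z'
      · intro v _ hv
        exact hzI v hv
      · intro v _ hv
        simp only [z', if_neg hv]
    have hKR : K.card ≤ R := by omega
    set Y3 := Y1.filter (fun y => ∀ v ∈ K, y (v, γ' v) = z' v) with hY3
    have hY3sub : Y3 ⊆ Y1 := Finset.filter_subset _ _
    have hY3c : (w + 1) ^ (T * w * (r * r)) ≤ Y3.card * 2 ^ ((s + 1) * δ) := by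
      obtain ⟨x, hx⟩ := Finset.card_pos.mp hP3pos
      have hgx : good x := (Finset.mem_filter.mp (hP3sub hx)).2
      have h1 := hgx K hKR hKI z'
      have h2 : Y1.filter (fun y => ∀ v ∈ K, y (v, x v) = z' v) = Y3 := by
        rw [hY3]
        apply Finset.filter_congr
        intro y _
        constructor
        · intro h v hv
          rw [← hfixed x hx v (Finset.mem_union_right _ hv)]
          exact h v hv
        · intro h v hv
          rw [hfixed x hx v (Finset.mem_union_right _ hv)]
          exact h v hv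
      rw [h2] at h1
      exact h1
    refine ih (s + 1) (by omega) (τ a) (τ (a + 1)) (hτle a) (hτT _) (hτlen a) P3 (I ∪ K) γ' z'
      Y3 (Finset.card_pos.mp hP3pos) hfixed hd' hc' hY3c ?_ hinv' hIKR ?_
    · intro y hy v hv
      rw [Finset.mem_union] at hv
      rcases hv with hv | hv
      · rw [hγ' v hv, hzI v hv]
        exact hyz y (hY1sub (hY3sub hy)) v hv
      · exact (Finset.mem_filter.mp hy).2 v hv
    · intro x hx y hy
      have hxE : E a x b := (Finset.mem_filter.mp (hP2sub (hP3sub hx))).2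
      have hyb : st' a y = b := (Finset.mem_filter.mp (hY3sub hy)).2
      rw [← hyb] at hxE
      exact hxE

/-- the cells read by an input position -/
def cellsOf {T w m : ℕ} (hw : 0 < w) (hm : 0 < m) (i : ℕ) : Finset ((Fin T × Fin w) × Fin m) :=
  (if h : 0 < i / (w * m) / (w * m) ∧ i / (w * m) / (w * m) - 1 < T then
    {((⟨i / (w * m) / (w * m) - 1, h.2⟩, (pairOf w m hw hm (i / (w * m))).1),
      (pairOf w m hw hm (i / (w * m))).2)} else ∅) ∪
  (if h : i / (w * m) / (w * m) < T then
    {((⟨i / (w * m) / (w * m), h⟩, (pairOf w m hw hm i).1), (pairOf w m hw hm i).2)} else ∅)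

lemma cellsOf_card {T w m : ℕ} (hw : 0 < w) (hm : 0 < m) (i : ℕ) :
    (cellsOf (T := T) hw hm i).card ≤ 2 := by
  unfold cellsOf
  refine le_trans (Finset.card_union_le _ _) ?_
  split_ifs <;> simp

/-- an input position which is true for Alice and false for Bob is a violated edge -/
lemma viol_of_input {n T w r : ℕ} (hw : 0 < w) (hm : 0 < r * r)
    (x : Fin T × Fin w → Fin (r * r)) (y : (Fin T × Fin w) × Fin (r * r) → Option (Fin w))
    (Rd : Finset ((Fin T × Fin w) × Fin (r * r))) (i : Fin n)
    (hx : xA n hw hm x i = true) (hy : xB n hw hm y i = false)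
    (hR : cellsOf hw hm i.val ⊆ Rd) : Viol ⟨0, hw⟩ Rd x y := by
  have hy' : EB ⟨0, hw⟩ y (i.val / (w * (r * r)) / (w * (r * r)))
    (pairOf w (r * r) hw hm (i.val / (w * (r * r)))) (pairOf w (r * r) hw hm i.val) = false := hy
  have hx' : EA x (i.val / (w * (r * r)) / (w * (r * r)))
    (pairOf w (r * r) hw hm (i.val / (w * (r * r)))) (pairOf w (r * r) hw hm i.val) = true := hx
  simp only [EB, decide_eq_false_iff_not, not_not] at hy'
  simp only [EA, decide_eq_true_eq] at hx'
  refine ⟨_, _, _, hx'.1, hx'.2, hy'.1, hy'.2, ?_, ?_⟩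
  · intro h
    apply hR
    unfold cellsOf
    rw [Finset.mem_union]
    left
    rw [dif_pos h]
    exact Finset.mem_singleton_self _
  · intro h
    apply hR
    unfold cellsOf
    rw [Finset.mem_union]
    right
    rw [dif_pos h]
    exact Finset.mem_singleton_self _

/-- Module NL. -/
theorem nl_proof : Stmt_NL := by
  classical
  intro n T w r r1 q S R δ lc lq hw hm C hC hS hr hr1 hq hSr hRT hRw hn hlc hlq hδ hbig
  by_contra hle
  push Not at hle
  have hr0 : 0 < r := by rw [hr]; positivity
  obtain ⟨t0, ht0, hw0, hlay⟩ := empty_layer C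
  have hwS : ∀ t ≤ C.layers, C.width t ≤ S := fun t ht => le_trans (width_le C t ht) hS
  have hstS : ∀ t ≤ C.layers, ∀ x y : Fin n → Bool, sepS C S t x (stateOf C S t y) ↔
      ∃ g, C.val x t g = true ∧ C.val y t g = false := fun t ht x y => sepS_iff C S t (hwS t ht) x y
  have hAlice : ∀ x : Fin T × Fin w → Fin (r * r), fn n w (r * r) hw hm (T + 1) (xA n hw hm x)
      = true := by
    intro x
    unfold fn xA
    rw [run_congr _ (EA x) (T + 1) (fun t ht p p' => edges_mk hw hm hn (EA x) t ht p p')]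
    apply run_alice hm
    intro h
    exact absurd h.2 (by omega)
  have hBob : ∀ y : (Fin T × Fin w) × Fin (r * r) → Option (Fin w),
      fn n w (r * r) hw hm (T + 1) (xB n hw hm y) = false := by
    intro y
    rw [← Bool.not_eq_true]
    intro h
    unfold fn xB at h
    rw [run_congr _ (EB ⟨0, hw⟩ y) (T + 1)
      (fun t ht p p' => edges_mk hw hm hn (EB ⟨0, hw⟩ y) t ht p p')] at h
    have h1 := run_bob _ _ _ _ h
    unfold yh at h1
    rw [if_neg (by omega), dif_neg (by omega)] at h1
    exact absurd h1 (by simp)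
  refine nl_recursion (T := T) (w := w) (r := r) (σ := Fin S → Bool) r1 q S R δ lc lq C.layers hw hr
    hr1 hq hSr hRT hRw (by simp) hlc hlq hδ hbig
    (fun t y => stateOf C S t (xB n hw hm y)) (fun t x b => sepS C S t (xA n hw hm x) b)
    (fun t => (readVars C t).biUnion (fun i => cellsOf hw hm i)) ?_ ?_ R 0 rfl t0 C.layers ht0 le_rfl
    (by omega) univ ∅ (fun _ => ⟨0, hm⟩) (fun _ => none) univ ?_ (by simp) ?_ ?_ ?_
    (by simp) ?_ (by simp) ?_
  · intro t ht
    calc ((readVars C t).biUnion (fun i => cellsOf (T := T) hw hm i)).card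
        ≤ ∑ i ∈ readVars C t, (cellsOf (T := T) hw hm i).card := Finset.card_biUnion_le
      _ ≤ ∑ _i ∈ readVars C t, 2 := Finset.sum_le_sum (fun i _ => cellsOf_card hw hm i)
      _ = (readVars C t).card * 2 := by rw [Finset.sum_const, smul_eq_mul]
      _ ≤ (2 * C.width (t + 1)) * 2 := Nat.mul_le_mul_right _ (readVars_card C t)
      _ ≤ (2 * S) * 2 := Nat.mul_le_mul_right _ (Nat.mul_le_mul_left _ (hwS (t + 1) ht))
      _ = 4 * S := by ring
  · intro t ht x y h1 h2
    rw [hstS t ht.le] at h1
    rw [hstS (t + 1) ht] at h2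
    obtain ⟨i, hi, hx, hy⟩ := step_sep C t _ _ h1 h2
    refine viol_of_input hw hm x y _ i hx hy ?_
    exact Finset.subset_biUnion_of_mem (fun i => cellsOf (T := T) hw hm i) hi
  · exact ⟨fun _ => ⟨0, hm⟩, Finset.mem_univ _⟩
  · intro K _ γ
    have h1 := card_prescribed K γ
    rw [Fintype.card_fin] at h1
    have h2 : r ^ K.card ≤ (r * r) ^ K.card := Nat.pow_le_pow_left (Nat.le_mul_of_pos_left r hr0) _
    calc _ ≤ _ * (r * r) ^ K.card := Nat.mul_le_mul_left _ h2
      _ = (r * r) ^ Fintype.card (Fin T × Fin w) := h1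
      _ ≤ _ := by simp
  · simp
  · simp
  · refine ⟨?_, ?_, ?_⟩ <;> simp
  · intro x _ y _
    constructor
    · rw [hstS t0 ht0]
      rintro ⟨g, _⟩
      have := g.isLt
      omega
    · rw [hstS C.layers le_rfl]
      refine ⟨C.out, ?_, ?_⟩
      · have := hC (xA n hw hm x)
        rw [hAlice x] at this
        exact this
      · have := hC (xB n hw hm y)
        rw [hBob y] at this
        exact this

end NLRec

end Pool.Agent.Results.MP_2af48a_lc.FewNegations
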