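import Pool.Agent.Lib_MP_2af48a_lc.NarrowProof
import Pool.Agent.Lib_MP_2af48a_lc.NarrowLower

open Finset Filter

namespace Pool.Agent.Results.MP_2af48a_lc.FewNegations

/-! ## General bounds on the number of NOT gates -/

/-- the blocks are large -/
lemma block_large_gen (r : ℕ → ℕ) (n : ℕ) (hn : 2 ≤ n) (hnb : nb r n ≤ n) :
    (2 : ℝ) ^ (Real.logb 2 n - r n) ≤ 8 * Nat.log 2 n * mb r n := by
  set L := Real.logb 2 (n : ℝ) with hL
  have hn0 : (0 : ℝ) < n := by exact_mod_cast (by omega : 0 < n)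
  have hnL : (2 : ℝ) ^ L = (n : ℝ) := by
    rw [hL, Real.rpow_logb (by norm_num) (by norm_num) hn0]
  set l := Nat.log 2 n with hl
  have hl0 : 1 ≤ l := by
    rw [hl]; exact Nat.le_log_of_pow_le (by norm_num) (by simpa using hn)
  have hrl : r n ≤ l := by
    rw [hl]
    exact Nat.le_log_of_pow_le (by norm_num) (two_pow_neg_le r n (r n) le_rfl hnb)
  set m := mb r n with hm
  have hB : nb r n ≤ 4 * l * 2 ^ (r n) := by
    unfold nb
    have h1 : 1 ≤ 2 ^ (r n) := Nat.one_le_two_pow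
    calc 2 ^ r n * (r n + 1) + 1 ≤ 2 ^ r n * (2 * l) + 2 ^ r n * (2 * l) := by
          apply Nat.add_le_add
          · exact Nat.mul_le_mul_left _ (by omega)
          · exact Nat.mul_pos h1 (by omega)
      _ = 4 * l * 2 ^ (r n) := by ring
  have hm1 : 1 ≤ m := by
    rw [hm]
    unfold mb
    exact Nat.div_pos hnb (nb_pos _ _)
  have hlt : n < nb r n * (m + 1) := by
    rw [hm]
    unfold mb
    exact Nat.lt_mul_div_succ n (nb_pos _ _)
  have h2 : n ≤ 8 * l * m * 2 ^ (r n) := by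
    calc n ≤ nb r n * (m + 1) := hlt.le
      _ ≤ (4 * l * 2 ^ (r n)) * (2 * m) := Nat.mul_le_mul hB (by omega)
      _ = _ := by ring
  have h3 : (n : ℝ) ≤ 8 * l * m * (2 : ℝ) ^ (r n) := by exact_mod_cast h2
  rw [Real.rpow_sub (by norm_num), hnL, Real.rpow_natCast, div_le_iff₀ (by positivity)]
  exact h3

/-- the blocks have more than polylogarithmically many variables -/
lemma block_growth (r : ℕ → ℕ) (δ : ℝ) (hδ : 0 < δ)
    (hr : Tendsto (fun n : ℕ => (Real.logb 2 n - r n) / (Real.logb 2 n) ^ δ) atTop atTop) :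
    ∀ᶠ n : ℕ in atTop, 37500 * (Nat.log 2 n : ℝ) ≤ (2 : ℝ) ^ ((Real.logb 2 n - r n) / 6) := by
  have hlog : Tendsto (fun n : ℕ => Real.logb 2 (n : ℝ)) atTop atTop :=
    (Real.tendsto_logb_atTop (by norm_num)).comp tendsto_natCast_atTop_atTop
  have hlo : ∀ᶠ x : ℝ in atTop, Real.log x ≤ x ^ δ := by
    have h := (isLittleO_log_rpow_atTop hδ).bound (by norm_num : (0 : ℝ) < 1)
    filter_upwards [h, eventually_ge_atTop 1] with x hx hx1
    rw [one_mul, Real.norm_eq_abs, Real.norm_eq_abs, abs_of_nonneg (Real.log_nonneg hx1),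
      abs_of_nonneg (Real.rpow_nonneg (by linarith) _)] at hx
    exact hx
  filter_upwards [hr.eventually_ge_atTop (12 + 12 * 37500), hlog.eventually_ge_atTop 1,
    hlog.eventually hlo, eventually_ge_atTop 2] with n h1 h2 h2l h3
  set L := Real.logb 2 (n : ℝ) with hL
  have hn0 : (0 : ℝ) < n := by exact_mod_cast (by omega : 0 < n)
  have hT1 : 1 ≤ L ^ δ := Real.one_le_rpow h2 hδ.le
  have h4 : (12 + 12 * 37500) * L ^ δ ≤ L - r n := by
    rwa [le_div_iff₀ (by linarith)] at h1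
  have hl1 : (Nat.log 2 n : ℝ) ≤ L := by
    rw [hL, Real.le_logb_iff_rpow_le (by norm_num) hn0, Real.rpow_natCast]
    exact_mod_cast Nat.pow_log_le_self 2 (by omega : n ≠ 0)
  have hl2 : (0.5 : ℝ) ≤ Real.log 2 := by
    have := Real.log_two_gt_d9
    linarith
  have h37 : Real.log 37500 ≤ 37500 := by
    have := Real.log_le_sub_one_of_pos (by norm_num : (0 : ℝ) < 37500)
    linarith
  calc 37500 * (Nat.log 2 n : ℝ) ≤ 37500 * L := by linarith
    _ = Real.exp (Real.log (37500 * L)) := (Real.exp_log (by positivity)).symm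
    _ ≤ Real.exp (((L - r n) / 6) * Real.log 2) := by
        apply Real.exp_le_exp.mpr
        rw [Real.log_mul (by norm_num) (by linarith)]
        nlinarith
    _ = (2 : ℝ) ^ ((L - r n) / 6) := by
        rw [Real.rpow_def_of_pos (by norm_num)]
        congr 1
        ring

/-- Some functions in monotone NC have no narrow circuits with few NOT gates. -/
theorem narrow_general (r : ℕ → ℕ) (δ : ℝ) (hδ : 0 < δ)
    (hr : Tendsto (fun n : ℕ => (Real.logb 2 n - r n) / (Real.logb 2 n) ^ δ) atTop atTop)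
    (k : ℕ) :
    ∃ f : (n : ℕ) → (Fin n → Bool) → Bool, NC (fun _ => 0) f ∧ ¬ SC r f ∧
      ∃ N : ℕ, ∀ n ≥ N, ∀ C : Layered n, (∀ x, C.eval x = f n x) → C.negations ≤ r n →
        (C.maxWidth : ℝ) ≤ 2 ^ ((Real.logb 2 n - r n) / 6) → 2 ^ (Nat.log 2 n) ^ k < C.size := by
  obtain ⟨q, hq⟩ := exists_nat_ge (1 / δ)
  have hq' : 1 ≤ δ * q := by
    rw [div_le_iff₀ hδ] at hq
    linarith
  have hqk : 1 ≤ δ * ((q * (k + 1) : ℕ) : ℝ) := by
    push_cast
    have h0 : (0 : ℝ) ≤ δ * q * k := by positivity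
    nlinarith
  obtain ⟨N0, hN0⟩ := hardN_lower nl_proof (q * (k + 1))
  refine ⟨copies (hardN (q * (k + 1))) r, copies_NC' _ _ (hardN_NC _),
    copies_not_SC' r δ hδ hr (q * (k + 1)) hqk _ (hardN_zero _) N0 hN0, ?_⟩
  have hev := growthC r δ hδ hr q hq' (5 + N0)
  obtain ⟨N1, hN1⟩ := eventually_atTop.mp (hev.and (block_growth r δ hδ hr))
  refine ⟨max N1 4, fun n hn C hC htr hW => ?_⟩
  obtain ⟨⟨g1, g2, g3⟩, g4⟩ := hN1 n (le_trans (le_max_left _ _) hn)
  have hn4 : 4 ≤ n := le_trans (le_max_right _ _) hn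
  have hbl := block_large_gen r n (by omega) g1
  set l := Nat.log 2 n with hl
  set m := mb r n with hm
  set l' := Nat.log 2 m with hl'
  have hl2 : 2 ≤ l := by
    rw [hl]; exact Nat.le_log_of_pow_le (by norm_num) (by simpa using hn4)
  have hm0 : m ≠ 0 := by
    intro h
    rw [h] at hl'
    simp at hl'
    omega
  have hml : 2 ^ l' ≤ m := Nat.pow_log_le_self 2 hm0
  have hmN : N0 ≤ m := by
    calc N0 ≤ l' := by omega
      _ ≤ 2 ^ l' := (Nat.lt_two_pow_self).le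
      _ ≤ m := hml
  have hf0 := hardN_zero (q * (k + 1)) m
  obtain ⟨D, hD1, hD2, hD3, hD4⟩ := layered_copies C (nb r n) (neg_lt_nb r n _ htr)
    (hardN (q * (k + 1)) m) hf0 (blk m) (fun j hj y hy z => by
      rw [hC]
      exact copies_spec (hardN (q * (k + 1))) r n g1 hf0 j hj y hy z)
  obtain ⟨D', hD'1, hD'2, hD'3⟩ := layered_to_mon (m := m) (r := 0) D hD2.le
    (hardN (q * (k + 1)) m) (fun X => by
      rw [hD1]; rfl)
  -- the width
  set E := (2 : ℝ) ^ ((Real.logb 2 n - r n) / 6) with hE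
  have hE6 : E ^ 6 = (2 : ℝ) ^ (Real.logb 2 n - r n) := by
    rw [hE, ← Real.rpow_natCast, ← Real.rpow_mul (by norm_num)]
    congr 1
    push_cast
    ring
  have hl0R : (0 : ℝ) < l := by exact_mod_cast (by omega : 0 < l)
  have hE1 : 1 ≤ E := by
    have : (1 : ℝ) ≤ l := by exact_mod_cast (by omega : 1 ≤ l)
    linarith
  have hw5 : (2 * C.maxWidth + 3) ^ 5 ≤ m := by
    have e1 : (2 * (C.maxWidth : ℝ) + 3) ≤ 5 * E := by linarith
    have e2 : (2 * (C.maxWidth : ℝ) + 3) ^ 5 ≤ (5 * E) ^ 5 := pow_le_pow_left₀ (by positivity) e1 5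
    have e3 : E ^ 6 ≤ 8 * l * m := by rw [hE6]; exact hbl
    have e4 : (5 * E) ^ 5 * (12 * l) ≤ m * (12 * l) := by
      have e5 : (5 * E) ^ 5 * (12 * l) ≤ E ^ 6 := by
        calc (5 * E) ^ 5 * (12 * l) = E ^ 5 * (37500 * l) := by ring
          _ ≤ E ^ 5 * E := by
            apply mul_le_mul_of_nonneg_left _ (by positivity)
            linarith
          _ = E ^ 6 := by ring
      have e7 : (0 : ℝ) ≤ (l : ℝ) * m := by positivity
      linarith
    have e6 : (5 * E) ^ 5 ≤ m := le_of_mul_le_mul_right e4 (by positivity)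
    have e7 : (2 * (C.maxWidth : ℝ) + 3) ^ 5 ≤ m := le_trans e2 e6
    exact_mod_cast e7
  have hwidth : D'.maxWidth ^ 5 ≤ m := by
    rw [hD'3]
    exact le_trans (Nat.pow_le_pow_left hD3 _) hw5
  have hn' : n < 2 ^ (l + 1) := Nat.lt_pow_succ_log_self (by norm_num) n
  have hwn : 2 * C.maxWidth + 3 ≤ 2 ^ (l + 1) := by
    calc 2 * C.maxWidth + 3 = (2 * C.maxWidth + 3) ^ 1 := (pow_one _).symm
      _ ≤ (2 * C.maxWidth + 3) ^ 5 := Nat.pow_le_pow_right (by omega) (by norm_num)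
      _ ≤ m := hw5
      _ ≤ n := mb_le _ n
      _ ≤ _ := hn'.le
  have h5 := hN0 m hmN D' hD'1 hwidth
  by_contra hle
  push Not at hle
  have h6 : D'.size ≤ 2 ^ l' ^ (q * (k + 1)) := by
    rw [hD'2]
    have ht' : 2 ^ C.negations * (C.negations + 1) ≤ 2 ^ (l + 1) := by
      have := neg_lt_nb r n _ htr
      omega
    refine le_trans hD4 (le_trans (narrow_size _ _ _ l _ ht' hwn hle) ?_)
    apply Nat.pow_le_pow_right (by norm_num)
    have e1 : 5 * (l + 1) ≤ l' ^ q := le_trans (Nat.mul_le_mul_right _ (by omega)) g3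
    have e2 : l ^ k ≤ (l + 1) ^ k := Nat.pow_le_pow_left (by omega) _
    have e3 : 1 ≤ (l + 1) ^ k := Nat.one_le_pow _ _ (by omega)
    calc l ^ k + 3 + (l + 1) + (l + 1) ≤ (l + 1) ^ k * (l + 1) + (l + 1) ^ k * (4 * (l + 1)) := by
          nlinarith
      _ = (5 * (l + 1)) * (l + 1) ^ k := by ring
      _ ≤ (5 * (l + 1)) * (5 * (l + 1)) ^ k :=
          Nat.mul_le_mul_left _ (Nat.pow_le_pow_left (by omega) _)
      _ = (5 * (l + 1)) ^ (k + 1) := by rw [pow_succ]; ring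
      _ ≤ (l' ^ q) ^ (k + 1) := Nat.pow_le_pow_left e1 _
      _ = l' ^ (q * (k + 1)) := by rw [← pow_mul]
  exact absurd h6 (not_le.mpr h5)

/-- Some functions in monotone SC have no circuits of small depth with few NOT gates. -/
theorem depth_general (r : ℕ → ℕ) (δ : ℝ) (hδ : 0 < δ)
    (hr : Tendsto (fun n : ℕ => (Real.logb 2 n - r n) / (Real.logb 2 n) ^ δ) atTop atTop)
    (k : ℕ) :
    ∃ f : (n : ℕ) → (Fin n → Bool) → Bool, SC (fun _ => 0) f ∧ ¬ NC r f ∧
      ∃ a N : ℕ, ∀ n ≥ N, ∀ C : Circuit n, (∀ x, C.eval x = f n x) → C.negations ≤ r n →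
        C.size ≤ 2 ^ (Nat.log 2 n) ^ k →
        (2 : ℝ) ^ (Real.logb 2 n - r n) ≤ C.depth * (Nat.log 2 n : ℝ) ^ a := by
  obtain ⟨q, hq⟩ := exists_nat_ge (1 / δ)
  have hq' : 1 ≤ δ * q := by
    rw [div_le_iff₀ hδ] at hq
    linarith
  have hqk : 1 ≤ δ * ((q * (k + 1) : ℕ) : ℝ) := by
    push_cast
    have h0 : (0 : ℝ) ≤ δ * q * k := by positivity
    nlinarith
  obtain ⟨f, hfm, -, a0, N0, hf⟩ := MonotoneSeparation.result (q * (k + 1))
  refine ⟨copies f r, copies_SC r f hfm,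
    copies_not_NC r δ hδ hr (q * (k + 1)) hqk f hfm a0 N0 hf, ?_⟩
  obtain ⟨L0, hL0⟩ := pow_lt_two_pow 1 a0
  have hev := growthC r δ hδ hr q hq' (5 + N0 + L0)
  obtain ⟨N1, hN1⟩ := eventually_atTop.mp hev
  refine ⟨a0 + 8, max N1 4, fun n hn C hC htr hs => ?_⟩
  obtain ⟨g1, g2, g3⟩ := hN1 n (le_trans (le_max_left _ _) hn)
  have hn4 : 4 ≤ n := le_trans (le_max_right _ _) hn
  have hbl := block_large_gen r n (by omega) g1
  set l := Nat.log 2 n with hl
  set m := mb r n with hm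
  set l' := Nat.log 2 m with hl'
  have hl2 : 2 ≤ l := by
    rw [hl]; exact Nat.le_log_of_pow_le (by norm_num) (by simpa using hn4)
  have hm0 : m ≠ 0 := by
    intro h
    rw [h] at hl'
    simp at hl'
    omega
  have hml : 2 ^ l' ≤ m := Nat.pow_log_le_self 2 hm0
  have hmN : N0 ≤ m := by
    calc N0 ≤ l' := by omega
      _ ≤ 2 ^ l' := (Nat.lt_two_pow_self).le
      _ ≤ m := hml
  have hbig : l' ^ a0 < m := by
    have := hL0 l' (by omega)
    omega
  have hf0 := hard_zero (q * (k + 1)) f hfm a0 N0 hf m hmN hbig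
  obtain ⟨D, hD1, hD2, hD3, hD4⟩ := circuit_copies C (nb r n) (neg_lt_nb r n _ htr)
    (f m) hf0 (blk m) (fun j hj y hy z => by
      rw [hC]
      exact copies_spec f r n g1 hf0 j hj y hy z)
  obtain ⟨D', hD'1, hD'2, hD'3⟩ := circuit_to_mon (m := m) (r := 0) D hD2.negations.le
    (f m) (fun X => by
      rw [hD1]; rfl)
  have htl : C.negations ≤ l := by
    rw [hl]
    exact Nat.le_log_of_pow_le (by norm_num) (two_pow_neg_le r n _ htr g1)
  have h6 : D'.size ≤ 2 ^ l' ^ (q * (k + 1)) := by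
    rw [hD'2]
    have hA1 : 1 ≤ 2 ^ l ^ k := Nat.one_le_two_pow
    calc D.size ≤ 2 ^ (2 * C.negations) * (C.size + 2) := by omega
      _ ≤ 2 ^ (2 * l) * (2 ^ l ^ k + 3 * 2 ^ l ^ k) :=
          Nat.mul_le_mul (Nat.pow_le_pow_right (by norm_num) (by omega)) (by omega)
      _ = 2 ^ (2 * l + (2 + l ^ k)) := by rw [pow_add, pow_add]; ring
      _ ≤ 2 ^ l' ^ (q * (k + 1)) := by
          apply Nat.pow_le_pow_right (by norm_num)
          have e1 : 5 * (l + 1) ≤ l' ^ q := le_trans (Nat.mul_le_mul_right _ (by omega)) g3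
          have e2 : l ^ k ≤ (l + 1) ^ k := Nat.pow_le_pow_left (by omega) _
          have e3 : 1 ≤ (l + 1) ^ k := Nat.one_le_pow _ _ (by omega)
          calc 2 * l + (2 + l ^ k) ≤ 2 * (l + 1) * (l + 1) ^ k + (l + 1) ^ k := by nlinarith
            _ = (2 * (l + 1) + 1) * (l + 1) ^ k := by ring
            _ ≤ (5 * (l + 1)) * (5 * (l + 1)) ^ k :=
                Nat.mul_le_mul (by omega) (Nat.pow_le_pow_left (by omega) _)
            _ = (5 * (l + 1)) ^ (k + 1) := by rw [pow_succ]; ring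
            _ ≤ (l' ^ q) ^ (k + 1) := Nat.pow_le_pow_left e1 _
            _ = l' ^ (q * (k + 1)) := by rw [← pow_mul]
  have h7 : m ≤ D'.depth * l' ^ a0 := hf m hmN D' hD'1 h6
  have hll : l' ≤ l := Nat.log_mono_right (mb_le _ n)
  have h8 : m ≤ C.depth * (4 * l) * l ^ a0 := by
    refine le_trans h7 (Nat.mul_le_mul ?_ (Nat.pow_le_pow_left hll _))
    have h9 := depth_pos C
    calc D'.depth ≤ C.depth + 1 + 2 * C.negations := le_trans hD'3 hD3
      _ ≤ C.depth * 1 + C.depth * 1 + C.depth * (2 * l) := by nlinarith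
      _ = C.depth * (2 + 2 * l) := by ring
      _ ≤ C.depth * (4 * l) := Nat.mul_le_mul_left _ (by omega)
  have h10 : 8 * l * m ≤ C.depth * l ^ (a0 + 8) := by
    calc 8 * l * m ≤ 8 * l * (C.depth * (4 * l) * l ^ a0) := Nat.mul_le_mul_left _ h8
      _ = C.depth * (32 * l ^ (a0 + 2)) := by ring
      _ ≤ C.depth * (l ^ 6 * l ^ (a0 + 2)) := by
          apply Nat.mul_le_mul_left
          apply Nat.mul_le_mul_right
          calc 32 ≤ 2 ^ 6 := by norm_num
            _ ≤ l ^ 6 := Nat.pow_le_pow_left hl2 _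
      _ = _ := by rw [← pow_add]; congr 2; ring
  refine le_trans hbl ?_
  exact_mod_cast h10

end Pool.Agent.Results.MP_2af48a_lc.FewNegations
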