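import Pool.Agent.Lib_MP_2af48a_lc.AboveDefs
import Pool.Agent.Lib_MP_2af48a_lc.FewNegGeneral

open Finset Filter

namespace Pool.Agent.Results.MP_2af48a_lc.FewNegations

/-! ## Fixing variables; gates which are not above the free variables become constants -/

/-- the input with the values `z` on the selected variables and constants elsewhere -/
def fill {n m : ℕ} (σ : Fin n → Bool ⊕ Fin m) (z : Fin m → Bool) : Fin n → Bool :=
  fun i => Sum.elim (fun b => b) z (σ i)

/-- the wire of a variable after the substitution -/
def fvw {n m k : ℕ} (σ : Fin n → Bool ⊕ Fin m) : Fin n → Wire m k :=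
  fun i => Sum.elim Wire.const Wire.var (σ i)

lemma fvw_val {n m k : ℕ} (σ : Fin n → Bool ⊕ Fin m) (z : Fin m → Bool) (v : Fin k → Bool)
    (i : Fin n) : (fvw (k := k) σ i).val z v = fill σ z i := by
  unfold fvw fill
  cases σ i <;> rfl

lemma Wire.val_of_not_above {n k : ℕ} (P : Finset (Fin n)) (R : Fin k → Bool) (w : Wire n k)
    (h : w.above P R = false) (x x' : Fin n → Bool) (v v' : Fin k → Bool)
    (hx : ∀ i, i ∉ P → x i = x' i) (hv : ∀ g, R g = false → v g = v' g) :
    w.val x v = w.val x' v' := by
  cases w with
  | const b => rfl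
  | var i => exact hx i (by simpa [Wire.above] using h)
  | gate g => exact hv g h

lemma Gate.val_of_not_above {n k : ℕ} (P : Finset (Fin n)) (R : Fin k → Bool) (G : Gate n k)
    (h : G.above P R = false) (x x' : Fin n → Bool) (v v' : Fin k → Bool)
    (hx : ∀ i, i ∉ P → x i = x' i) (hv : ∀ g, R g = false → v g = v' g) :
    G.val x v = G.val x' v' := by
  cases G with
  | and a b =>
    simp only [Gate.above, Bool.or_eq_false_iff] at h
    simp only [Gate.val]
    rw [a.val_of_not_above P R h.1 x x' v v' hx hv, b.val_of_not_above P R h.2 x x' v v' hx hv]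
  | or a b =>
    simp only [Gate.above, Bool.or_eq_false_iff] at h
    simp only [Gate.val]
    rw [a.val_of_not_above P R h.1 x x' v v' hx hv, b.val_of_not_above P R h.2 x x' v v' hx hv]
  | not a =>
    simp only [Gate.above] at h
    simp only [Gate.val]
    rw [a.val_of_not_above P R h x x' v v' hx hv]

/-- a gate after the substitution: constant if it is not above `P` -/
def resG {n m k : ℕ} (σ : Fin n → Bool ⊕ Fin m) (up : Bool) (b : Bool) (G : Gate n k) : Gate m k :=
  if up = true then G.mapTo (fvw σ) Wire.gate else .or (.const b) (.const b)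

lemma resG_isNot {n m k : ℕ} (σ : Fin n → Bool ⊕ Fin m) (up : Bool) (b : Bool) (G : Gate n k)
    (h : (resG σ up b G).isNot = true) : G.isNot = true ∧ up = true := by
  unfold resG at h
  by_cases hu : up = true
  · rw [if_pos hu, Gate.mapTo_isNot] at h
    exact ⟨h, hu⟩
  · rw [if_neg hu] at h
    simp [Gate.isNot] at h

lemma resG_val {n m k : ℕ} (σ : Fin n → Bool ⊕ Fin m) (up : Bool) (b : Bool) (G : Gate n k)
    (z : Fin m → Bool) (v : Fin k → Bool) (hb : up = false → b = G.val (fill σ z) v) :
    (resG σ up b G).val z v = G.val (fill σ z) v := by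
  unfold resG
  by_cases hu : up = true
  · rw [if_pos hu, Gate.mapTo_val]
    have e1 : (fun i => (fvw (k := k) σ i).val z v) = fill σ z := funext (fvw_val σ z v)
    rw [e1]
    rfl
  · rw [if_neg hu]
    have hu' : up = false := by simpa using hu
    rw [← hb hu']
    simp [Gate.val, Wire.val]

lemma fill_off {n m : ℕ} (P : Finset (Fin n)) (σ : Fin n → Bool ⊕ Fin m)
    (hσ : ∀ i k, σ i = Sum.inr k → i ∈ P) (z z' : Fin m → Bool) (i : Fin n) (hi : i ∉ P) :
    fill σ z i = fill σ z' i := by
  unfold fill
  rcases hs : σ i with b | k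
  · rfl
  · exact absurd (hσ i k hs) hi

/-! ### Layered circuits -/

lemma layered_val_of_not_above {n : ℕ} (C : Layered n) (P : Finset (Fin n)) (x x' : Fin n → Bool)
    (hx : ∀ i, i ∉ P → x i = x' i) : ∀ (j : ℕ) (g : Fin (C.width j)), C.above P j g = false →
    C.val x j g = C.val x' j g := by
  intro j
  induction j with
  | zero =>
    intro g _
    exact Fin.elim0 (Fin.cast C.width_zero g)
  | succ j ih =>
    intro g hg
    exact Gate.val_of_not_above P (C.above P j) (C.gate j g) hg x x' _ _ hx ih

/-- the restricted layered circuit -/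
def resL {n m : ℕ} (C : Layered n) (P : Finset (Fin n)) (σ : Fin n → Bool ⊕ Fin m) : Layered m where
  layers := C.layers
  width := C.width
  width_zero := C.width_zero
  gate := fun j g => resG σ (C.above P (j + 1) g) (C.val (fill σ (fun _ => false)) (j + 1) g)
    (C.gate j g)
  out := C.out

lemma resL_val {n m : ℕ} (C : Layered n) (P : Finset (Fin n)) (σ : Fin n → Bool ⊕ Fin m)
    (hσ : ∀ i k, σ i = Sum.inr k → i ∈ P) (z : Fin m → Bool) :
    ∀ (j : ℕ) (g : Fin (C.width j)), (resL C P σ).val z j g = C.val (fill σ z) j g := by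
  intro j
  induction j with
  | zero =>
    intro g
    exact Fin.elim0 (Fin.cast C.width_zero g)
  | succ j ih =>
    intro g
    change (resG σ (C.above P (j + 1) g) (C.val (fill σ (fun _ => false)) (j + 1) g)
      (C.gate j g)).val z ((resL C P σ).val z j) = (C.gate j g).val (fill σ z) (C.val (fill σ z) j)
    have e : (resL C P σ).val z j = C.val (fill σ z) j := funext ih
    rw [e]
    apply resG_val
    intro hu
    exact layered_val_of_not_above C P _ _ (fill_off P σ hσ _ _) (j + 1) g hu

/-- **Restriction of layered circuits.** -/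
theorem layered_restrict {n m : ℕ} (C : Layered n) (P : Finset (Fin n))
    (σ : Fin n → Bool ⊕ Fin m) (hσ : ∀ i k, σ i = Sum.inr k → i ∈ P) :
    ∃ D : Layered m, (∀ z, D.eval z = C.eval (fill σ z)) ∧ D.size = C.size ∧
      D.maxWidth = C.maxWidth ∧ D.negations ≤ C.negationsAbove P := by
  refine ⟨resL C P σ, fun z => resL_val C P σ hσ z C.layers C.out, rfl, rfl, ?_⟩
  unfold Layered.negations Layered.negationsAbove
  apply Finset.sum_le_sum
  intro j _
  apply Finset.card_le_card
  intro g hg
  have h := (Finset.mem_filter.mp hg).2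
  exact Finset.mem_filter.mpr ⟨Finset.mem_univ _, resG_isNot σ _ _ _ h⟩

/-! ### Circuits -/

lemma circuit_val_of_not_above {n : ℕ} (C : Circuit n) (P : Finset (Fin n)) (x x' : Fin n → Bool)
    (hx : ∀ i, i ∉ P → x i = x' i) : ∀ (g : ℕ) (hg : g < C.size), C.above P g hg = false →
    C.gateVal x g hg = C.gateVal x' g hg := by
  intro g
  induction g using Nat.strong_induction_on with
  | _ g ih =>
    intro hg h
    rw [Circuit.above] at h
    rw [gateVal_eq, gateVal_eq]
    exact Gate.val_of_not_above P _ (C.gate ⟨g, hg⟩) h x x' _ _ hx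
      (fun g' hg' => ih g'.val g'.isLt (lt_trans g'.isLt hg) hg')

/-- the restricted circuit -/
def resC {n m : ℕ} (C : Circuit n) (P : Finset (Fin n)) (σ : Fin n → Bool ⊕ Fin m) : Circuit m where
  size := C.size
  gate := fun g => resG σ (C.above P g.val g.isLt) (C.gateVal (fill σ (fun _ => false)) g.val g.isLt)
    (C.gate g)
  out := C.out

lemma one_le_gate_depth {n k : ℕ} (G : Gate n k) (d : Fin k → ℕ) : 1 ≤ G.depth d := by
  cases G <;> exact Nat.le_add_left _ _

lemma resG_depth {n m k : ℕ} (σ : Fin n → Bool ⊕ Fin m) (up : Bool) (b : Bool) (G : Gate n k)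
    (d : Fin k → ℕ) : (resG σ up b G).depth d ≤ G.depth d := by
  unfold resG
  by_cases hu : up = true
  · rw [if_pos hu]
    have h := Gate.mapTo_depth (fvw σ) Wire.gate G d d 0 (fun i => by
      unfold fvw
      cases σ i <;> exact le_refl _) (fun g => le_refl _)
    simpa using h
  · rw [if_neg hu]
    exact le_trans (by simp [Gate.depth, Wire.depth]) (one_le_gate_depth G d)

/-- **Restriction of circuits.** -/
theorem circuit_restrict {n m : ℕ} (C : Circuit n) (P : Finset (Fin n))
    (σ : Fin n → Bool ⊕ Fin m) (hσ : ∀ i k, σ i = Sum.inr k → i ∈ P) :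
    ∃ D : Circuit m, (∀ z, D.eval z = C.eval (fill σ z)) ∧ D.size = C.size ∧
      D.depth ≤ C.depth ∧ D.negations ≤ C.negationsAbove P := by
  refine ⟨resC C P σ, fun z => ?_, rfl, ?_, ?_⟩
  · have h := gateVal_unique (resC C P σ) z
      (fun g => if hg : g < C.size then C.gateVal (fill σ z) g hg else false) (by
        intro g hg
        have hg' : g < C.size := hg
        rw [dif_pos hg']
        change _ = (resG σ (C.above P g hg') (C.gateVal (fill σ (fun _ => false)) g hg')
          (C.gate ⟨g, hg'⟩)).val z _
        have e : (fun g' : Fin g => if h : g'.val < C.size then C.gateVal (fill σ z) g'.val h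
            else false) = fun g' : Fin g => C.gateVal (fill σ z) g'.val (lt_trans g'.isLt hg') := by
          funext g'
          rw [dif_pos (lt_trans g'.isLt hg')]
        rw [e, resG_val]
        · exact gateVal_eq C _ g hg'
        · intro hu
          rw [← gateVal_eq C _ g hg']
          exact circuit_val_of_not_above C P _ _ (fill_off P σ hσ _ _) g hg' hu)
      C.out.val C.out.isLt
    rw [dif_pos C.out.isLt] at h
    exact h
  · have h := gateDepth_le (resC C P σ)
      (fun g => if hg : g < C.size then C.gateDepth g hg else 0) (by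
        intro g hg
        have hg' : g < C.size := hg
        rw [dif_pos hg']
        change (resG σ (C.above P g hg') (C.gateVal (fill σ (fun _ => false)) g hg')
          (C.gate ⟨g, hg'⟩)).depth _ ≤ _
        refine le_trans (resG_depth σ _ _ _ _) ?_
        have e : (fun g' : Fin g => if h : g'.val < C.size then C.gateDepth g'.val h else 0)
            = fun g' : Fin g => C.gateDepth g'.val (lt_trans g'.isLt hg') := by
          funext g'
          rw [dif_pos (lt_trans g'.isLt hg')]
        rw [e, Circuit.gateDepth]) C.out.val C.out.isLt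
    rw [dif_pos C.out.isLt] at h
    exact h
  · unfold Circuit.negations Circuit.negationsAbove
    apply Finset.card_le_card
    intro g hg
    have h := (Finset.mem_filter.mp hg).2
    exact Finset.mem_filter.mpr ⟨Finset.mem_univ _, resG_isNot σ _ _ _ h⟩

end Pool.Agent.Results.MP_2af48a_lc.FewNegations
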