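import Pool.Agent.Lib_MP_2af48a_lc.AboveRes

open Finset Filter

namespace Pool.Agent.Results.MP_2af48a_lc.FewNegations

/-! ## Selecting variables by addresses

The first `2 * m * LL n` variables are `m` addresses; bit `b` of address `i` is given by the two
variables at the positions `apos n i b true` (the bit is one) and `apos n i b false` (the bit is
zero). -/

/-- number of bits of an address -/
def LL (n : ℕ) : ℕ := Nat.log 2 n + 1

lemma lt_two_pow_LL (n : ℕ) : n < 2 ^ LL n := Nat.lt_pow_succ_log_self (by norm_num) n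

lemma LL_pos (n : ℕ) : 0 < LL n := Nat.succ_pos _

/-- position of an address variable -/
def apos (n i b : ℕ) (c : Bool) : ℕ := 2 * (i * LL n + b) + (if c then 0 else 1)

/-- the value of the variable selected by address `i` -/
def sel (n i : ℕ) (X : ℕ → Bool) : Bool :=
  decide (∃ j < n, X j = true ∧ ∀ b < LL n, X (apos n i b (j.testBit b)) = true)

lemma apos_lt (n m i b : ℕ) (c : Bool) (hi : i < m) (hb : b < LL n) :
    apos n i b c < 2 * (m * LL n) := by
  unfold apos
  have h1 : (i + 1) * LL n ≤ m * LL n := Nat.mul_le_mul_right _ hi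
  rw [add_mul, one_mul] at h1
  have h2 : (if c = true then 0 else 1) ≤ 1 := by split <;> omega
  omega

/-- the constants written on the address variables -/
def addr (n : ℕ) (e : ℕ → ℕ) (p : ℕ) : Bool :=
  if p % 2 = 0 then (e (p / 2 / LL n)).testBit (p / 2 % LL n)
  else !((e (p / 2 / LL n)).testBit (p / 2 % LL n))

lemma addr_apos (n : ℕ) (e : ℕ → ℕ) (i b : ℕ) (c : Bool) (hb : b < LL n) :
    addr n e (apos n i b c) = if c then (e i).testBit b else !((e i).testBit b) := by
  have h1 : apos n i b c / 2 = i * LL n + b := by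
    unfold apos
    cases c <;> simp <;> omega
  have h2 : (i * LL n + b) / LL n = i := by
    rw [mul_comm, Nat.mul_add_div (LL_pos n), Nat.div_eq_of_lt hb, add_zero]
  have h3 : (i * LL n + b) % LL n = b := by
    rw [mul_comm, Nat.mul_add_mod, Nat.mod_eq_of_lt hb]
  unfold addr
  rw [h1, h2, h3]
  cases c
  · have h4 : apos n i b false % 2 ≠ 0 := by
      unfold apos
      simp
    rw [if_neg h4]
    simp
  · have h4 : apos n i b true % 2 = 0 := by
      unfold apos
      simp
    rw [if_pos h4]
    simp

/-- The substitution which selects the variables `e 0, ..., e (m - 1)`. -/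
noncomputable def sub (n m : ℕ) (e : ℕ → ℕ) : Fin n → Bool ⊕ Fin m := by
  classical
  exact fun p => if h : ∃ i : Fin m, e i = p.val then Sum.inr h.choose
    else Sum.inl (if p.val < 2 * (m * LL n) then addr n e p.val else false)

lemma sub_inr (n m : ℕ) (e : ℕ → ℕ) (p : Fin n) (k : Fin m) (h : sub n m e p = Sum.inr k) :
    e k = p.val := by
  classical
  unfold sub at h
  by_cases h1 : ∃ i : Fin m, e i = p.val
  · simp only [dif_pos h1] at h
    have h2 := h1.choose_spec
    rw [Sum.inr.inj h] at h2
    exact h2
  · simp [dif_neg h1] at h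

/-- The selection works. -/
theorem sel_fill (n m : ℕ) (e : ℕ → ℕ) (he : ∀ i < m, 2 * (m * LL n) ≤ e i ∧ e i < n)
    (hinj : ∀ i < m, ∀ j < m, e i = e j → i = j) (z : Fin m → Bool) (i : ℕ) (hi : i < m) :
    sel n i (ext (fill (sub n m e) z)) = z ⟨i, hi⟩ := by
  classical
  have hadr : ∀ b < LL n, ∀ c, ext (fill (sub n m e) z) (apos n i b c)
      = if c then (e i).testBit b else !((e i).testBit b) := by
    intro b hb c
    have h1 := apos_lt n m i b c hi hb
    have h2 : apos n i b c < n := by
      have := he i hi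
      omega
    have h3 : ¬ ∃ k : Fin m, e k = apos n i b c := by
      rintro ⟨k, hk⟩
      have := he k.val k.isLt
      omega
    rw [← addr_apos n e i b c hb]
    simp only [ext, dif_pos h2, fill, sub, dif_neg h3, if_pos h1, Sum.elim_inl]
  have hdat : ext (fill (sub n m e) z) (e i) = z ⟨i, hi⟩ := by
    have h1 : e i < n := (he i hi).2
    have h2 : ∃ k : Fin m, e k = e i := ⟨⟨i, hi⟩, rfl⟩
    simp only [ext, dif_pos h1, fill, sub, dif_pos h2, Sum.elim_inr]
    congr 1
    apply Fin.ext
    exact hinj _ h2.choose.isLt _ hi h2.choose_spec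
  apply Bool.eq_iff_iff.mpr
  unfold sel
  rw [decide_eq_true_eq]
  constructor
  · rintro ⟨j, hj, h1, h2⟩
    have h3 : j = e i := by
      apply Nat.eq_of_testBit_eq
      intro b
      by_cases hb : b < LL n
      · have h4 := h2 b hb
        rw [hadr b hb] at h4
        cases hc : j.testBit b <;> rw [hc] at h4 <;> simpa using h4.symm
      · have h5 : 2 ^ LL n ≤ 2 ^ b := Nat.pow_le_pow_right (by norm_num) (by omega)
        have h6 := lt_two_pow_LL n
        have h7 := (he i hi).2
        rw [Nat.testBit_lt_two_pow (by omega), Nat.testBit_lt_two_pow (by omega)]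
    rw [h3, hdat] at h1
    exact h1
  · intro h
    refine ⟨e i, (he i hi).2, by rw [hdat]; exact h, fun b hb => ?_⟩
    rw [hadr b hb]
    cases hc : (e i).testBit b <;> simp

/-- the composition of a function with the selection -/
def selF (n m : ℕ) (F : (Fin m → Bool) → Bool) (x : Fin n → Bool) : Bool :=
  F (fun i => sel n i.val (ext x))

/-- Enough variables in `P` are not address variables. -/
lemma exists_sel (n m : ℕ) (P : Finset (Fin n)) (hP : m * (2 * LL n + 1) ≤ P.card) :
    ∃ e : ℕ → ℕ, (∀ i < m, 2 * (m * LL n) ≤ e i ∧ e i < n) ∧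
      (∀ i < m, ∀ j < m, e i = e j → i = j) ∧ ∀ i < m, ∀ p : Fin n, e i = p.val → p ∈ P := by
  classical
  set A := 2 * (m * LL n) with hA
  let Q : Finset (Fin n) := P.filter (fun p => A ≤ p.val)
  have hQ : m ≤ Q.card := by
    have h1 : (P.filter (fun p => ¬ A ≤ p.val)).card ≤ A := by
      have h2 : (P.filter (fun p => ¬ A ≤ p.val)).card
          = ((P.filter (fun p => ¬ A ≤ p.val)).image (fun p => p.val)).card := by
        rw [Finset.card_image_of_injective _ Fin.val_injective]
      rw [h2]
      calc _ ≤ (Finset.range A).card := by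
            apply Finset.card_le_card
            intro a ha
            rw [Finset.mem_image] at ha
            obtain ⟨p, hp, rfl⟩ := ha
            have := (Finset.mem_filter.mp hp).2
            rw [Finset.mem_range]
            omega
        _ = A := Finset.card_range A
    have h3 := Finset.card_filter_add_card_filter_not (s := P) (p := fun p => A ≤ p.val)
    have h4 : m * (2 * LL n + 1) = A + m := by rw [hA]; ring
    have h5 : Q.card = (P.filter (fun p => A ≤ p.val)).card := rfl
    omega
  obtain ⟨T, hTQ, hTm⟩ := Finset.exists_subset_card_eq hQ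
  let f := T.equivFinOfCardEq hTm
  refine ⟨fun i => if h : i < m then (f.symm ⟨i, h⟩).val.val else 0, ?_, ?_, ?_⟩
  · intro i hi
    simp only [dif_pos hi]
    refine ⟨?_, (f.symm ⟨i, hi⟩).val.isLt⟩
    exact (Finset.mem_filter.mp (hTQ (f.symm ⟨i, hi⟩).property)).2
  · intro i hi j hj h
    simp only [dif_pos hi, dif_pos hj] at h
    have h1 := Subtype.ext (Fin.ext h)
    have h2 := f.symm.injective h1
    simpa using h2
  · intro i hi p h
    simp only [dif_pos hi] at h
    have h1 : (f.symm ⟨i, hi⟩).val = p := Fin.ext h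
    rw [← h1]
    exact (Finset.mem_filter.mp (hTQ (f.symm ⟨i, hi⟩).property)).1

/-- **The selected variables lose the other NOT gates: layered circuits.** -/
theorem layered_select {n m : ℕ} (F : (Fin m → Bool) → Bool) (C : Layered n)
    (hC : ∀ x, C.eval x = selF n m F x) (P : Finset (Fin n))
    (hP : m * (2 * LL n + 1) ≤ P.card) :
    ∃ D : Layered m, (∀ z, D.eval z = F z) ∧ D.size = C.size ∧
      D.maxWidth = C.maxWidth ∧ D.negations ≤ C.negationsAbove P := by
  obtain ⟨e, he, hinj, hmem⟩ := exists_sel n m P hP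
  obtain ⟨D, h1, h2, h3, h4⟩ := layered_restrict C P (sub n m e) (fun p k h =>
    hmem k.val k.isLt p (sub_inr n m e p k h))
  refine ⟨D, fun z => ?_, h2, h3, h4⟩
  rw [h1, hC]
  unfold selF
  congr 1
  funext i
  exact sel_fill n m e he hinj z i.val i.isLt

/-- **The selected variables lose the other NOT gates: circuits.** -/
theorem circuit_select {n m : ℕ} (F : (Fin m → Bool) → Bool) (C : Circuit n)
    (hC : ∀ x, C.eval x = selF n m F x) (P : Finset (Fin n))
    (hP : m * (2 * LL n + 1) ≤ P.card) :
    ∃ D : Circuit m, (∀ z, D.eval z = F z) ∧ D.size = C.size ∧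
      D.depth ≤ C.depth ∧ D.negations ≤ C.negationsAbove P := by
  obtain ⟨e, he, hinj, hmem⟩ := exists_sel n m P hP
  obtain ⟨D, h1, h2, h3, h4⟩ := circuit_restrict C P (sub n m e) (fun p k h =>
    hmem k.val k.isLt p (sub_inr n m e p k h))
  refine ⟨D, fun z => ?_, h2, h3, h4⟩
  rw [h1, hC]
  unfold selF
  congr 1
  funext i
  exact sel_fill n m e he hinj z i.val i.isLt

end Pool.Agent.Results.MP_2af48a_lc.FewNegations
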