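import Pool.Agent.Lib_MP_2af48a_lc.NarrowUpper
import Pool.Agent.Lib_MP_2af48a_lc.NarrowLower

open Finset Filter

namespace Pool.Agent.Results.MP_2af48a_lc.FewNegations

/-! ## A function of few variables in monotone NC which is hard for narrow circuits

Here the number `L` of layers is a parameter which does not depend on the number `m` of
variables. -/

open MonotoneSeparation (run edges idx fn)

/-- number of columns -/
def tw (k L : ℕ) : ℕ := 2 * L ^ k + 1

/-- number of layers -/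
def tT (k L : ℕ) : ℕ := L ^ k + 2

/-- logarithm of the gadget parameter -/
def te (k L m : ℕ) : ℕ := (Nat.log 2 m - (3 * k + 18) * (Nat.log 2 (L + 2) + 1)) / 4

/-- square root of the gadget size -/
def tr (k L m : ℕ) : ℕ := 2 ^ (te k L m + 3)

lemma tw_pos (k L : ℕ) : 0 < tw k L := Nat.succ_pos _

lemma trr_pos (k L m : ℕ) : 0 < tr k L m * tr k L m := by
  unfold tr
  positivity

/-- the function -/
def hardW (k L m : ℕ) (x : Fin m → Bool) : Bool :=
  fn m (tw k L) (tr k L m * tr k L m) (tw_pos k L) (trr_pos k L m) (tT k L + 1) x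

lemma hardW_zero (k L m : ℕ) : hardW k L m (fun _ => false) = false := by
  unfold hardW fn
  rw [Bool.eq_false_iff]
  intro h
  simp only [run, decide_eq_true_eq] at h
  obtain ⟨a, _, h2⟩ := h ⟨0, tw_pos k L⟩
  unfold edges at h2
  split at h2 <;> exact absurd h2 (by simp)

theorem hardW_circuit (k n m : ℕ) (hmn : m ≤ n) : ∃ C : Circuit m, Pos C ∧
    C.size ≤ (n + 2) ^ (3 * (k + 2) + 26) ∧
    C.depth ≤ (Nat.log 2 n + 2) ^ (2 * (k + 2) + 6) ∧
    ∀ x, C.eval x = hardW k (Nat.log 2 n) m x := by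
  set l := Nat.log 2 n with hl
  obtain ⟨e, he⟩ : ∃ e, e = te k l m := ⟨_, rfl⟩
  have hel : 4 * e ≤ l := by
    have h1 : Nat.log 2 m ≤ Nat.log 2 n := Nat.log_mono_right hmn
    rw [he]
    unfold te
    omega
  have hw : tw k l ≤ (l + 2) ^ (k + 2) := by
    unfold tw
    have h1 : l ^ k ≤ (l + 2) ^ k := Nat.pow_le_pow_left (by omega) _
    have h2 : 1 ≤ (l + 2) ^ k := Nat.one_le_pow _ _ (by omega)
    calc 2 * l ^ k + 1 ≤ (l + 2) ^ k * 4 := by omega
      _ ≤ (l + 2) ^ k * (l + 2) ^ 2 := by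
          apply Nat.mul_le_mul_left
          have : 2 ^ 2 ≤ (l + 2) ^ 2 := Nat.pow_le_pow_left (by omega) _
          omega
      _ = _ := by rw [← pow_add]
  have hT : tT k l + 1 ≤ (l + 2) ^ (k + 2) := by
    unfold tT
    have h1 : l ^ k ≤ (l + 2) ^ k := Nat.pow_le_pow_left (by omega) _
    have h2 : 1 ≤ (l + 2) ^ k := Nat.one_le_pow _ _ (by omega)
    calc l ^ k + 2 + 1 ≤ (l + 2) ^ k * 4 := by omega
      _ ≤ (l + 2) ^ k * (l + 2) ^ 2 := by
          apply Nat.mul_le_mul_left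
          have : 2 ^ 2 ≤ (l + 2) ^ 2 := Nat.pow_le_pow_left (by omega) _
          omega
      _ = _ := by rw [← pow_add]
  have hln : l ≤ n := Nat.log_le_self 2 n
  have hwn : tw k l ≤ (n + 2) ^ (k + 2) := le_trans hw (Nat.pow_le_pow_left (by omega) _)
  have hTn : tT k l + 1 ≤ (n + 2) ^ (k + 2) := le_trans hT (Nat.pow_le_pow_left (by omega) _)
  have hm2 : tr k l m * tr k l m = 2 ^ (2 * e + 6) := by
    unfold tr
    rw [← he, ← pow_add]
    congr 1
    ring
  have hmn2 : tr k l m * tr k l m ≤ (n + 2) ^ 7 := by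
    rw [hm2]
    have h1 : 2 ^ (2 * e + 6) ≤ 2 ^ (l + 6) := Nat.pow_le_pow_right (by norm_num) (by omega)
    have h2 : 2 ^ l ≤ n + 2 := by
      rcases Nat.eq_zero_or_pos n with h | h
      · rw [hl, h]; simp
      · exact le_trans (Nat.pow_log_le_self 2 (by omega)) (by omega)
    calc 2 ^ (2 * e + 6) ≤ 2 ^ (l + 6) := h1
      _ = 2 ^ l * 2 ^ 6 := pow_add _ _ _
      _ ≤ (n + 2) * (n + 2) ^ 6 := Nat.mul_le_mul h2 (Nat.pow_le_pow_left (by omega) _)
      _ = (n + 2) ^ 7 := by rw [← pow_succ']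
  obtain ⟨l2, hl2⟩ : ∃ l2, l2 = Nat.log 2 (tw k l) + 1 := ⟨_, rfl⟩
  have hw2 : tw k l ≤ 2 ^ l2 := by
    rw [hl2]; exact (Nat.lt_pow_succ_log_self (by norm_num) _).le
  have hw2' : 2 ^ l2 ≤ 2 * tw k l := by
    rw [hl2, pow_succ]
    have := Nat.pow_log_le_self 2 (tw_pos k l).ne'
    omega
  have hl2w : l2 ≤ tw k l + 1 := by
    rw [hl2]
    have := Nat.log_le_self 2 (tw k l)
    omega
  obtain ⟨C, h1, h2, h3, h4⟩ := fn_circuit m (tw k l) (tr k l m * tr k l m) (tw_pos k l)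
    (trr_pos k l m) (2 * e + 6) l2 (tT k l + 1) hm2.le hw2
  refine ⟨C, h1, ?_, ?_, h4⟩
  · rw [h2, ← hm2]
    set w := tw k l with hwdef
    set M := tr k l m * tr k l m with hmdef
    have hw0 : 1 ≤ w := tw_pos k l
    have hm0 : 1 ≤ M := trr_pos k l m
    have e1 : (w * M) * (w * M) + (w * M) * w * M + (w * M) * 2 ^ l2 ≤ 4 * ((w * M) * (w * M)) := by
      have a1 : (w * M) * w * M = (w * M) * (w * M) := by ring
      have a2 : (w * M) * 2 ^ l2 ≤ (w * M) * (2 * (w * M)) := by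
        apply Nat.mul_le_mul_left
        refine le_trans hw2' (Nat.mul_le_mul_left _ ?_)
        exact Nat.le_mul_of_pos_right _ hm0
      rw [a1]
      have a3 : (w * M) * (2 * (w * M)) = 2 * ((w * M) * (w * M)) := by ring
      omega
    have e2 : 1 ≤ (tT k l + 1) * (4 * ((w * M) * (w * M))) := by
      have h5 : 0 < w * M := Nat.mul_pos hw0 hm0
      exact Nat.mul_pos (Nat.succ_pos _) (Nat.mul_pos (by norm_num) (Nat.mul_pos h5 h5))
    calc 1 + (tT k l + 1) * ((w * M) * (w * M) + (w * M) * w * M + (w * M) * 2 ^ l2)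
        ≤ (tT k l + 1) * (4 * ((w * M) * (w * M))) + (tT k l + 1) * (4 * ((w * M) * (w * M))) :=
          Nat.add_le_add e2 (Nat.mul_le_mul_left _ e1)
      _ = 8 * ((tT k l + 1) * (w * w) * (M * M)) := by ring
      _ ≤ (n + 2) ^ 4 * ((n + 2) ^ (k + 2) * ((n + 2) ^ (k + 2) * (n + 2) ^ (k + 2)) *
            ((n + 2) ^ 7 * (n + 2) ^ 7)) := by
          apply Nat.mul_le_mul
          · have : 2 ^ 4 ≤ (n + 2) ^ 4 := Nat.pow_le_pow_left (by omega) _
            omega
          · exact Nat.mul_le_mul (Nat.mul_le_mul hTn (Nat.mul_le_mul hwn hwn))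
              (Nat.mul_le_mul hmn2 hmn2)
      _ = (n + 2) ^ (4 + ((k + 2) + ((k + 2) + (k + 2)) + (7 + 7))) := by
          rw [← pow_add, ← pow_add, ← pow_add, ← pow_add, ← pow_add]
      _ ≤ _ := Nat.pow_le_pow_right (by omega) (by omega)
  · refine le_trans h3 ?_
    have b1 : 1 ≤ (l + 2) ^ (k + 2) := Nat.one_le_pow _ _ (by omega)
    have e1 : 2 * e + 6 + l2 + 3 ≤ (l + 2) ^ (k + 2) * (l + 2) ^ 4 := by
      have a2 : 8 * (l + 2) ≤ (l + 2) ^ 4 := by
        calc 8 * (l + 2) = 2 ^ 3 * (l + 2) := by norm_num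
          _ ≤ (l + 2) ^ 3 * (l + 2) := Nat.mul_le_mul_right _ (Nat.pow_le_pow_left (by omega) _)
          _ = (l + 2) ^ 4 := by rw [← pow_succ]
      have a3 : 2 * e + 6 + l2 + 3 ≤ (l + 2) ^ (k + 2) + (l + 10) := by omega
      calc 2 * e + 6 + l2 + 3 ≤ (l + 2) ^ (k + 2) * 1 + (l + 2) ^ (k + 2) * (l + 10) := by
            refine le_trans a3 (Nat.add_le_add (by omega) (Nat.le_mul_of_pos_left _ b1))
        _ = (l + 2) ^ (k + 2) * (l + 11) := by ring
        _ ≤ (l + 2) ^ (k + 2) * (8 * (l + 2)) := Nat.mul_le_mul_left _ (by omega)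
        _ ≤ _ := Nat.mul_le_mul_left _ a2
    have e2 : 1 ≤ (l + 2) ^ (k + 2) * ((l + 2) ^ (k + 2) * (l + 2) ^ 4) :=
      Nat.mul_pos b1 (Nat.mul_pos b1 (Nat.one_le_pow _ _ (by omega)))
    calc 1 + (tT k l + 1) * (2 * e + 6 + l2 + 3)
        ≤ (l + 2) ^ (k + 2) * ((l + 2) ^ (k + 2) * (l + 2) ^ 4) +
          (l + 2) ^ (k + 2) * ((l + 2) ^ (k + 2) * (l + 2) ^ 4) :=
          Nat.add_le_add e2 (Nat.mul_le_mul hT e1)
      _ = (l + 2) ^ (k + 2) * ((l + 2) ^ (k + 2) * (l + 2) ^ 4) * 2 := by ring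
      _ ≤ (l + 2) ^ (k + 2) * ((l + 2) ^ (k + 2) * (l + 2) ^ 4) * (l + 2) ^ 2 := by
          apply Nat.mul_le_mul_left
          have : 2 ^ 2 ≤ (l + 2) ^ 2 := Nat.pow_le_pow_left (by omega) _
          omega
      _ = _ := by rw [← pow_add, ← pow_add, ← pow_add]; congr 1; ring

/-- **Lower bound.** -/
theorem hardW_lower (k L m S : ℕ) (hL : 1 ≤ L) (hm : m < 2 ^ (L + 1))
    (hS : (S + 1) ^ 4 * (L + 2) ^ (22 * k + 84) ≤ m) (C : StConnectivity.MonLayered m)
    (hC : ∀ x, C.eval x = hardW k L m x) (hwid : C.maxWidth ≤ S) : 2 ^ L ^ k < C.size := by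
  obtain ⟨q, hq⟩ : ∃ q, q = L + 2 := ⟨_, rfl⟩
  obtain ⟨e, he⟩ : ∃ e, e = te k L m := ⟨_, rfl⟩
  obtain ⟨R, hR⟩ : ∃ R, R = L ^ k := ⟨_, rfl⟩
  have hq3 : 3 ≤ q := by omega
  have hq1 : ∀ a, 1 ≤ q ^ a := fun a => Nat.one_le_pow _ _ (by omega)
  have hR1 : 1 ≤ R := by rw [hR]; exact Nat.one_le_pow _ _ hL
  have hRq : R ≤ q ^ k := by rw [hR]; exact Nat.pow_le_pow_left (by omega) _
  rw [← hq] at hS
  have hm0 : m ≠ 0 := by
    have : 0 < (S + 1) ^ 4 * q ^ (22 * k + 84) := Nat.mul_pos (by positivity) (hq1 _)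
    omega
  -- the parameter `e`
  obtain ⟨a, ha⟩ : ∃ a, a = Nat.log 2 q := ⟨_, rfl⟩
  have ha1 : 1 ≤ a := by
    rw [ha]; exact Nat.le_log_of_pow_le (by norm_num) (by omega)
  have haq : 2 ^ a ≤ q := by rw [ha]; exact Nat.pow_log_le_self 2 (by omega)
  have haq' : q < 2 ^ (a + 1) := by rw [ha]; exact Nat.lt_pow_succ_log_self (by norm_num) _
  obtain ⟨b, hb⟩ : ∃ b, b = Nat.log 2 m := ⟨_, rfl⟩
  have hbm : 2 ^ b ≤ m := by rw [hb]; exact Nat.pow_log_le_self 2 hm0
  have hbm' : m < 2 ^ (b + 1) := by rw [hb]; exact Nat.lt_pow_succ_log_self (by norm_num) _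
  have heq : e = (b - (3 * k + 18) * (a + 1)) / 4 := by
    rw [he, te, hb, ha, hq]
  have hbig : (3 * k + 18) * (a + 1) ≤ b := by
    have h1 : 2 ^ (a * (22 * k + 84)) ≤ m := by
      calc 2 ^ (a * (22 * k + 84)) = (2 ^ a) ^ (22 * k + 84) := by rw [← pow_mul]
        _ ≤ q ^ (22 * k + 84) := Nat.pow_le_pow_left haq _
        _ ≤ (S + 1) ^ 4 * q ^ (22 * k + 84) := Nat.le_mul_of_pos_left _ (by positivity)
        _ ≤ m := hS
    have h2 : a * (22 * k + 84) ≤ b := by
      rw [hb]; exact Nat.le_log_of_pow_le (by norm_num) h1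
    have h3 : (3 * k + 18) * (a + 1) ≤ (3 * k + 18) * (2 * a) := Nat.mul_le_mul_left _ (by omega)
    have h4 : (3 * k + 18) * (2 * a) ≤ a * (22 * k + 84) := by nlinarith
    omega
  -- upper bound for `2 ^ e`
  have hup : 2 ^ (4 * e) * q ^ (3 * k + 18) ≤ m := by
    calc 2 ^ (4 * e) * q ^ (3 * k + 18)
        ≤ 2 ^ (4 * e) * (2 ^ (a + 1)) ^ (3 * k + 18) :=
          Nat.mul_le_mul_left _ (Nat.pow_le_pow_left haq'.le _)
      _ = 2 ^ (4 * e + (3 * k + 18) * (a + 1)) := by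
          rw [← pow_mul, ← pow_add]
          congr 2
          ring
      _ ≤ 2 ^ b := Nat.pow_le_pow_right (by norm_num) (by omega)
      _ ≤ m := hbm
  -- lower bound for `2 ^ e`
  have hlow : (S + 1) * q ^ (4 * k + 11) ≤ 2 ^ e := by
    by_contra hcon
    push Not at hcon
    have h1 : (2 ^ e) ^ 4 < ((S + 1) * q ^ (4 * k + 11)) ^ 4 :=
      Nat.pow_lt_pow_left hcon (by norm_num)
    have h2 : m < 2 ^ (4 * e + 4) * 2 ^ ((3 * k + 18) * (a + 1)) := by
      rw [← pow_add]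
      refine lt_of_lt_of_le hbm' (Nat.pow_le_pow_right (by norm_num) (by omega))
    have h3 : 2 ^ ((3 * k + 18) * (a + 1)) ≤ q ^ (2 * (3 * k + 18)) := by
      calc 2 ^ ((3 * k + 18) * (a + 1)) = (2 ^ a * 2) ^ (3 * k + 18) := by
            rw [← pow_succ, ← pow_mul]
            congr 1
            ring
        _ ≤ (q * q) ^ (3 * k + 18) := Nat.pow_le_pow_left (Nat.mul_le_mul haq (by omega)) _
        _ = q ^ (2 * (3 * k + 18)) := by rw [← sq, ← pow_mul]
    have h4 : 2 ^ (4 * e + 4) = (2 ^ e) ^ 4 * 2 ^ 4 := by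
      rw [← pow_mul, ← pow_add]
      congr 1
      ring
    have h5 : 2 ^ 4 ≤ q ^ 4 := Nat.pow_le_pow_left (by omega) _
    have h6 : m < m := by
      calc m < 2 ^ (4 * e + 4) * 2 ^ ((3 * k + 18) * (a + 1)) := h2
        _ ≤ ((2 ^ e) ^ 4 * q ^ 4) * q ^ (2 * (3 * k + 18)) := by
            rw [h4]
            exact Nat.mul_le_mul (Nat.mul_le_mul_left _ h5) h3
        _ ≤ (((S + 1) * q ^ (4 * k + 11)) ^ 4 * q ^ 4) * q ^ (2 * (3 * k + 18)) :=
            Nat.mul_le_mul_right _ (Nat.mul_le_mul_right _ h1.le)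
        _ = (S + 1) ^ 4 * (q ^ ((4 * k + 11) * 4) * q ^ 4 * q ^ (2 * (3 * k + 18))) := by
            rw [mul_pow, ← pow_mul]
            ring
        _ = (S + 1) ^ 4 * q ^ (22 * k + 84) := by
            rw [← pow_add, ← pow_add]
            congr 2
            ring
        _ ≤ m := hS
    exact lt_irrefl _ h6
  have hr : tr k L m = 4 * 2 * 2 ^ e := by
    unfold tr
    rw [← he, pow_add]
    ring
  have hw : tw k L = 2 * R + 1 := by unfold tw; rw [hR]
  have hT : tT k L = R + 2 := by unfold tT; rw [hR]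
  have hw3 : 2 * R + 1 ≤ q ^ (k + 1) := by
    calc 2 * R + 1 ≤ q ^ k * 3 := by omega
      _ ≤ q ^ k * q := Nat.mul_le_mul_left _ hq3
      _ = _ := (pow_succ _ _).symm
  have hR3 : R + 3 ≤ q ^ (k + 2) := by
    calc R + 3 ≤ q ^ k * 4 := by have := hq1 k; omega
      _ ≤ q ^ k * q ^ 2 := by
          apply Nat.mul_le_mul_left
          nlinarith
      _ = _ := (pow_add _ _ _).symm
  -- number of inputs
  have hnin : (tT k L + 1) * ((tw k L * (tr k L m * tr k L m)) * (tw k L * (tr k L m * tr k L m)))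
      ≤ m := by
    refine le_trans ?_ hup
    rw [hT, hw, hr]
    have h12 : 4096 ≤ q ^ 8 := by
      calc 4096 ≤ 3 ^ 8 := by norm_num
        _ ≤ q ^ 8 := Nat.pow_le_pow_left hq3 _
    calc (R + 2 + 1) * (((2 * R + 1) * (4 * 2 * 2 ^ e * (4 * 2 * 2 ^ e))) *
          ((2 * R + 1) * (4 * 2 * 2 ^ e * (4 * 2 * 2 ^ e))))
        = ((R + 3) * ((2 * R + 1) * (2 * R + 1)) * 4096) * (2 ^ e) ^ 4 := by ring
      _ ≤ (q ^ (k + 2) * (q ^ (k + 1) * q ^ (k + 1)) * q ^ 8) * (2 ^ e) ^ 4 := by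
          apply Nat.mul_le_mul_right
          exact Nat.mul_le_mul (Nat.mul_le_mul hR3 (Nat.mul_le_mul hw3 hw3)) h12
      _ = q ^ (3 * k + 12) * (2 ^ e) ^ 4 := by
          rw [← pow_add, ← pow_add, ← pow_add]
          congr 2
          ring
      _ ≤ q ^ (3 * k + 18) * (2 ^ e) ^ 4 :=
          Nat.mul_le_mul_right _ (Nat.pow_le_pow_right (by omega) (by omega))
      _ = 2 ^ (4 * e) * q ^ (3 * k + 18) := by
          rw [← pow_mul, mul_comm e 4]
          ring
  have key := nl_proof m (tT k L) (tw k L) (tr k L m) (2 ^ e) 2 S R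
    (R * (L + 1) + 2 * S + 2 + 1) (L + 1) 2 (tw_pos k L) (trr_pos k L m) C
    hC hwid hr (by positivity) (by norm_num)
    (by
      rw [hr]
      have h1 : S + 1 ≤ 2 ^ e := le_trans (Nat.le_mul_of_pos_right _ (hq1 _)) hlow
      omega)
    (by rw [hT])
    (by rw [hw]; omega)
    hnin
    (by
      refine le_trans ?_ hm.le
      refine le_trans ?_ hnin
      set w := tw k L with hw
      set M := tr k L m * tr k L m with hM
      have hw1 : 1 ≤ w := tw_pos k L
      have hm2 : 2 ≤ M := by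
        have h8 : 8 ≤ tr k L m := by
          rw [hr]
          have : 1 ≤ 2 ^ e := Nat.one_le_two_pow
          omega
        rw [hM]
        nlinarith
      have h1 : w + 1 ≤ w * M := by nlinarith
      have h2 : 1 ≤ (w * M) * (w * M) := by nlinarith
      calc tT k L * w * M * (w + 1) + 1 ≤ tT k L * w * M * (w * M) + (w * M) * (w * M) :=
            Nat.add_le_add (Nat.mul_le_mul_left _ h1) h2
        _ = _ := by ring)
    (by norm_num)
    le_rfl
    (by
      rw [hw]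
      refine le_trans ?_ hlow
      have hLq : L + 1 ≤ q := by omega
      have b1 : R * (L + 1) + 2 * S + 2 + 1 ≤ q ^ (k + 2) * (S + 1) := by
        have a1 : R * (L + 1) ≤ q ^ (k + 1) := by
          calc R * (L + 1) ≤ q ^ k * q := Nat.mul_le_mul hRq hLq
            _ = _ := (pow_succ _ _).symm
        have a2 : 2 * S + 3 ≤ 3 * (S + 1) := by omega
        have a3 : q ^ (k + 1) ≤ q ^ (k + 1) * (S + 1) := Nat.le_mul_of_pos_right _ (by omega)
        have a4 : q ^ (k + 2) = q ^ (k + 1) * q := pow_succ _ _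
        have a5 : 3 ≤ q ^ (k + 1) * 2 := by
          have : 3 ≤ q ^ (k + 1) := le_trans hq3 (Nat.le_self_pow (by omega) _)
          omega
        calc R * (L + 1) + 2 * S + 2 + 1 ≤ q ^ (k + 1) * (S + 1) + 3 * (S + 1) := by omega
          _ ≤ q ^ (k + 1) * (S + 1) + (q ^ (k + 1) * 2) * (S + 1) :=
              Nat.add_le_add_left (Nat.mul_le_mul_right _ a5) _
          _ = (q ^ (k + 1) * 3) * (S + 1) := by ring
          _ ≤ (q ^ (k + 1) * q) * (S + 1) := Nat.mul_le_mul_right _ (Nat.mul_le_mul_left _ hq3)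
          _ = _ := by rw [← a4]
      have b2 : R * (R * (L + 1) + 2 * S + 2 + 1) + 2 ≤ q ^ (2 * k + 3) * (S + 1) := by
        have a1 : R * (R * (L + 1) + 2 * S + 2 + 1) ≤ q ^ (2 * k + 2) * (S + 1) := by
          calc R * (R * (L + 1) + 2 * S + 2 + 1) ≤ q ^ k * (q ^ (k + 2) * (S + 1)) :=
                Nat.mul_le_mul hRq b1
            _ = (q ^ k * q ^ (k + 2)) * (S + 1) := by ring
            _ = q ^ (2 * k + 2) * (S + 1) := by rw [← pow_add]; congr 2; ring
        have a2 : 1 ≤ q ^ (2 * k + 2) * (S + 1) := Nat.mul_pos (hq1 _) (by omega)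
        calc _ ≤ q ^ (2 * k + 2) * (S + 1) * 3 := by omega
          _ ≤ q ^ (2 * k + 2) * (S + 1) * q := Nat.mul_le_mul_left _ hq3
          _ = q ^ (2 * k + 3) * (S + 1) := by ring
      have b3 : 2 * R + 1 + 1 ≤ q ^ (k + 2) := by
        calc 2 * R + 1 + 1 ≤ q ^ k * 4 := by omega
          _ ≤ q ^ k * q ^ 2 := by
              apply Nat.mul_le_mul_left
              nlinarith
          _ = _ := (pow_add _ _ _).symm
      have b4 : 20 * R ≤ q ^ (k + 3) := by
        calc 20 * R ≤ 27 * q ^ k := by omega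
          _ = 3 ^ 3 * q ^ k := by norm_num
          _ ≤ q ^ 3 * q ^ k := Nat.mul_le_mul_right _ (Nat.pow_le_pow_left hq3 _)
          _ = q ^ (k + 3) := by rw [← pow_add]; congr 1; ring
      calc 20 * R * ((R * (R * (L + 1) + 2 * S + 2 + 1) + 2) * (2 * R + 1 + 1))
          ≤ q ^ (k + 3) * ((q ^ (2 * k + 3) * (S + 1)) * q ^ (k + 2)) :=
            Nat.mul_le_mul b4 (Nat.mul_le_mul b2 b3)
        _ = (S + 1) * (q ^ (k + 3) * q ^ (2 * k + 3) * q ^ (k + 2)) := by ring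
        _ = (S + 1) * q ^ (4 * k + 8) := by
            rw [← pow_add, ← pow_add]
            congr 2
            ring
        _ ≤ (S + 1) * q ^ (4 * k + 11) :=
            Nat.mul_le_mul_left _ (Nat.pow_le_pow_right (by omega) (by omega)))
  rw [hR] at key
  exact key

end Pool.Agent.Results.MP_2af48a_lc.FewNegations
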