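import Pool.Agent.Lib_MP_2af48a_lc.AboveWidth
import Pool.Agent.Lib_MP_2af48a_lc.NarrowTight

open Finset Filter

namespace Pool.Agent.Results.MP_2af48a_lc.FewNegations

/-! ## Growth -/

/-- the excess grows faster than `log log n` -/
def Excess (N r : ℕ → ℕ) : Prop :=
  Tendsto (fun n : ℕ => Rx N r n / Real.logb 2 (Real.logb 2 n)) atTop atTop

/-- **Growth of the number of variables of a copy.** -/
theorem growthT (N r : ℕ → ℕ) (hN : ∀ n, N n ≤ n) (hr : Excess N r) (c : ℕ) :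
    ∀ᶠ n : ℕ in atTop, nb (fun _ => r n) (m0 N n) ≤ m0 N n ∧
      ((Nat.log 2 n : ℝ) + 2) ^ c ≤ (2 : ℝ) ^ (Rx N r n / 5) ∧
      ∀ W : ℕ, (W : ℝ) ≤ (2 : ℝ) ^ (Rx N r n / 5) →
        (2 * W + 4) ^ 4 * (Nat.log 2 n + 2) ^ c ≤ mb (fun _ => r n) (m0 N n) := by
  have hlog : Tendsto (fun n : ℕ => Real.logb 2 (n : ℝ)) atTop atTop :=
    (Real.tendsto_logb_atTop (by norm_num)).comp tendsto_natCast_atTop_atTop
  filter_upwards [hr.eventually_ge_atTop (10 * ((c : ℝ) + 30)), hlog.eventually_ge_atTop 4,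
    eventually_ge_atTop 2] with n hC h2 h3
  set L := Real.logb 2 (n : ℝ) with hL
  set Q := (2 : ℝ) ^ (Rx N r n / 5) with hQ
  set t := r n with ht
  set l := Nat.log 2 n with hl
  set u := (l : ℝ) + 2 with hu
  have hn0 : (0 : ℝ) < n := by exact_mod_cast (by omega : 0 < n)
  have hc0 : (0 : ℝ) ≤ c := Nat.cast_nonneg c
  have hl0 : (0 : ℝ) ≤ l := Nat.cast_nonneg l
  have hu2 : 2 ≤ u := by linarith
  have hlL : (l : ℝ) ≤ L := by
    rw [hL, Real.le_logb_iff_rpow_le (by norm_num) hn0, Real.rpow_natCast]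
    exact_mod_cast Nat.pow_log_le_self 2 (by omega : n ≠ 0)
  have huL : u ≤ L ^ 2 := by nlinarith
  -- the excess
  have hLL0 : 0 < Real.logb 2 L := Real.logb_pos (by norm_num) (by linarith)
  have hX : 10 * ((c : ℝ) + 30) * Real.logb 2 L ≤ Rx N r n := by
    rwa [le_div_iff₀ hLL0] at hC
  have hlogu : Real.logb 2 u ≤ 2 * Real.logb 2 L := by
    calc Real.logb 2 u ≤ Real.logb 2 (L ^ 2) :=
          Real.logb_le_logb_of_le (by norm_num) (by linarith) huL
      _ = 2 * Real.logb 2 L := by rw [Real.logb_pow]; norm_num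
  have hu0 : 0 ≤ Real.logb 2 u := Real.logb_nonneg (by norm_num) (by linarith)
  have hX5 : ((c : ℝ) + 30) * Real.logb 2 u ≤ Rx N r n / 5 := by
    have e1 : ((c : ℝ) + 30) * Real.logb 2 u ≤ ((c : ℝ) + 30) * (2 * Real.logb 2 L) :=
      mul_le_mul_of_nonneg_left hlogu (by linarith)
    linarith
  have hQu : u ^ (c + 30) ≤ Q := by
    have e1 : (2 : ℝ) ^ (((c : ℝ) + 30) * Real.logb 2 u) = u ^ (c + 30) := by
      rw [mul_comm, Real.rpow_mul (by norm_num), Real.rpow_logb (by norm_num) (by norm_num)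
        (by linarith)]
      rw [show ((c : ℝ) + 30) = ((c + 30 : ℕ) : ℝ) by push_cast; ring, Real.rpow_natCast]
    rw [← e1, hQ]
    exact Real.rpow_le_rpow_of_exponent_le (by norm_num) hX5
  have hQ0 : 0 < Q := Real.rpow_pos_of_pos (by norm_num) _
  have hu1 : ∀ a : ℕ, 1 ≤ u ^ a := fun a => one_le_pow₀ (by linarith)
  have hQ1 : 1 ≤ Q := le_trans (hu1 _) hQu
  have hQ5 : Q ^ 5 = (2 : ℝ) ^ (Rx N r n) := by
    rw [hQ, ← Real.rpow_natCast, ← Real.rpow_mul (by norm_num)]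
    congr 1
    push_cast
    ring
  have hRpos : 0 < Rx N r n := by nlinarith
  -- `N n` is positive
  have hN0 : N n ≠ 0 := by
    intro h
    unfold Rx at hRpos
    rw [h, Nat.cast_zero, Real.logb_zero] at hRpos
    have : (0 : ℝ) ≤ r n := Nat.cast_nonneg _
    linarith
  have hNpos : (0 : ℝ) < N n := by exact_mod_cast Nat.pos_of_ne_zero hN0
  have hNE : (N n : ℝ) = Q ^ 5 * 2 ^ t := by
    rw [hQ5, Rx, Real.rpow_sub (by norm_num), Real.rpow_logb (by norm_num) (by norm_num) hNpos,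
      Real.rpow_natCast, div_mul_cancel₀ _ (by positivity)]
  -- the number of NOT gates
  have htl : t ≤ l := by
    rw [hl]
    apply Nat.le_log_of_pow_le (by norm_num)
    have e1 : (1 : ℝ) ≤ Q ^ 5 := one_le_pow₀ hQ1
    have e2 : ((2 : ℝ)) ^ t ≤ N n := by
      rw [hNE]
      exact le_mul_of_one_le_left (by positivity) e1
    have e3 : (2 : ℝ) ^ t ≤ n := le_trans e2 (by exact_mod_cast hN n)
    exact_mod_cast e3
  obtain ⟨B, hB⟩ : ∃ B, B = nb (fun _ => r n) (m0 N n) := ⟨_, rfl⟩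
  have hBdef : B = 2 ^ t * (t + 1) + 1 := by rw [hB]; rfl
  have hB0 : 0 < B := by omega
  have hBle : B ≤ 2 ^ t * (l + 2) := by
    have h1 : 1 ≤ 2 ^ t := Nat.one_le_two_pow
    calc B ≤ 2 ^ t * (t + 1) + 2 ^ t := by omega
      _ = 2 ^ t * (t + 2) := by ring
      _ ≤ _ := Nat.mul_le_mul_left _ (by omega)
  have hD : 2 * LL n + 1 ≤ (l + 2) * (l + 2) := by
    unfold LL
    rw [← hl]
    nlinarith
  have hD0 : 0 < 2 * LL n + 1 := Nat.succ_pos _
  have hBD : B * (2 * LL n + 1) ≤ 2 ^ t * (l + 2) ^ 3 := by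
    calc B * (2 * LL n + 1) ≤ (2 ^ t * (l + 2)) * ((l + 2) * (l + 2)) := Nat.mul_le_mul hBle hD
      _ = _ := by ring
  have hcast : (((l + 2 : ℕ)) : ℝ) = u := by push_cast; rfl
  have g1 : nb (fun _ => r n) (m0 N n) ≤ m0 N n := by
    rw [← hB, m0, Nat.le_div_iff_mul_le hD0]
    refine le_trans hBD ?_
    have e1 : ((2 ^ t * (l + 2) ^ 3 : ℕ) : ℝ) ≤ N n := by
      push_cast
      rw [hNE, mul_comm]
      apply mul_le_mul_of_nonneg_right _ (by positivity)
      calc ((l : ℝ) + 2) ^ 3 ≤ u ^ (c + 30) := pow_le_pow_right₀ (by linarith) (by omega)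
        _ ≤ Q := hQu
        _ = Q ^ 1 := (pow_one _).symm
        _ ≤ Q ^ 5 := pow_le_pow_right₀ hQ1 (by norm_num)
    exact_mod_cast e1
  refine ⟨g1, le_trans (pow_le_pow_right₀ (by linarith) (by omega)) hQu, fun W hW => ?_⟩
  obtain ⟨m, hm⟩ : ∃ m, m = mb (fun _ => r n) (m0 N n) := ⟨_, rfl⟩
  rw [← hm]
  have hmdef : m = m0 N n / B := by rw [hm, hB]; rfl
  have hm1 : 1 ≤ m := by
    rw [hmdef, Nat.one_le_div_iff hB0, hB]
    exact g1
  have h5 : m0 N n < B * (m + 1) := by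
    rw [hmdef]
    exact Nat.lt_mul_div_succ _ hB0
  have h6 : N n < (2 * LL n + 1) * (m0 N n + 1) := Nat.lt_mul_div_succ _ hD0
  have h7 : N n ≤ m * (2 ^ t * (l + 2) ^ 5) := by
    have e1 : m0 N n + 1 ≤ B * (2 * m) := by
      calc m0 N n + 1 ≤ B * (m + 1) := h5
        _ ≤ _ := Nat.mul_le_mul_left _ (by omega)
    calc N n ≤ (2 * LL n + 1) * (B * (2 * m)) := le_trans h6.le (Nat.mul_le_mul_left _ e1)
      _ = 2 * m * (B * (2 * LL n + 1)) := by ring
      _ ≤ 2 * m * (2 ^ t * (l + 2) ^ 3) := Nat.mul_le_mul_left _ hBD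
      _ = m * (2 ^ t * ((l + 2) ^ 3 * 2)) := by ring
      _ ≤ m * (2 ^ t * ((l + 2) ^ 3 * (l + 2) ^ 2)) := by
          apply Nat.mul_le_mul_left
          apply Nat.mul_le_mul_left
          apply Nat.mul_le_mul_left
          nlinarith
      _ = _ := by rw [← pow_add]
  have h8 : Q ^ 5 ≤ m * u ^ 5 := by
    have e1 : (N n : ℝ) ≤ m * (2 ^ t * u ^ 5) := by
      have := h7
      have e2 : ((N n : ℕ) : ℝ) ≤ ((m * (2 ^ t * (l + 2) ^ 5) : ℕ) : ℝ) := by exact_mod_cast this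
      push_cast at e2
      exact e2
    rw [hNE] at e1
    have e3 : (Q ^ 5) * 2 ^ t ≤ (m * u ^ 5) * 2 ^ t := by linarith
    exact le_of_mul_le_mul_right e3 (by positivity)
  have h9 : ((2 * W + 4 : ℕ) : ℝ) ≤ u ^ 3 * Q := by
    push_cast
    have e1 : 8 ≤ u ^ 3 := by
      calc (8 : ℝ) = 2 ^ 3 := by norm_num
        _ ≤ u ^ 3 := pow_le_pow_left₀ (by norm_num) hu2 _
    nlinarith
  have h10 : (((2 * W + 4) ^ 4 * (l + 2) ^ c : ℕ) : ℝ) * u ^ 5 ≤ m * u ^ 5 := by
    refine le_trans ?_ h8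
    push_cast
    push_cast at h9
    calc (2 * (W : ℝ) + 4) ^ 4 * ((l : ℝ) + 2) ^ c * u ^ 5 ≤ (u ^ 3 * Q) ^ 4 * u ^ c * u ^ 5 := by
          apply mul_le_mul_of_nonneg_right _ (by positivity)
          apply mul_le_mul_of_nonneg_right _ (by positivity)
          exact pow_le_pow_left₀ (by positivity) h9 4
      _ = Q ^ 4 * u ^ (c + 17) := by
          rw [mul_pow, ← pow_mul]
          ring
      _ ≤ Q ^ 4 * u ^ (c + 30) := by
          apply mul_le_mul_of_nonneg_left _ (by positivity)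
          exact pow_le_pow_right₀ (by linarith) (by omega)
      _ ≤ Q ^ 4 * Q := mul_le_mul_of_nonneg_left hQu (by positivity)
      _ = Q ^ 5 := by ring
  have h11 := le_of_mul_le_mul_right h10 (by positivity)
  exact_mod_cast h11

/-! ## The function -/

/-- `2 ^ r (r + 1) + 1` disjoint copies of the hard function on selected variables -/
def selT (k : ℕ) (N r : ℕ → ℕ) (n : ℕ) (x : Fin n → Bool) : Bool :=
  selF n (m0 N n) (copies (hardW k (Nat.log 2 n)) (fun _ => r n) (m0 N n)) x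

/-- Upper bound. -/
theorem selT_NC (k : ℕ) (N r : ℕ → ℕ) (hN : ∀ n, N n ≤ n) : NC (fun _ => 0) (selT k N r) := by
  have hm : ∀ n, m0 N n ≤ n := fun n => le_trans (m0_le N n) (hN n)
  have main : ∀ n, ∃ E : Circuit n, Pos E ∧
      E.size ≤ (n + 2) ^ (3 * (k + 2) + 26 + 8) ∧
      E.depth ≤ (Nat.log 2 n + 2) ^ (2 * (k + 2) + 6 + 4) ∧
      ∀ x, E.eval x = selT k N r n x := by
    intro n
    have hmb : mb (fun _ => r n) (m0 N n) ≤ n := le_trans (mb_le _ _) (hm n)
    obtain ⟨D, d1, d2, d3, d4⟩ := hardW_circuit k n (mb (fun _ => r n) (m0 N n)) hmb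
    obtain ⟨E1, e1, e2, e3, e4⟩ := copies_circ (hardW k (Nat.log 2 n)) (fun _ => r n) (m0 N n) D
      d1 d4
    obtain ⟨E, g1, g2, g3, g4⟩ := selF_circuit n (m0 N n) (hm n) E1 e2
    have hlog : Nat.log 2 (m0 N n) ≤ Nat.log 2 n := Nat.log_mono_right (hm n)
    refine ⟨E, g1, ?_, ?_, fun x => ?_⟩
    · have h1 := two_pow_log_le n
      have h2 : 2 ^ (Nat.log 2 (m0 N n) + 1) ≤ 2 ^ (Nat.log 2 n + 1) :=
        Nat.pow_le_pow_right (by norm_num) (by omega)
      have h3 : E1.size ≤ 2 * (n + 1) * (D.size + 2) := by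
        calc E1.size ≤ 2 ^ (Nat.log 2 (m0 N n) + 1) * (D.size + 2) := by omega
          _ ≤ _ := Nat.mul_le_mul_right _ (le_trans h2 h1)
      set A := (n + 2) ^ (3 * (k + 2) + 26) with hA
      have h4 : 1 ≤ A := Nat.one_le_pow _ _ (by omega)
      have q1 : (n + 1) ^ 3 ≤ (n + 2) ^ 3 := Nat.pow_le_pow_left (by omega) _
      have q2 : n + 2 ≤ (n + 2) ^ 3 := Nat.le_self_pow (by norm_num) _
      have q3 : 32 ≤ (n + 2) ^ 5 := by
        calc 32 = 2 ^ 5 := by norm_num
          _ ≤ (n + 2) ^ 5 := Nat.pow_le_pow_left (by omega) _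
      calc E.size ≤ 16 * (n + 1) ^ 3 + 2 * (n + 1) * (D.size + 2) :=
            le_trans g2 (Nat.add_le_add_left h3 _)
        _ ≤ 16 * ((n + 2) ^ 3 * A) + 2 * (n + 2) * (3 * A) := by
            apply Nat.add_le_add
            · exact Nat.mul_le_mul_left _ (le_trans q1 (Nat.le_mul_of_pos_right _ h4))
            · exact Nat.mul_le_mul (by omega) (by omega)
        _ = 16 * ((n + 2) ^ 3 * A) + 6 * ((n + 2) * A) := by ring
        _ ≤ 16 * ((n + 2) ^ 3 * A) + 16 * ((n + 2) ^ 3 * A) := by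
            apply Nat.add_le_add_left
            exact Nat.mul_le_mul (by norm_num) (Nat.mul_le_mul_right _ q2)
        _ = 32 * ((n + 2) ^ 3 * A) := by ring
        _ ≤ (n + 2) ^ 5 * ((n + 2) ^ 3 * A) := Nat.mul_le_mul_right _ q3
        _ = (n + 2) ^ (3 * (k + 2) + 26 + 8) := by rw [hA]; ring
    · set l := Nat.log 2 n with hl
      set A := (l + 2) ^ (2 * (k + 2) + 6) with hA
      have h4 : 1 ≤ A := Nat.one_le_pow _ _ (by omega)
      calc E.depth ≤ A + (3 * l + 7) := by omega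
        _ ≤ A * 1 + A * (3 * l + 7) := by
            apply Nat.add_le_add (by omega)
            exact Nat.le_mul_of_pos_left _ h4
        _ = A * (3 * l + 8) := by ring
        _ ≤ A * (l + 2) ^ 4 := by
            apply Nat.mul_le_mul_left
            have : (l + 2) ^ 4 = (l + 2) * ((l + 2) * ((l + 2) * (l + 2))) := by ring
            rw [this]
            have q0 : 4 ≤ (l + 2) * (l + 2) := by nlinarith
            nlinarith
        _ = _ := by rw [hA, ← pow_add]
    · rw [g4]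
      unfold selT selF
      rw [e1]
  choose E hE1 hE2 hE3 hE4 using main
  exact ⟨E, hE4, polyBounded_of _ hE2, polylogBounded_of _ hE3, fun n => (hE1 n).negations.le⟩

/-! ## Lower bound -/

/-- Lower bound for layered circuits with few NOT gates above many variables. -/
theorem selT_lower (N r : ℕ → ℕ) (hN : ∀ n, N n ≤ n) (hr : Excess N r) (k : ℕ) :
    ∃ n0 : ℕ, ∀ n ≥ n0, ∀ C : Layered n,
      (∀ x, C.eval x = selT (k + 2) N r n x) → ∀ P : Finset (Fin n), N n ≤ P.card →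
      C.negationsAbove P ≤ r n → (C.maxWidth : ℝ) ≤ 2 ^ (Rx N r n / 5) →
      2 ^ (Nat.log 2 n) ^ k < C.size := by
  obtain ⟨N1, hN1⟩ := eventually_atTop.mp (growthT N r hN hr (22 * (k + 2) + 84))
  refine ⟨max N1 16, fun n hn C hC P hP htr hW => ?_⟩
  obtain ⟨g1, -, g2⟩ := hN1 n (le_trans (le_max_left _ _) hn)
  have hn4 : 16 ≤ n := le_trans (le_max_right _ _) hn
  obtain ⟨C', c1, c2, c3, c4⟩ := layered_select (copies (hardW (k + 2) (Nat.log 2 n))
    (fun _ => r n) (m0 N n)) C hC P (le_trans (m0_mul_le N n) hP)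
  have hm0n : m0 N n ≤ n := le_trans (m0_le N n) (hN n)
  have hwid0 := g2 C.maxWidth hW
  set l := Nat.log 2 n with hl
  set m := mb (fun _ => r n) (m0 N n) with hm
  have hl4 : 4 ≤ l := by
    rw [hl]; exact Nat.le_log_of_pow_le (by norm_num) (by simpa using hn4)
  have hf0 := hardW_zero (k + 2) l m
  have hneg : C'.negations ≤ r n := le_trans c4 htr
  obtain ⟨D, hD1, hD2, hD3, hD4⟩ := layered_copies C' (nb (fun _ => r n) (m0 N n))
    (neg_lt_nb (fun _ => r n) (m0 N n) _ hneg)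
    (hardW (k + 2) l m) hf0 (blk m) (fun j hj y hy z => by
      rw [c1]
      exact copies_spec (hardW (k + 2) l) (fun _ => r n) (m0 N n) g1 hf0 j hj y hy z)
  obtain ⟨D', hD'1, hD'2, hD'3⟩ := layered_to_mon (m := m) (r := 0) D hD2.le
    (hardW (k + 2) l m) (fun X => by
      rw [hD1]; rfl)
  have hn' : n < 2 ^ (l + 1) := Nat.lt_pow_succ_log_self (by norm_num) n
  have hmn : m ≤ n := le_trans (mb_le _ _) hm0n
  have hwidth : D'.maxWidth ≤ 2 * C.maxWidth + 3 := by
    rw [hD'3, ← c3]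
    exact hD3
  have h5 := hardW_lower (k + 2) l m (2 * C.maxWidth + 3) (by omega) (by omega) hwid0 D' hD'1
    hwidth
  have hwn : 2 * C'.maxWidth + 3 ≤ 2 ^ (l + 1) := by
    have e1 : 2 * C.maxWidth + 4 ≤ m := by
      refine le_trans ?_ hwid0
      calc 2 * C.maxWidth + 4 = (2 * C.maxWidth + 4) ^ 1 := (pow_one _).symm
        _ ≤ (2 * C.maxWidth + 4) ^ 4 := Nat.pow_le_pow_right (by omega) (by norm_num)
        _ ≤ _ := Nat.le_mul_of_pos_right _ (Nat.pow_pos (by omega))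
    rw [c3]
    omega
  by_contra hle
  push Not at hle
  have h6 : D'.size ≤ 2 ^ l ^ (k + 2) := by
    rw [hD'2]
    have ht' : 2 ^ C'.negations * (C'.negations + 1) ≤ 2 ^ (l + 1) := by
      have e1 := neg_lt_nb (fun _ => r n) (m0 N n) _ hneg
      have e2 := le_trans g1 hm0n
      omega
    have hle' : C'.size ≤ 2 ^ l ^ k := by rw [c2]; exact hle
    refine le_trans hD4 (le_trans (narrow_size _ _ _ l _ ht' hwn hle') ?_)
    apply Nat.pow_le_pow_right (by norm_num)
    have e3 : 1 ≤ l ^ k := Nat.one_le_pow _ _ (by omega)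
    calc l ^ k + 3 + (l + 1) + (l + 1) = l ^ k * 1 + (2 * l + 5) := by ring
      _ ≤ l ^ k * 1 + l ^ k * (2 * l + 5) :=
          Nat.add_le_add_left (Nat.le_mul_of_pos_left _ e3) _
      _ = l ^ k * (2 * l + 6) := by ring
      _ ≤ l ^ k * l ^ 2 := by
          apply Nat.mul_le_mul_left
          nlinarith
      _ = _ := (pow_add _ _ _).symm
  exact absurd h6 (not_le.mpr h5)

/-- **Some functions in monotone NC have no narrow circuits with few NOT gates above many
variables:** it is enough that `log N(n) - r(n)` grows faster than `log log n`. -/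
theorem width_above_tight (N r : ℕ → ℕ) (hN : ∀ n, N n ≤ n)
    (hr : Tendsto (fun n : ℕ => (Real.logb 2 (N n) - r n) / Real.logb 2 (Real.logb 2 n))
      atTop atTop) (k : ℕ) :
    ∃ f : (n : ℕ) → (Fin n → Bool) → Bool, NC (fun _ => 0) f ∧ ¬ SCAbove N r f ∧
      ∃ n0 : ℕ, ∀ n ≥ n0, ∀ C : Layered n, (∀ x, C.eval x = f n x) →
        ∀ P : Finset (Fin n), N n ≤ P.card → C.negationsAbove P ≤ r n →
        (C.maxWidth : ℝ) ≤ 2 ^ ((Real.logb 2 (N n) - r n) / 5) →
        2 ^ (Nat.log 2 n) ^ k < C.size := by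
  have hr' : Excess N r := hr
  obtain ⟨n0, h⟩ := selT_lower N r hN hr' (max k 2)
  refine ⟨selT (max k 2 + 2) N r, selT_NC _ N r hN, ?_, ?_⟩
  · rintro ⟨C, hC, ⟨a, c, hs⟩, ⟨a', c', hw⟩, hP⟩
    have hev := growthT N r hN hr' (a' + c' + 1)
    obtain ⟨n, ⟨-, g1, -⟩, g2⟩ :=
      (hev.and (eventually_ge_atTop (max n0 (2 ^ (2 * (a + c + 1)))))).exists
    have hn0 : n0 ≤ n := le_trans (le_max_left _ _) g2
    have hnb : 2 ^ (2 * (a + c + 1)) ≤ n := le_trans (le_max_right _ _) g2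
    obtain ⟨P, p1, p2⟩ := hP n
    have hl : 2 * (a + c + 1) ≤ Nat.log 2 n := Nat.le_log_of_pow_le (by norm_num) hnb
    have hW : ((C n).maxWidth : ℝ) ≤ 2 ^ (Rx N r n / 5) := by
      refine le_trans ?_ g1
      have e1 := hw n
      simp only at e1
      have e2 : (C n).maxWidth ≤ (Nat.log 2 n + 2) ^ (a' + c' + 1) := by
        refine le_trans e1 ?_
        set l := Nat.log 2 n with hl
        have b1 : l ^ c' ≤ (l + 2) ^ c' := Nat.pow_le_pow_left (by omega) _
        have b2 : 1 ≤ (l + 2) ^ c' := Nat.one_le_pow _ _ (by omega)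
        have b3 : a' ≤ (l + 2) ^ a' :=
          le_trans (Nat.lt_two_pow_self).le (Nat.pow_le_pow_left (by omega) _)
        calc a' * l ^ c' + a' ≤ (l + 2) ^ a' * (l + 2) ^ c' + (l + 2) ^ a' * (l + 2) ^ c' := by
              apply Nat.add_le_add
              · exact Nat.mul_le_mul b3 b1
              · exact le_trans b3 (Nat.le_mul_of_pos_right _ b2)
          _ = (l + 2) ^ a' * (l + 2) ^ c' * 2 := by ring
          _ ≤ (l + 2) ^ a' * (l + 2) ^ c' * (l + 2) := Nat.mul_le_mul_left _ (by omega)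
          _ = _ := by rw [← pow_add, ← pow_succ]
      exact_mod_cast e2
    have h1 := h n hn0 (C n) (hC n) P p1 p2 hW
    have h2 := hs n
    simp only at h2
    have h3 := size_aux a c n
    have h4 : (a + c + 1) * (Nat.log 2 n + 1) ≤ (Nat.log 2 n) ^ (max k 2) := by
      calc (a + c + 1) * (Nat.log 2 n + 1) ≤ (a + c + 1) * (2 * Nat.log 2 n) :=
            Nat.mul_le_mul_left _ (by omega)
        _ = (2 * (a + c + 1)) * Nat.log 2 n := by ring
        _ ≤ Nat.log 2 n * Nat.log 2 n := Nat.mul_le_mul_right _ hl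
        _ = (Nat.log 2 n) ^ 2 := (sq _).symm
        _ ≤ _ := Nat.pow_le_pow_right (by omega) (le_max_right _ _)
    have h5 : 2 ^ ((a + c + 1) * (Nat.log 2 n + 1)) ≤ 2 ^ (Nat.log 2 n) ^ (max k 2) :=
      Nat.pow_le_pow_right (by norm_num) h4
    omega
  · refine ⟨max n0 2, fun n hn C hC P hP1 hP2 hW => ?_⟩
    have h1 := h n (le_trans (le_max_left _ _) hn) C hC P hP1 hP2 hW
    have hn2 : 2 ≤ n := le_trans (le_max_right _ _) hn
    have hl : 1 ≤ Nat.log 2 n := Nat.le_log_of_pow_le (by norm_num) (by simpa using hn2)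
    refine lt_of_le_of_lt ?_ h1
    apply Nat.pow_le_pow_right (by norm_num)
    exact Nat.pow_le_pow_right hl (le_max_left _ _)

end Pool.Agent.Results.MP_2af48a_lc.FewNegations
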