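import Pool.Agent.Lib_MP_2af48a_lc.AboveCopies

open Finset Filter

namespace Pool.Agent.Results.MP_2af48a_lc.FewNegations

/-! ## Using only the first copies -/

/-- One bit of every address is not used as data. -/
lemma exists_sel_uni (n m : ℕ) (hL : 2 ≤ LL n) (P : Finset (Fin n))
    (hP : 2 * (m * (2 * LL n + 1)) ≤ P.card) :
    ∃ a < LL n, ∃ e : ℕ → ℕ, (∀ i < m, 2 * (m * LL n) ≤ e i ∧ e i < n) ∧
      (∀ i < m, ∀ j < m, e i = e j → i = j) ∧ (∀ i < m, ∀ p : Fin n, e i = p.val → p ∈ P) ∧
      ∀ i < m, e i / 2 % LL n ≠ a := by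
  classical
  have hex : ∃ a < LL n, 2 * (P.filter (fun p => p.val / 2 % LL n = a)).card ≤ P.card := by
    by_contra hcon
    push Not at hcon
    have h0 := hcon 0 (by omega)
    have h1 := hcon 1 (by omega)
    have hdis : Disjoint (P.filter (fun p => p.val / 2 % LL n = 0))
        (P.filter (fun p => p.val / 2 % LL n = 1)) := by
      rw [Finset.disjoint_filter]
      intro p _ h2 h3
      omega
    have h2 : (P.filter (fun p => p.val / 2 % LL n = 0)).card +
        (P.filter (fun p => p.val / 2 % LL n = 1)).card ≤ P.card := by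
      rw [← Finset.card_union_of_disjoint hdis]
      apply Finset.card_le_card
      apply Finset.union_subset <;> exact Finset.filter_subset _ _
    omega
  obtain ⟨a, ha, hcard⟩ := hex
  have h3 := Finset.card_filter_add_card_filter_not (s := P) (p := fun p => p.val / 2 % LL n = a)
  obtain ⟨e, he1, he2, he3⟩ := exists_sel n m (P.filter (fun p => ¬ p.val / 2 % LL n = a)) (by omega)
  refine ⟨a, ha, e, he1, he2, fun i hi p hp => (Finset.mem_filter.mp (he3 i hi p hp)).1, ?_⟩
  intro i hi
  exact (Finset.mem_filter.mp (he3 i hi ⟨e i, (he1 i hi).2⟩ rfl)).2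

/-- The other addresses select nothing. -/
lemma sel_zero (n m : ℕ) (e : ℕ → ℕ) (a : ℕ) (ha : a < LL n)
    (hea : ∀ i < m, e i / 2 % LL n ≠ a) (z : Fin m → Bool) (i : ℕ) (hi : m ≤ i) :
    sel n i (ext (fill (sub n m e) z)) = false := by
  classical
  have key : ∀ c, ext (fill (sub n m e) z) (apos n i a c) = false := by
    intro c
    by_cases h2 : apos n i a c < n
    · have hdiv : apos n i a c / 2 = i * LL n + a := by
        unfold apos
        cases c <;> simp <;> omega
      have hmod : (i * LL n + a) % LL n = a := by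
        rw [mul_comm, Nat.mul_add_mod, Nat.mod_eq_of_lt ha]
      have h3 : ¬ ∃ k : Fin m, e k = apos n i a c := by
        rintro ⟨k, hk⟩
        have := hea k.val k.isLt
        rw [hk, hdiv, hmod] at this
        exact this rfl
      have h1 : ¬ apos n i a c < 2 * (m * LL n) := by
        have h4 : m * LL n ≤ i * LL n := Nat.mul_le_mul_right _ hi
        unfold apos
        omega
      simp only [ext, dif_pos h2, fill, sub, dif_neg h3, if_neg h1, Sum.elim_inl]
    · simp only [ext, dif_neg h2]
  by_contra hne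
  rw [Bool.not_eq_false] at hne
  unfold sel at hne
  rw [decide_eq_true_eq] at hne
  obtain ⟨j, -, -, h⟩ := hne
  have h1 := h a ha
  rw [key] at h1
  exact absurd h1 (by simp)

/-- After the substitution only the first copies remain. -/
lemma selF_fill {n K K' m : ℕ} (hKK : K' ≤ K) (F : (Fin m → Bool) → Bool)
    (hF0 : F (fun _ => false) = false) (e : ℕ → ℕ)
    (he : ∀ i < K' * m, 2 * (K' * m * LL n) ≤ e i ∧ e i < n)
    (hinj : ∀ i < K' * m, ∀ j < K' * m, e i = e j → i = j) (a : ℕ) (ha : a < LL n)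
    (hea : ∀ i < K' * m, e i / 2 % LL n ≠ a) (z : Fin (K' * m) → Bool) :
    selF n (K * m) (copyF K m F) (fill (sub n (K' * m) e) z) = copyF K' m F z := by
  have hblk : ∀ j < K, rst m (fun p => ext (fun i : Fin (K * m) =>
      sel n i.val (ext (fill (sub n (K' * m) e) z))) (j * m + p))
      = if j < K' then rst m (fun p => ext z (j * m + p)) else fun _ => false := by
    intro j hj
    funext q
    have h1 : (j + 1) * m ≤ K * m := Nat.mul_le_mul_right _ hj
    rw [add_mul, one_mul] at h1
    have h2 := q.isLt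
    have h3 : j * m + q.val < K * m := by omega
    by_cases hj' : j < K'
    · rw [if_pos hj']
      have h4 : (j + 1) * m ≤ K' * m := Nat.mul_le_mul_right _ hj'
      rw [add_mul, one_mul] at h4
      have h5 : j * m + q.val < K' * m := by omega
      have h6 := sel_fill n (K' * m) e he hinj z (j * m + q.val) h5
      simp only [rst]
      rw [ext, dif_pos h3, h6, ext, dif_pos h5]
    · rw [if_neg hj']
      have h4 : K' * m ≤ j * m := Nat.mul_le_mul_right _ (by omega)
      have h6 := sel_zero n (K' * m) e a ha hea z (j * m + q.val) (by omega)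
      simp only [rst]
      rw [ext, dif_pos h3, h6]
  apply Bool.eq_iff_iff.mpr
  unfold selF copyF
  rw [decide_eq_true_eq, decide_eq_true_eq]
  constructor
  · rintro ⟨j, hj, h⟩
    rw [hblk j hj] at h
    by_cases hj' : j < K'
    · rw [if_pos hj'] at h
      exact ⟨j, hj', h⟩
    · rw [if_neg hj', hF0] at h
      exact absurd h (by simp)
  · rintro ⟨j, hj, h⟩
    refine ⟨j, by omega, ?_⟩
    rw [hblk j (by omega), if_pos hj]
    exact h

/-- **Lower bound.**  Few NOT gates above many variables can be removed. -/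
theorem copies_lower_uni {n K m : ℕ} (hL : 2 ≤ LL n) (F : (Fin m → Bool) → Bool)
    (hF0 : F (fun _ => false) = false)
    (C : Circuit n) (hC : ∀ x, C.eval x = selF n (K * m) (copyF K m F) x)
    (P : Finset (Fin n)) (K' : ℕ) (hKK : K' ≤ K) (hP : 2 * (K' * m * (2 * LL n + 1)) ≤ P.card)
    (t : ℕ) (ht : C.negationsAbove P ≤ t) (hK : 2 ^ t * (t + 1) < K') :
    ∃ D : MonotoneSeparation.MonCircuit m, (∀ x, D.eval x = F x) ∧
      D.depth ≤ C.depth + 1 + 2 * t ∧ D.size ≤ 2 ^ (2 * t) * (C.size + 2) := by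
  obtain ⟨a, ha, e, he, hinj, hmem, hea⟩ := exists_sel_uni n (K' * m) hL P hP
  obtain ⟨C', c1, c2, c3, c4⟩ := circuit_restrict C P (sub n (K' * m) e) (fun p k h =>
    hmem k.val k.isLt p (sub_inr n (K' * m) e p k h))
  have hn : C'.negations ≤ t := le_trans c4 ht
  have hB : 2 ^ C'.negations * (C'.negations + 1) < K' :=
    lt_of_le_of_lt (Nat.mul_le_mul (Nat.pow_le_pow_right (by norm_num) hn) (by omega)) hK
  obtain ⟨D, hD1, hD2, hD3, hD4⟩ := circuit_copies C' K' hB F hF0 (blk m) (fun j hj y hy z => by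
      rw [c1, hC, selF_fill hKK F hF0 e he hinj a ha hea]
      exact copies_spec' F K' (K' * m) (le_refl _) hF0 j hj y hy z)
  obtain ⟨D', hD'1, hD'2, hD'3⟩ := circuit_to_mon (m := m) (r := 0) D hD2.negations.le
    F (fun X => by
      rw [hD1]; rfl)
  refine ⟨D', hD'1, by omega, ?_⟩
  rw [hD'2]
  have h1 : 2 ^ (2 * C'.negations) ≤ 2 ^ (2 * t) :=
    Nat.pow_le_pow_right (by norm_num) (by omega)
  calc D.size ≤ 2 ^ (2 * C'.negations) * (C'.size + 2) := by omega
    _ ≤ 2 ^ (2 * t) * (C.size + 2) := by rw [c2]; exact Nat.mul_le_mul_right _ h1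

/-- **Lower bound for layered circuits.** -/
theorem copies_lower_uniL {n K m : ℕ} (hL : 2 ≤ LL n) (F : (Fin m → Bool) → Bool)
    (hF0 : F (fun _ => false) = false)
    (C : Layered n) (hC : ∀ x, C.eval x = selF n (K * m) (copyF K m F) x)
    (P : Finset (Fin n)) (K' : ℕ) (hKK : K' ≤ K) (hP : 2 * (K' * m * (2 * LL n + 1)) ≤ P.card) :
    ∃ D : Layered (K' * m), (∀ z, D.eval z = copyF K' m F z) ∧ D.size = C.size ∧
      D.maxWidth = C.maxWidth ∧ D.negations ≤ C.negationsAbove P := by
  obtain ⟨a, ha, e, he, hinj, hmem, hea⟩ := exists_sel_uni n (K' * m) hL P hP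
  obtain ⟨C', c1, c2, c3, c4⟩ := layered_restrict C P (sub n (K' * m) e) (fun p k h =>
    hmem k.val k.isLt p (sub_inr n (K' * m) e p k h))
  refine ⟨C', fun z => ?_, c2, c3, c4⟩
  rw [c1, hC, selF_fill hKK F hF0 e he hinj a ha hea]

end Pool.Agent.Results.MP_2af48a_lc.FewNegations
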