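import Pool.Agent.Lib_MP_2af48a_lc.AboveGrowth
import Pool.Agent.Lib_MP_2af48a_lc.AboveNC

open Finset Filter

namespace Pool.Agent.Results.MP_2af48a_lc.FewNegations

/-! ## Copies of one function in small depth -/

theorem copies_circ (f : (n : ℕ) → (Fin n → Bool) → Bool) (r : ℕ → ℕ) (n : ℕ)
    (D : Circuit (mb r n)) (hpos : Pos D) (hD : ∀ x, D.eval x = f (mb r n) x) :
    ∃ E : Circuit n, (∀ x, E.eval x = copies f r n x) ∧ Pos E ∧
      E.size + 1 ≤ 2 ^ (Nat.log 2 n + 1) * (D.size + 2) ∧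
      E.depth ≤ D.depth + 1 + (Nat.log 2 n + 1) := by
  let σ : ℕ → Fin (mb r n) → Bool ⊕ Fin n := fun j i => if h : j * mb r n + i.val < n then
    Sum.inr ⟨j * mb r n + i.val, h⟩ else Sum.inl false
  let A : ℕ → Circuit n := fun j => subC (σ j) D
  have hA : ∀ j x, (A j).eval x = f (mb r n) (rst (mb r n) (fun p => ext x (j * mb r n + p))) := by
    intro j x
    change (subC (σ j) D).eval x = _
    rw [subC_eval]
    have e : (fun i => Sum.elim (fun b => b) x (σ j i))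
        = rst (mb r n) (fun p => ext x (j * mb r n + p)) := by
      funext i
      by_cases h : j * mb r n + i.val < n
      · simp [σ, rst, ext, h]
      · simp [σ, rst, ext, h]
    rw [e, hD]
  obtain ⟨E, h1, h2, h3, h4⟩ := exists_orC D.size D.depth (Nat.log 2 n + 1)
    ((List.range (min (nb r n) (n + 1))).map A) (by
      rw [List.length_map, List.length_range]
      exact min_le_pow r n) (by
      intro D' hD'
      rw [List.mem_map] at hD'
      obtain ⟨j, -, rfl⟩ := hD'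
      exact ⟨subC_pos _ _ hpos, le_refl _, subC_depth _ _⟩)
  refine ⟨E, fun x => ?_, h1, h2, h3⟩
  rw [h4]
  apply Bool.eq_iff_iff.mpr
  unfold copies
  rw [decide_eq_true_eq, List.any_eq_true]
  constructor
  · rintro ⟨D', hD', hv⟩
    rw [List.mem_map] at hD'
    obtain ⟨j, hj, rfl⟩ := hD'
    rw [List.mem_range] at hj
    rw [hA] at hv
    exact ⟨j, hj, hv⟩
  · rintro ⟨j, hj, hv⟩
    refine ⟨A j, List.mem_map.mpr ⟨j, List.mem_range.mpr hj, rfl⟩, ?_⟩
    rw [hA]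
    exact hv

/-! ## The function -/

/-- `r n` plus one disjoint copies (more exactly `2 ^ r (r + 1) + 1` of them) of `f` on selected
variables -/
def selCopies (f : (n : ℕ) → (Fin n → Bool) → Bool) (N r : ℕ → ℕ) (n : ℕ) (x : Fin n → Bool) :
    Bool :=
  selF n (m0 N n) (copies f (fun _ => r n) (m0 N n)) x

/-- Upper bound. -/
theorem selCopies_NC (f : (n : ℕ) → (Fin n → Bool) → Bool) (hf : NC (fun _ => 0) f)
    (N r : ℕ → ℕ) (hN : ∀ n, N n ≤ n) : NC (fun _ => 0) (selCopies f N r) := by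
  obtain ⟨D, hD, ⟨a, c, hs⟩, ⟨a', c', hd⟩, hneg⟩ := hf
  have hm : ∀ n, m0 N n ≤ n := fun n => le_trans (m0_le N n) (hN n)
  have main : ∀ n, ∃ E : Circuit n, Pos E ∧
      E.size ≤ 16 * (n + 1) ^ 3 + 2 * (n + 1) *
        ((D (mb (fun _ => r n) (m0 N n))).size + 2) ∧
      E.depth ≤ 2 * Nat.log 2 n + 5 +
        ((D (mb (fun _ => r n) (m0 N n))).depth + 1 + (Nat.log 2 n + 1)) ∧
      ∀ x, E.eval x = selCopies f N r n x := by
    intro n
    obtain ⟨E1, e1, e2, e3, e4⟩ := copies_circ f (fun _ => r n) (m0 N n) (D _)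
      (pos_of_negations (Nat.le_zero.mp (hneg _))) (hD _)
    obtain ⟨E, g1, g2, g3, g4⟩ := selF_circuit n (m0 N n) (hm n) E1 e2
    have hlog : Nat.log 2 (m0 N n) ≤ Nat.log 2 n := Nat.log_mono_right (hm n)
    refine ⟨E, g1, ?_, ?_, fun x => ?_⟩
    · refine le_trans g2 (Nat.add_le_add_left ?_ _)
      have h1 := two_pow_log_le n
      have h2 : 2 ^ (Nat.log 2 (m0 N n) + 1) ≤ 2 ^ (Nat.log 2 n + 1) :=
        Nat.pow_le_pow_right (by norm_num) (by omega)
      calc E1.size ≤ 2 ^ (Nat.log 2 (m0 N n) + 1) *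
            ((D (mb (fun _ => r n) (m0 N n))).size + 2) := by omega
        _ ≤ _ := Nat.mul_le_mul_right _ (le_trans h2 h1)
    · omega
    · rw [g4]
      unfold selCopies selF
      rw [e1]
  choose E hE1 hE2 hE3 hE4 using main
  refine ⟨E, hE4, ?_, ?_, fun n => (hE1 n).negations.le⟩
  · refine polyBounded_of (a + 1 + c + 8) (fun n => ?_)
    have hmb : mb (fun _ => r n) (m0 N n) ≤ n := le_trans (mb_le _ _) (hm n)
    have h1 := hs (mb (fun _ => r n) (m0 N n))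
    simp only at h1
    have h2 := bound_aux a c (mb (fun _ => r n) (m0 N n))
    have h3 : (mb (fun _ => r n) (m0 N n) + 2) ^ (a + 1 + c) ≤ (n + 2) ^ (a + 1 + c) :=
      Nat.pow_le_pow_left (by omega) _
    have h4 : 1 ≤ (n + 2) ^ (a + 1 + c) := Nat.one_le_pow _ _ (by omega)
    have h5 := hE2 n
    set A := (n + 2) ^ (a + 1 + c) with hA
    have q1 : (n + 1) ^ 3 ≤ (n + 2) ^ 3 := Nat.pow_le_pow_left (by omega) _
    have q2 : n + 2 ≤ (n + 2) ^ 3 := Nat.le_self_pow (by norm_num) _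
    have q3 : 32 ≤ (n + 2) ^ 5 := by
      calc 32 = 2 ^ 5 := by norm_num
        _ ≤ (n + 2) ^ 5 := Nat.pow_le_pow_left (by omega) _
    calc (E n).size ≤ 16 * (n + 1) ^ 3 + 2 * (n + 1) *
          ((D (mb (fun _ => r n) (m0 N n))).size + 2) := h5
      _ ≤ 16 * ((n + 2) ^ 3 * A) + 2 * (n + 2) * (3 * A) := by
          apply Nat.add_le_add
          · exact Nat.mul_le_mul_left _ (le_trans q1 (Nat.le_mul_of_pos_right _ h4))
          · exact Nat.mul_le_mul (by omega) (by omega)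
      _ = 16 * ((n + 2) ^ 3 * A) + 6 * ((n + 2) * A) := by ring
      _ ≤ 16 * ((n + 2) ^ 3 * A) + 16 * ((n + 2) ^ 3 * A) := by
          apply Nat.add_le_add_left
          exact Nat.mul_le_mul (by norm_num) (Nat.mul_le_mul_right _ q2)
      _ = 32 * ((n + 2) ^ 3 * A) := by ring
      _ ≤ (n + 2) ^ 5 * ((n + 2) ^ 3 * A) := Nat.mul_le_mul_right _ q3
      _ = (n + 2) ^ (a + 1 + c + 8) := by rw [hA]; ring
  · refine polylogBounded_of (a' + 1 + c' + 4) (fun n => ?_)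
    have hmb : mb (fun _ => r n) (m0 N n) ≤ n := le_trans (mb_le _ _) (hm n)
    have h1 := hd (mb (fun _ => r n) (m0 N n))
    simp only at h1
    have h2 := bound_aux a' c' (Nat.log 2 (mb (fun _ => r n) (m0 N n)))
    have h3 : (Nat.log 2 (mb (fun _ => r n) (m0 N n)) + 2) ^ (a' + 1 + c')
        ≤ (Nat.log 2 n + 2) ^ (a' + 1 + c') :=
      Nat.pow_le_pow_left (by have := Nat.log_mono_right (b := 2) hmb; omega) _
    have h4 : 1 ≤ (Nat.log 2 n + 2) ^ (a' + 1 + c') := Nat.one_le_pow _ _ (by omega)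
    set l := Nat.log 2 n with hl
    calc (E n).depth ≤ 2 * l + 5 +
        ((D (mb (fun _ => r n) (m0 N n))).depth + 1 + (l + 1)) := hE3 n
      _ ≤ (l + 2) ^ (a' + 1 + c') + (3 * l + 7) := by omega
      _ ≤ (l + 2) ^ (a' + 1 + c') * 1 + (l + 2) ^ (a' + 1 + c') * (3 * l + 7) := by
          apply Nat.add_le_add (by omega)
          exact Nat.le_mul_of_pos_left _ h4
      _ = (l + 2) ^ (a' + 1 + c') * (3 * l + 8) := by ring
      _ ≤ (l + 2) ^ (a' + 1 + c') * (l + 2) ^ 4 := by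
          apply Nat.mul_le_mul_left
          have : (l + 2) ^ 4 = (l + 2) * ((l + 2) * ((l + 2) * (l + 2))) := by ring
          rw [this]
          have q0 : 4 ≤ (l + 2) * (l + 2) := by nlinarith
          nlinarith
      _ = _ := by rw [← pow_add]

/-! ## Lower bound -/

/-- Lower bound for layered circuits with few NOT gates above many variables. -/
theorem selCopies_lower (N r : ℕ → ℕ) (hN : ∀ n, N n ≤ n) (δ : ℝ) (hδ : 0 < δ)
    (hr : Tendsto (fun n : ℕ => Rx N r n / (Real.logb 2 n) ^ δ) atTop atTop) (k : ℕ) :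
    ∃ K : ℕ, ∃ n0 : ℕ, ∀ n ≥ n0, ∀ C : Layered n,
      (∀ x, C.eval x = selCopies (hardN K) N r n x) → ∀ P : Finset (Fin n), N n ≤ P.card →
      C.negationsAbove P ≤ r n → (C.maxWidth : ℝ) ≤ 2 ^ (Rx N r n / 7) →
      2 ^ (Nat.log 2 n) ^ k < C.size := by
  obtain ⟨q, hq⟩ := exists_nat_ge (1 / δ)
  have hq' : 1 ≤ δ * q := by
    rw [div_le_iff₀ hδ] at hq
    linarith
  obtain ⟨N0, hN0⟩ := hardN_lower nl_proof (q * (k + 1))
  refine ⟨q * (k + 1), ?_⟩
  obtain ⟨N1, hN1⟩ := eventually_atTop.mp (growthA N r hN δ hδ hr q hq' (5 + N0))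
  refine ⟨max N1 4, fun n hn C hC P hP htr hW => ?_⟩
  obtain ⟨g0, g6, g1, g2, g3⟩ := hN1 n (le_trans (le_max_left _ _) hn)
  have hn4 : 4 ≤ n := le_trans (le_max_right _ _) hn
  obtain ⟨C', c1, c2, c3, c4⟩ := layered_select (copies (hardN (q * (k + 1))) (fun _ => r n)
    (m0 N n)) C hC P (le_trans (m0_mul_le N n) hP)
  have hm0n : m0 N n ≤ n := le_trans (m0_le N n) (hN n)
  set l := Nat.log 2 n with hl
  set m := mb (fun _ => r n) (m0 N n) with hm
  set l' := Nat.log 2 m with hl'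
  have hl2 : 2 ≤ l := by
    rw [hl]; exact Nat.le_log_of_pow_le (by norm_num) (by simpa using hn4)
  have hmz : m ≠ 0 := by
    intro h
    rw [h] at hl'
    simp at hl'
    omega
  have hml : 2 ^ l' ≤ m := Nat.pow_log_le_self 2 hmz
  have hmN : N0 ≤ m := by
    calc N0 ≤ l' := by omega
      _ ≤ 2 ^ l' := (Nat.lt_two_pow_self).le
      _ ≤ m := hml
  have hf0 := hardN_zero (q * (k + 1)) m
  have hneg : C'.negations ≤ r n := le_trans c4 htr
  obtain ⟨D, hD1, hD2, hD3, hD4⟩ := layered_copies C' (nb (fun _ => r n) (m0 N n))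
    (neg_lt_nb (fun _ => r n) (m0 N n) _ hneg)
    (hardN (q * (k + 1)) m) hf0 (blk m) (fun j hj y hy z => by
      rw [c1]
      exact copies_spec (hardN (q * (k + 1))) (fun _ => r n) (m0 N n) g1 hf0 j hj y hy z)
  obtain ⟨D', hD'1, hD'2, hD'3⟩ := layered_to_mon (m := m) (r := 0) D hD2.le
    (hardN (q * (k + 1)) m) (fun X => by
      rw [hD1]; rfl)
  -- the width
  set E := (2 : ℝ) ^ (Rx N r n / 7) with hE
  have hw5 : (2 * C'.maxWidth + 3) ^ 5 ≤ m := by
    rw [c3]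
    have e1 : (2 * (C.maxWidth : ℝ) + 3) ≤ 5 * E := by linarith
    have e2 : (2 * (C.maxWidth : ℝ) + 3) ^ 5 ≤ (5 * E) ^ 5 := pow_le_pow_left₀ (by positivity) e1 5
    have e3 : (5 * E) ^ 5 ≤ E ^ 6 := by
      calc (5 * E) ^ 5 = E ^ 5 * 3125 := by ring
        _ ≤ E ^ 5 * E := mul_le_mul_of_nonneg_left g0 (by positivity)
        _ = E ^ 6 := by ring
    have e7 : (2 * (C.maxWidth : ℝ) + 3) ^ 5 ≤ m := le_trans e2 (le_trans e3 g6)
    exact_mod_cast e7
  have hwidth : D'.maxWidth ^ 5 ≤ m := by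
    rw [hD'3]
    exact le_trans (Nat.pow_le_pow_left hD3 _) hw5
  have hn' : n < 2 ^ (l + 1) := Nat.lt_pow_succ_log_self (by norm_num) n
  have hmn : m ≤ n := le_trans (mb_le _ _) hm0n
  have hwn : 2 * C'.maxWidth + 3 ≤ 2 ^ (l + 1) := by
    calc 2 * C'.maxWidth + 3 = (2 * C'.maxWidth + 3) ^ 1 := (pow_one _).symm
      _ ≤ (2 * C'.maxWidth + 3) ^ 5 := Nat.pow_le_pow_right (by omega) (by norm_num)
      _ ≤ m := hw5
      _ ≤ n := hmn
      _ ≤ _ := hn'.le
  have h5 := hN0 m hmN D' hD'1 hwidth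
  by_contra hle
  push Not at hle
  have h6 : D'.size ≤ 2 ^ l' ^ (q * (k + 1)) := by
    rw [hD'2]
    have ht' : 2 ^ C'.negations * (C'.negations + 1) ≤ 2 ^ (l + 1) := by
      have e1 := neg_lt_nb (fun _ => r n) (m0 N n) _ hneg
      have e2 := le_trans g1 hm0n
      omega
    have hle' : C'.size ≤ 2 ^ l ^ k := by rw [c2]; exact hle
    refine le_trans hD4 (le_trans (narrow_size _ _ _ l _ ht' hwn hle') ?_)
    apply Nat.pow_le_pow_right (by norm_num)
    have e1 : 5 * (l + 1) ≤ l' ^ q := le_trans (Nat.mul_le_mul_right _ (by omega)) g3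
    have e2 : l ^ k ≤ (l + 1) ^ k := Nat.pow_le_pow_left (by omega) _
    have e3 : 1 ≤ (l + 1) ^ k := Nat.one_le_pow _ _ (by omega)
    calc l ^ k + 3 + (l + 1) + (l + 1) ≤ (l + 1) ^ k * (l + 1) + (l + 1) ^ k * (4 * (l + 1)) := by
          nlinarith
      _ = (5 * (l + 1)) * (l + 1) ^ k := by ring
      _ ≤ (5 * (l + 1)) * (5 * (l + 1)) ^ k :=
          Nat.mul_le_mul_left _ (Nat.pow_le_pow_left (by omega) _)
      _ = (5 * (l + 1)) ^ (k + 1) := by rw [pow_succ]; ring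
      _ ≤ (l' ^ q) ^ (k + 1) := Nat.pow_le_pow_left e1 _
      _ = l' ^ (q * (k + 1)) := by rw [← pow_mul]
  exact absurd h6 (not_le.mpr h5)

/-- **Some functions in monotone NC have no narrow circuits with few NOT gates above many
variables.** -/
theorem width_above (N r : ℕ → ℕ) (hN : ∀ n, N n ≤ n) (δ : ℝ) (hδ : 0 < δ)
    (hr : Tendsto (fun n : ℕ => (Real.logb 2 (N n) - r n) / (Real.logb 2 n) ^ δ) atTop atTop)
    (k : ℕ) :
    ∃ f : (n : ℕ) → (Fin n → Bool) → Bool, NC (fun _ => 0) f ∧ ¬ SCAbove N r f ∧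
      ∃ n0 : ℕ, ∀ n ≥ n0, ∀ C : Layered n, (∀ x, C.eval x = f n x) →
        ∀ P : Finset (Fin n), N n ≤ P.card → C.negationsAbove P ≤ r n →
        (C.maxWidth : ℝ) ≤ 2 ^ ((Real.logb 2 (N n) - r n) / 7) →
        2 ^ (Nat.log 2 n) ^ k < C.size := by
  have hr' : Tendsto (fun n : ℕ => Rx N r n / (Real.logb 2 n) ^ δ) atTop atTop := hr
  obtain ⟨K, n0, h⟩ := selCopies_lower N r hN δ hδ hr' (max k 2)
  refine ⟨selCopies (hardN K) N r, selCopies_NC _ (hardN_NC K) N r hN, ?_, ?_⟩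
  · rintro ⟨C, hC, ⟨a, c, hs⟩, ⟨a', c', hw⟩, hP⟩
    obtain ⟨L0, hL0⟩ := pow_lt_two_pow 1 0
    have hev := polylog_le N r δ hδ hr' (2 * a') c'
    obtain ⟨n, g1, g2⟩ := (hev.and (eventually_ge_atTop (max n0 (2 ^ (2 * (a + c + 1)))))).exists
    have hn0 : n0 ≤ n := le_trans (le_max_left _ _) g2
    have hnb : 2 ^ (2 * (a + c + 1)) ≤ n := le_trans (le_max_right _ _) g2
    obtain ⟨P, p1, p2⟩ := hP n
    have hl : 2 * (a + c + 1) ≤ Nat.log 2 n := Nat.le_log_of_pow_le (by norm_num) hnb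
    have hW : ((C n).maxWidth : ℝ) ≤ 2 ^ (Rx N r n / 7) := by
      have e1 := hw n
      simp only at e1
      have e2 : ((C n).maxWidth : ℝ) ≤ a' * (Nat.log 2 n) ^ c' + a' := by exact_mod_cast e1
      have e3 : ((Nat.log 2 n : ℝ)) ^ c' ≤ ((Nat.log 2 n : ℝ) + 1) ^ c' :=
        pow_le_pow_left₀ (Nat.cast_nonneg _) (by linarith) _
      have e4 : (1 : ℝ) ≤ ((Nat.log 2 n : ℝ) + 1) ^ c' := one_le_pow₀ (by
        have : (0 : ℝ) ≤ Nat.log 2 n := Nat.cast_nonneg _
        linarith)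
      have e5 : (0 : ℝ) ≤ a' := Nat.cast_nonneg _
      push_cast at g1
      nlinarith
    have h1 := h n hn0 (C n) (hC n) P p1 p2 hW
    have h2 := hs n
    simp only at h2
    have h3 := size_aux a c n
    have h4 : (a + c + 1) * (Nat.log 2 n + 1) ≤ (Nat.log 2 n) ^ (max k 2) := by
      calc (a + c + 1) * (Nat.log 2 n + 1) ≤ (a + c + 1) * (2 * Nat.log 2 n) :=
            Nat.mul_le_mul_left _ (by omega)
        _ = (2 * (a + c + 1)) * Nat.log 2 n := by ring
        _ ≤ Nat.log 2 n * Nat.log 2 n := Nat.mul_le_mul_right _ hl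
        _ = (Nat.log 2 n) ^ 2 := (sq _).symm
        _ ≤ _ := Nat.pow_le_pow_right (by omega) (le_max_right _ _)
    have h5 : 2 ^ ((a + c + 1) * (Nat.log 2 n + 1)) ≤ 2 ^ (Nat.log 2 n) ^ (max k 2) :=
      Nat.pow_le_pow_right (by norm_num) h4
    omega
  · refine ⟨max n0 2, fun n hn C hC P hP1 hP2 hW => ?_⟩
    have h1 := h n (le_trans (le_max_left _ _) hn) C hC P hP1 hP2 hW
    have hn2 : 2 ≤ n := le_trans (le_max_right _ _) hn
    have hl : 1 ≤ Nat.log 2 n := Nat.le_log_of_pow_le (by norm_num) (by simpa using hn2)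
    refine lt_of_le_of_lt ?_ h1
    apply Nat.pow_le_pow_right (by norm_num)
    exact Nat.pow_le_pow_right hl (le_max_left _ _)

end Pool.Agent.Results.MP_2af48a_lc.FewNegations
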