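import Pool.Agent.Lib_MP_2af48a_lc.FewNegProof

/-!
# Disjoint copies: NOT gates do not help

Let `f` be a monotone function of `m` variables and let `F` be the disjunction of `B` copies of `f`
on disjoint sets of variables.  If `F` is computed by a circuit `C` with `t` NOT gates and
`B > 2 ^ t * (t + 1)`, then `f` is computed by a circuit without NOT gates which is the disjunction
of at most `2 ^ t * (t + 1)` circuits of the size, depth and width of `C`.

Proof.  Give the NOT gates constant values, described by a set `S`, and take as output the output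
of `C` or the input of a NOT gate.  This gives a family of `2 ^ t * (t + 1)` monotone functions
`g i`, and every pair `w ≤ w'` with `F w = 0`, `F w' = 1` satisfies `g i w = 0`, `g i w' = 1` for
some `i` (look at the first NOT gate whose value changes).  Now put `w 0 = 0` and, as long as it is
possible, obtain `w (j + 1)` from `w j` by setting copy `j` to an input `y j` with `f (y j) = 0`
such that `g i (w (j + 1)) = 1` for some `i` with `g i (w j) = 0`.  At most `2 ^ t * (t + 1)` such
steps are possible.  When no such `y j` exists, `f x` is the disjunction of the values of the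
functions `g i` with `g i (w j) = 0` on the input obtained from `w j` by setting copy `j` to `x`.
-/

open Finset Filter

namespace Pool.Agent.Results.MP_2af48a_lc.FewNegations

/-! ## Disjoint copies: the chain argument -/

/-- Let `g i`, `i ∈ I`, be monotone functions such that every comparable pair which is separated by
`F` is separated by one of them.  If `F` contains `B > |I|` copies of `f` in the sense of the
hypothesis `H`, then `f` is a disjunction of some of the functions `g i`, restricted to a suitable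
copy. -/
theorem chain {ι : Type*} (I : Finset ι) (g : ι → (ℕ → Bool) → Bool)
    (hmono : ∀ i ∈ I, Monotone (g i)) (F : (ℕ → Bool) → Bool)
    (hsep : ∀ w w' : ℕ → Bool, w ≤ w' → F w = false → F w' = true →
      ∃ i ∈ I, g i w = false ∧ g i w' = true)
    (f : (ℕ → Bool) → Bool) (hf0 : f (fun _ => false) = false)
    (E : ℕ → (ℕ → Bool) → ℕ → Bool) (hE0 : ∀ j, E j (fun _ => false) = fun _ => false)
    (B : ℕ) (hB : I.card < B)
    (H : ∀ j < B, ∀ y : ℕ → ℕ → Bool, (∀ k < j, f (y k) = false) → ∀ z,
      F (fun p => decide (∃ k < j, E k (y k) p = true) || E j z p) = f z) :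
    ∃ j < B, ∃ w : ℕ → Bool, ∀ z, f z = true ↔
      ∃ i ∈ I, g i w = false ∧ g i (fun p => w p || E j z p) = true := by
  classical
  by_contra hcon
  push Not at hcon
  have key : ∀ j, j ≤ I.card + 1 → ∃ y : ℕ → ℕ → Bool, (∀ k < j, f (y k) = false) ∧
      (I.filter (fun i => g i (fun p => decide (∃ k < j, E k (y k) p = true)) = false)).card + j
        ≤ I.card := by
    intro j
    induction j with
    | zero =>
      intro _
      refine ⟨fun _ _ => false, fun k hk => absurd hk (Nat.not_lt_zero k), ?_⟩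
      rw [add_zero]
      exact Finset.card_le_card (Finset.filter_subset _ _)
    | succ j ih =>
      intro hj
      obtain ⟨y, hy, hc⟩ := ih (by omega)
      have hjB : j < B := by omega
      set w : ℕ → Bool := fun p => decide (∃ k < j, E k (y k) p = true) with hw
      have hFw : F w = false := by
        have h1 := H j hjB y hy (fun _ => false)
        rw [hE0, hf0] at h1
        simpa using h1
      obtain ⟨z, hz⟩ := hcon j hjB w
      have hle : w ≤ fun p => w p || E j z p := by
        intro p
        show w p ≤ (w p || E j z p)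
        cases w p <;> simp
      have hfz : f z = false := by
        by_contra hne
        have hft : f z = true := by simpa using hne
        rcases hz with ⟨_, h2⟩ | ⟨h1, _⟩
        · obtain ⟨i, hi, h3, h4⟩ := hsep w _ hle hFw (by rw [H j hjB y hy z]; exact hft)
          exact h2 i hi h3 h4
        · exact h1 hft
      rcases hz with ⟨h1, _⟩ | ⟨_, i0, hi0, h3, h4⟩
      · rw [hfz] at h1
        exact absurd h1 (by simp)
      refine ⟨Function.update y j z, ?_, ?_⟩
      · intro k hk
        by_cases hkj : k = j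
        · subst hkj
          rw [Function.update_self]
          exact hfz
        · rw [Function.update_of_ne hkj]
          exact hy k (by omega)
      · have hW : (fun p => decide (∃ k < j + 1, E k (Function.update y j z k) p = true))
            = fun p => w p || E j z p := by
          funext p
          rw [hw]
          apply Bool.eq_iff_iff.mpr
          simp only [decide_eq_true_eq, Bool.or_eq_true]
          constructor
          · rintro ⟨k, hk, h⟩
            by_cases hkj : k = j
            · subst hkj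
              rw [Function.update_self] at h
              exact Or.inr h
            · rw [Function.update_of_ne hkj] at h
              exact Or.inl ⟨k, by omega, h⟩
          · rintro (⟨k, hk, h⟩ | h)
            · refine ⟨k, by omega, ?_⟩
              rw [Function.update_of_ne (by omega)]
              exact h
            · refine ⟨j, by omega, ?_⟩
              rw [Function.update_self]
              exact h
        rw [hW]
        have hsub : I.filter (fun i => g i (fun p => w p || E j z p) = false)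
            ⊆ (I.filter (fun i => g i w = false)).erase i0 := by
          intro i hi
          rw [Finset.mem_filter] at hi
          rw [Finset.mem_erase, Finset.mem_filter]
          refine ⟨?_, hi.1, ?_⟩
          · intro h
            rw [h, h4] at hi
            exact absurd hi.2 (by simp)
          · have h5 := hmono i hi.1 hle
            rw [hi.2] at h5
            exact le_antisymm h5 (Bool.false_le _)
        have h6 := Finset.card_le_card hsub
        have hi0m : i0 ∈ I.filter (fun i => g i w = false) := Finset.mem_filter.mpr ⟨hi0, h3⟩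
        rw [Finset.card_erase_of_mem hi0m] at h6
        have h7 : 0 < (I.filter (fun i => g i w = false)).card := Finset.card_pos.mpr ⟨i0, hi0m⟩
        omega
  obtain ⟨y, -, hc⟩ := key (I.card + 1) le_rfl
  omega

/-! ## The monotone circuits hidden in a circuit with NOT gates -/

/-- a NOT gate becomes a copy of its input if `h` holds, otherwise the constant `b` -/
def fixG {n k : ℕ} (h : Prop) [Decidable h] (b : Bool) : Gate n k → Gate n k
  | .and u v => .and u v
  | .or u v => .or u v
  | .not u => if h then .or u u else .or (.const b) (.const b)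

lemma fixG_isNot {n k : ℕ} (h : Prop) [Decidable h] (b : Bool) (G : Gate n k) :
    (fixG h b G).isNot = false := by
  cases G with
  | and u v => rfl
  | or u v => rfl
  | not u =>
    by_cases hh : h
    · simp [fixG, hh, Gate.isNot]
    · simp [fixG, hh, Gate.isNot]

lemma fixG_val {n k : ℕ} (h : Prop) [Decidable h] (b : Bool) (G : Gate n k) (x : Fin n → Bool)
    (v : Fin k → Bool) (hb : G.isNot = true → ¬ h ∧ G.val x v = b) :
    (fixG h b G).val x v = G.val x v := by
  cases G with
  | and u w => rfl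
  | or u w => rfl
  | not u =>
    obtain ⟨h1, h2⟩ := hb rfl
    rw [h2]
    simp [fixG, h1, Gate.val, Wire.val]

lemma fixG_val_not {n k : ℕ} (h : Prop) [Decidable h] (b : Bool) (G : Gate n k) (x : Fin n → Bool)
    (v : Fin k → Bool) (hn : G.isNot = true) (hh : h) :
    (fixG h b G).val x v = !(G.val x v) := by
  cases G with
  | and u w => exact absurd hn (by simp [Gate.isNot])
  | or u w => exact absurd hn (by simp [Gate.isNot])
  | not u => simp [fixG, hh, Gate.val]

lemma fixG_depth {n k : ℕ} (h : Prop) [Decidable h] (b : Bool) (G : Gate n k) (d : Fin k → ℕ) :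
    (fixG h b G).depth d ≤ G.depth d := by
  cases G with
  | and u w => exact le_refl _
  | or u w => exact le_refl _
  | not u =>
    by_cases hh : h
    · simp [fixG, hh, Gate.depth]
    · simp [fixG, hh, Gate.depth, Wire.depth]

/-! ### Layered circuits -/

section LayeredFamily

variable {n : ℕ} (C : Layered n)

/-- gates are addressed by layer and number -/
abbrev Adr : Type := (j : ℕ) × Fin (C.width (j + 1))

/-- the NOT gates -/
def notsL : Finset (Adr C) :=
  (range C.layers).sigma (fun j => univ.filter (fun g => (C.gate j g).isNot = true))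

lemma card_notsL : (notsL C).card = C.negations := by
  unfold notsL Layered.negations
  rw [Finset.card_sigma]

lemma mem_notsL (j : ℕ) (g : Fin (C.width (j + 1))) :
    (⟨j, g⟩ : Adr C) ∈ notsL C ↔ j < C.layers ∧ (C.gate j g).isNot = true := by
  unfold notsL
  rw [Finset.mem_sigma, Finset.mem_filter, Finset.mem_range]
  simp

open Classical in
/-- the circuit in which the NOT gates have constant values given by `S`, except that
the NOT gate `o` is a copy of its input -/
noncomputable def rawL (S : Finset (Adr C)) (o : Option (Adr C)) (L : ℕ) (out : Fin (C.width L)) :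
    Layered n :=
  ⟨L, C.width, C.width_zero,
    fun j g => fixG (o = some ⟨j, g⟩) (decide ((⟨j, g⟩ : Adr C) ∈ S)) (C.gate j g), out⟩

lemma rawL_val (S : Finset (Adr C)) (o : Option (Adr C)) (L : ℕ) (out : Fin (C.width L))
    (x : Fin n → Bool) (k : ℕ)
    (hk : ∀ j < k, ∀ g, (C.gate j g).isNot = true →
      o ≠ some ⟨j, g⟩ ∧ ((⟨j, g⟩ : Adr C) ∈ S ↔ C.val x (j + 1) g = true)) :
    ∀ j ≤ k, (rawL C S o L out).val x j = C.val x j := by
  classical
  intro j
  induction j with
  | zero =>
    intro _
    funext g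
    exact Fin.elim0 (Fin.cast C.width_zero g)
  | succ j ih =>
    intro hj
    funext g
    have h1 := ih (by omega)
    change (fixG (o = some ⟨j, g⟩) (decide ((⟨j, g⟩ : Adr C) ∈ S)) (C.gate j g)).val x
      ((rawL C S o L out).val x j) = (C.gate j g).val x (C.val x j)
    rw [h1]
    apply fixG_val
    intro hn
    obtain ⟨h2, h3⟩ := hk j (by omega) g hn
    refine ⟨h2, ?_⟩
    change C.val x (j + 1) g = _
    by_cases hv : C.val x (j + 1) g = true
    · rw [hv, decide_eq_true (h3.mpr hv)]
    · have : (⟨j, g⟩ : Adr C) ∉ S := fun hS => hv (h3.mp hS)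
      rw [decide_eq_false this]
      simpa using hv

lemma rawL_out (S : Finset (Adr C)) (j0 : ℕ) (g0 : Fin (C.width (j0 + 1))) (x : Fin n → Bool)
    (hn : (C.gate j0 g0).isNot = true)
    (hw : (rawL C S (some ⟨j0, g0⟩) (j0 + 1) g0).val x j0 = C.val x j0) :
    (rawL C S (some ⟨j0, g0⟩) (j0 + 1) g0).eval x = !(C.val x (j0 + 1) g0) := by
  classical
  exact (congrArg (fun v : Fin (C.width j0) → Bool => (fixG (some (⟨j0, g0⟩ : Adr C) = some ⟨j0, g0⟩)
    (decide ((⟨j0, g0⟩ : Adr C) ∈ S)) (C.gate j0 g0)).val x v) hw).trans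
    (fixG_val_not _ _ _ _ _ hn rfl)

/-- the member of the family with index `(S, o)` -/
noncomputable def famL (i : Finset (Adr C) × Option (Adr C)) : Layered n :=
  match i.2 with
  | none => rawL C i.1 none C.layers C.out
  | some a => rawL C i.1 (some a) (a.1 + 1) a.2

/-- the set of indices -/
noncomputable def idxL : Finset (Finset (Adr C) × Option (Adr C)) :=
  (notsL C).powerset ×ˢ Finset.insertNone (notsL C)

lemma card_idxL : (idxL C).card = 2 ^ C.negations * (C.negations + 1) := by
  unfold idxL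
  rw [Finset.card_product, Finset.card_powerset, Finset.card_insertNone, card_notsL]

lemma famL_width (i : Finset (Adr C) × Option (Adr C)) (hi : i ∈ idxL C) :
    (famL C i).maxWidth ≤ C.maxWidth := by
  obtain ⟨S, o⟩ := i
  rcases o with _ | ⟨j, g⟩
  · exact le_refl _
  · unfold idxL at hi
    rw [Finset.mem_product] at hi
    have h1 := hi.2
    rw [Finset.some_mem_insertNone, mem_notsL] at h1
    change (range (j + 1)).sup (fun j => C.width (j + 1)) ≤ (range C.layers).sup _
    apply Finset.sup_mono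
    intro a ha
    rw [Finset.mem_range] at ha ⊢
    omega

lemma famL_size (i : Finset (Adr C) × Option (Adr C)) (hi : i ∈ idxL C) :
    (famL C i).size ≤ C.size := by
  obtain ⟨S, o⟩ := i
  rcases o with _ | ⟨j, g⟩
  · exact le_refl _
  · unfold idxL at hi
    rw [Finset.mem_product] at hi
    have h1 := hi.2
    rw [Finset.some_mem_insertNone, mem_notsL] at h1
    change ∑ j ∈ range (j + 1), C.width (j + 1) ≤ ∑ j ∈ range C.layers, C.width (j + 1)
    apply Finset.sum_le_sum_of_subset
    intro a ha
    rw [Finset.mem_range] at ha ⊢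
    omega

lemma famL_pos (i : Finset (Adr C) × Option (Adr C)) (j : ℕ) (g : Fin ((famL C i).width (j + 1))) :
    ((famL C i).gate j g).isNot = false := by
  obtain ⟨S, o⟩ := i
  rcases o with _ | a
  · exact fixG_isNot _ _ _
  · exact fixG_isNot _ _ _

/-- layered circuits without NOT gates are monotone -/
lemma layered_monotone (D : Layered n) (hD : ∀ j g, (D.gate j g).isNot = false) :
    Monotone (fun X : ℕ → Bool => D.eval (rst n X)) := by
  exact layered_mono D (fun X => X) monotone_id D.layers
    (fun j g hn _ => absurd hn (by rw [hD j g]; simp)) D.layers le_rfl D.out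

/-- Every comparable pair which is separated by `C` is separated by a member of the family. -/
theorem separateL (w w' : Fin n → Bool) (hle : w ≤ w') (h0 : C.eval w = false)
    (h1 : C.eval w' = true) :
    ∃ i ∈ idxL C, (famL C i).eval w = false ∧ (famL C i).eval w' = true := by
  classical
  set S := (notsL C).filter (fun a => C.val w (a.1 + 1) a.2 = true) with hS
  have hSp : S ∈ (notsL C).powerset := Finset.mem_powerset.mpr (Finset.filter_subset _ _)
  have hSmem : ∀ j < C.layers, ∀ g, (C.gate j g).isNot = true →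
      ((⟨j, g⟩ : Adr C) ∈ S ↔ C.val w (j + 1) g = true) := by
    intro j hj g hn
    rw [hS, Finset.mem_filter, mem_notsL]
    constructor
    · exact fun h => h.2
    · exact fun h => ⟨⟨hj, hn⟩, h⟩
  by_cases hD : ((notsL C).filter (fun a => C.val w (a.1 + 1) a.2 ≠ C.val w' (a.1 + 1) a.2)).Nonempty
  · obtain ⟨⟨j0, g0⟩, hmem, hmin⟩ := Finset.exists_min_image _ (fun a : Adr C => a.1) hD
    rw [Finset.mem_filter, mem_notsL] at hmem
    obtain ⟨⟨hj0, hn0⟩, hne⟩ := hmem
    simp only at hne hmin
    have hsame : ∀ j < j0, ∀ g, (C.gate j g).isNot = true →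
        C.val w (j + 1) g = C.val w' (j + 1) g := by
      intro j hj g hn
      by_contra hcon
      have := hmin ⟨j, g⟩ (Finset.mem_filter.mpr ⟨(mem_notsL C j g).mpr ⟨by omega, hn⟩, hcon⟩)
      simp only at this
      omega
    have hoj : ∀ j < j0, ∀ g : Fin (C.width (j + 1)),
        (some ⟨j0, g0⟩ : Option (Adr C)) ≠ some ⟨j, g⟩ := by
      intro j hj g heq
      have := congrArg (fun o : Option (Adr C) => o.elim 0 (fun a => a.1)) heq
      simp only [Option.elim] at this
      omega
    refine ⟨(S, some ⟨j0, g0⟩), Finset.mem_product.mpr ⟨hSp, ?_⟩, ?_⟩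
    · rw [Finset.some_mem_insertNone, mem_notsL]
      exact ⟨hj0, hn0⟩
    have hw := rawL_val C S (some ⟨j0, g0⟩) (j0 + 1) g0 w j0 (fun j hj g hn =>
      ⟨hoj j hj g, hSmem j (by omega) g hn⟩) j0 le_rfl
    have hw' := rawL_val C S (some ⟨j0, g0⟩) (j0 + 1) g0 w' j0 (fun j hj g hn =>
      ⟨hoj j hj g, by rw [← hsame j hj g hn]; exact hSmem j (by omega) g hn⟩) j0 le_rfl
    have e1 : (famL C (S, some ⟨j0, g0⟩)).eval w = !(C.val w (j0 + 1) g0) :=
      rawL_out C S j0 g0 w hn0 hw
    have e2 : (famL C (S, some ⟨j0, g0⟩)).eval w' = !(C.val w' (j0 + 1) g0) :=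
      rawL_out C S j0 g0 w' hn0 hw'
    have hmono : (famL C (S, some ⟨j0, g0⟩)).eval w ≤ (famL C (S, some ⟨j0, g0⟩)).eval w' := by
      have h2 := layered_monotone (famL C (S, some ⟨j0, g0⟩)) (famL_pos C _)
      have h3 : ext w ≤ ext w' := by
        intro p
        by_cases hp : p < n
        · simpa [ext, hp] using hle ⟨p, hp⟩
        · simp [ext, hp]
      have h4 := h2 h3
      simp only [rst_ext] at h4
      exact h4
    rw [e1, e2] at hmono ⊢
    revert hmono hne
    cases C.val w (j0 + 1) g0 <;> cases C.val w' (j0 + 1) g0 <;> decide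
  · have hsame : ∀ j < C.layers, ∀ g, (C.gate j g).isNot = true →
        C.val w (j + 1) g = C.val w' (j + 1) g := by
      intro j hj g hn
      by_contra hcon
      exact hD ⟨⟨j, g⟩, Finset.mem_filter.mpr ⟨(mem_notsL C j g).mpr ⟨hj, hn⟩, hcon⟩⟩
    refine ⟨(S, none), Finset.mem_product.mpr ⟨hSp, Finset.none_mem_insertNone⟩, ?_, ?_⟩
    · have hw := rawL_val C S none C.layers C.out w C.layers (fun j hj g hn =>
        ⟨by simp, hSmem j hj g hn⟩) C.layers le_rfl
      change (rawL C S none C.layers C.out).val w C.layers C.out = false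
      rw [hw]
      exact h0
    · have hw := rawL_val C S none C.layers C.out w' C.layers (fun j hj g hn =>
        ⟨by simp, by rw [← hsame j hj g hn]; exact hSmem j hj g hn⟩) C.layers le_rfl
      change (rawL C S none C.layers C.out).val w' C.layers C.out = true
      rw [hw]
      exact h1

end LayeredFamily

namespace SCup

/-! ## Layered circuits to programs -/

/-- load a wire of a circuit into register `t`; register `c + g` holds the value of gate `g` -/
def loadL {m k : ℕ} (c t : ℕ) : Wire m k → Ins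
  | .const b => .cst t b
  | .var i => .var t i.val
  | .gate g => .or t (c + g.val) (c + g.val)

/-- compute gate `G` into register `d` -/
def gateL {m k : ℕ} (W c d : ℕ) : Gate m k → List Ins
  | .and a b => [loadL c (2 * W) a, loadL c (2 * W + 1) b, .and d (2 * W) (2 * W + 1)]
  | .or a b => [loadL c (2 * W) a, loadL c (2 * W + 1) b, .or d (2 * W) (2 * W + 1)]
  | .not a => [loadL c (2 * W) a, loadL c (2 * W + 1) a, .not d (2 * W)]

lemma step_of_ne (X s : ℕ → Bool) (i : Ins) (g : ℕ) (h : g ≠ i.dst) : step X s i g = s g := by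
  unfold step
  rw [Function.update_of_ne h]

lemma step_dst (X s : ℕ → Bool) (i : Ins) (d : ℕ) (h : i.dst = d) :
    step X s i d = i.val X s := by
  subst h
  unfold step
  rw [Function.update_self]

lemma loadL_step {m k : ℕ} (c t : ℕ) (w : Wire m k) (X s : ℕ → Bool) (v : Fin k → Bool)
    (hv : ∀ g : Fin k, s (c + g.val) = v g) :
    step X s (loadL c t w) t = w.val (rst m X) v ∧
      ∀ g, g ≠ t → step X s (loadL c t w) g = s g := by
  cases w with
  | const b =>
    refine ⟨by simp [loadL, step, Ins.dst, Ins.val, Wire.val], fun g hg => by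
      simp [loadL, step, Ins.dst, hg]⟩
  | var i =>
    refine ⟨by simp [loadL, step, Ins.dst, Ins.val, Wire.val, rst], fun g hg => by
      simp [loadL, step, Ins.dst, hg]⟩
  | gate g0 =>
    refine ⟨by simp [loadL, step, Ins.dst, Ins.val, Wire.val, hv], fun g hg => by
      simp [loadL, step, Ins.dst, hg]⟩

lemma gateL_run {m k : ℕ} (W c d : ℕ) (G : Gate m k) (hc : c + k ≤ 2 * W)
    (X s : ℕ → Bool) (v : Fin k → Bool)
    (hv : ∀ g : Fin k, s (c + g.val) = v g) :
    run X s (gateL W c d G) d = G.val (rst m X) v ∧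
      ∀ g, g < 2 * W → g ≠ d → run X s (gateL W c d G) g = s g := by
  have hload : ∀ a b : Wire m k, ∀ s1 s2 : ℕ → Bool, s1 = step X s (loadL c (2 * W) a) →
      s2 = step X s1 (loadL c (2 * W + 1) b) →
      s2 (2 * W) = a.val (rst m X) v ∧ s2 (2 * W + 1) = b.val (rst m X) v ∧
        ∀ g, g < 2 * W → s2 g = s g := by
    intro a b s1 s2 hs1 hs2
    have h1 := loadL_step c (2 * W) a X s v hv
    rw [← hs1] at h1
    have h2 := loadL_step c (2 * W + 1) b X s1 v (fun g => by
      rw [h1.2 _ (by have := g.isLt; omega), hv])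
    rw [← hs2] at h2
    refine ⟨by rw [h2.2 _ (by omega), h1.1], h2.1, fun g hg => ?_⟩
    rw [h2.2 _ (by omega), h1.2 _ (by omega)]
  cases G with
  | and a b =>
    obtain ⟨h1, h2, h3⟩ := hload a b _ _ rfl rfl
    rw [gateL, run_cons, run_cons, run_cons, run_nil]
    refine ⟨?_, fun g hg hgd => ?_⟩
    · refine (step_dst _ _ _ d rfl).trans ?_
      simp only [Ins.val, Gate.val]
      rw [h1, h2]
    · rw [step_of_ne _ _ _ _ hgd, h3 g hg]
  | or a b =>
    obtain ⟨h1, h2, h3⟩ := hload a b _ _ rfl rfl
    rw [gateL, run_cons, run_cons, run_cons, run_nil]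
    refine ⟨?_, fun g hg hgd => ?_⟩
    · refine (step_dst _ _ _ d rfl).trans ?_
      simp only [Ins.val, Gate.val]
      rw [h1, h2]
    · rw [step_of_ne _ _ _ _ hgd, h3 g hg]
  | not a =>
    obtain ⟨h1, h2, h3⟩ := hload a a _ _ rfl rfl
    rw [gateL, run_cons, run_cons, run_cons, run_nil]
    refine ⟨?_, fun g hg hgd => ?_⟩
    · refine (step_dst _ _ _ d rfl).trans ?_
      simp only [Ins.val, Gate.val]
      rw [h1]
    · rw [step_of_ne _ _ _ _ hgd, h3 g hg]

lemma gateL_ok {m k : ℕ} (W c d : ℕ) (G : Gate m k) (hc : c + k ≤ 2 * W)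
    (hd : d < 2 * W) (hG : G.isNot = false) :
    ∀ i ∈ gateL W c d G, i.ok (2 * W + 2) m ∧ i.isNot = false := by
  have hl : ∀ t, t < 2 * W + 2 → ∀ w : Wire m k,
      (loadL c t w).ok (2 * W + 2) m ∧ (loadL c t w).isNot = false := by
    intro t ht w
    cases w with
    | const b => exact ⟨ht, rfl⟩
    | var i => exact ⟨⟨ht, i.isLt⟩, rfl⟩
    | gate g =>
      have := g.isLt
      exact ⟨⟨ht, by omega, by omega⟩, rfl⟩
  intro i hi
  cases G with
  | and a b =>
    simp only [gateL, List.mem_cons, List.not_mem_nil, or_false] at hi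
    rcases hi with rfl | rfl | rfl
    · exact hl _ (by omega) _
    · exact hl _ (by omega) _
    · exact ⟨⟨by omega, by omega, by omega⟩, rfl⟩
  | or a b =>
    simp only [gateL, List.mem_cons, List.not_mem_nil, or_false] at hi
    rcases hi with rfl | rfl | rfl
    · exact hl _ (by omega) _
    · exact hl _ (by omega) _
    · exact ⟨⟨by omega, by omega, by omega⟩, rfl⟩
  | not a => exact absurd hG (by simp [Gate.isNot])

lemma gateL_length {m k : ℕ} (W c d : ℕ) (G : Gate m k) : (gateL W c d G).length = 3 := by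
  cases G <;> rfl

section Prog

variable {m : ℕ} (D : Layered m) (W : ℕ)

/-- the program for the gates `g ∈ l` of layer `j + 1` -/
def layerL (j : ℕ) (l : List (Fin (D.width (j + 1)))) : List Ins :=
  l.flatMap (fun g => gateL W (bk W j) (bk W (j + 1) + g.val) (D.gate j g))

/-- the program for the first `j` layers -/
def progL : ℕ → List Ins
  | 0 => []
  | j + 1 => progL j ++ layerL D W j (List.finRange (D.width (j + 1)))

lemma layerL_run (j : ℕ) (hw : D.width j ≤ W) (hw' : D.width (j + 1) ≤ W) (X : ℕ → Bool)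
    (l : List (Fin (D.width (j + 1)))) : ∀ s : ℕ → Bool,
    (∀ g : Fin (D.width j), s (bk W j + g.val) = D.val (rst m X) j g) →
    (∀ g : Fin (D.width j), run X s (layerL D W j l) (bk W j + g.val) = D.val (rst m X) j g) ∧
    (∀ g : Fin (D.width (j + 1)), g ∈ l ∨ s (bk W (j + 1) + g.val) = D.val (rst m X) (j + 1) g →
      run X s (layerL D W j l) (bk W (j + 1) + g.val) = D.val (rst m X) (j + 1) g) := by
  induction l with
  | nil =>
    intro s hs
    refine ⟨hs, fun g hg => ?_⟩
    rcases hg with hg | hg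
    · simp at hg
    · exact hg
  | cons a l ih =>
    intro s hs
    have h1 := gateL_run (k := D.width j) W (bk W j) (bk W (j + 1) + a.val) (D.gate j a)
      (bk_le W j _ hw) X s (D.val (rst m X) j) hs
    have h2 := ih (run X s (gateL W (bk W j) (bk W (j + 1) + a.val) (D.gate j a))) (by
      intro g
      rw [h1.2 _ (bk_lt W j g.val _ g.isLt hw)
        (bk_ne W j g.val a.val (lt_of_lt_of_le g.isLt hw) (lt_of_lt_of_le a.isLt hw')), hs])
    have e : run X s (layerL D W j (a :: l))
        = run X (run X s (gateL W (bk W j) (bk W (j + 1) + a.val) (D.gate j a)))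
          (layerL D W j l) := by
      rw [layerL, List.flatMap_cons, run_append]
      rfl
    rw [e]
    refine ⟨h2.1, fun g hg => h2.2 g ?_⟩
    by_cases hga : g = a
    · right
      subst hga
      exact h1.1
    · rcases hg with hg | hg
      · left
        rcases List.mem_cons.mp hg with h | h
        · exact absurd h hga
        · exact h
      · right
        rw [h1.2 _ (bk_lt W (j + 1) g.val _ g.isLt hw') (by
          intro h
          exact hga (Fin.ext (by omega)))]
        exact hg

lemma progL_run (X : ℕ → Bool) (s : ℕ → Bool) : ∀ j, (∀ i, i ≤ j → D.width i ≤ W) →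
    ∀ g : Fin (D.width j), run X s (progL D W j) (bk W j + g.val) = D.val (rst m X) j g := by
  intro j
  induction j with
  | zero =>
    intro _ g
    exact Fin.elim0 (Fin.cast D.width_zero g)
  | succ j ih =>
    intro hw g
    rw [progL, run_append]
    exact (layerL_run D W j (hw j (by omega)) (hw (j + 1) le_rfl) X _ _
      (ih (fun i hi => hw i (by omega)))).2 g (Or.inl (List.mem_finRange g))

lemma progL_ok (hD : ∀ j g, (D.gate j g).isNot = false) : ∀ j, (∀ i, i ≤ j → D.width i ≤ W) →
    ∀ i ∈ progL D W j, i.ok (2 * W + 2) m ∧ i.isNot = false := by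
  intro j
  induction j with
  | zero => intro _ i hi; simp [progL] at hi
  | succ j ih =>
    intro hw i hi
    rw [progL, List.mem_append] at hi
    rcases hi with hi | hi
    · exact ih (fun i hi => hw i (by omega)) i hi
    · rw [layerL, List.mem_flatMap] at hi
      obtain ⟨g, _, hi⟩ := hi
      exact gateL_ok W (bk W j) (bk W (j + 1) + g.val) (D.gate j g)
        (bk_le W j _ (hw j (by omega))) (bk_lt W (j + 1) g.val _ g.isLt (hw (j + 1) le_rfl))
        (hD j g) i hi

lemma layerL_length (j : ℕ) (l : List (Fin (D.width (j + 1)))) :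
    (layerL D W j l).length = 3 * l.length := by
  induction l with
  | nil => simp [layerL]
  | cons a l ih =>
    have e : layerL D W j (a :: l) = gateL W (bk W j) (bk W (j + 1) + a.val) (D.gate j a)
        ++ layerL D W j l := rfl
    rw [e, List.length_append, ih, List.length_cons, gateL_length]
    ring

lemma progL_length (j : ℕ) :
    (progL D W j).length = 3 * ∑ i ∈ range j, D.width (i + 1) := by
  induction j with
  | zero => simp [progL]
  | succ j ih =>
    rw [progL, List.length_append, ih, layerL_length, Finset.sum_range_succ, List.length_finRange]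
    ring

end Prog

/-! ## Substitutions -/

/-- substitution of constants and variables for the variables -/
def subI (σ : ℕ → Bool ⊕ ℕ) : Ins → Ins
  | .var d p => Sum.elim (fun b => Ins.cst d b) (fun q => Ins.var d q) (σ p)
  | .cst d b => .cst d b
  | .and d a b => .and d a b
  | .or d a b => .or d a b
  | .not d a => .not d a

/-- the substituted input -/
def sX (σ : ℕ → Bool ⊕ ℕ) (X : ℕ → Bool) : ℕ → Bool := fun p => Sum.elim (fun b => b) X (σ p)

lemma subI_step (σ : ℕ → Bool ⊕ ℕ) (X s : ℕ → Bool) (i : Ins) :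
    step X s (subI σ i) = step (sX σ X) s i := by
  cases i with
  | var d p =>
    unfold subI sX step
    rcases h : σ p with b | q
    · simp [Ins.dst, Ins.val, h]
    · simp [Ins.dst, Ins.val, h]
  | cst d b => rfl
  | and d a b => rfl
  | or d a b => rfl
  | not d a => rfl

lemma subI_run (σ : ℕ → Bool ⊕ ℕ) (X : ℕ → Bool) (P : List Ins) : ∀ s,
    run X s (P.map (subI σ)) = run (sX σ X) s P := by
  induction P with
  | nil => intro s; rfl
  | cons i P ih =>
    intro s
    rw [List.map_cons, run_cons, run_cons, ih, subI_step]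

lemma subI_ok (σ : ℕ → Bool ⊕ ℕ) (K M M' : ℕ) (hσ : ∀ p < M, ∀ q, σ p = Sum.inr q → q < M')
    (i : Ins) (hi : i.ok K M) : (subI σ i).ok K M' := by
  cases i with
  | var d p =>
    obtain ⟨h1, h2⟩ := hi
    rcases h : σ p with b | q
    · simp only [subI, h, Sum.elim_inl]
      exact h1
    · simp only [subI, h, Sum.elim_inr]
      exact ⟨h1, hσ p h2 q h⟩
  | cst d b => exact hi
  | and d a b => exact hi
  | or d a b => exact hi
  | not d a => exact hi

lemma subI_isNot (σ : ℕ → Bool ⊕ ℕ) (i : Ins) : (subI σ i).isNot = i.isNot := by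
  cases i with
  | var d p =>
    rcases h : σ p with b | q
    · simp only [subI, h, Sum.elim_inl]; rfl
    · simp only [subI, h, Sum.elim_inr]; rfl
  | cst d b => rfl
  | and d a b => rfl
  | or d a b => rfl
  | not d a => rfl

/-! ## Disjunctions -/

/-- registers which are not changed -/
lemma run_of_ok (K M : ℕ) (X : ℕ → Bool) (P : List Ins) : ∀ s, (∀ i ∈ P, i.ok K M) →
    ∀ g, K ≤ g → run X s P g = s g := by
  induction P with
  | nil => intro s _ g _; rfl
  | cons i P ih =>
    intro s hP g hg
    rw [run_cons, ih _ (fun i' hi' => hP i' (List.mem_cons_of_mem _ hi')) g hg]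
    have h1 : i.ok K M := hP i List.mem_cons_self
    have h2 : i.dst < K := by
      cases i with
      | var d p => exact h1.1
      | cst d b => exact h1
      | and d a b => exact h1.1
      | or d a b => exact h1.1
      | not d a => exact h1.1
    unfold step
    rw [Function.update_of_ne (by omega)]

/-- the disjunction of the results of several programs -/
def orP (K : ℕ) (l : List (List Ins × ℕ)) : List Ins := l.flatMap (fun P => P.1 ++ [.or K K P.2])

lemma orP_run (K M : ℕ) (X : ℕ → Bool) (V : List Ins × ℕ → Bool) (l : List (List Ins × ℕ)) :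
    (∀ P ∈ l, P.2 < K ∧ (∀ i ∈ P.1, i.ok K M) ∧ ∀ s, run X s P.1 P.2 = V P) →
    ∀ s, run X s (orP K l) K = (s K || l.any V) := by
  induction l with
  | nil => intro _ s; simp [orP, run_nil]
  | cons P l ih =>
    intro h s
    obtain ⟨h1, h2, h3⟩ := h P List.mem_cons_self
    have e : orP K (P :: l) = (P.1 ++ [.or K K P.2]) ++ orP K l := rfl
    rw [e, run_append, ih (fun P' hP' => h P' (List.mem_cons_of_mem _ hP')), run_append, run_cons,
      run_nil]
    have h4 : step X (run X s P.1) (.or K K P.2) K = (s K || V P) := by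
      have h5 := run_of_ok K M X P.1 s h2 K le_rfl
      simp [step, Ins.dst, Ins.val, h5, h3]
    rw [h4, List.any_cons, Bool.or_assoc]

lemma orP_ok (K M : ℕ) (l : List (List Ins × ℕ))
    (h : ∀ P ∈ l, P.2 < K ∧ (∀ i ∈ P.1, i.ok K M ∧ i.isNot = false)) :
    ∀ i ∈ orP K l, i.ok (K + 1) M ∧ i.isNot = false := by
  intro i hi
  rw [orP, List.mem_flatMap] at hi
  obtain ⟨P, hP, hi⟩ := hi
  obtain ⟨h1, h2⟩ := h P hP
  rw [List.mem_append] at hi
  rcases hi with hi | hi
  · obtain ⟨h3, h4⟩ := h2 i hi
    refine ⟨?_, h4⟩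
    cases i with
    | var d p => exact ⟨Nat.lt_succ_of_lt h3.1, h3.2⟩
    | cst d b => exact Nat.lt_succ_of_lt h3
    | and d a b => exact ⟨Nat.lt_succ_of_lt h3.1, Nat.lt_succ_of_lt h3.2.1, Nat.lt_succ_of_lt h3.2.2⟩
    | or d a b => exact ⟨Nat.lt_succ_of_lt h3.1, Nat.lt_succ_of_lt h3.2.1, Nat.lt_succ_of_lt h3.2.2⟩
    | not d a => exact ⟨Nat.lt_succ_of_lt h3.1, Nat.lt_succ_of_lt h3.2⟩
  · simp only [List.mem_cons, List.not_mem_nil, or_false] at hi
    subst hi
    exact ⟨⟨Nat.lt_succ_self _, Nat.lt_succ_self _, Nat.lt_succ_of_lt h1⟩, rfl⟩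

lemma orP_length (K s : ℕ) (l : List (List Ins × ℕ)) (h : ∀ P ∈ l, P.1.length ≤ s) :
    (orP K l).length ≤ l.length * (s + 1) := by
  induction l with
  | nil => simp [orP]
  | cons P l ih =>
    have e : orP K (P :: l) = (P.1 ++ [.or K K P.2]) ++ orP K l := rfl
    rw [e, List.length_append, List.length_append, List.length_cons]
    have h1 := h P List.mem_cons_self
    have h2 := ih (fun P' hP' => h P' (List.mem_cons_of_mem _ hP'))
    simp only [List.length_cons, List.length_nil]
    calc _ ≤ (s + 1) + l.length * (s + 1) := by omega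
      _ = _ := by ring

/-- The disjunction of the values of several programs without NOT instructions is computed by a
narrow layered circuit without NOT gates. -/
theorem exists_orL (K m s : ℕ) (l : List (List Ins × ℕ)) (V : List Ins × ℕ → (ℕ → Bool) → Bool)
    (h : ∀ P ∈ l, P.2 < K ∧ (∀ i ∈ P.1, i.ok K m ∧ i.isNot = false) ∧ P.1.length ≤ s ∧
      ∀ X s, run X s P.1 P.2 = V P X) :
    ∃ D : Layered m, (∀ X : ℕ → Bool, D.eval (rst m X) = l.any (fun P => V P X)) ∧
      D.negations = 0 ∧ D.maxWidth ≤ K + 1 ∧ D.size ≤ (l.length * (s + 1) + 1) * (K + 1) := by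
  have hok := orP_ok K m l (fun P hP => ⟨(h P hP).1, (h P hP).2.1⟩)
  refine ⟨toLayered m (K + 1) (orP K l) ⟨K, Nat.lt_succ_self K⟩, fun X => ?_, ?_,
    toLayered_maxWidth _ _, ?_⟩
  · rw [toLayered_eval _ (fun i hi => (hok i hi).1)]
    rw [orP_run K m X (fun P => V P X) l (fun P hP => ⟨(h P hP).1, fun i hi => ((h P hP).2.1 i hi).1,
      fun s => (h P hP).2.2.2 X s⟩)]
    simp
  · have h1 := toLayered_negations (n := m) (orP K l) ⟨K, Nat.lt_succ_self K⟩
    have h2 : (orP K l).countP Ins.isNot = 0 := by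
      rw [List.countP_eq_zero]
      intro i hi
      rw [(hok i hi).2]
      simp
    rw [h2] at h1
    exact Nat.le_zero.mp h1
  · rw [toLayered_size]
    apply Nat.mul_le_mul_right
    have := orP_length K s l (fun P hP => (h P hP).2.2.1)
    omega

end SCup

open SCup

lemma width_le_max {n : ℕ} (D : Layered n) (i : ℕ) (hi : i ≤ D.layers) : D.width i ≤ D.maxWidth := by
  rcases i with _ | i
  · rw [D.width_zero]; exact Nat.zero_le _
  · exact Finset.le_sup (f := fun j => D.width (j + 1)) (Finset.mem_range.mpr (by omega))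

/-- Copies of `f` in the function computed by a layered circuit with NOT gates: `f` has a narrow
circuit without NOT gates. -/
theorem layered_copies {n m : ℕ} (C : Layered n) (B : ℕ)
    (hB : 2 ^ C.negations * (C.negations + 1) < B) (f : (Fin m → Bool) → Bool)
    (hf0 : f (fun _ => false) = false) (φ : ℕ → ℕ → Option (Fin m))
    (H : ∀ j < B, ∀ y : ℕ → Fin m → Bool, (∀ k < j, f (y k) = false) → ∀ z : Fin m → Bool,
      C.eval (rst n (fun p => decide (∃ k < j, (φ k p).elim false (y k) = true) ||
        (φ j p).elim false z)) = f z) :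
    ∃ D : Layered m, (∀ z, D.eval z = f z) ∧ D.negations = 0 ∧
      D.maxWidth ≤ 2 * C.maxWidth + 3 ∧
      D.size ≤ (2 ^ C.negations * (C.negations + 1) * (3 * C.size + 1) + 1) * (2 * C.maxWidth + 3) := by
  classical
  obtain ⟨j, hj, w, hw⟩ := chain (idxL C) (fun i X => (famL C i).eval (rst n X))
    (fun i _ => layered_monotone (famL C i) (famL_pos C i)) (fun X => C.eval (rst n X))
    (by
      intro w w' hle h0 h1
      exact separateL C (rst n w) (rst n w') (fun i => hle i.val) h0 h1)
    (fun z => f (rst m z)) hf0 (fun j z p => (φ j p).elim false (rst m z))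
    (by
      intro j
      funext p
      cases φ j p <;> rfl)
    B (by rw [card_idxL]; exact hB)
    (fun j hj y hy z => H j hj (fun k => rst m (y k)) hy (rst m z))
  set W := C.maxWidth with hW
  let σ : ℕ → Bool ⊕ ℕ := fun p => if w p = true then Sum.inl true else
    (φ j p).elim (Sum.inl false) (fun q => Sum.inr q.val)
  have hσ : ∀ z, sX σ z = fun p => w p || (φ j p).elim false (rst m z) := by
    intro z
    funext p
    unfold sX
    by_cases hp : w p = true
    · simp [σ, hp]
    · have hp' : w p = false := by simpa using hp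
      simp only [σ, hp', Bool.false_or]
      cases φ j p <;> simp [rst]
  have hσm : ∀ p < n, ∀ q, σ p = Sum.inr q → q < m := by
    intro p _ q h
    by_cases hp : w p = true
    · simp [σ, hp] at h
    · have hp' : w p = false := by simpa using hp
      simp only [σ, hp'] at h
      cases hφ : φ j p with
      | none => rw [hφ] at h; simp at h
      | some q' =>
        rw [hφ] at h
        simp only [Option.elim] at h
        simp at h
        rw [← h]
        exact q'.isLt
  let I := (idxL C).filter (fun i => (famL C i).eval (rst n w) = false)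
  have hI : ∀ i ∈ I, i ∈ idxL C := fun i hi => (Finset.mem_filter.mp hi).1
  have hwid : ∀ i ∈ I, ∀ j ≤ (famL C i).layers, (famL C i).width j ≤ W := by
    intro i hi j hj
    exact le_trans (width_le_max _ j hj) (famL_width C i (hI i hi))
  have hlen : ∀ i ∈ I, (famL C i).size ≤ C.size := fun i hi => famL_size C i (hI i hi)
  let pr : (Finset (Adr C) × Option (Adr C)) → List Ins × ℕ := fun i =>
    ((progL (famL C i) W (famL C i).layers).map (subI σ),
      bk W (famL C i).layers + (famL C i).out.val)
  have hprv : ∀ i ∈ I, ∀ X s, run X s (pr i).1 (pr i).2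
      = (famL C i).eval (rst n (fun p => w p || (φ j p).elim false (rst m X))) := by
    intro i hi X s
    change run X s ((progL (famL C i) W (famL C i).layers).map (subI σ))
      (bk W (famL C i).layers + (famL C i).out.val) = _
    rw [subI_run, hσ]
    exact progL_run (famL C i) W _ s (famL C i).layers (hwid i hi) (famL C i).out
  obtain ⟨D, hD1, hD2, hD3, hD4⟩ := exists_orL (2 * W + 2) m (3 * C.size) (I.toList.map pr)
    (fun P X => run X (fun _ => false) P.1 P.2) (by
      intro P hP
      rw [List.mem_map] at hP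
      obtain ⟨i, hi, rfl⟩ := hP
      rw [Finset.mem_toList] at hi
      refine ⟨?_, ?_, ?_, ?_⟩
      · have := bk_lt W (famL C i).layers (famL C i).out.val _ (famL C i).out.isLt
          (hwid i hi _ le_rfl)
        change bk W (famL C i).layers + (famL C i).out.val < 2 * W + 2
        omega
      · intro ins hins
        change ins ∈ (progL (famL C i) W (famL C i).layers).map (subI σ) at hins
        rw [List.mem_map] at hins
        obtain ⟨ins', hins', rfl⟩ := hins
        have h1 := progL_ok (famL C i) W (famL_pos C i) (famL C i).layers (hwid i hi) ins' hins'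
        exact ⟨subI_ok σ _ n m hσm ins' h1.1, by rw [subI_isNot]; exact h1.2⟩
      · change ((progL (famL C i) W (famL C i).layers).map (subI σ)).length ≤ 3 * C.size
        rw [List.length_map, progL_length]
        exact Nat.mul_le_mul_left 3 (hlen i hi)
      · intro X s
        rw [hprv i hi X s, hprv i hi X])
  refine ⟨D, fun z => ?_, hD2, by omega, ?_⟩
  · have h1 := hD1 (ext z)
    rw [rst_ext] at h1
    rw [h1]
    apply Bool.eq_iff_iff.mpr
    have h2 := hw (ext z)
    simp only [rst_ext] at h2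
    rw [h2, List.any_eq_true]
    constructor
    · rintro ⟨P, hP, hv⟩
      rw [List.mem_map] at hP
      obtain ⟨i, hi, rfl⟩ := hP
      rw [Finset.mem_toList] at hi
      rw [hprv i hi, rst_ext] at hv
      exact ⟨i, hI i hi, (Finset.mem_filter.mp hi).2, hv⟩
    · rintro ⟨i, hi, h3, h4⟩
      have hiI : i ∈ I := Finset.mem_filter.mpr ⟨hi, h3⟩
      refine ⟨pr i, List.mem_map.mpr ⟨i, Finset.mem_toList.mpr hiI, rfl⟩, ?_⟩
      rw [hprv i hiI, rst_ext]
      exact h4
  · refine le_trans hD4 ?_
    apply Nat.mul_le_mul_right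
    apply Nat.add_le_add_right
    apply Nat.mul_le_mul_right
    rw [List.length_map, Finset.length_toList, ← card_idxL]
    exact Finset.card_le_card (Finset.filter_subset _ _)

/-! ## Unlayered circuits -/

/-- the circuit has no NOT gates -/
def Pos {n : ℕ} (C : Circuit n) : Prop := ∀ g, (C.gate g).isNot = false

lemma Pos.negations {n : ℕ} {C : Circuit n} (h : Pos C) : C.negations = 0 := by
  unfold Circuit.negations
  rw [Finset.card_eq_zero, Finset.filter_eq_empty_iff]
  intro g _
  rw [h g]
  simp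

lemma pos_of_negations {n : ℕ} {C : Circuit n} (h : C.negations = 0) : Pos C := by
  unfold Circuit.negations at h
  rw [Finset.card_eq_zero, Finset.filter_eq_empty_iff] at h
  intro g
  have := h (Finset.mem_univ g)
  simpa using this

/-- circuits without NOT gates are monotone -/
lemma circuit_monotone {n : ℕ} (D : Circuit n) (hD : Pos D) :
    Monotone (fun X : ℕ → Bool => D.eval (rst n X)) := by
  exact circuit_mono D (fun X => X) monotone_id D.size
    (fun g hn _ => absurd hn (by rw [hD g]; simp)) D.out.val D.out.isLt D.out.isLt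

/-! ### Disjunction of two circuits -/

/-- gates of the disjunction -/
def orGate {n : ℕ} (A B : Circuit n) (g : ℕ) : Gate n g :=
  if h : g < A.size then A.gate ⟨g, h⟩
  else if h' : g < A.size + B.size then
    (B.gate ⟨g - A.size, by omega⟩).mapTo (fun i => .var i)
      (fun g' => .gate ⟨A.size + g'.val, by have := g'.isLt; simp only at this; omega⟩)
  else if h'' : A.size + B.size ≤ g then
    .or (.gate ⟨A.out.val, by have := A.out.isLt; omega⟩)
      (.gate ⟨A.size + B.out.val, by have := B.out.isLt; omega⟩)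
  else .or (.const false) (.const false)

/-- disjunction of two circuits -/
def orC {n : ℕ} (A B : Circuit n) : Circuit n :=
  ⟨A.size + B.size + 1, fun g => orGate A B g.val, Fin.last _⟩

/-- values of the gates -/
def orV {n : ℕ} (A B : Circuit n) (x : Fin n → Bool) (g : ℕ) : Bool :=
  if h : g < A.size then A.gateVal x g h
  else if h' : g - A.size < B.size then B.gateVal x (g - A.size) h'
  else (A.eval x || B.eval x)

lemma orC_eval {n : ℕ} (A B : Circuit n) (x : Fin n → Bool) :
    (orC A B).eval x = (A.eval x || B.eval x) := by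
  have h1 := gateVal_unique (orC A B) x (orV A B x) (by
    intro g hg
    change orV A B x g = (orGate A B g).val x _
    by_cases h : g < A.size
    · unfold orV orGate
      rw [dif_pos h, dif_pos h, gateVal_eq]
      congr 1
      funext g'
      rw [dif_pos (lt_trans g'.isLt h)]
    · by_cases h' : g < A.size + B.size
      · have h2 : g - A.size < B.size := by omega
        unfold orV orGate
        rw [dif_neg h, dif_neg h, dif_pos h', dif_pos h2, gateVal_eq, Gate.mapTo_val]
        congr 1
        funext g'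
        have h3 := g'.isLt
        simp only [Wire.val]
        rw [dif_neg (by omega : ¬ (A.size + g'.val < A.size))]
        have h4 : A.size + g'.val - A.size < B.size := by omega
        rw [dif_pos h4]
        congr 1
        omega
      · unfold orV orGate
        have h2 : ¬ (g - A.size < B.size) := by omega
        rw [dif_neg h, dif_neg h, dif_neg h', dif_neg h2, dif_pos (by omega : A.size + B.size ≤ g)]
        simp only [Gate.val, Wire.val]
        rw [dif_pos A.out.isLt, dif_neg (by omega : ¬ (A.size + B.out.val < A.size))]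
        have h4 : A.size + B.out.val - A.size < B.size := by have := B.out.isLt; omega
        rw [dif_pos h4]
        unfold Circuit.eval
        congr 2
        omega) (A.size + B.size) (Nat.lt_succ_self _)
  have h2 : orV A B x (A.size + B.size) = (A.eval x || B.eval x) := by
    unfold orV
    rw [dif_neg (by omega), dif_neg (by omega)]
  rw [h2] at h1
  exact h1

lemma gateDepth_eq {n : ℕ} (C : Circuit n) (g : ℕ) (hg : g < C.size) :
    C.gateDepth g hg = (C.gate ⟨g, hg⟩).depth (fun g' => C.gateDepth g'.val (lt_trans g'.isLt hg)) := by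
  rw [Circuit.gateDepth]

/-- depths of the gates -/
def orD {n : ℕ} (A B : Circuit n) (g : ℕ) : ℕ :=
  if h : g < A.size then A.gateDepth g h
  else if h' : g - A.size < B.size then B.gateDepth (g - A.size) h'
  else max A.depth B.depth + 1

lemma orC_depth {n : ℕ} (A B : Circuit n) : (orC A B).depth ≤ max A.depth B.depth + 1 := by
  have h1 := gateDepth_le (orC A B) (orD A B) (by
    intro g hg
    change (orGate A B g).depth _ ≤ orD A B g
    by_cases h : g < A.size
    · unfold orD orGate
      rw [dif_pos h, dif_pos h, gateDepth_eq]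
      apply Gate.depth_mono
      intro g'
      rw [dif_pos (lt_trans g'.isLt h)]
    · by_cases h' : g < A.size + B.size
      · have h2 : g - A.size < B.size := by omega
        unfold orD orGate
        rw [dif_neg h, dif_neg h, dif_pos h', dif_pos h2, gateDepth_eq]
        refine le_trans (Gate.mapTo_depth _ _ _ (fun g' => B.gateDepth g'.val
          (lt_trans g'.isLt h2)) _ 0 (fun i => by simp [Wire.depth]) (fun g' => ?_)) (by simp)
        have h3 := g'.isLt
        simp only [Wire.depth]
        rw [dif_neg (by omega : ¬ (A.size + g'.val < A.size))]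
        have h4 : A.size + g'.val - A.size < B.size := by omega
        rw [dif_pos h4, add_zero]
        apply le_of_eq
        congr 1
        omega
      · unfold orD orGate
        have h2 : ¬ (g - A.size < B.size) := by omega
        rw [dif_neg h, dif_neg h, dif_neg h', dif_neg h2, dif_pos (by omega : A.size + B.size ≤ g)]
        simp only [Gate.depth, Wire.depth]
        rw [dif_pos A.out.isLt, dif_neg (by omega : ¬ (A.size + B.out.val < A.size))]
        have h4 : A.size + B.out.val - A.size < B.size := by have := B.out.isLt; omega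
        rw [dif_pos h4]
        unfold Circuit.depth
        apply le_of_eq
        congr 3
        omega) (A.size + B.size) (Nat.lt_succ_self _)
  have h2 : orD A B (A.size + B.size) = max A.depth B.depth + 1 := by
    unfold orD
    rw [dif_neg (by omega), dif_neg (by omega)]
  rw [h2] at h1
  exact h1

lemma orC_pos {n : ℕ} (A B : Circuit n) (hA : Pos A) (hB : Pos B) : Pos (orC A B) := by
  intro g
  change (orGate A B g.val).isNot = false
  unfold orGate
  split
  · exact hA _
  · split
    · rw [Gate.mapTo_isNot]; exact hB _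
    · split <;> rfl

/-- Balanced disjunction. -/
theorem exists_orC {n : ℕ} (s d : ℕ) : ∀ (k : ℕ) (l : List (Circuit n)), l.length ≤ 2 ^ k →
    (∀ D ∈ l, Pos D ∧ D.size ≤ s ∧ D.depth ≤ d) →
    ∃ E : Circuit n, Pos E ∧ E.size + 1 ≤ 2 ^ k * (s + 2) ∧ E.depth ≤ d + 1 + k ∧
      ∀ x, E.eval x = l.any (fun D => D.eval x) := by
  have hnil : ∃ E : Circuit n, Pos E ∧ E.size = 1 ∧ E.depth = 1 ∧ ∀ x, E.eval x = false := by
    refine ⟨⟨1, fun _ => .or (.const false) (.const false), 0⟩, fun g => rfl, rfl, ?_, fun x => ?_⟩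
    · unfold Circuit.depth
      rw [gateDepth_eq]
      simp [Gate.depth, Wire.depth]
    · unfold Circuit.eval
      rw [gateVal_eq]
      simp [Gate.val, Wire.val]
  intro k
  induction k with
  | zero =>
    intro l hl h
    match l, hl, h with
    | [], _, _ =>
      obtain ⟨E, h1, h2, h3, h4⟩ := hnil
      exact ⟨E, h1, by rw [h2]; simp, by rw [h3]; omega, fun x => by rw [h4]; rfl⟩
    | [D], _, h =>
      obtain ⟨h1, h2, h3⟩ := h D (by simp)
      exact ⟨D, h1, by simp; omega, by omega, fun x => by simp⟩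
    | _ :: _ :: _, hl, _ => simp at hl
  | succ k ih =>
    intro l hl h
    obtain ⟨A, a1, a2, a3, a4⟩ := ih (l.take (2 ^ k)) (by simp)
      (fun D hD => h D (List.mem_of_mem_take hD))
    obtain ⟨B, b1, b2, b3, b4⟩ := ih (l.drop (2 ^ k)) (by
      rw [List.length_drop]
      rw [pow_succ] at hl
      omega) (fun D hD => h D (List.mem_of_mem_drop hD))
    refine ⟨orC A B, orC_pos A B a1 b1, ?_, ?_, fun x => ?_⟩
    · change A.size + B.size + 1 + 1 ≤ _
      have : 2 ^ (k + 1) * (s + 2) = 2 ^ k * (s + 2) + 2 ^ k * (s + 2) := by rw [pow_succ]; ring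
      omega
    · have := orC_depth A B
      omega
    · rw [orC_eval, a4, b4, ← List.any_append, List.take_append_drop]

/-! ### Substitution -/

/-- substitution of constants and variables for the variables of a circuit -/
def subC {n m : ℕ} (σ : Fin n → Bool ⊕ Fin m) (C : Circuit n) : Circuit m :=
  ⟨C.size, fun g => (C.gate g).mapTo (fun i => Sum.elim (fun b => .const b) (fun q => .var q) (σ i))
    (fun g' => .gate g'), C.out⟩

lemma subC_eval {n m : ℕ} (σ : Fin n → Bool ⊕ Fin m) (C : Circuit n) (z : Fin m → Bool) :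
    (subC σ C).eval z = C.eval (fun i => Sum.elim (fun b => b) z (σ i)) := by
  have h1 := gateVal_unique (subC σ C) z
    (fun g => if hg : g < C.size then C.gateVal (fun i => Sum.elim (fun b => b) z (σ i)) g hg
      else false) (by
      intro g hg
      have hg' : g < C.size := hg
      change _ = ((C.gate ⟨g, hg⟩).mapTo _ _).val _ _
      rw [Gate.mapTo_val, dif_pos hg', gateVal_eq]
      congr 1
      · funext i
        rcases σ i with b | q <;> rfl
      · funext g'
        simp only [Wire.val]
        rw [dif_pos (lt_trans g'.isLt hg')]) C.out.val C.out.isLt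
  rw [dif_pos C.out.isLt] at h1
  exact h1

lemma subC_depth {n m : ℕ} (σ : Fin n → Bool ⊕ Fin m) (C : Circuit n) :
    (subC σ C).depth ≤ C.depth := by
  have h1 := gateDepth_le (subC σ C)
    (fun g => if hg : g < C.size then C.gateDepth g hg else 0) (by
      intro g hg
      have hg' : g < C.size := hg
      change ((C.gate ⟨g, hg⟩).mapTo _ _).depth _ ≤ _
      rw [dif_pos hg', gateDepth_eq]
      refine le_trans (Gate.mapTo_depth _ _ _ (fun g' => C.gateDepth g'.val
          (lt_trans g'.isLt hg')) _ 0 (fun i => ?_) (fun g' => ?_)) (by simp)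
      · rcases σ i with b | q <;> simp [Wire.depth]
      · simp only [Wire.depth]
        rw [dif_pos (lt_trans g'.isLt hg')]
        simp) C.out.val C.out.isLt
  rw [dif_pos C.out.isLt] at h1
  exact h1

lemma subC_pos {n m : ℕ} (σ : Fin n → Bool ⊕ Fin m) (C : Circuit n) (hC : Pos C) :
    Pos (subC σ C) := by
  intro g
  change ((C.gate g).mapTo _ _).isNot = false
  rw [Gate.mapTo_isNot]
  exact hC g

/-! ### The family -/

section CircuitFamily

variable {n : ℕ} (C : Circuit n)

/-- the NOT gates which can be connected to the output -/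
def notsC : Finset (Fin C.size) :=
  univ.filter (fun g => (C.gate g).isNot = true ∧ C.gateDepth g.val g.isLt ≤ C.depth)

lemma card_notsC : (notsC C).card ≤ C.negations := by
  unfold notsC Circuit.negations
  apply Finset.card_le_card
  intro g hg
  rw [Finset.mem_filter] at hg ⊢
  exact ⟨hg.1, hg.2.1⟩

lemma mem_notsC (g : Fin C.size) :
    g ∈ notsC C ↔ (C.gate g).isNot = true ∧ C.gateDepth g.val g.isLt ≤ C.depth := by
  unfold notsC
  rw [Finset.mem_filter]
  simp

/-- the circuit in which the NOT gates have constant values given by `S`, except that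
the NOT gate `o` is a copy of its input -/
def rawC (S : Finset (Fin C.size)) (o : Option (Fin C.size)) (out : Fin C.size) : Circuit n :=
  ⟨C.size, fun g => fixG (o = some g) (decide (g ∈ S)) (C.gate g), out⟩

lemma rawC_pos (S : Finset (Fin C.size)) (o : Option (Fin C.size)) (out : Fin C.size) :
    Pos (rawC C S o out) := fun _ => fixG_isNot _ _ _

lemma rawC_step (S : Finset (Fin C.size)) (o : Option (Fin C.size)) (out : Fin C.size)
    (u : Fin n → Bool) (g : ℕ) (hg : g < C.size) :
    (rawC C S o out).gateVal u g hg = (fixG (o = some (⟨g, hg⟩ : Fin C.size))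
      (decide ((⟨g, hg⟩ : Fin C.size) ∈ S)) (C.gate ⟨g, hg⟩)).val u
      (fun g' : Fin g => (rawC C S o out).gateVal u g'.val (lt_trans g'.isLt hg)) :=
  gateVal_eq (rawC C S o out) u g hg

lemma rawC_gateDepth (S : Finset (Fin C.size)) (o : Option (Fin C.size)) (out : Fin C.size)
    (g : ℕ) (hg : g < C.size) : (rawC C S o out).gateDepth g hg ≤ C.gateDepth g hg := by
  have h1 := gateDepth_le (rawC C S o out)
    (fun g => if hg : g < C.size then C.gateDepth g hg else 0) (by
      intro g hg
      have hg' : g < C.size := hg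
      change (fixG _ _ (C.gate ⟨g, hg⟩)).depth _ ≤ _
      rw [dif_pos hg', gateDepth_eq]
      refine le_trans (fixG_depth _ _ _ _) (Gate.depth_mono _ _ _ (fun g' => ?_))
      rw [dif_pos (lt_trans g'.isLt hg')]) g hg
  rw [dif_pos hg] at h1
  exact h1

/-- a gate only depends on gates of smaller depth -/
lemma Gate.val_congr {k : ℕ} (G : Gate n k) (x : Fin n → Bool) (v v' : Fin k → Bool)
    (d : Fin k → ℕ) (h : ∀ g, d g < G.depth d → v g = v' g) : G.val x v = G.val x v' := by
  have hw : ∀ w : Wire n k, w.depth d < G.depth d → w.val x v = w.val x v' := by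
    intro w hw
    cases w with
    | const b => rfl
    | var i => rfl
    | gate g => exact h g hw
  cases G with
  | and a b =>
    simp only [Gate.val]
    rw [hw a (by simp only [Gate.depth]; omega), hw b (by simp only [Gate.depth]; omega)]
  | or a b =>
    simp only [Gate.val]
    rw [hw a (by simp only [Gate.depth]; omega), hw b (by simp only [Gate.depth]; omega)]
  | not a =>
    simp only [Gate.val]
    rw [hw a (by simp only [Gate.depth]; omega)]

lemma rawC_val (S : Finset (Fin C.size)) (o : Option (Fin C.size)) (out : Fin C.size)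
    (x : Fin n → Bool) (k : ℕ)
    (hk : ∀ g : Fin C.size, g.val < k → g ∈ notsC C →
      o ≠ some g ∧ (g ∈ S ↔ C.gateVal x g.val g.isLt = true)) :
    ∀ g (hg : g < C.size), g < k → C.gateDepth g hg ≤ C.depth →
      (rawC C S o out).gateVal x g hg = C.gateVal x g hg := by
  intro g
  induction g using Nat.strong_induction_on with
  | _ g ih =>
    intro hg hgk hgd
    rw [gateVal_eq C x g hg, gateVal_eq (rawC C S o out) x g hg]
    change (fixG (o = some ⟨g, hg⟩) (decide ((⟨g, hg⟩ : Fin C.size) ∈ S)) (C.gate ⟨g, hg⟩)).val x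
      (fun g' : Fin g => (rawC C S o out).gateVal x g'.val (lt_trans g'.isLt hg)) = _
    have h1 : (C.gate ⟨g, hg⟩).val x
        (fun g' : Fin g => (rawC C S o out).gateVal x g'.val (lt_trans g'.isLt hg)) =
        (C.gate ⟨g, hg⟩).val x (fun g' : Fin g => C.gateVal x g'.val (lt_trans g'.isLt hg)) := by
      apply Gate.val_congr _ x _ _ (fun g' : Fin g => C.gateDepth g'.val (lt_trans g'.isLt hg))
      intro g' hg'
      apply ih g'.val g'.isLt _ (lt_trans g'.isLt hgk)
      rw [gateDepth_eq] at hgd
      exact le_trans hg'.le hgd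
    rw [← h1]
    apply fixG_val
    intro hn
    obtain ⟨h2, h3⟩ := hk ⟨g, hg⟩ hgk ((mem_notsC C ⟨g, hg⟩).mpr ⟨hn, hgd⟩)
    refine ⟨h2, ?_⟩
    rw [h1, ← gateVal_eq]
    simp only at h3
    by_cases hv : C.gateVal x g hg = true
    · rw [hv, decide_eq_true (h3.mpr hv)]
    · have : (⟨g, hg⟩ : Fin C.size) ∉ S := fun hS => hv (h3.mp hS)
      rw [decide_eq_false this]
      simpa using hv

/-- the member of the family with index `(S, o)` -/
def famC (i : Finset (Fin C.size) × Option (Fin C.size)) : Circuit n :=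
  match i.2 with
  | none => rawC C i.1 none C.out
  | some a => rawC C i.1 (some a) a

/-- the set of indices -/
def idxC : Finset (Finset (Fin C.size) × Option (Fin C.size)) :=
  (notsC C).powerset ×ˢ Finset.insertNone (notsC C)

lemma card_idxC : (idxC C).card ≤ 2 ^ C.negations * (C.negations + 1) := by
  unfold idxC
  rw [Finset.card_product, Finset.card_powerset, Finset.card_insertNone]
  have h := card_notsC C
  exact Nat.mul_le_mul (Nat.pow_le_pow_right (by norm_num) h) (by omega)

lemma famC_pos (i : Finset (Fin C.size) × Option (Fin C.size)) : Pos (famC C i) := by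
  obtain ⟨S, o⟩ := i
  rcases o with _ | a
  · exact rawC_pos C _ _ _
  · exact rawC_pos C _ _ _

lemma famC_size (i : Finset (Fin C.size) × Option (Fin C.size)) : (famC C i).size = C.size := by
  obtain ⟨S, o⟩ := i
  rcases o with _ | a
  · rfl
  · rfl

lemma famC_depth (i : Finset (Fin C.size) × Option (Fin C.size)) (hi : i ∈ idxC C) :
    (famC C i).depth ≤ C.depth := by
  obtain ⟨S, o⟩ := i
  rcases o with _ | a
  · exact rawC_gateDepth C _ _ _ _ _
  · unfold idxC at hi
    rw [Finset.mem_product] at hi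
    have h1 := hi.2
    rw [Finset.some_mem_insertNone, mem_notsC] at h1
    exact le_trans (rawC_gateDepth C _ _ _ _ _) h1.2

/-- Every comparable pair which is separated by `C` is separated by a member of the family. -/
theorem separateC (w w' : Fin n → Bool) (hle : w ≤ w') (h0 : C.eval w = false)
    (h1 : C.eval w' = true) :
    ∃ i ∈ idxC C, (famC C i).eval w = false ∧ (famC C i).eval w' = true := by
  classical
  set S := (notsC C).filter (fun g => C.gateVal w g.val g.isLt = true) with hS
  have hSp : S ∈ (notsC C).powerset := Finset.mem_powerset.mpr (Finset.filter_subset _ _)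
  have hSmem : ∀ g ∈ notsC C, (g ∈ S ↔ C.gateVal w g.val g.isLt = true) := by
    intro g hg
    rw [hS, Finset.mem_filter]
    exact ⟨fun h => h.2, fun h => ⟨hg, h⟩⟩
  by_cases hD : ((notsC C).filter (fun g => C.gateVal w g.val g.isLt
      ≠ C.gateVal w' g.val g.isLt)).Nonempty
  · obtain ⟨g0, hmem, hmin⟩ := Finset.exists_min_image _ (fun g : Fin C.size => g.val) hD
    rw [Finset.mem_filter] at hmem
    obtain ⟨hg0, hne⟩ := hmem
    obtain ⟨hn0, hd0⟩ := (mem_notsC C g0).mp hg0
    have hsame : ∀ g : Fin C.size, g.val < g0.val → g ∈ notsC C →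
        C.gateVal w g.val g.isLt = C.gateVal w' g.val g.isLt := by
      intro g hg hgm
      by_contra hcon
      have := hmin g (Finset.mem_filter.mpr ⟨hgm, hcon⟩)
      omega
    have hog : ∀ g : Fin C.size, g.val < g0.val → (some g0 : Option (Fin C.size)) ≠ some g := by
      intro g hg h
      rw [Option.some.injEq] at h
      rw [h] at hg
      exact absurd hg (lt_irrefl _)
    refine ⟨(S, some g0), Finset.mem_product.mpr ⟨hSp, Finset.some_mem_insertNone.mpr hg0⟩, ?_⟩
    have key : ∀ u : Fin n → Bool, (∀ g : Fin C.size, g.val < g0.val → g ∈ notsC C →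
        (g ∈ S ↔ C.gateVal u g.val g.isLt = true)) →
        (famC C (S, some g0)).eval u = !(C.gateVal u g0.val g0.isLt) := by
      intro u hu
      have h2 := rawC_val C S (some g0) g0 u g0.val (fun g hg hgm => ⟨hog g hg, hu g hg hgm⟩)
      refine (rawC_step C S (some g0) g0 u g0.val g0.isLt).trans ?_
      rw [gateVal_eq C u]
      have h3 : (C.gate ⟨g0.val, g0.isLt⟩).val u
          (fun g' : Fin g0.val => (rawC C S (some g0) g0).gateVal u g'.val (lt_trans g'.isLt g0.isLt)) =
          (C.gate ⟨g0.val, g0.isLt⟩).val u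
            (fun g' : Fin g0.val => C.gateVal u g'.val (lt_trans g'.isLt g0.isLt)) := by
        apply Gate.val_congr _ u _ _
          (fun g' : Fin g0.val => C.gateDepth g'.val (lt_trans g'.isLt g0.isLt))
        intro g' hg'
        apply h2 g'.val _ g'.isLt
        rw [gateDepth_eq] at hd0
        exact le_trans hg'.le hd0
      rw [← h3]
      exact fixG_val_not _ _ _ _ _ hn0 rfl
    have e1 := key w (fun g hg hgm => hSmem g hgm)
    have e2 := key w' (fun g hg hgm => by rw [← hsame g hg hgm]; exact hSmem g hgm)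
    have hmono : (famC C (S, some g0)).eval w ≤ (famC C (S, some g0)).eval w' := by
      have h2 := circuit_monotone (famC C (S, some g0)) (famC_pos C _)
      have h3 : ext w ≤ ext w' := by
        intro p
        by_cases hp : p < n
        · simpa [ext, hp] using hle ⟨p, hp⟩
        · simp [ext, hp]
      have h4 := h2 h3
      simp only [rst_ext] at h4
      exact h4
    rw [e1, e2] at hmono ⊢
    revert hmono hne
    cases C.gateVal w g0.val g0.isLt <;> cases C.gateVal w' g0.val g0.isLt <;> decide
  · have hsame : ∀ g ∈ notsC C, C.gateVal w g.val g.isLt = C.gateVal w' g.val g.isLt := by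
      intro g hg
      by_contra hcon
      exact hD ⟨g, Finset.mem_filter.mpr ⟨hg, hcon⟩⟩
    refine ⟨(S, none), Finset.mem_product.mpr ⟨hSp, Finset.none_mem_insertNone⟩, ?_, ?_⟩
    · have h2 := rawC_val C S none C.out w C.size (fun g _ hgm => ⟨by simp, hSmem g hgm⟩)
        C.out.val C.out.isLt C.out.isLt le_rfl
      exact h2.trans h0
    · have h2 := rawC_val C S none C.out w' C.size (fun g _ hgm =>
        ⟨by simp, by rw [← hsame g hgm]; exact hSmem g hgm⟩) C.out.val C.out.isLt C.out.isLt le_rfl
      exact h2.trans h1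

end CircuitFamily

/-- Copies of `f` in the function computed by a circuit with NOT gates: `f` has a shallow
circuit without NOT gates. -/
theorem circuit_copies {n m : ℕ} (C : Circuit n) (B : ℕ)
    (hB : 2 ^ C.negations * (C.negations + 1) < B) (f : (Fin m → Bool) → Bool)
    (hf0 : f (fun _ => false) = false) (φ : ℕ → ℕ → Option (Fin m))
    (H : ∀ j < B, ∀ y : ℕ → Fin m → Bool, (∀ k < j, f (y k) = false) → ∀ z : Fin m → Bool,
      C.eval (rst n (fun p => decide (∃ k < j, (φ k p).elim false (y k) = true) ||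
        (φ j p).elim false z)) = f z) :
    ∃ D : Circuit m, (∀ z, D.eval z = f z) ∧ Pos D ∧
      D.depth ≤ C.depth + 1 + 2 * C.negations ∧
      D.size + 1 ≤ 2 ^ (2 * C.negations) * (C.size + 2) := by
  classical
  obtain ⟨j, hj, w, hw⟩ := chain (idxC C) (fun i X => (famC C i).eval (rst n X))
    (fun i _ => circuit_monotone (famC C i) (famC_pos C i)) (fun X => C.eval (rst n X))
    (by
      intro w w' hle h0 h1
      exact separateC C (rst n w) (rst n w') (fun i => hle i.val) h0 h1)
    (fun z => f (rst m z)) hf0 (fun j z p => (φ j p).elim false (rst m z))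
    (by
      intro j
      funext p
      cases φ j p <;> rfl)
    B (lt_of_le_of_lt (card_idxC C) hB)
    (fun j hj y hy z => H j hj (fun k => rst m (y k)) hy (rst m z))
  let σ : Fin n → Bool ⊕ Fin m := fun p => if w p.val = true then Sum.inl true else
    (φ j p.val).elim (Sum.inl false) (fun q => Sum.inr q)
  have hσ : ∀ z : Fin m → Bool, (fun i => Sum.elim (fun b => b) z (σ i)) =
      rst n (fun p => w p || (φ j p).elim false z) := by
    intro z
    funext p
    unfold rst
    by_cases hp : w p.val = true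
    · simp [σ, hp]
    · have hp' : w p.val = false := by simpa using hp
      simp only [σ, hp', Bool.false_or]
      cases φ j p.val <;> simp
  let I := (idxC C).filter (fun i => (famC C i).eval (rst n w) = false)
  have hI : ∀ i ∈ I, i ∈ idxC C := fun i hi => (Finset.mem_filter.mp hi).1
  have hlen : (I.toList.map (fun i => subC σ (famC C i))).length ≤ 2 ^ (2 * C.negations) := by
    rw [List.length_map, Finset.length_toList]
    calc I.card ≤ (idxC C).card := Finset.card_le_card (Finset.filter_subset _ _)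
      _ ≤ 2 ^ C.negations * (C.negations + 1) := card_idxC C
      _ ≤ 2 ^ C.negations * 2 ^ C.negations := Nat.mul_le_mul_left _ (Nat.lt_two_pow_self)
      _ = _ := by rw [← pow_add]; congr 1; ring
  obtain ⟨D, h1, h2, h3, h4⟩ := exists_orC C.size C.depth (2 * C.negations)
    (I.toList.map (fun i => subC σ (famC C i))) hlen (by
      intro D hD
      rw [List.mem_map] at hD
      obtain ⟨i, hi, rfl⟩ := hD
      rw [Finset.mem_toList] at hi
      refine ⟨subC_pos _ _ (famC_pos C i), ?_, le_trans (subC_depth _ _) (famC_depth C i (hI i hi))⟩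
      change (famC C i).size ≤ _
      rw [famC_size])
  refine ⟨D, fun z => ?_, h1, h3, h2⟩
  rw [h4 z]
  apply Bool.eq_iff_iff.mpr
  have h5 := hw (ext z)
  simp only [rst_ext] at h5
  rw [h5, List.any_eq_true]
  constructor
  · rintro ⟨D', hD', hv⟩
    rw [List.mem_map] at hD'
    obtain ⟨i, hi, rfl⟩ := hD'
    rw [Finset.mem_toList] at hi
    rw [subC_eval, hσ] at hv
    exact ⟨i, hI i hi, (Finset.mem_filter.mp hi).2, hv⟩
  · rintro ⟨i, hi, h6, h7⟩
    have hiI : i ∈ I := Finset.mem_filter.mpr ⟨hi, h6⟩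
    refine ⟨subC σ (famC C i), List.mem_map.mpr ⟨i, Finset.mem_toList.mpr hiI, rfl⟩, ?_⟩
    rw [subC_eval, hσ]
    exact h7

/-! ## The disjunction of disjoint copies -/

/-- number of copies -/
def nb (r : ℕ → ℕ) (n : ℕ) : ℕ := 2 ^ (r n) * (r n + 1) + 1

/-- number of variables of a copy -/
def mb (r : ℕ → ℕ) (n : ℕ) : ℕ := n / nb r n

/-- the disjunction of the values of `f` on disjoint blocks of variables -/
def copies (f : (n : ℕ) → (Fin n → Bool) → Bool) (r : ℕ → ℕ) (n : ℕ) (x : Fin n → Bool) : Bool :=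
  decide (∃ j < min (nb r n) (n + 1),
    f (mb r n) (rst (mb r n) (fun p => ext x (j * mb r n + p))) = true)

lemma nb_pos (r : ℕ → ℕ) (n : ℕ) : 0 < nb r n := Nat.succ_pos _

lemma nb_mul_mb (r : ℕ → ℕ) (n : ℕ) : nb r n * mb r n ≤ n := Nat.mul_div_le _ _

lemma mb_le (r : ℕ → ℕ) (n : ℕ) : mb r n ≤ n := Nat.div_le_self _ _

/-- the block of position `p` -/
def blk (m j p : ℕ) : Option (Fin m) :=
  if h : j * m ≤ p ∧ p - j * m < m then some ⟨p - j * m, h.2⟩ else none

lemma blk_elim (m j p : ℕ) (z : Fin m → Bool) :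
    (blk m j p).elim false z = (decide (j * m ≤ p) && ext z (p - j * m)) := by
  unfold blk ext
  by_cases h1 : j * m ≤ p
  · by_cases h2 : p - j * m < m
    · simp [h1, h2]
    · simp [h2]
  · simp [h1]

lemma blk_same (m j q : ℕ) (z : Fin m → Bool) (hq : q < m) :
    (blk m j (j * m + q)).elim false z = z ⟨q, hq⟩ := by
  rw [blk_elim]
  have e : j * m + q - j * m = q := by omega
  rw [e]
  simp [ext, hq]

lemma blk_other (m j k q : ℕ) (z : Fin m → Bool) (hq : q < m) (hjk : j ≠ k) :
    (blk m k (j * m + q)).elim false z = false := by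
  rw [blk_elim]
  rcases lt_or_gt_of_ne hjk with h | h
  · have h1 : (j + 1) * m ≤ k * m := Nat.mul_le_mul_right _ h
    have h2 : ¬ (k * m ≤ j * m + q) := by
      rw [add_mul, one_mul] at h1
      omega
    simp [h2]
  · have h1 : (k + 1) * m ≤ j * m := Nat.mul_le_mul_right _ h
    rw [add_mul, one_mul] at h1
    have h2 : ¬ (j * m + q - k * m < m) := by omega
    simp [ext, h2]

theorem copies_spec' {m : ℕ} (f : (Fin m → Bool) → Bool) (N n : ℕ) (hmn : N * m ≤ n)
    (hf0 : f (fun _ => false) = false) (j : ℕ) (hj : j < N)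
    (y : ℕ → Fin m → Bool) (hy : ∀ k < j, f (y k) = false) (z : Fin m → Bool) :
    decide (∃ i < N, f (rst m (fun p => ext (rst n (fun p =>
      decide (∃ k < j, (blk m k p).elim false (y k) = true) ||
      (blk m j p).elim false z)) (i * m + p))) = true) = f z := by
  classical
  set X : ℕ → Bool := fun p => decide (∃ k < j, (blk m k p).elim false (y k) = true) ||
      (blk m j p).elim false z with hX
  have hext : ∀ p < n, ext (rst n X) p = X p := by
    intro p hp
    simp [ext, rst, hp]
  have hblk : ∀ i < N, (rst m (fun p => ext (rst n X) (i * m + p)))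
      = if i < j then y i else if i = j then z else fun _ => false := by
    intro i hi
    funext q
    have hq := q.isLt
    have h1 : (i + 1) * m ≤ N * m := Nat.mul_le_mul_right _ hi
    have h2 : i * m + q.val < n := by
      rw [add_mul, one_mul] at h1
      omega
    change ext (rst n X) (i * m + q.val) = _
    rw [hext _ h2, hX]
    simp only
    by_cases hij : i < j
    · rw [if_pos hij, blk_other m i j q.val z hq (by omega), Bool.or_false]
      apply Bool.eq_iff_iff.mpr
      rw [decide_eq_true_eq]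
      constructor
      · rintro ⟨k, hk, h⟩
        by_cases hki : i = k
        · subst hki
          rw [blk_same m i q.val (y i) hq] at h
          exact h
        · rw [blk_other m i k q.val (y k) hq hki] at h
          exact absurd h (by simp)
      · intro h
        exact ⟨i, hij, by rw [blk_same m i q.val (y i) hq]; exact h⟩
    · have hnone : ¬ ∃ k < j, (blk m k (i * m + q.val)).elim false (y k) = true := by
        rintro ⟨k, hk, h⟩
        rw [blk_other m i k q.val (y k) hq (by omega)] at h
        exact absurd h (by simp)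
      rw [if_neg hij, decide_eq_false hnone, Bool.false_or]
      by_cases hij2 : i = j
      · rw [if_pos hij2, ← hij2, blk_same m i q.val z hq]
      · rw [if_neg hij2, blk_other m i j q.val z hq hij2]
  apply Bool.eq_iff_iff.mpr
  rw [decide_eq_true_eq]
  constructor
  · rintro ⟨i, hi, h⟩
    rw [hblk i hi] at h
    by_cases hij : i < j
    · rw [if_pos hij, hy i hij] at h
      exact absurd h (by simp)
    · rw [if_neg hij] at h
      by_cases hij2 : i = j
      · rw [if_pos hij2] at h
        exact h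
      · rw [if_neg hij2, hf0] at h
        exact absurd h (by simp)
  · intro h
    refine ⟨j, hj, ?_⟩
    rw [hblk j hj, if_neg (lt_irrefl _), if_pos rfl]
    exact h

theorem copies_spec (f : (n : ℕ) → (Fin n → Bool) → Bool) (r : ℕ → ℕ) (n : ℕ) (hn : nb r n ≤ n)
    (hf0 : f (mb r n) (fun _ => false) = false) (j : ℕ) (hj : j < nb r n)
    (y : ℕ → Fin (mb r n) → Bool) (hy : ∀ k < j, f (mb r n) (y k) = false)
    (z : Fin (mb r n) → Bool) :
    copies f r n (rst n (fun p => decide (∃ k < j, (blk (mb r n) k p).elim false (y k) = true) ||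
      (blk (mb r n) j p).elim false z)) = f (mb r n) z := by
  have h := copies_spec' (f (mb r n)) (nb r n) n (nb_mul_mb r n) hf0 j hj y hy z
  have e : min (nb r n) (n + 1) = nb r n := min_eq_left (by omega)
  unfold copies
  rw [e]
  exact h

/-! ### Upper bounds -/

lemma min_le_pow (r : ℕ → ℕ) (n : ℕ) : min (nb r n) (n + 1) ≤ 2 ^ (Nat.log 2 n + 1) := by
  refine le_trans (min_le_right _ _) ?_
  have := Nat.lt_pow_succ_log_self (by norm_num : 1 < 2) n
  omega

lemma two_pow_log_le (n : ℕ) : 2 ^ (Nat.log 2 n + 1) ≤ 2 * (n + 1) := by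
  rcases Nat.eq_zero_or_pos n with h | h
  · subst h; simp
  · have := Nat.pow_log_le_self 2 (by omega : n ≠ 0)
    rw [pow_succ]
    omega

theorem copies_NC (r : ℕ → ℕ) (f : (n : ℕ) → (Fin n → Bool) → Bool) (hf : StConnectivity.MonNC f) :
    NC (fun _ => 0) (copies f r) := by
  obtain ⟨D, hD, ⟨a, c, hs⟩, ⟨a', c', hd⟩⟩ := hf
  have main : ∀ n, ∃ E : Circuit n, (∀ x, E.eval x = copies f r n x) ∧ Pos E ∧
      E.size + 1 ≤ 2 ^ (Nat.log 2 n + 1) * ((D (mb r n)).size + 2) ∧
      E.depth ≤ (D (mb r n)).depth + 1 + (Nat.log 2 n + 1) := by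
    intro n
    set m := mb r n with hm
    let σ : ℕ → Fin m → Bool ⊕ Fin n := fun j i => if h : j * m + i.val < n then
      Sum.inr ⟨j * m + i.val, h⟩ else Sum.inl false
    let A : ℕ → Circuit n := fun j => subC (σ j) (fromCircuit (le_refl m) (D m))
    have hA : ∀ j x, (A j).eval x = f m (rst m (fun p => ext x (j * m + p))) := by
      intro j x
      change (subC (σ j) (fromCircuit (le_refl m) (D m))).eval x = _
      rw [subC_eval]
      have e : (fun i => Sum.elim (fun b => b) x (σ j i)) = rst m (fun p => ext x (j * m + p)) := by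
        funext i
        by_cases h : j * m + i.val < n
        · simp [σ, rst, ext, h]
        · simp [σ, rst, ext, h]
      rw [e, fromCircuit_eval, hD]
    obtain ⟨E, h1, h2, h3, h4⟩ := exists_orC (D m).size (D m).depth (Nat.log 2 n + 1)
      ((List.range (min (nb r n) (n + 1))).map A) (by
        rw [List.length_map, List.length_range]
        exact min_le_pow r n) (by
        intro D' hD'
        rw [List.mem_map] at hD'
        obtain ⟨j, -, rfl⟩ := hD'
        exact ⟨subC_pos _ _ (pos_of_negations (fromCircuit_negations _ _)), le_refl _,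
          le_trans (subC_depth _ _) (fromCircuit_depth _ _)⟩)
    refine ⟨E, fun x => ?_, h1, h2, h3⟩
    rw [h4]
    apply Bool.eq_iff_iff.mpr
    unfold copies
    rw [decide_eq_true_eq, List.any_eq_true]
    constructor
    · rintro ⟨D', hD', hv⟩
      rw [List.mem_map] at hD'
      obtain ⟨j, hj, rfl⟩ := hD'
      rw [List.mem_range] at hj
      rw [hA] at hv
      exact ⟨j, hj, hv⟩
    · rintro ⟨j, hj, hv⟩
      refine ⟨A j, List.mem_map.mpr ⟨j, List.mem_range.mpr hj, rfl⟩, ?_⟩
      rw [hA]
      exact hv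
  choose E hE1 hE2 hE3 hE4 using main
  refine ⟨E, hE1, ?_, ?_, fun n => (hE2 n).negations.le⟩
  · refine polyBounded_of (a + 1 + c + 4) (fun n => ?_)
    have h1 := hs (mb r n)
    simp only at h1
    have h2 := bound_aux a c (mb r n)
    have h3 : (mb r n + 2) ^ (a + 1 + c) ≤ (n + 2) ^ (a + 1 + c) :=
      Nat.pow_le_pow_left (by have := mb_le r n; omega) _
    have h4 : 1 ≤ (n + 2) ^ (a + 1 + c) := Nat.one_le_pow _ _ (by omega)
    have h5 := hE3 n
    have h6 := two_pow_log_le n
    calc (E n).size ≤ 2 ^ (Nat.log 2 n + 1) * ((D (mb r n)).size + 2) := by omega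
      _ ≤ (2 * (n + 1)) * ((n + 2) ^ (a + 1 + c) * 4) := Nat.mul_le_mul h6 (by omega)
      _ = (n + 2) ^ (a + 1 + c) * (8 * (n + 1)) := by ring
      _ ≤ (n + 2) ^ (a + 1 + c) * (n + 2) ^ 4 := by
          apply Nat.mul_le_mul_left
          have hq : 4 * n + 4 ≤ (n + 2) * (n + 2) := by nlinarith
          calc 8 * (n + 1) ≤ 4 * (4 * n + 4) := by omega
            _ ≤ ((n + 2) * (n + 2)) * ((n + 2) * (n + 2)) := Nat.mul_le_mul (by omega) hq
            _ = (n + 2) ^ 4 := by ring
      _ = _ := by rw [← pow_add]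
  · refine polylogBounded_of (a' + 1 + c' + 2) (fun n => ?_)
    have h1 := hd (mb r n)
    simp only at h1
    have h2 := bound_aux a' c' (Nat.log 2 (mb r n))
    have h3 : (Nat.log 2 (mb r n) + 2) ^ (a' + 1 + c') ≤ (Nat.log 2 n + 2) ^ (a' + 1 + c') :=
      Nat.pow_le_pow_left (by have := Nat.log_mono_right (b := 2) (mb_le r n); omega) _
    have h4 : 1 ≤ (Nat.log 2 n + 2) ^ (a' + 1 + c') := Nat.one_le_pow _ _ (by omega)
    set l := Nat.log 2 n with hl
    calc (E n).depth ≤ (D (mb r n)).depth + 1 + (l + 1) := hE4 n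
      _ ≤ (l + 2) ^ (a' + 1 + c') + (l + 2) := by omega
      _ ≤ (l + 2) ^ (a' + 1 + c') * 1 + (l + 2) ^ (a' + 1 + c') * (l + 2) := by nlinarith
      _ = (l + 2) ^ (a' + 1 + c') * (l + 3) := by ring
      _ ≤ (l + 2) ^ (a' + 1 + c') * (l + 2) ^ 2 := by
          apply Nat.mul_le_mul_left
          have : (l + 2) ^ 2 = (l + 2) * (l + 2) := by ring
          rw [this]
          nlinarith
      _ = _ := by rw [← pow_add]

open SCup in
theorem copies_SC (r : ℕ → ℕ) (f : (n : ℕ) → (Fin n → Bool) → Bool)
    (hf : MonotoneSeparation.MonSC f) : SC (fun _ => 0) (copies f r) := by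
  obtain ⟨D, hD, ⟨a, c, hs⟩, ⟨a', c', hd⟩⟩ := hf
  have main : ∀ n, ∃ E : Layered n, (∀ x, E.eval x = copies f r n x) ∧ E.negations = 0 ∧
      E.maxWidth ≤ 2 * (D (mb r n)).maxWidth + 3 ∧
      E.size ≤ ((n + 1) * (3 * (D (mb r n)).size + 1) + 1) * (2 * (D (mb r n)).maxWidth + 3) := by
    intro n
    set m := mb r n with hm
    set W := (D m).maxWidth with hW
    have hw : ∀ i, i ≤ (D m).layers → (D m).width i ≤ W := by
      intro i hi
      rcases i with _ | i
      · rw [(D m).width_zero]; exact Nat.zero_le _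
      · exact Finset.le_sup (f := fun j => (D m).width (j + 1)) (Finset.mem_range.mpr (by omega))
    let σ : ℕ → ℕ → Bool ⊕ ℕ := fun j p => if j * m + p < n then Sum.inr (j * m + p)
      else Sum.inl false
    let P : ℕ → List Ins × ℕ := fun j => ((progP (D m) W (D m).layers).map (subI (σ j)),
      bk W (D m).layers + (D m).out.val)
    have hσ : ∀ (x : Fin n → Bool) (j : ℕ), rst m (sX (σ j) (ext x))
        = rst m (fun p => ext x (j * m + p)) := by
      intro x j
      funext q
      by_cases h : j * m + q.val < n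
      · simp [σ, rst, ext, sX, h]
      · simp [σ, rst, ext, sX, h]
    have hPv : ∀ j X s, run X s (P j).1 (P j).2 = (D m).eval (rst m (sX (σ j) X)) := by
      intro j X s
      change run X s ((progP (D m) W (D m).layers).map (subI (σ j)))
        (bk W (D m).layers + (D m).out.val) = _
      rw [subI_run]
      exact progP_run (D m) W _ s (D m).layers hw (D m).out
    obtain ⟨E, h1, h2, h3, h4⟩ := exists_orL (2 * W + 2) n (3 * (D m).size)
      ((List.range (min (nb r n) (n + 1))).map P) (fun Q X => run X (fun _ => false) Q.1 Q.2) (by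
        intro Q hQ
        rw [List.mem_map] at hQ
        obtain ⟨j, -, rfl⟩ := hQ
        refine ⟨?_, ?_, ?_, ?_⟩
        · have := bk_lt W (D m).layers (D m).out.val _ (D m).out.isLt (hw _ le_rfl)
          change bk W (D m).layers + (D m).out.val < 2 * W + 2
          omega
        · intro ins hins
          change ins ∈ (progP (D m) W (D m).layers).map (subI (σ j)) at hins
          rw [List.mem_map] at hins
          obtain ⟨ins', hins', rfl⟩ := hins
          have h1 := progP_ok (D m) W (D m).layers hw ins' hins'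
          refine ⟨subI_ok (σ j) _ m n (fun p _ q h => ?_) ins' h1.1, by
            rw [subI_isNot]; exact h1.2⟩
          by_cases hp : j * m + p < n
          · simp only [σ, hp, if_true] at h
            simp at h
            omega
          · simp [σ, hp] at h
        · change ((progP (D m) W (D m).layers).map (subI (σ j))).length ≤ 3 * (D m).size
          rw [List.length_map, progP_length]
          exact le_refl _
        · intro X s
          rw [hPv, hPv])
    refine ⟨E, fun x => ?_, h2, h3, ?_⟩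
    · have h5 := h1 (ext x)
      rw [rst_ext] at h5
      rw [h5]
      apply Bool.eq_iff_iff.mpr
      unfold copies
      rw [decide_eq_true_eq, List.any_eq_true]
      constructor
      · rintro ⟨Q, hQ, hv⟩
        rw [List.mem_map] at hQ
        obtain ⟨j, hj, rfl⟩ := hQ
        rw [List.mem_range] at hj
        rw [hPv, hσ, hD] at hv
        exact ⟨j, hj, hv⟩
      · rintro ⟨j, hj, hv⟩
        refine ⟨P j, List.mem_map.mpr ⟨j, List.mem_range.mpr hj, rfl⟩, ?_⟩
        rw [hPv, hσ, hD]
        exact hv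
    · refine le_trans h4 (Nat.mul_le_mul_right _ (Nat.add_le_add_right (Nat.mul_le_mul_right _ ?_) _))
      rw [List.length_map, List.length_range]
      exact min_le_right _ _
  choose E hE1 hE2 hE3 hE4 using main
  have hw : ∀ n, 2 * (D (mb r n)).maxWidth + 3 ≤ (Nat.log 2 n + 2) ^ (a' + 1 + c' + 3) := by
    intro n
    have h1 := hd (mb r n)
    simp only at h1
    have h2 := bound_aux a' c' (Nat.log 2 (mb r n))
    have h3 : (Nat.log 2 (mb r n) + 2) ^ (a' + 1 + c') ≤ (Nat.log 2 n + 2) ^ (a' + 1 + c') :=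
      Nat.pow_le_pow_left (by have := Nat.log_mono_right (b := 2) (mb_le r n); omega) _
    have h4 : 1 ≤ (Nat.log 2 n + 2) ^ (a' + 1 + c') := Nat.one_le_pow _ _ (by omega)
    set l := Nat.log 2 n with hl
    calc _ ≤ 2 * (l + 2) ^ (a' + 1 + c') + 3 * (l + 2) ^ (a' + 1 + c') := by omega
      _ = (l + 2) ^ (a' + 1 + c') * 5 := by ring
      _ ≤ (l + 2) ^ (a' + 1 + c') * (l + 2) ^ 3 := by
          apply Nat.mul_le_mul_left
          have : 2 ^ 3 ≤ (l + 2) ^ 3 := Nat.pow_le_pow_left (by omega) _
          omega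
      _ = _ := by rw [← pow_add]
  refine ⟨E, hE1, ?_, polylogBounded_of _ (fun n => le_trans (hE3 n) (hw n)),
    fun n => (hE2 n).le⟩
  refine polyBounded_of (1 + (a + 1 + c + 2) + 1 + (a' + 1 + c' + 3)) (fun n => ?_)
  have h1 := hs (mb r n)
  simp only at h1
  have h2 := bound_aux a c (mb r n)
  have h3 : (mb r n + 2) ^ (a + 1 + c) ≤ (n + 2) ^ (a + 1 + c) :=
    Nat.pow_le_pow_left (by have := mb_le r n; omega) _
  have h4 : 1 ≤ (n + 2) ^ (a + 1 + c) := Nat.one_le_pow _ _ (by omega)
  have h5 : 3 * (D (mb r n)).size + 1 ≤ (n + 2) ^ (a + 1 + c + 2) := by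
    calc _ ≤ (n + 2) ^ (a + 1 + c) * 4 := by omega
      _ ≤ (n + 2) ^ (a + 1 + c) * (n + 2) ^ 2 := by
          apply Nat.mul_le_mul_left
          have : 2 ^ 2 ≤ (n + 2) ^ 2 := Nat.pow_le_pow_left (by omega) _
          omega
      _ = _ := by rw [← pow_add]
  have h6 : 2 * (D (mb r n)).maxWidth + 3 ≤ (n + 2) ^ (a' + 1 + c' + 3) :=
    le_trans (hw n) (Nat.pow_le_pow_left (by have := Nat.log_le_self 2 n; omega) _)
  have h7 : (n + 1) * (3 * (D (mb r n)).size + 1) + 1 ≤ (n + 2) ^ (1 + (a + 1 + c + 2) + 1) := by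
    have h8 : 1 ≤ (n + 2) ^ (a + 1 + c + 2) := Nat.one_le_pow _ _ (by omega)
    calc _ ≤ (n + 1) * (n + 2) ^ (a + 1 + c + 2) + (n + 2) ^ (a + 1 + c + 2) :=
          Nat.add_le_add (Nat.mul_le_mul_left _ h5) h8
      _ = (n + 2) ^ (1 + (a + 1 + c + 2)) * 1 := by
          have e : (n + 2) ^ (1 + (a + 1 + c + 2)) = (n + 2) * (n + 2) ^ (a + 1 + c + 2) := by
            rw [add_comm 1, pow_succ']
          rw [e]; ring
      _ ≤ (n + 2) ^ (1 + (a + 1 + c + 2)) * (n + 2) := Nat.mul_le_mul_left _ (by omega)
      _ = _ := by rw [← pow_succ]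
  calc (E n).size ≤ ((n + 1) * (3 * (D (mb r n)).size + 1) + 1) * (2 * (D (mb r n)).maxWidth + 3) :=
        hE4 n
    _ ≤ (n + 2) ^ (1 + (a + 1 + c + 2) + 1) * (n + 2) ^ (a' + 1 + c' + 3) := Nat.mul_le_mul h7 h6
    _ = _ := by rw [← pow_add]

/-! ## Growth of the blocks -/

/-- The number of variables of a block is `2 ^ ω((log n) ^ δ)`. -/
theorem growthC (r : ℕ → ℕ) (δ : ℝ) (hδ : 0 < δ)
    (hr : Tendsto (fun n : ℕ => (Real.logb 2 n - r n) / (Real.logb 2 n) ^ δ) atTop atTop)
    (k : ℕ) (hk : 1 ≤ δ * k) (K : ℕ) : ∀ᶠ n in atTop, nb r n ≤ n ∧ K ≤ Nat.log 2 (mb r n) ∧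
      K * (Nat.log 2 n + 1) ≤ (Nat.log 2 (mb r n)) ^ k := by
  have hlog : Tendsto (fun n : ℕ => Real.logb 2 (n : ℝ)) atTop atTop :=
    (Real.tendsto_logb_atTop (by norm_num)).comp tendsto_natCast_atTop_atTop
  have hlo : ∀ᶠ x : ℝ in atTop, Real.log x ≤ x ^ δ := by
    have h := (isLittleO_log_rpow_atTop hδ).bound (by norm_num : (0 : ℝ) < 1)
    filter_upwards [h, eventually_ge_atTop 1] with x hx hx1
    rw [one_mul, Real.norm_eq_abs, Real.norm_eq_abs, abs_of_nonneg (Real.log_nonneg hx1),
      abs_of_nonneg (Real.rpow_nonneg (by linarith) _)] at hx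
    exact hx
  filter_upwards [hr.eventually_ge_atTop ((K : ℝ) + 10), hlog.eventually_ge_atTop 1,
    hlog.eventually_ge_atTop (K : ℝ), hlog.eventually hlo, eventually_ge_atTop 2]
    with n h1 h2 h2K h2l h3
  set L := Real.logb 2 (n : ℝ) with hL
  have hn0 : (0 : ℝ) < n := by exact_mod_cast (by omega : 0 < n)
  have hK : (0 : ℝ) ≤ K := Nat.cast_nonneg K
  set T := L ^ δ with hT
  have hT1 : 1 ≤ T := Real.one_le_rpow h2 hδ.le
  have h4 : ((K : ℝ) + 10) * T ≤ L - r n := by
    rwa [le_div_iff₀ (by linarith)] at h1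
  set l := Nat.log 2 n with hl
  have hl1 : (l : ℝ) ≤ L := by
    rw [hL, Real.le_logb_iff_rpow_le (by norm_num) hn0, Real.rpow_natCast]
    exact_mod_cast Nat.pow_log_le_self 2 (by omega : n ≠ 0)
  have hl2 : L < (l : ℝ) + 1 := by
    rw [hL, Real.logb_lt_iff_lt_rpow (by norm_num) hn0]
    have : n < 2 ^ (l + 1) := Nat.lt_pow_succ_log_self (by norm_num) n
    have h5 : (n : ℝ) < 2 ^ (l + 1) := by exact_mod_cast this
    calc (n : ℝ) < 2 ^ (l + 1) := h5
      _ = (2 : ℝ) ^ ((l : ℝ) + 1) := by
          rw [show (l : ℝ) + 1 = ((l + 1 : ℕ) : ℝ) by push_cast; ring, Real.rpow_natCast]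
  set lg := Nat.log 2 (r n + 1) with hlg
  have hrL : (r n : ℝ) + 1 ≤ L := by nlinarith
  -- the logarithm of `r n + 1` is small
  have hlgT : (lg : ℝ) ≤ 2 * T := by
    have e1 : ((2 : ℝ)) ^ lg ≤ (r n : ℝ) + 1 := by
      exact_mod_cast Nat.pow_log_le_self 2 (by omega : r n + 1 ≠ 0)
    have e2 : (lg : ℝ) * Real.log 2 ≤ Real.log L := by
      rw [← Real.log_pow]
      exact Real.log_le_log (by positivity) (le_trans e1 hrL)
    have e3 : (0.5 : ℝ) ≤ Real.log 2 := by
      have := Real.log_two_gt_d9
      linarith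
    have e4 : (0 : ℝ) ≤ lg := Nat.cast_nonneg lg
    nlinarith
  have hnb : nb r n ≤ 2 ^ (r n + lg + 2) := by
    unfold nb
    have e1 : r n + 1 < 2 ^ (lg + 1) := Nat.lt_pow_succ_log_self (by norm_num) _
    have e2 : 1 ≤ 2 ^ (r n + lg + 1) := Nat.one_le_two_pow
    calc 2 ^ r n * (r n + 1) + 1 ≤ 2 ^ r n * 2 ^ (lg + 1) + 2 ^ (r n + lg + 1) :=
          Nat.add_le_add (Nat.mul_le_mul_left _ e1.le) e2
      _ = 2 ^ (r n + lg + 2) := by rw [← pow_add, pow_succ 2 (r n + lg + 1)]; ring
  -- the exponent
  have h6 : ((K : ℝ) + 5) * T ≤ (l : ℝ) - r n - lg - 2 := by nlinarith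
  have h7 : r n + lg + 2 ≤ l := by
    have : (r n : ℝ) + lg + 2 ≤ l := by nlinarith
    exact_mod_cast this
  have hnl : 2 ^ l ≤ n := Nat.pow_log_le_self 2 (by omega : n ≠ 0)
  have h8 : 2 ^ (l - (r n + lg + 2)) ≤ mb r n := by
    unfold mb
    rw [Nat.le_div_iff_mul_le (nb_pos r n)]
    calc 2 ^ (l - (r n + lg + 2)) * nb r n ≤ 2 ^ (l - (r n + lg + 2)) * 2 ^ (r n + lg + 2) :=
          Nat.mul_le_mul_left _ hnb
      _ = 2 ^ l := by rw [← pow_add]; congr 1; omega
      _ ≤ n := hnl
  have h9 : l - (r n + lg + 2) ≤ Nat.log 2 (mb r n) := Nat.le_log_of_pow_le (by norm_num) h8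
  have h10 : ((K : ℝ) + 5) * T ≤ Nat.log 2 (mb r n) := by
    have e : ((l - (r n + lg + 2) : ℕ) : ℝ) = (l : ℝ) - r n - lg - 2 := by
      rw [Nat.cast_sub (by omega)]
      push_cast
      ring
    have h11 : ((l - (r n + lg + 2) : ℕ) : ℝ) ≤ Nat.log 2 (mb r n) := by exact_mod_cast h9
    rw [e] at h11
    linarith
  refine ⟨le_trans hnb (le_trans (Nat.pow_le_pow_right (by norm_num) h7) hnl), ?_, ?_⟩
  · have : (K : ℝ) ≤ Nat.log 2 (mb r n) := by nlinarith
    exact_mod_cast this
  · have hk0 : k ≠ 0 := by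
      rintro rfl
      norm_num at hk
    have h12 : (((K : ℝ) + 5) * T) ^ k ≤ (Nat.log 2 (mb r n) : ℝ) ^ k :=
      pow_le_pow_left₀ (by positivity) h10 k
    have h13 : (K : ℝ) + 5 ≤ ((K : ℝ) + 5) ^ k := le_self_pow₀ (by linarith) hk0
    have h14 : L ≤ T ^ k := by
      rw [hT, ← Real.rpow_natCast, ← Real.rpow_mul (by linarith)]
      calc L = L ^ (1 : ℝ) := (Real.rpow_one L).symm
        _ ≤ L ^ (δ * k) := Real.rpow_le_rpow_of_exponent_le h2 hk
    have h15 : ((K : ℝ) + 5) * L ≤ (Nat.log 2 (mb r n) : ℝ) ^ k := by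
      rw [mul_pow] at h12
      refine le_trans ?_ h12
      exact mul_le_mul h13 h14 (by linarith) (by positivity)
    have h16 : ((K * (l + 1) : ℕ) : ℝ) ≤ ((Nat.log 2 (mb r n) ^ k : ℕ) : ℝ) := by
      push_cast
      nlinarith
    exact_mod_cast h16

/-! ## Lower bounds -/

lemma polylog_auxk (a c l l' k : ℕ) (hl : l + 1 ≤ l' ^ k) (hl' : 1 ≤ l') :
    a * l ^ c + a ≤ 2 * a * l' ^ (k * c) := by
  have h1 : l ^ c ≤ (l' ^ k) ^ c := Nat.pow_le_pow_left (by omega) _
  rw [← pow_mul] at h1
  have h2 : 1 ≤ l' ^ (k * c) := Nat.one_le_pow _ _ hl'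
  calc a * l ^ c + a = a * l ^ c + a * 1 := by rw [mul_one]
    _ ≤ a * l' ^ (k * c) + a * l' ^ (k * c) :=
        Nat.add_le_add (Nat.mul_le_mul_left _ h1) (Nat.mul_le_mul_left _ h2)
    _ = 2 * a * l' ^ (k * c) := by ring

lemma neg_lt_nb (r : ℕ → ℕ) (n t : ℕ) (ht : t ≤ r n) : 2 ^ t * (t + 1) < nb r n := by
  unfold nb
  have : 2 ^ t * (t + 1) ≤ 2 ^ (r n) * (r n + 1) :=
    Nat.mul_le_mul (Nat.pow_le_pow_right (by norm_num) ht) (by omega)
  omega

lemma stconn_zero (m : ℕ) (hm : 4 ≤ m) : StConnectivity.stconn m (fun _ => false) = false := by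
  by_contra hne
  have hne' : StConnectivity.stconn m (fun _ => false) = true := by simpa using hne
  have h : Relation.ReflTransGen (StConnectivity.Arc m (fun _ => false)) 0 (Nat.sqrt m - 1) := by
    classical
    exact of_decide_eq_true hne'
  have h2 : 2 ≤ Nat.sqrt m := by
    rw [Nat.le_sqrt]; omega
  rcases Relation.ReflTransGen.cases_head h with h1 | ⟨v, h1, _⟩
  · omega
  · obtain ⟨_, _, _, h3⟩ := h1
    exact absurd h3 (by simp)

theorem copies_not_SC (r : ℕ → ℕ)
    (hr : Tendsto (fun n : ℕ => (Real.logb 2 n - r n) / Real.sqrt (Real.logb 2 n)) atTop atTop) :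
    ¬ SC r (copies StConnectivity.stconn r) := by
  rintro ⟨C, hC, ⟨a, c, hs⟩, ⟨a', c', hd⟩, hneg⟩
  obtain ⟨b, hb⟩ : ∃ b, b = 2000 := ⟨_, rfl⟩
  obtain ⟨L0, hL0⟩ := pow_lt_two_pow ((4 * a' + 3) ^ 100) (2 * c' * 100)
  have hr' : Tendsto (fun n : ℕ => (Real.logb 2 n - r n) / (Real.logb 2 n) ^ (1 / 2 : ℝ))
      atTop atTop := by
    simpa only [Real.sqrt_eq_rpow] using hr
  obtain ⟨n, ⟨h1, h2, h3⟩, h4⟩ := ((growthC r (1 / 2) (by norm_num) hr' 2 (by norm_num)
    (b * (a + c + 6) + 400 + L0)).and (eventually_ge_atTop 2)).exists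
  set l := Nat.log 2 n with hl
  set m := mb r n with hm
  set l' := Nat.log 2 m with hl'
  have hl1 : 1 ≤ l := by
    rw [hl]; exact Nat.le_log_of_pow_le (by norm_num) (by simpa using h4)
  have hl'1 : 1 ≤ l' := by omega
  have hll : l + 1 ≤ l' ^ 2 := by
    refine le_trans ?_ h3
    calc l + 1 = 1 * (l + 1) := by rw [one_mul]
      _ ≤ _ := Nat.mul_le_mul_right _ (by omega)
  have hm0 : m ≠ 0 := by
    intro h0
    rw [h0] at hl'
    simp at hl'
    omega
  have hml : 2 ^ l' ≤ m := Nat.pow_log_le_self 2 hm0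
  have hm4 : 4 ≤ m := le_trans (by
    calc 4 = 2 ^ 2 := by norm_num
      _ ≤ 2 ^ l' := Nat.pow_le_pow_right (by norm_num) (by omega)) hml
  have hf0 := stconn_zero m hm4
  obtain ⟨D, hD1, hD2, hD3, hD4⟩ := layered_copies (C n) (nb r n) (neg_lt_nb r n _ (hneg n))
    (StConnectivity.stconn m) hf0 (blk m) (fun j hj y hy z => by
      rw [hC]
      exact copies_spec StConnectivity.stconn r n h1 hf0 j hj y hy z)
  obtain ⟨D', hD'1, hD'2, hD'3⟩ := layered_to_mon (m := m) (r := 0) D hD2.le
    (StConnectivity.stconn m) (fun X => by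
      rw [hD1]; rfl)
  have hw : 2 * (C n).maxWidth + 3 ≤ (4 * a' + 3) * l' ^ (2 * c') := by
    have h5 := le_trans (hd n) (polylog_auxk a' c' l l' 2 hll hl'1)
    simp only at h5
    have h6 : 1 ≤ l' ^ (2 * c') := Nat.one_le_pow _ _ hl'1
    calc 2 * (C n).maxWidth + 3 ≤ 2 * (2 * a' * l' ^ (2 * c')) + 3 * l' ^ (2 * c') := by omega
      _ = _ := by ring
  have hw100 : (2 * (C n).maxWidth + 3) ^ 100 ≤ m := by
    calc _ ≤ ((4 * a' + 3) * l' ^ (2 * c')) ^ 100 := Nat.pow_le_pow_left hw _
      _ = (4 * a' + 3) ^ 100 * l' ^ (2 * c' * 100) := by rw [mul_pow (4 * a' + 3), ← pow_mul]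
      _ ≤ 2 ^ l' := (hL0 l' (by omega)).le
      _ ≤ m := hml
  have hwidth : D'.maxWidth ^ 100 ≤ m := by
    rw [hD'3]
    exact le_trans (Nat.pow_le_pow_left hD3 _) hw100
  have hn : n < 2 ^ (l + 1) := Nat.lt_pow_succ_log_self (by norm_num) n
  have hwn : 2 * (C n).maxWidth + 3 ≤ 2 ^ (l + 1) := by
    calc 2 * (C n).maxWidth + 3 = (2 * (C n).maxWidth + 3) ^ 1 := (pow_one _).symm
      _ ≤ (2 * (C n).maxWidth + 3) ^ 100 := Nat.pow_le_pow_right (by omega) (by norm_num)
      _ ≤ m := hw100
      _ ≤ n := mb_le r n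
      _ ≤ _ := hn.le
  have h5 := StConnectivity.stconn_tradeoff m (by omega) D' hD'1 hwidth b hb.ge
  have h6 : D'.size ≤ 2 ^ ((a + c + 6) * (l + 1)) := by
    rw [hD'2]
    have hsz := le_trans (hs n) (size_aux a c n)
    rw [← hl] at hsz
    simp only at hsz
    set A := 2 ^ ((a + c + 1) * (l + 1)) with hA
    have hA1 : 1 ≤ A := Nat.one_le_two_pow
    have ht : 2 ^ (C n).negations * ((C n).negations + 1) ≤ 2 ^ (l + 1) := by
      have := neg_lt_nb r n _ (hneg n)
      omega
    have hP1 : 1 ≤ 2 ^ (l + 1) := Nat.one_le_two_pow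
    calc D.size ≤ _ := hD4
      _ ≤ (2 ^ (l + 1) * (3 * A + 1) + 1) * 2 ^ (l + 1) := by gcongr
      _ ≤ (2 ^ (l + 1) * (4 * A) + 2 ^ (l + 1) * (4 * A)) * 2 ^ (l + 1) := by
          apply Nat.mul_le_mul_right
          have e1 : 2 ^ (l + 1) * (3 * A + 1) ≤ 2 ^ (l + 1) * (4 * A) :=
            Nat.mul_le_mul_left _ (by omega)
          have e2 : 1 ≤ 2 ^ (l + 1) * (4 * A) := Nat.mul_pos hP1 (by omega)
          omega
      _ = 2 ^ 3 * A * 2 ^ (l + 1) * 2 ^ (l + 1) := by ring
      _ = 2 ^ (3 + (a + c + 1) * (l + 1) + (l + 1) + (l + 1)) := by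
          rw [hA, pow_add 2 (3 + (a + c + 1) * (l + 1) + (l + 1)),
            pow_add 2 (3 + (a + c + 1) * (l + 1)) (l + 1), pow_add 2 3]
      _ ≤ 2 ^ ((a + c + 6) * (l + 1)) := by
          apply Nat.pow_le_pow_right (by norm_num)
          have : (a + c + 6) * (l + 1) = (a + c + 1) * (l + 1) + 5 * (l + 1) := by ring
          omega
  have h7 : 2 ^ (l' * l') ≤ 2 ^ ((a + c + 6) * (l + 1) * b) := by
    calc 2 ^ (l' * l') = (2 ^ l') ^ l' := by rw [pow_mul]
      _ ≤ m ^ l' := Nat.pow_le_pow_left hml _
      _ ≤ D'.size ^ b := h5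
      _ ≤ (2 ^ ((a + c + 6) * (l + 1))) ^ b := Nat.pow_le_pow_left h6 _
      _ = _ := by rw [← pow_mul]
  have h8 := (Nat.pow_le_pow_iff_right (by norm_num : 1 < 2)).mp h7
  have h9 : (b * (a + c + 6) + 400 + L0) * (l + 1) = (a + c + 6) * (l + 1) * b + (400 + L0) * (l + 1) := by
    ring
  have h10 : l' ^ 2 = l' * l' := by ring
  have h11 : 1 ≤ (400 + L0) * (l + 1) := Nat.one_le_iff_ne_zero.mpr (by positivity)
  omega

/-- monotone layered circuits compute monotone functions -/
lemma monSC_zero (f : (n : ℕ) → (Fin n → Bool) → Bool) (hf : MonotoneSeparation.MonSC f) (m : ℕ)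
    (h0 : f m (fun _ => false) = true) (x : Fin m → Bool) : f m x = true := by
  obtain ⟨D, hD, -, -⟩ := hf
  obtain ⟨K, hK⟩ := sc_up
  obtain ⟨E, hE, -, -, hE0⟩ := hK m 0 m (by simp) (D m)
  have hmono : Monotone (fun X : ℕ → Bool => E.eval (rst m X)) := by
    apply layered_mono E (fun X => X) monotone_id E.layers (fun j g hn hj => ?_) E.layers le_rfl E.out
    exfalso
    have h1 : E.negations = 0 := Nat.le_zero.mp hE0
    unfold Layered.negations at h1
    rw [Finset.sum_eq_zero_iff] at h1
    have h2 := h1 j (Finset.mem_range.mpr hj)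
    rw [Finset.card_eq_zero, Finset.filter_eq_empty_iff] at h2
    exact h2 (Finset.mem_univ g) hn
  have h1 : (fun _ => false : ℕ → Bool) ≤ ext x := fun p => Bool.false_le _
  have h2 := hmono h1
  simp only at h2
  rw [hE, hE] at h2
  simp only [Function.iterate_zero, id] at h2
  rw [hD, hD, rst_ext] at h2
  have h3 : rst m (fun _ => false) = fun _ => false := rfl
  rw [h3, h0] at h2
  exact le_antisymm (Bool.le_true _) h2

lemma two_pow_neg_le (r : ℕ → ℕ) (n t : ℕ) (ht : t ≤ r n) (hn : nb r n ≤ n) : 2 ^ t ≤ n := by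
  have h1 := neg_lt_nb r n t ht
  have h2 : 2 ^ t * 1 ≤ 2 ^ t * (t + 1) := Nat.mul_le_mul_left _ (by omega)
  omega

theorem copies_not_NC (r : ℕ → ℕ) (δ : ℝ) (hδ : 0 < δ)
    (hr : Tendsto (fun n : ℕ => (Real.logb 2 n - r n) / (Real.logb 2 n) ^ δ) atTop atTop)
    (k : ℕ) (hk : 1 ≤ δ * k)
    (f : (n : ℕ) → (Fin n → Bool) → Bool) (hfm : MonotoneSeparation.MonSC f) (a0 N : ℕ)
    (hf : ∀ n ≥ N, ∀ C : MonotoneSeparation.MonCircuit n, (∀ x, C.eval x = f n x) →
      C.size ≤ 2 ^ (Nat.log 2 n) ^ k → n ≤ C.depth * (Nat.log 2 n) ^ a0) :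
    ¬ NC r (copies f r) := by
  rintro ⟨C, hC, ⟨a, c, hs⟩, ⟨a', c', hd⟩, hneg⟩
  have hk1 : 1 ≤ k := by
    rcases Nat.eq_zero_or_pos k with h | h
    · subst h; norm_num at hk
    · exact h
  obtain ⟨L0, hL0⟩ := pow_lt_two_pow (2 * a' + 4) (k * c' + k + a0)
  obtain ⟨n, ⟨h1, h2, h3⟩, h4⟩ := ((growthC r δ hδ hr k hk (a + c + 6 + N + L0)).and
    (eventually_ge_atTop 2)).exists
  set l := Nat.log 2 n with hl
  set m := mb r n with hm
  set l' := Nat.log 2 m with hl'
  have hl1 : 1 ≤ l := by
    rw [hl]; exact Nat.le_log_of_pow_le (by norm_num) (by simpa using h4)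
  have hl'1 : 1 ≤ l' := by omega
  have hll : l + 1 ≤ l' ^ k := by
    refine le_trans ?_ h3
    calc l + 1 = 1 * (l + 1) := by rw [one_mul]
      _ ≤ _ := Nat.mul_le_mul_right _ (by omega)
  have hm0 : m ≠ 0 := by
    intro h0
    rw [h0] at hl'
    simp at hl'
    omega
  have hml : 2 ^ l' ≤ m := Nat.pow_log_le_self 2 hm0
  have hmN : N ≤ m := by
    calc N ≤ l' := by omega
      _ ≤ 2 ^ l' := (Nat.lt_two_pow_self).le
      _ ≤ m := hml
  have hbig := hL0 l' (by omega)
  have hf0 : f m (fun _ => false) = false := by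
    by_contra hne
    have hft : f m (fun _ => false) = true := by simpa using hne
    let D0 : MonotoneSeparation.MonCircuit m := ⟨1, fun _ => ⟨true, .const true, .const true⟩, 0⟩
    have e1 : ∀ x, D0.eval x = f m x := by
      intro x
      rw [monSC_zero f hfm m hft x]
      unfold MonotoneSeparation.MonCircuit.eval
      rw [MonotoneSeparation.MonCircuit.gateVal]
      rfl
    have e2 : D0.depth ≤ 1 := by
      unfold MonotoneSeparation.MonCircuit.depth
      rw [MonotoneSeparation.MonCircuit.gateDepth]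
      rfl
    have e3 : m ≤ D0.depth * l' ^ a0 := hf m hmN D0 e1 (Nat.one_le_two_pow)
    have e4 : l' ^ a0 ≤ l' ^ (k * c' + k + a0) := Nat.pow_le_pow_right hl'1 (by omega)
    have e5 : D0.depth * l' ^ a0 ≤ 1 * l' ^ a0 := Nat.mul_le_mul_right _ e2
    have e6 : 1 * l' ^ (k * c' + k + a0) ≤ (2 * a' + 4) * l' ^ (k * c' + k + a0) :=
      Nat.mul_le_mul_right _ (by omega)
    omega
  obtain ⟨D, hD1, hD2, hD3, hD4⟩ := circuit_copies (C n) (nb r n) (neg_lt_nb r n _ (hneg n))
    (f m) hf0 (blk m) (fun j hj y hy z => by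
      rw [hC]
      exact copies_spec f r n h1 hf0 j hj y hy z)
  obtain ⟨D', hD'1, hD'2, hD'3⟩ := circuit_to_mon (m := m) (r := 0) D hD2.negations.le
    (f m) (fun X => by
      rw [hD1]; rfl)
  have hn : n < 2 ^ (l + 1) := Nat.lt_pow_succ_log_self (by norm_num) n
  have htn := two_pow_neg_le r n _ (hneg n) h1
  have ht : (C n).negations ≤ l := by
    rw [hl]
    exact Nat.le_log_of_pow_le (by norm_num) htn
  have h6 : D'.size ≤ 2 ^ l' ^ k := by
    rw [hD'2]
    have hsz := le_trans (hs n) (size_aux a c n)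
    rw [← hl] at hsz
    simp only at hsz
    set A := 2 ^ ((a + c + 1) * (l + 1)) with hA
    have hA1 : 1 ≤ A := Nat.one_le_two_pow
    calc D.size ≤ 2 ^ (2 * (C n).negations) * ((C n).size + 2) := by omega
      _ ≤ 2 ^ (2 * l) * (A + 2 * A) :=
          Nat.mul_le_mul (Nat.pow_le_pow_right (by norm_num) (by omega)) (by omega)
      _ ≤ 2 ^ (2 * l) * (2 ^ 2 * A) := Nat.mul_le_mul_left _ (by omega)
      _ = 2 ^ (2 * l + (2 + (a + c + 1) * (l + 1))) := by rw [hA, pow_add, pow_add]
      _ ≤ 2 ^ ((a + c + 6 + N + L0) * (l + 1)) := by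
          apply Nat.pow_le_pow_right (by norm_num)
          have : (a + c + 6 + N + L0) * (l + 1) = (a + c + 1) * (l + 1) + 5 * (l + 1) + (N + L0) * (l + 1) := by
            ring
          have h0 : 0 ≤ (N + L0) * (l + 1) := Nat.zero_le _
          omega
      _ ≤ 2 ^ l' ^ k := Nat.pow_le_pow_right (by norm_num) h3
  have h7 := hf m hmN D' hD'1 h6
  have h8 : D'.depth ≤ (2 * a' + 3) * l' ^ (k * c' + k) := by
    have e1 := le_trans (hd n) (polylog_auxk a' c' l l' k hll hl'1)
    simp only at e1
    have e2 : l' ^ (k * c') ≤ l' ^ (k * c' + k) := Nat.pow_le_pow_right hl'1 (by omega)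
    have e3 : l' ^ k ≤ l' ^ (k * c' + k) := Nat.pow_le_pow_right hl'1 (by omega)
    calc D'.depth ≤ D.depth := hD'3
      _ ≤ (C n).depth + 1 + 2 * (C n).negations := hD3
      _ ≤ 2 * a' * l' ^ (k * c') + 3 * l' ^ k := by omega
      _ ≤ 2 * a' * l' ^ (k * c' + k) + 3 * l' ^ (k * c' + k) :=
          Nat.add_le_add (Nat.mul_le_mul_left _ e2) (Nat.mul_le_mul_left _ e3)
      _ = _ := by ring
  have h9 : m ≤ (2 * a' + 3) * l' ^ (k * c' + k + a0) := by
    calc m ≤ D'.depth * l' ^ a0 := h7
      _ ≤ ((2 * a' + 3) * l' ^ (k * c' + k)) * l' ^ a0 := Nat.mul_le_mul_right _ h8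
      _ = _ := by rw [pow_add _ (k * c' + k)]; ring
  have h10 : (2 * a' + 3) * l' ^ (k * c' + k + a0) ≤ (2 * a' + 4) * l' ^ (k * c' + k + a0) :=
    Nat.mul_le_mul_right _ (by omega)
  omega

/-- The separation for circuits with few NOT gates. -/
theorem result_copies (r : ℕ → ℕ) :
    (Tendsto (fun n : ℕ => (Real.logb 2 n - r n) / Real.sqrt (Real.logb 2 n)) atTop atTop →
      ∃ f : (n : ℕ) → (Fin n → Bool) → Bool, NC (fun _ => 0) f ∧ ¬ SC r f) ∧
    (∀ δ : ℝ, 0 < δ →
      Tendsto (fun n : ℕ => (Real.logb 2 n - r n) / (Real.logb 2 n) ^ δ) atTop atTop →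
      ∃ f : (n : ℕ) → (Fin n → Bool) → Bool, SC (fun _ => 0) f ∧ ¬ NC r f) := by
  refine ⟨fun hr => ⟨copies StConnectivity.stconn r, copies_NC r _ StConnectivity.stconn_monNC,
    copies_not_SC r hr⟩, fun δ hδ hr => ?_⟩
  obtain ⟨k, hk⟩ := exists_nat_ge (1 / δ)
  have hk' : 1 ≤ δ * k := by
    rw [div_le_iff₀ hδ] at hk
    linarith
  obtain ⟨f, hf1, -, a0, N, hf3⟩ := MonotoneSeparation.result k
  exact ⟨copies f r, copies_SC r f hf1, copies_not_NC r δ hδ hr k hk' f hf1 a0 N hf3⟩

/-! ## Copies of small graphs in a large graph -/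

section Graph

open StConnectivity (Arc stconn)

/-- the vertex of the small graph (`M` vertices) which is the vertex `U` of the large graph (`N`
vertices) in copy `k` -/
def inv (N M k U : ℕ) : Option ℕ :=
  if U = 0 then some 0 else if U = N - 1 then some (M - 1)
  else if k * (M - 2) < U ∧ U ≤ (k + 1) * (M - 2) then some (U - k * (M - 2)) else none

/-- the vertex of the large graph which is the vertex `u` of copy `k` -/
def emb (N M k u : ℕ) : ℕ := if u = 0 then 0 else if u = M - 1 then N - 1 else k * (M - 2) + u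

/-- the bit of the input of copy `k` which is read in position `p` -/
def gblk (n m k p : ℕ) : Option (Fin m) :=
  (inv (Nat.sqrt n) (Nat.sqrt m) k (p / Nat.sqrt n)).bind (fun u =>
    (inv (Nat.sqrt n) (Nat.sqrt m) k (p % Nat.sqrt n)).bind (fun v =>
      if h : u * Nat.sqrt m + v < m then some ⟨u * Nat.sqrt m + v, h⟩ else none))

lemma inv_emb (N M k u : ℕ) (hM : 2 ≤ M) (hu : u < M) (hN : (k + 1) * (M - 2) + 2 ≤ N) :
    inv N M k (emb N M k u) = some u := by
  have h0 : k * (M - 2) + (M - 2) = (k + 1) * (M - 2) := by ring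
  unfold emb
  by_cases h1 : u = 0
  · subst h1
    simp [inv]
  · by_cases h2 : u = M - 1
    · rw [if_neg h1, if_pos h2]
      unfold inv
      rw [if_neg (by omega), if_pos rfl, h2]
    · rw [if_neg h1, if_neg h2]
      unfold inv
      rw [if_neg (by omega), if_neg (by omega), if_pos (by constructor <;> omega)]
      congr 1
      omega

lemma inv_lt (N M k U u : ℕ) (hM : 2 ≤ M) (h : inv N M k U = some u) : u < M := by
  unfold inv at h
  have h0 : k * (M - 2) + (M - 2) = (k + 1) * (M - 2) := by ring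
  split at h
  · simp at h; omega
  · split at h
    · simp at h; omega
    · split at h
      · simp at h; omega
      · simp at h

lemma emb_lt (N M k u : ℕ) (hM : 2 ≤ M) (hu : u < M) (hN : (k + 1) * (M - 2) + 2 ≤ N) :
    emb N M k u < N := by
  have h0 : k * (M - 2) + (M - 2) = (k + 1) * (M - 2) := by ring
  unfold emb
  split
  · omega
  · split <;> omega

/-- arcs of the large graph -/
lemma arc_iff (n m j : ℕ) (hm : 4 ≤ m) (hN : (j + 1) * (Nat.sqrt m - 2) + 2 ≤ Nat.sqrt n)
    (y : ℕ → Fin m → Bool) (U V : ℕ) :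
    Arc n (rst n (fun p => decide (∃ k < j, (gblk n m k p).elim false (y k) = true) ||
      (gblk n m j p).elim false (y j))) U V ↔
    U < Nat.sqrt n ∧ V < Nat.sqrt n ∧ ∃ k ≤ j, ∃ u v, inv (Nat.sqrt n) (Nat.sqrt m) k U = some u ∧
      inv (Nat.sqrt n) (Nat.sqrt m) k V = some v ∧ Arc m (y k) u v := by
  set N := Nat.sqrt n with hNdef
  set M := Nat.sqrt m with hMdef
  have hM : 2 ≤ M := by rw [hMdef, Nat.le_sqrt]; omega
  have hMm : M * M ≤ m := Nat.sqrt_le m
  have hNn : N * N ≤ n := Nat.sqrt_le n
  have hNpos : 0 < N := by omega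
  have hbit : ∀ (k : ℕ), U < N → V < N → ∀ z : Fin m → Bool,
      ((gblk n m k (U * N + V)).elim false z = true ↔
        ∃ u v, inv N M k U = some u ∧ inv N M k V = some v ∧ Arc m z u v) := by
    intro k hU hV z
    have e1 : (U * N + V) / N = U := by
      rw [mul_comm, Nat.mul_add_div hNpos, Nat.div_eq_of_lt hV, add_zero]
    have e2 : (U * N + V) % N = V := by
      rw [mul_comm, Nat.mul_add_mod, Nat.mod_eq_of_lt hV]
    unfold gblk
    rw [← hNdef, ← hMdef, e1, e2]
    constructor
    · intro h
      cases hu : inv N M k U with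
      | none => rw [hu] at h; simp at h
      | some u =>
        cases hv : inv N M k V with
        | none => rw [hu, hv] at h; simp at h
        | some v =>
          rw [hu, hv] at h
          simp only [Option.bind_some] at h
          have hu' := inv_lt N M k U u hM hu
          have hv' := inv_lt N M k V v hM hv
          have hlt : u * M + v < m := by
            calc u * M + v < u * M + M := by omega
              _ = (u + 1) * M := by ring
              _ ≤ M * M := Nat.mul_le_mul_right _ hu'
              _ ≤ m := hMm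
          rw [dif_pos hlt] at h
          exact ⟨u, v, rfl, rfl, hu', hv', hlt, h⟩
    · rintro ⟨u, v, hu, hv, h1, h2, h3, h4⟩
      rw [hu, hv]
      simp only [Option.bind_some]
      rw [dif_pos h3]
      exact h4
  constructor
  · rintro ⟨hU, hV, hlt, hb⟩
    refine ⟨hU, hV, ?_⟩
    have hb' : (decide (∃ k < j, (gblk n m k (U * N + V)).elim false (y k) = true) ||
      (gblk n m j (U * N + V)).elim false (y j)) = true := hb
    rw [Bool.or_eq_true, decide_eq_true_eq] at hb'
    rcases hb' with ⟨k, hk, h⟩ | h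
    · obtain ⟨u, v, h1, h2, h3⟩ := (hbit k hU hV _).mp h
      exact ⟨k, hk.le, u, v, h1, h2, h3⟩
    · obtain ⟨u, v, h1, h2, h3⟩ := (hbit j hU hV _).mp h
      exact ⟨j, le_rfl, u, v, h1, h2, h3⟩
  · rintro ⟨hU, hV, k, hk, u, v, h1, h2, h3⟩
    have hlt : U * N + V < n := by
      calc U * N + V < U * N + N := by omega
        _ = (U + 1) * N := by ring
        _ ≤ N * N := Nat.mul_le_mul_right _ hU
        _ ≤ n := hNn
    refine ⟨hU, hV, hlt, ?_⟩
    change (decide (∃ k < j, (gblk n m k (U * N + V)).elim false (y k) = true) ||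
      (gblk n m j (U * N + V)).elim false (y j)) = true
    rw [Bool.or_eq_true, decide_eq_true_eq]
    have h4 := (hbit k hU hV (y k)).mpr ⟨u, v, h1, h2, h3⟩
    rcases Nat.lt_or_ge k j with h | h
    · exact Or.inl ⟨k, h, h4⟩
    · have : k = j := by omega
      subst this
      exact Or.inr h4

theorem graph_copies (n m j : ℕ) (hm : 4 ≤ m) (hN : (j + 1) * (Nat.sqrt m - 2) + 2 ≤ Nat.sqrt n)
    (y : ℕ → Fin m → Bool) (hy : ∀ k < j, stconn m (y k) = false) (z : Fin m → Bool) :
    stconn n (rst n (fun p => decide (∃ k < j, (gblk n m k p).elim false (y k) = true) ||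
      (gblk n m j p).elim false z)) = stconn m z := by
  classical
  let y' : ℕ → Fin m → Bool := fun k => if k < j then y k else z
  have e : (fun p => decide (∃ k < j, (gblk n m k p).elim false (y k) = true) ||
      (gblk n m j p).elim false z) = (fun p => decide (∃ k < j, (gblk n m k p).elim false (y' k) = true) ||
      (gblk n m j p).elim false (y' j)) := by
    funext p
    have h1 : y' j = z := by simp [y']
    rw [h1]
    congr 1
    apply Bool.eq_iff_iff.mpr
    rw [decide_eq_true_eq, decide_eq_true_eq]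
    constructor
    · rintro ⟨k, hk, h⟩
      exact ⟨k, hk, by simp only [y', if_pos hk]; exact h⟩
    · rintro ⟨k, hk, h⟩
      exact ⟨k, hk, by simp only [y', if_pos hk] at h; exact h⟩
  rw [e]
  have harc := arc_iff n m j hm hN y'
  set X : Fin n → Bool := rst n (fun p => decide (∃ k < j, (gblk n m k p).elim false (y' k) = true) ||
      (gblk n m j p).elim false (y' j)) with hX
  set N := Nat.sqrt n with hNdef
  set M := Nat.sqrt m with hMdef
  have hM : 2 ≤ M := by rw [hMdef, Nat.le_sqrt]; omega
  have hN2 : 2 ≤ N := by omega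
  have hz : y' j = z := by simp [y']
  have hjk : ∀ k ≤ j, (k + 1) * (M - 2) + 2 ≤ N := by
    intro k hk
    have : (k + 1) * (M - 2) ≤ (j + 1) * (M - 2) := Nat.mul_le_mul_right _ (by omega)
    omega
  apply Bool.eq_iff_iff.mpr
  unfold stconn
  rw [decide_eq_true_eq, decide_eq_true_eq, ← hNdef, ← hMdef]
  constructor
  · intro hpath
    by_contra hno
    have hall : ∀ k ≤ j, ¬ Relation.ReflTransGen (Arc m (y' k)) 0 (M - 1) := by
      intro k hk h
      rcases Nat.lt_or_ge k j with hlt | hge
      · have h1 := hy k hlt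
        have h2 : y' k = y k := by simp [y', hlt]
        rw [h2] at h
        have h3 : stconn m (y k) = true := by
          unfold stconn
          exact decide_eq_true h
        rw [h1] at h3
        exact absurd h3 (by simp)
      · have : k = j := by omega
        subst this
        rw [hz] at h
        exact hno h
    have hinv : ∀ U, Relation.ReflTransGen (Arc n X) 0 U → U = 0 ∨ (U ≠ N - 1 ∧
        ∃ k ≤ j, ∃ u, inv N M k U = some u ∧ Relation.ReflTransGen (Arc m (y' k)) 0 u) := by
      intro U hU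
      induction hU with
      | refl => exact Or.inl rfl
      | @tail U V _ hUV ih =>
        obtain ⟨hUN, hVN, k', hk', u', v', hu', hv', harc'⟩ := (harc U V).mp hUV
        have hreach : Relation.ReflTransGen (Arc m (y' k')) 0 v' := by
          rcases ih with hU0 | ⟨hUN1, k, hk, u, hu, hr⟩
          · subst hU0
            have h1 : u' = 0 := by
              unfold inv at hu'
              simp at hu'
              omega
            rw [h1] at harc'
            exact Relation.ReflTransGen.single harc'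
          · by_cases hU0 : U = 0
            · subst hU0
              have h1 : u' = 0 := by
                unfold inv at hu'
                simp at hu'
                omega
              rw [h1] at harc'
              exact Relation.ReflTransGen.single harc'
            · unfold inv at hu hu'
              rw [if_neg hU0, if_neg hUN1] at hu hu'
              split at hu
              · rename_i hc
                split at hu'
                · rename_i hc'
                  have hkk : k = k' := by
                    by_contra hne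
                    rcases lt_or_gt_of_ne hne with h | h
                    · have : (k + 1) * (M - 2) ≤ k' * (M - 2) := Nat.mul_le_mul_right _ h
                      omega
                    · have : (k' + 1) * (M - 2) ≤ k * (M - 2) := Nat.mul_le_mul_right _ h
                      omega
                  subst hkk
                  simp at hu hu'
                  rw [hu] at hu'
                  rw [← hu'] at harc'
                  exact hr.tail harc'
                · simp at hu'
              · simp at hu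
        by_cases hV0 : V = 0
        · exact Or.inl hV0
        · refine Or.inr ⟨?_, k', hk', v', hv', hreach⟩
          intro hVN1
          have h1 : v' = M - 1 := by
            unfold inv at hv'
            rw [if_neg hV0, if_pos hVN1] at hv'
            simp at hv'
            omega
          rw [h1] at hreach
          exact hall k' hk' hreach
    rcases hinv _ hpath with h | ⟨h, _⟩
    · omega
    · exact h rfl
  · intro hpath
    rw [← hz] at hpath
    have hlift : ∀ u, Relation.ReflTransGen (Arc m (y' j)) 0 u →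
        Relation.ReflTransGen (Arc n X) (emb N M j 0) (emb N M j u) := by
      intro u hu
      induction hu with
      | refl => exact Relation.ReflTransGen.refl
      | @tail u v _ huv ih =>
        refine ih.tail ?_
        have hu := huv.1
        have hv := huv.2.1
        rw [← hMdef] at hu hv
        rw [harc]
        exact ⟨emb_lt N M j u hM hu hN, emb_lt N M j v hM hv hN, j, le_rfl, u, v,
          inv_emb N M j u hM hu hN, inv_emb N M j v hM hv hN, huv⟩
    have h1 := hlift _ hpath
    have e1 : emb N M j 0 = 0 := by simp [emb]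
    have e2 : emb N M j (M - 1) = N - 1 := by
      unfold emb
      rw [if_neg (by omega), if_pos rfl]
    rw [e1, e2] at h1
    exact h1

/-- A layered circuit with few NOT gates for st-connectivity contains a circuit without NOT gates
for st-connectivity of smaller graphs. -/
theorem stconn_copies {n m : ℕ} (C : Layered n) (hC : ∀ x, C.eval x = stconn n x) (hm : 4 ≤ m)
    (hN : (2 ^ C.negations * (C.negations + 1) + 1) * Nat.sqrt m ≤ Nat.sqrt n) :
    ∃ D : StConnectivity.MonLayered m, (∀ z, D.eval z = stconn m z) ∧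
      D.maxWidth ≤ 2 * C.maxWidth + 3 ∧
      D.size ≤ (2 ^ C.negations * (C.negations + 1) * (3 * C.size + 1) + 1) * (2 * C.maxWidth + 3) := by
  set B := 2 ^ C.negations * (C.negations + 1) + 1 with hB
  set M := Nat.sqrt m with hMdef
  have hM : 2 ≤ M := by rw [hMdef, Nat.le_sqrt]; omega
  have hBpos : 1 ≤ B := Nat.succ_le_succ (Nat.zero_le _)
  have hN' : ∀ j < B, (j + 1) * (M - 2) + 2 ≤ Nat.sqrt n := by
    intro j hj
    have h1 : (j + 1) * (M - 2) ≤ B * (M - 2) := Nat.mul_le_mul_right _ hj
    have h2 : B * (M - 2) + B * 2 = B * M := by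
      rw [← Nat.mul_add]
      congr 1
      omega
    omega
  obtain ⟨D, hD1, hD2, hD3, hD4⟩ := layered_copies C B (Nat.lt_succ_self _)
    (stconn m) (stconn_zero m hm) (gblk n m) (fun j hj y hy z => by
      rw [hC]
      exact graph_copies n m j hm (hN' j hj) y hy z)
  obtain ⟨D', hD'1, hD'2, hD'3⟩ := layered_to_mon (m := m) (r := 0) D hD2.le
    (stconn m) (fun X => by
      rw [hD1]; rfl)
  exact ⟨D', hD'1, by rw [hD'3]; exact hD3, by rw [hD'2]; exact hD4⟩

end Graph

/-! ## st-connectivity: the trade-off -/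

section Tradeoff

open StConnectivity (stconn)

/-- Trade-off between size, width and number of NOT gates. -/
theorem st_tradeoff_neg (n : ℕ) (ε : ℝ) (hε : 8000 ≤ ε * Real.sqrt (Real.logb 2 n))
    (C : Layered n) (hC : ∀ x, C.eval x = stconn n x)
    (ht : (C.negations : ℝ) ≤ (1 / 2 - ε) * Real.logb 2 n)
    (hw : (C.maxWidth : ℝ) ≤ (n : ℝ) ^ (ε / 51)) :
    (n : ℝ) ^ (ε ^ 2 / 501 * Real.logb 2 n) ≤ C.size := by
  obtain ⟨b, hb⟩ : ∃ b, b = 2000 := ⟨_, rfl⟩
  set L := Real.logb 2 (n : ℝ) with hL
  set x := Real.sqrt L with hx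
  have hx0 : 0 ≤ x := Real.sqrt_nonneg _
  have hεpos : 0 < ε := by
    by_contra h
    push Not at h
    nlinarith
  have hL0 : 0 ≤ L := by
    by_contra h
    push Not at h
    rw [hx, Real.sqrt_eq_zero_of_nonpos h.le] at hε
    norm_num at hε
  have hxx : x * x = L := Real.mul_self_sqrt hL0
  have hε2 : ε ≤ 1 / 2 := by
    by_contra h
    push Not at h
    have h1 : 0 ≤ (1 / 2 - ε) * L := le_trans (Nat.cast_nonneg _) ht
    have h2 : L ≤ 0 := by
      by_contra h3
      push Not at h3
      nlinarith
    have h3 : x = 0 := Real.sqrt_eq_zero_of_nonpos h2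
    rw [h3] at hε
    norm_num at hε
  set u := ε * x with hu
  have hx1 : 16000 ≤ x := by nlinarith
  have hLbig : 16000 ≤ L := by nlinarith
  have hn2 : 2 ≤ n := by
    by_contra h
    have : n = 0 ∨ n = 1 := by omega
    rcases this with h | h <;> rw [hL, h] at hLbig <;> norm_num at hLbig
  have hn0 : (0 : ℝ) < n := by exact_mod_cast (by omega : 0 < n)
  have hnL : (n : ℝ) = (2 : ℝ) ^ L := by
    rw [hL, Real.rpow_logb (by norm_num) (by norm_num) hn0]
  have hεL : ε * L = u * x := by rw [← hxx, hu]; ring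
  set l := Nat.log 2 n with hl
  have hl1 : (l : ℝ) ≤ L := by
    rw [hL, Real.le_logb_iff_rpow_le (by norm_num) hn0, Real.rpow_natCast]
    exact_mod_cast Nat.pow_log_le_self 2 (by omega : n ≠ 0)
  have hl2 : L < (l : ℝ) + 1 := by
    rw [hL, Real.logb_lt_iff_lt_rpow (by norm_num) hn0]
    have : n < 2 ^ (l + 1) := Nat.lt_pow_succ_log_self (by norm_num) n
    have h5 : (n : ℝ) < 2 ^ (l + 1) := by exact_mod_cast this
    calc (n : ℝ) < 2 ^ (l + 1) := h5
      _ = (2 : ℝ) ^ ((l : ℝ) + 1) := by
          rw [show (l : ℝ) + 1 = ((l + 1 : ℕ) : ℝ) by push_cast; ring, Real.rpow_natCast]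
  obtain ⟨t, htdef⟩ : ∃ t, t = C.negations := ⟨_, rfl⟩
  rw [← htdef] at ht
  have ht' : 2 * (t : ℝ) ≤ L - 2 * (u * x) := by rw [← hεL]; linarith
  have hux : 0 ≤ u * x := by nlinarith
  have htL : (t : ℝ) + 1 ≤ L := by linarith
  set lg := Nat.log 2 (t + 1) with hlg
  have hlgT : (lg : ℝ) ≤ 4 * x := by
    have e1 : ((2 : ℝ)) ^ lg ≤ (t : ℝ) + 1 := by
      exact_mod_cast Nat.pow_log_le_self 2 (by omega : t + 1 ≠ 0)
    have e2 : (lg : ℝ) * Real.log 2 ≤ Real.log L := by
      rw [← Real.log_pow]
      exact Real.log_le_log (by positivity) (le_trans e1 htL)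
    have e3 : (0.5 : ℝ) ≤ Real.log 2 := by
      have := Real.log_two_gt_d9
      linarith
    have e4 : (0 : ℝ) ≤ lg := Nat.cast_nonneg lg
    have e5 : Real.log L ≤ 2 * x := by
      rw [← hxx, Real.log_mul (by linarith) (by linarith)]
      have := Real.log_le_sub_one_of_pos (by linarith : 0 < x)
      linarith
    have e6 : (lg : ℝ) * 0.5 ≤ lg * Real.log 2 := mul_le_mul_of_nonneg_left e3 e4
    linarith
  set N := Nat.sqrt n with hN
  obtain ⟨B, hB⟩ : ∃ B, B = 2 ^ t * (t + 1) + 1 := ⟨_, rfl⟩
  have hBpos : 0 < B := by omega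
  have hBle : B ≤ 2 ^ (t + lg + 2) := by
    have e1 : t + 1 < 2 ^ (lg + 1) := Nat.lt_pow_succ_log_self (by norm_num) _
    have e2 : 1 ≤ 2 ^ (t + lg + 1) := Nat.one_le_two_pow
    calc B = 2 ^ t * (t + 1) + 1 := hB
      _ ≤ 2 ^ t * 2 ^ (lg + 1) + 2 ^ (t + lg + 1) :=
          Nat.add_le_add (Nat.mul_le_mul_left _ e1.le) e2
      _ = 2 ^ (t + lg + 2) := by rw [← pow_add, pow_succ 2 (t + lg + 1)]; ring
  have hu8 : 8000 ≤ u := hε
  have hux8 : 8000 * x ≤ u * x := mul_le_mul_of_nonneg_right hu8 hx0
  have h1 : 2 * (t + lg + 2) ≤ l := by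
    have : 2 * ((t : ℝ) + lg + 2) ≤ l := by linarith
    exact_mod_cast this
  have hN2 : 2 ^ (l / 2) ≤ N := by
    rw [hN, Nat.le_sqrt, ← pow_add]
    refine le_trans (Nat.pow_le_pow_right (by norm_num) ?_) (Nat.pow_log_le_self 2 (by omega : n ≠ 0))
    omega
  set M := N / B with hM
  have hBM : B * M ≤ N := Nat.mul_div_le _ _
  have hMlow : 2 ^ (l / 2 - (t + lg + 2)) ≤ M := by
    rw [hM, Nat.le_div_iff_mul_le hBpos]
    calc 2 ^ (l / 2 - (t + lg + 2)) * B ≤ 2 ^ (l / 2 - (t + lg + 2)) * 2 ^ (t + lg + 2) :=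
          Nat.mul_le_mul_left _ hBle
      _ = 2 ^ (l / 2) := by rw [← pow_add]; congr 1; omega
      _ ≤ N := hN2
  obtain ⟨m, hm⟩ : ∃ m, m = M * M := ⟨_, rfl⟩
  have hsq : Nat.sqrt m = M := by rw [hm, Nat.sqrt_eq]
  have hmlow : 2 ^ (2 * (l / 2 - (t + lg + 2))) ≤ m := by
    rw [hm, two_mul, pow_add]
    exact Nat.mul_le_mul hMlow hMlow
  obtain ⟨l', hl'⟩ : ∃ l', l' = Nat.log 2 m := ⟨_, rfl⟩
  have hl'low : 2 * (l / 2 - (t + lg + 2)) ≤ l' := by
    rw [hl']
    exact Nat.le_log_of_pow_le (by norm_num) hmlow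
  have hm0 : m ≠ 0 := by
    have : 1 ≤ 2 ^ (2 * (l / 2 - (t + lg + 2))) := Nat.one_le_two_pow
    omega
  have hl'R0 : 2 * (u * x) - 14 * x ≤ l' := by
    have h2 : l ≤ l' + 2 * (t + lg + 2) + 1 := by omega
    have h3 : (l : ℝ) ≤ l' + 2 * (t + lg + 2) + 1 := by exact_mod_cast h2
    linarith
  have hl'R : (2 * u - 14) * x ≤ l' := by
    have e : (2 * u - 14) * x = 2 * (u * x) - 14 * x := by ring
    rw [e]
    exact hl'R0
  have hl'400 : 400 ≤ l' := by
    have : (400 : ℝ) ≤ l' := by linarith
    exact_mod_cast this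
  have hml' : 2 ^ l' ≤ m := by rw [hl']; exact Nat.pow_log_le_self 2 hm0
  have hm4 : 4 ≤ m := by
    have : 2 ^ 2 ≤ 2 ^ l' := Nat.pow_le_pow_right (by norm_num) (by omega)
    omega
  obtain ⟨D, hD1, hD2, hD3⟩ := stconn_copies (m := m) C hC hm4 (by
    rw [hsq, ← htdef, ← hB]; exact hBM)
  rw [← htdef] at hD3
  -- the width
  have hP1 : (1 : ℝ) ≤ (2 : ℝ) ^ (L * (ε / 51)) :=
    Real.one_le_rpow (by norm_num) (by positivity)
  have hw' : (C.maxWidth : ℝ) ≤ (2 : ℝ) ^ (L * (ε / 51)) := by
    rw [Real.rpow_mul (by norm_num), ← hnL]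
    exact hw
  have hwR : ((2 * C.maxWidth + 3 : ℕ) : ℝ) ≤ 5 * (2 : ℝ) ^ (L * (ε / 51)) := by
    push_cast
    linarith
  have hwidth : D.maxWidth ^ 100 ≤ m := by
    have h2 : (D.maxWidth : ℝ) ≤ 5 * (2 : ℝ) ^ (L * (ε / 51)) :=
      le_trans (by exact_mod_cast hD2) hwR
    have h3 : (D.maxWidth : ℝ) ^ 100 ≤ (m : ℝ) := by
      calc (D.maxWidth : ℝ) ^ 100 ≤ (5 * (2 : ℝ) ^ (L * (ε / 51))) ^ 100 :=
            pow_le_pow_left₀ (Nat.cast_nonneg _) h2 100
        _ = 5 ^ 100 * (2 : ℝ) ^ (L * (ε / 51) * 100) := by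
            rw [mul_pow (5 : ℝ), ← Real.rpow_natCast ((2 : ℝ) ^ (L * (ε / 51))) 100,
              ← Real.rpow_mul (by norm_num)]
            norm_num
        _ ≤ (2 : ℝ) ^ (240 : ℝ) * (2 : ℝ) ^ (L * (ε / 51) * 100) := by
            apply mul_le_mul_of_nonneg_right _ (by positivity)
            rw [show (240 : ℝ) = ((240 : ℕ) : ℝ) by norm_num, Real.rpow_natCast]
            norm_num
        _ = (2 : ℝ) ^ (240 + L * (ε / 51) * 100) := by rw [← Real.rpow_add (by norm_num)]
        _ ≤ (2 : ℝ) ^ (l' : ℝ) := by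
            apply Real.rpow_le_rpow_of_exponent_le (by norm_num)
            have e : L * (ε / 51) * 100 = (100 / 51) * (u * x) := by rw [← hεL]; ring
            rw [e]
            linarith
        _ ≤ m := by
            rw [Real.rpow_natCast]
            exact_mod_cast hml'
    exact_mod_cast h3
  have hmain := StConnectivity.stconn_tradeoff m (by rw [← hl']; exact hl'400) D hD1 hwidth b hb.ge
  rw [← hl'] at hmain
  -- the size
  by_contra hcon
  push Not at hcon
  set E := ε ^ 2 / 501 * L * L with hE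
  have hE0 : 0 ≤ E := by positivity
  have hS : (C.size : ℝ) ≤ (2 : ℝ) ^ E := by
    refine le_trans hcon.le ?_
    rw [hnL, ← Real.rpow_mul (by norm_num), hE]
    apply le_of_eq
    congr 1
    ring
  have hE1 : (1 : ℝ) ≤ (2 : ℝ) ^ E := Real.one_le_rpow (by norm_num) hE0
  have hLL : (1 : ℝ) ≤ (2 : ℝ) ^ (L / 2) := Real.one_le_rpow (by norm_num) (by linarith)
  have hBR : ((2 ^ t * (t + 1) : ℕ) : ℝ) ≤ (2 : ℝ) ^ (L / 2) := by
    have h2 : 2 ^ t * (t + 1) ≤ 2 ^ (t + lg + 2) := by omega
    calc ((2 ^ t * (t + 1) : ℕ) : ℝ) ≤ ((2 ^ (t + lg + 2) : ℕ) : ℝ) := by exact_mod_cast h2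
      _ = (2 : ℝ) ^ ((t + lg + 2 : ℕ) : ℝ) := by rw [Real.rpow_natCast]; push_cast; ring
      _ ≤ (2 : ℝ) ^ (L / 2) := by
          apply Real.rpow_le_rpow_of_exponent_le (by norm_num)
          have h3 : ((2 * (t + lg + 2) : ℕ) : ℝ) ≤ l := by exact_mod_cast h1
          push_cast at h3 ⊢
          linarith
  have hDR : (D.size : ℝ) ≤ (2 : ℝ) ^ (5 + L + E) := by
    have h2 : (D.size : ℝ) ≤ ((2 ^ t * (t + 1) : ℕ) * (3 * (C.size : ℝ) + 1) + 1) *
        ((2 * C.maxWidth + 3 : ℕ) : ℝ) := by exact_mod_cast hD3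
    set P := (2 : ℝ) ^ (L / 2) with hP
    set Q := (2 : ℝ) ^ E with hQ
    set R := (2 : ℝ) ^ (L * (ε / 51)) with hR
    have h3 : ((2 ^ t * (t + 1) : ℕ) : ℝ) * (3 * (C.size : ℝ) + 1) + 1 ≤ 5 * (P * Q) := by
      have e1 : 3 * (C.size : ℝ) + 1 ≤ 4 * Q := by linarith
      have e2 : ((2 ^ t * (t + 1) : ℕ) : ℝ) * (3 * (C.size : ℝ) + 1) ≤ P * (4 * Q) :=
        mul_le_mul hBR e1 (by positivity) (by linarith)
      have e3 : 1 ≤ P * Q := one_le_mul_of_one_le_of_one_le hLL hE1
      linarith
    calc (D.size : ℝ) ≤ (5 * (P * Q)) * (5 * R) :=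
          le_trans h2 (mul_le_mul h3 hwR (by positivity) (by positivity))
      _ = 25 * (P * Q * R) := by ring
      _ ≤ (2 : ℝ) ^ (5 : ℝ) * (P * Q * R) := by
          apply mul_le_mul_of_nonneg_right _ (by positivity)
          rw [show (5 : ℝ) = ((5 : ℕ) : ℝ) by norm_num, Real.rpow_natCast]
          norm_num
      _ = (2 : ℝ) ^ (5 + (L / 2 + E + L * (ε / 51))) := by
          rw [hP, hQ, hR, ← Real.rpow_add (by norm_num), ← Real.rpow_add (by norm_num),
            ← Real.rpow_add (by norm_num)]
      _ ≤ (2 : ℝ) ^ (5 + L + E) := by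
          apply Real.rpow_le_rpow_of_exponent_le (by norm_num)
          have e1 : L * ε ≤ L * (1 / 2) := mul_le_mul_of_nonneg_left hε2 hL0
          have e2 : L * (ε / 51) = L * ε / 51 := by ring
          rw [e2]
          linarith
  have hfin : (2 : ℝ) ^ ((l' : ℝ) * l') ≤ (2 : ℝ) ^ ((5 + L + E) * b) := by
    calc (2 : ℝ) ^ ((l' : ℝ) * l') = ((2 ^ l' : ℕ) : ℝ) ^ l' := by
          rw [Real.rpow_mul (by norm_num), Real.rpow_natCast, Real.rpow_natCast]
          push_cast
          rfl
      _ ≤ (m : ℝ) ^ l' := by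
          apply pow_le_pow_left₀ (by positivity)
          exact_mod_cast hml'
      _ ≤ (D.size : ℝ) ^ b := by exact_mod_cast hmain
      _ ≤ ((2 : ℝ) ^ (5 + L + E)) ^ b := pow_le_pow_left₀ (Nat.cast_nonneg _) hDR b
      _ = (2 : ℝ) ^ ((5 + L + E) * b) := by rw [Real.rpow_mul (by norm_num), Real.rpow_natCast]
  have hexp : (l' : ℝ) * l' ≤ (5 + L + E) * b :=
    (Real.rpow_le_rpow_left_iff (by norm_num : (1 : ℝ) < 2)).mp hfin
  have hbR : (b : ℝ) = 2000 := by rw [hb]; norm_num
  rw [hbR] at hexp
  have hEu : E = u ^ 2 * L / 501 := by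
    rw [hE, hu, mul_pow, show x ^ 2 = L by rw [sq]; exact hxx]
    ring
  have hsq2 : ((2 * u - 14) * x) * ((2 * u - 14) * x) ≤ (l' : ℝ) * l' :=
    mul_self_le_mul_self (mul_nonneg (by linarith) hx0) hl'R
  have e1 : ((2 * u - 14) * x) * ((2 * u - 14) * x) = (2 * u - 14) ^ 2 * L := by
    rw [← hxx]; ring
  rw [e1] at hsq2
  have e2 : (2 * u - 14) ^ 2 * L ≤ (4000 + 2000 / 501 * u ^ 2) * L := by
    calc (2 * u - 14) ^ 2 * L ≤ (5 + L + E) * 2000 := le_trans hsq2 hexp
      _ ≤ (2 * L + E) * 2000 := by linarith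
      _ = _ := by rw [hEu]; ring
  have e3 : (2 * u - 14) ^ 2 ≤ 4000 + 2000 / 501 * u ^ 2 :=
    le_of_mul_le_mul_right e2 (by linarith)
  have e4 : 8000 * u ≤ u ^ 2 := by
    rw [sq]
    exact mul_le_mul_of_nonneg_right hu8 (by linarith)
  have e5 : (2 * u - 14) ^ 2 = 4 * u ^ 2 - 56 * u + 196 := by ring
  rw [e5] at e3
  linarith

end Tradeoff

/-! ## st-connectivity is not in SC with few NOT gates -/

theorem st_not_SC_r (r : ℕ → ℕ)
    (hr : Tendsto (fun n : ℕ => (Real.logb 2 n / 2 - r n) / Real.sqrt (Real.logb 2 n)) atTop atTop) :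
    ¬ SC r StConnectivity.stconn := by
  rintro ⟨C, hC, ⟨a, c, hs⟩, ⟨a', c', hd⟩, hneg⟩
  obtain ⟨L0, hL0⟩ := pow_lt_two_pow (2 * a' * 4 ^ c') (2 * c')
  have hlog : Tendsto (fun n : ℕ => Real.logb 2 (n : ℝ)) atTop atTop :=
    (Real.tendsto_logb_atTop (by norm_num)).comp tendsto_natCast_atTop_atTop
  have hsqrt : Tendsto (fun n : ℕ => Real.sqrt (Real.logb 2 (n : ℝ))) atTop atTop :=
    Real.tendsto_sqrt_atTop.comp hlog
  obtain ⟨n, h1, h2, h3, h4⟩ := ((hr.eventually_ge_atTop (8000 + (a + c + 1 : ℝ))).and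
    ((hlog.eventually_ge_atTop 1).and ((hsqrt.eventually_ge_atTop ((L0 : ℝ) + 1)).and
      (eventually_ge_atTop 2)))).exists
  set L := Real.logb 2 (n : ℝ) with hL
  set x := Real.sqrt L with hx
  have hx0 : 0 < x := by
    have : (0 : ℝ) ≤ L0 := Nat.cast_nonneg _
    linarith
  have hxx : x * x = L := Real.mul_self_sqrt (by linarith)
  have hn0 : (0 : ℝ) < n := by exact_mod_cast (by omega : 0 < n)
  have hnL : (n : ℝ) = (2 : ℝ) ^ L := by
    rw [hL, Real.rpow_logb (by norm_num) (by norm_num) hn0]
  set l := Nat.log 2 n with hl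
  have hl1 : (l : ℝ) ≤ L := by
    rw [hL, Real.le_logb_iff_rpow_le (by norm_num) hn0, Real.rpow_natCast]
    exact_mod_cast Nat.pow_log_le_self 2 (by omega : n ≠ 0)
  set u := (L / 2 - r n) / x with hu
  have hac : (0 : ℝ) ≤ (a : ℝ) + c + 1 := by positivity
  have hux : u * x = L / 2 - r n := by rw [hu]; field_simp
  obtain ⟨ε, hε⟩ : ∃ ε, ε = u / x := ⟨_, rfl⟩
  have hεx : ε * x = u := by rw [hε]; field_simp
  have hεL : ε * L = u * x := by rw [← hxx, ← mul_assoc, hεx]
  have hu51 : 51 ≤ u := by linarith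
  have ht : ((C n).negations : ℝ) ≤ (1 / 2 - ε) * L := by
    have e1 : (1 / 2 - ε) * L = r n := by
      have : (1 / 2 - ε) * L = L / 2 - ε * L := by ring
      rw [this, hεL, hux]
      ring
    rw [e1]
    exact_mod_cast hneg n
  have hwid : ((C n).maxWidth : ℝ) ≤ (n : ℝ) ^ (ε / 51) := by
    obtain ⟨q, hq⟩ : ∃ q, q = ⌊x⌋₊ := ⟨_, rfl⟩
    have hq1 : (q : ℝ) ≤ x := by rw [hq]; exact Nat.floor_le hx0.le
    have hq2 : x < (q : ℝ) + 1 := by rw [hq]; exact Nat.lt_floor_add_one x
    have hqL0 : L0 ≤ q := by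
      have : (L0 : ℝ) ≤ q := by linarith
      exact_mod_cast this
    have hq0 : 1 ≤ q := by
      have h5 : (0 : ℝ) ≤ L0 := Nat.cast_nonneg _
      have : (0 : ℝ) < q := by linarith
      exact_mod_cast this
    have hlq : l ≤ 4 * q ^ 2 := by
      have e1 : (l : ℝ) ≤ 4 * (q : ℝ) ^ 2 := by
        have e2 : (1 : ℝ) ≤ q := by exact_mod_cast hq0
        nlinarith
      exact_mod_cast e1
    have h5 : (C n).maxWidth ≤ 2 ^ q := by
      have h6 := hd n
      simp only at h6
      rw [← hl] at h6
      have h7 : l ^ c' ≤ 4 ^ c' * q ^ (2 * c') := by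
        calc l ^ c' ≤ (4 * q ^ 2) ^ c' := Nat.pow_le_pow_left hlq _
          _ = _ := by rw [mul_pow, ← pow_mul]
      have h8 : 1 ≤ 4 ^ c' * q ^ (2 * c') :=
        Nat.mul_pos (by positivity) (Nat.pow_pos hq0)
      calc (C n).maxWidth ≤ a' * l ^ c' + a' * 1 := by rw [mul_one]; exact h6
        _ ≤ a' * (4 ^ c' * q ^ (2 * c')) + a' * (4 ^ c' * q ^ (2 * c')) :=
            Nat.add_le_add (Nat.mul_le_mul_left _ h7) (Nat.mul_le_mul_left _ h8)
        _ = 2 * a' * 4 ^ c' * q ^ (2 * c') := by ring
        _ ≤ 2 ^ q := (hL0 q hqL0).le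
    calc ((C n).maxWidth : ℝ) ≤ ((2 ^ q : ℕ) : ℝ) := by exact_mod_cast h5
      _ = (2 : ℝ) ^ (q : ℝ) := by rw [Real.rpow_natCast]; push_cast; rfl
      _ ≤ (2 : ℝ) ^ (L * (ε / 51)) := by
          apply Real.rpow_le_rpow_of_exponent_le (by norm_num)
          have e1 : L * (ε / 51) = u * x / 51 := by rw [← hεL]; ring
          rw [e1]
          have e2 : 51 * x ≤ u * x := mul_le_mul_of_nonneg_right hu51 hx0.le
          linarith
      _ = (n : ℝ) ^ (ε / 51) := by rw [Real.rpow_mul (by norm_num), ← hnL]
  have hmain := st_tradeoff_neg n ε (by rw [← hL, ← hx, hεx]; linarith) (C n) (hC n)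
    (by rw [← hL]; exact ht) hwid
  rw [← hL] at hmain
  have hsz := le_trans (hs n) (size_aux a c n)
  rw [← hl] at hsz
  simp only at hsz
  have hszR : ((C n).size : ℝ) ≤ (2 : ℝ) ^ (((a : ℝ) + c + 1) * (2 * L)) := by
    calc ((C n).size : ℝ) ≤ ((2 ^ ((a + c + 1) * (l + 1)) : ℕ) : ℝ) := by exact_mod_cast hsz
      _ = (2 : ℝ) ^ (((a + c + 1) * (l + 1) : ℕ) : ℝ) := by rw [Real.rpow_natCast]; push_cast; rfl
      _ ≤ _ := by
          apply Real.rpow_le_rpow_of_exponent_le (by norm_num)
          push_cast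
          exact mul_le_mul_of_nonneg_left (by linarith) hac
  have e1 : (n : ℝ) ^ (ε ^ 2 / 501 * L) = (2 : ℝ) ^ (u ^ 2 / 501 * L) := by
    rw [hnL, ← Real.rpow_mul (by norm_num)]
    congr 1
    have : u ^ 2 = ε ^ 2 * L := by rw [← hεx, mul_pow, ← hxx]; ring
    rw [this]
    ring
  rw [e1] at hmain
  have e2 := (Real.rpow_le_rpow_left_iff (by norm_num : (1 : ℝ) < 2)).mp (le_trans hmain hszR)
  have e3 : u ^ 2 / 501 ≤ 2 * ((a : ℝ) + c + 1) := by
    have : u ^ 2 / 501 * L ≤ 2 * ((a : ℝ) + c + 1) * L := by linarith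
    exact le_of_mul_le_mul_right this (by linarith)
  have e4 : 8000 * u ≤ u ^ 2 := by
    rw [sq]
    exact mul_le_mul_of_nonneg_right (by linarith) (by linarith)
  linarith

theorem st_NC0 : NC (fun _ => 0) StConnectivity.stconn := by
  obtain ⟨D, hD, hs, hd⟩ := StConnectivity.stconn_monNC
  refine ⟨fun n => fromCircuit (le_refl n) (D n), fun n x => ?_, hs, ?_, fun n => ?_⟩
  · have h1 := fromCircuit_eval (le_refl n) (D n) (ext x)
    rw [rst_ext] at h1
    rw [h1, hD]
  · obtain ⟨a, c, hd⟩ := hd
    exact ⟨a, c, fun n => le_trans (fromCircuit_depth (le_refl n) (D n)) (hd n)⟩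
  · exact (fromCircuit_negations (le_refl n) (D n)).le

end Pool.Agent.Results.MP_2af48a_lc.FewNegations
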