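import Pool.Agent.Lib_MP_2af48a_lc.CopiesProof

open Finset Filter

namespace Pool.Agent.Results.MP_2af48a_lc.FewNegations

/-! ## Depth of circuits with few NOT gates for functions in monotone SC -/

lemma hard_zero (k : ℕ) (f : (n : ℕ) → (Fin n → Bool) → Bool) (hfm : MonotoneSeparation.MonSC f)
    (a0 N : ℕ)
    (hf : ∀ n ≥ N, ∀ C : MonotoneSeparation.MonCircuit n, (∀ x, C.eval x = f n x) →
      C.size ≤ 2 ^ (Nat.log 2 n) ^ k → n ≤ C.depth * (Nat.log 2 n) ^ a0) (m : ℕ) (hmN : N ≤ m)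
    (hbig : (Nat.log 2 m) ^ a0 < m) : f m (fun _ => false) = false := by
  by_contra hne
  have hft : f m (fun _ => false) = true := by simpa using hne
  let D0 : MonotoneSeparation.MonCircuit m := ⟨1, fun _ => ⟨true, .const true, .const true⟩, 0⟩
  have e1 : ∀ x, D0.eval x = f m x := by
    intro x
    rw [monSC_zero f hfm m hft x]
    unfold MonotoneSeparation.MonCircuit.eval
    rw [MonotoneSeparation.MonCircuit.gateVal]
    rfl
  have e2 : D0.depth ≤ 1 := by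
    unfold MonotoneSeparation.MonCircuit.depth
    rw [MonotoneSeparation.MonCircuit.gateDepth]
    rfl
  have e3 : m ≤ D0.depth * (Nat.log 2 m) ^ a0 := hf m hmN D0 e1 (Nat.one_le_two_pow)
  have e5 : D0.depth * (Nat.log 2 m) ^ a0 ≤ 1 * (Nat.log 2 m) ^ a0 := Nat.mul_le_mul_right _ e2
  omega

lemma depth_pos {n : ℕ} (C : Circuit n) : 1 ≤ C.depth := by
  unfold Circuit.depth
  rw [gateDepth_eq]
  cases C.gate ⟨C.out.val, C.out.isLt⟩ <;> simp [Gate.depth]

/-- number of NOT gates which are allowed -/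
noncomputable def rε (ε : ℝ) (n : ℕ) : ℕ := ⌊(1 - ε) * Real.logb 2 n⌋₊

lemma rε_tendsto (ε : ℝ) (h0 : 0 < ε) (h1 : ε ≤ 1) :
    Tendsto (fun n : ℕ => (Real.logb 2 n - rε ε n) / (Real.logb 2 n) ^ (1 / 2 : ℝ)) atTop atTop := by
  have hlog : Tendsto (fun n : ℕ => Real.logb 2 (n : ℝ)) atTop atTop :=
    (Real.tendsto_logb_atTop (by norm_num)).comp tendsto_natCast_atTop_atTop
  have hsqrt : Tendsto (fun n : ℕ => ε * Real.sqrt (Real.logb 2 (n : ℝ))) atTop atTop :=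
    (Real.tendsto_sqrt_atTop.comp hlog).const_mul_atTop h0
  refine tendsto_atTop_mono' _ ?_ hsqrt
  filter_upwards [hlog.eventually_ge_atTop 1] with n hn
  rw [← Real.sqrt_eq_rpow]
  set L := Real.logb 2 (n : ℝ) with hL
  have hx : 0 < Real.sqrt L := Real.sqrt_pos.mpr (by linarith)
  rw [le_div_iff₀ hx]
  have h2 : (rε ε n : ℝ) ≤ (1 - ε) * L := Nat.floor_le (mul_nonneg (by linarith) (by linarith))
  have h3 : Real.sqrt L * Real.sqrt L = L := Real.mul_self_sqrt (by linarith)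
  have h4 : ε * Real.sqrt L * Real.sqrt L = ε * L := by rw [mul_assoc, h3]
  rw [h4]
  linarith

/-- the blocks are large -/
lemma block_large (ε : ℝ) (h0 : 0 < ε) (h1 : ε ≤ 1) (n : ℕ) (hn : 2 ≤ n) (hnb : nb (rε ε) n ≤ n) :
    (n : ℝ) ^ ε ≤ 12 * Nat.log 2 n * mb (rε ε) n := by
  set L := Real.logb 2 (n : ℝ) with hL
  have hn0 : (0 : ℝ) < n := by exact_mod_cast (by omega : 0 < n)
  have hnL : (n : ℝ) = (2 : ℝ) ^ L := by
    rw [hL, Real.rpow_logb (by norm_num) (by norm_num) hn0]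
  set l := Nat.log 2 n with hl
  have hl0 : 1 ≤ l := by
    rw [hl]; exact Nat.le_log_of_pow_le (by norm_num) (by simpa using hn)
  have hl1 : (l : ℝ) ≤ L := by
    rw [hL, Real.le_logb_iff_rpow_le (by norm_num) hn0, Real.rpow_natCast]
    exact_mod_cast Nat.pow_log_le_self 2 (by omega : n ≠ 0)
  have hl2 : L < (l : ℝ) + 1 := by
    rw [hL, Real.logb_lt_iff_lt_rpow (by norm_num) hn0]
    have : n < 2 ^ (l + 1) := Nat.lt_pow_succ_log_self (by norm_num) n
    have h5 : (n : ℝ) < 2 ^ (l + 1) := by exact_mod_cast this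
    calc (n : ℝ) < 2 ^ (l + 1) := h5
      _ = (2 : ℝ) ^ ((l : ℝ) + 1) := by
          rw [show (l : ℝ) + 1 = ((l + 1 : ℕ) : ℝ) by push_cast; ring, Real.rpow_natCast]
  have hl0R : (1 : ℝ) ≤ l := by exact_mod_cast hl0
  set r := rε ε n with hr
  have hrL : (r : ℝ) ≤ (1 - ε) * L := Nat.floor_le (mul_nonneg (by linarith) (by linarith))
  have hrL' : (r : ℝ) ≤ L := by nlinarith
  set m := mb (rε ε) n with hm
  have hB : (nb (rε ε) n : ℝ) ≤ 2 * ((2 : ℝ) ^ ((1 - ε) * L) * (3 * l)) := by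
    have e1 : nb (rε ε) n = 2 ^ r * (r + 1) + 1 := rfl
    rw [e1]
    push_cast
    have e2 : (2 : ℝ) ^ r ≤ (2 : ℝ) ^ ((1 - ε) * L) := by
      rw [← Real.rpow_natCast]
      exact Real.rpow_le_rpow_of_exponent_le (by norm_num) hrL
    have e3 : (r : ℝ) + 1 ≤ 3 * l := by linarith
    have e4 : (2 : ℝ) ^ r * ((r : ℝ) + 1) ≤ (2 : ℝ) ^ ((1 - ε) * L) * (3 * l) :=
      mul_le_mul e2 e3 (by positivity) (by positivity)
    have e5 : (1 : ℝ) ≤ (2 : ℝ) ^ ((1 - ε) * L) :=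
      Real.one_le_rpow (by norm_num) (mul_nonneg (by linarith) (by linarith))
    have e6 : (1 : ℝ) ≤ (2 : ℝ) ^ ((1 - ε) * L) * (3 * l) :=
      one_le_mul_of_one_le_of_one_le e5 (by linarith)
    linarith
  have hm1 : 1 ≤ m := by
    rw [hm]
    unfold mb
    exact Nat.div_pos hnb (nb_pos _ _)
  have hm1R : (1 : ℝ) ≤ m := by exact_mod_cast hm1
  have hlt : n < nb (rε ε) n * (m + 1) := by
    rw [hm]
    unfold mb
    exact Nat.lt_mul_div_succ n (nb_pos _ _)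
  have hltR : (n : ℝ) ≤ nb (rε ε) n * (m + 1) := by exact_mod_cast hlt.le
  have key : (n : ℝ) ≤ (2 * ((2 : ℝ) ^ ((1 - ε) * L) * (3 * l))) * (2 * m) :=
    le_trans hltR (mul_le_mul hB (by linarith) (by positivity) (by positivity))
  have e7 : (n : ℝ) = (n : ℝ) ^ ε * (2 : ℝ) ^ ((1 - ε) * L) := by
    have e8 : (n : ℝ) ^ ε = (2 : ℝ) ^ (L * ε) := by
      conv_lhs => rw [hnL]
      rw [← Real.rpow_mul (by norm_num)]
    rw [e8, ← Real.rpow_add (by norm_num)]
    conv_lhs => rw [hnL]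
    congr 1
    ring
  have hP : (0 : ℝ) < (2 : ℝ) ^ ((1 - ε) * L) := by positivity
  have e9 : (n : ℝ) ^ ε * (2 : ℝ) ^ ((1 - ε) * L) ≤ (12 * l * m) * (2 : ℝ) ^ ((1 - ε) * L) := by
    rw [← e7]
    refine le_trans key (le_of_eq ?_)
    ring
  exact le_of_mul_le_mul_right e9 hP

theorem depth_few_neg (k : ℕ) (ε : ℝ) (h0 : 0 < ε) (h1 : ε ≤ 1) :
    ∃ f : (n : ℕ) → (Fin n → Bool) → Bool, SC (fun _ => 0) f ∧
      ∃ a N : ℕ, ∀ n ≥ N, ∀ C : Circuit n, (∀ x, C.eval x = f n x) →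
        (C.negations : ℝ) ≤ (1 - ε) * Real.logb 2 n → C.size ≤ 2 ^ (Nat.log 2 n) ^ k →
        (n : ℝ) ^ ε ≤ C.depth * (Nat.log 2 n : ℝ) ^ a := by
  obtain ⟨f, hfm, -, a0, N0, hf⟩ := MonotoneSeparation.result (2 * (k + 1))
  obtain ⟨L0, hL0⟩ := pow_lt_two_pow 1 a0
  have hev := growthC (rε ε) (1 / 2) (by norm_num) (rε_tendsto ε h0 h1) 2 (by norm_num) (5 + N0 + L0)
  obtain ⟨N1, hN1⟩ := eventually_atTop.mp hev
  refine ⟨copies f (rε ε), copies_SC (rε ε) f hfm, a0 + 8, max N1 4, fun n hn C hC ht hs => ?_⟩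
  obtain ⟨g1, g2, g3⟩ := hN1 n (le_trans (le_max_left _ _) hn)
  have hn4 : 4 ≤ n := le_trans (le_max_right _ _) hn
  set l := Nat.log 2 n with hl
  have hbl := block_large ε h0 h1 n (by omega) g1
  rw [← hl] at hbl
  set m := mb (rε ε) n with hm
  set l' := Nat.log 2 m with hl'
  have hl2 : 2 ≤ l := by
    rw [hl]; exact Nat.le_log_of_pow_le (by norm_num) (by simpa using hn4)
  have hm0 : m ≠ 0 := by
    intro h
    rw [h] at hl'
    simp at hl'
    omega
  have hml : 2 ^ l' ≤ m := Nat.pow_log_le_self 2 hm0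
  have hmN : N0 ≤ m := by
    calc N0 ≤ l' := by omega
      _ ≤ 2 ^ l' := (Nat.lt_two_pow_self).le
      _ ≤ m := hml
  have hbig : l' ^ a0 < m := by
    have := hL0 l' (by omega)
    omega
  have hf0 := hard_zero (2 * (k + 1)) f hfm a0 N0 hf m hmN hbig
  have htr : C.negations ≤ rε ε n := Nat.le_floor ht
  obtain ⟨D, hD1, hD2, hD3, hD4⟩ := circuit_copies C (nb (rε ε) n) (neg_lt_nb (rε ε) n _ htr)
    (f m) hf0 (blk m) (fun j hj y hy z => by
      rw [hC]
      exact copies_spec f (rε ε) n g1 hf0 j hj y hy z)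
  obtain ⟨D', hD'1, hD'2, hD'3⟩ := circuit_to_mon (m := m) (r := 0) D hD2.negations.le
    (f m) (fun X => by
      rw [hD1]; rfl)
  have htl : C.negations ≤ l := by
    rw [hl]
    exact Nat.le_log_of_pow_le (by norm_num) (two_pow_neg_le (rε ε) n _ htr g1)
  have h6 : D'.size ≤ 2 ^ l' ^ (2 * (k + 1)) := by
    rw [hD'2]
    have hA1 : 1 ≤ 2 ^ l ^ k := Nat.one_le_two_pow
    calc D.size ≤ 2 ^ (2 * C.negations) * (C.size + 2) := by omega
      _ ≤ 2 ^ (2 * l) * (2 ^ l ^ k + 3 * 2 ^ l ^ k) :=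
          Nat.mul_le_mul (Nat.pow_le_pow_right (by norm_num) (by omega)) (by omega)
      _ = 2 ^ (2 * l + (2 + l ^ k)) := by rw [pow_add, pow_add]; ring
      _ ≤ 2 ^ l' ^ (2 * (k + 1)) := by
          apply Nat.pow_le_pow_right (by norm_num)
          have e1 : 5 * (l + 1) ≤ l' ^ 2 := le_trans (Nat.mul_le_mul_right _ (by omega)) g3
          have e2 : l ^ k ≤ (l + 1) ^ k := Nat.pow_le_pow_left (by omega) _
          have e3 : 1 ≤ (l + 1) ^ k := Nat.one_le_pow _ _ (by omega)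
          calc 2 * l + (2 + l ^ k) ≤ 2 * (l + 1) * (l + 1) ^ k + (l + 1) ^ k := by nlinarith
            _ = (2 * (l + 1) + 1) * (l + 1) ^ k := by ring
            _ ≤ (5 * (l + 1)) * (5 * (l + 1)) ^ k :=
                Nat.mul_le_mul (by omega) (Nat.pow_le_pow_left (by omega) _)
            _ = (5 * (l + 1)) ^ (k + 1) := by rw [pow_succ]; ring
            _ ≤ (l' ^ 2) ^ (k + 1) := Nat.pow_le_pow_left e1 _
            _ = l' ^ (2 * (k + 1)) := by rw [← pow_mul]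
  have h7 : m ≤ D'.depth * l' ^ a0 := hf m hmN D' hD'1 h6
  have hll : l' ≤ l := Nat.log_mono_right (mb_le _ n)
  have h8 : m ≤ C.depth * (4 * l) * l ^ a0 := by
    refine le_trans h7 (Nat.mul_le_mul ?_ (Nat.pow_le_pow_left hll _))
    have h9 := depth_pos C
    calc D'.depth ≤ C.depth + 1 + 2 * C.negations := le_trans hD'3 hD3
      _ ≤ C.depth * 1 + C.depth * 1 + C.depth * (2 * l) := by nlinarith
      _ = C.depth * (2 + 2 * l) := by ring
      _ ≤ C.depth * (4 * l) := Nat.mul_le_mul_left _ (by omega)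
  have h10 : 12 * l * m ≤ C.depth * l ^ (a0 + 8) := by
    calc 12 * l * m ≤ 12 * l * (C.depth * (4 * l) * l ^ a0) := Nat.mul_le_mul_left _ h8
      _ = C.depth * (48 * l ^ (a0 + 2)) := by ring
      _ ≤ C.depth * (l ^ 6 * l ^ (a0 + 2)) := by
          apply Nat.mul_le_mul_left
          apply Nat.mul_le_mul_right
          calc 48 ≤ 2 ^ 6 := by norm_num
            _ ≤ l ^ 6 := Nat.pow_le_pow_left hl2 _
      _ = _ := by rw [← pow_add]; congr 2; ring
  refine le_trans hbl ?_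
  exact_mod_cast h10

end Pool.Agent.Results.MP_2af48a_lc.FewNegations
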