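import Mathlib

open Finset

namespace Pool.Agent.Results.MP_2af48a_lc.FewNegations

/-! ### Circuits -/

/-- Where a gate takes an input from: a constant, an input variable, or one of `k` gates. -/
inductive Wire (n k : ℕ)
  | const (b : Bool)
  | var (i : Fin n)
  | gate (g : Fin k)

/-- Value of a wire, given the input `x` and the values `v` of the available gates. -/
def Wire.val {n k : ℕ} (x : Fin n → Bool) (v : Fin k → Bool) : Wire n k → Bool
  | .const b => b
  | .var i => x i
  | .gate g => v g

/-- Depth of a wire, given the depths `d` of the available gates. -/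
def Wire.depth {n k : ℕ} (d : Fin k → ℕ) : Wire n k → ℕ
  | .const _ => 0
  | .var _ => 0
  | .gate g => d g

/-- A gate: an AND gate or an OR gate with two input wires, or a NOT gate with one input wire. -/
inductive Gate (n k : ℕ)
  | and (a b : Wire n k)
  | or (a b : Wire n k)
  | not (a : Wire n k)

/-- Value of a gate. -/
def Gate.val {n k : ℕ} (x : Fin n → Bool) (v : Fin k → Bool) : Gate n k → Bool
  | .and a b => a.val x v && b.val x v
  | .or a b => a.val x v || b.val x v
  | .not a => !(a.val x v)

/-- Depth of a gate, given the depths `d` of the available gates. -/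
def Gate.depth {n k : ℕ} (d : Fin k → ℕ) : Gate n k → ℕ
  | .and a b => max (a.depth d) (b.depth d) + 1
  | .or a b => max (a.depth d) (b.depth d) + 1
  | .not a => a.depth d + 1

/-- Is the gate a NOT gate? -/
def Gate.isNot {n k : ℕ} : Gate n k → Bool
  | .and _ _ => false
  | .or _ _ => false
  | .not _ => true

/-- Boolean circuits with AND, OR and NOT gates; the gates are numbered, and a gate reads
constants, input variables and gates with smaller numbers. -/
structure Circuit (n : ℕ) where
  size : ℕ
  gate : (g : Fin size) → Gate n g
  out : Fin size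

/-- Value of gate number `g`. -/
def Circuit.gateVal {n : ℕ} (C : Circuit n) (x : Fin n → Bool) (g : ℕ) (hg : g < C.size) :
    Bool :=
  (C.gate ⟨g, hg⟩).val x (fun g' => C.gateVal x g'.val (lt_trans g'.isLt hg))
termination_by g
decreasing_by exact g'.isLt

/-- Depth of gate number `g`. -/
def Circuit.gateDepth {n : ℕ} (C : Circuit n) (g : ℕ) (hg : g < C.size) : ℕ :=
  (C.gate ⟨g, hg⟩).depth (fun g' => C.gateDepth g'.val (lt_trans g'.isLt hg))
termination_by g
decreasing_by exact g'.isLt

/-- The function computed by a circuit. -/
def Circuit.eval {n : ℕ} (C : Circuit n) (x : Fin n → Bool) : Bool :=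
  C.gateVal x C.out.val C.out.isLt

/-- The depth of a circuit: the length of a longest path from an input to the output gate. -/
def Circuit.depth {n : ℕ} (C : Circuit n) : ℕ := C.gateDepth C.out.val C.out.isLt

/-- The number of NOT gates of a circuit. -/
def Circuit.negations {n : ℕ} (C : Circuit n) : ℕ :=
  (univ.filter (fun g : Fin C.size => (C.gate g).isNot = true)).card

/-! ### Layered circuits -/

/-- Layered circuits with AND, OR and NOT gates: layers `1, ..., layers`; the gates of layer
`j + 1` take their inputs from constants, input variables and gates of layer `j` (layer `0` is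
empty). -/
structure Layered (n : ℕ) where
  layers : ℕ
  width : ℕ → ℕ
  width_zero : width 0 = 0
  gate : (j : ℕ) → Fin (width (j + 1)) → Gate n (width j)
  out : Fin (width layers)

/-- Values of the gates of layer `j`. -/
def Layered.val {n : ℕ} (C : Layered n) (x : Fin n → Bool) : (j : ℕ) → Fin (C.width j) → Bool
  | 0 => fun g => Fin.elim0 (Fin.cast C.width_zero g)
  | j + 1 => fun g => (C.gate j g).val x (C.val x j)

/-- The function computed. -/
def Layered.eval {n : ℕ} (C : Layered n) (x : Fin n → Bool) : Bool :=
  C.val x C.layers C.out

/-- Number of gates. -/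
def Layered.size {n : ℕ} (C : Layered n) : ℕ := ∑ j ∈ range C.layers, C.width (j + 1)

/-- Width: the largest number of gates in a layer. -/
def Layered.maxWidth {n : ℕ} (C : Layered n) : ℕ :=
  (range C.layers).sup (fun j => C.width (j + 1))

/-- The number of NOT gates of a layered circuit. -/
def Layered.negations {n : ℕ} (C : Layered n) : ℕ :=
  ∑ j ∈ range C.layers, (univ.filter (fun g => (C.gate j g).isNot = true)).card

/-! ### Complexity classes -/

/-- bounded by a polynomial -/
def PolyBounded (s : ℕ → ℕ) : Prop := ∃ a c : ℕ, ∀ n, s n ≤ a * n ^ c + a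

/-- bounded by a polynomial in `log n` -/
def PolylogBounded (s : ℕ → ℕ) : Prop := ∃ a c : ℕ, ∀ n, s n ≤ a * (Nat.log 2 n) ^ c + a

/-- SC with at most `r n` NOT gates: layered circuits of polynomial size and polylogarithmic
width, with at most `r n` NOT gates for inputs of length `n` -/
def SC (r : ℕ → ℕ) (f : (n : ℕ) → (Fin n → Bool) → Bool) : Prop :=
  ∃ C : (n : ℕ) → Layered n, (∀ n x, (C n).eval x = f n x) ∧
    PolyBounded (fun n => (C n).size) ∧ PolylogBounded (fun n => (C n).maxWidth) ∧
    ∀ n, (C n).negations ≤ r n

/-- NC with at most `r n` NOT gates: circuits of polynomial size and polylogarithmic depth,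
with at most `r n` NOT gates for inputs of length `n` -/
def NC (r : ℕ → ℕ) (f : (n : ℕ) → (Fin n → Bool) → Bool) : Prop :=
  ∃ C : (n : ℕ) → Circuit n, (∀ n x, (C n).eval x = f n x) ∧
    PolyBounded (fun n => (C n).size) ∧ PolylogBounded (fun n => (C n).depth) ∧
    ∀ n, (C n).negations ≤ r n

end Pool.Agent.Results.MP_2af48a_lc.FewNegations
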