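import Mathlib

/-!
# Monotone SC is not contained in monotone NC

We show that there are monotone functions which have monotone layered circuits of polynomial size
and polylogarithmic width, but which have no monotone circuits of polynomial size and
polylogarithmic depth. In fact monotone circuits of size `2 ^ (log n) ^ k` (for any fixed `k`)
for suitable such functions need depth `n / (log n) ^ a`.

The function is iterated AND-OR reachability through a long layered structure with
polylogarithmically many nodes per layer. The lower bound is a lifting argument for the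
Karchmer-Wigderson game with an index gadget of polylogarithmic size: a path is followed from the
output gate of the circuit downwards, keeping a structured pair of sets of assignments of Alice
and Bob together with a small set of fixed positions.
-/

open Finset

namespace Pool.Agent.Results.MP_2af48a_lc.MonotoneSeparation

/-! ### Circuits -/

/-- Where a gate takes an input from: a constant, an input variable, or one of `k` gates. -/
inductive Wire (n k : ℕ)
  | const (b : Bool)
  | var (i : Fin n)
  | gate (g : Fin k)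

/-- Value of a wire, given the input `x` and the values `v` of the available gates. -/
def Wire.val {n k : ℕ} (x : Fin n → Bool) (v : Fin k → Bool) : Wire n k → Bool
  | .const b => b
  | .var i => x i
  | .gate g => v g

/-- Depth of a wire, given the depths `d` of the available gates. -/
def Wire.depth {n k : ℕ} (d : Fin k → ℕ) : Wire n k → ℕ
  | .const _ => 0
  | .var _ => 0
  | .gate g => d g

/-- A monotone gate with two input wires: an AND gate or an OR gate. -/
structure Gate (n k : ℕ) where
  isAnd : Bool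
  left : Wire n k
  right : Wire n k

/-- Value of a gate. -/
def Gate.val {n k : ℕ} (x : Fin n → Bool) (v : Fin k → Bool) (G : Gate n k) : Bool :=
  if G.isAnd then (G.left.val x v && G.right.val x v) else (G.left.val x v || G.right.val x v)

/-- Monotone Boolean circuits. -/
structure MonCircuit (n : ℕ) where
  size : ℕ
  gate : (g : Fin size) → Gate n g
  out : Fin size

/-- Value of gate number `g`. -/
def MonCircuit.gateVal {n : ℕ} (C : MonCircuit n) (x : Fin n → Bool) (g : ℕ) (hg : g < C.size) :
    Bool :=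
  (C.gate ⟨g, hg⟩).val x (fun g' => C.gateVal x g'.val (lt_trans g'.isLt hg))
termination_by g
decreasing_by exact g'.isLt

/-- Depth of gate number `g`. -/
def MonCircuit.gateDepth {n : ℕ} (C : MonCircuit n) (g : ℕ) (hg : g < C.size) : ℕ :=
  max ((C.gate ⟨g, hg⟩).left.depth (fun g' => C.gateDepth g'.val (lt_trans g'.isLt hg)))
    ((C.gate ⟨g, hg⟩).right.depth (fun g' => C.gateDepth g'.val (lt_trans g'.isLt hg))) + 1
termination_by g
decreasing_by all_goals exact g'.isLt

/-- The function computed by a circuit. -/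
def MonCircuit.eval {n : ℕ} (C : MonCircuit n) (x : Fin n → Bool) : Bool :=
  C.gateVal x C.out.val C.out.isLt

/-- The depth of a circuit: the length of a longest path from an input to the output gate. -/
def MonCircuit.depth {n : ℕ} (C : MonCircuit n) : ℕ := C.gateDepth C.out.val C.out.isLt

/-! ### Layered circuits -/

/-- Layered monotone circuits: layers `1, ..., layers`; the gates of layer `j + 1` take their
inputs from constants, input variables and gates of layer `j` (layer `0` is empty). -/
structure MonLayered (n : ℕ) where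
  layers : ℕ
  width : ℕ → ℕ
  width_zero : width 0 = 0
  gate : (j : ℕ) → Fin (width (j + 1)) → Gate n (width j)
  out : Fin (width layers)

/-- Values of the gates of layer `j`. -/
def MonLayered.val {n : ℕ} (C : MonLayered n) (x : Fin n → Bool) : (j : ℕ) → Fin (C.width j) → Bool
  | 0 => fun g => Fin.elim0 (Fin.cast C.width_zero g)
  | j + 1 => fun g => (C.gate j g).val x (C.val x j)

/-- The function computed. -/
def MonLayered.eval {n : ℕ} (C : MonLayered n) (x : Fin n → Bool) : Bool :=
  C.val x C.layers C.out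

/-- Number of gates. -/
def MonLayered.size {n : ℕ} (C : MonLayered n) : ℕ := ∑ j ∈ range C.layers, C.width (j + 1)

/-- Width: the largest number of gates in a layer. -/
def MonLayered.maxWidth {n : ℕ} (C : MonLayered n) : ℕ :=
  (range C.layers).sup (fun j => C.width (j + 1))

/-! ### Complexity classes -/

/-- bounded by a polynomial -/
def PolyBounded (s : ℕ → ℕ) : Prop := ∃ a c : ℕ, ∀ n, s n ≤ a * n ^ c + a

/-- bounded by a polynomial in `log n` -/
def PolylogBounded (s : ℕ → ℕ) : Prop := ∃ a c : ℕ, ∀ n, s n ≤ a * (Nat.log 2 n) ^ c + a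

/-- monotone SC: monotone layered circuits of polynomial size and polylogarithmic width -/
def MonSC (f : (n : ℕ) → (Fin n → Bool) → Bool) : Prop :=
  ∃ C : (n : ℕ) → MonLayered n, (∀ n x, (C n).eval x = f n x) ∧
    PolyBounded (fun n => (C n).size) ∧ PolylogBounded (fun n => (C n).maxWidth)

/-- monotone NC: monotone circuits of polynomial size and polylogarithmic depth -/
def MonNC (f : (n : ℕ) → (Fin n → Bool) → Bool) : Prop :=
  ∃ C : (n : ℕ) → MonCircuit n, (∀ n x, (C n).eval x = f n x) ∧
    PolyBounded (fun n => (C n).size) ∧ PolylogBounded (fun n => (C n).depth)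

/-! ## Counting -/

section Count

variable {C Q : Type*} [Fintype C] [DecidableEq C] [Fintype Q] [DecidableEq Q]

/-- number of functions with prescribed values on a set -/
lemma card_prescribed (D : Finset C) (a : C → Q) :
    (univ.filter (fun y : C → Q => ∀ c ∈ D, y c = a c)).card * (Fintype.card Q) ^ D.card
      = (Fintype.card Q) ^ (Fintype.card C) := by
  classical
  have h : (univ.filter (fun y : C → Q => ∀ c ∈ D, y c = a c))
      = Fintype.piFinset (fun c => if c ∈ D then {a c} else (univ : Finset Q)) := by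
    ext y
    simp only [mem_filter, mem_univ, true_and, Fintype.mem_piFinset]
    constructor
    · intro hy c
      by_cases hc : c ∈ D
      · simp [hc, hy c hc]
      · simp [hc]
    · intro hy c hc
      have := hy c
      simpa [hc] using this
  rw [h, Fintype.card_piFinset]
  have h2 : ∀ c : C, (if c ∈ D then {a c} else (univ : Finset Q)).card
      = if c ∈ D then 1 else Fintype.card Q := by
    intro c
    split_ifs <;> simp
  rw [Finset.prod_congr rfl (fun c _ => h2 c), Finset.prod_ite]
  simp only [prod_const_one, one_mul, prod_const]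
  rw [← pow_add]
  congr 1
  have : (univ.filter (fun c : C => c ∉ D)) = Dᶜ := by
    ext c; simp
  rw [this, Finset.card_compl]
  have := Finset.card_le_univ D
  omega

lemma card_prescribed_two (D D' : Finset C) (a a' : C → Q) :
    (univ.filter (fun y : C → Q => (∀ c ∈ D, y c = a c) ∧ (∀ c ∈ D', y c = a' c))).card
      * (Fintype.card Q) ^ (D ∪ D').card ≤ (Fintype.card Q) ^ (Fintype.card C) := by
  classical
  rcases (univ.filter (fun y : C → Q => (∀ c ∈ D, y c = a c) ∧ (∀ c ∈ D', y c = a' c))).eq_empty_or_nonempty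
    with h | ⟨y0, hy0⟩
  · rw [h]; simp
  · simp only [mem_filter, mem_univ, true_and] at hy0
    have hsub : (univ.filter (fun y : C → Q => (∀ c ∈ D, y c = a c) ∧ (∀ c ∈ D', y c = a' c)))
        ⊆ (univ.filter (fun y : C → Q => ∀ c ∈ D ∪ D', y c = y0 c)) := by
      intro y hy
      simp only [mem_filter, mem_univ, true_and] at hy ⊢
      intro c hc
      rw [mem_union] at hc
      rcases hc with hc | hc
      · rw [hy.1 c hc, hy0.1 c hc]
      · rw [hy.2 c hc, hy0.2 c hc]
    rw [← card_prescribed (D ∪ D') y0]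
    exact Nat.mul_le_mul_right _ (Finset.card_le_card hsub)

/-- Independence of events depending on disjoint coordinate sets. -/
lemma card_indep (S : Finset C) (A B : (C → Q) → Prop) [DecidablePred A] [DecidablePred B]
    (hA : ∀ y y', (∀ c ∈ S, y c = y' c) → (A y ↔ A y'))
    (hB : ∀ y y', (∀ c, c ∉ S → y c = y' c) → (B y ↔ B y')) :
    (univ.filter (fun y : C → Q => A y ∧ B y)).card * (univ : Finset (C → Q)).card
      = (univ.filter (fun y : C → Q => A y)).card * (univ.filter (fun y : C → Q => B y)).card := by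
  classical
  rw [← Finset.card_product, ← Finset.card_product]
  let mix : (C → Q) × (C → Q) → (C → Q) × (C → Q) := fun p =>
    (fun c => if c ∈ S then p.1 c else p.2 c, fun c => if c ∈ S then p.2 c else p.1 c)
  have hmix : ∀ p, mix (mix p) = p := by
    rintro ⟨y, y'⟩
    ext c
    · by_cases hc : c ∈ S <;> simp [mix, hc]
    · by_cases hc : c ∈ S <;> simp [mix, hc]
  refine Finset.card_bij' (fun p _ => mix p) (fun p _ => mix p) ?_ ?_ ?_ ?_
  · rintro ⟨y, y'⟩ hp
    simp only [mem_product, mem_filter, mem_univ, true_and, and_true] at hp ⊢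
    refine ⟨(hA _ _ ?_).mpr hp.1, (hB _ _ ?_).mpr hp.2⟩
    · intro c hc; simp [mix, hc]
    · intro c hc; simp [mix, hc]
  · rintro ⟨y, y'⟩ hp
    simp only [mem_product, mem_filter, mem_univ, true_and, and_true] at hp ⊢
    refine ⟨(hA _ _ ?_).mpr hp.1, (hB _ _ ?_).mpr hp.2⟩
    · intro c hc; simp [mix, hc]
    · intro c hc; simp [mix, hc]
  · intro p _; exact hmix p
  · intro p _; exact hmix p

/-- Independence over all colours of a colouring. -/
lemma card_indep_colours {L : Type*} [Fintype L] [DecidableEq L] (κ : C → L)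
    (B : L → (C → Q) → Prop) [∀ k, DecidablePred (B k)]
    (hB : ∀ k y y', (∀ c, κ c = k → y c = y' c) → (B k y ↔ B k y')) (s : Finset L) :
    ((univ.filter (fun y : C → Q => ∀ k ∈ s, B k y)).card : ℝ)
      * ((univ : Finset (C → Q)).card : ℝ) ^ s.card
      = ((univ : Finset (C → Q)).card : ℝ) *
        ∏ k ∈ s, ((univ.filter (fun y : C → Q => B k y)).card : ℝ) := by
  classical
  induction s using Finset.induction_on with
  | empty => simp
  | @insert k s hk ih =>
    have e : (univ.filter (fun y : C → Q => ∀ k' ∈ insert k s, B k' y))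
        = (univ.filter (fun y : C → Q => B k y ∧ ∀ k' ∈ s, B k' y)) := by
      ext y
      simp
    have h := card_indep (univ.filter (fun c => κ c = k)) (B k) (fun y => ∀ k' ∈ s, B k' y)
      (fun y y' hy => hB k y y' (fun c hc => hy c (by simp [hc])))
      (fun y y' hy => by
        constructor
        · intro h k' hk'
          exact (hB k' y y' (fun c hc => hy c (by
            simp only [mem_filter, mem_univ, true_and]
            rintro rfl
            exact hk (hc ▸ hk')))).mp (h k' hk')
        · intro h k' hk'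
          exact (hB k' y y' (fun c hc => hy c (by
            simp only [mem_filter, mem_univ, true_and]
            rintro rfl
            exact hk (hc ▸ hk')))).mpr (h k' hk'))
    rw [e, Finset.card_insert_of_notMem hk, Finset.prod_insert hk, pow_succ]
    have h' : ((univ.filter (fun y : C → Q => B k y ∧ ∀ k' ∈ s, B k' y)).card : ℝ)
        * ((univ : Finset (C → Q)).card : ℝ)
      = ((univ.filter (fun y : C → Q => B k y)).card : ℝ)
        * ((univ.filter (fun y : C → Q => ∀ k' ∈ s, B k' y)).card : ℝ) := by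
      exact_mod_cast h
    calc _ = (((univ.filter (fun y : C → Q => B k y ∧ ∀ k' ∈ s, B k' y)).card : ℝ)
        * ((univ : Finset (C → Q)).card : ℝ)) * ((univ : Finset (C → Q)).card : ℝ) ^ s.card := by
          ring
      _ = ((univ.filter (fun y : C → Q => B k y)).card : ℝ)
        * (((univ.filter (fun y : C → Q => ∀ k' ∈ s, B k' y)).card : ℝ)
        * ((univ : Finset (C → Q)).card : ℝ) ^ s.card) := by rw [h']; ring
      _ = _ := by rw [ih]; ring

end Count

/-! ## Full range -/

section FR

variable {V M Q : Type*} [Fintype V] [DecidableEq V] [Fintype M] [DecidableEq M]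
  [Fintype Q] [DecidableEq Q]

/-- `P` is spread with parameter `r` outside `I`. -/
def Dense (r : ℕ) (P : Finset (V → M)) (I : Finset V) : Prop :=
  ∀ K : Finset V, Disjoint K I → ∀ γ : V → M,
    (P.filter (fun x => ∀ v ∈ K, x v = γ v)).card * r ^ K.card ≤ P.card

/-- the cells read by `x` on the set `J` -/
def cells (J : Finset V) (x : V → M) : Finset (V × M) := J.image (fun v => (v, x v))

omit [Fintype V] [Fintype M] in
lemma card_cells (J : Finset V) (x : V → M) : (cells J x).card = J.card := by
  unfold cells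
  apply Finset.card_image_of_injective
  intro v v' h
  exact (Prod.mk.inj h).1

omit [Fintype V] [Fintype M] [Fintype Q] [DecidableEq Q] in
lemma forall_cells (J : Finset V) (x : V → M) (y : V × M → Q) (c : V → Q) :
    (∀ p ∈ cells J x, y p = (fun p : V × M => c p.1) p) ↔ ∀ v ∈ J, y (v, x v) = c v := by
  unfold cells
  simp

/-- number of functions matching a pattern -/
lemma card_match (J : Finset V) (x : V → M) (c : V → Q) (hq : 0 < Fintype.card Q) :
    ((univ.filter (fun y : V × M → Q => ∀ v ∈ J, y (v, x v) = c v)).card : ℝ)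
      = (Fintype.card Q : ℝ) ^ (Fintype.card (V × M)) / (Fintype.card Q : ℝ) ^ J.card := by
  have h := card_prescribed (C := V × M) (Q := Q) (cells J x) (fun p => c p.1)
  simp only [forall_cells, card_cells] at h
  have hq' : (0 : ℝ) < (Fintype.card Q : ℝ) ^ J.card := by positivity
  rw [eq_div_iff hq'.ne']
  exact_mod_cast h

lemma card_match_two (J J' : Finset V) (x x' : V → M) (c c' : V → Q) (hq : 0 < Fintype.card Q) :
    ((univ.filter (fun y : V × M → Q => (∀ v ∈ J, y (v, x v) = c v) ∧
        (∀ v ∈ J', y (v, x' v) = c' v))).card : ℝ)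
      ≤ (Fintype.card Q : ℝ) ^ (Fintype.card (V × M))
        * (1 / (Fintype.card Q : ℝ) ^ (cells J x ∪ cells J' x').card) := by
  have h := card_prescribed_two (C := V × M) (Q := Q) (cells J x) (cells J' x')
    (fun p => c p.1) (fun p => c' p.1)
  simp only [forall_cells] at h
  have hq' : (0 : ℝ) < (Fintype.card Q : ℝ) ^ (cells J x ∪ cells J' x').card := by positivity
  rw [mul_one_div, le_div_iff₀ hq']
  exact_mod_cast h

omit [Fintype V] [Fintype M] in
lemma card_union_cells (J J' : Finset V) (x x' : V → M) :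
    J.card + J'.card ≤ (cells J x ∪ cells J' x').card + (J.filter (fun v => x v = x' v)).card := by
  have h1 := Finset.card_union_add_card_inter (cells J x) (cells J' x')
  rw [card_cells, card_cells] at h1
  have h2 : (cells J x ∩ cells J' x').card ≤ (J.filter (fun v => x v = x' v)).card := by
    apply Finset.card_le_card_of_injOn (fun p => p.1)
    · intro p hp
      rw [Finset.mem_coe, Finset.mem_inter] at hp
      unfold cells at hp
      simp only [mem_image] at hp
      obtain ⟨⟨v, hv, rfl⟩, ⟨v', _, hv'⟩⟩ := hp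
      simp only [Prod.mk.injEq] at hv'
      obtain ⟨rfl, h⟩ := hv'
      simp [hv, h]
    · intro p hp p' hp' h
      rw [Finset.mem_coe, Finset.mem_inter] at hp hp'
      unfold cells at hp hp'
      simp only [mem_image] at hp hp'
      obtain ⟨⟨v, _, rfl⟩, _⟩ := hp
      obtain ⟨⟨v', _, rfl⟩, _⟩ := hp'
      simp only at h
      rw [h]
  omega

/-- Sum of `β ^ (number of agreements)` over a spread family. -/
lemma sum_pow_agree (r W : ℕ) (P : Finset (V → M)) (I J : Finset V) (hd : Dense r P I)
    (hJI : Disjoint J I) (hJ : J.card = W) (x : V → M) (β : ℕ) (hr : 0 < r) (hβ : 0 < β)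
    (hW : 20 * W * β ≤ r) :
    (∑ x' ∈ P, (β : ℝ) ^ (J.filter (fun v => x v = x' v)).card) ≤ (11 / 10) * (P.card : ℝ) := by
  have hβ1 : (1 : ℝ) ≤ β := by exact_mod_cast hβ
  have hr' : (0 : ℝ) < r := by exact_mod_cast hr
  have h1 : ∀ x' ∈ P, (β : ℝ) ^ (J.filter (fun v => x v = x' v)).card
      ≤ ∑ K ∈ J.powerset, if (∀ v ∈ K, x' v = x v) then (β : ℝ) ^ K.card else 0 := by
    intro x' _
    have hmem : J.filter (fun v => x v = x' v) ∈ J.powerset := by
      rw [Finset.mem_powerset]
      exact Finset.filter_subset _ _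
    have := Finset.single_le_sum (s := J.powerset)
      (f := fun K => if (∀ v ∈ K, x' v = x v) then (β : ℝ) ^ K.card else 0)
      (fun K _ => by
        split_ifs
        · positivity
        · exact le_refl _) hmem
    refine le_trans (le_of_eq ?_) this
    rw [if_pos]
    intro v hv
    exact ((Finset.mem_filter.mp hv).2).symm
  calc (∑ x' ∈ P, (β : ℝ) ^ (J.filter (fun v => x v = x' v)).card)
      ≤ ∑ x' ∈ P, ∑ K ∈ J.powerset, (if (∀ v ∈ K, x' v = x v) then (β : ℝ) ^ K.card else 0) :=
        Finset.sum_le_sum h1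
    _ = ∑ K ∈ J.powerset, ∑ x' ∈ P, (if (∀ v ∈ K, x' v = x v) then (β : ℝ) ^ K.card else 0) :=
        Finset.sum_comm
    _ = ∑ K ∈ J.powerset, ((P.filter (fun x' => ∀ v ∈ K, x' v = x v)).card : ℝ)
          * (β : ℝ) ^ K.card := by
        apply Finset.sum_congr rfl
        intro K _
        rw [← Finset.sum_filter, Finset.sum_const, nsmul_eq_mul]
    _ ≤ ∑ K ∈ J.powerset, (P.card : ℝ) * ((β : ℝ) / r) ^ K.card := by
        apply Finset.sum_le_sum
        intro K hK
        have hKJ := Finset.mem_powerset.mp hK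
        have hdis : Disjoint K I := Finset.disjoint_of_subset_left hKJ hJI
        have := hd K hdis x
        have h2 : ((P.filter (fun x' => ∀ v ∈ K, x' v = x v)).card : ℝ) * (r : ℝ) ^ K.card
            ≤ P.card := by exact_mod_cast this
        rw [div_pow, mul_div_assoc', le_div_iff₀ (by positivity)]
        calc _ = (((P.filter (fun x' => ∀ v ∈ K, x' v = x v)).card : ℝ) * (r : ℝ) ^ K.card)
              * (β : ℝ) ^ K.card := by ring
          _ ≤ _ := by
            apply mul_le_mul_of_nonneg_right h2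
            positivity
    _ = (P.card : ℝ) * (1 + (β : ℝ) / r) ^ W := by
        rw [← Finset.mul_sum, ← hJ]
        congr 1
        have := Finset.sum_pow_mul_eq_add_pow ((β : ℝ) / r) 1 J
        simp only [one_pow, mul_one] at this
        rw [this, add_comm]
    _ ≤ (P.card : ℝ) * (11 / 10) := by
        apply mul_le_mul_of_nonneg_left _ (by positivity)
        have hz : (W : ℝ) * ((β : ℝ) / r) ≤ 1 / 20 := by
          have : (20 : ℝ) * W * β ≤ r := by exact_mod_cast hW
          rw [mul_div_assoc', div_le_iff₀ hr']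
          linarith
        have h3 : (1 + (β : ℝ) / r) ^ W ≤ Real.exp (1 / 20) := by
          calc (1 + (β : ℝ) / r) ^ W ≤ (Real.exp ((β : ℝ) / r)) ^ W := by
                apply pow_le_pow_left₀ (by positivity)
                have := Real.add_one_le_exp ((β : ℝ) / r)
                linarith
            _ = Real.exp (W * ((β : ℝ) / r)) := by
                rw [← Real.exp_nat_mul]
            _ ≤ Real.exp (1 / 20) := Real.exp_le_exp.mpr hz
        have h4 : Real.exp (1 / 20) ≤ 11 / 10 := by
          have h5 : Real.exp (-(1 / 20)) ≥ 1 - 1 / 20 := by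
            have := Real.add_one_le_exp (-(1 / 20) : ℝ)
            linarith
          have h6 : Real.exp (1 / 20) * Real.exp (-(1 / 20)) = 1 := by
            rw [← Real.exp_add]; simp
          have h7 : 0 < Real.exp (1 / 20) := Real.exp_pos _
          nlinarith
        exact h3.trans h4
    _ = _ := by ring

/-- second moment bound: few pairs `(κ, y)` see no match in colour `k` -/
lemma few_unmatched {L : Type*} [Fintype L] [DecidableEq L] (r W : ℕ) (P : Finset (V → M))
    (hP : P.Nonempty) (I : Finset V) (hd : Dense r P I) (J : (V → M) → Finset V)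
    (hJ : ∀ x ∈ P, (J x).card = W ∧ Disjoint (J x) I) (c : (V → M) → V → Q)
    (hL : 0 < Fintype.card L) (hQ : 0 < Fintype.card Q) (hr : 0 < r)
    (hW : 20 * W * (Fintype.card L * Fintype.card Q) ≤ r) (k : L) :
    (((univ : Finset ((V × M → L) × (V × M → Q))).filter (fun p =>
        (P.filter (fun x => ∀ v ∈ J x, p.1 (v, x v) = k ∧ p.2 (v, x v) = c x v)).card = 0)).card : ℝ)
      ≤ (1 / 11) * ((Fintype.card L : ℝ) ^ (Fintype.card (V × M))
          * (Fintype.card Q : ℝ) ^ (Fintype.card (V × M))) := by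
  classical
  set ℓ : ℝ := (Fintype.card L : ℝ) with hℓ
  set q : ℝ := (Fintype.card Q : ℝ) with hq
  set n := Fintype.card (V × M) with hn
  have hℓ0 : 0 < ℓ := by rw [hℓ]; exact_mod_cast hL
  have hq0 : 0 < q := by rw [hq]; exact_mod_cast hQ
  set N : ((V × M → L) × (V × M → Q)) → ℕ := fun p =>
    (P.filter (fun x => ∀ v ∈ J x, p.1 (v, x v) = k ∧ p.2 (v, x v) = c x v)).card with hN
  set Ω : ℝ := ℓ ^ n * q ^ n with hΩ
  have hΩ0 : 0 < Ω := by positivity
  have hPc : (0 : ℝ) < P.card := by exact_mod_cast hP.card_pos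
  -- splitting of the events
  have hsplit : ∀ x : V → M, ((univ : Finset ((V × M → L) × (V × M → Q))).filter (fun p =>
      ∀ v ∈ J x, p.1 (v, x v) = k ∧ p.2 (v, x v) = c x v))
      = (univ.filter (fun κ : V × M → L => ∀ v ∈ J x, κ (v, x v) = k)) ×ˢ
        (univ.filter (fun y : V × M → Q => ∀ v ∈ J x, y (v, x v) = c x v)) := by
    intro x
    ext p
    simp only [mem_filter, mem_univ, true_and, mem_product]
    constructor
    · intro h
      exact ⟨fun v hv => (h v hv).1, fun v hv => (h v hv).2⟩
    · intro h v hv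
      exact ⟨h.1 v hv, h.2 v hv⟩
  -- first moment
  have h1 : ∑ p, (N p : ℝ) = P.card * (Ω / (ℓ * q) ^ W) := by
    have : ∀ p, (N p : ℝ) = ∑ x ∈ P,
        if (∀ v ∈ J x, p.1 (v, x v) = k ∧ p.2 (v, x v) = c x v) then (1 : ℝ) else 0 := by
      intro p
      simp only [hN, Finset.card_filter]
      push_cast
      rfl
    simp only [this]
    rw [Finset.sum_comm]
    have h2 : ∀ x ∈ P, ∑ p : (V × M → L) × (V × M → Q),
        (if (∀ v ∈ J x, p.1 (v, x v) = k ∧ p.2 (v, x v) = c x v) then (1 : ℝ) else 0)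
        = Ω / (ℓ * q) ^ W := by
      intro x hx
      rw [← Finset.sum_filter, hsplit x, Finset.sum_const, Finset.card_product, nsmul_eq_mul,
        mul_one]
      push_cast
      rw [card_match (Q := L) (J x) x (fun _ => k) hL, card_match (Q := Q) (J x) x (c x) hQ,
        (hJ x hx).1]
      rw [hΩ, mul_pow]
      ring
    rw [Finset.sum_congr rfl h2, Finset.sum_const, nsmul_eq_mul]
  -- second moment
  have h2 : ∑ p, (N p : ℝ) ^ 2 ≤ (11 / 10) * (P.card : ℝ) ^ 2 * (Ω / (ℓ * q) ^ (2 * W)) := by
    have e : ∀ p, (N p : ℝ) ^ 2 = ∑ x ∈ P, ∑ x' ∈ P,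
        if ((∀ v ∈ J x, p.1 (v, x v) = k ∧ p.2 (v, x v) = c x v) ∧
          (∀ v ∈ J x', p.1 (v, x' v) = k ∧ p.2 (v, x' v) = c x' v)) then (1 : ℝ) else 0 := by
      intro p
      have : (N p : ℝ) = ∑ x ∈ P,
        if (∀ v ∈ J x, p.1 (v, x v) = k ∧ p.2 (v, x v) = c x v) then (1 : ℝ) else 0 := by
        simp only [hN, Finset.card_filter]
        push_cast
        rfl
      rw [sq, this, Finset.sum_mul_sum]
      apply Finset.sum_congr rfl
      intro x _
      apply Finset.sum_congr rfl
      intro x' _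
      by_cases a : (∀ v ∈ J x, p.1 (v, x v) = k ∧ p.2 (v, x v) = c x v) <;>
        by_cases b : (∀ v ∈ J x', p.1 (v, x' v) = k ∧ p.2 (v, x' v) = c x' v)
      · rw [if_pos a, if_pos b, if_pos ⟨a, b⟩, mul_one]
      · rw [if_pos a, if_neg b, if_neg (fun h => b h.2), mul_zero]
      · rw [if_neg a, zero_mul, if_neg (fun h => a h.1)]
      · rw [if_neg a, zero_mul, if_neg (fun h => a h.1)]
    simp only [e]
    rw [Finset.sum_comm]
    have hin : ∀ x ∈ P, ∑ p : (V × M → L) × (V × M → Q), ∑ x' ∈ P,
        (if ((∀ v ∈ J x, p.1 (v, x v) = k ∧ p.2 (v, x v) = c x v) ∧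
          (∀ v ∈ J x', p.1 (v, x' v) = k ∧ p.2 (v, x' v) = c x' v)) then (1 : ℝ) else 0)
        ≤ (11 / 10) * (P.card : ℝ) * (Ω / (ℓ * q) ^ (2 * W)) := by
      intro x hx
      rw [Finset.sum_comm]
      have hxx : ∀ x' ∈ P, ∑ p : (V × M → L) × (V × M → Q),
          (if ((∀ v ∈ J x, p.1 (v, x v) = k ∧ p.2 (v, x v) = c x v) ∧
          (∀ v ∈ J x', p.1 (v, x' v) = k ∧ p.2 (v, x' v) = c x' v)) then (1 : ℝ) else 0)
          ≤ (Ω / (ℓ * q) ^ (2 * W)) * (ℓ * q) ^ ((J x).filter (fun v => x v = x' v)).card := by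
        intro x' hx'
        have hset : ((univ : Finset ((V × M → L) × (V × M → Q))).filter (fun p =>
            (∀ v ∈ J x, p.1 (v, x v) = k ∧ p.2 (v, x v) = c x v) ∧
            (∀ v ∈ J x', p.1 (v, x' v) = k ∧ p.2 (v, x' v) = c x' v)))
            = (univ.filter (fun κ : V × M → L => (∀ v ∈ J x, κ (v, x v) = (fun _ => k) v) ∧
                (∀ v ∈ J x', κ (v, x' v) = (fun _ => k) v))) ×ˢ
              (univ.filter (fun y : V × M → Q => (∀ v ∈ J x, y (v, x v) = c x v) ∧
                (∀ v ∈ J x', y (v, x' v) = c x' v))) := by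
          ext p
          simp only [mem_filter, mem_univ, true_and, mem_product]
          constructor
          · rintro ⟨h, h'⟩
            exact ⟨⟨fun v hv => (h v hv).1, fun v hv => (h' v hv).1⟩,
              ⟨fun v hv => (h v hv).2, fun v hv => (h' v hv).2⟩⟩
          · rintro ⟨⟨h1, h1'⟩, ⟨h2, h2'⟩⟩
            exact ⟨fun v hv => ⟨h1 v hv, h2 v hv⟩, fun v hv => ⟨h1' v hv, h2' v hv⟩⟩
        rw [← Finset.sum_filter, hset, Finset.sum_const, Finset.card_product, nsmul_eq_mul,
          mul_one]
        push_cast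
        set u := (cells (J x) x ∪ cells (J x') x').card with hu
        set a := ((J x).filter (fun v => x v = x' v)).card with ha
        have hcard : 2 * W ≤ u + a := by
          have := card_union_cells (J x) (J x') x x'
          rw [(hJ x hx).1, (hJ x' hx').1] at this
          omega
        have m1 := card_match_two (Q := L) (J x) (J x') x x' (fun _ => k) (fun _ => k) hL
        have m2 := card_match_two (Q := Q) (J x) (J x') x x' (c x) (c x') hQ
        rw [← hu, ← hn] at m1 m2
        have hℓq : (1 : ℝ) ≤ ℓ * q := by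
          have h1 : (1 : ℝ) ≤ ℓ := by rw [hℓ]; exact_mod_cast hL
          have h2 : (1 : ℝ) ≤ q := by rw [hq]; exact_mod_cast hQ
          nlinarith
        calc _ ≤ (ℓ ^ n * (1 / ℓ ^ u)) * (q ^ n * (1 / q ^ u)) := by
              apply mul_le_mul m1 m2 (by positivity) (by positivity)
          _ = Ω * (1 / (ℓ * q) ^ u) := by rw [hΩ, mul_pow]; ring
          _ ≤ Ω * ((ℓ * q) ^ a / (ℓ * q) ^ (2 * W)) := by
              apply mul_le_mul_of_nonneg_left _ hΩ0.le
              rw [div_le_div_iff₀ (by positivity) (by positivity), one_mul, ← pow_add]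
              apply pow_le_pow_right₀ hℓq
              omega
          _ = _ := by ring
      calc _ ≤ ∑ x' ∈ P, (Ω / (ℓ * q) ^ (2 * W)) * (ℓ * q) ^ ((J x).filter (fun v => x v = x' v)).card :=
            Finset.sum_le_sum hxx
        _ = (Ω / (ℓ * q) ^ (2 * W)) * ∑ x' ∈ P, (ℓ * q) ^ ((J x).filter (fun v => x v = x' v)).card := by
            rw [Finset.mul_sum]
        _ ≤ (Ω / (ℓ * q) ^ (2 * W)) * ((11 / 10) * (P.card : ℝ)) := by
            apply mul_le_mul_of_nonneg_left _ (by positivity)
            have := sum_pow_agree r W P I (J x) hd (hJ x hx).2 (hJ x hx).1 x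
              (Fintype.card L * Fintype.card Q) hr (Nat.mul_pos hL hQ) hW
            push_cast at this
            exact this
        _ = _ := by ring
    calc _ ≤ ∑ x ∈ P, (11 / 10) * (P.card : ℝ) * (Ω / (ℓ * q) ^ (2 * W)) := Finset.sum_le_sum hin
      _ = _ := by rw [Finset.sum_const, nsmul_eq_mul]; ring
  -- Cauchy-Schwarz
  set S := (univ : Finset ((V × M → L) × (V × M → Q))).filter (fun p => N p ≠ 0) with hS
  have h3 : (∑ p, (N p : ℝ)) ^ 2 ≤ (S.card : ℝ) * ∑ p, (N p : ℝ) ^ 2 := by
    have e1 : ∑ p, (N p : ℝ) = ∑ p ∈ S, (N p : ℝ) := by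
      rw [hS, Finset.sum_filter]
      apply Finset.sum_congr rfl
      intro p _
      by_cases h : N p = 0
      · simp [h]
      · simp [h]
    have e2 : ∑ p ∈ S, (N p : ℝ) ^ 2 ≤ ∑ p, (N p : ℝ) ^ 2 := by
      apply Finset.sum_le_sum_of_subset_of_nonneg (Finset.subset_univ _)
      intros
      positivity
    rw [e1]
    refine (sq_sum_le_card_mul_sum_sq).trans ?_
    exact mul_le_mul_of_nonneg_left e2 (by positivity)
  rw [h1] at h3
  have h4 : (10 / 11) * Ω ≤ (S.card : ℝ) := by
    have h5 := h3.trans (mul_le_mul_of_nonneg_left h2 (by positivity))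
    have e1 : ((P.card : ℝ) * (Ω / (ℓ * q) ^ W)) ^ 2
        = (P.card : ℝ) ^ 2 * Ω * (1 / (ℓ * q) ^ (2 * W)) * Ω := by
      rw [mul_pow, div_pow, ← pow_mul, mul_comm W 2]; ring
    have e2 : (S.card : ℝ) * ((11 / 10) * (P.card : ℝ) ^ 2 * (Ω / (ℓ * q) ^ (2 * W)))
        = (P.card : ℝ) ^ 2 * Ω * (1 / (ℓ * q) ^ (2 * W)) * ((11 / 10) * S.card) := by ring
    rw [e1, e2] at h5
    have h6 : (0 : ℝ) < (P.card : ℝ) ^ 2 * Ω * (1 / (ℓ * q) ^ (2 * W)) := by positivity
    have h7 := le_of_mul_le_mul_left h5 h6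
    linarith
  have h5 : ((univ.filter (fun p => N p = 0)).card : ℝ) + S.card = Ω := by
    have := Finset.card_filter_add_card_filter_not (s := (univ : Finset ((V × M → L) × (V × M → Q))))
      (p := fun p => N p = 0)
    have hcu : ((univ : Finset ((V × M → L) × (V × M → Q))).card : ℝ) = Ω := by
      rw [Finset.card_univ, Fintype.card_prod, Fintype.card_fun, Fintype.card_fun]
      push_cast
      rfl
    rw [← hcu, ← this]
    push_cast
    rfl
  have : ((univ.filter (fun p => N p = 0)).card : ℝ) ≤ (1 / 11) * Ω := by linarith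
  exact this

/-- Full range lemma. -/
theorem full_range (r W Δ : ℕ) (P : Finset (V → M)) (hP : P.Nonempty) (I : Finset V)
    (hd : Dense r P I) (J : (V → M) → Finset V)
    (hJ : ∀ x ∈ P, (J x).card = W ∧ Disjoint (J x) I) (c : (V → M) → V → Q)
    (hQ : 0 < Fintype.card Q) (hr : 0 < r)
    (hW : 20 * W * ((Δ + 1) * Fintype.card Q) ≤ r)
    (Y : Finset (V × M → Q))
    (hY : (Fintype.card Q) ^ (Fintype.card (V × M)) ≤ Y.card * 2 ^ Δ) :
    ∃ x ∈ P, ∃ y ∈ Y, ∀ v ∈ J x, y (v, x v) = c x v := by
  classical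
  by_contra hcon
  push Not at hcon
  set L := Fin (Δ + 1) with hL
  have hLc : Fintype.card L = Δ + 1 := Fintype.card_fin _
  set n := Fintype.card (V × M) with hn
  set q : ℝ := (Fintype.card Q : ℝ) with hq
  have hq0 : 0 < q := by rw [hq]; exact_mod_cast hQ
  set Z : ℝ := q ^ n with hZ
  have hZ0 : 0 < Z := by positivity
  -- bad set in colour k
  let Bad : L → (V × M → L) → (V × M → Q) → Prop := fun k κ y =>
    (P.filter (fun x => ∀ v ∈ J x, κ (v, x v) = k ∧ y (v, x v) = c x v)).card = 0
  have hfew : ∀ k : L, (((univ : Finset ((V × M → L) × (V × M → Q))).filter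
      (fun p => Bad k p.1 p.2)).card : ℝ) ≤ (1 / 11) * (((Δ + 1 : ℕ) : ℝ) ^ n * Z) := by
    intro k
    have := few_unmatched (L := L) r W P hP I hd J hJ c (by rw [hLc]; omega) hQ hr
      (by rw [hLc]; exact hW) k
    rw [hLc] at this
    exact this
  -- sum over colours and choose a colouring
  have hsum : ∑ κ : V × M → L, ∑ k : L, ((univ.filter (fun y : V × M → Q => Bad k κ y)).card : ℝ)
      ≤ ∑ κ : V × M → L, ((Δ + 1 : ℕ) : ℝ) * Z / 11 := by
    rw [Finset.sum_comm]
    have e : ∀ k : L, ∑ κ : V × M → L, ((univ.filter (fun y : V × M → Q => Bad k κ y)).card : ℝ)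
        = (((univ : Finset ((V × M → L) × (V × M → Q))).filter
      (fun p => Bad k p.1 p.2)).card : ℝ) := by
      intro k
      rw [← Finset.univ_product_univ, Finset.card_filter, Finset.sum_product]
      push_cast
      apply Finset.sum_congr rfl
      intro κ _
      rw [Finset.card_filter]
      push_cast
      rfl
    calc _ = ∑ k : L, (((univ : Finset ((V × M → L) × (V × M → Q))).filter
      (fun p => Bad k p.1 p.2)).card : ℝ) := Finset.sum_congr rfl (fun k _ => e k)
      _ ≤ ∑ k : L, (1 / 11) * (((Δ + 1 : ℕ) : ℝ) ^ n * Z) := Finset.sum_le_sum (fun k _ => hfew k)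
      _ = _ := by
        rw [Finset.sum_const, Finset.sum_const, Finset.card_univ, Finset.card_univ,
          Fintype.card_fun, hLc]
        simp only [nsmul_eq_mul]
        push_cast
        ring
  obtain ⟨κ, -, hκ⟩ := Finset.exists_le_of_sum_le (s := (univ : Finset (V × M → L)))
    ⟨fun _ => 0, Finset.mem_univ _⟩ hsum
  -- independence
  have hdep : ∀ (k : L) (y y' : V × M → Q), (∀ p, κ p = k → y p = y' p) →
      (Bad k κ y ↔ Bad k κ y') := by
    intro k y y' hyy
    have : (P.filter (fun x => ∀ v ∈ J x, κ (v, x v) = k ∧ y (v, x v) = c x v))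
        = (P.filter (fun x => ∀ v ∈ J x, κ (v, x v) = k ∧ y' (v, x v) = c x v)) := by
      apply Finset.filter_congr
      intro x _
      constructor
      · intro h v hv
        have := h v hv
        exact ⟨this.1, by rw [← hyy _ this.1]; exact this.2⟩
      · intro h v hv
        have := h v hv
        exact ⟨this.1, by rw [hyy _ this.1]; exact this.2⟩
    change (P.filter _).card = 0 ↔ (P.filter _).card = 0
    rw [this]
  have hind := card_indep_colours κ (fun k y => Bad k κ y) hdep (univ : Finset L)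
  have hcu : ((univ : Finset (V × M → Q)).card : ℝ) = Z := by
    rw [Finset.card_univ, Fintype.card_fun]
    push_cast
    rfl
  rw [hcu] at hind
  have hYsub : Y ⊆ univ.filter (fun y : V × M → Q => ∀ k ∈ (univ : Finset L), Bad k κ y) := by
    intro y hy
    simp only [mem_filter, mem_univ, true_and]
    intro k _
    change (P.filter _).card = 0
    rw [Finset.card_eq_zero, Finset.filter_eq_empty_iff]
    intro x hx h
    obtain ⟨v, hv, hne⟩ := hcon x hx y hy
    exact hne (h v hv).2
  have hYle : (Y.card : ℝ) ≤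
      ((univ.filter (fun y : V × M → Q => ∀ k ∈ (univ : Finset L), Bad k κ y)).card : ℝ) := by
    exact_mod_cast Finset.card_le_card hYsub
  have hcardL : (univ : Finset L).card = Δ + 1 := by rw [Finset.card_univ, hLc]
  have hexp : ∏ k : L, ((univ.filter (fun y : V × M → Q => Bad k κ y)).card : ℝ)
      ≤ Z ^ (Δ + 1) * Real.exp (-(10 / 11) * (Δ + 1)) := by
    have h1 : ∀ k ∈ (univ : Finset L), ((univ.filter (fun y : V × M → Q => Bad k κ y)).card : ℝ)
        ≤ Z * Real.exp (((univ.filter (fun y : V × M → Q => Bad k κ y)).card : ℝ) / Z - 1) := by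
      intro k _
      have := Real.add_one_le_exp
        (((univ.filter (fun y : V × M → Q => Bad k κ y)).card : ℝ) / Z - 1)
      have h2 : ((univ.filter (fun y : V × M → Q => Bad k κ y)).card : ℝ)
          = Z * (((univ.filter (fun y : V × M → Q => Bad k κ y)).card : ℝ) / Z - 1 + 1) := by
        field_simp
        ring
      calc _ = Z * (((univ.filter (fun y : V × M → Q => Bad k κ y)).card : ℝ) / Z - 1 + 1) := h2
        _ ≤ _ := mul_le_mul_of_nonneg_left this hZ0.le
    calc _ ≤ ∏ k : L, (Z * Real.exp (((univ.filter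
          (fun y : V × M → Q => Bad k κ y)).card : ℝ) / Z - 1)) :=
          Finset.prod_le_prod (fun k _ => by positivity) h1
      _ = Z ^ (Δ + 1) * Real.exp (∑ k : L, (((univ.filter
          (fun y : V × M → Q => Bad k κ y)).card : ℝ) / Z - 1)) := by
          rw [Finset.prod_mul_distrib, Finset.prod_const, hcardL, Real.exp_sum]
      _ ≤ _ := by
          apply mul_le_mul_of_nonneg_left _ (by positivity)
          apply Real.exp_le_exp.mpr
          rw [Finset.sum_sub_distrib, ← Finset.sum_div, Finset.sum_const, hcardL]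
          simp only [nsmul_eq_mul, mul_one]
          have : (∑ k : L, ((univ.filter (fun y : V × M → Q => Bad k κ y)).card : ℝ)) / Z
              ≤ ((Δ + 1 : ℕ) : ℝ) / 11 := by
            rw [div_le_iff₀ hZ0]
            linarith
          push_cast at this ⊢
          linarith
  have hfin : (Y.card : ℝ) ≤ Z * Real.exp (-(10 / 11) * (Δ + 1)) := by
    rw [hcardL] at hind
    have h1 : (Y.card : ℝ) * Z ^ (Δ + 1) ≤ (Z * Real.exp (-(10 / 11) * (Δ + 1))) * Z ^ (Δ + 1) := by
      calc _ ≤ ((univ.filter (fun y : V × M → Q => ∀ k ∈ (univ : Finset L), Bad k κ y)).card : ℝ)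
            * Z ^ (Δ + 1) := mul_le_mul_of_nonneg_right hYle (by positivity)
        _ = Z * ∏ k : L, ((univ.filter (fun y : V × M → Q => Bad k κ y)).card : ℝ) := by
            convert hind
        _ ≤ Z * (Z ^ (Δ + 1) * Real.exp (-(10 / 11) * (Δ + 1))) :=
            mul_le_mul_of_nonneg_left hexp hZ0.le
        _ = _ := by ring
    exact le_of_mul_le_mul_right h1 (by positivity)
  have h2 : Real.exp (-(10 / 11) * ((Δ : ℝ) + 1)) ≤ (1 / 2) ^ (Δ + 1) := by
    have h3 : Real.exp (-(10 / 11)) ≤ 1 / 2 := by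
      have := Real.log_two_lt_d9
      have h4 : Real.exp (-(10 / 11)) ≤ Real.exp (-Real.log 2) := by
        apply Real.exp_le_exp.mpr
        linarith
      rw [Real.exp_neg (Real.log 2), Real.exp_log (by norm_num)] at h4
      linarith
    calc Real.exp (-(10 / 11) * ((Δ : ℝ) + 1)) = (Real.exp (-(10 / 11))) ^ (Δ + 1) := by
          rw [← Real.exp_nat_mul]
          congr 1
          push_cast
          ring
      _ ≤ _ := pow_le_pow_left₀ (Real.exp_pos _).le h3 _
  have hY' : Z ≤ (Y.card : ℝ) * 2 ^ Δ := by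
    rw [hZ, hq]
    exact_mod_cast hY
  have h3 : Z ≤ Z * (1 / 2) := by
    calc Z ≤ (Y.card : ℝ) * 2 ^ Δ := hY'
      _ ≤ (Z * (1 / 2) ^ (Δ + 1)) * 2 ^ Δ := by
          apply mul_le_mul_of_nonneg_right _ (by positivity)
          exact hfin.trans (mul_le_mul_of_nonneg_left h2 hZ0.le)
      _ = Z * (1 / 2) * ((1 / 2) ^ Δ * 2 ^ Δ) := by rw [pow_succ]; ring
      _ = Z * (1 / 2) := by rw [← mul_pow]; norm_num
  linarith

end FR

/-! ## Partition -/

section Part

variable {V M : Type*} [Fintype V] [DecidableEq V] [Fintype M] [DecidableEq M]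

lemma card_fixed_le (I : Finset V) (γ : V → M) (hM : 0 < Fintype.card M) (X : Finset (V → M)) :
    (X.filter (fun x => ∀ v ∈ I, x v = γ v)).card * (Fintype.card M) ^ I.card
      ≤ (Fintype.card M) ^ (Fintype.card V) := by
  rw [← card_prescribed I γ]
  apply Nat.mul_le_mul_right
  apply Finset.card_le_card
  intro x hx
  simp only [mem_filter, mem_univ, true_and] at hx ⊢
  exact hx.2

/-- Partition of a set of assignments into spread pieces, up to a small error. -/
theorem partition_lemma (r W : ℕ) (hM : Fintype.card M = r * r) (hr : 0 < r)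
    (X : Finset (V → M)) :
    ∃ E ⊆ X, E.card * r ^ (W + 1) ≤ (Fintype.card M) ^ (Fintype.card V) ∧
      ∀ x ∈ X \ E, ∃ P ⊆ X \ E, ∃ I : Finset V, I.card ≤ W ∧ x ∈ P ∧
        (∀ x' ∈ P, ∀ v ∈ I, x' v = x v) ∧ Dense r P I := by
  induction hk : X.card using Nat.strong_induction_on generalizing X with
  | _ k ih =>
  rcases X.eq_empty_or_nonempty with rfl | hX
  · refine ⟨∅, by simp, by simp, by simp⟩
  have hXpos : 0 < X.card := hX.card_pos
  have hMpos : 0 < Fintype.card M := by rw [hM]; positivity
  classical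
  -- choose a maximal dense restriction
  let good : Finset (Finset V × (V → M)) := univ.filter (fun p =>
    X.card ≤ (X.filter (fun x => ∀ v ∈ p.1, x v = p.2 v)).card * r ^ p.1.card)
  obtain ⟨x0, hx0⟩ := hX
  have hgood : good.Nonempty := ⟨(∅, x0), by simp [good]⟩
  obtain ⟨⟨I, γ⟩, hI, hmax⟩ := Finset.exists_max_image good (fun p => p.1.card) hgood
  simp only [good, mem_filter, mem_univ, true_and] at hI hmax
  set P := X.filter (fun x => ∀ v ∈ I, x v = γ v) with hP
  have hPX : P ⊆ X := Finset.filter_subset _ _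
  have hPpos : 0 < P.card := by
    by_contra h0
    have : P.card = 0 := by omega
    rw [this] at hI
    omega
  have hdense : Dense r P I := by
    intro K hK γ'
    rcases K.eq_empty_or_nonempty with rfl | hKne
    · simp
    · let γ'' : V → M := fun v => if v ∈ I then γ v else γ' v
      have hset : P.filter (fun x => ∀ v ∈ K, x v = γ' v)
          = X.filter (fun x => ∀ v ∈ I ∪ K, x v = γ'' v) := by
        ext x
        simp only [hP, mem_filter, mem_union]
        constructor
        · rintro ⟨⟨hx, h1⟩, h2⟩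
          refine ⟨hx, ?_⟩
          intro v hv
          by_cases hvI : v ∈ I
          · simp only [γ'', if_pos hvI]
            exact h1 v hvI
          · simp only [γ'', if_neg hvI]
            exact h2 v (hv.resolve_left hvI)
        · rintro ⟨hx, h1⟩
          refine ⟨⟨hx, ?_⟩, ?_⟩
          · intro v hv
            have := h1 v (Or.inl hv)
            simpa only [γ'', if_pos hv] using this
          · intro v hv
            have hvI : v ∉ I := fun h => (Finset.disjoint_left.mp hK hv) h
            have := h1 v (Or.inr hv)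
            simpa only [γ'', if_neg hvI] using this
      have hcard : (I ∪ K).card = I.card + K.card :=
        Finset.card_union_of_disjoint hK.symm
      have hKpos : 0 < K.card := hKne.card_pos
      have hnot : ¬ X.card ≤ (X.filter (fun x => ∀ v ∈ I ∪ K, x v = γ'' v)).card
          * r ^ (I ∪ K).card := by
        intro h
        have := hmax (I ∪ K, γ'') h
        simp only at this
        omega
      rw [hset]
      rw [hcard, pow_add] at hnot
      have hrI : 0 < r ^ I.card := by positivity
      have h1 : (X.filter (fun x => ∀ v ∈ I ∪ K, x v = γ'' v)).card * r ^ K.card * r ^ I.card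
          ≤ P.card * r ^ I.card := by
        have : (X.filter (fun x => ∀ v ∈ I ∪ K, x v = γ'' v)).card * r ^ K.card * r ^ I.card
          = (X.filter (fun x => ∀ v ∈ I ∪ K, x v = γ'' v)).card * (r ^ I.card * r ^ K.card) := by
          ring
        rw [this]
        omega
      exact Nat.le_of_mul_le_mul_right h1 hrI
  by_cases hIW : I.card ≤ W
  · -- continue with the rest
    have hlt : (X \ P).card < k := by
      rw [← hk, Finset.card_sdiff_of_subset hPX]
      omega
    obtain ⟨E, hE, hEc, hrest⟩ := ih (X \ P).card hlt (X \ P) rfl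
    have hEX : E ⊆ X := hE.trans Finset.sdiff_subset
    have hPE : P ⊆ X \ E := by
      intro x hx
      rw [Finset.mem_sdiff]
      refine ⟨hPX hx, fun hxE => ?_⟩
      have := hE hxE
      rw [Finset.mem_sdiff] at this
      exact this.2 hx
    refine ⟨E, hEX, hEc, ?_⟩
    intro x hx
    rw [Finset.mem_sdiff] at hx
    by_cases hxP : x ∈ P
    · refine ⟨P, hPE, I, hIW, hxP, ?_, hdense⟩
      intro x' hx' v hv
      have h1 := (Finset.mem_filter.mp hx').2 v hv
      have h2 := (Finset.mem_filter.mp hxP).2 v hv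
      rw [h1, h2]
    · obtain ⟨P', hP', I', hI', hxP', hfix, hd'⟩ := hrest x (by
        rw [Finset.mem_sdiff, Finset.mem_sdiff]
        exact ⟨⟨hx.1, hxP⟩, hx.2⟩)
      refine ⟨P', ?_, I', hI', hxP', hfix, hd'⟩
      intro z hz
      have := hP' hz
      rw [Finset.mem_sdiff, Finset.mem_sdiff] at this
      rw [Finset.mem_sdiff]
      exact ⟨this.1.1, this.2⟩
  · -- error
    refine ⟨X, Finset.Subset.refl _, ?_, by simp⟩
    have h1 := card_fixed_le I γ hMpos X
    rw [← hP] at h1
    have h2 : r ^ (W + 1) ≤ r ^ I.card := Nat.pow_le_pow_right hr (by omega)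
    calc X.card * r ^ (W + 1) ≤ X.card * r ^ I.card := Nat.mul_le_mul_left _ h2
      _ ≤ (P.card * r ^ I.card) * r ^ I.card := Nat.mul_le_mul_right _ hI
      _ = P.card * (Fintype.card M) ^ I.card := by rw [hM, mul_pow]; ring
      _ ≤ _ := h1

end Part

/-! ## One simulation step -/

section Sim

variable {V M Q : Type*} [Fintype V] [DecidableEq V] [Fintype M] [DecidableEq M]
  [Fintype Q] [DecidableEq Q]

/-- X-side error of a set -/
noncomputable def errX (r W : ℕ) (hM : Fintype.card M = r * r) (hr : 0 < r)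
    (X : Finset (V → M)) : Finset (V → M) :=
  (partition_lemma r W hM hr X).choose

lemma errX_spec (r W : ℕ) (hM : Fintype.card M = r * r) (hr : 0 < r) (X : Finset (V → M)) :
    errX r W hM hr X ⊆ X ∧
    (errX r W hM hr X).card * r ^ (W + 1) ≤ (Fintype.card M) ^ (Fintype.card V) ∧
      ∀ x ∈ X \ errX r W hM hr X, ∃ P ⊆ X \ errX r W hM hr X, ∃ I : Finset V, I.card ≤ W ∧ x ∈ P ∧
        (∀ x' ∈ P, ∀ v ∈ I, x' v = x v) ∧ Dense r P I :=
  (partition_lemma r W hM hr X).choose_spec

/-- accumulated X-errors -/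
noncomputable def UX (r W : ℕ) (hM : Fintype.card M = r * r) (hr : 0 < r)
    (X0 : ℕ → Finset (V → M)) : ℕ → Finset (V → M)
  | 0 => ∅
  | k + 1 => UX r W hM hr X0 k ∪ errX r W hM hr (X0 k \ UX r W hM hr X0 k)

/-- the good part of node `k`, Alice side -/
noncomputable def GX (r W : ℕ) (hM : Fintype.card M = r * r) (hr : 0 < r)
    (X0 : ℕ → Finset (V → M)) (k : ℕ) : Finset (V → M) := X0 k \ UX r W hM hr X0 (k + 1)

lemma UX_mono (r W : ℕ) (hM : Fintype.card M = r * r) (hr : 0 < r)
    (X0 : ℕ → Finset (V → M)) {k l : ℕ} (hkl : k ≤ l) :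
    UX r W hM hr X0 k ⊆ UX r W hM hr X0 l := by
  induction hkl with
  | refl => exact Finset.Subset.refl _
  | step _ ih =>
    refine ih.trans ?_
    conv_rhs => unfold UX
    exact Finset.subset_union_left

lemma UX_card (r W : ℕ) (hM : Fintype.card M = r * r) (hr : 0 < r)
    (X0 : ℕ → Finset (V → M)) (k : ℕ) :
    (UX r W hM hr X0 k).card * r ^ (W + 1) ≤ k * (Fintype.card M) ^ (Fintype.card V) := by
  induction k with
  | zero => simp [UX]
  | succ k ih =>
    have h1 := (errX_spec r W hM hr (X0 k \ UX r W hM hr X0 k)).2.1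
    have h2 : (UX r W hM hr X0 (k + 1)).card ≤ (UX r W hM hr X0 k).card
        + (errX r W hM hr (X0 k \ UX r W hM hr X0 k)).card := by
      conv_lhs => unfold UX
      exact Finset.card_union_le _ _
    calc _ ≤ ((UX r W hM hr X0 k).card
        + (errX r W hM hr (X0 k \ UX r W hM hr X0 k)).card) * r ^ (W + 1) :=
          Nat.mul_le_mul_right _ h2
      _ ≤ _ := by rw [add_mul, add_mul, one_mul]; exact Nat.add_le_add ih h1

lemma GX_eq (r W : ℕ) (hM : Fintype.card M = r * r) (hr : 0 < r)
    (X0 : ℕ → Finset (V → M)) (k : ℕ) :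
    GX r W hM hr X0 k = (X0 k \ UX r W hM hr X0 k) \ errX r W hM hr (X0 k \ UX r W hM hr X0 k) := by
  unfold GX
  conv_lhs => unfold UX
  ext x
  simp only [mem_sdiff, mem_union, not_or]
  tauto

/-- A pattern on the Bob side. -/
def sat {W : ℕ} (p : Fin W → Option (V × M × Q)) (y : V × M → Q) : Prop :=
  ∀ i v a b, p i = some (v, a, b) → y (v, a) = b

/-- Y-side error -/
noncomputable def errY (W Δ : ℕ) (Y : Finset (V × M → Q)) : Finset (V × M → Q) := by
  classical
  exact Y.filter (fun y => ∃ p : Fin W → Option (V × M × Q), sat p y ∧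
    (Y.filter (fun y' => sat p y')).card * 2 ^ Δ < (Fintype.card Q) ^ (Fintype.card (V × M)))

lemma errY_card (W Δ : ℕ) (Y : Finset (V × M → Q)) :
    (errY W Δ Y).card * 2 ^ Δ ≤ (Fintype.card V * Fintype.card M * Fintype.card Q + 1) ^ W *
      (Fintype.card Q) ^ (Fintype.card (V × M)) := by
  classical
  let small : Finset (Fin W → Option (V × M × Q)) := univ.filter (fun p =>
    (Y.filter (fun y' => sat p y')).card * 2 ^ Δ < (Fintype.card Q) ^ (Fintype.card (V × M)))
  have hsub : errY W Δ Y ⊆ small.biUnion (fun p => Y.filter (fun y' => sat p y')) := by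
    intro y hy
    unfold errY at hy
    simp only [mem_filter] at hy
    obtain ⟨hyY, p, hp, hs⟩ := hy
    rw [Finset.mem_biUnion]
    exact ⟨p, by simp only [small, mem_filter, mem_univ, true_and]; exact hs,
      by rw [mem_filter]; exact ⟨hyY, hp⟩⟩
  calc (errY W Δ Y).card * 2 ^ Δ
      ≤ (small.biUnion (fun p => Y.filter (fun y' => sat p y'))).card * 2 ^ Δ :=
        Nat.mul_le_mul_right _ (Finset.card_le_card hsub)
    _ ≤ (∑ p ∈ small, (Y.filter (fun y' => sat p y')).card) * 2 ^ Δ :=
        Nat.mul_le_mul_right _ Finset.card_biUnion_le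
    _ = ∑ p ∈ small, (Y.filter (fun y' => sat p y')).card * 2 ^ Δ := Finset.sum_mul _ _ _
    _ ≤ ∑ p ∈ small, (Fintype.card Q) ^ (Fintype.card (V × M)) := by
        apply Finset.sum_le_sum
        intro p hp
        simp only [small, mem_filter, mem_univ, true_and] at hp
        exact hp.le
    _ = small.card * (Fintype.card Q) ^ (Fintype.card (V × M)) := by
        rw [Finset.sum_const, smul_eq_mul]
    _ ≤ _ := by
        apply Nat.mul_le_mul_right
        calc small.card ≤ (univ : Finset (Fin W → Option (V × M × Q))).card :=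
              Finset.card_le_card (Finset.filter_subset _ _)
          _ = _ := by
            rw [Finset.card_univ, Fintype.card_fun, Fintype.card_fin, Fintype.card_option,
              Fintype.card_prod, Fintype.card_prod]
            ring

/-- accumulated Y-errors -/
noncomputable def UY (W Δ : ℕ) (Y0 : ℕ → Finset (V × M → Q)) : ℕ → Finset (V × M → Q)
  | 0 => ∅
  | k + 1 => UY W Δ Y0 k ∪ errY W Δ (Y0 k \ UY W Δ Y0 k)

/-- the good part of node `k`, Bob side -/
noncomputable def GY (W Δ : ℕ) (Y0 : ℕ → Finset (V × M → Q)) (k : ℕ) : Finset (V × M → Q) :=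
  Y0 k \ UY W Δ Y0 (k + 1)

lemma UY_mono (W Δ : ℕ) (Y0 : ℕ → Finset (V × M → Q)) {k l : ℕ} (hkl : k ≤ l) :
    UY W Δ Y0 k ⊆ UY W Δ Y0 l := by
  induction hkl with
  | refl => exact Finset.Subset.refl _
  | step _ ih =>
    refine ih.trans ?_
    conv_rhs => unfold UY
    exact Finset.subset_union_left

lemma UY_card (W Δ : ℕ) (Y0 : ℕ → Finset (V × M → Q)) (k : ℕ) :
    (UY W Δ Y0 k).card * 2 ^ Δ ≤ k * ((Fintype.card V * Fintype.card M * Fintype.card Q + 1) ^ W *
      (Fintype.card Q) ^ (Fintype.card (V × M))) := by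
  induction k with
  | zero => simp [UY]
  | succ k ih =>
    have h1 := errY_card W Δ (Y0 k \ UY W Δ Y0 k)
    have h2 : (UY W Δ Y0 (k + 1)).card ≤ (UY W Δ Y0 k).card
        + (errY W Δ (Y0 k \ UY W Δ Y0 k)).card := by
      conv_lhs => unfold UY
      exact Finset.card_union_le _ _
    calc _ ≤ ((UY W Δ Y0 k).card + (errY W Δ (Y0 k \ UY W Δ Y0 k)).card) * 2 ^ Δ :=
          Nat.mul_le_mul_right _ h2
      _ ≤ _ := by rw [add_mul, add_mul, one_mul]; exact Nat.add_le_add ih h1

/-- A good state at node `k`. -/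
def Good (r W Δ : ℕ) (hM : Fintype.card M = r * r) (hr : 0 < r)
    (X0 : ℕ → Finset (V → M)) (Y0 : ℕ → Finset (V × M → Q)) (k : ℕ)
    (I : Finset V) (γ : V → M) (b : V → Q) : Prop :=
  ∃ P ⊆ GX r W hM hr X0 k, P.Nonempty ∧ (∀ x ∈ P, ∀ v ∈ I, x v = γ v) ∧ Dense r P I ∧
    I.card ≤ W ∧ ∃ Y' ⊆ Y0 k \ UY W Δ Y0 k, (∀ y ∈ Y', ∀ v ∈ I, y (v, γ v) = b v) ∧
      (Fintype.card Q) ^ (Fintype.card (V × M)) ≤ Y'.card * 2 ^ Δ

/-- The core step of the simulation. -/
theorem core_step (r W Δ : ℕ) (hM : Fintype.card M = r * r) (hr : 0 < r)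
    (X0 : ℕ → Finset (V → M)) (Y0 : ℕ → Finset (V × M → Q))
    (hQ : 0 < Fintype.card Q) (hV : 2 * W ≤ Fintype.card V)
    (hW : 20 * W * ((Δ + 2) * Fintype.card Q) ≤ r)
    (P : Finset (V → M)) (hP : P.Nonempty) (I : Finset V) (hIW : I.card ≤ W)
    (hd : Dense r P I) (γ : V → M) (b : V → Q) (hγ : ∀ x ∈ P, ∀ v ∈ I, x v = γ v)
    (Y' : Finset (V × M → Q)) (hYc : (Fintype.card Q) ^ (Fintype.card (V × M)) ≤ Y'.card * 2 ^ (Δ + 1))
    (hb : ∀ y ∈ Y', ∀ v ∈ I, y (v, γ v) = b v)
    (κ : (V → M) → ℕ) (hκX : ∀ x ∈ P, x ∈ GX r W hM hr X0 (κ x))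
    (hκY : ∀ x ∈ P, ∀ y ∈ Y', y ∈ GY W Δ Y0 (κ x))
    (c : Finset V → V → Q) :
    ∃ x ∈ P, ∃ (I' : Finset V) (γ' : V → M) (b' : V → Q),
      Good r W Δ hM hr X0 Y0 (κ x) I' γ' b' ∧ (∀ v ∈ I', v ∈ I → γ' v = γ v ∧ b' v = b v) ∧
      (∀ v ∈ I', v ∉ I → b' v = c I' v) := by
  classical
  -- parts
  have hpart : ∀ x ∈ P, ∃ P' ⊆ GX r W hM hr X0 (κ x), ∃ I' : Finset V, I'.card ≤ W ∧ x ∈ P' ∧
        (∀ x' ∈ P', ∀ v ∈ I', x' v = x v) ∧ Dense r P' I' := by
    intro x hx
    have h := hκX x hx
    rw [GX_eq] at h ⊢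
    exact (errX_spec r W hM hr (X0 (κ x) \ UX r W hM hr X0 (κ x))).2.2 x h
  choose! P' hP' I' hI'W hxP' hfix hd' using hpart
  -- extend the query sets
  have hext : ∀ x ∈ P, ∃ J : Finset V, I' x \ I ⊆ J ∧ J ⊆ Iᶜ ∧ J.card = W := by
    intro x hx
    apply Finset.exists_subsuperset_card_eq
    · intro v hv
      rw [Finset.mem_sdiff] at hv
      rw [Finset.mem_compl]
      exact hv.2
    · exact (Finset.card_le_card Finset.sdiff_subset).trans (hI'W x hx)
    · rw [Finset.card_compl]
      omega
  choose! J hJ1 hJ2 hJ3 using hext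
  obtain ⟨x, hx, y, hy, hxy⟩ := full_range (Q := Q) r W (Δ + 1) P hP I hd J
    (fun x hx => ⟨hJ3 x hx, by
      rw [Finset.disjoint_left]
      intro v hv
      exact Finset.mem_compl.mp (hJ2 x hx hv)⟩)
    (fun x v => c (I' x) v) hQ hr (by
      have : Δ + 1 + 1 = Δ + 2 := rfl
      rw [this]; exact hW) Y' hYc
  refine ⟨x, hx, I' x, x, fun v => y (v, x v), ?_, ?_, ?_⟩
  · refine ⟨P' x, hP' x hx, ⟨x, hxP' x hx⟩, hfix x hx, hd' x hx, hI'W x hx, ?_⟩
    -- the Bob side
    have hyG := hκY x hx y hy
    unfold GY at hyG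
    conv at hyG => unfold UY
    rw [Finset.mem_sdiff, Finset.mem_union, not_or] at hyG
    obtain ⟨hy0, hyU, hyE⟩ := hyG
    set Yk := Y0 (κ x) \ UY W Δ Y0 (κ x) with hYk
    have hyYk : y ∈ Yk := Finset.mem_sdiff.mpr ⟨hy0, hyU⟩
    -- encode the pattern
    let e := (I' x).equivFin
    let p : Fin W → Option (V × M × Q) := fun i =>
      if h : i.val < (I' x).card then
        some ((e.symm ⟨i.val, h⟩ : V), x (e.symm ⟨i.val, h⟩ : V),
          y ((e.symm ⟨i.val, h⟩ : V), x (e.symm ⟨i.val, h⟩ : V)))
      else none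
    have hp : ∀ y' : V × M → Q, sat p y' ↔ ∀ v ∈ I' x, y' (v, x v) = y (v, x v) := by
      intro y'
      constructor
      · intro hs v hv
        let i := e ⟨v, hv⟩
        have hiW : i.val < W := lt_of_lt_of_le i.2 (hI'W x hx)
        have := hs ⟨i.val, hiW⟩ v (x v) (y (v, x v)) (by
          simp only [p]
          rw [dif_pos i.2]
          have : e.symm ⟨i.val, i.2⟩ = ⟨v, hv⟩ := by
            change e.symm (e ⟨v, hv⟩) = _
            simp
          rw [this])
        exact this
      · intro h i v a b' hpi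
        simp only [p] at hpi
        split_ifs at hpi with hlt
        simp only [Option.some.injEq, Prod.mk.injEq] at hpi
        obtain ⟨rfl, rfl, rfl⟩ := hpi
        exact h _ (e.symm ⟨i.val, hlt⟩).2
    have hbig : (Fintype.card Q) ^ (Fintype.card (V × M)) ≤
        (Yk.filter (fun y' => sat p y')).card * 2 ^ Δ := by
      by_contra hlt
      push Not at hlt
      apply hyE
      unfold errY
      rw [Finset.mem_filter]
      exact ⟨hyYk, p, (hp y).mpr (fun v _ => rfl), hlt⟩
    refine ⟨Yk.filter (fun y' => sat p y'), Finset.filter_subset _ _, ?_, hbig⟩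
    intro y' hy' v hv
    rw [Finset.mem_filter] at hy'
    exact (hp y').mp hy'.2 v hv
  · intro v _ hvI
    have h1 := hγ x hx v hvI
    refine ⟨h1, ?_⟩
    simp only
    rw [h1]
    exact hb y hy v hvI
  · intro v hv hvI
    exact hxy v (hJ1 x hx (Finset.mem_sdiff.mpr ⟨hv, hvI⟩))

end Sim

/-! ## The function and its invariant -/

/-! ### The function -/

/-- Iterated AND-OR reachability. -/
def run {w m : ℕ} (E : ℕ → Fin w × Fin m → Fin w × Fin m → Bool) : ℕ → Fin w × Fin m → Bool
  | 0 => fun _ => true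
  | t + 1 => fun p' => decide (∀ i, ∃ a, run E t (i, a) = true ∧ E t (i, a) p' = true)

/-! ### Alice and Bob assignments -/

section AB

variable {T w m : ℕ}

/-- compatibility of a vertex in layer `s` with Alice's choice -/
def al (σ : Fin T × Fin w → Fin m) (s : ℕ) (p : Fin w × Fin m) : Prop :=
  ∀ h : 0 < s ∧ s - 1 < T, p.2 = σ (⟨s - 1, h.2⟩, p.1)

instance (σ : Fin T × Fin w → Fin m) (s : ℕ) (p : Fin w × Fin m) : Decidable (al σ s p) := by
  unfold al; infer_instance

/-- Alice's edges -/
def EA (σ : Fin T × Fin w → Fin m) (t : ℕ) (p p' : Fin w × Fin m) : Bool :=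
  decide (al σ t p ∧ al σ (t + 1) p')

/-- Bob's values, extended by `one` at the bottom and `zero with pointer 0` at the top -/
def yh (w0 : Fin w) (y : (Fin T × Fin w) × Fin m → Option (Fin w)) (s : ℕ) (p : Fin w × Fin m) :
    Option (Fin w) :=
  if s = 0 then none else if h : s - 1 < T then y ((⟨s - 1, h⟩, p.1), p.2) else some w0

/-- Bob's edges -/
def EB (w0 : Fin w) (y : (Fin T × Fin w) × Fin m → Option (Fin w)) (t : ℕ)
    (p p' : Fin w × Fin m) : Bool :=
  decide (¬ (yh w0 y (t + 1) p' = some p.1 ∧ yh w0 y t p = none))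

lemma run_alice (hm : 0 < m) (σ : Fin T × Fin w → Fin m) (s : ℕ) (p : Fin w × Fin m)
    (hp : al σ s p) : run (EA σ) s p = true := by
  induction s generalizing p with
  | zero => rfl
  | succ s ih =>
    simp only [run, decide_eq_true_eq]
    intro i
    have hex : ∃ a : Fin m, al σ s (i, a) := by
      by_cases h : 0 < s ∧ s - 1 < T
      · exact ⟨σ (⟨s - 1, h.2⟩, i), fun _ => rfl⟩
      · exact ⟨⟨0, hm⟩, fun h' => absurd h' h⟩
    obtain ⟨a, ha⟩ := hex
    exact ⟨a, ih (i, a) ha, by simp only [EA, decide_eq_true_eq]; exact ⟨ha, hp⟩⟩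

lemma run_bob (w0 : Fin w) (y : (Fin T × Fin w) × Fin m → Option (Fin w)) (s : ℕ)
    (p : Fin w × Fin m) (hp : run (EB w0 y) s p = true) : yh w0 y s p = none := by
  induction s generalizing p with
  | zero => simp [yh]
  | succ s ih =>
    simp only [run, decide_eq_true_eq] at hp
    by_contra hne
    obtain ⟨i, hi⟩ := Option.ne_none_iff_exists'.mp hne
    obtain ⟨a, h1, h2⟩ := hp i
    have h3 := ih (i, a) h1
    simp only [EB, decide_eq_true_eq] at h2
    exact h2 ⟨hi, h3⟩

end AB

/-! ### Delayer's strategy -/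

section Delayer

variable {T w : ℕ}

/-- The invariant of the adversary. -/
def Inv (I : Finset (Fin T × Fin w)) (b : Fin T × Fin w → Option (Fin w)) (d : ℕ) : Prop :=
  (∀ v ∈ I, b v ≠ none → d + 1 ≤ v.1.val) ∧
  (∀ v ∈ I, ∀ i, b v = some i → ∀ u ∈ I, u.1.val + 1 = v.1.val → u.2 = i → b u ≠ none) ∧
  (∀ u ∈ I, u.1.val + 1 = T → u.2.val = 0 → b u ≠ none)

/-- is `u` pointed to by a known zero? -/
def pointed (I : Finset (Fin T × Fin w)) (b : Fin T × Fin w → Option (Fin w))
    (u : Fin T × Fin w) : Prop :=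
  (u.1.val + 1 = T ∧ u.2.val = 0) ∨ ∃ v ∈ I, v.1.val = u.1.val + 1 ∧ b v = some u.2

lemma exists_ptr (W : ℕ) (hw : 2 * W < w) (I I' : Finset (Fin T × Fin w)) (hI : I.card ≤ W)
    (hI' : I'.card ≤ W) (u : Fin T × Fin w) :
    ∃ i : Fin w, ∀ v ∈ I ∪ I', v.1.val + 1 = u.1.val → v.2 ≠ i := by
  classical
  by_contra hcon
  push Not at hcon
  have hsub : (univ : Finset (Fin w)) ⊆ (I ∪ I').image (fun v => v.2) := by
    intro i _
    obtain ⟨v, hv, _, h⟩ := hcon i
    exact Finset.mem_image.mpr ⟨v, hv, h⟩
  have h1 := Finset.card_le_card hsub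
  have h2 := Finset.card_image_le (s := I ∪ I') (f := fun v => v.2)
  have h3 := Finset.card_union_le I I'
  rw [Finset.card_univ, Fintype.card_fin] at h1
  omega

/-- answers of the adversary -/
noncomputable def answer (W : ℕ) (hw : 2 * W < w) (I : Finset (Fin T × Fin w))
    (hI : I.card ≤ W) (b : Fin T × Fin w → Option (Fin w)) (I' : Finset (Fin T × Fin w))
    (u : Fin T × Fin w) : Option (Fin w) := by
  classical
  exact if pointed I b u then
    (if h : I'.card ≤ W then some (exists_ptr W hw I I' hI h u).choose else some u.2) else none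

lemma inv_step (W : ℕ) (hw : 2 * W < w) (I : Finset (Fin T × Fin w))
    (hI : I.card ≤ W) (b : Fin T × Fin w → Option (Fin w)) (d d' : ℕ) (hinv : Inv I b d)
    (hdT : d + 1 ≤ T) (hdd : d' + 1 ≤ d) (I' : Finset (Fin T × Fin w)) (hI' : I'.card ≤ W)
    (b' : Fin T × Fin w → Option (Fin w)) (h1 : ∀ v ∈ I', v ∈ I → b' v = b v)
    (h2 : ∀ v ∈ I', v ∉ I → b' v = answer W hw I hI b I' v) : Inv I' b' d' := by
  classical
  obtain ⟨i1, i2, i3⟩ := hinv
  refine ⟨?_, ?_, ?_⟩
  · intro v hv hne
    by_cases hvI : v ∈ I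
    · rw [h1 v hv hvI] at hne
      have := i1 v hvI hne
      omega
    · rw [h2 v hv hvI] at hne
      unfold answer at hne
      split_ifs at hne with hp
      · rcases hp with hp | ⟨v', hv', he, hb⟩
        · omega
        · have := i1 v' hv' (by rw [hb]; simp)
          omega
      · exact absurd rfl hne
  · intro v hv i hbi u hu huv hui
    by_cases hvI : v ∈ I
    · rw [h1 v hv hvI] at hbi
      by_cases huI : u ∈ I
      · rw [h1 u hu huI]
        exact i2 v hvI i hbi u huI huv hui
      · rw [h2 u hu huI]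
        unfold answer
        have hp : pointed I b u := Or.inr ⟨v, hvI, huv.symm, by rw [hbi, hui]⟩
        rw [if_pos hp, dif_pos hI']
        simp
    · rw [h2 v hv hvI] at hbi
      unfold answer at hbi
      split_ifs at hbi with hp
      have hspec := (exists_ptr W hw I I' hI hI' v).choose_spec
      rw [Option.some.injEq] at hbi
      exact absurd (hui.trans hbi.symm) (hspec u (Finset.mem_union_right _ hu) huv)
  · intro u hu huT hu0
    by_cases huI : u ∈ I
    · rw [h1 u hu huI]
      exact i3 u huI huT hu0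
    · rw [h2 u hu huI]
      unfold answer
      have hp : pointed I b u := Or.inl ⟨huT, hu0⟩
      rw [if_pos hp, dif_pos hI']
      simp

end Delayer

/-! ## Encoding -/

/-! ### Encoding of the edges by input positions -/

/-- the vertex with number `j` (modulo `w * m`) -/
def pairOf (w m : ℕ) (hw : 0 < w) (hm : 0 < m) (j : ℕ) : Fin w × Fin m :=
  (⟨(j % (w * m)) / m, by
      apply Nat.div_lt_of_lt_mul
      have := Nat.mod_lt j (Nat.mul_pos hw hm)
      rwa [mul_comm m w]⟩,
    ⟨j % m, Nat.mod_lt _ hm⟩)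

/-- number of a vertex -/
def code {w m : ℕ} (p : Fin w × Fin m) : ℕ := p.1.val * m + p.2.val

lemma code_lt {w m : ℕ} (p : Fin w × Fin m) : code p < w * m := by
  unfold code
  have h1 := p.1.isLt
  have h2 := p.2.isLt
  calc p.1.val * m + p.2.val < p.1.val * m + m := by omega
    _ = (p.1.val + 1) * m := by ring
    _ ≤ w * m := Nat.mul_le_mul_right _ h1

lemma pairOf_code {w m : ℕ} (hw : 0 < w) (hm : 0 < m) (p : Fin w × Fin m) (q : ℕ) :
    pairOf w m hw hm (q * (w * m) + code p) = p := by
  have hlt := code_lt p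
  unfold pairOf
  ext
  · simp only
    rw [show q * (w * m) + code p = code p + q * (w * m) by ring, Nat.add_mul_mod_self_right,
      Nat.mod_eq_of_lt hlt]
    unfold code
    rw [Nat.add_comm, Nat.add_mul_div_right _ _ hm, Nat.div_eq_of_lt p.2.isLt, zero_add]
  · simp only
    have : q * (w * m) + code p = p.2.val + (q * w + p.1.val) * m := by unfold code; ring
    rw [this, Nat.add_mul_mod_self_right, Nat.mod_eq_of_lt p.2.isLt]

/-- position of the edge from `p` to `p'` in step `t` -/
def idx {w m : ℕ} (t : ℕ) (p p' : Fin w × Fin m) : ℕ := (t * (w * m) + code p) * (w * m) + code p'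

/-- edges read off from the input -/
def edges {n w m : ℕ} (x : Fin n → Bool) (t : ℕ) (p p' : Fin w × Fin m) : Bool :=
  if h : idx t p p' < n then x ⟨idx t p p', h⟩ else false

/-- input obtained from an edge function -/
def mk (n w m : ℕ) (hw : 0 < w) (hm : 0 < m) (E : ℕ → Fin w × Fin m → Fin w × Fin m → Bool) :
    Fin n → Bool :=
  fun i => E (i.val / (w * m) / (w * m)) (pairOf w m hw hm (i.val / (w * m)))
    (pairOf w m hw hm i.val)

lemma idx_lt {w m T n : ℕ} (hn : (T + 1) * ((w * m) * (w * m)) ≤ n) (t : ℕ) (ht : t < T + 1)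
    (p p' : Fin w × Fin m) : idx t p p' < n := by
  have h1 := code_lt p
  have h2 := code_lt p'
  unfold idx
  have h3 : t * (w * m) + code p + 1 ≤ (T + 1) * (w * m) := by
    calc t * (w * m) + code p + 1 ≤ t * (w * m) + w * m := by omega
      _ = (t + 1) * (w * m) := by ring
      _ ≤ _ := Nat.mul_le_mul_right _ ht
  calc (t * (w * m) + code p) * (w * m) + code p' < (t * (w * m) + code p) * (w * m) + w * m := by
        omega
    _ = (t * (w * m) + code p + 1) * (w * m) := by ring
    _ ≤ (T + 1) * (w * m) * (w * m) := Nat.mul_le_mul_right _ h3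
    _ = (T + 1) * ((w * m) * (w * m)) := by ring
    _ ≤ n := hn

lemma edges_mk {w m T n : ℕ} (hw : 0 < w) (hm : 0 < m)
    (hn : (T + 1) * ((w * m) * (w * m)) ≤ n) (E : ℕ → Fin w × Fin m → Fin w × Fin m → Bool)
    (t : ℕ) (ht : t < T + 1) (p p' : Fin w × Fin m) :
    edges (mk n w m hw hm E) t p p' = E t p p' := by
  unfold edges
  rw [dif_pos (idx_lt hn t ht p p')]
  unfold mk
  have hpos : 0 < w * m := Nat.mul_pos hw hm
  have h1 : idx t p p' / (w * m) = t * (w * m) + code p := by
    unfold idx
    rw [Nat.add_comm, Nat.add_mul_div_right _ _ hpos, Nat.div_eq_of_lt (code_lt p'), zero_add]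
  have h2 : (t * (w * m) + code p) / (w * m) = t := by
    rw [Nat.add_comm, Nat.add_mul_div_right _ _ hpos, Nat.div_eq_of_lt (code_lt p), zero_add]
  simp only [h1, h2]
  rw [pairOf_code, show idx t p p' = (t * (w * m) + code p) * (w * m) + code p' from rfl,
    pairOf_code]

lemma run_congr {w m : ℕ} (E E' : ℕ → Fin w × Fin m → Fin w × Fin m → Bool) (s : ℕ)
    (h : ∀ t < s, ∀ p p', E t p p' = E' t p p') (p : Fin w × Fin m) : run E s p = run E' s p := by
  induction s generalizing p with
  | zero => rfl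
  | succ s ih =>
    simp only [run]
    have ih' : ∀ p, run E s p = run E' s p := ih (fun t ht => h t (by omega))
    simp only [ih', h s (by omega)]

/-- the function: is the vertex number `0` of layer `s` derived? -/
def fn (n w m : ℕ) (hw : 0 < w) (hm : 0 < m) (s : ℕ) (x : Fin n → Bool) : Bool :=
  run (edges x) s (⟨0, hw⟩, ⟨0, hm⟩)

/-! ### Nodes of a circuit -/

/-- Values of the nodes: first the inputs, then the gates. -/
def nodeVal {n : ℕ} (C : MonCircuit n) (x : Fin n → Bool) (k : ℕ) : Bool :=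
  if h : k < n then x ⟨k, h⟩ else
    if h' : k - n < C.size then C.gateVal x (k - n) h' else false

/-- Depths of the nodes. -/
def nodeDepth {n : ℕ} (C : MonCircuit n) (k : ℕ) : ℕ :=
  if k < n then 0 else if h' : k - n < C.size then C.gateDepth (k - n) h' else 0

/-- Node of a wire. -/
def wnode {n k : ℕ} : Wire n k → ℕ
  | .const _ => 0
  | .var i => i.val
  | .gate g => n + g.val

lemma wnode_spec {n : ℕ} (C : MonCircuit n) (g : ℕ) (hg : g < C.size) (W : Wire n g)
    (hW : ∀ b, W ≠ Wire.const b) :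
    wnode W < n + g ∧
    (∀ x, nodeVal C x (wnode W) = W.val x (fun g' => C.gateVal x g'.val (lt_trans g'.isLt hg))) ∧
    nodeDepth C (wnode W) = W.depth (fun g' => C.gateDepth g'.val (lt_trans g'.isLt hg)) := by
  cases W with
  | const b => exact absurd rfl (hW b)
  | var i =>
    refine ⟨?_, ?_, ?_⟩
    · simp only [wnode]
      have := i.isLt
      omega
    · intro x
      change nodeVal C x i.val = x i
      unfold nodeVal
      rw [dif_pos i.isLt]
    · change nodeDepth C i.val = 0
      unfold nodeDepth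
      rw [if_pos i.isLt]
  | gate g' =>
    have hg' := g'.isLt
    refine ⟨?_, ?_, ?_⟩
    · simp only [wnode]
      omega
    · intro x
      change nodeVal C x (n + g'.val) = C.gateVal x g'.val (lt_trans g'.isLt hg)
      unfold nodeVal
      have e : n + g'.val - n = g'.val := by omega
      have h1 : ¬ n + g'.val < n := by omega
      have h2 : n + g'.val - n < C.size := by omega
      rw [dif_neg h1, dif_pos h2]
      congr 1
    · change nodeDepth C (n + g'.val) = C.gateDepth g'.val (lt_trans g'.isLt hg)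
      unfold nodeDepth
      have e : n + g'.val - n = g'.val := by omega
      have h1 : ¬ n + g'.val < n := by omega
      have h2 : n + g'.val - n < C.size := by omega
      rw [if_neg h1, dif_pos h2]
      congr 1

section Main

variable {n T w r : ℕ}

/-- Alice's inputs -/
def xA (n : ℕ) (hw : 0 < w) (hm : 0 < r * r) (σ : Fin T × Fin w → Fin (r * r)) : Fin n → Bool :=
  mk n w (r * r) hw hm (EA σ)

/-- Bob's inputs -/
def xB (n : ℕ) (hw : 0 < w) (hm : 0 < r * r)
    (y : (Fin T × Fin w) × Fin (r * r) → Option (Fin w)) : Fin n → Bool :=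
  mk n w (r * r) hw hm (EB ⟨0, hw⟩ y)

/-- Alice sets -/
def X0 (C : MonCircuit n) (hw : 0 < w) (hm : 0 < r * r) (k : ℕ) :
    Finset (Fin T × Fin w → Fin (r * r)) :=
  univ.filter (fun σ => nodeVal C (xA n hw hm σ) k = true)

/-- Bob sets -/
def Y0 (C : MonCircuit n) (hw : 0 < w) (hm : 0 < r * r) (k : ℕ) :
    Finset ((Fin T × Fin w) × Fin (r * r) → Option (Fin w)) :=
  univ.filter (fun y => nodeVal C (xB n hw hm y) k = false)

/-- No good state at an input node. -/
lemma input_contra (C : MonCircuit n) (hw : 0 < w) (hm : 0 < r * r) (hr : 0 < r) (hr2 : 2 ≤ r)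
    (W Δ : ℕ) (hT : 1 ≤ T) (k : ℕ) (hk : k < n) (I : Finset (Fin T × Fin w))
    (γ : Fin T × Fin w → Fin (r * r)) (b : Fin T × Fin w → Option (Fin w))
    (hgood : Good r W Δ (Fintype.card_fin (r * r)) hr (X0 C hw hm) (Y0 C hw hm) k I γ b)
    (hinv : Inv I b 0) : False := by
  obtain ⟨P, hPG, hPne, hfix, hd, hIW, Y', hY', hYb, hYc⟩ := hgood
  obtain ⟨i1, i2, i3⟩ := hinv
  -- an element of Bob's side
  have hYne : Y'.Nonempty := by
    by_contra h
    rw [Finset.not_nonempty_iff_eq_empty] at h
    rw [h] at hYc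
    simp only [Finset.card_empty, zero_mul, nonpos_iff_eq_zero] at hYc
    have : 0 < (Fintype.card (Option (Fin w))) ^ (Fintype.card ((Fin T × Fin w) × Fin (r * r))) := by
      apply Nat.pow_pos
      exact Fintype.card_pos
    omega
  obtain ⟨y, hy⟩ := hYne
  have hy0 := hY' hy
  rw [Finset.mem_sdiff] at hy0
  have hyv : nodeVal C (xB n hw hm y) k = false := (Finset.mem_filter.mp hy0.1).2
  unfold nodeVal at hyv
  rw [dif_pos hk] at hyv
  set t := k / (w * (r * r)) / (w * (r * r)) with ht
  set p := pairOf w (r * r) hw hm (k / (w * (r * r))) with hp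
  set p' := pairOf w (r * r) hw hm k with hp'
  have hEB : EB ⟨0, hw⟩ y t p p' = false := hyv
  simp only [EB, decide_eq_false_iff_not, not_not] at hEB
  obtain ⟨hup, hlow⟩ := hEB
  -- Alice's side
  have hal : ∀ σ ∈ P, al σ t p ∧ al σ (t + 1) p' := by
    intro σ hσ
    have h1 := hPG hσ
    unfold GX at h1
    rw [Finset.mem_sdiff] at h1
    have h2 : nodeVal C (xA n hw hm σ) k = true := (Finset.mem_filter.mp h1.1).2
    unfold nodeVal at h2
    rw [dif_pos hk] at h2
    have h3 : EA σ t p p' = true := h2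
    simpa only [EA, decide_eq_true_eq] using h3
  clear_value t p p'
  -- a coordinate on which all of P agrees lies in I
  have hconst : ∀ (v : Fin T × Fin w) (a : Fin (r * r)), (∀ σ ∈ P, σ v = a) → v ∈ I := by
    intro v a hva
    by_contra hvI
    have := hd {v} (by rw [Finset.disjoint_singleton_left]; exact hvI) (fun _ => a)
    have hfil : P.filter (fun x => ∀ u ∈ ({v} : Finset (Fin T × Fin w)), x u = a) = P := by
      rw [Finset.filter_eq_self]
      intro σ hσ u hu
      rw [Finset.mem_singleton] at hu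
      rw [hu]
      exact hva σ hσ
    rw [hfil, Finset.card_singleton, pow_one] at this
    have hpos := hPne.card_pos
    nlinarith
  obtain ⟨σ0, hσ0⟩ := hPne
  -- t ≥ 1
  have ht1 : 1 ≤ t := by
    by_cases htT : t < T
    · -- the upper vertex is a known zero
      have hall : ∀ σ ∈ P, σ (⟨t, htT⟩, p'.1) = p'.2 := by
        intro σ hσ
        have := (hal σ hσ).2 ⟨by omega, by simpa using htT⟩
        simpa using this.symm
      have hmem := hconst _ _ hall
      have hb := hYb y hy _ hmem
      have hγ : γ (⟨t, htT⟩, p'.1) = p'.2 := by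
        rw [← hfix σ0 hσ0 _ hmem]; exact hall σ0 hσ0
      rw [hγ] at hb
      unfold yh at hup
      rw [if_neg (by omega), dif_pos (by simpa using htT)] at hup
      simp only [Nat.add_sub_cancel] at hup
      rw [hup] at hb
      have := i1 _ hmem (by rw [← hb]; simp)
      simp only at this
      omega
    · omega
  -- t ≤ T
  have htT : t - 1 < T := by
    by_contra hge
    unfold yh at hlow
    rw [if_neg (by omega), dif_neg hge] at hlow
    simp at hlow
  -- lower vertex is a known one
  have hall : ∀ σ ∈ P, σ (⟨t - 1, htT⟩, p.1) = p.2 := by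
    intro σ hσ
    exact ((hal σ hσ).1 ⟨by omega, htT⟩).symm
  have hmem := hconst _ _ hall
  have hb := hYb y hy _ hmem
  have hγ : γ (⟨t - 1, htT⟩, p.1) = p.2 := by
    rw [← hfix σ0 hσ0 _ hmem]; exact hall σ0 hσ0
  rw [hγ] at hb
  unfold yh at hlow
  rw [if_neg (by omega), dif_pos htT] at hlow
  rw [hlow] at hb
  by_cases htT' : t < T
  · have hall' : ∀ σ ∈ P, σ (⟨t, htT'⟩, p'.1) = p'.2 := by
      intro σ hσ
      have := (hal σ hσ).2 ⟨by omega, by simpa using htT'⟩
      simpa using this.symm
    have hmem' := hconst _ _ hall'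
    have hb' := hYb y hy _ hmem'
    have hγ' : γ (⟨t, htT'⟩, p'.1) = p'.2 := by
      rw [← hfix σ0 hσ0 _ hmem']; exact hall' σ0 hσ0
    rw [hγ'] at hb'
    unfold yh at hup
    rw [if_neg (by omega), dif_pos (by simpa using htT')] at hup
    simp only [Nat.add_sub_cancel] at hup
    rw [hup] at hb'
    exact i2 _ hmem' p.1 hb'.symm _ hmem (by simp only; omega) rfl hb.symm
  · unfold yh at hup
    rw [if_neg (by omega), dif_neg (by simpa using htT')] at hup
    rw [Option.some.injEq] at hup
    exact i3 _ hmem (by simp only; omega) (by simp only; rw [← hup]) hb.symm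

end Main

/-! ## Main lower bound -/

section Main2

variable {n T w r : ℕ}

/-- No good state satisfying the invariant exists at any node. -/
theorem no_state (C : MonCircuit n) (hw : 0 < w) (hm : 0 < r * r) (hr : 0 < r) (hr2 : 2 ≤ r)
    (W Δ : ℕ) (hT : 1 ≤ T) (hwW : 2 * W < w)
    (h3 : 20 * W * ((Δ + 2) * (w + 1)) ≤ r) (k : ℕ) (hk : k < n + C.size) :
    ∀ (I : Finset (Fin T × Fin w))
    (γ : Fin T × Fin w → Fin (r * r)) (b : Fin T × Fin w → Option (Fin w)),
    Good r W Δ (Fintype.card_fin (r * r)) hr (X0 C hw hm) (Y0 C hw hm) k I γ b →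
    Inv I b (nodeDepth C k) → nodeDepth C k + 1 ≤ T → False := by
  induction k using Nat.strong_induction_on with
  | _ k ih =>
  intro I γ b hgood hinv hdT
  by_cases hkn : k < n
  · have hd0 : nodeDepth C k = 0 := by unfold nodeDepth; rw [if_pos hkn]
    rw [hd0] at hinv
    exact input_contra C hw hm hr hr2 W Δ hT k hkn I γ b hgood hinv
  obtain ⟨g, rfl⟩ : ∃ g, k = n + g := ⟨k - n, by omega⟩
  have hg : g < C.size := by omega
  obtain ⟨P, hPG, hPne, hfix, hd, hIW, Y', hY', hYb, hYc⟩ := hgood
  have hcardQ : Fintype.card (Option (Fin w)) = w + 1 := by simp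
  have hcardV : 2 * W ≤ Fintype.card (Fin T × Fin w) := by
    rw [Fintype.card_prod, Fintype.card_fin, Fintype.card_fin]
    nlinarith
  have hZ : 0 < (Fintype.card (Option (Fin w))) ^ (Fintype.card ((Fin T × Fin w) × Fin (r * r))) :=
    Nat.pow_pos Fintype.card_pos
  set G := C.gate ⟨g, hg⟩ with hG
  have hval : ∀ x, nodeVal C x (n + g)
      = G.val x (fun g' => C.gateVal x g'.val (lt_trans g'.isLt hg)) := by
    intro x
    have h0 : nodeVal C x (n + g) = C.gateVal x g hg := by
      unfold nodeVal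
      have h1 : ¬ n + g < n := by omega
      have e : n + g - n = g := by omega
      have h2 : n + g - n < C.size := by omega
      rw [dif_neg h1, dif_pos h2]
      congr 1
    rw [h0]
    conv_lhs => unfold MonCircuit.gateVal
  have hdep : nodeDepth C (n + g)
      = max (G.left.depth (fun g' => C.gateDepth g'.val (lt_trans g'.isLt hg)))
        (G.right.depth (fun g' => C.gateDepth g'.val (lt_trans g'.isLt hg))) + 1 := by
    have h0 : nodeDepth C (n + g) = C.gateDepth g hg := by
      unfold nodeDepth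
      have h1 : ¬ n + g < n := by omega
      have e : n + g - n = g := by omega
      have h2 : n + g - n < C.size := by omega
      rw [if_neg h1, dif_pos h2]
      congr 1
    rw [h0]
    conv_lhs => unfold MonCircuit.gateDepth
  -- generic step
  have step : ∀ (Y'' : Finset ((Fin T × Fin w) × Fin (r * r) → Option (Fin w))), Y'' ⊆ Y' →
      (Fintype.card (Option (Fin w))) ^ (Fintype.card ((Fin T × Fin w) × Fin (r * r)))
        ≤ Y''.card * 2 ^ (Δ + 1) →
      ∀ (ω : (Fin T × Fin w → Fin (r * r)) → Wire n g),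
      (∀ σ ∈ P, ω σ = G.left ∨ ω σ = G.right) →
      (∀ σ ∈ P, (ω σ).val (xA n hw hm σ)
        (fun g' => C.gateVal (xA n hw hm σ) g'.val (lt_trans g'.isLt hg)) = true) →
      (∀ σ ∈ P, ∀ y ∈ Y'', (ω σ).val (xB n hw hm y)
        (fun g' => C.gateVal (xB n hw hm y) g'.val (lt_trans g'.isLt hg)) = false) → False := by
    intro Y'' hYY hYc'' ω hω hωA hωB
    have hYne : Y''.Nonempty := by
      by_contra h
      rw [Finset.not_nonempty_iff_eq_empty] at h
      rw [h] at hYc''
      simp only [Finset.card_empty, zero_mul, nonpos_iff_eq_zero] at hYc''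
      omega
    obtain ⟨y0, hy0⟩ := hYne
    have hnc : ∀ σ ∈ P, ∀ b', ω σ ≠ Wire.const b' := by
      intro σ hσ b' hc
      have h1 := hωA σ hσ
      have h2 := hωB σ hσ y0 hy0
      rw [hc] at h1 h2
      simp only [Wire.val] at h1 h2
      rw [h1] at h2
      exact Bool.noConfusion h2
    have hspec := fun σ hσ => wnode_spec C g hg (ω σ) (hnc σ hσ)
    obtain ⟨σ, hσ, I', γ', b', hgood', hag1, hag2⟩ := core_step (Q := Option (Fin w)) r W Δ
      (Fintype.card_fin (r * r)) hr (X0 C hw hm) (Y0 C hw hm) (by rw [hcardQ]; omega) hcardV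
      (by rw [hcardQ]; exact h3) P hPne I hIW hd γ b hfix Y'' hYc''
      (fun y hy => hYb y (hYY hy)) (fun σ => wnode (ω σ))
      (by
        intro σ hσ
        have hlt := (hspec σ hσ).1
        have h1 := hPG hσ
        unfold GX at h1 ⊢
        rw [Finset.mem_sdiff] at h1 ⊢
        refine ⟨?_, fun hU => h1.2 (UX_mono r W _ hr _ (by omega) hU)⟩
        unfold X0
        rw [Finset.mem_filter]
        refine ⟨Finset.mem_univ _, ?_⟩
        rw [(hspec σ hσ).2.1]
        exact hωA σ hσ)
      (by
        intro σ hσ y hy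
        have hlt := (hspec σ hσ).1
        have h1 := hY' (hYY hy)
        unfold GY
        rw [Finset.mem_sdiff] at h1 ⊢
        refine ⟨?_, fun hU => h1.2 (UY_mono W Δ _ (by omega) hU)⟩
        unfold Y0
        rw [Finset.mem_filter]
        refine ⟨Finset.mem_univ _, ?_⟩
        rw [(hspec σ hσ).2.1]
        exact hωB σ hσ y hy)
      (answer W hwW I hIW b)
    have hlt := (hspec σ hσ).1
    have hdlt : nodeDepth C (wnode (ω σ)) + 1 ≤ nodeDepth C (n + g) := by
      rw [(hspec σ hσ).2.2, hdep]
      rcases hω σ hσ with h | h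
      · rw [h]
        exact Nat.succ_le_succ (le_max_left _ _)
      · rw [h]
        exact Nat.succ_le_succ (le_max_right _ _)
    have hI'W : I'.card ≤ W := by
      obtain ⟨_, _, _, _, _, h, _⟩ := hgood'
      exact h
    refine ih (wnode (ω σ)) hlt (by omega) I' γ' b' hgood' ?_ (by omega)
    exact inv_step W hwW I hIW b (nodeDepth C (n + g)) _ hinv hdT hdlt I' hI'W b'
      (fun v hv hvI => (hag1 v hv hvI).2) hag2
  -- values at the node
  have hPA : ∀ σ ∈ P, G.val (xA n hw hm σ)
      (fun g' => C.gateVal (xA n hw hm σ) g'.val (lt_trans g'.isLt hg)) = true := by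
    intro σ hσ
    have h1 := hPG hσ
    unfold GX at h1
    rw [Finset.mem_sdiff] at h1
    have h2 := h1.1
    unfold X0 at h2
    rw [← hval]
    exact (Finset.mem_filter.mp h2).2
  have hYB : ∀ y ∈ Y', G.val (xB n hw hm y)
      (fun g' => C.gateVal (xB n hw hm y) g'.val (lt_trans g'.isLt hg)) = false := by
    intro y hy
    have h1 := hY' hy
    rw [Finset.mem_sdiff] at h1
    have h2 := h1.1
    unfold Y0 at h2
    rw [← hval]
    exact (Finset.mem_filter.mp h2).2
  by_cases hand : G.isAnd = true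
  · -- AND gate
    have hA : ∀ σ ∈ P, G.left.val (xA n hw hm σ)
          (fun g' => C.gateVal (xA n hw hm σ) g'.val (lt_trans g'.isLt hg)) = true ∧
        G.right.val (xA n hw hm σ)
          (fun g' => C.gateVal (xA n hw hm σ) g'.val (lt_trans g'.isLt hg)) = true := by
      intro σ hσ
      have := hPA σ hσ
      unfold Gate.val at this
      rw [if_pos hand, Bool.and_eq_true] at this
      exact this
    set Yl := Y'.filter (fun y => G.left.val (xB n hw hm y)
          (fun g' => C.gateVal (xB n hw hm y) g'.val (lt_trans g'.isLt hg)) = false) with hYl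
    set Yr := Y'.filter (fun y => ¬ (G.left.val (xB n hw hm y)
          (fun g' => C.gateVal (xB n hw hm y) g'.val (lt_trans g'.isLt hg)) = false)) with hYr
    have hsum : Yl.card + Yr.card = Y'.card :=
      Finset.card_filter_add_card_filter_not _
    by_cases hl : (Fintype.card (Option (Fin w))) ^
        (Fintype.card ((Fin T × Fin w) × Fin (r * r))) ≤ Yl.card * 2 ^ (Δ + 1)
    · exact step Yl (Finset.filter_subset _ _) hl (fun _ => G.left) (fun _ _ => Or.inl rfl)
        (fun σ hσ => (hA σ hσ).1) (fun σ _ y hy => (Finset.mem_filter.mp hy).2)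
    · have hr' : (Fintype.card (Option (Fin w))) ^
        (Fintype.card ((Fin T × Fin w) × Fin (r * r))) ≤ Yr.card * 2 ^ (Δ + 1) := by
        rw [pow_succ, ← mul_assoc] at hl ⊢
        have h5 : Y'.card * 2 ^ Δ = Yl.card * 2 ^ Δ + Yr.card * 2 ^ Δ := by rw [← hsum]; ring
        omega
      refine step Yr (Finset.filter_subset _ _) hr' (fun _ => G.right) (fun _ _ => Or.inr rfl)
        (fun σ hσ => (hA σ hσ).2) (fun σ _ y hy => ?_)
      have h1 := Finset.mem_filter.mp hy
      have h2 := hYB y h1.1
      unfold Gate.val at h2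
      rw [if_pos hand, Bool.and_eq_false_iff] at h2
      rcases h2 with h2 | h2
      · exact absurd h2 h1.2
      · exact h2
  · -- OR gate
    have hA : ∀ σ ∈ P, G.left.val (xA n hw hm σ)
          (fun g' => C.gateVal (xA n hw hm σ) g'.val (lt_trans g'.isLt hg)) = true ∨
        G.right.val (xA n hw hm σ)
          (fun g' => C.gateVal (xA n hw hm σ) g'.val (lt_trans g'.isLt hg)) = true := by
      intro σ hσ
      have := hPA σ hσ
      unfold Gate.val at this
      rw [if_neg hand, Bool.or_eq_true] at this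
      exact this
    have hB : ∀ y ∈ Y', G.left.val (xB n hw hm y)
          (fun g' => C.gateVal (xB n hw hm y) g'.val (lt_trans g'.isLt hg)) = false ∧
        G.right.val (xB n hw hm y)
          (fun g' => C.gateVal (xB n hw hm y) g'.val (lt_trans g'.isLt hg)) = false := by
      intro y hy
      have := hYB y hy
      unfold Gate.val at this
      rw [if_neg hand, Bool.or_eq_false_iff] at this
      exact this
    classical
    refine step Y' (Finset.Subset.refl _) ?_ (fun σ => if G.left.val (xA n hw hm σ)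
          (fun g' => C.gateVal (xA n hw hm σ) g'.val (lt_trans g'.isLt hg)) = true
          then G.left else G.right) ?_ ?_ ?_
    · rw [pow_succ]
      nlinarith
    · intro σ _
      by_cases h : G.left.val (xA n hw hm σ)
          (fun g' => C.gateVal (xA n hw hm σ) g'.val (lt_trans g'.isLt hg)) = true
      · left; rw [if_pos h]
      · right; rw [if_neg h]
    · intro σ hσ
      by_cases h : G.left.val (xA n hw hm σ)
          (fun g' => C.gateVal (xA n hw hm σ) g'.val (lt_trans g'.isLt hg)) = true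
      · simp only [if_pos h]; exact h
      · simp only [if_neg h]; exact (hA σ hσ).resolve_left h
    · intro σ hσ y hy
      by_cases h : G.left.val (xA n hw hm σ)
          (fun g' => C.gateVal (xA n hw hm σ) g'.val (lt_trans g'.isLt hg)) = true
      · simp only [if_pos h]; exact (hB y hy).1
      · simp only [if_neg h]; exact (hB y hy).2

/-- Main lower bound: small monotone circuits for `fn` are deep. -/
theorem main_lower (C : MonCircuit n) (hw : 0 < w) (hm : 0 < r * r) (hr2 : 2 ≤ r)
    (W Δ : ℕ) (hwW : 2 * W < w)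
    (hn : (T + 1) * ((w * (r * r)) * (w * (r * r))) ≤ n)
    (hC : ∀ x, C.eval x = fn n w (r * r) hw hm (T + 1) x)
    (h1 : 2 * (n + C.size) ≤ r ^ (W + 1))
    (h2 : 2 * ((n + C.size) * (T * w * (r * r) * (w + 1) + 1) ^ W) ≤ 2 ^ Δ)
    (h3 : 20 * W * ((Δ + 2) * (w + 1)) ≤ r) : T ≤ C.depth + 1 := by
  by_contra hlt
  push Not at hlt
  have hr : 0 < r := by omega
  have hT : 1 ≤ T := by omega
  have hcardQ : Fintype.card (Option (Fin w)) = w + 1 := by simp
  have hcardVe : Fintype.card (Fin T × Fin w) = T * w := by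
    rw [Fintype.card_prod, Fintype.card_fin, Fintype.card_fin]
  have hcardV : 2 * W ≤ Fintype.card (Fin T × Fin w) := by
    rw [hcardVe]
    nlinarith
  have hcardM : Fintype.card (Fin (r * r)) = r * r := Fintype.card_fin _
  have hZ : 0 < (Fintype.card (Option (Fin w))) ^ (Fintype.card ((Fin T × Fin w) × Fin (r * r))) :=
    Nat.pow_pos Fintype.card_pos
  set S := n + C.size with hS
  have hout : n + C.out.val < S := by
    have := C.out.isLt
    omega
  have hS0 : 0 < S := by omega
  -- sizes of the error sets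
  set UXS := UX r W (Fintype.card_fin (r * r)) hr (X0 C hw hm (T := T)) S with hUXS
  set UYS := UY W Δ (Y0 C hw hm (T := T)) S with hUYS
  have hUX : 2 * UXS.card ≤ (Fintype.card (Fin (r * r))) ^ (Fintype.card (Fin T × Fin w)) := by
    have h := UX_card r W (Fintype.card_fin (r * r)) hr (X0 C hw hm (T := T)) S
    have h' : (2 * UXS.card) * S ≤
        (Fintype.card (Fin (r * r))) ^ (Fintype.card (Fin T × Fin w)) * S := by
      calc (2 * UXS.card) * S = UXS.card * (2 * S) := by ring
        _ ≤ UXS.card * r ^ (W + 1) := Nat.mul_le_mul_left _ h1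
        _ ≤ _ := h
        _ = _ := by ring
    exact Nat.le_of_mul_le_mul_right h' hS0
  have hUY : 2 * UYS.card ≤ (Fintype.card (Option (Fin w))) ^
      (Fintype.card ((Fin T × Fin w) × Fin (r * r))) := by
    have h := UY_card W Δ (Y0 C hw hm (T := T)) S
    rw [hcardVe, hcardM] at h
    set A := (T * w * (r * r) * (w + 1) + 1) ^ W with hA
    rw [hcardQ] at h ⊢
    have hA0 : 0 < S * A := Nat.mul_pos hS0 (by rw [hA]; positivity)
    have h' : (2 * UYS.card) * (S * A) ≤
        (w + 1) ^ (Fintype.card ((Fin T × Fin w) × Fin (r * r))) * (S * A) := by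
      calc (2 * UYS.card) * (S * A) = UYS.card * (2 * (S * A)) := by ring
        _ ≤ UYS.card * 2 ^ Δ := Nat.mul_le_mul_left _ h2
        _ ≤ _ := h
        _ = _ := by ring
    exact Nat.le_of_mul_le_mul_right h' hA0
  -- initial sets
  set P0 : Finset (Fin T × Fin w → Fin (r * r)) := univ \ UXS with hP0
  set Q0 : Finset ((Fin T × Fin w) × Fin (r * r) → Option (Fin w)) := univ \ UYS with hQ0
  have hP0c : (Fintype.card (Fin (r * r))) ^ (Fintype.card (Fin T × Fin w)) ≤ 2 * P0.card := by
    rw [hP0, Finset.card_sdiff_of_subset (Finset.subset_univ _), Finset.card_univ,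
      Fintype.card_fun]
    omega
  have hQ0c : (Fintype.card (Option (Fin w))) ^ (Fintype.card ((Fin T × Fin w) × Fin (r * r)))
      ≤ 2 * Q0.card := by
    rw [hQ0, Finset.card_sdiff_of_subset (Finset.subset_univ _), Finset.card_univ,
      Fintype.card_fun]
    omega
  have hMpos : 0 < (Fintype.card (Fin (r * r))) ^ (Fintype.card (Fin T × Fin w)) := by
    apply Nat.pow_pos
    rw [hcardM]
    exact hm
  have hP0ne : P0.Nonempty := by
    rw [← Finset.card_pos]
    omega
  have hdense : Dense r P0 (∅ : Finset (Fin T × Fin w)) := by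
    intro K _ γ
    rcases K.eq_empty_or_nonempty with rfl | hK
    · simp
    · have h := card_fixed_le K γ (by rw [hcardM]; exact hm) P0
      have h4 := h.trans hP0c
      rw [hcardM, mul_pow] at h4
      have hrK : 2 ≤ r ^ K.card := by
        calc 2 ≤ r := hr2
          _ = r ^ 1 := (pow_one r).symm
          _ ≤ r ^ K.card := Nat.pow_le_pow_right hr hK.card_pos
      set A := (P0.filter (fun x => ∀ v ∈ K, x v = γ v)).card with hA
      have h5 : (A * r ^ K.card) * 2 ≤ P0.card * 2 := by
        calc (A * r ^ K.card) * 2 ≤ (A * r ^ K.card) * r ^ K.card := Nat.mul_le_mul_left _ hrK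
          _ = A * (r ^ K.card * r ^ K.card) := by ring
          _ ≤ 2 * P0.card := h4
          _ = _ := by ring
      exact Nat.le_of_mul_le_mul_right h5 (by norm_num)
  obtain ⟨σ0, hσ0⟩ := hP0ne
  have hcard0 : (∅ : Finset (Fin T × Fin w)).card ≤ W := by simp
  -- values at the root
  have hevA : ∀ σ : Fin T × Fin w → Fin (r * r), C.eval (xA n hw hm σ) = true := by
    intro σ
    rw [hC]
    unfold fn
    rw [run_congr (edges (xA n hw hm σ)) (EA σ) (T + 1)
      (fun t ht p p' => edges_mk hw hm hn (EA σ) t ht p p')]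
    apply run_alice hm
    intro h
    have := h.2
    omega
  have hevB : ∀ y : (Fin T × Fin w) × Fin (r * r) → Option (Fin w),
      C.eval (xB n hw hm y) = false := by
    intro y
    rw [hC]
    unfold fn
    rw [run_congr (edges (xB n hw hm y)) (EB ⟨0, hw⟩ y) (T + 1)
      (fun t ht p p' => edges_mk hw hm hn (EB ⟨0, hw⟩ y) t ht p p')]
    by_contra hne
    rw [Bool.not_eq_false] at hne
    have := run_bob ⟨0, hw⟩ y (T + 1) _ hne
    unfold yh at this
    rw [if_neg (by omega), dif_neg (by omega)] at this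
    simp at this
  have hnode : ∀ x, nodeVal C x (n + C.out.val) = C.eval x := by
    intro x
    unfold nodeVal
    have h1 : ¬ n + C.out.val < n := by omega
    have e : n + C.out.val - n = C.out.val := by omega
    have h2 : n + C.out.val - n < C.size := by omega
    rw [dif_neg h1, dif_pos h2]
    simp only [e]
    rfl
  have hdepth : nodeDepth C (n + C.out.val) = C.depth := by
    unfold nodeDepth
    have h1 : ¬ n + C.out.val < n := by omega
    have e : n + C.out.val - n = C.out.val := by omega
    have h2 : n + C.out.val - n < C.size := by omega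
    rw [if_neg h1, dif_pos h2]
    simp only [e]
    rfl
  obtain ⟨σ, hσ, I', γ', b', hgood', hag1, hag2⟩ := core_step (Q := Option (Fin w)) r W Δ
      (Fintype.card_fin (r * r)) hr (X0 C hw hm) (Y0 C hw hm) (by rw [hcardQ]; omega) hcardV
      (by rw [hcardQ]; exact h3) P0 ⟨σ0, hσ0⟩ ∅ hcard0 hdense σ0 (fun _ => none)
      (fun x _ v hv => absurd hv (Finset.notMem_empty v)) Q0
      (by
        calc _ ≤ 2 * Q0.card := hQ0c
          _ = Q0.card * 2 := by ring
          _ ≤ Q0.card * 2 ^ (Δ + 1) := by
            apply Nat.mul_le_mul_left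
            rw [pow_succ]
            have := Nat.one_le_two_pow (n := Δ)
            omega)
      (fun y _ v hv => absurd hv (Finset.notMem_empty v)) (fun _ => n + C.out.val)
      (by
        intro σ hσ
        unfold GX
        rw [hP0, Finset.mem_sdiff] at hσ
        rw [Finset.mem_sdiff]
        refine ⟨?_, fun hU => hσ.2 (UX_mono r W _ hr _ (by omega) hU)⟩
        unfold X0
        rw [Finset.mem_filter]
        exact ⟨Finset.mem_univ _, by rw [hnode]; exact hevA σ⟩)
      (by
        intro σ _ y hy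
        unfold GY
        rw [hQ0, Finset.mem_sdiff] at hy
        rw [Finset.mem_sdiff]
        refine ⟨?_, fun hU => hy.2 (UY_mono W Δ _ (by omega) hU)⟩
        unfold Y0
        rw [Finset.mem_filter]
        exact ⟨Finset.mem_univ _, by rw [hnode]; exact hevB y⟩)
      (answer W hwW ∅ hcard0 (fun _ => none))
  have hI'W : I'.card ≤ W := by
    obtain ⟨_, _, _, _, _, h, _⟩ := hgood'
    exact h
  refine no_state C hw hm hr hr2 W Δ hT hwW h3 (n + C.out.val) hout I' γ' b' hgood' ?_
    (by rw [hdepth]; omega)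
  refine inv_step W hwW ∅ hcard0 (fun _ => none) (C.depth + 1) _ ?_ (by omega)
    (by rw [hdepth]) I' hI'W b' (fun v _ hvI => absurd hvI (Finset.notMem_empty v)) hag2
  refine ⟨?_, ?_, ?_⟩
  · intro v hv; exact absurd hv (Finset.notMem_empty v)
  · intro v hv; exact absurd hv (Finset.notMem_empty v)
  · intro v hv; exact absurd hv (Finset.notMem_empty v)

end Main2

/-! ## Upper bound -/

/-! ### Layer programs -/

section Prog

variable {n K : ℕ}

/-- One layer acting on `K` registers. -/
abbrev Ins (n K : ℕ) := Fin K → Gate n K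

/-- action of an instruction -/
def act (x : Fin n → Bool) (s : Fin K → Bool) (I : Ins n K) : Fin K → Bool :=
  fun k => (I k).val x s

/-- execution of a program -/
def exec (x : Fin n → Bool) (L : List (Ins n K)) (s : Fin K → Bool) : Fin K → Bool :=
  L.foldl (act x) s

lemma exec_append (x : Fin n → Bool) (L L' : List (Ins n K)) (s : Fin K → Bool) :
    exec x (L ++ L') s = exec x L' (exec x L s) := by
  unfold exec
  rw [List.foldl_append]

lemma exec_cons (x : Fin n → Bool) (I : Ins n K) (L : List (Ins n K)) (s : Fin K → Bool) :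
    exec x (I :: L) s = exec x L (act x s I) := rfl

lemma exec_nil (x : Fin n → Bool) (s : Fin K → Bool) :
    exec x ([] : List (Ins n K)) s = s := rfl

/-- replace references to registers by the constant `false` -/
def groundW : Wire n K → Wire n 0
  | .const b => .const b
  | .var i => .var i
  | .gate _ => .const false

/-- replace references to registers by the constant `false` -/
def groundG (G : Gate n K) : Gate n 0 := ⟨G.isAnd, groundW G.left, groundW G.right⟩

lemma groundW_val (x : Fin n → Bool) (v : Fin 0 → Bool) (W : Wire n K) :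
    (groundW W).val x v = W.val x (fun _ => false) := by
  cases W <;> rfl

lemma groundG_val (x : Fin n → Bool) (v : Fin 0 → Bool) (G : Gate n K) :
    (groundG G).val x v = G.val x (fun _ => false) := by
  unfold Gate.val groundG
  simp only [groundW_val]

/-- widths of the circuit of a program -/
def pwidth (K : ℕ) : ℕ → ℕ
  | 0 => 0
  | _ + 1 => K

/-- gates of the circuit of a program -/
def pgate (L : List (Ins n K)) (I0 : Ins n K) : (j : ℕ) → Fin (pwidth K (j + 1)) → Gate n (pwidth K j)
  | 0 => fun k => groundG (L.getD 0 I0 k)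
  | j + 1 => fun k => L.getD (j + 1) I0 k

/-- the layered circuit of a non-empty program -/
def ofProg (L : List (Ins n K)) (I0 : Ins n K) (ℓ : ℕ) (o : Fin K) : MonLayered n where
  layers := ℓ + 1
  width := pwidth K
  width_zero := rfl
  gate := pgate L I0
  out := o

lemma ofProg_val (L : List (Ins n K)) (I0 : Ins n K) (ℓ : ℕ) (o : Fin K) (x : Fin n → Bool)
    (j : ℕ) (hj : j < L.length) (k : Fin K) :
    (ofProg L I0 ℓ o).val x (j + 1) k = exec x (L.take (j + 1)) (fun _ => false) k := by
  induction j generalizing k with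
  | zero =>
    have h1 : L.take 1 = [L.getD 0 I0] := by
      cases L with
      | nil => simp at hj
      | cons I L => rfl
    rw [h1, exec_cons, exec_nil]
    exact groundG_val x _ _
  | succ j ih =>
    have hj' : j < L.length := by omega
    have h1 : L.take (j + 1 + 1) = L.take (j + 1) ++ [L.getD (j + 1) I0] := by
      rw [List.take_succ_eq_append_getElem hj, List.getD_eq_getElem _ _ hj]
    rw [h1, exec_append, exec_cons, exec_nil]
    change (L.getD (j + 1) I0 k).val x ((ofProg L I0 ℓ o).val x (j + 1)) = _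
    have : (ofProg L I0 ℓ o).val x (j + 1) = exec x (L.take (j + 1)) (fun _ => false) := by
      funext k'
      exact ih hj' k'
    rw [this]
    rfl

lemma ofProg_eval (L : List (Ins n K)) (I0 : Ins n K) (ℓ : ℕ) (hL : L.length = ℓ + 1)
    (o : Fin K) (x : Fin n → Bool) :
    (ofProg L I0 ℓ o).eval x = exec x L (fun _ => false) o := by
  have := ofProg_val L I0 ℓ o x ℓ (by omega) o
  change (ofProg L I0 ℓ o).val x (ℓ + 1) o = _
  refine Eq.trans this ?_
  rw [← hL, List.take_length]

lemma ofProg_size (L : List (Ins n K)) (I0 : Ins n K) (ℓ : ℕ) (o : Fin K) :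
    (ofProg L I0 ℓ o).size = (ℓ + 1) * K := by
  unfold MonLayered.size
  rw [show (ofProg L I0 ℓ o).layers = ℓ + 1 from rfl]
  have : ∀ j ∈ range (ℓ + 1), (ofProg L I0 ℓ o).width (j + 1) = K := fun j _ => rfl
  rw [Finset.sum_congr rfl this]
  simp

lemma ofProg_maxWidth (L : List (Ins n K)) (I0 : Ins n K) (ℓ : ℕ) (o : Fin K) :
    (ofProg L I0 ℓ o).maxWidth ≤ K := by
  unfold MonLayered.maxWidth
  apply Finset.sup_le
  intro j _
  exact le_refl K

end Prog

/-! ### The program for iterated AND-OR reachability -/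

section RunProg

variable {n w m : ℕ}

/-- register kinds: 0 = old state, 1 = conjunction accumulator, 2 = disjunction accumulator,
3 = temporary -/
def reg (k : Fin 4) (p : Fin w × Fin m) : Fin (4 * (w * m)) :=
  ⟨k.val * (w * m) + code p, by
    have h1 := code_lt p
    have h2 := k.isLt
    calc k.val * (w * m) + code p < k.val * (w * m) + w * m := by omega
      _ = (k.val + 1) * (w * m) := by ring
      _ ≤ 4 * (w * m) := Nat.mul_le_mul_right _ h2⟩

lemma kind_aux (hw : 0 < w) (hm : 0 < m) (j : Fin (4 * (w * m))) : j.val / (w * m) < 4 := by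
  apply Nat.div_lt_of_lt_mul
  have := j.isLt
  rwa [mul_comm (w * m) 4]

/-- kind of a register -/
def kind (hw : 0 < w) (hm : 0 < m) (j : Fin (4 * (w * m))) : Fin 4 :=
  ⟨j.val / (w * m), kind_aux hw hm j⟩

/-- vertex of a register -/
def vert (hw : 0 < w) (hm : 0 < m) (j : Fin (4 * (w * m))) : Fin w × Fin m :=
  pairOf w m hw hm j.val

lemma kind_reg (hw : 0 < w) (hm : 0 < m) (k : Fin 4) (p : Fin w × Fin m) :
    kind hw hm (reg k p) = k := by
  unfold kind reg
  ext
  simp only
  rw [Nat.add_comm, Nat.add_mul_div_right _ _ (Nat.mul_pos hw hm), Nat.div_eq_of_lt (code_lt p),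
    zero_add]

lemma vert_reg (hw : 0 < w) (hm : 0 < m) (k : Fin 4) (p : Fin w × Fin m) :
    vert hw hm (reg k p) = p := by
  unfold vert reg
  exact pairOf_code hw hm p k.val

/-- copy gate -/
def cp (j : Fin (4 * (w * m))) : Gate n (4 * (w * m)) := ⟨false, .gate j, .gate j⟩

lemma cp_val (x : Fin n → Bool) (s : Fin (4 * (w * m)) → Bool) (j : Fin (4 * (w * m))) :
    (cp j : Gate n (4 * (w * m))).val x s = s j := by
  unfold cp Gate.val
  simp [Wire.val]

/-- instruction which overwrites the registers of kind `k` -/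
def upd (hw : 0 < w) (hm : 0 < m) (k : Fin 4) (G : Fin w × Fin m → Gate n (4 * (w * m))) :
    Ins n (4 * (w * m)) :=
  fun j => if kind hw hm j = k then G (vert hw hm j) else cp j

lemma act_upd (hw : 0 < w) (hm : 0 < m) (k : Fin 4) (G : Fin w × Fin m → Gate n (4 * (w * m)))
    (x : Fin n → Bool) (s : Fin (4 * (w * m)) → Bool) (k' : Fin 4) (p : Fin w × Fin m) :
    act x s (upd hw hm k G) (reg k' p) = if k' = k then (G p).val x s else s (reg k' p) := by
  unfold act upd
  rw [kind_reg, vert_reg]
  split_ifs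
  · rfl
  · exact cp_val x s _

/-- wire of an edge -/
def edgeWire (n : ℕ) (t : ℕ) (p p' : Fin w × Fin m) : Wire n (4 * (w * m)) :=
  if h : idx t p p' < n then .var ⟨idx t p p', h⟩ else .const false

lemma edgeWire_val (x : Fin n → Bool) (s : Fin (4 * (w * m)) → Bool) (t : ℕ)
    (p p' : Fin w × Fin m) : (edgeWire n t p p').val x s = edges x t p p' := by
  unfold edgeWire edges
  split_ifs <;> rfl

/-- inner loop over `a` -/
def innerP (n : ℕ) (hw : 0 < w) (hm : 0 < m) (t : ℕ) (i : Fin w) (l : List (Fin m)) :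
    List (Ins n (4 * (w * m))) :=
  l.flatMap (fun a => [upd hw hm 3 (fun p' => ⟨true, .gate (reg 0 (i, a)), edgeWire n t (i, a) p'⟩),
    upd hw hm 2 (fun p' => ⟨false, .gate (reg 2 p'), .gate (reg 3 p')⟩)])

lemma innerP_spec (hw : 0 < w) (hm : 0 < m) (t : ℕ) (i : Fin w) (x : Fin n → Bool)
    (l : List (Fin m)) (s : Fin (4 * (w * m)) → Bool) :
    (∀ p, exec x (innerP n hw hm t i l) s (reg 0 p) = s (reg 0 p)) ∧
    (∀ p, exec x (innerP n hw hm t i l) s (reg 1 p) = s (reg 1 p)) ∧
    (∀ p, exec x (innerP n hw hm t i l) s (reg 2 p)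
      = (s (reg 2 p) || l.any (fun a => s (reg 0 (i, a)) && edges x t (i, a) p))) := by
  induction l generalizing s with
  | nil => simp [innerP, exec_nil]
  | cons a l ih =>
    have e : innerP n hw hm t i (a :: l) =
      [upd hw hm 3 (fun p' => ⟨true, .gate (reg 0 (i, a)), edgeWire n t (i, a) p'⟩),
        upd hw hm 2 (fun p' => ⟨false, .gate (reg 2 p'), .gate (reg 3 p')⟩)]
        ++ innerP n hw hm t i l := by
      simp [innerP]
    rw [e, exec_append, exec_cons, exec_cons, exec_nil]
    set s1 := act x s (upd hw hm 3 (fun p' => ⟨true, .gate (reg 0 (i, a)),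
      edgeWire n t (i, a) p'⟩)) with hs1
    set s2 := act x s1 (upd hw hm 2 (fun p' => ⟨false, .gate (reg 2 p'),
      .gate (reg 3 p')⟩)) with hs2
    have a0 : ∀ p, s1 (reg 0 p) = s (reg 0 p) := by
      intro p; rw [hs1, act_upd, if_neg (by decide)]
    have a1 : ∀ p, s1 (reg 1 p) = s (reg 1 p) := by
      intro p; rw [hs1, act_upd, if_neg (by decide)]
    have a2 : ∀ p, s1 (reg 2 p) = s (reg 2 p) := by
      intro p; rw [hs1, act_upd, if_neg (by decide)]
    have a3 : ∀ p, s1 (reg 3 p) = (s (reg 0 (i, a)) && edges x t (i, a) p) := by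
      intro p
      rw [hs1, act_upd, if_pos rfl]
      unfold Gate.val
      simp only [if_true, edgeWire_val]
      rfl
    have b0 : ∀ p, s2 (reg 0 p) = s (reg 0 p) := by
      intro p; rw [hs2, act_upd, if_neg (by decide), a0]
    have b1 : ∀ p, s2 (reg 1 p) = s (reg 1 p) := by
      intro p; rw [hs2, act_upd, if_neg (by decide), a1]
    have b2 : ∀ p, s2 (reg 2 p) = (s (reg 2 p) || (s (reg 0 (i, a)) && edges x t (i, a) p)) := by
      intro p
      rw [hs2, act_upd, if_pos rfl]
      unfold Gate.val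
      simp only [Bool.false_eq_true, if_false]
      change (s1 (reg 2 p) || s1 (reg 3 p)) = _
      rw [a2, a3]
    obtain ⟨c0, c1, c2⟩ := ih s2
    refine ⟨fun p => by rw [c0, b0], fun p => by rw [c1, b1], fun p => ?_⟩
    rw [c2, b2]
    simp only [b0, List.any_cons, Bool.or_assoc]

/-- middle loop over `i` -/
def midP (n : ℕ) (hw : 0 < w) (hm : 0 < m) (t : ℕ) (l : List (Fin w)) :
    List (Ins n (4 * (w * m))) :=
  l.flatMap (fun i => [upd hw hm 2 (fun _ => ⟨false, .const false, .const false⟩)]
    ++ innerP n hw hm t i (List.finRange m)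
    ++ [upd hw hm 1 (fun p' => ⟨true, .gate (reg 1 p'), .gate (reg 2 p')⟩)])

lemma midP_spec (hw : 0 < w) (hm : 0 < m) (t : ℕ) (x : Fin n → Bool)
    (l : List (Fin w)) (s : Fin (4 * (w * m)) → Bool) :
    (∀ p, exec x (midP n hw hm t l) s (reg 0 p) = s (reg 0 p)) ∧
    (∀ p, exec x (midP n hw hm t l) s (reg 1 p)
      = (s (reg 1 p) && l.all (fun i => (List.finRange m).any
          (fun a => s (reg 0 (i, a)) && edges x t (i, a) p)))) := by
  induction l generalizing s with
  | nil => simp [midP, exec_nil]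
  | cons i l ih =>
    have e : midP n hw hm t (i :: l) =
      ([upd hw hm 2 (fun _ => ⟨false, .const false, .const false⟩)]
    ++ innerP n hw hm t i (List.finRange m)
    ++ [upd hw hm 1 (fun p' => ⟨true, .gate (reg 1 p'), .gate (reg 2 p')⟩)])
        ++ midP n hw hm t l := by
      simp [midP]
    rw [e, exec_append, exec_append, exec_append, exec_cons, exec_nil, exec_cons, exec_nil]
    set s1 := act x s (upd hw hm 2 (fun _ => ⟨false, .const false, .const false⟩)) with hs1
    set s2 := exec x (innerP n hw hm t i (List.finRange m)) s1 with hs2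
    set s3 := act x s2 (upd hw hm 1 (fun p' => ⟨true, .gate (reg 1 p'),
      .gate (reg 2 p')⟩)) with hs3
    obtain ⟨c0, c1, c2⟩ := innerP_spec hw hm t i x (List.finRange m) s1
    rw [← hs2] at c0 c1 c2
    have a0 : ∀ p, s1 (reg 0 p) = s (reg 0 p) := by
      intro p; rw [hs1, act_upd, if_neg (by decide)]
    have a1 : ∀ p, s1 (reg 1 p) = s (reg 1 p) := by
      intro p; rw [hs1, act_upd, if_neg (by decide)]
    have a2 : ∀ p, s1 (reg 2 p) = false := by
      intro p
      rw [hs1, act_upd, if_pos rfl]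
      rfl
    have d0 : ∀ p, s3 (reg 0 p) = s (reg 0 p) := by
      intro p; rw [hs3, act_upd, if_neg (by decide), c0, a0]
    have d1 : ∀ p, s3 (reg 1 p) = (s (reg 1 p) && (List.finRange m).any
          (fun a => s (reg 0 (i, a)) && edges x t (i, a) p)) := by
      intro p
      rw [hs3, act_upd, if_pos rfl]
      unfold Gate.val
      simp only [if_true]
      change (s2 (reg 1 p) && s2 (reg 2 p)) = _
      rw [c1, c2, a1, a2, Bool.false_or]
      simp only [a0]
    obtain ⟨e0, e1⟩ := ih s3
    refine ⟨fun p => by rw [e0, d0], fun p => ?_⟩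
    rw [e1, d1]
    simp only [d0, List.all_cons, Bool.and_assoc]

/-- one step of the recursion -/
def stepP (n : ℕ) (hw : 0 < w) (hm : 0 < m) (t : ℕ) : List (Ins n (4 * (w * m))) :=
  [upd hw hm 1 (fun _ => ⟨false, .const true, .const true⟩)]
    ++ midP n hw hm t (List.finRange w)
    ++ [upd hw hm 0 (fun p' => ⟨false, .gate (reg 1 p'), .gate (reg 1 p')⟩)]

lemma stepP_spec (hw : 0 < w) (hm : 0 < m) (t : ℕ) (x : Fin n → Bool)
    (s : Fin (4 * (w * m)) → Bool) (hs : ∀ p, s (reg 0 p) = run (edges x) t p)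
    (p : Fin w × Fin m) : exec x (stepP n hw hm t) s (reg 0 p) = run (edges x) (t + 1) p := by
  unfold stepP
  rw [exec_append, exec_append, exec_cons, exec_nil, exec_cons, exec_nil]
  set s1 := act x s (upd hw hm 1 (fun _ => ⟨false, .const true, .const true⟩)) with hs1
  obtain ⟨c0, c1⟩ := midP_spec hw hm t x (List.finRange w) s1
  have a0 : ∀ p, s1 (reg 0 p) = s (reg 0 p) := by
    intro p; rw [hs1, act_upd, if_neg (by decide)]
  have a1 : ∀ p, s1 (reg 1 p) = true := by
    intro p
    rw [hs1, act_upd, if_pos rfl]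
    rfl
  rw [act_upd, if_pos rfl]
  have hval : ∀ s' : Fin (4 * (w * m)) → Bool,
      (⟨false, .gate (reg 1 p), .gate (reg 1 p)⟩ : Gate n (4 * (w * m))).val x s' = s' (reg 1 p) := by
    intro s'
    unfold Gate.val
    simp [Wire.val]
  rw [hval, c1, a1, Bool.true_and]
  rw [Bool.eq_iff_iff]
  simp only [a0, hs, List.all_eq_true, List.mem_finRange, true_implies, List.any_eq_true,
    true_and, Bool.and_eq_true, run, decide_eq_true_eq]

/-- the whole program -/
def runP (n : ℕ) (hw : 0 < w) (hm : 0 < m) : ℕ → List (Ins n (4 * (w * m)))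
  | 0 => [upd hw hm 0 (fun _ => ⟨false, .const true, .const true⟩)]
  | s + 1 => runP n hw hm s ++ stepP n hw hm s

lemma runP_spec (hw : 0 < w) (hm : 0 < m) (s : ℕ) (x : Fin n → Bool) (p : Fin w × Fin m) :
    exec x (runP n hw hm s) (fun _ => false) (reg 0 p) = run (edges x) s p := by
  induction s generalizing p with
  | zero =>
    unfold runP
    rw [exec_cons, exec_nil, act_upd, if_pos rfl]
    rfl
  | succ s ih =>
    unfold runP
    rw [exec_append]
    exact stepP_spec hw hm s x _ ih p

lemma innerP_length (hw : 0 < w) (hm : 0 < m) (t : ℕ) (i : Fin w) (l : List (Fin m)) :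
    (innerP n hw hm t i l).length = 2 * l.length := by
  unfold innerP
  rw [List.length_flatMap]
  simp [mul_comm]

lemma midP_length (hw : 0 < w) (hm : 0 < m) (t : ℕ) (l : List (Fin w)) :
    (midP n hw hm t l).length = l.length * (2 * m + 2) := by
  unfold midP
  rw [List.length_flatMap]
  simp only [List.length_append, List.length_singleton, innerP_length, List.length_finRange]
  simp
  ring_nf
  simp

lemma stepP_length (hw : 0 < w) (hm : 0 < m) (t : ℕ) :
    (stepP n hw hm t).length = w * (2 * m + 2) + 2 := by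
  unfold stepP
  rw [List.length_append, List.length_append, midP_length]
  simp
  ring

lemma runP_length (hw : 0 < w) (hm : 0 < m) (s : ℕ) :
    (runP n hw hm s).length = s * (w * (2 * m + 2) + 2) + 1 := by
  induction s with
  | zero => simp [runP]
  | succ s ih =>
    unfold runP
    rw [List.length_append, ih, stepP_length]
    ring

/-- the layered circuit -/
theorem layered_exists (n : ℕ) (hw : 0 < w) (hm : 0 < m) (s : ℕ) :
    ∃ C : MonLayered n, (∀ x, C.eval x = fn n w m hw hm s x) ∧
      C.size = (s * (w * (2 * m + 2) + 2) + 1) * (4 * (w * m)) ∧ C.maxWidth ≤ 4 * (w * m) := by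
  refine ⟨ofProg (runP n hw hm s) (fun j => cp j) (s * (w * (2 * m + 2) + 2))
    (reg 0 (⟨0, hw⟩, ⟨0, hm⟩)), ?_, ?_, ?_⟩
  · intro x
    rw [ofProg_eval _ _ _ (runP_length hw hm s)]
    exact runP_spec hw hm s x _
  · rw [ofProg_size]
  · exact ofProg_maxWidth _ _ _ _

end RunProg

/-! ## Asymptotics -/

/-! ### Parameters -/

/-- number of columns -/
def pw (k n : ℕ) : ℕ := 2 * (Nat.log 2 n) ^ k + 1

/-- square root of the gadget size -/
def pr (k n : ℕ) : ℕ := (Nat.log 2 n + 2) ^ (3 * k + 4)

/-- number of inputs used in one step -/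
def pB (k n : ℕ) : ℕ := (pw k n * (pr k n * pr k n)) * (pw k n * (pr k n * pr k n))

lemma pw_pos (k n : ℕ) : 0 < pw k n := Nat.succ_pos _

lemma pr_pos (k n : ℕ) : 0 < pr k n := Nat.pow_pos (Nat.succ_pos _)

lemma prr_pos (k n : ℕ) : 0 < pr k n * pr k n := Nat.mul_pos (pr_pos k n) (pr_pos k n)

lemma pB_pos (k n : ℕ) : 0 < pB k n :=
  Nat.mul_pos (Nat.mul_pos (pw_pos k n) (prr_pos k n)) (Nat.mul_pos (pw_pos k n) (prr_pos k n))

/-- the hard function -/
def hard (k n : ℕ) (x : Fin n → Bool) : Bool :=
  fn n (pw k n) (pr k n * pr k n) (pw_pos k n) (prr_pos k n) (n / pB k n) x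

/-! ### Upper bound -/

lemma add_two_pow_le (t e : ℕ) : (t + 2) ^ e ≤ 3 ^ e * t ^ e + 3 ^ e := by
  rcases Nat.eq_zero_or_pos t with ht | ht
  · subst ht
    calc (0 + 2) ^ e ≤ 3 ^ e := Nat.pow_le_pow_left (by norm_num) e
      _ ≤ _ := Nat.le_add_left _ _
  · calc (t + 2) ^ e ≤ (3 * t) ^ e := Nat.pow_le_pow_left (by omega) e
      _ = 3 ^ e * t ^ e := mul_pow _ _ _
      _ ≤ _ := Nat.le_add_right _ _

/-- exponent appearing in the upper bounds -/
def pe (k : ℕ) : ℕ := k + 2 * (3 * k + 4)

lemma wm_le (k n : ℕ) : pw k n * (pr k n * pr k n) ≤ 3 * (Nat.log 2 n + 2) ^ pe k := by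
  set l := Nat.log 2 n with hl
  have h1 : pw k n ≤ 3 * (l + 2) ^ k := by
    unfold pw
    rw [← hl]
    have h2 : l ^ k ≤ (l + 2) ^ k := Nat.pow_le_pow_left (by omega) k
    have h3 : 1 ≤ (l + 2) ^ k := Nat.one_le_pow _ _ (by omega)
    omega
  have h2 : pr k n * pr k n = (l + 2) ^ (2 * (3 * k + 4)) := by
    unfold pr
    rw [← hl, ← pow_add]
    congr 1
    ring
  rw [h2]
  calc pw k n * (l + 2) ^ (2 * (3 * k + 4)) ≤ 3 * (l + 2) ^ k * (l + 2) ^ (2 * (3 * k + 4)) :=
        Nat.mul_le_mul_right _ h1
    _ = 3 * (l + 2) ^ pe k := by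
        unfold pe
        rw [pow_add]
        ring

theorem hard_monSC (k : ℕ) : MonSC (hard k) := by
  have hex := fun n => layered_exists n (pw_pos k n) (prr_pos k n) (n / pB k n)
  choose C hC1 hC2 hC3 using hex
  refine ⟨C, fun n x => hC1 n x, ?_, ?_⟩
  · refine ⟨24 + 12 * 3 ^ pe k, pe k + 1, fun n => ?_⟩
    simp only
    rw [hC2 n]
    set s := n / pB k n with hs
    set A := pw k n * (pr k n * pr k n) with hA
    have hApos : 0 < A := Nat.mul_pos (pw_pos k n) (prr_pos k n)
    have hsB : s * (A * A) ≤ n := by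
      have := Nat.div_mul_le_self n (pB k n)
      exact this
    have h1 : pw k n * (2 * (pr k n * pr k n) + 2) + 2 ≤ 6 * A := by
      have e1 : pw k n * 1 ≤ A := Nat.mul_le_mul_left _ (prr_pos k n)
      have e2 : pw k n * (2 * (pr k n * pr k n) + 2) + 2 = 2 * A + 2 * (pw k n * 1) + 2 := by
        rw [hA]; ring
      rw [e2]
      omega
    have h2 : A ≤ 3 * (n + 2) ^ pe k := by
      refine le_trans (wm_le k n) (Nat.mul_le_mul_left _ (Nat.pow_le_pow_left ?_ _))
      have := Nat.log_le_self 2 n
      omega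
    have h3 := add_two_pow_le n (pe k)
    calc (s * (pw k n * (2 * (pr k n * pr k n) + 2) + 2) + 1) * (4 * A)
        ≤ (s * (6 * A) + 1) * (4 * A) := by gcongr
      _ = 24 * (s * (A * A)) + 4 * A := by ring
      _ ≤ 24 * n + 4 * (3 * (3 ^ pe k * n ^ pe k + 3 ^ pe k)) := by
          have := le_trans h2 (Nat.mul_le_mul_left 3 h3)
          omega
      _ ≤ (24 + 12 * 3 ^ pe k) * n ^ (pe k + 1) + (24 + 12 * 3 ^ pe k) := by
          rcases Nat.eq_zero_or_pos n with hn | hn
          · subst hn
            have : (0 : ℕ) ^ pe k ≤ 1 := by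
              rcases Nat.eq_zero_or_pos (pe k) with h | h
              · rw [h]; simp
              · rw [zero_pow (by omega)]; omega
            have h5 : 3 ^ pe k * (0 : ℕ) ^ pe k = 0 := by
              rw [zero_pow (by unfold pe; omega)]
              simp
            rw [h5]
            omega
          · have h4 : n ^ 1 ≤ n ^ (pe k + 1) := Nat.pow_le_pow_right hn (by omega)
            have h5 : n ^ pe k ≤ n ^ (pe k + 1) := Nat.pow_le_pow_right hn (by omega)
            have h6 : 3 ^ pe k * n ^ pe k ≤ 3 ^ pe k * n ^ (pe k + 1) := Nat.mul_le_mul_left _ h5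
            have h7 : (24 + 12 * 3 ^ pe k) * n ^ (pe k + 1)
              = 24 * n ^ (pe k + 1) + 12 * (3 ^ pe k * n ^ (pe k + 1)) := by ring
            rw [h7]
            rw [pow_one] at h4
            omega
  · refine ⟨12 * 3 ^ pe k, pe k, fun n => ?_⟩
    simp only
    refine le_trans (hC3 n) ?_
    have h2 := wm_le k n
    have h3 := add_two_pow_le (Nat.log 2 n) (pe k)
    have h4 : 12 * 3 ^ pe k * Nat.log 2 n ^ pe k = 12 * (3 ^ pe k * Nat.log 2 n ^ pe k) := by ring
    rw [h4]
    omega

/-! ### Lower bound -/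

lemma depth_pos {n : ℕ} (C : MonCircuit n) : 1 ≤ C.depth := by
  unfold MonCircuit.depth
  rw [MonCircuit.gateDepth]
  omega

theorem hard_lower (k : ℕ) (hk : 1 ≤ k) (n : ℕ) (hn7 : 11 ≤ Nat.log 2 n) (hnk : k ≤ Nat.log 2 n)
    (C : MonCircuit n) (hC : ∀ x, C.eval x = hard k n x)
    (hsize : C.size ≤ 2 ^ (Nat.log 2 n) ^ k) :
    n ≤ C.depth * (4 * pB k n) := by
  set l := Nat.log 2 n with hl
  have hd := depth_pos C
  have hBpos := pB_pos k n
  set s := n / pB k n with hs
  have hlt : n < (s + 1) * pB k n := by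
    have h := Nat.div_add_mod n (pB k n)
    have h' := Nat.mod_lt n hBpos
    calc n = pB k n * s + n % pB k n := h.symm
      _ < pB k n * s + pB k n := by omega
      _ = (s + 1) * pB k n := by ring
  rcases Nat.eq_zero_or_pos s with hs0 | hs0
  · rw [hs0] at hlt
    calc n ≤ 1 * (4 * pB k n) := by omega
      _ ≤ _ := Nat.mul_le_mul_right _ hd
  · obtain ⟨T, hT⟩ : ∃ T, s = T + 1 := ⟨s - 1, by omega⟩
    have hsB : s * pB k n ≤ n := Nat.div_mul_le_self n (pB k n)
    have hn0 : n ≠ 0 := by
      intro h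
      rw [h] at hl
      simp at hl
      omega
    have hn2 : n < 2 ^ (l + 1) := Nat.lt_pow_succ_log_self (by norm_num) n
    have hlk : l ≤ l ^ k := by
      calc l = l ^ 1 := (pow_one l).symm
        _ ≤ l ^ k := Nat.pow_le_pow_right (by omega) hk
    have hsum : 2 * (n + C.size) ≤ 2 ^ (l ^ k + l + 3) := by
      have e1 : 2 ^ (l + 1) ≤ 2 ^ (l ^ k + l + 1) := Nat.pow_le_pow_right (by norm_num) (by omega)
      have e2 : 2 ^ l ^ k ≤ 2 ^ (l ^ k + l + 1) := Nat.pow_le_pow_right (by norm_num) (by omega)
      have e3 : 2 ^ (l ^ k + l + 3) = 4 * 2 ^ (l ^ k + l + 1) := by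
        rw [show l ^ k + l + 3 = (l ^ k + l + 1) + 2 by ring, pow_add]; ring
      rw [e3]
      omega
    have key : T ≤ C.depth + 1 := by
      refine main_lower (r := pr k n) C (pw_pos k n) (prr_pos k n) ?_ (l ^ k) ((l + 2) ^ (k + 2)) ?_ ?_ ?_
        ?_ ?_ ?_
      · unfold pr
        rw [← hl]
        calc 2 ≤ (l + 2) ^ 1 := by rw [pow_one]; omega
          _ ≤ (l + 2) ^ (3 * k + 4) := Nat.pow_le_pow_right (by omega) (by omega)
      · unfold pw
        rw [← hl]
        omega
      · rw [← hT]
        exact hsB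
      · intro x
        rw [hC x]
        unfold hard
        rw [← hs, hT]
      · refine le_trans hsum ?_
        have e1 : 2 ^ (3 * k + 4) ≤ pr k n := by
          unfold pr
          exact Nat.pow_le_pow_left (by omega) _
        calc 2 ^ (l ^ k + l + 3) ≤ 2 ^ ((3 * k + 4) * (l ^ k + 1)) := by
              apply Nat.pow_le_pow_right (by norm_num)
              nlinarith
          _ = (2 ^ (3 * k + 4)) ^ (l ^ k + 1) := by rw [pow_mul]
          _ ≤ pr k n ^ (l ^ k + 1) := Nat.pow_le_pow_left e1 _
      · -- h2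
        have hTwm : T * pw k n * (pr k n * pr k n) ≤ n := by
          have e1 : 1 ≤ pw k n * (pr k n * pr k n) := Nat.mul_pos (pw_pos k n) (prr_pos k n)
          calc T * pw k n * (pr k n * pr k n) = T * (pw k n * (pr k n * pr k n)) * 1 := by ring
            _ ≤ s * (pw k n * (pr k n * pr k n)) * (pw k n * (pr k n * pr k n)) := by
                gcongr
                omega
            _ = s * pB k n := by unfold pB; ring
            _ ≤ n := hsB
        have hw1 : pw k n + 1 ≤ 2 ^ (k * l + 2) := by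
          unfold pw
          rw [← hl]
          have e1 : l ^ k ≤ 2 ^ (k * l) := by
            calc l ^ k ≤ (2 ^ l) ^ k := Nat.pow_le_pow_left (Nat.lt_two_pow_self).le k
              _ = 2 ^ (k * l) := by rw [← pow_mul, mul_comm]
          have e2 : 1 ≤ 2 ^ (k * l) := Nat.one_le_two_pow
          rw [pow_add]
          omega
        have hbase : T * pw k n * (pr k n * pr k n) * (pw k n + 1) + 1 ≤ 2 ^ (k * l + l + 3) := by
          have e1 : T * pw k n * (pr k n * pr k n) * (pw k n + 1) ≤ (2 ^ (l + 1) - 1) * 2 ^ (k * l + 2) :=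
            Nat.mul_le_mul (by omega) hw1
          have e2 : (2 ^ (l + 1) - 1) * 2 ^ (k * l + 2) + 2 ^ (k * l + 2)
              = 2 ^ (l + 1) * 2 ^ (k * l + 2) := by
            rw [← Nat.succ_mul]
            congr 1
            have : 1 ≤ 2 ^ (l + 1) := Nat.one_le_two_pow
            omega
          have e3 : 1 ≤ 2 ^ (k * l + 2) := Nat.one_le_two_pow
          have e4 : 2 ^ (k * l + l + 3) = 2 ^ (l + 1) * 2 ^ (k * l + 2) := by
            rw [← pow_add]; congr 1; ring
          rw [e4]
          omega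
        calc 2 * ((n + C.size) * (T * pw k n * (pr k n * pr k n) * (pw k n + 1) + 1) ^ l ^ k)
            = (2 * (n + C.size)) * (T * pw k n * (pr k n * pr k n) * (pw k n + 1) + 1) ^ l ^ k := by
              ring
          _ ≤ 2 ^ (l ^ k + l + 3) * (2 ^ (k * l + l + 3)) ^ l ^ k :=
              Nat.mul_le_mul hsum (Nat.pow_le_pow_left hbase _)
          _ = 2 ^ (l ^ k + l + 3 + (k * l + l + 3) * l ^ k) := by
              rw [← pow_mul, ← pow_add]
          _ ≤ 2 ^ (l + 2) ^ (k + 2) := by
              apply Nat.pow_le_pow_right (by norm_num)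
              have f1 : l ^ k ≤ (l + 2) ^ k := Nat.pow_le_pow_left (by omega) k
              have f2 : (l + 2) ^ (k + 2) = (l + 2) ^ k * (l + 2) ^ 2 := pow_add _ _ _
              rw [f2]
              calc l ^ k + l + 3 + (k * l + l + 3) * l ^ k
                  ≤ l ^ k + l ^ k + 3 + (l * l + l + 3) * l ^ k := by gcongr
                _ ≤ l ^ k * (l + 2) ^ 2 := by nlinarith
                _ ≤ (l + 2) ^ k * (l + 2) ^ 2 := Nat.mul_le_mul_right _ f1
      · -- h3
        have f1 : l ^ k ≤ (l + 2) ^ k := Nat.pow_le_pow_left (by omega) k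
        have f3 : 1 ≤ (l + 2) ^ k := Nat.one_le_pow _ _ (by omega)
        have f4 : (l + 2) ^ (k + 2) + 2 ≤ 2 * (l + 2) ^ (k + 2) := by
          have : (l + 2) ^ 1 ≤ (l + 2) ^ (k + 2) := Nat.pow_le_pow_right (by omega) (by omega)
          rw [pow_one] at this
          omega
        have f5 : pw k n + 1 ≤ 2 * (2 * (l + 2) ^ k) := by
          unfold pw
          rw [← hl]
          omega
        calc 20 * l ^ k * (((l + 2) ^ (k + 2) + 2) * (pw k n + 1))
            ≤ 20 * (l + 2) ^ k * ((2 * (l + 2) ^ (k + 2)) * (2 * (2 * (l + 2) ^ k))) := by gcongr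
          _ = 160 * ((l + 2) ^ k * (l + 2) ^ (k + 2) * (l + 2) ^ k) := by ring
          _ = 160 * (l + 2) ^ (3 * k + 2) := by
              rw [← pow_add, ← pow_add]; congr 2; ring
          _ ≤ (l + 2) ^ 2 * (l + 2) ^ (3 * k + 2) := by
              apply Nat.mul_le_mul_right
              nlinarith
          _ = pr k n := by
              unfold pr
              rw [← hl, ← pow_add]; congr 1; ring
    calc n ≤ (s + 1) * pB k n := hlt.le
      _ ≤ (4 * C.depth) * pB k n := Nat.mul_le_mul_right _ (by omega)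
      _ = C.depth * (4 * pB k n) := by ring

lemma pB_le (k n : ℕ) (hn : 11 ≤ Nat.log 2 n) : 4 * pB k n ≤ (Nat.log 2 n) ^ (4 * pe k + 2) := by
  have h := wm_le k n
  set l := Nat.log 2 n with hl
  have h1 : (l + 2) ^ pe k ≤ (l ^ 2) ^ pe k := Nat.pow_le_pow_left (by nlinarith) _
  have h2 : pw k n * (pr k n * pr k n) ≤ 3 * (l ^ 2) ^ pe k := by omega
  calc 4 * pB k n ≤ 4 * ((3 * (l ^ 2) ^ pe k) * (3 * (l ^ 2) ^ pe k)) :=
        Nat.mul_le_mul_left _ (Nat.mul_le_mul h2 h2)
    _ = 36 * l ^ (4 * pe k) := by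
        rw [← pow_mul]
        have : l ^ (4 * pe k) = l ^ (2 * pe k) * l ^ (2 * pe k) := by
          rw [← pow_add]; congr 1; ring
        rw [this]
        ring
    _ ≤ l ^ 2 * l ^ (4 * pe k) := Nat.mul_le_mul_right _ (by nlinarith)
    _ = l ^ (4 * pe k + 2) := by rw [pow_add]; ring

lemma exists_pow_lt_two_pow (a k L : ℕ) : ∃ l, L ≤ l ∧ a * l ^ k < 2 ^ l := by
  have h := tendsto_pow_const_div_const_pow_of_one_lt k (r := (2 : ℝ)) (by norm_num)
  have h2 : ∀ᶠ n : ℕ in Filter.atTop, (n : ℝ) ^ k / 2 ^ n < 1 / ((a : ℝ) + 1) :=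
    h.eventually_lt_const (by positivity)
  obtain ⟨l, hl1, hl2⟩ := (h2.and (Filter.eventually_ge_atTop L)).exists
  refine ⟨l, hl2, ?_⟩
  have h3 : (0 : ℝ) < 2 ^ l := by positivity
  have h4 : (0 : ℝ) < (a : ℝ) + 1 := by positivity
  rw [div_lt_div_iff₀ h3 h4, one_mul] at hl1
  have h5 : (a : ℝ) * (l : ℝ) ^ k < 2 ^ l := by
    have : (0 : ℝ) ≤ (l : ℝ) ^ k := by positivity
    nlinarith
  exact_mod_cast h5

theorem hard_not_monNC (k : ℕ) (hk : 2 ≤ k) : ¬ MonNC (hard k) := by
  rintro ⟨C, hC, ⟨a, c, hs⟩, ⟨a', c', hd⟩⟩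
  obtain ⟨l, hl1, hl2⟩ := exists_pow_lt_two_pow (2 * a') (c' + (4 * pe k + 2)) (11 + k + a + c)
  have hlog : Nat.log 2 (2 ^ l) = l := Nat.log_pow (by norm_num) l
  have hsize : (C (2 ^ l)).size ≤ 2 ^ (Nat.log 2 (2 ^ l)) ^ k := by
    rw [hlog]
    have h1 := hs (2 ^ l)
    simp only at h1
    have ha : a ≤ 2 ^ a := (Nat.lt_two_pow_self).le
    have h2 : a * (2 ^ l) ^ c + a ≤ 2 ^ (a + l * c + 1) := by
      have e1 : 2 ^ (a + l * c + 1) = 2 ^ a * (2 ^ l) ^ c + 2 ^ a * (2 ^ l) ^ c := by
        rw [← pow_mul, ← pow_add, pow_add _ _ 1]; ring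
      have e2 : a * (2 ^ l) ^ c ≤ 2 ^ a * (2 ^ l) ^ c := Nat.mul_le_mul_right _ ha
      have e3 : 2 ^ a * 1 ≤ 2 ^ a * (2 ^ l) ^ c :=
        Nat.mul_le_mul_left _ (Nat.one_le_pow _ _ (Nat.one_le_two_pow))
      rw [e1]
      omega
    refine le_trans h1 (le_trans h2 (Nat.pow_le_pow_right (by norm_num) ?_))
    calc a + l * c + 1 ≤ l ^ 2 := by nlinarith
      _ ≤ l ^ k := Nat.pow_le_pow_right (by omega) hk
  have h1 := hard_lower k (by omega) (2 ^ l) (by rw [hlog]; omega) (by rw [hlog]; omega)
    (C (2 ^ l)) (hC (2 ^ l)) hsize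
  have h2 := pB_le k (2 ^ l) (by rw [hlog]; omega)
  have h3 := hd (2 ^ l)
  simp only at h3
  rw [hlog] at h2 h3
  have h4 : (C (2 ^ l)).depth ≤ 2 * a' * l ^ c' := by
    refine le_trans h3 ?_
    have : a' * 1 ≤ a' * l ^ c' := Nat.mul_le_mul_left _ (Nat.one_le_pow _ _ (by omega))
    have e : 2 * a' * l ^ c' = a' * l ^ c' + a' * l ^ c' := by ring
    rw [e]
    omega
  have h5 : 2 ^ l ≤ 2 * a' * l ^ (c' + (4 * pe k + 2)) := by
    calc 2 ^ l ≤ (2 * a' * l ^ c') * l ^ (4 * pe k + 2) := le_trans h1 (Nat.mul_le_mul h4 h2)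
      _ = _ := by rw [pow_add]; ring
  omega

/-- Monotone analogue of `SC ⊄ NC`. -/
theorem result (k : ℕ) : ∃ f : (n : ℕ) → (Fin n → Bool) → Bool,
    MonSC f ∧ ¬ MonNC f ∧
    ∃ a N : ℕ, ∀ n ≥ N, ∀ C : MonCircuit n, (∀ x, C.eval x = f n x) →
      C.size ≤ 2 ^ (Nat.log 2 n) ^ k → n ≤ C.depth * (Nat.log 2 n) ^ a := by
  refine ⟨hard (k + 2), hard_monSC _, hard_not_monNC _ (by omega), 4 * pe (k + 2) + 2,
    2 ^ (11 + k), fun n hn C hC hsize => ?_⟩
  have hl : 11 + k ≤ Nat.log 2 n := Nat.le_log_of_pow_le (by norm_num) hn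
  have hs : C.size ≤ 2 ^ (Nat.log 2 n) ^ (k + 2) :=
    le_trans hsize (Nat.pow_le_pow_right (by norm_num)
      (Nat.pow_le_pow_right (by omega) (by omega)))
  exact le_trans (hard_lower (k + 2) (by omega) n (by omega) (by omega) C hC hs)
    (Nat.mul_le_mul_left _ (pB_le _ n (by omega)))

end Pool.Agent.Results.MP_2af48a_lc.MonotoneSeparation
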