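import Mathlib

/-!
# Directed st-connectivity separates monotone NC from monotone SC

Directed st-connectivity has monotone circuits of polynomial size and depth `O((log n) ^ 2)`
(repeated squaring).  We show that it has no monotone layered circuits of polynomial size and
polylogarithmic width.  In fact, monotone layered circuits of width at most `n ^ (1 / 100)` for
st-connectivity have size at least `n ^ ((log n) / 2000)`.

Proof idea.  Alice holds a path through `D` layers of vertices, Bob a cut.  For an interval of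
layers of the circuit we keep a spread set of paths and a large set of cuts such that Bob's gate
values at the two ends of the interval are fixed, and such that no gate separates a path from a cut
at the start, while some gate does so at the end.  The interval is split into `q` parts; a popular
part and a popular pair of states are chosen, the spreadness is restored by fixing on average at
most one vertex of the path, and the cuts are restricted so that the violated arc lies in the larger
of the gaps between fixed vertices.  After `log n` rounds the interval has length one, but the gap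
is still larger than one arc, which is impossible.
-/

open Finset

namespace Pool.Agent.Results.MP_2af48a_lc.StConnectivity

/-! ### Circuits -/

/-- Where a gate takes an input from: a constant, an input variable, or one of `k` gates. -/
inductive Wire (n k : ℕ)
  | const (b : Bool)
  | var (i : Fin n)
  | gate (g : Fin k)

/-- Value of a wire, given the input `x` and the values `v` of the available gates. -/
def Wire.val {n k : ℕ} (x : Fin n → Bool) (v : Fin k → Bool) : Wire n k → Bool
  | .const b => b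
  | .var i => x i
  | .gate g => v g

/-- Depth of a wire, given the depths `d` of the available gates. -/
def Wire.depth {n k : ℕ} (d : Fin k → ℕ) : Wire n k → ℕ
  | .const _ => 0
  | .var _ => 0
  | .gate g => d g

/-- A monotone gate with two input wires: an AND gate or an OR gate. -/
structure Gate (n k : ℕ) where
  isAnd : Bool
  left : Wire n k
  right : Wire n k

/-- Value of a gate. -/
def Gate.val {n k : ℕ} (x : Fin n → Bool) (v : Fin k → Bool) (G : Gate n k) : Bool :=
  if G.isAnd then (G.left.val x v && G.right.val x v) else (G.left.val x v || G.right.val x v)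

/-- Monotone Boolean circuits. -/
structure MonCircuit (n : ℕ) where
  size : ℕ
  gate : (g : Fin size) → Gate n g
  out : Fin size

/-- Value of gate number `g`. -/
def MonCircuit.gateVal {n : ℕ} (C : MonCircuit n) (x : Fin n → Bool) (g : ℕ) (hg : g < C.size) :
    Bool :=
  (C.gate ⟨g, hg⟩).val x (fun g' => C.gateVal x g'.val (lt_trans g'.isLt hg))
termination_by g
decreasing_by exact g'.isLt

/-- Depth of gate number `g`. -/
def MonCircuit.gateDepth {n : ℕ} (C : MonCircuit n) (g : ℕ) (hg : g < C.size) : ℕ :=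
  max ((C.gate ⟨g, hg⟩).left.depth (fun g' => C.gateDepth g'.val (lt_trans g'.isLt hg)))
    ((C.gate ⟨g, hg⟩).right.depth (fun g' => C.gateDepth g'.val (lt_trans g'.isLt hg))) + 1
termination_by g
decreasing_by all_goals exact g'.isLt

/-- The function computed by a circuit. -/
def MonCircuit.eval {n : ℕ} (C : MonCircuit n) (x : Fin n → Bool) : Bool :=
  C.gateVal x C.out.val C.out.isLt

/-- The depth of a circuit: the length of a longest path from an input to the output gate. -/
def MonCircuit.depth {n : ℕ} (C : MonCircuit n) : ℕ := C.gateDepth C.out.val C.out.isLt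

/-! ### Layered circuits -/

/-- Layered monotone circuits: layers `1, ..., layers`; the gates of layer `j + 1` take their
inputs from constants, input variables and gates of layer `j` (layer `0` is empty). -/
structure MonLayered (n : ℕ) where
  layers : ℕ
  width : ℕ → ℕ
  width_zero : width 0 = 0
  gate : (j : ℕ) → Fin (width (j + 1)) → Gate n (width j)
  out : Fin (width layers)

/-- Values of the gates of layer `j`. -/
def MonLayered.val {n : ℕ} (C : MonLayered n) (x : Fin n → Bool) : (j : ℕ) → Fin (C.width j) → Bool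
  | 0 => fun g => Fin.elim0 (Fin.cast C.width_zero g)
  | j + 1 => fun g => (C.gate j g).val x (C.val x j)

/-- The function computed. -/
def MonLayered.eval {n : ℕ} (C : MonLayered n) (x : Fin n → Bool) : Bool :=
  C.val x C.layers C.out

/-- Number of gates. -/
def MonLayered.size {n : ℕ} (C : MonLayered n) : ℕ := ∑ j ∈ range C.layers, C.width (j + 1)

/-- Width: the largest number of gates in a layer. -/
def MonLayered.maxWidth {n : ℕ} (C : MonLayered n) : ℕ :=
  (range C.layers).sup (fun j => C.width (j + 1))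

/-! ### Complexity classes -/

/-- bounded by a polynomial -/
def PolyBounded (s : ℕ → ℕ) : Prop := ∃ a c : ℕ, ∀ n, s n ≤ a * n ^ c + a

/-- bounded by a polynomial in `log n` -/
def PolylogBounded (s : ℕ → ℕ) : Prop := ∃ a c : ℕ, ∀ n, s n ≤ a * (Nat.log 2 n) ^ c + a

/-- monotone SC: monotone layered circuits of polynomial size and polylogarithmic width -/
def MonSC (f : (n : ℕ) → (Fin n → Bool) → Bool) : Prop :=
  ∃ C : (n : ℕ) → MonLayered n, (∀ n x, (C n).eval x = f n x) ∧
    PolyBounded (fun n => (C n).size) ∧ PolylogBounded (fun n => (C n).maxWidth)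

/-- monotone NC: monotone circuits of polynomial size and polylogarithmic depth -/
def MonNC (f : (n : ℕ) → (Fin n → Bool) → Bool) : Prop :=
  ∃ C : (n : ℕ) → MonCircuit n, (∀ n x, (C n).eval x = f n x) ∧
    PolyBounded (fun n => (C n).size) ∧ PolylogBounded (fun n => (C n).depth)

/-! ### Directed st-connectivity -/

/-- `x` encodes the digraph on the vertices `0, ..., N - 1`, where `N = ⌊√n⌋`, in which there is an
arc from `u` to `v` when the bit of `x` in position `u * N + v` is `1`. -/
def Arc (n : ℕ) (x : Fin n → Bool) (u v : ℕ) : Prop :=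
  u < Nat.sqrt n ∧ v < Nat.sqrt n ∧ ∃ h : u * Nat.sqrt n + v < n, x ⟨u * Nat.sqrt n + v, h⟩ = true

open Classical in
/-- Directed st-connectivity: is there a directed path from the vertex `0` to the vertex `N - 1`? -/
noncomputable def stconn (n : ℕ) (x : Fin n → Bool) : Bool :=
  decide (Relation.ReflTransGen (Arc n x) 0 (Nat.sqrt n - 1))

/-! ## Counting -/

section Count

variable {C Q : Type*} [Fintype C] [DecidableEq C] [Fintype Q] [DecidableEq Q]

/-- number of functions with prescribed values on a set -/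
lemma card_prescribed (D : Finset C) (a : C → Q) :
    (univ.filter (fun y : C → Q => ∀ c ∈ D, y c = a c)).card * (Fintype.card Q) ^ D.card
      = (Fintype.card Q) ^ (Fintype.card C) := by
  classical
  have h : (univ.filter (fun y : C → Q => ∀ c ∈ D, y c = a c))
      = Fintype.piFinset (fun c => if c ∈ D then {a c} else (univ : Finset Q)) := by
    ext y
    simp only [mem_filter, mem_univ, true_and, Fintype.mem_piFinset]
    constructor
    · intro hy c
      by_cases hc : c ∈ D
      · simp [hc, hy c hc]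
      · simp [hc]
    · intro hy c hc
      have := hy c
      simpa [hc] using this
  rw [h, Fintype.card_piFinset]
  have h2 : ∀ c : C, (if c ∈ D then {a c} else (univ : Finset Q)).card
      = if c ∈ D then 1 else Fintype.card Q := by
    intro c
    split_ifs <;> simp
  rw [Finset.prod_congr rfl (fun c _ => h2 c), Finset.prod_ite]
  simp only [prod_const_one, one_mul, prod_const]
  rw [← pow_add]
  congr 1
  have : (univ.filter (fun c : C => c ∉ D)) = Dᶜ := by
    ext c; simp
  rw [this, Finset.card_compl]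
  have := Finset.card_le_univ D
  omega

lemma card_prescribed_two (D D' : Finset C) (a a' : C → Q) :
    (univ.filter (fun y : C → Q => (∀ c ∈ D, y c = a c) ∧ (∀ c ∈ D', y c = a' c))).card
      * (Fintype.card Q) ^ (D ∪ D').card ≤ (Fintype.card Q) ^ (Fintype.card C) := by
  classical
  rcases (univ.filter (fun y : C → Q => (∀ c ∈ D, y c = a c) ∧ (∀ c ∈ D', y c = a' c))).eq_empty_or_nonempty
    with h | ⟨y0, hy0⟩
  · rw [h]; simp
  · simp only [mem_filter, mem_univ, true_and] at hy0
    have hsub : (univ.filter (fun y : C → Q => (∀ c ∈ D, y c = a c) ∧ (∀ c ∈ D', y c = a' c)))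
        ⊆ (univ.filter (fun y : C → Q => ∀ c ∈ D ∪ D', y c = y0 c)) := by
      intro y hy
      simp only [mem_filter, mem_univ, true_and] at hy ⊢
      intro c hc
      rw [mem_union] at hc
      rcases hc with hc | hc
      · rw [hy.1 c hc, hy0.1 c hc]
      · rw [hy.2 c hc, hy0.2 c hc]
    rw [← card_prescribed (D ∪ D') y0]
    exact Nat.mul_le_mul_right _ (Finset.card_le_card hsub)

/-- Independence of events depending on disjoint coordinate sets. -/
lemma card_indep (S : Finset C) (A B : (C → Q) → Prop) [DecidablePred A] [DecidablePred B]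
    (hA : ∀ y y', (∀ c ∈ S, y c = y' c) → (A y ↔ A y'))
    (hB : ∀ y y', (∀ c, c ∉ S → y c = y' c) → (B y ↔ B y')) :
    (univ.filter (fun y : C → Q => A y ∧ B y)).card * (univ : Finset (C → Q)).card
      = (univ.filter (fun y : C → Q => A y)).card * (univ.filter (fun y : C → Q => B y)).card := by
  classical
  rw [← Finset.card_product, ← Finset.card_product]
  let mix : (C → Q) × (C → Q) → (C → Q) × (C → Q) := fun p =>
    (fun c => if c ∈ S then p.1 c else p.2 c, fun c => if c ∈ S then p.2 c else p.1 c)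
  have hmix : ∀ p, mix (mix p) = p := by
    rintro ⟨y, y'⟩
    ext c
    · by_cases hc : c ∈ S <;> simp [mix, hc]
    · by_cases hc : c ∈ S <;> simp [mix, hc]
  refine Finset.card_bij' (fun p _ => mix p) (fun p _ => mix p) ?_ ?_ ?_ ?_
  · rintro ⟨y, y'⟩ hp
    simp only [mem_product, mem_filter, mem_univ, true_and, and_true] at hp ⊢
    refine ⟨(hA _ _ ?_).mpr hp.1, (hB _ _ ?_).mpr hp.2⟩
    · intro c hc; simp [mix, hc]
    · intro c hc; simp [mix, hc]
  · rintro ⟨y, y'⟩ hp
    simp only [mem_product, mem_filter, mem_univ, true_and, and_true] at hp ⊢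
    refine ⟨(hA _ _ ?_).mpr hp.1, (hB _ _ ?_).mpr hp.2⟩
    · intro c hc; simp [mix, hc]
    · intro c hc; simp [mix, hc]
  · intro p _; exact hmix p
  · intro p _; exact hmix p

/-- Independence over all colours of a colouring. -/
lemma card_indep_colours {L : Type*} [Fintype L] [DecidableEq L] (κ : C → L)
    (B : L → (C → Q) → Prop) [∀ k, DecidablePred (B k)]
    (hB : ∀ k y y', (∀ c, κ c = k → y c = y' c) → (B k y ↔ B k y')) (s : Finset L) :
    ((univ.filter (fun y : C → Q => ∀ k ∈ s, B k y)).card : ℝ)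
      * ((univ : Finset (C → Q)).card : ℝ) ^ s.card
      = ((univ : Finset (C → Q)).card : ℝ) *
        ∏ k ∈ s, ((univ.filter (fun y : C → Q => B k y)).card : ℝ) := by
  classical
  induction s using Finset.induction_on with
  | empty => simp
  | @insert k s hk ih =>
    have e : (univ.filter (fun y : C → Q => ∀ k' ∈ insert k s, B k' y))
        = (univ.filter (fun y : C → Q => B k y ∧ ∀ k' ∈ s, B k' y)) := by
      ext y
      simp
    have h := card_indep (univ.filter (fun c => κ c = k)) (B k) (fun y => ∀ k' ∈ s, B k' y)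
      (fun y y' hy => hB k y y' (fun c hc => hy c (by simp [hc])))
      (fun y y' hy => by
        constructor
        · intro h k' hk'
          exact (hB k' y y' (fun c hc => hy c (by
            simp only [mem_filter, mem_univ, true_and]
            rintro rfl
            exact hk (hc ▸ hk')))).mp (h k' hk')
        · intro h k' hk'
          exact (hB k' y y' (fun c hc => hy c (by
            simp only [mem_filter, mem_univ, true_and]
            rintro rfl
            exact hk (hc ▸ hk')))).mpr (h k' hk'))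
    rw [e, Finset.card_insert_of_notMem hk, Finset.prod_insert hk, pow_succ]
    have h' : ((univ.filter (fun y : C → Q => B k y ∧ ∀ k' ∈ s, B k' y)).card : ℝ)
        * ((univ : Finset (C → Q)).card : ℝ)
      = ((univ.filter (fun y : C → Q => B k y)).card : ℝ)
        * ((univ.filter (fun y : C → Q => ∀ k' ∈ s, B k' y)).card : ℝ) := by
      exact_mod_cast h
    calc _ = (((univ.filter (fun y : C → Q => B k y ∧ ∀ k' ∈ s, B k' y)).card : ℝ)
        * ((univ : Finset (C → Q)).card : ℝ)) * ((univ : Finset (C → Q)).card : ℝ) ^ s.card := by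
          ring
      _ = ((univ.filter (fun y : C → Q => B k y)).card : ℝ)
        * (((univ.filter (fun y : C → Q => ∀ k' ∈ s, B k' y)).card : ℝ)
        * ((univ : Finset (C → Q)).card : ℝ) ^ s.card) := by rw [h']; ring
      _ = _ := by rw [ih]; ring

end Count

/-! ## Full range -/

section FR

variable {V M Q : Type*} [Fintype V] [DecidableEq V] [Fintype M] [DecidableEq M]
  [Fintype Q] [DecidableEq Q]

/-- `P` is spread with parameter `r` outside `I`. -/
def Dense (r : ℕ) (P : Finset (V → M)) (I : Finset V) : Prop :=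
  ∀ K : Finset V, Disjoint K I → ∀ γ : V → M,
    (P.filter (fun x => ∀ v ∈ K, x v = γ v)).card * r ^ K.card ≤ P.card

/-- the cells read by `x` on the set `J` -/
def cells (J : Finset V) (x : V → M) : Finset (V × M) := J.image (fun v => (v, x v))

omit [Fintype V] [Fintype M] in
lemma card_cells (J : Finset V) (x : V → M) : (cells J x).card = J.card := by
  unfold cells
  apply Finset.card_image_of_injective
  intro v v' h
  exact (Prod.mk.inj h).1

omit [Fintype V] [Fintype M] [Fintype Q] [DecidableEq Q] in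
lemma forall_cells (J : Finset V) (x : V → M) (y : V × M → Q) (c : V → Q) :
    (∀ p ∈ cells J x, y p = (fun p : V × M => c p.1) p) ↔ ∀ v ∈ J, y (v, x v) = c v := by
  unfold cells
  simp

/-- number of functions matching a pattern -/
lemma card_match (J : Finset V) (x : V → M) (c : V → Q) (hq : 0 < Fintype.card Q) :
    ((univ.filter (fun y : V × M → Q => ∀ v ∈ J, y (v, x v) = c v)).card : ℝ)
      = (Fintype.card Q : ℝ) ^ (Fintype.card (V × M)) / (Fintype.card Q : ℝ) ^ J.card := by
  have h := card_prescribed (C := V × M) (Q := Q) (cells J x) (fun p => c p.1)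
  simp only [forall_cells, card_cells] at h
  have hq' : (0 : ℝ) < (Fintype.card Q : ℝ) ^ J.card := by positivity
  rw [eq_div_iff hq'.ne']
  exact_mod_cast h

lemma card_match_two (J J' : Finset V) (x x' : V → M) (c c' : V → Q) (hq : 0 < Fintype.card Q) :
    ((univ.filter (fun y : V × M → Q => (∀ v ∈ J, y (v, x v) = c v) ∧
        (∀ v ∈ J', y (v, x' v) = c' v))).card : ℝ)
      ≤ (Fintype.card Q : ℝ) ^ (Fintype.card (V × M))
        * (1 / (Fintype.card Q : ℝ) ^ (cells J x ∪ cells J' x').card) := by
  have h := card_prescribed_two (C := V × M) (Q := Q) (cells J x) (cells J' x')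
    (fun p => c p.1) (fun p => c' p.1)
  simp only [forall_cells] at h
  have hq' : (0 : ℝ) < (Fintype.card Q : ℝ) ^ (cells J x ∪ cells J' x').card := by positivity
  rw [mul_one_div, le_div_iff₀ hq']
  exact_mod_cast h

omit [Fintype V] [Fintype M] in
lemma card_union_cells (J J' : Finset V) (x x' : V → M) :
    J.card + J'.card ≤ (cells J x ∪ cells J' x').card + (J.filter (fun v => x v = x' v)).card := by
  have h1 := Finset.card_union_add_card_inter (cells J x) (cells J' x')
  rw [card_cells, card_cells] at h1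
  have h2 : (cells J x ∩ cells J' x').card ≤ (J.filter (fun v => x v = x' v)).card := by
    apply Finset.card_le_card_of_injOn (fun p => p.1)
    · intro p hp
      rw [Finset.mem_coe, Finset.mem_inter] at hp
      unfold cells at hp
      simp only [mem_image] at hp
      obtain ⟨⟨v, hv, rfl⟩, ⟨v', _, hv'⟩⟩ := hp
      simp only [Prod.mk.injEq] at hv'
      obtain ⟨rfl, h⟩ := hv'
      simp [hv, h]
    · intro p hp p' hp' h
      rw [Finset.mem_coe, Finset.mem_inter] at hp hp'
      unfold cells at hp hp'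
      simp only [mem_image] at hp hp'
      obtain ⟨⟨v, _, rfl⟩, _⟩ := hp
      obtain ⟨⟨v', _, rfl⟩, _⟩ := hp'
      simp only at h
      rw [h]
  omega

/-- Sum of `β ^ (number of agreements)` over a spread family. -/
lemma sum_pow_agree (r W : ℕ) (P : Finset (V → M)) (I J : Finset V) (hd : Dense r P I)
    (hJI : Disjoint J I) (hJ : J.card = W) (x : V → M) (β : ℕ) (hr : 0 < r) (hβ : 0 < β)
    (hW : 20 * W * β ≤ r) :
    (∑ x' ∈ P, (β : ℝ) ^ (J.filter (fun v => x v = x' v)).card) ≤ (11 / 10) * (P.card : ℝ) := by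
  have hβ1 : (1 : ℝ) ≤ β := by exact_mod_cast hβ
  have hr' : (0 : ℝ) < r := by exact_mod_cast hr
  have h1 : ∀ x' ∈ P, (β : ℝ) ^ (J.filter (fun v => x v = x' v)).card
      ≤ ∑ K ∈ J.powerset, if (∀ v ∈ K, x' v = x v) then (β : ℝ) ^ K.card else 0 := by
    intro x' _
    have hmem : J.filter (fun v => x v = x' v) ∈ J.powerset := by
      rw [Finset.mem_powerset]
      exact Finset.filter_subset _ _
    have := Finset.single_le_sum (s := J.powerset)
      (f := fun K => if (∀ v ∈ K, x' v = x v) then (β : ℝ) ^ K.card else 0)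
      (fun K _ => by
        split_ifs
        · positivity
        · exact le_refl _) hmem
    refine le_trans (le_of_eq ?_) this
    rw [if_pos]
    intro v hv
    exact ((Finset.mem_filter.mp hv).2).symm
  calc (∑ x' ∈ P, (β : ℝ) ^ (J.filter (fun v => x v = x' v)).card)
      ≤ ∑ x' ∈ P, ∑ K ∈ J.powerset, (if (∀ v ∈ K, x' v = x v) then (β : ℝ) ^ K.card else 0) :=
        Finset.sum_le_sum h1
    _ = ∑ K ∈ J.powerset, ∑ x' ∈ P, (if (∀ v ∈ K, x' v = x v) then (β : ℝ) ^ K.card else 0) :=
        Finset.sum_comm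
    _ = ∑ K ∈ J.powerset, ((P.filter (fun x' => ∀ v ∈ K, x' v = x v)).card : ℝ)
          * (β : ℝ) ^ K.card := by
        apply Finset.sum_congr rfl
        intro K _
        rw [← Finset.sum_filter, Finset.sum_const, nsmul_eq_mul]
    _ ≤ ∑ K ∈ J.powerset, (P.card : ℝ) * ((β : ℝ) / r) ^ K.card := by
        apply Finset.sum_le_sum
        intro K hK
        have hKJ := Finset.mem_powerset.mp hK
        have hdis : Disjoint K I := Finset.disjoint_of_subset_left hKJ hJI
        have := hd K hdis x
        have h2 : ((P.filter (fun x' => ∀ v ∈ K, x' v = x v)).card : ℝ) * (r : ℝ) ^ K.card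
            ≤ P.card := by exact_mod_cast this
        rw [div_pow, mul_div_assoc', le_div_iff₀ (by positivity)]
        calc _ = (((P.filter (fun x' => ∀ v ∈ K, x' v = x v)).card : ℝ) * (r : ℝ) ^ K.card)
              * (β : ℝ) ^ K.card := by ring
          _ ≤ _ := by
            apply mul_le_mul_of_nonneg_right h2
            positivity
    _ = (P.card : ℝ) * (1 + (β : ℝ) / r) ^ W := by
        rw [← Finset.mul_sum, ← hJ]
        congr 1
        have := Finset.sum_pow_mul_eq_add_pow ((β : ℝ) / r) 1 J
        simp only [one_pow, mul_one] at this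
        rw [this, add_comm]
    _ ≤ (P.card : ℝ) * (11 / 10) := by
        apply mul_le_mul_of_nonneg_left _ (by positivity)
        have hz : (W : ℝ) * ((β : ℝ) / r) ≤ 1 / 20 := by
          have : (20 : ℝ) * W * β ≤ r := by exact_mod_cast hW
          rw [mul_div_assoc', div_le_iff₀ hr']
          linarith
        have h3 : (1 + (β : ℝ) / r) ^ W ≤ Real.exp (1 / 20) := by
          calc (1 + (β : ℝ) / r) ^ W ≤ (Real.exp ((β : ℝ) / r)) ^ W := by
                apply pow_le_pow_left₀ (by positivity)
                have := Real.add_one_le_exp ((β : ℝ) / r)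
                linarith
            _ = Real.exp (W * ((β : ℝ) / r)) := by
                rw [← Real.exp_nat_mul]
            _ ≤ Real.exp (1 / 20) := Real.exp_le_exp.mpr hz
        have h4 : Real.exp (1 / 20) ≤ 11 / 10 := by
          have h5 : Real.exp (-(1 / 20)) ≥ 1 - 1 / 20 := by
            have := Real.add_one_le_exp (-(1 / 20) : ℝ)
            linarith
          have h6 : Real.exp (1 / 20) * Real.exp (-(1 / 20)) = 1 := by
            rw [← Real.exp_add]; simp
          have h7 : 0 < Real.exp (1 / 20) := Real.exp_pos _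
          nlinarith
        exact h3.trans h4
    _ = _ := by ring

/-- second moment bound: few pairs `(κ, y)` see no match in colour `k` -/
lemma few_unmatched {L : Type*} [Fintype L] [DecidableEq L] (r W : ℕ) (P : Finset (V → M))
    (hP : P.Nonempty) (I : Finset V) (hd : Dense r P I) (J : (V → M) → Finset V)
    (hJ : ∀ x ∈ P, (J x).card = W ∧ Disjoint (J x) I) (c : (V → M) → V → Q)
    (hL : 0 < Fintype.card L) (hQ : 0 < Fintype.card Q) (hr : 0 < r)
    (hW : 20 * W * (Fintype.card L * Fintype.card Q) ≤ r) (k : L) :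
    (((univ : Finset ((V × M → L) × (V × M → Q))).filter (fun p =>
        (P.filter (fun x => ∀ v ∈ J x, p.1 (v, x v) = k ∧ p.2 (v, x v) = c x v)).card = 0)).card : ℝ)
      ≤ (1 / 11) * ((Fintype.card L : ℝ) ^ (Fintype.card (V × M))
          * (Fintype.card Q : ℝ) ^ (Fintype.card (V × M))) := by
  classical
  set ℓ : ℝ := (Fintype.card L : ℝ) with hℓ
  set q : ℝ := (Fintype.card Q : ℝ) with hq
  set n := Fintype.card (V × M) with hn
  have hℓ0 : 0 < ℓ := by rw [hℓ]; exact_mod_cast hL
  have hq0 : 0 < q := by rw [hq]; exact_mod_cast hQ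
  set N : ((V × M → L) × (V × M → Q)) → ℕ := fun p =>
    (P.filter (fun x => ∀ v ∈ J x, p.1 (v, x v) = k ∧ p.2 (v, x v) = c x v)).card with hN
  set Ω : ℝ := ℓ ^ n * q ^ n with hΩ
  have hΩ0 : 0 < Ω := by positivity
  have hPc : (0 : ℝ) < P.card := by exact_mod_cast hP.card_pos
  -- splitting of the events
  have hsplit : ∀ x : V → M, ((univ : Finset ((V × M → L) × (V × M → Q))).filter (fun p =>
      ∀ v ∈ J x, p.1 (v, x v) = k ∧ p.2 (v, x v) = c x v))
      = (univ.filter (fun κ : V × M → L => ∀ v ∈ J x, κ (v, x v) = k)) ×ˢ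
        (univ.filter (fun y : V × M → Q => ∀ v ∈ J x, y (v, x v) = c x v)) := by
    intro x
    ext p
    simp only [mem_filter, mem_univ, true_and, mem_product]
    constructor
    · intro h
      exact ⟨fun v hv => (h v hv).1, fun v hv => (h v hv).2⟩
    · intro h v hv
      exact ⟨h.1 v hv, h.2 v hv⟩
  -- first moment
  have h1 : ∑ p, (N p : ℝ) = P.card * (Ω / (ℓ * q) ^ W) := by
    have : ∀ p, (N p : ℝ) = ∑ x ∈ P,
        if (∀ v ∈ J x, p.1 (v, x v) = k ∧ p.2 (v, x v) = c x v) then (1 : ℝ) else 0 := by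
      intro p
      simp only [hN, Finset.card_filter]
      push_cast
      rfl
    simp only [this]
    rw [Finset.sum_comm]
    have h2 : ∀ x ∈ P, ∑ p : (V × M → L) × (V × M → Q),
        (if (∀ v ∈ J x, p.1 (v, x v) = k ∧ p.2 (v, x v) = c x v) then (1 : ℝ) else 0)
        = Ω / (ℓ * q) ^ W := by
      intro x hx
      rw [← Finset.sum_filter, hsplit x, Finset.sum_const, Finset.card_product, nsmul_eq_mul,
        mul_one]
      push_cast
      rw [card_match (Q := L) (J x) x (fun _ => k) hL, card_match (Q := Q) (J x) x (c x) hQ,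
        (hJ x hx).1]
      rw [hΩ, mul_pow]
      ring
    rw [Finset.sum_congr rfl h2, Finset.sum_const, nsmul_eq_mul]
  -- second moment
  have h2 : ∑ p, (N p : ℝ) ^ 2 ≤ (11 / 10) * (P.card : ℝ) ^ 2 * (Ω / (ℓ * q) ^ (2 * W)) := by
    have e : ∀ p, (N p : ℝ) ^ 2 = ∑ x ∈ P, ∑ x' ∈ P,
        if ((∀ v ∈ J x, p.1 (v, x v) = k ∧ p.2 (v, x v) = c x v) ∧
          (∀ v ∈ J x', p.1 (v, x' v) = k ∧ p.2 (v, x' v) = c x' v)) then (1 : ℝ) else 0 := by
      intro p
      have : (N p : ℝ) = ∑ x ∈ P,
        if (∀ v ∈ J x, p.1 (v, x v) = k ∧ p.2 (v, x v) = c x v) then (1 : ℝ) else 0 := by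
        simp only [hN, Finset.card_filter]
        push_cast
        rfl
      rw [sq, this, Finset.sum_mul_sum]
      apply Finset.sum_congr rfl
      intro x _
      apply Finset.sum_congr rfl
      intro x' _
      by_cases a : (∀ v ∈ J x, p.1 (v, x v) = k ∧ p.2 (v, x v) = c x v) <;>
        by_cases b : (∀ v ∈ J x', p.1 (v, x' v) = k ∧ p.2 (v, x' v) = c x' v)
      · rw [if_pos a, if_pos b, if_pos ⟨a, b⟩, mul_one]
      · rw [if_pos a, if_neg b, if_neg (fun h => b h.2), mul_zero]
      · rw [if_neg a, zero_mul, if_neg (fun h => a h.1)]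
      · rw [if_neg a, zero_mul, if_neg (fun h => a h.1)]
    simp only [e]
    rw [Finset.sum_comm]
    have hin : ∀ x ∈ P, ∑ p : (V × M → L) × (V × M → Q), ∑ x' ∈ P,
        (if ((∀ v ∈ J x, p.1 (v, x v) = k ∧ p.2 (v, x v) = c x v) ∧
          (∀ v ∈ J x', p.1 (v, x' v) = k ∧ p.2 (v, x' v) = c x' v)) then (1 : ℝ) else 0)
        ≤ (11 / 10) * (P.card : ℝ) * (Ω / (ℓ * q) ^ (2 * W)) := by
      intro x hx
      rw [Finset.sum_comm]
      have hxx : ∀ x' ∈ P, ∑ p : (V × M → L) × (V × M → Q),
          (if ((∀ v ∈ J x, p.1 (v, x v) = k ∧ p.2 (v, x v) = c x v) ∧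
          (∀ v ∈ J x', p.1 (v, x' v) = k ∧ p.2 (v, x' v) = c x' v)) then (1 : ℝ) else 0)
          ≤ (Ω / (ℓ * q) ^ (2 * W)) * (ℓ * q) ^ ((J x).filter (fun v => x v = x' v)).card := by
        intro x' hx'
        have hset : ((univ : Finset ((V × M → L) × (V × M → Q))).filter (fun p =>
            (∀ v ∈ J x, p.1 (v, x v) = k ∧ p.2 (v, x v) = c x v) ∧
            (∀ v ∈ J x', p.1 (v, x' v) = k ∧ p.2 (v, x' v) = c x' v)))
            = (univ.filter (fun κ : V × M → L => (∀ v ∈ J x, κ (v, x v) = (fun _ => k) v) ∧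
                (∀ v ∈ J x', κ (v, x' v) = (fun _ => k) v))) ×ˢ
              (univ.filter (fun y : V × M → Q => (∀ v ∈ J x, y (v, x v) = c x v) ∧
                (∀ v ∈ J x', y (v, x' v) = c x' v))) := by
          ext p
          simp only [mem_filter, mem_univ, true_and, mem_product]
          constructor
          · rintro ⟨h, h'⟩
            exact ⟨⟨fun v hv => (h v hv).1, fun v hv => (h' v hv).1⟩,
              ⟨fun v hv => (h v hv).2, fun v hv => (h' v hv).2⟩⟩
          · rintro ⟨⟨h1, h1'⟩, ⟨h2, h2'⟩⟩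
            exact ⟨fun v hv => ⟨h1 v hv, h2 v hv⟩, fun v hv => ⟨h1' v hv, h2' v hv⟩⟩
        rw [← Finset.sum_filter, hset, Finset.sum_const, Finset.card_product, nsmul_eq_mul,
          mul_one]
        push_cast
        set u := (cells (J x) x ∪ cells (J x') x').card with hu
        set a := ((J x).filter (fun v => x v = x' v)).card with ha
        have hcard : 2 * W ≤ u + a := by
          have := card_union_cells (J x) (J x') x x'
          rw [(hJ x hx).1, (hJ x' hx').1] at this
          omega
        have m1 := card_match_two (Q := L) (J x) (J x') x x' (fun _ => k) (fun _ => k) hL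
        have m2 := card_match_two (Q := Q) (J x) (J x') x x' (c x) (c x') hQ
        rw [← hu, ← hn] at m1 m2
        have hℓq : (1 : ℝ) ≤ ℓ * q := by
          have h1 : (1 : ℝ) ≤ ℓ := by rw [hℓ]; exact_mod_cast hL
          have h2 : (1 : ℝ) ≤ q := by rw [hq]; exact_mod_cast hQ
          nlinarith
        calc _ ≤ (ℓ ^ n * (1 / ℓ ^ u)) * (q ^ n * (1 / q ^ u)) := by
              apply mul_le_mul m1 m2 (by positivity) (by positivity)
          _ = Ω * (1 / (ℓ * q) ^ u) := by rw [hΩ, mul_pow]; ring
          _ ≤ Ω * ((ℓ * q) ^ a / (ℓ * q) ^ (2 * W)) := by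
              apply mul_le_mul_of_nonneg_left _ hΩ0.le
              rw [div_le_div_iff₀ (by positivity) (by positivity), one_mul, ← pow_add]
              apply pow_le_pow_right₀ hℓq
              omega
          _ = _ := by ring
      calc _ ≤ ∑ x' ∈ P, (Ω / (ℓ * q) ^ (2 * W)) * (ℓ * q) ^ ((J x).filter (fun v => x v = x' v)).card :=
            Finset.sum_le_sum hxx
        _ = (Ω / (ℓ * q) ^ (2 * W)) * ∑ x' ∈ P, (ℓ * q) ^ ((J x).filter (fun v => x v = x' v)).card := by
            rw [Finset.mul_sum]
        _ ≤ (Ω / (ℓ * q) ^ (2 * W)) * ((11 / 10) * (P.card : ℝ)) := by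
            apply mul_le_mul_of_nonneg_left _ (by positivity)
            have := sum_pow_agree r W P I (J x) hd (hJ x hx).2 (hJ x hx).1 x
              (Fintype.card L * Fintype.card Q) hr (Nat.mul_pos hL hQ) hW
            push_cast at this
            exact this
        _ = _ := by ring
    calc _ ≤ ∑ x ∈ P, (11 / 10) * (P.card : ℝ) * (Ω / (ℓ * q) ^ (2 * W)) := Finset.sum_le_sum hin
      _ = _ := by rw [Finset.sum_const, nsmul_eq_mul]; ring
  -- Cauchy-Schwarz
  set S := (univ : Finset ((V × M → L) × (V × M → Q))).filter (fun p => N p ≠ 0) with hS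
  have h3 : (∑ p, (N p : ℝ)) ^ 2 ≤ (S.card : ℝ) * ∑ p, (N p : ℝ) ^ 2 := by
    have e1 : ∑ p, (N p : ℝ) = ∑ p ∈ S, (N p : ℝ) := by
      rw [hS, Finset.sum_filter]
      apply Finset.sum_congr rfl
      intro p _
      by_cases h : N p = 0
      · simp [h]
      · simp [h]
    have e2 : ∑ p ∈ S, (N p : ℝ) ^ 2 ≤ ∑ p, (N p : ℝ) ^ 2 := by
      apply Finset.sum_le_sum_of_subset_of_nonneg (Finset.subset_univ _)
      intros
      positivity
    rw [e1]
    refine (sq_sum_le_card_mul_sum_sq).trans ?_
    exact mul_le_mul_of_nonneg_left e2 (by positivity)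
  rw [h1] at h3
  have h4 : (10 / 11) * Ω ≤ (S.card : ℝ) := by
    have h5 := h3.trans (mul_le_mul_of_nonneg_left h2 (by positivity))
    have e1 : ((P.card : ℝ) * (Ω / (ℓ * q) ^ W)) ^ 2
        = (P.card : ℝ) ^ 2 * Ω * (1 / (ℓ * q) ^ (2 * W)) * Ω := by
      rw [mul_pow, div_pow, ← pow_mul, mul_comm W 2]; ring
    have e2 : (S.card : ℝ) * ((11 / 10) * (P.card : ℝ) ^ 2 * (Ω / (ℓ * q) ^ (2 * W)))
        = (P.card : ℝ) ^ 2 * Ω * (1 / (ℓ * q) ^ (2 * W)) * ((11 / 10) * S.card) := by ring
    rw [e1, e2] at h5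
    have h6 : (0 : ℝ) < (P.card : ℝ) ^ 2 * Ω * (1 / (ℓ * q) ^ (2 * W)) := by positivity
    have h7 := le_of_mul_le_mul_left h5 h6
    linarith
  have h5 : ((univ.filter (fun p => N p = 0)).card : ℝ) + S.card = Ω := by
    have := Finset.card_filter_add_card_filter_not (s := (univ : Finset ((V × M → L) × (V × M → Q))))
      (p := fun p => N p = 0)
    have hcu : ((univ : Finset ((V × M → L) × (V × M → Q))).card : ℝ) = Ω := by
      rw [Finset.card_univ, Fintype.card_prod, Fintype.card_fun, Fintype.card_fun]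
      push_cast
      rfl
    rw [← hcu, ← this]
    push_cast
    rfl
  have : ((univ.filter (fun p => N p = 0)).card : ℝ) ≤ (1 / 11) * Ω := by linarith
  exact this

/-- Full range lemma. -/
theorem full_range (r W Δ : ℕ) (P : Finset (V → M)) (hP : P.Nonempty) (I : Finset V)
    (hd : Dense r P I) (J : (V → M) → Finset V)
    (hJ : ∀ x ∈ P, (J x).card = W ∧ Disjoint (J x) I) (c : (V → M) → V → Q)
    (hQ : 0 < Fintype.card Q) (hr : 0 < r)
    (hW : 20 * W * ((Δ + 1) * Fintype.card Q) ≤ r)
    (Y : Finset (V × M → Q))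
    (hY : (Fintype.card Q) ^ (Fintype.card (V × M)) ≤ Y.card * 2 ^ Δ) :
    ∃ x ∈ P, ∃ y ∈ Y, ∀ v ∈ J x, y (v, x v) = c x v := by
  classical
  by_contra hcon
  push Not at hcon
  set L := Fin (Δ + 1) with hL
  have hLc : Fintype.card L = Δ + 1 := Fintype.card_fin _
  set n := Fintype.card (V × M) with hn
  set q : ℝ := (Fintype.card Q : ℝ) with hq
  have hq0 : 0 < q := by rw [hq]; exact_mod_cast hQ
  set Z : ℝ := q ^ n with hZ
  have hZ0 : 0 < Z := by positivity
  -- bad set in colour k
  let Bad : L → (V × M → L) → (V × M → Q) → Prop := fun k κ y =>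
    (P.filter (fun x => ∀ v ∈ J x, κ (v, x v) = k ∧ y (v, x v) = c x v)).card = 0
  have hfew : ∀ k : L, (((univ : Finset ((V × M → L) × (V × M → Q))).filter
      (fun p => Bad k p.1 p.2)).card : ℝ) ≤ (1 / 11) * (((Δ + 1 : ℕ) : ℝ) ^ n * Z) := by
    intro k
    have := few_unmatched (L := L) r W P hP I hd J hJ c (by rw [hLc]; omega) hQ hr
      (by rw [hLc]; exact hW) k
    rw [hLc] at this
    exact this
  -- sum over colours and choose a colouring
  have hsum : ∑ κ : V × M → L, ∑ k : L, ((univ.filter (fun y : V × M → Q => Bad k κ y)).card : ℝ)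
      ≤ ∑ κ : V × M → L, ((Δ + 1 : ℕ) : ℝ) * Z / 11 := by
    rw [Finset.sum_comm]
    have e : ∀ k : L, ∑ κ : V × M → L, ((univ.filter (fun y : V × M → Q => Bad k κ y)).card : ℝ)
        = (((univ : Finset ((V × M → L) × (V × M → Q))).filter
      (fun p => Bad k p.1 p.2)).card : ℝ) := by
      intro k
      rw [← Finset.univ_product_univ, Finset.card_filter, Finset.sum_product]
      push_cast
      apply Finset.sum_congr rfl
      intro κ _
      rw [Finset.card_filter]
      push_cast
      rfl
    calc _ = ∑ k : L, (((univ : Finset ((V × M → L) × (V × M → Q))).filter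
      (fun p => Bad k p.1 p.2)).card : ℝ) := Finset.sum_congr rfl (fun k _ => e k)
      _ ≤ ∑ k : L, (1 / 11) * (((Δ + 1 : ℕ) : ℝ) ^ n * Z) := Finset.sum_le_sum (fun k _ => hfew k)
      _ = _ := by
        rw [Finset.sum_const, Finset.sum_const, Finset.card_univ, Finset.card_univ,
          Fintype.card_fun, hLc]
        simp only [nsmul_eq_mul]
        push_cast
        ring
  obtain ⟨κ, -, hκ⟩ := Finset.exists_le_of_sum_le (s := (univ : Finset (V × M → L)))
    ⟨fun _ => 0, Finset.mem_univ _⟩ hsum
  -- independence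
  have hdep : ∀ (k : L) (y y' : V × M → Q), (∀ p, κ p = k → y p = y' p) →
      (Bad k κ y ↔ Bad k κ y') := by
    intro k y y' hyy
    have : (P.filter (fun x => ∀ v ∈ J x, κ (v, x v) = k ∧ y (v, x v) = c x v))
        = (P.filter (fun x => ∀ v ∈ J x, κ (v, x v) = k ∧ y' (v, x v) = c x v)) := by
      apply Finset.filter_congr
      intro x _
      constructor
      · intro h v hv
        have := h v hv
        exact ⟨this.1, by rw [← hyy _ this.1]; exact this.2⟩
      · intro h v hv
        have := h v hv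
        exact ⟨this.1, by rw [hyy _ this.1]; exact this.2⟩
    change (P.filter _).card = 0 ↔ (P.filter _).card = 0
    rw [this]
  have hind := card_indep_colours κ (fun k y => Bad k κ y) hdep (univ : Finset L)
  have hcu : ((univ : Finset (V × M → Q)).card : ℝ) = Z := by
    rw [Finset.card_univ, Fintype.card_fun]
    push_cast
    rfl
  rw [hcu] at hind
  have hYsub : Y ⊆ univ.filter (fun y : V × M → Q => ∀ k ∈ (univ : Finset L), Bad k κ y) := by
    intro y hy
    simp only [mem_filter, mem_univ, true_and]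
    intro k _
    change (P.filter _).card = 0
    rw [Finset.card_eq_zero, Finset.filter_eq_empty_iff]
    intro x hx h
    obtain ⟨v, hv, hne⟩ := hcon x hx y hy
    exact hne (h v hv).2
  have hYle : (Y.card : ℝ) ≤
      ((univ.filter (fun y : V × M → Q => ∀ k ∈ (univ : Finset L), Bad k κ y)).card : ℝ) := by
    exact_mod_cast Finset.card_le_card hYsub
  have hcardL : (univ : Finset L).card = Δ + 1 := by rw [Finset.card_univ, hLc]
  have hexp : ∏ k : L, ((univ.filter (fun y : V × M → Q => Bad k κ y)).card : ℝ)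
      ≤ Z ^ (Δ + 1) * Real.exp (-(10 / 11) * (Δ + 1)) := by
    have h1 : ∀ k ∈ (univ : Finset L), ((univ.filter (fun y : V × M → Q => Bad k κ y)).card : ℝ)
        ≤ Z * Real.exp (((univ.filter (fun y : V × M → Q => Bad k κ y)).card : ℝ) / Z - 1) := by
      intro k _
      have := Real.add_one_le_exp
        (((univ.filter (fun y : V × M → Q => Bad k κ y)).card : ℝ) / Z - 1)
      have h2 : ((univ.filter (fun y : V × M → Q => Bad k κ y)).card : ℝ)
          = Z * (((univ.filter (fun y : V × M → Q => Bad k κ y)).card : ℝ) / Z - 1 + 1) := by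
        field_simp
        ring
      calc _ = Z * (((univ.filter (fun y : V × M → Q => Bad k κ y)).card : ℝ) / Z - 1 + 1) := h2
        _ ≤ _ := mul_le_mul_of_nonneg_left this hZ0.le
    calc _ ≤ ∏ k : L, (Z * Real.exp (((univ.filter
          (fun y : V × M → Q => Bad k κ y)).card : ℝ) / Z - 1)) :=
          Finset.prod_le_prod (fun k _ => by positivity) h1
      _ = Z ^ (Δ + 1) * Real.exp (∑ k : L, (((univ.filter
          (fun y : V × M → Q => Bad k κ y)).card : ℝ) / Z - 1)) := by
          rw [Finset.prod_mul_distrib, Finset.prod_const, hcardL, Real.exp_sum]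
      _ ≤ _ := by
          apply mul_le_mul_of_nonneg_left _ (by positivity)
          apply Real.exp_le_exp.mpr
          rw [Finset.sum_sub_distrib, ← Finset.sum_div, Finset.sum_const, hcardL]
          simp only [nsmul_eq_mul, mul_one]
          have : (∑ k : L, ((univ.filter (fun y : V × M → Q => Bad k κ y)).card : ℝ)) / Z
              ≤ ((Δ + 1 : ℕ) : ℝ) / 11 := by
            rw [div_le_iff₀ hZ0]
            linarith
          push_cast at this ⊢
          linarith
  have hfin : (Y.card : ℝ) ≤ Z * Real.exp (-(10 / 11) * (Δ + 1)) := by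
    rw [hcardL] at hind
    have h1 : (Y.card : ℝ) * Z ^ (Δ + 1) ≤ (Z * Real.exp (-(10 / 11) * (Δ + 1))) * Z ^ (Δ + 1) := by
      calc _ ≤ ((univ.filter (fun y : V × M → Q => ∀ k ∈ (univ : Finset L), Bad k κ y)).card : ℝ)
            * Z ^ (Δ + 1) := mul_le_mul_of_nonneg_right hYle (by positivity)
        _ = Z * ∏ k : L, ((univ.filter (fun y : V × M → Q => Bad k κ y)).card : ℝ) := by
            convert hind
        _ ≤ Z * (Z ^ (Δ + 1) * Real.exp (-(10 / 11) * (Δ + 1))) :=
            mul_le_mul_of_nonneg_left hexp hZ0.le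
        _ = _ := by ring
    exact le_of_mul_le_mul_right h1 (by positivity)
  have h2 : Real.exp (-(10 / 11) * ((Δ : ℝ) + 1)) ≤ (1 / 2) ^ (Δ + 1) := by
    have h3 : Real.exp (-(10 / 11)) ≤ 1 / 2 := by
      have := Real.log_two_lt_d9
      have h4 : Real.exp (-(10 / 11)) ≤ Real.exp (-Real.log 2) := by
        apply Real.exp_le_exp.mpr
        linarith
      rw [Real.exp_neg (Real.log 2), Real.exp_log (by norm_num)] at h4
      linarith
    calc Real.exp (-(10 / 11) * ((Δ : ℝ) + 1)) = (Real.exp (-(10 / 11))) ^ (Δ + 1) := by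
          rw [← Real.exp_nat_mul]
          congr 1
          push_cast
          ring
      _ ≤ _ := pow_le_pow_left₀ (Real.exp_pos _).le h3 _
  have hY' : Z ≤ (Y.card : ℝ) * 2 ^ Δ := by
    rw [hZ, hq]
    exact_mod_cast hY
  have h3 : Z ≤ Z * (1 / 2) := by
    calc Z ≤ (Y.card : ℝ) * 2 ^ Δ := hY'
      _ ≤ (Z * (1 / 2) ^ (Δ + 1)) * 2 ^ Δ := by
          apply mul_le_mul_of_nonneg_right _ (by positivity)
          exact hfin.trans (mul_le_mul_of_nonneg_left h2 hZ0.le)
      _ = Z * (1 / 2) * ((1 / 2) ^ Δ * 2 ^ Δ) := by rw [pow_succ]; ring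
      _ = Z * (1 / 2) := by rw [← mul_pow]; norm_num
  linarith

end FR

section Part

variable {V M : Type*} [Fintype V] [DecidableEq V] [Fintype M] [DecidableEq M]

lemma card_fixed_le (I : Finset V) (γ : V → M) (hM : 0 < Fintype.card M) (X : Finset (V → M)) :
    (X.filter (fun x => ∀ v ∈ I, x v = γ v)).card * (Fintype.card M) ^ I.card
      ≤ (Fintype.card M) ^ (Fintype.card V) := by
  rw [← card_prescribed I γ]
  apply Nat.mul_le_mul_right
  apply Finset.card_le_card
  intro x hx
  simp only [mem_filter, mem_univ, true_and] at hx ⊢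
  exact hx.2

end Part

section Sim

variable {V M Q : Type*} [Fintype V] [DecidableEq V] [Fintype M] [DecidableEq M]
  [Fintype Q] [DecidableEq Q]

/-- A pattern on the Bob side. -/
def sat {W : ℕ} (p : Fin W → Option (V × M × Q)) (y : V × M → Q) : Prop :=
  ∀ i v a b, p i = some (v, a, b) → y (v, a) = b

/-- Y-side error -/
noncomputable def errY (W Δ : ℕ) (Y : Finset (V × M → Q)) : Finset (V × M → Q) := by
  classical
  exact Y.filter (fun y => ∃ p : Fin W → Option (V × M × Q), sat p y ∧
    (Y.filter (fun y' => sat p y')).card * 2 ^ Δ < (Fintype.card Q) ^ (Fintype.card (V × M)))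

lemma errY_card (W Δ : ℕ) (Y : Finset (V × M → Q)) :
    (errY W Δ Y).card * 2 ^ Δ ≤ (Fintype.card V * Fintype.card M * Fintype.card Q + 1) ^ W *
      (Fintype.card Q) ^ (Fintype.card (V × M)) := by
  classical
  let small : Finset (Fin W → Option (V × M × Q)) := univ.filter (fun p =>
    (Y.filter (fun y' => sat p y')).card * 2 ^ Δ < (Fintype.card Q) ^ (Fintype.card (V × M)))
  have hsub : errY W Δ Y ⊆ small.biUnion (fun p => Y.filter (fun y' => sat p y')) := by
    intro y hy
    unfold errY at hy
    simp only [mem_filter] at hy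
    obtain ⟨hyY, p, hp, hs⟩ := hy
    rw [Finset.mem_biUnion]
    exact ⟨p, by simp only [small, mem_filter, mem_univ, true_and]; exact hs,
      by rw [mem_filter]; exact ⟨hyY, hp⟩⟩
  calc (errY W Δ Y).card * 2 ^ Δ
      ≤ (small.biUnion (fun p => Y.filter (fun y' => sat p y'))).card * 2 ^ Δ :=
        Nat.mul_le_mul_right _ (Finset.card_le_card hsub)
    _ ≤ (∑ p ∈ small, (Y.filter (fun y' => sat p y')).card) * 2 ^ Δ :=
        Nat.mul_le_mul_right _ Finset.card_biUnion_le
    _ = ∑ p ∈ small, (Y.filter (fun y' => sat p y')).card * 2 ^ Δ := Finset.sum_mul _ _ _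
    _ ≤ ∑ p ∈ small, (Fintype.card Q) ^ (Fintype.card (V × M)) := by
        apply Finset.sum_le_sum
        intro p hp
        simp only [small, mem_filter, mem_univ, true_and] at hp
        exact hp.le
    _ = small.card * (Fintype.card Q) ^ (Fintype.card (V × M)) := by
        rw [Finset.sum_const, smul_eq_mul]
    _ ≤ _ := by
        apply Nat.mul_le_mul_right
        calc small.card ≤ (univ : Finset (Fin W → Option (V × M × Q))).card :=
              Finset.card_le_card (Finset.filter_subset _ _)
          _ = _ := by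
            rw [Finset.card_univ, Fintype.card_fun, Fintype.card_fin, Fintype.card_option,
              Fintype.card_prod, Fintype.card_prod]
            ring

end Sim

/-! ## Good points, density, popular choices, gaps -/

section Good

variable {V M Q : Type*} [Fintype V] [DecidableEq V] [Fintype M] [DecidableEq M]
  [Fintype Q] [DecidableEq Q]

/-- Every spread set contains a point all of whose small patterns are frequent in `Y`. -/
theorem exists_good (r W Δ Δ' : ℕ) (P : Finset (V → M)) (hP : P.Nonempty) (I : Finset V)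
    (hIW : I.card ≤ W) (hd : Dense r P I) (hQ : 0 < Fintype.card Q) (hr : 0 < r)
    (hV : 2 * W ≤ Fintype.card V)
    (hW : 20 * W * ((Δ + 2) * Fintype.card Q) ≤ r)
    (Y : Finset (V × M → Q)) (hY : (Fintype.card Q) ^ (Fintype.card (V × M)) ≤ Y.card * 2 ^ Δ)
    (hΔ : (Fintype.card V * Fintype.card M * Fintype.card Q + 1) ^ W * 2 ^ (Δ + 1) ≤ 2 ^ Δ') :
    ∃ x ∈ P, ∀ J : Finset V, J.card ≤ W → Disjoint J I → ∀ c : V → Q,
      (Fintype.card Q) ^ (Fintype.card (V × M)) ≤
        (Y.filter (fun y => ∀ v ∈ J, y (v, x v) = c v)).card * 2 ^ Δ' := by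
  classical
  by_contra hcon
  push Not at hcon
  have : Nonempty Q := Fintype.card_pos_iff.mp hQ
  choose! J hJW hJI c hrare using hcon
  -- the good part of `Y`
  set Y1 := Y \ errY W Δ' Y with hY1
  have hY1c : (Fintype.card Q) ^ (Fintype.card (V × M)) ≤ Y1.card * 2 ^ (Δ + 1) := by
    have herr := errY_card W Δ' Y
    have hsub : errY W Δ' Y ⊆ Y := by
      unfold errY
      exact Finset.filter_subset _ _
    have hcard : Y1.card = Y.card - (errY W Δ' Y).card := Finset.card_sdiff_of_subset hsub
    have h1 : 2 * (errY W Δ' Y).card ≤ Y.card := by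
      have h2 : (errY W Δ' Y).card * 2 ^ Δ' * 2 ≤ Y.card * 2 ^ Δ' := by
        calc (errY W Δ' Y).card * 2 ^ Δ' * 2
            ≤ ((Fintype.card V * Fintype.card M * Fintype.card Q + 1) ^ W *
              (Fintype.card Q) ^ (Fintype.card (V × M))) * 2 := Nat.mul_le_mul_right _ herr
          _ ≤ ((Fintype.card V * Fintype.card M * Fintype.card Q + 1) ^ W *
              (Y.card * 2 ^ Δ)) * 2 := by gcongr
          _ = Y.card * ((Fintype.card V * Fintype.card M * Fintype.card Q + 1) ^ W *
              2 ^ (Δ + 1)) := by rw [pow_succ]; ring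
          _ ≤ Y.card * 2 ^ Δ' := Nat.mul_le_mul_left _ hΔ
      have h3 : 0 < 2 ^ Δ' := by positivity
      have h4 : (2 * (errY W Δ' Y).card) * 2 ^ Δ' ≤ Y.card * 2 ^ Δ' := by
        calc _ = (errY W Δ' Y).card * 2 ^ Δ' * 2 := by ring
          _ ≤ _ := h2
      exact Nat.le_of_mul_le_mul_right h4 h3
    have h5 : Y.card ≤ 2 * Y1.card := by omega
    calc _ ≤ Y.card * 2 ^ Δ := hY
      _ ≤ (2 * Y1.card) * 2 ^ Δ := Nat.mul_le_mul_right _ h5
      _ = Y1.card * 2 ^ (Δ + 1) := by rw [pow_succ]; ring
  -- extend the query sets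
  have hext : ∀ x ∈ P, ∃ J' : Finset V, J x ⊆ J' ∧ J' ⊆ Iᶜ ∧ J'.card = W := by
    intro x hx
    apply Finset.exists_subsuperset_card_eq
    · intro v hv
      rw [Finset.mem_compl]
      exact Finset.disjoint_left.mp (hJI x hx) hv
    · exact hJW x hx
    · rw [Finset.card_compl]
      omega
  choose! J' hJ1 hJ2 hJ3 using hext
  obtain ⟨x, hx, y, hy, hxy⟩ := full_range (Q := Q) r W (Δ + 1) P hP I hd J'
    (fun x hx => ⟨hJ3 x hx, by
      rw [Finset.disjoint_left]
      intro v hv
      exact Finset.mem_compl.mp (hJ2 x hx hv)⟩) c hQ hr (by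
      have : Δ + 1 + 1 = Δ + 2 := rfl
      rw [this]; exact hW) Y1 hY1c
  rw [hY1, Finset.mem_sdiff] at hy
  apply hy.2
  unfold errY
  rw [Finset.mem_filter]
  refine ⟨hy.1, ?_⟩
  -- encode the pattern
  let e := (J x).equivFin
  let p : Fin W → Option (V × M × Q) := fun i =>
    if h : i.val < (J x).card then
      some ((e.symm ⟨i.val, h⟩ : V), x (e.symm ⟨i.val, h⟩ : V), c x (e.symm ⟨i.val, h⟩ : V))
    else none
  have hp : ∀ y' : V × M → Q, sat p y' ↔ ∀ v ∈ J x, y' (v, x v) = c x v := by
    intro y'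
    constructor
    · intro hs v hv
      let i := e ⟨v, hv⟩
      have hiW : i.val < W := lt_of_lt_of_le i.2 (hJW x hx)
      have := hs ⟨i.val, hiW⟩ v (x v) (c x v) (by
        simp only [p]
        rw [dif_pos i.2]
        have : e.symm ⟨i.val, i.2⟩ = ⟨v, hv⟩ := by
          change e.symm (e ⟨v, hv⟩) = _
          simp
        rw [this])
      exact this
    · intro h i v a b' hpi
      simp only [p] at hpi
      split_ifs at hpi with hlt
      simp only [Option.some.injEq, Prod.mk.injEq] at hpi
      obtain ⟨rfl, rfl, rfl⟩ := hpi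
      exact h _ (e.symm ⟨i.val, hlt⟩).2
  refine ⟨p, (hp y).mpr (fun v hv => hxy v (hJ1 x hx hv)), ?_⟩
  have h6 := hrare x hx
  have h7 : Y.filter (fun y' => sat p y') = Y.filter (fun y => ∀ v ∈ J x, y (v, x v) = c x v) := by
    ext y'
    rw [Finset.mem_filter, Finset.mem_filter, hp y']
  rw [h7]
  exact h6

/-- Restoring density. -/
theorem restore (r : ℕ) (hr : 0 < r) (X : Finset (V → M)) (I : Finset V)
    (γ : V → M) :
    ∃ (K : Finset V) (γ' : V → M) (P3 : Finset (V → M)), Disjoint K I ∧ (∀ v ∈ I, γ' v = γ v) ∧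
      P3 ⊆ X ∧ (∀ x ∈ P3, ∀ v ∈ K, x v = γ' v) ∧
      X.card ≤ P3.card * r ^ K.card ∧ Dense r P3 (I ∪ K) := by
  classical
  let good : Finset (Finset V × (V → M)) := univ.filter (fun p => Disjoint p.1 I ∧
    X.card ≤ (X.filter (fun x => ∀ v ∈ p.1, x v = p.2 v)).card * r ^ p.1.card)
  have hgood : good.Nonempty := ⟨(∅, γ), by simp [good]⟩
  obtain ⟨⟨K, γ0⟩, hI, hmax⟩ := Finset.exists_max_image good (fun p => p.1.card) hgood
  simp only [good, mem_filter, mem_univ, true_and] at hI hmax
  obtain ⟨hKI, hK⟩ := hI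
  let γ' : V → M := fun v => if v ∈ I then γ v else γ0 v
  have hset0 : X.filter (fun x => ∀ v ∈ K, x v = γ' v) = X.filter (fun x => ∀ v ∈ K, x v = γ0 v) := by
    ext x
    rw [Finset.mem_filter, Finset.mem_filter]
    constructor
    · rintro ⟨h1, h2⟩
      refine ⟨h1, fun v hv => ?_⟩
      have := h2 v hv
      simpa only [γ', if_neg (Finset.disjoint_left.mp hKI hv)] using this
    · rintro ⟨h1, h2⟩
      refine ⟨h1, fun v hv => ?_⟩
      simp only [γ', if_neg (Finset.disjoint_left.mp hKI hv)]
      exact h2 v hv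
  refine ⟨K, γ', X.filter (fun x => ∀ v ∈ K, x v = γ' v), hKI,
    fun v hv => by simp only [γ', if_pos hv], Finset.filter_subset _ _,
    fun x hx => (Finset.mem_filter.mp hx).2, by rw [hset0]; exact hK, ?_⟩
  rw [hset0]
  set P := X.filter (fun x => ∀ v ∈ K, x v = γ0 v) with hP
  intro K' hK' γ1
  rcases K'.eq_empty_or_nonempty with rfl | hKne
  · simp
  · let γ'' : V → M := fun v => if v ∈ K then γ0 v else γ1 v
    rw [Finset.disjoint_union_right] at hK'
    have hset : P.filter (fun x => ∀ v ∈ K', x v = γ1 v)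
        = X.filter (fun x => ∀ v ∈ K ∪ K', x v = γ'' v) := by
      ext x
      simp only [hP, mem_filter, mem_union]
      constructor
      · rintro ⟨⟨hx, h1⟩, h2⟩
        refine ⟨hx, ?_⟩
        intro v hv
        by_cases hvI : v ∈ K
        · simp only [γ'', if_pos hvI]
          exact h1 v hvI
        · simp only [γ'', if_neg hvI]
          exact h2 v (hv.resolve_left hvI)
      · rintro ⟨hx, h1⟩
        refine ⟨⟨hx, ?_⟩, ?_⟩
        · intro v hv
          have := h1 v (Or.inl hv)
          simpa only [γ'', if_pos hv] using this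
        · intro v hv
          have hvI : v ∉ K := fun h => (Finset.disjoint_left.mp hK'.2 hv) h
          have := h1 v (Or.inr hv)
          simpa only [γ'', if_neg hvI] using this
    have hcard : (K ∪ K').card = K.card + K'.card :=
      Finset.card_union_of_disjoint hK'.2.symm
    have hKpos : 0 < K'.card := hKne.card_pos
    have hnot : ¬ X.card ≤ (X.filter (fun x => ∀ v ∈ K ∪ K', x v = γ'' v)).card
        * r ^ (K ∪ K').card := by
      intro h
      have := hmax (K ∪ K', γ'') ⟨by
        rw [Finset.disjoint_union_left]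
        exact ⟨hKI, hK'.1⟩, h⟩
      simp only at this
      omega
    rw [hset]
    rw [hcard, pow_add] at hnot
    have hrI : 0 < r ^ K.card := by positivity
    have h1 : (X.filter (fun x => ∀ v ∈ K ∪ K', x v = γ'' v)).card * r ^ K'.card * r ^ K.card
        ≤ P.card * r ^ K.card := by
      have : (X.filter (fun x => ∀ v ∈ K ∪ K', x v = γ'' v)).card * r ^ K'.card * r ^ K.card
        = (X.filter (fun x => ∀ v ∈ K ∪ K', x v = γ'' v)).card * (r ^ K.card * r ^ K'.card) := by
        ring
      rw [this]
      omega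
    exact Nat.le_of_mul_le_mul_right h1 hrI

/-- A large subset of a spread set is spread. -/
lemma dense_sub (r1 q : ℕ) (P P' : Finset (V → M)) (I : Finset V) (hd : Dense (q * r1) P I)
    (hsub : P' ⊆ P) (hq : 0 < q) (hc : P.card ≤ q * P'.card) : Dense r1 P' I := by
  intro K hK γ
  rcases K.eq_empty_or_nonempty with rfl | hKne
  · simp
  have h1 := hd K hK γ
  have h2 : (P'.filter (fun x => ∀ v ∈ K, x v = γ v)).card
      ≤ (P.filter (fun x => ∀ v ∈ K, x v = γ v)).card :=
    Finset.card_le_card (Finset.filter_subset_filter _ hsub)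
  have h3 : q ^ 1 ≤ q ^ K.card := Nat.pow_le_pow_right hq hKne.card_pos
  have h4 : q * ((P'.filter (fun x => ∀ v ∈ K, x v = γ v)).card * r1 ^ K.card) ≤ q * P'.card := by
    calc q * ((P'.filter (fun x => ∀ v ∈ K, x v = γ v)).card * r1 ^ K.card)
        ≤ q ^ K.card * ((P.filter (fun x => ∀ v ∈ K, x v = γ v)).card * r1 ^ K.card) := by
          rw [pow_one] at h3
          gcongr
      _ = (P.filter (fun x => ∀ v ∈ K, x v = γ v)).card * (q * r1) ^ K.card := by
          rw [mul_pow]; ring
      _ ≤ P.card := h1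
      _ ≤ q * P'.card := hc
  exact Nat.le_of_mul_le_mul_left h4 hq

end Good

/-- popular choice -/
theorem popular {α β σ : Type*} [DecidableEq α] [DecidableEq β] [Fintype σ] [DecidableEq σ]
    (q : ℕ) (P : Finset α) (Y : Finset β) (hP : P.Nonempty) (hY : Y.Nonempty)
    (st : ℕ → β → σ) (E : ℕ → α → σ → Prop) [∀ k b, DecidablePred (fun x => E k x b)]
    (h : ∀ x ∈ P, ∀ y ∈ Y, ∃ k < q, E k x (st k y)) :
    ∃ k < q, ∃ b : σ, P.card ≤ 2 * q * (P.filter (fun x => E k x b)).card ∧
      Y.card ≤ 2 * q * Fintype.card σ * (Y.filter (fun y => st k y = b)).card := by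
  by_contra hcon
  push Not at hcon
  have hPc := hP.card_pos
  have hYc := hY.card_pos
  obtain ⟨x0, hx0⟩ := hP
  obtain ⟨y0, hy0⟩ := hY
  have hq : 0 < q := by
    obtain ⟨k, hk, _⟩ := h x0 hx0 y0 hy0
    omega
  have hσ : 0 < Fintype.card σ := Fintype.card_pos_iff.mpr ⟨st 0 y0⟩
  set c := Fintype.card σ with hc
  -- covering
  have hcover : P ×ˢ Y ⊆ (range q).biUnion (fun k => (univ : Finset σ).biUnion (fun b =>
      (P.filter (fun x => E k x b)) ×ˢ (Y.filter (fun y => st k y = b)))) := by
    rintro ⟨x, y⟩ hxy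
    rw [Finset.mem_product] at hxy
    obtain ⟨k, hk, hE⟩ := h x hxy.1 y hxy.2
    rw [Finset.mem_biUnion]
    refine ⟨k, Finset.mem_range.mpr hk, ?_⟩
    rw [Finset.mem_biUnion]
    refine ⟨st k y, Finset.mem_univ _, ?_⟩
    rw [Finset.mem_product, Finset.mem_filter, Finset.mem_filter]
    exact ⟨⟨hxy.1, hE⟩, ⟨hxy.2, rfl⟩⟩
  have hcount : P.card * Y.card ≤ ∑ k ∈ range q, ∑ b : σ,
      (P.filter (fun x => E k x b)).card * (Y.filter (fun y => st k y = b)).card := by
    calc P.card * Y.card = (P ×ˢ Y).card := (Finset.card_product _ _).symm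
      _ ≤ _ := Finset.card_le_card hcover
      _ ≤ ∑ k ∈ range q, ((univ : Finset σ).biUnion (fun b =>
          (P.filter (fun x => E k x b)) ×ˢ (Y.filter (fun y => st k y = b)))).card :=
          Finset.card_biUnion_le
      _ ≤ ∑ k ∈ range q, ∑ b : σ,
          ((P.filter (fun x => E k x b)) ×ˢ (Y.filter (fun y => st k y = b))).card :=
          Finset.sum_le_sum (fun k _ => Finset.card_biUnion_le)
      _ = _ := by
          apply Finset.sum_congr rfl; intro k _
          apply Finset.sum_congr rfl; intro b _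
          exact Finset.card_product _ _
  have hterm : ∀ k ∈ range q, ∀ b : σ,
      2 * q * c * ((P.filter (fun x => E k x b)).card * (Y.filter (fun y => st k y = b)).card)
        < c * (P.card * (Y.filter (fun y => st k y = b)).card) + P.card * Y.card := by
    intro k hk b
    have hk' := Finset.mem_range.mp hk
    set p := (P.filter (fun x => E k x b)).card with hp
    set y := (Y.filter (fun y => st k y = b)).card with hy
    have hpP : p ≤ P.card := Finset.card_le_card (Finset.filter_subset _ _)
    by_cases h1 : P.card ≤ 2 * q * p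
    · have h2 := hcon k hk' b h1
      rcases Nat.eq_zero_or_pos p with h0 | h0
      · rw [h0] at h1
        omega
      · calc 2 * q * c * (p * y) = p * (2 * q * c * y) := by ring
          _ < p * Y.card := Nat.mul_lt_mul_of_pos_left h2 h0
          _ ≤ P.card * Y.card := Nat.mul_le_mul_right _ hpP
          _ ≤ _ := Nat.le_add_left _ _
    · push Not at h1
      calc 2 * q * c * (p * y) = c * ((2 * q * p) * y) := by ring
        _ ≤ c * (P.card * y) := Nat.mul_le_mul_left _ (Nat.mul_le_mul_right _ h1.le)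
        _ < _ := by
          have : 0 < P.card * Y.card := Nat.mul_pos hPc hYc
          omega
  have hsumY : ∀ k ∈ range q, ∑ b : σ, (Y.filter (fun y => st k y = b)).card = Y.card := by
    intro k _
    exact (Finset.card_eq_sum_card_fiberwise (fun y _ => Finset.mem_univ (st k y))).symm
  have hk : ∀ k ∈ range q, 2 * q * c * ∑ b : σ,
      (P.filter (fun x => E k x b)).card * (Y.filter (fun y => st k y = b)).card
        < 2 * c * (P.card * Y.card) := by
    intro k hk
    have hne : (univ : Finset σ).Nonempty := ⟨st 0 y0, Finset.mem_univ _⟩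
    rw [Finset.mul_sum]
    calc _ < ∑ b : σ, (c * (P.card * (Y.filter (fun y => st k y = b)).card) + P.card * Y.card) :=
          Finset.sum_lt_sum_of_nonempty hne (fun b _ => hterm k hk b)
      _ = c * (P.card * ∑ b : σ, (Y.filter (fun y => st k y = b)).card) + c * (P.card * Y.card) := by
          rw [Finset.sum_add_distrib, Finset.sum_const, smul_eq_mul, Finset.card_univ,
            ← Finset.mul_sum, ← Finset.mul_sum]
      _ = 2 * c * (P.card * Y.card) := by rw [hsumY k hk]; ring
  have htot : 2 * q * c * (P.card * Y.card) < q * (2 * c * (P.card * Y.card)) := by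
    have hne : (range q).Nonempty := ⟨0, Finset.mem_range.mpr hq⟩
    calc 2 * q * c * (P.card * Y.card) ≤ 2 * q * c * ∑ k ∈ range q, ∑ b : σ,
        (P.filter (fun x => E k x b)).card * (Y.filter (fun y => st k y = b)).card :=
          Nat.mul_le_mul_left _ hcount
      _ = ∑ k ∈ range q, 2 * q * c * ∑ b : σ,
        (P.filter (fun x => E k x b)).card * (Y.filter (fun y => st k y = b)).card :=
          Finset.mul_sum _ _ _
      _ < ∑ _k ∈ range q, 2 * c * (P.card * Y.card) := Finset.sum_lt_sum_of_nonempty hne hk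
      _ = q * (2 * c * (P.card * Y.card)) := by
          rw [Finset.sum_const, smul_eq_mul, Finset.card_range]
  have : 2 * q * c * (P.card * Y.card) = q * (2 * c * (P.card * Y.card)) := by ring
  omega

/-- a large gap survives -/
theorem gap_lemma (g : ℕ) (K : Finset ℕ) (i j : ℕ) (h : i + g * 2 ^ K.card ≤ j) :
    ∃ i' j', i ≤ i' ∧ j' ≤ j ∧ i' + g ≤ j' ∧ ∀ p ∈ K, p ≤ i' ∨ j' ≤ p := by
  induction hk : K.card using Nat.strong_induction_on generalizing K i j with
  | _ k ih =>
  by_cases hin : ∃ p ∈ K, i < p ∧ p < j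
  · obtain ⟨p, hpK, hip, hpj⟩ := hin
    have hc : (K.erase p).card = k - 1 := by rw [Finset.card_erase_of_mem hpK, hk]
    have hkpos : 0 < k := by rw [← hk]; exact Finset.card_pos.mpr ⟨p, hpK⟩
    have hpow : 2 ^ k = 2 * 2 ^ (k - 1) := by
      obtain ⟨k', rfl⟩ : ∃ k', k = k' + 1 := ⟨k - 1, by omega⟩
      rw [pow_succ]
      simp [mul_comm]
    rw [hk, hpow] at h
    have h' : i + 2 * (g * 2 ^ (k - 1)) ≤ j := by
      have : g * (2 * 2 ^ (k - 1)) = 2 * (g * 2 ^ (k - 1)) := by ring
      omega
    by_cases hleft : i + g * 2 ^ (k - 1) ≤ p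
    · obtain ⟨i', j', h1, h2, h3, h4⟩ := ih (k - 1) (by omega) (K.erase p) i p (by rw [hc]; exact hleft) hc
      refine ⟨i', j', h1, by omega, h3, fun p' hp' => ?_⟩
      by_cases hpp : p' = p
      · right; omega
      · exact h4 p' (Finset.mem_erase.mpr ⟨hpp, hp'⟩)
    · obtain ⟨i', j', h1, h2, h3, h4⟩ := ih (k - 1) (by omega) (K.erase p) p j (by rw [hc]; omega) hc
      refine ⟨i', j', by omega, h2, h3, fun p' hp' => ?_⟩
      by_cases hpp : p' = p
      · left; omega
      · exact h4 p' (Finset.mem_erase.mpr ⟨hpp, hp'⟩)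
  · push Not at hin
    refine ⟨i, j, le_refl _, le_refl _, ?_, fun p hp => ?_⟩
    · have : g * 1 ≤ g * 2 ^ K.card := Nat.mul_le_mul_left _ Nat.one_le_two_pow
      omega
    · by_cases hip : i < p
      · right; exact hin p hp hip
      · left; omega

/-! ## The recursion -/

section Rec

variable {D : ℕ} {M : Type*} [Fintype M] [DecidableEq M]

/-- vertex of a path in position `p` -/
def xv (x : Fin D → M) (p : ℕ) : Option M :=
  if h : 0 < p ∧ p ≤ D then some (x ⟨p - 1, by omega⟩) else none

/-- side of the cut of the vertex of a path in position `p` -/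
def zv (x : Fin D → M) (y : Fin D × M → Bool) (p : ℕ) : Bool :=
  if h : 0 < p ∧ p ≤ D then y (⟨p - 1, by omega⟩, x ⟨p - 1, by omega⟩) else decide (p = 0)

omit [Fintype M] [DecidableEq M] in
lemma xv_succ (x : Fin D → M) (v : Fin D) : xv x (v.val + 1) = some (x v) := by
  unfold xv
  rw [dif_pos ⟨by omega, by omega⟩]
  congr 2

omit [Fintype M] [DecidableEq M] in
lemma zv_succ (x : Fin D → M) (y : Fin D × M → Bool) (v : Fin D) :
    zv x y (v.val + 1) = y (v, x v) := by
  unfold zv
  rw [dif_pos ⟨by omega, by omega⟩]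
  congr 2

omit [Fintype M] in
lemma dense_single (r : ℕ) (P : Finset (Fin D → M)) (I : Finset (Fin D)) (hd : Dense r P I)
    (v : Fin D) (hv : v ∉ I) (a : M) : (P.filter (fun x => x v = a)).card * r ≤ P.card := by
  have h := hd {v} (by simpa using hv) (fun _ => a)
  simpa using h

omit [Fintype M] in
/-- in a spread set there is a path which avoids few arcs at all free positions -/
lemma avoid (r S : ℕ) (P : Finset (Fin D → M)) (hP : P.Nonempty) (I : Finset (Fin D))
    (hd : Dense r P I) (Rd : Finset (ℕ × Option M × Option M)) (hRd : Rd.card ≤ 2 * S)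
    (hr : 4 * S < r) :
    ∃ x ∈ P, ∀ e ∈ Rd, ∀ v : Fin D, v ∉ I →
      ¬ (v.val + 1 = e.1 ∧ e.2.1 = some (x v)) ∧ ¬ (v.val = e.1 ∧ e.2.2 = some (x v)) := by
  classical
  by_contra hcon
  push Not at hcon
  have hPc := hP.card_pos
  let A : ℕ × Option M × Option M → Finset (Fin D → M) := fun e =>
    P.filter (fun x => ∃ v : Fin D, v ∉ I ∧ v.val + 1 = e.1 ∧ e.2.1 = some (x v))
  let B : ℕ × Option M × Option M → Finset (Fin D → M) := fun e =>
    P.filter (fun x => ∃ v : Fin D, v ∉ I ∧ v.val = e.1 ∧ e.2.2 = some (x v))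
  have hA : ∀ e, (A e).card * r ≤ P.card := by
    intro e
    by_cases h : ∃ v : Fin D, v ∉ I ∧ v.val + 1 = e.1 ∧ ∃ a, e.2.1 = some a
    · obtain ⟨v, hvI, hv, a, ha⟩ := h
      refine le_trans (Nat.mul_le_mul_right _ (Finset.card_le_card ?_)) (dense_single r P I hd v hvI a)
      intro x hx
      simp only [A, mem_filter] at hx ⊢
      obtain ⟨hxP, v', _, hv', ha'⟩ := hx
      have : v' = v := Fin.ext (by omega)
      subst this
      rw [ha] at ha'
      exact ⟨hxP, (Option.some.inj ha').symm⟩
    · have : A e = ∅ := by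
        apply Finset.filter_eq_empty_iff.mpr
        rintro x _ ⟨v, hvI, hv, ha⟩
        exact h ⟨v, hvI, hv, x v, ha⟩
      rw [this]
      simp
  have hB : ∀ e, (B e).card * r ≤ P.card := by
    intro e
    by_cases h : ∃ v : Fin D, v ∉ I ∧ v.val = e.1 ∧ ∃ a, e.2.2 = some a
    · obtain ⟨v, hvI, hv, a, ha⟩ := h
      refine le_trans (Nat.mul_le_mul_right _ (Finset.card_le_card ?_)) (dense_single r P I hd v hvI a)
      intro x hx
      simp only [B, mem_filter] at hx ⊢
      obtain ⟨hxP, v', _, hv', ha'⟩ := hx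
      have : v' = v := Fin.ext (by omega)
      subst this
      rw [ha] at ha'
      exact ⟨hxP, (Option.some.inj ha').symm⟩
    · have : B e = ∅ := by
        apply Finset.filter_eq_empty_iff.mpr
        rintro x _ ⟨v, hvI, hv, ha⟩
        exact h ⟨v, hvI, hv, x v, ha⟩
      rw [this]
      simp
  have hcover : P ⊆ Rd.biUnion (fun e => A e ∪ B e) := by
    intro x hx
    obtain ⟨e, he, v, hvI, hv⟩ := hcon x hx
    rw [Finset.mem_biUnion]
    refine ⟨e, he, ?_⟩
    rw [Finset.mem_union]
    by_cases h1 : v.val + 1 = e.1 ∧ e.2.1 = some (x v)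
    · left
      simp only [A, mem_filter]
      exact ⟨hx, v, hvI, h1⟩
    · right
      simp only [B, mem_filter]
      exact ⟨hx, v, hvI, hv (fun h2 h3 => h1 ⟨h2, h3⟩)⟩
  have h1 : P.card * r ≤ (4 * S) * P.card := by
    calc P.card * r ≤ (Rd.biUnion (fun e => A e ∪ B e)).card * r :=
          Nat.mul_le_mul_right _ (Finset.card_le_card hcover)
      _ ≤ (∑ e ∈ Rd, (A e ∪ B e).card) * r := Nat.mul_le_mul_right _ Finset.card_biUnion_le
      _ = ∑ e ∈ Rd, (A e ∪ B e).card * r := Finset.sum_mul _ _ _
      _ ≤ ∑ _e ∈ Rd, 2 * P.card := by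
          apply Finset.sum_le_sum
          intro e _
          have := Finset.card_union_le (A e) (B e)
          calc (A e ∪ B e).card * r ≤ ((A e).card + (B e).card) * r := Nat.mul_le_mul_right _ this
            _ = (A e).card * r + (B e).card * r := add_mul _ _ _
            _ ≤ P.card + P.card := Nat.add_le_add (hA e) (hB e)
            _ = 2 * P.card := by ring
      _ = Rd.card * (2 * P.card) := by rw [Finset.sum_const, smul_eq_mul]
      _ ≤ (2 * S) * (2 * P.card) := Nat.mul_le_mul_right _ hRd
      _ = (4 * S) * P.card := by ring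
  have h2 : (4 * S) * P.card < r * P.card := Nat.mul_lt_mul_of_pos_right hr hPc
  have h3 : P.card * r = r * P.card := mul_comm _ _
  omega

/-- The recursion over time intervals. -/
theorem recursion {σ : Type*} [Fintype σ] [DecidableEq σ] (r r1 q S R δ lc lq Tm : ℕ)
    (hM : Fintype.card M = r * r)
    (hr : r = 4 * q * r1) (hr1 : 0 < r1) (hq : 0 < q) (hSr : 4 * S < r) (hRD : 2 * R ≤ D)
    (hσ : Fintype.card σ ≤ 2 ^ S)
    (hlc : D * (r * r) * 2 + 1 ≤ 2 ^ lc) (hlq : 2 * q ≤ 2 ^ lq)
    (hδ : R * lc + 2 * S + lq + 1 ≤ δ)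
    (hbig : 20 * R * ((R * δ + 2) * 2) ≤ r1)
    (st : ℕ → (Fin D × M → Bool) → σ) (sep : ℕ → (Fin D → M) → σ → Prop)
    (Rd : ℕ → Finset (ℕ × Option M × Option M)) (hRd : ∀ t < Tm, (Rd t).card ≤ 2 * S)
    (hstep : ∀ t < Tm, ∀ x y, ¬ sep t x (st t y) → sep (t + 1) x (st (t + 1) y) →
      ∃ p ≤ D, (p, xv x p, xv x (p + 1)) ∈ Rd t ∧ zv x y p = true ∧ zv x y (p + 1) = false)
    (k : ℕ) : ∀ s, k + s = R → ∀ t0 t1, t0 ≤ t1 → t1 ≤ Tm → t1 ≤ t0 + q ^ k →
    ∀ (P : Finset (Fin D → M)) (I : Finset (Fin D)) (γ : Fin D → M) (z : Fin D → Bool) (i j : ℕ)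
      (Y : Finset (Fin D × M → Bool)), P.Nonempty → (∀ x ∈ P, ∀ v ∈ I, x v = γ v) → Dense r P I →
      (Fintype.card M) ^ D ≤ P.card * (4 * q) ^ s * r ^ I.card →
      2 ^ (Fintype.card (Fin D × M)) ≤ Y.card * 2 ^ (s * δ) →
      (∀ y ∈ Y, ∀ v ∈ I, y (v, γ v) = z v) →
      i + 2 ^ (R + 1 - I.card) ≤ j → j ≤ D + 1 → I.card ≤ R →
      (∀ v ∈ I, (v.val + 1 ≤ i ∧ z v = true) ∨ (j ≤ v.val + 1 ∧ z v = false)) →
      (∀ x ∈ P, ∀ y ∈ Y, ¬ sep t0 x (st t0 y) ∧ sep t1 x (st t1 y)) → False := by
  classical
  have hr0 : 0 < r := by rw [hr]; positivity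
  induction k with
  | zero =>
    intro s hs t0 t1 h01 h1T hlen P I γ z i j Y hP hγ hd hc hY hyz hgap hjD hIR hg hall
    have hYne : Y.Nonempty := by
      rw [Finset.nonempty_iff_ne_empty]
      rintro rfl
      simp at hY
    rw [pow_zero] at hlen
    rcases Nat.lt_or_ge t0 t1 with hlt | hge
    · have ht1 : t1 = t0 + 1 := by omega
      subst ht1
      obtain ⟨x, hx, hav⟩ := avoid r S P hP I hd (Rd t0) (hRd t0 (by omega)) hSr
      obtain ⟨y, hy⟩ := hYne
      obtain ⟨p, hpD, hpR, hz1, hz2⟩ := hstep t0 (by omega) x y (hall x hx y hy).1 (hall x hx y hy).2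
      have hgap2 : i + 2 ≤ j := by
        have : 2 ^ 1 ≤ 2 ^ (R + 1 - I.card) := Nat.pow_le_pow_right (by norm_num) (by omega)
        omega
      -- position p
      have hpi : p ≤ i := by
        rcases Nat.eq_zero_or_pos p with h0 | h0
        · omega
        · obtain ⟨v, hv⟩ : ∃ v : Fin D, p = v.val + 1 := ⟨⟨p - 1, by omega⟩, by simp only; omega⟩
          have hvI : v ∈ I := by
            by_contra hvI
            refine (hav _ hpR v hvI).1 ⟨hv.symm, ?_⟩
            simp only
            rw [hv, xv_succ]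
          rw [hv, zv_succ, hγ x hx v hvI, hyz y hy v hvI] at hz1
          rcases hg v hvI with ⟨h1, _⟩ | ⟨_, h2⟩
          · omega
          · rw [h2] at hz1
            exact absurd hz1 (by decide)
      have hpj : j ≤ p + 1 := by
        rcases Nat.lt_or_ge p D with h0 | h0
        · obtain ⟨v, hv⟩ : ∃ v : Fin D, p = v.val := ⟨⟨p, h0⟩, rfl⟩
          have hvI : v ∈ I := by
            by_contra hvI
            refine (hav _ hpR v hvI).2 ⟨hv.symm, ?_⟩
            simp only
            rw [hv, xv_succ]
          rw [hv, zv_succ, hγ x hx v hvI, hyz y hy v hvI] at hz2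
          rcases hg v hvI with ⟨_, h1⟩ | ⟨h2, _⟩
          · rw [h1] at hz2
            exact absurd hz2 (by decide)
          · omega
        · omega
      omega
    · have : t1 = t0 := by omega
      subst this
      obtain ⟨x, hx⟩ := hP
      obtain ⟨y, hy⟩ := hYne
      exact (hall x hx y hy).1 (hall x hx y hy).2
  | succ k ih =>
    intro s hs t0 t1 h01 h1T hlen P I γ z i j Y hP hγ hd hc hY hyz hgap hjD hIR hg hall
    have hYne : Y.Nonempty := by
      rw [Finset.nonempty_iff_ne_empty]
      rintro rfl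
      simp at hY
    -- partition points
    let τ : ℕ → ℕ := fun a => min (t0 + a * q ^ k) t1
    have hτ0 : τ 0 = t0 := by simp only [τ]; rw [zero_mul, add_zero]; exact min_eq_left h01
    have hτq : τ q = t1 := by
      simp only [τ]
      apply min_eq_right
      rw [pow_succ, mul_comm] at hlen
      exact hlen
    have hτle : ∀ a, τ a ≤ τ (a + 1) := by
      intro a
      simp only [τ]
      apply min_le_min_right
      have : a * q ^ k ≤ (a + 1) * q ^ k := Nat.mul_le_mul_right _ (by omega)
      omega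
    have hτlen : ∀ a, τ (a + 1) ≤ τ a + q ^ k := by
      intro a
      simp only [τ]
      have e : (a + 1) * q ^ k = a * q ^ k + q ^ k := by ring
      rw [e]
      omega
    have hτT : ∀ a, τ a ≤ Tm := fun a => le_trans (min_le_right _ _) h1T
    let st' : ℕ → (Fin D × M → Bool) → σ × σ := fun a y => (st (τ a) y, st (τ (a + 1)) y)
    let E : ℕ → (Fin D → M) → σ × σ → Prop := fun a x b => ¬ sep (τ a) x b.1 ∧ sep (τ (a + 1)) x b.2
    have hex : ∀ x ∈ P, ∀ y ∈ Y, ∃ a < q, E a x (st' a y) := by
      intro x hx y hy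
      obtain ⟨h1, h2⟩ := hall x hx y hy
      by_contra hno
      push Not at hno
      have : ∀ a ≤ q, ¬ sep (τ a) x (st (τ a) y) := by
        intro a
        induction a with
        | zero => intro _; rw [hτ0]; exact h1
        | succ a iha =>
          intro ha h3
          exact hno a (by omega) ⟨iha (by omega), h3⟩
      have h4 := this q le_rfl
      rw [hτq] at h4
      exact h4 h2
    obtain ⟨a, haq, b, hPc, hYc⟩ := popular q P Y hP hYne st' E hex
    set P1 := P.filter (fun x => E a x b) with hP1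
    set Y1 := Y.filter (fun y => st' a y = b) with hY1
    have hP1sub : P1 ⊆ P := Finset.filter_subset _ _
    have hY1sub : Y1 ⊆ Y := Finset.filter_subset _ _
    have hPpos : 0 < P.card := hP.card_pos
    have hP1pos : 0 < P1.card := by
      by_contra h0
      have : P1.card = 0 := by omega
      rw [this] at hPc
      omega
    have hσσ : Fintype.card (σ × σ) ≤ 2 ^ (2 * S) := by
      rw [Fintype.card_prod]
      calc _ ≤ 2 ^ S * 2 ^ S := Nat.mul_le_mul hσ hσ
        _ = 2 ^ (2 * S) := by rw [← pow_add]; congr 1; ring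
    -- size of Y1
    have hY1c : 2 ^ (Fintype.card (Fin D × M)) ≤ Y1.card * 2 ^ (s * δ + 2 * S + lq) := by
      calc 2 ^ (Fintype.card (Fin D × M)) ≤ Y.card * 2 ^ (s * δ) := hY
        _ ≤ (2 * q * Fintype.card (σ × σ) * Y1.card) * 2 ^ (s * δ) := Nat.mul_le_mul_right _ hYc
        _ ≤ (2 ^ lq * 2 ^ (2 * S) * Y1.card) * 2 ^ (s * δ) := by gcongr
        _ = Y1.card * 2 ^ (s * δ + 2 * S + lq) := by rw [pow_add, pow_add]; ring
    have hsR : s + 1 ≤ R := by omega
    have hΔ1 : s * δ + 2 * S + lq + 1 + R * lc ≤ (s + 1) * δ := by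
      have : (s + 1) * δ = s * δ + δ := by ring
      omega
    have hΔR : (s + 1) * δ ≤ R * δ := Nat.mul_le_mul_right _ hsR
    -- good points
    let good : (Fin D → M) → Prop := fun x => ∀ J : Finset (Fin D), J.card ≤ R → Disjoint J I →
      ∀ c : Fin D → Bool, 2 ^ (Fintype.card (Fin D × M)) ≤
        (Y1.filter (fun y => ∀ v ∈ J, y (v, x v) = c v)).card * 2 ^ ((s + 1) * δ)
    have hbad : 2 * (P1.filter (fun x => ¬ good x)).card < P1.card := by
      by_contra hlt
      push Not at hlt
      set bad := P1.filter (fun x => ¬ good x) with hbad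
      have hbadpos : 0 < bad.card := by omega
      have hdb : Dense r1 bad I := by
        apply dense_sub r1 (4 * q) P bad I
        · rw [← hr]; exact hd
        · exact (Finset.filter_subset _ _).trans hP1sub
        · omega
        · calc P.card ≤ 2 * q * P1.card := hPc
            _ ≤ 2 * q * (2 * bad.card) := Nat.mul_le_mul_left _ hlt
            _ = 4 * q * bad.card := by ring
      obtain ⟨x, hx, hgx⟩ := exists_good (Q := Bool) r1 R (s * δ + 2 * S + lq) ((s + 1) * δ) bad
        (Finset.card_pos.mp hbadpos) I hIR hdb (by simp) hr1 (by simpa using hRD) (by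
          rw [Fintype.card_bool]
          refine le_trans ?_ hbig
          apply Nat.mul_le_mul_left
          apply Nat.mul_le_mul_right
          omega) Y1 (by rw [Fintype.card_bool]; exact hY1c) (by
          rw [Fintype.card_bool, Fintype.card_fin, hM]
          calc (D * (r * r) * 2 + 1) ^ R * 2 ^ (s * δ + 2 * S + lq + 1)
              ≤ (2 ^ lc) ^ R * 2 ^ (s * δ + 2 * S + lq + 1) := by gcongr
            _ = 2 ^ (s * δ + 2 * S + lq + 1 + R * lc) := by
                rw [← pow_mul, ← pow_add]; congr 1; ring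
            _ ≤ 2 ^ ((s + 1) * δ) := Nat.pow_le_pow_right (by norm_num) hΔ1)
      rw [hbad, Finset.mem_filter] at hx
      apply hx.2
      intro J hJ hJI c
      have := hgx J hJ hJI c
      rw [Fintype.card_bool] at this
      convert this
    set P2 := P1.filter (fun x => good x) with hP2
    have hP2c : P.card ≤ 4 * q * P2.card := by
      have h1 : P2.card + (P1.filter (fun x => ¬ good x)).card = P1.card :=
        Finset.card_filter_add_card_filter_not _
      have h2 : P1.card ≤ 2 * P2.card := by omega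
      calc P.card ≤ 2 * q * P1.card := hPc
        _ ≤ 2 * q * (2 * P2.card) := Nat.mul_le_mul_left _ h2
        _ = 4 * q * P2.card := by ring
    have hP2pos : 0 < P2.card := by
      by_contra h0
      have : P2.card = 0 := by omega
      rw [this] at hP2c
      omega
    have hP2sub : P2 ⊆ P1 := Finset.filter_subset _ _
    obtain ⟨K, γ', P3, hKI, hγ', hP3sub, hP3K, hrest, hd'⟩ := restore r hr0 P2 I γ
    have hP3pos : 0 < P3.card := by
      by_contra h0
      have : P3.card = 0 := by omega
      rw [this] at hrest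
      omega
    have hcardI : (I ∪ K).card = I.card + K.card := Finset.card_union_of_disjoint hKI.symm
    have hc' : (Fintype.card M) ^ D ≤ P3.card * (4 * q) ^ (s + 1) * r ^ (I ∪ K).card := by
      calc (Fintype.card M) ^ D ≤ P.card * (4 * q) ^ s * r ^ I.card := hc
        _ ≤ (4 * q * P2.card) * (4 * q) ^ s * r ^ I.card := by gcongr
        _ ≤ (4 * q * (P3.card * r ^ K.card)) * (4 * q) ^ s * r ^ I.card := by gcongr
        _ = P3.card * (4 * q) ^ (s + 1) * r ^ (I ∪ K).card := by
            rw [hcardI, pow_add, pow_succ]; ring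
    have hfixed : ∀ x ∈ P3, ∀ v ∈ I ∪ K, x v = γ' v := by
      intro x hx v hv
      rw [Finset.mem_union] at hv
      rcases hv with hv | hv
      · rw [hγ' v hv]
        exact hγ x (hP1sub (hP2sub (hP3sub hx))) v hv
      · exact hP3K x hx v hv
    have hI' : (I ∪ K).card ≤ s + 1 := by
      have hMpos : 0 < Fintype.card M := by rw [hM]; positivity
      have h1 : P3.card * (Fintype.card M) ^ (I ∪ K).card ≤ (Fintype.card M) ^ D := by
        have h2 := card_fixed_le (I ∪ K) γ' hMpos P3
        rw [Fintype.card_fin] at h2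
        refine le_trans (Nat.mul_le_mul_right _ (Finset.card_le_card ?_)) h2
        intro x hx
        simp only [Finset.mem_filter]
        exact ⟨hx, hfixed x hx⟩
      have h3 : P3.card * (r * r) ^ (I ∪ K).card ≤ P3.card * ((4 * q) ^ (s + 1) * r ^ (I ∪ K).card) := by
        rw [← hM]
        calc _ ≤ _ := h1
          _ ≤ _ := hc'
          _ = _ := by ring
      have h4 := Nat.le_of_mul_le_mul_left h3 hP3pos
      rw [mul_pow] at h4
      have h5 : r ^ (I ∪ K).card ≤ (4 * q) ^ (s + 1) :=
        Nat.le_of_mul_le_mul_right h4 (by positivity)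
      have h6 : (4 * q) ^ (s + 1) ≤ r ^ (s + 1) := by
        apply Nat.pow_le_pow_left
        rw [hr]
        exact Nat.le_mul_of_pos_right _ hr1
      have h7 : 1 < r := by
        rw [hr]
        have : 1 ≤ q * r1 := Nat.mul_pos hq hr1
        calc 1 < 4 * (q * r1) := by omega
          _ = 4 * q * r1 := by ring
      exact (Nat.pow_le_pow_iff_right h7).mp (le_trans h5 h6)
    -- the gap
    have hKn : (K.image (fun v : Fin D => v.val + 1)).card = K.card := by
      apply Finset.card_image_of_injective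
      intro v v' h
      exact Fin.ext (by simpa using h)
    obtain ⟨i', j', hii', hjj', hgap', hK'⟩ := gap_lemma (2 ^ (R + 1 - (I ∪ K).card))
      (K.image (fun v : Fin D => v.val + 1)) i j (by
        rw [hKn, ← pow_add]
        have : R + 1 - (I ∪ K).card + K.card = R + 1 - I.card := by omega
        rw [this]
        exact hgap)
    have hgpos : 0 < 2 ^ (R + 1 - (I ∪ K).card) := by positivity
    let z' : Fin D → Bool := fun v => decide (v.val + 1 ≤ i')
    have hzI : ∀ v ∈ I, z v = z' v := by
      intro v hv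
      simp only [z']
      rcases hg v hv with ⟨h1, h2⟩ | ⟨h1, h2⟩
      · rw [h2]
        symm
        rw [decide_eq_true_eq]
        omega
      · rw [h2]
        symm
        rw [decide_eq_false_iff_not]
        omega
    have hKR : K.card ≤ R := by omega
    set Y3 := Y1.filter (fun y => ∀ v ∈ K, y (v, γ' v) = z' v) with hY3
    have hY3sub : Y3 ⊆ Y1 := Finset.filter_subset _ _
    have hY3c : 2 ^ (Fintype.card (Fin D × M)) ≤ Y3.card * 2 ^ ((s + 1) * δ) := by
      obtain ⟨x, hx⟩ := Finset.card_pos.mp hP3pos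
      have hgx : good x := (Finset.mem_filter.mp (hP3sub hx)).2
      have h1 := hgx K hKR hKI z'
      have h2 : Y1.filter (fun y => ∀ v ∈ K, y (v, x v) = z' v) = Y3 := by
        rw [hY3]
        apply Finset.filter_congr
        intro y _
        constructor
        · intro h v hv
          rw [← hfixed x hx v (Finset.mem_union_right _ hv)]
          exact h v hv
        · intro h v hv
          rw [hfixed x hx v (Finset.mem_union_right _ hv)]
          exact h v hv
      rw [h2] at h1
      exact h1
    refine ih (s + 1) (by omega) (τ a) (τ (a + 1)) (hτle a) (hτT _) (hτlen a) P3 (I ∪ K) γ' z' i' j'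
      Y3 (Finset.card_pos.mp hP3pos) hfixed hd' hc' hY3c ?_ hgap' (le_trans hjj' hjD) (by omega) ?_ ?_
    · intro y hy v hv
      rw [Finset.mem_union] at hv
      rcases hv with hv | hv
      · rw [hγ' v hv, ← hzI v hv]
        exact hyz y (hY1sub (hY3sub hy)) v hv
      · exact (Finset.mem_filter.mp hy).2 v hv
    · intro v hv
      rw [Finset.mem_union] at hv
      by_cases hvi : v.val + 1 ≤ i'
      · left
        exact ⟨hvi, by simp only [z']; exact decide_eq_true hvi⟩
      · right
        refine ⟨?_, by simp only [z']; exact decide_eq_false hvi⟩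
        rcases hv with hv | hv
        · rcases hg v hv with ⟨h1, _⟩ | ⟨h1, _⟩
          · omega
          · omega
        · rcases hK' (v.val + 1) (Finset.mem_image.mpr ⟨v, hv, rfl⟩) with h | h
          · omega
          · exact h
    · intro x hx y hy
      have hxE : E a x b := (Finset.mem_filter.mp (hP2sub (hP3sub hx))).2
      have hyb : st' a y = b := (Finset.mem_filter.mp (hY3sub hy)).2
      rw [← hyb] at hxE
      exact hxE

end Rec

/-! ### Layer programs -/

section Prog

variable {n K : ℕ}

/-- One layer acting on `K` registers. -/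
abbrev Ins (n K : ℕ) := Fin K → Gate n K

/-- action of an instruction -/
def act (x : Fin n → Bool) (s : Fin K → Bool) (I : Ins n K) : Fin K → Bool :=
  fun k => (I k).val x s

/-- execution of a program -/
def exec (x : Fin n → Bool) (L : List (Ins n K)) (s : Fin K → Bool) : Fin K → Bool :=
  L.foldl (act x) s

lemma exec_append (x : Fin n → Bool) (L L' : List (Ins n K)) (s : Fin K → Bool) :
    exec x (L ++ L') s = exec x L' (exec x L s) := by
  unfold exec
  rw [List.foldl_append]

lemma exec_cons (x : Fin n → Bool) (I : Ins n K) (L : List (Ins n K)) (s : Fin K → Bool) :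
    exec x (I :: L) s = exec x L (act x s I) := rfl

lemma exec_nil (x : Fin n → Bool) (s : Fin K → Bool) :
    exec x ([] : List (Ins n K)) s = s := rfl

end Prog

/-! ### Paths and cuts -/

section KW

variable {n D m : ℕ}

/-- number of a vertex in position `p` -/
def vn (n m p : ℕ) : Option (Fin m) → ℕ
  | none => if p = 0 then 0 else Nat.sqrt n - 1
  | some a => 1 + (p - 1) * m + a.val

/-- the graph of a path -/
def inX (n : ℕ) (x : Fin D → Fin m) : Fin n → Bool := fun i =>
  decide (∃ p < D + 1, i.val = vn n m p (xv x p) * Nat.sqrt n + vn n m (p + 1) (xv x (p + 1)))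

/-- side of a vertex -/
def side (D : ℕ) {m : ℕ} (y : Fin D × Fin m → Bool) (u : ℕ) : Bool :=
  if h : 0 < u ∧ 0 < m ∧ (u - 1) / m < D then
    y (⟨(u - 1) / m, h.2.2⟩, ⟨(u - 1) % m, Nat.mod_lt _ h.2.1⟩)
  else decide (u = 0)

/-- the graph of a cut -/
def inY (n : ℕ) (y : Fin D × Fin m → Bool) : Fin n → Bool := fun i =>
  !(side D y (i.val / Nat.sqrt n) && !side D y (i.val % Nat.sqrt n))

lemma vn_lt (hN : D * m + 2 ≤ Nat.sqrt n) (x : Fin D → Fin m) (p : ℕ) :
    vn n m p (xv x p) < Nat.sqrt n := by
  unfold xv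
  split_ifs with h
  · unfold vn
    have h1 : (x ⟨p - 1, by omega⟩).val < m := (x ⟨p - 1, by omega⟩).isLt
    have h2 : (p - 1) * m + m ≤ D * m := by
      calc (p - 1) * m + m = (p - 1 + 1) * m := by ring
        _ ≤ D * m := Nat.mul_le_mul_right _ (by omega)
    simp only
    omega
  · simp only [vn]
    split_ifs <;> omega

lemma side_vn (hN : D * m + 2 ≤ Nat.sqrt n) (x : Fin D → Fin m) (y : Fin D × Fin m → Bool) (p : ℕ)
    (hp : p ≤ D + 1) : side D y (vn n m p (xv x p)) = zv x y p := by
  unfold xv zv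
  split_ifs with h
  · simp only [vn]
    set a := x ⟨p - 1, by omega⟩ with ha
    have ham := a.isLt
    have hm : 0 < m := by omega
    have e1 : 1 + (p - 1) * m + a.val - 1 = a.val + (p - 1) * m := by omega
    have e2 : (1 + (p - 1) * m + a.val - 1) / m = p - 1 := by
      rw [e1, Nat.add_mul_div_right _ _ hm, Nat.div_eq_of_lt ham, zero_add]
    have e3 : (1 + (p - 1) * m + a.val - 1) % m = a.val := by
      rw [e1, Nat.add_mul_mod_self_right, Nat.mod_eq_of_lt ham]
    unfold side
    rw [dif_pos ⟨by omega, hm, by rw [e2]; omega⟩]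
    congr 2
    · exact Fin.ext e2
    · exact Fin.ext e3
  · simp only [vn]
    by_cases hp0 : p = 0
    · subst hp0
      simp [side]
    · rw [if_neg hp0]
      have : ¬ (Nat.sqrt n - 1 = 0) := by omega
      unfold side
      rw [dif_neg]
      · simp [hp0, this]
      · rintro ⟨_, hm, h2⟩
        rw [Nat.div_lt_iff_lt_mul hm] at h2
        omega

lemma inX_true (hN : D * m + 2 ≤ Nat.sqrt n) (x : Fin D → Fin m) : stconn n (inX n x) = true := by
  classical
  unfold stconn
  refine decide_eq_true ?_
  have hNn : Nat.sqrt n * Nat.sqrt n ≤ n := Nat.sqrt_le n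
  have key : ∀ p ≤ D + 1, Relation.ReflTransGen (Arc n (inX n x)) 0 (vn n m p (xv x p)) := by
    intro p
    induction p with
    | zero =>
      intro _
      have : vn n m 0 (xv x 0) = 0 := by simp [xv, vn]
      rw [this]
    | succ p ih =>
      intro hp
      refine Relation.ReflTransGen.tail (ih (by omega)) ?_
      have h1 := vn_lt hN x p
      have h2 := vn_lt hN x (p + 1)
      refine ⟨h1, h2, ?_⟩
      have hlt : vn n m p (xv x p) * Nat.sqrt n + vn n m (p + 1) (xv x (p + 1)) < n := by
        calc vn n m p (xv x p) * Nat.sqrt n + vn n m (p + 1) (xv x (p + 1))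
            < vn n m p (xv x p) * Nat.sqrt n + Nat.sqrt n := by omega
          _ = (vn n m p (xv x p) + 1) * Nat.sqrt n := by ring
          _ ≤ Nat.sqrt n * Nat.sqrt n := Nat.mul_le_mul_right _ h1
          _ ≤ n := hNn
      refine ⟨hlt, ?_⟩
      unfold inX
      rw [decide_eq_true_eq]
      exact ⟨p, by omega, rfl⟩
  have h := key (D + 1) le_rfl
  have e : vn n m (D + 1) (xv x (D + 1)) = Nat.sqrt n - 1 := by
    unfold xv
    rw [dif_neg (by omega)]
    simp [vn]
  rwa [e] at h

lemma side_sink (hN : D * m + 2 ≤ Nat.sqrt n) (y : Fin D × Fin m → Bool) :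
    side D y (Nat.sqrt n - 1) = false := by
  unfold side
  rw [dif_neg]
  · simp
    omega
  · rintro ⟨_, hm, h2⟩
    rw [Nat.div_lt_iff_lt_mul hm] at h2
    omega

lemma inY_false (hN : D * m + 2 ≤ Nat.sqrt n) (y : Fin D × Fin m → Bool) :
    stconn n (inY n y) = false := by
  classical
  unfold stconn
  refine decide_eq_false ?_
  intro h
  have key : ∀ v, Relation.ReflTransGen (Arc n (inY n y)) 0 v → side D y v = true := by
    intro v hv
    induction hv with
    | refl => simp [side]
    | @tail u v _ huv ih =>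
      obtain ⟨hu, hv, hlt, hx⟩ := huv
      unfold inY at hx
      simp only at hx
      have hNpos : 0 < Nat.sqrt n := by omega
      have e1 : (u * Nat.sqrt n + v) / Nat.sqrt n = u := by
        rw [Nat.add_comm, Nat.add_mul_div_right _ _ hNpos, Nat.div_eq_of_lt hv, zero_add]
      have e2 : (u * Nat.sqrt n + v) % Nat.sqrt n = v := by
        rw [Nat.add_comm, Nat.add_mul_mod_self_right, Nat.mod_eq_of_lt hv]
      rw [e1, e2, ih] at hx
      simpa using hx
  have h1 := key _ h
  rw [side_sink hN y] at h1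
  exact absurd h1 (by decide)

/-- decoding of arcs -/
def dec2 (n m : ℕ) (hm : 0 < m) (u v : ℕ) : ℕ × Option (Fin m) × Option (Fin m) :=
  (if u = 0 then 0 else (u - 1) / m + 1,
    if u = 0 then none else some ⟨(u - 1) % m, Nat.mod_lt _ hm⟩,
    if v = Nat.sqrt n - 1 then none else some ⟨(v - 1) % m, Nat.mod_lt _ hm⟩)

/-- decoding of arcs -/
def dec (n m : ℕ) (hm : 0 < m) (i : ℕ) : ℕ × Option (Fin m) × Option (Fin m) :=
  dec2 n m hm (i / Nat.sqrt n) (i % Nat.sqrt n)

lemma violate (hN : D * m + 2 ≤ Nat.sqrt n) (hm : 0 < m) (x : Fin D → Fin m)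
    (y : Fin D × Fin m → Bool) (i : Fin n) (hx : inX n x i = true) (hy : inY n y i = false) :
    ∃ p ≤ D, (p, xv x p, xv x (p + 1)) = dec n m hm i.val ∧ zv x y p = true ∧
      zv x y (p + 1) = false := by
  unfold inX at hx
  rw [decide_eq_true_eq] at hx
  obtain ⟨p, hp, hi⟩ := hx
  have hNpos : 0 < Nat.sqrt n := by omega
  have hu := vn_lt hN x p
  have hv := vn_lt hN x (p + 1)
  have e1 : i.val / Nat.sqrt n = vn n m p (xv x p) := by
    rw [hi, Nat.add_comm, Nat.add_mul_div_right _ _ hNpos, Nat.div_eq_of_lt hv, zero_add]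
  have e2 : i.val % Nat.sqrt n = vn n m (p + 1) (xv x (p + 1)) := by
    rw [hi, Nat.add_comm, Nat.add_mul_mod_self_right, Nat.mod_eq_of_lt hv]
  refine ⟨p, by omega, ?_, ?_⟩
  · unfold dec
    rw [e1, e2]
    unfold dec2
    have hx1 : (if vn n m p (xv x p) = 0 then 0 else (vn n m p (xv x p) - 1) / m + 1) = p ∧
        (if vn n m p (xv x p) = 0 then none else
          some (⟨(vn n m p (xv x p) - 1) % m, Nat.mod_lt _ hm⟩ : Fin m)) = xv x p := by
      by_cases hp0 : p = 0
      · subst hp0
        simp [xv, vn]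
      · have hxv : xv x p = some (x ⟨p - 1, by omega⟩) := by
          unfold xv
          rw [dif_pos ⟨by omega, by omega⟩]
        rw [hxv]
        set a := x ⟨p - 1, by omega⟩ with ha
        have ham := a.isLt
        have hvn : vn n m p (some a) = 1 + (p - 1) * m + a.val := rfl
        have f1 : vn n m p (some a) - 1 = a.val + (p - 1) * m := by omega
        have f2 : ¬ (vn n m p (some a) = 0) := by omega
        rw [if_neg f2, if_neg f2]
        constructor
        · rw [f1, Nat.add_mul_div_right _ _ hm, Nat.div_eq_of_lt ham]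
          omega
        · congr 1
          apply Fin.ext
          simp only
          rw [f1, Nat.add_mul_mod_self_right, Nat.mod_eq_of_lt ham]
    have hx2 : (if vn n m (p + 1) (xv x (p + 1)) = Nat.sqrt n - 1 then none else
          some (⟨(vn n m (p + 1) (xv x (p + 1)) - 1) % m, Nat.mod_lt _ hm⟩ : Fin m))
          = xv x (p + 1) := by
      by_cases hpD : p = D
      · have hxv : xv x (p + 1) = none := by
          unfold xv
          rw [dif_neg (by omega)]
        rw [hxv]
        simp [vn]
      · have hxv : xv x (p + 1) = some (x ⟨p, by omega⟩) := by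
          unfold xv
          rw [dif_pos ⟨by omega, by omega⟩]
          rfl
        rw [hxv]
        set a := x ⟨p, by omega⟩ with ha
        have ham := a.isLt
        have h2 : p * m + m ≤ D * m := by
          calc p * m + m = (p + 1) * m := by ring
            _ ≤ D * m := Nat.mul_le_mul_right _ (by omega)
        have hvn : vn n m (p + 1) (some a) = 1 + p * m + a.val := rfl
        have f1 : vn n m (p + 1) (some a) - 1 = a.val + p * m := by omega
        have f2 : ¬ (vn n m (p + 1) (some a) = Nat.sqrt n - 1) := by omega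
        rw [if_neg f2]
        congr 1
        apply Fin.ext
        simp only
        rw [f1, Nat.add_mul_mod_self_right, Nat.mod_eq_of_lt ham]
    rw [hx1.1, hx1.2, hx2]
  · unfold inY at hy
    rw [e1, e2, side_vn hN x y p (by omega), side_vn hN x y (p + 1) (by omega)] at hy
    simp only [Bool.not_eq_false', Bool.and_eq_true, Bool.not_eq_true'] at hy
    exact hy

end KW

/-! ### Layered circuits -/

section Layer

variable {n : ℕ}

/-- variables read by a wire -/
def wireVars {k : ℕ} : Wire n k → Finset ℕ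
  | .const _ => ∅
  | .var i => {i.val}
  | .gate _ => ∅

lemma wireVars_card {k : ℕ} (w : Wire n k) : (wireVars w).card ≤ 1 := by
  cases w <;> simp [wireVars]

/-- variables read in layer `t + 1` -/
def readVars (C : MonLayered n) (t : ℕ) : Finset ℕ :=
  (univ : Finset (Fin (C.width (t + 1)))).biUnion
    (fun g => wireVars (C.gate t g).left ∪ wireVars (C.gate t g).right)

lemma readVars_card (C : MonLayered n) (t : ℕ) : (readVars C t).card ≤ 2 * C.width (t + 1) := by
  unfold readVars
  calc _ ≤ ∑ g : Fin (C.width (t + 1)), (wireVars (C.gate t g).left ∪ wireVars (C.gate t g).right).card :=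
        Finset.card_biUnion_le
    _ ≤ ∑ _g : Fin (C.width (t + 1)), 2 := by
        apply Finset.sum_le_sum
        intro g _
        have := Finset.card_union_le (wireVars (C.gate t g).left) (wireVars (C.gate t g).right)
        have h1 := wireVars_card (C.gate t g).left
        have h2 := wireVars_card (C.gate t g).right
        omega
    _ = 2 * C.width (t + 1) := by
        rw [Finset.sum_const, smul_eq_mul, Finset.card_univ, Fintype.card_fin, mul_comm]

lemma wire_sep {k : ℕ} (w : Wire n k) (x y : Fin n → Bool) (a b : Fin k → Bool)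
    (h1 : w.val x a = true) (h2 : w.val y b = false) :
    (∃ g, a g = true ∧ b g = false) ∨ (∃ i : Fin n, i.val ∈ wireVars w ∧ x i = true ∧ y i = false) := by
  cases w with
  | const c =>
    simp only [Wire.val] at h1 h2
    rw [h1] at h2
    exact absurd h2 (by decide)
  | var i =>
    right
    exact ⟨i, by simp [wireVars], h1, h2⟩
  | gate g =>
    left
    exact ⟨g, h1, h2⟩

lemma gate_sep {k : ℕ} (G : Gate n k) (x y : Fin n → Bool) (a b : Fin k → Bool)
    (h1 : G.val x a = true) (h2 : G.val y b = false) :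
    (∃ g, a g = true ∧ b g = false) ∨
      (∃ i : Fin n, i.val ∈ wireVars G.left ∪ wireVars G.right ∧ x i = true ∧ y i = false) := by
  have key : (G.left.val x a = true ∧ G.left.val y b = false) ∨
      (G.right.val x a = true ∧ G.right.val y b = false) := by
    unfold Gate.val at h1 h2
    by_cases hA : G.isAnd = true
    · rw [if_pos hA] at h1 h2
      rw [Bool.and_eq_true] at h1
      rw [Bool.and_eq_false_iff] at h2
      rcases h2 with h2 | h2
      · left; exact ⟨h1.1, h2⟩
      · right; exact ⟨h1.2, h2⟩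
    · rw [if_neg hA] at h1 h2
      rw [Bool.or_eq_true] at h1
      rw [Bool.or_eq_false_iff] at h2
      rcases h1 with h1 | h1
      · left; exact ⟨h1, h2.1⟩
      · right; exact ⟨h1, h2.2⟩
  rcases key with ⟨h3, h4⟩ | ⟨h3, h4⟩
  · rcases wire_sep _ x y a b h3 h4 with h | ⟨i, hi, h⟩
    · exact Or.inl h
    · exact Or.inr ⟨i, Finset.mem_union_left _ hi, h⟩
  · rcases wire_sep _ x y a b h3 h4 with h | ⟨i, hi, h⟩
    · exact Or.inl h
    · exact Or.inr ⟨i, Finset.mem_union_right _ hi, h⟩

/-- state of the gates of layer `t`, padded to `S` bits -/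
def stateOf (C : MonLayered n) (S t : ℕ) (y : Fin n → Bool) : Fin S → Bool :=
  fun k => if h : k.val < C.width t then C.val y t ⟨k.val, h⟩ else false

/-- a gate of layer `t` is true on `x` and false in the state `b` -/
def sepS (C : MonLayered n) (S t : ℕ) (x : Fin n → Bool) (b : Fin S → Bool) : Prop :=
  ∃ g : Fin (C.width t), C.val x t g = true ∧ ∃ h : g.val < S, b ⟨g.val, h⟩ = false

lemma sepS_iff (C : MonLayered n) (S t : ℕ) (hS : C.width t ≤ S) (x y : Fin n → Bool) :
    sepS C S t x (stateOf C S t y) ↔ ∃ g, C.val x t g = true ∧ C.val y t g = false := by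
  unfold sepS stateOf
  constructor
  · rintro ⟨g, h1, h2, h3⟩
    refine ⟨g, h1, ?_⟩
    simpa [g.isLt] using h3
  · rintro ⟨g, h1, h2⟩
    refine ⟨g, h1, lt_of_lt_of_le g.isLt hS, ?_⟩
    simpa [g.isLt] using h2

lemma step_sep (C : MonLayered n) (t : ℕ) (x y : Fin n → Bool)
    (h1 : ¬ ∃ g, C.val x t g = true ∧ C.val y t g = false)
    (h2 : ∃ g, C.val x (t + 1) g = true ∧ C.val y (t + 1) g = false) :
    ∃ i : Fin n, i.val ∈ readVars C t ∧ x i = true ∧ y i = false := by
  obtain ⟨g, hg1, hg2⟩ := h2
  rcases gate_sep (C.gate t g) x y (C.val x t) (C.val y t) hg1 hg2 with h | ⟨i, hi, h⟩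
  · exact absurd h h1
  · refine ⟨i, ?_, h⟩
    unfold readVars
    rw [Finset.mem_biUnion]
    exact ⟨g, Finset.mem_univ _, hi⟩

lemma width_le (C : MonLayered n) (t : ℕ) (ht : t ≤ C.layers) : C.width t ≤ C.maxWidth := by
  rcases Nat.eq_zero_or_pos t with h | h
  · rw [h, C.width_zero]; omega
  · obtain ⟨t', rfl⟩ : ∃ t', t = t' + 1 := ⟨t - 1, by omega⟩
    unfold MonLayered.maxWidth
    exact Finset.le_sup (f := fun j => C.width (j + 1)) (Finset.mem_range.mpr (by omega))

/-- the layers after an empty one are not more than the gates -/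
lemma empty_layer (C : MonLayered n) :
    ∃ t0 ≤ C.layers, C.width t0 = 0 ∧ C.layers ≤ t0 + C.size := by
  classical
  have hex : ∃ k, C.width (C.layers - k) = 0 := ⟨C.layers, by rw [Nat.sub_self]; exact C.width_zero⟩
  obtain ⟨hk, hmin⟩ := And.intro (Nat.find_spec hex) (fun m (hm : m < Nat.find hex) => Nat.find_min hex hm)
  set k := Nat.find hex with hkdef
  have hkl : k ≤ C.layers := Nat.find_min' hex (by rw [Nat.sub_self]; exact C.width_zero)
  refine ⟨C.layers - k, Nat.sub_le _ _, hk, ?_⟩
  have h1 : k ≤ C.size := by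
    unfold MonLayered.size
    calc k = ∑ _j ∈ Finset.Ico (C.layers - k) C.layers, 1 := by
          rw [Finset.sum_const, smul_eq_mul, Nat.card_Ico, mul_one]
          omega
      _ ≤ ∑ j ∈ Finset.Ico (C.layers - k) C.layers, C.width (j + 1) := by
          apply Finset.sum_le_sum
          intro j hj
          rw [Finset.mem_Ico] at hj
          have := hmin (C.layers - (j + 1)) (by omega)
          have e : C.layers - (C.layers - (j + 1)) = j + 1 := by omega
          rw [e] at this
          omega
      _ ≤ ∑ j ∈ range C.layers, C.width (j + 1) := by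
          apply Finset.sum_le_sum_of_subset
          intro j hj
          rw [Finset.mem_Ico] at hj
          exact Finset.mem_range.mpr hj.2
  omega

end Layer

/-- The lower bound with parameters. -/
theorem stconn_lower {n : ℕ} (C : MonLayered n) (hC : ∀ x, C.eval x = stconn n x)
    (D r r1 q S R δ lc lq : ℕ) (hS : C.maxWidth ≤ S)
    (hr : r = 4 * q * r1) (hr1 : 0 < r1) (hq : 0 < q) (hSr : 4 * S < r) (hRD : 2 * R ≤ D)
    (hRD2 : 2 ^ (R + 1) ≤ D + 1)
    (hN : D * (r * r) + 2 ≤ Nat.sqrt n)
    (hlc : D * (r * r) * 2 + 1 ≤ 2 ^ lc) (hlq : 2 * q ≤ 2 ^ lq)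
    (hδ : R * lc + 2 * S + lq + 1 ≤ δ)
    (hbig : 20 * R * ((R * δ + 2) * 2) ≤ r1) : q ^ R < C.size := by
  classical
  by_contra hle
  push Not at hle
  have hr0 : 0 < r := by rw [hr]; positivity
  have hm : 0 < r * r := Nat.mul_pos hr0 hr0
  obtain ⟨t0, ht0, hw0, hlay⟩ := empty_layer C
  have hwS : ∀ t ≤ C.layers, C.width t ≤ S := fun t ht => le_trans (width_le C t ht) hS
  have hstS : ∀ t ≤ C.layers, ∀ x y : Fin n → Bool, sepS C S t x (stateOf C S t y) ↔
      ∃ g, C.val x t g = true ∧ C.val y t g = false := fun t ht x y => sepS_iff C S t (hwS t ht) x y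
  refine recursion (M := Fin (r * r)) (σ := Fin S → Bool) r r1 q S R δ lc lq C.layers (by simp) hr hr1 hq
    hSr hRD (by simp) hlc hlq hδ hbig
    (fun t y => stateOf C S t (inY n y)) (fun t x b => sepS C S t (inX n x) b)
    (fun t => (readVars C t).image (dec n (r * r) hm)) ?_ ?_ R 0 rfl t0 C.layers ht0 le_rfl
    (by omega) univ ∅ (fun _ => ⟨0, hm⟩) (fun _ => true) 0 (D + 1) univ ?_ (by simp) ?_ ?_ (by simp)
    (by simp) (by simpa using hRD2) le_rfl (by simp) (by simp) ?_
  · intro t ht
    refine le_trans Finset.card_image_le (le_trans (readVars_card C t) ?_)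
    exact Nat.mul_le_mul_left _ (hwS (t + 1) ht)
  · intro t ht x y h1 h2
    rw [hstS t ht.le] at h1
    rw [hstS (t + 1) ht] at h2
    obtain ⟨i, hi, hx, hy⟩ := step_sep C t _ _ h1 h2
    obtain ⟨p, hp, hdec, hz⟩ := violate hN hm x y i hx hy
    refine ⟨p, hp, ?_, hz⟩
    rw [Finset.mem_image]
    exact ⟨i.val, hi, hdec.symm⟩
  · exact ⟨fun _ => ⟨0, hm⟩, Finset.mem_univ _⟩
  · intro K _ γ
    have h1 := card_prescribed K γ
    rw [Fintype.card_fin] at h1
    have h2 : r ^ K.card ≤ (r * r) ^ K.card := Nat.pow_le_pow_left (Nat.le_mul_of_pos_left r hr0) _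
    calc _ ≤ _ * (r * r) ^ K.card := Nat.mul_le_mul_left _ h2
      _ = (r * r) ^ Fintype.card (Fin D) := h1
      _ ≤ _ := by simp
  · simp
  · intro x _ y _
    constructor
    · rw [hstS t0 ht0]
      rintro ⟨g, _⟩
      have := g.isLt
      omega
    · rw [hstS C.layers le_rfl]
      refine ⟨C.out, ?_, ?_⟩
      · have := hC (inX n x)
        rw [inX_true hN x] at this
        exact this
      · have := hC (inY n y)
        rw [inY_false hN y] at this
        exact this

/-! ### From programs to circuits of small depth -/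

section Conv

variable {n K : ℕ}

/-- conversion of a wire of layer `j` -/
def convW (j g : ℕ) (hj : j * K ≤ g) : Wire n K → Wire n g
  | .const b => .const b
  | .var i => .var i
  | .gate k => if h : 0 < j then .gate ⟨(j - 1) * K + k.val, by
      have h1 := k.isLt
      have h2 : (j - 1) * K + K = j * K := by
        calc (j - 1) * K + K = (j - 1 + 1) * K := by ring
          _ = j * K := by rw [Nat.sub_add_cancel h]
      omega⟩ else .const false

/-- the circuit of a program -/
def toCircuit (L : List (Ins n K)) (I0 : Ins n K) (hK : 0 < K) (o : Fin (L.length * K)) :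
    MonCircuit n where
  size := L.length * K
  gate := fun g =>
    let G := L.getD (g.val / K) I0 ⟨g.val % K, Nat.mod_lt _ hK⟩
    ⟨G.isAnd, convW (g.val / K) g.val (Nat.div_mul_le_self _ _) G.left,
      convW (g.val / K) g.val (Nat.div_mul_le_self _ _) G.right⟩
  out := o

lemma convW_val (x : Fin n → Bool) (j g : ℕ) (hj : j * K ≤ g) (w : Wire n K) (V : Fin g → Bool)
    (s : Fin K → Bool) (h0 : j = 0 → ∀ k, s k = false)
    (h1 : ∀ (_ : 0 < j) (k : Fin K) (hk : (j - 1) * K + k.val < g), V ⟨(j - 1) * K + k.val, hk⟩ = s k) :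
    (convW j g hj w).val x V = w.val x s := by
  cases w with
  | const b => rfl
  | var i => rfl
  | gate k =>
    unfold convW
    split_ifs with h
    · exact h1 h k _
    · simp only [Wire.val]
      rw [h0 (by omega)]

lemma toCircuit_val (L : List (Ins n K)) (I0 : Ins n K) (hK : 0 < K) (o : Fin (L.length * K))
    (x : Fin n → Bool) (j : ℕ) : ∀ (hj : j < L.length) (k : Fin K)
    (hg : j * K + k.val < (toCircuit L I0 hK o).size),
    (toCircuit L I0 hK o).gateVal x (j * K + k.val) hg = exec x (L.take (j + 1)) (fun _ => false) k := by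
  induction j with
  | zero =>
    intro hj k hg
    have e1 : (0 * K + k.val) / K = 0 := by
      rw [Nat.zero_mul, Nat.zero_add]; exact Nat.div_eq_of_lt k.isLt
    have e2 : (⟨(0 * K + k.val) % K, Nat.mod_lt _ hK⟩ : Fin K) = k := by
      apply Fin.ext
      simp only
      rw [Nat.zero_mul, Nat.zero_add]; exact Nat.mod_eq_of_lt k.isLt
    have h1 : L.take 1 = [L.getD 0 I0] := by
      cases L with
      | nil => simp at hj
      | cons I L => rfl
    rw [h1, exec_cons, exec_nil, MonCircuit.gateVal]
    change Gate.val x _ ⟨_, _, _⟩ = (L.getD 0 I0 k).val x (fun _ => false)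
    unfold Gate.val
    simp only
    rw [convW_val x _ _ _ _ _ (fun _ => false) (fun _ _ => rfl) (fun h => by rw [e1] at h; omega),
      convW_val x _ _ _ _ _ (fun _ => false) (fun _ _ => rfl) (fun h => by rw [e1] at h; omega)]
    rw [e1, e2]
  | succ j ih =>
    intro hj k hg
    have e1 : ((j + 1) * K + k.val) / K = j + 1 := by
      rw [Nat.add_comm, Nat.add_mul_div_right _ _ hK, Nat.div_eq_of_lt k.isLt, zero_add]
    have e2 : (⟨((j + 1) * K + k.val) % K, Nat.mod_lt _ hK⟩ : Fin K) = k := by
      apply Fin.ext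
      simp only
      rw [Nat.add_comm, Nat.add_mul_mod_self_right]; exact Nat.mod_eq_of_lt k.isLt
    have h1 : L.take (j + 1 + 1) = L.take (j + 1) ++ [L.getD (j + 1) I0] := by
      rw [List.take_succ_eq_append_getElem hj, List.getD_eq_getElem _ _ hj]
    rw [h1, exec_append, exec_cons, exec_nil, MonCircuit.gateVal]
    change Gate.val x _ ⟨_, _, _⟩
      = (L.getD (j + 1) I0 k).val x (exec x (L.take (j + 1)) (fun _ => false))
    have hprev : ∀ (_ : 0 < ((j + 1) * K + k.val) / K) (k' : Fin K)
        (hk : (((j + 1) * K + k.val) / K - 1) * K + k'.val < (j + 1) * K + k.val),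
        (fun g' : Fin ((j + 1) * K + k.val) => (toCircuit L I0 hK o).gateVal x g'.val
          (lt_trans g'.isLt hg)) ⟨(((j + 1) * K + k.val) / K - 1) * K + k'.val, hk⟩
        = exec x (L.take (j + 1)) (fun _ => false) k' := by
      intro _ k' hk
      simp only
      have e3 : (((j + 1) * K + k.val) / K - 1) * K + k'.val = j * K + k'.val := by
        rw [e1]; rfl
      have h2 : j * K + k'.val < (toCircuit L I0 hK o).size := by
        rw [← e3]; exact lt_trans hk hg
      have h3 := ih (by omega) k' h2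
      rw [← h3]
      congr 1
    unfold Gate.val
    simp only
    rw [convW_val x _ _ _ _ _ (exec x (L.take (j + 1)) (fun _ => false))
        (fun h => by rw [e1] at h; omega) hprev,
      convW_val x _ _ _ _ _ (exec x (L.take (j + 1)) (fun _ => false))
        (fun h => by rw [e1] at h; omega) hprev]
    rw [e1, e2]

lemma convW_depth (j g : ℕ) (hj : j * K ≤ g) (w : Wire n K) (d : Fin g → ℕ)
    (h1 : ∀ (_ : 0 < j) (k : Fin K) (hk : (j - 1) * K + k.val < g), d ⟨(j - 1) * K + k.val, hk⟩ ≤ j) :
    (convW j g hj w).depth d ≤ j := by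
  cases w with
  | const b => exact Nat.zero_le _
  | var i => exact Nat.zero_le _
  | gate k =>
    unfold convW
    split_ifs with h
    · exact h1 h k _
    · exact Nat.zero_le _

lemma toCircuit_depth (L : List (Ins n K)) (I0 : Ins n K) (hK : 0 < K) (o : Fin (L.length * K))
    (j : ℕ) : ∀ (k : Fin K) (hg : j * K + k.val < (toCircuit L I0 hK o).size),
    (toCircuit L I0 hK o).gateDepth (j * K + k.val) hg ≤ j + 1 := by
  induction j with
  | zero =>
    intro k hg
    have e1 : (0 * K + k.val) / K = 0 := by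
      rw [Nat.zero_mul, Nat.zero_add]; exact Nat.div_eq_of_lt k.isLt
    rw [MonCircuit.gateDepth]
    apply Nat.succ_le_succ
    apply max_le
    · refine le_trans (convW_depth _ _ (Nat.div_mul_le_self _ _) _ _
        (fun h => by rw [e1] at h; omega)) (le_of_eq e1)
    · refine le_trans (convW_depth _ _ (Nat.div_mul_le_self _ _) _ _
        (fun h => by rw [e1] at h; omega)) (le_of_eq e1)
  | succ j ih =>
    intro k hg
    have e1 : ((j + 1) * K + k.val) / K = j + 1 := by
      rw [Nat.add_comm, Nat.add_mul_div_right _ _ hK, Nat.div_eq_of_lt k.isLt, zero_add]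
    have hprev : ∀ (_ : 0 < ((j + 1) * K + k.val) / K) (k' : Fin K)
        (hk : (((j + 1) * K + k.val) / K - 1) * K + k'.val < (j + 1) * K + k.val),
        (fun g' : Fin ((j + 1) * K + k.val) => (toCircuit L I0 hK o).gateDepth g'.val
          (lt_trans g'.isLt hg)) ⟨(((j + 1) * K + k.val) / K - 1) * K + k'.val, hk⟩
        ≤ ((j + 1) * K + k.val) / K := by
      intro _ k' hk
      simp only
      have e3 : (((j + 1) * K + k.val) / K - 1) * K + k'.val = j * K + k'.val := by
        rw [e1]; rfl
      have h2 : j * K + k'.val < (toCircuit L I0 hK o).size := by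
        rw [← e3]; exact lt_trans hk hg
      have h3 := ih k' h2
      calc _ = (toCircuit L I0 hK o).gateDepth (j * K + k'.val) h2 := by congr 1
        _ ≤ j + 1 := h3
        _ = _ := e1.symm
    rw [MonCircuit.gateDepth]
    apply Nat.succ_le_succ
    apply max_le
    · exact le_trans (convW_depth _ _ (Nat.div_mul_le_self _ _) _ _ hprev) (le_of_eq e1)
    · exact le_trans (convW_depth _ _ (Nat.div_mul_le_self _ _) _ _ hprev) (le_of_eq e1)

/-- Programs give circuits of small depth. -/
theorem circuit_of_program (L : List (Ins n K)) (hL : L ≠ []) (o : Fin K) :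
    ∃ C : MonCircuit n, (∀ x, C.eval x = exec x L (fun _ => false) o) ∧
      C.size = L.length * K ∧ C.depth ≤ L.length := by
  have hK : 0 < K := o.pos
  have hlen : 0 < L.length := List.length_pos_iff.mpr hL
  obtain ⟨ℓ, hℓ⟩ : ∃ ℓ, L.length = ℓ + 1 := ⟨L.length - 1, by omega⟩
  have hlt : ℓ * K + o.val < L.length * K := by
    rw [hℓ]
    have := o.isLt
    calc ℓ * K + o.val < ℓ * K + K := by omega
      _ = (ℓ + 1) * K := by ring
  refine ⟨toCircuit L (fun _ => ⟨false, .const false, .const false⟩) hK ⟨ℓ * K + o.val, hlt⟩, ?_, rfl, ?_⟩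
  · intro x
    unfold MonCircuit.eval
    have h := toCircuit_val L (fun _ => ⟨false, .const false, .const false⟩) hK
      ⟨ℓ * K + o.val, hlt⟩ x ℓ (by omega) o hlt
    rw [← hℓ, List.take_length] at h
    exact h
  · unfold MonCircuit.depth
    have h := toCircuit_depth L (fun _ => ⟨false, .const false, .const false⟩) hK
      ⟨ℓ * K + o.val, hlt⟩ ℓ o hlt
    exact le_trans h (le_of_eq hℓ.symm)

end Conv

/-! ### Repeated squaring -/

section Squaring

variable {n N : ℕ}

/-- registers -/
def R3 (N : ℕ) (u w v : Fin N) : Fin (N * N * N) := finProdFinEquiv (finProdFinEquiv (u, w), v)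

/-- instruction given by gates indexed by triples -/
def instr (G : Fin N → Fin N → Fin N → Gate n (N * N * N)) : Ins n (N * N * N) := fun k =>
  G (finProdFinEquiv.symm (finProdFinEquiv.symm k).1).1 (finProdFinEquiv.symm (finProdFinEquiv.symm k).1).2
    (finProdFinEquiv.symm k).2

lemma act_instr (G : Fin N → Fin N → Fin N → Gate n (N * N * N)) (x : Fin n → Bool)
    (s : Fin (N * N * N) → Bool) (u w v : Fin N) :
    act x s (instr G) (R3 N u w v) = (G u w v).val x s := by
  unfold act instr R3
  simp

/-- wire of an arc -/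
def arcWire (n N : ℕ) (K : ℕ) (u v : Fin N) : Wire n K :=
  if u = v then .const true else
    if h : u.val < Nat.sqrt n ∧ v.val < Nat.sqrt n ∧ u.val * Nat.sqrt n + v.val < n then
      .var ⟨u.val * Nat.sqrt n + v.val, h.2.2⟩ else .const false

lemma arcWire_val (K : ℕ) (u v : Fin N) (x : Fin n → Bool) (s : Fin K → Bool) :
    (arcWire n N K u v).val x s = true ↔ (u = v ∨ Arc n x u v) := by
  unfold arcWire
  split_ifs with h1 h2
  · simp [Wire.val, h1]
  · simp only [Wire.val, h1, false_or]
    constructor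
    · intro h
      exact ⟨h2.1, h2.2.1, h2.2.2, h⟩
    · rintro ⟨_, _, _, h⟩
      exact h
  · simp only [Wire.val, h1, false_or]
    constructor
    · intro h; exact absurd h (by decide)
    · rintro ⟨h3, h4, h5, _⟩
      exact absurd ⟨h3, h4, h5⟩ h2

/-- first instruction -/
def initI (n N : ℕ) : Ins n (N * N * N) :=
  instr (fun u _ v => ⟨false, arcWire n N _ u v, arcWire n N _ u v⟩)

/-- conjunctions -/
def sqI (n N : ℕ) (hN : 0 < N) : Ins n (N * N * N) :=
  instr (fun u w v => ⟨true, .gate (R3 N u ⟨0, hN⟩ w), .gate (R3 N w ⟨0, hN⟩ v)⟩)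

/-- disjunctions -/
def orI (n N : ℕ) (j : ℕ) : Ins n (N * N * N) :=
  instr (fun u w v => ⟨false, .gate (R3 N u w v),
    if h : w.val + 2 ^ j < N then .gate (R3 N u ⟨w.val + 2 ^ j, h⟩ v) else .const false⟩)

lemma orI_spec (x : Fin n → Bool) (s : Fin (N * N * N) → Bool) (B : Fin N → Fin N → Fin N → Prop)
    (l : ℕ) (hs : ∀ u w v, s (R3 N u w v) = true ↔ B u w v) (u w v : Fin N) :
    exec x ((List.range l).map (orI n N)) s (R3 N u w v) = true ↔
      ∃ w' : Fin N, w.val ≤ w'.val ∧ w'.val < w.val + 2 ^ l ∧ B u w' v := by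
  induction l generalizing u w v with
  | zero =>
    simp only [List.range_zero, List.map_nil, exec_nil, pow_zero]
    rw [hs]
    constructor
    · intro h
      exact ⟨w, le_rfl, by omega, h⟩
    · rintro ⟨w', h1, h2, h3⟩
      have : w' = w := Fin.ext (by omega)
      rwa [this] at h3
  | succ l ih =>
    rw [List.range_succ, List.map_append, exec_append, List.map_singleton, exec_cons, exec_nil]
    unfold orI
    rw [act_instr]
    unfold Gate.val
    simp only [Bool.false_eq_true, if_false]
    rw [Bool.or_eq_true]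
    change (exec x ((List.range l).map (orI n N)) s (R3 N u w v) = true ∨ _) ↔ _
    rw [ih u w v]
    have hpow : 2 ^ (l + 1) = 2 ^ l + 2 ^ l := by rw [pow_succ]; ring
    rw [hpow]
    split_ifs with h
    · change (_ ∨ exec x ((List.range l).map (orI n N)) s (R3 N u ⟨w.val + 2 ^ l, h⟩ v) = true) ↔ _
      rw [ih u ⟨w.val + 2 ^ l, h⟩ v]
      constructor
      · rintro (⟨w', h1, h2, h3⟩ | ⟨w', h1, h2, h3⟩)
        · exact ⟨w', h1, by omega, h3⟩
        · simp only at h1 h2
          exact ⟨w', by omega, by omega, h3⟩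
      · rintro ⟨w', h1, h2, h3⟩
        by_cases hlt : w'.val < w.val + 2 ^ l
        · exact Or.inl ⟨w', h1, hlt, h3⟩
        · right
          refine ⟨w', ?_, ?_, h3⟩
          · simp only; omega
          · simp only; omega
    · simp only [Wire.val, Bool.false_eq_true, or_false]
      constructor
      · rintro ⟨w', h1, h2, h3⟩
        exact ⟨w', h1, by omega, h3⟩
      · rintro ⟨w', h1, h2, h3⟩
        have := w'.isLt
        exact ⟨w', h1, by omega, h3⟩

/-- one squaring -/
def sqP (n N : ℕ) (hN : 0 < N) (l : ℕ) : List (Ins n (N * N * N)) :=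
  [sqI n N hN] ++ (List.range l).map (orI n N)

lemma sqP_spec (hN : 0 < N) (l : ℕ) (hl : N ≤ 2 ^ l) (x : Fin n → Bool)
    (s : Fin (N * N * N) → Bool) (A : Fin N → Fin N → Prop)
    (hs : ∀ u v, s (R3 N u ⟨0, hN⟩ v) = true ↔ A u v) (u v : Fin N) :
    exec x (sqP n N hN l) s (R3 N u ⟨0, hN⟩ v) = true ↔ ∃ w, A u w ∧ A w v := by
  unfold sqP
  rw [exec_append, exec_cons, exec_nil]
  rw [orI_spec x _ (fun u w v => A u w ∧ A w v) l]
  · constructor
    · rintro ⟨w', _, _, h⟩
      exact ⟨w', h⟩
    · rintro ⟨w', h⟩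
      have := w'.isLt
      exact ⟨w', by simp, by simp only; omega, h⟩
  · intro u w v
    unfold sqI
    rw [act_instr]
    unfold Gate.val
    simp only [if_true]
    rw [Bool.and_eq_true]
    change s (R3 N u ⟨0, hN⟩ w) = true ∧ s (R3 N w ⟨0, hN⟩ v) = true ↔ _
    rw [hs, hs]

/-- the program -/
def reachP (n N : ℕ) (hN : 0 < N) (l : ℕ) : ℕ → List (Ins n (N * N * N))
  | 0 => [initI n N]
  | k + 1 => reachP n N hN l k ++ sqP n N hN l

lemma reachP_length (hN : 0 < N) (l k : ℕ) : (reachP n N hN l k).length = 1 + k * (1 + l) := by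
  induction k with
  | zero => simp [reachP]
  | succ k ih =>
    unfold reachP sqP
    rw [List.length_append, ih]
    simp
    ring

/-- paths with at most `k` arcs -/
def Bd (n : ℕ) (x : Fin n → Bool) (N : ℕ) : ℕ → Fin N → Fin N → Prop
  | 0 => fun u v => u = v
  | k + 1 => fun u v => Bd n x N k u v ∨ ∃ w, Bd n x N k u w ∧ Arc n x w v

lemma Bd_mono (x : Fin n → Bool) {k l : ℕ} (h : k ≤ l) (u v : Fin N) (hb : Bd n x N k u v) :
    Bd n x N l u v := by
  induction h with
  | refl => exact hb
  | step _ ih => exact Or.inl ih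

lemma Bd_split (x : Fin n → Bool) (k l : ℕ) (u v : Fin N) (hb : Bd n x N (k + l) u v) :
    ∃ w, Bd n x N k u w ∧ Bd n x N l w v := by
  induction l generalizing v with
  | zero => exact ⟨v, hb, rfl⟩
  | succ l ih =>
    rcases hb with hb | ⟨w, hb, ha⟩
    · obtain ⟨w, h1, h2⟩ := ih v hb
      exact ⟨w, h1, Or.inl h2⟩
    · obtain ⟨w', h1, h2⟩ := ih w hb
      exact ⟨w', h1, Or.inr ⟨w, h2, ha⟩⟩

lemma Bd_sound (x : Fin n → Bool) (k : ℕ) (u v : Fin N) (hb : Bd n x N k u v) :
    Relation.ReflTransGen (Arc n x) u v := by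
  induction k generalizing v with
  | zero =>
    have : u = v := hb
    rw [this]
  | succ k ih =>
    rcases hb with hb | ⟨w, hb, ha⟩
    · exact ih v hb
    · exact (ih w hb).tail ha

/-- reachability needs at most `N` arcs -/
lemma Bd_complete (x : Fin n → Bool) (hN : Nat.sqrt n ≤ N) (u v : Fin N)
    (h : Relation.ReflTransGen (Arc n x) u v) : Bd n x N N u v := by
  classical
  -- the sets of vertices reached
  let S : ℕ → Finset (Fin N) := fun k => univ.filter (fun v => Bd n x N k u v)
  have hmono : ∀ k, S k ⊆ S (k + 1) := by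
    intro k v hv
    simp only [S, mem_filter, mem_univ, true_and] at hv ⊢
    exact Or.inl hv
  have hstab : ∃ k ≤ N, S k = S (k + 1) := by
    by_contra hno
    push Not at hno
    have : ∀ k ≤ N + 1, k ≤ (S k).card := by
      intro k
      induction k with
      | zero => intro _; exact Nat.zero_le _
      | succ k ih =>
        intro hk
        have h1 := ih (by omega)
        have h2 : S k ⊂ S (k + 1) :=
          lt_of_le_of_ne (hmono k) (hno k (by omega))
        have h3 := Finset.card_lt_card h2
        omega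
    have h1 := this (N + 1) le_rfl
    have h2 : (S (N + 1)).card ≤ N := by
      have := Finset.card_le_univ (S (N + 1))
      rwa [Fintype.card_fin] at this
    omega
  obtain ⟨k, hk, hSk⟩ := hstab
  have hstab2 : ∀ l, ∀ v, Bd n x N (k + l) u v → Bd n x N k u v := by
    intro l
    induction l with
    | zero => intro v hv; exact hv
    | succ l ih =>
      intro v hv
      have h1 : Bd n x N (k + 1) u v := by
        rcases hv with hv | ⟨w, hw, ha⟩
        · exact Or.inl (ih v hv)
        · exact Or.inr ⟨w, ih w hw, ha⟩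
      have h2 : v ∈ S (k + 1) := by
        simp only [S, mem_filter, mem_univ, true_and]
        exact h1
      rw [← hSk] at h2
      simpa only [S, mem_filter, mem_univ, true_and] using h2
  have hall : ∀ b : ℕ, Relation.ReflTransGen (Arc n x) u b → ∀ hb : b < N,
      ∃ l, Bd n x N l u ⟨b, hb⟩ := by
    intro b hb
    induction hb with
    | refl => intro hb; exact ⟨0, rfl⟩
    | @tail b c _ hbc ih =>
      intro hc
      have hbN : b < N := lt_of_lt_of_le hbc.1 hN
      obtain ⟨l, hl⟩ := ih hbN
      exact ⟨l + 1, Or.inr ⟨⟨b, hbN⟩, hl, hbc⟩⟩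
  obtain ⟨l, hl⟩ := hall v h v.isLt
  have h1 : Bd n x N (k + l) u v := Bd_mono x (by omega) u v hl
  exact Bd_mono x hk u v (hstab2 l v h1)

lemma reachP_spec (hN : 0 < N) (l : ℕ) (hl : N ≤ 2 ^ l) (x : Fin n → Bool) (k : ℕ) :
    (∀ u v, Bd n x N (2 ^ k) u v →
      exec x (reachP n N hN l k) (fun _ => false) (R3 N u ⟨0, hN⟩ v) = true) ∧
    (∀ u v, exec x (reachP n N hN l k) (fun _ => false) (R3 N u ⟨0, hN⟩ v) = true →
      Relation.ReflTransGen (Arc n x) u v) := by
  induction k with
  | zero =>
    have h : ∀ u v, exec x (reachP n N hN l 0) (fun _ => false) (R3 N u ⟨0, hN⟩ v) = true ↔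
        (u = v ∨ Arc n x u v) := by
      intro u v
      unfold reachP initI
      rw [exec_cons, exec_nil, act_instr]
      unfold Gate.val
      simp only [Bool.false_eq_true, if_false, Bool.or_self]
      exact arcWire_val _ u v x _
    constructor
    · intro u v hb
      rw [h]
      rw [pow_zero] at hb
      rcases hb with hb | ⟨w, hw, ha⟩
      · exact Or.inl hb
      · have : u = w := hw
        subst this
        exact Or.inr ha
    · intro u v hb
      rw [h] at hb
      rcases hb with hb | hb
      · rw [hb]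
      · exact Relation.ReflTransGen.single hb
  | succ k ih =>
    have h := fun u v => sqP_spec (n := n) hN l hl x (exec x (reachP n N hN l k) (fun _ => false))
      (fun u v => exec x (reachP n N hN l k) (fun _ => false) (R3 N u ⟨0, hN⟩ v) = true)
      (fun u v => Iff.rfl) u v
    constructor
    · intro u v hb
      unfold reachP
      rw [exec_append, h]
      have hp : 2 ^ (k + 1) = 2 ^ k + 2 ^ k := by rw [pow_succ]; ring
      rw [hp] at hb
      obtain ⟨w, h1, h2⟩ := Bd_split x _ _ u v hb
      exact ⟨w, ih.1 u w h1, ih.1 w v h2⟩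
    · intro u v hb
      unfold reachP at hb
      rw [exec_append, h] at hb
      obtain ⟨w, h1, h2⟩ := hb
      exact (ih.2 u w h1).trans (ih.2 w v h2)

end Squaring

/-- Circuits for st-connectivity. -/
theorem stconn_circuit (n : ℕ) : ∃ C : MonCircuit n, (∀ x, C.eval x = stconn n x) ∧
    C.size ≤ (1 + (Nat.log 2 n + 1) * (Nat.log 2 n + 2)) * ((n + 1) * (n + 1) * (n + 1)) ∧
    C.depth ≤ 1 + (Nat.log 2 n + 1) * (Nat.log 2 n + 2) := by
  classical
  set N := Nat.sqrt n + 1 with hNdef
  have hN : 0 < N := Nat.succ_pos _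
  set l := Nat.log 2 n + 1 with hl
  have hNn : N ≤ n + 1 := by
    have := Nat.sqrt_le_self n
    omega
  have hNl : N ≤ 2 ^ l := by
    have h1 : n < 2 ^ l := Nat.lt_pow_succ_log_self (by norm_num) n
    omega
  have hs : Nat.sqrt n - 1 < N := by omega
  obtain ⟨C, hC1, hC2, hC3⟩ := circuit_of_program (n := n) (reachP n N hN l l)
    (by
      intro h
      have := reachP_length (n := n) hN l l
      rw [h] at this
      simp at this)
    (R3 N ⟨0, hN⟩ ⟨0, hN⟩ ⟨Nat.sqrt n - 1, hs⟩)
  rw [reachP_length] at hC2 hC3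
  refine ⟨C, ?_, ?_, ?_⟩
  · intro x
    rw [hC1 x, Bool.eq_iff_iff]
    have hspec := reachP_spec (n := n) hN l hNl x l
    constructor
    · intro h
      exact decide_eq_true (hspec.2 _ _ h)
    · intro h
      have h1 : Relation.ReflTransGen (Arc n x) 0 (Nat.sqrt n - 1) := of_decide_eq_true h
      have h2 := Bd_complete (N := N) x (by omega) ⟨0, hN⟩ ⟨Nat.sqrt n - 1, hs⟩ h1
      exact hspec.1 _ _ (Bd_mono x hNl _ _ h2)
  · rw [hC2]
    have e : 1 + l = Nat.log 2 n + 2 := by omega
    rw [e]
    gcongr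
  · have e : 1 + l = Nat.log 2 n + 2 := by omega
    rw [e] at hC3
    exact hC3

/-! ### Asymptotics -/

lemma add_two_pow_le (t e : ℕ) : (t + 2) ^ e ≤ 3 ^ e * t ^ e + 3 ^ e := by
  rcases Nat.eq_zero_or_pos t with ht | ht
  · subst ht
    calc (0 + 2) ^ e ≤ 3 ^ e := Nat.pow_le_pow_left (by norm_num) e
      _ ≤ _ := Nat.le_add_left _ _
  · calc (t + 2) ^ e ≤ (3 * t) ^ e := Nat.pow_le_pow_left (by omega) e
      _ = 3 ^ e * t ^ e := mul_pow _ _ _
      _ ≤ _ := Nat.le_add_right _ _

lemma exists_pow_lt_two_pow (a k L : ℕ) : ∃ l, L ≤ l ∧ a * l ^ k < 2 ^ l := by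
  have h := tendsto_pow_const_div_const_pow_of_one_lt k (r := (2 : ℝ)) (by norm_num)
  have h2 : ∀ᶠ n : ℕ in Filter.atTop, (n : ℝ) ^ k / 2 ^ n < 1 / ((a : ℝ) + 1) :=
    h.eventually_lt_const (by positivity)
  obtain ⟨l, hl1, hl2⟩ := (h2.and (Filter.eventually_ge_atTop L)).exists
  refine ⟨l, hl2, ?_⟩
  have h3 : (0 : ℝ) < 2 ^ l := by positivity
  have h4 : (0 : ℝ) < (a : ℝ) + 1 := by positivity
  rw [div_lt_div_iff₀ h3 h4, one_mul] at hl1
  have h5 : (a : ℝ) * (l : ℝ) ^ k < 2 ^ l := by
    have : (0 : ℝ) ≤ (l : ℝ) ^ k := by positivity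
    nlinarith
  exact_mod_cast h5

lemma sq_le_two_pow (e : ℕ) (he : 4 ≤ e) : e * e ≤ 2 ^ e := by
  induction e, he using Nat.le_induction with
  | base => norm_num
  | succ e he ih =>
    rw [pow_succ]
    nlinarith

/-- The lower bound for width up to `2 ^ (2 * (log n / 40))`. -/
theorem stconn_width {n : ℕ} (C : MonLayered n) (hC : ∀ x, C.eval x = stconn n x)
    (e : ℕ) (he : e = Nat.log 2 n / 40) (he9 : 10 ≤ e) (hw : C.maxWidth ≤ 2 ^ (2 * e)) :
    2 ^ (e * e) < C.size := by
  have hsq := sq_le_two_pow e (by omega)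
  have hpow10 : 2 ^ 10 ≤ 2 ^ e := Nat.pow_le_pow_right (by norm_num) he9
  have h2e : 2 ^ (2 * e) = 2 ^ e * 2 ^ e := by rw [← pow_add]; congr 1; ring
  have hn0 : n ≠ 0 := by
    rintro rfl
    simp at he
    omega
  have key := stconn_lower C hC (2 ^ (e + 1)) (2 ^ (5 * e + 2)) (2 ^ (4 * e)) (2 ^ e) (2 ^ (2 * e)) e
    (2 ^ (2 * e + 2)) (11 * e + 7) (e + 1) hw (by
      rw [show (4 : ℕ) = 2 ^ 2 by norm_num, ← pow_add, ← pow_add]; congr 1; ring)
    (by positivity) (by positivity) (by
      rw [show (4 : ℕ) = 2 ^ 2 by norm_num, ← pow_add]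
      exact Nat.pow_lt_pow_right (by norm_num) (by omega))
    (by
      have : e < 2 ^ e := Nat.lt_two_pow_self
      rw [pow_succ]
      omega)
    (by omega)
    (by
      rw [Nat.le_sqrt]
      have h1 : 2 ^ (40 * e) ≤ n := by
        refine le_trans (Nat.pow_le_pow_right (by norm_num) ?_) (Nat.pow_log_le_self 2 hn0)
        omega
      have h2 : 2 ^ (e + 1) * (2 ^ (5 * e + 2) * 2 ^ (5 * e + 2)) + 2 ≤ 2 ^ (20 * e) := by
        rw [← pow_add, ← pow_add]
        have h3 : 2 ^ (e + 1 + (5 * e + 2 + (5 * e + 2))) ≤ 2 ^ (20 * e - 1) :=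
          Nat.pow_le_pow_right (by norm_num) (by omega)
        have h4 : 2 ^ (20 * e) = 2 * 2 ^ (20 * e - 1) := by
          rw [← pow_succ']; congr 1; omega
        have h5 : 2 ^ 1 ≤ 2 ^ (20 * e - 1) := Nat.pow_le_pow_right (by norm_num) (by omega)
        omega
      calc _ ≤ 2 ^ (20 * e) * 2 ^ (20 * e) := Nat.mul_le_mul h2 h2
        _ = 2 ^ (40 * e) := by rw [← pow_add]; congr 1; ring
        _ ≤ n := h1)
    (by
      have h1 : 2 ^ (e + 1) * (2 ^ (5 * e + 2) * 2 ^ (5 * e + 2)) * 2 = 2 ^ (11 * e + 6) := by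
        rw [← pow_add, ← pow_add, ← pow_succ]; congr 1; ring
      have h2 : 2 ^ (11 * e + 7) = 2 * 2 ^ (11 * e + 6) := by rw [← pow_succ']
      have : 1 ≤ 2 ^ (11 * e + 6) := Nat.one_le_two_pow
      omega)
    (by rw [pow_succ]; omega)
    (by
      rw [show 2 * e + 2 = 2 * e + 2 by rfl, pow_add, h2e]
      nlinarith)
    (by
      rw [show 4 * e = 2 * e + 2 * e by ring, pow_add, pow_add, h2e]
      set b := 2 ^ e with hb
      have h1 : e ≤ e * e := by nlinarith
      have h2 : 1 ≤ e * (b * b) := by
        have : 1 ≤ b * b := by nlinarith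
        nlinarith
      calc 20 * e * ((e * (b * b * 2 ^ 2) + 2) * 2) = 160 * ((e * e) * (b * b)) + 80 * e := by ring
        _ ≤ 160 * (b * (b * b)) + 80 * b := by
            have : e ≤ b := le_trans h1 hsq
            gcongr
        _ ≤ b * b * (b * b) := by nlinarith [Nat.mul_le_mul hpow10 (le_refl (b * b * b))])
  calc 2 ^ (e * e) = (2 ^ e) ^ e := by rw [pow_mul]
    _ < C.size := key

/-- Small width forces size `n ^ Ω(log n)`. -/
theorem stconn_tradeoff (n : ℕ) (hl : 400 ≤ Nat.log 2 n) (C : MonLayered n)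
    (hC : ∀ x, C.eval x = stconn n x) (hw : C.maxWidth ^ 100 ≤ n) :
    ∀ b, 2000 ≤ b → n ^ (Nat.log 2 n) ≤ C.size ^ b := by
  intro b hb
  set l := Nat.log 2 n with hldef
  obtain ⟨e, he⟩ : ∃ e, e = l / 40 := ⟨_, rfl⟩
  have he10 : 10 ≤ e := by omega
  have hn2 : n < 2 ^ (l + 1) := Nat.lt_pow_succ_log_self (by norm_num) n
  have hw2 : C.maxWidth ≤ 2 ^ (2 * e) := by
    by_contra hlt
    push Not at hlt
    have h1 : (2 ^ (2 * e)) ^ 100 ≤ C.maxWidth ^ 100 := Nat.pow_le_pow_left hlt.le _
    rw [← pow_mul] at h1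
    have h2 : 2 ^ (l + 1) ≤ 2 ^ (2 * e * 100) := Nat.pow_le_pow_right (by norm_num) (by omega)
    omega
  have hkey := stconn_width C hC e (by rw [he, hldef]) he10 hw2
  have hle : l * (l + 1) ≤ b * (e * e) := by
    have h1 : l + 1 ≤ 44 * e := by omega
    have h2 : l * (l + 1) ≤ 2000 * (e * e) := by nlinarith
    exact le_trans h2 (Nat.mul_le_mul_right _ hb)
  calc n ^ l ≤ (2 ^ (l + 1)) ^ l := Nat.pow_le_pow_left hn2.le _
    _ = 2 ^ (l * (l + 1)) := by rw [← pow_mul]; congr 1; ring
    _ ≤ 2 ^ (b * (e * e)) := Nat.pow_le_pow_right (by norm_num) hle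
    _ = (2 ^ (e * e)) ^ b := by rw [← pow_mul]; congr 1; ring
    _ ≤ C.size ^ b := Nat.pow_le_pow_left hkey.le _

theorem stconn_monNC : MonNC stconn := by
  choose C hC1 hC2 hC3 using stconn_circuit
  refine ⟨C, fun n x => hC1 n x, ⟨3 ^ 5, 5, fun n => ?_⟩, ⟨3 ^ 2, 2, fun n => ?_⟩⟩
  · simp only
    have h1 := Nat.log_le_self 2 n
    refine le_trans (hC2 n) (le_trans ?_ (add_two_pow_le n 5))
    calc (1 + (Nat.log 2 n + 1) * (Nat.log 2 n + 2)) * ((n + 1) * (n + 1) * (n + 1))
        ≤ (1 + (n + 1) * (n + 2)) * ((n + 2) * (n + 2) * (n + 2)) := by gcongr <;> omega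
      _ ≤ ((n + 2) * (n + 2)) * ((n + 2) * (n + 2) * (n + 2)) := by
          apply Nat.mul_le_mul_right
          nlinarith
      _ = (n + 2) ^ 5 := by ring
  · simp only
    refine le_trans (hC3 n) (le_trans ?_ (add_two_pow_le (Nat.log 2 n) 2))
    nlinarith

theorem stconn_not_monSC : ¬ MonSC stconn := by
  rintro ⟨C, hC, ⟨a, c, hs⟩, ⟨a', c', hd⟩⟩
  obtain ⟨b, hb⟩ : ∃ b, b = 2000 := ⟨_, rfl⟩
  obtain ⟨l, hl1, hl2⟩ := exists_pow_lt_two_pow ((2 * a') ^ 100) (c' * 100) (400 + b * (a + c + 2))
  have hlog : Nat.log 2 (2 ^ l) = l := Nat.log_pow (by norm_num) l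
  have hwidth : (C (2 ^ l)).maxWidth ^ 100 ≤ 2 ^ l := by
    have h1 := hd (2 ^ l)
    simp only at h1
    rw [hlog] at h1
    have h2 : (C (2 ^ l)).maxWidth ≤ 2 * a' * l ^ c' := by
      refine le_trans h1 ?_
      have : a' * 1 ≤ a' * l ^ c' := Nat.mul_le_mul_left _ (Nat.one_le_pow _ _ (by omega))
      have e : 2 * a' * l ^ c' = a' * l ^ c' + a' * l ^ c' := by ring
      rw [e]
      omega
    calc _ ≤ (2 * a' * l ^ c') ^ 100 := Nat.pow_le_pow_left h2 _
      _ = (2 * a') ^ 100 * l ^ (c' * 100) := by rw [mul_pow (2 * a'), ← pow_mul]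
      _ ≤ 2 ^ l := hl2.le
  have hsize : (C (2 ^ l)).size ≤ 2 ^ (a + l * c + 1) := by
    have h1 := hs (2 ^ l)
    simp only at h1
    refine le_trans h1 ?_
    have ha : a ≤ 2 ^ a := (Nat.lt_two_pow_self).le
    have e1 : 2 ^ (a + l * c + 1) = 2 ^ a * (2 ^ l) ^ c + 2 ^ a * (2 ^ l) ^ c := by
      rw [← pow_mul, ← pow_add, pow_add _ _ 1]; ring
    have e2 : a * (2 ^ l) ^ c ≤ 2 ^ a * (2 ^ l) ^ c := Nat.mul_le_mul_right _ ha
    have e3 : 2 ^ a * 1 ≤ 2 ^ a * (2 ^ l) ^ c :=
      Nat.mul_le_mul_left _ (Nat.one_le_pow _ _ (Nat.one_le_two_pow))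
    rw [e1]
    omega
  have h := stconn_tradeoff (2 ^ l) (by rw [hlog]; omega) (C (2 ^ l))
    (hC (2 ^ l)) hwidth b hb.ge
  rw [hlog] at h
  have h2 : 2 ^ (l * l) ≤ 2 ^ ((a + l * c + 1) * b) := by
    calc 2 ^ (l * l) = (2 ^ l) ^ l := by rw [pow_mul]
      _ ≤ (C (2 ^ l)).size ^ b := h
      _ ≤ (2 ^ (a + l * c + 1)) ^ b := Nat.pow_le_pow_left hsize _
      _ = _ := by rw [← pow_mul]
  have h3 := (Nat.pow_le_pow_iff_right (by norm_num : 1 < 2)).mp h2
  have h4 : 1 ≤ l := by omega
  have h5 : (a + l * c + 1) ≤ l * (a + c + 1) := by nlinarith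
  have h6 : (a + l * c + 1) * b ≤ l * (b * (a + c + 1)) := by
    calc _ ≤ (l * (a + c + 1)) * b := Nat.mul_le_mul_right _ h5
      _ = _ := by ring
  have h7 : b * (a + c + 1) < l := by
    have : b * (a + c + 2) = b * (a + c + 1) + b := by ring
    omega
  have h8 : l * (b * (a + c + 1)) < l * l := Nat.mul_lt_mul_of_pos_left h7 h4
  omega

/-- st-connectivity separates monotone NC from monotone SC. -/
theorem result : MonNC stconn ∧ ¬ MonSC stconn ∧
    ∃ N : ℕ, ∀ n ≥ N, ∀ C : MonLayered n, (∀ x, C.eval x = stconn n x) →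
      C.maxWidth ^ 100 ≤ n → n ^ (Nat.log 2 n) ≤ C.size ^ 2000 := by
  obtain ⟨k, hk⟩ : ∃ k, k = 400 := ⟨_, rfl⟩
  refine ⟨stconn_monNC, stconn_not_monSC, 2 ^ k, fun n hn C hC hw => stconn_tradeoff n ?_ C hC hw _ le_rfl⟩
  rw [← hk]
  exact Nat.le_log_of_pow_le (by norm_num) hn

end Pool.Agent.Results.MP_2af48a_lc.StConnectivity
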