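import Pool.Agent.Lib_MP_2af48a_lc.FewNegDefs
import Pool.Agent.Lib_MP_2af48a_lc.StConnectivity
import Pool.Agent.Lib_MP_2af48a_lc.MonotoneSeparation

open Finset Filter

namespace Pool.Agent.Results.MP_2af48a_lc.FewNegations

/-! ## Removing the NOT gates on a subcube -/

/-- If the control bit `X 0` is `0`, select (mostly) the odd positions, otherwise the even ones. -/
def mux (X : ℕ → Bool) : ℕ → Bool := fun p => (X (2 * p + 1) && !(X 0)) || X (2 * p + 2)

/-- the left subcube -/
def eL (y : ℕ → Bool) : ℕ → Bool := fun p => if p % 2 = 1 then y (p / 2) else false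

/-- the right subcube -/
def eR (y : ℕ → Bool) : ℕ → Bool := fun p =>
  if p % 2 = 1 then true else if p = 0 then true else y (p / 2 - 1)

lemma mux_eL (y : ℕ → Bool) : mux (eL y) = y := by
  funext p
  have h1 : (2 * p + 1) % 2 = 1 := by omega
  have h2 : (2 * p + 1) / 2 = p := by omega
  have h3 : ¬ ((2 * p + 2) % 2 = 1) := by omega
  simp [mux, eL, h1, h2]

lemma mux_eR (y : ℕ → Bool) : mux (eR y) = y := by
  funext p
  have h1 : (2 * p + 1) % 2 = 1 := by omega
  have h3 : ¬ ((2 * p + 2) % 2 = 1) := by omega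
  have h4 : (2 * p + 2) / 2 - 1 = p := by omega
  simp [mux, eR, h1]

/-- each coordinate is a constant or a coordinate of the argument -/
def Simple (e : (ℕ → Bool) → ℕ → Bool) : Prop :=
  ∀ p, (∃ b, ∀ y, e y p = b) ∨ (∃ q, ∀ y, e y p = y q)

lemma Simple.monotone {e : (ℕ → Bool) → ℕ → Bool} (h : Simple e) : Monotone e := by
  intro y y' hy p
  rcases h p with ⟨b, hb⟩ | ⟨q, hq⟩
  · rw [hb, hb]
  · rw [hq, hq]; exact hy q

lemma Simple.comp {e e' : (ℕ → Bool) → ℕ → Bool} (h : Simple e) (h' : Simple e') :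
    Simple (fun y => e (e' y)) := by
  intro p
  rcases h p with ⟨b, hb⟩ | ⟨q, hq⟩
  · exact Or.inl ⟨b, fun y => hb _⟩
  · rcases h' q with ⟨b, hb⟩ | ⟨q', hq'⟩
    · exact Or.inl ⟨b, fun y => by simp only [hq, hb]⟩
    · exact Or.inr ⟨q', fun y => by simp only [hq, hq']⟩

lemma simple_id : Simple (fun y => y) := fun p => Or.inr ⟨p, fun _ => rfl⟩

lemma simple_eL : Simple eL := by
  intro p
  by_cases h : p % 2 = 1
  · exact Or.inr ⟨p / 2, fun y => by simp [eL, h]⟩
  · exact Or.inl ⟨false, fun y => by simp [eL, h]⟩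

lemma simple_eR : Simple eR := by
  intro p
  by_cases h : p % 2 = 1
  · exact Or.inl ⟨true, fun y => by simp [eR, h]⟩
  · by_cases h0 : p = 0
    · exact Or.inl ⟨true, fun y => by simp [eR, h0]⟩
    · exact Or.inr ⟨p / 2 - 1, fun y => by simp [eR, h, h0]⟩

lemma eL_le_eR (y y' : ℕ → Bool) : eL y ≤ eR y' := by
  intro p
  by_cases h : p % 2 = 1
  · have : eR y' p = true := by simp [eR, h]
    rw [this]; exact Bool.le_true _
  · have : eL y p = false := by simp [eL, h]
    rw [this]; exact Bool.false_le _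

/-- Abstract form: the functions `u g`, `g ∈ G`, are the values of the NOT gates of a circuit; the
value of a NOT gate is antitone on a subcube on which the earlier NOT gates are constant.  If at
most `r` of them are not constant, then there is a subcube on which all of them are constant and
on which the `r`-fold multiplexer is the identity. -/
theorem collapse {α : Type*} [DecidableEq α] (G : Finset α) (rk : α → ℕ)
    (u : α → (ℕ → Bool) → Bool)
    (H : ∀ e : (ℕ → Bool) → (ℕ → Bool), Monotone e → ∀ g ∈ G,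
      (∀ g' ∈ G, rk g' < rk g → ∀ y y', u g' (e y) = u g' (e y')) →
      Antitone (fun y => u g (e y))) (r : ℕ) :
    ∀ e0 : (ℕ → Bool) → (ℕ → Bool), Simple e0 → ∀ B ⊆ G, B.card ≤ r →
      (∀ g ∈ G, g ∉ B → ∀ y y', u g (e0 y) = u g (e0 y')) →
      ∃ e' : (ℕ → Bool) → (ℕ → Bool), Simple e' ∧ (∀ y, mux^[r] (e' y) = y) ∧
        ∀ g ∈ G, ∀ y y', u g (e0 (e' y)) = u g (e0 (e' y')) := by
  classical
  induction r with
  | zero =>
    intro e0 he0 B hBG hB h
    refine ⟨fun y => y, simple_id, fun y => rfl, fun g hg y y' => h g hg ?_ y y'⟩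
    rw [Finset.card_eq_zero.mp (Nat.le_zero.mp hB)]
    exact Finset.notMem_empty g
  | succ r ih =>
    intro e0 he0 B hBG hB h
    -- it suffices to find one of the two subcubes
    suffices hs : ∃ e1 : (ℕ → Bool) → (ℕ → Bool), Simple e1 ∧ (∀ y, mux (e1 y) = y) ∧
        ∃ B' ⊆ G, B'.card ≤ r ∧
          ∀ g ∈ G, g ∉ B' → ∀ y y', u g (e0 (e1 y)) = u g (e0 (e1 y')) by
      obtain ⟨e1, he1, hm1, B', hB1, hB2, hB3⟩ := hs
      obtain ⟨e2, he2, hm2, hc⟩ := ih (fun y => e0 (e1 y)) (he0.comp he1) B' hB1 hB2 hB3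
      refine ⟨fun y => e1 (e2 y), he1.comp he2, fun y => ?_, hc⟩
      rw [Function.iterate_succ_apply, hm1, hm2]
    by_cases hne : (B.filter (fun g => ¬ ∀ y y', u g (e0 y) = u g (e0 y'))).Nonempty
    · obtain ⟨g0, hg0, hmin⟩ := Finset.exists_min_image _ rk hne
      rw [Finset.mem_filter] at hg0
      have hanti := H e0 he0.monotone g0 (hBG hg0.1) (by
        intro g' hg' hlt
        by_contra hcon
        by_cases hB' : g' ∈ B
        · exact absurd (hmin g' (Finset.mem_filter.mpr ⟨hB', hcon⟩)) (by omega)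
        · exact hcon (h g' hg' hB'))
      have hcard : (B.erase g0).card ≤ r := by
        rw [Finset.card_erase_of_mem hg0.1]; omega
      have hsub : B.erase g0 ⊆ G := fun g hg => hBG (Finset.mem_of_mem_erase hg)
      rcases hv : u g0 (e0 (eL (fun _ => true))) with _ | _
      · -- the right subcube
        refine ⟨eR, simple_eR, mux_eR, B.erase g0, hsub, hcard, fun g hg hgB y y' => ?_⟩
        by_cases hgg : g = g0
        · subst hgg
          have key : ∀ y, u g (e0 (eR y)) = false := by
            intro y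
            have h1 : u g (e0 (eR y)) ≤ u g (e0 (eL (fun _ => true))) :=
              hanti (eL_le_eR (fun _ => true) y)
            rw [hv] at h1
            exact le_antisymm h1 (Bool.false_le _)
          rw [key, key]
        · exact h g hg (fun hB' => hgB (Finset.mem_erase.mpr ⟨hgg, hB'⟩)) _ _
      · refine ⟨eL, simple_eL, mux_eL, B.erase g0, hsub, hcard, fun g hg hgB y y' => ?_⟩
        by_cases hgg : g = g0
        · subst hgg
          have key : ∀ y, u g (e0 (eL y)) = true := by
            intro y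
            have h1 : u g (e0 (eL (fun _ => true))) ≤ u g (e0 (eL y)) := by
              apply hanti
              intro p
              by_cases hp : p % 2 = 1
              · have : eL (fun _ => true) p = true := by simp [eL, hp]
                rw [this]; exact Bool.le_true _
              · have : eL y p = false := by simp [eL, hp]
                rw [this]; exact Bool.false_le _
            rw [hv] at h1
            exact le_antisymm (Bool.le_true _) h1
          rw [key, key]
        · exact h g hg (fun hB' => hgB (Finset.mem_erase.mpr ⟨hgg, hB'⟩)) _ _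
    · refine ⟨eL, simple_eL, mux_eL, ∅, Finset.empty_subset _, Nat.zero_le _,
        fun g hg _ y y' => ?_⟩
      by_cases hgB : g ∈ B
      · by_contra hcon
        exact hne ⟨g, Finset.mem_filter.mpr ⟨hgB, fun hall => hcon (hall _ _)⟩⟩
      · exact h g hg hgB _ _

/-! ## From circuits with NOT gates to monotone circuits -/

lemma and_le_and' {a a' b b' : Bool} (h : a ≤ a') (h' : b ≤ b') : (a && b) ≤ (a' && b') := by
  revert h h'; cases a <;> cases a' <;> cases b <;> cases b' <;> decide

lemma or_le_or' {a a' b b' : Bool} (h : a ≤ a') (h' : b ≤ b') : (a || b) ≤ (a' || b') := by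
  revert h h'; cases a <;> cases a' <;> cases b <;> cases b' <;> decide

lemma not_le_not' {a a' : Bool} (h : a ≤ a') : (!a') ≤ (!a) := by
  revert h; cases a <;> cases a' <;> decide

/-- restriction of a sequence of bits to the input positions -/
def rst (n : ℕ) (X : ℕ → Bool) : Fin n → Bool := fun i => X i.val

/-- extension by `0` -/
def ext {n : ℕ} (x : Fin n → Bool) : ℕ → Bool := fun p => if h : p < n then x ⟨p, h⟩ else false

lemma ext_apply {n : ℕ} (x : Fin n → Bool) (i : Fin n) : ext x i.val = x i := by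
  simp [ext]

lemma rst_ext {n : ℕ} (x : Fin n → Bool) : rst n (ext x) = x := by
  funext i; simp [rst, ext]

lemma wire_mono {n k : ℕ} (e : (ℕ → Bool) → ℕ → Bool) (he : Monotone e)
    (v : (ℕ → Bool) → Fin k → Bool) (hv : ∀ g, Monotone (fun y => v y g)) (w : Wire n k) :
    Monotone (fun y => w.val (rst n (e y)) (v y)) := by
  intro y y' hy
  cases w with
  | const b => exact le_refl _
  | var i => exact he hy i.val
  | gate g => exact hv g hy

lemma gate_mono {n k : ℕ} (e : (ℕ → Bool) → ℕ → Bool) (he : Monotone e)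
    (v : (ℕ → Bool) → Fin k → Bool) (hv : ∀ g, Monotone (fun y => v y g)) (G : Gate n k)
    (hG : G.isNot = true → ∀ y y', G.val (rst n (e y)) (v y) = G.val (rst n (e y')) (v y')) :
    Monotone (fun y => G.val (rst n (e y)) (v y)) := by
  intro y y' hy
  cases G with
  | and a b => exact and_le_and' (wire_mono e he v hv a hy) (wire_mono e he v hv b hy)
  | or a b => exact or_le_or' (wire_mono e he v hv a hy) (wire_mono e he v hv b hy)
  | not a => exact (hG rfl y y').le

lemma not_anti {n k : ℕ} (e : (ℕ → Bool) → ℕ → Bool) (he : Monotone e)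
    (v : (ℕ → Bool) → Fin k → Bool) (hv : ∀ g, Monotone (fun y => v y g)) (G : Gate n k)
    (hG : G.isNot = true) : Antitone (fun y => G.val (rst n (e y)) (v y)) := by
  intro y y' hy
  cases G with
  | and a b => exact absurd hG (by simp [Gate.isNot])
  | or a b => exact absurd hG (by simp [Gate.isNot])
  | not a => exact not_le_not' (wire_mono e he v hv a hy)

/-! ### Unlayered circuits -/

section Unlayered

variable {n : ℕ} (C : Circuit n)

lemma gateVal_eq (x : Fin n → Bool) (g : ℕ) (hg : g < C.size) :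
    C.gateVal x g hg = (C.gate ⟨g, hg⟩).val x (fun g' => C.gateVal x g'.val (lt_trans g'.isLt hg)) := by
  rw [Circuit.gateVal]

lemma circuit_mono (e : (ℕ → Bool) → ℕ → Bool) (he : Monotone e) (k : ℕ)
    (hk : ∀ g : Fin C.size, (C.gate g).isNot = true → g.val < k → ∀ y y',
      C.gateVal (rst n (e y)) g.val g.isLt = C.gateVal (rst n (e y')) g.val g.isLt) :
    ∀ g (hg : g < C.size), g < k → Monotone (fun y => C.gateVal (rst n (e y)) g hg) := by
  intro g
  induction g using Nat.strong_induction_on with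
  | _ g ih =>
    intro hg hgk
    have h1 := gate_mono e he (fun y (g' : Fin g) => C.gateVal (rst n (e y)) g'.val (lt_trans g'.isLt hg))
      (fun g' => ih g'.val g'.isLt _ (lt_trans g'.isLt hgk)) (C.gate ⟨g, hg⟩) (fun hn y y' => by
        have := hk ⟨g, hg⟩ hn hgk y y'
        rw [gateVal_eq, gateVal_eq] at this
        exact this)
    have e1 : (fun y => C.gateVal (rst n (e y)) g hg) = (fun y => (C.gate ⟨g, hg⟩).val (rst n (e y))
        (fun g' => C.gateVal (rst n (e y)) g'.val (lt_trans g'.isLt hg))) := by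
      funext y
      rw [gateVal_eq]
    rw [e1]
    exact h1

theorem circuit_collapse (r : ℕ) (hr : C.negations ≤ r) :
    ∃ e : (ℕ → Bool) → (ℕ → Bool), Simple e ∧ (∀ y, mux^[r] (e y) = y) ∧
      ∀ g : Fin C.size, (C.gate g).isNot = true → ∀ y y',
        C.gateVal (rst n (e y)) g.val g.isLt = C.gateVal (rst n (e y')) g.val g.isLt := by
  classical
  obtain ⟨e, he, hm, hc⟩ := collapse (univ.filter (fun g : Fin C.size => (C.gate g).isNot = true))
    (fun g => g.val) (fun g X => C.gateVal (rst n X) g.val g.isLt) (by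
      intro e he g hg hlt
      have hn := (Finset.mem_filter.mp hg).2
      have hmono := circuit_mono C e he g.val (fun g' hn' hlt' =>
        hlt g' (Finset.mem_filter.mpr ⟨Finset.mem_univ _, hn'⟩) hlt')
      have h1 := not_anti e he (fun y (g' : Fin g) => C.gateVal (rst n (e y)) g'.val
        (lt_trans g'.isLt g.isLt)) (fun g' => hmono g'.val _ g'.isLt) (C.gate g) hn
      have e1 : (fun y => C.gateVal (rst n (e y)) g.val g.isLt) = (fun y => (C.gate g).val (rst n (e y))
        (fun g' => C.gateVal (rst n (e y)) g'.val (lt_trans g'.isLt g.isLt))) := by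
        funext y
        rw [gateVal_eq]
      rw [e1]
      exact h1) r (fun y => y) simple_id _ (Finset.Subset.refl _) hr
    (fun g hg hg' => absurd hg hg')
  exact ⟨e, he, hm, fun g hg => hc g (Finset.mem_filter.mpr ⟨Finset.mem_univ _, hg⟩)⟩

end Unlayered

/-! ### Layered circuits -/

section LayeredC

variable {n : ℕ} (C : Layered n)

lemma layered_mono (e : (ℕ → Bool) → ℕ → Bool) (he : Monotone e) (k : ℕ)
    (hk : ∀ j (g : Fin (C.width (j + 1))), (C.gate j g).isNot = true → j < k → ∀ y y',
      C.val (rst n (e y)) (j + 1) g = C.val (rst n (e y')) (j + 1) g) :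
    ∀ j, j ≤ k → ∀ g, Monotone (fun y => C.val (rst n (e y)) j g) := by
  intro j
  induction j with
  | zero =>
    intro _ g
    exact Fin.elim0 (Fin.cast C.width_zero g)
  | succ j ih =>
    intro hj g
    exact gate_mono e he (fun y => C.val (rst n (e y)) j) (ih (by omega)) (C.gate j g)
      (fun hn y y' => hk j g hn (by omega) y y')

theorem layered_collapse (r : ℕ) (hr : C.negations ≤ r) :
    ∃ e : (ℕ → Bool) → (ℕ → Bool), Simple e ∧ (∀ y, mux^[r] (e y) = y) ∧
      ∀ j < C.layers, ∀ g, (C.gate j g).isNot = true → ∀ y y',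
        C.val (rst n (e y)) (j + 1) g = C.val (rst n (e y')) (j + 1) g := by
  classical
  obtain ⟨e, he, hm, hc⟩ := collapse (α := (j : ℕ) × Fin (C.width (j + 1)))
    ((range C.layers).sigma (fun j => univ.filter (fun g => (C.gate j g).isNot = true)))
    (fun g => g.1) (fun g X => C.val (rst n X) (g.1 + 1) g.2) (by
      rintro e he ⟨j, g⟩ hg hlt
      rw [Finset.mem_sigma, Finset.mem_filter, Finset.mem_range] at hg
      have hn := hg.2.2
      have hmono := layered_mono C e he j (fun j' g' hn' hlt' =>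
        hlt ⟨j', g'⟩ (by
          rw [Finset.mem_sigma, Finset.mem_filter, Finset.mem_range]
          exact ⟨by have := hg.1; simp only at *; omega, Finset.mem_univ _, hn'⟩) hlt') j le_rfl
      exact not_anti e he (fun y => C.val (rst n (e y)) j) hmono (C.gate j g) hn)
    r (fun y => y) simple_id _ (Finset.Subset.refl _) (by rw [Finset.card_sigma]; exact hr)
    (fun g hg hg' => absurd hg hg')
  refine ⟨e, he, hm, fun j hj g hg => hc ⟨j, g⟩ ?_⟩
  rw [Finset.mem_sigma, Finset.mem_filter, Finset.mem_range]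
  exact ⟨hj, Finset.mem_univ _, hg⟩

end LayeredC

/-! ## Conversion to monotone circuits -/

/-- What a simple map does at position `p`: a constant or a coordinate. -/
lemma exists_sub (m : ℕ) (e : (ℕ → Bool) → ℕ → Bool) (he : Simple e) :
    ∃ sub : ℕ → Bool ⊕ Fin m, ∀ p, ∀ x : Fin m → Bool,
      e (ext x) p = Sum.elim (fun b => b) (fun q => x q) (sub p) := by
  have h : ∀ p, ∃ s : Bool ⊕ Fin m, ∀ x : Fin m → Bool,
      e (ext x) p = Sum.elim (fun b => b) (fun q => x q) s := by
    intro p
    rcases he p with ⟨b, hb⟩ | ⟨q, hq⟩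
    · exact ⟨Sum.inl b, fun x => hb _⟩
    · by_cases hqm : q < m
      · exact ⟨Sum.inr ⟨q, hqm⟩, fun x => by rw [hq]; simp [ext, hqm]⟩
      · exact ⟨Sum.inl false, fun x => by rw [hq]; simp [ext, hqm]⟩
  choose sub hsub using h
  exact ⟨sub, hsub⟩

/-! ### Unlayered -/

def cwire {n m k : ℕ} (sub : ℕ → Bool ⊕ Fin m) : Wire n k → MonotoneSeparation.Wire m k
  | .const b => .const b
  | .var i => match sub i.val with
    | Sum.inl b => .const b
    | Sum.inr q => .var q
  | .gate g => .gate g

def cgate {n m k : ℕ} (sub : ℕ → Bool ⊕ Fin m) (b : Bool) : Gate n k → MonotoneSeparation.Gate m k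
  | .and u v => ⟨true, cwire sub u, cwire sub v⟩
  | .or u v => ⟨false, cwire sub u, cwire sub v⟩
  | .not _ => ⟨true, .const b, .const b⟩

lemma cwire_val {n m k : ℕ} (sub : ℕ → Bool ⊕ Fin m) (w : Wire n k) (X : Fin n → Bool)
    (x : Fin m → Bool) (hX : ∀ i : Fin n, X i = Sum.elim (fun b => b) (fun q => x q) (sub i.val))
    (v : Fin k → Bool) : (cwire sub w).val x v = w.val X v := by
  cases w with
  | const b => rfl
  | var i =>
    simp only [cwire, Wire.val, hX]
    rcases sub i.val with b | q <;> rfl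
  | gate g => rfl

lemma cgate_val {n m k : ℕ} (sub : ℕ → Bool ⊕ Fin m) (b : Bool) (G : Gate n k) (X : Fin n → Bool)
    (x : Fin m → Bool) (hX : ∀ i : Fin n, X i = Sum.elim (fun b => b) (fun q => x q) (sub i.val))
    (v : Fin k → Bool) (hb : G.isNot = true → G.val X v = b) :
    (cgate sub b G).val x v = G.val X v := by
  cases G with
  | and u w =>
    simp [cgate, MonotoneSeparation.Gate.val, Gate.val, cwire_val sub _ X x hX]
  | or u w =>
    simp [cgate, MonotoneSeparation.Gate.val, Gate.val, cwire_val sub _ X x hX]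
  | not u =>
    rw [hb rfl]
    simp [cgate, MonotoneSeparation.Gate.val, MonotoneSeparation.Wire.val]

lemma cwire_depth {n m k : ℕ} (sub : ℕ → Bool ⊕ Fin m) (w : Wire n k) (d d' : Fin k → ℕ)
    (hd : ∀ g, d g ≤ d' g) : (cwire sub w).depth d ≤ w.depth d' := by
  cases w with
  | const b => exact le_refl _
  | var i =>
    simp only [cwire, Wire.depth]
    rcases sub i.val with b | q <;> exact le_refl _
  | gate g => exact hd g

lemma cgate_depth {n m k : ℕ} (sub : ℕ → Bool ⊕ Fin m) (b : Bool) (G : Gate n k) (d d' : Fin k → ℕ)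
    (hd : ∀ g, d g ≤ d' g) :
    max ((cgate sub b G).left.depth d) ((cgate sub b G).right.depth d) + 1 ≤ G.depth d' := by
  cases G with
  | and u w =>
    simp only [cgate, Gate.depth]
    have h1 := cwire_depth sub u d d' hd
    have h2 := cwire_depth sub w d d' hd
    omega
  | or u w =>
    simp only [cgate, Gate.depth]
    have h1 := cwire_depth sub u d d' hd
    have h2 := cwire_depth sub w d d' hd
    omega
  | not u =>
    simp only [cgate, Gate.depth, MonotoneSeparation.Wire.depth]
    omega

/-- Circuits with at most `r` NOT gates for a function that contains `f` in the sense of the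
`r`-fold multiplexer give monotone circuits for `f`. -/
theorem circuit_to_mon {n m r : ℕ} (C : Circuit n) (hr : C.negations ≤ r)
    (f : (Fin m → Bool) → Bool)
    (hC : ∀ X : ℕ → Bool, C.eval (rst n X) = f (rst m (mux^[r] X))) :
    ∃ D : MonotoneSeparation.MonCircuit m, (∀ x, D.eval x = f x) ∧ D.size = C.size ∧
      D.depth ≤ C.depth := by
  obtain ⟨e, he, hm, hc⟩ := circuit_collapse C r hr
  obtain ⟨sub, hsub⟩ := exists_sub m e he
  set b : Fin C.size → Bool := fun g => C.gateVal (rst n (e (fun _ => false))) g.val g.isLt with hb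
  set D : MonotoneSeparation.MonCircuit m :=
    ⟨C.size, fun g => cgate sub (b g) (C.gate g), C.out⟩ with hD
  have hval : ∀ (x : Fin m → Bool) (g : ℕ) (hg : g < C.size),
      D.gateVal x g hg = C.gateVal (rst n (e (ext x))) g hg := by
    intro x g
    induction g using Nat.strong_induction_on with
    | _ g ih =>
      intro hg
      rw [MonotoneSeparation.MonCircuit.gateVal, gateVal_eq]
      have h1 : (fun g' : Fin g => D.gateVal x g'.val (lt_trans g'.isLt hg)) =
          (fun g' : Fin g => C.gateVal (rst n (e (ext x))) g'.val (lt_trans g'.isLt hg)) := by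
        funext g'
        exact ih g'.val g'.isLt _
      change (cgate sub (b ⟨g, hg⟩) (C.gate ⟨g, hg⟩)).val x
        (fun g' : Fin g => D.gateVal x g'.val (lt_trans g'.isLt hg)) = _
      rw [h1]
      apply cgate_val sub _ _ (rst n (e (ext x))) x (fun i => hsub i.val x)
      intro hn
      have h2 := hc ⟨g, hg⟩ hn (ext x) (fun _ => false)
      simp only at h2
      rw [gateVal_eq] at h2
      exact h2
  have hdep : ∀ (g : ℕ) (hg : g < C.size), D.gateDepth g hg ≤ C.gateDepth g hg := by
    intro g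
    induction g using Nat.strong_induction_on with
    | _ g ih =>
      intro hg
      rw [MonotoneSeparation.MonCircuit.gateDepth, Circuit.gateDepth]
      change max ((cgate sub (b ⟨g, hg⟩) (C.gate ⟨g, hg⟩)).left.depth _)
        ((cgate sub (b ⟨g, hg⟩) (C.gate ⟨g, hg⟩)).right.depth _) + 1 ≤ _
      exact cgate_depth sub _ _ _ _ (fun g' : Fin g => ih g'.val g'.isLt (lt_trans g'.isLt hg))
  refine ⟨D, fun x => ?_, rfl, hdep _ _⟩
  have h1 : D.eval x = C.eval (rst n (e (ext x))) := hval x C.out.val C.out.isLt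
  rw [h1, hC, hm, rst_ext]

/-! ### Layered -/

def lwire {n m k : ℕ} (sub : ℕ → Bool ⊕ Fin m) : Wire n k → StConnectivity.Wire m k
  | .const b => .const b
  | .var i => match sub i.val with
    | Sum.inl b => .const b
    | Sum.inr q => .var q
  | .gate g => .gate g

def lgate {n m k : ℕ} (sub : ℕ → Bool ⊕ Fin m) (b : Bool) : Gate n k → StConnectivity.Gate m k
  | .and u v => ⟨true, lwire sub u, lwire sub v⟩
  | .or u v => ⟨false, lwire sub u, lwire sub v⟩
  | .not _ => ⟨true, .const b, .const b⟩

lemma lwire_val {n m k : ℕ} (sub : ℕ → Bool ⊕ Fin m) (w : Wire n k) (X : Fin n → Bool)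
    (x : Fin m → Bool) (hX : ∀ i : Fin n, X i = Sum.elim (fun b => b) (fun q => x q) (sub i.val))
    (v : Fin k → Bool) : (lwire sub w).val x v = w.val X v := by
  cases w with
  | const b => rfl
  | var i =>
    simp only [lwire, Wire.val, hX]
    rcases sub i.val with b | q <;> rfl
  | gate g => rfl

lemma lgate_val {n m k : ℕ} (sub : ℕ → Bool ⊕ Fin m) (b : Bool) (G : Gate n k) (X : Fin n → Bool)
    (x : Fin m → Bool) (hX : ∀ i : Fin n, X i = Sum.elim (fun b => b) (fun q => x q) (sub i.val))
    (v : Fin k → Bool) (hb : G.isNot = true → G.val X v = b) :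
    (lgate sub b G).val x v = G.val X v := by
  cases G with
  | and u w =>
    simp [lgate, StConnectivity.Gate.val, Gate.val, lwire_val sub _ X x hX]
  | or u w =>
    simp [lgate, StConnectivity.Gate.val, Gate.val, lwire_val sub _ X x hX]
  | not u =>
    rw [hb rfl]
    simp [lgate, StConnectivity.Gate.val, StConnectivity.Wire.val]

theorem layered_to_mon {n m r : ℕ} (C : Layered n) (hr : C.negations ≤ r)
    (f : (Fin m → Bool) → Bool)
    (hC : ∀ X : ℕ → Bool, C.eval (rst n X) = f (rst m (mux^[r] X))) :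
    ∃ D : StConnectivity.MonLayered m, (∀ x, D.eval x = f x) ∧ D.size = C.size ∧
      D.maxWidth = C.maxWidth := by
  obtain ⟨e, he, hm, hc⟩ := layered_collapse C r hr
  obtain ⟨sub, hsub⟩ := exists_sub m e he
  set D : StConnectivity.MonLayered m :=
    ⟨C.layers, C.width, C.width_zero,
      fun j g => lgate sub (C.val (rst n (e (fun _ => false))) (j + 1) g) (C.gate j g), C.out⟩ with hD
  have hval : ∀ (x : Fin m → Bool) (j : ℕ), j ≤ C.layers → ∀ g,
      D.val x j g = C.val (rst n (e (ext x))) j g := by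
    intro x j
    induction j with
    | zero =>
      intro _ g
      exact Fin.elim0 (Fin.cast C.width_zero g)
    | succ j ih =>
      intro hj g
      have h1 : D.val x j = C.val (rst n (e (ext x))) j := funext (fun g => ih (by omega) g)
      change (lgate sub _ (C.gate j g)).val x (D.val x j) = (C.gate j g).val _ (C.val _ j)
      rw [h1]
      apply lgate_val sub _ _ (rst n (e (ext x))) x (fun i => hsub i.val x)
      intro hn
      exact hc j (by omega) g hn (ext x) (fun _ => false)
  refine ⟨D, fun x => ?_, rfl, rfl⟩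
  have h1 : D.eval x = C.eval (rst n (e (ext x))) := hval x C.layers le_rfl C.out
  rw [h1, hC, hm, rst_ext]

/-- Module NCup. -/
def Stmt_NCup : Prop := ∀ (m r n : ℕ), 2 ^ r * (m + 1) ≤ n + 1 →
  ∀ D : StConnectivity.MonCircuit m, ∃ C : Circuit n,
    (∀ X : ℕ → Bool, C.eval (rst n X) = D.eval (rst m (mux^[r] X))) ∧
    C.size ≤ D.size + 4 * (n + 1) ∧ C.depth ≤ D.depth + 3 * r ∧ C.negations ≤ r

/-- Module SCup: narrow evaluation. -/
def Stmt_SCup : Prop := ∃ K : ℕ, ∀ (m r n : ℕ), 2 ^ r * (m + 1) ≤ n + 1 →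
  ∀ D : MonotoneSeparation.MonLayered m, ∃ C : Layered n,
    (∀ X : ℕ → Bool, C.eval (rst n X) = D.eval (rst m (mux^[r] X))) ∧
    C.size ≤ K * 4 ^ r * (D.size + 1) * (D.maxWidth + r + 1) ∧
    C.maxWidth ≤ K * (D.maxWidth + r + 1) ∧ C.negations ≤ r

/-! ## Upper bound: circuits of small depth -/

/-- replace the variables and the gates read by a wire -/
def Wire.mapTo {N n k k' : ℕ} (fv : Fin N → Wire n k') (fg : Fin k → Wire n k') :
    Wire N k → Wire n k'
  | .const b => .const b
  | .var i => fv i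
  | .gate g => fg g

/-- replace the variables and the gates read by a gate -/
def Gate.mapTo {N n k k' : ℕ} (fv : Fin N → Wire n k') (fg : Fin k → Wire n k') :
    Gate N k → Gate n k'
  | .and a b => .and (a.mapTo fv fg) (b.mapTo fv fg)
  | .or a b => .or (a.mapTo fv fg) (b.mapTo fv fg)
  | .not a => .not (a.mapTo fv fg)

lemma Wire.mapTo_val {N n k k' : ℕ} (fv : Fin N → Wire n k') (fg : Fin k → Wire n k')
    (w : Wire N k) (x : Fin n → Bool) (v : Fin k' → Bool) :
    (w.mapTo fv fg).val x v = w.val (fun i => (fv i).val x v) (fun g => (fg g).val x v) := by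
  cases w <;> rfl

lemma Gate.mapTo_val {N n k k' : ℕ} (fv : Fin N → Wire n k') (fg : Fin k → Wire n k')
    (G : Gate N k) (x : Fin n → Bool) (v : Fin k' → Bool) :
    (G.mapTo fv fg).val x v = G.val (fun i => (fv i).val x v) (fun g => (fg g).val x v) := by
  cases G <;> simp [Gate.mapTo, Gate.val, Wire.mapTo_val]

lemma Gate.mapTo_isNot {N n k k' : ℕ} (fv : Fin N → Wire n k') (fg : Fin k → Wire n k')
    (G : Gate N k) : (G.mapTo fv fg).isNot = G.isNot := by
  cases G <;> rfl

lemma Wire.mapTo_depth {N n k k' : ℕ} (fv : Fin N → Wire n k') (fg : Fin k → Wire n k')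
    (w : Wire N k) (d : Fin k → ℕ) (d' : Fin k' → ℕ) (c : ℕ)
    (hv : ∀ i, (fv i).depth d' ≤ c) (hg : ∀ g, (fg g).depth d' ≤ d g + c) :
    (w.mapTo fv fg).depth d' ≤ w.depth d + c := by
  cases w with
  | const b => exact Nat.zero_le _
  | var i => exact le_trans (hv i) (Nat.le_add_left _ _)
  | gate g => exact hg g

lemma Gate.mapTo_depth {N n k k' : ℕ} (fv : Fin N → Wire n k') (fg : Fin k → Wire n k')
    (G : Gate N k) (d : Fin k → ℕ) (d' : Fin k' → ℕ) (c : ℕ)
    (hv : ∀ i, (fv i).depth d' ≤ c) (hg : ∀ g, (fg g).depth d' ≤ d g + c) :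
    (G.mapTo fv fg).depth d' ≤ G.depth d + c := by
  cases G with
  | and a b =>
    simp only [Gate.mapTo, Gate.depth]
    have h1 := Wire.mapTo_depth fv fg a d d' c hv hg
    have h2 := Wire.mapTo_depth fv fg b d d' c hv hg
    omega
  | or a b =>
    simp only [Gate.mapTo, Gate.depth]
    have h1 := Wire.mapTo_depth fv fg a d d' c hv hg
    have h2 := Wire.mapTo_depth fv fg b d d' c hv hg
    omega
  | not a =>
    simp only [Gate.mapTo, Gate.depth]
    have h1 := Wire.mapTo_depth fv fg a d d' c hv hg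
    omega

/-! ### Base case: from helper circuits -/

def fromWire {m n k : ℕ} (h : m ≤ n) : StConnectivity.Wire m k → Wire n k
  | .const b => .const b
  | .var i => .var (Fin.castLE h i)
  | .gate g => .gate g

def fromGate {m n k : ℕ} (h : m ≤ n) (G : StConnectivity.Gate m k) : Gate n k :=
  if G.isAnd then .and (fromWire h G.left) (fromWire h G.right)
  else .or (fromWire h G.left) (fromWire h G.right)

def fromCircuit {m n : ℕ} (h : m ≤ n) (D : StConnectivity.MonCircuit m) : Circuit n :=
  ⟨D.size, fun g => fromGate h (D.gate g), D.out⟩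

lemma fromWire_val {m n k : ℕ} (h : m ≤ n) (w : StConnectivity.Wire m k) (X : ℕ → Bool)
    (v : Fin k → Bool) : (fromWire h w).val (rst n X) v = w.val (rst m X) v := by
  cases w <;> rfl

lemma fromGate_val {m n k : ℕ} (h : m ≤ n) (G : StConnectivity.Gate m k) (X : ℕ → Bool)
    (v : Fin k → Bool) : (fromGate h G).val (rst n X) v = G.val (rst m X) v := by
  unfold fromGate StConnectivity.Gate.val
  split <;> simp [Gate.val, fromWire_val]

lemma fromGate_isNot {m n k : ℕ} (h : m ≤ n) (G : StConnectivity.Gate m k) :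
    (fromGate h G).isNot = false := by
  unfold fromGate
  split <;> rfl

lemma fromWire_depth {m n k : ℕ} (h : m ≤ n) (w : StConnectivity.Wire m k) (d : Fin k → ℕ) :
    (fromWire h w).depth d = w.depth d := by
  cases w <;> rfl

lemma fromGate_depth {m n k : ℕ} (h : m ≤ n) (G : StConnectivity.Gate m k) (d : Fin k → ℕ) :
    (fromGate h G).depth d = max (G.left.depth d) (G.right.depth d) + 1 := by
  unfold fromGate
  split <;> simp [Gate.depth, fromWire_depth]

/-- a consistent assignment of values to the gates is the evaluation -/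
lemma gateVal_unique {n : ℕ} (C : Circuit n) (x : Fin n → Bool) (V : ℕ → Bool)
    (hV : ∀ g (hg : g < C.size), V g = (C.gate ⟨g, hg⟩).val x (fun g' => V g'.val)) :
    ∀ g (hg : g < C.size), C.gateVal x g hg = V g := by
  intro g
  induction g using Nat.strong_induction_on with
  | _ g ih =>
    intro hg
    rw [gateVal_eq, hV g hg]
    congr 1
    funext g'
    exact ih g'.val g'.isLt _

lemma Wire.depth_mono {n k : ℕ} (w : Wire n k) (d d' : Fin k → ℕ) (h : ∀ g, d g ≤ d' g) :
    w.depth d ≤ w.depth d' := by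
  cases w with
  | const b => exact le_refl _
  | var i => exact le_refl _
  | gate g => exact h g

lemma Gate.depth_mono {n k : ℕ} (G : Gate n k) (d d' : Fin k → ℕ) (h : ∀ g, d g ≤ d' g) :
    G.depth d ≤ G.depth d' := by
  cases G with
  | and a b =>
    simp only [Gate.depth]
    have h1 := a.depth_mono d d' h
    have h2 := b.depth_mono d d' h
    omega
  | or a b =>
    simp only [Gate.depth]
    have h1 := a.depth_mono d d' h
    have h2 := b.depth_mono d d' h
    omega
  | not a =>
    simp only [Gate.depth]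
    have h1 := a.depth_mono d d' h
    omega

lemma gateDepth_le {n : ℕ} (C : Circuit n) (d : ℕ → ℕ)
    (hd : ∀ g (hg : g < C.size), (C.gate ⟨g, hg⟩).depth (fun g' => d g'.val) ≤ d g) :
    ∀ g (hg : g < C.size), C.gateDepth g hg ≤ d g := by
  intro g
  induction g using Nat.strong_induction_on with
  | _ g ih =>
    intro hg
    rw [Circuit.gateDepth]
    exact le_trans (Gate.depth_mono _ _ _ (fun g' => ih g'.val g'.isLt _)) (hd g hg)

theorem fromCircuit_eval {m n : ℕ} (h : m ≤ n) (D : StConnectivity.MonCircuit m) (X : ℕ → Bool) :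
    (fromCircuit h D).eval (rst n X) = D.eval (rst m X) := by
  have h1 := gateVal_unique (fromCircuit h D) (rst n X)
    (fun g => if hg : g < D.size then D.gateVal (rst m X) g hg else false) (by
      intro g hg
      have hg' : g < D.size := hg
      change _ = (fromGate h (D.gate ⟨g, hg⟩)).val _ _
      rw [fromGate_val, dif_pos hg', StConnectivity.MonCircuit.gateVal]
      congr 1
      funext g'
      rw [dif_pos (lt_trans g'.isLt hg')]) D.out.val D.out.isLt
  rw [dif_pos D.out.isLt] at h1
  exact h1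

theorem fromCircuit_depth {m n : ℕ} (h : m ≤ n) (D : StConnectivity.MonCircuit m) :
    (fromCircuit h D).depth ≤ D.depth := by
  have h1 := gateDepth_le (fromCircuit h D)
    (fun g => if hg : g < D.size then D.gateDepth g hg else 0) (by
      intro g hg
      have hg' : g < D.size := hg
      change (fromGate h (D.gate ⟨g, hg⟩)).depth _ ≤ _
      rw [fromGate_depth, dif_pos hg', StConnectivity.MonCircuit.gateDepth]
      have e : (fun g' : Fin g => if hg : g'.val < D.size then D.gateDepth g'.val hg else 0) =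
          (fun g' : Fin g => D.gateDepth g'.val (lt_trans g'.isLt hg')) := by
        funext g'
        rw [dif_pos (lt_trans g'.isLt hg')]
      change max ((D.gate ⟨g, hg⟩).left.depth (fun g' : Fin g => if hg : g'.val < D.size then
        D.gateDepth g'.val hg else 0)) _ + 1 ≤ _
      rw [e]) D.out.val D.out.isLt
  rw [dif_pos D.out.isLt] at h1
  exact h1

theorem fromCircuit_negations {m n : ℕ} (h : m ≤ n) (D : StConnectivity.MonCircuit m) :
    (fromCircuit h D).negations = 0 := by
  unfold Circuit.negations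
  rw [Finset.card_eq_zero, Finset.filter_eq_empty_iff]
  intro g _
  change ¬ (fromGate h (D.gate g)).isNot = true
  rw [fromGate_isNot]
  simp

/-! ### One level of the multiplexer -/

/-- gates of the circuit with one more level -/
def upGate {N n : ℕ} (h : 2 * N + 1 ≤ n) (C : Circuit N) (g : ℕ) (hg : g < 2 * N + 1 + C.size) :
    Gate n g :=
  if h0 : g = 0 then .not (.var ⟨0, by omega⟩)
  else if h1 : g ≤ N then .and (.var ⟨2 * (g - 1) + 1, by omega⟩) (.gate ⟨0, by omega⟩)
  else if h2 : g ≤ 2 * N then .or (.gate ⟨g - N, by omega⟩) (.var ⟨2 * (g - N - 1) + 2, by omega⟩)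
  else (C.gate ⟨g - (2 * N + 1), by omega⟩).mapTo
    (fun p => .gate ⟨N + 1 + p.val, by have := p.isLt; omega⟩)
    (fun q => .gate ⟨q.val + (2 * N + 1), by have := q.isLt; simp only at this; omega⟩)

/-- one more level -/
def up {N n : ℕ} (h : 2 * N + 1 ≤ n) (C : Circuit N) : Circuit n :=
  ⟨2 * N + 1 + C.size, fun g => upGate h C g.val g.isLt,
    ⟨C.out.val + (2 * N + 1), by have := C.out.isLt; omega⟩⟩

/-- the values of the gates -/
def upV {N : ℕ} (C : Circuit N) (X : ℕ → Bool) (g : ℕ) : Bool :=
  if g = 0 then !(X 0)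
  else if g ≤ N then (X (2 * (g - 1) + 1) && !(X 0))
  else if g ≤ 2 * N then mux X (g - N - 1)
  else if hg : g - (2 * N + 1) < C.size then C.gateVal (rst N (mux X)) (g - (2 * N + 1)) hg
  else false

theorem up_eval {N n : ℕ} (h : 2 * N + 1 ≤ n) (C : Circuit N) (X : ℕ → Bool) :
    (up h C).eval (rst n X) = C.eval (rst N (mux X)) := by
  have h1 := gateVal_unique (up h C) (rst n X) (upV C X) (by
    intro g hg
    have hg' : g < 2 * N + 1 + C.size := hg
    change _ = (upGate h C g hg).val _ _
    unfold upGate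
    by_cases h0 : g = 0
    · rw [dif_pos h0]
      simp only [upV, h0, if_true]
      rfl
    by_cases h1 : g ≤ N
    · rw [dif_neg h0, dif_pos h1]
      simp only [Gate.val, Wire.val, rst]
      simp only [upV, h0, h1, if_true, if_false]
    by_cases h2 : g ≤ 2 * N
    · rw [dif_neg h0, dif_neg h1, dif_pos h2]
      simp only [Gate.val, Wire.val, rst]
      have e1 : g - N ≠ 0 := by omega
      have e2 : g - N ≤ N := by omega
      simp only [upV, h0, h1, h2, e1, e2, if_true, if_false, mux]
    · rw [dif_neg h0, dif_neg h1, dif_neg h2, Gate.mapTo_val]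
      have h3 : g - (2 * N + 1) < C.size := by omega
      have e0 : upV C X g = C.gateVal (rst N (mux X)) (g - (2 * N + 1)) h3 := by
        simp only [upV, h0, h1, h2, h3, if_false, dif_pos]
      rw [e0, gateVal_eq]
      congr 1
      · funext i
        have hi := i.isLt
        have e1 : N + 1 + i.val ≠ 0 := by omega
        have e2 : ¬ (N + 1 + i.val ≤ N) := by omega
        have e3 : N + 1 + i.val ≤ 2 * N := by omega
        have e4 : N + 1 + i.val - N - 1 = i.val := by omega
        simp only [Wire.val, upV, e1, e2, e3, e4, if_true, if_false]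
        rfl
      · funext q
        have hq : q.val < g - (2 * N + 1) := q.isLt
        have e1 : q.val + (2 * N + 1) ≠ 0 := by omega
        have e2 : ¬ (q.val + (2 * N + 1) ≤ N) := by omega
        have e3 : ¬ (q.val + (2 * N + 1) ≤ 2 * N) := by omega
        have e4 : q.val + (2 * N + 1) - (2 * N + 1) = q.val := by omega
        have e5 : q.val < C.size := by omega
        simp only [Wire.val, upV, e1, e2, e3, e4, e5, if_false, dif_pos])
    (C.out.val + (2 * N + 1)) (by have := C.out.isLt; change _ < 2 * N + 1 + C.size; omega)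
  have e1 : C.out.val + (2 * N + 1) ≠ 0 := by omega
  have e2 : ¬ (C.out.val + (2 * N + 1) ≤ N) := by omega
  have e3 : ¬ (C.out.val + (2 * N + 1) ≤ 2 * N) := by omega
  have e4 : C.out.val + (2 * N + 1) - (2 * N + 1) = C.out.val := by omega
  simp only [upV, e1, e2, e3, e4, C.out.isLt, if_false, dif_pos] at h1
  exact h1

theorem up_depth {N n : ℕ} (h : 2 * N + 1 ≤ n) (C : Circuit N) :
    (up h C).depth ≤ C.depth + 3 := by
  have h1 := gateDepth_le (up h C) (fun g => if g = 0 then 1 else if g ≤ N then 2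
      else if g ≤ 2 * N then 3 else
      if hg : g - (2 * N + 1) < C.size then C.gateDepth (g - (2 * N + 1)) hg + 3 else 0) (by
    intro g hg
    have hg' : g < 2 * N + 1 + C.size := hg
    change (upGate h C g hg).depth _ ≤ _
    unfold upGate
    by_cases h0 : g = 0
    · rw [dif_pos h0]
      simp only [Gate.depth, Wire.depth, h0, if_true]
      omega
    by_cases h1 : g ≤ N
    · rw [dif_neg h0, dif_pos h1]
      simp only [Gate.depth, Wire.depth, h0, h1, if_true, if_false]
      omega
    by_cases h2 : g ≤ 2 * N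
    · rw [dif_neg h0, dif_neg h1, dif_pos h2]
      have e1 : g - N ≠ 0 := by omega
      have e2 : g - N ≤ N := by omega
      simp only [Gate.depth, Wire.depth, h0, h1, h2, e1, e2, if_true, if_false]
      omega
    · rw [dif_neg h0, dif_neg h1, dif_neg h2]
      have h3 : g - (2 * N + 1) < C.size := by omega
      simp only [h0, h1, h2, h3, if_false, dif_pos]
      rw [Circuit.gateDepth]
      apply Gate.mapTo_depth
      · intro i
        have hi := i.isLt
        have e1 : N + 1 + i.val ≠ 0 := by omega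
        have e2 : ¬ (N + 1 + i.val ≤ N) := by omega
        have e3 : N + 1 + i.val ≤ 2 * N := by omega
        simp only [Wire.depth, e1, e2, e3, if_true, if_false]
        omega
      · intro q
        have hq : q.val < g - (2 * N + 1) := q.isLt
        have e1 : q.val + (2 * N + 1) ≠ 0 := by omega
        have e2 : ¬ (q.val + (2 * N + 1) ≤ N) := by omega
        have e3 : ¬ (q.val + (2 * N + 1) ≤ 2 * N) := by omega
        have e4 : q.val + (2 * N + 1) - (2 * N + 1) = q.val := by omega
        have e5 : q.val < C.size := by omega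
        simp only [Wire.depth, e1, e2, e3, e4, e5, if_false, dif_pos]
        exact le_refl _)
    (C.out.val + (2 * N + 1)) (by have := C.out.isLt; change _ < 2 * N + 1 + C.size; omega)
  have e1 : C.out.val + (2 * N + 1) ≠ 0 := by omega
  have e2 : ¬ (C.out.val + (2 * N + 1) ≤ N) := by omega
  have e3 : ¬ (C.out.val + (2 * N + 1) ≤ 2 * N) := by omega
  have e4 : C.out.val + (2 * N + 1) - (2 * N + 1) = C.out.val := by omega
  simp only [e1, e2, e3, e4, C.out.isLt, if_false, dif_pos] at h1
  exact h1

theorem up_negations {N n : ℕ} (h : 2 * N + 1 ≤ n) (C : Circuit N) :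
    (up h C).negations ≤ C.negations + 1 := by
  classical
  unfold Circuit.negations
  have hsub : (univ.filter (fun g : Fin (up h C).size => ((up h C).gate g).isNot = true)).image
      (fun g => g.val) ⊆ insert 0 ((univ.filter (fun g : Fin C.size => (C.gate g).isNot = true)).image
        (fun g => g.val + (2 * N + 1))) := by
    intro g hg
    rw [Finset.mem_image] at hg
    obtain ⟨⟨g', hlt⟩, hg1, rfl⟩ := hg
    have hn := (Finset.mem_filter.mp hg1).2
    have hlt' : g' < 2 * N + 1 + C.size := hlt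
    change (upGate h C g' hlt).isNot = true at hn
    unfold upGate at hn
    rw [Finset.mem_insert]
    by_cases h0 : g' = 0
    · exact Or.inl h0
    by_cases h1 : g' ≤ N
    · rw [dif_neg h0, dif_pos h1] at hn
      exact absurd hn (by simp [Gate.isNot])
    by_cases h2 : g' ≤ 2 * N
    · rw [dif_neg h0, dif_neg h1, dif_pos h2] at hn
      exact absurd hn (by simp [Gate.isNot])
    · rw [dif_neg h0, dif_neg h1, dif_neg h2, Gate.mapTo_isNot] at hn
      right
      rw [Finset.mem_image]
      exact ⟨⟨g' - (2 * N + 1), by omega⟩, Finset.mem_filter.mpr ⟨Finset.mem_univ _, hn⟩,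
        by simp only; omega⟩
  have hinj : Function.Injective (fun g : Fin (up h C).size => g.val) := fun a b hab => Fin.ext hab
  rw [← Finset.card_image_of_injective _ hinj]
  refine le_trans (Finset.card_le_card hsub) (le_trans (Finset.card_insert_le _ _) ?_)
  exact Nat.add_le_add_right Finset.card_image_le 1

theorem nc_up : Stmt_NCup := by
  intro m r
  induction r with
  | zero =>
    intro n h D
    have hmn : m ≤ n := by simpa using h
    refine ⟨fromCircuit hmn D, fun X => fromCircuit_eval hmn D X, ?_, ?_, ?_⟩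
    · change D.size ≤ _; omega
    · have := fromCircuit_depth hmn D; omega
    · rw [fromCircuit_negations]
  | succ r ih =>
    intro n h D
    have h2 : 2 ^ (r + 1) * (m + 1) = 2 * (2 ^ r * (m + 1)) := by rw [pow_succ]; ring
    have hpos : 1 ≤ 2 ^ r * (m + 1) := Nat.one_le_iff_ne_zero.mpr (by positivity)
    obtain ⟨C, hC1, hC2, hC3, hC4⟩ := ih ((n - 1) / 2) (by omega) D
    have hN : 2 * ((n - 1) / 2) + 1 ≤ n := by omega
    refine ⟨up hN C, fun X => ?_, ?_, ?_, ?_⟩
    · rw [up_eval, hC1, Function.iterate_succ_apply]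
    · change 2 * ((n - 1) / 2) + 1 + C.size ≤ _
      omega
    · have := up_depth hN C; omega
    · have := up_negations hN C; omega

namespace SCup

/-! ## Register programs -/

/-- Instructions of register programs: load an input, load a constant, and the Boolean
operations; the first argument is the register which is changed. -/
inductive Ins
  | var (d p : ℕ)
  | cst (d : ℕ) (b : Bool)
  | and (d a b : ℕ)
  | or (d a b : ℕ)
  | not (d a : ℕ)

/-- the register which is changed -/
def Ins.dst : Ins → ℕ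
  | .var d _ => d
  | .cst d _ => d
  | .and d _ _ => d
  | .or d _ _ => d
  | .not d _ => d

/-- the new value -/
def Ins.val (X s : ℕ → Bool) : Ins → Bool
  | .var _ p => X p
  | .cst _ b => b
  | .and _ a b => s a && s b
  | .or _ a b => s a || s b
  | .not _ a => !(s a)

/-- all registers are `< K`, all input positions are `< M` -/
def Ins.ok (K M : ℕ) : Ins → Prop
  | .var d p => d < K ∧ p < M
  | .cst d _ => d < K
  | .and d a b => d < K ∧ a < K ∧ b < K
  | .or d a b => d < K ∧ a < K ∧ b < K
  | .not d a => d < K ∧ a < K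

/-- Is it a NOT instruction? -/
def Ins.isNot : Ins → Bool
  | .not _ _ => true
  | _ => false

/-- execution of one instruction -/
def step (X : ℕ → Bool) (s : ℕ → Bool) (i : Ins) : ℕ → Bool :=
  Function.update s i.dst (i.val X s)

/-- execution of a program -/
def run (X : ℕ → Bool) (s : ℕ → Bool) (P : List Ins) : ℕ → Bool := P.foldl (step X) s

lemma run_nil (X s : ℕ → Bool) : run X s [] = s := rfl

lemma run_cons (X s : ℕ → Bool) (i : Ins) (P : List Ins) :
    run X s (i :: P) = run X (step X s i) P := rfl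

lemma run_append (X s : ℕ → Bool) (P Q : List Ins) :
    run X s (P ++ Q) = run X (run X s P) Q := by
  simp [run, List.foldl_append]

/-! ## Programs to layered circuits -/

/-- the wire of register `a` -/
def regW (n K : ℕ) (a : ℕ) : Wire n K := if h : a < K then .gate ⟨a, h⟩ else .const false

/-- the wire of the input `p` -/
def varW (n K : ℕ) (p : ℕ) : Wire n K := if h : p < n then .var ⟨p, h⟩ else .const false

/-- the gates of an instruction -/
def Ins.toGate (n K : ℕ) (g : ℕ) : Ins → Gate n K
  | .var d p => if g = d then .or (varW n K p) (.const false) else .or (regW n K g) (.const false)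
  | .cst d b => if g = d then .or (.const b) (.const false) else .or (regW n K g) (.const false)
  | .and d a b => if g = d then .and (regW n K a) (regW n K b)
      else .or (regW n K g) (.const false)
  | .or d a b => if g = d then .or (regW n K a) (regW n K b)
      else .or (regW n K g) (.const false)
  | .not d a => if g = d then .not (regW n K a) else .or (regW n K g) (.const false)

/-- widths -/
def wid (K : ℕ) : ℕ → ℕ
  | 0 => 0
  | _ + 1 => K

/-- gates -/
def gts (n K : ℕ) (P : List Ins) : (j : ℕ) → Fin (wid K (j + 1)) → Gate n (wid K j)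
  | 0 => fun _ => .or (.const false) (.const false)
  | j + 1 => fun g => (P.getD j (.cst 0 false)).toGate n K g.val

/-- the layered circuit of a program -/
def toLayered (n K : ℕ) (P : List Ins) (o : Fin K) : Layered n where
  layers := P.length + 1
  width := wid K
  width_zero := rfl
  gate := gts n K P
  out := o

lemma regW_val {n K : ℕ} (x : Fin n → Bool) (s : ℕ → Bool) (v : Fin K → Bool)
    (hv : ∀ g : Fin K, v g = s g.val) (a : ℕ) (ha : a < K) : (regW n K a).val x v = s a := by
  simp [regW, ha, Wire.val, hv]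

lemma varW_val {n K : ℕ} (X : ℕ → Bool) (v : Fin K → Bool) (a : ℕ) (ha : a < n) :
    (varW n K a).val (rst n X) v = X a := by
  simp [varW, ha, Wire.val, rst]

lemma orF_val {n K : ℕ} (x : Fin n → Bool) (v : Fin K → Bool) (w : Wire n K) :
    (Gate.or w (.const false)).val x v = w.val x v := by
  have h : (Wire.const false : Wire n K).val x v = false := rfl
  rw [Gate.val, h, Bool.or_false]

lemma toGate_val {n K : ℕ} (X : ℕ → Bool) (s : ℕ → Bool) (v : Fin K → Bool)
    (hv : ∀ g : Fin K, v g = s g.val) (i : Ins) (hi : i.ok K n) (g : ℕ) (hg : g < K) :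
    (i.toGate n K g).val (rst n X) v = step X s i g := by
  cases i with
  | var d p =>
    obtain ⟨h1, h2⟩ := hi
    by_cases h : g = d
    · subst h
      rw [Ins.toGate, if_pos rfl, orF_val, varW_val X v p h2]
      simp [step, Ins.dst, Ins.val]
    · rw [Ins.toGate, if_neg h, orF_val, regW_val (rst n X) s v hv g hg]
      simp [step, Ins.dst, h]
  | cst d b =>
    by_cases h : g = d
    · subst h
      rw [Ins.toGate, if_pos rfl, orF_val]
      simp [step, Ins.dst, Ins.val, Wire.val]
    · rw [Ins.toGate, if_neg h, orF_val, regW_val (rst n X) s v hv g hg]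
      simp [step, Ins.dst, h]
  | and d a b =>
    obtain ⟨h1, h2, h3⟩ := hi
    by_cases h : g = d
    · subst h
      rw [Ins.toGate, if_pos rfl, Gate.val, regW_val (rst n X) s v hv a h2,
        regW_val (rst n X) s v hv b h3]
      simp [step, Ins.dst, Ins.val]
    · rw [Ins.toGate, if_neg h, orF_val, regW_val (rst n X) s v hv g hg]
      simp [step, Ins.dst, h]
  | or d a b =>
    obtain ⟨h1, h2, h3⟩ := hi
    by_cases h : g = d
    · subst h
      rw [Ins.toGate, if_pos rfl, Gate.val, regW_val (rst n X) s v hv a h2,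
        regW_val (rst n X) s v hv b h3]
      simp [step, Ins.dst, Ins.val]
    · rw [Ins.toGate, if_neg h, orF_val, regW_val (rst n X) s v hv g hg]
      simp [step, Ins.dst, h]
  | not d a =>
    obtain ⟨h1, h2⟩ := hi
    by_cases h : g = d
    · subst h
      rw [Ins.toGate, if_pos rfl, Gate.val, regW_val (rst n X) s v hv a h2]
      simp [step, Ins.dst, Ins.val]
    · rw [Ins.toGate, if_neg h, orF_val, regW_val (rst n X) s v hv g hg]
      simp [step, Ins.dst, h]

lemma toLayered_val {n K : ℕ} (P : List Ins) (hP : ∀ i ∈ P, i.ok K n) (o : Fin K)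
    (X : ℕ → Bool) : ∀ j, j ≤ P.length → ∀ g : Fin K,
      (toLayered n K P o).val (rst n X) (j + 1) g = run X (fun _ => false) (P.take j) g.val := by
  intro j
  induction j with
  | zero =>
    intro _ g
    simp [Layered.val, toLayered, gts, Gate.val, Wire.val, run]
  | succ j ih =>
    intro hj g
    have hj' : j < P.length := by omega
    have h1 : P.getD j (.cst 0 false) = P[j] := by simp [List.getD, hj']
    have h2 : P.take (j + 1) = P.take j ++ [P[j]] := by
      simp [List.take_append_getElem]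
    rw [h2, run_append, run_cons, run_nil]
    have h3 := toGate_val (n := n) (K := K) X (run X (fun _ => false) (P.take j))
      ((toLayered n K P o).val (rst n X) (j + 1)) (ih (by omega)) P[j]
      (hP _ (List.getElem_mem _)) g.val g.isLt
    rw [← h3, ← h1]
    rfl

lemma toLayered_eval {n K : ℕ} (P : List Ins) (hP : ∀ i ∈ P, i.ok K n) (o : Fin K)
    (X : ℕ → Bool) : (toLayered n K P o).eval (rst n X) = run X (fun _ => false) P o.val := by
  have h := toLayered_val P hP o X P.length le_rfl o
  rw [List.take_length] at h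
  exact h

lemma toLayered_size {n K : ℕ} (P : List Ins) (o : Fin K) :
    (toLayered n K P o).size = (P.length + 1) * K := by
  have : (toLayered n K P o).size = ∑ j ∈ range (P.length + 1), K := rfl
  rw [this]
  simp

lemma toLayered_maxWidth {n K : ℕ} (P : List Ins) (o : Fin K) :
    (toLayered n K P o).maxWidth ≤ K := by
  apply Finset.sup_le
  intro j _
  exact le_refl K

lemma toGate_isNot {n K g : ℕ} {i : Ins} (h : (i.toGate n K g).isNot = true) :
    g = i.dst ∧ i.isNot = true := by
  cases i with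
  | var d p => by_cases hd : g = d <;> simp [Ins.toGate, hd, Gate.isNot] at h
  | cst d b => by_cases hd : g = d <;> simp [Ins.toGate, hd, Gate.isNot] at h
  | and d a b => by_cases hd : g = d <;> simp [Ins.toGate, hd, Gate.isNot] at h
  | or d a b => by_cases hd : g = d <;> simp [Ins.toGate, hd, Gate.isNot] at h
  | not d a =>
    by_cases hd : g = d
    · exact ⟨hd, rfl⟩
    · simp [Ins.toGate, hd, Gate.isNot] at h

lemma sum_isNot (P : List Ins) :
    ∑ j ∈ range P.length, (if (P.getD j (.cst 0 false)).isNot = true then 1 else 0)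
      = P.countP Ins.isNot := by
  induction P with
  | nil => simp
  | cons a P ih =>
    rw [List.length_cons, Finset.sum_range_succ', List.countP_cons]
    simp only [List.getD_cons_succ, List.getD_cons_zero]
    rw [ih]

lemma toLayered_negations {n K : ℕ} (P : List Ins) (o : Fin K) :
    (toLayered n K P o).negations ≤ P.countP Ins.isNot := by
  classical
  have h0 : (toLayered n K P o).negations
      = ∑ j ∈ range (P.length + 1),
        (univ.filter (fun g : Fin (wid K (j + 1)) => (gts n K P j g).isNot = true)).card := rfl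
  rw [h0, Finset.sum_range_succ', ← sum_isNot]
  have h1 : (univ.filter (fun g : Fin (wid K (0 + 1)) => (gts n K P 0 g).isNot = true)).card
      = 0 := by
    rw [Finset.card_eq_zero, Finset.filter_eq_empty_iff]
    intro g _
    simp [gts, Gate.isNot]
  rw [h1, add_zero]
  apply Finset.sum_le_sum
  intro j hj
  by_cases hn : (P.getD j (.cst 0 false)).isNot = true
  · rw [if_pos hn]
    apply Finset.card_le_one.mpr
    intro g hg g' hg'
    have e1 := toGate_isNot (n := n) (K := K) (g := g.val) (Finset.mem_filter.mp hg).2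
    have e2 := toGate_isNot (n := n) (K := K) (g := g'.val) (Finset.mem_filter.mp hg').2
    exact Fin.ext (e1.1.trans e2.1.symm)
  · rw [if_neg hn, Nat.le_zero, Finset.card_eq_zero, Finset.filter_eq_empty_iff]
    intro g _ hg
    exact hn (toGate_isNot (n := n) (K := K) (g := g.val) hg).2

/-! ## Lifting through one multiplexer -/

/-- lift of an instruction -/
def lift (K : ℕ) : Ins → List Ins
  | .var d p => [.var K (2 * p + 1), .and K K (K + 1), .var d (2 * p + 2), .or d d K]
  | .cst d b => [.cst d b]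
  | .and d a b => [.and d a b]
  | .or d a b => [.or d a b]
  | .not d a => [.not d a]

/-- lift of a program -/
def liftP (K : ℕ) (P : List Ins) : List Ins :=
  [.var (K + 1) 0, .not (K + 1) (K + 1)] ++ P.flatMap (lift K)

lemma lift_run (K M : ℕ) (X : ℕ → Bool) (i : Ins) (hi : i.ok K M) (s s' : ℕ → Bool)
    (hs : ∀ g, g < K → s g = s' g) (hν : s (K + 1) = !(X 0)) :
    (∀ g, g < K → run X s (lift K i) g = step (mux X) s' i g) ∧
      run X s (lift K i) (K + 1) = !(X 0) := by
  cases i with
  | var d p =>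
    obtain ⟨h1, h2⟩ := hi
    constructor
    · intro g hg
      by_cases h : g = d
      · subst h
        have e1 : K ≠ g := by omega
        simp [lift, run, step, Ins.dst, Ins.val, hν, mux, e1]
        cases X (2 * p + 1) <;> cases X 0 <;> cases X (2 * p + 2) <;> rfl
      · have e1 : g ≠ K := by omega
        simp [lift, run, step, Ins.dst, Ins.val, Function.update_apply, h, e1, hs g hg]
    · have e1 : K + 1 ≠ d := by omega
      simp [lift, run, step, Ins.dst, Ins.val, e1, hν]
  | cst d b =>
    have h1 : d < K := hi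
    constructor
    · intro g hg
      by_cases h : g = d
      · simp [lift, run, step, Ins.dst, Ins.val, h]
      · simp [lift, run, step, Ins.dst, Ins.val, h, hs g hg]
    · have e1 : K + 1 ≠ d := by omega
      simp [lift, run, step, Ins.dst, Ins.val, e1, hν]
  | and d a b =>
    obtain ⟨h1, h2, h3⟩ := hi
    constructor
    · intro g hg
      by_cases h : g = d
      · simp [lift, run, step, Ins.dst, Ins.val, h, hs a h2, hs b h3]
      · simp [lift, run, step, Ins.dst, Ins.val, h, hs g hg]
    · have e1 : K + 1 ≠ d := by omega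
      simp [lift, run, step, Ins.dst, Ins.val, e1, hν]
  | or d a b =>
    obtain ⟨h1, h2, h3⟩ := hi
    constructor
    · intro g hg
      by_cases h : g = d
      · simp [lift, run, step, Ins.dst, Ins.val, h, hs a h2, hs b h3]
      · simp [lift, run, step, Ins.dst, Ins.val, h, hs g hg]
    · have e1 : K + 1 ≠ d := by omega
      simp [lift, run, step, Ins.dst, Ins.val, e1, hν]
  | not d a =>
    obtain ⟨h1, h2⟩ := hi
    constructor
    · intro g hg
      by_cases h : g = d
      · simp [lift, run, step, Ins.dst, Ins.val, h, hs a h2]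
      · simp [lift, run, step, Ins.dst, Ins.val, h, hs g hg]
    · have e1 : K + 1 ≠ d := by omega
      simp [lift, run, step, Ins.dst, Ins.val, e1, hν]

lemma lift_flatMap_run (K M : ℕ) (X : ℕ → Bool) (P : List Ins) : (∀ i ∈ P, i.ok K M) →
    ∀ s s' : ℕ → Bool, (∀ g, g < K → s g = s' g) → s (K + 1) = !(X 0) →
    ∀ g, g < K → run X s (P.flatMap (lift K)) g = run (mux X) s' P g := by
  induction P with
  | nil =>
    intro _ s s' hs _ g hg
    simpa [run] using hs g hg
  | cons i P ih =>
    intro hP s s' hs hν g hg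
    rw [List.flatMap_cons, run_append, run_cons]
    have h1 := lift_run K M X i (hP i (List.mem_cons_self)) s s' hs hν
    exact ih (fun i hi => hP i (List.mem_cons_of_mem _ hi)) _ _ h1.1 h1.2 g hg

lemma liftP_run (K M : ℕ) (X : ℕ → Bool) (P : List Ins) (hP : ∀ i ∈ P, i.ok K M)
    (s : ℕ → Bool) (g : ℕ) (hg : g < K) :
    run X s (liftP K P) g = run (mux X) s P g := by
  rw [liftP, run_append]
  apply lift_flatMap_run K M X P hP
  · intro g hg
    have e1 : g ≠ K + 1 := by omega
    simp [run, step, Ins.dst, e1]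
  · simp [run, step, Ins.dst, Ins.val]
  · exact hg

lemma lift_ok (K M : ℕ) (i : Ins) (hi : i.ok K M) : ∀ i' ∈ lift K i, i'.ok (K + 2) (2 * M + 1) := by
  intro i' hi'
  cases i with
  | var d p =>
    obtain ⟨h1, h2⟩ := hi
    simp only [lift, List.mem_cons, List.not_mem_nil, or_false] at hi'
    rcases hi' with rfl | rfl | rfl | rfl <;> simp only [Ins.ok] <;> omega
  | cst d b =>
    have h1 : d < K := hi
    simp only [lift, List.mem_cons, List.not_mem_nil, or_false] at hi'
    subst hi'
    simp only [Ins.ok]; omega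
  | and d a b =>
    obtain ⟨h1, h2, h3⟩ := hi
    simp only [lift, List.mem_cons, List.not_mem_nil, or_false] at hi'
    subst hi'
    simp only [Ins.ok]; omega
  | or d a b =>
    obtain ⟨h1, h2, h3⟩ := hi
    simp only [lift, List.mem_cons, List.not_mem_nil, or_false] at hi'
    subst hi'
    simp only [Ins.ok]; omega
  | not d a =>
    obtain ⟨h1, h2⟩ := hi
    simp only [lift, List.mem_cons, List.not_mem_nil, or_false] at hi'
    subst hi'
    simp only [Ins.ok]; omega

lemma liftP_ok (K M : ℕ) (P : List Ins) (hP : ∀ i ∈ P, i.ok K M) :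
    ∀ i ∈ liftP K P, i.ok (K + 2) (2 * M + 1) := by
  intro i hi
  simp only [liftP, List.mem_append, List.mem_cons, List.not_mem_nil, or_false,
    List.mem_flatMap] at hi
  rcases hi with (rfl | rfl) | ⟨i', hi', hi⟩
  · simp only [Ins.ok]; omega
  · simp only [Ins.ok]; omega
  · exact lift_ok K M i' (hP i' hi') i hi

lemma lift_length (K : ℕ) (i : Ins) : (lift K i).length ≤ 4 := by
  cases i <;> simp [lift]

lemma lift_countP (K : ℕ) (i : Ins) :
    (lift K i).countP Ins.isNot = (if i.isNot = true then 1 else 0) := by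
  cases i <;> simp [lift, Ins.isNot]

lemma liftP_length (K : ℕ) (P : List Ins) : (liftP K P).length + 1 ≤ 4 * (P.length + 1) := by
  have h : (P.flatMap (lift K)).length ≤ 4 * P.length := by
    induction P with
    | nil => simp
    | cons i P ih =>
      rw [List.flatMap_cons, List.length_append, List.length_cons]
      have := lift_length K i
      omega
  rw [liftP, List.length_append]
  simp only [List.length_cons, List.length_nil]
  omega

lemma liftP_countP (K : ℕ) (P : List Ins) :
    (liftP K P).countP Ins.isNot = P.countP Ins.isNot + 1 := by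
  have h : (P.flatMap (lift K)).countP Ins.isNot = P.countP Ins.isNot := by
    induction P with
    | nil => simp
    | cons i P ih =>
      rw [List.flatMap_cons, List.countP_append, List.countP_cons, lift_countP, ih]
      omega
  rw [liftP, List.countP_append, h]
  have e : List.countP Ins.isNot [Ins.var (K + 1) 0, Ins.not (K + 1) (K + 1)] = 1 := by
    simp [Ins.isNot]
  rw [e]
  omega

/-- iterated lifting -/
lemma iter_lift (r : ℕ) : ∀ (K M : ℕ) (P : List Ins), (∀ i ∈ P, i.ok K M) →
    ∃ Q : List Ins, (∀ i ∈ Q, i.ok (K + 2 * r) (2 ^ r * (M + 1) - 1)) ∧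
      (∀ X s g, g < K → run X s Q g = run (mux^[r] X) s P g) ∧
      Q.length + 1 ≤ 4 ^ r * (P.length + 1) ∧
      Q.countP Ins.isNot = P.countP Ins.isNot + r := by
  induction r with
  | zero =>
    intro K M P hP
    exact ⟨P, by simpa using hP, fun X s g _ => rfl, by simp, rfl⟩
  | succ r ih =>
    intro K M P hP
    obtain ⟨Q, h1, h2, h3, h4⟩ := ih (K + 2) (2 * M + 1) (liftP K P) (liftP_ok K M P hP)
    refine ⟨Q, ?_, ?_, ?_, ?_⟩
    · have e1 : K + 2 + 2 * r = K + 2 * (r + 1) := by ring
      have e2 : 2 ^ r * (2 * M + 1 + 1) - 1 = 2 ^ (r + 1) * (M + 1) - 1 := by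
        congr 1
        ring
      rw [e1, e2] at h1
      exact h1
    · intro X s g hg
      rw [h2 X s g (by omega), liftP_run K M _ P hP s g hg, Function.iterate_succ_apply']
    · calc Q.length + 1 ≤ 4 ^ r * ((liftP K P).length + 1) := h3
        _ ≤ 4 ^ r * (4 * (P.length + 1)) := Nat.mul_le_mul_left _ (liftP_length K P)
        _ = 4 ^ (r + 1) * (P.length + 1) := by ring
    · rw [h4, liftP_countP]
      ring

/-! ## Monotone layered circuits to programs -/

open MonotoneSeparation in
/-- load a wire of a circuit into register `t`; register `c + g` holds the value of gate `g` -/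
def loadW {m k : ℕ} (c t : ℕ) : MonotoneSeparation.Wire m k → Ins
  | .const b => .cst t b
  | .var i => .var t i.val
  | .gate g => .or t (c + g.val) (c + g.val)

/-- compute gate `G` into register `d` -/
def gateP {m k : ℕ} (W c d : ℕ) (G : MonotoneSeparation.Gate m k) : List Ins :=
  [loadW c (2 * W) G.left, loadW c (2 * W + 1) G.right,
    if G.isAnd then .and d (2 * W) (2 * W + 1) else .or d (2 * W) (2 * W + 1)]

lemma gateP_run {m k : ℕ} (W c d : ℕ) (G : MonotoneSeparation.Gate m k) (hc : c + k ≤ 2 * W)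
    (_hd : d < 2 * W) (X s : ℕ → Bool) (v : Fin k → Bool)
    (hv : ∀ g : Fin k, s (c + g.val) = v g) :
    run X s (gateP W c d G) d = G.val (rst m X) v ∧
      ∀ g, g < 2 * W → g ≠ d → run X s (gateP W c d G) g = s g := by
  have h1 : step X s (loadW c (2 * W) G.left) (2 * W) = G.left.val (rst m X) v := by
    cases hG : G.left with
    | const b => simp [loadW, step, Ins.dst, Ins.val, MonotoneSeparation.Wire.val]
    | var i => simp [loadW, step, Ins.dst, Ins.val, MonotoneSeparation.Wire.val, rst]
    | gate g => simp [loadW, step, Ins.dst, Ins.val, MonotoneSeparation.Wire.val, hv]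
  have h1' : ∀ g, g ≠ 2 * W → step X s (loadW c (2 * W) G.left) g = s g := by
    intro g hg
    cases hG : G.left with
    | const b => simp [loadW, step, Ins.dst, hg]
    | var i => simp [loadW, step, Ins.dst, hg]
    | gate g => simp [loadW, step, Ins.dst, hg]
  set s1 := step X s (loadW c (2 * W) G.left) with hs1
  have h2 : step X s1 (loadW c (2 * W + 1) G.right) (2 * W + 1) = G.right.val (rst m X) v := by
    cases hG : G.right with
    | const b => simp [loadW, step, Ins.dst, Ins.val, MonotoneSeparation.Wire.val]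
    | var i => simp [loadW, step, Ins.dst, Ins.val, MonotoneSeparation.Wire.val, rst]
    | gate g =>
      have e : s1 (c + g.val) = v g := by
        rw [h1' _ (by have := g.isLt; omega), hv]
      simp [loadW, step, Ins.dst, Ins.val, MonotoneSeparation.Wire.val, e]
  have h2' : ∀ g, g ≠ 2 * W + 1 → step X s1 (loadW c (2 * W + 1) G.right) g = s1 g := by
    intro g hg
    cases hG : G.right with
    | const b => simp [loadW, step, Ins.dst, hg]
    | var i => simp [loadW, step, Ins.dst, hg]
    | gate g => simp [loadW, step, Ins.dst, hg]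
  set s2 := step X s1 (loadW c (2 * W + 1) G.right) with hs2
  have e1 : s2 (2 * W) = G.left.val (rst m X) v := by
    rw [h2' _ (by omega), h1]
  have hrun : run X s (gateP W c d G)
      = step X s2 (if G.isAnd then .and d (2 * W) (2 * W + 1) else .or d (2 * W) (2 * W + 1)) := by
    rw [gateP, run_cons, run_cons, run_cons, run_nil, ← hs1, ← hs2]
  rw [hrun]
  constructor
  · by_cases hA : G.isAnd = true
    · simp [hA, step, Ins.dst, Ins.val, MonotoneSeparation.Gate.val, e1, h2]
    · simp [hA, step, Ins.dst, Ins.val, MonotoneSeparation.Gate.val, e1, h2]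
  · intro g hg hgd
    have e3 : s2 g = s g := by rw [h2' _ (by omega), h1' _ (by omega)]
    by_cases hA : G.isAnd = true
    · simp [hA, step, Ins.dst, hgd, e3]
    · simp [hA, step, Ins.dst, hgd, e3]

lemma gateP_ok {m k : ℕ} (W c d : ℕ) (G : MonotoneSeparation.Gate m k) (hc : c + k ≤ 2 * W)
    (hd : d < 2 * W) : ∀ i ∈ gateP W c d G, i.ok (2 * W + 2) m ∧ i.isNot = false := by
  have hl : ∀ t, t < 2 * W + 2 → ∀ w : MonotoneSeparation.Wire m k,
      (loadW c t w).ok (2 * W + 2) m ∧ (loadW c t w).isNot = false := by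
    intro t ht w
    cases w with
    | const b => exact ⟨ht, rfl⟩
    | var i => exact ⟨⟨ht, i.isLt⟩, rfl⟩
    | gate g =>
      have := g.isLt
      exact ⟨⟨ht, by omega, by omega⟩, rfl⟩
  intro i hi
  simp only [gateP, List.mem_cons, List.not_mem_nil, or_false] at hi
  rcases hi with rfl | rfl | rfl
  · exact hl _ (by omega) _
  · exact hl _ (by omega) _
  · by_cases hA : G.isAnd = true
    · rw [if_pos hA]
      exact ⟨⟨by omega, by omega, by omega⟩, rfl⟩
    · rw [if_neg hA]
      exact ⟨⟨by omega, by omega, by omega⟩, rfl⟩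

section Prog

variable {m : ℕ} (D : MonotoneSeparation.MonLayered m) (W : ℕ)

/-- the beginning of the bank of layer `j` -/
def bk (W j : ℕ) : ℕ := (j % 2) * W

/-- the program for the gates `g ∈ l` of layer `j + 1` -/
def layerP (j : ℕ) (l : List (Fin (D.width (j + 1)))) : List Ins :=
  l.flatMap (fun g => gateP W (bk W j) (bk W (j + 1) + g.val) (D.gate j g))

/-- the program for the first `j` layers -/
def progP : ℕ → List Ins
  | 0 => []
  | j + 1 => progP j ++ layerP D W j (List.finRange (D.width (j + 1)))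

lemma bk_lt (j g w : ℕ) (hg : g < w) (hw : w ≤ W) : bk W j + g < 2 * W := by
  unfold bk
  have : j % 2 < 2 := Nat.mod_lt _ (by norm_num)
  interval_cases (j % 2) <;> omega

lemma bk_le (j w : ℕ) (hw : w ≤ W) : bk W j + w ≤ 2 * W := by
  unfold bk
  have : j % 2 < 2 := Nat.mod_lt _ (by norm_num)
  interval_cases (j % 2) <;> omega

lemma bk_ne (j g g' : ℕ) (hg : g < W) (hg' : g' < W) : bk W j + g ≠ bk W (j + 1) + g' := by
  unfold bk
  rcases Nat.mod_two_eq_zero_or_one j with h | h
  · have h' : (j + 1) % 2 = 1 := by omega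
    rw [h, h']; omega
  · have h' : (j + 1) % 2 = 0 := by omega
    rw [h, h']; omega

lemma layerP_run (j : ℕ) (hw : D.width j ≤ W) (hw' : D.width (j + 1) ≤ W) (X : ℕ → Bool)
    (l : List (Fin (D.width (j + 1)))) : ∀ s : ℕ → Bool,
    (∀ g : Fin (D.width j), s (bk W j + g.val) = D.val (rst m X) j g) →
    (∀ g : Fin (D.width j), run X s (layerP D W j l) (bk W j + g.val) = D.val (rst m X) j g) ∧
    (∀ g : Fin (D.width (j + 1)), g ∈ l ∨ s (bk W (j + 1) + g.val) = D.val (rst m X) (j + 1) g →
      run X s (layerP D W j l) (bk W (j + 1) + g.val) = D.val (rst m X) (j + 1) g) := by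
  induction l with
  | nil =>
    intro s hs
    refine ⟨hs, fun g hg => ?_⟩
    rcases hg with hg | hg
    · simp at hg
    · exact hg
  | cons a l ih =>
    intro s hs
    have h1 := gateP_run (k := D.width j) W (bk W j) (bk W (j + 1) + a.val) (D.gate j a)
      (bk_le W j _ hw) (bk_lt W (j + 1) a.val _ a.isLt hw') X s (D.val (rst m X) j) hs
    have h2 := ih (run X s (gateP W (bk W j) (bk W (j + 1) + a.val) (D.gate j a))) (by
      intro g
      rw [h1.2 _ (bk_lt W j g.val _ g.isLt hw)
        (bk_ne W j g.val a.val (lt_of_lt_of_le g.isLt hw) (lt_of_lt_of_le a.isLt hw')), hs])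
    have e : run X s (layerP D W j (a :: l))
        = run X (run X s (gateP W (bk W j) (bk W (j + 1) + a.val) (D.gate j a)))
          (layerP D W j l) := by
      rw [layerP, List.flatMap_cons, run_append]
      rfl
    rw [e]
    refine ⟨h2.1, fun g hg => h2.2 g ?_⟩
    by_cases hga : g = a
    · right
      subst hga
      exact h1.1
    · rcases hg with hg | hg
      · left
        rcases List.mem_cons.mp hg with h | h
        · exact absurd h hga
        · exact h
      · right
        rw [h1.2 _ (bk_lt W (j + 1) g.val _ g.isLt hw') (by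
          intro h
          exact hga (Fin.ext (by omega)))]
        exact hg

lemma progP_run (X : ℕ → Bool) (s : ℕ → Bool) : ∀ j, (∀ i, i ≤ j → D.width i ≤ W) →
    ∀ g : Fin (D.width j), run X s (progP D W j) (bk W j + g.val) = D.val (rst m X) j g := by
  intro j
  induction j with
  | zero =>
    intro _ g
    exact Fin.elim0 (Fin.cast D.width_zero g)
  | succ j ih =>
    intro hw g
    rw [progP, run_append]
    exact (layerP_run D W j (hw j (by omega)) (hw (j + 1) le_rfl) X _ _
      (ih (fun i hi => hw i (by omega)))).2 g (Or.inl (List.mem_finRange g))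

lemma progP_ok : ∀ j, (∀ i, i ≤ j → D.width i ≤ W) →
    ∀ i ∈ progP D W j, i.ok (2 * W + 2) m ∧ i.isNot = false := by
  intro j
  induction j with
  | zero => intro _ i hi; simp [progP] at hi
  | succ j ih =>
    intro hw i hi
    rw [progP, List.mem_append] at hi
    rcases hi with hi | hi
    · exact ih (fun i hi => hw i (by omega)) i hi
    · rw [layerP, List.mem_flatMap] at hi
      obtain ⟨g, _, hi⟩ := hi
      exact gateP_ok W (bk W j) (bk W (j + 1) + g.val) (D.gate j g)
        (bk_le W j _ (hw j (by omega))) (bk_lt W (j + 1) g.val _ g.isLt (hw (j + 1) le_rfl)) i hi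

lemma layerP_length (j : ℕ) (l : List (Fin (D.width (j + 1)))) :
    (layerP D W j l).length = 3 * l.length := by
  induction l with
  | nil => simp [layerP]
  | cons a l ih =>
    have e : layerP D W j (a :: l) = gateP W (bk W j) (bk W (j + 1) + a.val) (D.gate j a)
        ++ layerP D W j l := rfl
    rw [e, List.length_append, ih, List.length_cons]
    have : (gateP W (bk W j) (bk W (j + 1) + a.val) (D.gate j a)).length = 3 := rfl
    rw [this]
    ring

lemma progP_length (j : ℕ) :
    (progP D W j).length = 3 * ∑ i ∈ range j, D.width (i + 1) := by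
  induction j with
  | zero => simp [progP]
  | succ j ih =>
    rw [progP, List.length_append, ih, layerP_length, Finset.sum_range_succ, List.length_finRange]
    ring

end Prog

end SCup

open SCup in
theorem sc_up : Stmt_SCup := by
  refine ⟨6, ?_⟩
  intro m r n hn D
  set W := D.maxWidth with hW
  have hw : ∀ i, i ≤ D.layers → D.width i ≤ W := by
    intro i hi
    rcases i with _ | i
    · rw [D.width_zero]; exact Nat.zero_le _
    · exact Finset.le_sup (f := fun j => D.width (j + 1)) (Finset.mem_range.mpr (by omega))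
  have hok := progP_ok D W D.layers hw
  obtain ⟨Q, h1, h2, h3, h4⟩ := iter_lift r (2 * W + 2) m (progP D W D.layers)
    (fun i hi => (hok i hi).1)
  have hcount : (progP D W D.layers).countP Ins.isNot = 0 := by
    rw [List.countP_eq_zero]
    intro i hi
    rw [(hok i hi).2]
    simp
  have hQ : ∀ i ∈ Q, i.ok (2 * W + 2 + 2 * r) n := by
    intro i hi
    have h := h1 i hi
    have hle : 2 ^ r * (m + 1) - 1 ≤ n := by omega
    cases i with
    | var d p => exact ⟨h.1, lt_of_lt_of_le h.2 hle⟩
    | cst d b => exact h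
    | and d a b => exact h
    | or d a b => exact h
    | not d a => exact h
  have ho : bk W D.layers + D.out.val < 2 * W :=
    bk_lt W D.layers D.out.val _ D.out.isLt (hw _ le_rfl)
  refine ⟨toLayered n (2 * W + 2 + 2 * r) Q ⟨bk W D.layers + D.out.val, by omega⟩, ?_, ?_, ?_, ?_⟩
  · intro X
    rw [toLayered_eval Q hQ]
    rw [h2 X _ _ (by simp only; omega)]
    exact progP_run D W (mux^[r] X) _ D.layers hw D.out
  · rw [toLayered_size]
    have e1 : (progP D W D.layers).length = 3 * D.size := progP_length D W D.layers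
    rw [e1] at h3
    calc (Q.length + 1) * (2 * W + 2 + 2 * r)
        ≤ (4 ^ r * (3 * D.size + 1)) * (2 * W + 2 + 2 * r) := Nat.mul_le_mul_right _ h3
      _ ≤ (4 ^ r * (3 * (D.size + 1))) * (2 * (W + r + 1)) := by
          apply Nat.mul_le_mul
          · exact Nat.mul_le_mul_left _ (by omega)
          · omega
      _ = 6 * 4 ^ r * (D.size + 1) * (W + r + 1) := by ring
  · refine le_trans (toLayered_maxWidth Q _) ?_
    omega
  · refine le_trans (toLayered_negations Q _) ?_
    rw [h4, hcount]
    omega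

/-! ## Assembly -/

/-! ### Bounds -/

lemma polyBounded_of {s : ℕ → ℕ} (c : ℕ) (h : ∀ n, s n ≤ (n + 2) ^ c) : PolyBounded s :=
  ⟨3 ^ c, c, fun n => le_trans (h n) (StConnectivity.add_two_pow_le n c)⟩

lemma polylogBounded_of {s : ℕ → ℕ} (c : ℕ) (h : ∀ n, s n ≤ (Nat.log 2 n + 2) ^ c) :
    PolylogBounded s :=
  ⟨3 ^ c, c, fun n => le_trans (h n) (StConnectivity.add_two_pow_le _ c)⟩

lemma bound_aux (a c t : ℕ) : a * t ^ c + a ≤ (t + 2) ^ (a + 1 + c) := by
  have h1 : a ≤ 2 ^ a := (Nat.lt_two_pow_self).le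
  have h2 : 2 ^ (a + 1) ≤ (t + 2) ^ (a + 1) := Nat.pow_le_pow_left (by omega) _
  have h3 : t ^ c ≤ (t + 2) ^ c := Nat.pow_le_pow_left (by omega) _
  have h4 : 1 ≤ (t + 2) ^ c := Nat.one_le_pow _ _ (by omega)
  calc a * t ^ c + a = a * t ^ c + a * 1 := by rw [mul_one]
    _ ≤ 2 ^ a * (t + 2) ^ c + 2 ^ a * (t + 2) ^ c :=
        Nat.add_le_add (Nat.mul_le_mul h1 h3) (Nat.mul_le_mul h1 h4)
    _ = 2 ^ (a + 1) * (t + 2) ^ c := by rw [pow_succ]; ring
    _ ≤ (t + 2) ^ (a + 1) * (t + 2) ^ c := Nat.mul_le_mul_right _ h2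
    _ = _ := (pow_add _ _ _).symm

/-- the level of the multiplexer -/
def jj (r : ℕ → ℕ) (n : ℕ) : ℕ := min (r n) (Nat.log 2 (n + 1))

/-- the number of variables of the inner function -/
def mm (r : ℕ → ℕ) (n : ℕ) : ℕ := (n + 1) / 2 ^ (jj r n) - 1

lemma jj_pow (r : ℕ → ℕ) (n : ℕ) : 2 ^ (jj r n) ≤ n + 1 :=
  le_trans (Nat.pow_le_pow_right (by norm_num) (min_le_right _ _))
    (Nat.pow_log_le_self 2 (Nat.succ_ne_zero n))

lemma mm_spec (r : ℕ → ℕ) (n : ℕ) : 2 ^ (jj r n) * (mm r n + 1) ≤ n + 1 := by
  have h1 : 1 ≤ (n + 1) / 2 ^ (jj r n) := Nat.div_pos (jj_pow r n) (by positivity)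
  have h2 : mm r n + 1 = (n + 1) / 2 ^ (jj r n) := by unfold mm; omega
  rw [h2]
  exact Nat.mul_div_le _ _

lemma mm_le (r : ℕ → ℕ) (n : ℕ) : mm r n ≤ n := by
  have h1 := mm_spec r n
  have h2 : 1 * (mm r n + 1) ≤ 2 ^ (jj r n) * (mm r n + 1) :=
    Nat.mul_le_mul_right _ (Nat.one_le_two_pow)
  omega

lemma jj_le (r : ℕ → ℕ) (n : ℕ) : jj r n ≤ Nat.log 2 n + 1 := by
  refine le_trans (min_le_right _ _) ?_
  have h1 : n + 1 < 2 ^ (Nat.log 2 n + 2) := by
    have : n < 2 ^ (Nat.log 2 n + 1) := Nat.lt_pow_succ_log_self (by norm_num) n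
    have e : 2 ^ (Nat.log 2 n + 2) = 2 * 2 ^ (Nat.log 2 n + 1) := by rw [← pow_succ']
    have h2 : 1 ≤ 2 ^ (Nat.log 2 n + 1) := Nat.one_le_two_pow
    omega
  have := Nat.log_lt_of_lt_pow (by omega : n + 1 ≠ 0) h1
  omega

/-- the function: the function `f` applied to the selected variables -/
def lift (f : (n : ℕ) → (Fin n → Bool) → Bool) (r : ℕ → ℕ) (n : ℕ) (x : Fin n → Bool) : Bool :=
  f (mm r n) (rst (mm r n) (mux^[jj r n] (ext x)))

lemma mux_congr (T : ℕ) (X X' : ℕ → Bool) (h : ∀ p, p + 1 < 2 * T → X p = X' p) (p : ℕ)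
    (hp : p + 1 < T) : mux X p = mux X' p := by
  unfold mux
  rw [h (2 * p + 1) (by omega), h 0 (by omega), h (2 * p + 2) (by omega)]

lemma muxit_congr (m j : ℕ) : ∀ (X X' : ℕ → Bool),
    (∀ p, p + 1 < 2 ^ j * (m + 1) → X p = X' p) → ∀ p, p < m → (mux^[j] X) p = (mux^[j] X') p := by
  induction j with
  | zero =>
    intro X X' h p hp
    exact h p (by simpa using hp)
  | succ j ih =>
    intro X X' h p hp
    rw [Function.iterate_succ_apply, Function.iterate_succ_apply]
    refine ih _ _ (fun q hq => mux_congr (2 ^ j * (m + 1)) X X' (fun p hp => h p ?_) q hq) p hp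
    have e : 2 ^ (j + 1) * (m + 1) = 2 * (2 ^ j * (m + 1)) := by rw [pow_succ]; ring
    omega

lemma lift_spec (f : (n : ℕ) → (Fin n → Bool) → Bool) (r : ℕ → ℕ) (n : ℕ) (X : ℕ → Bool) :
    lift f r n (rst n X) = f (mm r n) (rst (mm r n) (mux^[jj r n] X)) := by
  unfold lift
  congr 1
  funext i
  refine muxit_congr (mm r n) (jj r n) _ _ (fun p hp => ?_) i.val i.isLt
  have h1 := mm_spec r n
  have h2 : p < n := by omega
  simp [ext, rst, h2]

/-! ### Membership -/

theorem lift_NC (r : ℕ → ℕ) (f : (n : ℕ) → (Fin n → Bool) → Bool) (hf : StConnectivity.MonNC f) :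
    NC r (lift f r) := by
  obtain ⟨D, hD, ⟨a, c, hs⟩, ⟨a', c', hd⟩⟩ := hf
  choose C hC1 hC2 hC3 hC4 using fun n => nc_up (mm r n) (jj r n) n (mm_spec r n) (D (mm r n))
  refine ⟨C, fun n x => ?_, ?_, ?_, fun n => le_trans (hC4 n) (min_le_left _ _)⟩
  · have h1 := hC1 n (ext x)
    rw [rst_ext] at h1
    rw [h1, hD]
    rfl
  · refine polyBounded_of (a + 1 + c + 4) (fun n => ?_)
    have h1 := hs (mm r n)
    simp only at h1
    have h2 := bound_aux a c (mm r n)
    have h3 : (mm r n + 2) ^ (a + 1 + c) ≤ (n + 2) ^ (a + 1 + c) :=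
      Nat.pow_le_pow_left (by have := mm_le r n; omega) _
    have h4 : 1 ≤ (n + 2) ^ (a + 1 + c) := Nat.one_le_pow _ _ (by omega)
    calc (C n).size ≤ (D (mm r n)).size + 4 * (n + 1) := hC2 n
      _ ≤ (n + 2) ^ (a + 1 + c) + 4 * (n + 1) := by omega
      _ ≤ (n + 2) ^ (a + 1 + c) * 1 + (n + 2) ^ (a + 1 + c) * (4 * (n + 1)) := by nlinarith
      _ = (n + 2) ^ (a + 1 + c) * (4 * n + 5) := by ring
      _ ≤ (n + 2) ^ (a + 1 + c) * (n + 2) ^ 4 := by
          apply Nat.mul_le_mul_left
          have hq : 4 * n + 4 ≤ (n + 2) * (n + 2) := by nlinarith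
          calc 4 * n + 5 ≤ 4 * (4 * n + 4) := by omega
            _ ≤ ((n + 2) * (n + 2)) * ((n + 2) * (n + 2)) := Nat.mul_le_mul (by omega) hq
            _ = (n + 2) ^ 4 := by ring
      _ = _ := by rw [← pow_add]
  · refine polylogBounded_of (a' + 1 + c' + 3) (fun n => ?_)
    have h1 := hd (mm r n)
    simp only at h1
    have h2 := bound_aux a' c' (Nat.log 2 (mm r n))
    have h3 : (Nat.log 2 (mm r n) + 2) ^ (a' + 1 + c') ≤ (Nat.log 2 n + 2) ^ (a' + 1 + c') :=
      Nat.pow_le_pow_left (by have := Nat.log_mono_right (b := 2) (mm_le r n); omega) _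
    have h4 : 1 ≤ (Nat.log 2 n + 2) ^ (a' + 1 + c') := Nat.one_le_pow _ _ (by omega)
    have h5 := jj_le r n
    set l := Nat.log 2 n with hl
    calc (C n).depth ≤ (D (mm r n)).depth + 3 * jj r n := hC3 n
      _ ≤ (l + 2) ^ (a' + 1 + c') + 3 * (l + 1) := by omega
      _ ≤ (l + 2) ^ (a' + 1 + c') * 1 + (l + 2) ^ (a' + 1 + c') * (3 * (l + 1)) := by nlinarith
      _ = (l + 2) ^ (a' + 1 + c') * (3 * l + 4) := by ring
      _ ≤ (l + 2) ^ (a' + 1 + c') * (l + 2) ^ 3 := by
          apply Nat.mul_le_mul_left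
          have : (l + 2) ^ 3 = (l + 2) * (l + 2) * (l + 2) := by ring
          rw [this]
          nlinarith
      _ = _ := by rw [← pow_add]

theorem lift_SC (hup : Stmt_SCup) (r : ℕ → ℕ) (f : (n : ℕ) → (Fin n → Bool) → Bool)
    (hf : MonotoneSeparation.MonSC f) : SC r (lift f r) := by
  obtain ⟨K, hup⟩ := hup
  obtain ⟨D, hD, ⟨a, c, hs⟩, ⟨a', c', hd⟩⟩ := hf
  choose C hC1 hC2 hC3 hC4 using fun n => hup (mm r n) (jj r n) n (mm_spec r n) (D (mm r n))
  -- the width factor
  have hw : ∀ n, K * ((D (mm r n)).maxWidth + jj r n + 1) ≤ (Nat.log 2 n + 2) ^ (K + (a' + 1 + c' + 2)) := by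
    intro n
    have h1 := hd (mm r n)
    simp only at h1
    have h2 := bound_aux a' c' (Nat.log 2 (mm r n))
    have h3 : (Nat.log 2 (mm r n) + 2) ^ (a' + 1 + c') ≤ (Nat.log 2 n + 2) ^ (a' + 1 + c') :=
      Nat.pow_le_pow_left (by have := Nat.log_mono_right (b := 2) (mm_le r n); omega) _
    have h4 : 1 ≤ (Nat.log 2 n + 2) ^ (a' + 1 + c') := Nat.one_le_pow _ _ (by omega)
    have h5 := jj_le r n
    set l := Nat.log 2 n with hl
    have hK : K ≤ (l + 2) ^ K := le_trans (Nat.lt_two_pow_self).le (Nat.pow_le_pow_left (by omega) _)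
    have h6 : (D (mm r n)).maxWidth + jj r n + 1 ≤ (l + 2) ^ (a' + 1 + c' + 2) := by
      calc _ ≤ (l + 2) ^ (a' + 1 + c') + (l + 2) := by omega
        _ ≤ (l + 2) ^ (a' + 1 + c') * 1 + (l + 2) ^ (a' + 1 + c') * (l + 2) := by nlinarith
        _ = (l + 2) ^ (a' + 1 + c') * (l + 3) := by ring
        _ ≤ (l + 2) ^ (a' + 1 + c') * (l + 2) ^ 2 := by
            apply Nat.mul_le_mul_left
            have : (l + 2) ^ 2 = (l + 2) * (l + 2) := by ring
            rw [this]
            nlinarith
        _ = _ := by rw [← pow_add]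
    calc _ ≤ (l + 2) ^ K * (l + 2) ^ (a' + 1 + c' + 2) := Nat.mul_le_mul hK h6
      _ = _ := by rw [← pow_add]
  refine ⟨C, fun n x => ?_, ?_, ?_, fun n => le_trans (hC4 n) (min_le_left _ _)⟩
  · have h1 := hC1 n (ext x)
    rw [rst_ext] at h1
    rw [h1, hD]
    rfl
  · refine polyBounded_of (2 + (a + 1 + c + 1) + (K + (a' + 1 + c' + 2))) (fun n => ?_)
    have h1 := hs (mm r n)
    simp only at h1
    have h2 := bound_aux a c (mm r n)
    have h3 : (mm r n + 2) ^ (a + 1 + c) ≤ (n + 2) ^ (a + 1 + c) :=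
      Nat.pow_le_pow_left (by have := mm_le r n; omega) _
    have h4 : 1 ≤ (n + 2) ^ (a + 1 + c) := Nat.one_le_pow _ _ (by omega)
    have h5 : (D (mm r n)).size + 1 ≤ (n + 2) ^ (a + 1 + c + 1) := by
      calc _ ≤ (n + 2) ^ (a + 1 + c) + (n + 2) ^ (a + 1 + c) := by omega
        _ = (n + 2) ^ (a + 1 + c) * 2 := by ring
        _ ≤ (n + 2) ^ (a + 1 + c) * (n + 2) := Nat.mul_le_mul_left _ (by omega)
        _ = _ := by rw [← pow_succ]
    have h6 : 4 ^ jj r n ≤ (n + 2) ^ 2 := by
      have e : 4 ^ jj r n = (2 ^ jj r n) ^ 2 := by rw [← pow_mul, mul_comm, pow_mul]; norm_num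
      rw [e]
      exact Nat.pow_le_pow_left (by have := jj_pow r n; omega) _
    have h7 : K * ((D (mm r n)).maxWidth + jj r n + 1) ≤ (n + 2) ^ (K + (a' + 1 + c' + 2)) :=
      le_trans (hw n) (Nat.pow_le_pow_left (by have := Nat.log_le_self 2 n; omega) _)
    calc (C n).size ≤ K * 4 ^ jj r n * ((D (mm r n)).size + 1) * ((D (mm r n)).maxWidth + jj r n + 1) :=
          hC2 n
      _ = 4 ^ jj r n * ((D (mm r n)).size + 1) * (K * ((D (mm r n)).maxWidth + jj r n + 1)) := by ring
      _ ≤ (n + 2) ^ 2 * (n + 2) ^ (a + 1 + c + 1) * (n + 2) ^ (K + (a' + 1 + c' + 2)) :=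
          Nat.mul_le_mul (Nat.mul_le_mul h6 h5) h7
      _ = _ := by rw [← pow_add, ← pow_add]
  · exact polylogBounded_of _ (fun n => le_trans (hC3 n) (hw n))

/-! ### Growth of the number of variables -/

theorem growth (r : ℕ → ℕ)
    (hr : Tendsto (fun n : ℕ => (Real.logb 2 n - r n) / Real.sqrt (Real.logb 2 n)) atTop atTop)
    (K : ℕ) : ∀ᶠ n in atTop, jj r n = r n ∧ K ≤ Nat.log 2 (mm r n) ∧
      K * (Nat.log 2 n + 1) ≤ (Nat.log 2 (mm r n)) ^ 2 := by
  have hlog : Tendsto (fun n : ℕ => Real.logb 2 (n : ℝ)) atTop atTop :=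
    (Real.tendsto_logb_atTop (by norm_num)).comp tendsto_natCast_atTop_atTop
  filter_upwards [hr.eventually_ge_atTop ((K : ℝ) + 10), hlog.eventually_ge_atTop 1,
    eventually_ge_atTop 2] with n h1 h2 h3
  set L := Real.logb 2 (n : ℝ) with hL
  have hn0 : (0 : ℝ) < n := by exact_mod_cast (by omega : 0 < n)
  have hsq : 1 ≤ Real.sqrt L := by
    rw [show (1 : ℝ) = Real.sqrt 1 by simp]
    exact Real.sqrt_le_sqrt h2
  have hss : Real.sqrt L * Real.sqrt L = L := Real.mul_self_sqrt (by linarith)
  have h4 : ((K : ℝ) + 10) * Real.sqrt L ≤ L - r n := by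
    rwa [le_div_iff₀ (by linarith)] at h1
  set l := Nat.log 2 n with hl
  have hl1 : (l : ℝ) ≤ L := by
    rw [hL, Real.le_logb_iff_rpow_le (by norm_num) hn0, Real.rpow_natCast]
    exact_mod_cast Nat.pow_log_le_self 2 (by omega : n ≠ 0)
  have hl2 : L < (l : ℝ) + 1 := by
    rw [hL, Real.logb_lt_iff_lt_rpow (by norm_num) hn0]
    have : n < 2 ^ (l + 1) := Nat.lt_pow_succ_log_self (by norm_num) n
    have h5 : (n : ℝ) < 2 ^ (l + 1) := by exact_mod_cast this
    calc (n : ℝ) < 2 ^ (l + 1) := h5
      _ = (2 : ℝ) ^ ((l : ℝ) + 1) := by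
          rw [show (l : ℝ) + 1 = ((l + 1 : ℕ) : ℝ) by push_cast; ring, Real.rpow_natCast]
  have hK : (0 : ℝ) ≤ K := Nat.cast_nonneg K
  have h5 : (r n : ℝ) + (K + 9) * Real.sqrt L ≤ l := by nlinarith
  have h6 : r n + (K + 9) ≤ l := by
    have : (r n : ℝ) + (K + 9) ≤ l := by nlinarith
    exact_mod_cast this
  have hj : jj r n = r n := by
    unfold jj
    apply min_eq_left
    have : l ≤ Nat.log 2 (n + 1) := Nat.log_mono_right (by omega)
    omega
  have h7 : 2 ^ (l - r n) ≤ (n + 1) / 2 ^ r n := by
    rw [Nat.le_div_iff_mul_le (by positivity), ← pow_add]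
    have : l - r n + r n = l := by omega
    rw [this]
    have := Nat.pow_log_le_self 2 (by omega : n ≠ 0)
    rw [← hl] at this
    omega
  have h8 : 2 ^ (l - r n - 1) ≤ mm r n := by
    unfold mm
    rw [hj]
    have e : 2 ^ (l - r n) = 2 * 2 ^ (l - r n - 1) := by
      rw [← pow_succ']; congr 1; omega
    have : 1 ≤ 2 ^ (l - r n - 1) := Nat.one_le_two_pow
    omega
  have h9 : l - r n - 1 ≤ Nat.log 2 (mm r n) := Nat.le_log_of_pow_le (by norm_num) h8
  refine ⟨hj, by omega, ?_⟩
  have h10 : ((K : ℝ) + 8) * Real.sqrt L ≤ Nat.log 2 (mm r n) := by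
    have e : ((l - r n - 1 : ℕ) : ℝ) = (l : ℝ) - r n - 1 := by
      rw [Nat.cast_sub (by omega), Nat.cast_sub (by omega)]
      norm_num
    have h11 : ((l - r n - 1 : ℕ) : ℝ) ≤ Nat.log 2 (mm r n) := by exact_mod_cast h9
    rw [e] at h11
    nlinarith
  have h12 : ((K * (l + 1) : ℕ) : ℝ) ≤ ((Nat.log 2 (mm r n) ^ 2 : ℕ) : ℝ) := by
    push_cast
    have h13 : (((K : ℝ) + 8) * Real.sqrt L) ^ 2 ≤ (Nat.log 2 (mm r n) : ℝ) ^ 2 :=
      pow_le_pow_left₀ (by positivity) h10 2
    have h14 : (((K : ℝ) + 8) * Real.sqrt L) ^ 2 = ((K : ℝ) + 8) ^ 2 * L := by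
      rw [mul_pow, Real.sq_sqrt (by linarith)]
    nlinarith
  exact_mod_cast h12

/-! ### Lower bounds -/

lemma pow_lt_two_pow (a k : ℕ) : ∃ L, ∀ l ≥ L, a * l ^ k < 2 ^ l := by
  have h := tendsto_pow_const_div_const_pow_of_one_lt k (by norm_num : (1 : ℝ) < 2)
  have h1 : ∀ᶠ l : ℕ in atTop, (l : ℝ) ^ k / 2 ^ l < 1 / ((a : ℝ) + 1) :=
    h.eventually_lt_const (by positivity)
  obtain ⟨L, hL⟩ := eventually_atTop.mp h1
  refine ⟨L, fun l hl => ?_⟩
  have h2 := hL l hl
  have h3 : (0 : ℝ) < 2 ^ l := by positivity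
  have h4 : (0 : ℝ) < (a : ℝ) + 1 := by positivity
  rw [div_lt_div_iff₀ h3 h4, one_mul] at h2
  have h5 : (a : ℝ) * (l : ℝ) ^ k < 2 ^ l := by
    have : (0 : ℝ) ≤ (l : ℝ) ^ k := by positivity
    nlinarith
  exact_mod_cast h5

/-- polynomial size in terms of the logarithm -/
lemma size_aux (a c n : ℕ) : a * n ^ c + a ≤ 2 ^ ((a + c + 1) * (Nat.log 2 n + 1)) := by
  set l := Nat.log 2 n with hl
  have hn : n < 2 ^ (l + 1) := Nat.lt_pow_succ_log_self (by norm_num) n
  have ha : a ≤ 2 ^ a := (Nat.lt_two_pow_self).le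
  have h1 : n ^ c ≤ 2 ^ ((l + 1) * c) := by
    rw [pow_mul]; exact Nat.pow_le_pow_left hn.le _
  have h2 : 1 ≤ 2 ^ ((l + 1) * c) := Nat.one_le_two_pow
  calc a * n ^ c + a = a * n ^ c + a * 1 := by rw [mul_one]
    _ ≤ 2 ^ a * 2 ^ ((l + 1) * c) + 2 ^ a * 2 ^ ((l + 1) * c) :=
        Nat.add_le_add (Nat.mul_le_mul ha h1) (Nat.mul_le_mul ha h2)
    _ = 2 ^ (a + (l + 1) * c + 1) := by rw [pow_succ, pow_add]; ring
    _ ≤ 2 ^ ((a + c + 1) * (l + 1)) := by
        apply Nat.pow_le_pow_right (by norm_num)
        nlinarith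

lemma polylog_aux (a c l l' : ℕ) (hl : l + 1 ≤ l' ^ 2) (hl1 : 1 ≤ l) :
    a * l ^ c + a ≤ 2 * a * l' ^ (2 * c) := by
  have h1 : l ^ c ≤ (l' ^ 2) ^ c := Nat.pow_le_pow_left (by omega) _
  rw [← pow_mul] at h1
  have h2 : 1 ≤ l' ^ (2 * c) := by
    have : 1 ≤ l' := by
      rcases Nat.eq_zero_or_pos l' with h | h
      · subst h; simp at hl
      · exact h
    exact Nat.one_le_pow _ _ this
  calc a * l ^ c + a = a * l ^ c + a * 1 := by rw [mul_one]
    _ ≤ a * l' ^ (2 * c) + a * l' ^ (2 * c) :=
        Nat.add_le_add (Nat.mul_le_mul_left _ h1) (Nat.mul_le_mul_left _ h2)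
    _ = 2 * a * l' ^ (2 * c) := by ring

theorem lift_not_SC (r : ℕ → ℕ)
    (hr : Tendsto (fun n : ℕ => (Real.logb 2 n - r n) / Real.sqrt (Real.logb 2 n)) atTop atTop) :
    ¬ SC r (lift StConnectivity.stconn r) := by
  rintro ⟨C, hC, ⟨a, c, hs⟩, ⟨a', c', hd⟩, hneg⟩
  obtain ⟨b, hb⟩ : ∃ b, b = 2000 := ⟨_, rfl⟩
  obtain ⟨L0, hL0⟩ := pow_lt_two_pow ((2 * a') ^ 100) (2 * c' * 100)
  obtain ⟨n, ⟨h1, h2, h3⟩, h4⟩ := ((growth r hr (b * (a + c + 1) + 400 + L0)).and
    (eventually_ge_atTop 2)).exists
  set l := Nat.log 2 n with hl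
  set l' := Nat.log 2 (mm r n) with hl'
  have hl1 : 1 ≤ l := by
    rw [hl]; exact Nat.le_log_of_pow_le (by norm_num) (by simpa using h4)
  have hll : l + 1 ≤ l' ^ 2 := by
    refine le_trans ?_ h3
    calc l + 1 = 1 * (l + 1) := by rw [one_mul]
      _ ≤ _ := Nat.mul_le_mul_right _ (by omega)
  obtain ⟨D, hD1, hD2, hD3⟩ := layered_to_mon (m := mm r n) (r := r n) (C n) (hneg n)
    (StConnectivity.stconn (mm r n)) (fun X => by
      rw [hC, lift_spec, h1])
  have hm0 : mm r n ≠ 0 := by
    intro h0
    rw [h0] at hl'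
    simp at hl'
    omega
  have hwidth : D.maxWidth ^ 100 ≤ mm r n := by
    have h5 := hd n
    have h6 : D.maxWidth ≤ 2 * a' * l' ^ (2 * c') := by
      rw [hD3]
      exact le_trans h5 (polylog_aux a' c' l l' hll hl1)
    calc _ ≤ (2 * a' * l' ^ (2 * c')) ^ 100 := Nat.pow_le_pow_left h6 _
      _ = (2 * a') ^ 100 * l' ^ (2 * c' * 100) := by rw [mul_pow (2 * a'), ← pow_mul]
      _ ≤ 2 ^ l' := (hL0 l' (by omega)).le
      _ ≤ mm r n := Nat.pow_log_le_self 2 hm0
  have h5 := StConnectivity.stconn_tradeoff (mm r n) (by omega) D hD1 hwidth b hb.ge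
  have h6 : D.size ≤ 2 ^ ((a + c + 1) * (l + 1)) := by
    rw [hD2]
    exact le_trans (hs n) (size_aux a c n)
  have h7 : 2 ^ (l' * l') ≤ 2 ^ ((a + c + 1) * (l + 1) * b) := by
    calc 2 ^ (l' * l') = (2 ^ l') ^ l' := by rw [pow_mul]
      _ ≤ (mm r n) ^ l' := Nat.pow_le_pow_left (Nat.pow_log_le_self 2 hm0) _
      _ ≤ D.size ^ b := h5
      _ ≤ (2 ^ ((a + c + 1) * (l + 1))) ^ b := Nat.pow_le_pow_left h6 _
      _ = _ := by rw [← pow_mul]
  have h8 := (Nat.pow_le_pow_iff_right (by norm_num : 1 < 2)).mp h7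
  have h9 : (b * (a + c + 1) + 400 + L0) * (l + 1) = (a + c + 1) * (l + 1) * b + (400 + L0) * (l + 1) := by
    ring
  have h10 : l' ^ 2 = l' * l' := by ring
  have h11 : 1 ≤ (400 + L0) * (l + 1) := Nat.one_le_iff_ne_zero.mpr (by positivity)
  omega

theorem lift_not_NC (r : ℕ → ℕ)
    (hr : Tendsto (fun n : ℕ => (Real.logb 2 n - r n) / Real.sqrt (Real.logb 2 n)) atTop atTop)
    (f : (n : ℕ) → (Fin n → Bool) → Bool) (a0 N : ℕ)
    (hf : ∀ n ≥ N, ∀ C : MonotoneSeparation.MonCircuit n, (∀ x, C.eval x = f n x) →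
      C.size ≤ 2 ^ (Nat.log 2 n) ^ 2 → n ≤ C.depth * (Nat.log 2 n) ^ a0) :
    ¬ NC r (lift f r) := by
  rintro ⟨C, hC, ⟨a, c, hs⟩, ⟨a', c', hd⟩, hneg⟩
  obtain ⟨L0, hL0⟩ := pow_lt_two_pow (2 * a') (2 * c' + a0)
  obtain ⟨n, ⟨h1, h2, h3⟩, h4⟩ := ((growth r hr (a + c + 1 + N + L0)).and
    (eventually_ge_atTop 2)).exists
  set l := Nat.log 2 n with hl
  set l' := Nat.log 2 (mm r n) with hl'
  have hl1 : 1 ≤ l := by
    rw [hl]; exact Nat.le_log_of_pow_le (by norm_num) (by simpa using h4)
  have hll : l + 1 ≤ l' ^ 2 := by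
    refine le_trans ?_ h3
    calc l + 1 = 1 * (l + 1) := by rw [one_mul]
      _ ≤ _ := Nat.mul_le_mul_right _ (by omega)
  obtain ⟨D, hD1, hD2, hD3⟩ := circuit_to_mon (m := mm r n) (r := r n) (C n) (hneg n)
    (f (mm r n)) (fun X => by
      rw [hC, lift_spec, h1])
  have hm0 : mm r n ≠ 0 := by
    intro h0
    rw [h0] at hl'
    simp at hl'
    omega
  have hmN : N ≤ mm r n := by
    calc N ≤ l' := by omega
      _ ≤ 2 ^ l' := (Nat.lt_two_pow_self).le
      _ ≤ mm r n := Nat.pow_log_le_self 2 hm0
  have h6 : D.size ≤ 2 ^ l' ^ 2 := by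
    rw [hD2]
    refine le_trans (le_trans (hs n) (size_aux a c n)) ?_
    apply Nat.pow_le_pow_right (by norm_num)
    refine le_trans ?_ h3
    exact Nat.mul_le_mul_right _ (by omega)
  have h7 := hf (mm r n) hmN D hD1 h6
  have h8 : D.depth ≤ 2 * a' * l' ^ (2 * c') :=
    le_trans hD3 (le_trans (hd n) (polylog_aux a' c' l l' hll hl1))
  have h9 : mm r n ≤ 2 * a' * l' ^ (2 * c' + a0) := by
    calc mm r n ≤ D.depth * l' ^ a0 := h7
      _ ≤ (2 * a' * l' ^ (2 * c')) * l' ^ a0 := Nat.mul_le_mul_right _ h8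
      _ = _ := by rw [pow_add]; ring
  have h10 := hL0 l' (by omega)
  have h11 := Nat.pow_log_le_self 2 hm0
  rw [← hl'] at h11
  omega

end Pool.Agent.Results.MP_2af48a_lc.FewNegations
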