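import Pool.Agent.Lib_MP_2af48a_lc.HazDefs

open Finset

namespace Pool.Agent.Results.MP_2af48a_lc.FewNegations

/-- The input `x`, where the zeros in `P` are replaced by unstable bits. -/
def aP {n : ℕ} (P : Finset (Fin n)) (x : Fin n → Bool) : Fin n → Option Bool :=
  fun i => if i ∈ P then (if x i = true then some true else none) else some (x i)

lemma aP_unstable {n : ℕ} (P : Finset (Fin n)) (x : Fin n → Bool) (i : Fin n)
    (h : aP P x i = none) : i ∈ P := by
  by_contra hi
  simp [aP, hi] at h

lemma aP_resolves {n : ℕ} (P : Finset (Fin n)) (x : Fin n → Bool) : Resolves (aP P x) x := by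
  intro i
  unfold aP
  by_cases hi : i ∈ P
  · by_cases hx : x i = true
    · right; simp [hi, hx]
    · left; simp [hi, hx]
  · right; simp [hi]

lemma aP_mono {n : ℕ} (P : Finset (Fin n)) (x z : Fin n → Bool) (h : Resolves (aP P x) z)
    (i : Fin n) (hi : x i = true) : z i = true := by
  rcases h i with h | h
  · by_cases hP : i ∈ P
    · simp [aP, hP, hi] at h
    · simp [aP, hP] at h
  · by_cases hP : i ∈ P
    · simp only [aP, hP, if_true, hi] at h
      simpa using h.symm
    · simp only [aP, hP, if_false, hi] at h
      simpa using h.symm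

/-! ### Soundness of the three-valued evaluation -/

/-- `o` is unstable or equal to `b`. -/
def Sound (o : Option Bool) (b : Bool) : Prop := o = none ∨ o = some b

lemma sound_and {o o' : Option Bool} {b b' : Bool} (h : Sound o b) (h' : Sound o' b') :
    Sound (and3 o o') (b && b') := by
  unfold Sound at *
  rcases h with h | h <;> rcases h' with h' | h' <;> subst h <;> subst h' <;>
    cases b <;> cases b' <;> simp [and3]

lemma sound_or {o o' : Option Bool} {b b' : Bool} (h : Sound o b) (h' : Sound o' b') :
    Sound (or3 o o') (b || b') := by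
  unfold Sound at *
  rcases h with h | h <;> rcases h' with h' | h' <;> subst h <;> subst h' <;>
    cases b <;> cases b' <;> simp [or3]

lemma sound_not {o : Option Bool} {b : Bool} (h : Sound o b) : Sound (not3 o) (!b) := by
  unfold Sound at *
  rcases h with h | h <;> subst h <;> simp [not3]

lemma Wire.sound {n k : ℕ} {α : Fin n → Option Bool} {z : Fin n → Bool} (hz : Resolves α z)
    {v3 : Fin k → Option Bool} {v : Fin k → Bool} (hv : ∀ g, Sound (v3 g) (v g)) (w : Wire n k) :
    Sound (w.val3 α v3) (w.val z v) := by
  cases w with
  | const b => exact Or.inr rfl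
  | var i => exact hz i
  | gate g => exact hv g

lemma Gate.sound {n k : ℕ} {α : Fin n → Option Bool} {z : Fin n → Bool} (hz : Resolves α z)
    {v3 : Fin k → Option Bool} {v : Fin k → Bool} (hv : ∀ g, Sound (v3 g) (v g)) (w : Gate n k) :
    Sound (w.val3 α v3) (w.val z v) := by
  cases w with
  | and a b => exact sound_and (a.sound hz hv) (b.sound hz hv)
  | or a b => exact sound_or (a.sound hz hv) (b.sound hz hv)
  | not a => exact sound_not (a.sound hz hv)

lemma Circuit.gateVal_sound {n : ℕ} (C : Circuit n) {α : Fin n → Option Bool}
    {z : Fin n → Bool} (hz : Resolves α z) (g : ℕ) :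
    ∀ hg : g < C.size, Sound (C.gateVal3 α g hg) (C.gateVal z g hg) := by
  induction g using Nat.strong_induction_on with
  | _ g ih =>
    intro hg
    rw [Circuit.gateVal3, Circuit.gateVal]
    exact Gate.sound hz (fun g' => ih g'.val g'.isLt _) _

lemma Circuit.eval_sound {n : ℕ} (C : Circuit n) {α : Fin n → Option Bool}
    {z : Fin n → Bool} (hz : Resolves α z) : Sound (C.eval3 α) (C.eval z) :=
  C.gateVal_sound hz _ _

lemma Layered.val_sound {n : ℕ} (C : Layered n) {α : Fin n → Option Bool}
    {z : Fin n → Bool} (hz : Resolves α z) (j : ℕ) :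
    ∀ g, Sound (C.val3 α j g) (C.val z j g) := by
  induction j with
  | zero => intro g; exact Fin.elim0 (Fin.cast C.width_zero g)
  | succ j ih => intro g; exact Gate.sound hz ih _

lemma Layered.eval_sound {n : ℕ} (C : Layered n) {α : Fin n → Option Bool}
    {z : Fin n → Bool} (hz : Resolves α z) : Sound (C.eval3 α) (C.eval z) :=
  C.val_sound hz _ _

/-! ### Monotone functions -/

/-- A circuit for a monotone function without hazards on `P`: the value is stable for the
input `aP P x` if it is 1. -/
lemma Circuit.eval_aP {n : ℕ} (C : Circuit n) (P : Finset (Fin n)) (hP : C.HazardFreeOn P)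
    (hm : ∀ x z : Fin n → Bool, (∀ i, x i = true → z i = true) → C.eval x = true →
      C.eval z = true) (x : Fin n → Bool) :
    decide (C.eval3 (aP P x) = some true) = C.eval x := by
  by_cases hx : C.eval x = true
  · rw [hx, decide_eq_true_iff]
    exact hP _ (aP_unstable P x) true (fun z hz => hm x z (aP_mono P x z hz) hx)
  · have hx' : C.eval x = false := by simpa using hx
    rw [hx', decide_eq_false_iff_not]
    intro h
    rcases C.eval_sound (aP_resolves P x) with h' | h'
    · rw [h] at h'; exact absurd h' (by simp)
    · rw [h, hx'] at h'; exact absurd h' (by simp)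

/-- The same for layered circuits. -/
lemma Layered.eval_aP {n : ℕ} (C : Layered n) (P : Finset (Fin n)) (hP : C.HazardFreeOn P)
    (hm : ∀ x z : Fin n → Bool, (∀ i, x i = true → z i = true) → C.eval x = true →
      C.eval z = true) (x : Fin n → Bool) :
    decide (C.eval3 (aP P x) = some true) = C.eval x := by
  by_cases hx : C.eval x = true
  · rw [hx, decide_eq_true_iff]
    exact hP _ (aP_unstable P x) true (fun z hz => hm x z (aP_mono P x z hz) hx)
  · have hx' : C.eval x = false := by simpa using hx
    rw [hx', decide_eq_false_iff_not]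
    intro h
    rcases C.eval_sound (aP_resolves P x) with h' | h'
    · rw [h] at h'; exact absurd h' (by simp)
    · rw [h, hx'] at h'; exact absurd h' (by simp)

/-! ### Double rail -/

/-- Is the value 1? -/
def isOne (o : Option Bool) : Bool := decide (o = some true)

/-- Is the value 0? -/
def isZero (o : Option Bool) : Bool := decide (o = some false)

lemma isOne_and (o o' : Option Bool) : isOne (and3 o o') = (isOne o && isOne o') := by
  rcases o with _ | _ | _ <;> rcases o' with _ | _ | _ <;> rfl

lemma isZero_and (o o' : Option Bool) : isZero (and3 o o') = (isZero o || isZero o') := by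
  rcases o with _ | _ | _ <;> rcases o' with _ | _ | _ <;> rfl

lemma isOne_or (o o' : Option Bool) : isOne (or3 o o') = (isOne o || isOne o') := by
  rcases o with _ | _ | _ <;> rcases o' with _ | _ | _ <;> rfl

lemma isZero_or (o o' : Option Bool) : isZero (or3 o o') = (isZero o && isZero o') := by
  rcases o with _ | _ | _ <;> rcases o' with _ | _ | _ <;> rfl

lemma isOne_not (o : Option Bool) : isOne (not3 o) = isZero o := by
  rcases o with _ | _ | _ <;> rfl

lemma isZero_not (o : Option Bool) : isZero (not3 o) = isOne o := by
  rcases o with _ | _ | _ <;> rfl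

end Pool.Agent.Results.MP_2af48a_lc.FewNegations
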