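import Pool.Agent.Lib_MP_2af48a_lc.HazBase

open Finset

namespace Pool.Agent.Results.MP_2af48a_lc.FewNegations

namespace HC

/-- First rail of a wire. -/
def wOne {n k m : ℕ} (h : n + 2 * k ≤ m) : Wire n k → Wire n m
  | .const b => .const b
  | .var i => .var i
  | .gate g => .gate ⟨n + 2 * g.val, by omega⟩

/-- Second rail of a wire. -/
def wZero {n k m : ℕ} (P : Finset (Fin n)) (h : n + 2 * k ≤ m) : Wire n k → Wire n m
  | .const b => .const (!b)
  | .var i => if i ∈ P then .const false else .gate ⟨i.val, by omega⟩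
  | .gate g => .gate ⟨n + 2 * g.val + 1, by omega⟩

/-- First rail of a gate. -/
def gOne {n k m : ℕ} (P : Finset (Fin n)) (h : n + 2 * k ≤ m) : Gate n k → Gate n m
  | .and a b => .and (wOne h a) (wOne h b)
  | .or a b => .or (wOne h a) (wOne h b)
  | .not a => .and (wZero P h a) (wZero P h a)

/-- Second rail of a gate. -/
def gZero {n k m : ℕ} (P : Finset (Fin n)) (h : n + 2 * k ≤ m) : Gate n k → Gate n m
  | .and a b => .or (wZero P h a) (wZero P h b)
  | .or a b => .and (wZero P h a) (wZero P h b)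
  | .not a => .and (wOne h a) (wOne h a)

/-- The gates with numbers less than `n`. -/
def gVar {n : ℕ} (P : Finset (Fin n)) (i : Fin n) (m : ℕ) : Gate n m :=
  if i ∈ P then .and (.const false) (.const false) else .not (.var i)

/-- The double-rail circuit. -/
def double {n : ℕ} (C : Circuit n) (P : Finset (Fin n)) : Circuit n where
  size := n + 2 * C.size
  gate h := if h1 : h.val < n then gVar P ⟨h.val, h1⟩ h.val else
    if (h.val - n) % 2 = 0 then
      gOne P (by omega : n + 2 * ((h.val - n) / 2) ≤ h.val)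
        (C.gate ⟨(h.val - n) / 2, (by omega : (h.val - n) / 2 < C.size)⟩)
    else gZero P (by omega : n + 2 * ((h.val - n) / 2) ≤ h.val)
      (C.gate ⟨(h.val - n) / 2, (by omega : (h.val - n) / 2 < C.size)⟩)
  out := ⟨n + 2 * C.out.val, by omega⟩

variable {n : ℕ} (C : Circuit n) (P : Finset (Fin n)) (x : Fin n → Bool)

lemma gate_var (h : Fin (double C P).size) (h1 : h.val < n) :
    (double C P).gate h = gVar P ⟨h.val, h1⟩ h.val := by
  simp only [double, dif_pos h1]

lemma gate_one (h : Fin (double C P).size) (h1 : n ≤ h.val) (h2 : (h.val - n) % 2 = 0)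
    (h3 : (h.val - n) / 2 < C.size) (h4 : n + 2 * ((h.val - n) / 2) ≤ h.val) :
    (double C P).gate h = gOne P h4 (C.gate ⟨(h.val - n) / 2, h3⟩) := by
  simp only [double, dif_neg (not_lt.mpr h1), if_pos h2]

lemma gate_zero (h : Fin (double C P).size) (h1 : n ≤ h.val) (h2 : ¬ (h.val - n) % 2 = 0)
    (h3 : (h.val - n) / 2 < C.size) (h4 : n + 2 * ((h.val - n) / 2) ≤ h.val) :
    (double C P).gate h = gZero P h4 (C.gate ⟨(h.val - n) / 2, h3⟩) := by
  simp only [double, dif_neg (not_lt.mpr h1), if_neg h2]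

/-- Values of the rails of a wire. -/
lemma wOne_val {k m : ℕ} (h : n + 2 * k ≤ m) (w : Wire n k) (v3 : Fin k → Option Bool)
    (v : Fin m → Bool) (hv : ∀ g : Fin k, v ⟨n + 2 * g.val, by omega⟩ = isOne (v3 g)) :
    (wOne h w).val x v = isOne (w.val3 (aP P x) v3) := by
  cases w with
  | const b => cases b <;> rfl
  | var i =>
    show x i = isOne (aP P x i)
    unfold aP isOne
    by_cases hi : i ∈ P <;> cases hx : x i <;> simp [hi]
  | gate g => exact hv g

lemma wZero_val {k m : ℕ} (h : n + 2 * k ≤ m) (w : Wire n k) (v3 : Fin k → Option Bool)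
    (v : Fin m → Bool) (hv : ∀ g : Fin k, v ⟨n + 2 * g.val + 1, by omega⟩ = isZero (v3 g))
    (hx : ∀ i : Fin n, i ∉ P → v ⟨i.val, by omega⟩ = !(x i)) :
    (wZero P h w).val x v = isZero (w.val3 (aP P x) v3) := by
  cases w with
  | const b => cases b <;> rfl
  | var i =>
    by_cases hi : i ∈ P
    · simp only [wZero, if_pos hi]
      show false = isZero (aP P x i)
      unfold aP isZero
      cases hx : x i <;> simp [hi]
    · simp only [wZero, if_neg hi]
      show v ⟨i.val, _⟩ = isZero (aP P x i)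
      rw [hx i hi]
      unfold aP isZero
      cases hx : x i <;> simp [hi]
  | gate g => exact hv g

lemma gOne_val {k m : ℕ} (h : n + 2 * k ≤ m) (w : Gate n k) (v3 : Fin k → Option Bool)
    (v : Fin m → Bool) (hv1 : ∀ g : Fin k, v ⟨n + 2 * g.val, by omega⟩ = isOne (v3 g))
    (hv : ∀ g : Fin k, v ⟨n + 2 * g.val + 1, by omega⟩ = isZero (v3 g))
    (hx : ∀ i : Fin n, i ∉ P → v ⟨i.val, by omega⟩ = !(x i)) :
    (gOne P h w).val x v = isOne (w.val3 (aP P x) v3) := by
  cases w with
  | and a b =>
    show ((wOne h a).val x v && (wOne h b).val x v) = isOne (and3 _ _)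
    rw [isOne_and, wOne_val P x h a v3 v hv1, wOne_val P x h b v3 v hv1]
  | or a b =>
    show ((wOne h a).val x v || (wOne h b).val x v) = isOne (or3 _ _)
    rw [isOne_or, wOne_val P x h a v3 v hv1, wOne_val P x h b v3 v hv1]
  | not a =>
    show ((wZero P h a).val x v && (wZero P h a).val x v) = isOne (not3 _)
    rw [isOne_not, wZero_val P x h a v3 v hv hx, Bool.and_self]

lemma gZero_val {k m : ℕ} (h : n + 2 * k ≤ m) (w : Gate n k) (v3 : Fin k → Option Bool)
    (v : Fin m → Bool) (hv1 : ∀ g : Fin k, v ⟨n + 2 * g.val, by omega⟩ = isOne (v3 g))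
    (hv : ∀ g : Fin k, v ⟨n + 2 * g.val + 1, by omega⟩ = isZero (v3 g))
    (hx : ∀ i : Fin n, i ∉ P → v ⟨i.val, by omega⟩ = !(x i)) :
    (gZero P h w).val x v = isZero (w.val3 (aP P x) v3) := by
  cases w with
  | and a b =>
    show ((wZero P h a).val x v || (wZero P h b).val x v) = isZero (and3 _ _)
    rw [isZero_and, wZero_val P x h a v3 v hv hx, wZero_val P x h b v3 v hv hx]
  | or a b =>
    show ((wZero P h a).val x v && (wZero P h b).val x v) = isZero (or3 _ _)
    rw [isZero_or, wZero_val P x h a v3 v hv hx, wZero_val P x h b v3 v hv hx]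
  | not a =>
    show ((wOne h a).val x v && (wOne h a).val x v) = isZero (not3 _)
    rw [isZero_not, wOne_val P x h a v3 v hv1, Bool.and_self]

lemma val3_of_eq (α : Fin n → Option Bool) {j g : ℕ} (e : j = g) (hj : j < C.size)
    (hg : g < C.size) (hh : ∀ g' : Fin j, g'.val < C.size) :
    (C.gate ⟨j, hj⟩).val3 α (fun g' => C.gateVal3 α g'.val (hh g')) = C.gateVal3 α g hg := by
  subst e
  rw [Circuit.gateVal3]

lemma depth_of_eq {j g : ℕ} (e : j = g) (hj : j < C.size)
    (hg : g < C.size) (hh : ∀ g' : Fin j, g'.val < C.size) :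
    (C.gate ⟨j, hj⟩).depth (fun g' => C.gateDepth g'.val (hh g')) = C.gateDepth g hg := by
  subst e
  rw [Circuit.gateDepth]

/-- Values of all gates of the double-rail circuit. -/
lemma vals (h : ℕ) (hh : h < (double C P).size) :
    (∀ h1 : h < n, (⟨h, h1⟩ : Fin n) ∉ P → (double C P).gateVal x h hh = !(x ⟨h, h1⟩)) ∧
    (∀ (g : ℕ) (hg : g < C.size), h = n + 2 * g →
      (double C P).gateVal x h hh = isOne (C.gateVal3 (aP P x) g hg)) ∧
    (∀ (g : ℕ) (hg : g < C.size), h = n + 2 * g + 1 →
      (double C P).gateVal x h hh = isZero (C.gateVal3 (aP P x) g hg)) := by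
  induction h using Nat.strong_induction_on with
  | _ h ih =>
    refine ⟨fun h1 hP => ?_, fun g hg hgh => ?_, fun g hg hgh => ?_⟩
    · rw [Circuit.gateVal, gate_var C P ⟨h, hh⟩ h1]
      simp only [gVar, if_neg hP]
      rfl
    · have e1 : n ≤ h := by omega
      have e2 : (h - n) % 2 = 0 := by omega
      have e3 : (h - n) / 2 = g := by omega
      rw [Circuit.gateVal, gate_one C P ⟨h, hh⟩ e1 e2 (by simp only; omega) (by simp only; omega),
        gOne_val P x _ _ (fun g' => C.gateVal3 (aP P x) g'.val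
          (lt_of_lt_of_le g'.isLt (by simp only; omega))) _
          (fun g' => ?_) (fun g' => ?_) (fun i hi => ?_)]
      · rw [val3_of_eq C (aP P x) e3 _ hg]
      · exact (ih (n + 2 * g'.val) (by have := g'.isLt; simp only at this; omega) _).2.1
          g'.val _ rfl
      · exact (ih (n + 2 * g'.val + 1) (by have := g'.isLt; simp only at this; omega) _).2.2
          g'.val _ rfl
      · exact (ih i.val (by omega) _).1 i.isLt hi
    · have e1 : n ≤ h := by omega
      have e2 : ¬ (h - n) % 2 = 0 := by omega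
      have e3 : (h - n) / 2 = g := by omega
      rw [Circuit.gateVal, gate_zero C P ⟨h, hh⟩ e1 e2 (by simp only; omega) (by simp only; omega),
        gZero_val P x _ _ (fun g' => C.gateVal3 (aP P x) g'.val
          (lt_of_lt_of_le g'.isLt (by simp only; omega))) _
          (fun g' => ?_) (fun g' => ?_) (fun i hi => ?_)]
      · rw [val3_of_eq C (aP P x) e3 _ hg]
      · exact (ih (n + 2 * g'.val) (by have := g'.isLt; simp only at this; omega) _).2.1
          g'.val _ rfl
      · exact (ih (n + 2 * g'.val + 1) (by have := g'.isLt; simp only at this; omega) _).2.2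
          g'.val _ rfl
      · exact (ih i.val (by omega) _).1 i.isLt hi

lemma double_eval : (double C P).eval x = decide (C.eval3 (aP P x) = some true) :=
  (vals C P x _ _).2.1 _ _ rfl

/-! ### Depth -/

lemma wOne_depth {k m : ℕ} (h : n + 2 * k ≤ m) (w : Wire n k) (d : Fin k → ℕ)
    (d' : Fin m → ℕ) (hd : ∀ g : Fin k, d' ⟨n + 2 * g.val, by omega⟩ ≤ d g + 1) :
    (wOne h w).depth d' ≤ w.depth d + 1 := by
  cases w with
  | const b => exact Nat.zero_le _
  | var i => exact Nat.zero_le _
  | gate g => exact hd g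

lemma wZero_depth {k m : ℕ} (h : n + 2 * k ≤ m) (w : Wire n k) (d : Fin k → ℕ)
    (d' : Fin m → ℕ) (hd : ∀ g : Fin k, d' ⟨n + 2 * g.val + 1, by omega⟩ ≤ d g + 1)
    (hx : ∀ i : Fin n, d' ⟨i.val, by omega⟩ ≤ 1) :
    (wZero P h w).depth d' ≤ w.depth d + 1 := by
  cases w with
  | const b => exact Nat.zero_le _
  | var i =>
    by_cases hi : i ∈ P
    · simp only [wZero, if_pos hi]
      exact Nat.zero_le _
    · simp only [wZero, if_neg hi]
      exact le_trans (hx i) (by simp [Wire.depth])
  | gate g => exact hd g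

lemma gOne_depth {k m : ℕ} (h : n + 2 * k ≤ m) (w : Gate n k) (d : Fin k → ℕ)
    (d' : Fin m → ℕ) (hd1 : ∀ g : Fin k, d' ⟨n + 2 * g.val, by omega⟩ ≤ d g + 1)
    (hd : ∀ g : Fin k, d' ⟨n + 2 * g.val + 1, by omega⟩ ≤ d g + 1)
    (hx : ∀ i : Fin n, d' ⟨i.val, by omega⟩ ≤ 1) :
    (gOne P h w).depth d' ≤ w.depth d + 1 := by
  cases w with
  | and a b =>
    have h1 := wOne_depth h a d d' hd1
    have h2 := wOne_depth h b d d' hd1
    simp only [gOne, Gate.depth]
    omega
  | or a b =>
    have h1 := wOne_depth h a d d' hd1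
    have h2 := wOne_depth h b d d' hd1
    simp only [gOne, Gate.depth]
    omega
  | not a =>
    have h1 := wZero_depth P h a d d' hd hx
    simp only [gOne, Gate.depth]
    omega

lemma gZero_depth {k m : ℕ} (h : n + 2 * k ≤ m) (w : Gate n k) (d : Fin k → ℕ)
    (d' : Fin m → ℕ) (hd1 : ∀ g : Fin k, d' ⟨n + 2 * g.val, by omega⟩ ≤ d g + 1)
    (hd : ∀ g : Fin k, d' ⟨n + 2 * g.val + 1, by omega⟩ ≤ d g + 1)
    (hx : ∀ i : Fin n, d' ⟨i.val, by omega⟩ ≤ 1) :
    (gZero P h w).depth d' ≤ w.depth d + 1 := by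
  cases w with
  | and a b =>
    have h1 := wZero_depth P h a d d' hd hx
    have h2 := wZero_depth P h b d d' hd hx
    simp only [gZero, Gate.depth]
    omega
  | or a b =>
    have h1 := wZero_depth P h a d d' hd hx
    have h2 := wZero_depth P h b d d' hd hx
    simp only [gZero, Gate.depth]
    omega
  | not a =>
    have h1 := wOne_depth h a d d' hd1
    simp only [gZero, Gate.depth]
    omega

lemma depths (h : ℕ) (hh : h < (double C P).size) :
    (h < n → (double C P).gateDepth h hh ≤ 1) ∧
    (∀ (g : ℕ) (hg : g < C.size), (h = n + 2 * g ∨ h = n + 2 * g + 1) →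
      (double C P).gateDepth h hh ≤ C.gateDepth g hg + 1) := by
  induction h using Nat.strong_induction_on with
  | _ h ih =>
    refine ⟨fun h1 => ?_, fun g hg hgh => ?_⟩
    · rw [Circuit.gateDepth, gate_var C P ⟨h, hh⟩ h1]
      unfold gVar
      split_ifs <;> simp [Gate.depth, Wire.depth]
    · have e1 : n ≤ h := by omega
      have e3 : (h - n) / 2 = g := by omega
      by_cases e2 : (h - n) % 2 = 0
      · rw [Circuit.gateDepth, gate_one C P ⟨h, hh⟩ e1 e2 (by simp only; omega)
          (by simp only; omega)]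
        refine le_trans (gOne_depth P _ _ (fun g' => C.gateDepth g'.val
          (lt_of_lt_of_le g'.isLt (by simp only; omega))) _
          (fun g' => ?_) (fun g' => ?_) (fun i => ?_)) ?_
        · exact (ih (n + 2 * g'.val) (by have := g'.isLt; simp only at this; omega) _).2
            g'.val _ (Or.inl rfl)
        · exact (ih (n + 2 * g'.val + 1) (by have := g'.isLt; simp only at this; omega) _).2
            g'.val _ (Or.inr rfl)
        · exact (ih i.val (by omega) _).1 i.isLt
        · rw [depth_of_eq C e3 _ hg]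
      · rw [Circuit.gateDepth, gate_zero C P ⟨h, hh⟩ e1 e2 (by simp only; omega)
          (by simp only; omega)]
        refine le_trans (gZero_depth P _ _ (fun g' => C.gateDepth g'.val
          (lt_of_lt_of_le g'.isLt (by simp only; omega))) _
          (fun g' => ?_) (fun g' => ?_) (fun i => ?_)) ?_
        · exact (ih (n + 2 * g'.val) (by have := g'.isLt; simp only at this; omega) _).2
            g'.val _ (Or.inl rfl)
        · exact (ih (n + 2 * g'.val + 1) (by have := g'.isLt; simp only at this; omega) _).2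
            g'.val _ (Or.inr rfl)
        · exact (ih i.val (by omega) _).1 i.isLt
        · rw [depth_of_eq C e3 _ hg]

lemma double_depth : (double C P).depth ≤ C.depth + 1 :=
  (depths C P _ _).2 _ _ (Or.inl rfl)

/-! ### NOT gates -/

lemma gOne_isNot {k m : ℕ} (h : n + 2 * k ≤ m) (w : Gate n k) : (gOne P h w).isNot = false := by
  cases w <;> rfl

lemma gZero_isNot {k m : ℕ} (h : n + 2 * k ≤ m) (w : Gate n k) :
    (gZero P h w).isNot = false := by
  cases w <;> rfl

lemma double_negationsAbove : (double C P).negationsAbove P = 0 := by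
  unfold Circuit.negationsAbove
  rw [Finset.card_eq_zero, Finset.filter_eq_empty_iff]
  rintro g - ⟨hg1, hg2⟩
  by_cases h1 : g.val < n
  · rw [Circuit.above, gate_var C P ⟨g.val, g.isLt⟩ h1] at hg2
    unfold gVar at hg2
    by_cases hP : (⟨g.val, h1⟩ : Fin n) ∈ P
    · simp [hP, Gate.above, Wire.above] at hg2
    · rw [if_neg hP] at hg2
      simp [Gate.above, Wire.above, hP] at hg2
  · have e1 : n ≤ g.val := by omega
    have hlt : g.val < n + 2 * C.size := g.isLt
    by_cases e2 : (g.val - n) % 2 = 0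
    · rw [gate_one C P g e1 e2 (by omega) (by omega), gOne_isNot] at hg1
      exact absurd hg1 (by simp)
    · rw [gate_zero C P g e1 e2 (by omega) (by omega), gZero_isNot] at hg1
      exact absurd hg1 (by simp)

end HC

/-- The double-rail circuit: it has no NOT gates above `P`, and it computes `[C.eval3 = 1]`
where the zeros in `P` are replaced by unstable bits. -/
theorem circuit_hazard {n : ℕ} (C : Circuit n) (P : Finset (Fin n)) :
    ∃ C' : Circuit n, (∀ x, C'.eval x = decide (C.eval3 (aP P x) = some true)) ∧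
      C'.negationsAbove P = 0 ∧ C'.size = 2 * C.size + n ∧ C'.depth ≤ C.depth + 1 :=
  ⟨HC.double C P, HC.double_eval C P, HC.double_negationsAbove C P, by
    show n + 2 * C.size = _; omega, HC.double_depth C P⟩

/-- A circuit without hazards on `P` for a monotone function can be transformed into a circuit
without NOT gates above `P`. -/
theorem circuit_hazardFree {n : ℕ} (C : Circuit n) (P : Finset (Fin n))
    (hP : C.HazardFreeOn P)
    (hm : ∀ x z : Fin n → Bool, (∀ i, x i = true → z i = true) → C.eval x = true →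
      C.eval z = true) :
    ∃ C' : Circuit n, (∀ x, C'.eval x = C.eval x) ∧
      C'.negationsAbove P = 0 ∧ C'.size = 2 * C.size + n ∧ C'.depth ≤ C.depth + 1 := by
  obtain ⟨C', h1, h2, h3, h4⟩ := circuit_hazard C P
  exact ⟨C', fun x => by rw [h1, C.eval_aP P hP hm x], h2, h3, h4⟩

/-- For monotone functions: circuits without hazards on `P` are circuits without NOT gates
above `P`. -/
theorem NCHazardFree.toAbove {N : ℕ → ℕ} {f : (n : ℕ) → (Fin n → Bool) → Bool}
    (hm : ∀ (n : ℕ) (x z : Fin n → Bool), (∀ i, x i = true → z i = true) → f n x = true →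
      f n z = true) (h : NCHazardFree N f) : NCAbove N (fun _ => 0) f := by
  obtain ⟨C, hC, ⟨a, c, hs⟩, ⟨b, d, hd⟩, hP⟩ := h
  choose P hP1 hP2 using hP
  have key : ∀ n, ∃ C' : Circuit n, (∀ x, C'.eval x = (C n).eval x) ∧
      C'.negationsAbove (P n) = 0 ∧ C'.size = 2 * (C n).size + n ∧
      C'.depth ≤ (C n).depth + 1 := fun n => circuit_hazardFree (C n) (P n) (hP2 n)
        (fun x z hxz hx => by rw [hC] at hx ⊢; exact hm n x z hxz hx)
  choose C' h1 h2 h3 h4 using key
  refine ⟨C', fun n x => by rw [h1, hC], ⟨4 * a + 1, c + 1, fun n => ?_⟩,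
    ⟨b + 1, d, fun n => ?_⟩, fun n => ⟨P n, hP1 n, (h2 n).le⟩⟩
  · show (C' n).size ≤ _
    rw [h3 n]
    have e1 : (C n).size ≤ a * n ^ c + a := hs n
    rcases Nat.eq_zero_or_pos n with hn | hn
    · subst hn
      have e2 : (0 : ℕ) ^ c ≤ 1 := by
        rcases Nat.eq_zero_or_pos c with hc | hc
        · subst hc; simp
        · rw [Nat.zero_pow hc]; exact Nat.zero_le _
      have e3 : a * 0 ^ c ≤ a * 1 := Nat.mul_le_mul_left _ e2
      have e4 : 0 ≤ (4 * a + 1) * 0 ^ (c + 1) := Nat.zero_le _
      omega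
    · have e2 : n ^ c ≤ n ^ (c + 1) := Nat.pow_le_pow_right hn (Nat.le_succ c)
      have e3 : n ≤ n ^ (c + 1) := Nat.le_self_pow (Nat.succ_ne_zero c) n
      nlinarith
  · show (C' n).depth ≤ _
    have e1 : (C n).depth ≤ b * Nat.log 2 n ^ d + b := hd n
    have e2 := h4 n
    have e3 : 0 ≤ Nat.log 2 n ^ d := Nat.zero_le _
    nlinarith

end Pool.Agent.Results.MP_2af48a_lc.FewNegations
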