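import Pool.Agent.Lib_MP_2af48a_lc.AboveDefs

open Finset

namespace Pool.Agent.Results.MP_2af48a_lc.FewNegations

/-! ### Hazards

Kleene's three-valued logic; `none` stands for an unstable signal, which may take both values. -/

/-- Kleene's AND. -/
def and3 : Option Bool → Option Bool → Option Bool
  | some false, _ => some false
  | _, some false => some false
  | some true, some true => some true
  | _, _ => none

/-- Kleene's OR. -/
def or3 : Option Bool → Option Bool → Option Bool
  | some true, _ => some true
  | _, some true => some true
  | some false, some false => some false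
  | _, _ => none

/-- Kleene's NOT. -/
def not3 : Option Bool → Option Bool
  | some b => some (!b)
  | none => none

/-- Three-valued value of a wire. -/
def Wire.val3 {n k : ℕ} (α : Fin n → Option Bool) (v : Fin k → Option Bool) :
    Wire n k → Option Bool
  | .const b => some b
  | .var i => α i
  | .gate g => v g

/-- Three-valued value of a gate. -/
def Gate.val3 {n k : ℕ} (α : Fin n → Option Bool) (v : Fin k → Option Bool) :
    Gate n k → Option Bool
  | .and a b => and3 (a.val3 α v) (b.val3 α v)
  | .or a b => or3 (a.val3 α v) (b.val3 α v)
  | .not a => not3 (a.val3 α v)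

/-- Three-valued value of gate number `g`. -/
def Circuit.gateVal3 {n : ℕ} (C : Circuit n) (α : Fin n → Option Bool) (g : ℕ)
    (hg : g < C.size) : Option Bool :=
  (C.gate ⟨g, hg⟩).val3 α (fun g' => C.gateVal3 α g'.val (lt_trans g'.isLt hg))
termination_by g
decreasing_by exact g'.isLt

/-- Three-valued value of a circuit. -/
def Circuit.eval3 {n : ℕ} (C : Circuit n) (α : Fin n → Option Bool) : Option Bool :=
  C.gateVal3 α C.out.val C.out.isLt

/-- Three-valued values of the gates of layer `j`. -/
def Layered.val3 {n : ℕ} (C : Layered n) (α : Fin n → Option Bool) :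
    (j : ℕ) → Fin (C.width j) → Option Bool
  | 0 => fun g => Fin.elim0 (Fin.cast C.width_zero g)
  | j + 1 => fun g => (C.gate j g).val3 α (C.val3 α j)

/-- Three-valued value of a layered circuit. -/
def Layered.eval3 {n : ℕ} (C : Layered n) (α : Fin n → Option Bool) : Option Bool :=
  C.val3 α C.layers C.out

/-- `z` is one of the inputs which `α` may stand for. -/
def Resolves {n : ℕ} (α : Fin n → Option Bool) (z : Fin n → Bool) : Prop :=
  ∀ i, α i = none ∨ α i = some (z i)

/-- The circuit has no hazard caused by unstable variables in `P`: if all variables outside `P` are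
stable and the value of the circuit does not depend on the unstable ones, then the output is
stable, too. -/
def Circuit.HazardFreeOn {n : ℕ} (C : Circuit n) (P : Finset (Fin n)) : Prop :=
  ∀ α : Fin n → Option Bool, (∀ i, α i = none → i ∈ P) →
    ∀ b : Bool, (∀ z, Resolves α z → C.eval z = b) → C.eval3 α = some b

/-- The layered circuit has no hazard caused by unstable variables in `P`. -/
def Layered.HazardFreeOn {n : ℕ} (C : Layered n) (P : Finset (Fin n)) : Prop :=
  ∀ α : Fin n → Option Bool, (∀ i, α i = none → i ∈ P) →
    ∀ b : Bool, (∀ z, Resolves α z → C.eval z = b) → C.eval3 α = some b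

/-- Functions computed by layered circuits of polynomial size and polylogarithmic width, with any
number of NOT gates, which have no hazards on some set of `N n` variables. -/
def SCHazardFree (N : ℕ → ℕ) (f : (n : ℕ) → (Fin n → Bool) → Bool) : Prop :=
  ∃ C : (n : ℕ) → Layered n, (∀ n x, (C n).eval x = f n x) ∧
    PolyBounded (fun n => (C n).size) ∧ PolylogBounded (fun n => (C n).maxWidth) ∧
    ∀ n, ∃ P : Finset (Fin n), N n ≤ P.card ∧ (C n).HazardFreeOn P

/-- Functions computed by circuits of polynomial size and polylogarithmic depth, with any
number of NOT gates, which have no hazards on some set of `N n` variables. -/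
def NCHazardFree (N : ℕ → ℕ) (f : (n : ℕ) → (Fin n → Bool) → Bool) : Prop :=
  ∃ C : (n : ℕ) → Circuit n, (∀ n x, (C n).eval x = f n x) ∧
    PolyBounded (fun n => (C n).size) ∧ PolylogBounded (fun n => (C n).depth) ∧
    ∀ n, ∃ P : Finset (Fin n), N n ≤ P.card ∧ (C n).HazardFreeOn P

end Pool.Agent.Results.MP_2af48a_lc.FewNegations
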