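import Pool.Agent.Lib_MP_2af48a_lc.OdoDefs

open Finset

namespace Pool.Agent.Results.MP_2af48a_lc.Odometer

/-! # Values of the function on the inputs of Alice and Bob -/

section Fn

variable {K p w m : ℕ}

lemma mkRow_lev (l t : ℕ) (i c : Fin w) (h : l ≤ K) : (mkRow K p l t i c).lev.val = l :=
  min_eq_left h

lemma mkRow_dig (l t : ℕ) (i c : Fin w) (h : t ≤ p) : (mkRow K p l t i c).dig.val = t :=
  min_eq_left h

lemma dmax_le (p l : ℕ) : dmax p l ≤ p := by
  unfold dmax
  split_ifs <;> omega

lemma EB_not (y : Cell K p w m → Lab w) (x x' x'' : Cell K p w m) (h : EB y x x' x'' = true) :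
    ¬ Viol x.1 x'.1 x''.1 (y x) (y x') (y x'') := by
  unfold EB at h
  simpa using h

/-- Alice -/
lemma runF_alice (σ : Row K p w → Fin m) (l : ℕ) : ∀ (c : Fin w) (s : Vec w m),
    (∀ i, s (i, σ (mkRow K p l 0 i c)) = true) →
    ∀ i, runF (EA σ) l c s (i, σ (mkRow K p l (dmax p l) i c)) = true := by
  induction l with
  | zero =>
    intro c s hs i
    exact hs i
  | succ l ih =>
    intro c s hs i
    have hd : dmax p (l + 1) = p := by unfold dmax; rw [if_neg (by omega)]
    rw [hd]
    have key : ∀ t, ∀ i, iter (fun t s' => stepF (EA σ) l (runF (EA σ) l) c t s') t s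
        (i, σ (mkRow K p (l + 1) t i c)) = true := by
      intro t
      induction t with
      | zero => exact hs
      | succ t iht =>
        intro j
        change stepF (EA σ) l (runF (EA σ) l) c t
          (iter (fun t s' => stepF (EA σ) l (runF (EA σ) l) c t s') t s) _ = true
        unfold stepF
        rw [decide_eq_true_eq]
        intro β
        refine ⟨σ (mkRow K p l (dmax p l) β j), ?_, ?_⟩
        · apply ih
          intro i'
          unfold botF
          rw [decide_eq_true_eq]
          intro α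
          refine ⟨σ (mkRow K p (l + 1) t α c), iht α, ?_⟩
          unfold EA
          simp
        · unfold EA
          simp
    exact key p i

theorem outF_alice (hw : 0 < w) (σ : Row K p w → Fin m) : outF hw (EA σ) = true := by
  unfold outF
  rw [decide_eq_true_eq]
  refine ⟨σ (mkRow K p K (dmax p K) ⟨0, hw⟩ ⟨0, hw⟩), ?_, ?_⟩
  · apply runF_alice
    intro i
    unfold EA
    simp
  · unfold EA
    simp

/-- Bob -/
lemma runF_bob (y : Cell K p w m → Lab w) (l : ℕ) (hl : l ≤ K) : ∀ (c : Fin w) (s : Vec w m),
    (∀ i a, s (i, a) = true → y (mkRow K p l 0 i c, a) = none) →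
    ∀ i a, runF (EB y) l c s (i, a) = true → y (mkRow K p l (dmax p l) i c, a) = none := by
  induction l with
  | zero =>
    intro c s hs i a h
    exact hs i a h
  | succ l ih =>
    intro c s hs i a h
    have hd : dmax p (l + 1) = p := by unfold dmax; rw [if_neg (by omega)]
    rw [hd]
    have key : ∀ t, t ≤ p → ∀ i a, iter (fun t s' => stepF (EB y) l (runF (EB y) l) c t s') t s
        (i, a) = true → y (mkRow K p (l + 1) t i c, a) = none := by
      intro t
      induction t with
      | zero => intro _; exact hs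
      | succ t iht =>
        intro ht j a hst
        change stepF (EB y) l (runF (EB y) l) c t
          (iter (fun t s' => stepF (EB y) l (runF (EB y) l) c t s') t s) (j, a) = true at hst
        unfold stepF at hst
        rw [decide_eq_true_eq] at hst
        by_contra hne
        obtain ⟨⟨α0, β⟩, hab⟩ := Option.ne_none_iff_exists'.mp hne
        obtain ⟨b, hb1, hb2⟩ := hst β
        have hz : y (mkRow K p l (dmax p l) β j, b) = none := by
          refine ih (by omega) j _ ?_ β b hb1
          intro i' a' hbot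
          unfold botF at hbot
          rw [decide_eq_true_eq] at hbot
          by_contra hne'
          obtain ⟨⟨α, β'⟩, hab'⟩ := Option.ne_none_iff_exists'.mp hne'
          obtain ⟨a'', h1, h2⟩ := hbot α
          have h3 := iht (by omega) α a'' h1
          apply EB_not _ _ _ _ h2
          refine Or.inr (Or.inr (Or.inr ⟨?_, ?_, ?_, rfl, ?_, ?_, rfl, hne, ⟨β', hab'⟩, h3⟩))
          · rw [mkRow_dig _ _ _ _ ht]; omega
          · rw [mkRow_lev _ _ _ _ (by omega), mkRow_lev _ _ _ _ hl]
          · rw [mkRow_dig _ _ _ _ (by omega)]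
          · rfl
          · rw [mkRow_dig _ _ _ _ ht, mkRow_dig _ _ _ _ (by omega)]
        apply EB_not _ _ _ _ hb2
        refine Or.inr (Or.inr (Or.inl ⟨?_, ?_, ?_, rfl, ⟨α0, hab⟩, hz⟩))
        · rw [mkRow_dig _ _ _ _ ht]; omega
        · rw [mkRow_lev _ _ _ _ (by omega), mkRow_lev _ _ _ _ hl]
        · rw [mkRow_dig _ _ _ _ (dmax_le p l), mkRow_lev _ _ _ _ (by omega)]
    exact key p le_rfl i a h

theorem outF_bob (hw : 0 < w) (y : Cell K p w m → Lab w) : outF hw (EB y) = false := by
  by_contra hne
  rw [Bool.not_eq_false] at hne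
  unfold outF at hne
  rw [decide_eq_true_eq] at hne
  obtain ⟨a, h1, h2⟩ := hne
  have hs := runF_bob y K le_rfl ⟨0, hw⟩ _ (by
    intro i a h
    by_contra hne
    apply EB_not _ _ _ _ h
    refine Or.inr (Or.inl ⟨?_, ?_, hne⟩)
    · rw [mkRow_lev _ _ _ _ le_rfl]
    · rw [mkRow_dig _ _ _ _ (by omega)]) ⟨0, hw⟩ a h1
  apply EB_not _ _ _ _ h2
  refine Or.inl ⟨?_, ?_, rfl, rfl, hs⟩
  · rw [mkRow_lev _ _ _ _ le_rfl]
  · rw [mkRow_dig _ _ _ _ (dmax_le p K)]

/-- the function is not constant -/
lemma outF_false (hw : 0 < w) : outF hw (fun _ _ _ => false : Inp K p w m) = false := by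
  unfold outF
  simp

end Fn

end Pool.Agent.Results.MP_2af48a_lc.Odometer
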