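import Pool.Agent.Lib_MP_2af48a_lc.OdoAdv
import Pool.Agent.Lib_MP_2af48a_lc.OdoFn

open Finset

namespace Pool.Agent.Results.MP_2af48a_lc.Odometer

open MonotoneSeparation

/-! # Parameters and the lower bound for circuits without NOT gates -/

section Card

variable {K p w m : ℕ}

/-- rows as quadruples -/
def rowEquiv (K p w : ℕ) : Row K p w ≃ Fin (K + 1) × Fin (p + 1) × Fin w × Fin w :=
  ⟨fun r => (r.lev, r.dig, r.idx, r.ctx), fun q => ⟨q.1, q.2.1, q.2.2.1, q.2.2.2⟩,
    fun _ => rfl, fun _ => rfl⟩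

lemma card_row (K p w : ℕ) : Fintype.card (Row K p w) = (K + 1) * ((p + 1) * (w * w)) := by
  rw [Fintype.card_congr (rowEquiv K p w)]
  simp

lemma card_lab (w : ℕ) : Fintype.card (Lab w) = w * w + 1 := by
  simp [Lab]

end Card

/-! ### Parameters -/

/-- size of the memory -/
def oW (k n : ℕ) : ℕ := Nat.log 2 n ^ k + 2

/-- number of indices -/
def ow (k n : ℕ) : ℕ := 8 * oW k n + 1

/-- number of levels -/
def oK (n : ℕ) : ℕ := Nat.log 2 n / Nat.log 2 (Nat.log 2 n) + 1

/-- largest digit -/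
def op (b n : ℕ) : ℕ := (Nat.log 2 n + 2) ^ (b + 1)

/-- square root of the size of the gadget -/
def og (k n : ℕ) : ℕ := (Nat.log 2 n + 2) ^ (4 * k + 25)

/-- cells -/
abbrev OCell (k b n : ℕ) := Cell (oK n) (op b n) (ow k n) (og k n * og k n)

/-- number of variables -/
def oM (k b n : ℕ) : ℕ := Fintype.card (OCell k b n × OCell k b n × OCell k b n)

/-- numbering of the variables -/
noncomputable def oE (k b n : ℕ) : Fin (oM k b n) ≃ OCell k b n × OCell k b n × OCell k b n :=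
  (Fintype.equivFin _).symm

lemma ow_pos (k n : ℕ) : 0 < ow k n := Nat.succ_pos _

/-- the hard function -/
noncomputable def hardO (k b n : ℕ) (x : Fin (oM k b n) → Bool) : Bool :=
  outF (K := oK n) (p := op b n) (m := og k n * og k n) (ow_pos k n)
    (fun a c d => x ((oE k b n).symm (a, c, d)))

lemma hardO_false (k b n : ℕ) : hardO k b n (fun _ => false) = false := outF_false _

section Bounds

variable (T : ℕ) (hT : 2 ≤ T)

include hT

lemma T_add_one (a : ℕ) (x : ℕ) (h : x ≤ T ^ a) : x + 1 ≤ T ^ (a + 1) := by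
  have h1 : 1 ≤ T ^ a := Nat.one_le_pow _ _ (by omega)
  calc x + 1 ≤ T ^ a * 2 := by omega
    _ ≤ T ^ a * T := Nat.mul_le_mul_left _ hT
    _ = _ := (pow_succ _ _).symm

omit hT in
lemma T_mul {a b x y : ℕ} (h : x ≤ T ^ a) (h' : y ≤ T ^ b) : x * y ≤ T ^ (a + b) := by
  rw [pow_add]
  exact Nat.mul_le_mul h h'

lemma T_const (c : ℕ) : 2 ^ c ≤ T ^ c := Nat.pow_le_pow_left hT c

end Bounds

lemma oK_le (n : ℕ) : oK n + 1 ≤ Nat.log 2 n + 2 := by
  unfold oK
  have := Nat.div_le_self (Nat.log 2 n) (Nat.log 2 (Nat.log 2 n))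
  omega

lemma oW_le (k n : ℕ) : oW k n ≤ (Nat.log 2 n + 2) ^ (k + 2) := by
  unfold oW
  set T := Nat.log 2 n + 2 with hT
  have h1 : Nat.log 2 n ^ k ≤ T ^ k := Nat.pow_le_pow_left (by omega) k
  have h2 := T_add_one T (by omega) k _ h1
  have h3 := T_add_one T (by omega) (k + 1) _ h2
  exact h3

lemma ow_le (k n : ℕ) : ow k n ≤ (Nat.log 2 n + 2) ^ (k + 6) := by
  unfold ow
  set T := Nat.log 2 n + 2 with hT
  have h1 := oW_le k n
  rw [← hT] at h1
  have h2 : 8 * oW k n ≤ T ^ (3 + (k + 2)) :=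
    T_mul T (T_const T (by omega) 3) h1
  have h3 := T_add_one T (by omega) _ _ h2
  rwa [show 3 + (k + 2) + 1 = k + 6 by ring] at h3

lemma lab_le (k n : ℕ) : Fintype.card (Lab (ow k n)) ≤ (Nat.log 2 n + 2) ^ (2 * k + 13) := by
  rw [card_lab]
  set T := Nat.log 2 n + 2 with hT
  have h1 := ow_le k n
  rw [← hT] at h1
  have h2 := T_mul T h1 h1
  have h3 := T_add_one T (by omega) _ _ h2
  rwa [show k + 6 + (k + 6) + 1 = 2 * k + 13 by ring] at h3

lemma row_le (k b n : ℕ) : Fintype.card (Row (oK n) (op b n) (ow k n)) ≤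
    (Nat.log 2 n + 2) ^ (b + 2 * k + 15) := by
  rw [card_row]
  have h0 := oK_le n
  have h1 := ow_le k n
  unfold op
  set T := Nat.log 2 n + 2 with hT
  have h2 := T_mul T h1 h1
  have h3 : T ^ (b + 1) + 1 ≤ T ^ (b + 1 + 1) := T_add_one T (by omega) _ _ le_rfl
  have h4 := T_mul T h3 h2
  have h5 : oK n + 1 ≤ T ^ 1 := by rw [pow_one]; exact h0
  have h6 := T_mul T h5 h4
  rwa [show 1 + (b + 1 + 1 + (k + 6 + (k + 6))) = b + 2 * k + 15 by ring] at h6

lemma cell_le (k b n : ℕ) : Fintype.card (Row (oK n) (op b n) (ow k n)) * (og k n * og k n) ≤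
    (Nat.log 2 n + 2) ^ (b + 10 * k + 65) := by
  have h1 := row_le k b n
  unfold og
  set T := Nat.log 2 n + 2 with hT
  have h2 : T ^ (4 * k + 25) * T ^ (4 * k + 25) ≤ T ^ (4 * k + 25 + (4 * k + 25)) :=
    T_mul T le_rfl le_rfl
  have h3 := T_mul T h1 h2
  rwa [show b + 2 * k + 15 + (4 * k + 25 + (4 * k + 25)) = b + 10 * k + 65 by ring] at h3

lemma oM_eq (k b n : ℕ) : oM k b n =
    Fintype.card (Row (oK n) (op b n) (ow k n)) * (og k n * og k n) *
      (Fintype.card (Row (oK n) (op b n) (ow k n)) * (og k n * og k n) *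
        (Fintype.card (Row (oK n) (op b n) (ow k n)) * (og k n * og k n))) := by
  unfold oM
  simp only [Fintype.card_prod, Fintype.card_fin]

lemma oM_le (k b n : ℕ) : oM k b n ≤ (Nat.log 2 n + 2) ^ (3 * (b + 10 * k + 65)) := by
  rw [oM_eq]
  have h1 := cell_le k b n
  have h2 := T_mul (Nat.log 2 n + 2) h1 (T_mul (Nat.log 2 n + 2) h1 h1)
  refine h2.trans (le_of_eq ?_)
  congr 1
  ring

lemma pow_lt_two (E : ℕ) : ∃ L0, ∀ l ≥ L0, (l + 2) ^ E ≤ 2 ^ l := by
  have h : Filter.Tendsto (fun l : ℕ => ((l : ℝ) + 2) ^ E / 2 ^ ((l : ℝ) + 2)) Filter.atTop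
      (nhds 0) := by
    have h1 : Filter.Tendsto (fun x : ℝ => x ^ E / (2 : ℝ) ^ x) Filter.atTop (nhds 0) := by
      have h2 := isLittleO_pow_exp_pos_mul_atTop E (Real.log_pos (by norm_num : (1 : ℝ) < 2))
      have h3 := h2.tendsto_div_nhds_zero
      refine h3.congr (fun x => ?_)
      rw [Real.rpow_def_of_pos (by norm_num : (0 : ℝ) < 2)]
    have h4 : Filter.Tendsto (fun l : ℕ => (l : ℝ) + 2) Filter.atTop Filter.atTop :=
      Filter.tendsto_atTop_add_const_right _ _ tendsto_natCast_atTop_atTop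
    exact h1.comp h4
  have h5 := h.eventually_lt_const (show (0 : ℝ) < 1 / 4 by norm_num)
  obtain ⟨L0, hL0⟩ := Filter.eventually_atTop.mp h5
  refine ⟨L0, fun l hl => ?_⟩
  have h6 := hL0 l hl
  rw [div_lt_iff₀ (by positivity), Real.rpow_add (by norm_num), Real.rpow_natCast] at h6
  have h7 : ((l : ℝ) + 2) ^ E ≤ 2 ^ l := by
    have : (2 : ℝ) ^ (2 : ℝ) = 4 := by
      rw [show (2 : ℝ) = ((2 : ℕ) : ℝ) by norm_num, Real.rpow_natCast]; norm_num
    rw [this] at h6
    linarith
  exact_mod_cast h7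

/-- The lower bound for circuits without NOT gates. -/
theorem hardO_lower (k b : ℕ) (hk : 1 ≤ k) : ∃ N, ∀ n ≥ N, ∀ C : MonCircuit (oM k b n),
    (∀ x, C.eval x = hardO k b n x) → C.size ≤ 2 ^ (Nat.log 2 n) ^ k → n ^ b ≤ C.depth := by
  obtain ⟨L1, hL1⟩ := pow_lt_two (3 * (b + 10 * k + 65))
  obtain ⟨L2, hL2⟩ := pow_lt_two (b + 12 * k + 79)
  refine ⟨2 ^ (L1 + L2 + b + 2), fun n hn C hC hs => ?_⟩
  have hL : L1 + L2 + b + 2 ≤ Nat.log 2 n := Nat.le_log_of_pow_le (by norm_num) hn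
  have hMle := oM_le k b n
  have hcell := cell_le k b n
  have hlab := lab_le k n
  have hWle := oW_le k n
  set L := Nat.log 2 n with hLdef
  set T := L + 2 with hT
  have hM : oM k b n ≤ 2 ^ L := hMle.trans (hL1 L (by omega))
  have hLk : L ≤ L ^ k := by
    calc L = L ^ 1 := (pow_one L).symm
      _ ≤ L ^ k := Nat.pow_le_pow_right (by omega) hk
  have hM' : oM k b n ≤ 2 ^ L ^ k := hM.trans (Nat.pow_le_pow_right (by norm_num) hLk)
  have hWdef : oW k n = L ^ k + 2 := rfl
  have hsum : 2 * (oM k b n + C.size) ≤ 2 ^ oW k n := by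
    rw [hWdef, pow_add]
    omega
  have hA : Fintype.card (Row (oK n) (op b n) (ow k n)) * (og k n * og k n) *
      Fintype.card (Lab (ow k n)) + 1 ≤ 2 ^ L := by
    have h1 := T_mul T hcell hlab
    have h2 := T_add_one T (by omega) _ _ h1
    rw [show b + 10 * k + 65 + (2 * k + 13) + 1 = b + 12 * k + 79 by ring] at h2
    exact h2.trans (hL2 L (by omega))
  obtain ⟨S⟩ := adversary (K := oK n) (p := op b n) (w := ow k n) (oW k n) le_rfl
  have hrow1 : 1 ≤ (oK n + 1) * (op b n + 1) := Nat.mul_pos (Nat.succ_pos _) (Nat.succ_pos _)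
  have hrow : ow k n ≤ Fintype.card (Row (oK n) (op b n) (ow k n)) := by
    rw [card_row]
    calc ow k n = 1 * (ow k n * 1) := by ring
      _ ≤ ((oK n + 1) * (op b n + 1)) * (ow k n * ow k n) :=
        Nat.mul_le_mul hrow1 (Nat.mul_le_mul_left _ (ow_pos k n))
      _ = _ := by ring
  have hg2 : 2 ≤ og k n := by
    unfold og
    calc 2 ≤ T := by omega
      _ = T ^ 1 := (pow_one T).symm
      _ ≤ T ^ (4 * k + 25) := Nat.pow_le_pow_right (by omega) (by omega)
  have hD := lift_depth (r := og k n) (Viol (K := oK n) (p := op b n) (w := ow k n)) (oW k n)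
    (dmax (op b n) (oK n) * wt (op b n) (oK n)) (oW k n * T) S C (oE k b n) hg2
    (by rw [card_lab]; omega)
    (by
      have : ow k n = 8 * oW k n + 1 := rfl
      omega)
    (by
      intro σ
      rw [hC, hardO]
      have : (fun a c d => tA (oE k b n) σ ((oE k b n).symm (a, c, d))) = EA σ := by
        funext a c d
        unfold tA EA
        simp
      rw [this]
      exact outF_alice _ σ)
    (by
      intro y
      rw [hC, hardO]
      have : (fun a c d => tB Viol (oE k b n) y ((oE k b n).symm (a, c, d))) = EB y := by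
        funext a c d
        unfold tB EB
        simp
      rw [this]
      exact outF_bob _ y)
    (by
      refine hsum.trans ?_
      calc 2 ^ oW k n ≤ 2 ^ (oW k n + 1) := Nat.pow_le_pow_right (by norm_num) (by omega)
        _ ≤ og k n ^ (oW k n + 1) := Nat.pow_le_pow_left hg2 _)
    (by
      calc 2 * ((oM k b n + C.size) * (Fintype.card (Row (oK n) (op b n) (ow k n)) *
            (og k n * og k n) * Fintype.card (Lab (ow k n)) + 1) ^ oW k n)
          = (2 * (oM k b n + C.size)) * (Fintype.card (Row (oK n) (op b n) (ow k n)) *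
            (og k n * og k n) * Fintype.card (Lab (ow k n)) + 1) ^ oW k n := by ring
        _ ≤ 2 ^ oW k n * (2 ^ L) ^ oW k n := Nat.mul_le_mul hsum (Nat.pow_le_pow_left hA _)
        _ = 2 ^ (oW k n * (L + 1)) := by rw [← pow_mul, ← pow_add]; congr 1; ring
        _ ≤ 2 ^ (oW k n * T) := Nat.pow_le_pow_right (by norm_num) (Nat.mul_le_mul_left _ (by omega)))
    (by
      have h1 : oW k n * T ≤ T ^ (k + 2 + 1) := T_mul T hWle (by rw [pow_one])
      have h2 : oW k n * T + 2 ≤ T ^ (k + 2 + 1 + 1 + 1) :=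
        T_add_one T (by omega) _ _ (T_add_one T (by omega) _ _ h1)
      have h3 := T_mul T h2 hlab
      have h4 : 20 ≤ T ^ 5 := by
        have := T_const T (by omega) 5
        omega
      have h5 := T_mul T (T_mul T h4 hWle) h3
      refine h5.trans ?_
      unfold og
      apply Nat.pow_le_pow_right (by omega)
      omega)
  refine le_trans ?_ (le_trans (wt_lower (K := oK n) (p := op b n) (Nat.succ_pos _)) hD)
  -- the number of steps
  set l2 := Nat.log 2 L with hl2
  have hl2pos : 1 ≤ l2 := by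
    rw [hl2]
    exact Nat.le_log_of_pow_le (by norm_num) (by omega)
  have hT2 : 2 ^ l2 ≤ T := by
    have h := Nat.pow_log_le_self 2 (show L ≠ 0 by omega)
    rw [← hl2] at h
    exact h.trans (by omega)
  have hKL : L ≤ l2 * oK n := by
    unfold oK
    exact (Nat.lt_mul_div_succ L (by omega)).le
  have hn2 : n < 2 ^ (L + 1) := Nat.lt_pow_succ_log_self (by norm_num) n
  calc n ^ b ≤ (2 ^ (L + 1)) ^ b := Nat.pow_le_pow_left hn2.le b
    _ = 2 ^ ((L + 1) * b) := by rw [← pow_mul]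
    _ ≤ 2 ^ (L * (b + 1)) := by
        apply Nat.pow_le_pow_right (by norm_num)
        nlinarith
    _ ≤ 2 ^ (l2 * oK n * (b + 1)) := Nat.pow_le_pow_right (by norm_num) (Nat.mul_le_mul_right _ hKL)
    _ = (2 ^ l2) ^ ((b + 1) * oK n) := by rw [← pow_mul]; congr 1; ring
    _ ≤ T ^ ((b + 1) * oK n) := Nat.pow_le_pow_left hT2 _
    _ = op b n ^ oK n := by unfold op; rw [← pow_mul]

end Pool.Agent.Results.MP_2af48a_lc.Odometer
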