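import Mathlib

open Finset

namespace Pool.Agent.Results.MP_2af48a_lc.Odometer

/-! # Definitions for the odometer function -/

/-- A row: level, digit, index, and context (the index of a row of the next level). -/
@[ext]
structure Row (K p w : ℕ) where
  lev : Fin (K + 1)
  dig : Fin (p + 1)
  idx : Fin w
  ctx : Fin w
deriving DecidableEq, Fintype

/-- the row with given level and digit (which are cut off at `K` and `p`) -/
def mkRow (K p : ℕ) {w : ℕ} (l t : ℕ) (i c : Fin w) : Row K p w :=
  ⟨⟨min l K, by omega⟩, ⟨min t p, by omega⟩, i, c⟩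

/-- largest digit of level `l` -/
def dmax (p l : ℕ) : ℕ := if l = 0 then 0 else p

/-- number of steps corresponding to one unit of the digit of level `l` -/
def wt (p : ℕ) : ℕ → ℕ
  | 0 => 1
  | l + 1 => dmax p l * wt p l + 1

/-- labels of cells: one (`none`) or zero with a pointer to the next row (of the same level, or,
if the digit is `0`, of the next level) and a pointer to the first row of the level below -/
abbrev Lab (w : ℕ) := Option (Fin w × Fin w)

/-- The violated constraints.
1. The top cell must be zero.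
2. Cells with digit `0` of the top level must be one.
3. If `u` is zero, then the first cell of the level below it is pointing to is zero.
4. If `u` is zero and the last cell `v` of the level below, with context `u`, is zero, then
the cell `z` of the level of `u`, with the next digit, `v` is pointing to is zero. -/
def Viol {K p w : ℕ} (u v z : Row K p w) (qu qv qz : Lab w) : Prop :=
  (z.lev.val = K ∧ z.dig.val = dmax p K ∧ z.idx.val = 0 ∧ z.ctx.val = 0 ∧ qz = none) ∨
  (z.lev.val = K ∧ z.dig.val = 0 ∧ qz ≠ none) ∨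
  (1 ≤ u.dig.val ∧ z.lev.val + 1 = u.lev.val ∧ z.dig.val = dmax p z.lev.val ∧ z.ctx = u.idx ∧
    (∃ α, qu = some (α, z.idx)) ∧ qz = none) ∨
  (1 ≤ u.dig.val ∧ v.lev.val + 1 = u.lev.val ∧ v.dig.val = 0 ∧ v.ctx = u.idx ∧
    z.lev = u.lev ∧ z.dig.val + 1 = u.dig.val ∧ z.ctx = u.ctx ∧ qu ≠ none ∧
    (∃ β, qv = some (z.idx, β)) ∧ qz = none)

/-- a cell: a row and a value of the gadget -/
abbrev Cell (K p w m : ℕ) := Row K p w × Fin m

/-- inputs: one variable for every triple of cells -/
abbrev Inp (K p w m : ℕ) := Cell K p w m → Cell K p w m → Cell K p w m → Bool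

/-- the values of a layer -/
abbrev Vec (w m : ℕ) := Fin w × Fin m → Bool

/-- iteration of a function depending on the number of the step -/
def iter {S : Type} (g : ℕ → S → S) : ℕ → S → S
  | 0, s => s
  | t + 1, s => g t (iter g t s)

section Fn

variable {K p w m : ℕ}

/-- first layer of the run of level `l` for the cell `(j, a)` with context `c` and digit `t + 1`
of level `l + 1`; here `s` is the layer with digit `t` of level `l + 1` -/
def botF (E : Inp K p w m) (l t : ℕ) (c j : Fin w) (a : Fin m) (s : Vec w m) : Vec w m := fun x =>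
  decide (∀ α : Fin w, ∃ b : Fin m, s (α, b) = true ∧
    E (mkRow K p (l + 1) (t + 1) j c, a) (mkRow K p l 0 x.1 j, x.2)
      (mkRow K p (l + 1) t α c, b) = true)

/-- one step of level `l + 1`; here `R` is the run of level `l` -/
def stepF (E : Inp K p w m) (l : ℕ) (R : Fin w → Vec w m → Vec w m) (c : Fin w) (t : ℕ)
    (s : Vec w m) : Vec w m := fun x =>
  decide (∀ β : Fin w, ∃ b : Fin m, R x.1 (botF E l t c x.1 x.2 s) (β, b) = true ∧
    E (mkRow K p (l + 1) (t + 1) x.1 c, x.2) (mkRow K p l (dmax p l) β x.1, b)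
      (mkRow K p l (dmax p l) β x.1, b) = true)

/-- the run of level `l` with context `c` -/
def runF (E : Inp K p w m) : ℕ → Fin w → Vec w m → Vec w m
  | 0, _, s => s
  | l + 1, c, s => iter (fun t s' => stepF E l (runF E l) c t s') p s

/-- the function -/
def outF (hw : 0 < w) (E : Inp K p w m) : Bool :=
  decide (∃ a : Fin m,
    runF E K ⟨0, hw⟩ (fun x => E (mkRow K p K 0 x.1 ⟨0, hw⟩, x.2) (mkRow K p K 0 x.1 ⟨0, hw⟩, x.2)
      (mkRow K p K 0 x.1 ⟨0, hw⟩, x.2)) (⟨0, hw⟩, a) = true ∧
    E (mkRow K p K (dmax p K) ⟨0, hw⟩ ⟨0, hw⟩, a) (mkRow K p K (dmax p K) ⟨0, hw⟩ ⟨0, hw⟩, a)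
      (mkRow K p K (dmax p K) ⟨0, hw⟩ ⟨0, hw⟩, a) = true)

/-- Alice's input -/
def EA (σ : Row K p w → Fin m) : Inp K p w m := fun x y z =>
  decide (σ x.1 = x.2 ∧ σ y.1 = y.2 ∧ σ z.1 = z.2)

open Classical in
/-- Bob's input -/
noncomputable def EB (y : Cell K p w m → Lab w) : Inp K p w m := fun x x' x'' =>
  decide (¬ Viol x.1 x'.1 x''.1 (y x) (y x') (y x''))

end Fn

end Pool.Agent.Results.MP_2af48a_lc.Odometer
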