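import Pool.Agent.Lib_MP_2af48a_lc.CopiesProof
import Pool.Agent.Lib_MP_2af48a_lc.OdoDefs

open Finset

namespace Pool.Agent.Results.MP_2af48a_lc.Odometer

open FewNegations.SCup

/-! # A register program for the odometer function -/

/-! ## Loops -/

lemma loop_run {ι : Type*} [DecidableEq ι] (X : ℕ → Bool) (P : ι → List Ins) (dst : ι → ℕ)
    (val : ι → Bool) (Keep : ℕ → Prop) (s0 : ℕ → Bool)
    (h1 : ∀ x s, (∀ r, Keep r → s r = s0 r) → run X s (P x) (dst x) = val x)
    (h2 : ∀ x s r, Keep r → run X s (P x) r = s r)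
    (h3 : ∀ x y s, y ≠ x → run X s (P x) (dst y) = s (dst y)) :
    ∀ (L : List ι) (s : ℕ → Bool), (∀ r, Keep r → s r = s0 r) →
      (∀ x ∈ L, run X s (L.flatMap P) (dst x) = val x) ∧
      (∀ y, y ∉ L → run X s (L.flatMap P) (dst y) = s (dst y)) ∧
      (∀ r, Keep r → run X s (L.flatMap P) r = s0 r) := by
  intro L
  induction L with
  | nil =>
    intro s hs
    refine ⟨fun x hx => absurd hx (by simp), fun y _ => rfl, fun r hr => ?_⟩
    exact hs r hr
  | cons x L ih =>
    intro s hs
    have hs1 : ∀ r, Keep r → run X s (P x) r = s0 r := fun r hr => (h2 x s r hr).trans (hs r hr)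
    obtain ⟨i1, i2, i3⟩ := ih (run X s (P x)) hs1
    have e : ∀ r, run X s ((x :: L).flatMap P) r = run X (run X s (P x)) (L.flatMap P) r := by
      intro r
      rw [List.flatMap_cons, run_append]
    refine ⟨fun y hy => ?_, fun y hy => ?_, fun r hr => ?_⟩
    · rw [e]
      by_cases hyL : y ∈ L
      · exact i1 y hyL
      · have hyx : y = x := by
          rcases List.mem_cons.mp hy with h | h
          · exact h
          · exact absurd h hyL
        rw [i2 y hyL, hyx]
        exact h1 x s hs
    · rw [e]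
      rw [List.mem_cons, not_or] at hy
      rw [i2 y hy.2]
      exact h3 x y s hy.1
    · rw [e]
      exact i3 r hr

section

variable {K p w m : ℕ}

/-- number of a pair -/
def enc (x : Fin w × Fin m) : ℕ := x.1.val * m + x.2.val

lemma enc_lt (x : Fin w × Fin m) : enc x < w * m := by
  unfold enc
  have h1 : (x.1.val + 1) * m ≤ w * m := Nat.mul_le_mul_right _ x.1.isLt
  have h2 := x.2.isLt
  rw [add_mul, one_mul] at h1
  omega

lemma enc_inj {x y : Fin w × Fin m} (h : enc x = enc y) : x = y := by
  unfold enc at h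
  have hm : 0 < m := Nat.lt_of_le_of_lt (Nat.zero_le _) x.2.isLt
  have h1 : x.1.val = y.1.val := by
    have e1 : (x.1.val * m + x.2.val) / m = x.1.val := by
      rw [mul_comm, Nat.mul_add_div hm, Nat.div_eq_of_lt x.2.isLt, add_zero]
    have e2 : (y.1.val * m + y.2.val) / m = y.1.val := by
      rw [mul_comm, Nat.mul_add_div hm, Nat.div_eq_of_lt y.2.isLt, add_zero]
    rw [← e1, ← e2, h]
  have h2 : x.2.val = y.2.val := by
    rw [h1] at h
    omega
  exact Prod.ext (Fin.ext h1) (Fin.ext h2)

/-- all pairs -/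
def allP (w m : ℕ) : List (Fin w × Fin m) := (List.finRange w) ×ˢ (List.finRange m)

lemma mem_allP (x : Fin w × Fin m) : x ∈ allP w m := by
  unfold allP
  rw [List.mem_product]
  exact ⟨List.mem_finRange _, List.mem_finRange _⟩

lemma allP_length (w m : ℕ) : (allP w m).length = w * m := by
  unfold allP
  rw [List.length_product, List.length_finRange, List.length_finRange]

/-! ## Disjunctions and conjunctions of disjunctions -/

/-- disjunction in register 1, with the help of register 2 -/
def innP (A : ℕ) (α : Fin w) (q : Fin m → ℕ) (L : List (Fin m)) : List Ins :=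
  L.flatMap (fun b => [.var 2 (q b), .and 2 2 (A + enc (α, b)), .or 1 1 2])

lemma innP_run (X : ℕ → Bool) (A : ℕ) (hA : 3 ≤ A) (α : Fin w) (q : Fin m → ℕ) :
    ∀ (L : List (Fin m)) (s : ℕ → Bool),
      (run X s (innP A α q L) 1 = (s 1 || L.any (fun b => s (A + enc (α, b)) && X (q b)))) ∧
      (∀ r, r ≠ 1 → r ≠ 2 → run X s (innP A α q L) r = s r) := by
  intro L
  induction L with
  | nil =>
    intro s
    exact ⟨by simp [innP, run], fun r _ _ => rfl⟩
  | cons b L ih =>
    intro s
    set s1 := run X s [.var 2 (q b), .and 2 2 (A + enc (α, b)), .or 1 1 2] with hs1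
    have e1 : s1 1 = (s 1 || (s (A + enc (α, b)) && X (q b))) := by
      have h2 : A + enc (α, b) ≠ 2 := by omega
      simp [hs1, run, step, Ins.dst, Ins.val, h2, Bool.and_comm]
    have e2 : ∀ r, r ≠ 1 → r ≠ 2 → s1 r = s r := by
      intro r h1 h2
      simp [hs1, run, step, Ins.dst, h1, h2]
    have e : ∀ r, run X s (innP A α q (b :: L)) r = run X s1 (innP A α q L) r := by
      intro r
      unfold innP
      rw [List.flatMap_cons, run_append]
    obtain ⟨i1, i2⟩ := ih s1
    constructor
    · rw [e, i1, e1, List.any_cons, Bool.or_assoc]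
      congr 2
      congr 1
      funext b'
      rw [e2 _ (by omega) (by omega)]
    · intro r h1 h2
      rw [e, i2 r h1 h2, e2 r h1 h2]

/-- conjunction of disjunctions -/
def cdP (A : ℕ) (q : Fin w → Fin m → ℕ) (dest : ℕ) : List Ins :=
  [.cst 0 true] ++ (List.finRange w).flatMap (fun α =>
    [.cst 1 false] ++ innP A α (q α) (List.finRange m) ++ [.and 0 0 1]) ++ [.or dest 0 0]

/-- its value -/
def cdV (s X : ℕ → Bool) (A : ℕ) (q : Fin w → Fin m → ℕ) : Bool :=
  decide (∀ α : Fin w, ∃ b : Fin m, s (A + enc (α, b)) = true ∧ X (q α b) = true)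

lemma cdP_run (X : ℕ → Bool) (A : ℕ) (hA : 3 ≤ A) (q : Fin w → Fin m → ℕ) (dest : ℕ)
    (s : ℕ → Bool) :
    (run X s (cdP A q dest) dest = cdV s X A q) ∧
    (∀ r, 3 ≤ r → r ≠ dest → run X s (cdP A q dest) r = s r) := by
  have main : ∀ (L : List (Fin w)) (s' : ℕ → Bool), (∀ r, 3 ≤ r → s' r = s r) →
      (run X s' (L.flatMap (fun α =>
        [.cst 1 false] ++ innP A α (q α) (List.finRange m) ++ [.and 0 0 1])) 0
        = (s' 0 && L.all (fun α => decide (∃ b : Fin m, s (A + enc (α, b)) = true ∧
          X (q α b) = true)))) ∧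
      (∀ r, 3 ≤ r → run X s' (L.flatMap (fun α =>
        [.cst 1 false] ++ innP A α (q α) (List.finRange m) ++ [.and 0 0 1])) r = s r) := by
    intro L
    induction L with
    | nil =>
      intro s' hs'
      exact ⟨by simp [run], fun r hr => hs' r hr⟩
    | cons α L ih =>
      intro s' hs'
      set s0 := run X s' [.cst 1 false] with hs0
      have f0 : s0 1 = false := by simp [hs0, run, step, Ins.dst, Ins.val]
      have f1 : ∀ r, r ≠ 1 → s0 r = s' r := by
        intro r hr
        simp [hs0, run, step, Ins.dst, hr]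
      obtain ⟨g1, g2⟩ := innP_run X A hA α (q α) (List.finRange m) s0
      set s1 := run X s0 (innP A α (q α) (List.finRange m)) with hs1
      set s2 := run X s1 [.and 0 0 1] with hs2
      have k0 : s2 0 = (s' 0 && decide (∃ b : Fin m, s (A + enc (α, b)) = true ∧
          X (q α b) = true)) := by
        have h1 : s2 0 = (s1 0 && s1 1) := by simp [hs2, run, step, Ins.dst, Ins.val]
        rw [h1, g2 0 (by norm_num) (by norm_num), f1 0 (by norm_num), g1, f0, Bool.false_or]
        congr 1
        apply Bool.eq_iff_iff.mpr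
        rw [List.any_eq_true, decide_eq_true_eq]
        constructor
        · rintro ⟨b, -, hb⟩
          rw [Bool.and_eq_true, f1 _ (by omega), hs' _ (by omega)] at hb
          exact ⟨b, hb⟩
        · rintro ⟨b, hb⟩
          refine ⟨b, List.mem_finRange _, ?_⟩
          rw [Bool.and_eq_true, f1 _ (by omega), hs' _ (by omega)]
          exact hb
      have k1 : ∀ r, 3 ≤ r → s2 r = s r := by
        intro r hr
        have h1 : s2 r = s1 r := by
          have : r ≠ 0 := by omega
          simp [hs2, run, step, Ins.dst, this]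
        rw [h1, g2 r (by omega) (by omega), f1 r (by omega), hs' r hr]
      have e : ∀ r, run X s' ((α :: L).flatMap (fun α =>
          [.cst 1 false] ++ innP A α (q α) (List.finRange m) ++ [.and 0 0 1])) r
          = run X s2 (L.flatMap (fun α =>
          [.cst 1 false] ++ innP A α (q α) (List.finRange m) ++ [.and 0 0 1])) r := by
        intro r
        rw [List.flatMap_cons, run_append, run_append, run_append]
      obtain ⟨i1, i2⟩ := ih s2 k1
      refine ⟨?_, fun r hr => ?_⟩
      · rw [e, i1, k0, List.all_cons, Bool.and_assoc]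
      · rw [e, i2 r hr]
  set s0 := run X s [.cst 0 true] with hs0
  have f0 : s0 0 = true := by simp [hs0, run, step, Ins.dst, Ins.val]
  have f1 : ∀ r, 3 ≤ r → s0 r = s r := by
    intro r hr
    have : r ≠ 0 := by omega
    simp [hs0, run, step, Ins.dst, this]
  obtain ⟨g1, g2⟩ := main (List.finRange w) s0 f1
  set s1 := run X s0 ((List.finRange w).flatMap (fun α =>
    [.cst 1 false] ++ innP A α (q α) (List.finRange m) ++ [.and 0 0 1])) with hs1
  have e : ∀ r, run X s (cdP A q dest) r = run X s1 [.or dest 0 0] r := by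
    intro r
    unfold cdP
    rw [run_append, run_append]
  constructor
  · rw [e]
    have h1 : run X s1 [.or dest 0 0] dest = (s1 0 || s1 0) := by
      simp [run, step, Ins.dst, Ins.val]
    rw [h1, Bool.or_self, g1, f0, Bool.true_and]
    unfold cdV
    apply Bool.eq_iff_iff.mpr
    rw [List.all_eq_true, decide_eq_true_eq]
    constructor
    · intro h α
      simpa using h α (List.mem_finRange _)
    · intro h α _
      simpa using h α
  · intro r hr hd
    rw [e]
    have h1 : run X s1 [.or dest 0 0] r = s1 r := by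
      simp [run, step, Ins.dst, hd]
    rw [h1, g2 r hr]

/-! ## The program -/

/-- first register of the current layer of level `l` -/
def Ab (w m l : ℕ) : ℕ := 3 + 2 * l * (w * m)

/-- first register of the next layer of level `l` -/
def Bb (w m l : ℕ) : ℕ := 3 + (2 * l + 1) * (w * m)

lemma Bb_eq (w m l : ℕ) : Bb w m l = Ab w m l + w * m := by
  unfold Bb Ab
  ring

lemma Ab_succ (w m l : ℕ) : Ab w m (l + 1) = Bb w m l + w * m := by
  unfold Bb Ab
  ring

lemma three_le_Ab (w m l : ℕ) : 3 ≤ Ab w m l := Nat.le_add_right _ _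

variable (pos : Cell K p w m → Cell K p w m → Cell K p w m → ℕ)

/-- first layer of a run -/
def botP (l t : ℕ) (c j : Fin w) (a : Fin m) : List Ins :=
  (allP w m).flatMap (fun x => cdP (Ab w m (l + 1)) (fun α b =>
    pos (mkRow K p (l + 1) (t + 1) j c, a) (mkRow K p l 0 x.1 j, x.2)
      (mkRow K p (l + 1) t α c, b)) (Ab w m l + enc x))

/-- one value of the next layer -/
def oneP (l : ℕ) (R : Fin w → List Ins) (c : Fin w) (t : ℕ) (x : Fin w × Fin m) : List Ins :=
  botP pos l t c x.1 x.2 ++ R x.1 ++ cdP (Ab w m l) (fun β b =>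
    pos (mkRow K p (l + 1) (t + 1) x.1 c, x.2) (mkRow K p l (dmax p l) β x.1, b)
      (mkRow K p l (dmax p l) β x.1, b)) (Bb w m (l + 1) + enc x)

/-- copy a layer -/
def copyP (w m l : ℕ) : List Ins :=
  (allP w m).flatMap (fun x => [.or (Ab w m l + enc x) (Bb w m l + enc x) (Bb w m l + enc x)])

/-- one step -/
def stepP (l : ℕ) (R : Fin w → List Ins) (c : Fin w) (t : ℕ) : List Ins :=
  (allP w m).flatMap (oneP pos l R c t) ++ copyP w m (l + 1)

/-- a run -/
def runP : ℕ → Fin w → List Ins
  | 0, _ => []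
  | l + 1, c => (List.range p).flatMap (fun t => stepP pos l (runP l) c t)

/-- the whole program; the result is in register 1 -/
def outP (hw : 0 < w) : List Ins :=
  (allP w m).flatMap (fun x => [.var (Ab w m K + enc x)
    (pos (mkRow K p K 0 x.1 ⟨0, hw⟩, x.2) (mkRow K p K 0 x.1 ⟨0, hw⟩, x.2)
      (mkRow K p K 0 x.1 ⟨0, hw⟩, x.2))]) ++
  runP pos K ⟨0, hw⟩ ++ [.cst 1 false] ++
  innP (Ab w m K) ⟨0, hw⟩ (fun a => pos (mkRow K p K (dmax p K) ⟨0, hw⟩ ⟨0, hw⟩, a)
    (mkRow K p K (dmax p K) ⟨0, hw⟩ ⟨0, hw⟩, a)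
    (mkRow K p K (dmax p K) ⟨0, hw⟩ ⟨0, hw⟩, a)) (List.finRange m)

/-- the input of the function -/
def inp (X : ℕ → Bool) : Inp K p w m := fun x y z => X (pos x y z)

/-- a layer -/
def arr (w m A : ℕ) (s : ℕ → Bool) : Vec w m := fun x => s (A + enc x)

lemma botP_run (X : ℕ → Bool) (l t : ℕ) (c j : Fin w) (a : Fin m) (s : ℕ → Bool) :
    (arr w m (Ab w m l) (run X s (botP pos l t c j a))
      = botF (inp pos X) l t c j a (arr w m (Ab w m (l + 1)) s)) ∧
    (∀ r, Ab w m (l + 1) ≤ r → run X s (botP pos l t c j a) r = s r) := by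
  have hlt : ∀ x : Fin w × Fin m, Ab w m l + enc x < Ab w m (l + 1) := by
    intro x
    have := enc_lt x
    rw [Ab_succ, Bb_eq]
    omega
  obtain ⟨h1, -, h3⟩ := loop_run X (fun x => cdP (Ab w m (l + 1)) (fun α b =>
    pos (mkRow K p (l + 1) (t + 1) j c, a) (mkRow K p l 0 x.1 j, x.2)
      (mkRow K p (l + 1) t α c, b)) (Ab w m l + enc x)) (fun x => Ab w m l + enc x)
    (fun x => botF (inp pos X) l t c j a (arr w m (Ab w m (l + 1)) s) x)
    (fun r => Ab w m (l + 1) ≤ r) s
    (fun x s' hs' => by
      rw [(cdP_run X _ (three_le_Ab w m (l + 1)) _ _ s').1]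
      unfold cdV botF
      congr 1
      apply propext
      apply forall_congr'
      intro α
      apply exists_congr
      intro b
      rw [hs' _ (Nat.le_add_right _ _)]
      rfl)
    (fun x s' r hr => (cdP_run X _ (three_le_Ab w m (l + 1)) _ _ s').2 r
      (le_trans (three_le_Ab w m (l + 1)) hr) (by have := hlt x; omega))
    (fun x y s' hyx => (cdP_run X _ (three_le_Ab w m (l + 1)) _ _ s').2 _
      (le_trans (three_le_Ab w m l) (Nat.le_add_right _ _)) (fun h => hyx (enc_inj (by omega))))
    (allP w m) s (fun r _ => rfl)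
  refine ⟨?_, h3⟩
  funext x
  exact h1 x (mem_allP x)

/-- what a run has to do -/
def RunOK (X : ℕ → Bool) (l : ℕ) (R : Fin w → List Ins) : Prop :=
  ∀ (c : Fin w) (s : ℕ → Bool),
    (arr w m (Ab w m l) (run X s (R c)) = runF (inp pos X) l c (arr w m (Ab w m l) s)) ∧
    (∀ r, Ab w m (l + 1) ≤ r → run X s (R c) r = s r)

lemma copyP_run (X : ℕ → Bool) (l : ℕ) (s : ℕ → Bool) :
    (arr w m (Ab w m l) (run X s (copyP w m l)) = arr w m (Bb w m l) s) ∧
    (∀ r, Bb w m l ≤ r → run X s (copyP w m l) r = s r) := by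
  have hlt : ∀ x : Fin w × Fin m, Ab w m l + enc x < Bb w m l := by
    intro x
    have := enc_lt x
    rw [Bb_eq]
    omega
  obtain ⟨h1, -, h3⟩ := loop_run X (fun x : Fin w × Fin m =>
    [.or (Ab w m l + enc x) (Bb w m l + enc x) (Bb w m l + enc x)]) (fun x => Ab w m l + enc x)
    (fun x => arr w m (Bb w m l) s x)
    (fun r => Bb w m l ≤ r) s
    (fun x s' hs' => by
      simp only [run, step, List.foldl_cons, List.foldl_nil, Ins.dst, Ins.val,
        Function.update_self, Bool.or_self]
      exact hs' _ (Nat.le_add_right _ _))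
    (fun x s' r hr => by
      have h1 := hlt x
      have h2 : r ≠ Ab w m l + enc x := by omega
      simp [run, step, Ins.dst, h2])
    (fun x y s' hyx => by
      have h2 : Ab w m l + enc y ≠ Ab w m l + enc x := fun h => hyx (enc_inj (by omega))
      simp only [run, step, List.foldl_cons, List.foldl_nil, Ins.dst, Ins.val]
      rw [Function.update_of_ne h2])
    (allP w m) s (fun r _ => rfl)
  refine ⟨?_, h3⟩
  funext x
  exact h1 x (mem_allP x)

lemma stepP_run (X : ℕ → Bool) (l : ℕ) (R : Fin w → List Ins) (hR : RunOK pos X l R)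
    (c : Fin w) (t : ℕ) (s : ℕ → Bool) :
    (arr w m (Ab w m (l + 1)) (run X s (stepP pos l R c t))
      = stepF (inp pos X) l (runF (inp pos X) l) c t (arr w m (Ab w m (l + 1)) s)) ∧
    (∀ r, Ab w m (l + 2) ≤ r → run X s (stepP pos l R c t) r = s r) := by
  have hB : Bb w m (l + 1) = Ab w m (l + 1) + w * m := Bb_eq w m (l + 1)
  have hA : Ab w m (l + 2) = Bb w m (l + 1) + w * m := Ab_succ w m (l + 1)
  have h3A := three_le_Ab w m l
  have hAA : Ab w m (l + 1) = Ab w m l + w * m + w * m := by rw [Ab_succ, Bb_eq]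
  -- what one value does
  have hone : ∀ (x : Fin w × Fin m) (s' : ℕ → Bool),
      (run X s' (oneP pos l R c t x) (Bb w m (l + 1) + enc x) = stepF (inp pos X) l
        (runF (inp pos X) l) c t (arr w m (Ab w m (l + 1)) s') x) ∧
      (∀ r, Ab w m (l + 1) ≤ r → r ≠ Bb w m (l + 1) + enc x →
        run X s' (oneP pos l R c t x) r = s' r) := by
    intro x s'
    obtain ⟨b1, b2⟩ := botP_run pos X l t c x.1 x.2 s'
    set s1 := run X s' (botP pos l t c x.1 x.2) with hs1
    obtain ⟨r1, r2⟩ := hR x.1 s1
    set s2 := run X s1 (R x.1) with hs2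
    obtain ⟨c1, c2⟩ := cdP_run X (Ab w m l) h3A (fun β b =>
      pos (mkRow K p (l + 1) (t + 1) x.1 c, x.2) (mkRow K p l (dmax p l) β x.1, b)
      (mkRow K p l (dmax p l) β x.1, b)) (Bb w m (l + 1) + enc x) s2
    have e : ∀ r, run X s' (oneP pos l R c t x) r = run X s2 (cdP (Ab w m l) (fun β b =>
      pos (mkRow K p (l + 1) (t + 1) x.1 c, x.2) (mkRow K p l (dmax p l) β x.1, b)
      (mkRow K p l (dmax p l) β x.1, b)) (Bb w m (l + 1) + enc x)) r := by
      intro r
      unfold oneP
      rw [run_append, run_append]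
    constructor
    · rw [e, c1]
      unfold cdV stepF
      congr 1
      apply propext
      apply forall_congr'
      intro β
      apply exists_congr
      intro b
      have h4 : s2 (Ab w m l + enc (β, b)) = runF (inp pos X) l x.1
          (botF (inp pos X) l t c x.1 x.2 (arr w m (Ab w m (l + 1)) s')) (β, b) := by
        rw [← b1]
        exact congrFun r1 (β, b)
      rw [h4]
      rfl
    · intro r hr hne
      rw [e, c2 r (by omega) hne, r2 r hr, b2 r hr]
  obtain ⟨h1, -, h3⟩ := loop_run X (oneP pos l R c t) (fun x => Bb w m (l + 1) + enc x)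
    (fun x => stepF (inp pos X) l (runF (inp pos X) l) c t (arr w m (Ab w m (l + 1)) s) x)
    (fun r => (Ab w m (l + 1) ≤ r ∧ r < Bb w m (l + 1)) ∨ Ab w m (l + 2) ≤ r) s
    (fun x s' hs' => by
      rw [(hone x s').1]
      have e : arr w m (Ab w m (l + 1)) s' = arr w m (Ab w m (l + 1)) s := by
        funext y
        have := enc_lt y
        exact hs' _ (Or.inl ⟨Nat.le_add_right _ _, by omega⟩)
      rw [e])
    (fun x s' r hr => (hone x s').2 r (by omega) (by have := enc_lt x; omega))
    (fun x y s' hyx => (hone x s').2 _ (by omega) (fun h => hyx (enc_inj (by omega))))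
    (allP w m) s (fun r _ => rfl)
  set s1 := run X s ((allP w m).flatMap (oneP pos l R c t)) with hs1
  obtain ⟨c1, c2⟩ := copyP_run (w := w) (m := m) X (l + 1) s1
  have e : ∀ r, run X s (stepP pos l R c t) r = run X s1 (copyP w m (l + 1)) r := by
    intro r
    unfold stepP
    rw [run_append]
  constructor
  · have e1 : arr w m (Ab w m (l + 1)) (run X s (stepP pos l R c t))
        = arr w m (Ab w m (l + 1)) (run X s1 (copyP w m (l + 1))) := by
      funext x
      exact e _
    rw [e1, c1]
    funext x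
    exact h1 x (mem_allP x)
  · intro r hr
    rw [e, c2 r (by omega), h3 r (Or.inr hr)]

lemma runP_run (X : ℕ → Bool) : ∀ l : ℕ, RunOK pos X l (runP pos l) := by
  intro l
  induction l with
  | zero =>
    intro c s
    exact ⟨rfl, fun r _ => rfl⟩
  | succ l ih =>
    intro c s
    have main : ∀ t : ℕ,
        (arr w m (Ab w m (l + 1)) (run X s ((List.range t).flatMap
          (fun t => stepP pos l (runP pos l) c t))) = iter (fun t s' => stepF (inp pos X) l
            (runF (inp pos X) l) c t s') t (arr w m (Ab w m (l + 1)) s)) ∧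
        (∀ r, Ab w m (l + 2) ≤ r → run X s ((List.range t).flatMap
          (fun t => stepP pos l (runP pos l) c t)) r = s r) := by
      intro t
      induction t with
      | zero => exact ⟨rfl, fun r _ => rfl⟩
      | succ t iht =>
        obtain ⟨j1, j2⟩ := iht
        set s1 := run X s ((List.range t).flatMap (fun t => stepP pos l (runP pos l) c t))
          with hs1
        obtain ⟨k1, k2⟩ := stepP_run pos X l (runP pos l) ih c t s1
        have e : ∀ r, run X s ((List.range (t + 1)).flatMap
            (fun t => stepP pos l (runP pos l) c t)) r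
            = run X s1 (stepP pos l (runP pos l) c t) r := by
          intro r
          rw [List.range_succ, List.flatMap_append, run_append]
          simp only [List.flatMap_cons, List.flatMap_nil, List.append_nil]
          rfl
        constructor
        · have e1 : arr w m (Ab w m (l + 1)) (run X s ((List.range (t + 1)).flatMap
              (fun t => stepP pos l (runP pos l) c t)))
              = arr w m (Ab w m (l + 1)) (run X s1 (stepP pos l (runP pos l) c t)) := by
            funext x
            exact e _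
          rw [e1, k1, j1]
          rfl
        · intro r hr
          rw [e, k2 r hr, j2 r hr]
    exact main p

/-- **The program computes the function.** -/
theorem outP_run (hw : 0 < w) (X s : ℕ → Bool) :
    run X s (outP pos hw) 1 = outF hw (inp pos X) := by
  obtain ⟨h1, -, -⟩ := loop_run X (fun x : Fin w × Fin m => [.var (Ab w m K + enc x)
      (pos (mkRow K p K 0 x.1 ⟨0, hw⟩, x.2) (mkRow K p K 0 x.1 ⟨0, hw⟩, x.2)
      (mkRow K p K 0 x.1 ⟨0, hw⟩, x.2))]) (fun x => Ab w m K + enc x)
    (fun x => inp pos X (mkRow K p K 0 x.1 ⟨0, hw⟩, x.2) (mkRow K p K 0 x.1 ⟨0, hw⟩, x.2)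
      (mkRow K p K 0 x.1 ⟨0, hw⟩, x.2))
    (fun _ => False) s
    (fun x s' hs' => by
      simp only [run, step, List.foldl_cons, List.foldl_nil, Ins.dst, Ins.val,
        Function.update_self]
      rfl)
    (fun x s' r hr => hr.elim)
    (fun x y s' hyx => by
      have h2 : Ab w m K + enc y ≠ Ab w m K + enc x := fun h => hyx (enc_inj (by omega))
      simp only [run, step, List.foldl_cons, List.foldl_nil, Ins.dst, Ins.val]
      rw [Function.update_of_ne h2])
    (allP w m) s (fun r hr => hr.elim)
  unfold outP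
  rw [run_append, run_append, run_append]
  set s1 := run X s ((allP w m).flatMap (fun x : Fin w × Fin m => [.var (Ab w m K + enc x)
      (pos (mkRow K p K 0 x.1 ⟨0, hw⟩, x.2) (mkRow K p K 0 x.1 ⟨0, hw⟩, x.2)
      (mkRow K p K 0 x.1 ⟨0, hw⟩, x.2))])) with hs1
  obtain ⟨r1, -⟩ := runP_run pos X K ⟨0, hw⟩ s1
  set s2 := run X s1 (runP pos K ⟨0, hw⟩) with hs2
  set s3 := run X s2 [.cst 1 false] with hs3
  have f0 : s3 1 = false := by simp [hs3, run, step, Ins.dst, Ins.val]
  have f1 : ∀ r, r ≠ 1 → s3 r = s2 r := by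
    intro r hr
    simp [hs3, run, step, Ins.dst, hr]
  rw [(innP_run X (Ab w m K) (three_le_Ab w m K) ⟨0, hw⟩ _ (List.finRange m) s3).1, f0,
    Bool.false_or]
  have e1 : arr w m (Ab w m K) s1 = fun x => inp pos X (mkRow K p K 0 x.1 ⟨0, hw⟩, x.2)
      (mkRow K p K 0 x.1 ⟨0, hw⟩, x.2) (mkRow K p K 0 x.1 ⟨0, hw⟩, x.2) := by
    funext x
    exact h1 x (mem_allP x)
  rw [e1] at r1
  have e2 : ∀ a : Fin m, s3 (Ab w m K + enc ((⟨0, hw⟩ : Fin w), a))
      = runF (inp pos X) K ⟨0, hw⟩ (fun x => inp pos X (mkRow K p K 0 x.1 ⟨0, hw⟩, x.2)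
      (mkRow K p K 0 x.1 ⟨0, hw⟩, x.2) (mkRow K p K 0 x.1 ⟨0, hw⟩, x.2)) (⟨0, hw⟩, a) := by
    intro a
    have := three_le_Ab w m K
    rw [f1 _ (by omega)]
    exact congrFun r1 (⟨0, hw⟩, a)
  unfold outF
  apply Bool.eq_iff_iff.mpr
  rw [List.any_eq_true, decide_eq_true_eq]
  constructor
  · rintro ⟨a, -, ha⟩
    rw [Bool.and_eq_true, e2] at ha
    exact ⟨a, ha⟩
  · rintro ⟨a, ha⟩
    refine ⟨a, List.mem_finRange _, ?_⟩
    rw [Bool.and_eq_true, e2]
    exact ha

/-! ## Size of the program -/

/-- the instructions use registers `< R` and variables `< M`, and there are no NOT instructions -/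
def Good (R M : ℕ) (P : List Ins) : Prop := ∀ i ∈ P, i.ok R M ∧ i.isNot = false

lemma Good.append {R M : ℕ} {P Q : List Ins} (h1 : Good R M P) (h2 : Good R M Q) :
    Good R M (P ++ Q) := by
  intro i hi
  rcases List.mem_append.mp hi with h | h
  · exact h1 i h
  · exact h2 i h

lemma Good.flatMap {ι : Type*} {R M : ℕ} {L : List ι} {P : ι → List Ins}
    (h : ∀ x, Good R M (P x)) : Good R M (L.flatMap P) := by
  intro i hi
  obtain ⟨x, -, hx⟩ := List.mem_flatMap.mp hi
  exact h x i hx

lemma good_cst {R M d : ℕ} {b : Bool} (h : d < R) : Good R M [.cst d b] := by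
  intro i hi
  rw [List.mem_singleton] at hi
  subst hi
  exact ⟨h, rfl⟩

lemma good_var {R M d q : ℕ} (h : d < R) (hq : q < M) : Good R M [.var d q] := by
  intro i hi
  rw [List.mem_singleton] at hi
  subst hi
  exact ⟨⟨h, hq⟩, rfl⟩

lemma good_and {R M d a b : ℕ} (h : d < R) (ha : a < R) (hb : b < R) : Good R M [.and d a b] := by
  intro i hi
  rw [List.mem_singleton] at hi
  subst hi
  exact ⟨⟨h, ha, hb⟩, rfl⟩

lemma good_or {R M d a b : ℕ} (h : d < R) (ha : a < R) (hb : b < R) : Good R M [.or d a b] := by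
  intro i hi
  rw [List.mem_singleton] at hi
  subst hi
  exact ⟨⟨h, ha, hb⟩, rfl⟩

lemma innP_good {R M : ℕ} (A : ℕ) (hR : 3 ≤ R) (hA : A + w * m ≤ R) (α : Fin w) (q : Fin m → ℕ)
    (hq : ∀ b, q b < M) (L : List (Fin m)) : Good R M (innP A α q L) := by
  apply Good.flatMap
  intro b
  have h := enc_lt (α, b)
  have e : [Ins.var 2 (q b), Ins.and 2 2 (A + enc (α, b)), Ins.or 1 1 2]
      = [Ins.var 2 (q b)] ++ ([Ins.and 2 2 (A + enc (α, b))] ++ [Ins.or 1 1 2]) := rfl
  rw [e]
  exact (good_var (by omega) (hq b)).append ((good_and (by omega) (by omega) (by omega)).append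
    (good_or (by omega) (by omega) (by omega)))

lemma cdP_good {R M : ℕ} (A : ℕ) (hR : 3 ≤ R) (hA : A + w * m ≤ R) (q : Fin w → Fin m → ℕ)
    (hq : ∀ α b, q α b < M) (dest : ℕ) (hd : dest < R) : Good R M (cdP A q dest) := by
  unfold cdP
  refine ((good_cst (by omega)).append (Good.flatMap (fun α => ?_))).append
    (good_or hd (by omega) (by omega))
  exact ((good_cst (by omega)).append (innP_good A hR hA α (q α) (hq α) _)).append
    (good_and (by omega) (by omega) (by omega))

lemma runP_good {M : ℕ} (hpos : ∀ x y z, pos x y z < M) (R : ℕ) : ∀ (l : ℕ) (c : Fin w),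
    Ab w m (l + 1) ≤ R → Good R M (runP pos l c) := by
  intro l
  induction l with
  | zero =>
    intro c _ i hi
    simp [runP] at hi
  | succ l ih =>
    intro c hR
    have hB : Bb w m (l + 1) = Ab w m (l + 1) + w * m := Bb_eq w m (l + 1)
    have hA : Ab w m (l + 2) = Bb w m (l + 1) + w * m := Ab_succ w m (l + 1)
    have h3A := three_le_Ab w m l
    have hAA : Ab w m (l + 1) = Ab w m l + w * m + w * m := by rw [Ab_succ, Bb_eq]
    have hR' : Ab w m (l + 2) ≤ R := hR
    unfold runP
    apply Good.flatMap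
    intro t
    unfold stepP
    apply Good.append
    · apply Good.flatMap
      intro x
      have hx := enc_lt x
      unfold oneP
      refine (Good.append ?_ (ih x.1 (by omega))).append ?_
      · unfold botP
        apply Good.flatMap
        intro y
        have hy := enc_lt y
        exact cdP_good _ (by omega) (by omega) _ (fun _ _ => hpos _ _ _) _ (by omega)
      · exact cdP_good _ (by omega) (by omega) _ (fun _ _ => hpos _ _ _) _ (by omega)
    · unfold copyP
      apply Good.flatMap
      intro x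
      have hx := enc_lt x
      exact good_or (by omega) (by omega) (by omega)

/-- Registers and variables of the program. -/
theorem outP_good {M : ℕ} (hpos : ∀ x y z, pos x y z < M) (hw : 0 < w) :
    Good (Ab w m (K + 1)) M (outP pos hw) := by
  have h3A := three_le_Ab w m K
  have hAA : Ab w m (K + 1) = Ab w m K + w * m + w * m := by rw [Ab_succ, Bb_eq]
  unfold outP
  refine (((Good.flatMap (fun x => ?_)).append (runP_good pos hpos _ K _ (le_refl _))).append
    (good_cst (by omega))).append (innP_good _ (by omega) (by omega) _ _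
      (fun _ => hpos _ _ _) _)
  have hx := enc_lt x
  exact good_var (by omega) (hpos _ _ _)

lemma flatMap_length_le {ι : Type*} (L : List ι) (P : ι → List Ins) (c : ℕ)
    (h : ∀ x, (P x).length ≤ c) : (L.flatMap P).length ≤ L.length * c := by
  induction L with
  | nil => simp
  | cons x L ih =>
    rw [List.flatMap_cons, List.length_append, List.length_cons, add_mul, one_mul]
    have := h x
    omega

lemma innP_length (A : ℕ) (α : Fin w) (q : Fin m → ℕ) (L : List (Fin m)) :
    (innP A α q L).length ≤ L.length * 3 := by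
  unfold innP
  apply flatMap_length_le
  intro x
  simp

lemma cdP_length (A : ℕ) (q : Fin w → Fin m → ℕ) (dest : ℕ) :
    (cdP A q dest).length ≤ 2 + w * (m * 3 + 2) := by
  unfold cdP
  have h := flatMap_length_le (List.finRange w) (fun α =>
    [.cst 1 false] ++ innP A α (q α) (List.finRange m) ++ [.and 0 0 1]) (m * 3 + 2) (fun α => by
      have := innP_length A α (q α) (List.finRange m)
      rw [List.length_finRange] at this
      simp only [List.length_append, List.length_cons, List.length_nil]
      omega)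
  rw [List.length_finRange] at h
  simp only [List.length_append, List.length_cons, List.length_nil] at h ⊢
  omega

lemma runP_length (hw : 0 < w) (hm : 0 < m) (hp : 0 < p) : ∀ (l : ℕ) (c : Fin w),
    (runP pos l c).length + 1 ≤ (16 * p * (w * m) ^ 3) ^ l := by
  intro l
  induction l with
  | zero =>
    intro c
    simp [runP]
  | succ l ih =>
    intro c
    set u := w * m with hu
    have hu1 : 1 ≤ u := Nat.mul_pos hw hm
    have hw1 : w ≤ u := Nat.le_mul_of_pos_right w hm
    have hcd : ∀ (A : ℕ) (q : Fin w → Fin m → ℕ) (dest : ℕ), (cdP A q dest).length ≤ 7 * u := by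
      intro A q dest
      have h1 := cdP_length A q dest
      have h2 : 2 + w * (m * 3 + 2) = 2 + (3 * u + 2 * w) := by rw [hu]; ring
      omega
    obtain ⟨S, hS⟩ : ∃ S, (16 * p * u ^ 3) ^ l = S + 1 := by
      refine ⟨(16 * p * u ^ 3) ^ l - 1, (Nat.sub_add_cancel ?_).symm⟩
      exact Nat.one_le_pow _ _ (by positivity)
    have hstep : ∀ t, (stepP pos l (runP pos l) c t).length ≤ u * (S + 15 * u ^ 2) := by
      intro t
      have hone : ∀ x, (oneP pos l (runP pos l) c t x).length ≤ u * (7 * u) + S + 7 * u := by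
        intro x
        unfold oneP
        rw [List.length_append, List.length_append]
        have h1 : (botP pos l t c x.1 x.2).length ≤ u * (7 * u) := by
          unfold botP
          refine le_trans (flatMap_length_le _ _ (7 * u) (fun y => hcd _ _ _)) ?_
          rw [allP_length]
        have h2 := ih x.1
        have h3 := hcd (Ab w m l) (fun β b =>
          pos (mkRow K p (l + 1) (t + 1) x.1 c, x.2) (mkRow K p l (dmax p l) β x.1, b)
          (mkRow K p l (dmax p l) β x.1, b)) (Bb w m (l + 1) + enc x)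
        omega
      unfold stepP
      rw [List.length_append]
      have h4 := flatMap_length_le (allP w m) (oneP pos l (runP pos l) c t) _ hone
      rw [allP_length] at h4
      have h5 : (copyP w m (l + 1)).length ≤ u * 1 := by
        unfold copyP
        refine le_trans (flatMap_length_le _ _ 1 (fun y => by simp)) ?_
        rw [allP_length]
      calc _ ≤ u * (u * (7 * u) + S + 7 * u) + u * 1 := Nat.add_le_add h4 h5
        _ = u * (u * (7 * u) + S + 7 * u + 1) := by ring
        _ ≤ u * (S + 15 * u ^ 2) := by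
            apply Nat.mul_le_mul_left
            nlinarith
    have h6 : (runP pos (l + 1) c).length ≤ p * (u * (S + 15 * u ^ 2)) := by
      unfold runP
      refine le_trans (flatMap_length_le _ _ _ hstep) ?_
      rw [List.length_range]
    have hu3 : u ≤ u ^ 3 := Nat.le_self_pow (by norm_num) _
    have e1 : 1 ≤ p * u ^ 3 := Nat.mul_pos hp (Nat.pow_pos hu1)
    have e2 : p * (u * S) ≤ p * u ^ 3 * S := by
      calc p * (u * S) ≤ p * (u ^ 3 * S) := Nat.mul_le_mul_left _ (Nat.mul_le_mul_right _ hu3)
        _ = p * u ^ 3 * S := by ring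
    calc (runP pos (l + 1) c).length + 1 ≤ p * (u * (S + 15 * u ^ 2)) + 1 := by omega
      _ = p * (u * S) + 15 * (p * u ^ 3) + 1 := by ring
      _ ≤ 16 * (p * u ^ 3 * S + p * u ^ 3) := by omega
      _ = (S + 1) * (16 * p * u ^ 3) := by ring
      _ = (16 * p * u ^ 3) ^ (l + 1) := by rw [← hS]; exact (pow_succ _ _).symm

/-- Length of the program. -/
theorem outP_length (hw : 0 < w) (hm : 0 < m) (hp : 0 < p) :
    (outP pos hw).length ≤ (16 * p * (w * m) ^ 3) ^ (K + 1) := by
  have h1 := runP_length pos hw hm hp K ⟨0, hw⟩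
  have h2 := innP_length (Ab w m K) (⟨0, hw⟩ : Fin w) (fun a =>
    pos (mkRow K p K (dmax p K) ⟨0, hw⟩ ⟨0, hw⟩, a) (mkRow K p K (dmax p K) ⟨0, hw⟩ ⟨0, hw⟩, a)
    (mkRow K p K (dmax p K) ⟨0, hw⟩ ⟨0, hw⟩, a)) (List.finRange m)
  have h3 := flatMap_length_le (allP w m) (fun x => [Ins.var (Ab w m K + enc x)
    (pos (mkRow K p K 0 x.1 ⟨0, hw⟩, x.2) (mkRow K p K 0 x.1 ⟨0, hw⟩, x.2)
      (mkRow K p K 0 x.1 ⟨0, hw⟩, x.2))]) 1 (fun x => by simp)
  rw [allP_length] at h3
  rw [List.length_finRange] at h2
  have hu1 : 1 ≤ w * m := Nat.mul_pos hw hm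
  have hm1 : m ≤ w * m := Nat.le_mul_of_pos_left m hw
  have hu3 : w * m ≤ (w * m) ^ 3 := Nat.le_self_pow (by norm_num) _
  have hB : 1 + 15 * (w * m) ≤ 16 * p * (w * m) ^ 3 := by
    calc 1 + 15 * (w * m) ≤ 16 * (w * m) := by omega
      _ ≤ 16 * (w * m) ^ 3 := Nat.mul_le_mul_left _ hu3
      _ ≤ 16 * (p * (w * m) ^ 3) := Nat.mul_le_mul_left _ (Nat.le_mul_of_pos_left _ hp)
      _ = 16 * p * (w * m) ^ 3 := by ring
  have hP : 1 ≤ (16 * p * (w * m) ^ 3) ^ K := Nat.one_le_pow _ _ (by omega)
  have h4 : (16 * p * (w * m) ^ 3) ^ K + 15 * (w * m) ≤ (16 * p * (w * m) ^ 3) ^ (K + 1) := by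
    calc (16 * p * (w * m) ^ 3) ^ K + 15 * (w * m)
        ≤ (16 * p * (w * m) ^ 3) ^ K + (16 * p * (w * m) ^ 3) ^ K * (15 * (w * m)) :=
          Nat.add_le_add_left (Nat.le_mul_of_pos_left _ hP) _
      _ = (16 * p * (w * m) ^ 3) ^ K * (1 + 15 * (w * m)) := by ring
      _ ≤ (16 * p * (w * m) ^ 3) ^ K * (16 * p * (w * m) ^ 3) := Nat.mul_le_mul_left _ hB
      _ = (16 * p * (w * m) ^ 3) ^ (K + 1) := (pow_succ _ _).symm
  unfold outP
  rw [List.length_append, List.length_append, List.length_append]
  simp only [List.length_cons, List.length_nil]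
  omega

end

end Pool.Agent.Results.MP_2af48a_lc.Odometer
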