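import Pool.Agent.Lib_MP_2af48a_lc.AboveCopies
import Pool.Agent.Lib_MP_2af48a_lc.OdoLower
import Pool.Agent.Lib_MP_2af48a_lc.OdoProg

open Finset Filter

namespace Pool.Agent.Results.MP_2af48a_lc.FewNegations

open Odometer SCup

/-! ## The program of the hard function -/

/-- the program -/
noncomputable def progO (k b n : ℕ) : List Ins :=
  outP (K := oK n) (p := op b n) (m := og k n * og k n)
    (fun a c d => ((oE k b n).symm (a, c, d)).val) (ow_pos k n)

/-- number of registers -/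
def regO (k n : ℕ) : ℕ := Odometer.Ab (ow k n) (og k n * og k n) (oK n + 1)

lemma progO_run (k b n : ℕ) (X s : ℕ → Bool) :
    run X s (progO k b n) 1 = hardO k b n (rst (oM k b n) X) := by
  unfold progO
  rw [outP_run]
  rfl

lemma progO_good (k b n : ℕ) :
    ∀ i ∈ progO k b n, i.ok (regO k n) (oM k b n) ∧ i.isNot = false :=
  outP_good _ (fun _ _ _ => Fin.isLt _) (ow_pos k n)

lemma og_pos (k n : ℕ) : 0 < og k n := by
  unfold og
  exact Nat.pow_pos (by omega)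

lemma log_aux (n : ℕ) : (Nat.log 2 n + 2) ^ (oK n + 1) ≤ (n + 2) ^ 9 := by
  unfold oK
  set L := Nat.log 2 n with hL
  set l := Nat.log 2 L with hl
  have h1 : L + 2 ≤ 2 ^ (l + 2) := by
    have h2 : L < 2 ^ (l + 1) := Nat.lt_pow_succ_log_self (by norm_num) L
    have h3 : 2 ^ (l + 2) = 2 * 2 ^ (l + 1) := by rw [pow_succ]; ring
    have h4 : 1 ≤ 2 ^ l := Nat.one_le_two_pow
    have h5 : 2 ^ (l + 1) = 2 * 2 ^ l := by rw [pow_succ]; ring
    omega
  have h2 : 2 ^ L ≤ n + 1 := by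
    rcases Nat.eq_zero_or_pos n with h | h
    · subst h
      simp [hL]
    · have := Nat.pow_log_le_self 2 (by omega : n ≠ 0)
      rw [← hL] at this
      omega
  have h3 : (l + 2) * (L / l + 1 + 1) ≤ 5 * L + 4 := by
    have e1 : l * (L / l) ≤ L := Nat.mul_div_le L l
    have e2 : L / l ≤ L := Nat.div_le_self L l
    have e3 : l ≤ L := Nat.log_le_self 2 L
    have e4 : (l + 2) * (L / l + 1 + 1) = l * (L / l) + 2 * (L / l) + 2 * l + 4 := by ring
    omega
  calc (L + 2) ^ (L / l + 1 + 1) ≤ (2 ^ (l + 2)) ^ (L / l + 1 + 1) := Nat.pow_le_pow_left h1 _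
    _ = 2 ^ ((l + 2) * (L / l + 1 + 1)) := by rw [← pow_mul]
    _ ≤ 2 ^ (5 * L + 4) := Nat.pow_le_pow_right (by norm_num) h3
    _ = (2 ^ L) ^ 5 * 2 ^ 4 := by rw [← pow_mul, ← pow_add]; congr 1; ring
    _ ≤ (n + 2) ^ 5 * (n + 2) ^ 4 :=
        Nat.mul_le_mul (Nat.pow_le_pow_left (by omega) _) (Nat.pow_le_pow_left (by omega) _)
    _ = (n + 2) ^ 9 := by rw [← pow_add]

/-- exponent of the size -/
def cO (k b : ℕ) : ℕ := 4 + (b + 1) + 3 * ((k + 6) + (4 * k + 25 + (4 * k + 25)))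

lemma wm_le (k n : ℕ) : ow k n * (og k n * og k n) ≤
    (Nat.log 2 n + 2) ^ ((k + 6) + (4 * k + 25 + (4 * k + 25))) := by
  have h1 := ow_le k n
  unfold og
  exact T_mul _ h1 (T_mul _ le_rfl le_rfl)

lemma progO_length (k b n : ℕ) : (progO k b n).length ≤ (n + 2) ^ (9 * cO k b) := by
  have h1 := outP_length (K := oK n) (p := op b n) (m := og k n * og k n)
    (fun a c d => ((oE k b n).symm (a, c, d)).val) (ow_pos k n)
    (Nat.mul_pos (og_pos k n) (og_pos k n)) (by unfold op; exact Nat.pow_pos (by omega))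
  refine le_trans h1 ?_
  have h2 : 16 * op b n * (ow k n * (og k n * og k n)) ^ 3 ≤ (Nat.log 2 n + 2) ^ cO k b := by
    have h3 := wm_le k n
    unfold cO op
    set T := Nat.log 2 n + 2 with hT
    have h4 : 16 ≤ T ^ 4 := by
      have := T_const T (by omega) 4
      omega
    have h5 : (ow k n * (og k n * og k n)) ^ 3
        ≤ T ^ (3 * ((k + 6) + (4 * k + 25 + (4 * k + 25)))) := by
      rw [mul_comm 3, pow_mul]
      exact Nat.pow_le_pow_left h3 3
    exact T_mul T (T_mul T h4 le_rfl) h5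
  calc (16 * op b n * (ow k n * (og k n * og k n)) ^ 3) ^ (oK n + 1)
      ≤ ((Nat.log 2 n + 2) ^ cO k b) ^ (oK n + 1) := Nat.pow_le_pow_left h2 _
    _ = ((Nat.log 2 n + 2) ^ (oK n + 1)) ^ cO k b := by rw [← pow_mul, ← pow_mul, mul_comm]
    _ ≤ ((n + 2) ^ 9) ^ cO k b := Nat.pow_le_pow_left (log_aux n) _
    _ = (n + 2) ^ (9 * cO k b) := by rw [← pow_mul]

lemma regO_le (k n : ℕ) : regO k n + 4 ≤
    (Nat.log 2 n + 2) ^ ((k + 6) + (4 * k + 25 + (4 * k + 25)) + 6) := by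
  have h1 := wm_le k n
  have h2 := oK_le n
  unfold regO Odometer.Ab
  set T := Nat.log 2 n + 2 with hT
  set e := (k + 6) + (4 * k + 25 + (4 * k + 25)) with he
  have h3 : 1 ≤ T ^ e := Nat.one_le_pow _ _ (by omega)
  have h4 : 2 * (oK n + 1) * (ow k n * (og k n * og k n)) ≤ 2 * T * T ^ e :=
    Nat.mul_le_mul (Nat.mul_le_mul_left _ h2) h1
  have h5 : 9 + 2 * T ≤ T ^ 6 := by
    have e1 : 2 ≤ T := by omega
    have e2 : T ^ 6 = T * T ^ 5 := by ring
    have e3 : 2 ^ 5 ≤ T ^ 5 := Nat.pow_le_pow_left e1 5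
    have e4 : T * 2 ^ 5 ≤ T * T ^ 5 := Nat.mul_le_mul_left _ e3
    omega
  calc 3 + 2 * (oK n + 1) * (ow k n * (og k n * og k n)) + 4
      = 7 + 2 * (oK n + 1) * (ow k n * (og k n * og k n)) := by ring
    _ ≤ 9 * T ^ e + 2 * T * T ^ e := Nat.add_le_add (by omega) h4
    _ = T ^ e * (9 + 2 * T) := by ring
    _ ≤ T ^ e * T ^ 6 := Nat.mul_le_mul_left _ h5
    _ = _ := by rw [← pow_add]

/-! ## The function -/

/-- `2 ^ r (r + 1) + 1` copies of the hard function on selected variables -/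
noncomputable def fO (k b : ℕ) (r : ℕ → ℕ) (n : ℕ) (x : Fin n → Bool) : Bool :=
  if nb r n ≤ n ∧ nb r n * oM k b n * (2 * LL n + 1) ≤ n then
    selF n (nb r n * oM k b n) (copyF (nb r n) (oM k b n) (hardO k b n)) x
  else false

lemma false_layered (n : ℕ) : ∃ D : Layered n, (∀ x, D.eval x = false) ∧ D.negations = 0 ∧
    D.maxWidth ≤ 1 ∧ D.size ≤ 1 := by
  obtain ⟨D, h1, h2, h3, h4⟩ := exists_orL 0 n 0 [] (fun _ _ => false) (by
    intro P hP
    exact absurd hP List.not_mem_nil)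
  refine ⟨D, fun x => ?_, h2, by simpa using h3, by simpa using h4⟩
  have h5 := h1 (ext x)
  rw [rst_ext] at h5
  rw [h5]
  simp

/-- Upper bound. -/
theorem fO_SC (k b : ℕ) (r : ℕ → ℕ) : SC (fun _ => 0) (fO k b r) := by
  have main : ∀ n, ∃ E : Layered n, (∀ x, E.eval x = fO k b r n x) ∧ E.negations = 0 ∧
      E.maxWidth ≤ regO k n + 4 ∧
      E.size ≤ (n * ((n + 2) ^ (9 * cO k b) * (n * (2 * LL n + 2) + 2) + 1) + 1) *
        (regO k n + 4) := by
    intro n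
    by_cases h : nb r n ≤ n ∧ nb r n * oM k b n * (2 * LL n + 1) ≤ n
    · obtain ⟨D, d1, d2, d3, d4⟩ := copies_upper n (nb r n) (oM k b n) h.2 (hardO k b n)
        (progO k b n) (regO k n) 1 (by
          have := three_le_Ab (ow k n) (og k n * og k n) (oK n + 1)
          unfold regO
          omega) (progO_good k b n) (progO_run k b n)
      refine ⟨D, fun x => ?_, d2, d3, ?_⟩
      · rw [d1]
        unfold fO
        rw [if_pos h]
      · refine le_trans d4 (Nat.mul_le_mul_right _ (Nat.add_le_add_right ?_ _))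
        exact Nat.mul_le_mul h.1 (Nat.add_le_add_right (Nat.mul_le_mul_right _
          (progO_length k b n)) _)
    · obtain ⟨D, d1, d2, d3, d4⟩ := false_layered n
      refine ⟨D, fun x => ?_, d2, by omega, ?_⟩
      · rw [d1]
        unfold fO
        rw [if_neg h]
      · refine le_trans d4 ?_
        exact Nat.mul_pos (Nat.succ_pos _) (by omega)
  choose E hE1 hE2 hE3 hE4 using main
  refine ⟨E, hE1, ?_, polylogBounded_of _ (fun n => le_trans (hE3 n) (regO_le k n)),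
    fun n => (hE2 n).le⟩
  set e := (k + 6) + (4 * k + 25 + (4 * k + 25)) + 6 with he
  refine polyBounded_of (1 + (9 * cO k b + 3 + 1) + 1 + e) (fun n => ?_)
  refine le_trans (hE4 n) ?_
  have h1 : regO k n + 4 ≤ (n + 2) ^ e :=
    le_trans (regO_le k n) (Nat.pow_le_pow_left (by have := Nat.log_le_self 2 n; omega) _)
  have h2 : n * (2 * LL n + 2) + 2 ≤ (n + 2) ^ 3 := by
    have e1 : LL n ≤ n + 1 := by
      unfold LL
      have := Nat.log_le_self 2 n
      omega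
    calc n * (2 * LL n + 2) + 2 ≤ n * (2 * (n + 1) + 2) + 2 := by
          apply Nat.add_le_add_right
          apply Nat.mul_le_mul_left
          omega
      _ ≤ (n + 2) ^ 3 := by
          have : (n + 2) ^ 3 = n ^ 3 + 6 * n ^ 2 + 12 * n + 8 := by ring
          nlinarith [Nat.zero_le (n ^ 3)]
  set A := (n + 2) ^ (9 * cO k b) with hA
  have hA1 : 1 ≤ A := Nat.one_le_pow _ _ (by omega)
  have h3 : A * (n * (2 * LL n + 2) + 2) + 1 ≤ (n + 2) ^ (9 * cO k b + 3 + 1) :=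
    T_add_one (n + 2) (by omega) _ _ (T_mul (n + 2) le_rfl h2)
  have h4 : n * (A * (n * (2 * LL n + 2) + 2) + 1) + 1 ≤ (n + 2) ^ (1 + (9 * cO k b + 3 + 1) + 1) :=
    T_add_one (n + 2) (by omega) _ _ (T_mul (n + 2) (by rw [pow_one]; omega) h3)
  exact T_mul (n + 2) h4 h1

/-- Lower bound. -/
theorem fO_lower (k b c : ℕ) (hk : 2 ≤ k) (hc : 6 * b + 60 * k + 464 ≤ c) (N r : ℕ → ℕ)
    (hN : ∀ n, N n ≤ n) (hr0 : ∀ᶠ n in atTop, 2 ^ r n * Nat.log 2 n ^ c ≤ N n) :
    ∃ n0 : ℕ, ∀ n ≥ n0, ∀ C : Circuit n, (∀ x, C.eval x = fO (k + 1) (b + 1) r n x) →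
      ∀ P : Finset (Fin n), N n ≤ P.card → C.negationsAbove P ≤ r n →
      C.size ≤ 2 ^ (Nat.log 2 n) ^ k → n ^ b ≤ C.depth := by
  obtain ⟨n1, hn1⟩ := hardO_lower (k + 1) (b + 1) (by omega)
  obtain ⟨E, hE⟩ : ∃ E : ℕ, 3 * ((b + 1) + 10 * (k + 1) + 65) = E := ⟨_, rfl⟩
  have hr : ∀ᶠ n in atTop, 2 ^ r n * Nat.log 2 n ^ (2 * (E + 4)) ≤ N n := by
    filter_upwards [hr0, eventually_ge_atTop 2] with n hn hn2
    refine le_trans (Nat.mul_le_mul_left _ ?_) hn
    apply Nat.pow_le_pow_right (Nat.log_pos (by norm_num) hn2)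
    omega
  obtain ⟨n2, hn2⟩ := eventually_atTop.mp hr
  refine ⟨max (max n1 n2) 64, fun n hn C hC P hP ht hs => ?_⟩
  have g1 : n1 ≤ n := le_trans (le_trans (le_max_left _ _) (le_max_left _ _)) hn
  have g2 : n2 ≤ n := le_trans (le_trans (le_max_right _ _) (le_max_left _ _)) hn
  have g3 : 64 ≤ n := le_trans (le_max_right _ _) hn
  have hgr := hn2 n g2
  have hM := oM_le (k + 1) (b + 1) n
  rw [hE] at hM
  set L := Nat.log 2 n with hL
  have hL6 : 6 ≤ L := Nat.le_log_of_pow_le (by norm_num) (by simpa using g3)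
  have hLn : L < n := Nat.log_lt_self 2 (by omega)
  have hpow : 2 ^ r n ≤ n := by
    have : 1 ≤ L ^ (2 * (E + 4)) := Nat.one_le_pow _ _ (by omega)
    calc 2 ^ r n = 2 ^ r n * 1 := (mul_one _).symm
      _ ≤ 2 ^ r n * L ^ (2 * (E + 4)) := Nat.mul_le_mul_left _ this
      _ ≤ N n := hgr
      _ ≤ n := hN n
  have hrL : r n ≤ L := Nat.le_log_of_pow_le (by norm_num) hpow
  have hnb : nb r n ≤ 2 ^ r n * (L + 2) := by
    unfold nb
    have h1 : 1 ≤ 2 ^ r n := Nat.one_le_two_pow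
    have h2 : 2 ^ r n * (r n + 1) ≤ 2 ^ r n * (L + 1) := Nat.mul_le_mul_left _ (by omega)
    have h3 : 2 ^ r n * (L + 2) = 2 ^ r n * (L + 1) + 2 ^ r n := by ring
    omega
  have hLL : 2 * LL n + 1 ≤ (L + 2) ^ 2 := by
    unfold LL
    rw [← hL]
    nlinarith
  have hbase : (L + 2) ^ (E + 4) ≤ L ^ (2 * (E + 4)) := by
    rw [pow_mul]
    apply Nat.pow_le_pow_left
    nlinarith
  have hK1 : nb r n * (L + 2) ^ (E + 3) ≤ N n := by
    calc nb r n * (L + 2) ^ (E + 3) ≤ (2 ^ r n * (L + 2)) * (L + 2) ^ (E + 3) :=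
          Nat.mul_le_mul_right _ hnb
      _ = 2 ^ r n * (L + 2) ^ (E + 4) := by rw [pow_succ' (L + 2) (E + 3), mul_assoc]
      _ ≤ 2 ^ r n * L ^ (2 * (E + 4)) := Nat.mul_le_mul_left _ hbase
      _ ≤ N n := hgr
  have hKM : nb r n * oM (k + 1) (b + 1) n * (2 * LL n + 1) ≤ N n := by
    calc nb r n * oM (k + 1) (b + 1) n * (2 * LL n + 1)
        ≤ nb r n * (L + 2) ^ E * (L + 2) ^ 2 :=
          Nat.mul_le_mul (Nat.mul_le_mul_left _ hM) hLL
      _ = nb r n * (L + 2) ^ (E + 2) := by rw [mul_assoc, ← pow_add]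
      _ ≤ nb r n * (L + 2) ^ (E + 3) :=
          Nat.mul_le_mul_left _ (Nat.pow_le_pow_right (by omega) (by omega))
      _ ≤ N n := hK1
  have hnbn : nb r n ≤ n := by
    calc nb r n = nb r n * 1 := (mul_one _).symm
      _ ≤ nb r n * (L + 2) ^ (E + 3) := Nat.mul_le_mul_left _ (Nat.one_le_pow _ _ (by omega))
      _ ≤ N n := hK1
      _ ≤ n := hN n
  have hif : nb r n ≤ n ∧ nb r n * oM (k + 1) (b + 1) n * (2 * LL n + 1) ≤ n :=
    ⟨hnbn, le_trans hKM (hN n)⟩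
  obtain ⟨D, hD1, hD2, hD3⟩ := copies_lower (hardO (k + 1) (b + 1) n)
    (hardO_false (k + 1) (b + 1) n) C (fun x => by
      rw [hC]
      unfold fO
      rw [if_pos hif]) P (le_trans hKM hP) (r n) ht (Nat.lt_succ_self _)
  have hDs : D.size ≤ 2 ^ L ^ (k + 1) := by
    have hLk1 : 1 ≤ L ^ k := Nat.one_le_pow _ _ (by omega)
    have hLk2 : L ≤ L ^ k := Nat.le_self_pow (by omega) L
    calc D.size ≤ 2 ^ (2 * r n) * (C.size + 2) := hD3
      _ ≤ 2 ^ (2 * L) * (2 ^ L ^ k + 2) :=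
          Nat.mul_le_mul (Nat.pow_le_pow_right (by norm_num) (by omega))
            (Nat.add_le_add_right hs _)
      _ ≤ 2 ^ (2 * L) * 2 ^ (L ^ k + 1) := by
          apply Nat.mul_le_mul_left
          rw [pow_succ]
          have : 2 ^ 1 ≤ 2 ^ L ^ k := Nat.pow_le_pow_right (by norm_num) hLk1
          omega
      _ = 2 ^ (2 * L + (L ^ k + 1)) := by rw [← pow_add]
      _ ≤ 2 ^ L ^ (k + 1) := by
          apply Nat.pow_le_pow_right (by norm_num)
          have h1 : L ^ (k + 1) = L ^ k * L := pow_succ _ _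
          have h2 : L ^ k * 6 ≤ L ^ k * L := Nat.mul_le_mul_left _ hL6
          omega
  have hDd := hn1 n g1 D hD1 hDs
  have h5 : n ^ b + (n - 1) ≤ n ^ (b + 1) := by
    obtain ⟨n', rfl⟩ : ∃ n', n = n' + 1 := ⟨n - 1, by omega⟩
    have h1 : 1 ≤ (n' + 1) ^ b := Nat.one_le_pow _ _ (by omega)
    rw [pow_succ]
    have h2 : 1 * n' ≤ (n' + 1) ^ b * n' := Nat.mul_le_mul_right _ h1
    calc (n' + 1) ^ b + (n' + 1 - 1) = (n' + 1) ^ b + 1 * n' := by omega
      _ ≤ (n' + 1) ^ b + (n' + 1) ^ b * n' := Nat.add_le_add_left h2 _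
      _ = (n' + 1) ^ b * (n' + 1) := by ring
  have h6 : 2 * L + 2 ≤ n := by
    have e1 : 2 ^ L ≤ n := Nat.pow_log_le_self 2 (by omega)
    obtain ⟨l, hl⟩ : ∃ l, L = l + 2 := ⟨L - 2, by omega⟩
    have e2 : l < 2 ^ l := Nat.lt_two_pow_self
    have e3 : 2 ^ L = 4 * 2 ^ l := by rw [hl, pow_add]; ring
    omega
  omega

/-- **SC is not contained in NC, with few NOT gates above many variables.** -/
theorem depth_above (k b : ℕ) (N r : ℕ → ℕ) (hN : ∀ n, N n ≤ n)
    (hr : ∀ᶠ n in atTop, 2 ^ r n * Nat.log 2 n ^ (60 * (b + k) + 600) ≤ N n) :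
    ∃ f : (n : ℕ) → (Fin n → Bool) → Bool, SC (fun _ => 0) f ∧ ¬ NCAbove N r f ∧
      ∃ n0 : ℕ, ∀ n ≥ n0, ∀ C : Circuit n, (∀ x, C.eval x = f n x) →
        ∀ P : Finset (Fin n), N n ≤ P.card → C.negationsAbove P ≤ r n →
        C.size ≤ 2 ^ (Nat.log 2 n) ^ k → n ^ b ≤ C.depth := by
  obtain ⟨n0, h⟩ := fO_lower (max k 2) (max b 1) (60 * (b + k) + 600) (le_max_right _ _)
    (by omega) N r hN hr
  refine ⟨fO (max k 2 + 1) (max b 1 + 1) r, fO_SC _ _ r, ?_, ?_⟩
  · rintro ⟨C, hC, ⟨a, c, hs⟩, ⟨a', c', hd⟩, hP⟩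
    obtain ⟨L0, hL0⟩ := pow_lt_two (a' + 1 + c' + 1)
    set n := max n0 (2 ^ (2 * (a + c + 1) + L0 + 1)) with hn
    have hn0 : n0 ≤ n := le_max_left _ _
    have hnb : 2 ^ (2 * (a + c + 1) + L0 + 1) ≤ n := le_max_right _ _
    obtain ⟨P, p1, p2⟩ := hP n
    have hl : 2 * (a + c + 1) + L0 + 1 ≤ Nat.log 2 n := Nat.le_log_of_pow_le (by norm_num) hnb
    have hn1 : n ≠ 0 := by
      have : 1 ≤ 2 ^ (2 * (a + c + 1) + L0 + 1) := Nat.one_le_two_pow
      omega
    have hsz : (C n).size ≤ 2 ^ (Nat.log 2 n) ^ (max k 2) := by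
      have h2 := hs n
      simp only at h2
      refine le_trans (le_trans h2 (size_aux a c n)) (Nat.pow_le_pow_right (by norm_num) ?_)
      calc (a + c + 1) * (Nat.log 2 n + 1) ≤ (a + c + 1) * (2 * Nat.log 2 n) :=
            Nat.mul_le_mul_left _ (by omega)
        _ = (2 * (a + c + 1)) * Nat.log 2 n := by ring
        _ ≤ Nat.log 2 n * Nat.log 2 n := Nat.mul_le_mul_right _ (by omega)
        _ = (Nat.log 2 n) ^ 2 := (sq _).symm
        _ ≤ _ := Nat.pow_le_pow_right (by omega) (le_max_right _ _)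
    have h1 := h n hn0 (C n) (hC n) P p1 p2 hsz
    have h2 := hd n
    simp only at h2
    have h3 := bound_aux a' c' (Nat.log 2 n)
    have h4 := hL0 (Nat.log 2 n) (by omega)
    have h5 : 2 ^ Nat.log 2 n ≤ n := Nat.pow_log_le_self 2 hn1
    have h6 : n ≤ n ^ (max b 1) := Nat.le_self_pow (by omega) n
    have h7 : (Nat.log 2 n + 2) ^ (a' + 1 + c') * 2 ≤ (Nat.log 2 n + 2) ^ (a' + 1 + c' + 1) := by
      rw [pow_succ (Nat.log 2 n + 2) (a' + 1 + c')]
      exact Nat.mul_le_mul_left _ (by omega)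
    have h8 : n ≤ (C n).depth := le_trans h6 h1
    omega
  · refine ⟨max n0 2, fun n hn C hC P hP1 hP2 hs => ?_⟩
    have hn2 : 2 ≤ n := le_trans (le_max_right _ _) hn
    have hl : 1 ≤ Nat.log 2 n := Nat.le_log_of_pow_le (by norm_num) (by simpa using hn2)
    have h1 := h n (le_trans (le_max_left _ _) hn) C hC P hP1 hP2
      (le_trans hs (Nat.pow_le_pow_right (by norm_num)
        (Nat.pow_le_pow_right hl (le_max_left _ _))))
    exact le_trans (Nat.pow_le_pow_right (by omega) (le_max_left _ _)) h1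

end Pool.Agent.Results.MP_2af48a_lc.FewNegations
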