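import Pool.Agent.Lib_MP_2af48a_lc.AboveUni
import Pool.Agent.Lib_MP_2af48a_lc.OdoMain

open Finset Filter

namespace Pool.Agent.Results.MP_2af48a_lc.FewNegations

open Odometer SCup

/-! ## One function for all numbers of NOT gates -/

/-- number of copies -/
noncomputable def nU (k b n : ℕ) : ℕ := n / (oM k b n * (2 * LL n + 1))

/-- copies of the hard function on selected variables -/
noncomputable def fU (k b n : ℕ) (x : Fin n → Bool) : Bool :=
  selF n (nU k b n * oM k b n) (copyF (nU k b n) (oM k b n) (hardO k b n)) x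

lemma nU_mul (k b n : ℕ) : nU k b n * oM k b n * (2 * LL n + 1) ≤ n := by
  rw [mul_assoc]
  exact Nat.div_mul_le_self _ _

lemma oM_pos (k b n : ℕ) : 0 < oM k b n := by
  rw [oM_eq]
  have h1 : 0 < Fintype.card (Row (oK n) (op b n) (ow k n)) := by
    rw [card_row]
    exact Nat.mul_pos (Nat.succ_pos _) (Nat.mul_pos (Nat.succ_pos _)
      (Nat.mul_pos (ow_pos k n) (ow_pos k n)))
  have h2 := Nat.mul_pos (og_pos k n) (og_pos k n)
  exact Nat.mul_pos (Nat.mul_pos h1 h2) (Nat.mul_pos (Nat.mul_pos h1 h2) (Nat.mul_pos h1 h2))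

/-- Upper bound. -/
theorem fU_SC (k b : ℕ) : SC (fun _ => 0) (fU k b) := by
  have main : ∀ n, ∃ E : Layered n, (∀ x, E.eval x = fU k b n x) ∧ E.negations = 0 ∧
      E.maxWidth ≤ regO k n + 4 ∧
      E.size ≤ (n * ((n + 2) ^ (9 * cO k b) * (n * (2 * LL n + 2) + 2) + 1) + 1) *
        (regO k n + 4) := by
    intro n
    obtain ⟨D, d1, d2, d3, d4⟩ := copies_upper n (nU k b n) (oM k b n) (nU_mul k b n)
      (hardO k b n) (progO k b n) (regO k n) 1 (by
        have := three_le_Ab (ow k n) (og k n * og k n) (oK n + 1)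
        unfold regO
        omega) (progO_good k b n) (progO_run k b n)
    refine ⟨D, d1, d2, d3, ?_⟩
    refine le_trans d4 (Nat.mul_le_mul_right _ (Nat.add_le_add_right ?_ _))
    exact Nat.mul_le_mul (Nat.div_le_self _ _) (Nat.add_le_add_right (Nat.mul_le_mul_right _
      (progO_length k b n)) _)
  choose E hE1 hE2 hE3 hE4 using main
  refine ⟨E, hE1, ?_, polylogBounded_of _ (fun n => le_trans (hE3 n) (regO_le k n)),
    fun n => (hE2 n).le⟩
  set e := (k + 6) + (4 * k + 25 + (4 * k + 25)) + 6 with he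
  refine polyBounded_of (1 + (9 * cO k b + 3 + 1) + 1 + e) (fun n => ?_)
  refine le_trans (hE4 n) ?_
  have h1 : regO k n + 4 ≤ (n + 2) ^ e :=
    le_trans (regO_le k n) (Nat.pow_le_pow_left (by have := Nat.log_le_self 2 n; omega) _)
  have h2 : n * (2 * LL n + 2) + 2 ≤ (n + 2) ^ 3 := by
    have e1 : LL n ≤ n + 1 := by
      unfold LL
      have := Nat.log_le_self 2 n
      omega
    calc n * (2 * LL n + 2) + 2 ≤ n * (2 * (n + 1) + 2) + 2 := by
          apply Nat.add_le_add_right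
          apply Nat.mul_le_mul_left
          omega
      _ ≤ (n + 2) ^ 3 := by
          have : (n + 2) ^ 3 = n ^ 3 + 6 * n ^ 2 + 12 * n + 8 := by ring
          nlinarith [Nat.zero_le (n ^ 3)]
  set A := (n + 2) ^ (9 * cO k b) with hA
  have hA1 : 1 ≤ A := Nat.one_le_pow _ _ (by omega)
  have h3 : A * (n * (2 * LL n + 2) + 2) + 1 ≤ (n + 2) ^ (9 * cO k b + 3 + 1) :=
    T_add_one (n + 2) (by omega) _ _ (T_mul (n + 2) le_rfl h2)
  have h4 : n * (A * (n * (2 * LL n + 2) + 2) + 1) + 1 ≤ (n + 2) ^ (1 + (9 * cO k b + 3 + 1) + 1) :=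
    T_add_one (n + 2) (by omega) _ _ (T_mul (n + 2) (by rw [pow_one]; omega) h3)
  exact T_mul (n + 2) h4 h1

/-- Lower bound. -/
theorem fU_lower (k b c : ℕ) (hk : 2 ≤ k) (hc : 6 * b + 60 * k + 464 ≤ c) :
    ∃ n0 : ℕ, ∀ n ≥ n0, ∀ C : Circuit n, (∀ x, C.eval x = fU (k + 1) (b + 1) n x) →
      C.size ≤ 2 ^ (Nat.log 2 n) ^ k → ∀ P : Finset (Fin n),
      2 ^ C.negationsAbove P * Nat.log 2 n ^ c ≤ P.card → n ^ b ≤ C.depth := by
  obtain ⟨n1, hn1⟩ := hardO_lower (k + 1) (b + 1) (by omega)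
  obtain ⟨E, hE⟩ : ∃ E : ℕ, 3 * ((b + 1) + 10 * (k + 1) + 65) = E := ⟨_, rfl⟩
  refine ⟨max n1 64, fun n hn C hC hs P hgr => ?_⟩
  have g1 : n1 ≤ n := le_trans (le_max_left _ _) hn
  have g3 : 64 ≤ n := le_trans (le_max_right _ _) hn
  have hM := oM_le (k + 1) (b + 1) n
  rw [hE] at hM
  have hMpos := oM_pos (k + 1) (b + 1) n
  have hPn : P.card ≤ n := by
    have := P.card_le_univ
    rwa [Fintype.card_fin] at this
  obtain ⟨t, ht⟩ : ∃ t, C.negationsAbove P = t := ⟨_, rfl⟩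
  rw [ht] at hgr
  set L := Nat.log 2 n with hL
  have hL6 : 6 ≤ L := Nat.le_log_of_pow_le (by norm_num) (by simpa using g3)
  have hLn : L < n := Nat.log_lt_self 2 (by omega)
  have hgr' : 2 ^ t * L ^ (2 * (E + 4)) ≤ P.card := by
    refine le_trans (Nat.mul_le_mul_left _ ?_) hgr
    exact Nat.pow_le_pow_right (by omega) (by omega)
  have hpow : 2 ^ t ≤ n := by
    have : 1 ≤ L ^ (2 * (E + 4)) := Nat.one_le_pow _ _ (by omega)
    calc 2 ^ t = 2 ^ t * 1 := (mul_one _).symm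
      _ ≤ 2 ^ t * L ^ (2 * (E + 4)) := Nat.mul_le_mul_left _ this
      _ ≤ P.card := hgr'
      _ ≤ n := hPn
  have hrL : t ≤ L := Nat.le_log_of_pow_le (by norm_num) hpow
  obtain ⟨K', hK'⟩ : ∃ K', 2 ^ t * (t + 1) + 1 = K' := ⟨_, rfl⟩
  have hnb : K' ≤ 2 ^ t * (L + 2) := by
    rw [← hK']
    have h1 : 1 ≤ 2 ^ t := Nat.one_le_two_pow
    have h2 : 2 ^ t * (t + 1) ≤ 2 ^ t * (L + 1) := Nat.mul_le_mul_left _ (by omega)
    have h3 : 2 ^ t * (L + 2) = 2 ^ t * (L + 1) + 2 ^ t := by ring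
    omega
  have hLL : 2 * LL n + 1 ≤ (L + 2) ^ 2 := by
    unfold LL
    rw [← hL]
    nlinarith
  have hbase : (L + 2) ^ (E + 4) ≤ L ^ (2 * (E + 4)) := by
    rw [pow_mul]
    apply Nat.pow_le_pow_left
    nlinarith
  have hK1 : K' * (L + 2) ^ (E + 3) ≤ P.card := by
    calc K' * (L + 2) ^ (E + 3) ≤ (2 ^ t * (L + 2)) * (L + 2) ^ (E + 3) :=
          Nat.mul_le_mul_right _ hnb
      _ = 2 ^ t * (L + 2) ^ (E + 4) := by rw [pow_succ' (L + 2) (E + 3), mul_assoc]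
      _ ≤ 2 ^ t * L ^ (2 * (E + 4)) := Nat.mul_le_mul_left _ hbase
      _ ≤ P.card := hgr'
  have hKM : 2 * (K' * oM (k + 1) (b + 1) n * (2 * LL n + 1)) ≤ P.card := by
    calc 2 * (K' * oM (k + 1) (b + 1) n * (2 * LL n + 1))
        ≤ (L + 2) * (K' * (L + 2) ^ E * (L + 2) ^ 2) :=
          Nat.mul_le_mul (by omega) (Nat.mul_le_mul (Nat.mul_le_mul_left _ hM) hLL)
      _ = K' * (L + 2) ^ (E + 3) := by
          rw [pow_add (L + 2) E 3, mul_comm (L + 2)]
          generalize (L + 2) ^ E = q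
          ring
      _ ≤ P.card := hK1
  have hKK : K' ≤ nU (k + 1) (b + 1) n := by
    unfold nU
    have hpos2 : 0 < 2 * LL n + 1 := by omega
    rw [Nat.le_div_iff_mul_le (Nat.mul_pos hMpos hpos2), ← mul_assoc]
    omega
  obtain ⟨D, hD1, hD2, hD3⟩ := copies_lower_uni (by unfold LL; omega) (hardO (k + 1) (b + 1) n)
    (hardO_false (k + 1) (b + 1) n) C hC P K' hKK hKM t ht.le (by omega)
  have hDs : D.size ≤ 2 ^ L ^ (k + 1) := by
    have hLk1 : 1 ≤ L ^ k := Nat.one_le_pow _ _ (by omega)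
    have hLk2 : L ≤ L ^ k := Nat.le_self_pow (by omega) L
    calc D.size ≤ 2 ^ (2 * t) * (C.size + 2) := hD3
      _ ≤ 2 ^ (2 * L) * (2 ^ L ^ k + 2) :=
          Nat.mul_le_mul (Nat.pow_le_pow_right (by norm_num) (by omega))
            (Nat.add_le_add_right hs _)
      _ ≤ 2 ^ (2 * L) * 2 ^ (L ^ k + 1) := by
          apply Nat.mul_le_mul_left
          rw [pow_succ]
          have : 2 ^ 1 ≤ 2 ^ L ^ k := Nat.pow_le_pow_right (by norm_num) hLk1
          omega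
      _ = 2 ^ (2 * L + (L ^ k + 1)) := by rw [← pow_add]
      _ ≤ 2 ^ L ^ (k + 1) := by
          apply Nat.pow_le_pow_right (by norm_num)
          have h1 : L ^ (k + 1) = L ^ k * L := pow_succ _ _
          have h2 : L ^ k * 6 ≤ L ^ k * L := Nat.mul_le_mul_left _ hL6
          omega
  have hDd := hn1 n g1 D hD1 hDs
  have h5 : n ^ b + (n - 1) ≤ n ^ (b + 1) := by
    obtain ⟨n', rfl⟩ : ∃ n', n = n' + 1 := ⟨n - 1, by omega⟩
    have h1 : 1 ≤ (n' + 1) ^ b := Nat.one_le_pow _ _ (by omega)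
    rw [pow_succ]
    have h2 : 1 * n' ≤ (n' + 1) ^ b * n' := Nat.mul_le_mul_right _ h1
    calc (n' + 1) ^ b + (n' + 1 - 1) = (n' + 1) ^ b + 1 * n' := by omega
      _ ≤ (n' + 1) ^ b + (n' + 1) ^ b * n' := Nat.add_le_add_left h2 _
      _ = (n' + 1) ^ b * (n' + 1) := by ring
  have h6 : 2 * L + 2 ≤ n := by
    have e1 : 2 ^ L ≤ n := Nat.pow_log_le_self 2 (by omega)
    obtain ⟨l, hl⟩ : ∃ l, L = l + 2 := ⟨L - 2, by omega⟩
    have e2 : l < 2 ^ l := Nat.lt_two_pow_self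
    have e3 : 2 ^ L = 4 * 2 ^ l := by rw [hl, pow_add]; ring
    omega
  omega

/-- **SC is not contained in NC, with few NOT gates above many variables: one function for all
numbers of NOT gates.** -/
theorem depth_uni (k b : ℕ) :
    ∃ f : (n : ℕ) → (Fin n → Bool) → Bool, SC (fun _ => 0) f ∧
      (∀ N r : ℕ → ℕ, (∀ᶠ n in atTop, 2 ^ r n * Nat.log 2 n ^ (60 * (b + k) + 600) ≤ N n) →
        ¬ NCAbove N r f) ∧
      ∃ n0 : ℕ, ∀ n ≥ n0, ∀ C : Circuit n, (∀ x, C.eval x = f n x) →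
        C.size ≤ 2 ^ (Nat.log 2 n) ^ k → ∀ P : Finset (Fin n),
        2 ^ C.negationsAbove P * Nat.log 2 n ^ (60 * (b + k) + 600) ≤ P.card →
        n ^ b ≤ C.depth := by
  obtain ⟨n0, h⟩ := fU_lower (max k 2) (max b 1) (60 * (b + k) + 600) (le_max_right _ _)
    (by omega)
  refine ⟨fU (max k 2 + 1) (max b 1 + 1), fU_SC _ _, ?_, ?_⟩
  · rintro N r hr ⟨C, hC, ⟨a, c, hs⟩, ⟨a', c', hd⟩, hP⟩
    obtain ⟨n1, hn1⟩ := eventually_atTop.mp hr
    obtain ⟨L0, hL0⟩ := pow_lt_two (a' + 1 + c' + 1)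
    set n := max (max n0 n1) (2 ^ (2 * (a + c + 1) + L0 + 1)) with hn
    have hn0 : n0 ≤ n := le_trans (le_max_left _ _) (le_max_left _ _)
    have hn1' : n1 ≤ n := le_trans (le_max_right _ _) (le_max_left _ _)
    have hnb : 2 ^ (2 * (a + c + 1) + L0 + 1) ≤ n := le_max_right _ _
    obtain ⟨P, p1, p2⟩ := hP n
    have hl : 2 * (a + c + 1) + L0 + 1 ≤ Nat.log 2 n := Nat.le_log_of_pow_le (by norm_num) hnb
    have hnz : n ≠ 0 := by
      have : 1 ≤ 2 ^ (2 * (a + c + 1) + L0 + 1) := Nat.one_le_two_pow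
      omega
    have hsz : (C n).size ≤ 2 ^ (Nat.log 2 n) ^ (max k 2) := by
      have h2 := hs n
      simp only at h2
      refine le_trans (le_trans h2 (size_aux a c n)) (Nat.pow_le_pow_right (by norm_num) ?_)
      calc (a + c + 1) * (Nat.log 2 n + 1) ≤ (a + c + 1) * (2 * Nat.log 2 n) :=
            Nat.mul_le_mul_left _ (by omega)
        _ = (2 * (a + c + 1)) * Nat.log 2 n := by ring
        _ ≤ Nat.log 2 n * Nat.log 2 n := Nat.mul_le_mul_right _ (by omega)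
        _ = (Nat.log 2 n) ^ 2 := (sq _).symm
        _ ≤ _ := Nat.pow_le_pow_right (by omega) (le_max_right _ _)
    have hPP : 2 ^ (C n).negationsAbove P * Nat.log 2 n ^ (60 * (b + k) + 600) ≤ P.card :=
      le_trans (Nat.mul_le_mul_right _ (Nat.pow_le_pow_right (by norm_num) p2))
        (le_trans (hn1 n hn1') p1)
    have h1 := h n hn0 (C n) (hC n) hsz P hPP
    have h2 := hd n
    simp only at h2
    have h3 := bound_aux a' c' (Nat.log 2 n)
    have h4 := hL0 (Nat.log 2 n) (by omega)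
    have h5 : 2 ^ Nat.log 2 n ≤ n := Nat.pow_log_le_self 2 hnz
    have h6 : n ≤ n ^ (max b 1) := Nat.le_self_pow (by omega) n
    have h7 : (Nat.log 2 n + 2) ^ (a' + 1 + c') * 2 ≤ (Nat.log 2 n + 2) ^ (a' + 1 + c' + 1) := by
      rw [pow_succ (Nat.log 2 n + 2) (a' + 1 + c')]
      exact Nat.mul_le_mul_left _ (by omega)
    have h8 : n ≤ (C n).depth := le_trans h6 h1
    omega
  · refine ⟨max n0 2, fun n hn C hC hs P hP => ?_⟩
    have hn2 : 2 ≤ n := le_trans (le_max_right _ _) hn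
    have hl : 1 ≤ Nat.log 2 n := Nat.le_log_of_pow_le (by norm_num) (by simpa using hn2)
    have h1 := h n (le_trans (le_max_left _ _) hn) C hC
      (le_trans hs (Nat.pow_le_pow_right (by norm_num)
        (Nat.pow_le_pow_right hl (le_max_left _ _)))) P hP
    exact le_trans (Nat.pow_le_pow_right (by omega) (le_max_left _ _)) h1

lemma negationsAbove_le {n : ℕ} (C : Circuit n) (P : Finset (Fin n)) :
    C.negationsAbove P ≤ C.negations := by
  unfold Circuit.negationsAbove Circuit.negations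
  apply Finset.card_le_card
  intro g hg
  rw [Finset.mem_filter] at hg ⊢
  exact ⟨hg.1, hg.2.1⟩

lemma NC.above {r : ℕ → ℕ} {f : (n : ℕ) → (Fin n → Bool) → Bool} (h : NC r f) :
    NCAbove (fun n => n) r f := by
  obtain ⟨C, hC, h1, h2, h3⟩ := h
  refine ⟨C, hC, h1, h2, fun n => ⟨Finset.univ, ?_, le_trans (negationsAbove_le _ _) (h3 n)⟩⟩
  simp

lemma negationsAbove_leL {n : ℕ} (C : Layered n) (P : Finset (Fin n)) :
    C.negationsAbove P ≤ C.negations := by
  unfold Layered.negationsAbove Layered.negations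
  apply Finset.sum_le_sum
  intro j _
  apply Finset.card_le_card
  intro g hg
  rw [Finset.mem_filter] at hg ⊢
  exact ⟨hg.1, hg.2.1⟩

lemma SC.above {r : ℕ → ℕ} {f : (n : ℕ) → (Fin n → Bool) → Bool} (h : SC r f) :
    SCAbove (fun n => n) r f := by
  obtain ⟨C, hC, h1, h2, h3⟩ := h
  refine ⟨C, hC, h1, h2, fun n => ⟨Finset.univ, ?_, le_trans (negationsAbove_leL _ _) (h3 n)⟩⟩
  simp

/-- The same, with the class of functions computed with few NOT gates. -/
theorem depth_uni' (k b : ℕ) :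
    ∃ f : (n : ℕ) → (Fin n → Bool) → Bool, SC (fun _ => 0) f ∧
      (∀ r : ℕ → ℕ, (∀ᶠ n in atTop, 2 ^ r n * Nat.log 2 n ^ (60 * (b + k) + 600) ≤ n) →
        ¬ NC r f) ∧
      (∀ N r : ℕ → ℕ, (∀ᶠ n in atTop, 2 ^ r n * Nat.log 2 n ^ (60 * (b + k) + 600) ≤ N n) →
        ¬ NCAbove N r f) ∧
      ∃ n0 : ℕ, ∀ n ≥ n0, ∀ C : Circuit n, (∀ x, C.eval x = f n x) →
        C.size ≤ 2 ^ (Nat.log 2 n) ^ k → ∀ P : Finset (Fin n),
        2 ^ C.negationsAbove P * Nat.log 2 n ^ (60 * (b + k) + 600) ≤ P.card →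
        n ^ b ≤ C.depth := by
  obtain ⟨f, h1, h2, h3⟩ := depth_uni k b
  exact ⟨f, h1, fun r hr hf => h2 (fun n => n) r hr hf.above, h2, h3⟩

end Pool.Agent.Results.MP_2af48a_lc.FewNegations
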