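import Pool.Agent.Lib_MP_2af48a_lc.HazMono
import Pool.Agent.Lib_MP_2af48a_lc.OdoUni

open Finset Filter

namespace Pool.Agent.Results.MP_2af48a_lc.FewNegations

/-- the new circuit for a monotone function -/
lemma hzCircuit_spec {n : ℕ} (C : Circuit n) (P : Finset (Fin n)) (h : C.HazardFreeOn P)
    (f : (Fin n → Bool) → Bool) (hC : ∀ x, C.eval x = f x)
    (hf : ∀ x z : Fin n → Bool, (∀ i, x i = true → z i = true) → f x = true → f z = true)
    (x : Fin n → Bool) : (hzCircuit C P).eval x = f x := by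
  rw [hzCircuit_eval, C.unst_eval P h, hC]
  intro x z hxz hx
  rw [hC] at hx ⊢
  exact hf x z hxz hx

/-- functions computed without NOT gates are monotone -/
lemma SC.monotone {f : (n : ℕ) → (Fin n → Bool) → Bool} (h : SC (fun _ => 0) f) (n : ℕ)
    (x z : Fin n → Bool) (hxz : ∀ i, x i = true → z i = true) (hx : f n x = true) :
    f n z = true := by
  obtain ⟨C, hC, h1, h2, h3⟩ := h
  rw [← hC] at hx ⊢
  exact (C n).mono_of_negations (Nat.le_zero.mp (h3 n)) x z hxz hx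

lemma polyBounded_hz {s s' : ℕ → ℕ} (h : PolyBounded s) (h' : ∀ n, s' n ≤ n + 4 * s n) :
    PolyBounded s' := by
  obtain ⟨a, c, hs⟩ := h
  refine ⟨8 * a + 1, c + 1, fun n => le_trans (h' n) ?_⟩
  have h1 := hs n
  rcases Nat.eq_zero_or_pos n with h0 | h0
  · subst h0
    have h2 : 0 ^ c ≤ 1 := by
      rcases Nat.eq_zero_or_pos c with hc | hc
      · subst hc; simp
      · rw [zero_pow (by omega)]; omega
    have h3 : a * 0 ^ c ≤ a * 1 := Nat.mul_le_mul_left _ h2
    have h4 : 0 ≤ (8 * a + 1) * 0 ^ (c + 1) := Nat.zero_le _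
    omega
  · have h2 : n ≤ n ^ (c + 1) := Nat.le_self_pow (by omega) n
    have h3 : n ^ c ≤ n ^ (c + 1) := Nat.pow_le_pow_right h0 (by omega)
    have h4 : a * n ^ c ≤ a * n ^ (c + 1) := Nat.mul_le_mul_left _ h3
    have h5 : (8 * a + 1) * n ^ (c + 1) = 8 * (a * n ^ (c + 1)) + n ^ (c + 1) := by ring
    omega

lemma polylogBounded_hz {s s' : ℕ → ℕ} (h : PolylogBounded s) (h' : ∀ n, s' n ≤ 4 * s n + 1) :
    PolylogBounded s' := by
  obtain ⟨a, c, hs⟩ := h
  refine ⟨4 * a + 1, c, fun n => le_trans (h' n) ?_⟩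
  have h1 := hs n
  have h5 : (4 * a + 1) * Nat.log 2 n ^ c = 4 * (a * Nat.log 2 n ^ c) + Nat.log 2 n ^ c := by ring
  omega

/-- **Circuits of small depth have hazards.** -/
theorem hazard_depth (k b : ℕ) :
    ∃ f : (n : ℕ) → (Fin n → Bool) → Bool, SC (fun _ => 0) f ∧
      (∀ N : ℕ → ℕ, (∀ᶠ n in atTop, Nat.log 2 n ^ (60 * (b + k) + 780) ≤ N n) →
        ¬ NCHazardFree N f) ∧
      ∃ n₀ : ℕ, ∀ n ≥ n₀, ∀ C : Circuit n, (∀ x, C.eval x = f n x) →
        C.size ≤ 2 ^ (Nat.log 2 n) ^ k → ∀ P : Finset (Fin n), C.HazardFreeOn P →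
        Nat.log 2 n ^ (60 * (b + k) + 780) ≤ P.card → n ^ b ≤ C.depth := by
  obtain ⟨f, h1, h2, n0, h3⟩ := depth_uni (k + 2) (b + 1)
  have he : 60 * (b + 1 + (k + 2)) + 600 = 60 * (b + k) + 780 := by ring
  rw [he] at h2 h3
  refine ⟨f, h1, ?_, max n0 8, ?_⟩
  · rintro N hN ⟨C, hC, hs, hd, hP⟩
    choose P hP1 hP2 using hP
    refine h2 N (fun _ => 0) ?_ ⟨fun n => hzCircuit (C n) (P n), ?_, ?_, ?_, ?_⟩
    · filter_upwards [hN] with n hn
      simpa using hn
    · intro n x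
      exact hzCircuit_spec (C n) (P n) (hP2 n) (f n) (hC n) (h1.monotone n) x
    · exact polyBounded_hz hs (fun n => by change n + 2 * (C n).size ≤ _; omega)
    · exact polylogBounded_hz hd (fun n => by
        change (hzCircuit (C n) (P n)).depth ≤ 4 * (C n).depth + 1
        have := hzCircuit_depth (C n) (P n)
        omega)
    · intro n
      exact ⟨P n, hP1 n, (hz_negationsAbove (C n) (P n)).le⟩
  · intro n hn C hC hs P hP hcard
    have hn0 : n0 ≤ n := le_trans (le_max_left _ _) hn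
    have hn8 : 8 ≤ n := le_trans (le_max_right _ _) hn
    obtain ⟨L, hL⟩ : ∃ L, L = Nat.log 2 n := ⟨_, rfl⟩
    have hL3 : 3 ≤ L := by
      rw [hL]; exact Nat.le_log_of_pow_le (by norm_num) (by simpa using hn8)
    have hn' : n < 2 ^ (L + 1) := by rw [hL]; exact Nat.lt_pow_succ_log_self (by norm_num) n
    have h4 := h3 n hn0 (hzCircuit C P) (hzCircuit_spec C P hP (f n) hC (h1.monotone n)) (by
      change n + 2 * C.size ≤ _
      rw [← hL] at hs ⊢
      have g1 : 1 ≤ L ^ k := Nat.one_le_pow _ _ (by omega)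
      have g2 : L ^ (k + 2) = L ^ k * L ^ 2 := pow_add _ _ _
      have g3 : 3 ^ 2 ≤ L ^ 2 := Nat.pow_le_pow_left hL3 _
      have g4 : L + 2 ≤ L ^ (k + 2) := by
        rw [g2]
        calc L + 2 ≤ 1 * L ^ 2 := by nlinarith
          _ ≤ L ^ k * L ^ 2 := Nat.mul_le_mul_right _ g1
      have g5 : L ^ k + 2 ≤ L ^ (k + 2) := by
        rw [g2]
        have : L ^ k * 3 ≤ L ^ k * L ^ 2 := Nat.mul_le_mul_left _ (by omega)
        omega
      have g6 : 2 ^ (L + 2) ≤ 2 ^ L ^ (k + 2) := Nat.pow_le_pow_right (by norm_num) g4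
      have g7 : 2 ^ (L ^ k + 2) ≤ 2 ^ L ^ (k + 2) := Nat.pow_le_pow_right (by norm_num) g5
      rw [pow_add] at g6 g7
      rw [pow_succ] at hn'
      omega) P (by rw [hz_negationsAbove]; simpa using hcard)
    have h5 := hzCircuit_depth C P
    have h6 : 2 * n ^ b ≤ n ^ (b + 1) := by
      rw [pow_succ, mul_comm]
      exact Nat.mul_le_mul_left _ (by omega)
    have h7 : 1 ≤ n ^ b := Nat.one_le_pow _ _ (by omega)
    omega

end Pool.Agent.Results.MP_2af48a_lc.FewNegations
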