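import Pool.Agent.Lib_MP_2af48a_lc.HazDefs

open Finset

namespace Pool.Agent.Results.MP_2af48a_lc.FewNegations

/-- The three-valued input belonging to `x`: the variables in `P` with value `false` become
unstable. -/
def aP {n : ℕ} (P : Finset (Fin n)) (x : Fin n → Bool) : Fin n → Option Bool :=
  fun i => if i ∈ P ∧ x i = false then none else some (x i)

theorem aP_none {n : ℕ} {P : Finset (Fin n)} {x : Fin n → Bool} {i : Fin n}
    (h : aP P x i = none) : i ∈ P := by
  unfold aP at h
  split at h
  · rename_i h'; exact h'.1
  · simp at h

/-- `x` itself is the smallest input for which `aP P x` may stand. -/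
theorem resolves_self {n : ℕ} (P : Finset (Fin n)) (x : Fin n → Bool) : Resolves (aP P x) x := by
  intro i
  unfold aP
  split
  · exact Or.inl rfl
  · exact Or.inr rfl

theorem le_of_resolves {n : ℕ} {P : Finset (Fin n)} {x z : Fin n → Bool}
    (h : Resolves (aP P x) z) : x ≤ z := by
  intro i
  rcases h i with h' | h'
  · unfold aP at h'
    split at h'
    · rename_i h''; rw [h''.2]; exact Bool.false_le _
    · simp at h'
  · unfold aP at h'
    split at h'
    · simp at h'
    · simp only [Option.some.injEq] at h'; rw [h']

/-! ### Soundness of the three-valued semantics -/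

theorem and3_some {a b : Option Bool} {u v : Bool} (ha : ∀ c, a = some c → u = c)
    (hb : ∀ c, b = some c → v = c) : ∀ c, and3 a b = some c → (u && v) = c := by
  intro c hc
  rcases a with _ | a <;> rcases b with _ | b
  · simp [and3] at hc
  · cases b <;> simp [and3] at hc
    have := hb _ rfl
    simp [this, hc]
  · cases a <;> simp [and3] at hc
    have := ha _ rfl
    simp [this, hc]
  · have h1 := ha _ rfl
    have h2 := hb _ rfl
    subst h1 h2
    cases u <;> cases v <;> simp [and3] at hc ⊢ <;> exact hc

theorem or3_some {a b : Option Bool} {u v : Bool} (ha : ∀ c, a = some c → u = c)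
    (hb : ∀ c, b = some c → v = c) : ∀ c, or3 a b = some c → (u || v) = c := by
  intro c hc
  rcases a with _ | a <;> rcases b with _ | b
  · simp [or3] at hc
  · cases b <;> simp [or3] at hc
    have := hb _ rfl
    simp [this, hc]
  · cases a <;> simp [or3] at hc
    have := ha _ rfl
    simp [this, hc]
  · have h1 := ha _ rfl
    have h2 := hb _ rfl
    subst h1 h2
    cases u <;> cases v <;> simp [or3] at hc ⊢ <;> exact hc

theorem not3_some {a : Option Bool} {u : Bool} (ha : ∀ c, a = some c → u = c) :
    ∀ c, not3 a = some c → (!u) = c := by
  intro c hc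
  rcases a with _ | a
  · simp [not3] at hc
  · have h1 := ha _ rfl
    subst h1
    simpa [not3] using hc

theorem Wire.val3_some {n k : ℕ} {α : Fin n → Option Bool} {z : Fin n → Bool}
    (h : Resolves α z) {v : Fin k → Option Bool} {w : Fin k → Bool}
    (hv : ∀ g c, v g = some c → w g = c) (a : Wire n k) :
    ∀ c, a.val3 α v = some c → a.val z w = c := by
  intro c hc
  cases a with
  | const b => simpa [Wire.val3, Wire.val] using hc
  | var i =>
    simp only [Wire.val3] at hc
    rcases h i with h' | h'
    · rw [h'] at hc; simp at hc
    · rw [h'] at hc; simpa [Wire.val] using hc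
  | gate g => exact hv g c hc

theorem Gate.val3_some {n k : ℕ} {α : Fin n → Option Bool} {z : Fin n → Bool}
    (h : Resolves α z) {v : Fin k → Option Bool} {w : Fin k → Bool}
    (hv : ∀ g c, v g = some c → w g = c) (a : Gate n k) :
    ∀ c, a.val3 α v = some c → a.val z w = c := by
  cases a with
  | and a b => exact and3_some (Wire.val3_some h hv a) (Wire.val3_some h hv b)
  | or a b => exact or3_some (Wire.val3_some h hv a) (Wire.val3_some h hv b)
  | not a => exact not3_some (Wire.val3_some h hv a)

theorem Layered.val3_some {n : ℕ} (C : Layered n) {α : Fin n → Option Bool} {z : Fin n → Bool}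
    (h : Resolves α z) : ∀ (j : ℕ) (g : Fin (C.width j)) (c : Bool),
    C.val3 α j g = some c → C.val z j g = c
  | 0 => fun g => Fin.elim0 (Fin.cast C.width_zero g)
  | j + 1 => fun g => Gate.val3_some h (fun g' c => Layered.val3_some C h j g' c) (C.gate j g)

theorem Layered.eval3_some {n : ℕ} (C : Layered n) {α : Fin n → Option Bool} {z : Fin n → Bool}
    (h : Resolves α z) {c : Bool} (hc : C.eval3 α = some c) : C.eval z = c :=
  Layered.val3_some C h _ _ c hc

/-- If a layered circuit which has no hazard on `P` computes a monotone function, then the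
value of the function is read off from the three-valued value at `aP P x`. -/
theorem Layered.hazardFree_eval {n : ℕ} {C : Layered n} {P : Finset (Fin n)}
    (hC : C.HazardFreeOn P) (hm : ∀ x y : Fin n → Bool, x ≤ y → C.eval x = true → C.eval y = true)
    (x : Fin n → Bool) : decide (C.eval3 (aP P x) = some true) = C.eval x := by
  rcases hx : C.eval x with _ | _
  · rw [decide_eq_false_iff_not]
    intro h
    rw [Layered.eval3_some C (resolves_self P x) h] at hx
    simp at hx
  · rw [decide_eq_true_iff]
    exact hC _ (fun i hi => aP_none hi) true (fun z hz => hm x z (le_of_resolves hz) hx)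

end Pool.Agent.Results.MP_2af48a_lc.FewNegations
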