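import Pool.Agent.Lib_MP_2af48a_lc.HazInput

open Finset

set_option linter.unusedSimpArgs false

namespace Pool.Agent.Results.MP_2af48a_lc.FewNegations

namespace DoubleRail

variable {n : ℕ}

/-- Is the three-valued signal `1`? -/
def isT : Option Bool → Bool
  | some true => true
  | _ => false

/-- Is the three-valued signal `0`? -/
def isF : Option Bool → Bool
  | some false => true
  | _ => false

/-- A gate with constant value `false`. -/
def dummy (m : ℕ) : Gate n m := .and (.const false) (.const false)

/-- The NOT gate which provides the negation of the variable read by a wire. -/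
def negGate (P : Finset (Fin n)) {k : ℕ} (m : ℕ) : Wire n k → Gate n m
  | .var i => if i ∈ P then dummy m else .not (.var i)
  | _ => dummy m

/-- The value of `negGate`. -/
def negVal (P : Finset (Fin n)) (x : Fin n → Bool) {k : ℕ} : Wire n k → Bool
  | .var i => if i ∈ P then false else !(x i)
  | _ => false

theorem negGate_val (P : Finset (Fin n)) (x : Fin n → Bool) {k : ℕ} (m : ℕ) (v : Fin m → Bool)
    (w : Wire n k) : (negGate P m w).val x v = negVal P x w := by
  cases w with
  | const b => simp [negGate, negVal, dummy, Gate.val, Wire.val]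
  | gate g => simp [negGate, negVal, dummy, Gate.val, Wire.val]
  | var i => by_cases h : i ∈ P <;> simp [negGate, negVal, dummy, Gate.val, Wire.val, h]

theorem negGate_above (P : Finset (Fin n)) {k : ℕ} (m : ℕ) (R : Fin m → Bool)
    (w : Wire n k) : (negGate P m w).above P R = false := by
  cases w with
  | const b => simp [negGate, dummy, Gate.above, Wire.above]
  | gate g => simp [negGate, dummy, Gate.above, Wire.above]
  | var i => by_cases h : i ∈ P <;> simp [negGate, dummy, Gate.above, Wire.above, h]

/-- First input wire of a gate. -/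
def first {k : ℕ} : Gate n k → Wire n k
  | .and a _ => a
  | .or a _ => a
  | .not a => a

/-- Last input wire of a gate. -/
def second {k : ℕ} : Gate n k → Wire n k
  | .and _ b => b
  | .or _ b => b
  | .not a => a

/-- The number of NOT gates in layer `j + 1` of the new circuit. -/
def nNot (C : Layered n) (j : ℕ) : ℕ := if j < C.layers then 2 * C.width (j + 1) else 0

/-- The widths of the new circuit. -/
def dWidth (C : Layered n) : ℕ → ℕ
  | 0 => 0
  | j + 1 => 2 * C.width j + nNot C j

/-- `[value = 1]` for a wire. -/
def railT (C : Layered n) (j : ℕ) : Wire n (C.width j) → Wire n (dWidth C (j + 1))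
  | .const b => .const b
  | .var i => .var i
  | .gate g => .gate ⟨2 * g.val, by have := g.isLt; show _ < 2 * C.width j + nNot C j; omega⟩

/-- `[value = 0]` for a wire; `w` is the wire to its negated variable. -/
def railF (C : Layered n) (P : Finset (Fin n)) (j : ℕ) (w : Wire n (dWidth C (j + 1))) :
    Wire n (C.width j) → Wire n (dWidth C (j + 1))
  | .const b => .const (!b)
  | .var i => if i ∈ P then .const false else w
  | .gate g => .gate ⟨2 * g.val + 1, by have := g.isLt; show _ < 2 * C.width j + nNot C j; omega⟩

/-- The wire to NOT gate number `k`. -/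
def negWire (C : Layered n) (j k : ℕ) : Wire n (dWidth C (j + 1)) :=
  if h : 2 * C.width j + k < dWidth C (j + 1) then .gate ⟨_, h⟩ else .const false

/-- `[value = 1]` for a gate of layer `j + 1`. -/
def gateT (C : Layered n) (P : Finset (Fin n)) (j g : ℕ) :
    Gate n (C.width j) → Gate n (dWidth C (j + 1))
  | .and a b => .and (railT C j a) (railT C j b)
  | .or a b => .or (railT C j a) (railT C j b)
  | .not a => .or (railF C P j (negWire C j (2 * g)) a) (railF C P j (negWire C j (2 * g)) a)

/-- `[value = 0]` for a gate of layer `j + 1`. -/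
def gateF (C : Layered n) (P : Finset (Fin n)) (j g : ℕ) :
    Gate n (C.width j) → Gate n (dWidth C (j + 1))
  | .and a b => .or (railF C P j (negWire C j (2 * g)) a)
      (railF C P j (negWire C j (2 * g + 1)) b)
  | .or a b => .and (railF C P j (negWire C j (2 * g)) a)
      (railF C P j (negWire C j (2 * g + 1)) b)
  | .not a => .or (railT C j a) (railT C j a)

/-- The NOT gates of layer `j + 1` of the new circuit. -/
def notPart (C : Layered n) (P : Finset (Fin n)) (j k m : ℕ) : Gate n m :=
  if h : k / 2 < C.width (j + 1) then
    (if k % 2 = 0 then negGate P m (first (C.gate j ⟨k / 2, h⟩))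
      else negGate P m (second (C.gate j ⟨k / 2, h⟩)))
  else dummy m

/-- The gates of the new circuit. -/
def dGate (C : Layered n) (P : Finset (Fin n)) :
    (j : ℕ) → Fin (dWidth C (j + 1)) → Gate n (dWidth C j)
  | 0 => fun k => notPart C P 0 (k.val - 2 * C.width 0) 0
  | j + 1 => fun k =>
    if h : k.val / 2 < C.width (j + 1) then
      (if k.val % 2 = 0 then gateT C P j (k.val / 2) (C.gate j ⟨k.val / 2, h⟩)
        else gateF C P j (k.val / 2) (C.gate j ⟨k.val / 2, h⟩))
    else notPart C P (j + 1) (k.val - 2 * C.width (j + 1)) (dWidth C (j + 1))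

/-- The values of the gates of the new circuit. -/
def dVal (C : Layered n) (P : Finset (Fin n)) (x : Fin n → Bool) :
    (j : ℕ) → Fin (dWidth C j) → Bool
  | 0 => fun _ => false
  | j + 1 => fun g => (dGate C P j g).val x (dVal C P x j)

/-- The double rail circuit. -/
def circuit (C : Layered n) (P : Finset (Fin n)) : Layered n where
  layers := C.layers + 1
  width := dWidth C
  width_zero := rfl
  gate := dGate C P
  out := ⟨2 * C.out.val, by
    have := C.out.isLt; show _ < 2 * C.width C.layers + nNot C C.layers; omega⟩

theorem dGate_T (C : Layered n) (P : Finset (Fin n)) (j : ℕ) (g : Fin (C.width (j + 1)))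
    (h : 2 * g.val < dWidth C (j + 1 + 1)) :
    dGate C P (j + 1) ⟨2 * g.val, h⟩ = gateT C P j g.val (C.gate j g) := by
  have h1 : 2 * g.val / 2 = g.val := by omega
  have h2 : 2 * g.val % 2 = 0 := by omega
  simp only [dGate, h1, h2, g.isLt, dif_pos, if_true, Fin.eta]

theorem dGate_F (C : Layered n) (P : Finset (Fin n)) (j : ℕ) (g : Fin (C.width (j + 1)))
    (h : 2 * g.val + 1 < dWidth C (j + 1 + 1)) :
    dGate C P (j + 1) ⟨2 * g.val + 1, h⟩ = gateF C P j g.val (C.gate j g) := by
  have h1 : (2 * g.val + 1) / 2 = g.val := by omega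
  have h2 : (2 * g.val + 1) % 2 = 1 := by omega
  simp only [dGate, h1, h2, g.isLt, dif_pos, Fin.eta]
  simp

theorem dGate_neg0 (C : Layered n) (P : Finset (Fin n)) (j : ℕ) (g : Fin (C.width (j + 1)))
    (h : 2 * C.width j + 2 * g.val < dWidth C (j + 1)) :
    dGate C P j ⟨2 * C.width j + 2 * g.val, h⟩ = negGate P (dWidth C j) (first (C.gate j g)) := by
  have h1 : 2 * g.val / 2 = g.val := by omega
  have h2 : 2 * g.val % 2 = 0 := by omega
  cases j with
  | zero =>
    have h3 : 2 * C.width 0 + 2 * g.val - 2 * C.width 0 = 2 * g.val := by omega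
    simp only [dGate, notPart, h3, h1, h2, g.isLt, dif_pos, if_true, Fin.eta]
    rfl
  | succ j =>
    have h3 : 2 * C.width (j + 1) + 2 * g.val - 2 * C.width (j + 1) = 2 * g.val := by omega
    have h4 : ¬ (2 * C.width (j + 1) + 2 * g.val) / 2 < C.width (j + 1) := by omega
    simp only [dGate, dif_neg h4, notPart, h3, h1, h2, g.isLt, dif_pos, if_true, Fin.eta]

theorem dGate_neg1 (C : Layered n) (P : Finset (Fin n)) (j : ℕ) (g : Fin (C.width (j + 1)))
    (h : 2 * C.width j + (2 * g.val + 1) < dWidth C (j + 1)) :
    dGate C P j ⟨2 * C.width j + (2 * g.val + 1), h⟩ =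
      negGate P (dWidth C j) (second (C.gate j g)) := by
  have h1 : (2 * g.val + 1) / 2 = g.val := by omega
  have h2 : (2 * g.val + 1) % 2 = 1 := by omega
  cases j with
  | zero =>
    have h3 : 2 * C.width 0 + (2 * g.val + 1) - 2 * C.width 0 = 2 * g.val + 1 := by omega
    simp only [dGate, notPart, h3, h1, h2, g.isLt, dif_pos, Fin.eta]
    simp
    rfl
  | succ j =>
    have h3 : 2 * C.width (j + 1) + (2 * g.val + 1) - 2 * C.width (j + 1) = 2 * g.val + 1 := by
      omega
    have h4 : ¬ (2 * C.width (j + 1) + (2 * g.val + 1)) / 2 < C.width (j + 1) := by omega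
    simp only [dGate, dif_neg h4, notPart, h3, h1, h2, g.isLt, dif_pos, Fin.eta]
    simp

theorem circuit_val (C : Layered n) (P : Finset (Fin n)) (x : Fin n → Bool) (j : ℕ)
    (g : Fin (dWidth C (j + 1))) :
    dVal C P x (j + 1) g = (dGate C P j g).val x (dVal C P x j) := rfl

theorem val_eq (C : Layered n) (P : Finset (Fin n)) (x : Fin n → Bool) :
    ∀ j, (circuit C P).val x j = dVal C P x j
  | 0 => funext fun g => Fin.elim0 (Fin.cast (circuit C P).width_zero g)
  | j + 1 => funext fun g => by
    show (dGate C P j g).val x ((circuit C P).val x j) = (dGate C P j g).val x (dVal C P x j)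
    have h := val_eq C P x j
    exact congrArg (fun v => (dGate C P j g).val x v) h

theorem negWire_val0 (C : Layered n) (P : Finset (Fin n)) (x : Fin n → Bool) {j : ℕ}
    (hj : j < C.layers) (g : Fin (C.width (j + 1))) :
    (negWire C j (2 * g.val)).val x (dVal C P x (j + 1)) =
      negVal P x (first (C.gate j g)) := by
  have h : 2 * C.width j + 2 * g.val < dWidth C (j + 1) := by
    have := g.isLt
    simp only [dWidth, nNot, hj, if_true]
    omega
  simp only [negWire, dif_pos h, Wire.val]
  rw [circuit_val, dGate_neg0, negGate_val]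

theorem negWire_val1 (C : Layered n) (P : Finset (Fin n)) (x : Fin n → Bool) {j : ℕ}
    (hj : j < C.layers) (g : Fin (C.width (j + 1))) :
    (negWire C j (2 * g.val + 1)).val x (dVal C P x (j + 1)) =
      negVal P x (second (C.gate j g)) := by
  have h : 2 * C.width j + (2 * g.val + 1) < dWidth C (j + 1) := by
    have := g.isLt
    simp only [dWidth, nNot, hj, if_true]
    omega
  simp only [negWire, dif_pos h, Wire.val]
  rw [circuit_val, dGate_neg1, negGate_val]

/-- What the values of the rails of layer `j` should be. -/
def Good (C : Layered n) (P : Finset (Fin n)) (x : Fin n → Bool) (j : ℕ) : Prop :=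
  ∀ g : Fin (C.width j), ∀ (h0 : 2 * g.val < dWidth C (j + 1))
    (h1 : 2 * g.val + 1 < dWidth C (j + 1)),
    dVal C P x (j + 1) ⟨2 * g.val, h0⟩ = isT (C.val3 (aP P x) j g) ∧
    dVal C P x (j + 1) ⟨2 * g.val + 1, h1⟩ = isF (C.val3 (aP P x) j g)

theorem railT_val {C : Layered n} {P : Finset (Fin n)} {x : Fin n → Bool} {j : ℕ}
    (h : Good C P x j) (w : Wire n (C.width j)) :
    (railT C j w).val x (dVal C P x (j + 1)) =
      isT (w.val3 (aP P x) (C.val3 (aP P x) j)) := by
  cases w with
  | const b => cases b <;> simp [railT, Wire.val, Wire.val3, isT]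
  | var i =>
    simp only [railT, Wire.val, Wire.val3, aP]
    cases hx : x i <;> by_cases hi : i ∈ P <;> simp [hi, isT]
  | gate g =>
    have h0 : 2 * g.val < dWidth C (j + 1) := by
      have := g.isLt; show _ < 2 * C.width j + nNot C j; omega
    have h1 : 2 * g.val + 1 < dWidth C (j + 1) := by
      have := g.isLt; show _ < 2 * C.width j + nNot C j; omega
    exact (h g h0 h1).1

theorem railF_val {C : Layered n} {P : Finset (Fin n)} {x : Fin n → Bool} {j : ℕ}
    (h : Good C P x j) (u : Wire n (dWidth C (j + 1))) (w : Wire n (C.width j))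
    (hu : u.val x (dVal C P x (j + 1)) = negVal P x w) :
    (railF C P j u w).val x (dVal C P x (j + 1)) =
      isF (w.val3 (aP P x) (C.val3 (aP P x) j)) := by
  cases w with
  | const b => cases b <;> simp [railF, Wire.val, Wire.val3, isF]
  | var i =>
    by_cases hi : i ∈ P
    · simp only [railF, if_pos hi, Wire.val, Wire.val3, aP]
      cases hx : x i <;> simp [hi, isF]
    · simp only [railF, if_neg hi]
      rw [hu]
      simp only [negVal, if_neg hi, Wire.val3, aP]
      cases hx : x i <;> simp [hi, isF]
  | gate g =>
    have h0 : 2 * g.val < dWidth C (j + 1) := by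
      have := g.isLt; show _ < 2 * C.width j + nNot C j; omega
    have h1 : 2 * g.val + 1 < dWidth C (j + 1) := by
      have := g.isLt; show _ < 2 * C.width j + nNot C j; omega
    exact (h g h0 h1).2

theorem and3_true (a b : Option Bool) :
    isT (and3 a b) = (isT a && isT b) := by
  rcases a with _ | a <;> rcases b with _ | b
  · simp [and3, isT, isF]
  · cases b <;> simp [and3, isT, isF]
  · cases a <;> simp [and3, isT, isF]
  · cases a <;> cases b <;> simp [and3, isT, isF]

theorem and3_false (a b : Option Bool) :
    isF (and3 a b) = (isF a || isF b) := by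
  rcases a with _ | a <;> rcases b with _ | b
  · simp [and3, isT, isF]
  · cases b <;> simp [and3, isT, isF]
  · cases a <;> simp [and3, isT, isF]
  · cases a <;> cases b <;> simp [and3, isT, isF]

theorem or3_true (a b : Option Bool) :
    isT (or3 a b) = (isT a || isT b) := by
  rcases a with _ | a <;> rcases b with _ | b
  · simp [or3, isT, isF]
  · cases b <;> simp [or3, isT, isF]
  · cases a <;> simp [or3, isT, isF]
  · cases a <;> cases b <;> simp [or3, isT, isF]

theorem or3_false (a b : Option Bool) :
    isF (or3 a b) = (isF a && isF b) := by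
  rcases a with _ | a <;> rcases b with _ | b
  · simp [or3, isT, isF]
  · cases b <;> simp [or3, isT, isF]
  · cases a <;> simp [or3, isT, isF]
  · cases a <;> cases b <;> simp [or3, isT, isF]

theorem not3_true (a : Option Bool) :
    isT (not3 a) = isF a := by
  rcases a with _ | a
  · simp [not3, isT, isF]
  · cases a <;> simp [not3, isT, isF]

theorem not3_false (a : Option Bool) :
    isF (not3 a) = isT a := by
  rcases a with _ | a
  · simp [not3, isT, isF]
  · cases a <;> simp [not3, isT, isF]

theorem gateT_val {C : Layered n} {P : Finset (Fin n)} {x : Fin n → Bool} {j : ℕ}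
    (h : Good C P x j) (g : ℕ) (a : Gate n (C.width j))
    (h0 : (negWire C j (2 * g)).val x (dVal C P x (j + 1)) = negVal P x (first a)) :
    (gateT C P j g a).val x (dVal C P x (j + 1)) =
      isT (a.val3 (aP P x) (C.val3 (aP P x) j)) := by
  cases a with
  | and a b =>
    simp only [gateT, Gate.val, Gate.val3]
    rw [railT_val h a, railT_val h b, and3_true]
  | or a b =>
    simp only [gateT, Gate.val, Gate.val3]
    rw [railT_val h a, railT_val h b, or3_true]
  | not a =>
    simp only [gateT, Gate.val, Gate.val3]
    rw [railF_val h _ a h0, not3_true, Bool.or_self]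

theorem gateF_val {C : Layered n} {P : Finset (Fin n)} {x : Fin n → Bool} {j : ℕ}
    (h : Good C P x j) (g : ℕ) (a : Gate n (C.width j))
    (h0 : (negWire C j (2 * g)).val x (dVal C P x (j + 1)) = negVal P x (first a))
    (h1 : (negWire C j (2 * g + 1)).val x (dVal C P x (j + 1)) =
      negVal P x (second a)) :
    (gateF C P j g a).val x (dVal C P x (j + 1)) =
      isF (a.val3 (aP P x) (C.val3 (aP P x) j)) := by
  cases a with
  | and a b =>
    simp only [gateF, Gate.val, Gate.val3]
    rw [railF_val h _ a h0, railF_val h _ b h1, and3_false]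
  | or a b =>
    simp only [gateF, Gate.val, Gate.val3]
    rw [railF_val h _ a h0, railF_val h _ b h1, or3_false]
  | not a =>
    simp only [gateF, Gate.val, Gate.val3]
    rw [railT_val h a, not3_false, Bool.or_self]

theorem good (C : Layered n) (P : Finset (Fin n)) (x : Fin n → Bool) :
    ∀ j, j ≤ C.layers → Good C P x j
  | 0, _ => fun g => Fin.elim0 (Fin.cast C.width_zero g)
  | j + 1, hj => by
    have ih := good C P x j (by omega)
    intro g h0 h1
    have a0 := negWire_val0 C P x (by omega : j < C.layers) g
    have a1 := negWire_val1 C P x (by omega : j < C.layers) g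
    constructor
    · rw [circuit_val, dGate_T, gateT_val ih g.val _ a0]
      rfl
    · rw [circuit_val, dGate_F, gateF_val ih g.val _ a0 a1]
      rfl

theorem isT_eq (o : Option Bool) : isT o = decide (o = some true) := by
  rcases o with _ | b
  · rfl
  · cases b <;> rfl

theorem circuit_eval (C : Layered n) (P : Finset (Fin n)) (x : Fin n → Bool) :
    (circuit C P).eval x = decide (C.eval3 (aP P x) = some true) := by
  have h := (good C P x C.layers le_rfl C.out (by
    have := C.out.isLt; show _ < 2 * C.width C.layers + nNot C C.layers; omega) (by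
    have := C.out.isLt; show _ < 2 * C.width C.layers + nNot C C.layers; omega)).1
  rw [isT_eq] at h
  rw [← Layered.eval3] at h
  rw [← h]
  show (circuit C P).val x (C.layers + 1) _ = _
  rw [val_eq]
  rfl

theorem gateT_isNot (C : Layered n) (P : Finset (Fin n)) (j g : ℕ) (a : Gate n (C.width j)) :
    (gateT C P j g a).isNot = false := by
  cases a <;> rfl

theorem gateF_isNot (C : Layered n) (P : Finset (Fin n)) (j g : ℕ) (a : Gate n (C.width j)) :
    (gateF C P j g a).isNot = false := by
  cases a <;> rfl

theorem notPart_above (C : Layered n) (P : Finset (Fin n)) (j k m : ℕ) (R : Fin m → Bool) :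
    (notPart C P j k m).above P R = false := by
  unfold notPart
  split
  · split
    · exact negGate_above P m R _
    · exact negGate_above P m R _
  · simp [dummy, Gate.above, Wire.above]

theorem dGate_above (C : Layered n) (P : Finset (Fin n)) (j : ℕ) (k : Fin (dWidth C (j + 1)))
    (R : Fin (dWidth C j) → Bool) (h : (dGate C P j k).isNot = true) :
    (dGate C P j k).above P R = false := by
  cases j with
  | zero => exact notPart_above C P 0 _ 0 R
  | succ j =>
    simp only [dGate] at h ⊢
    split
    · rename_i hk
      rw [dif_pos hk] at h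
      split at h
      · rw [gateT_isNot] at h; simp at h
      · rw [gateF_isNot] at h; simp at h
    · exact notPart_above C P (j + 1) _ _ R

theorem circuit_negationsAbove (C : Layered n) (P : Finset (Fin n)) :
    (circuit C P).negationsAbove P = 0 := by
  unfold Layered.negationsAbove
  refine Finset.sum_eq_zero fun j _ => ?_
  rw [Finset.card_eq_zero, Finset.filter_eq_empty_iff]
  rintro g - ⟨h1, h2⟩
  have h3 : (circuit C P).above P (j + 1) g = false :=
    dGate_above C P j g ((circuit C P).above P j) h1
  rw [h3] at h2
  simp at h2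

theorem width_le (C : Layered n) {j : ℕ} (hj : j ≤ C.layers) : C.width j ≤ C.maxWidth := by
  cases j with
  | zero => rw [C.width_zero]; exact Nat.zero_le _
  | succ j =>
    exact Finset.le_sup (f := fun j => C.width (j + 1)) (Finset.mem_range.2 (by omega))

theorem nNot_le (C : Layered n) (j : ℕ) : nNot C j ≤ 2 * C.maxWidth := by
  unfold nNot
  split
  · have := width_le C (j := j + 1) (by omega)
    omega
  · exact Nat.zero_le _

theorem circuit_maxWidth (C : Layered n) (P : Finset (Fin n)) :
    (circuit C P).maxWidth ≤ 4 * C.maxWidth := by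
  refine Finset.sup_le fun j hj => ?_
  have hj' : j < C.layers + 1 := Finset.mem_range.1 hj
  have h1 := width_le C (j := j) (by omega)
  have h2 := nNot_le C j
  show 2 * C.width j + nNot C j ≤ _
  omega

theorem circuit_size (C : Layered n) (P : Finset (Fin n)) :
    (circuit C P).size = 4 * C.size := by
  have h1 : ∑ j ∈ range (C.layers + 1), 2 * C.width j = 2 * C.size := by
    rw [Finset.sum_range_succ', C.width_zero, ← Finset.mul_sum]
    rfl
  have h2 : ∑ j ∈ range (C.layers + 1), nNot C j = 2 * C.size := by
    rw [Finset.sum_range_succ]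
    have h3 : nNot C C.layers = 0 := by simp [nNot]
    rw [h3, add_zero, Layered.size, Finset.mul_sum]
    refine Finset.sum_congr rfl fun j hj => ?_
    simp [nNot, Finset.mem_range.1 hj]
  have h4 : (circuit C P).size = ∑ j ∈ range (C.layers + 1), (2 * C.width j + nNot C j) := rfl
  rw [h4, Finset.sum_add_distrib, h1, h2]
  ring

end DoubleRail

/-- The double rail circuit: no NOT gate above `P`, and the output is `1` exactly when the
three-valued output at `aP P x` is `1`. -/
theorem layered_hazard {n : ℕ} (C : Layered n) (P : Finset (Fin n)) :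
    ∃ C' : Layered n, (∀ x, C'.eval x = decide (C.eval3 (aP P x) = some true)) ∧
      C'.negationsAbove P = 0 ∧ C'.maxWidth ≤ 4 * C.maxWidth ∧ C'.size = 4 * C.size ∧
      C'.layers = C.layers + 1 :=
  ⟨DoubleRail.circuit C P, DoubleRail.circuit_eval C P, DoubleRail.circuit_negationsAbove C P,
    DoubleRail.circuit_maxWidth C P, DoubleRail.circuit_size C P, rfl⟩

/-- The same for a monotone function computed by a circuit without hazards on `P`. -/
theorem layered_hazardFree {n : ℕ} {C : Layered n} {P : Finset (Fin n)}
    (hC : C.HazardFreeOn P) (hm : ∀ x y : Fin n → Bool, x ≤ y → C.eval x = true → C.eval y = true) :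
    ∃ C' : Layered n, (∀ x, C'.eval x = C.eval x) ∧
      C'.negationsAbove P = 0 ∧ C'.maxWidth ≤ 4 * C.maxWidth ∧ C'.size = 4 * C.size ∧
      C'.layers = C.layers + 1 := by
  obtain ⟨C', h1, h2⟩ := layered_hazard C P
  exact ⟨C', fun x => (h1 x).trans (Layered.hazardFree_eval hC hm x), h2⟩

end Pool.Agent.Results.MP_2af48a_lc.FewNegations
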