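import Pool.Agent.Lib_MP_2af48a_lc.HazSound

open Finset

namespace Pool.Agent.Results.MP_2af48a_lc.FewNegations

/-! ### Circuits without NOT gates have no hazards -/

/-- the value of a signal which is `a` if the unstable variables are `false`, and `b` if they are
`true` -/
def tri (a b : Bool) : Option Bool := if a = b then some a else none

lemma and3_tri (a b c d : Bool) (h1 : a = true → b = true) (h2 : c = true → d = true) :
    and3 (tri a b) (tri c d) = tri (a && c) (b && d) := by
  revert h1 h2
  cases a <;> cases b <;> cases c <;> cases d <;> simp [tri, and3]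

lemma or3_tri (a b c d : Bool) (h1 : a = true → b = true) (h2 : c = true → d = true) :
    or3 (tri a b) (tri c d) = tri (a || c) (b || d) := by
  revert h1 h2
  cases a <;> cases b <;> cases c <;> cases d <;> simp [tri, or3]

/-- the unstable variables are `c` -/
def fillU {n : ℕ} (c : Bool) (α : Fin n → Option Bool) (i : Fin n) : Bool := (α i).getD c

lemma fillU_resolves {n : ℕ} (c : Bool) (α : Fin n → Option Bool) : Resolves α (fillU c α) := by
  intro i
  unfold fillU
  cases h : α i with
  | none => exact Or.inl rfl
  | some b => exact Or.inr rfl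

section

variable {n : ℕ} (α : Fin n → Option Bool)

lemma Wire.val3_tri {k : ℕ} (v3 : Fin k → Option Bool) (v1 v2 : Fin k → Bool)
    (hv : ∀ g, v3 g = tri (v1 g) (v2 g) ∧ (v1 g = true → v2 g = true)) (w : Wire n k) :
    w.val3 α v3 = tri (w.val (fillU false α) v1) (w.val (fillU true α) v2) ∧
      (w.val (fillU false α) v1 = true → w.val (fillU true α) v2 = true) := by
  cases w with
  | const b => exact ⟨by change some b = tri b b; simp [tri], fun h => h⟩
  | var i =>
    change α i = tri ((α i).getD false) ((α i).getD true) ∧
      ((α i).getD false = true → (α i).getD true = true)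
    cases h : α i with
    | none => simp [tri]
    | some b => simp [tri]
  | gate g => exact hv g

lemma Gate.val3_tri {k : ℕ} (v3 : Fin k → Option Bool) (v1 v2 : Fin k → Bool)
    (hv : ∀ g, v3 g = tri (v1 g) (v2 g) ∧ (v1 g = true → v2 g = true)) (G : Gate n k)
    (hG : G.isNot = false) :
    G.val3 α v3 = tri (G.val (fillU false α) v1) (G.val (fillU true α) v2) ∧
      (G.val (fillU false α) v1 = true → G.val (fillU true α) v2 = true) := by
  cases G with
  | and a b =>
    obtain ⟨a1, a2⟩ := Wire.val3_tri α v3 v1 v2 hv a
    obtain ⟨b1, b2⟩ := Wire.val3_tri α v3 v1 v2 hv b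
    refine ⟨?_, ?_⟩
    · change and3 _ _ = tri (_ && _) (_ && _)
      rw [a1, b1, and3_tri _ _ _ _ a2 b2]
    · change (_ && _) = true → (_ && _) = true
      rw [Bool.and_eq_true, Bool.and_eq_true]
      exact fun h => ⟨a2 h.1, b2 h.2⟩
  | or a b =>
    obtain ⟨a1, a2⟩ := Wire.val3_tri α v3 v1 v2 hv a
    obtain ⟨b1, b2⟩ := Wire.val3_tri α v3 v1 v2 hv b
    refine ⟨?_, ?_⟩
    · change or3 _ _ = tri (_ || _) (_ || _)
      rw [a1, b1, or3_tri _ _ _ _ a2 b2]
    · change (_ || _) = true → (_ || _) = true
      rw [Bool.or_eq_true, Bool.or_eq_true]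
      exact fun h => h.imp a2 b2
  | not a => exact absurd hG (by simp [Gate.isNot])

lemma tri_of_const (a b c : Bool) (h1 : a = c) (h2 : b = c) : tri a b = some c := by
  subst h1
  rw [h2]
  simp [tri]

/-- circuits without NOT gates have no hazards -/
lemma Circuit.hazardFree_of_pos (C : Circuit n) (hC : ∀ g, (C.gate g).isNot = false)
    (P : Finset (Fin n)) : C.HazardFreeOn P := by
  intro α _ b hb
  have key : ∀ g (hg : g < C.size),
      C.gateVal3 α g hg = tri (C.gateVal (fillU false α) g hg) (C.gateVal (fillU true α) g hg) ∧
      (C.gateVal (fillU false α) g hg = true → C.gateVal (fillU true α) g hg = true) := by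
    intro g
    induction g using Nat.strong_induction_on with
    | _ g ih =>
      intro hg
      rw [Circuit.gateVal3, Circuit.gateVal, Circuit.gateVal]
      exact Gate.val3_tri α _ _ _ (fun g' => ih g'.val g'.isLt _) _ (hC _)
  unfold Circuit.eval3
  rw [(key _ C.out.isLt).1]
  exact tri_of_const _ _ _ (hb _ (fillU_resolves _ _)) (hb _ (fillU_resolves _ _))

/-- layered circuits without NOT gates have no hazards -/
lemma Layered.hazardFree_of_pos (C : Layered n)
    (hC : ∀ j < C.layers, ∀ g, (C.gate j g).isNot = false) (P : Finset (Fin n)) :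
    C.HazardFreeOn P := by
  intro α _ b hb
  have key : ∀ j ≤ C.layers, ∀ g,
      C.val3 α j g = tri (C.val (fillU false α) j g) (C.val (fillU true α) j g) ∧
      (C.val (fillU false α) j g = true → C.val (fillU true α) j g = true) := by
    intro j
    induction j with
    | zero => exact fun _ g => Fin.elim0 (Fin.cast C.width_zero g)
    | succ j ih =>
      intro hj g
      exact Gate.val3_tri α _ _ _ (fun g' => ih (by omega) g') _ (hC j (by omega) g)
  unfold Layered.eval3
  rw [(key _ le_rfl _).1]
  exact tri_of_const _ _ _ (hb _ (fillU_resolves _ _)) (hb _ (fillU_resolves _ _))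

lemma Circuit.pos_of_negations (C : Circuit n) (h : C.negations = 0) (g : Fin C.size) :
    (C.gate g).isNot = false := by
  unfold Circuit.negations at h
  rw [Finset.card_eq_zero, Finset.filter_eq_empty_iff] at h
  exact Bool.eq_false_iff.mpr (h (Finset.mem_univ g))

lemma Layered.pos_of_negations (C : Layered n) (h : C.negations = 0) (j : ℕ) (hj : j < C.layers)
    (g : Fin (C.width (j + 1))) : (C.gate j g).isNot = false := by
  unfold Layered.negations at h
  rw [Finset.sum_eq_zero_iff] at h
  have h1 := h j (Finset.mem_range.mpr hj)
  rw [Finset.card_eq_zero, Finset.filter_eq_empty_iff] at h1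
  exact Bool.eq_false_iff.mpr (h1 (Finset.mem_univ g))

/-- functions computed by circuits without NOT gates are monotone -/
lemma Circuit.mono_of_negations (C : Circuit n) (h : C.negations = 0) (x z : Fin n → Bool)
    (hxz : ∀ i, x i = true → z i = true) (hx : C.eval x = true) : C.eval z = true :=
  Pos.mono C (C.pos_of_negations h) x z hxz _ _ hx

lemma Layered.mono_of_negations (C : Layered n) (h : C.negations = 0) (x z : Fin n → Bool)
    (hxz : ∀ i, x i = true → z i = true) (hx : C.eval x = true) : C.eval z = true := by
  have key : ∀ j ≤ C.layers, ∀ g, C.val x j g = true → C.val z j g = true := by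
    intro j
    induction j with
    | zero => exact fun _ g => Fin.elim0 (Fin.cast C.width_zero g)
    | succ j ih =>
      intro hj g hg
      have hw : ∀ w : Wire n (C.width j), w.val x (C.val x j) = true →
          w.val z (C.val z j) = true := by
        intro w hw
        cases w with
        | const b => exact hw
        | var i => exact hxz i hw
        | gate u => exact ih (by omega) u hw
      have hn := C.pos_of_negations h j (by omega) g
      have hg' : (C.gate j g).val x (C.val x j) = true := hg
      change (C.gate j g).val z (C.val z j) = true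
      cases hG : C.gate j g with
      | and a b =>
        rw [hG] at hg'
        change (_ && _) = true at hg'
        change (_ && _) = true
        rw [Bool.and_eq_true] at hg' ⊢
        exact ⟨hw _ hg'.1, hw _ hg'.2⟩
      | or a b =>
        rw [hG] at hg'
        change (_ || _) = true at hg'
        change (_ || _) = true
        rw [Bool.or_eq_true] at hg' ⊢
        exact hg'.imp (hw _) (hw _)
      | not a =>
        rw [hG] at hn
        exact absurd hn (by simp [Gate.isNot])
  exact key _ le_rfl _ hx

end

/-- monotone SC without hazards -/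
lemma SC.hazardFree {f : (n : ℕ) → (Fin n → Bool) → Bool} (h : SC (fun _ => 0) f) :
    SCHazardFree (fun n => n) f := by
  obtain ⟨C, hC, h1, h2, h3⟩ := h
  refine ⟨C, hC, h1, h2, fun n => ⟨Finset.univ, by simp, ?_⟩⟩
  exact (C n).hazardFree_of_pos (fun j hj g =>
    (C n).pos_of_negations (Nat.le_zero.mp (h3 n)) j hj g) _

/-- monotone NC without hazards -/
lemma NC.hazardFree {f : (n : ℕ) → (Fin n → Bool) → Bool} (h : NC (fun _ => 0) f) :
    NCHazardFree (fun n => n) f := by
  obtain ⟨C, hC, h1, h2, h3⟩ := h
  refine ⟨C, hC, h1, h2, fun n => ⟨Finset.univ, by simp, ?_⟩⟩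
  exact (C n).hazardFree_of_pos (fun g => (C n).pos_of_negations (Nat.le_zero.mp (h3 n)) g) _

end Pool.Agent.Results.MP_2af48a_lc.FewNegations
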