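import Pool.Agent.Lib_MP_2af48a_lc.HazDefs

/-!
# Circuits without hazards on a small set of variables

Every circuit can be transformed into a circuit without hazards on `P`, of size about
`2 ^ |P|` times the old size.  One variable is treated after the other: if `D` has no hazards on
`P`, then `(x_i ∧ D[x_i := 1]) ∨ (¬ x_i ∧ D[x_i := 0]) ∨ (D[x_i := 0] ∧ D[x_i := 1])` has no
hazards on `P ∪ {i}`.
-/

open Finset

namespace Pool.Agent.Results.MP_2af48a_lc.FewNegations

namespace HS

/-- The three-valued function of the consensus construction. -/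
def cons3 (o d1 d0 : Option Bool) : Option Bool :=
  or3 (or3 (and3 o d1) (and3 (not3 o) d0)) (and3 d0 d1)

lemma cons3_some (a : Bool) (b : Bool) (d1 d0 : Option Bool) (h : (cond a d1 d0) = some b) :
    cons3 (some a) d1 d0 = some b := by
  revert h
  rcases d0 with _ | _ | _ <;> rcases d1 with _ | _ | _ <;> cases a <;> cases b <;>
    simp [cons3, and3, or3, not3]

lemma cons3_some' (b : Bool) (d1 d0 : Option Bool) (h : d0 = some b) (h' : d1 = some b) :
    cons3 none d1 d0 = some b := by
  subst h; subst h'
  cases b <;> rfl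

/-! ### The value of a circuit at a stable input -/

lemma and3_stable (a b : Bool) : and3 (some a) (some b) = some (a && b) := by
  cases a <;> cases b <;> rfl

lemma or3_stable (a b : Bool) : or3 (some a) (some b) = some (a || b) := by
  cases a <;> cases b <;> rfl

lemma wire_stable {n k : ℕ} (x : Fin n → Bool) (v3 : Fin k → Option Bool) (v : Fin k → Bool)
    (hv : ∀ g, v3 g = some (v g)) (w : Wire n k) :
    w.val3 (fun i => some (x i)) v3 = some (w.val x v) := by
  cases w with
  | const b => rfl
  | var i => rfl
  | gate g => exact hv g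

lemma gate_stable {n k : ℕ} (x : Fin n → Bool) (v3 : Fin k → Option Bool) (v : Fin k → Bool)
    (hv : ∀ g, v3 g = some (v g)) (w : Gate n k) :
    w.val3 (fun i => some (x i)) v3 = some (w.val x v) := by
  cases w with
  | and a b =>
    show and3 _ _ = _
    rw [wire_stable x v3 v hv a, wire_stable x v3 v hv b, and3_stable]; rfl
  | or a b =>
    show or3 _ _ = _
    rw [wire_stable x v3 v hv a, wire_stable x v3 v hv b, or3_stable]; rfl
  | not a =>
    show not3 _ = _
    rw [wire_stable x v3 v hv a]; rfl

lemma circuit_stable {n : ℕ} (C : Circuit n) (x : Fin n → Bool) (g : ℕ) :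
    ∀ hg : g < C.size, C.gateVal3 (fun i => some (x i)) g hg = some (C.gateVal x g hg) := by
  induction g using Nat.strong_induction_on with
  | _ g ih =>
    intro hg
    rw [Circuit.gateVal3, Circuit.gateVal]
    exact gate_stable x _ _ (fun g' => ih g'.val g'.isLt _) _

lemma layered_stable {n : ℕ} (C : Layered n) (x : Fin n → Bool) (j : ℕ) :
    ∀ g, C.val3 (fun i => some (x i)) j g = some (C.val x j g) := by
  induction j with
  | zero => intro g; exact Fin.elim0 (Fin.cast C.width_zero g)
  | succ j ih => intro g; exact gate_stable x _ _ ih _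

/-! ### One variable, circuits -/

variable {n : ℕ}

/-- A wire of the copy `a`. -/
def wR (i : Fin n) (a : Bool) {k m : ℕ} (h : 2 * k ≤ m) : Wire n k → Wire n m
  | .const b => .const b
  | .var j => if j = i then .const a else .var j
  | .gate g => .gate ⟨2 * g.val + a.toNat, by have := a.toNat_le; omega⟩

/-- A gate of the copy `a`. -/
def gR (i : Fin n) (a : Bool) {k m : ℕ} (h : 2 * k ≤ m) : Gate n k → Gate n m
  | .and u v => .and (wR i a h u) (wR i a h v)
  | .or u v => .or (wR i a h u) (wR i a h v)
  | .not u => .not (wR i a h u)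

/-- Two copies of the circuit and six more gates. -/
def step (C : Circuit n) (i : Fin n) : Circuit n where
  size := 2 * C.size + 6
  gate h :=
    if h1 : h.val < 2 * C.size then
      gR i (decide (h.val % 2 = 1)) (by omega : 2 * (h.val / 2) ≤ h.val)
        (C.gate ⟨h.val / 2, (by omega : h.val / 2 < C.size)⟩)
    else if h2 : h.val = 2 * C.size then .not (.var i)
    else if h3 : h.val = 2 * C.size + 1 then
      .and (.var i) (.gate ⟨2 * C.out.val + 1, by have := C.out.isLt; omega⟩)
    else if h4 : h.val = 2 * C.size + 2 then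
      .and (.gate ⟨2 * C.size, by omega⟩) (.gate ⟨2 * C.out.val, by have := C.out.isLt; omega⟩)
    else if h5 : h.val = 2 * C.size + 3 then
      .and (.gate ⟨2 * C.out.val, by have := C.out.isLt; omega⟩)
        (.gate ⟨2 * C.out.val + 1, by have := C.out.isLt; omega⟩)
    else if h6 : h.val = 2 * C.size + 4 then
      .or (.gate ⟨2 * C.size + 1, by omega⟩) (.gate ⟨2 * C.size + 2, by omega⟩)
    else .or (.gate ⟨2 * C.size + 4, by omega⟩) (.gate ⟨2 * C.size + 3, by omega⟩)
  out := ⟨2 * C.size + 5, by omega⟩

variable (C : Circuit n) (i : Fin n) (α : Fin n → Option Bool)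

lemma wR_val (a : Bool) {k m : ℕ} (h : 2 * k ≤ m) (w : Wire n k) (u : Fin k → Option Bool)
    (v : Fin m → Option Bool)
    (hv : ∀ g : Fin k, v ⟨2 * g.val + a.toNat, by have := a.toNat_le; omega⟩ = u g) :
    (wR i a h w).val3 α v = w.val3 (Function.update α i (some a)) u := by
  cases w with
  | const b => rfl
  | var j =>
    by_cases hj : j = i
    · subst hj
      simp [wR, Wire.val3]
    · simp [wR, Wire.val3, hj]
  | gate g => exact hv g

lemma gR_val (a : Bool) {k m : ℕ} (h : 2 * k ≤ m) (w : Gate n k) (u : Fin k → Option Bool)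
    (v : Fin m → Option Bool)
    (hv : ∀ g : Fin k, v ⟨2 * g.val + a.toNat, by have := a.toNat_le; omega⟩ = u g) :
    (gR i a h w).val3 α v = w.val3 (Function.update α i (some a)) u := by
  cases w with
  | and p q =>
    show and3 _ _ = and3 _ _
    rw [wR_val i α a h p u v hv, wR_val i α a h q u v hv]
  | or p q =>
    show or3 _ _ = or3 _ _
    rw [wR_val i α a h p u v hv, wR_val i α a h q u v hv]
  | not p =>
    show not3 _ = not3 _
    rw [wR_val i α a h p u v hv]

lemma wR_depth (a : Bool) {k m : ℕ} (h : 2 * k ≤ m) (w : Wire n k) (u : Fin k → ℕ)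
    (v : Fin m → ℕ)
    (hv : ∀ g : Fin k, v ⟨2 * g.val + a.toNat, by have := a.toNat_le; omega⟩ = u g) :
    (wR i a h w).depth v = w.depth u := by
  cases w with
  | const b => rfl
  | var j =>
    by_cases hj : j = i
    · subst hj
      simp [wR, Wire.depth]
    · simp [wR, Wire.depth, hj]
  | gate g => exact hv g

lemma gR_depth (a : Bool) {k m : ℕ} (h : 2 * k ≤ m) (w : Gate n k) (u : Fin k → ℕ)
    (v : Fin m → ℕ)
    (hv : ∀ g : Fin k, v ⟨2 * g.val + a.toNat, by have := a.toNat_le; omega⟩ = u g) :
    (gR i a h w).depth v = w.depth u := by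
  cases w with
  | and p q =>
    show max _ _ + 1 = max _ _ + 1
    rw [wR_depth i a h p u v hv, wR_depth i a h q u v hv]
  | or p q =>
    show max _ _ + 1 = max _ _ + 1
    rw [wR_depth i a h p u v hv, wR_depth i a h q u v hv]
  | not p =>
    show _ + 1 = _ + 1
    rw [wR_depth i a h p u v hv]

lemma gate_lt (h : Fin (step C i).size) (h1 : h.val < 2 * C.size) :
    (step C i).gate h = gR i (decide (h.val % 2 = 1)) (by omega : 2 * (h.val / 2) ≤ h.val)
        (C.gate ⟨h.val / 2, (by omega : h.val / 2 < C.size)⟩) := by
  simp only [step, dif_pos h1]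

lemma val3_of_eq {j g : ℕ} (e : j = g) (hj : j < C.size)
    (hg : g < C.size) (hh : ∀ g' : Fin j, g'.val < C.size) :
    (C.gate ⟨j, hj⟩).val3 α (fun g' => C.gateVal3 α g'.val (hh g')) = C.gateVal3 α g hg := by
  subst e
  rw [Circuit.gateVal3]

lemma depth_of_eq {j g : ℕ} (e : j = g) (hj : j < C.size)
    (hg : g < C.size) (hh : ∀ g' : Fin j, g'.val < C.size) :
    (C.gate ⟨j, hj⟩).depth (fun g' => C.gateDepth g'.val (hh g')) = C.gateDepth g hg := by
  subst e
  rw [Circuit.gateDepth]

/-- Values of the gates of the two copies. -/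
lemma vals (h : ℕ) (hh : h < (step C i).size) (g : ℕ) (hg : g < C.size) (a : Bool)
    (e : h = 2 * g + a.toNat) :
    (step C i).gateVal3 α h hh = C.gateVal3 (Function.update α i (some a)) g hg := by
  induction h using Nat.strong_induction_on generalizing g with
  | _ h ih =>
    have ha := a.toNat_le
    have e1 : h < 2 * C.size := by omega
    have e2 : decide (h % 2 = 1) = a := by
      cases a
      · simp only [Bool.toNat_false] at e
        simp only [decide_eq_false_iff_not]; omega
      · simp only [Bool.toNat_true] at e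
        simp only [decide_eq_true_iff]; omega
    have e3 : h / 2 = g := by omega
    rw [Circuit.gateVal3, gate_lt C i ⟨h, hh⟩ e1]
    simp only [e2]
    rw [gR_val i α a _ _ (fun g' => C.gateVal3 (Function.update α i (some a)) g'.val
      (lt_of_lt_of_le g'.isLt (by omega))) _ (fun g' => ?_)]
    · exact val3_of_eq C _ e3 _ hg _
    · have hg' : g'.val < h / 2 := g'.isLt
      exact ih (2 * g'.val + a.toNat) (by omega) (by simp only [step]; omega) g'.val (by omega) rfl

/-- Depths of the gates of the two copies. -/
lemma depths (h : ℕ) (hh : h < (step C i).size) (g : ℕ) (hg : g < C.size) (a : Bool)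
    (e : h = 2 * g + a.toNat) :
    (step C i).gateDepth h hh = C.gateDepth g hg := by
  induction h using Nat.strong_induction_on generalizing g with
  | _ h ih =>
    have ha := a.toNat_le
    have e1 : h < 2 * C.size := by omega
    have e2 : decide (h % 2 = 1) = a := by
      cases a
      · simp only [Bool.toNat_false] at e
        simp only [decide_eq_false_iff_not]; omega
      · simp only [Bool.toNat_true] at e
        simp only [decide_eq_true_iff]; omega
    have e3 : h / 2 = g := by omega
    rw [Circuit.gateDepth, gate_lt C i ⟨h, hh⟩ e1]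
    simp only [e2]
    rw [gR_depth i a _ _ (fun g' => C.gateDepth g'.val
      (lt_of_lt_of_le g'.isLt (by omega))) _ (fun g' => ?_)]
    · exact depth_of_eq C e3 _ hg _
    · have hg' : g'.val < h / 2 := g'.isLt
      exact ih (2 * g'.val + a.toNat) (by omega) (by simp only [step]; omega) g'.val (by omega) rfl

lemma step_gate (t : ℕ) (ht : 2 * C.size + t < (step C i).size) (G : Gate n (2 * C.size + t))
    (hG : (step C i).gate ⟨2 * C.size + t, ht⟩ = G) :
    (step C i).gateVal3 α (2 * C.size + t) ht =
      G.val3 α (fun g' => (step C i).gateVal3 α g'.val (lt_trans g'.isLt ht)) := by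
  rw [Circuit.gateVal3, hG]

lemma step_gate_depth (t : ℕ) (ht : 2 * C.size + t < (step C i).size)
    (G : Gate n (2 * C.size + t)) (hG : (step C i).gate ⟨2 * C.size + t, ht⟩ = G) :
    (step C i).gateDepth (2 * C.size + t) ht =
      G.depth (fun g' => (step C i).gateDepth g'.val (lt_trans g'.isLt ht)) := by
  rw [Circuit.gateDepth, hG]

lemma step_eval3 : (step C i).eval3 α = cons3 (α i) (C.eval3 (Function.update α i (some true)))
    (C.eval3 (Function.update α i (some false))) := by
  have ho := C.out.isLt
  have sz : (step C i).size = 2 * C.size + 6 := rfl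
  have v1 : (step C i).gateVal3 α (2 * C.out.val + 1) (by omega) =
      C.eval3 (Function.update α i (some true)) :=
    vals C i α _ _ C.out.val C.out.isLt true rfl
  have v0 : (step C i).gateVal3 α (2 * C.out.val) (by omega) =
      C.eval3 (Function.update α i (some false)) :=
    vals C i α _ _ C.out.val C.out.isLt false rfl
  have g0 : (step C i).gateVal3 α (2 * C.size + 0) (by omega) = not3 (α i) := by
    rw [step_gate C i α 0 (by omega) (.not (.var i)) (by simp [step])]
    rfl
  have g1 : (step C i).gateVal3 α (2 * C.size + 1) (by omega) =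
      and3 (α i) (C.eval3 (Function.update α i (some true))) := by
    rw [step_gate C i α 1 (by omega) (.and (.var i) (.gate ⟨2 * C.out.val + 1, by omega⟩))
      (by simp [step]), ← v1]
    rfl
  have g2 : (step C i).gateVal3 α (2 * C.size + 2) (by omega) =
      and3 (not3 (α i)) (C.eval3 (Function.update α i (some false))) := by
    rw [step_gate C i α 2 (by omega) (.and (.gate ⟨2 * C.size, by omega⟩)
      (.gate ⟨2 * C.out.val, by omega⟩)) (by simp [step]), ← v0, ← g0]
    rfl
  have g3 : (step C i).gateVal3 α (2 * C.size + 3) (by omega) =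
      and3 (C.eval3 (Function.update α i (some false)))
        (C.eval3 (Function.update α i (some true))) := by
    rw [step_gate C i α 3 (by omega) (.and (.gate ⟨2 * C.out.val, by omega⟩)
      (.gate ⟨2 * C.out.val + 1, by omega⟩)) (by simp [step]), ← v0, ← v1]
    rfl
  have g4 : (step C i).gateVal3 α (2 * C.size + 4) (by omega) =
      or3 (and3 (α i) (C.eval3 (Function.update α i (some true))))
        (and3 (not3 (α i)) (C.eval3 (Function.update α i (some false)))) := by
    rw [step_gate C i α 4 (by omega) (.or (.gate ⟨2 * C.size + 1, by omega⟩)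
      (.gate ⟨2 * C.size + 2, by omega⟩)) (by simp [step]), ← g1, ← g2]
    rfl
  show (step C i).gateVal3 α (2 * C.size + 5) (by omega) = _
  rw [step_gate C i α 5 (by omega) (.or (.gate ⟨2 * C.size + 4, by omega⟩)
      (.gate ⟨2 * C.size + 3, by omega⟩)) (by simp [step])]
  unfold cons3
  rw [← g4, ← g3]
  rfl

lemma gateDepth_pos (g : ℕ) (hg : g < C.size) : 1 ≤ C.gateDepth g hg := by
  rw [Circuit.gateDepth]
  cases C.gate ⟨g, hg⟩ <;> simp [Gate.depth]

lemma step_depth : (step C i).depth ≤ C.depth + 3 := by
  have ho := C.out.isLt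
  have sz : (step C i).size = 2 * C.size + 6 := rfl
  have hp : 1 ≤ C.depth := gateDepth_pos C _ _
  have v1 : (step C i).gateDepth (2 * C.out.val + 1) (by omega) = C.depth :=
    depths C i _ _ C.out.val C.out.isLt true rfl
  have v0 : (step C i).gateDepth (2 * C.out.val) (by omega) = C.depth :=
    depths C i _ _ C.out.val C.out.isLt false rfl
  have g0 : (step C i).gateDepth (2 * C.size + 0) (by omega) = 1 := by
    rw [step_gate_depth C i 0 (by omega) (.not (.var i)) (by simp [step])]
    rfl
  have g1 : (step C i).gateDepth (2 * C.size + 1) (by omega) ≤ C.depth + 1 := by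
    rw [step_gate_depth C i 1 (by omega) (.and (.var i) (.gate ⟨2 * C.out.val + 1, by omega⟩))
      (by simp [step])]
    show max 0 ((step C i).gateDepth (2 * C.out.val + 1) _) + 1 ≤ _
    rw [v1]; omega
  have g2 : (step C i).gateDepth (2 * C.size + 2) (by omega) ≤ C.depth + 1 := by
    rw [step_gate_depth C i 2 (by omega) (.and (.gate ⟨2 * C.size, by omega⟩)
      (.gate ⟨2 * C.out.val, by omega⟩)) (by simp [step])]
    show max ((step C i).gateDepth (2 * C.size + 0) _)
      ((step C i).gateDepth (2 * C.out.val) _) + 1 ≤ _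
    rw [v0, g0]; omega
  have g3 : (step C i).gateDepth (2 * C.size + 3) (by omega) ≤ C.depth + 1 := by
    rw [step_gate_depth C i 3 (by omega) (.and (.gate ⟨2 * C.out.val, by omega⟩)
      (.gate ⟨2 * C.out.val + 1, by omega⟩)) (by simp [step])]
    show max ((step C i).gateDepth (2 * C.out.val) _)
      ((step C i).gateDepth (2 * C.out.val + 1) _) + 1 ≤ _
    rw [v0, v1]; omega
  have g4 : (step C i).gateDepth (2 * C.size + 4) (by omega) ≤ C.depth + 2 := by
    rw [step_gate_depth C i 4 (by omega) (.or (.gate ⟨2 * C.size + 1, by omega⟩)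
      (.gate ⟨2 * C.size + 2, by omega⟩)) (by simp [step])]
    show max ((step C i).gateDepth (2 * C.size + 1) _)
      ((step C i).gateDepth (2 * C.size + 2) _) + 1 ≤ _
    omega
  show (step C i).gateDepth (2 * C.size + 5) (by omega) ≤ _
  rw [step_gate_depth C i 5 (by omega) (.or (.gate ⟨2 * C.size + 4, by omega⟩)
      (.gate ⟨2 * C.size + 3, by omega⟩)) (by simp [step])]
  show max ((step C i).gateDepth (2 * C.size + 4) _)
      ((step C i).gateDepth (2 * C.size + 3) _) + 1 ≤ _
  omega

/-- Changing `α` at one place. -/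
lemma resolves_update {α : Fin n → Option Bool} {z : Fin n → Bool} {a : Bool}
    (hi : α i = none) (hz : Resolves (Function.update α i (some a)) z) : Resolves α z := by
  intro j
  by_cases hj : j = i
  · subst hj; exact Or.inl hi
  · have := hz j
    rwa [Function.update_of_ne hj] at this

lemma step_eval (x : Fin n → Bool) : (step C i).eval x = C.eval x := by
  have h1 : (step C i).eval3 (fun j => some (x j)) = some ((step C i).eval x) :=
    circuit_stable _ _ _ _
  have h2 : C.eval3 (fun j => some (x j)) = some (C.eval x) := circuit_stable _ _ _ _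
  rw [step_eval3] at h1
  have h3 : cons3 (some (x i)) (C.eval3 (Function.update (fun j => some (x j)) i (some true)))
    (C.eval3 (Function.update (fun j => some (x j)) i (some false))) = some (C.eval x) := by
    apply cons3_some
    cases hx : x i
    · show C.eval3 (Function.update (fun j => some (x j)) i (some false)) = _
      rw [← h2]
      congr 1
      rw [← hx]
      exact Function.update_eq_self i (fun j => some (x j))
    · show C.eval3 (Function.update (fun j => some (x j)) i (some true)) = _
      rw [← h2]
      congr 1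
      rw [← hx]
      exact Function.update_eq_self i (fun j => some (x j))
  rw [h1] at h3
  exact Option.some.inj h3

/-- The values of `cons3` for a function without hazards. -/
lemma cons3_hazard (F : (Fin n → Option Bool) → Option Bool) (f : (Fin n → Bool) → Bool)
    (P : Finset (Fin n)) (hF : ∀ α : Fin n → Option Bool, (∀ i, α i = none → i ∈ P) →
      ∀ b : Bool, (∀ z, Resolves α z → f z = b) → F α = some b)
    (hα : ∀ j, α j = none → j ∈ insert i P) (b : Bool) (hb : ∀ z, Resolves α z → f z = b) :
    cons3 (α i) (F (Function.update α i (some true))) (F (Function.update α i (some false))) =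
      some b := by
  rcases hi : α i with _ | a
  · have key : ∀ a : Bool, F (Function.update α i (some a)) = some b := by
      intro a
      refine hF _ (fun j hj => ?_) b (fun z hz => hb z (resolves_update i hi hz))
      by_cases hji : j = i
      · subst hji; simp at hj
      · rw [Function.update_of_ne hji] at hj
        exact (Finset.mem_insert.mp (hα j hj)).resolve_left hji
    exact cons3_some' b _ _ (key false) (key true)
  · apply cons3_some
    have key : F (Function.update α i (some a)) = some b := by
      rw [← hi, Function.update_eq_self]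
      refine hF α (fun j hj => ?_) b hb
      refine (Finset.mem_insert.mp (hα j hj)).resolve_left (fun hji => ?_)
      rw [hji, hi] at hj
      simp at hj
    cases a
    · exact key
    · exact key

lemma step_hazardFree (P : Finset (Fin n)) (hP : C.HazardFreeOn P) :
    (step C i).HazardFreeOn (insert i P) := by
  intro α hα b hb
  rw [step_eval3]
  exact cons3_hazard i α C.eval3 C.eval P hP hα b (fun z hz => by rw [← step_eval C i]; exact hb z hz)

end HS

/-- Every circuit can be made hazard-free on `P`. -/
theorem Circuit.exists_hazardFree {n : ℕ} (C : Circuit n) (P : Finset (Fin n)) :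
    ∃ C' : Circuit n, (∀ x, C'.eval x = C.eval x) ∧ C'.HazardFreeOn P ∧
      C'.size + 6 = 2 ^ P.card * (C.size + 6) ∧ C'.depth ≤ C.depth + 3 * P.card := by
  induction P using Finset.induction_on with
  | empty =>
    refine ⟨C, fun _ => rfl, ?_, by simp, by simp⟩
    intro α hα b hb
    have hs : ∀ i, ∃ a, α i = some a := by
      intro i
      rcases hi : α i with _ | a
      · exact absurd (hα i hi) (by simp)
      · exact ⟨a, rfl⟩
    choose x hx using hs
    have h1 : α = fun i => some (x i) := funext hx
    have h2 : C.eval3 (fun j => some (x j)) = some (C.eval x) := HS.circuit_stable _ _ _ _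
    rw [h1, h2, hb x (fun i => Or.inr (hx i))]
  | insert i P hi ih =>
    obtain ⟨D, h1, h2, h3, h4⟩ := ih
    refine ⟨HS.step D i, fun x => by rw [HS.step_eval, h1], HS.step_hazardFree D i P h2, ?_, ?_⟩
    · rw [Finset.card_insert_of_notMem hi, pow_succ]
      have : (HS.step D i).size = 2 * D.size + 6 := rfl
      rw [this]
      have e : 2 ^ P.card * 2 * (C.size + 6) = 2 * (2 ^ P.card * (C.size + 6)) := by ring
      rw [e, ← h3]; ring
    · rw [Finset.card_insert_of_notMem hi]
      have := HS.step_depth D i
      omega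

/-- If `N n = O(log n)`, then every function in NC has NC circuits without hazards on `N n`
variables. -/
theorem NCHazardFree_of_NC {N r : ℕ → ℕ} {f : (n : ℕ) → (Fin n → Bool) → Bool}
    (hN : ∀ n, N n ≤ n) {e : ℕ} (hN' : ∀ n, N n ≤ e * Nat.log 2 n + e) (h : NC r f) :
    NCHazardFree N f := by
  obtain ⟨C, hC, ⟨a, c, hs⟩, ⟨b, d, hd⟩, -⟩ := h
  have hP : ∀ n, ∃ P : Finset (Fin n), P.card = N n := fun n => by
    obtain ⟨P, -, hP⟩ := Finset.exists_subset_card_eq
      (s := (Finset.univ : Finset (Fin n))) (n := N n) (by simpa using hN n)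
    exact ⟨P, hP⟩
  choose P hP using hP
  choose C' h1 h2 h3 h4 using fun n => (C n).exists_hazardFree (P n)
  refine ⟨C', fun n x => by rw [h1, hC], ⟨2 ^ e * (2 * a + 6) + 2 * a, e + c, fun n => ?_⟩,
    ⟨2 * b + 3 * e, d + 1, fun n => ?_⟩, fun n => ⟨P n, (hP n).ge, h2 n⟩⟩
  · show (C' n).size ≤ _
    have e1 : (C n).size ≤ a * n ^ c + a := hs n
    have e2 := h3 n
    rw [hP n] at e2
    rcases Nat.eq_zero_or_pos n with hn | hn
    · subst hn
      have e3 : N 0 = 0 := Nat.le_zero.mp (hN 0)
      rw [e3, pow_zero, one_mul] at e2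
      have e4 : a * 0 ^ c ≤ a := by
        rcases Nat.eq_zero_or_pos c with hc | hc
        · subst hc; simp
        · rw [Nat.zero_pow hc]; simp
      have e5 : 0 ≤ (2 ^ e * (2 * a + 6) + 2 * a) * 0 ^ (e + c) := Nat.zero_le _
      have e6 : 0 ≤ 2 ^ e * (2 * a + 6) := Nat.zero_le _
      omega
    · have e3 : 2 ^ N n ≤ 2 ^ e * n ^ e := by
        calc 2 ^ N n ≤ 2 ^ (e * Nat.log 2 n + e) := Nat.pow_le_pow_right (by norm_num) (hN' n)
          _ = 2 ^ e * (2 ^ Nat.log 2 n) ^ e := by
              rw [pow_add, mul_comm e, pow_mul, mul_comm]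
          _ ≤ _ := Nat.mul_le_mul_left _
              (Nat.pow_le_pow_left (Nat.pow_log_le_self 2 (by omega)) _)
      have e4 : 1 ≤ n ^ c := Nat.one_le_pow _ _ hn
      have e5 : (C n).size + 6 ≤ (2 * a + 6) * n ^ c := by nlinarith
      calc (C' n).size ≤ 2 ^ N n * ((C n).size + 6) := by omega
        _ ≤ (2 ^ e * n ^ e) * ((2 * a + 6) * n ^ c) := Nat.mul_le_mul e3 e5
        _ = 2 ^ e * (2 * a + 6) * n ^ (e + c) := by rw [pow_add]; ring
        _ ≤ (2 ^ e * (2 * a + 6) + 2 * a) * n ^ (e + c) +
            (2 ^ e * (2 * a + 6) + 2 * a) :=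
              le_trans (Nat.mul_le_mul_right _ (Nat.le_add_right _ _)) (Nat.le_add_right _ _)
  · show (C' n).depth ≤ _
    have e1 : (C n).depth ≤ b * Nat.log 2 n ^ d + b := hd n
    have e2 := h4 n
    rw [hP n] at e2
    have e3 := hN' n
    rcases Nat.eq_zero_or_pos (Nat.log 2 n) with hl | hl
    · rw [hl] at e1 e3 ⊢
      have e4 : b * 0 ^ d ≤ b := by
        rcases Nat.eq_zero_or_pos d with hc | hc
        · subst hc; simp
        · rw [Nat.zero_pow hc]; simp
      have e5 : 0 ≤ (2 * b + 3 * e) * 0 ^ (d + 1) := Nat.zero_le _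
      omega
    · have e4 : Nat.log 2 n ^ d ≤ Nat.log 2 n ^ (d + 1) :=
        Nat.pow_le_pow_right hl (Nat.le_succ d)
      have e5 : Nat.log 2 n ≤ Nat.log 2 n ^ (d + 1) := Nat.le_self_pow (Nat.succ_ne_zero d) _
      nlinarith

/-- Without a bound on the number of NOT gates. -/
theorem NCHazardFree.toNC {N : ℕ → ℕ} {f : (n : ℕ) → (Fin n → Bool) → Bool}
    (h : NCHazardFree N f) : ∃ r, NC r f := by
  obtain ⟨C, hC, hs, hd, -⟩ := h
  exact ⟨fun n => (C n).negations, C, hC, hs, hd, fun n => le_rfl⟩

/-- For `N n = O(log n)` the condition on hazards is no restriction. -/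
theorem NCHazardFree_iff {N : ℕ → ℕ} {f : (n : ℕ) → (Fin n → Bool) → Bool}
    (hN : ∀ n, N n ≤ n) {e : ℕ} (hN' : ∀ n, N n ≤ e * Nat.log 2 n + e) :
    NCHazardFree N f ↔ ∃ r, NC r f :=
  ⟨fun h => h.toNC, fun ⟨_, h⟩ => NCHazardFree_of_NC hN hN' h⟩

end Pool.Agent.Results.MP_2af48a_lc.FewNegations
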