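import Pool.Agent.Lib_MP_2af48a_lc.HazSmall

/-!
# Narrow circuits without hazards on a small set of variables

The two copies of the circuit are evaluated one after the other.
-/

open Finset

namespace Pool.Agent.Results.MP_2af48a_lc.FewNegations

namespace HU

/-- Layered circuits with exactly `W` gates in every layer; all gates of layer `0` have the
value 0. -/
structure UC (n W : ℕ) where
  /-- number of layers -/
  L : ℕ
  /-- the gates -/
  gate : ℕ → Fin W → Gate n W
  /-- the output gate -/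
  out : Fin W

/-- three-valued values -/
def UC.val3 {n W : ℕ} (C : UC n W) (α : Fin n → Option Bool) : ℕ → Fin W → Option Bool
  | 0 => fun _ => some false
  | j + 1 => fun g => (C.gate j g).val3 α (C.val3 α j)

/-- value of the output -/
def UC.eval3 {n W : ℕ} (C : UC n W) (α : Fin n → Option Bool) : Option Bool :=
  C.val3 α C.L C.out

/-- Renaming of the wires of a gate. -/
def gmap {n k m : ℕ} (F : Wire n k → Wire n m) : Gate n k → Gate n m
  | .and u v => .and (F u) (F v)
  | .or u v => .or (F u) (F v)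
  | .not u => .not (F u)

lemma gmap_val3 {n k m : ℕ} (F : Wire n k → Wire n m) (α β : Fin n → Option Bool)
    (v : Fin m → Option Bool) (u : Fin k → Option Bool)
    (h : ∀ w, (F w).val3 α v = w.val3 β u) (G : Gate n k) :
    (gmap F G).val3 α v = G.val3 β u := by
  cases G with
  | and p q => show and3 _ _ = and3 _ _; rw [h, h]
  | or p q => show or3 _ _ = or3 _ _; rw [h, h]
  | not p => show not3 _ = not3 _; rw [h]

/-! ### From layered circuits to uniform circuits -/

/-- Renaming of the gates, if they exist. -/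
def wTo {n k : ℕ} (W : ℕ) : Wire n k → Wire n W
  | .const b => .const b
  | .var i => .var i
  | .gate g => if h : g.val < W then .gate ⟨g.val, h⟩ else .const false

/-- A layered circuit as a uniform circuit. -/
def toU {n : ℕ} (C : Layered n) (W : ℕ) (o : Fin W) : UC n W where
  L := C.layers
  gate j h := if hh : h.val < C.width (j + 1) then gmap (wTo W) (C.gate j ⟨h.val, hh⟩)
    else .not (.const false)
  out := o

lemma toU_val {n : ℕ} (C : Layered n) (W : ℕ) (o : Fin W)
    (hW : ∀ j, j ≤ C.layers → C.width j ≤ W) (α : Fin n → Option Bool) (j : ℕ) :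
    ∀ (_ : j ≤ C.layers) (g : Fin (C.width j)) (hg : g.val < W),
      (toU C W o).val3 α j ⟨g.val, hg⟩ = C.val3 α j g := by
  induction j with
  | zero => intro _ g; exact Fin.elim0 (Fin.cast C.width_zero g)
  | succ j ih =>
    intro hj g hg
    show ((toU C W o).gate j ⟨g.val, hg⟩).val3 α _ = (C.gate j g).val3 α (C.val3 α j)
    have e : (toU C W o).gate j ⟨g.val, hg⟩ = gmap (wTo W) (C.gate j g) := by
      simp only [toU, dif_pos g.isLt]
    rw [e]
    refine gmap_val3 _ α α _ _ (fun w => ?_) _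
    cases w with
    | const b => rfl
    | var i => rfl
    | gate g' =>
      have h' : g'.val < W := lt_of_lt_of_le g'.isLt (hW j (by omega))
      simp only [wTo, dif_pos h']
      exact ih (by omega) g' h'

/-! ### From uniform circuits to layered circuits -/

/-- Widths of the layers. -/
def wd (W : ℕ) : ℕ → ℕ
  | 0 => 0
  | _ + 1 => W

/-- Wires to layer `0`. -/
def kill {n k : ℕ} (m : ℕ) : Wire n k → Wire n m
  | .const b => .const b
  | .var i => .var i
  | .gate _ => .const false

/-- The gates. -/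
def gts {n W : ℕ} (C : UC n W) : (j : ℕ) → Fin (wd W (j + 1)) → Gate n (wd W j)
  | 0 => fun g => gmap (kill 0) (C.gate 0 g)
  | j + 1 => fun g => C.gate (j + 1) g

/-- A uniform circuit as a layered circuit. -/
def toL {n W : ℕ} (C : UC n W) (L0 : ℕ) : Layered n where
  layers := L0 + 1
  width := wd W
  width_zero := rfl
  gate := gts C
  out := C.out

lemma toL_val {n W : ℕ} (C : UC n W) (L0 : ℕ) (α : Fin n → Option Bool) (j : ℕ) :
    ∀ g : Fin W, (toL C L0).val3 α (j + 1) g = C.val3 α (j + 1) g := by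
  induction j with
  | zero =>
    intro g
    show (gmap (kill 0) (C.gate 0 g)).val3 α _ = (C.gate 0 g).val3 α _
    refine gmap_val3 _ α α _ _ (fun w => ?_) _
    cases w with
    | const b => rfl
    | var i => rfl
    | gate g' => rfl
  | succ j ih =>
    intro g
    exact congrArg (fun v => (C.gate (j + 1) g).val3 α v) (funext ih)

lemma toL_eval3 {n W : ℕ} (C : UC n W) (L0 : ℕ) (hL : C.L = L0 + 1) (α : Fin n → Option Bool) :
    (toL C L0).eval3 α = C.eval3 α := by
  show (toL C L0).val3 α (L0 + 1) C.out = C.val3 α C.L C.out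
  rw [hL]
  exact toL_val C L0 α L0 C.out

lemma toL_maxWidth {n W : ℕ} (C : UC n W) (L0 : ℕ) : (toL C L0).maxWidth ≤ W := by
  unfold Layered.maxWidth
  exact Finset.sup_le (fun j _ => le_rfl)

lemma toL_size {n W : ℕ} (C : UC n W) (L0 : ℕ) : (toL C L0).size = (L0 + 1) * W := by
  unfold Layered.size
  show ∑ j ∈ range (L0 + 1), W = _
  simp

/-! ### One variable -/

variable {n W : ℕ}

/-- The wires of copy `a`. -/
def wC (i : Fin n) (a : Bool) : Wire n W → Wire n (W + 4)
  | .const b => .const b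
  | .var j => if j = i then .const a else .var j
  | .gate g => .gate ⟨g.val, by omega⟩

/-- The wires of copy `a` to layer `0`. -/
def wC0 (i : Fin n) (a : Bool) : Wire n W → Wire n (W + 4)
  | .const b => .const b
  | .var j => if j = i then .const a else .var j
  | .gate _ => .const false

/-- Two copies one after the other. -/
def stepU (C : UC n W) (i : Fin n) : UC n (W + 4) where
  L := 2 * C.L + 3
  gate j h :=
    if hW : h.val < W then
      if j < C.L then gmap (wC i false) (C.gate j ⟨h.val, hW⟩)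
      else if j = C.L then gmap (wC0 i true) (C.gate 0 ⟨h.val, hW⟩)
      else gmap (wC i true) (C.gate (j - C.L) ⟨h.val, hW⟩)
    else if h.val = W then
      if j = C.L then .and (.gate ⟨C.out.val, by omega⟩) (.const true)
      else if j ≤ 2 * C.L then .and (.gate ⟨W, by omega⟩) (.const true)
      else if j = 2 * C.L + 1 then .and (.gate ⟨W + 3, by omega⟩) (.gate ⟨W, by omega⟩)
      else .or (.gate ⟨W + 1, by omega⟩) (.gate ⟨W, by omega⟩)
    else if h.val = W + 1 then
      if j = 2 * C.L then .and (.var i) (.gate ⟨C.out.val, by omega⟩)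
      else .or (.gate ⟨W + 1, by omega⟩) (.gate ⟨W + 2, by omega⟩)
    else if h.val = W + 2 then .and (.gate ⟨W, by omega⟩) (.gate ⟨C.out.val, by omega⟩)
    else .not (.var i)
  out := ⟨W, by omega⟩

variable (C : UC n W) (i : Fin n) (α : Fin n → Option Bool)

/-- The input `α` with a stable bit `i`. -/
abbrev up (a : Bool) : Fin n → Option Bool := Function.update α i (some a)

lemma wC_val (a : Bool) (w : Wire n W) (v : Fin (W + 4) → Option Bool) (u : Fin W → Option Bool)
    (h : ∀ g : Fin W, v ⟨g.val, by omega⟩ = u g) :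
    (wC i a w).val3 α v = w.val3 (up i α a) u := by
  cases w with
  | const b => rfl
  | var j =>
    by_cases hj : j = i
    · subst hj; simp [wC, Wire.val3]
    · simp [wC, Wire.val3, hj]
  | gate g => exact h g

lemma wC0_val (a : Bool) (w : Wire n W) (v : Fin (W + 4) → Option Bool) :
    (wC0 i a w).val3 α v = w.val3 (up i α a) (fun _ => some false) := by
  cases w with
  | const b => rfl
  | var j =>
    by_cases hj : j = i
    · subst hj; simp [wC0, Wire.val3]
    · simp [wC0, Wire.val3, hj]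
  | gate g => rfl

/-- The first copy. -/
lemma phase1 (j : ℕ) (hj : j ≤ C.L) (g : Fin W) :
    (stepU C i).val3 α j ⟨g.val, by omega⟩ = C.val3 (up i α false) j g := by
  induction j generalizing g with
  | zero => rfl
  | succ j ih =>
    show ((stepU C i).gate j ⟨g.val, _⟩).val3 α _ = (C.gate j g).val3 _ _
    have e : (stepU C i).gate j ⟨g.val, by omega⟩ = gmap (wC i false) (C.gate j g) := by
      simp only [stepU, dif_pos g.isLt, if_pos (show j < C.L by omega)]
    rw [e]
    exact gmap_val3 _ α _ _ _ (fun w => wC_val i α false w _ _ (fun g' => ih (by omega) g')) _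

/-- The second copy. -/
lemma phase2 (j : ℕ) (hj : j + 1 ≤ C.L) (g : Fin W) :
    (stepU C i).val3 α (C.L + (j + 1)) ⟨g.val, by omega⟩ = C.val3 (up i α true) (j + 1) g := by
  induction j generalizing g with
  | zero =>
    show ((stepU C i).gate C.L ⟨g.val, _⟩).val3 α _ = (C.gate 0 g).val3 _ _
    have e : (stepU C i).gate C.L ⟨g.val, by omega⟩ = gmap (wC0 i true) (C.gate 0 g) := by
      simp only [stepU, dif_pos g.isLt, lt_irrefl, if_false, if_true]
    rw [e]
    exact gmap_val3 _ α _ _ _ (fun w => wC0_val i α true w _) _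
  | succ j ih =>
    show ((stepU C i).gate (C.L + (j + 1)) ⟨g.val, _⟩).val3 α _ = (C.gate (j + 1) g).val3 _ _
    have e : (stepU C i).gate (C.L + (j + 1)) ⟨g.val, by omega⟩ =
        gmap (wC i true) (C.gate (j + 1) g) := by
      have e1 : ¬ (C.L + (j + 1) < C.L) := by omega
      have e2 : ¬ (C.L + (j + 1) = C.L) := by omega
      have e3 : C.L + (j + 1) - C.L = j + 1 := by omega
      simp only [stepU, dif_pos g.isLt, if_neg e1, if_neg e2, e3]
    rw [e]
    exact gmap_val3 _ α _ _ _ (fun w => wC_val i α true w _ _ (fun g' => ih (by omega) g')) _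

/-- The carry. -/
lemma carry (j : ℕ) (hj : j ≤ C.L) :
    (stepU C i).val3 α (C.L + (j + 1)) ⟨W, by omega⟩ = C.eval3 (up i α false) := by
  have key : ∀ o : Option Bool, and3 o (some true) = o := by
    intro o; rcases o with _ | _ | _ <;> rfl
  induction j with
  | zero =>
    show ((stepU C i).gate C.L ⟨W, _⟩).val3 α _ = _
    have e : (stepU C i).gate C.L ⟨W, by omega⟩ =
        .and (.gate ⟨C.out.val, by omega⟩) (.const true) := by
      simp only [stepU, lt_irrefl, dite_false, if_true]
    rw [e]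
    show and3 ((stepU C i).val3 α C.L ⟨C.out.val, _⟩) (some true) = _
    rw [phase1 C i α C.L le_rfl C.out, key]
    rfl
  | succ j ih =>
    show ((stepU C i).gate (C.L + (j + 1)) ⟨W, _⟩).val3 α _ = _
    have e : (stepU C i).gate (C.L + (j + 1)) ⟨W, by omega⟩ =
        .and (.gate ⟨W, by omega⟩) (.const true) := by
      have e2 : ¬ (C.L + (j + 1) = C.L) := by omega
      have e3 : C.L + (j + 1) ≤ 2 * C.L := by omega
      simp only [stepU, lt_irrefl, dite_false, if_true, if_neg e2, if_pos e3]
    rw [e]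
    show and3 ((stepU C i).val3 α (C.L + (j + 1)) ⟨W, _⟩) (some true) = _
    rw [ih (by omega), key]

lemma stepU_eval3 (hL : 1 ≤ C.L) : (stepU C i).eval3 α =
    HS.cons3 (α i) (C.eval3 (up i α true)) (C.eval3 (up i α false)) := by
  have ho := C.out.isLt
  obtain ⟨l, hl⟩ : ∃ l, C.L = l + 1 := ⟨C.L - 1, by omega⟩
  -- layer 2 L
  have a0 : (stepU C i).val3 α (2 * C.L) ⟨C.out.val, by omega⟩ = C.eval3 (up i α true) := by
    have := phase2 C i α l (by omega) C.out
    rw [← hl] at this
    rw [two_mul]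
    exact this
  have a1 : (stepU C i).val3 α (2 * C.L) ⟨W, by omega⟩ = C.eval3 (up i α false) := by
    have := carry C i α l (by omega)
    rw [← hl] at this
    rw [two_mul]
    exact this
  -- layer 2 L + 1
  have b0 : (stepU C i).val3 α (2 * C.L + 1) ⟨W, by omega⟩ = C.eval3 (up i α false) := by
    have := carry C i α C.L le_rfl
    rw [two_mul, add_assoc]
    exact this
  have n1 : ¬ (2 * C.L = C.L) := by omega
  have b1 : (stepU C i).val3 α (2 * C.L + 1) ⟨W + 1, by omega⟩ =
      and3 (α i) (C.eval3 (up i α true)) := by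
    show ((stepU C i).gate (2 * C.L) ⟨W + 1, _⟩).val3 α _ = _
    have e : (stepU C i).gate (2 * C.L) ⟨W + 1, by omega⟩ =
        .and (.var i) (.gate ⟨C.out.val, by omega⟩) := by
      have e1 : ¬ (W + 1 < W) := by omega
      have e2 : ¬ (W + 1 = W) := by omega
      simp only [stepU, dif_neg e1, if_neg e2, if_true]
    rw [e, ← a0]
    rfl
  have b2 : (stepU C i).val3 α (2 * C.L + 1) ⟨W + 2, by omega⟩ =
      and3 (C.eval3 (up i α false)) (C.eval3 (up i α true)) := by
    show ((stepU C i).gate (2 * C.L) ⟨W + 2, _⟩).val3 α _ = _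
    have e : (stepU C i).gate (2 * C.L) ⟨W + 2, by omega⟩ =
        .and (.gate ⟨W, by omega⟩) (.gate ⟨C.out.val, by omega⟩) := by
      have e1 : ¬ (W + 2 < W) := by omega
      have e2 : ¬ (W + 2 = W) := by omega
      have e3 : ¬ (W + 2 = W + 1) := by omega
      simp only [stepU, dif_neg e1, if_neg e2, if_neg e3, if_true]
    rw [e, ← a0, ← a1]
    rfl
  have b3 : (stepU C i).val3 α (2 * C.L + 1) ⟨W + 3, by omega⟩ = not3 (α i) := by
    show ((stepU C i).gate (2 * C.L) ⟨W + 3, _⟩).val3 α _ = _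
    have e : (stepU C i).gate (2 * C.L) ⟨W + 3, by omega⟩ = .not (.var i) := by
      have e1 : ¬ (W + 3 < W) := by omega
      have e2 : ¬ (W + 3 = W) := by omega
      have e3 : ¬ (W + 3 = W + 1) := by omega
      have e4 : ¬ (W + 3 = W + 2) := by omega
      simp only [stepU, dif_neg e1, if_neg e2, if_neg e3, if_neg e4]
    rw [e]
    rfl
  -- layer 2 L + 2
  have c0 : (stepU C i).val3 α (2 * C.L + 2) ⟨W, by omega⟩ =
      and3 (not3 (α i)) (C.eval3 (up i α false)) := by
    show ((stepU C i).gate (2 * C.L + 1) ⟨W, _⟩).val3 α _ = _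
    have e : (stepU C i).gate (2 * C.L + 1) ⟨W, by omega⟩ =
        .and (.gate ⟨W + 3, by omega⟩) (.gate ⟨W, by omega⟩) := by
      have e2 : ¬ (2 * C.L + 1 = C.L) := by omega
      have e3 : ¬ (2 * C.L + 1 ≤ 2 * C.L) := by omega
      simp only [stepU, lt_irrefl, dite_false, if_true, if_neg e2, if_neg e3]
    rw [e, ← b3, ← b0]
    rfl
  have c1 : (stepU C i).val3 α (2 * C.L + 2) ⟨W + 1, by omega⟩ =
      or3 (and3 (α i) (C.eval3 (up i α true)))
        (and3 (C.eval3 (up i α false)) (C.eval3 (up i α true))) := by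
    show ((stepU C i).gate (2 * C.L + 1) ⟨W + 1, _⟩).val3 α _ = _
    have e : (stepU C i).gate (2 * C.L + 1) ⟨W + 1, by omega⟩ =
        .or (.gate ⟨W + 1, by omega⟩) (.gate ⟨W + 2, by omega⟩) := by
      have e1 : ¬ (W + 1 < W) := by omega
      have e2 : ¬ (W + 1 = W) := by omega
      have e3 : ¬ (2 * C.L + 1 = 2 * C.L) := by omega
      simp only [stepU, dif_neg e1, if_neg e2, if_true, if_neg e3]
    rw [e, ← b1, ← b2]
    rfl
  -- layer 2 L + 3
  show ((stepU C i).gate (2 * C.L + 2) ⟨W, _⟩).val3 α _ = _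
  have e : (stepU C i).gate (2 * C.L + 2) ⟨W, by omega⟩ =
      .or (.gate ⟨W + 1, by omega⟩) (.gate ⟨W, by omega⟩) := by
    have e2 : ¬ (2 * C.L + 2 = C.L) := by omega
    have e3 : ¬ (2 * C.L + 2 ≤ 2 * C.L) := by omega
    have e4 : ¬ (2 * C.L + 2 = 2 * C.L + 1) := by omega
    simp only [stepU, lt_irrefl, dite_false, if_true, if_neg e2, if_neg e3, if_neg e4]
  rw [e]
  show or3 ((stepU C i).val3 α (2 * C.L + 2) ⟨W + 1, _⟩)
    ((stepU C i).val3 α (2 * C.L + 2) ⟨W, _⟩) = _
  rw [c0, c1]
  unfold HS.cons3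
  rcases α i with _ | _ | _ <;> rcases C.eval3 (up i α true) with _ | _ | _ <;>
    rcases C.eval3 (up i α false) with _ | _ | _ <;> rfl

/-! ### All variables of `P` -/

/-- Uniform circuits for `f` without hazards on `P`. -/
lemma exists_UC (f : (Fin n → Bool) → Bool) (C : UC n W) (hL : 1 ≤ C.L)
    (hC : ∀ x, C.eval3 (fun i => some (x i)) = some (f x)) (P : Finset (Fin n)) :
    ∃ (W' : ℕ) (D : UC n W'), W' = W + 4 * P.card ∧ 1 ≤ D.L ∧
      D.L + 3 = 2 ^ P.card * (C.L + 3) ∧
      (∀ x, D.eval3 (fun i => some (x i)) = some (f x)) ∧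
      ∀ α : Fin n → Option Bool, (∀ i, α i = none → i ∈ P) →
        ∀ b : Bool, (∀ z, Resolves α z → f z = b) → D.eval3 α = some b := by
  induction P using Finset.induction_on with
  | empty =>
    refine ⟨W, C, by simp, hL, by simp, hC, ?_⟩
    intro α hα b hb
    have hs : ∀ i, ∃ a, α i = some a := by
      intro i
      rcases hi : α i with _ | a
      · exact absurd (hα i hi) (by simp)
      · exact ⟨a, rfl⟩
    choose x hx using hs
    have h1 : α = fun i => some (x i) := funext hx
    rw [h1, hC, hb x (fun i => Or.inr (hx i))]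
  | insert i P hi ih =>
    obtain ⟨W', D, h1, h2, h3, h4, h5⟩ := ih
    have key : ∀ α : Fin n → Option Bool, (∀ j, α j = none → j ∈ insert i P) →
        ∀ b : Bool, (∀ z, Resolves α z → f z = b) → (stepU D i).eval3 α = some b := by
      intro α hα b hb
      rw [stepU_eval3 D i α h2]
      exact HS.cons3_hazard i α D.eval3 f P h5 hα b hb
    refine ⟨W' + 4, stepU D i, ?_, ?_, ?_, ?_, key⟩
    · rw [Finset.card_insert_of_notMem hi, h1]; ring
    · show 1 ≤ 2 * D.L + 3
      omega
    · show 2 * D.L + 3 + 3 = _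
      rw [Finset.card_insert_of_notMem hi, pow_succ]
      have e : 2 ^ P.card * 2 * (C.L + 3) = 2 * (2 ^ P.card * (C.L + 3)) := by ring
      rw [e, ← h3]; ring
    · intro x
      refine key _ (fun j hj => by simp at hj) _ (fun z hz => ?_)
      have : z = x := by
        funext j
        rcases hz j with h | h
        · simp at h
        · exact (Option.some.inj h).symm
      rw [this]

/-! ### Removing empty layers -/

/-- Remove the first `j₀` layers. -/
def drop (C : Layered n) (j₀ : ℕ) (h0 : C.width j₀ = 0) (hj : j₀ ≤ C.layers) : Layered n where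
  layers := C.layers - j₀
  width j := C.width (j₀ + j)
  width_zero := h0
  gate j := C.gate (j₀ + j)
  out := Fin.cast (by rw [Nat.add_sub_cancel' hj]) C.out

lemma drop_val (C : Layered n) (j₀ : ℕ) (h0 : C.width j₀ = 0) (hj : j₀ ≤ C.layers)
    (x : Fin n → Bool) (j : ℕ) : (drop C j₀ h0 hj).val x j = C.val x (j₀ + j) := by
  induction j with
  | zero => funext g; exact Fin.elim0 (Fin.cast h0 g)
  | succ j ih =>
    funext g
    exact congrArg (fun v => (C.gate (j₀ + j) g).val x v) ih

lemma val_cast (C : Layered n) (x : Fin n → Bool) {a b : ℕ} (h : a = b) (g : Fin (C.width b)) :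
    C.val x a (Fin.cast (by rw [h]) g) = C.val x b g := by
  subst h; rfl

lemma drop_eval (C : Layered n) (j₀ : ℕ) (h0 : C.width j₀ = 0) (hj : j₀ ≤ C.layers)
    (x : Fin n → Bool) : (drop C j₀ h0 hj).eval x = C.eval x := by
  show (drop C j₀ h0 hj).val x (C.layers - j₀) _ = _
  rw [drop_val]
  exact val_cast C x (Nat.add_sub_cancel' hj) C.out

/-- Every function computed by a layered circuit is computed by a layered circuit with at
most as many layers as gates. -/
lemma exists_trim (C : Layered n) : ∃ D : Layered n, (∀ x, D.eval x = C.eval x) ∧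
    D.layers ≤ C.size ∧ 1 ≤ D.layers ∧ ∀ j, j ≤ D.layers → D.width j ≤ C.maxWidth := by
  have hp : C.width (Nat.findGreatest (fun j => C.width j = 0) C.layers) = 0 :=
    Nat.findGreatest_spec (P := fun j => C.width j = 0) (Nat.zero_le _) C.width_zero
  have hle : Nat.findGreatest (fun j => C.width j = 0) C.layers ≤ C.layers :=
    Nat.findGreatest_le _
  have hgr : ∀ j, Nat.findGreatest (fun j => C.width j = 0) C.layers < j → j ≤ C.layers →
      C.width j ≠ 0 := fun j h1 h2 =>
    Nat.findGreatest_is_greatest (P := fun j => C.width j = 0) h1 h2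
  obtain ⟨j₀, hj₀⟩ : ∃ j₀, j₀ = Nat.findGreatest (fun j => C.width j = 0) C.layers := ⟨_, rfl⟩
  rw [← hj₀] at hp hle hgr
  have hout : C.width C.layers ≠ 0 := fun h => Fin.elim0 (Fin.cast h C.out)
  refine ⟨drop C j₀ hp hle, drop_eval C j₀ hp hle, ?_, ?_, ?_⟩
  · show C.layers - j₀ ≤ _
    have e : C.size = ∑ j ∈ range j₀, C.width (j + 1) +
        ∑ j ∈ range (C.layers - j₀), C.width (j₀ + j + 1) := by
      unfold Layered.size
      rw [← Finset.sum_range_add (fun j => C.width (j + 1)) j₀ (C.layers - j₀),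
        Nat.add_sub_cancel' hle]
    have e2 : C.layers - j₀ ≤ ∑ j ∈ range (C.layers - j₀), C.width (j₀ + j + 1) := by
      calc C.layers - j₀ = ∑ j ∈ range (C.layers - j₀), 1 := by simp
        _ ≤ _ := Finset.sum_le_sum (fun j hj => by
          have := hgr (j₀ + j + 1) (by omega) (by have := Finset.mem_range.mp hj; omega)
          omega)
    omega
  · show 1 ≤ C.layers - j₀
    rcases Nat.lt_or_ge j₀ C.layers with h | h
    · omega
    · have : j₀ = C.layers := le_antisymm hle h
      rw [this] at hp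
      exact absurd hp hout
  · intro j hj
    show C.width (j₀ + j) ≤ _
    have hj' : j ≤ C.layers - j₀ := hj
    rcases Nat.eq_zero_or_pos (j₀ + j) with h | h
    · rw [h, C.width_zero]; exact Nat.zero_le _
    · obtain ⟨k, hk⟩ : ∃ k, j₀ + j = k + 1 := ⟨j₀ + j - 1, by omega⟩
      rw [hk]
      exact Finset.le_sup (f := fun j => C.width (j + 1)) (Finset.mem_range.mpr (by omega))

end HU

/-- Every narrow circuit can be made hazard-free on `P`. -/
theorem Layered.exists_hazardFree {n : ℕ} (C : Layered n) (P : Finset (Fin n)) :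
    ∃ C' : Layered n, (∀ x, C'.eval x = C.eval x) ∧ C'.HazardFreeOn P ∧
      C'.maxWidth ≤ C.maxWidth + 4 * P.card ∧
      C'.size ≤ 2 ^ P.card * (C.size + 3) * (C.maxWidth + 4 * P.card) := by
  obtain ⟨D, d1, d2, d3, d4⟩ := HU.exists_trim C
  have ho : D.out.val < C.maxWidth := lt_of_lt_of_le D.out.isLt (d4 _ le_rfl)
  have hU : ∀ x, (HU.toU D C.maxWidth ⟨D.out.val, ho⟩).eval3 (fun i => some (x i)) =
      some (C.eval x) := by
    intro x
    show (HU.toU D C.maxWidth _).val3 _ D.layers ⟨D.out.val, ho⟩ = _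
    rw [HU.toU_val D C.maxWidth _ d4 _ D.layers le_rfl D.out ho, HS.layered_stable D x, ← d1]
    rfl
  obtain ⟨W', E, e1, e2, e3, e4, e5⟩ := HU.exists_UC C.eval
    (HU.toU D C.maxWidth ⟨D.out.val, ho⟩) d3 hU P
  obtain ⟨l, hl⟩ : ∃ l, E.L = l + 1 := ⟨E.L - 1, by omega⟩
  have ev : ∀ x, (HU.toL E l).eval x = C.eval x := by
    intro x
    have h1 : (HU.toL E l).eval3 (fun i => some (x i)) = some ((HU.toL E l).eval x) :=
      HS.layered_stable _ x _ _
    rw [HU.toL_eval3 E l hl, e4] at h1
    exact (Option.some.inj h1).symm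
  refine ⟨HU.toL E l, ev, ?_, ?_, ?_⟩
  · intro α hα b hb
    rw [HU.toL_eval3 E l hl]
    exact e5 α hα b (fun z hz => by rw [← ev]; exact hb z hz)
  · rw [← e1]; exact HU.toL_maxWidth E l
  · rw [HU.toL_size, ← e1, ← hl]
    apply Nat.mul_le_mul_right
    have : (HU.toU D C.maxWidth ⟨D.out.val, ho⟩).L = D.layers := rfl
    rw [this] at e3
    calc E.L ≤ 2 ^ P.card * (D.layers + 3) := by omega
      _ ≤ _ := Nat.mul_le_mul_left _ (by omega)

/-- If `N n = O(log n)`, then every function in SC has SC circuits without hazards on `N n`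
variables. -/
theorem SCHazardFree_of_SC {N r : ℕ → ℕ} {f : (n : ℕ) → (Fin n → Bool) → Bool}
    (hN : ∀ n, N n ≤ n) {e : ℕ} (hN' : ∀ n, N n ≤ e * Nat.log 2 n + e) (h : SC r f) :
    SCHazardFree N f := by
  obtain ⟨C, hC, ⟨a, c, hs⟩, ⟨b, d, hd⟩, -⟩ := h
  have hP : ∀ n, ∃ P : Finset (Fin n), P.card = N n := fun n => by
    obtain ⟨P, -, hP⟩ := Finset.exists_subset_card_eq
      (s := (Finset.univ : Finset (Fin n))) (n := N n) (by simpa using hN n)
    exact ⟨P, hP⟩
  choose P hP using hP
  choose C' h1 h2 h3 h4 using fun n => (C n).exists_hazardFree (P n)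
  -- the width
  have w1 : ∀ n, (C n).maxWidth + 4 * N n ≤ (2 * b + 4 * e) * Nat.log 2 n ^ (d + 1) +
      (2 * b + 4 * e) := by
    intro n
    have e1 : (C n).maxWidth ≤ b * Nat.log 2 n ^ d + b := hd n
    have e3 := hN' n
    rcases Nat.eq_zero_or_pos (Nat.log 2 n) with hl | hl
    · rw [hl] at e1 e3 ⊢
      have e4 : b * 0 ^ d ≤ b := by
        rcases Nat.eq_zero_or_pos d with hc | hc
        · subst hc; simp
        · rw [Nat.zero_pow hc]; simp
      have e5 : 0 ≤ (2 * b + 4 * e) * 0 ^ (d + 1) := Nat.zero_le _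
      omega
    · have e4 : Nat.log 2 n ^ d ≤ Nat.log 2 n ^ (d + 1) :=
        Nat.pow_le_pow_right hl (Nat.le_succ d)
      have e5 : Nat.log 2 n ≤ Nat.log 2 n ^ (d + 1) := Nat.le_self_pow (Nat.succ_ne_zero d) _
      nlinarith
  -- the width is at most polynomial
  have w2 : ∀ n, 0 < n → (C n).maxWidth + 4 * N n ≤ 2 * (2 * b + 4 * e) * n ^ (d + 1) := by
    intro n hn
    refine le_trans (w1 n) ?_
    have e1 : Nat.log 2 n ^ (d + 1) ≤ n ^ (d + 1) :=
      Nat.pow_le_pow_left (Nat.log_le_self 2 n) _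
    have e2 : 1 ≤ n ^ (d + 1) := Nat.one_le_pow _ _ hn
    nlinarith
  refine ⟨C', fun n x => by rw [h1, hC],
    ⟨2 ^ e * (2 * a + 3) * (2 * (2 * b + 4 * e)) + (C' 0).size, e + c + (d + 1), fun n => ?_⟩,
    ⟨2 * b + 4 * e, d + 1, fun n => ?_⟩, fun n => ⟨P n, (hP n).ge, h2 n⟩⟩
  · show (C' n).size ≤ _
    rcases Nat.eq_zero_or_pos n with hn | hn
    · subst hn
      exact le_trans (Nat.le_add_left _ _) (Nat.le_add_left _ _)
    · have e1 : (C n).size ≤ a * n ^ c + a := hs n
      have e2 := h4 n
      rw [hP n] at e2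
      have e3 : 2 ^ N n ≤ 2 ^ e * n ^ e := by
        calc 2 ^ N n ≤ 2 ^ (e * Nat.log 2 n + e) := Nat.pow_le_pow_right (by norm_num) (hN' n)
          _ = 2 ^ e * (2 ^ Nat.log 2 n) ^ e := by
              rw [pow_add, mul_comm e, pow_mul, mul_comm]
          _ ≤ _ := Nat.mul_le_mul_left _
              (Nat.pow_le_pow_left (Nat.pow_log_le_self 2 (by omega)) _)
      have e4 : 1 ≤ n ^ c := Nat.one_le_pow _ _ hn
      have e5 : (C n).size + 3 ≤ (2 * a + 3) * n ^ c := by nlinarith
      calc (C' n).size ≤ 2 ^ N n * ((C n).size + 3) * ((C n).maxWidth + 4 * N n) := e2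
        _ ≤ (2 ^ e * n ^ e) * ((2 * a + 3) * n ^ c) *
            (2 * (2 * b + 4 * e) * n ^ (d + 1)) :=
              Nat.mul_le_mul (Nat.mul_le_mul e3 e5) (w2 n hn)
        _ = 2 ^ e * (2 * a + 3) * (2 * (2 * b + 4 * e)) * n ^ (e + c + (d + 1)) := by
            rw [pow_add n (e + c), pow_add n e]; ring
        _ ≤ (2 ^ e * (2 * a + 3) * (2 * (2 * b + 4 * e)) + (C' 0).size) *
              n ^ (e + c + (d + 1)) +
            (2 ^ e * (2 * a + 3) * (2 * (2 * b + 4 * e)) + (C' 0).size) :=
              le_trans (Nat.mul_le_mul_right _ (Nat.le_add_right _ _)) (Nat.le_add_right _ _)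
  · show (C' n).maxWidth ≤ _
    have e2 := h3 n
    rw [hP n] at e2
    exact le_trans e2 (w1 n)

/-- Without a bound on the number of NOT gates. -/
theorem SCHazardFree.toSC {N : ℕ → ℕ} {f : (n : ℕ) → (Fin n → Bool) → Bool}
    (h : SCHazardFree N f) : ∃ r, SC r f := by
  obtain ⟨C, hC, hs, hd, -⟩ := h
  exact ⟨fun n => (C n).negations, C, hC, hs, hd, fun n => le_rfl⟩

/-- For `N n = O(log n)` the condition on hazards is no restriction. -/
theorem SCHazardFree_iff {N : ℕ → ℕ} {f : (n : ℕ) → (Fin n → Bool) → Bool}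
    (hN : ∀ n, N n ≤ n) {e : ℕ} (hN' : ∀ n, N n ≤ e * Nat.log 2 n + e) :
    SCHazardFree N f ↔ ∃ r, SC r f :=
  ⟨fun h => h.toSC, fun ⟨_, h⟩ => SCHazardFree_of_SC hN hN' h⟩

end Pool.Agent.Results.MP_2af48a_lc.FewNegations
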