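import Pool.Agent.Lib_MP_2af48a_lc.HazTrans

open Finset

namespace Pool.Agent.Results.MP_2af48a_lc.FewNegations

/-! ### Stable values are correct -/

lemma and3_sound (a b : Option Bool) (u v c : Bool) (ha : ∀ e, a = some e → u = e)
    (hb : ∀ e, b = some e → v = e) (h : and3 a b = some c) : (u && v) = c := by
  rcases a with _ | _ | _ <;> rcases b with _ | _ | _ <;> simp_all [and3]

lemma or3_sound (a b : Option Bool) (u v c : Bool) (ha : ∀ e, a = some e → u = e)
    (hb : ∀ e, b = some e → v = e) (h : or3 a b = some c) : (u || v) = c := by
  rcases a with _ | _ | _ <;> rcases b with _ | _ | _ <;> simp_all [or3]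

lemma not3_sound (a : Option Bool) (u c : Bool) (ha : ∀ e, a = some e → u = e)
    (h : not3 a = some c) : (!u) = c := by
  rcases a with _ | _ | _ <;> simp_all [not3]

section

variable {n : ℕ} (α : Fin n → Option Bool) (z : Fin n → Bool)

lemma Wire.val3_sound {k : ℕ} (hz : Resolves α z) (v3 : Fin k → Option Bool) (v : Fin k → Bool)
    (hv : ∀ g b, v3 g = some b → v g = b) (w : Wire n k) (b : Bool)
    (h : w.val3 α v3 = some b) : w.val z v = b := by
  cases w with
  | const c => exact Option.some.inj h
  | var i =>
    have h' : α i = some b := h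
    rcases hz i with h1 | h1
    · rw [h1] at h'
      exact absurd h' (by simp)
    · rw [h1] at h'
      exact Option.some.inj h'
  | gate g => exact hv g b h

lemma Gate.val3_sound {k : ℕ} (hz : Resolves α z) (v3 : Fin k → Option Bool) (v : Fin k → Bool)
    (hv : ∀ g b, v3 g = some b → v g = b) (G : Gate n k) (b : Bool)
    (h : G.val3 α v3 = some b) : G.val z v = b := by
  cases G with
  | and c d =>
    exact and3_sound _ _ _ _ _ (fun e he => Wire.val3_sound α z hz v3 v hv c e he)
      (fun e he => Wire.val3_sound α z hz v3 v hv d e he) h
  | or c d =>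
    exact or3_sound _ _ _ _ _ (fun e he => Wire.val3_sound α z hz v3 v hv c e he)
      (fun e he => Wire.val3_sound α z hz v3 v hv d e he) h
  | not c =>
    exact not3_sound _ _ _ (fun e he => Wire.val3_sound α z hz v3 v hv c e he) h

lemma Circuit.gateVal3_sound (hz : Resolves α z) (C : Circuit n) (g : ℕ) (hg : g < C.size)
    (b : Bool) (h : C.gateVal3 α g hg = some b) : C.gateVal z g hg = b := by
  induction g using Nat.strong_induction_on generalizing b with
  | _ g ih =>
    rw [Circuit.gateVal3] at h
    rw [Circuit.gateVal]
    exact Gate.val3_sound α z hz _ _ (fun g' b' h' => ih g'.val g'.isLt _ b' h') _ b h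

lemma Circuit.eval3_sound (hz : Resolves α z) (C : Circuit n) (b : Bool)
    (h : C.eval3 α = some b) : C.eval z = b :=
  Circuit.gateVal3_sound α z hz C _ _ b h

lemma Layered.val3_sound (hz : Resolves α z) (C : Layered n) (j : ℕ) (g : Fin (C.width j))
    (b : Bool) (h : C.val3 α j g = some b) : C.val z j g = b := by
  induction j generalizing b with
  | zero => exact Fin.elim0 (Fin.cast C.width_zero g)
  | succ j ih => exact Gate.val3_sound α z hz _ _ (fun g' b' h' => ih g' b' h') _ b h

lemma Layered.eval3_sound (hz : Resolves α z) (C : Layered n) (b : Bool)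
    (h : C.eval3 α = some b) : C.eval z = b :=
  Layered.val3_sound α z hz C _ _ b h

end

/-- A circuit for a monotone function without hazards on `P`. -/
lemma Circuit.unst_eval {n : ℕ} (C : Circuit n) (P : Finset (Fin n)) (h : C.HazardFreeOn P)
    (hmono : ∀ x z : Fin n → Bool, (∀ i, x i = true → z i = true) → C.eval x = true →
      C.eval z = true) (x : Fin n → Bool) :
    decide (C.eval3 (unst P x) = some true) = C.eval x := by
  by_cases hx : C.eval x = true
  · rw [hx, decide_eq_true_eq]
    exact h _ (unst_none P x) true (fun z hz => hmono x z (unst_resolves P x z hz) hx)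
  · rw [Bool.eq_false_iff.mpr hx, decide_eq_false_iff_not]
    intro h1
    exact hx (Circuit.eval3_sound _ _ (unst_self P x) C true h1)

/-- A layered circuit for a monotone function without hazards on `P`. -/
lemma Layered.unst_eval {n : ℕ} (C : Layered n) (P : Finset (Fin n)) (h : C.HazardFreeOn P)
    (hmono : ∀ x z : Fin n → Bool, (∀ i, x i = true → z i = true) → C.eval x = true →
      C.eval z = true) (x : Fin n → Bool) :
    decide (C.eval3 (unst P x) = some true) = C.eval x := by
  by_cases hx : C.eval x = true
  · rw [hx, decide_eq_true_eq]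
    exact h _ (unst_none P x) true (fun z hz => hmono x z (unst_resolves P x z hz) hx)
  · rw [Bool.eq_false_iff.mpr hx, decide_eq_false_iff_not]
    intro h1
    exact hx (Layered.eval3_sound _ _ (unst_self P x) C true h1)

/-- circuits without NOT gates compute monotone functions -/
lemma Pos.mono {n : ℕ} (C : Circuit n) (hC : ∀ g, (C.gate g).isNot = false)
    (x z : Fin n → Bool) (hxz : ∀ i, x i = true → z i = true) (g : ℕ) (hg : g < C.size)
    (h : C.gateVal x g hg = true) : C.gateVal z g hg = true := by
  induction g using Nat.strong_induction_on with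
  | _ g ih =>
    rw [Circuit.gateVal] at h ⊢
    have hw : ∀ w : Wire n g, w.val x (fun g' => C.gateVal x g'.val (lt_trans g'.isLt hg)) = true →
        w.val z (fun g' => C.gateVal z g'.val (lt_trans g'.isLt hg)) = true := by
      intro w hw
      cases w with
      | const b => exact hw
      | var i => exact hxz i hw
      | gate u => exact ih u.val u.isLt _ hw
    have hn := hC ⟨g, hg⟩
    cases hG : C.gate ⟨g, hg⟩ with
    | and a b =>
      rw [hG] at h
      change (_ && _) = true at h
      change (_ && _) = true
      rw [Bool.and_eq_true] at h ⊢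
      exact ⟨hw _ h.1, hw _ h.2⟩
    | or a b =>
      rw [hG] at h
      change (_ || _) = true at h
      change (_ || _) = true
      rw [Bool.or_eq_true] at h ⊢
      exact h.imp (hw _) (hw _)
    | not a =>
      rw [hG] at hn
      exact absurd hn (by simp [Gate.isNot])

end Pool.Agent.Results.MP_2af48a_lc.FewNegations
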