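import Pool.Agent.Lib_MP_2af48a_lc.HazDefs

open Finset

namespace Pool.Agent.Results.MP_2af48a_lc.FewNegations

/-! ### From circuits without hazards to circuits without NOT gates above `P`

Every gate is replaced by two gates: is its value `true`, is its value `false`? -/

/-- Is the value of the wire `true`? -/
def Wire.r1 {n k k' : ℕ} (f : Fin k → Wire n k') : Wire n k → Wire n k'
  | .const b => .const b
  | .var i => .var i
  | .gate g => f g

/-- Is the value of the wire `false`? -/
def Wire.r0 {n k k' : ℕ} (f : Fin k → Wire n k') (l : Fin n → Wire n k') :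
    Wire n k → Wire n k'
  | .const b => .const (!b)
  | .var i => l i
  | .gate g => f g

/-- Is the value of the gate `true`? -/
def Gate.r1 {n k k' : ℕ} (f1 f0 : Fin k → Wire n k') (la : Fin n → Wire n k') :
    Gate n k → Gate n k'
  | .and a b => .and (a.r1 f1) (b.r1 f1)
  | .or a b => .or (a.r1 f1) (b.r1 f1)
  | .not a => .or (a.r0 f0 la) (.const false)

/-- Is the value of the gate `false`? -/
def Gate.r0 {n k k' : ℕ} (f1 f0 : Fin k → Wire n k') (la lb : Fin n → Wire n k') :
    Gate n k → Gate n k'
  | .and a b => .or (a.r0 f0 la) (b.r0 f0 lb)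
  | .or a b => .and (a.r0 f0 la) (b.r0 f0 lb)
  | .not a => .or (a.r1 f1) (.const false)

/-- first input wire -/
def Gate.wa {n k : ℕ} : Gate n k → Wire n k
  | .and a _ => a
  | .or a _ => a
  | .not a => a

/-- second input wire -/
def Gate.wb {n k : ℕ} : Gate n k → Wire n k
  | .and _ b => b
  | .or _ b => b
  | .not a => a

/-- The input in which the zeros in `P` are unstable. -/
def unst {n : ℕ} (P : Finset (Fin n)) (x : Fin n → Bool) (i : Fin n) : Option Bool :=
  if i ∈ P then (if x i = true then some true else none) else some (x i)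

lemma unst_true {n : ℕ} (P : Finset (Fin n)) (x : Fin n → Bool) (i : Fin n) :
    decide (unst P x i = some true) = x i := by
  unfold unst
  by_cases h : i ∈ P
  · rw [if_pos h]
    cases x i <;> simp
  · rw [if_neg h]
    cases x i <;> simp

/-- the gate which computes whether a variable is `false` -/
def litGate {n k k' : ℕ} (P : Finset (Fin n)) : Wire n k → Gate n k'
  | .var i => if i ∈ P then .or (.const false) (.const false) else .not (.var i)
  | _ => .or (.const false) (.const false)

lemma litGate_val {n k k' : ℕ} (P : Finset (Fin n)) (x : Fin n → Bool) (v : Fin k' → Bool)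
    (i : Fin n) : (litGate P (Wire.var i : Wire n k) : Gate n k').val x v =
      decide (unst P x i = some false) := by
  unfold litGate unst
  by_cases h : i ∈ P
  · simp only [if_pos h]
    cases x i <;> simp [Gate.val, Wire.val]
  · simp only [if_neg h]
    change (!(x i)) = decide (some (x i) = some false)
    cases x i <;> rfl

lemma litGate_above {n k k' : ℕ} (P : Finset (Fin n)) (w : Wire n k) (R : Fin k' → Bool) :
    ¬ ((litGate P w : Gate n k').isNot = true ∧ (litGate P w : Gate n k').above P R = true) := by
  cases w with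
  | const b => simp [litGate, Gate.isNot]
  | gate g => simp [litGate, Gate.isNot]
  | var i =>
    unfold litGate
    by_cases h : i ∈ P
    · simp [if_pos h, Gate.isNot]
    · simp [Gate.isNot, Gate.above, Wire.above, h]

lemma Gate.r1_isNot {n k k' : ℕ} (f1 f0 : Fin k → Wire n k') (la : Fin n → Wire n k')
    (G : Gate n k) : (G.r1 f1 f0 la).isNot = false := by
  cases G <;> rfl

lemma Gate.r0_isNot {n k k' : ℕ} (f1 f0 : Fin k → Wire n k') (la lb : Fin n → Wire n k')
    (G : Gate n k) : (G.r0 f1 f0 la lb).isNot = false := by
  cases G <;> rfl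

section Spec

variable {n k k' : ℕ} (P : Finset (Fin n)) (x : Fin n → Bool) (v3 : Fin k → Option Bool)
  (v : Fin k' → Bool) (f1 f0 : Fin k → Wire n k') (la lb : Fin n → Wire n k')

lemma Wire.r1_val (h1 : ∀ g, (f1 g).val x v = decide (v3 g = some true)) (w : Wire n k) :
    (w.r1 f1).val x v = decide (w.val3 (unst P x) v3 = some true) := by
  cases w with
  | const b => cases b <;> rfl
  | var i => exact (unst_true P x i).symm
  | gate g => exact h1 g

lemma Wire.r0_val (h0 : ∀ g, (f0 g).val x v = decide (v3 g = some false)) (w : Wire n k)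
    (hl : ∀ i, w = .var i → (la i).val x v = decide (unst P x i = some false)) :
    (w.r0 f0 la).val x v = decide (w.val3 (unst P x) v3 = some false) := by
  cases w with
  | const b => cases b <;> rfl
  | var i => exact hl i rfl
  | gate g => exact h0 g

lemma and3_true (a b : Option Bool) : decide (and3 a b = some true) =
    (decide (a = some true) && decide (b = some true)) := by
  rcases a with _ | _ | _ <;> rcases b with _ | _ | _ <;> simp [and3]

lemma and3_false (a b : Option Bool) : decide (and3 a b = some false) =
    (decide (a = some false) || decide (b = some false)) := by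
  rcases a with _ | _ | _ <;> rcases b with _ | _ | _ <;> simp [and3]

lemma or3_true (a b : Option Bool) : decide (or3 a b = some true) =
    (decide (a = some true) || decide (b = some true)) := by
  rcases a with _ | _ | _ <;> rcases b with _ | _ | _ <;> simp [or3]

lemma or3_false (a b : Option Bool) : decide (or3 a b = some false) =
    (decide (a = some false) && decide (b = some false)) := by
  rcases a with _ | _ | _ <;> rcases b with _ | _ | _ <;> simp [or3]

lemma not3_true (a : Option Bool) : decide (not3 a = some true) = decide (a = some false) := by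
  rcases a with _ | _ | _ <;> simp [not3]

lemma not3_false (a : Option Bool) : decide (not3 a = some false) = decide (a = some true) := by
  rcases a with _ | _ | _ <;> simp [not3]

/-- Specification of the first rail. -/
lemma Gate.r1_val (h1 : ∀ g, (f1 g).val x v = decide (v3 g = some true))
    (h0 : ∀ g, (f0 g).val x v = decide (v3 g = some false)) (G : Gate n k)
    (hl : ∀ i, G.wa = .var i → (la i).val x v = decide (unst P x i = some false)) :
    (G.r1 f1 f0 la).val x v = decide (G.val3 (unst P x) v3 = some true) := by
  cases G with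
  | and a b =>
    change ((a.r1 f1).val x v && (b.r1 f1).val x v) =
      decide (and3 (a.val3 (unst P x) v3) (b.val3 (unst P x) v3) = some true)
    rw [and3_true, Wire.r1_val P x v3 v f1 h1, Wire.r1_val P x v3 v f1 h1]
  | or a b =>
    change ((a.r1 f1).val x v || (b.r1 f1).val x v) =
      decide (or3 (a.val3 (unst P x) v3) (b.val3 (unst P x) v3) = some true)
    rw [or3_true, Wire.r1_val P x v3 v f1 h1, Wire.r1_val P x v3 v f1 h1]
  | not a =>
    change ((a.r0 f0 la).val x v || false) = decide (not3 (a.val3 (unst P x) v3) = some true)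
    rw [not3_true, Wire.r0_val P x v3 v f0 la h0 a hl, Bool.or_false]

/-- Specification of the second rail. -/
lemma Gate.r0_val (h1 : ∀ g, (f1 g).val x v = decide (v3 g = some true))
    (h0 : ∀ g, (f0 g).val x v = decide (v3 g = some false)) (G : Gate n k)
    (hla : ∀ i, G.wa = .var i → (la i).val x v = decide (unst P x i = some false))
    (hlb : ∀ i, G.wb = .var i → (lb i).val x v = decide (unst P x i = some false)) :
    (G.r0 f1 f0 la lb).val x v = decide (G.val3 (unst P x) v3 = some false) := by
  cases G with
  | and a b =>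
    change ((a.r0 f0 la).val x v || (b.r0 f0 lb).val x v) =
      decide (and3 (a.val3 (unst P x) v3) (b.val3 (unst P x) v3) = some false)
    rw [and3_false, Wire.r0_val P x v3 v f0 la h0 a hla, Wire.r0_val P x v3 v f0 lb h0 b hlb]
  | or a b =>
    change ((a.r0 f0 la).val x v && (b.r0 f0 lb).val x v) =
      decide (or3 (a.val3 (unst P x) v3) (b.val3 (unst P x) v3) = some false)
    rw [or3_false, Wire.r0_val P x v3 v f0 la h0 a hla, Wire.r0_val P x v3 v f0 lb h0 b hlb]
  | not a =>
    change ((a.r1 f1).val x v || false) = decide (not3 (a.val3 (unst P x) v3) = some false)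
    rw [not3_false, Wire.r1_val P x v3 v f1 h1, Bool.or_false]

end Spec

/-! ### Circuits -/

section Circ

variable {n : ℕ} (C : Circuit n) (P : Finset (Fin n))

/-- first rail of the gate number `m`, placed at a position `g` which is large enough -/
def hz1 (g m : ℕ) (hm : m < C.size) (hg : n + 2 * m ≤ g) : Gate n g :=
  (C.gate ⟨m, hm⟩).r1
    (fun u => .gate ⟨n + 2 * u.val, by have := u.isLt; simp only at this; omega⟩)
    (fun u => .gate ⟨n + 2 * u.val + 1, by have := u.isLt; simp only at this; omega⟩)
    (fun i => .gate ⟨i.val, by have := i.isLt; omega⟩)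

/-- second rail -/
def hz0 (g m : ℕ) (hm : m < C.size) (hg : n + 2 * m ≤ g) : Gate n g :=
  (C.gate ⟨m, hm⟩).r0
    (fun u => .gate ⟨n + 2 * u.val, by have := u.isLt; simp only at this; omega⟩)
    (fun u => .gate ⟨n + 2 * u.val + 1, by have := u.isLt; simp only at this; omega⟩)
    (fun i => .gate ⟨i.val, by have := i.isLt; omega⟩)
    (fun i => .gate ⟨i.val, by have := i.isLt; omega⟩)

/-- the gates of the new circuit -/
def hzGate (g : ℕ) (hg : g < n + 2 * C.size) : Gate n g :=
  if h : g < n then litGate P (Wire.var ⟨g, h⟩ : Wire n 0)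
  else
    if (g - n) % 2 = 0 then hz1 C g ((g - n) / 2) (by omega) (by omega)
    else hz0 C g ((g - n) / 2) (by omega) (by omega)

lemma hzGate_lit (g : ℕ) (hg : g < n + 2 * C.size) (h : g < n) :
    hzGate C P g hg = litGate P (Wire.var ⟨g, h⟩ : Wire n 0) := by
  unfold hzGate
  rw [dif_pos h]

lemma hzGate_1 (j : ℕ) (hj : j < C.size) (hg : n + 2 * j < n + 2 * C.size) :
    hzGate C P (n + 2 * j) hg = hz1 C (n + 2 * j) j hj le_rfl := by
  unfold hzGate
  rw [dif_neg (by omega), if_pos (by omega)]
  have e : (n + 2 * j - n) / 2 = j := by omega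
  congr 1

lemma hzGate_0 (j : ℕ) (hj : j < C.size) (hg : n + 2 * j + 1 < n + 2 * C.size) :
    hzGate C P (n + 2 * j + 1) hg = hz0 C (n + 2 * j + 1) j hj (Nat.le_succ _) := by
  unfold hzGate
  rw [dif_neg (by omega), if_neg (by omega)]
  have e : (n + 2 * j + 1 - n) / 2 = j := by omega
  congr 1

/-- the new circuit -/
def hzCircuit : Circuit n where
  size := n + 2 * C.size
  gate := fun g => hzGate C P g.val g.isLt
  out := ⟨n + 2 * C.out.val, by have := C.out.isLt; omega⟩

lemma hz_lit (x : Fin n → Bool) (i : Fin n) (hi : i.val < (hzCircuit C P).size) :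
    (hzCircuit C P).gateVal x i.val hi = decide (unst P x i = some false) := by
  rw [Circuit.gateVal]
  change (hzGate C P i.val hi).val x _ = _
  rw [hzGate_lit C P i.val hi i.isLt]
  exact litGate_val P x _ i

lemma hz_val (x : Fin n → Bool) (j : ℕ) (hj : j < C.size) :
    (hzCircuit C P).gateVal x (n + 2 * j) (by change _ < n + 2 * C.size; omega) =
      decide (C.gateVal3 (unst P x) j hj = some true) ∧
    (hzCircuit C P).gateVal x (n + 2 * j + 1) (by change _ < n + 2 * C.size; omega) =
      decide (C.gateVal3 (unst P x) j hj = some false) := by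
  induction j using Nat.strong_induction_on with
  | _ j ih =>
    constructor
    · rw [Circuit.gateVal, Circuit.gateVal3]
      change (hzGate C P (n + 2 * j) (by omega)).val x _ = _
      rw [hzGate_1 C P j hj]
      unfold hz1
      apply Gate.r1_val P x (fun g' => C.gateVal3 (unst P x) g'.val (lt_trans g'.isLt hj))
      · intro u
        exact (ih u.val u.isLt (lt_trans u.isLt hj)).1
      · intro u
        exact (ih u.val u.isLt (lt_trans u.isLt hj)).2
      · intro i _
        exact hz_lit C P x i _
    · rw [Circuit.gateVal, Circuit.gateVal3]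
      change (hzGate C P (n + 2 * j + 1) (by omega)).val x _ = _
      rw [hzGate_0 C P j hj]
      unfold hz0
      apply Gate.r0_val P x (fun g' => C.gateVal3 (unst P x) g'.val (lt_trans g'.isLt hj))
      · intro u
        exact (ih u.val u.isLt (lt_trans u.isLt hj)).1
      · intro u
        exact (ih u.val u.isLt (lt_trans u.isLt hj)).2
      · intro i _
        exact hz_lit C P x i _
      · intro i _
        exact hz_lit C P x i _

lemma hzCircuit_eval (x : Fin n → Bool) :
    (hzCircuit C P).eval x = decide (C.eval3 (unst P x) = some true) :=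
  (hz_val C P x C.out.val C.out.isLt).1

lemma hz_negationsAbove : (hzCircuit C P).negationsAbove P = 0 := by
  unfold Circuit.negationsAbove
  rw [Finset.card_eq_zero, Finset.filter_eq_empty_iff]
  intro g _
  obtain ⟨g, hg⟩ := g
  rw [Circuit.above]
  change ¬ ((hzGate C P g hg).isNot = true ∧ (hzGate C P g hg).above P _ = true)
  unfold hzGate
  by_cases h : g < n
  · rw [dif_pos h]
    exact litGate_above P _ _
  · rw [dif_neg h]
    split_ifs with h2
    · unfold hz1
      rw [Gate.r1_isNot]
      simp
    · unfold hz0
      rw [Gate.r0_isNot]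
      simp

/-! The depth. -/

lemma Wire.r1_depth {n k k' : ℕ} (f : Fin k → Wire n k') (d : Fin k → ℕ) (d' : Fin k' → ℕ)
    (h : ∀ g, (f g).depth d' ≤ d g + 1) (w : Wire n k) : (w.r1 f).depth d' ≤ w.depth d + 1 := by
  cases w with
  | const b => exact Nat.zero_le _
  | var i => exact Nat.zero_le _
  | gate g => exact h g

lemma Wire.r0_depth {n k k' : ℕ} (f : Fin k → Wire n k') (l : Fin n → Wire n k') (d : Fin k → ℕ)
    (d' : Fin k' → ℕ) (h : ∀ g, (f g).depth d' ≤ d g + 1) (hl : ∀ i, (l i).depth d' ≤ 1)
    (w : Wire n k) : (w.r0 f l).depth d' ≤ w.depth d + 1 := by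
  cases w with
  | const b => exact Nat.zero_le _
  | var i => exact hl i
  | gate g => exact h g

lemma Gate.r1_depth {n k k' : ℕ} (f1 f0 : Fin k → Wire n k') (l : Fin n → Wire n k')
    (d : Fin k → ℕ) (d' : Fin k' → ℕ) (h1 : ∀ g, (f1 g).depth d' ≤ d g + 1)
    (h0 : ∀ g, (f0 g).depth d' ≤ d g + 1) (hl : ∀ i, (l i).depth d' ≤ 1)
    (G : Gate n k) : (G.r1 f1 f0 l).depth d' ≤ G.depth d + 1 := by
  cases G with
  | and a b =>
    have e1 := Wire.r1_depth f1 d d' h1 a
    have e2 := Wire.r1_depth f1 d d' h1 b
    change max ((a.r1 f1).depth d') ((b.r1 f1).depth d') + 1 ≤ max (a.depth d) (b.depth d) + 1 + 1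
    omega
  | or a b =>
    have e1 := Wire.r1_depth f1 d d' h1 a
    have e2 := Wire.r1_depth f1 d d' h1 b
    change max ((a.r1 f1).depth d') ((b.r1 f1).depth d') + 1 ≤ max (a.depth d) (b.depth d) + 1 + 1
    omega
  | not a =>
    have e1 := Wire.r0_depth f0 l d d' h0 hl a
    change max ((a.r0 f0 l).depth d') 0 + 1 ≤ a.depth d + 1 + 1
    omega

lemma Gate.r0_depth {n k k' : ℕ} (f1 f0 : Fin k → Wire n k') (l l' : Fin n → Wire n k')
    (d : Fin k → ℕ) (d' : Fin k' → ℕ) (h1 : ∀ g, (f1 g).depth d' ≤ d g + 1)
    (h0 : ∀ g, (f0 g).depth d' ≤ d g + 1) (hl : ∀ i, (l i).depth d' ≤ 1)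
    (hl' : ∀ i, (l' i).depth d' ≤ 1)
    (G : Gate n k) : (G.r0 f1 f0 l l').depth d' ≤ G.depth d + 1 := by
  cases G with
  | and a b =>
    have e1 := Wire.r0_depth f0 l d d' h0 hl a
    have e2 := Wire.r0_depth f0 l' d d' h0 hl' b
    change max ((a.r0 f0 l).depth d') ((b.r0 f0 l').depth d') + 1 ≤
      max (a.depth d) (b.depth d) + 1 + 1
    omega
  | or a b =>
    have e1 := Wire.r0_depth f0 l d d' h0 hl a
    have e2 := Wire.r0_depth f0 l' d d' h0 hl' b
    change max ((a.r0 f0 l).depth d') ((b.r0 f0 l').depth d') + 1 ≤
      max (a.depth d) (b.depth d) + 1 + 1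
    omega
  | not a =>
    have e1 := Wire.r1_depth f1 d d' h1 a
    change max ((a.r1 f1).depth d') 0 + 1 ≤ a.depth d + 1 + 1
    omega

lemma litGate_depth {n k k' : ℕ} (P : Finset (Fin n)) (w : Wire n k) (d : Fin k' → ℕ) :
    (litGate P w : Gate n k').depth d ≤ 1 := by
  cases w with
  | const b => exact le_rfl
  | gate g => exact le_rfl
  | var i =>
    unfold litGate
    by_cases h : i ∈ P
    · simp only [if_pos h]
      exact le_rfl
    · simp only [if_neg h]
      exact le_rfl

lemma hz_lit_depth (i : Fin n) (hi : i.val < (hzCircuit C P).size) :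
    (hzCircuit C P).gateDepth i.val hi ≤ 1 := by
  rw [Circuit.gateDepth]
  change (hzGate C P i.val hi).depth _ ≤ _
  rw [hzGate_lit C P i.val hi i.isLt]
  exact litGate_depth P _ _

lemma hz_depth (j : ℕ) (hj : j < C.size) :
    (hzCircuit C P).gateDepth (n + 2 * j) (by change _ < n + 2 * C.size; omega) ≤
      C.gateDepth j hj + 1 ∧
    (hzCircuit C P).gateDepth (n + 2 * j + 1) (by change _ < n + 2 * C.size; omega) ≤
      C.gateDepth j hj + 1 := by
  induction j using Nat.strong_induction_on with
  | _ j ih =>
    constructor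
    · rw [Circuit.gateDepth, Circuit.gateDepth]
      change (hzGate C P (n + 2 * j) (by omega)).depth _ ≤ _
      rw [hzGate_1 C P j hj]
      unfold hz1
      apply Gate.r1_depth
      · intro u
        exact (ih u.val u.isLt (lt_trans u.isLt hj)).1
      · intro u
        exact (ih u.val u.isLt (lt_trans u.isLt hj)).2
      · intro i
        exact hz_lit_depth C P i _
    · rw [Circuit.gateDepth, Circuit.gateDepth]
      change (hzGate C P (n + 2 * j + 1) (by omega)).depth _ ≤ _
      rw [hzGate_0 C P j hj]
      unfold hz0
      apply Gate.r0_depth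
      · intro u
        exact (ih u.val u.isLt (lt_trans u.isLt hj)).1
      · intro u
        exact (ih u.val u.isLt (lt_trans u.isLt hj)).2
      · intro i
        exact hz_lit_depth C P i _
      · intro i
        exact hz_lit_depth C P i _

lemma hzCircuit_depth : (hzCircuit C P).depth ≤ C.depth + 1 :=
  (hz_depth C P C.out.val C.out.isLt).1

end Circ

/-- If a circuit for a monotone function has no hazards on `P`, then the new circuit computes the
same function. -/
lemma unst_resolves {n : ℕ} (P : Finset (Fin n)) (x z : Fin n → Bool)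
    (h : Resolves (unst P x) z) : ∀ i, x i = true → z i = true := by
  intro i hi
  have := h i
  unfold unst at this
  by_cases hp : i ∈ P
  · rw [if_pos hp, if_pos hi] at this
    rcases this with h | h
    · exact absurd h (by simp)
    · exact (Option.some.inj h).symm
  · rw [if_neg hp, hi] at this
    rcases this with h | h
    · exact absurd h (by simp)
    · exact (Option.some.inj h).symm

lemma unst_self {n : ℕ} (P : Finset (Fin n)) (x : Fin n → Bool) : Resolves (unst P x) x := by
  intro i
  unfold unst
  by_cases hp : i ∈ P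
  · rw [if_pos hp]
    cases x i <;> simp
  · rw [if_neg hp]
    exact Or.inr rfl

lemma unst_none {n : ℕ} (P : Finset (Fin n)) (x : Fin n → Bool) (i : Fin n)
    (h : unst P x i = none) : i ∈ P := by
  unfold unst at h
  by_contra hp
  rw [if_neg hp] at h
  exact absurd h (by simp)

end Pool.Agent.Results.MP_2af48a_lc.FewNegations
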