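import Pool.Agent.Lib_MP_2af48a_lc.AboveUni
import Pool.Agent.Lib_MP_2af48a_lc.AboveTight

open Finset Filter

namespace Pool.Agent.Results.MP_2af48a_lc.FewNegations

/-! ## The conjunction of a variable and a circuit -/

/-- the wire of the variable `p` -/
def vWire (n K : ℕ) (p : ℕ) : Wire n K := if h : p < n then .var ⟨p, h⟩ else .const false

lemma vWire_ext {n K : ℕ} (x : Fin n → Bool) (v : Fin K → Bool) (p : ℕ) :
    (vWire n K p).val x v = ext x p := by
  unfold vWire ext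
  by_cases h : p < n
  · simp [h, Wire.val]
  · simp [h, Wire.val]

/-- gates of the conjunction -/
def andGate {n : ℕ} (A : Circuit n) (p : ℕ) (g : ℕ) : Gate n g :=
  if h : g < A.size then A.gate ⟨g, h⟩
  else .and (vWire n g p) (.gate ⟨A.out.val, by have := A.out.isLt; omega⟩)

/-- the conjunction of the variable `p` and a circuit -/
def andC {n : ℕ} (A : Circuit n) (p : ℕ) : Circuit n :=
  ⟨A.size + 1, fun g => andGate A p g.val, Fin.last _⟩

lemma andC_eval {n : ℕ} (A : Circuit n) (p : ℕ) (x : Fin n → Bool) :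
    (andC A p).eval x = (ext x p && A.eval x) := by
  have h1 := gateVal_unique (andC A p) x
    (fun g => if h : g < A.size then A.gateVal x g h else (ext x p && A.eval x)) (by
    intro g hg
    change _ = (andGate A p g).val x _
    by_cases h : g < A.size
    · unfold andGate
      rw [dif_pos h, dif_pos h, gateVal_eq]
      congr 1
      funext g'
      rw [dif_pos (lt_trans g'.isLt h)]
    · unfold andGate
      rw [dif_neg h, dif_neg h]
      simp only [Gate.val]
      rw [vWire_ext]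
      simp only [Wire.val]
      rw [dif_pos A.out.isLt]
      rfl) A.size (Nat.lt_succ_self _)
  simp only [lt_irrefl, dif_neg, not_false_eq_true] at h1
  exact h1

lemma andC_depth {n : ℕ} (A : Circuit n) (p : ℕ) : (andC A p).depth ≤ A.depth + 1 := by
  have h1 := gateDepth_le (andC A p)
    (fun g => if h : g < A.size then A.gateDepth g h else A.depth + 1) (by
    intro g hg
    change (andGate A p g).depth _ ≤ _
    by_cases h : g < A.size
    · unfold andGate
      rw [dif_pos h, dif_pos h, gateDepth_eq]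
      apply Gate.depth_mono
      intro g'
      rw [dif_pos (lt_trans g'.isLt h)]
    · unfold andGate
      rw [dif_neg h, dif_neg h]
      simp only [Gate.depth]
      have e1 : ∀ d : Fin g → ℕ, (vWire n g p).depth d = 0 := by
        intro d
        unfold vWire
        split <;> rfl
      rw [e1]
      simp only [Wire.depth]
      rw [dif_pos A.out.isLt]
      unfold Circuit.depth
      omega) A.size (Nat.lt_succ_self _)
  simp only [lt_irrefl, dif_neg, not_false_eq_true] at h1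
  exact h1

lemma andC_pos {n : ℕ} (A : Circuit n) (p : ℕ) (hA : Pos A) : Pos (andC A p) := by
  intro g
  change (andGate A p g.val).isNot = false
  unfold andGate
  split
  · exact hA _
  · rfl

/-! ## Copies in small depth -/

theorem copyF_circ (n K m : ℕ) (hK : K ≤ n) (F : (Fin m → Bool) → Bool)
    (D : Circuit m) (hpos : Pos D) (hD : ∀ x, D.eval x = F x) :
    ∃ E : Circuit (K * m), (∀ x, E.eval x = copyF K m F x) ∧ Pos E ∧
      E.size + 1 ≤ 2 ^ (Nat.log 2 n + 1) * (D.size + 2) ∧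
      E.depth ≤ D.depth + 1 + (Nat.log 2 n + 1) := by
  let σ : ℕ → Fin m → Bool ⊕ Fin (K * m) := fun j i => if h : j * m + i.val < K * m then
    Sum.inr ⟨j * m + i.val, h⟩ else Sum.inl false
  let A : ℕ → Circuit (K * m) := fun j => subC (σ j) D
  have hA : ∀ j x, (A j).eval x = F (rst m (fun p => ext x (j * m + p))) := by
    intro j x
    change (subC (σ j) D).eval x = _
    rw [subC_eval]
    have e : (fun i => Sum.elim (fun b => b) x (σ j i))
        = rst m (fun p => ext x (j * m + p)) := by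
      funext i
      by_cases h : j * m + i.val < K * m
      · simp [σ, rst, ext, h]
      · simp [σ, rst, ext, h]
    rw [e, hD]
  obtain ⟨E, h1, h2, h3, h4⟩ := exists_orC D.size D.depth (Nat.log 2 n + 1)
    ((List.range K).map A) (by
      rw [List.length_map, List.length_range]
      exact le_trans hK (Nat.lt_pow_succ_log_self (by norm_num) n).le) (by
      intro D' hD'
      rw [List.mem_map] at hD'
      obtain ⟨j, -, rfl⟩ := hD'
      exact ⟨subC_pos _ _ hpos, le_refl _, subC_depth _ _⟩)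
  refine ⟨E, fun x => ?_, h1, h2, h3⟩
  rw [h4]
  apply Bool.eq_iff_iff.mpr
  unfold copyF
  rw [decide_eq_true_eq, List.any_eq_true]
  constructor
  · rintro ⟨D', hD', hv⟩
    rw [List.mem_map] at hD'
    obtain ⟨j, hj, rfl⟩ := hD'
    rw [List.mem_range] at hj
    rw [hA] at hv
    exact ⟨j, hj, hv⟩
  · rintro ⟨j, hj, hv⟩
    refine ⟨A j, List.mem_map.mpr ⟨j, List.mem_range.mpr hj, rfl⟩, ?_⟩
    rw [hA]
    exact hv

/-! ## One function for all widths and all numbers of NOT gates -/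

/-- number of copies with `2 ^ i` variables -/
def nW (n i : ℕ) : ℕ := n / (2 ^ i * (2 * LL n + 1))

/-- the input without the first variables -/
def shiftF (n : ℕ) (x : Fin n → Bool) : Fin n → Bool := fun p => ext x (p.val + LL n)

/-- copies of the hard function with `2 ^ i` variables on selected variables -/
def partW (k n i : ℕ) (x : Fin n → Bool) : Bool :=
  selF n (nW n i * 2 ^ i) (copyF (nW n i) (2 ^ i) (hardW k (Nat.log 2 n) (2 ^ i))) (shiftF n x)

/-- the variable `i` switches on the copies with `2 ^ i` variables -/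
def fW (k n : ℕ) (x : Fin n → Bool) : Bool :=
  decide (∃ i < LL n, ext x i = true ∧ partW k n i x = true)

lemma nW_mul (n i : ℕ) : nW n i * 2 ^ i ≤ n := by
  calc nW n i * 2 ^ i ≤ nW n i * (2 ^ i * (2 * LL n + 1)) :=
        Nat.mul_le_mul_left _ (Nat.le_mul_of_pos_right _ (Nat.succ_pos _))
    _ ≤ n := Nat.div_mul_le_self _ _

/-- Upper bound. -/
theorem fW_NC (k : ℕ) : NC (fun _ => 0) (fW k) := by
  have main : ∀ n, ∃ E : Circuit n, Pos E ∧
      E.size ≤ (n + 2) ^ (3 * (k + 2) + 26 + 11) ∧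
      E.depth ≤ (Nat.log 2 n + 2) ^ (2 * (k + 2) + 6 + 4) ∧
      ∀ x, E.eval x = fW k n x := by
    intro n
    rcases Nat.eq_zero_or_pos n with h0 | hn0
    · subst h0
      obtain ⟨E, e1, e2, e3, e4⟩ := exists_orC (n := 0) 0 0 0 [] (by simp) (by simp)
      refine ⟨E, e1, ?_, ?_, fun x => ?_⟩
      · have : 1 ≤ (0 + 2) ^ (3 * (k + 2) + 26 + 11) := Nat.one_le_pow _ _ (by norm_num)
        simp only [pow_zero, one_mul, zero_add] at e2
        omega
      · have : 1 ≤ (Nat.log 2 0 + 2) ^ (2 * (k + 2) + 6 + 4) := Nat.one_le_pow _ _ (by omega)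
        omega
      · rw [e4]
        symm
        simp only [List.any_nil]
        unfold fW
        rw [decide_eq_false_iff_not]
        rintro ⟨i, hi, h, -⟩
        simp [ext] at h
    have part : ∀ i < LL n, ∃ E : Circuit n, Pos E ∧
        E.size ≤ 16 * (n + 1) ^ 3 + 2 * (n + 1) * ((n + 2) ^ (3 * (k + 2) + 26) + 2) + 1 ∧
        E.depth ≤ (Nat.log 2 n + 2) ^ (2 * (k + 2) + 6) + (3 * Nat.log 2 n + 8) ∧
        ∀ x, E.eval x = (ext x i && partW k n i x) := by
      intro i hi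
      have hin : 2 ^ i ≤ n := by
        refine le_trans (Nat.pow_le_pow_right (by norm_num) ?_)
          (Nat.pow_log_le_self 2 (by omega : n ≠ 0))
        unfold LL at hi
        omega
      obtain ⟨D, d1, d2, d3, d4⟩ := hardW_circuit k n (2 ^ i) hin
      have hK : nW n i ≤ n := Nat.div_le_self _ _
      obtain ⟨E1, e1, e2, e3, e4⟩ := copyF_circ n (nW n i) (2 ^ i) hK
        (hardW k (Nat.log 2 n) (2 ^ i)) D d1 d4
      obtain ⟨E, g1, g2, g3, g4⟩ := selF_circuit n (nW n i * 2 ^ i) (nW_mul n i) E1 e2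
      let σ : Fin n → Bool ⊕ Fin n := fun p => if h : p.val + LL n < n then
        Sum.inr ⟨p.val + LL n, h⟩ else Sum.inl false
      have hσ : ∀ x : Fin n → Bool, (fun p => Sum.elim (fun b => b) x (σ p)) = shiftF n x := by
        intro x
        funext p
        by_cases h : p.val + LL n < n
        · simp [σ, shiftF, ext, h]
        · simp [σ, shiftF, ext, h]
      refine ⟨andC (subC σ E) i, andC_pos _ _ (subC_pos _ _ g1), ?_, ?_, fun x => ?_⟩
      · change E.size + 1 ≤ _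
        have h1 := two_pow_log_le n
        have h3 : E1.size ≤ 2 * (n + 1) * (D.size + 2) := by
          calc E1.size ≤ 2 ^ (Nat.log 2 n + 1) * (D.size + 2) := by omega
            _ ≤ _ := Nat.mul_le_mul_right _ h1
        have h4 : 2 * (n + 1) * (D.size + 2) ≤ 2 * (n + 1) * ((n + 2) ^ (3 * (k + 2) + 26) + 2) :=
          Nat.mul_le_mul_left _ (by omega)
        omega
      · have h1 := andC_depth (subC σ E) i
        have h2 := subC_depth σ E
        omega
      · rw [andC_eval, subC_eval, hσ, g4]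
        unfold partW selF
        rw [e1]
    haveI : Nonempty (Circuit n) := ⟨⟨1, fun _ => .or (.const false) (.const false), 0⟩⟩
    choose! A hA1 hA2 hA3 hA4 using part
    obtain ⟨E, e1, e2, e3, e4⟩ := exists_orC
      (16 * (n + 1) ^ 3 + 2 * (n + 1) * ((n + 2) ^ (3 * (k + 2) + 26) + 2) + 1)
      ((Nat.log 2 n + 2) ^ (2 * (k + 2) + 6) + (3 * Nat.log 2 n + 8)) (Nat.log 2 n + 1)
      ((List.range (LL n)).map A) (by
        rw [List.length_map, List.length_range]
        exact (Nat.lt_two_pow_self).le) (by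
        intro D hD
        rw [List.mem_map] at hD
        obtain ⟨i, hi, rfl⟩ := hD
        rw [List.mem_range] at hi
        exact ⟨hA1 i hi, hA2 i hi, hA3 i hi⟩)
    refine ⟨E, e1, ?_, ?_, fun x => ?_⟩
    · have h1 := two_pow_log_le n
      obtain ⟨A', hA'⟩ : ∃ A', A' = (n + 2) ^ (3 * (k + 2) + 26) := ⟨_, rfl⟩
      rw [← hA'] at e2
      have h4 : 1 ≤ A' := by rw [hA']; exact Nat.one_le_pow _ _ (by omega)
      obtain ⟨N, hN⟩ : ∃ N, N = n + 2 := ⟨_, rfl⟩
      have hN2 : 2 ≤ N := by omega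
      have q2 : 2 * (n + 1) ≤ N ^ 2 := by
        rw [hN]; nlinarith
      have q4 : 16 ≤ N ^ 4 := by
        calc 16 = 2 ^ 4 := by norm_num
          _ ≤ N ^ 4 := Nat.pow_le_pow_left hN2 _
      have q3 : (n + 1) ^ 3 ≤ N ^ 3 := Nat.pow_le_pow_left (by omega) _
      have q5 : 4 ≤ N ^ 2 := by
        calc 4 = 2 ^ 2 := by norm_num
          _ ≤ N ^ 2 := Nat.pow_le_pow_left hN2 _
      have q6 : 16 * (n + 1) ^ 3 ≤ A' * N ^ 7 := by
        calc 16 * (n + 1) ^ 3 ≤ N ^ 4 * N ^ 3 := Nat.mul_le_mul q4 q3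
          _ = N ^ 7 := by rw [← pow_add]
          _ ≤ A' * N ^ 7 := Nat.le_mul_of_pos_left _ h4
      have q7 : 2 * (n + 1) * (A' + 2) ≤ A' * N ^ 7 := by
        calc 2 * (n + 1) * (A' + 2) ≤ N ^ 2 * (A' * N ^ 2) := by
              apply Nat.mul_le_mul q2
              calc A' + 2 ≤ A' * 4 := by omega
                _ ≤ A' * N ^ 2 := Nat.mul_le_mul_left _ q5
          _ = A' * N ^ 4 := by rw [mul_comm (N ^ 2), mul_assoc, ← pow_add]
          _ ≤ A' * N ^ 7 := Nat.mul_le_mul_left _ (Nat.pow_le_pow_right (by omega) (by norm_num))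
      have q8 : 3 ≤ A' * N ^ 7 := by
        calc 3 ≤ N ^ 2 := by omega
          _ ≤ N ^ 7 := Nat.pow_le_pow_right (by omega) (by norm_num)
          _ ≤ A' * N ^ 7 := Nat.le_mul_of_pos_left _ h4
      have q9 : A' * N ^ 7 + A' * N ^ 7 + A' * N ^ 7 ≤ A' * N ^ 9 := by
        calc A' * N ^ 7 + A' * N ^ 7 + A' * N ^ 7 ≤ A' * N ^ 7 * 4 := by omega
          _ ≤ A' * N ^ 7 * N ^ 2 := Nat.mul_le_mul_left _ q5
          _ = A' * N ^ 9 := by rw [mul_assoc, ← pow_add]
      calc E.size ≤ 2 ^ (Nat.log 2 n + 1) *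
            (16 * (n + 1) ^ 3 + 2 * (n + 1) * (A' + 2) + 1 + 2) := by omega
        _ ≤ N ^ 2 * (A' * N ^ 9) := by
            apply Nat.mul_le_mul (le_trans h1 q2)
            omega
        _ = A' * N ^ 11 := by rw [mul_comm (N ^ 2), mul_assoc, ← pow_add]
        _ = (n + 2) ^ (3 * (k + 2) + 26 + 11) := by rw [hA', hN, ← pow_add]
    · set l := Nat.log 2 n with hl
      obtain ⟨B, hB⟩ : ∃ B, B = (l + 2) ^ (2 * (k + 2) + 6) := ⟨_, rfl⟩
      have h4 : 1 ≤ B := by rw [hB]; exact Nat.one_le_pow _ _ (by omega)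
      rw [← hB] at e3
      calc E.depth ≤ B + (4 * l + 10) := by omega
        _ ≤ B * 1 + B * (4 * l + 10) := by
            apply Nat.add_le_add (by omega)
            exact Nat.le_mul_of_pos_left _ h4
        _ = B * (4 * l + 11) := by ring
        _ ≤ B * (l + 2) ^ 4 := by
            apply Nat.mul_le_mul_left
            have : (l + 2) ^ 4 = l ^ 4 + 8 * l ^ 3 + 24 * l ^ 2 + 32 * l + 16 := by ring
            rw [this]
            nlinarith [Nat.zero_le (l ^ 4), Nat.zero_le (l ^ 3), Nat.zero_le (l ^ 2)]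
        _ = _ := by rw [hB, ← pow_add]
    · rw [e4]
      apply Bool.eq_iff_iff.mpr
      unfold fW
      rw [decide_eq_true_eq, List.any_eq_true]
      constructor
      · rintro ⟨D, hD, hv⟩
        rw [List.mem_map] at hD
        obtain ⟨i, hi, rfl⟩ := hD
        rw [List.mem_range] at hi
        rw [hA4 i hi, Bool.and_eq_true] at hv
        exact ⟨i, hi, hv.1, hv.2⟩
      · rintro ⟨i, hi, hv1, hv2⟩
        refine ⟨A i, List.mem_map.mpr ⟨i, List.mem_range.mpr hi, rfl⟩, ?_⟩
        rw [hA4 i hi, Bool.and_eq_true]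
        exact ⟨hv1, hv2⟩
  choose E hE1 hE2 hE3 hE4 using main
  exact ⟨E, hE4, polyBounded_of _ hE2, polylogBounded_of _ hE3, fun n => (hE1 n).negations.le⟩

/-! ## Lower bound -/

/-- the switch and the selection -/
noncomputable def swS (n m i : ℕ) (e : ℕ → ℕ) : Fin n → Bool ⊕ Fin m := fun p =>
  if p.val < LL n then Sum.inl (decide (p.val = i)) else
    sub n m e ⟨p.val - LL n, lt_of_le_of_lt (Nat.sub_le _ _) p.isLt⟩

/-- the positions whose shift is in `P` -/
noncomputable def shP {n : ℕ} (P : Finset (Fin n)) : Finset (Fin n) := by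
  classical
  exact univ.filter (fun p => ∃ h : p.val + LL n < n, (⟨p.val + LL n, h⟩ : Fin n) ∈ P)

lemma mem_shP {n : ℕ} (P : Finset (Fin n)) (p : Fin n) :
    p ∈ shP P ↔ ∃ h : p.val + LL n < n, (⟨p.val + LL n, h⟩ : Fin n) ∈ P := by
  classical
  unfold shP
  simp

lemma card_shP {n : ℕ} (P : Finset (Fin n)) : P.card ≤ (shP P).card + LL n := by
  classical
  have h1 : (P.filter (fun p => ¬ LL n ≤ p.val)).card ≤ LL n := by
    have h2 : (P.filter (fun p => ¬ LL n ≤ p.val)).card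
        = ((P.filter (fun p => ¬ LL n ≤ p.val)).image (fun p => p.val)).card := by
      rw [Finset.card_image_of_injective _ Fin.val_injective]
    rw [h2]
    calc _ ≤ (Finset.range (LL n)).card := by
          apply Finset.card_le_card
          intro a ha
          rw [Finset.mem_image] at ha
          obtain ⟨p, hp, rfl⟩ := ha
          have := (Finset.mem_filter.mp hp).2
          rw [Finset.mem_range]
          omega
      _ = LL n := Finset.card_range _
  have h2 : (P.filter (fun p => LL n ≤ p.val)).card ≤ (shP P).card := by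
    apply Finset.card_le_card_of_injOn
      (fun p : Fin n => (⟨p.val - LL n, lt_of_le_of_lt (Nat.sub_le _ _) p.isLt⟩ : Fin n))
    · intro p hp
      have hp' := Finset.mem_filter.mp hp
      have h3 : p.val - LL n + LL n = p.val := Nat.sub_add_cancel hp'.2
      change _ ∈ ((shP P : Finset (Fin n)) : Set (Fin n))
      rw [Finset.mem_coe, mem_shP]
      refine ⟨by simp only; rw [h3]; exact p.isLt, ?_⟩
      have h4 : (⟨p.val - LL n + LL n, by rw [h3]; exact p.isLt⟩ : Fin n) = p := Fin.ext h3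
      simp only
      rw [h4]
      exact hp'.1
    · intro p hp p' hp' h
      have h5 := (Finset.mem_filter.mp hp).2
      have h6 := (Finset.mem_filter.mp hp').2
      have h7 := congrArg Fin.val h
      simp only at h7
      apply Fin.ext
      omega
  have h3 := Finset.card_filter_add_card_filter_not (s := P) (p := fun p => LL n ≤ p.val)
  omega

lemma swS_mem {n m i : ℕ} (e : ℕ → ℕ) (P : Finset (Fin n))
    (hmem : ∀ i < m, ∀ p : Fin n, e i = p.val → p ∈ shP P) (p : Fin n) (k : Fin m)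
    (h : swS n m i e p = Sum.inr k) : p ∈ P := by
  unfold swS at h
  split at h
  · exact absurd h (by simp)
  · rename_i hp
    have h1 := sub_inr n m e _ k h
    have h2 := hmem k.val k.isLt _ h1
    rw [mem_shP] at h2
    obtain ⟨h3, h4⟩ := h2
    simp only at h4
    have h5 : p.val - LL n + LL n = p.val := Nat.sub_add_cancel (by omega)
    have h6 : (⟨p.val - LL n + LL n, h3⟩ : Fin n) = p := Fin.ext h5
    rw [h6] at h4
    exact h4

lemma swS_switch {n m i : ℕ} (hi : i < LL n) (hn : LL n ≤ n) (e : ℕ → ℕ) (z : Fin m → Bool)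
    (j : ℕ) (hj : j < LL n) : ext (fill (swS n m i e) z) j = decide (j = i) := by
  unfold ext
  rw [dif_pos (lt_of_lt_of_le hj hn)]
  unfold fill swS
  simp [hj]

lemma swS_shift {n m i : ℕ} (e : ℕ → ℕ) (P : Finset (Fin n))
    (hmem : ∀ i < m, ∀ p : Fin n, e i = p.val → p ∈ shP P)
    (hm : 2 * (m * LL n) + LL n ≤ n) (z : Fin m → Bool) :
    shiftF n (fill (swS n m i e) z) = fill (sub n m e) z := by
  classical
  funext p
  unfold shiftF ext
  by_cases h : p.val + LL n < n
  · rw [dif_pos h]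
    unfold fill swS
    have h1 : ¬ (p.val + LL n < LL n) := by omega
    simp only [if_neg h1]
    have h2 : p.val + LL n - LL n = p.val := Nat.add_sub_cancel _ _
    have h3 : (⟨p.val + LL n - LL n, lt_of_le_of_lt (Nat.sub_le _ _) h⟩ : Fin n) = p :=
      Fin.ext h2
    rw [h3]
  · rw [dif_neg h]
    unfold fill sub
    have h1 : ¬ ∃ i : Fin m, e i = p.val := by
      rintro ⟨k, hk⟩
      have h2 := hmem k.val k.isLt p hk
      rw [mem_shP] at h2
      exact h h2.1
    have h2 : ¬ (p.val < 2 * (m * LL n)) := by omega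
    rw [dif_neg h1, if_neg h2]
    rfl

/-- After the substitution only the first copies with `2 ^ i` variables remain. -/
lemma fW_fill {k n K' i a : ℕ} (hi : i < LL n) (hn : LL n ≤ n) (hKK : K' ≤ nW n i)
    (P : Finset (Fin n)) (e : ℕ → ℕ)
    (he : ∀ j < K' * 2 ^ i, 2 * (K' * 2 ^ i * LL n) ≤ e j ∧ e j < n)
    (hinj : ∀ j < K' * 2 ^ i, ∀ j' < K' * 2 ^ i, e j = e j' → j = j') (ha : a < LL n)
    (hmem : ∀ j < K' * 2 ^ i, ∀ p : Fin n, e j = p.val → p ∈ shP P)
    (hea : ∀ j < K' * 2 ^ i, e j / 2 % LL n ≠ a)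
    (hm : 2 * (K' * 2 ^ i * LL n) + LL n ≤ n) (z : Fin (K' * 2 ^ i) → Bool) :
    fW k n (fill (swS n (K' * 2 ^ i) i e) z)
      = copyF K' (2 ^ i) (hardW k (Nat.log 2 n) (2 ^ i)) z := by
  have key : partW k n i (fill (swS n (K' * 2 ^ i) i e) z)
      = copyF K' (2 ^ i) (hardW k (Nat.log 2 n) (2 ^ i)) z := by
    unfold partW
    rw [swS_shift e P hmem hm z]
    exact selF_fill hKK (hardW k (Nat.log 2 n) (2 ^ i)) (hardW_zero k _ _) e he hinj a ha hea z
  apply Bool.eq_iff_iff.mpr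
  rw [← key]
  unfold fW
  rw [decide_eq_true_eq]
  constructor
  · rintro ⟨j, hj, h1, h2⟩
    rw [swS_switch hi hn e z j hj, decide_eq_true_eq] at h1
    subst h1
    exact h2
  · intro h
    refine ⟨i, hi, ?_, h⟩
    rw [swS_switch hi hn e z i hi]
    simp

/-- **Lower bound for layered circuits**: width, number of NOT gates above `P`, and size. -/
theorem fW_lower (k : ℕ) (n : ℕ) (hn16 : 16 ≤ n) (C : Layered n)
    (hC : ∀ x, C.eval x = fW (k + 2) n x) (P : Finset (Fin n))
    (hP : (C.maxWidth + 1) ^ 4 * 2 ^ C.negationsAbove P * Nat.log 2 n ^ (44 * k + 272) ≤ P.card) :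
    2 ^ (Nat.log 2 n) ^ k < C.size := by
  obtain ⟨t, ht⟩ : ∃ t, C.negationsAbove P = t := ⟨_, rfl⟩
  obtain ⟨W, hW⟩ : ∃ W, C.maxWidth = W := ⟨_, rfl⟩
  rw [ht, hW] at hP
  have hPn : P.card ≤ n := by
    have := P.card_le_univ
    rwa [Fintype.card_fin] at this
  set L := Nat.log 2 n with hL
  have hL4 : 4 ≤ L := Nat.le_log_of_pow_le (by norm_num) (by simpa using hn16)
  have hLn : L < n := Nat.log_lt_self 2 (by omega)
  have hn' : n < 2 ^ (L + 1) := Nat.lt_pow_succ_log_self (by norm_num) n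
  have hLLn : LL n = L + 1 := rfl
  obtain ⟨c0, hc0⟩ : ∃ c0, c0 = 22 * (k + 2) + 84 := ⟨_, rfl⟩
  obtain ⟨q, hq⟩ : ∃ q, q = L + 2 := ⟨_, rfl⟩
  have hq1 : ∀ a, 1 ≤ q ^ a := fun a => Nat.one_le_pow _ _ (by omega)
  have hqL : q ≤ L ^ 2 := by rw [hq]; nlinarith
  obtain ⟨w4, hw4⟩ : ∃ w4, w4 = (W + 1) ^ 4 := ⟨_, rfl⟩
  have hw41 : 1 ≤ w4 := by rw [hw4]; exact Nat.one_le_pow _ _ (by omega)
  obtain ⟨T, hT⟩ : ∃ T, T = 2 ^ t := ⟨_, rfl⟩
  have hT1 : 1 ≤ T := by rw [hT]; exact Nat.one_le_two_pow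
  rw [← hw4, ← hT] at hP
  -- the total bound
  have hbig : w4 * T * (4096 * q ^ (c0 + 2)) ≤ P.card := by
    refine le_trans (Nat.mul_le_mul_left _ ?_) hP
    have h1 : q ^ (c0 + 2) ≤ L ^ (2 * (c0 + 2)) := by
      rw [pow_mul]; exact Nat.pow_le_pow_left hqL _
    have h2 : 4096 ≤ L ^ 6 := by
      calc 4096 = 4 ^ 6 := by norm_num
        _ ≤ L ^ 6 := Nat.pow_le_pow_left hL4 _
    calc 4096 * q ^ (c0 + 2) ≤ L ^ 6 * L ^ (2 * (c0 + 2)) := Nat.mul_le_mul h2 h1
      _ = L ^ (6 + 2 * (c0 + 2)) := by rw [← pow_add]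
      _ ≤ L ^ (44 * k + 272) := Nat.pow_le_pow_right (by omega) (by omega)
  -- number of NOT gates
  have hTn : T ≤ n := by
    have h1 : T * 1 ≤ w4 * T * (4096 * q ^ (c0 + 2)) := by
      apply Nat.mul_le_mul (Nat.le_mul_of_pos_left _ hw41)
      have := hq1 (c0 + 2)
      omega
    omega
  have htL : t ≤ L := Nat.le_log_of_pow_le (by norm_num) (by rw [← hT]; exact hTn)
  -- the block size
  obtain ⟨Z, hZ⟩ : ∃ Z, Z = (2 * W + 4) ^ 4 * q ^ c0 := ⟨_, rfl⟩
  have hZ1 : 1 ≤ Z := by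
    rw [hZ]; exact Nat.mul_pos (Nat.pow_pos (by omega)) (hq1 _)
  have hZle : Z ≤ 256 * w4 * q ^ c0 := by
    rw [hZ, hw4]
    apply Nat.mul_le_mul_right
    calc (2 * W + 4) ^ 4 ≤ (4 * (W + 1)) ^ 4 := Nat.pow_le_pow_left (by omega) _
      _ = 256 * (W + 1) ^ 4 := by rw [mul_pow]; norm_num
  obtain ⟨i, hi⟩ : ∃ i, i = Nat.log 2 Z + 1 := ⟨_, rfl⟩
  have hi1 : Z ≤ 2 ^ i := by
    rw [hi]; exact (Nat.lt_pow_succ_log_self (by norm_num) Z).le
  have hi2 : 2 ^ i ≤ 2 * Z := by
    rw [hi, pow_succ]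
    have := Nat.pow_log_le_self 2 (by omega : Z ≠ 0)
    omega
  obtain ⟨K', hK'⟩ : ∃ K', 2 ^ t * (t + 1) + 1 = K' := ⟨_, rfl⟩
  have hK'le : K' ≤ T * q := by
    rw [← hK', ← hT]
    have h2 : T * (t + 1) ≤ T * (L + 1) := Nat.mul_le_mul_left _ (by omega)
    have h3 : T * q = T * (L + 1) + T := by rw [hq]; ring
    omega
  have hLL2 : 2 * LL n + 1 ≤ 2 * q := by rw [hLLn, hq]; omega
  have hmul : K' * 2 ^ i * (2 * LL n + 1) ≤ 1024 * (w4 * T * q ^ (c0 + 2)) := by
    calc K' * 2 ^ i * (2 * LL n + 1) ≤ (T * q) * (2 * (256 * w4 * q ^ c0)) * (2 * q) := by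
          apply Nat.mul_le_mul _ hLL2
          exact Nat.mul_le_mul hK'le (le_trans hi2 (Nat.mul_le_mul_left _ hZle))
      _ = 1024 * (w4 * T * (q ^ c0 * q ^ 2)) := by ring
      _ = _ := by rw [← pow_add]
  have hqle : LL n ≤ w4 * T * q ^ (c0 + 2) := by
    calc LL n ≤ 1 * 1 * q := by rw [hLLn, hq]; omega
      _ ≤ w4 * T * q ^ (c0 + 2) := by
          apply Nat.mul_le_mul (Nat.mul_le_mul hw41 hT1)
          exact Nat.le_self_pow (by omega) _
  have hbig' : 4096 * (w4 * T * q ^ (c0 + 2)) ≤ P.card := by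
    refine le_trans (le_of_eq ?_) hbig
    ring
  have hQcard := card_shP P
  have hQ : 2 * (K' * 2 ^ i * (2 * LL n + 1)) ≤ (shP P).card := by omega
  have hsum : 2 * (K' * 2 ^ i * (2 * LL n + 1)) + LL n ≤ n := by omega
  have hK'pos : 1 ≤ K' := by omega
  have hin : 2 ^ i ≤ n := by
    have h1 : 1 * 2 ^ i * 1 ≤ K' * 2 ^ i * (2 * LL n + 1) :=
      Nat.mul_le_mul (Nat.mul_le_mul_right _ hK'pos) (by omega)
    omega
  have hiL : i < LL n := by
    rw [hLLn]
    have := Nat.le_log_of_pow_le (by norm_num) hin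
    omega
  have hKn : K' ≤ n := by
    have h1 : K' * 1 * 1 ≤ K' * 2 ^ i * (2 * LL n + 1) :=
      Nat.mul_le_mul (Nat.mul_le_mul_left _ Nat.one_le_two_pow) (by omega)
    omega
  have hKK : K' ≤ nW n i := by
    unfold nW
    have hpos : 0 < 2 * LL n + 1 := by omega
    rw [Nat.le_div_iff_mul_le (Nat.mul_pos (Nat.pow_pos (by norm_num)) hpos), ← mul_assoc]
    omega
  have hm2 : 2 * (K' * 2 ^ i * LL n) + LL n ≤ n := by
    have h1 : K' * 2 ^ i * LL n ≤ K' * 2 ^ i * (2 * LL n + 1) := Nat.mul_le_mul_left _ (by omega)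
    omega
  -- the substitution
  obtain ⟨a, ha, e, he, hinj, hmem, hea⟩ := exists_sel_uni n (K' * 2 ^ i) (by omega) (shP P) hQ
  obtain ⟨C', c1, c2, c3, c4⟩ := layered_restrict C P (swS n (K' * 2 ^ i) i e)
    (fun p k h => swS_mem e P hmem p k h)
  have hneg : C'.negations ≤ t := le_trans c4 ht.le
  have hB : 2 ^ C'.negations * (C'.negations + 1) < K' := by
    refine lt_of_le_of_lt (Nat.mul_le_mul (Nat.pow_le_pow_right (by norm_num) hneg)
      (Nat.add_le_add_right hneg 1)) ?_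
    omega
  have hf0 := hardW_zero (k + 2) L (2 ^ i)
  obtain ⟨D, hD1, hD2, hD3, hD4⟩ := layered_copies C' K' hB
    (hardW (k + 2) L (2 ^ i)) hf0 (blk (2 ^ i)) (fun j hj y hy z => by
      rw [c1, hC, fW_fill hiL (by omega) hKK P e he hinj ha hmem hea hm2]
      exact copies_spec' (hardW (k + 2) L (2 ^ i)) K' (K' * 2 ^ i) (le_refl _) hf0 j hj y hy z)
  obtain ⟨D', hD'1, hD'2, hD'3⟩ := layered_to_mon (m := 2 ^ i) (r := 0) D hD2.le
    (hardW (k + 2) L (2 ^ i)) (fun X => by
      rw [hD1]; rfl)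
  have hwidth : D'.maxWidth ≤ 2 * W + 3 := by
    rw [hD'3, ← hW, ← c3]
    exact hD3
  have h5 := hardW_lower (k + 2) L (2 ^ i) (2 * W + 3) (by omega) (by omega) (by
    rw [← hc0, ← hq]
    exact le_trans hZ.symm.le hi1) D' hD'1 hwidth
  have hwn : 2 * C'.maxWidth + 3 ≤ 2 ^ (L + 1) := by
    have e1 : 2 * W + 4 ≤ Z := by
      rw [hZ]
      calc 2 * W + 4 = (2 * W + 4) ^ 1 := (pow_one _).symm
        _ ≤ (2 * W + 4) ^ 4 := Nat.pow_le_pow_right (by omega) (by norm_num)
        _ ≤ _ := Nat.le_mul_of_pos_right _ (hq1 _)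
    rw [c3, hW]
    omega
  by_contra hle
  push Not at hle
  have h6 : D'.size ≤ 2 ^ L ^ (k + 2) := by
    rw [hD'2]
    have ht' : 2 ^ C'.negations * (C'.negations + 1) ≤ 2 ^ (L + 1) := by omega
    have hle' : C'.size ≤ 2 ^ L ^ k := by rw [c2]; exact hle
    refine le_trans hD4 (le_trans (narrow_size _ _ _ L _ ht' hwn hle') ?_)
    apply Nat.pow_le_pow_right (by norm_num)
    have e3 : 1 ≤ L ^ k := Nat.one_le_pow _ _ (by omega)
    calc L ^ k + 3 + (L + 1) + (L + 1) = L ^ k * 1 + (2 * L + 5) := by ring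
      _ ≤ L ^ k * 1 + L ^ k * (2 * L + 5) :=
          Nat.add_le_add_left (Nat.le_mul_of_pos_left _ e3) _
      _ = L ^ k * (2 * L + 6) := by ring
      _ ≤ L ^ k * L ^ 2 := by
          apply Nat.mul_le_mul_left
          nlinarith
      _ = _ := (pow_add _ _ _).symm
  exact absurd h6 (not_le.mpr h5)

lemma negationsAbove_le_negations {n : ℕ} (C : Layered n) (P : Finset (Fin n)) :
    C.negationsAbove P ≤ C.negations := by
  unfold Layered.negationsAbove Layered.negations
  apply Finset.sum_le_sum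
  intro j _
  apply Finset.card_le_card
  intro g hg
  rw [Finset.mem_filter] at hg ⊢
  exact ⟨hg.1, hg.2.1⟩

lemma SC_toAbove {r : ℕ → ℕ} {f : (n : ℕ) → (Fin n → Bool) → Bool} (h : SC r f) :
    SCAbove (fun n => n) r f := by
  obtain ⟨C, hC, h1, h2, h3⟩ := h
  refine ⟨C, hC, h1, h2, fun n => ⟨Finset.univ, ?_,
    le_trans (negationsAbove_le_negations _ _) (h3 n)⟩⟩
  simp

/-- **One function in monotone NC without narrow circuits with few NOT gates above many
variables.** -/
theorem width_uni (k : ℕ) :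
    ∃ f : (n : ℕ) → (Fin n → Bool) → Bool, NC (fun _ => 0) f ∧
      (∀ r : ℕ → ℕ, (∀ a : ℕ, ∀ᶠ n in atTop, 2 ^ r n * Nat.log 2 n ^ a ≤ n) → ¬ SC r f) ∧
      (∀ N r : ℕ → ℕ, (∀ a : ℕ, ∀ᶠ n in atTop, 2 ^ r n * Nat.log 2 n ^ a ≤ N n) →
        ¬ SCAbove N r f) ∧
      ∀ n ≥ 16, ∀ C : Layered n, (∀ x, C.eval x = f n x) → ∀ P : Finset (Fin n),
        (C.maxWidth + 1) ^ 4 * 2 ^ C.negationsAbove P * Nat.log 2 n ^ (50 * k + 400) ≤ P.card →
        2 ^ (Nat.log 2 n) ^ k < C.size := by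
  have hkey : ∀ n ≥ 16, ∀ C : Layered n, (∀ x, C.eval x = fW (k + 2 + 2) n x) →
      ∀ P : Finset (Fin n),
        (C.maxWidth + 1) ^ 4 * 2 ^ C.negationsAbove P * Nat.log 2 n ^ (50 * k + 400) ≤ P.card →
        2 ^ (Nat.log 2 n) ^ (k + 2) < C.size := by
    intro n hn C hC P hP
    refine fW_lower (k + 2) n hn C hC P (le_trans (Nat.mul_le_mul_left _ ?_) hP)
    have hl : 4 ≤ Nat.log 2 n := Nat.le_log_of_pow_le (by norm_num) (by simpa using hn)
    exact Nat.pow_le_pow_right (by omega) (by omega)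
  have hno : ∀ N r : ℕ → ℕ, (∀ a : ℕ, ∀ᶠ n in atTop, 2 ^ r n * Nat.log 2 n ^ a ≤ N n) →
      ¬ SCAbove N r (fW (k + 2 + 2)) := by
    rintro N r hr ⟨C, hC, ⟨a, c, hs⟩, ⟨a', c', hw⟩, hP⟩
    obtain ⟨n1, hn1⟩ := eventually_atTop.mp (hr (4 * (2 * (a' + 1 + c' + 1)) + (50 * k + 400)))
    set n := max (max 16 n1) (2 ^ (2 * (a + c + 1))) with hn
    have hn16 : 16 ≤ n := le_trans (le_max_left _ _) (le_max_left _ _)
    have hn1' : n1 ≤ n := le_trans (le_max_right _ _) (le_max_left _ _)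
    have hnb : 2 ^ (2 * (a + c + 1)) ≤ n := le_max_right _ _
    obtain ⟨P, p1, p2⟩ := hP n
    set L := Nat.log 2 n with hL
    have hL4 : 4 ≤ L := Nat.le_log_of_pow_le (by norm_num) (by simpa using hn16)
    have hl : 2 * (a + c + 1) ≤ L := Nat.le_log_of_pow_le (by norm_num) hnb
    have h1 := hkey n hn16 (C n) (hC n) P (by
      refine le_trans ?_ (le_trans (hn1 n hn1') p1)
      have e1 : (C n).maxWidth ≤ a' * L ^ c' + a' := hw n
      have e2 := bound_aux a' c' L
      have e3 : (C n).maxWidth + 1 ≤ L ^ (2 * (a' + 1 + c' + 1)) := by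
        have q1 : 1 ≤ (L + 2) ^ (a' + 1 + c') := Nat.one_le_pow _ _ (by omega)
        calc (C n).maxWidth + 1 ≤ (L + 2) ^ (a' + 1 + c') + (L + 2) ^ (a' + 1 + c') := by omega
          _ = (L + 2) ^ (a' + 1 + c') * 2 := by ring
          _ ≤ (L + 2) ^ (a' + 1 + c') * (L + 2) := Nat.mul_le_mul_left _ (by omega)
          _ = (L + 2) ^ (a' + 1 + c' + 1) := (pow_succ _ _).symm
          _ ≤ (L ^ 2) ^ (a' + 1 + c' + 1) := Nat.pow_le_pow_left (by nlinarith) _
          _ = _ := by rw [← pow_mul]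
      calc ((C n).maxWidth + 1) ^ 4 * 2 ^ (C n).negationsAbove P * L ^ (50 * k + 400)
          ≤ (L ^ (2 * (a' + 1 + c' + 1))) ^ 4 * 2 ^ r n * L ^ (50 * k + 400) := by
            apply Nat.mul_le_mul_right
            exact Nat.mul_le_mul (Nat.pow_le_pow_left e3 _)
              (Nat.pow_le_pow_right (by norm_num) p2)
        _ = 2 ^ r n * (L ^ (2 * (a' + 1 + c' + 1) * 4) * L ^ (50 * k + 400)) := by
            rw [← pow_mul]; ring
        _ = 2 ^ r n * L ^ (4 * (2 * (a' + 1 + c' + 1)) + (50 * k + 400)) := by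
            rw [← pow_add, mul_comm (2 * (a' + 1 + c' + 1)) 4])
    have h2 : (C n).size ≤ a * n ^ c + a := hs n
    have h3 : a * n ^ c + a ≤ 2 ^ ((a + c + 1) * (L + 1)) := size_aux a c n
    have h4 : (a + c + 1) * (L + 1) ≤ L ^ (k + 2) := by
      calc (a + c + 1) * (L + 1) ≤ (a + c + 1) * (2 * L) := Nat.mul_le_mul_left _ (by omega)
        _ = (2 * (a + c + 1)) * L := by ring
        _ ≤ L * L := Nat.mul_le_mul_right _ hl
        _ = L ^ 2 := (sq _).symm
        _ ≤ _ := Nat.pow_le_pow_right (by omega) (by omega)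
    have h5 : 2 ^ ((a + c + 1) * (L + 1)) ≤ 2 ^ L ^ (k + 2) :=
      Nat.pow_le_pow_right (by norm_num) h4
    exact absurd (lt_of_lt_of_le h1 (le_trans h2 (le_trans h3 h5))) (lt_irrefl _)
  refine ⟨fW (k + 2 + 2), fW_NC _, fun r hr hf => hno (fun n => n) r hr (SC_toAbove hf), hno, ?_⟩
  intro n hn C hC P hP
  refine lt_of_le_of_lt ?_ (hkey n hn C hC P hP)
  apply Nat.pow_le_pow_right (by norm_num)
  have hl : 4 ≤ Nat.log 2 n := Nat.le_log_of_pow_le (by norm_num) (by simpa using hn)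
  exact Nat.pow_le_pow_right (by omega) (by omega)

end Pool.Agent.Results.MP_2af48a_lc.FewNegations
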