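import Pool.Agent.Lib_MP_2af48a_lc.HazDepth
import Pool.Agent.Lib_MP_2af48a_lc.HazLayered
import Pool.Agent.Lib_MP_2af48a_lc.WidthUni

open Finset Filter

namespace Pool.Agent.Results.MP_2af48a_lc.FewNegations

/-- functions computed without NOT gates are monotone -/
lemma NC.monotone {f : (n : ℕ) → (Fin n → Bool) → Bool} (h : NC (fun _ => 0) f) (n : ℕ)
    (x z : Fin n → Bool) (hxz : x ≤ z) (hx : f n x = true) : f n z = true := by
  obtain ⟨C, hC, h1, h2, h3⟩ := h
  rw [← hC] at hx ⊢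
  refine (C n).mono_of_negations (Nat.le_zero.mp (h3 n)) x z (fun i hi => ?_) hx
  have := hxz i
  rw [hi] at this
  exact Bool.eq_true_of_true_le this

/-- **Circuits of small width have hazards.** -/
theorem hazard_width (k : ℕ) :
    ∃ f : (n : ℕ) → (Fin n → Bool) → Bool, NC (fun _ => 0) f ∧
      (∀ N : ℕ → ℕ, (∀ a : ℕ, ∀ᶠ n in atTop, Nat.log 2 n ^ a ≤ N n) → ¬ SCHazardFree N f) ∧
      ∀ n ≥ 16, ∀ C : Layered n, (∀ x, C.eval x = f n x) → ∀ P : Finset (Fin n),
        C.HazardFreeOn P → (C.maxWidth + 1) ^ 4 * Nat.log 2 n ^ (50 * k + 454) ≤ P.card →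
        2 ^ (Nat.log 2 n) ^ k < C.size := by
  obtain ⟨f, h1, h2, h3, h4⟩ := width_uni (k + 1)
  refine ⟨f, h1, ?_, ?_⟩
  · rintro N hN ⟨C, hC, hs, hw, hP⟩
    choose P hP1 hP2 using hP
    have hex := fun n => layered_hazardFree (hP2 n) (fun x y hxy hx => by
      rw [hC] at hx ⊢
      exact h1.monotone n x y hxy hx)
    choose C' c1 c2 c3 c4 c5 using hex
    refine h3 N (fun _ => 0) (fun a => ?_) ⟨C', fun n x => (c1 n x).trans (hC n x), ?_, ?_, ?_⟩
    · filter_upwards [hN a] with n hn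
      simpa using hn
    · exact polyBounded_hz hs (fun n => by rw [c4 n]; omega)
    · exact polylogBounded_hz hw (fun n => by have := c3 n; omega)
    · intro n
      exact ⟨P n, hP1 n, (c2 n).le⟩
  · intro n hn C hC P hP hcard
    obtain ⟨C', c1, c2, c3, c4, c5⟩ := layered_hazardFree hP (fun x y hxy hx => by
      rw [hC] at hx ⊢
      exact h1.monotone n x y hxy hx)
    obtain ⟨L, hL⟩ : ∃ L, L = Nat.log 2 n := ⟨_, rfl⟩
    have hL4 : 4 ≤ L := by
      rw [hL]; exact Nat.le_log_of_pow_le (by norm_num) (by simpa using hn)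
    have h5 := h4 n hn C' (fun x => (c1 x).trans (hC x)) P (by
      rw [c2, ← hL, pow_zero, mul_one]
      rw [← hL] at hcard
      refine le_trans ?_ hcard
      have e1 : (C'.maxWidth + 1) ^ 4 ≤ (C.maxWidth + 1) ^ 4 * L ^ 4 := by
        rw [← mul_pow]
        apply Nat.pow_le_pow_left
        calc C'.maxWidth + 1 ≤ (C.maxWidth + 1) * 4 := by omega
          _ ≤ (C.maxWidth + 1) * L := Nat.mul_le_mul_left _ hL4
      obtain ⟨c1, hc1⟩ : ∃ c1, c1 = 50 * (k + 1) + 400 := ⟨_, rfl⟩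
      rw [← hc1, show 50 * k + 454 = 4 + c1 by omega, pow_add, ← mul_assoc]
      exact Nat.mul_le_mul_right _ e1)
    rw [c4, ← hL] at h5
    rw [← hL]
    have e4 : L ^ k + 2 ≤ L ^ (k + 1) := by
      have g1 : 1 ≤ L ^ k := Nat.one_le_pow _ _ (by omega)
      have g2 : L ^ k * 4 ≤ L ^ k * L := Nat.mul_le_mul_left _ hL4
      rw [pow_succ]
      omega
    have e5 : 2 ^ (L ^ k + 2) ≤ 2 ^ L ^ (k + 1) := Nat.pow_le_pow_right (by norm_num) e4
    rw [pow_add] at e5
    omega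

end Pool.Agent.Results.MP_2af48a_lc.FewNegations
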