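import Pool.Agent.Lib_MP_2af48a_lc.StConnectivity
import Pool.Agent.Lib_MP_2af48a_lc.MonotoneSeparation

open Finset

namespace Pool.Agent.Results.MP_2af48a_lc.FewNegations

/-- Module NL: narrow monotone layered circuits for iterated AND-OR reachability with `w` columns
and `T` layers are large. -/
def Stmt_NL : Prop := ∀ (n T w r r1 q S R δ lc lq : ℕ) (hw : 0 < w) (hm : 0 < r * r)
  (C : StConnectivity.MonLayered n),
  (∀ x, C.eval x = MonotoneSeparation.fn n w (r * r) hw hm (T + 1) x) →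
  C.maxWidth ≤ S → r = 4 * q * r1 → 0 < r1 → 0 < q → 4 * S < r → R + 2 ≤ T → 2 * R < w →
  (T + 1) * ((w * (r * r)) * (w * (r * r))) ≤ n →
  T * w * (r * r) * (w + 1) + 1 ≤ 2 ^ lc → 2 * q ≤ 2 ^ lq →
  R * lc + 2 * S + lq + 1 ≤ δ →
  20 * R * ((R * δ + 2) * (w + 1)) ≤ r1 → q ^ R < C.size

end Pool.Agent.Results.MP_2af48a_lc.FewNegations
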