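import Pool.Agent.Lib_MP_2af48a_lc.NarrowUpper
import Pool.Agent.Lib_MP_2af48a_lc.NarrowIface

open Finset Filter

namespace Pool.Agent.Results.MP_2af48a_lc.FewNegations

/-! ## A function in monotone NC which is hard for narrow circuits -/

open MonotoneSeparation (run edges idx fn)

/-- number of columns -/
def nw (k n : ℕ) : ℕ := 2 * (Nat.log 2 n) ^ k + 1

/-- number of layers -/
def nT (k n : ℕ) : ℕ := (Nat.log 2 n) ^ k + 2

/-- square root of the gadget size -/
def nr (n : ℕ) : ℕ := 2 ^ (23 * (Nat.log 2 n / 100) + 2)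

lemma nw_pos (k n : ℕ) : 0 < nw k n := Nat.succ_pos _

lemma nrr_pos (n : ℕ) : 0 < nr n * nr n := by
  unfold nr
  positivity

/-- the function -/
def hardN (k n : ℕ) (x : Fin n → Bool) : Bool :=
  fn n (nw k n) (nr n * nr n) (nw_pos k n) (nrr_pos n) (nT k n + 1) x

lemma hardN_zero (k n : ℕ) : hardN k n (fun _ => false) = false := by
  unfold hardN fn
  rw [Bool.eq_false_iff]
  intro h
  simp only [run, decide_eq_true_eq] at h
  obtain ⟨a, _, h2⟩ := h ⟨0, nw_pos k n⟩
  unfold edges at h2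
  split at h2 <;> exact absurd h2 (by simp)

theorem hardN_NC (k : ℕ) : NC (fun _ => 0) (hardN k) := by
  have main : ∀ n, ∃ C : Circuit n, Pos C ∧
      C.size ≤ (n + 2) ^ (4 * (k + 2) + 2 * (k + 2) + 2 * 5 + 4) ∧
      C.depth ≤ (Nat.log 2 n + 2) ^ ((k + 2) + (k + 2) + 5) ∧ ∀ x, C.eval x = hardN k n x := by
    intro n
    set l := Nat.log 2 n with hl
    obtain ⟨e, he⟩ : ∃ e, e = l / 100 := ⟨_, rfl⟩
    have hw : nw k n ≤ (l + 2) ^ (k + 2) := by
      unfold nw
      rw [← hl]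
      have h1 : l ^ k ≤ (l + 2) ^ k := Nat.pow_le_pow_left (by omega) _
      have h2 : 1 ≤ (l + 2) ^ k := Nat.one_le_pow _ _ (by omega)
      calc 2 * l ^ k + 1 ≤ (l + 2) ^ k * 4 := by omega
        _ ≤ (l + 2) ^ k * (l + 2) ^ 2 := by
            apply Nat.mul_le_mul_left
            have : 2 ^ 2 ≤ (l + 2) ^ 2 := Nat.pow_le_pow_left (by omega) _
            omega
        _ = _ := by rw [← pow_add]
    have hT : nT k n + 1 ≤ (l + 2) ^ (k + 2) := by
      unfold nT
      rw [← hl]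
      have h1 : l ^ k ≤ (l + 2) ^ k := Nat.pow_le_pow_left (by omega) _
      have h2 : 1 ≤ (l + 2) ^ k := Nat.one_le_pow _ _ (by omega)
      calc l ^ k + 2 + 1 ≤ (l + 2) ^ k * 4 := by omega
        _ ≤ (l + 2) ^ k * (l + 2) ^ 2 := by
            apply Nat.mul_le_mul_left
            have : 2 ^ 2 ≤ (l + 2) ^ 2 := Nat.pow_le_pow_left (by omega) _
            omega
        _ = _ := by rw [← pow_add]
    have hln : l ≤ n := Nat.log_le_self 2 n
    have hwn : nw k n ≤ (n + 2) ^ (k + 2) := le_trans hw (Nat.pow_le_pow_left (by omega) _)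
    have hTn : nT k n + 1 ≤ (n + 2) ^ (k + 2) := le_trans hT (Nat.pow_le_pow_left (by omega) _)
    have hm2 : nr n * nr n = 2 ^ (46 * e + 4) := by
      unfold nr
      rw [← hl, ← he, ← pow_add]
      congr 1
      ring
    have hmn : nr n * nr n ≤ (n + 2) ^ 5 := by
      rw [hm2]
      have h1 : 2 ^ (46 * e + 4) ≤ 2 ^ (l + 4) := Nat.pow_le_pow_right (by norm_num) (by omega)
      have h2 : 2 ^ l ≤ n + 2 := by
        rcases Nat.eq_zero_or_pos n with h | h
        · rw [hl, h]; simp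
        · exact le_trans (Nat.pow_log_le_self 2 (by omega)) (by omega)
      calc 2 ^ (46 * e + 4) ≤ 2 ^ (l + 4) := h1
        _ = 2 ^ l * 2 ^ 4 := pow_add _ _ _
        _ ≤ (n + 2) * (n + 2) ^ 4 := Nat.mul_le_mul h2 (Nat.pow_le_pow_left (by omega) _)
        _ = (n + 2) ^ 5 := by rw [← pow_succ']
    obtain ⟨l2, hl2⟩ : ∃ l2, l2 = Nat.log 2 (nw k n) + 1 := ⟨_, rfl⟩
    have hw2 : nw k n ≤ 2 ^ l2 := by
      rw [hl2]; exact (Nat.lt_pow_succ_log_self (by norm_num) _).le
    have hw2' : 2 ^ l2 ≤ 2 * nw k n := by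
      rw [hl2, pow_succ]
      have := Nat.pow_log_le_self 2 (nw_pos k n).ne'
      omega
    have hl2w : l2 ≤ nw k n + 1 := by
      rw [hl2]
      have := Nat.log_le_self 2 (nw k n)
      omega
    obtain ⟨C, h1, h2, h3, h4⟩ := fn_circuit n (nw k n) (nr n * nr n) (nw_pos k n) (nrr_pos n)
      (46 * e + 4) l2 (nT k n + 1) hm2.le hw2
    refine ⟨C, h1, ?_, ?_, h4⟩
    · rw [h2, ← hm2]
      set w := nw k n with hwdef
      set m := nr n * nr n with hmdef
      have hw0 : 1 ≤ w := nw_pos k n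
      have hm0 : 1 ≤ m := nrr_pos n
      have ht0 : 1 ≤ nT k n + 1 := Nat.succ_le_succ (Nat.zero_le _)
      have e1 : (w * m) * (w * m) + (w * m) * w * m + (w * m) * 2 ^ l2 ≤ 4 * ((w * m) * (w * m)) := by
        have a1 : (w * m) * w * m = (w * m) * (w * m) := by ring
        have a2 : (w * m) * 2 ^ l2 ≤ (w * m) * (2 * (w * m)) := by
          apply Nat.mul_le_mul_left
          refine le_trans hw2' (Nat.mul_le_mul_left _ ?_)
          exact Nat.le_mul_of_pos_right _ hm0
        rw [a1]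
        have a3 : (w * m) * (2 * (w * m)) = 2 * ((w * m) * (w * m)) := by ring
        omega
      have e2 : 1 ≤ (nT k n + 1) * (4 * ((w * m) * (w * m))) := by
        have h5 : 0 < w * m := Nat.mul_pos hw0 hm0
        exact Nat.mul_pos (Nat.succ_pos _) (Nat.mul_pos (by norm_num) (Nat.mul_pos h5 h5))
      calc 1 + (nT k n + 1) * ((w * m) * (w * m) + (w * m) * w * m + (w * m) * 2 ^ l2)
          ≤ (nT k n + 1) * (4 * ((w * m) * (w * m))) + (nT k n + 1) * (4 * ((w * m) * (w * m))) :=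
            Nat.add_le_add e2 (Nat.mul_le_mul_left _ e1)
        _ = 8 * ((nT k n + 1) * (w * w) * (m * m)) := by ring
        _ ≤ (n + 2) ^ 4 * ((n + 2) ^ (k + 2) * ((n + 2) ^ (k + 2) * (n + 2) ^ (k + 2)) *
              ((n + 2) ^ 5 * (n + 2) ^ 5)) := by
            apply Nat.mul_le_mul
            · have : 2 ^ 4 ≤ (n + 2) ^ 4 := Nat.pow_le_pow_left (by omega) _
              omega
            · exact Nat.mul_le_mul (Nat.mul_le_mul hTn (Nat.mul_le_mul hwn hwn))
                (Nat.mul_le_mul hmn hmn)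
        _ = (n + 2) ^ (4 + ((k + 2) + ((k + 2) + (k + 2)) + (5 + 5))) := by
            rw [← pow_add, ← pow_add, ← pow_add, ← pow_add, ← pow_add]
        _ ≤ _ := Nat.pow_le_pow_right (by omega) (by omega)
    · refine le_trans h3 ?_
      have e1 : 46 * e + 4 + l2 + 3 ≤ (l + 2) ^ (k + 2) * (l + 2) ^ 4 := by
        have a1 : 1 ≤ (l + 2) ^ (k + 2) := Nat.one_le_pow _ _ (by omega)
        have a2 : 8 * (l + 2) ≤ (l + 2) ^ 4 := by
          calc 8 * (l + 2) = 2 ^ 3 * (l + 2) := by norm_num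
            _ ≤ (l + 2) ^ 3 * (l + 2) := Nat.mul_le_mul_right _ (Nat.pow_le_pow_left (by omega) _)
            _ = (l + 2) ^ 4 := by rw [← pow_succ]
        have a3 : 46 * e ≤ l := by omega
        set P := (l + 2) ^ (k + 2) with hP
        calc 46 * e + 4 + l2 + 3 ≤ l + 8 + P := by omega
          _ ≤ P * (l + 8) + P * 1 := by nlinarith
          _ = P * (l + 9) := by ring
          _ ≤ P * (8 * (l + 2)) := Nat.mul_le_mul_left _ (by omega)
          _ ≤ P * (l + 2) ^ 4 := Nat.mul_le_mul_left _ a2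
      have e2 : 1 ≤ (l + 2) ^ (k + 2) * ((l + 2) ^ (k + 2) * (l + 2) ^ 4) :=
        Nat.one_le_iff_ne_zero.mpr (by positivity)
      calc 1 + (nT k n + 1) * (46 * e + 4 + l2 + 3)
          ≤ (l + 2) ^ (k + 2) * ((l + 2) ^ (k + 2) * (l + 2) ^ 4)
            + (l + 2) ^ (k + 2) * ((l + 2) ^ (k + 2) * (l + 2) ^ 4) :=
            Nat.add_le_add e2 (Nat.mul_le_mul hT e1)
        _ = (l + 2) ^ (k + 2) * ((l + 2) ^ (k + 2) * (l + 2) ^ 4) * 2 := by ring
        _ ≤ (l + 2) ^ (k + 2) * ((l + 2) ^ (k + 2) * (l + 2) ^ 4) * (l + 2) :=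
            Nat.mul_le_mul_left _ (by omega)
        _ = (l + 2) ^ ((k + 2) + (k + 2) + 5) := by
            rw [← pow_add, ← pow_add, ← pow_succ]
            congr 1
  choose C h1 h2 h3 h4 using main
  exact ⟨C, h4, polyBounded_of _ h2, polylogBounded_of _ h3, fun n => (h1 n).negations.le⟩

theorem hardN_lower (hNL : Stmt_NL) (k : ℕ) : ∃ N, ∀ n ≥ N, ∀ C : StConnectivity.MonLayered n,
    (∀ x, C.eval x = hardN k n x) → C.maxWidth ^ 5 ≤ n → 2 ^ (Nat.log 2 n) ^ k < C.size := by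
  obtain ⟨L1, hL1⟩ := pow_lt_two_pow (720 * 200 ^ (4 * k + 1)) (4 * k + 1)
  obtain ⟨L2, hL2⟩ := pow_lt_two_pow (9216 * 200 ^ (3 * k)) (3 * k)
  refine ⟨2 ^ (100 * (L1 + L2 + 30)), fun n hn C hC hwid => ?_⟩
  set l := Nat.log 2 n with hl
  have hll : 100 * (L1 + L2 + 30) ≤ l := Nat.le_log_of_pow_le (by norm_num) hn
  obtain ⟨e, he⟩ : ∃ e, e = l / 100 := ⟨_, rfl⟩
  have heL : L1 + L2 + 30 ≤ e := by omega
  have hle : l ≤ 200 * e := by omega
  have hl1 : 1 ≤ l := by omega
  have hn0 : n ≠ 0 := by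
    have : 1 ≤ 2 ^ (100 * (L1 + L2 + 30)) := Nat.one_le_two_pow
    omega
  have hln : 2 ^ l ≤ n := Nat.pow_log_le_self 2 hn0
  have hnl : n < 2 ^ (l + 1) := Nat.lt_pow_succ_log_self (by norm_num) n
  have hr : nr n = 4 * 2 ^ e * 2 ^ (22 * e) := by
    unfold nr
    rw [← hl, ← he, show (4 : ℕ) = 2 ^ 2 by norm_num, ← pow_add, ← pow_add]
    congr 1
    ring
  have hr2 : nr n = 2 ^ (23 * e + 2) := by
    unfold nr
    rw [← hl, ← he]
  have hR1 : 1 ≤ l ^ k := Nat.one_le_pow _ _ hl1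
  -- the width
  have hS : C.maxWidth ≤ 2 ^ (21 * e) := by
    by_contra hcon
    push Not at hcon
    have h1 : (2 ^ (21 * e)) ^ 5 < 2 ^ (l + 1) := by
      calc (2 ^ (21 * e)) ^ 5 ≤ C.maxWidth ^ 5 := Nat.pow_le_pow_left hcon.le _
        _ ≤ n := hwid
        _ < _ := hnl
    rw [← pow_mul] at h1
    have h2 := (Nat.pow_lt_pow_iff_right (by norm_num : 1 < 2)).mp h1
    omega
  -- number of inputs
  have hnin : (nT k n + 1) * ((nw k n * (nr n * nr n)) * (nw k n * (nr n * nr n))) ≤ n := by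
    refine le_trans ?_ hln
    have h1 : nT k n + 1 ≤ 4 * l ^ k := by unfold nT; rw [← hl]; omega
    have h2 : nw k n ≤ 3 * l ^ k := by unfold nw; rw [← hl]; omega
    calc (nT k n + 1) * ((nw k n * (nr n * nr n)) * (nw k n * (nr n * nr n)))
        = (nT k n + 1) * (nw k n * nw k n) * (nr n * nr n * nr n * nr n) := by ring
      _ ≤ (4 * l ^ k) * ((3 * l ^ k) * (3 * l ^ k)) * (nr n * nr n * nr n * nr n) :=
          Nat.mul_le_mul_right _ (Nat.mul_le_mul h1 (Nat.mul_le_mul h2 h2))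
      _ = 36 * l ^ (3 * k) * 2 ^ (92 * e + 8) := by
          rw [hr2, ← pow_add, ← pow_add, ← pow_add]
          have a1 : l ^ (3 * k) = l ^ k * l ^ k * l ^ k := by rw [← pow_add, ← pow_add]; congr 1; ring
          rw [a1]
          have a2 : 23 * e + 2 + (23 * e + 2) + (23 * e + 2) + (23 * e + 2) = 92 * e + 8 := by ring
          rw [a2]
          ring
      _ ≤ 36 * (200 * e) ^ (3 * k) * 2 ^ (92 * e + 8) := by
          apply Nat.mul_le_mul_right
          apply Nat.mul_le_mul_left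
          exact Nat.pow_le_pow_left hle _
      _ = (9216 * 200 ^ (3 * k)) * e ^ (3 * k) * 2 ^ (92 * e) := by
          rw [mul_pow, pow_add]
          norm_num
          ring
      _ ≤ 2 ^ e * 2 ^ (92 * e) := Nat.mul_le_mul_right _ (hL2 e (by omega)).le
      _ = 2 ^ (93 * e) := by rw [← pow_add]; congr 1; ring
      _ ≤ 2 ^ l := Nat.pow_le_pow_right (by norm_num) (by omega)
  have key := hNL n (nT k n) (nw k n) (nr n) (2 ^ (22 * e)) (2 ^ e) (2 ^ (21 * e)) (l ^ k)
    (l ^ k * (l + 1) + 2 * 2 ^ (21 * e) + (e + 1) + 1) (l + 1) (e + 1) (nw_pos k n) (nrr_pos n) C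
    hC hS hr (by positivity) (by positivity)
    (by
      rw [hr2, show (4 : ℕ) = 2 ^ 2 by norm_num, ← pow_add]
      exact Nat.pow_lt_pow_right (by norm_num) (by omega))
    (by unfold nT; rw [← hl])
    (by unfold nw; rw [← hl]; omega)
    hnin
    (by
      refine le_trans ?_ hnl.le
      refine le_trans ?_ hnin
      set w := nw k n with hw
      set m := nr n * nr n with hm
      have hw1 : 1 ≤ w := nw_pos k n
      have hm2 : 2 ≤ m := by
        rw [hm, hr2]
        have : 2 ^ 1 ≤ 2 ^ (23 * e + 2) := Nat.pow_le_pow_right (by norm_num) (by omega)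
        nlinarith
      have h1 : w + 1 ≤ w * m := by nlinarith
      have h2 : 1 ≤ (w * m) * (w * m) := by nlinarith
      calc nT k n * w * m * (w + 1) + 1 ≤ nT k n * w * m * (w * m) + (w * m) * (w * m) :=
            Nat.add_le_add (Nat.mul_le_mul_left _ h1) h2
        _ = _ := by ring)
    (by rw [← pow_succ'])
    le_rfl
    (by
      set P := 2 ^ (21 * e) with hP
      have hP1 : 1 ≤ P := Nat.one_le_two_pow
      set Rk := l ^ k with hRk
      have h1 : Rk * (l + 1) + 2 * P + (e + 1) + 1 ≤ P * (7 * (Rk * l)) := by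
        have a1 : 1 ≤ Rk * l := Nat.mul_pos hR1 hl1
        have a2 : Rk ≤ Rk * l := Nat.le_mul_of_pos_right _ hl1
        have a3 : l ≤ Rk * l := Nat.le_mul_of_pos_left _ hR1
        have a4 : e + 2 ≤ 2 * (Rk * l) := by omega
        calc Rk * (l + 1) + 2 * P + (e + 1) + 1 = Rk * l + Rk + 2 * P + (e + 2) := by ring
          _ ≤ 4 * (Rk * l) + 2 * P := by omega
          _ ≤ 4 * (Rk * l) * P + 2 * P * (Rk * l) := by
              apply Nat.add_le_add
              · exact Nat.le_mul_of_pos_right _ hP1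
              · exact Nat.le_mul_of_pos_right _ a1
          _ ≤ P * (7 * (Rk * l)) := by nlinarith
      have h2 : nw k n + 1 ≤ 4 * Rk := by unfold nw; rw [← hl]; omega
      have h3 : Rk * (Rk * (l + 1) + 2 * P + (e + 1) + 1) + 2 ≤ P * (9 * (Rk * Rk * l)) := by
        have a1 : 1 ≤ Rk * Rk * l := Nat.mul_pos (Nat.mul_pos hR1 hR1) hl1
        have a2 : 2 ≤ P * (2 * (Rk * Rk * l)) := by
          calc 2 = 1 * (2 * 1) := by norm_num
            _ ≤ P * (2 * (Rk * Rk * l)) := Nat.mul_le_mul hP1 (Nat.mul_le_mul_left _ a1)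
        calc _ ≤ Rk * (P * (7 * (Rk * l))) + P * (2 * (Rk * Rk * l)) :=
              Nat.add_le_add (Nat.mul_le_mul_left _ h1) a2
          _ = P * (9 * (Rk * Rk * l)) := by ring
      calc 20 * Rk * ((Rk * (Rk * (l + 1) + 2 * P + (e + 1) + 1) + 2) * (nw k n + 1))
          ≤ 20 * Rk * ((P * (9 * (Rk * Rk * l))) * (4 * Rk)) :=
            Nat.mul_le_mul_left _ (Nat.mul_le_mul h3 h2)
        _ = 720 * l ^ (4 * k + 1) * P := by
            have a1 : l ^ (4 * k + 1) = Rk * Rk * Rk * Rk * l := by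
              rw [pow_succ, hRk, ← pow_add, ← pow_add, ← pow_add]
              congr 2
              ring
            rw [a1]
            ring
        _ ≤ 720 * (200 * e) ^ (4 * k + 1) * P := by
            apply Nat.mul_le_mul_right
            apply Nat.mul_le_mul_left
            exact Nat.pow_le_pow_left hle _
        _ = (720 * 200 ^ (4 * k + 1)) * e ^ (4 * k + 1) * P := by rw [mul_pow]; ring
        _ ≤ 2 ^ e * P := Nat.mul_le_mul_right _ (hL1 e (by omega)).le
        _ = 2 ^ (22 * e) := by rw [hP, ← pow_add]; congr 1; ring)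
  refine lt_of_le_of_lt ?_ key
  rw [← pow_mul]
  apply Nat.pow_le_pow_right (by norm_num)
  exact Nat.le_mul_of_pos_left _ (by omega)

end Pool.Agent.Results.MP_2af48a_lc.FewNegations
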