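import Pool.Agent.Lib_MP_2af48a_lc.DepthProof
import Pool.Agent.Lib_MP_2af48a_lc.NarrowHard

open Finset Filter

namespace Pool.Agent.Results.MP_2af48a_lc.FewNegations

/-! ## Copies of a function in monotone NC -/

theorem copies_NC' (r : ℕ → ℕ) (f : (n : ℕ) → (Fin n → Bool) → Bool) (hf : NC (fun _ => 0) f) :
    NC (fun _ => 0) (copies f r) := by
  obtain ⟨D, hD, ⟨a, c, hs⟩, ⟨a', c', hd⟩, hneg⟩ := hf
  have main : ∀ n, ∃ E : Circuit n, (∀ x, E.eval x = copies f r n x) ∧ Pos E ∧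
      E.size + 1 ≤ 2 ^ (Nat.log 2 n + 1) * ((D (mb r n)).size + 2) ∧
      E.depth ≤ (D (mb r n)).depth + 1 + (Nat.log 2 n + 1) := by
    intro n
    set m := mb r n with hm
    let σ : ℕ → Fin m → Bool ⊕ Fin n := fun j i => if h : j * m + i.val < n then
      Sum.inr ⟨j * m + i.val, h⟩ else Sum.inl false
    let A : ℕ → Circuit n := fun j => subC (σ j) (D m)
    have hA : ∀ j x, (A j).eval x = f m (rst m (fun p => ext x (j * m + p))) := by
      intro j x
      change (subC (σ j) (D m)).eval x = _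
      rw [subC_eval]
      have e : (fun i => Sum.elim (fun b => b) x (σ j i)) = rst m (fun p => ext x (j * m + p)) := by
        funext i
        by_cases h : j * m + i.val < n
        · simp [σ, rst, ext, h]
        · simp [σ, rst, ext, h]
      rw [e, hD]
    obtain ⟨E, h1, h2, h3, h4⟩ := exists_orC (D m).size (D m).depth (Nat.log 2 n + 1)
      ((List.range (min (nb r n) (n + 1))).map A) (by
        rw [List.length_map, List.length_range]
        exact min_le_pow r n) (by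
        intro D' hD'
        rw [List.mem_map] at hD'
        obtain ⟨j, -, rfl⟩ := hD'
        exact ⟨subC_pos _ _ (pos_of_negations (Nat.le_zero.mp (hneg m))), le_refl _,
          subC_depth _ _⟩)
    refine ⟨E, fun x => ?_, h1, h2, h3⟩
    rw [h4]
    apply Bool.eq_iff_iff.mpr
    unfold copies
    rw [decide_eq_true_eq, List.any_eq_true]
    constructor
    · rintro ⟨D', hD', hv⟩
      rw [List.mem_map] at hD'
      obtain ⟨j, hj, rfl⟩ := hD'
      rw [List.mem_range] at hj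
      rw [hA] at hv
      exact ⟨j, hj, hv⟩
    · rintro ⟨j, hj, hv⟩
      refine ⟨A j, List.mem_map.mpr ⟨j, List.mem_range.mpr hj, rfl⟩, ?_⟩
      rw [hA]
      exact hv
  choose E hE1 hE2 hE3 hE4 using main
  refine ⟨E, hE1, ?_, ?_, fun n => (hE2 n).negations.le⟩
  · refine polyBounded_of (a + 1 + c + 4) (fun n => ?_)
    have h1 := hs (mb r n)
    simp only at h1
    have h2 := bound_aux a c (mb r n)
    have h3 : (mb r n + 2) ^ (a + 1 + c) ≤ (n + 2) ^ (a + 1 + c) :=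
      Nat.pow_le_pow_left (by have := mb_le r n; omega) _
    have h4 : 1 ≤ (n + 2) ^ (a + 1 + c) := Nat.one_le_pow _ _ (by omega)
    have h5 := hE3 n
    have h6 := two_pow_log_le n
    calc (E n).size ≤ 2 ^ (Nat.log 2 n + 1) * ((D (mb r n)).size + 2) := by omega
      _ ≤ (2 * (n + 1)) * ((n + 2) ^ (a + 1 + c) * 4) := Nat.mul_le_mul h6 (by omega)
      _ = (n + 2) ^ (a + 1 + c) * (8 * (n + 1)) := by ring
      _ ≤ (n + 2) ^ (a + 1 + c) * (n + 2) ^ 4 := by
          apply Nat.mul_le_mul_left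
          have hq : 4 * n + 4 ≤ (n + 2) * (n + 2) := by nlinarith
          calc 8 * (n + 1) ≤ 4 * (4 * n + 4) := by omega
            _ ≤ ((n + 2) * (n + 2)) * ((n + 2) * (n + 2)) := Nat.mul_le_mul (by omega) hq
            _ = (n + 2) ^ 4 := by ring
      _ = _ := by rw [← pow_add]
  · refine polylogBounded_of (a' + 1 + c' + 2) (fun n => ?_)
    have h1 := hd (mb r n)
    simp only at h1
    have h2 := bound_aux a' c' (Nat.log 2 (mb r n))
    have h3 : (Nat.log 2 (mb r n) + 2) ^ (a' + 1 + c') ≤ (Nat.log 2 n + 2) ^ (a' + 1 + c') :=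
      Nat.pow_le_pow_left (by have := Nat.log_mono_right (b := 2) (mb_le r n); omega) _
    have h4 : 1 ≤ (Nat.log 2 n + 2) ^ (a' + 1 + c') := Nat.one_le_pow _ _ (by omega)
    set l := Nat.log 2 n with hl
    calc (E n).depth ≤ (D (mb r n)).depth + 1 + (l + 1) := hE4 n
      _ ≤ (l + 2) ^ (a' + 1 + c') + (l + 2) := by omega
      _ ≤ (l + 2) ^ (a' + 1 + c') * 1 + (l + 2) ^ (a' + 1 + c') * (l + 2) := by nlinarith
      _ = (l + 2) ^ (a' + 1 + c') * (l + 3) := by ring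
      _ ≤ (l + 2) ^ (a' + 1 + c') * (l + 2) ^ 2 := by
          apply Nat.mul_le_mul_left
          have : (l + 2) ^ 2 = (l + 2) * (l + 2) := by ring
          rw [this]
          nlinarith
      _ = _ := by rw [← pow_add]

/-! ## No narrow circuits with few NOT gates -/

/-- size bound for the monotone circuits -/
lemma narrow_size (t s w l A : ℕ) (ht : 2 ^ t * (t + 1) ≤ 2 ^ (l + 1)) (hw : w ≤ 2 ^ (l + 1))
    (hs : s ≤ 2 ^ A) :
    (2 ^ t * (t + 1) * (3 * s + 1) + 1) * w ≤ 2 ^ (A + 3 + (l + 1) + (l + 1)) := by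
  have hA1 : 1 ≤ 2 ^ A := Nat.one_le_two_pow
  have hP1 : 1 ≤ 2 ^ (l + 1) := Nat.one_le_two_pow
  calc (2 ^ t * (t + 1) * (3 * s + 1) + 1) * w
      ≤ (2 ^ (l + 1) * (3 * 2 ^ A + 1) + 1) * 2 ^ (l + 1) := by gcongr
    _ ≤ (2 ^ (l + 1) * (4 * 2 ^ A) + 2 ^ (l + 1) * (4 * 2 ^ A)) * 2 ^ (l + 1) := by
        apply Nat.mul_le_mul_right
        have e1 : 2 ^ (l + 1) * (3 * 2 ^ A + 1) ≤ 2 ^ (l + 1) * (4 * 2 ^ A) :=
          Nat.mul_le_mul_left _ (by omega)
        have e2 : 1 ≤ 2 ^ (l + 1) * (4 * 2 ^ A) := Nat.mul_pos hP1 (by omega)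
        omega
    _ = 2 ^ A * 2 ^ 3 * 2 ^ (l + 1) * 2 ^ (l + 1) := by ring
    _ = _ := by rw [← pow_add, ← pow_add, ← pow_add]

theorem copies_not_SC' (r : ℕ → ℕ) (δ : ℝ) (hδ : 0 < δ)
    (hr : Tendsto (fun n : ℕ => (Real.logb 2 n - r n) / (Real.logb 2 n) ^ δ) atTop atTop)
    (k : ℕ) (hk : 1 ≤ δ * k)
    (f : (n : ℕ) → (Fin n → Bool) → Bool) (hf0 : ∀ n, f n (fun _ => false) = false) (N : ℕ)
    (hf : ∀ n ≥ N, ∀ C : StConnectivity.MonLayered n, (∀ x, C.eval x = f n x) →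
      C.maxWidth ^ 5 ≤ n → 2 ^ (Nat.log 2 n) ^ k < C.size) :
    ¬ SC r (copies f r) := by
  rintro ⟨C, hC, ⟨a, c, hs⟩, ⟨a', c', hd⟩, hneg⟩
  obtain ⟨L0, hL0⟩ := pow_lt_two_pow ((4 * a' + 3) ^ 5) (k * c' * 5)
  obtain ⟨n, ⟨h1, h2, h3⟩, h4⟩ := ((growthC r δ hδ hr k hk (a + c + 6 + N + L0)).and
    (eventually_ge_atTop 2)).exists
  set l := Nat.log 2 n with hl
  set m := mb r n with hm
  set l' := Nat.log 2 m with hl'
  have hl1 : 1 ≤ l := by
    rw [hl]; exact Nat.le_log_of_pow_le (by norm_num) (by simpa using h4)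
  have hl'1 : 1 ≤ l' := by omega
  have hll : l + 1 ≤ l' ^ k := by
    refine le_trans ?_ h3
    calc l + 1 = 1 * (l + 1) := by rw [one_mul]
      _ ≤ _ := Nat.mul_le_mul_right _ (by omega)
  have hm0 : m ≠ 0 := by
    intro h0
    rw [h0] at hl'
    simp at hl'
    omega
  have hml : 2 ^ l' ≤ m := Nat.pow_log_le_self 2 hm0
  have hmN : N ≤ m := by
    calc N ≤ l' := by omega
      _ ≤ 2 ^ l' := (Nat.lt_two_pow_self).le
      _ ≤ m := hml
  obtain ⟨D, hD1, hD2, hD3, hD4⟩ := layered_copies (C n) (nb r n) (neg_lt_nb r n _ (hneg n))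
    (f m) (hf0 m) (blk m) (fun j hj y hy z => by
      rw [hC]
      exact copies_spec f r n h1 (hf0 m) j hj y hy z)
  obtain ⟨D', hD'1, hD'2, hD'3⟩ := layered_to_mon (m := m) (r := 0) D hD2.le
    (f m) (fun X => by
      rw [hD1]; rfl)
  have hw : 2 * (C n).maxWidth + 3 ≤ (4 * a' + 3) * l' ^ (k * c') := by
    have h5 := le_trans (hd n) (polylog_auxk a' c' l l' k hll hl'1)
    simp only at h5
    have h6 : 1 ≤ l' ^ (k * c') := Nat.one_le_pow _ _ hl'1
    calc 2 * (C n).maxWidth + 3 ≤ 2 * (2 * a' * l' ^ (k * c')) + 3 * l' ^ (k * c') := by omega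
      _ = _ := by ring
  have hw5 : (2 * (C n).maxWidth + 3) ^ 5 ≤ m := by
    calc _ ≤ ((4 * a' + 3) * l' ^ (k * c')) ^ 5 := Nat.pow_le_pow_left hw _
      _ = (4 * a' + 3) ^ 5 * l' ^ (k * c' * 5) := by rw [mul_pow (4 * a' + 3), ← pow_mul]
      _ ≤ 2 ^ l' := (hL0 l' (by omega)).le
      _ ≤ m := hml
  have hwidth : D'.maxWidth ^ 5 ≤ m := by
    rw [hD'3]
    exact le_trans (Nat.pow_le_pow_left hD3 _) hw5
  have hn : n < 2 ^ (l + 1) := Nat.lt_pow_succ_log_self (by norm_num) n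
  have hwn : 2 * (C n).maxWidth + 3 ≤ 2 ^ (l + 1) := by
    calc 2 * (C n).maxWidth + 3 = (2 * (C n).maxWidth + 3) ^ 1 := (pow_one _).symm
      _ ≤ (2 * (C n).maxWidth + 3) ^ 5 := Nat.pow_le_pow_right (by omega) (by norm_num)
      _ ≤ m := hw5
      _ ≤ n := mb_le r n
      _ ≤ _ := hn.le
  have h5 := hf m hmN D' hD'1 hwidth
  have h6 : D'.size ≤ 2 ^ l' ^ k := by
    rw [hD'2]
    have hsz := le_trans (hs n) (size_aux a c n)
    rw [← hl] at hsz
    simp only at hsz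
    have ht : 2 ^ (C n).negations * ((C n).negations + 1) ≤ 2 ^ (l + 1) := by
      have := neg_lt_nb r n _ (hneg n)
      omega
    refine le_trans hD4 (le_trans (narrow_size _ _ _ l _ ht hwn hsz) ?_)
    apply Nat.pow_le_pow_right (by norm_num)
    refine le_trans ?_ h3
    have : (a + c + 6 + N + L0) * (l + 1) = (a + c + 1) * (l + 1) + 5 * (l + 1) + (N + L0) * (l + 1) := by
      ring
    have h0 : 0 ≤ (N + L0) * (l + 1) := Nat.zero_le _
    omega
  exact absurd h6 (not_le.mpr h5)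

/-- Separation, both directions with the same bound on the number of NOT gates. -/
theorem result_sym (hNL : Stmt_NL) (r : ℕ → ℕ) (δ : ℝ) (hδ : 0 < δ)
    (hr : Tendsto (fun n : ℕ => (Real.logb 2 n - r n) / (Real.logb 2 n) ^ δ) atTop atTop) :
    (∃ f : (n : ℕ) → (Fin n → Bool) → Bool, NC (fun _ => 0) f ∧ ¬ SC r f) ∧
    (∃ f : (n : ℕ) → (Fin n → Bool) → Bool, SC (fun _ => 0) f ∧ ¬ NC r f) := by
  obtain ⟨k, hk⟩ := exists_nat_ge (1 / δ)
  have hk' : 1 ≤ δ * k := by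
    rw [div_le_iff₀ hδ] at hk
    linarith
  constructor
  · obtain ⟨N, hN⟩ := hardN_lower hNL k
    exact ⟨copies (hardN k) r, copies_NC' r _ (hardN_NC k),
      copies_not_SC' r δ hδ hr k hk' _ (hardN_zero k) N hN⟩
  · obtain ⟨f, hf1, -, a0, N, hf3⟩ := MonotoneSeparation.result k
    exact ⟨copies f r, copies_SC r f hf1, copies_not_NC r δ hδ hr k hk' f hf1 a0 N hf3⟩

/-- functions in monotone NC for which narrow circuits with few NOT gates are large -/
theorem size_few_neg (hNL : Stmt_NL) (k : ℕ) (ε : ℝ) (h0 : 0 < ε) (h1 : ε ≤ 1) :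
    ∃ f : (n : ℕ) → (Fin n → Bool) → Bool, NC (fun _ => 0) f ∧
      ∃ N : ℕ, ∀ n ≥ N, ∀ C : Layered n, (∀ x, C.eval x = f n x) →
        (C.negations : ℝ) ≤ (1 - ε) * Real.logb 2 n → (C.maxWidth : ℝ) ≤ (n : ℝ) ^ (ε / 6) →
        2 ^ (Nat.log 2 n) ^ k < C.size := by
  obtain ⟨N0, hN0⟩ := hardN_lower hNL (2 * (k + 1))
  have hev := growthC (rε ε) (1 / 2) (by norm_num) (rε_tendsto ε h0 h1) 2 (by norm_num) (5 + N0)
  have hlo : ∀ᶠ n : ℕ in atTop, Real.log n ≤ (1 / 75000) * (n : ℝ) ^ (ε / 6) := by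
    have h := (isLittleO_log_rpow_atTop (by positivity : 0 < ε / 6)).bound
      (by norm_num : (0 : ℝ) < 1 / 75000)
    have h' := tendsto_natCast_atTop_atTop (R := ℝ) |>.eventually h
    filter_upwards [h', eventually_ge_atTop 1] with n hn hn1
    have hn1' : (1 : ℝ) ≤ n := by exact_mod_cast hn1
    rw [Real.norm_eq_abs, Real.norm_eq_abs, abs_of_nonneg (Real.log_nonneg hn1'),
      abs_of_nonneg (Real.rpow_nonneg (by linarith) _)] at hn
    exact hn
  obtain ⟨N1, hN1⟩ := eventually_atTop.mp (hev.and hlo)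
  refine ⟨copies (hardN (2 * (k + 1))) (rε ε), copies_NC' _ _ (hardN_NC _), max N1 4,
    fun n hn C hC ht hW => ?_⟩
  obtain ⟨⟨g1, g2, g3⟩, g4⟩ := hN1 n (le_trans (le_max_left _ _) hn)
  have hn4 : 4 ≤ n := le_trans (le_max_right _ _) hn
  set l := Nat.log 2 n with hl
  have hbl := block_large ε h0 h1 n (by omega) g1
  rw [← hl] at hbl
  set m := mb (rε ε) n with hm
  set l' := Nat.log 2 m with hl'
  have hl2 : 2 ≤ l := by
    rw [hl]; exact Nat.le_log_of_pow_le (by norm_num) (by simpa using hn4)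
  have hm0 : m ≠ 0 := by
    intro h
    rw [h] at hl'
    simp at hl'
    omega
  have hml : 2 ^ l' ≤ m := Nat.pow_log_le_self 2 hm0
  have hmN : N0 ≤ m := by
    calc N0 ≤ l' := by omega
      _ ≤ 2 ^ l' := (Nat.lt_two_pow_self).le
      _ ≤ m := hml
  have hf0 := hardN_zero (2 * (k + 1)) m
  have htr : C.negations ≤ rε ε n := Nat.le_floor ht
  obtain ⟨D, hD1, hD2, hD3, hD4⟩ := layered_copies C (nb (rε ε) n) (neg_lt_nb (rε ε) n _ htr)
    (hardN (2 * (k + 1)) m) hf0 (blk m) (fun j hj y hy z => by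
      rw [hC]
      exact copies_spec (hardN (2 * (k + 1))) (rε ε) n g1 hf0 j hj y hy z)
  obtain ⟨D', hD'1, hD'2, hD'3⟩ := layered_to_mon (m := m) (r := 0) D hD2.le
    (hardN (2 * (k + 1)) m) (fun X => by
      rw [hD1]; rfl)
  -- the width
  have hn1R : (1 : ℝ) ≤ n := by exact_mod_cast (by omega : 1 ≤ n)
  set E := (n : ℝ) ^ (ε / 6) with hE
  have hE1 : 1 ≤ E := Real.one_le_rpow hn1R (by positivity)
  have hE6 : E ^ 6 = (n : ℝ) ^ ε := by
    rw [hE, ← Real.rpow_natCast, ← Real.rpow_mul (by linarith)]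
    congr 1
    push_cast
    ring
  have hlE : (l : ℝ) ≤ (1 / 37500) * E := by
    have e1 : (l : ℝ) ≤ Real.logb 2 n := by
      rw [Real.le_logb_iff_rpow_le (by norm_num) (by linarith), Real.rpow_natCast]
      exact_mod_cast Nat.pow_log_le_self 2 (by omega : n ≠ 0)
    have e2 : Real.logb 2 n ≤ 2 * Real.log n := by
      unfold Real.logb
      rw [div_le_iff₀ (Real.log_pos (by norm_num))]
      have e3 : (0.5 : ℝ) ≤ Real.log 2 := by
        have := Real.log_two_gt_d9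
        linarith
      have e4 : 0 ≤ Real.log n := Real.log_nonneg hn1R
      nlinarith
    linarith
  have hl0R : (0 : ℝ) < l := by exact_mod_cast (by omega : 0 < l)
  have hw5 : (2 * C.maxWidth + 3) ^ 5 ≤ m := by
    have e1 : (2 * (C.maxWidth : ℝ) + 3) ≤ 5 * E := by linarith
    have e2 : (2 * (C.maxWidth : ℝ) + 3) ^ 5 ≤ (5 * E) ^ 5 := pow_le_pow_left₀ (by positivity) e1 5
    have e3 : E ^ 6 ≤ 12 * l * m := by rw [hE6]; exact hbl
    have e4 : (5 * E) ^ 5 * (12 * l) ≤ m * (12 * l) := by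
      have e5 : (5 * E) ^ 5 * (12 * l) ≤ E ^ 6 := by
        calc (5 * E) ^ 5 * (12 * l) = E ^ 5 * (37500 * l) := by ring
          _ ≤ E ^ 5 * E := by
            apply mul_le_mul_of_nonneg_left _ (by positivity)
            linarith
          _ = E ^ 6 := by ring
      linarith
    have e6 : (5 * E) ^ 5 ≤ m := le_of_mul_le_mul_right e4 (by positivity)
    have e7 : (2 * (C.maxWidth : ℝ) + 3) ^ 5 ≤ m := le_trans e2 e6
    exact_mod_cast e7
  have hwidth : D'.maxWidth ^ 5 ≤ m := by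
    rw [hD'3]
    exact le_trans (Nat.pow_le_pow_left hD3 _) hw5
  have hn' : n < 2 ^ (l + 1) := Nat.lt_pow_succ_log_self (by norm_num) n
  have hwn : 2 * C.maxWidth + 3 ≤ 2 ^ (l + 1) := by
    calc 2 * C.maxWidth + 3 = (2 * C.maxWidth + 3) ^ 1 := (pow_one _).symm
      _ ≤ (2 * C.maxWidth + 3) ^ 5 := Nat.pow_le_pow_right (by omega) (by norm_num)
      _ ≤ m := hw5
      _ ≤ n := mb_le _ n
      _ ≤ _ := hn'.le
  have h5 := hN0 m hmN D' hD'1 hwidth
  by_contra hle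
  push Not at hle
  have h6 : D'.size ≤ 2 ^ l' ^ (2 * (k + 1)) := by
    rw [hD'2]
    have ht' : 2 ^ C.negations * (C.negations + 1) ≤ 2 ^ (l + 1) := by
      have := neg_lt_nb (rε ε) n _ htr
      omega
    refine le_trans hD4 (le_trans (narrow_size _ _ _ l _ ht' hwn hle) ?_)
    apply Nat.pow_le_pow_right (by norm_num)
    have e1 : 5 * (l + 1) ≤ l' ^ 2 := le_trans (Nat.mul_le_mul_right _ (by omega)) g3
    have e2 : l ^ k ≤ (l + 1) ^ k := Nat.pow_le_pow_left (by omega) _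
    have e3 : 1 ≤ (l + 1) ^ k := Nat.one_le_pow _ _ (by omega)
    calc l ^ k + 3 + (l + 1) + (l + 1) ≤ (l + 1) ^ k * (l + 1) + (l + 1) ^ k * (4 * (l + 1)) := by
          nlinarith
      _ = (5 * (l + 1)) * (l + 1) ^ k := by ring
      _ ≤ (5 * (l + 1)) * (5 * (l + 1)) ^ k :=
          Nat.mul_le_mul_left _ (Nat.pow_le_pow_left (by omega) _)
      _ = (5 * (l + 1)) ^ (k + 1) := by rw [pow_succ]; ring
      _ ≤ (l' ^ 2) ^ (k + 1) := Nat.pow_le_pow_left e1 _
      _ = l' ^ (2 * (k + 1)) := by rw [← pow_mul]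
  exact absurd h6 (not_le.mpr h5)

end Pool.Agent.Results.MP_2af48a_lc.FewNegations
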