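import Pool.Agent.Lib_MP_2af48a_lc.NarrowUpper
import Pool.Agent.Lib_MP_2af48a_lc.NarrowLower

open Finset Filter

namespace Pool.Agent.Results.MP_2af48a_lc.FewNegations

/-! ## A function of small depth which is hard for narrow circuits, sharp form

`R` is the number of rounds, and in every round the time interval is divided into `2 ^ e` parts.
Here `2 ^ (4 * e)` is essentially the width of the circuits. -/

open MonotoneSeparation (run edges idx fn)

/-- number of columns -/
def vw (R : ℕ) : ℕ := 2 * R + 1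

/-- square root of the gadget size -/
def vr (e : ℕ) : ℕ := 2 ^ (5 * e + 2)

/-- number of variables -/
def vM (R e : ℕ) : ℕ := (R + 3) * ((vw R * (vr e * vr e)) * (vw R * (vr e * vr e)))

lemma vw_pos (R : ℕ) : 0 < vw R := Nat.succ_pos _

lemma vrr_pos (e : ℕ) : 0 < vr e * vr e := by
  unfold vr
  positivity

lemma vrr_eq (e : ℕ) : vr e * vr e = 2 ^ (10 * e + 4) := by
  unfold vr
  rw [← pow_add]
  congr 1
  ring

/-- the function -/
def hardV (R e m : ℕ) (x : Fin m → Bool) : Bool :=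
  fn m (vw R) (vr e * vr e) (vw_pos R) (vrr_pos e) (R + 3) x

lemma hardV_zero (R e m : ℕ) : hardV R e m (fun _ => false) = false := by
  unfold hardV fn
  rw [Bool.eq_false_iff]
  intro h
  simp only [run, decide_eq_true_eq] at h
  obtain ⟨a, _, h2⟩ := h ⟨0, vw_pos R⟩
  unfold edges at h2
  split at h2 <;> exact absurd h2 (by simp)

/-- **Upper bound.** -/
theorem hardV_circuit (R e m : ℕ) : ∃ C : Circuit m, Pos C ∧ C.size ≤ 8 * vM R e ∧
    C.depth ≤ 1 + (R + 3) * (10 * e + Nat.log 2 (vw R) + 8) ∧ ∀ x, C.eval x = hardV R e m x := by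
  obtain ⟨l2, hl2⟩ : ∃ l2, l2 = Nat.log 2 (vw R) + 1 := ⟨_, rfl⟩
  have hw2 : vw R ≤ 2 ^ l2 := by
    rw [hl2]; exact (Nat.lt_pow_succ_log_self (by norm_num) _).le
  have hw2' : 2 ^ l2 ≤ 2 * vw R := by
    rw [hl2, pow_succ]
    have := Nat.pow_log_le_self 2 (vw_pos R).ne'
    omega
  obtain ⟨C, h1, h2, h3, h4⟩ := fn_circuit m (vw R) (vr e * vr e) (vw_pos R)
    (vrr_pos e) (10 * e + 4) l2 (R + 3) (vrr_eq e).le hw2
  refine ⟨C, h1, ?_, ?_, h4⟩
  · rw [h2, ← vrr_eq]
    unfold vM
    set w := vw R with hwdef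
    set M := vr e * vr e with hmdef
    have hw0 : 1 ≤ w := vw_pos R
    have hm0 : 1 ≤ M := vrr_pos e
    have e1 : (w * M) * (w * M) + (w * M) * w * M + (w * M) * 2 ^ l2 ≤ 4 * ((w * M) * (w * M)) := by
      have a1 : (w * M) * w * M = (w * M) * (w * M) := by ring
      have a2 : (w * M) * 2 ^ l2 ≤ (w * M) * (2 * (w * M)) := by
        apply Nat.mul_le_mul_left
        refine le_trans hw2' (Nat.mul_le_mul_left _ ?_)
        exact Nat.le_mul_of_pos_right _ hm0
      rw [a1]
      have a3 : (w * M) * (2 * (w * M)) = 2 * ((w * M) * (w * M)) := by ring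
      omega
    have e2 : 1 ≤ (R + 3) * (4 * ((w * M) * (w * M))) := by
      have h5 : 0 < w * M := Nat.mul_pos hw0 hm0
      exact Nat.mul_pos (Nat.succ_pos _) (Nat.mul_pos (by norm_num) (Nat.mul_pos h5 h5))
    calc 1 + (R + 3) * ((w * M) * (w * M) + (w * M) * w * M + (w * M) * 2 ^ l2)
        ≤ (R + 3) * (4 * ((w * M) * (w * M))) + (R + 3) * (4 * ((w * M) * (w * M))) :=
          Nat.add_le_add e2 (Nat.mul_le_mul_left _ e1)
      _ = 8 * ((R + 3) * ((w * M) * (w * M))) := by ring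
  · refine le_trans h3 ?_
    apply Nat.add_le_add_left
    apply Nat.mul_le_mul_left
    omega

/-- **Lower bound.** -/
theorem hardV_lower (R e m S lc : ℕ) (hm : vM R e ≤ m) (hm2 : m ≤ 2 ^ lc)
    (hS : 4 * S < vr e)
    (hbig : 20 * R * ((R * (R * lc + 2 * S + (e + 1) + 1) + 2) * (vw R + 1)) ≤ 2 ^ (4 * e))
    (C : StConnectivity.MonLayered m) (hC : ∀ x, C.eval x = hardV R e m x)
    (hwid : C.maxWidth ≤ S) : 2 ^ (e * R) < C.size := by
  have hr : vr e = 4 * 2 ^ e * 2 ^ (4 * e) := by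
    unfold vr
    rw [show 5 * e + 2 = 2 + e + 4 * e by ring, pow_add, pow_add]
    norm_num
  have key := nl_proof m (R + 2) (vw R) (vr e) (2 ^ (4 * e)) (2 ^ e) S R
    (R * lc + 2 * S + (e + 1) + 1) lc (e + 1) (vw_pos R) (vrr_pos e) C
    hC hwid hr (Nat.pow_pos (by norm_num)) (Nat.pow_pos (by norm_num)) hS le_rfl (by unfold vw; omega) hm
    (by
      refine le_trans ?_ hm2
      refine le_trans ?_ hm
      unfold vM
      set w := vw R with hw
      set M := vr e * vr e with hM
      have hw1 : 1 ≤ w := vw_pos R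
      have hm2 : 2 ≤ M := by
        rw [hM, vrr_eq]
        calc 2 = 2 ^ 1 := by norm_num
          _ ≤ 2 ^ (10 * e + 4) := Nat.pow_le_pow_right (by norm_num) (by omega)
      have h1 : w + 1 ≤ w * M := by nlinarith
      have h2 : 1 ≤ (w * M) * (w * M) := by nlinarith
      calc (R + 2) * w * M * (w + 1) + 1 ≤ (R + 2) * w * M * (w * M) + (w * M) * (w * M) :=
            Nat.add_le_add (Nat.mul_le_mul_left _ h1) h2
        _ = (R + 3) * ((w * M) * (w * M)) := by ring)
    (by rw [pow_succ]; omega)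
    le_rfl hbig
  rw [← pow_mul] at key
  exact key

end Pool.Agent.Results.MP_2af48a_lc.FewNegations
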