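import Pool.Agent.Lib_MP_2af48a_lc.UTradeoff

/-!
# Short paths: circuits
-/

open Finset Filter

namespace Pool.Agent.Results.MP_2af48a_lc.Undirected

open StConnectivity

/-- is there a walk with at most `L` arcs from `0` to `N - 1`? -/
noncomputable def near (L n : ℕ) (x : Fin n → Bool) : Bool :=
  open Classical in decide (∃ i ≤ L, Walk n x i)

section

variable {n N : ℕ}

lemma Bd_trans (x : Fin n → Bool) (k l : ℕ) (u w v : Fin N) (h1 : Bd n x N k u w)
    (h2 : Bd n x N l w v) : Bd n x N (k + l) u v := by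
  induction l generalizing v with
  | zero =>
    have : w = v := h2
    rw [← this]
    exact h1
  | succ l ih =>
    rcases h2 with h2 | ⟨w', h2, ha⟩
    · exact Or.inl (ih v h2)
    · exact Or.inr ⟨w', ih w' h2, ha⟩

lemma reachP_exact (hN : 0 < N) (l : ℕ) (hl : N ≤ 2 ^ l) (x : Fin n → Bool) (k : ℕ) (u v : Fin N) :
    exec x (reachP n N hN l k) (fun _ => false) (R3 N u ⟨0, hN⟩ v) = true ↔
      Bd n x N (2 ^ k) u v := by
  induction k generalizing u v with
  | zero =>
    have h : exec x (reachP n N hN l 0) (fun _ => false) (R3 N u ⟨0, hN⟩ v) = true ↔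
        (u = v ∨ Arc n x u v) := by
      unfold reachP initI
      rw [exec_cons, exec_nil, act_instr]
      unfold Gate.val
      simp only [Bool.false_eq_true, if_false, Bool.or_self]
      exact arcWire_val _ u v x _
    rw [h, pow_zero]
    constructor
    · rintro (h | h)
      · exact Or.inl h
      · exact Or.inr ⟨u, rfl, h⟩
    · rintro (h | ⟨w, hw, ha⟩)
      · exact Or.inl h
      · have : u = w := hw
        subst this
        exact Or.inr ha
  | succ k ih =>
    have h := sqP_spec (n := n) hN l hl x (exec x (reachP n N hN l k) (fun _ => false))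
      (fun u v => Bd n x N (2 ^ k) u v) (fun u v => ih u v) u v
    unfold reachP
    rw [exec_append, h]
    have hp : 2 ^ (k + 1) = 2 ^ k + 2 ^ k := by rw [pow_succ]; ring
    rw [hp]
    constructor
    · rintro ⟨w, h1, h2⟩
      exact Bd_trans x _ _ u w v h1 h2
    · intro hb
      exact Bd_split x _ _ u v hb

lemma Bd_walk (x : Fin n → Bool) (k : ℕ) (u v : Fin N) (h : Bd n x N k u v) :
    ∃ i ≤ k, ∃ p : ℕ → ℕ, p 0 = u ∧ p i = v ∧ ∀ t < i, Arc n x (p t) (p (t + 1)) := by
  induction k generalizing v with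
  | zero =>
    have : u = v := h
    subst this
    exact ⟨0, le_rfl, fun _ => u, rfl, rfl, fun t ht => absurd ht (Nat.not_lt_zero t)⟩
  | succ k ih =>
    rcases h with h | ⟨w, h, ha⟩
    · obtain ⟨i, hi, hp⟩ := ih v h
      exact ⟨i, by omega, hp⟩
    · obtain ⟨i, hi, p, h0, h1, h2⟩ := ih w h
      refine ⟨i + 1, by omega, fun t => if t ≤ i then p t else v, ?_, ?_, ?_⟩
      · simp [h0]
      · simp
      · intro t ht
        show Arc n x (if t ≤ i then p t else v) (if t + 1 ≤ i then p (t + 1) else v)
        by_cases hti : t < i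
        · rw [if_pos (by omega), if_pos (by omega)]
          exact h2 t hti
        · have : t = i := by omega
          subst this
          rw [if_pos le_rfl, if_neg (by omega), h1]
          exact ha

lemma walk_Bd (x : Fin n → Bool) (hN : Nat.sqrt n ≤ N) (i : ℕ) (p : ℕ → ℕ) (u : Fin N)
    (h0 : p 0 = u) (h : ∀ t < i, Arc n x (p t) (p (t + 1))) (v : Fin N) (hv : p i = v) :
    Bd n x N i u v := by
  induction i generalizing v with
  | zero =>
    have : u = v := by
      apply Fin.ext
      rw [← h0, hv]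
    exact this
  | succ i ih =>
    have ha := h i (by omega)
    have hlt : p i < N := lt_of_lt_of_le ha.1 hN
    refine Or.inr ⟨⟨p i, hlt⟩, ih (fun t ht => h t (by omega)) ⟨p i, hlt⟩ rfl, ?_⟩
    rw [hv] at ha
    exact ha

end

/-- Circuits for short paths. -/
theorem near_circuit (n k : ℕ) : ∃ C : MonCircuit n, (∀ x, C.eval x = near (2 ^ k) n x) ∧
    C.size ≤ (1 + k * (Nat.log 2 n + 2)) * ((n + 1) * (n + 1) * (n + 1)) ∧
    C.depth ≤ 1 + k * (Nat.log 2 n + 2) := by
  classical
  set N := Nat.sqrt n + 1 with hNdef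
  have hN : 0 < N := Nat.succ_pos _
  set l := Nat.log 2 n + 1 with hl
  have hNn : N ≤ n + 1 := by
    have := Nat.sqrt_le_self n
    omega
  have hNl : N ≤ 2 ^ l := by
    have h1 : n < 2 ^ l := Nat.lt_pow_succ_log_self (by norm_num) n
    omega
  have hs : Nat.sqrt n - 1 < N := by omega
  obtain ⟨C, hC1, hC2, hC3⟩ := circuit_of_program (n := n) (reachP n N hN l k)
    (by
      intro h
      have := reachP_length (n := n) hN l k
      rw [h] at this
      simp only [List.length_nil] at this
      omega)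
    (R3 N ⟨0, hN⟩ ⟨0, hN⟩ ⟨Nat.sqrt n - 1, hs⟩)
  rw [reachP_length] at hC2 hC3
  refine ⟨C, ?_, ?_, ?_⟩
  · intro x
    rw [hC1 x, Bool.eq_iff_iff, reachP_exact hN l hNl x k]
    unfold near
    rw [decide_eq_true_eq]
    constructor
    · intro h
      exact Bd_walk x _ _ _ h
    · rintro ⟨i, hi, p, h0, h1, h2⟩
      exact Bd_mono x hi _ _ (walk_Bd x (by omega) i p ⟨0, hN⟩ h0 h2 ⟨Nat.sqrt n - 1, hs⟩ h1)
  · rw [hC2]
    have e : 1 + l = Nat.log 2 n + 2 := by omega
    rw [e]
    gcongr
  · have e : 1 + l = Nat.log 2 n + 2 := by omega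
    rw [e] at hC3
    exact hC3

lemma near_of_walk {n L : ℕ} (x : Fin n → Bool) (h : ∃ i ≤ L, Walk n x i) : near L n x = true := by
  classical
  unfold near
  exact decide_eq_true h

lemma near_of_stconn {n L : ℕ} (x : Fin n → Bool) (h : stconn n x = false) :
    near L n x = false := by
  classical
  unfold near
  refine decide_eq_false ?_
  rintro ⟨i, -, hi⟩
  rw [FewNegations.walk_stconn x i hi] at h
  exact absurd h (by simp)

lemma near_zero (L m : ℕ) (hm : 4 ≤ m) : near L m (fun _ => false) = false :=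
  near_of_stconn _ (FewNegations.stconn_zero m hm)

end Pool.Agent.Results.MP_2af48a_lc.Undirected
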