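import Pool.Agent.Lib_MP_2af48a_lc.NotSharp

/-!
# Reduction to monotone functions, the other direction

If some function in NC is not in SC, then some monotone function in NC is not in SC.
-/

open Finset

namespace Pool.Agent.Results.MP_2af48a_lc.FewNegations

namespace NM

open HU (UC)

/-! ### A circuit for the monotone function -/

lemma wt_pos_iff {m : ℕ} (y : Fin m → Bool) : 1 ≤ wt y ↔ ∃ i, y i = true := by
  unfold wt
  rw [Nat.one_le_iff_ne_zero, ← Nat.pos_iff_ne_zero, Finset.card_pos]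
  constructor
  · rintro ⟨i, hi⟩
    exact ⟨i, (Finset.mem_filter.mp hi).2⟩
  · rintro ⟨i, hi⟩
    exact ⟨i, Finset.mem_filter.mpr ⟨Finset.mem_univ _, hi⟩⟩

lemma wt_full_iff {m : ℕ} (y : Fin m → Bool) : m ≤ wt y ↔ ∀ i, y i = true := by
  unfold wt
  constructor
  · intro h i
    have h1 : (univ.filter (fun i => y i = true)) = univ := by
      apply Finset.eq_univ_of_card
      apply le_antisymm
      · exact Finset.card_le_univ _
      · rw [Fintype.card_fin]; exact h
    have h2 : i ∈ univ.filter (fun i => y i = true) := by rw [h1]; exact Finset.mem_univ _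
    exact (Finset.mem_filter.mp h2).2
  · intro h
    have h1 : (univ.filter (fun i => y i = true)) = univ := by
      apply Finset.filter_true_of_mem
      intro i _
      exact h i
    rw [h1, Finset.card_univ, Fintype.card_fin]

/-- The monotone function is computed by a small and shallow circuit. -/
lemma mono_MComp (f : (n : ℕ) → (Fin n → Bool) → Bool) (n : ℕ) (C : Circuit (n / 2))
    (hC : ∀ x, C.eval x = f (n / 2) x) : ∃ t,
    MComp n 1 (2 * (n / 2 + 8 * (n / 2 + 2) ^ 4) + C.size + 3)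
      (3 + 2 * (Nat.log 2 (n / 2) + 3) ^ 2 + C.depth) t (fun _ => mono f n) := by
  refine ⟨C.negations, ?_⟩
  have a1 : MComp n (n / 2) ((n / 2) * 1) 1 ((n / 2) * 0)
      (fun (i : Fin (n / 2)) (x : Fin n → Bool) => x (fst i) && x (sec i)) :=
    MComp.family 1 1 0 (n / 2) _ (fun i =>
      (MComp.gate1 (Gate.and (.var (fst i)) (.var (sec i)) : Gate n 0) 0 (by simp [Gate.isNot])).congr
        (fun _ _ => rfl))
  have a2 : MComp n (n / 2) ((n / 2) * 1) 1 ((n / 2) * 0)
      (fun (i : Fin (n / 2)) (x : Fin n → Bool) => x (fst i) || x (sec i)) :=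
    MComp.family 1 1 0 (n / 2) _ (fun i =>
      (MComp.gate1 (Gate.or (.var (fst i)) (.var (sec i)) : Gate n 0) 0 (by simp [Gate.isNot])).congr
        (fun _ _ => rfl))
  have b1 := (a1.comp (thr_MComp (n / 2) 1)).mono
    (s' := n / 2 + 8 * (n / 2 + 2) ^ 4)
    (d' := 1 + 2 * (Nat.log 2 (n / 2) + 3) ^ 2 + C.depth) (t' := 0)
    (by omega) (by omega) (by omega)
  have b2 := (a2.comp (thr_MComp (n / 2) (n / 2))).mono
    (s' := n / 2 + 8 * (n / 2 + 2) ^ 4)
    (d' := 1 + 2 * (Nat.log 2 (n / 2) + 3) ^ 2 + C.depth) (t' := 0)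
    (by omega) (by omega) (by omega)
  have b3 := ((MComp.proj (fun i : Fin (n / 2) => (Sum.inr (fst i) : Bool ⊕ Fin n))).comp
    (MComp.ofCircuit C)).mono
    (s' := C.size)
    (d' := 1 + 2 * (Nat.log 2 (n / 2) + 3) ^ 2 + C.depth) (t' := C.negations)
    (by omega) (by omega) (by omega)
  have c1 := ((b1.par b2).par b3).comp (MComp.mux (n := 1 + 1 + 1) 0 0 1 2)
  refine (c1.mono ?_ ?_ ?_).congr (fun j x => ?_)
  · omega
  · omega
  · omega
  · show (decide (1 ≤ wt fun i => x (fst i) && x (sec i)) &&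
        decide (1 ≤ wt fun i => x (fst i) && x (sec i)) ||
      decide (n / 2 ≤ wt fun i => x (fst i) || x (sec i)) && C.eval (fun i => x (fst i))) = _
    rw [Bool.and_self, hC]
    unfold mono
    congr 1
    · apply Bool.eq_iff_iff.mpr
      simp only [decide_eq_true_eq, wt_pos_iff, Bool.and_eq_true]
    · congr 1
      apply Bool.eq_iff_iff.mpr
      simp only [decide_eq_true_eq, wt_full_iff, Bool.or_eq_true]

/-! ### From a layered circuit for the monotone function to one for `f` -/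

variable {m N W : ℕ}

/-- first wire -/
def w1 {n k : ℕ} : Gate n k → Wire n k
  | .and p _ => p
  | .or p _ => p
  | .not p => p

/-- second wire -/
def w2 {n k : ℕ} : Gate n k → Wire n k
  | .and _ q => q
  | .or _ q => q
  | .not p => p

/-- The negated variable which is needed for a wire. -/
def helper (hN : N = 2 * m) {k k' : ℕ} : Wire N k → Gate m k'
  | .const _ => .or (.const false) (.const false)
  | .var i => if hi : i.val < m then .or (.const false) (.const false) else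
      .not (.var ⟨i.val - m, by omega⟩)
  | .gate _ => .or (.const false) (.const false)

/-- Wires after the negated variables have been computed; `h` is the gate for the negated
variable. -/
def wV (_hN : N = 2 * m) {k' : ℕ} (hk : W ≤ k') (h : Fin k') : Wire N W → Wire m k'
  | .const b => .const b
  | .var i => if hi : i.val < m then .var ⟨i.val, hi⟩ else .gate h
  | .gate g => .gate ⟨g.val, by omega⟩

/-- Gates after the negated variables have been computed. -/
def gV (hN : N = 2 * m) {k' : ℕ} (hk : W ≤ k') (h1 h2 : Fin k') : Gate N W → Gate m k'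
  | .and p q => .and (wV hN hk h1 p) (wV hN hk h2 q)
  | .or p q => .or (wV hN hk h1 p) (wV hN hk h2 q)
  | .not p => .not (wV hN hk h1 p)

lemma helper_val (hN : N = 2 * m) {k k' : ℕ} (w : Wire N k) (x : Fin m → Bool)
    (v : Fin k' → Bool) (i : Fin N) (hi : ¬ i.val < m) (hw : w = .var i) :
    (helper hN w).val x v = dbl hN x i := by
  subst hw
  simp only [helper, dif_neg hi, Gate.val, Wire.val, dbl]

lemma wV_val (hN : N = 2 * m) {k' : ℕ} (hk : W ≤ k') (h : Fin k') (w : Wire N W)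
    (x : Fin m → Bool) (v : Fin k' → Bool) (u : Fin W → Bool)
    (hv : ∀ g : Fin W, v ⟨g.val, by omega⟩ = u g)
    (hh : ∀ i : Fin N, ¬ i.val < m → w = .var i → v h = dbl hN x i) :
    (wV hN hk h w).val x v = w.val (dbl hN x) u := by
  cases w with
  | const b => rfl
  | var i =>
    by_cases hi : i.val < m
    · simp only [wV, dif_pos hi, Wire.val, dbl]
    · simp only [wV, dif_neg hi, Wire.val]
      exact hh i hi rfl
  | gate g => exact hv g

lemma gV_val (hN : N = 2 * m) {k' : ℕ} (hk : W ≤ k') (h1 h2 : Fin k') (G : Gate N W)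
    (x : Fin m → Bool) (v : Fin k' → Bool) (u : Fin W → Bool)
    (hv : ∀ g : Fin W, v ⟨g.val, by omega⟩ = u g)
    (hh1 : ∀ i : Fin N, ¬ i.val < m → w1 G = .var i → v h1 = dbl hN x i)
    (hh2 : ∀ i : Fin N, ¬ i.val < m → w2 G = .var i → v h2 = dbl hN x i) :
    (gV hN hk h1 h2 G).val x v = G.val (dbl hN x) u := by
  cases G with
  | and p q =>
    show (_ && _) = (_ && _)
    rw [wV_val hN hk h1 p x v u hv hh1, wV_val hN hk h2 q x v u hv hh2]
  | or p q =>
    show (_ || _) = (_ || _)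
    rw [wV_val hN hk h1 p x v u hv hh1, wV_val hN hk h2 q x v u hv hh2]
  | not p =>
    show (!_) = (!_)
    rw [wV_val hN hk h1 p x v u hv hh1]

/-- Every layer is replaced by two layers: the first one copies the old values and computes the
negated variables. -/
def mV (hN : N = 2 * m) (C : UC N W) : UC m (3 * W) where
  L := 2 * C.L
  gate j h :=
    if j % 2 = 0 then
      if hW : h.val < W then .or (.gate h) (.const false)
      else if hW2 : h.val < 2 * W then helper hN (w1 (C.gate (j / 2) ⟨h.val - W, by omega⟩))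
      else helper hN (w2 (C.gate (j / 2) ⟨h.val - 2 * W, by omega⟩))
    else if hW : h.val < W then
      gV hN (by omega) ⟨W + h.val, by omega⟩ ⟨2 * W + h.val, by omega⟩
        (C.gate (j / 2) ⟨h.val, hW⟩)
    else .or (.const false) (.const false)
  out := ⟨C.out.val, by omega⟩

lemma mV_val (hN : N = 2 * m) (C : UC N W) (x : Fin m → Bool) (i : ℕ) :
    ∀ g : Fin W, uval (mV hN C) x (2 * i) ⟨g.val, by omega⟩ = uval C (dbl hN x) i g := by
  induction i with
  | zero => intro g; rfl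
  | succ i ih =>
    intro g
    have b1 : ¬ ((2 * i + 1) % 2 = 0) := by omega
    have b2 : (2 * i + 1) / 2 = i := by omega
    have b3 : (2 * i) % 2 = 0 := by omega
    have b4 : (2 * i) / 2 = i := by omega
    show ((mV hN C).gate (2 * i + 1) ⟨g.val, _⟩).val x (uval (mV hN C) x (2 * i + 1)) =
      (C.gate i g).val (dbl hN x) (uval C (dbl hN x) i)
    have e : (mV hN C).gate (2 * i + 1) ⟨g.val, by omega⟩ =
        gV hN (by omega) ⟨W + g.val, by omega⟩ ⟨2 * W + g.val, by omega⟩ (C.gate i g) := by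
      simp only [mV, if_neg b1, dif_pos g.isLt, b2]
    rw [e]
    apply gV_val
    · intro g'
      show ((mV hN C).gate (2 * i) ⟨g'.val, _⟩).val x (uval (mV hN C) x (2 * i)) = _
      have e1 : (mV hN C).gate (2 * i) ⟨g'.val, by omega⟩ =
          .or (.gate ⟨g'.val, by omega⟩) (.const false) := by
        simp only [mV, if_pos b3, dif_pos g'.isLt]
      rw [e1]
      show (uval (mV hN C) x (2 * i) ⟨g'.val, _⟩ || false) = _
      rw [Bool.or_false]
      exact ih g'
    · intro k hk hw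
      show ((mV hN C).gate (2 * i) ⟨W + g.val, _⟩).val x (uval (mV hN C) x (2 * i)) = _
      have c1 : ¬ (W + g.val < W) := by omega
      have c2 : W + g.val < 2 * W := by omega
      have c3 : W + g.val - W = g.val := by omega
      have e1 : (mV hN C).gate (2 * i) ⟨W + g.val, by omega⟩ =
          helper hN (w1 (C.gate i g)) := by
        simp only [mV, if_pos b3, dif_neg c1, dif_pos c2, b4, c3]
      rw [e1]
      exact helper_val hN _ x _ k hk hw
    · intro k hk hw
      show ((mV hN C).gate (2 * i) ⟨2 * W + g.val, _⟩).val x (uval (mV hN C) x (2 * i)) = _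
      have c1 : ¬ (2 * W + g.val < W) := by omega
      have c2 : ¬ (2 * W + g.val < 2 * W) := by omega
      have c3 : 2 * W + g.val - 2 * W = g.val := by omega
      have e1 : (mV hN C).gate (2 * i) ⟨2 * W + g.val, by omega⟩ =
          helper hN (w2 (C.gate i g)) := by
        simp only [mV, if_pos b3, dif_neg c1, dif_neg c2, b4, c3]
      rw [e1]
      exact helper_val hN _ x _ k hk hw

/-- A layered circuit for the function `x ↦ D (x, ¬ x)`. -/
lemma dbl_layered (hN : N = 2 * m) (C : Layered N) : ∃ D : Layered m,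
    (∀ x, D.eval x = C.eval (dbl hN x)) ∧ D.maxWidth ≤ 3 * C.maxWidth ∧
      D.size ≤ 2 * C.size * (3 * C.maxWidth) := by
  obtain ⟨E, d1, d2, d3, d4⟩ := HU.exists_trim C
  have ho : E.out.val < C.maxWidth := lt_of_lt_of_le E.out.isLt (d4 _ le_rfl)
  let U := HU.toU E C.maxWidth ⟨E.out.val, ho⟩
  have hU : ∀ y, uval U y U.L U.out = C.eval y := by
    intro y
    have := toU_eval E C.maxWidth ⟨E.out.val, ho⟩ d4 rfl y
    rw [d1] at this
    exact this
  have hUL : U.L = E.layers := rfl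
  have hL : (mV hN U).L = (2 * E.layers - 1) + 1 := by
    show 2 * U.L = _
    rw [hUL]
    omega
  refine ⟨HU.toL (mV hN U) (2 * E.layers - 1), fun x => ?_, HU.toL_maxWidth _ _, ?_⟩
  · rw [toL_eval (mV hN U) _ hL]
    exact (mV_val hN U x U.L U.out).trans (hU _)
  · rw [HU.toL_size]
    apply Nat.mul_le_mul_right
    omega

end NM

/-- Circuits for `f` give circuits for the monotone function. -/
theorem NC_mono {f : (n : ℕ) → (Fin n → Bool) → Bool} {r : ℕ → ℕ} (h : NC r f) :
    ∃ r', NC r' (NM.mono f) := by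
  obtain ⟨C, hC, ⟨a, c, hs⟩, ⟨b, d, hd⟩, -⟩ := h
  choose t ht using fun n => NM.mono_MComp f n (C (n / 2)) (hC (n / 2))
  choose D h1 h2 h3 h4 using fun n => (ht n).circuit
  refine ⟨fun n => (D n).negations, D, h1,
    ⟨(22 + 2 * a) * 4 ^ (4 + c), 4 + c, fun n => ?_⟩,
    ⟨(6 + 2 * b) * 4 ^ (2 + d), 2 + d, fun n => ?_⟩, fun n => le_rfl⟩
  · show (D n).size ≤ _
    have e0 := h2 n
    have e1 : (C (n / 2)).size ≤ a * (n / 2) ^ c + a := hs (n / 2)
    have e2 : (n / 2) ^ c ≤ (n + 3) ^ (4 + c) :=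
      le_trans (Nat.pow_le_pow_left (by omega) _) (Nat.pow_le_pow_right (by omega) (by omega))
    have e3 : (n / 2 + 2) ^ 4 ≤ (n + 3) ^ (4 + c) :=
      le_trans (Nat.pow_le_pow_left (by omega) _) (Nat.pow_le_pow_right (by omega) (by omega))
    have e4 : n + 3 ≤ (n + 3) ^ (4 + c) := Nat.le_self_pow (by omega) _
    have e5 : a * (n / 2) ^ c ≤ a * (n + 3) ^ (4 + c) := Nat.mul_le_mul_left _ e2
    have e6 : a * 1 ≤ a * (n + 3) ^ (4 + c) := Nat.mul_le_mul_left _ (by omega)
    have e7 := pow_three_le n (4 + c)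
    have e8 : (D n).size ≤ (22 + 2 * a) * (n + 3) ^ (4 + c) := by
      have e9 : (22 + 2 * a) * (n + 3) ^ (4 + c) = 22 * (n + 3) ^ (4 + c) +
          a * (n + 3) ^ (4 + c) + a * (n + 3) ^ (4 + c) := by ring
      omega
    calc (D n).size ≤ (22 + 2 * a) * (n + 3) ^ (4 + c) := e8
      _ ≤ (22 + 2 * a) * (4 ^ (4 + c) * n ^ (4 + c) + 4 ^ (4 + c)) := Nat.mul_le_mul_left _ e7
      _ = _ := by ring
  · show (D n).depth ≤ _
    have e0 := h3 n
    have hl : Nat.log 2 (n / 2) ≤ Nat.log 2 n := Nat.log_mono_right (Nat.div_le_self _ _)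
    have e1 : (C (n / 2)).depth ≤ b * Nat.log 2 (n / 2) ^ d + b := hd (n / 2)
    have e2 : Nat.log 2 (n / 2) ^ d ≤ (Nat.log 2 n + 3) ^ (2 + d) :=
      le_trans (Nat.pow_le_pow_left (by omega) _) (Nat.pow_le_pow_right (by omega) (by omega))
    have e3 : (Nat.log 2 (n / 2) + 3) ^ 2 ≤ (Nat.log 2 n + 3) ^ (2 + d) :=
      le_trans (Nat.pow_le_pow_left (by omega) _) (Nat.pow_le_pow_right (by omega) (by omega))
    have e4 : Nat.log 2 n + 3 ≤ (Nat.log 2 n + 3) ^ (2 + d) := Nat.le_self_pow (by omega) _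
    have e5 : b * Nat.log 2 (n / 2) ^ d ≤ b * (Nat.log 2 n + 3) ^ (2 + d) :=
      Nat.mul_le_mul_left _ e2
    have e6 : b * 1 ≤ b * (Nat.log 2 n + 3) ^ (2 + d) := Nat.mul_le_mul_left _ (by omega)
    have e7 := pow_three_le (Nat.log 2 n) (2 + d)
    have e8 : (D n).depth ≤ (6 + 2 * b) * (Nat.log 2 n + 3) ^ (2 + d) := by
      have e9 : (6 + 2 * b) * (Nat.log 2 n + 3) ^ (2 + d) = 6 * (Nat.log 2 n + 3) ^ (2 + d) +
          b * (Nat.log 2 n + 3) ^ (2 + d) + b * (Nat.log 2 n + 3) ^ (2 + d) := by ring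
      omega
    calc (D n).depth ≤ (6 + 2 * b) * (Nat.log 2 n + 3) ^ (2 + d) := e8
      _ ≤ (6 + 2 * b) * (4 ^ (2 + d) * Nat.log 2 n ^ (2 + d) + 4 ^ (2 + d)) :=
        Nat.mul_le_mul_left _ e7
      _ = _ := by ring

/-- Layered circuits for the monotone function give layered circuits for `f`. -/
theorem SC_of_mono {f : (n : ℕ) → (Fin n → Bool) → Bool} {r : ℕ → ℕ} (h : SC r (NM.mono f)) :
    ∃ r', SC r' f := by
  obtain ⟨C, hC, ⟨a, c, hs⟩, ⟨b, d, hd⟩, -⟩ := h
  choose D h1 h2 h3 using fun m => NM.dbl_layered (rfl : 2 * m = 2 * m) (C (2 * m))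
  -- the width
  have w1 : ∀ m, (C (2 * m)).maxWidth ≤ 2 * b * 4 ^ d * (m + 1) ^ d := by
    intro m
    have e1 : (C (2 * m)).maxWidth ≤ b * Nat.log 2 (2 * m) ^ d + b := hd (2 * m)
    have e2 : Nat.log 2 (2 * m) ≤ 4 * (m + 1) := le_trans (Nat.log_le_self _ _) (by omega)
    have e3 : Nat.log 2 (2 * m) ^ d ≤ 4 ^ d * (m + 1) ^ d := by
      rw [← mul_pow]; exact Nat.pow_le_pow_left e2 _
    have e4 : 1 ≤ 4 ^ d * (m + 1) ^ d := Nat.one_le_iff_ne_zero.mpr (by positivity)
    calc (C (2 * m)).maxWidth ≤ b * (4 ^ d * (m + 1) ^ d) + b * (4 ^ d * (m + 1) ^ d) :=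
          le_trans e1 (Nat.add_le_add (Nat.mul_le_mul_left _ e3)
            (by simpa using Nat.mul_le_mul_left b e4))
      _ = _ := by ring
  refine ⟨fun m => (D m).negations, D, fun m x => ?_,
    ⟨2 * (2 * a * 4 ^ c) * (3 * (2 * b * 4 ^ d)) * 4 ^ (c + d), c + d, fun m => ?_⟩,
    ⟨3 * (b * 2 ^ d + 2 * b), d, fun m => ?_⟩, fun m => le_rfl⟩
  · rw [h1, hC, NM.mono_dbl]
  · show (D m).size ≤ _
    have e1 : (C (2 * m)).size ≤ a * (2 * m) ^ c + a := hs (2 * m)
    have e2 : (2 * m) ^ c ≤ 4 ^ c * (m + 1) ^ c := by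
      rw [← mul_pow]; exact Nat.pow_le_pow_left (by omega) _
    have e3 : 1 ≤ 4 ^ c * (m + 1) ^ c := Nat.one_le_iff_ne_zero.mpr (by positivity)
    have e4 : (C (2 * m)).size ≤ 2 * a * 4 ^ c * (m + 1) ^ c := by
      calc (C (2 * m)).size ≤ a * (4 ^ c * (m + 1) ^ c) + a * (4 ^ c * (m + 1) ^ c) :=
            le_trans e1 (Nat.add_le_add (Nat.mul_le_mul_left _ e2)
              (by simpa using Nat.mul_le_mul_left a e3))
        _ = _ := by ring
    have e5 : (m + 1) ^ (c + d) ≤ 4 ^ (c + d) * m ^ (c + d) + 4 ^ (c + d) :=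
      le_trans (Nat.pow_le_pow_left (by omega) _) (pow_three_le m (c + d))
    calc (D m).size ≤ 2 * (C (2 * m)).size * (3 * (C (2 * m)).maxWidth) := h3 m
      _ ≤ 2 * (2 * a * 4 ^ c * (m + 1) ^ c) * (3 * (2 * b * 4 ^ d * (m + 1) ^ d)) :=
        Nat.mul_le_mul (Nat.mul_le_mul_left _ e4) (Nat.mul_le_mul_left _ (w1 m))
      _ = 2 * (2 * a * 4 ^ c) * (3 * (2 * b * 4 ^ d)) * (m + 1) ^ (c + d) := by
        rw [pow_add]; ring
      _ ≤ 2 * (2 * a * 4 ^ c) * (3 * (2 * b * 4 ^ d)) *
          (4 ^ (c + d) * m ^ (c + d) + 4 ^ (c + d)) := Nat.mul_le_mul_left _ e5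
      _ = _ := by ring
  · show (D m).maxWidth ≤ _
    have e1 : (C (2 * m)).maxWidth ≤ b * Nat.log 2 (2 * m) ^ d + b := hd (2 * m)
    have e3 : Nat.log 2 (2 * m) ≤ Nat.log 2 m + 1 := by
      rcases Nat.eq_zero_or_pos m with hm | hm
      · subst hm; simp
      · rw [mul_comm, Nat.log_mul_base (by norm_num) (by omega)]
    have e4 : Nat.log 2 (2 * m) ^ d ≤ 2 ^ d * Nat.log 2 m ^ d + 1 := by
      rcases Nat.eq_zero_or_pos (Nat.log 2 m) with hl | hl
      · rw [hl] at e3
        calc Nat.log 2 (2 * m) ^ d ≤ 1 ^ d := Nat.pow_le_pow_left (by omega) _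
          _ = 1 := one_pow _
          _ ≤ _ := Nat.le_add_left _ _
      · calc Nat.log 2 (2 * m) ^ d ≤ (2 * Nat.log 2 m) ^ d := Nat.pow_le_pow_left (by omega) _
          _ = 2 ^ d * Nat.log 2 m ^ d := mul_pow _ _ _
          _ ≤ _ := Nat.le_add_right _ _
    have e5 : b * Nat.log 2 (2 * m) ^ d ≤ b * (2 ^ d * Nat.log 2 m ^ d + 1) :=
      Nat.mul_le_mul_left _ e4
    have e6 := h2 m
    have e7 : b * (2 ^ d * Nat.log 2 m ^ d + 1) = b * 2 ^ d * Nat.log 2 m ^ d + b := by ring
    have e8 : 3 * (b * 2 ^ d + 2 * b) * Nat.log 2 m ^ d =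
        3 * (b * 2 ^ d * Nat.log 2 m ^ d) + 6 * b * Nat.log 2 m ^ d := by ring
    have e9 : 0 ≤ 6 * b * Nat.log 2 m ^ d := Nat.zero_le _
    have e10 : 0 ≤ b * 2 ^ d := Nat.zero_le _
    omega

/-- If NC is not contained in SC, then some monotone function is in NC and not in SC. -/
theorem exists_monotone' (h : ∃ f : (n : ℕ) → (Fin n → Bool) → Bool,
    (∃ r, NC r f) ∧ ∀ r, ¬ SC r f) : ∃ f : (n : ℕ) → (Fin n → Bool) → Bool,
    (∀ (n : ℕ) (x z : Fin n → Bool), (∀ i, x i = true → z i = true) → f n x = true →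
      f n z = true) ∧ (∃ r, NC r f) ∧ ∀ r, ¬ SC r f := by
  obtain ⟨f, ⟨r, h1⟩, h2⟩ := h
  refine ⟨NM.mono f, NM.mono_monotone f, NC_mono h1, fun r' h3 => ?_⟩
  obtain ⟨r'', h4⟩ := SC_of_mono h3
  exact h2 r'' h4

end Pool.Agent.Results.MP_2af48a_lc.FewNegations
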