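import Pool.Agent.Lib_MP_2af48a_lc.SCWin
import Pool.Agent.Lib_MP_2af48a_lc.HazSmallSC

/-!
# Monotone functions in SC need only `log n - e` NOT gates
-/

open Finset

namespace Pool.Agent.Results.MP_2af48a_lc.FewNegations

namespace RP

/-! ### From programs to layered circuits -/

section Conv

variable {n : ℕ}

/-- widths -/
def pw (w : ℕ) : ℕ → ℕ
  | 0 => 0
  | _ + 1 => w

/-- a location as a wire -/
def toWire (w : ℕ) : Loc n → Wire n w
  | .cst b => .const b
  | .var i => .var i
  | .reg r => if h : r < w then .gate ⟨r, h⟩ else .const false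

/-- an operation as a gate -/
def toGate (w : ℕ) : Op n → Gate n w
  | .and a b => .and (toWire w a) (toWire w b)
  | .or a b => .or (toWire w a) (toWire w b)
  | .not a => .not (toWire w a)

lemma toWire_val (w : ℕ) (x : Fin n → Bool) (v : Fin w → Bool) (s : ℕ → Bool)
    (h : ∀ k : Fin w, v k = s k.val) (l : Loc n) (hl : l.Sat (fun r => r < w)) :
    (toWire w l).val x v = l.val x s := by
  cases l with
  | cst b => rfl
  | var i => rfl
  | reg r =>
    have hr : r < w := hl
    have e : toWire w (Loc.reg r : Loc n) = .gate ⟨r, hr⟩ := dif_pos hr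
    rw [e]
    exact h ⟨r, hr⟩

lemma toGate_val (w : ℕ) (x : Fin n → Bool) (v : Fin w → Bool) (s : ℕ → Bool)
    (h : ∀ k : Fin w, v k = s k.val) (o : Op n) (ho : o.Sat (fun r => r < w)) :
    (toGate w o).val x v = o.val x s := by
  cases o with
  | and a b =>
    change ((toWire w a).val x v && (toWire w b).val x v) = (a.val x s && b.val x s)
    rw [toWire_val w x v s h a ho.1, toWire_val w x v s h b ho.2]
  | or a b =>
    change ((toWire w a).val x v || (toWire w b).val x v) = (a.val x s || b.val x s)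
    rw [toWire_val w x v s h a ho.1, toWire_val w x v s h b ho.2]
  | not a =>
    change (!((toWire w a).val x v)) = !(a.val x s)
    rw [toWire_val w x v s h a ho]

lemma toGate_isNot (w : ℕ) (o : Op n) : (toGate w o).isNot = o.isNot := by
  cases o <;> rfl

/-- the gates of one layer -/
def stepGate (w : ℕ) (I : Option (Instr n)) (k : Fin w) : Gate n w :=
  match I with
  | some I => if k.val = I.dest then toGate w I.op else .or (.gate k) (.gate k)
  | none => .or (.gate k) (.gate k)

/-- the gates of the circuit -/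
def cgate (P : List (Instr n)) (w : ℕ) : (j : ℕ) → Fin (pw w (j + 1)) → Gate n (pw w j)
  | 0 => fun _ => .or (.const false) (.const false)
  | j + 1 => fun k => stepGate w P[j]? k

/-- the layered circuit of a program -/
def ofP (P : List (Instr n)) (w : ℕ) (hw : 0 < w) : Layered n where
  layers := P.length + 1
  width := pw w
  width_zero := rfl
  gate := cgate P w
  out := ⟨0, hw⟩

lemma ofP_val {A : ℕ → Prop} (P : List (Instr n)) (w : ℕ) (hw : 0 < w) (hP : OK A w P)
    (x : Fin n → Bool) : ∀ j ≤ P.length, ∀ k : Fin w,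
    (ofP P w hw).val x (j + 1) k = exec x (P.take j) (fun _ => false) k.val := by
  intro j
  induction j with
  | zero =>
    intro _ k
    rfl
  | succ j ih =>
    intro hj k
    have hj' : j < P.length := hj
    rw [List.take_succ_eq_append_getElem hj', exec_append, exec_single]
    change (stepGate w P[j]? k).val x ((ofP P w hw).val x (j + 1)) = _
    rw [List.getElem?_eq_getElem hj']
    unfold stepGate act
    simp only
    obtain ⟨_, h1, h2⟩ := hP P[j] (List.getElem_mem hj')
    by_cases hk : k.val = P[j].dest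
    · rw [if_pos hk, if_pos hk]
      exact toGate_val w x _ _ (fun k => ih (by omega) k) _ h2
    · rw [if_neg hk, if_neg hk]
      change ((ofP P w hw).val x (j + 1) k || (ofP P w hw).val x (j + 1) k) = _
      rw [Bool.or_self, ih (by omega)]

lemma ofP_eval {A : ℕ → Prop} (P : List (Instr n)) (w : ℕ) (hw : 0 < w) (hP : OK A w P)
    (x : Fin n → Bool) : (ofP P w hw).eval x = exec x P (fun _ => false) 0 := by
  have h := ofP_val P w hw hP x P.length le_rfl ⟨0, hw⟩
  rw [List.take_length] at h
  exact h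

lemma ofP_size (P : List (Instr n)) (w : ℕ) (hw : 0 < w) :
    (ofP P w hw).size = (P.length + 1) * w := by
  unfold Layered.size
  change ∑ j ∈ range (P.length + 1), w = _
  rw [Finset.sum_const, Finset.card_range, smul_eq_mul]

lemma ofP_maxWidth (P : List (Instr n)) (w : ℕ) (hw : 0 < w) : (ofP P w hw).maxWidth ≤ w := by
  unfold Layered.maxWidth
  apply Finset.sup_le
  intro j _
  exact le_rfl

/-- number of NOT operations -/
def oneNot (I : Option (Instr n)) : ℕ :=
  match I with
  | some I => if I.op.isNot = true then 1 else 0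
  | none => 0

lemma sum_oneNot (P : List (Instr n)) : ∑ j ∈ range P.length, oneNot P[j]? = nots P := by
  induction P with
  | nil => rfl
  | cons I P ih =>
    rw [List.length_cons, Finset.sum_range_succ']
    have e : ∑ j ∈ range P.length, oneNot (I :: P)[j + 1]? = ∑ j ∈ range P.length,
        oneNot P[j]? := by
      apply Finset.sum_congr rfl
      intro j _
      rw [List.getElem?_cons_succ]
    rw [e, ih, List.getElem?_cons_zero]
    unfold nots
    rw [List.countP_cons]
    rfl

lemma stepGate_isNot (w : ℕ) (I : Option (Instr n)) :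
    (univ.filter (fun k : Fin w => (stepGate w I k).isNot = true)).card ≤ oneNot I := by
  cases I with
  | none =>
    refine le_of_eq ?_
    change _ = 0
    rw [Finset.card_eq_zero, Finset.filter_eq_empty_iff]
    intro k _
    simp [stepGate, Gate.isNot]
  | some I =>
    unfold oneNot
    simp only
    by_cases h : I.op.isNot = true
    · rw [if_pos h]
      rw [Finset.card_le_one]
      intro k hk k' hk'
      rw [Finset.mem_filter] at hk hk'
      have key : ∀ k : Fin w, (stepGate w (some I) k).isNot = true → k.val = I.dest := by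
        intro k hk
        by_contra h2
        unfold stepGate at hk
        simp only [if_neg h2] at hk
        exact absurd hk (by simp [Gate.isNot])
      exact Fin.ext ((key k hk.2).trans (key k' hk'.2).symm)
    · rw [if_neg h]
      refine le_of_eq ?_
      rw [Finset.card_eq_zero, Finset.filter_eq_empty_iff]
      intro k _ hk
      unfold stepGate at hk
      simp only at hk
      by_cases h2 : k.val = I.dest
      · rw [if_pos h2, toGate_isNot] at hk
        exact h hk
      · rw [if_neg h2] at hk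
        exact absurd hk (by simp [Gate.isNot])

lemma ofP_negations (P : List (Instr n)) (w : ℕ) (hw : 0 < w) :
    (ofP P w hw).negations ≤ nots P := by
  unfold Layered.negations
  change ∑ j ∈ range (P.length + 1), (univ.filter (fun g : Fin (pw w (j + 1)) =>
    (cgate P w j g).isNot = true)).card ≤ _
  rw [Finset.sum_range_succ', ← sum_oneNot]
  have e : (univ.filter (fun g : Fin (pw w (0 + 1)) => (cgate P w 0 g).isNot = true)).card = 0 := by
    rw [Finset.card_eq_zero, Finset.filter_eq_empty_iff]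
    intro k _
    simp [cgate, Gate.isNot]
  rw [e, Nat.add_zero]
  apply Finset.sum_le_sum
  intro j _
  exact stepGate_isNot w P[j]?

/-- From programs to layered circuits. -/
theorem PC.toLayered {w L t : ℕ} {f : (Fin n → Bool) → Bool} (h : PC n w L t f) (hw : 0 < w) :
    ∃ D : Layered n, (∀ x, D.eval x = f x) ∧ D.size ≤ (L + 1) * w ∧ D.maxWidth ≤ w ∧
      D.negations ≤ t := by
  obtain ⟨P, h1, h2, h3, h4⟩ := h n (fun i => .var i) 0 (fun i => trivial)
  rw [Nat.zero_add] at h3
  refine ⟨ofP P w hw, fun x => ?_, ?_, ofP_maxWidth P w hw, le_trans (ofP_negations P w hw) h2⟩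
  · rw [ofP_eval P w hw h3, h4]
    rfl
  · rw [ofP_size]
    exact Nat.mul_le_mul_right _ (Nat.succ_le_succ h1)

end Conv

/-! ### Polynomial bounds -/

/-- bounded by a polynomial in `g n` -/
def PB (g s : ℕ → ℕ) : Prop := ∃ a c, ∀ n, s n ≤ a * (g n + 1) ^ c

lemma PB.of {g s : ℕ → ℕ} (h : ∃ a c : ℕ, ∀ n, s n ≤ a * g n ^ c + a) : PB g s := by
  obtain ⟨a, c, h⟩ := h
  refine ⟨2 * a, c, fun n => le_trans (h n) ?_⟩
  have h1 : a * g n ^ c ≤ a * (g n + 1) ^ c :=
    Nat.mul_le_mul_left _ (Nat.pow_le_pow_left (Nat.le_succ _) _)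
  have h2 : a * 1 ≤ a * (g n + 1) ^ c := Nat.mul_le_mul_left _ (Nat.one_le_pow _ _ (by omega))
  have h3 : 2 * a * (g n + 1) ^ c = a * (g n + 1) ^ c + a * (g n + 1) ^ c := by ring
  omega

lemma PB.to {g s : ℕ → ℕ} (h : PB g s) : ∃ a c : ℕ, ∀ n, s n ≤ a * g n ^ c + a := by
  obtain ⟨a, c, h⟩ := h
  refine ⟨a * 2 ^ c, c, fun n => le_trans (h n) ?_⟩
  have h1 : (g n + 1) ^ c ≤ 2 ^ c * g n ^ c + 2 ^ c := by
    rcases Nat.eq_zero_or_pos (g n) with h0 | h0
    · rw [h0, Nat.zero_add, one_pow]
      exact le_trans Nat.one_le_two_pow (Nat.le_add_left _ _)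
    · calc (g n + 1) ^ c ≤ (2 * g n) ^ c := Nat.pow_le_pow_left (by omega) _
        _ = 2 ^ c * g n ^ c := mul_pow _ _ _
        _ ≤ _ := Nat.le_add_right _ _
  calc a * (g n + 1) ^ c ≤ a * (2 ^ c * g n ^ c + 2 ^ c) := Nat.mul_le_mul_left _ h1
    _ = _ := by ring

lemma PB.le {g s s' : ℕ → ℕ} (h : PB g s) (hs : ∀ n, s' n ≤ s n) : PB g s' := by
  obtain ⟨a, c, h⟩ := h
  exact ⟨a, c, fun n => le_trans (hs n) (h n)⟩

lemma PB.const (g : ℕ → ℕ) (a : ℕ) : PB g (fun _ => a) := ⟨a, 0, fun n => by simp⟩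

lemma PB.self (g : ℕ → ℕ) : PB g g := ⟨1, 1, fun n => by simp⟩

lemma PB.mul {g s s' : ℕ → ℕ} (h : PB g s) (h' : PB g s') : PB g (fun n => s n * s' n) := by
  obtain ⟨a, c, h⟩ := h
  obtain ⟨a', c', h'⟩ := h'
  refine ⟨a * a', c + c', fun n => ?_⟩
  calc s n * s' n ≤ (a * (g n + 1) ^ c) * (a' * (g n + 1) ^ c') := Nat.mul_le_mul (h n) (h' n)
    _ = _ := by ring

lemma PB.add {g s s' : ℕ → ℕ} (h : PB g s) (h' : PB g s') : PB g (fun n => s n + s' n) := by
  obtain ⟨a, c, h⟩ := h
  obtain ⟨a', c', h'⟩ := h'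
  refine ⟨a + a', c + c', fun n => ?_⟩
  have h1 : (g n + 1) ^ c ≤ (g n + 1) ^ (c + c') :=
    Nat.pow_le_pow_right (by omega) (by omega)
  have h2 : (g n + 1) ^ c' ≤ (g n + 1) ^ (c + c') :=
    Nat.pow_le_pow_right (by omega) (by omega)
  calc s n + s' n ≤ a * (g n + 1) ^ c + a' * (g n + 1) ^ c' := Nat.add_le_add (h n) (h' n)
    _ ≤ a * (g n + 1) ^ (c + c') + a' * (g n + 1) ^ (c + c') :=
      Nat.add_le_add (Nat.mul_le_mul_left _ h1) (Nat.mul_le_mul_left _ h2)
    _ = _ := by ring

lemma PB.pow {g s : ℕ → ℕ} (h : PB g s) (k : ℕ) : PB g (fun n => s n ^ k) := by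
  induction k with
  | zero => exact (PB.const g 1).le (fun n => by simp)
  | succ k ih => exact (ih.mul h).le (fun n => by rw [pow_succ])

lemma PB.log : PB (fun n => n) (fun n => Nat.log 2 n) :=
  (PB.self _).le (fun n => Nat.log_le_self 2 n)

lemma PB.trans {g s s' : ℕ → ℕ} (h : PB g s) (h' : PB s s') : PB g s' := by
  obtain ⟨a, c, h'⟩ := h'
  exact (((PB.const g a).mul ((h.add (PB.const g 1)).pow c))).le h'

/-- Monotone functions in SC need few NOT gates, given that the threshold functions have circuits of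
logarithmic depth without NOT gates. -/
theorem SC_few_not' (hV : ∃ a : ℕ, ∀ n K : ℕ, ∃ C : Circuit n, (∀ g, (C.gate g).isNot = false) ∧
      C.depth ≤ a * Nat.log 2 n + a ∧ ∀ x, C.eval x = decide (K ≤ wt x))
    (e : ℕ) (f : (n : ℕ) → (Fin n → Bool) → Bool)
    (hf : ∀ (n : ℕ) (x y : Fin n → Bool), (∀ i, x i = true → y i = true) → f n x = true →
      f n y = true) (h : ∃ r, SC r f) : SC (fun n => Nat.log 2 n - e) f := by
  obtain ⟨a, hV⟩ := hV
  obtain ⟨r, C, hC, hs, hd, -⟩ := h
  have key : ∀ n, ∃ D : Layered n, (∀ x, D.eval x = f n x) ∧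
      D.size ≤ (4 ^ Nat.log 2 n * ((8 * ((C n).size + 1) * (C n).maxWidth + 1) ^ (2 ^ (e + 1)) *
        2 ^ (a * Nat.log 2 n + a + 1) + 8) + 1) * (a * Nat.log 2 n + a + 1 +
        2 ^ (e + 1) * (4 * (C n).maxWidth + 2) + 4 * Nat.log 2 n) ∧
      D.maxWidth ≤ a * Nat.log 2 n + a + 1 +
        2 ^ (e + 1) * (4 * (C n).maxWidth + 2) + 4 * Nat.log 2 n ∧
      D.negations ≤ Nat.log 2 n - e := by
    intro n
    obtain ⟨E, e1, e2, e3, e4⟩ := HU.exists_trim (C n)
    have hn : n < 2 ^ (Nat.log 2 n - e) * 2 ^ (e + 1) := by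
      rw [← pow_add]
      calc n < 2 ^ (Nat.log 2 n + 1) := Nat.lt_pow_succ_log_self (by norm_num) n
        _ ≤ _ := Nat.pow_le_pow_right (by norm_num) (by omega)
    have h0 : ∀ K, PC n (a * Nat.log 2 n + a + 1) (2 ^ (a * Nat.log 2 n + a + 1)) 0
        (fun x => decide (K ≤ wt x)) := by
      intro K
      obtain ⟨T, t1, t2, t3⟩ := hV n K
      refine ((PC.circuit T t1).mono (by omega) ?_ le_rfl).congr t3
      exact le_trans (Nat.sub_le _ _) (Nat.pow_le_pow_right (by norm_num) (by omega))
    have h1 := window_PC (2 ^ (e + 1)) (Nat.log 2 n - e) hn E e4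
      (fun x y hxy hx => by
        rw [e1, hC] at hx ⊢
        exact hf n x y hxy hx) (by omega) Nat.one_le_two_pow h0
    obtain ⟨D, d1, d2, d3, d4⟩ := (h1.mono (w' := a * Nat.log 2 n + a + 1 +
        2 ^ (e + 1) * (4 * (C n).maxWidth + 2) + 4 * Nat.log 2 n)
        (L' := 4 ^ Nat.log 2 n * ((8 * ((C n).size + 1) * (C n).maxWidth + 1) ^ (2 ^ (e + 1)) *
        2 ^ (a * Nat.log 2 n + a + 1) + 8)) (by omega) (by gcongr <;> omega)
        le_rfl).toLayered (by omega)
    exact ⟨D, fun x => (d1 x).trans ((e1 x).trans (hC n x)), d2, d3, d4⟩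
  choose D h1 h2 h3 h4 using key
  have b1 : PB (fun n => n) (fun n => (C n).size) := PB.of hs
  have b2 : PB (fun n => Nat.log 2 n) (fun n => (C n).maxWidth) := PB.of hd
  have b3 : PB (fun n => n) (fun n => (C n).maxWidth) := PB.log.trans b2
  have b4 : PB (fun n => n) (fun n => 2 ^ Nat.log 2 n) :=
    ⟨1, 1, fun n => by
      rw [pow_one, Nat.one_mul]
      rcases Nat.eq_zero_or_pos n with h | h
      · subst h
        simp
      · exact le_trans (Nat.pow_log_le_self 2 (by omega)) (Nat.le_succ n)⟩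
  have b5 : PB (fun n => Nat.log 2 n) (fun n => a * Nat.log 2 n + a + 1 +
      2 ^ (e + 1) * (4 * (C n).maxWidth + 2) + 4 * Nat.log 2 n) :=
    ((((((PB.const _ a).mul (PB.self _)).add (PB.const _ a)).add (PB.const _ 1)).add
      ((PB.const _ _).mul (((PB.const _ 4).mul b2).add (PB.const _ 2)))).add
      ((PB.const _ 4).mul (PB.self _)))
  have b6 : PB (fun n => n) (fun n => (4 ^ Nat.log 2 n * ((8 * ((C n).size + 1) *
      (C n).maxWidth + 1) ^ (2 ^ (e + 1)) * 2 ^ (a * Nat.log 2 n + a + 1) + 8) + 1)) := by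
    have c1 : PB (fun n => n) (fun n => 4 ^ Nat.log 2 n) :=
      (b4.mul b4).le (fun n => by
        rw [← mul_pow]
        exact Nat.pow_le_pow_left (by norm_num) _)
    have c2 : PB (fun n => n) (fun n => 2 ^ (a * Nat.log 2 n + a + 1)) :=
      ((PB.const _ (2 ^ (a + 1))).mul (b4.pow a)).le (fun n => by
        rw [← pow_mul, ← pow_add]
        exact Nat.pow_le_pow_right (by norm_num) (by
          rw [Nat.mul_comm a]
          omega))
    exact (c1.mul ((((((PB.const _ 8).mul (b1.add (PB.const _ 1))).mul b3).add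
      (PB.const _ 1)).pow _).mul c2 |>.add (PB.const _ 8))).add (PB.const _ 1)
  exact ⟨D, h1, ((b6.mul (PB.log.trans b5)).le h2).to, (b5.le h3).to, h4⟩

end RP

end Pool.Agent.Results.MP_2af48a_lc.FewNegations
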