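import Pool.Agent.Lib_MP_2af48a_lc.NotVal
import Pool.Agent.Lib_MP_2af48a_lc.NotMono2
import Pool.Agent.Lib_MP_2af48a_lc.SCFinal

/-!
# SC, NC and `log n - e` NOT gates
-/

open Finset Filter

namespace Pool.Agent.Results.MP_2af48a_lc.FewNegations

lemma le_of_imp {n : ℕ} {x y : Fin n → Bool} (h : ∀ i, x i = true → y i = true) : x ≤ y := by
  intro i
  have := h i
  revert this
  cases x i <;> cases y i <;> simp

lemma imp_of_le {n : ℕ} {x y : Fin n → Bool} (h : x ≤ y) : ∀ i, x i = true → y i = true := by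
  intro i
  have := h i
  revert this
  cases x i <;> cases y i <;> simp

lemma monotone_of_imp {n : ℕ} {f : (Fin n → Bool) → Bool}
    (h : ∀ x y, (∀ i, x i = true → y i = true) → f x = true → f y = true) : Monotone f := by
  intro x y hxy
  have := h x y (imp_of_le hxy)
  revert this
  cases f x <;> cases f y <;> simp

lemma imp_of_monotone {n : ℕ} {f : (Fin n → Bool) → Bool} (h : Monotone f) :
    ∀ x y, (∀ i, x i = true → y i = true) → f x = true → f y = true := by
  intro x y hxy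
  have := h (le_of_imp hxy)
  revert this
  cases f x <;> cases f y <;> simp

lemma few_arith (n c T s A' : ℕ) (hs : 1 ≤ s) (hT : 1 ≤ T) (e0 : A' ≤ (n + 2) ^ 23) :
    2 * T * ((n + 1) ^ c * (A' + 2 * s)) + 7 * T + 1 ≤ T * (n + 2) ^ (c + 27) * s := by
  have e1 : (n + 1) ^ c ≤ (n + 2) ^ c := Nat.pow_le_pow_left (by omega) c
  have e2 : 1 ≤ (n + 2) ^ c := Nat.one_le_pow _ _ (by omega)
  have e3 : 16 ≤ (n + 2) ^ 4 := Nat.pow_le_pow_left (show 2 ≤ n + 2 by omega) 4
  have e4 : 1 ≤ (n + 2) ^ 23 := Nat.one_le_pow _ _ (by omega)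
  have e6 : (n + 2) ^ (c + 27) = (n + 2) ^ c * ((n + 2) ^ 4 * (n + 2) ^ 23) := by
    rw [← pow_add, ← pow_add]
  rw [e6]
  clear e6
  generalize (n + 2) ^ c = P at e1 e2 ⊢
  generalize (n + 1) ^ c = P' at e1 ⊢
  generalize (n + 2) ^ 4 = F at e3 ⊢
  generalize (n + 2) ^ 23 = A at e0 e4 ⊢
  have a1 : 2 * T * (P' * (A' + 2 * s)) ≤ 2 * T * (P * (A + 2 * s)) :=
    Nat.mul_le_mul_left _ (Nat.mul_le_mul e1 (by omega))
  have a3 : T ≤ T * P * (A * s) := by
    have : T * 1 ≤ T * (P * (A * s)) := Nat.mul_le_mul_left _ (Nat.one_le_iff_ne_zero.mpr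
      (by positivity))
    calc T = T * 1 := by ring
      _ ≤ T * (P * (A * s)) := this
      _ = T * P * (A * s) := by ring
  have a4 : A + 2 * s ≤ 3 * (A * s) := by
    have b1 : A * 1 ≤ A * s := Nat.mul_le_mul_left _ hs
    have b2 : 1 * s ≤ A * s := Nat.mul_le_mul_right _ e4
    omega
  have a5 : 2 * T * (P * (A + 2 * s)) ≤ 6 * (T * P * (A * s)) := by
    calc 2 * T * (P * (A + 2 * s)) ≤ 2 * T * (P * (3 * (A * s))) :=
          Nat.mul_le_mul_left _ (Nat.mul_le_mul_left _ a4)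
      _ = 6 * (T * P * (A * s)) := by ring
  have a6 : 16 * (T * P * (A * s)) ≤ F * (T * P * (A * s)) := Nat.mul_le_mul_right _ e3
  have a7 : F * (T * P * (A * s)) = T * (P * (F * A)) * s := by ring
  rw [← a7]
  generalize T * P * (A * s) = X at *
  generalize 2 * T * (P' * (A' + 2 * s)) = Y at *
  generalize 2 * T * (P * (A + 2 * s)) = Z at *
  generalize F * X = U at *
  omega

lemma few_depth (n c t d D : ℕ) (h : D ≤ 3 * VT.dep n + c * d + 3 * t + 1) :
    D ≤ c * d + 12 * Nat.log 2 n + 3 * t + 28 := by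
  unfold VT.dep at h
  generalize c * d = m at *
  omega

/-- If `n < 2 ^ t * c`, then `t` NOT gates suffice for monotone functions of `n` variables. -/
theorem few_nots (n c t : ℕ) (hc : n < 2 ^ t * c) (C : Circuit n) (hC : Monotone C.eval) :
    ∃ D : Circuit n, (∀ x, D.eval x = C.eval x) ∧ D.negations ≤ t ∧
      D.size ≤ 2 ^ t * (n + 2) ^ (c + 27) * C.size ∧
      D.depth ≤ c * C.depth + 12 * Nat.log 2 n + 3 * t + 28 := by
  have hs : 1 ≤ C.size := Nat.lt_of_le_of_lt (Nat.zero_le _) C.out.isLt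
  obtain ⟨R, h1, h2⟩ := exists_rail C
  obtain ⟨D, h3, h4, h5, h6⟩ :=
    (window_comp c t hc C.eval R (imp_of_monotone hC) h1 h2
      (fun K => VT.thr_shallow n K)).circuit
  exact ⟨D, h3, h6, le_trans h4 (few_arith n c (2 ^ t) C.size (2 * 3 ^ VT.dep n) hs
    Nat.one_le_two_pow (VT.three_pow_dep n)), few_depth n c t C.depth _ h5⟩

/-- The classes of monotone functions do not change if only `log n - e` NOT gates are allowed. -/
theorem NC_nots (e : ℕ) (f : (n : ℕ) → (Fin n → Bool) → Bool) (hf : ∀ n, Monotone (f n))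
    (h : ∃ r, NC r f) : NC (fun n => Nat.log 2 n - e) f :=
  NC_few_not e f (fun n => imp_of_monotone (hf n)) h

theorem SC_nots (e : ℕ) (f : (n : ℕ) → (Fin n → Bool) → Bool) (hf : ∀ n, Monotone (f n))
    (h : ∃ r, SC r f) : SC (fun n => Nat.log 2 n - e) f :=
  RP.SC_few_not' VT.shallow_thr e f (fun n => imp_of_monotone (hf n)) h

/-- SC is not contained in NC if and only if this is so for monotone functions and at most
`log n - e` NOT gates. -/
theorem SC_NC_nots (e : ℕ) :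
    (∃ f : (n : ℕ) → (Fin n → Bool) → Bool, (∃ r, SC r f) ∧ ∀ r, ¬ NC r f) ↔
    ∃ f : (n : ℕ) → (Fin n → Bool) → Bool, (∀ n, Monotone (f n)) ∧
      SC (fun n => Nat.log 2 n - e) f ∧ ¬ NC (fun n => Nat.log 2 n - e) f := by
  constructor
  · intro h
    obtain ⟨f, h1, h2, h3⟩ := exists_monotone h
    have hf : ∀ n, Monotone (f n) := fun n => monotone_of_imp (h1 n)
    exact ⟨f, hf, SC_nots e f hf h2, h3 _⟩
  · rintro ⟨f, h1, h2, h3⟩
    exact ⟨f, ⟨_, h2⟩, fun r h4 => h3 (NC_nots e f h1 ⟨r, h4⟩)⟩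

/-- NC is not contained in SC if and only if this is so for monotone functions and at most
`log n - e` NOT gates. -/
theorem NC_SC_nots (e : ℕ) :
    (∃ f : (n : ℕ) → (Fin n → Bool) → Bool, (∃ r, NC r f) ∧ ∀ r, ¬ SC r f) ↔
    ∃ f : (n : ℕ) → (Fin n → Bool) → Bool, (∀ n, Monotone (f n)) ∧
      NC (fun n => Nat.log 2 n - e) f ∧ ¬ SC (fun n => Nat.log 2 n - e) f := by
  constructor
  · intro h
    obtain ⟨f, h1, h2, h3⟩ := exists_monotone' h
    have hf : ∀ n, Monotone (f n) := fun n => monotone_of_imp (h1 n)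
    exact ⟨f, hf, NC_nots e f hf h2, h3 _⟩
  · rintro ⟨f, h1, h2, h3⟩
    exact ⟨f, ⟨_, h2⟩, fun r h4 => h3 (SC_nots e f h1 ⟨r, h4⟩)⟩

end Pool.Agent.Results.MP_2af48a_lc.FewNegations
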