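import Pool.Agent.Lib_MP_2af48a_lc.FewNegDefs

open Finset

namespace Pool.Agent.Results.MP_2af48a_lc.FewNegations

/-! ### Circuits with several outputs -/

/-- Boolean circuits with `m` output wires. -/
structure MC (n m : ℕ) where
  size : ℕ
  gate : (g : Fin size) → Gate n g
  out : Fin m → Wire n size

/-- Value of gate number `g`. -/
def MC.gateVal {n m : ℕ} (C : MC n m) (x : Fin n → Bool) (g : ℕ) (hg : g < C.size) : Bool :=
  (C.gate ⟨g, hg⟩).val x (fun g' => C.gateVal x g'.val (lt_trans g'.isLt hg))
termination_by g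
decreasing_by exact g'.isLt

/-- Depth of gate number `g`. -/
def MC.gateDepth {n m : ℕ} (C : MC n m) (g : ℕ) (hg : g < C.size) : ℕ :=
  (C.gate ⟨g, hg⟩).depth (fun g' => C.gateDepth g'.val (lt_trans g'.isLt hg))
termination_by g
decreasing_by exact g'.isLt

/-- The functions computed. -/
def MC.val {n m : ℕ} (C : MC n m) (x : Fin n → Bool) (j : Fin m) : Bool :=
  (C.out j).val x (fun g => C.gateVal x g.val g.isLt)

/-- All outputs have depth at most `d`. -/
def MC.DepthLE {n m : ℕ} (C : MC n m) (d : ℕ) : Prop :=
  ∀ j, (C.out j).depth (fun g => C.gateDepth g.val g.isLt) ≤ d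

/-- The number of NOT gates. -/
def MC.negs {n m : ℕ} (C : MC n m) : ℕ := ∑ g : Fin C.size, if (C.gate g).isNot = true then 1 else 0

/-! Translation of wires and gates. -/

/-- replace the variables and the gates of a wire -/
def Wire.tr {n m h g : ℕ} (o : Fin m → Wire n g) (f : Fin h → Wire n g) : Wire m h → Wire n g
  | .const b => .const b
  | .var j => o j
  | .gate u => f u

/-- replace the variables and the gates of a gate -/
def Gate.tr {n m h g : ℕ} (o : Fin m → Wire n g) (f : Fin h → Wire n g) : Gate m h → Gate n g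
  | .and a b => .and (a.tr o f) (b.tr o f)
  | .or a b => .or (a.tr o f) (b.tr o f)
  | .not a => .not (a.tr o f)

lemma Wire.tr_val {n m h g : ℕ} (o : Fin m → Wire n g) (f : Fin h → Wire n g) (x : Fin n → Bool)
    (v : Fin g → Bool) (w : Wire m h) :
    (w.tr o f).val x v = w.val (fun j => (o j).val x v) (fun u => (f u).val x v) := by
  cases w <;> rfl

lemma Gate.tr_val {n m h g : ℕ} (o : Fin m → Wire n g) (f : Fin h → Wire n g) (x : Fin n → Bool)
    (v : Fin g → Bool) (G : Gate m h) :
    (G.tr o f).val x v = G.val (fun j => (o j).val x v) (fun u => (f u).val x v) := by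
  cases G <;> simp only [Gate.tr, Gate.val, Wire.tr_val]

lemma Gate.tr_isNot {n m h g : ℕ} (o : Fin m → Wire n g) (f : Fin h → Wire n g) (G : Gate m h) :
    (G.tr o f).isNot = G.isNot := by
  cases G <;> rfl

lemma Wire.tr_depth {n m h g : ℕ} (o : Fin m → Wire n g) (f : Fin h → Wire n g) (d : Fin g → ℕ)
    (d' : Fin h → ℕ) (D : ℕ) (ho : ∀ j, (o j).depth d ≤ D) (hf : ∀ u, (f u).depth d ≤ d' u + D)
    (w : Wire m h) : (w.tr o f).depth d ≤ w.depth d' + D := by
  cases w with
  | const b => exact Nat.zero_le _
  | var j => exact le_trans (ho j) (Nat.le_add_left _ _)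
  | gate u => exact hf u

lemma Gate.tr_depth {n m h g : ℕ} (o : Fin m → Wire n g) (f : Fin h → Wire n g) (d : Fin g → ℕ)
    (d' : Fin h → ℕ) (D : ℕ) (ho : ∀ j, (o j).depth d ≤ D) (hf : ∀ u, (f u).depth d ≤ d' u + D)
    (G : Gate m h) : (G.tr o f).depth d ≤ G.depth d' + D := by
  cases G with
  | and a b =>
    have h1 := Wire.tr_depth o f d d' D ho hf a
    have h2 := Wire.tr_depth o f d d' D ho hf b
    change max ((a.tr o f).depth d) ((b.tr o f).depth d) + 1 ≤ max (a.depth d') (b.depth d') + 1 + D
    omega
  | or a b =>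
    have h1 := Wire.tr_depth o f d d' D ho hf a
    have h2 := Wire.tr_depth o f d d' D ho hf b
    change max ((a.tr o f).depth d) ((b.tr o f).depth d) + 1 ≤ max (a.depth d') (b.depth d') + 1 + D
    omega
  | not a =>
    have h1 := Wire.tr_depth o f d d' D ho hf a
    change (a.tr o f).depth d + 1 ≤ a.depth d' + 1 + D
    omega

/-- view a wire in a larger circuit -/
def Wire.up {n k g : ℕ} (h : k ≤ g) (w : Wire n k) : Wire n g :=
  w.tr .var (fun u => .gate ⟨u.val, lt_of_lt_of_le u.isLt h⟩)

lemma Wire.up_val {n k g : ℕ} (h : k ≤ g) (w : Wire n k) (x : Fin n → Bool) (v : Fin g → Bool) :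
    (w.up h).val x v = w.val x (fun u => v ⟨u.val, lt_of_lt_of_le u.isLt h⟩) := by
  unfold Wire.up
  rw [Wire.tr_val]
  rfl

lemma Wire.up_depth {n k g : ℕ} (h : k ≤ g) (w : Wire n k) (d : Fin g → ℕ) :
    (w.up h).depth d = w.depth (fun u => d ⟨u.val, lt_of_lt_of_le u.isLt h⟩) := by
  cases w <;> rfl

/-! ### Gluing two circuits: the variables of `B` are replaced by wires of `A` -/

section Glue

variable {n m m' k : ℕ} (A : MC n m) (B : MC m' k) (o : Fin m' → Wire n A.size)

/-- the wires of `B` in the glued circuit -/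
def glueW (g : ℕ) (h : ℕ) (hg : A.size + h ≤ g) : Wire m' h → Wire n g :=
  Wire.tr (fun j => (o j).up (by omega)) (fun u => .gate ⟨A.size + u.val, by have := u.isLt; omega⟩)

/-- the gates of `B` in the glued circuit -/
def glueG (g : ℕ) (j : ℕ) (hj : j < B.size) (hg : A.size + j ≤ g) : Gate n g :=
  (B.gate ⟨j, hj⟩).tr (fun j => (o j).up (by omega))
    (fun u => .gate ⟨A.size + u.val, by have := u.isLt; simp only at this; omega⟩)

/-- the gates of the glued circuit -/
def glueGate (g : ℕ) (hg : g < A.size + B.size) : Gate n g :=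
  if h : g < A.size then A.gate ⟨g, h⟩ else glueG A B o g (g - A.size) (by omega) (by omega)

/-- the glued circuit -/
def glue {l : ℕ} (out : Fin l → Wire n (A.size + B.size)) : MC n l where
  size := A.size + B.size
  gate := fun g => glueGate A B o g.val g.isLt
  out := out

variable {l : ℕ} (out : Fin l → Wire n (A.size + B.size))

lemma glue_val_left (x : Fin n → Bool) (g : ℕ) (hg : g < A.size) :
    (glue A B o out).gateVal x g (by change g < A.size + B.size; omega) = A.gateVal x g hg := by
  induction g using Nat.strong_induction_on with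
  | _ g ih =>
    rw [MC.gateVal, MC.gateVal]
    change (glueGate A B o g (by omega)).val x _ = _
    unfold glueGate
    rw [dif_pos hg]
    congr 1
    funext u
    exact ih u.val u.isLt _

lemma glueGate_right (j : ℕ) (hj : j < B.size) (hg : A.size + j < A.size + B.size) :
    glueGate A B o (A.size + j) hg = glueG A B o (A.size + j) j hj le_rfl := by
  unfold glueGate
  rw [dif_neg (by omega)]
  have e : A.size + j - A.size = j := by omega
  congr 1

/-- the values of the wires of `A` which replace the variables of `B` -/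
def oval (x : Fin n → Bool) (j : Fin m') : Bool := (o j).val x (fun g => A.gateVal x g.val g.isLt)

lemma glue_val_right (x : Fin n → Bool) (j : ℕ) (hj : j < B.size) :
    (glue A B o out).gateVal x (A.size + j) (by change _ < A.size + B.size; omega) =
      B.gateVal (oval A o x) j hj := by
  induction j using Nat.strong_induction_on with
  | _ j ih =>
    rw [MC.gateVal, MC.gateVal]
    change (glueGate A B o (A.size + j) (by omega)).val x _ = _
    rw [glueGate_right A B o j hj]
    unfold glueG
    rw [Gate.tr_val]
    congr 1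
    · funext i
      rw [Wire.up_val]
      unfold oval
      congr 1
      funext u
      exact glue_val_left A B o out x u.val u.isLt
    · funext u
      exact ih u.val u.isLt _

lemma glue_depth_left (g : ℕ) (hg : g < A.size) :
    (glue A B o out).gateDepth g (by change g < A.size + B.size; omega) = A.gateDepth g hg := by
  induction g using Nat.strong_induction_on with
  | _ g ih =>
    rw [MC.gateDepth, MC.gateDepth]
    change (glueGate A B o g (by omega)).depth _ = _
    unfold glueGate
    rw [dif_pos hg]
    congr 1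
    funext u
    exact ih u.val u.isLt _

lemma glue_depth_right (D : ℕ) (hD : ∀ j, (o j).depth (fun g => A.gateDepth g.val g.isLt) ≤ D)
    (j : ℕ) (hj : j < B.size) :
    (glue A B o out).gateDepth (A.size + j) (by change _ < A.size + B.size; omega) ≤
      B.gateDepth j hj + D := by
  induction j using Nat.strong_induction_on with
  | _ j ih =>
    rw [MC.gateDepth, MC.gateDepth]
    change (glueGate A B o (A.size + j) (by omega)).depth _ ≤ _
    rw [glueGate_right A B o j hj]
    unfold glueG
    apply Gate.tr_depth
    · intro i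
      rw [Wire.up_depth]
      refine le_trans (le_of_eq ?_) (hD i)
      congr 1
      funext u
      exact glue_depth_left A B o out u.val u.isLt
    · intro u
      exact ih u.val u.isLt _

lemma glue_negs : (glue A B o out).negs = A.negs + B.negs := by
  unfold MC.negs
  change ∑ g : Fin (A.size + B.size),
    (if (glueGate A B o g.val g.isLt).isNot = true then 1 else 0) = _
  rw [Fin.sum_univ_add]
  congr 1
  · apply Finset.sum_congr rfl
    intro g _
    have h : (Fin.castAdd B.size g).val < A.size := g.isLt
    have e : glueGate A B o (Fin.castAdd B.size g).val (Fin.castAdd B.size g).isLt =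
        A.gate ⟨(Fin.castAdd B.size g).val, h⟩ := by
      unfold glueGate
      rw [dif_pos h]
    rw [e]
    rfl
  · apply Finset.sum_congr rfl
    intro g _
    have e : glueGate A B o (Fin.natAdd A.size g).val (Fin.natAdd A.size g).isLt =
        glueG A B o (A.size + g.val) g.val g.isLt le_rfl :=
      glueGate_right A B o g.val g.isLt _
    rw [e]
    unfold glueG
    rw [Gate.tr_isNot]

end Glue

/-! ### Operations -/

/-- composition -/
def MC.comp {n m k : ℕ} (A : MC n m) (B : MC m k) : MC n k :=
  glue A B A.out (fun j => glueW A A.out (A.size + B.size) B.size le_rfl (B.out j))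

lemma MC.comp_size {n m k : ℕ} (A : MC n m) (B : MC m k) :
    (A.comp B).size = A.size + B.size := rfl

lemma MC.comp_negs {n m k : ℕ} (A : MC n m) (B : MC m k) :
    (A.comp B).negs = A.negs + B.negs := glue_negs _ _ _ _

lemma MC.comp_val {n m k : ℕ} (A : MC n m) (B : MC m k) (x : Fin n → Bool) (j : Fin k) :
    (A.comp B).val x j = B.val (A.val x) j := by
  unfold MC.val
  change (glueW A A.out (A.size + B.size) B.size le_rfl (B.out j)).val x _ = _
  unfold glueW
  rw [Wire.tr_val]
  congr 1
  · funext i
    rw [Wire.up_val]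
    congr 1
    funext u
    exact glue_val_left A B A.out _ x u.val u.isLt
  · funext u
    exact glue_val_right A B A.out _ x u.val u.isLt

lemma MC.comp_depth {n m k : ℕ} (A : MC n m) (B : MC m k) (d e : ℕ) (hA : A.DepthLE d)
    (hB : B.DepthLE e) : (A.comp B).DepthLE (e + d) := by
  intro j
  change (glueW A A.out (A.size + B.size) B.size le_rfl (B.out j)).depth _ ≤ _
  refine le_trans ?_ (Nat.add_le_add_right (hB j) d)
  unfold glueW
  apply Wire.tr_depth
  · intro i
    rw [Wire.up_depth]
    refine le_trans (le_of_eq ?_) (hA i)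
    congr 1
    funext u
    exact glue_depth_left A B A.out _ u.val u.isLt
  · intro u
    exact glue_depth_right A B A.out _ d hA u.val u.isLt

/-- outputs which are constants or variables -/
def MC.proj {n m : ℕ} (o : Fin m → Bool ⊕ Fin n) : MC n m where
  size := 0
  gate := fun g => Fin.elim0 g
  out := fun j => match o j with
    | Sum.inl b => .const b
    | Sum.inr i => .var i

lemma MC.proj_size {n m : ℕ} (o : Fin m → Bool ⊕ Fin n) : (MC.proj o).size = 0 := rfl

lemma MC.proj_negs {n m : ℕ} (o : Fin m → Bool ⊕ Fin n) : (MC.proj o).negs = 0 := by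
  unfold MC.negs
  change ∑ g : Fin 0, _ = 0
  simp

lemma MC.proj_val {n m : ℕ} (o : Fin m → Bool ⊕ Fin n) (x : Fin n → Bool) (j : Fin m) :
    (MC.proj o).val x j = Sum.elim (fun b => b) x (o j) := by
  unfold MC.val MC.proj
  simp only
  cases o j <;> rfl

lemma MC.proj_depth {n m : ℕ} (o : Fin m → Bool ⊕ Fin n) : (MC.proj o).DepthLE 0 := by
  intro j
  unfold MC.proj
  simp only
  cases o j <;> exact le_rfl

/-- two circuits side by side -/
def MC.par {n m k : ℕ} (A : MC n m) (B : MC n k) : MC n (m + k) :=
  glue A B .var (Fin.append (fun j => (A.out j).up (Nat.le_add_right _ _))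
    (fun j => glueW A .var (A.size + B.size) B.size le_rfl (B.out j)))

lemma MC.par_size {n m k : ℕ} (A : MC n m) (B : MC n k) :
    (A.par B).size = A.size + B.size := rfl

lemma MC.par_negs {n m k : ℕ} (A : MC n m) (B : MC n k) :
    (A.par B).negs = A.negs + B.negs := glue_negs _ _ _ _

lemma MC.par_val {n m k : ℕ} (A : MC n m) (B : MC n k) (x : Fin n → Bool) :
    (A.par B).val x = Fin.append (A.val x) (B.val x) := by
  funext j
  refine Fin.addCases (fun i => ?_) (fun i => ?_) j
  · have h : (A.par B).out (Fin.castAdd k i) = (A.out i).up (Nat.le_add_right A.size B.size) :=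
      Fin.append_left (fun j => (A.out j).up (Nat.le_add_right A.size B.size))
        (fun j => glueW A .var (A.size + B.size) B.size le_rfl (B.out j)) i
    refine (congrArg (fun w : Wire n (A.par B).size => w.val x
      (fun g => (A.par B).gateVal x g.val g.isLt)) h).trans ?_
    refine (Wire.up_val (Nat.le_add_right A.size B.size) (A.out i) x
      (fun g => (A.par B).gateVal x g.val g.isLt)).trans ?_
    rw [Fin.append_left]
    unfold MC.val
    congr 1
    funext u
    exact glue_val_left A B .var _ x u.val u.isLt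
  · have h : (A.par B).out (Fin.natAdd m i) =
        glueW A .var (A.size + B.size) B.size le_rfl (B.out i) :=
      Fin.append_right (fun j => (A.out j).up (Nat.le_add_right A.size B.size))
        (fun j => glueW A .var (A.size + B.size) B.size le_rfl (B.out j)) i
    refine (congrArg (fun w : Wire n (A.par B).size => w.val x
      (fun g => (A.par B).gateVal x g.val g.isLt)) h).trans ?_
    refine (Wire.tr_val (fun j => (Wire.var j : Wire n A.size).up (by omega))
      (fun u : Fin B.size => (Wire.gate ⟨A.size + u.val, by have := u.isLt; omega⟩ :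
        Wire n (A.size + B.size))) x
      (fun g => (A.par B).gateVal x g.val g.isLt) (B.out i)).trans ?_
    rw [Fin.append_right]
    unfold MC.val
    congr 1
    funext u
    exact glue_val_right A B .var _ x u.val u.isLt

lemma MC.par_depth {n m k : ℕ} (A : MC n m) (B : MC n k) (d : ℕ) (hA : A.DepthLE d)
    (hB : B.DepthLE d) : (A.par B).DepthLE d := by
  intro j
  refine Fin.addCases (fun i => ?_) (fun i => ?_) j
  · have h : (A.par B).out (Fin.castAdd k i) = (A.out i).up (Nat.le_add_right A.size B.size) :=
      Fin.append_left (fun j => (A.out j).up (Nat.le_add_right A.size B.size))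
        (fun j => glueW A .var (A.size + B.size) B.size le_rfl (B.out j)) i
    refine le_trans (le_of_eq ((congrArg (fun w : Wire n (A.par B).size => w.depth
      (fun g => (A.par B).gateDepth g.val g.isLt)) h).trans ?_)) (hA i)
    refine (Wire.up_depth (Nat.le_add_right A.size B.size) (A.out i)
      (fun g => (A.par B).gateDepth g.val g.isLt)).trans ?_
    congr 1
    funext u
    exact glue_depth_left A B .var _ u.val u.isLt
  · have h : (A.par B).out (Fin.natAdd m i) =
        glueW A .var (A.size + B.size) B.size le_rfl (B.out i) :=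
      Fin.append_right (fun j => (A.out j).up (Nat.le_add_right A.size B.size))
        (fun j => glueW A .var (A.size + B.size) B.size le_rfl (B.out j)) i
    refine le_trans (le_of_eq (congrArg (fun w : Wire n (A.par B).size => w.depth
      (fun g => (A.par B).gateDepth g.val g.isLt)) h)) ?_
    refine le_trans ?_ (hB i)
    refine le_trans (Wire.tr_depth (fun j => (Wire.var j : Wire n A.size).up (by omega))
      (fun u : Fin B.size => (Wire.gate ⟨A.size + u.val, by have := u.isLt; omega⟩ :
        Wire n (A.size + B.size))) (fun g => (A.par B).gateDepth g.val g.isLt)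
      (fun g => B.gateDepth g.val g.isLt) 0 ?_ ?_ (B.out i)) (le_of_eq (Nat.add_zero _))
    · intro j
      exact le_rfl
    · intro u
      exact glue_depth_right A B .var _ 0 (fun j => le_rfl) u.val u.isLt

/-- choose outputs -/
def MC.sel {n m k : ℕ} (A : MC n m) (s : Fin k → Fin m) : MC n k where
  size := A.size
  gate := A.gate
  out := fun j => A.out (s j)

lemma MC.sel_gateVal {n m k : ℕ} (A : MC n m) (s : Fin k → Fin m) (x : Fin n → Bool) (g : ℕ)
    (hg : g < A.size) : (A.sel s).gateVal x g hg = A.gateVal x g hg := by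
  induction g using Nat.strong_induction_on with
  | _ g ih =>
    rw [MC.gateVal, MC.gateVal]
    congr 1
    funext u
    exact ih u.val u.isLt _

lemma MC.sel_gateDepth {n m k : ℕ} (A : MC n m) (s : Fin k → Fin m) (g : ℕ)
    (hg : g < A.size) : (A.sel s).gateDepth g hg = A.gateDepth g hg := by
  induction g using Nat.strong_induction_on with
  | _ g ih =>
    rw [MC.gateDepth, MC.gateDepth]
    congr 1
    funext u
    exact ih u.val u.isLt _

lemma MC.sel_val {n m k : ℕ} (A : MC n m) (s : Fin k → Fin m) (x : Fin n → Bool) (j : Fin k) :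
    (A.sel s).val x j = A.val x (s j) := by
  unfold MC.val
  change (A.out (s j)).val x _ = _
  congr 1
  funext u
  exact A.sel_gateVal s x u.val u.isLt

lemma MC.sel_size {n m k : ℕ} (A : MC n m) (s : Fin k → Fin m) : (A.sel s).size = A.size := rfl

lemma MC.sel_negs {n m k : ℕ} (A : MC n m) (s : Fin k → Fin m) : (A.sel s).negs = A.negs := rfl

lemma MC.sel_depth {n m k : ℕ} (A : MC n m) (s : Fin k → Fin m) (d : ℕ) (hA : A.DepthLE d) :
    (A.sel s).DepthLE d := by
  intro j
  refine le_trans (le_of_eq ?_) (hA (s j))
  change (A.out (s j)).depth _ = _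
  congr 1
  funext u
  exact A.sel_gateDepth s u.val u.isLt

/-! ### Families of functions -/

/-- The functions `f j` are computed by one circuit of size at most `s` and depth at most `d` with
at most `t` NOT gates. -/
def MComp (n m s d t : ℕ) (f : Fin m → (Fin n → Bool) → Bool) : Prop :=
  ∃ C : MC n m, (∀ x j, C.val x j = f j x) ∧ C.size ≤ s ∧ C.DepthLE d ∧ C.negs ≤ t

lemma MComp.mono {n m s d t s' d' t' : ℕ} {f : Fin m → (Fin n → Bool) → Bool}
    (h : MComp n m s d t f) (hs : s ≤ s') (hd : d ≤ d') (ht : t ≤ t') : MComp n m s' d' t' f := by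
  obtain ⟨C, h1, h2, h3, h4⟩ := h
  exact ⟨C, h1, le_trans h2 hs, fun j => le_trans (h3 j) hd, le_trans h4 ht⟩

lemma MComp.congr {n m s d t : ℕ} {f g : Fin m → (Fin n → Bool) → Bool}
    (h : MComp n m s d t f) (hfg : ∀ j x, f j x = g j x) : MComp n m s d t g := by
  obtain ⟨C, h1, h2⟩ := h
  exact ⟨C, fun x j => (h1 x j).trans (hfg j x), h2⟩

/-- constants and variables -/
lemma MComp.proj {n m : ℕ} (o : Fin m → Bool ⊕ Fin n) :
    MComp n m 0 0 0 (fun j x => Sum.elim (fun b => b) x (o j)) :=
  ⟨MC.proj o, fun x j => MC.proj_val o x j, le_rfl, MC.proj_depth o, (MC.proj_negs o).le⟩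

/-- composition -/
lemma MComp.comp {n m k s d t s' d' t' : ℕ} {f : Fin m → (Fin n → Bool) → Bool}
    {g : Fin k → (Fin m → Bool) → Bool} (hf : MComp n m s d t f) (hg : MComp m k s' d' t' g) :
    MComp n k (s + s') (d + d') (t + t') (fun j x => g j (fun i => f i x)) := by
  obtain ⟨A, a1, a2, a3, a4⟩ := hf
  obtain ⟨B, b1, b2, b3, b4⟩ := hg
  refine ⟨A.comp B, fun x j => ?_, ?_, ?_, ?_⟩
  · rw [MC.comp_val, b1]
    congr 1
    funext i
    exact a1 x i
  · rw [MC.comp_size]
    omega
  · intro j
    have := MC.comp_depth A B d d' a3 b3 j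
    omega
  · rw [MC.comp_negs]
    omega

/-- side by side -/
lemma MComp.par {n m k s d t s' t' : ℕ} {f : Fin m → (Fin n → Bool) → Bool}
    {g : Fin k → (Fin n → Bool) → Bool} (hf : MComp n m s d t f) (hg : MComp n k s' d t' g) :
    MComp n (m + k) (s + s') d (t + t') (Fin.append f g) := by
  obtain ⟨A, a1, a2, a3, a4⟩ := hf
  obtain ⟨B, b1, b2, b3, b4⟩ := hg
  refine ⟨A.par B, fun x j => ?_, ?_, MC.par_depth A B d a3 b3, ?_⟩
  · rw [MC.par_val]
    refine Fin.addCases (fun i => ?_) (fun i => ?_) j
    · rw [Fin.append_left, Fin.append_left, a1]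
    · rw [Fin.append_right, Fin.append_right, b1]
  · rw [MC.par_size]
    omega
  · rw [MC.par_negs]
    omega

/-- choose outputs -/
lemma MComp.sel {n m k s d t : ℕ} {f : Fin m → (Fin n → Bool) → Bool} (hf : MComp n m s d t f)
    (e : Fin k → Fin m) : MComp n k s d t (fun j => f (e j)) := by
  obtain ⟨A, a1, a2, a3, a4⟩ := hf
  exact ⟨A.sel e, fun x j => by rw [MC.sel_val, a1], a2, A.sel_depth e d a3, a4⟩

/-- a family -/
lemma MComp.family {n : ℕ} (s d t : ℕ) (k : ℕ) (f : Fin k → (Fin n → Bool) → Bool)
    (h : ∀ j, MComp n 1 s d t (fun _ => f j)) : MComp n k (k * s) d (k * t) f := by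
  induction k with
  | zero =>
    refine (MComp.proj (n := n) (fun j : Fin 0 => Fin.elim0 j)).mono ?_ ?_ ?_ |>.congr
      (fun j => Fin.elim0 j) <;> simp
  | succ k ih =>
    have h1 := ih (fun j => f j.castSucc) (fun j => h _)
    have h2 := (h1.par (h (Fin.last k))).mono (s' := (k + 1) * s) (t' := (k + 1) * t)
      (by rw [Nat.succ_mul]) le_rfl (by rw [Nat.succ_mul])
    refine h2.congr (fun j x => ?_)
    refine Fin.addCases (m := k) (n := 1) (fun i => ?_) (fun i => ?_) j
    · rw [Fin.append_left]
      rfl
    · rw [Fin.append_right]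
      have : Fin.natAdd k i = Fin.last k := by
        apply Fin.ext
        simp
      rw [this]

/-- one gate -/
lemma MComp.gate1 {n : ℕ} (G : Gate n 0) (t : ℕ) (ht : (if G.isNot = true then 1 else 0) ≤ t) :
    MComp n 1 1 1 t (fun _ x => G.val x (fun u => Fin.elim0 u)) := by
  have hw : ∀ w : Wire n 0, ∀ d : Fin 0 → ℕ, w.depth d = 0 := by
    intro w d
    cases w with
    | const b => rfl
    | var i => rfl
    | gate u => exact Fin.elim0 u
  have hG : ∀ d : Fin 0 → ℕ, G.depth d = 1 := by
    intro d
    cases G <;> simp [Gate.depth, hw]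
  refine ⟨⟨1, fun g => G.tr .var (fun u => Fin.elim0 u), fun _ => .gate ⟨0, by omega⟩⟩,
    fun x j => ?_, le_rfl, fun j => ?_, ?_⟩
  · change MC.gateVal _ x 0 _ = _
    rw [MC.gateVal]
    change (G.tr .var (fun u => Fin.elim0 u)).val x _ = _
    rw [Gate.tr_val]
    congr 1
    funext u
    exact Fin.elim0 u
  · change MC.gateDepth _ 0 _ ≤ 1
    rw [MC.gateDepth]
    change (G.tr .var (fun u => Fin.elim0 u)).depth _ ≤ 1
    exact le_trans (Gate.tr_depth (Wire.var (n := n)) (fun u : Fin 0 => Fin.elim0 u) _
      (fun u : Fin 0 => Fin.elim0 u) 0 (fun j => le_rfl) (fun u => Fin.elim0 u) G)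
      (le_of_eq (by rw [hG]))
  · unfold MC.negs
    change ∑ g : Fin 1, (if (G.tr .var (fun u => Fin.elim0 u)).isNot = true then 1 else 0) ≤ t
    simp only [Gate.tr_isNot, Finset.univ_unique, Finset.sum_const, Finset.card_singleton, one_smul]
    exact ht

end Pool.Agent.Results.MP_2af48a_lc.FewNegations
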