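import Pool.Agent.Lib_MP_2af48a_lc.HazSmallSC
import Pool.Agent.Lib_MP_2af48a_lc.FewNegProof

/-!
# Reduction to monotone functions

If some function in SC is not in NC, then some monotone function in SC is not in NC.
-/

open Finset

namespace Pool.Agent.Results.MP_2af48a_lc.FewNegations

namespace NM

open HU (UC)

/-- Boolean values of a uniform circuit. -/
def uval {n W : ℕ} (C : UC n W) (x : Fin n → Bool) : ℕ → Fin W → Bool
  | 0 => fun _ => false
  | j + 1 => fun g => (C.gate j g).val x (uval C x j)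

lemma uval_stable {n W : ℕ} (C : UC n W) (x : Fin n → Bool) (j : ℕ) :
    ∀ g, C.val3 (fun i => some (x i)) j g = some (uval C x j g) := by
  induction j with
  | zero => intro g; rfl
  | succ j ih => intro g; exact HS.gate_stable x _ _ ih _

lemma toL_eval {n W : ℕ} (C : UC n W) (L0 : ℕ) (hL : C.L = L0 + 1) (x : Fin n → Bool) :
    (HU.toL C L0).eval x = uval C x C.L C.out := by
  have h1 : (HU.toL C L0).eval3 (fun i => some (x i)) = some ((HU.toL C L0).eval x) :=
    HS.layered_stable _ x _ _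
  rw [HU.toL_eval3 C L0 hL] at h1
  have h2 : C.eval3 (fun i => some (x i)) = some (uval C x C.L C.out) := uval_stable C x _ _
  rw [h2] at h1
  exact (Option.some.inj h1).symm

lemma toU_eval {n : ℕ} (C : Layered n) (W : ℕ) (o : Fin W)
    (hW : ∀ j, j ≤ C.layers → C.width j ≤ W) (ho : C.out.val = o.val) (x : Fin n → Bool) :
    uval (HU.toU C W o) x C.layers o = C.eval x := by
  have h1 := HU.toU_val C W o hW (fun i => some (x i)) C.layers le_rfl C.out
    (by rw [ho]; exact o.isLt)
  have e : (⟨C.out.val, by rw [ho]; exact o.isLt⟩ : Fin W) = o := Fin.ext ho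
  rw [e, uval_stable, HS.layered_stable C x] at h1
  exact Option.some.inj h1

/-! ### The monotone function -/

/-- The variable number `i` of the second half. -/
def sec {n : ℕ} (i : Fin (n / 2)) : Fin n := ⟨n / 2 + i.val, by omega⟩

/-- The variable number `i` of the first half. -/
def fst {n : ℕ} (i : Fin (n / 2)) : Fin n := ⟨i.val, by omega⟩

/-- The monotone function belonging to `f`. -/
def mono (f : (n : ℕ) → (Fin n → Bool) → Bool) (n : ℕ) (x : Fin n → Bool) : Bool :=
  decide (∃ i : Fin (n / 2), x (fst i) = true ∧ x (sec i) = true) ||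
    (decide (∀ i : Fin (n / 2), x (fst i) = true ∨ x (sec i) = true) &&
      f (n / 2) (fun i => x (fst i)))

lemma mono_monotone (f : (n : ℕ) → (Fin n → Bool) → Bool) (n : ℕ) (x z : Fin n → Bool)
    (h : ∀ i, x i = true → z i = true) (hx : mono f n x = true) : mono f n z = true := by
  unfold mono at hx ⊢
  simp only [Bool.or_eq_true, Bool.and_eq_true, decide_eq_true_eq] at hx ⊢
  by_cases hz : ∃ i : Fin (n / 2), z (fst i) = true ∧ z (sec i) = true
  · exact Or.inl hz
  · right
    rcases hx with ⟨i, h1, h2⟩ | ⟨h1, h2⟩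
    · exact absurd ⟨i, h _ h1, h _ h2⟩ hz
    · refine ⟨fun i => (h1 i).imp (h _) (h _), ?_⟩
      have e : (fun i => z (fst i)) = fun i => x (fst (n := n) i) := by
        funext i
        cases hxi : x (fst i)
        · have h3 : x (sec i) = true := (h1 i).resolve_left (by rw [hxi]; simp)
          by_contra hc
          have h4 : z (fst i) = true := by simpa using hc
          exact hz ⟨i, h4, h _ h3⟩
        · exact h _ hxi
      rw [e]; exact h2

/-! ### A layered circuit for the monotone function -/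

variable {n W : ℕ}

/-- Wires of the circuit for `f`. -/
def wM : Wire (n / 2) W → Wire n (W + 4)
  | .const b => .const b
  | .var i => .var (fst i)
  | .gate g => .gate ⟨g.val, by omega⟩

/-- Wires of the circuit for `f` to layer `0`. -/
def wM0 : Wire (n / 2) W → Wire n (W + 4)
  | .const b => .const b
  | .var i => .var (fst i)
  | .gate _ => .const false

/-- Renaming of the wires of a gate. -/
def gm {n n' k m : ℕ} (F : Wire n k → Wire n' m) : Gate n k → Gate n' m
  | .and u v => .and (F u) (F v)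
  | .or u v => .or (F u) (F v)
  | .not u => .not (F u)

lemma gm_val {n n' k m : ℕ} (F : Wire n k → Wire n' m) (x : Fin n' → Bool) (y : Fin n → Bool)
    (v : Fin m → Bool) (u : Fin k → Bool) (h : ∀ w, (F w).val x v = w.val y u) (G : Gate n k) :
    (gm F G).val x v = G.val y u := by
  cases G with
  | and p q => show (_ && _) = (_ && _); rw [h, h]
  | or p q => show (_ || _) = (_ || _); rw [h, h]
  | not p => show (!_) = (!_); rw [h]

/-- The layered circuit: `2 * (n / 2)` layers for the tests, then the circuit for `f`,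
then two layers. -/
def mU (C : UC (n / 2) W) : UC n (W + 4) where
  L := 2 * (n / 2) + C.L + 2
  gate j h :=
    if hW : h.val < W then
      if j < 2 * (n / 2) then .or (.const false) (.const false)
      else if j = 2 * (n / 2) then gm wM0 (C.gate 0 ⟨h.val, hW⟩)
      else gm wM (C.gate (j - 2 * (n / 2)) ⟨h.val, hW⟩)
    else if h.val = W then
      -- is there a pair of two ones?
      if j = 0 then .or (.const false) (.const false)
      else if j < 2 * (n / 2) ∧ j % 2 = 1 then .or (.gate ⟨W, by omega⟩) (.gate ⟨W + 2, by omega⟩)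
      else if j = 2 * (n / 2) + C.L + 1 then .or (.gate ⟨W, by omega⟩) (.gate ⟨W + 1, by omega⟩)
      else .or (.gate ⟨W, by omega⟩) (.const false)
    else if h.val = W + 1 then
      -- is there a one in all pairs?
      if j = 0 then .or (.const true) (.const true)
      else if j < 2 * (n / 2) ∧ j % 2 = 1 then .and (.gate ⟨W + 1, by omega⟩) (.gate ⟨W + 3, by omega⟩)
      else if j = 2 * (n / 2) + C.L then .and (.gate ⟨W + 1, by omega⟩) (.gate ⟨C.out.val, by omega⟩)
      else .or (.gate ⟨W + 1, by omega⟩) (.const false)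
    else if hj : j / 2 < n / 2 then
      if h.val = W + 2 then .and (.var (fst ⟨j / 2, hj⟩)) (.var (sec ⟨j / 2, hj⟩))
      else .or (.var (fst ⟨j / 2, hj⟩)) (.var (sec ⟨j / 2, hj⟩))
    else .or (.const false) (.const false)
  out := ⟨W, by omega⟩

variable (C : UC (n / 2) W) (x : Fin n → Bool)

/-- The first `k` pairs. -/
def someP (x : Fin n → Bool) (k : ℕ) : Bool :=
  decide (∃ i : Fin (n / 2), i.val < k ∧ x (fst i) = true ∧ x (sec i) = true)

/-- The first `k` pairs. -/
def allP (x : Fin n → Bool) (k : ℕ) : Bool :=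
  decide (∀ i : Fin (n / 2), i.val < k → (x (fst i) = true ∨ x (sec i) = true))

lemma someP_succ (k : ℕ) (hk : k < n / 2) :
    someP x (k + 1) = (someP x k || (x (fst ⟨k, hk⟩) && x (sec ⟨k, hk⟩))) := by
  apply Bool.eq_iff_iff.mpr
  simp only [someP, decide_eq_true_eq, Bool.or_eq_true, Bool.and_eq_true]
  constructor
  · rintro ⟨i, h1, h2⟩
    rcases Nat.lt_succ_iff_lt_or_eq.mp h1 with h | h
    · exact Or.inl ⟨i, h, h2⟩
    · right
      have : i = ⟨k, hk⟩ := Fin.ext h
      rw [← this]; exact h2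
  · rintro (⟨i, h1, h2⟩ | h)
    · exact ⟨i, by omega, h2⟩
    · exact ⟨⟨k, hk⟩, by simp, h⟩

lemma allP_succ (k : ℕ) (hk : k < n / 2) :
    allP x (k + 1) = (allP x k && (x (fst ⟨k, hk⟩) || x (sec ⟨k, hk⟩))) := by
  apply Bool.eq_iff_iff.mpr
  simp only [allP, decide_eq_true_eq, Bool.or_eq_true, Bool.and_eq_true]
  constructor
  · intro h
    exact ⟨fun i hi => h i (by omega), h ⟨k, hk⟩ (by simp)⟩
  · rintro ⟨h1, h2⟩ i hi
    rcases Nat.lt_succ_iff_lt_or_eq.mp hi with h | h
    · exact h1 i h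
    · have : i = ⟨k, hk⟩ := Fin.ext h
      rw [this]; exact h2

/-- The tests. -/
lemma test (k : ℕ) (hk : k + 1 ≤ n / 2) :
    (uval (mU C) x (2 * k + 1) ⟨W, by omega⟩ = someP x k ∧
      uval (mU C) x (2 * k + 1) ⟨W + 1, by omega⟩ = allP x k) ∧
    (uval (mU C) x (2 * k + 2) ⟨W, by omega⟩ = someP x (k + 1) ∧
      uval (mU C) x (2 * k + 2) ⟨W + 1, by omega⟩ = allP x (k + 1)) := by
  have a1 : ¬ (W < W) := lt_irrefl _
  have a2 : ¬ (W + 1 < W) := by omega
  have a3 : ¬ (W + 1 = W) := by omega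
  have a4 : ¬ (W + 2 < W) := by omega
  have a5 : ¬ (W + 2 = W) := by omega
  have a6 : ¬ (W + 2 = W + 1) := by omega
  have a7 : ¬ (W + 3 < W) := by omega
  have a8 : ¬ (W + 3 = W) := by omega
  have a9 : ¬ (W + 3 = W + 1) := by omega
  have a10 : ¬ (W + 3 = W + 2) := by omega
  -- second half of the statement from the first
  have step2 : ∀ k : ℕ, k + 1 ≤ n / 2 →
      (uval (mU C) x (2 * k + 1) ⟨W, by omega⟩ = someP x k ∧
        uval (mU C) x (2 * k + 1) ⟨W + 1, by omega⟩ = allP x k) →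
      (uval (mU C) x (2 * k + 2) ⟨W, by omega⟩ = someP x (k + 1) ∧
        uval (mU C) x (2 * k + 2) ⟨W + 1, by omega⟩ = allP x (k + 1)) := by
    intro k hk h
    have b1 : ¬ (2 * k + 1 = 0) := by omega
    have b2 : 2 * k + 1 < 2 * (n / 2) ∧ (2 * k + 1) % 2 = 1 := by omega
    have b3 : 2 * k / 2 < n / 2 := by omega
    have b4 : 2 * k / 2 = k := by omega
    have t2 : uval (mU C) x (2 * k + 1) ⟨W + 2, by omega⟩ =
        (x (fst ⟨k, hk⟩) && x (sec ⟨k, hk⟩)) := by
      show ((mU C).gate (2 * k) ⟨W + 2, _⟩).val x _ = _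
      have e : (mU C).gate (2 * k) ⟨W + 2, by omega⟩ =
          .and (.var (fst ⟨k, hk⟩)) (.var (sec ⟨k, hk⟩)) := by
        have hk' : k < n / 2 := hk
        simp only [mU, dif_neg a4, if_neg a5, if_neg a6, b4, dif_pos hk', if_true]
      rw [e]
      rfl
    have t3 : uval (mU C) x (2 * k + 1) ⟨W + 3, by omega⟩ =
        (x (fst ⟨k, hk⟩) || x (sec ⟨k, hk⟩)) := by
      show ((mU C).gate (2 * k) ⟨W + 3, _⟩).val x _ = _
      have e : (mU C).gate (2 * k) ⟨W + 3, by omega⟩ =
          .or (.var (fst ⟨k, hk⟩)) (.var (sec ⟨k, hk⟩)) := by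
        have hk' : k < n / 2 := hk
        simp only [mU, dif_neg a7, if_neg a8, if_neg a9, b4, dif_pos hk', if_neg a10]
      rw [e]
      rfl
    constructor
    · show ((mU C).gate (2 * k + 1) ⟨W, _⟩).val x _ = _
      have e : (mU C).gate (2 * k + 1) ⟨W, by omega⟩ =
          .or (.gate ⟨W, by omega⟩) (.gate ⟨W + 2, by omega⟩) := by
        simp only [mU, dif_neg a1, if_true, if_neg b1, if_pos b2]
      rw [e, someP_succ x k hk, ← t2, ← h.1]
      rfl
    · show ((mU C).gate (2 * k + 1) ⟨W + 1, _⟩).val x _ = _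
      have e : (mU C).gate (2 * k + 1) ⟨W + 1, by omega⟩ =
          .and (.gate ⟨W + 1, by omega⟩) (.gate ⟨W + 3, by omega⟩) := by
        simp only [mU, dif_neg a2, if_neg a3, if_true, if_neg b1, if_pos b2]
      rw [e, allP_succ x k hk, ← t3, ← h.2]
      rfl
  induction k with
  | zero =>
    have h0 : uval (mU C) x (2 * 0 + 1) ⟨W, by omega⟩ = someP x 0 ∧
        uval (mU C) x (2 * 0 + 1) ⟨W + 1, by omega⟩ = allP x 0 := by
      constructor
      · show ((mU C).gate 0 ⟨W, _⟩).val x _ = _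
        simp only [mU, dif_neg a1, if_true]
        simp [Gate.val, Wire.val, someP]
      · show ((mU C).gate 0 ⟨W + 1, _⟩).val x _ = _
        simp only [mU, dif_neg a2, if_neg a3, if_true]
        simp [Gate.val, Wire.val, allP]
    exact ⟨h0, step2 0 hk h0⟩
  | succ k ih =>
    have h0 := (ih (by omega) step2).2
    have h1 : uval (mU C) x (2 * (k + 1) + 1) ⟨W, by omega⟩ = someP x (k + 1) ∧
        uval (mU C) x (2 * (k + 1) + 1) ⟨W + 1, by omega⟩ = allP x (k + 1) := by
      have b1 : ¬ (2 * (k + 1) = 0) := by omega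
      have b2 : ¬ (2 * (k + 1) < 2 * (n / 2) ∧ (2 * (k + 1)) % 2 = 1) := by omega
      have b3 : ¬ (2 * (k + 1) = 2 * (n / 2) + C.L + 1) := by omega
      have b4 : ¬ (2 * (k + 1) = 2 * (n / 2) + C.L) := by omega
      constructor
      · show ((mU C).gate (2 * (k + 1)) ⟨W, _⟩).val x _ = _
        have e : (mU C).gate (2 * (k + 1)) ⟨W, by omega⟩ =
            .or (.gate ⟨W, by omega⟩) (.const false) := by
          simp only [mU, dif_neg a1, if_true, if_neg b1, if_neg b2, if_neg b3]
        rw [e]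
        show (uval (mU C) x (2 * k + 2) ⟨W, _⟩ || false) = _
        rw [Bool.or_false]; exact h0.1
      · show ((mU C).gate (2 * (k + 1)) ⟨W + 1, _⟩).val x _ = _
        have e : (mU C).gate (2 * (k + 1)) ⟨W + 1, by omega⟩ =
            .or (.gate ⟨W + 1, by omega⟩) (.const false) := by
          simp only [mU, dif_neg a2, if_neg a3, if_true, if_neg b1, if_neg b2, if_neg b4]
        rw [e]
        show (uval (mU C) x (2 * k + 2) ⟨W + 1, _⟩ || false) = _
        rw [Bool.or_false]; exact h0.2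
    exact ⟨h1, step2 (k + 1) hk h1⟩

/-- The two bits are kept. -/
lemma keep (l : ℕ) (h1 : 1 ≤ l) (h2 : 2 * (n / 2) ≤ l)
    (h3 : l ≤ 2 * (n / 2) + C.L) :
    uval (mU C) x l ⟨W, by omega⟩ = someP x (n / 2) ∧
      uval (mU C) x l ⟨W + 1, by omega⟩ = allP x (n / 2) := by
  have a1 : ¬ (W < W) := lt_irrefl _
  have a2 : ¬ (W + 1 < W) := by omega
  have a3 : ¬ (W + 1 = W) := by omega
  induction l with
  | zero => omega
  | succ l ih =>
    by_cases hl : 1 ≤ l ∧ 2 * (n / 2) ≤ l
    · have h0 := ih hl.1 hl.2 (by omega)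
      have b1 : ¬ (l = 0) := by omega
      have b2 : ¬ (l < 2 * (n / 2) ∧ l % 2 = 1) := by omega
      have b3 : ¬ (l = 2 * (n / 2) + C.L + 1) := by omega
      have b4 : ¬ (l = 2 * (n / 2) + C.L) := by omega
      constructor
      · show ((mU C).gate l ⟨W, _⟩).val x _ = _
        have e : (mU C).gate l ⟨W, by omega⟩ = .or (.gate ⟨W, by omega⟩) (.const false) := by
          simp only [mU, dif_neg a1, if_true, if_neg b1, if_neg b2, if_neg b3]
        rw [e]
        show (uval (mU C) x l ⟨W, _⟩ || false) = _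
        rw [Bool.or_false]; exact h0.1
      · show ((mU C).gate l ⟨W + 1, _⟩).val x _ = _
        have e : (mU C).gate l ⟨W + 1, by omega⟩ =
            .or (.gate ⟨W + 1, by omega⟩) (.const false) := by
          simp only [mU, dif_neg a2, if_neg a3, if_true, if_neg b1, if_neg b2, if_neg b4]
        rw [e]
        show (uval (mU C) x l ⟨W + 1, _⟩ || false) = _
        rw [Bool.or_false]; exact h0.2
    · rcases Nat.eq_zero_or_pos (n / 2) with hn | hn
      · have hl0 : l = 0 := by omega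
        subst hl0
        constructor
        · show ((mU C).gate 0 ⟨W, _⟩).val x _ = _
          simp only [mU, dif_neg a1, if_true]
          show (false || false) = decide _
          simp only [Bool.or_false]
          symm
          rw [decide_eq_false_iff_not]
          rintro ⟨i, hi, -⟩
          omega
        · show ((mU C).gate 0 ⟨W + 1, _⟩).val x _ = _
          simp only [mU, dif_neg a2, if_neg a3, if_true]
          show (true || true) = decide _
          simp only [Bool.or_true]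
          symm
          rw [decide_eq_true_iff]
          intro i hi
          omega
      · have hl0 : l + 1 = 2 * (n / 2 - 1) + 2 := by omega
        have h0 := (test C x (n / 2 - 1) (by omega)).2
        rw [show n / 2 - 1 + 1 = n / 2 by omega] at h0
        rw [hl0]
        exact h0

/-- The circuit for `f`. -/
lemma main (j : ℕ) (hj : j + 1 ≤ C.L) (g : Fin W) :
    uval (mU C) x (2 * (n / 2) + (j + 1)) ⟨g.val, by omega⟩ =
      uval C (fun i => x (fst i)) (j + 1) g := by
  induction j generalizing g with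
  | zero =>
    show ((mU C).gate (2 * (n / 2)) ⟨g.val, _⟩).val x _ = (C.gate 0 g).val _ _
    have e : (mU C).gate (2 * (n / 2)) ⟨g.val, by omega⟩ = gm wM0 (C.gate 0 g) := by
      simp only [mU, dif_pos g.isLt, lt_irrefl, if_false, if_true]
    rw [e]
    refine gm_val _ x _ _ _ (fun w => ?_) _
    cases w with
    | const b => rfl
    | var i => rfl
    | gate g' => rfl
  | succ j ih =>
    show ((mU C).gate (2 * (n / 2) + (j + 1)) ⟨g.val, _⟩).val x _ = (C.gate (j + 1) g).val _ _
    have e : (mU C).gate (2 * (n / 2) + (j + 1)) ⟨g.val, by omega⟩ = gm wM (C.gate (j + 1) g) := by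
      have e1 : ¬ (2 * (n / 2) + (j + 1) < 2 * (n / 2)) := by omega
      have e2 : ¬ (2 * (n / 2) + (j + 1) = 2 * (n / 2)) := by omega
      have e3 : 2 * (n / 2) + (j + 1) - 2 * (n / 2) = j + 1 := by omega
      simp only [mU, dif_pos g.isLt, if_neg e1, if_neg e2, e3]
    rw [e]
    refine gm_val _ x _ _ _ (fun w => ?_) _
    cases w with
    | const b => rfl
    | var i => rfl
    | gate g' => exact ih (by omega) g'

lemma mU_val (hL : 1 ≤ C.L) : uval (mU C) x (mU C).L (mU C).out =
    (someP x (n / 2) || (allP x (n / 2) && uval C (fun i => x (fst i)) C.L C.out)) := by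
  have a1 : ¬ (W < W) := lt_irrefl _
  have a2 : ¬ (W + 1 < W) := by omega
  have a3 : ¬ (W + 1 = W) := by omega
  have ho := C.out.isLt
  have k0 := keep C x (2 * (n / 2) + C.L) (by omega) (by omega) le_rfl
  obtain ⟨l, hl⟩ : ∃ l, C.L = l + 1 := ⟨C.L - 1, by omega⟩
  have m0 : uval (mU C) x (2 * (n / 2) + C.L) ⟨C.out.val, by omega⟩ =
      uval C (fun i => x (fst i)) C.L C.out := by
    have := main C x l (by omega) C.out
    rw [← hl] at this
    exact this
  have c0 : uval (mU C) x (2 * (n / 2) + C.L + 1) ⟨W, by omega⟩ = someP x (n / 2) := by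
    show ((mU C).gate (2 * (n / 2) + C.L) ⟨W, _⟩).val x _ = _
    have e : (mU C).gate (2 * (n / 2) + C.L) ⟨W, by omega⟩ =
        .or (.gate ⟨W, by omega⟩) (.const false) := by
      have b1 : ¬ (2 * (n / 2) + C.L = 0) := by omega
      have b2 : ¬ (2 * (n / 2) + C.L < 2 * (n / 2) ∧ (2 * (n / 2) + C.L) % 2 = 1) := by omega
      have b3 : ¬ (2 * (n / 2) + C.L = 2 * (n / 2) + C.L + 1) := by omega
      simp only [mU, dif_neg a1, if_true, if_neg b1, if_neg b2, if_neg b3]
    rw [e]
    show (uval (mU C) x (2 * (n / 2) + C.L) ⟨W, _⟩ || false) = _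
    rw [Bool.or_false]; exact k0.1
  have c1 : uval (mU C) x (2 * (n / 2) + C.L + 1) ⟨W + 1, by omega⟩ =
      (allP x (n / 2) && uval C (fun i => x (fst i)) C.L C.out) := by
    show ((mU C).gate (2 * (n / 2) + C.L) ⟨W + 1, _⟩).val x _ = _
    have e : (mU C).gate (2 * (n / 2) + C.L) ⟨W + 1, by omega⟩ =
        .and (.gate ⟨W + 1, by omega⟩) (.gate ⟨C.out.val, by omega⟩) := by
      have b1 : ¬ (2 * (n / 2) + C.L = 0) := by omega
      have b2 : ¬ (2 * (n / 2) + C.L < 2 * (n / 2) ∧ (2 * (n / 2) + C.L) % 2 = 1) := by omega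
      simp only [mU, dif_neg a2, if_neg a3, if_true, if_neg b1, if_neg b2]
    rw [e]
    show (uval (mU C) x (2 * (n / 2) + C.L) ⟨W + 1, _⟩ &&
      uval (mU C) x (2 * (n / 2) + C.L) ⟨C.out.val, _⟩) = _
    rw [m0, k0.2]
  show ((mU C).gate (2 * (n / 2) + C.L + 1) ⟨W, _⟩).val x _ = _
  have e : (mU C).gate (2 * (n / 2) + C.L + 1) ⟨W, by omega⟩ =
      .or (.gate ⟨W, by omega⟩) (.gate ⟨W + 1, by omega⟩) := by
    have b1 : ¬ (2 * (n / 2) + C.L + 1 = 0) := by omega
    have b2 : ¬ (2 * (n / 2) + C.L + 1 < 2 * (n / 2) ∧ (2 * (n / 2) + C.L + 1) % 2 = 1) := by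
      omega
    simp only [mU, dif_neg a1, if_true, if_neg b1, if_neg b2]
  rw [e]
  show (uval (mU C) x (2 * (n / 2) + C.L + 1) ⟨W, _⟩ ||
    uval (mU C) x (2 * (n / 2) + C.L + 1) ⟨W + 1, _⟩) = _
  rw [c0, c1]

/-- The layered circuit for `mono f`. -/
lemma mono_layered (f : (n : ℕ) → (Fin n → Bool) → Bool) (n : ℕ) (C : Layered (n / 2))
    (hC : ∀ x, C.eval x = f (n / 2) x) : ∃ D : Layered n, (∀ x, D.eval x = mono f n x) ∧
      D.maxWidth ≤ C.maxWidth + 4 ∧ D.size ≤ (n + C.size + 2) * (C.maxWidth + 4) := by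
  obtain ⟨E, d1, d2, d3, d4⟩ := HU.exists_trim C
  have ho : E.out.val < C.maxWidth := lt_of_lt_of_le E.out.isLt (d4 _ le_rfl)
  let U := HU.toU E C.maxWidth ⟨E.out.val, ho⟩
  have hU : ∀ y, uval U y U.L U.out = f (n / 2) y := by
    intro y
    have := toU_eval E C.maxWidth ⟨E.out.val, ho⟩ d4 rfl y
    rw [d1, hC] at this
    exact this
  have hUL : U.L = E.layers := rfl
  have hL : (mU U).L = (2 * (n / 2) + E.layers + 1) + 1 := by
    show 2 * (n / 2) + U.L + 2 = _
    rw [hUL]
  refine ⟨HU.toL (mU U) (2 * (n / 2) + E.layers + 1), fun x => ?_, ?_, ?_⟩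
  · rw [toL_eval (mU U) _ hL, mU_val U x (by rw [hUL]; exact d3), hU]
    unfold mono
    congr 1
    · unfold someP
      apply Bool.eq_iff_iff.mpr
      simp only [decide_eq_true_eq]
      exact ⟨fun ⟨i, _, h⟩ => ⟨i, h⟩, fun ⟨i, h⟩ => ⟨i, i.isLt, h⟩⟩
    · congr 1
      unfold allP
      apply Bool.eq_iff_iff.mpr
      simp only [decide_eq_true_eq]
      exact ⟨fun h i => h i i.isLt, fun h i _ => h i⟩
  · exact HU.toL_maxWidth _ _
  · rw [HU.toL_size]
    apply Nat.mul_le_mul_right
    omega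

/-! ### From a circuit for the monotone function to a circuit for `f` -/

/-- Wires: the variables of the second half are replaced by NOT gates. -/
def wF {m N k k' : ℕ} (hN : N = 2 * m) (h : m + k ≤ k') : Wire N k → Wire m k'
  | .const b => .const b
  | .var i => if hi : i.val < m then .var ⟨i.val, hi⟩ else .gate ⟨i.val - m, by omega⟩
  | .gate g => .gate ⟨m + g.val, by omega⟩

/-- Gates of the circuit for `f`. -/
def cF {m N : ℕ} (hN : N = 2 * m) (C : Circuit N) : Circuit m where
  size := m + C.size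
  gate h := if h1 : h.val < m then .not (.var ⟨h.val, h1⟩) else
    gm (wF hN (by omega : m + (h.val - m) ≤ h.val))
      (C.gate ⟨h.val - m, (by omega : h.val - m < C.size)⟩)
  out := ⟨m + C.out.val, by omega⟩

/-- The input `(x, ¬ x)`. -/
def dbl {m N : ℕ} (hN : N = 2 * m) (x : Fin m → Bool) : Fin N → Bool :=
  fun i => if hi : i.val < m then x ⟨i.val, hi⟩ else !(x ⟨i.val - m, by omega⟩)

lemma gm_congr {m N K : ℕ} (hN : N = 2 * m) (C : Circuit N) {j g : ℕ} (e : j = g)
    (hj : j < C.size) (hg : g < C.size) (h1 : m + j ≤ K) (h2 : m + g ≤ K) :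
    gm (wF hN h1) (C.gate ⟨j, hj⟩) = gm (wF hN h2) (C.gate ⟨g, hg⟩) := by
  subst e
  rfl

lemma cF_val {m N : ℕ} (hN : N = 2 * m) (C : Circuit N) (x : Fin m → Bool) (h : ℕ)
    (hh : h < (cF hN C).size) :
    (∀ h1 : h < m, (cF hN C).gateVal x h hh = !(x ⟨h, h1⟩)) ∧
    ∀ (g : ℕ) (hg : g < C.size), h = m + g →
      (cF hN C).gateVal x h hh = C.gateVal (dbl hN x) g hg := by
  induction h using Nat.strong_induction_on with
  | _ h ih =>
    refine ⟨fun h1 => ?_, fun g hg e => ?_⟩
    · rw [Circuit.gateVal]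
      have e : (cF hN C).gate ⟨h, hh⟩ = .not (.var ⟨h, h1⟩) := by
        simp only [cF, dif_pos h1]
      rw [e]
      rfl
    · subst e
      rw [Circuit.gateVal]
      have h1 : ¬ (m + g < m) := by omega
      have h2 : m + g - m = g := by omega
      have e : (cF hN C).gate ⟨m + g, hh⟩ =
          gm (wF hN (le_refl (m + g))) (C.gate ⟨g, hg⟩) := by
        simp only [cF, dif_neg h1]
        exact gm_congr hN C h2 _ hg _ _
      rw [e, Circuit.gateVal]
      refine gm_val _ x _ _ _ (fun w => ?_) _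
      cases w with
      | const b => rfl
      | var i =>
        by_cases hi : i.val < m
        · simp only [wF, dif_pos hi, Wire.val, dbl]
        · simp only [wF, dif_neg hi, Wire.val, dbl]
          exact (ih (i.val - m) (by omega) _).1 (by omega)
      | gate g' => exact (ih (m + g'.val) (by omega) _).2 g'.val _ rfl

lemma gm_depth {n n' k m : ℕ} (F : Wire n k → Wire n' m) (v : Fin m → ℕ) (u : Fin k → ℕ)
    (h : ∀ w, (F w).depth v ≤ w.depth u + 1) (G : Gate n k) :
    (gm F G).depth v ≤ G.depth u + 1 := by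
  cases G with
  | and p q =>
    show max _ _ + 1 ≤ max _ _ + 1 + 1
    have := h p; have := h q
    omega
  | or p q =>
    show max _ _ + 1 ≤ max _ _ + 1 + 1
    have := h p; have := h q
    omega
  | not p =>
    show _ + 1 ≤ _ + 1 + 1
    have := h p
    omega

lemma cF_dep {m N : ℕ} (hN : N = 2 * m) (C : Circuit N) (h : ℕ)
    (hh : h < (cF hN C).size) :
    (h < m → (cF hN C).gateDepth h hh ≤ 1) ∧
    ∀ (g : ℕ) (hg : g < C.size), h = m + g →
      (cF hN C).gateDepth h hh ≤ C.gateDepth g hg + 1 := by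
  induction h using Nat.strong_induction_on with
  | _ h ih =>
    refine ⟨fun h1 => ?_, fun g hg e => ?_⟩
    · rw [Circuit.gateDepth]
      have e : (cF hN C).gate ⟨h, hh⟩ = .not (.var ⟨h, h1⟩) := by
        simp only [cF, dif_pos h1]
      rw [e]
      exact le_rfl
    · subst e
      rw [Circuit.gateDepth]
      have h1 : ¬ (m + g < m) := by omega
      have h2 : m + g - m = g := by omega
      have e : (cF hN C).gate ⟨m + g, hh⟩ =
          gm (wF hN (le_refl (m + g))) (C.gate ⟨g, hg⟩) := by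
        simp only [cF, dif_neg h1]
        exact gm_congr hN C h2 _ hg _ _
      rw [e, Circuit.gateDepth]
      refine gm_depth _ _ _ (fun w => ?_) _
      cases w with
      | const b => exact Nat.zero_le _
      | var i =>
        by_cases hi : i.val < m
        · simp only [wF, dif_pos hi, Wire.depth]
          exact Nat.zero_le _
        · simp only [wF, dif_neg hi, Wire.depth]
          exact (ih (i.val - m) (by omega) _).1 (by omega)
      | gate g' => exact (ih (m + g'.val) (by omega) _).2 g'.val _ rfl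

/-- The value of the monotone function at `(x, ¬ x)`. -/
lemma mono_dbl (f : (n : ℕ) → (Fin n → Bool) → Bool) (m : ℕ) (x : Fin m → Bool) :
    mono f (2 * m) (dbl rfl x) = f m x := by
  have hm : 2 * m / 2 = m := by omega
  have h1 : ∀ i : Fin (2 * m / 2), dbl rfl x (fst i) = x ⟨i.val, by have := i.isLt; omega⟩ := by
    intro i
    have hi : (fst i : Fin (2 * m)).val < m := by
      show i.val < m
      have := i.isLt; omega
    simp only [dbl, dif_pos hi]
    rfl
  have h2 : ∀ i : Fin (2 * m / 2), dbl rfl x (sec i) =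
      !(x ⟨i.val, by have := i.isLt; omega⟩) := by
    intro i
    have hi : ¬ ((sec i : Fin (2 * m)).val < m) := by
      show ¬ (2 * m / 2 + i.val < m)
      omega
    simp only [dbl, dif_neg hi]
    congr 2
    apply Fin.ext
    show 2 * m / 2 + i.val - m = i.val
    omega
  unfold mono
  have e1 : decide (∃ i : Fin (2 * m / 2), dbl rfl x (fst i) = true ∧
      dbl rfl x (sec i) = true) = false := by
    rw [decide_eq_false_iff_not]
    rintro ⟨i, h3, h4⟩
    rw [h1] at h3
    rw [h2, h3] at h4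
    simp at h4
  have e2 : decide (∀ i : Fin (2 * m / 2), dbl rfl x (fst i) = true ∨
      dbl rfl x (sec i) = true) = true := by
    rw [decide_eq_true_iff]
    intro i
    rw [h1, h2]
    cases x ⟨i.val, by have := i.isLt; omega⟩
    · right; rfl
    · left; rfl
  rw [e1, e2, Bool.false_or, Bool.true_and]
  have key : ∀ (a : ℕ) (ha : a = m) (y : Fin a → Bool),
      (∀ i : Fin a, y i = x ⟨i.val, by have := i.isLt; omega⟩) → f a y = f m x := by
    intro a ha y hy
    subst ha
    congr 1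
    funext i
    exact hy i
  exact key _ hm _ h1

end NM

/-- Circuits for the monotone function give circuits for `f`. -/
theorem NC_of_mono {f : (n : ℕ) → (Fin n → Bool) → Bool} {r : ℕ → ℕ} (h : NC r (NM.mono f)) :
    ∃ r', NC r' f := by
  obtain ⟨C, hC, ⟨a, c, hs⟩, ⟨b, d, hd⟩, -⟩ := h
  refine ⟨fun m => (NM.cF rfl (C (2 * m))).negations, fun m => NM.cF rfl (C (2 * m)),
    fun m x => ?_, ⟨a * 2 ^ c + a + 1, c + 1, fun m => ?_⟩,
    ⟨b * 2 ^ d + 2 * b + 1, d, fun m => ?_⟩, fun m => le_rfl⟩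
  · have h1 : (NM.cF rfl (C (2 * m))).eval x = (C (2 * m)).eval (NM.dbl rfl x) :=
      (NM.cF_val rfl (C (2 * m)) x _ _).2 _ (C (2 * m)).out.isLt rfl
    have h2 := hC (2 * m) (NM.dbl rfl x)
    rw [NM.mono_dbl] at h2
    exact h1.trans h2
  · show m + (C (2 * m)).size ≤ _
    have e1 : (C (2 * m)).size ≤ a * (2 * m) ^ c + a := hs (2 * m)
    rcases Nat.eq_zero_or_pos m with hm | hm
    · subst hm
      have e4 : a * (2 * 0) ^ c ≤ a * 2 ^ c := by
        apply Nat.mul_le_mul_left
        exact Nat.pow_le_pow_left (by norm_num) _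
      have e5 : 0 ≤ (a * 2 ^ c + a + 1) * 0 ^ (c + 1) := Nat.zero_le _
      omega
    · have e2 : m ^ c ≤ m ^ (c + 1) := Nat.pow_le_pow_right hm (Nat.le_succ c)
      have e3 : m ≤ m ^ (c + 1) := Nat.le_self_pow (Nat.succ_ne_zero c) m
      rw [mul_pow] at e1
      have e6 : a * (2 ^ c * m ^ c) ≤ a * 2 ^ c * m ^ (c + 1) := by
        rw [← mul_assoc]; exact Nat.mul_le_mul_left _ e2
      have e7 : (a * 2 ^ c + a + 1) * m ^ (c + 1) =
          a * 2 ^ c * m ^ (c + 1) + a * m ^ (c + 1) + m ^ (c + 1) := by ring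
      have e8 : 0 ≤ a * m ^ (c + 1) := Nat.zero_le _
      have e9 : 0 ≤ a * 2 ^ c := Nat.zero_le _
      omega
  · show (NM.cF rfl (C (2 * m))).depth ≤ _
    have e1 : (C (2 * m)).depth ≤ b * Nat.log 2 (2 * m) ^ d + b := hd (2 * m)
    have e2 : (NM.cF rfl (C (2 * m))).depth ≤ (C (2 * m)).depth + 1 :=
      (NM.cF_dep rfl (C (2 * m)) _ _).2 _ (C (2 * m)).out.isLt rfl
    have e3 : Nat.log 2 (2 * m) ≤ Nat.log 2 m + 1 := by
      rcases Nat.eq_zero_or_pos m with hm | hm
      · subst hm; simp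
      · rw [mul_comm, Nat.log_mul_base (by norm_num) (by omega)]
    have e4 : Nat.log 2 (2 * m) ^ d ≤ 2 ^ d * Nat.log 2 m ^ d + 1 := by
      rcases Nat.eq_zero_or_pos (Nat.log 2 m) with hl | hl
      · rw [hl] at e3
        calc Nat.log 2 (2 * m) ^ d ≤ 1 ^ d := Nat.pow_le_pow_left (by omega) _
          _ = 1 := one_pow _
          _ ≤ _ := Nat.le_add_left _ _
      · calc Nat.log 2 (2 * m) ^ d ≤ (2 * Nat.log 2 m) ^ d := Nat.pow_le_pow_left (by omega) _
          _ = 2 ^ d * Nat.log 2 m ^ d := mul_pow _ _ _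
          _ ≤ _ := Nat.le_add_right _ _
    have e5 : b * Nat.log 2 (2 * m) ^ d ≤ b * (2 ^ d * Nat.log 2 m ^ d + 1) :=
      Nat.mul_le_mul_left _ e4
    have e6 : b * (2 ^ d * Nat.log 2 m ^ d + 1) = b * 2 ^ d * Nat.log 2 m ^ d + b := by ring
    have e7 : (b * 2 ^ d + 2 * b + 1) * Nat.log 2 m ^ d = b * 2 ^ d * Nat.log 2 m ^ d +
        (2 * b + 1) * Nat.log 2 m ^ d := by ring
    have e8 : 0 ≤ (2 * b + 1) * Nat.log 2 m ^ d := Nat.zero_le _
    have e9 : 0 ≤ b * 2 ^ d := Nat.zero_le _
    omega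

/-- Layered circuits for `f` give layered circuits for the monotone function. -/
theorem SC_mono {f : (n : ℕ) → (Fin n → Bool) → Bool} {r : ℕ → ℕ} (h : SC r f) :
    ∃ r', SC r' (NM.mono f) := by
  obtain ⟨C, hC, ⟨a, c, hs⟩, ⟨b, d, hd⟩, -⟩ := h
  choose D h1 h2 h3 using fun n => NM.mono_layered f n (C (n / 2)) (hC (n / 2))
  -- the width
  have w1 : ∀ n, (C (n / 2)).maxWidth + 4 ≤ (b + 4) * Nat.log 2 n ^ d + (b + 4) := by
    intro n
    have e1 : (C (n / 2)).maxWidth ≤ b * Nat.log 2 (n / 2) ^ d + b := hd (n / 2)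
    have e2 : Nat.log 2 (n / 2) ^ d ≤ Nat.log 2 n ^ d :=
      Nat.pow_le_pow_left (Nat.log_mono_right (Nat.div_le_self _ _)) _
    have e3 : b * Nat.log 2 (n / 2) ^ d ≤ b * Nat.log 2 n ^ d := Nat.mul_le_mul_left _ e2
    have e4 : (b + 4) * Nat.log 2 n ^ d = b * Nat.log 2 n ^ d + 4 * Nat.log 2 n ^ d := by ring
    omega
  refine ⟨fun n => (D n).negations, D, h1,
    ⟨2 * (2 * a + 3) * (2 * (b + 4)) + (D 0).size, (c + 1) + d, fun n => ?_⟩,
    ⟨b + 4, d, fun n => le_trans (h2 n) (w1 n)⟩, fun n => le_rfl⟩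
  show (D n).size ≤ _
  rcases Nat.eq_zero_or_pos n with hn | hn
  · subst hn
    exact le_trans (Nat.le_add_left _ _) (Nat.le_add_left _ _)
  · have e1 : (C (n / 2)).size ≤ a * (n / 2) ^ c + a := hs (n / 2)
    have e2 : (n / 2) ^ c ≤ n ^ c := Nat.pow_le_pow_left (Nat.div_le_self _ _) _
    have e3 : n ^ c ≤ n ^ (c + 1) := Nat.pow_le_pow_right hn (Nat.le_succ c)
    have e4 : n ≤ n ^ (c + 1) := Nat.le_self_pow (Nat.succ_ne_zero c) n
    have e5 : 1 ≤ n ^ (c + 1) := Nat.one_le_pow _ _ hn
    have e6 : a * (n / 2) ^ c ≤ a * n ^ (c + 1) := Nat.mul_le_mul_left _ (le_trans e2 e3)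
    have e7 : n + (C (n / 2)).size + 2 ≤ (2 * a + 3) * n ^ (c + 1) := by nlinarith
    have e8 : Nat.log 2 n ^ d ≤ n ^ d := Nat.pow_le_pow_left (Nat.log_le_self 2 n) _
    have e9 : 1 ≤ n ^ d := Nat.one_le_pow _ _ hn
    have e10 : (C (n / 2)).maxWidth + 4 ≤ 2 * (b + 4) * n ^ d := by
      refine le_trans (w1 n) ?_
      nlinarith
    calc (D n).size ≤ (n + (C (n / 2)).size + 2) * ((C (n / 2)).maxWidth + 4) := h3 n
      _ ≤ ((2 * a + 3) * n ^ (c + 1)) * (2 * (b + 4) * n ^ d) := Nat.mul_le_mul e7 e10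
      _ = (2 * a + 3) * (2 * (b + 4)) * n ^ ((c + 1) + d) := by rw [pow_add]; ring
      _ ≤ 2 * (2 * a + 3) * (2 * (b + 4)) * n ^ ((c + 1) + d) := by
          apply Nat.mul_le_mul_right
          nlinarith [Nat.zero_le ((2 * a + 3) * (2 * (b + 4)))]
      _ ≤ _ := le_trans (Nat.mul_le_mul_right _ (Nat.le_add_right _ _)) (Nat.le_add_right _ _)

/-- If SC is not contained in NC, then some monotone function is in SC and not in NC. -/
theorem exists_monotone (h : ∃ f : (n : ℕ) → (Fin n → Bool) → Bool,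
    (∃ r, SC r f) ∧ ∀ r, ¬ NC r f) : ∃ f : (n : ℕ) → (Fin n → Bool) → Bool,
    (∀ (n : ℕ) (x z : Fin n → Bool), (∀ i, x i = true → z i = true) → f n x = true →
      f n z = true) ∧ (∃ r, SC r f) ∧ ∀ r, ¬ NC r f := by
  obtain ⟨f, ⟨r, h1⟩, h2⟩ := h
  refine ⟨NM.mono f, NM.mono_monotone f, SC_mono h1, fun r' h3 => ?_⟩
  obtain ⟨r'', h4⟩ := NC_of_mono h3
  exact h2 r'' h4

end Pool.Agent.Results.MP_2af48a_lc.FewNegations
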