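import Pool.Agent.Lib_MP_2af48a_lc.NotMC

/-!
# Monotone functions: pushing the NOT gates to the inputs, and guessing the weight

`R` is a monotone function with `R (x, ¬ x) = f x`.  Instead of `¬ x i` we use a circuit without NOT
gates which computes `f (x with x i := true)` for the inputs whose weight is in a certain window;
this enlarges the window by one.
-/

open Finset

namespace Pool.Agent.Results.MP_2af48a_lc.FewNegations

/-! ### Circuits with one output -/

/-- a circuit as a circuit with several outputs -/
def Circuit.toMC {n : ℕ} (C : Circuit n) : MC n 1 := ⟨C.size, C.gate, fun _ => .gate C.out⟩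

lemma Circuit.toMC_gateVal {n : ℕ} (C : Circuit n) (x : Fin n → Bool) (g : ℕ) (hg : g < C.size) :
    C.toMC.gateVal x g hg = C.gateVal x g hg := by
  induction g using Nat.strong_induction_on with
  | _ g ih =>
    rw [MC.gateVal, Circuit.gateVal]
    congr 1
    funext u
    exact ih u.val u.isLt _

lemma Circuit.toMC_gateDepth {n : ℕ} (C : Circuit n) (g : ℕ) (hg : g < C.size) :
    C.toMC.gateDepth g hg = C.gateDepth g hg := by
  induction g using Nat.strong_induction_on with
  | _ g ih =>
    rw [MC.gateDepth, Circuit.gateDepth]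
    congr 1
    funext u
    exact ih u.val u.isLt _

lemma Circuit.toMC_negs {n : ℕ} (C : Circuit n) : C.toMC.negs = C.negations := by
  unfold MC.negs Circuit.negations
  rw [Finset.card_filter]
  rfl

theorem MComp.ofCircuit {n : ℕ} (C : Circuit n) :
    MComp n 1 C.size C.depth C.negations (fun _ => C.eval) :=
  ⟨C.toMC, fun x _ => C.toMC_gateVal x C.out.val C.out.isLt, le_rfl,
    fun _ => (C.toMC_gateDepth C.out.val C.out.isLt).le, C.toMC_negs.le⟩

/-- the gates of `MC.toCircuit` -/
def MC.tcGate {n : ℕ} (A : MC n 1) (g : ℕ) (hg : g < A.size + 1) : Gate n g :=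
  if h : g < A.size then A.gate ⟨g, h⟩ else
    .or ((A.out 0).up (by omega)) ((A.out 0).up (by omega))

/-- a circuit with one output -/
def MC.toCircuit {n : ℕ} (A : MC n 1) : Circuit n where
  size := A.size + 1
  gate := fun g => A.tcGate g.val g.isLt
  out := ⟨A.size, Nat.lt_succ_self _⟩

lemma MC.tc_gateVal {n : ℕ} (A : MC n 1) (x : Fin n → Bool) (g : ℕ) (hg : g < A.size) :
    A.toCircuit.gateVal x g (Nat.lt_succ_of_lt hg) = A.gateVal x g hg := by
  induction g using Nat.strong_induction_on with
  | _ g ih =>
    rw [MC.gateVal, Circuit.gateVal]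
    change (A.tcGate g (Nat.lt_succ_of_lt hg)).val x _ = _
    unfold MC.tcGate
    rw [dif_pos hg]
    congr 1
    funext u
    exact ih u.val u.isLt _

lemma MC.tc_gateDepth {n : ℕ} (A : MC n 1) (g : ℕ) (hg : g < A.size) :
    A.toCircuit.gateDepth g (Nat.lt_succ_of_lt hg) = A.gateDepth g hg := by
  induction g using Nat.strong_induction_on with
  | _ g ih =>
    rw [MC.gateDepth, Circuit.gateDepth]
    change (A.tcGate g (Nat.lt_succ_of_lt hg)).depth _ = _
    unfold MC.tcGate
    rw [dif_pos hg]
    congr 1
    funext u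
    exact ih u.val u.isLt _

lemma MC.tc_last {n : ℕ} (A : MC n 1) : A.tcGate A.size (Nat.lt_succ_self _) =
    .or ((A.out 0).up le_rfl) ((A.out 0).up le_rfl) := by
  unfold MC.tcGate
  rw [dif_neg (lt_irrefl _)]

lemma MC.tc_eval {n : ℕ} (A : MC n 1) (x : Fin n → Bool) : A.toCircuit.eval x = A.val x 0 := by
  unfold Circuit.eval
  rw [Circuit.gateVal]
  change (A.tcGate A.size (Nat.lt_succ_self _)).val x _ = _
  rw [A.tc_last]
  change (((A.out 0).up le_rfl).val x _ || ((A.out 0).up le_rfl).val x _) = _
  rw [Bool.or_self, Wire.up_val]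
  unfold MC.val
  congr 1
  funext u
  exact A.tc_gateVal x u.val u.isLt

lemma MC.tc_depth {n : ℕ} (A : MC n 1) (d : ℕ) (h : A.DepthLE d) : A.toCircuit.depth ≤ d + 1 := by
  unfold Circuit.depth
  rw [Circuit.gateDepth]
  change (A.tcGate A.size (Nat.lt_succ_self _)).depth _ ≤ _
  rw [A.tc_last]
  change max (((A.out 0).up le_rfl).depth _) (((A.out 0).up le_rfl).depth _) + 1 ≤ _
  rw [max_self, Wire.up_depth]
  refine Nat.succ_le_succ (le_trans (le_of_eq ?_) (h 0))
  congr 1
  funext u
  exact A.tc_gateDepth u.val u.isLt

lemma MC.tc_negations {n : ℕ} (A : MC n 1) : A.toCircuit.negations = A.negs := by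
  unfold MC.negs Circuit.negations
  rw [Finset.card_filter]
  change ∑ g : Fin (A.size + 1), (if (A.tcGate g.val g.isLt).isNot = true then 1 else 0) = _
  rw [Fin.sum_univ_castSucc]
  have e : (A.tcGate (Fin.last A.size).val (Fin.last A.size).isLt).isNot = false := by
    change (A.tcGate A.size (Nat.lt_succ_self _)).isNot = false
    rw [A.tc_last]
    rfl
  rw [e]
  simp only [Bool.false_eq_true, if_false, Nat.add_zero]
  apply Finset.sum_congr rfl
  intro g _
  have e2 : A.tcGate g.castSucc.val g.castSucc.isLt = A.gate ⟨g.val, g.isLt⟩ := by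
    unfold MC.tcGate
    rw [dif_pos (show g.castSucc.val < A.size from g.isLt)]
    rfl
  rw [e2]

theorem MComp.circuit {n s d t : ℕ} {f : Fin 1 → (Fin n → Bool) → Bool} (h : MComp n 1 s d t f) :
    ∃ C : Circuit n, (∀ x, C.eval x = f 0 x) ∧ C.size ≤ s + 1 ∧ C.depth ≤ d + 1 ∧
      C.negations ≤ t := by
  obtain ⟨A, h1, h2, h3, h4⟩ := h
  exact ⟨A.toCircuit, fun x => (A.tc_eval x).trans (h1 x 0), Nat.succ_le_succ h2,
    A.tc_depth d h3, (A.tc_negations).le.trans h4⟩

/-! ### Circuits without NOT gates compute monotone functions -/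

lemma MC.gateVal_mono {n m : ℕ} (A : MC n m) (hA : ∀ g, (A.gate g).isNot = false)
    (x y : Fin n → Bool) (h : ∀ i, x i = true → y i = true) (g : ℕ) (hg : g < A.size) :
    A.gateVal x g hg = true → A.gateVal y g hg = true := by
  induction g using Nat.strong_induction_on with
  | _ g ih =>
    rw [MC.gateVal, MC.gateVal]
    have hw : ∀ w : Wire n g, w.val x (fun g' => A.gateVal x g'.val (lt_trans g'.isLt hg)) = true →
        w.val y (fun g' => A.gateVal y g'.val (lt_trans g'.isLt hg)) = true := by
      intro w
      cases w with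
      | const b => exact id
      | var i => exact h i
      | gate u => exact ih u.val u.isLt _
    have h1 := hA ⟨g, hg⟩
    revert h1
    generalize A.gate ⟨g, hg⟩ = G
    intro h1
    cases G with
    | and a b =>
      change (a.val x _ && b.val x _) = true → (a.val y _ && b.val y _) = true
      rw [Bool.and_eq_true, Bool.and_eq_true]
      exact fun h2 => ⟨hw a h2.1, hw b h2.2⟩
    | or a b =>
      change (a.val x _ || b.val x _) = true → (a.val y _ || b.val y _) = true
      rw [Bool.or_eq_true, Bool.or_eq_true]
      exact fun h2 => h2.imp (hw a) (hw b)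
    | not a =>
      exact absurd h1 (by simp [Gate.isNot])

lemma MC.isNot_of_negs {n m : ℕ} (A : MC n m) (hA : A.negs = 0) (g : Fin A.size) :
    (A.gate g).isNot = false := by
  unfold MC.negs at hA
  have h := (Finset.sum_eq_zero_iff.mp hA) g (mem_univ g)
  by_contra h1
  rw [Bool.not_eq_false] at h1
  rw [h1] at h
  simp at h

theorem MComp.monotone {n m s d : ℕ} {f : Fin m → (Fin n → Bool) → Bool} (h : MComp n m s d 0 f)
    (j : Fin m) (x y : Fin n → Bool) (hxy : ∀ i, x i = true → y i = true) (hx : f j x = true) :
    f j y = true := by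
  obtain ⟨A, h1, h2, h3, h4⟩ := h
  rw [← h1] at hx ⊢
  have hA := A.isNot_of_negs (Nat.le_zero.mp h4)
  unfold MC.val at hx ⊢
  revert hx
  cases A.out j with
  | const b => exact id
  | var i => exact hxy i
  | gate u => exact A.gateVal_mono hA x y hxy u.val u.isLt

/-! ### The two rails -/

/-- Is the value of the wire `true`? -/
def Wire.rp {n k k' : ℕ} (f : Fin k → Wire (n + n) k') : Wire n k → Wire (n + n) k'
  | .const b => .const b
  | .var i => .var (Fin.castAdd n i)
  | .gate u => f u

/-- Is the value of the wire `false`? -/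
def Wire.rn {n k k' : ℕ} (f : Fin k → Wire (n + n) k') : Wire n k → Wire (n + n) k'
  | .const b => .const (!b)
  | .var i => .var (Fin.natAdd n i)
  | .gate u => f u

/-- Is the value of the gate `true`? -/
def Gate.rp {n k k' : ℕ} (f1 f0 : Fin k → Wire (n + n) k') : Gate n k → Gate (n + n) k'
  | .and a b => .and (a.rp f1) (b.rp f1)
  | .or a b => .or (a.rp f1) (b.rp f1)
  | .not a => .or (a.rn f0) (a.rn f0)

/-- Is the value of the gate `false`? -/
def Gate.rn {n k k' : ℕ} (f1 f0 : Fin k → Wire (n + n) k') : Gate n k → Gate (n + n) k'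
  | .and a b => .or (a.rn f0) (b.rn f0)
  | .or a b => .and (a.rn f0) (b.rn f0)
  | .not a => .or (a.rp f1) (a.rp f1)

/-- the input with its negation -/
def dbl {n : ℕ} (x : Fin n → Bool) : Fin (n + n) → Bool := Fin.append x (fun i => !x i)

section Rail

variable {n k k' : ℕ} (x : Fin n → Bool) (v : Fin k → Bool) (v' : Fin k' → Bool)
  (f1 f0 : Fin k → Wire (n + n) k')

lemma Wire.rp_val (h1 : ∀ u, (f1 u).val (dbl x) v' = v u) (w : Wire n k) :
    (w.rp f1).val (dbl x) v' = w.val x v := by
  cases w with
  | const b => rfl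
  | var i => exact Fin.append_left x (fun i => !x i) i
  | gate u => exact h1 u

lemma Wire.rn_val (h0 : ∀ u, (f0 u).val (dbl x) v' = !(v u)) (w : Wire n k) :
    (w.rn f0).val (dbl x) v' = !(w.val x v) := by
  cases w with
  | const b => rfl
  | var i => exact Fin.append_right x (fun i => !x i) i
  | gate u => exact h0 u

lemma Gate.rp_val (h1 : ∀ u, (f1 u).val (dbl x) v' = v u)
    (h0 : ∀ u, (f0 u).val (dbl x) v' = !(v u)) (G : Gate n k) :
    (G.rp f1 f0).val (dbl x) v' = G.val x v := by
  cases G with
  | and a b =>
    change ((a.rp f1).val (dbl x) v' && (b.rp f1).val (dbl x) v') = (a.val x v && b.val x v)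
    rw [Wire.rp_val x v v' f1 h1, Wire.rp_val x v v' f1 h1]
  | or a b =>
    change ((a.rp f1).val (dbl x) v' || (b.rp f1).val (dbl x) v') = (a.val x v || b.val x v)
    rw [Wire.rp_val x v v' f1 h1, Wire.rp_val x v v' f1 h1]
  | not a =>
    change ((a.rn f0).val (dbl x) v' || (a.rn f0).val (dbl x) v') = !(a.val x v)
    rw [Bool.or_self, Wire.rn_val x v v' f0 h0]

lemma Gate.rn_val (h1 : ∀ u, (f1 u).val (dbl x) v' = v u)
    (h0 : ∀ u, (f0 u).val (dbl x) v' = !(v u)) (G : Gate n k) :
    (G.rn f1 f0).val (dbl x) v' = !(G.val x v) := by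
  cases G with
  | and a b =>
    change ((a.rn f0).val (dbl x) v' || (b.rn f0).val (dbl x) v') = !(a.val x v && b.val x v)
    rw [Wire.rn_val x v v' f0 h0, Wire.rn_val x v v' f0 h0, Bool.not_and]
  | or a b =>
    change ((a.rn f0).val (dbl x) v' && (b.rn f0).val (dbl x) v') = !(a.val x v || b.val x v)
    rw [Wire.rn_val x v v' f0 h0, Wire.rn_val x v v' f0 h0, Bool.not_or]
  | not a =>
    change ((a.rp f1).val (dbl x) v' || (a.rp f1).val (dbl x) v') = !(!(a.val x v))
    rw [Bool.or_self, Wire.rp_val x v v' f1 h1, Bool.not_not]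

lemma Gate.rp_isNot (G : Gate n k) : (G.rp f1 f0).isNot = false := by
  cases G <;> rfl

lemma Gate.rn_isNot (G : Gate n k) : (G.rn f1 f0).isNot = false := by
  cases G <;> rfl

variable (d : Fin k → ℕ) (d' : Fin k' → ℕ)

lemma Wire.rp_depth (h1 : ∀ u, (f1 u).depth d' ≤ d u) (w : Wire n k) :
    (w.rp f1).depth d' ≤ w.depth d := by
  cases w with
  | const b => exact le_rfl
  | var i => exact le_rfl
  | gate u => exact h1 u

lemma Wire.rn_depth (h0 : ∀ u, (f0 u).depth d' ≤ d u) (w : Wire n k) :
    (w.rn f0).depth d' ≤ w.depth d := by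
  cases w with
  | const b => exact le_rfl
  | var i => exact le_rfl
  | gate u => exact h0 u

lemma Gate.rp_depth (h1 : ∀ u, (f1 u).depth d' ≤ d u) (h0 : ∀ u, (f0 u).depth d' ≤ d u)
    (G : Gate n k) : (G.rp f1 f0).depth d' ≤ G.depth d := by
  cases G with
  | and a b =>
    have e1 := Wire.rp_depth f1 d d' h1 a
    have e2 := Wire.rp_depth f1 d d' h1 b
    change max ((a.rp f1).depth d') ((b.rp f1).depth d') + 1 ≤ max (a.depth d) (b.depth d) + 1
    omega
  | or a b =>
    have e1 := Wire.rp_depth f1 d d' h1 a
    have e2 := Wire.rp_depth f1 d d' h1 b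
    change max ((a.rp f1).depth d') ((b.rp f1).depth d') + 1 ≤ max (a.depth d) (b.depth d) + 1
    omega
  | not a =>
    have e1 := Wire.rn_depth f0 d d' h0 a
    change max ((a.rn f0).depth d') ((a.rn f0).depth d') + 1 ≤ a.depth d + 1
    omega

lemma Gate.rn_depth (h1 : ∀ u, (f1 u).depth d' ≤ d u) (h0 : ∀ u, (f0 u).depth d' ≤ d u)
    (G : Gate n k) : (G.rn f1 f0).depth d' ≤ G.depth d := by
  cases G with
  | and a b =>
    have e1 := Wire.rn_depth f0 d d' h0 a
    have e2 := Wire.rn_depth f0 d d' h0 b
    change max ((a.rn f0).depth d') ((b.rn f0).depth d') + 1 ≤ max (a.depth d) (b.depth d) + 1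
    omega
  | or a b =>
    have e1 := Wire.rn_depth f0 d d' h0 a
    have e2 := Wire.rn_depth f0 d d' h0 b
    change max ((a.rn f0).depth d') ((b.rn f0).depth d') + 1 ≤ max (a.depth d) (b.depth d) + 1
    omega
  | not a =>
    have e1 := Wire.rp_depth f1 d d' h1 a
    change max ((a.rp f1).depth d') ((a.rp f1).depth d') + 1 ≤ a.depth d + 1
    omega

end Rail

section Rail2

variable {n : ℕ} (C : Circuit n)

/-- first rail of the gate number `m`, placed at a position `g` which is large enough -/
def ra1 (g m : ℕ) (hm : m < C.size) (hg : 2 * m ≤ g) : Gate (n + n) g :=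
  (C.gate ⟨m, hm⟩).rp
    (fun u => .gate ⟨2 * u.val, by have := u.isLt; simp only at this; omega⟩)
    (fun u => .gate ⟨2 * u.val + 1, by have := u.isLt; simp only at this; omega⟩)

/-- second rail -/
def ra0 (g m : ℕ) (hm : m < C.size) (hg : 2 * m ≤ g) : Gate (n + n) g :=
  (C.gate ⟨m, hm⟩).rn
    (fun u => .gate ⟨2 * u.val, by have := u.isLt; simp only at this; omega⟩)
    (fun u => .gate ⟨2 * u.val + 1, by have := u.isLt; simp only at this; omega⟩)

/-- the gates of the circuit with two rails -/
def raGate (g : ℕ) (hg : g < 2 * C.size) : Gate (n + n) g :=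
  if g % 2 = 0 then ra1 C g (g / 2) (by omega) (by omega)
  else ra0 C g (g / 2) (by omega) (by omega)

lemma raGate_1 (j : ℕ) (hj : j < C.size) (hg : 2 * j < 2 * C.size) :
    raGate C (2 * j) hg = ra1 C (2 * j) j hj le_rfl := by
  unfold raGate
  rw [if_pos (by omega)]
  have e : 2 * j / 2 = j := by omega
  congr 1

lemma raGate_0 (j : ℕ) (hj : j < C.size) (hg : 2 * j + 1 < 2 * C.size) :
    raGate C (2 * j + 1) hg = ra0 C (2 * j + 1) j hj (Nat.le_succ _) := by
  unfold raGate
  rw [if_neg (by omega)]
  have e : (2 * j + 1) / 2 = j := by omega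
  congr 1

/-- the circuit with two rails -/
def railMC : MC (n + n) 1 where
  size := 2 * C.size
  gate := fun g => raGate C g.val g.isLt
  out := fun _ => .gate ⟨2 * C.out.val, by have := C.out.isLt; omega⟩

lemma rail_val (x : Fin n → Bool) (j : ℕ) (hj : j < C.size) :
    (railMC C).gateVal (dbl x) (2 * j) (by change _ < 2 * C.size; omega) = C.gateVal x j hj ∧
    (railMC C).gateVal (dbl x) (2 * j + 1) (by change _ < 2 * C.size; omega) =
      !(C.gateVal x j hj) := by
  induction j using Nat.strong_induction_on with
  | _ j ih =>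
    constructor
    · rw [MC.gateVal, Circuit.gateVal]
      change (raGate C (2 * j) (by omega)).val (dbl x) _ = _
      rw [raGate_1 C j hj]
      unfold ra1
      apply Gate.rp_val
      · intro u
        exact (ih u.val u.isLt (lt_trans u.isLt hj)).1
      · intro u
        exact (ih u.val u.isLt (lt_trans u.isLt hj)).2
    · rw [MC.gateVal, Circuit.gateVal]
      change (raGate C (2 * j + 1) (by omega)).val (dbl x) _ = _
      rw [raGate_0 C j hj]
      unfold ra0
      apply Gate.rn_val
      · intro u
        exact (ih u.val u.isLt (lt_trans u.isLt hj)).1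
      · intro u
        exact (ih u.val u.isLt (lt_trans u.isLt hj)).2

lemma rail_depth (j : ℕ) (hj : j < C.size) :
    (railMC C).gateDepth (2 * j) (by change _ < 2 * C.size; omega) ≤ C.gateDepth j hj ∧
    (railMC C).gateDepth (2 * j + 1) (by change _ < 2 * C.size; omega) ≤ C.gateDepth j hj := by
  induction j using Nat.strong_induction_on with
  | _ j ih =>
    constructor
    · rw [MC.gateDepth, Circuit.gateDepth]
      change (raGate C (2 * j) (by omega)).depth _ ≤ _
      rw [raGate_1 C j hj]
      unfold ra1
      apply Gate.rp_depth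
      · intro u
        exact (ih u.val u.isLt (lt_trans u.isLt hj)).1
      · intro u
        exact (ih u.val u.isLt (lt_trans u.isLt hj)).2
    · rw [MC.gateDepth, Circuit.gateDepth]
      change (raGate C (2 * j + 1) (by omega)).depth _ ≤ _
      rw [raGate_0 C j hj]
      unfold ra0
      apply Gate.rn_depth
      · intro u
        exact (ih u.val u.isLt (lt_trans u.isLt hj)).1
      · intro u
        exact (ih u.val u.isLt (lt_trans u.isLt hj)).2

lemma rail_negs : (railMC C).negs = 0 := by
  unfold MC.negs
  apply Finset.sum_eq_zero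
  intro g _
  have e : ((railMC C).gate g).isNot = false := by
    change (raGate C g.val g.isLt).isNot = false
    unfold raGate
    split_ifs
    · unfold ra1
      rw [Gate.rp_isNot]
    · unfold ra0
      rw [Gate.rn_isNot]
  rw [e]
  simp

end Rail2

/-- Pushing the NOT gates to the inputs. -/
theorem exists_rail {n : ℕ} (C : Circuit n) : ∃ R : (Fin (n + n) → Bool) → Bool,
    MComp (n + n) 1 (2 * C.size) C.depth 0 (fun _ => R) ∧ ∀ x, R (dbl x) = C.eval x :=
  ⟨fun z => (railMC C).val z 0, ⟨railMC C, fun x j => by rw [Subsingleton.elim j 0], le_rfl,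
    fun _ => (rail_depth C C.out.val C.out.isLt).1, (rail_negs C).le⟩,
    fun x => (rail_val C x C.out.val C.out.isLt).1⟩

/-! ### Guessing the weight -/

/-- the number of ones -/
def wt {n : ℕ} (x : Fin n → Bool) : ℕ := (univ.filter (fun i => x i = true)).card

/-- correct for the `j` weights below `K` -/
def gj {n : ℕ} (R : (Fin (n + n) → Bool) → Bool) (K : ℕ) : ℕ → (Fin n → Bool) → Bool
  | 0, x => decide (K ≤ wt x)
  | j + 1, x => R (Fin.append x (fun i => gj R K j (Function.update x i true)))

lemma wt_update {n : ℕ} (x : Fin n → Bool) (i : Fin n) (hi : x i = false) :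
    wt (Function.update x i true) = wt x + 1 := by
  unfold wt
  have : univ.filter (fun a => Function.update x i true a = true) =
      insert i (univ.filter (fun a => x a = true)) := by
    ext a
    simp only [mem_filter, mem_univ, true_and, mem_insert]
    by_cases h : a = i
    · subst h
      simp
    · simp [h]
  rw [this, Finset.card_insert_of_notMem]
  simp [hi]

section Guess

variable {n : ℕ} (R : (Fin (n + n) → Bool) → Bool) (f : (Fin n → Bool) → Bool)
  (hR : ∀ x y, (∀ i, x i = true → y i = true) → R x = true → R y = true)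
  (hf : ∀ x y, (∀ i, x i = true → y i = true) → f x = true → f y = true)
  (hRf : ∀ x, R (dbl x) = f x)

include hR hf hRf

lemma gj_true (K j : ℕ) (x : Fin n → Bool) (hx : f x = true) (hw : K ≤ wt x + j) :
    gj R K j x = true := by
  induction j generalizing x with
  | zero => exact decide_eq_true hw
  | succ j ih =>
    unfold gj
    apply hR (dbl x) _ _ ((hRf x).trans hx)
    intro i
    refine Fin.addCases (fun i => ?_) (fun i => ?_) i
    · unfold dbl
      rw [Fin.append_left, Fin.append_left]
      exact id
    · unfold dbl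
      rw [Fin.append_right, Fin.append_right]
      intro h
      have h0 : x i = false := by simpa using h
      apply ih
      · apply hf x _ _ hx
        intro a ha
        by_cases h1 : a = i
        · subst h1
          simp
        · rw [Function.update_of_ne h1]
          exact ha
      · rw [wt_update x i h0]
        omega

omit hf in
lemma gj_false (K j : ℕ) (x : Fin n → Bool) (hx : f x = false) (hw : wt x < K) :
    gj R K j x = false := by
  induction j with
  | zero => exact decide_eq_false (not_le.mpr hw)
  | succ j ih =>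
    unfold gj
    by_contra h
    rw [Bool.not_eq_false] at h
    have h2 := hR _ (dbl x) ?_ h
    · rw [hRf x, hx] at h2
      exact absurd h2 (by simp)
    · intro i
      refine Fin.addCases (fun i => ?_) (fun i => ?_) i
      · unfold dbl
        rw [Fin.append_left, Fin.append_left]
        exact id
      · unfold dbl
        rw [Fin.append_right, Fin.append_right]
        intro h3
        cases hxi : x i with
        | false => rfl
        | true =>
          have e : Function.update x i true = x := by
            rw [← hxi]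
            exact Function.update_eq_self i x
          rw [e, ih] at h3
          exact absurd h3 (by simp)

/-- In the window the function is computed. -/
theorem gj_eq (K j : ℕ) (x : Fin n → Bool) (h1 : wt x < K) (h2 : K ≤ wt x + j) :
    gj R K j x = f x := by
  cases h : f x with
  | true => exact gj_true R f hR hf hRf K j x h h2
  | false => exact gj_false R f hR hRf K j x h h1

end Guess

/-- circuits without NOT gates -/
theorem gj_comp {n s d S D : ℕ} (R : (Fin (n + n) → Bool) → Bool)
    (hR : MComp (n + n) 1 s d 0 (fun _ => R))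
    (K : ℕ) (h0 : MComp n 1 S D 0 (fun _ x => decide (K ≤ wt x))) (j : ℕ) :
    MComp n 1 ((n + 1) ^ j * (S + s)) (D + j * d) 0 (fun _ => gj R K j) := by
  induction j with
  | zero =>
    refine h0.mono ?_ ?_ le_rfl |>.congr (fun j x => rfl)
    · simp
    · simp
  | succ j ih =>
    have h1 : MComp n n (n * (0 + (n + 1) ^ j * (S + s))) (0 + (D + j * d)) (n * (0 + 0))
        (fun (i : Fin n) x => gj R K j (Function.update x i true)) := by
      apply MComp.family
      intro i
      refine ((MComp.proj (fun a : Fin n => if a = i then Sum.inl true else Sum.inr a)).comp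
        ih).congr (fun _ x => ?_)
      congr 1
      funext a
      by_cases h : a = i
      · subst h
        simp
      · simp [h]
    have h2 : MComp n n 0 (0 + (D + j * d)) 0 (fun (i : Fin n) x => x i) :=
      ((MComp.proj (fun a : Fin n => (Sum.inr a : Bool ⊕ Fin n))).mono le_rfl
        (Nat.zero_le _) le_rfl).congr (fun _ _ => rfl)
    have h3 := (h2.par h1).comp hR
    refine (h3.mono ?_ ?_ ?_).congr (fun _ x => ?_)
    · have : n * ((n + 1) ^ j * (S + s)) + s ≤ (n + 1) ^ (j + 1) * (S + s) := by
        have e : (n + 1) ^ (j + 1) * (S + s) = n * ((n + 1) ^ j * (S + s)) +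
          (n + 1) ^ j * (S + s) := by ring
        have e2 : 1 * (S + s) ≤ (n + 1) ^ j * (S + s) :=
          Nat.mul_le_mul_right _ (Nat.one_le_pow _ _ (Nat.succ_pos n))
        omega
      rw [Nat.zero_add, Nat.zero_add]
      exact this
    · rw [Nat.succ_mul]
      omega
    · simp
    · change R _ = R _
      congr 1
      funext i
      refine Fin.addCases (fun i => ?_) (fun i => ?_) i
      · rw [Fin.append_left, Fin.append_left]
      · rw [Fin.append_right, Fin.append_right]

end Pool.Agent.Results.MP_2af48a_lc.FewNegations
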