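import Pool.Agent.Lib_MP_2af48a_lc.NarrowUpper

/-!
# Selection with few NOT gates

For sorted bits `s 0 ≥ s 1 ≥ ...` (`2 ^ t - 1` bits) the value `v q`, where `q` is the number of
ones among the bits `s i`, is computed by a circuit with `t` NOT gates.
-/

open Finset

namespace Pool.Agent.Results.MP_2af48a_lc.FewNegations

namespace NS

/-- the functions `F i` are computed by the first `s` gates of some sequence of gates with at most
`r` NOT gates, in depth at most `d` -/
def CompN {n : ℕ} {ι : Type} (s d r : ℕ) (F : ι → (Fin n → Bool) → Bool) : Prop :=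
  ∃ G : (g : ℕ) → Gate n g, (∑ g ∈ range s, (G g).isNot.toNat) ≤ r ∧
    ∃ p : ι → ℕ, ∀ i, p i < s ∧ tdep G (p i) ≤ d ∧ ∀ x, tval G x (p i) = F i x

/-- a gate over sources -/
inductive GSrc (ι : Type) (n : ℕ)
  | and (a b : Src ι n)
  | or (a b : Src ι n)
  | not (a : Src ι n)

/-- value -/
def GSrc.val {ι : Type} {n : ℕ} (F : ι → (Fin n → Bool) → Bool) (x : Fin n → Bool) :
    GSrc ι n → Bool
  | .and a b => a.val F x && b.val F x
  | .or a b => a.val F x || b.val F x
  | .not a => !(a.val F x)

/-- the gate -/
def GSrc.gate {ι : Type} {n : ℕ} (p : ι → ℕ) (g : ℕ) : GSrc ι n → Gate n g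
  | .and a b => .and (a.wire p g) (b.wire p g)
  | .or a b => .or (a.wire p g) (b.wire p g)
  | .not a => .not (a.wire p g)

/-- is it a NOT gate? -/
def GSrc.isNot {ι : Type} {n : ℕ} : GSrc ι n → Bool
  | .and _ _ => false
  | .or _ _ => false
  | .not _ => true

lemma GSrc.gate_isNot {ι : Type} {n : ℕ} (p : ι → ℕ) (g : ℕ) (c : GSrc ι n) :
    (c.gate p g).isNot = c.isNot := by
  cases c <;> rfl

/-- Adding one layer of gates. -/
theorem CompN.layer {n : ℕ} {ι κ : Type} [Fintype κ] {s d r : ℕ}
    {F : ι → (Fin n → Bool) → Bool} (hF : CompN s d r F) (c : κ → GSrc ι n) :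
    CompN (s + Fintype.card κ) (d + 1) (r + ∑ j, (c j).isNot.toNat)
      (Sum.elim F (fun j x => (c j).val F x)) := by
  classical
  obtain ⟨G, hG, p, hp⟩ := hF
  let e := Fintype.equivFin κ
  let G' : (g : ℕ) → Gate n g := fun g =>
    if g < s then G g else if h : g - s < Fintype.card κ then (c (e.symm ⟨g - s, h⟩)).gate p g
      else G g
  have hsame : ∀ g < s, G' g = G g := by
    intro g hg
    simp only [G', if_pos hg]
  have hnew' : ∀ i : Fin (Fintype.card κ),
      G' (s + i.val) = (c (e.symm i)).gate p (s + i.val) := by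
    intro i
    have h1 : ¬ (s + i.val < s) := by omega
    have h2 : s + i.val - s < Fintype.card κ := by
      have := i.isLt
      omega
    simp only [G', if_neg h1, dif_pos h2]
    congr 3
    apply Fin.ext
    simp
  have hnew : ∀ j, G' (s + (e j).val) = (c j).gate p (s + (e j).val) := by
    intro j
    have := hnew' (e j)
    rw [Equiv.symm_apply_apply] at this
    exact this
  have hwire : ∀ (a : Src ι n) (j : κ) (x : Fin n → Bool),
      (a.wire p (s + (e j).val)).val x (fun g' => tval G' x g'.val) = a.val F x := by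
    intro a j x
    cases a with
    | fn i =>
      have h1 : p i < s + (e j).val := lt_of_lt_of_le (hp i).1 (Nat.le_add_right _ _)
      simp only [Src.wire, dif_pos h1, Wire.val, Src.val]
      rw [tval_congr G' G s hsame x _ (hp i).1, (hp i).2.2]
    | var i => rfl
    | cst b => rfl
  have hwdep : ∀ (a : Src ι n) (j : κ),
      (a.wire p (s + (e j).val)).depth (fun g' => tdep G' g'.val) ≤ d := by
    intro a j
    cases a with
    | fn i =>
      have h1 : p i < s + (e j).val := lt_of_lt_of_le (hp i).1 (Nat.le_add_right _ _)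
      simp only [Src.wire, dif_pos h1, Wire.depth]
      rw [tdep_congr G' G s hsame _ (hp i).1]
      exact (hp i).2.1
    | var i => exact Nat.zero_le _
    | cst b => exact Nat.zero_le _
  refine ⟨G', ?_, Sum.elim p (fun j => s + (e j).val), ?_⟩
  · rw [Finset.sum_range_add]
    apply Nat.add_le_add
    · refine le_trans (le_of_eq ?_) hG
      apply Finset.sum_congr rfl
      intro g hg
      rw [hsame g (Finset.mem_range.mp hg)]
    · rw [Finset.sum_range, ← Equiv.sum_comp e.symm (fun j => (c j).isNot.toNat)]
      apply le_of_eq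
      apply Finset.sum_congr rfl
      intro i _
      rw [hnew' i, GSrc.gate_isNot]
  · intro i
    rcases i with i | j
    · refine ⟨lt_of_lt_of_le (hp i).1 (Nat.le_add_right _ _), ?_, fun x => ?_⟩
      · simp only [Sum.elim_inl]
        rw [tdep_congr G' G s hsame _ (hp i).1]
        exact le_trans (hp i).2.1 (Nat.le_succ _)
      · simp only [Sum.elim_inl]
        rw [tval_congr G' G s hsame x _ (hp i).1]
        exact (hp i).2.2 x
    · refine ⟨?_, ?_, fun x => ?_⟩
      · simp only [Sum.elim_inr]
        have := (e j).isLt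
        omega
      · simp only [Sum.elim_inr]
        rw [tdep_eq, hnew]
        cases hc : c j with
        | and a b =>
          have h1 := hwdep a j
          have h2 := hwdep b j
          show max _ _ + 1 ≤ _
          omega
        | or a b =>
          have h1 := hwdep a j
          have h2 := hwdep b j
          show max _ _ + 1 ≤ _
          omega
        | not a =>
          have h1 := hwdep a j
          show _ + 1 ≤ _
          omega
      · simp only [Sum.elim_inr]
        rw [tval_eq, hnew]
        cases hc : c j with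
        | and a b =>
          show (_ && _) = (_ && _)
          rw [hwire a j x, hwire b j x]
        | or a b =>
          show (_ || _) = (_ || _)
          rw [hwire a j x, hwire b j x]
        | not a =>
          show (!_) = (!_)
          rw [hwire a j x]

/-- Change of the index set. -/
lemma CompN.reindex {n : ℕ} {ι κ : Type} {s d r s' d' r' : ℕ} {F : ι → (Fin n → Bool) → Bool}
    (hF : CompN s d r F) (hs : s ≤ s') (hd : d ≤ d') (hr : r ≤ r')
    (F' : κ → (Fin n → Bool) → Bool)
    (q : κ → ι) (hq : ∀ j x, F' j x = F (q j) x) : CompN s' d' r' F' := by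
  obtain ⟨G, hG, p, hp⟩ := hF
  have hsame : ∀ g < s, (fun g => if g < s then G g else .or (.const false) (.const false) :
      (g : ℕ) → Gate n g) g = G g := by
    intro g hg
    simp only [if_pos hg]
  refine ⟨fun g => if g < s then G g else .or (.const false) (.const false), ?_, fun j => p (q j), ?_⟩
  · obtain ⟨m, hm⟩ : ∃ m, s' = s + m := ⟨s' - s, by omega⟩
    rw [hm, Finset.sum_range_add]
    have e1 : ∑ g ∈ range s, ((fun g => if g < s then G g else .or (.const false) (.const false) :
        (g : ℕ) → Gate n g) g).isNot.toNat = ∑ g ∈ range s, (G g).isNot.toNat := by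
      apply Finset.sum_congr rfl
      intro g hg
      rw [hsame g (Finset.mem_range.mp hg)]
    have e2 : ∑ j ∈ range m, ((fun g => if g < s then G g else .or (.const false) (.const false) :
        (g : ℕ) → Gate n g) (s + j)).isNot.toNat = 0 := by
      apply Finset.sum_eq_zero
      intro j _
      have h1 : ¬ (s + j < s) := by omega
      simp only [if_neg h1]
      rfl
    rw [e1, e2]
    omega
  · intro j
    obtain ⟨h1, h2, h3⟩ := hp (q j)
    refine ⟨lt_of_lt_of_le h1 hs, ?_, fun x => ?_⟩
    · rw [tdep_congr _ G s hsame _ h1]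
      exact le_trans h2 hd
    · rw [tval_congr _ G s hsame x _ h1, h3, hq]

theorem CompN.circuit {n : ℕ} {ι : Type} {s d r : ℕ} {F : ι → (Fin n → Bool) → Bool}
    (hF : CompN s d r F) (i : ι) : ∃ C : Circuit n, C.size = s ∧ C.depth ≤ d ∧
      C.negations ≤ r ∧ ∀ x, C.eval x = F i x := by
  obtain ⟨G, hG, p, hp⟩ := hF
  obtain ⟨h1, h2, h3⟩ := hp i
  let C : Circuit n := ⟨s, fun g => G g.val, ⟨p i, h1⟩⟩
  refine ⟨C, rfl, ?_, ?_, fun x => ?_⟩
  · have h4 := gateDepth_le C (fun g => tdep G g) (fun g hg => by
      rw [tdep_eq G g]) (p i) h1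
    exact le_trans h4 h2
  · refine le_trans (le_of_eq ?_) hG
    unfold Circuit.negations
    rw [Finset.card_filter, Finset.sum_range]
    apply Finset.sum_congr rfl
    intro g _
    show (if (G g.val).isNot = true then 1 else 0) = _
    cases (G g.val).isNot <;> rfl
  · have h4 := gateVal_unique C x (fun g => tval G x g) (fun g hg => by
      rw [tval_eq G x g]) (p i) h1
    exact h4.trans (h3 x)

/-! ### The selection -/

/-- The selected value. -/
def selv : ℕ → (ℕ → Bool) → (ℕ → Bool) → Bool
  | 0 => fun _ v => v 0
  | t + 1 => fun s v => selv t (fun i => (s i && !(s (2 ^ t - 1))) || s (2 ^ t + i))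
      (fun i => (v i && !(s (2 ^ t - 1))) || (v (2 ^ t + i) && s (2 ^ t - 1)))

lemma selv_congr (t : ℕ) : ∀ (s s' v v' : ℕ → Bool), (∀ i, i + 1 < 2 ^ t → s i = s' i) →
    (∀ i < 2 ^ t, v i = v' i) → selv t s v = selv t s' v' := by
  induction t with
  | zero => intro s s' v v' _ hv; exact hv 0 (by norm_num)
  | succ t ih =>
    intro s s' v v' hs hv
    have hp : 1 ≤ 2 ^ t := Nat.one_le_two_pow
    have h2 : 2 ^ (t + 1) = 2 ^ t + 2 ^ t := by rw [pow_succ, mul_two]
    have e : s (2 ^ t - 1) = s' (2 ^ t - 1) := hs _ (by omega)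
    refine ih _ _ _ _ (fun i hi => ?_) (fun i hi => ?_)
    · rw [hs i (by omega), hs (2 ^ t + i) (by omega), e]
    · rw [hv i (by omega), hv (2 ^ t + i) (by omega), e]

/-- The value which is selected. -/
lemma selv_eq (t : ℕ) : ∀ (s v : ℕ → Bool) (q : ℕ), q < 2 ^ t →
    (∀ i, i + 1 < 2 ^ t → (s i = true ↔ i < q)) → selv t s v = v q := by
  induction t with
  | zero =>
    intro s v q hq _
    have : q = 0 := by simpa using hq
    subst this
    rfl
  | succ t ih =>
    intro s v q hq hs
    have hp : 1 ≤ 2 ^ t := Nat.one_le_two_pow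
    have h2 : 2 ^ (t + 1) = 2 ^ t + 2 ^ t := by rw [pow_succ, mul_two]
    show selv t _ _ = _
    by_cases hm : q < 2 ^ t
    · have e : s (2 ^ t - 1) = false := by
        have := hs (2 ^ t - 1) (by omega)
        rw [← Bool.not_eq_true, this]
        omega
      rw [ih _ _ q hm (fun i hi => ?_)]
      · simp [e]
      · rw [e]
        have h3 := hs i (by omega)
        have h4 := hs (2 ^ t + i) (by omega)
        simp only [Bool.not_false, Bool.and_true, Bool.or_eq_true]
        rw [h3, h4]
        omega
    · have e : s (2 ^ t - 1) = true := by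
        rw [hs (2 ^ t - 1) (by omega)]
        omega
      rw [ih _ _ (q - 2 ^ t) (by omega) (fun i hi => ?_)]
      · simp only [e, Bool.not_true, Bool.and_false, Bool.false_or, Bool.and_true]
        congr 1
        omega
      · rw [e]
        have h4 := hs (2 ^ t + i) (by omega)
        simp only [Bool.not_true, Bool.and_false, Bool.false_or]
        rw [h4]
        omega

/-- The circuit. -/
theorem sel_comp {n : ℕ} (t : ℕ) : ∀ (ι : Type) (s d r : ℕ) (F : ι → (Fin n → Bool) → Bool),
    CompN s d r F → ∀ S V : ℕ → Src ι n, CompN (s + 6 * 2 ^ t) (d + 3 * t + 1) (r + t)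
      (fun (_ : Unit) x => selv t (fun i => (S i).val F x) (fun i => (V i).val F x)) := by
  induction t with
  | zero =>
    intro ι s d r F hF S V
    have c := hF.layer (fun _ : Unit => GSrc.or (V 0) (V 0))
    refine c.reindex (by simp) (by omega) ?_ _ (fun _ => Sum.inr ()) (fun _ x => ?_)
    · simp [GSrc.isNot]
    · simp only [Sum.elim_inr, GSrc.val, Bool.or_self]
      rfl
  | succ t ih =>
    intro ι s d r F hF S V
    obtain ⟨m, hm⟩ : ∃ m, m = 2 ^ t := ⟨_, rfl⟩
    -- the NOT gate
    have c1 := hF.layer (fun _ : Unit => GSrc.not (S (m - 1)))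
    -- sources for the old functions
    let up : Src ι n → Src (ι ⊕ Unit) n := fun a => match a with
      | .fn i => .fn (Sum.inl i)
      | .var i => .var i
      | .cst b => .cst b
    have hup : ∀ (a : Src ι n) (x : Fin n → Bool),
        (up a).val (Sum.elim F (fun (_ : Unit) x => (GSrc.not (S (m - 1))).val F x)) x =
          a.val F x := by
      intro a x
      cases a <;> rfl
    -- the AND gates
    have c2 : CompN (s + 1 + 3 * m) (d + 1 + 1) (r + 1)
        (fun (j : ι ⊕ (Fin 3 × Fin m)) x => match j with
          | Sum.inl i => F i x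
          | Sum.inr j => if j.1 = 0 then ((S j.2.val).val F x && !((S (m - 1)).val F x))
            else if j.1 = 1 then ((V j.2.val).val F x && !((S (m - 1)).val F x))
            else ((V (m + j.2.val)).val F x && (S (m - 1)).val F x)) := by
      have c := c1.layer (fun j : Fin 3 × Fin m =>
        if j.1 = 0 then GSrc.and (up (S j.2.val)) (.fn (Sum.inr ()))
        else if j.1 = 1 then GSrc.and (up (V j.2.val)) (.fn (Sum.inr ()))
        else GSrc.and (up (V (m + j.2.val))) (up (S (m - 1))))
      refine c.reindex (le_of_eq ?_) le_rfl ?_ _ (fun j => match j with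
        | Sum.inl i => Sum.inl (Sum.inl i)
        | Sum.inr j => Sum.inr j) (fun j x => ?_)
      · simp only [Fintype.card_unit, Fintype.card_prod, Fintype.card_fin]
      · have e2 : ∑ j : Fin 3 × Fin m, (if j.1 = 0 then
            (GSrc.and (up (S j.2.val)) (.fn (Sum.inr ())) : GSrc (ι ⊕ Unit) n)
          else if j.1 = 1 then GSrc.and (up (V j.2.val)) (.fn (Sum.inr ()))
          else GSrc.and (up (V (m + j.2.val))) (up (S (m - 1)))).isNot.toNat = 0 := by
          apply Finset.sum_eq_zero
          intro j _
          split_ifs <;> rfl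
        have e1 : ∑ _j : Unit, (GSrc.not (S (m - 1)) : GSrc ι n).isNot.toNat = 1 := by
          simp [GSrc.isNot]
        rw [e1, e2]
      · rcases j with i | j
        · rfl
        · show _ = (if j.1 = 0 then
              (GSrc.and (up (S j.2.val)) (.fn (Sum.inr ())) : GSrc (ι ⊕ Unit) n)
            else if j.1 = 1 then GSrc.and (up (V j.2.val)) (.fn (Sum.inr ()))
            else GSrc.and (up (V (m + j.2.val))) (up (S (m - 1)))).val _ x
          by_cases h0 : j.1 = 0
          · simp only [h0, if_true]
            show _ = ((up (S j.2.val)).val _ x && _)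
            rw [hup]
            rfl
          · by_cases h1 : j.1 = 1
            · simp only [h1, if_true]
              show _ = ((up (V j.2.val)).val _ x && _)
              rw [hup]
              rfl
            · simp only [h0, h1, if_false]
              show _ = ((up (V (m + j.2.val))).val _ x && (up (S (m - 1))).val _ x)
              rw [hup, hup]
    let up2 : Src ι n → Src (ι ⊕ (Fin 3 × Fin m)) n := fun a => match a with
      | .fn i => .fn (Sum.inl i)
      | .var i => .var i
      | .cst b => .cst b
    -- the OR gates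
    have c3 : CompN (s + 1 + 3 * m + 2 * m) (d + 1 + 1 + 1) (r + 1)
        (fun (j : Fin 2 × Fin m) x => if j.1 = 0 then
          ((S j.2.val).val F x && !((S (m - 1)).val F x)) || (S (m + j.2.val)).val F x
          else ((V j.2.val).val F x && !((S (m - 1)).val F x)) ||
            ((V (m + j.2.val)).val F x && (S (m - 1)).val F x)) := by
      have c := c2.layer (fun j : Fin 2 × Fin m =>
        if j.1 = 0 then GSrc.or (.fn (Sum.inr (0, j.2))) (up2 (S (m + j.2.val)))
        else GSrc.or (.fn (Sum.inr (1, j.2))) (.fn (Sum.inr (2, j.2))))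
      refine c.reindex (le_of_eq ?_) le_rfl ?_ _ (fun j => Sum.inr j) (fun j x => ?_)
      · simp only [Fintype.card_prod, Fintype.card_fin]
      · have e3 : ∑ j : Fin 2 × Fin m, (if j.1 = 0 then
            (GSrc.or (.fn (Sum.inr (0, j.2))) (up2 (S (m + j.2.val))) :
              GSrc (ι ⊕ (Fin 3 × Fin m)) n)
          else GSrc.or (.fn (Sum.inr (1, j.2))) (.fn (Sum.inr (2, j.2)))).isNot.toNat = 0 := by
          apply Finset.sum_eq_zero
          intro j _
          split_ifs <;> rfl
        rw [e3]
      · have hup2 : ∀ (a : Src ι n) (H : ι ⊕ (Fin 3 × Fin m) → (Fin n → Bool) → Bool),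
            (∀ i, H (Sum.inl i) x = F i x) → (up2 a).val H x = a.val F x := by
          intro a H h
          cases a with
          | fn i => exact h i
          | var i => rfl
          | cst b => rfl
        show _ = (if j.1 = 0 then
            (GSrc.or (.fn (Sum.inr (0, j.2))) (up2 (S (m + j.2.val))) :
              GSrc (ι ⊕ (Fin 3 × Fin m)) n)
          else GSrc.or (.fn (Sum.inr (1, j.2))) (.fn (Sum.inr (2, j.2)))).val _ x
        by_cases h0 : j.1 = 0
        · simp only [h0, if_true]
          show _ = (_ || (up2 (S (m + j.2.val))).val _ x)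
          rw [hup2 _ _ (fun i => rfl)]
          rfl
        · simp only [h0, if_false]
          rfl
    have c4 := ih _ _ _ _ _ c3
      (fun i => if h : i < m then .fn (0, ⟨i, h⟩) else .cst false)
      (fun i => if h : i < m then .fn (1, ⟨i, h⟩) else .cst false)
    refine c4.reindex ?_ (by omega) (by omega) _ (fun j => j) (fun _ x => ?_)
    · have hp : 1 ≤ 2 ^ t := Nat.one_le_two_pow
      rw [pow_succ]
      omega
    · show selv t _ _ = selv t _ _
      rw [← hm]
      refine selv_congr t _ _ _ _ (fun i hi => ?_) (fun i hi => ?_)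
      · have hi' : i < m := by omega
        rw [dif_pos hi']
        rfl
      · have hi' : i < m := by omega
        rw [dif_pos hi']
        rfl

/-- **Selection with `t` NOT gates.** The inputs are `2 ^ t` sorted bits (the last one is ignored)
and `2 ^ t` values. -/
theorem sel_circuit (t : ℕ) : ∃ C : Circuit (2 * 2 ^ t), C.size ≤ 7 * 2 ^ t ∧
    C.depth ≤ 3 * t + 2 ∧ C.negations ≤ t ∧
    ∀ (x : Fin (2 * 2 ^ t) → Bool) (q : ℕ) (hq : q < 2 ^ t),
      (∀ (i : ℕ) (hi : i + 1 < 2 ^ t), x ⟨i, by omega⟩ = true ↔ i < q) →
      C.eval x = x ⟨2 ^ t + q, by omega⟩ := by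
  have c0 : CompN (n := 2 * 2 ^ t) 1 1 0 (fun (_ : Unit) (_ : Fin (2 * 2 ^ t) → Bool) => true) := by
    refine ⟨fun g => .or (.const true) (.const true), by simp [Gate.isNot], fun _ => 0,
      fun p => ⟨Nat.zero_lt_one, ?_, fun x => ?_⟩⟩
    · rw [tdep_eq]
      simp [Gate.depth, Wire.depth]
    · rw [tval_eq]
      simp [Gate.val, Wire.val]
  have c := sel_comp t _ _ _ _ _ c0
    (fun i => if h : i < 2 ^ t then .var ⟨i, by omega⟩ else .cst false)
    (fun i => if h : i < 2 ^ t then .var ⟨2 ^ t + i, by omega⟩ else .cst false)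
  obtain ⟨C, h1, h2, h3, h4⟩ := c.circuit ()
  have hp : 1 ≤ 2 ^ t := Nat.one_le_two_pow
  refine ⟨C, by omega, by omega, by omega, fun x q hq hs => ?_⟩
  rw [h4]
  rw [selv_eq t _ _ q hq (fun i hi => ?_)]
  · rw [dif_pos hq]
    rfl
  · rw [dif_pos (by omega : i < 2 ^ t)]
    exact hs i hi

end NS

end Pool.Agent.Results.MP_2af48a_lc.FewNegations
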