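import Pool.Agent.Lib_MP_2af48a_lc.NarrowUpper

/-!
# Threshold functions without NOT gates

The number of true variables in a block of length `2 ^ (l + 1)` is at least `k` if and only if
for some `i ≤ k` there are at least `i` in its first half and at least `k - i` in its second half.
-/

open Finset

namespace Pool.Agent.Results.MP_2af48a_lc.FewNegations

namespace HT

/-- number of `j < m` with `y j = true` -/
def ct (y : ℕ → Bool) (m : ℕ) : ℕ := ∑ j ∈ range m, (y j).toNat

/-- number of `j` in the block `b` of length `2 ^ l` with `y j = true` -/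
def cb (y : ℕ → Bool) (l b : ℕ) : ℕ := ct (fun j => y (b * 2 ^ l + j)) (2 ^ l)

lemma ct_add (y : ℕ → Bool) (a b : ℕ) : ct y (a + b) = ct y a + ct (fun j => y (a + j)) b := by
  unfold ct
  exact Finset.sum_range_add (fun j => (y j).toNat) a b

lemma cb_succ (y : ℕ → Bool) (l b : ℕ) :
    cb y (l + 1) b = cb y l (2 * b) + cb y l (2 * b + 1) := by
  unfold cb
  rw [pow_succ, mul_two, ct_add]
  congr 1
  · unfold ct
    apply Finset.sum_congr rfl
    intro j _
    show (y (b * (2 ^ l + 2 ^ l) + j)).toNat = (y (2 * b * 2 ^ l + j)).toNat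
    rw [show b * (2 ^ l + 2 ^ l) + j = 2 * b * 2 ^ l + j by ring]
  · unfold ct
    apply Finset.sum_congr rfl
    intro j _
    show (y (b * (2 ^ l + 2 ^ l) + (2 ^ l + j))).toNat = (y ((2 * b + 1) * 2 ^ l + j)).toNat
    rw [show b * (2 ^ l + 2 ^ l) + (2 ^ l + j) = (2 * b + 1) * 2 ^ l + j by ring]

lemma cb_zero (y : ℕ → Bool) (b : ℕ) : cb y 0 b = (y b).toNat := by
  unfold cb ct
  simp

lemma cb_eq_zero (y : ℕ → Bool) (l b m : ℕ) (hy : ∀ j, m ≤ j → y j = false) (hb : m ≤ b) :
    cb y l b = 0 := by
  unfold cb ct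
  apply Finset.sum_eq_zero
  intro j _
  have h1 : b ≤ b * 2 ^ l := Nat.le_mul_of_pos_right _ (by positivity)
  show (y (b * 2 ^ l + j)).toNat = 0
  rw [hy _ (by omega)]
  rfl

/-- the whole input is one block -/
lemma cb_all {n : ℕ} (x : Fin n → Bool) (l : ℕ) (hl : n ≤ 2 ^ l) :
    cb (ext x) l 0 = (univ.filter (fun i => x i = true)).card := by
  unfold cb ct
  obtain ⟨m, hm⟩ : ∃ m, 2 ^ l = n + m := ⟨2 ^ l - n, by omega⟩
  rw [hm, Finset.sum_range_add]
  have e2 : ∑ j ∈ range m, (ext x (0 * (n + m) + (n + j))).toNat = 0 := by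
    apply Finset.sum_eq_zero
    intro j _
    have : ext x (0 * (n + m) + (n + j)) = false := by simp [ext]
    rw [this]
    rfl
  rw [e2, add_zero, Finset.sum_range, Finset.card_filter]
  apply Finset.sum_congr rfl
  intro i _
  have : ext x (0 * (n + m) + i.val) = x i := by simp [ext]
  show (ext x (0 * (n + m) + i.val)).toNat = _
  rw [this]
  cases x i <;> rfl

/-- merging -/
lemma thr_merge (p q k : ℕ) : decide (k ≤ p + q) = decide (∃ i ≤ k, i ≤ p ∧ k - i ≤ q) := by
  apply Bool.eq_iff_iff.mpr
  simp only [decide_eq_true_eq]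
  constructor
  · intro h
    exact ⟨min k p, Nat.min_le_left _ _, Nat.min_le_right _ _, by omega⟩
  · rintro ⟨i, h1, h2, h3⟩
    omega

/-- All thresholds of all blocks of length `2 ^ l`. -/
theorem cb_comp (n l2 : ℕ) (h2 : n + 2 ≤ 2 ^ l2) : ∀ l : ℕ,
    Comp (1 + (n + 1) * (n + 2) + l * ((n + 1) * (n + 2) * (n + 2) + (n + 1) * (n + 2) * 2 ^ l2))
      (2 + l * (l2 + 2)) (fun (p : Fin (n + 1) × Fin (n + 2)) (x : Fin n → Bool) =>
        decide (p.2.val ≤ cb (ext x) l p.1.val)) := by
  intro l
  induction l with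
  | zero =>
    have c0 : Comp 1 1 (fun (_ : Unit) (_ : Fin n → Bool) => true) := by
      refine ⟨fun g => .or (.const true) (.const true), fun g _ => rfl, fun _ => 0, fun p => ?_⟩
      refine ⟨Nat.zero_lt_one, ?_, fun x => ?_⟩
      · rw [tdep_eq]
        simp [Gate.depth, Wire.depth]
      · rw [tval_eq]
        simp [Gate.val, Wire.val]
    have c1 := c0.layer false
      (fun p : Fin (n + 1) × Fin (n + 2) => if p.2.val = 0 then Src.cst true else
        if p.2.val = 1 then (if h : p.1.val < n then Src.var ⟨p.1.val, h⟩ else Src.cst false)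
        else Src.cst false)
      (fun p : Fin (n + 1) × Fin (n + 2) => if p.2.val = 0 then Src.cst true else
        if p.2.val = 1 then (if h : p.1.val < n then Src.var ⟨p.1.val, h⟩ else Src.cst false)
        else Src.cst false)
    refine c1.reindex (by simp) (by omega) _ (fun p => Sum.inr p) (fun p x => ?_)
    simp only [Sum.elim_inr, Bool.false_eq_true, if_false, Bool.or_self]
    rw [cb_zero]
    by_cases h0 : p.2.val = 0
    · simp [h0, Src.val]
    · by_cases h1 : p.2.val = 1
      · rw [if_neg h0, if_pos h1, h1]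
        by_cases h : p.1.val < n
        · rw [dif_pos h]
          have e : ext x p.1.val = x ⟨p.1.val, h⟩ := by simp [ext, h]
          rw [e]
          show decide (1 ≤ (x ⟨p.1.val, h⟩).toNat) = x ⟨p.1.val, h⟩
          cases x ⟨p.1.val, h⟩ <;> rfl
        · rw [dif_neg h]
          have e : ext x p.1.val = false := by simp [ext, h]
          rw [e]
          rfl
      · rw [if_neg h0, if_neg h1]
        show decide (_ ≤ _) = false
        rw [decide_eq_false_iff_not]
        have := (ext x p.1.val).toNat_le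
        omega
  | succ l ih =>
    have key : ∀ (x : Fin n → Bool) (b k : ℕ), n + 1 ≤ b →
        decide (k ≤ cb (ext x) l b) = decide (k = 0) := by
      intro x b k hb
      have hy : ∀ j, n ≤ j → ext x j = false := fun j hj => by
        simp [ext, not_lt.mpr hj]
      rw [cb_eq_zero (ext x) l b n hy (by omega)]
      simp
    -- products
    have c1 : Comp (1 + (n + 1) * (n + 2) + l * ((n + 1) * (n + 2) * (n + 2) +
        (n + 1) * (n + 2) * 2 ^ l2) + (n + 1) * (n + 2) * (n + 2)) (2 + l * (l2 + 2) + 1)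
        (fun (j : (Fin (n + 1) × Fin (n + 2)) × Fin (n + 2)) (x : Fin n → Bool) =>
          decide (j.2.val ≤ cb (ext x) l (2 * j.1.1.val)) &&
          decide (j.1.2.val - j.2.val ≤ cb (ext x) l (2 * j.1.1.val + 1))) := by
      have c := ih.layer true
        (fun j : (Fin (n + 1) × Fin (n + 2)) × Fin (n + 2) =>
          if h : 2 * j.1.1.val < n + 1 then Src.fn (⟨2 * j.1.1.val, h⟩, j.2) else
            Src.cst (decide (j.2.val = 0)))
        (fun j : (Fin (n + 1) × Fin (n + 2)) × Fin (n + 2) =>
          if h : 2 * j.1.1.val + 1 < n + 1 then Src.fn (⟨2 * j.1.1.val + 1, h⟩,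
            ⟨j.1.2.val - j.2.val, lt_of_le_of_lt (Nat.sub_le _ _) j.1.2.isLt⟩) else
            Src.cst (decide (j.1.2.val - j.2.val = 0)))
      refine c.reindex (le_of_eq ?_) le_rfl _ (fun j => Sum.inr j) (fun j x => ?_)
      · simp only [Fintype.card_prod, Fintype.card_fin]
      · simp only [Sum.elim_inr, if_true]
        congr 1
        · by_cases h : 2 * j.1.1.val < n + 1
          · rw [dif_pos h]; rfl
          · rw [dif_neg h, key _ _ _ (by omega)]; rfl
        · by_cases h : 2 * j.1.1.val + 1 < n + 1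
          · rw [dif_pos h]; rfl
          · rw [dif_neg h, key _ _ _ (by omega)]; rfl
    have c2 := c1.reduce false (Fin (n + 1) × Fin (n + 2)) l2 _ _ _ _
      (fun j a => if h : a < n + 2 then (if a ≤ j.2.val then Src.fn (j, ⟨a, h⟩)
        else Src.cst false) else Src.cst false)
    refine c2.reindex (le_of_eq ?_) (le_of_eq ?_) _ (fun j => j) (fun j x => ?_)
    · simp only [Fintype.card_prod, Fintype.card_fin]
      ring
    · ring
    · rw [cb_succ, thr_merge]
      apply Bool.eq_iff_iff.mpr
      simp only [big, Bool.false_eq_true, if_false, decide_eq_true_eq]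
      constructor
      · rintro ⟨i, hi, h3, h4⟩
        have hi' : i < n + 2 := lt_of_le_of_lt hi j.2.isLt
        refine ⟨i, lt_of_lt_of_le hi' h2, ?_⟩
        rw [dif_pos hi', if_pos hi]
        simp only [Src.val, Bool.and_eq_true, decide_eq_true_eq]
        exact ⟨h3, h4⟩
      · rintro ⟨i, _, hv⟩
        by_cases hi' : i < n + 2
        · rw [dif_pos hi'] at hv
          by_cases hi : i ≤ j.2.val
          · rw [if_pos hi] at hv
            simp only [Src.val, Bool.and_eq_true, decide_eq_true_eq] at hv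
            exact ⟨i, hi, hv.1, hv.2⟩
          · rw [if_neg hi] at hv
            simp [Src.val] at hv
        · rw [dif_neg hi'] at hv
          simp [Src.val] at hv

/-- All threshold functions of `n` variables are computed without NOT gates by a polynomial
number of gates in depth `O((log n) ^ 2)`. -/
theorem thr_comp (n : ℕ) : Comp (8 * (n + 2) ^ 4) (2 * (Nat.log 2 n + 3) ^ 2)
    (fun (k : Fin (n + 2)) (x : Fin n → Bool) =>
      decide (k.val ≤ (univ.filter (fun i => x i = true)).card)) := by
  obtain ⟨L, hL⟩ : ∃ L, L = Nat.log 2 n := ⟨_, rfl⟩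
  have h1 : n < 2 ^ (L + 1) := by rw [hL]; exact Nat.lt_pow_succ_log_self (by norm_num) n
  have h2 : n + 2 ≤ 2 ^ (L + 2) := by
    rw [pow_succ]
    have : 1 ≤ 2 ^ L := Nat.one_le_two_pow
    rw [pow_succ] at h1
    omega
  have h3 : 2 ^ (L + 2) ≤ 4 * (n + 2) := by
    rcases Nat.eq_zero_or_pos n with hn | hn
    · subst hn
      have : L = 0 := by rw [hL]; rfl
      subst this
      norm_num
    · have : 2 ^ L ≤ n := by rw [hL]; exact Nat.pow_log_le_self 2 (by omega)
      rw [pow_add]
      omega
  have h4 : L + 1 ≤ n + 2 := by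
    have : L ≤ n := by rw [hL]; exact Nat.log_le_self 2 n
    omega
  have c := cb_comp n (L + 2) h2 (L + 1)
  rw [← hL]
  refine c.reindex ?_ ?_ _ (fun k => (⟨0, Nat.succ_pos n⟩, k)) (fun k x => ?_)
  · obtain ⟨M, hM⟩ : ∃ M, M = n + 2 := ⟨_, rfl⟩
    have hM1 : n + 1 ≤ M := by omega
    have hM2 : 2 ≤ M := by omega
    rw [← hM] at h3 h4 ⊢
    calc 1 + (n + 1) * M + (L + 1) * ((n + 1) * M * M + (n + 1) * M * 2 ^ (L + 2))
        ≤ 1 + M * M + M * (M * M * M + M * M * (4 * M)) := by
          apply Nat.add_le_add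
          · exact Nat.add_le_add_left (Nat.mul_le_mul_right _ hM1) _
          · apply Nat.mul_le_mul h4
            apply Nat.add_le_add
            · exact Nat.mul_le_mul_right _ (Nat.mul_le_mul_right _ hM1)
            · exact Nat.mul_le_mul (Nat.mul_le_mul_right _ hM1) h3
      _ = 1 + M ^ 2 + 5 * M ^ 4 := by ring
      _ ≤ 8 * M ^ 4 := by
          have e1 : 1 ≤ M ^ 2 := Nat.one_le_pow _ _ (by omega)
          have e2 : M ^ 4 = M ^ 2 * M ^ 2 := by ring
          nlinarith
  · nlinarith
  · simp only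
    rw [cb_all x (L + 1) h1.le]

/-- Each threshold function has a circuit without NOT gates. -/
theorem thr_circuit (n k : ℕ) : ∃ C : Circuit n, Pos C ∧ C.size = 8 * (n + 2) ^ 4 ∧
    C.depth ≤ 2 * (Nat.log 2 n + 3) ^ 2 ∧
    ∀ x, C.eval x = decide (k ≤ (univ.filter (fun i => x i = true)).card) := by
  obtain ⟨C, h1, h2, h3, h4⟩ := (thr_comp n).circuit
    (⟨min k (n + 1), by omega⟩ : Fin (n + 2))
  refine ⟨C, h1, h2, h3, fun x => ?_⟩
  rw [h4]
  apply Bool.eq_iff_iff.mpr
  simp only [decide_eq_true_eq]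
  have : (univ.filter (fun i => x i = true)).card ≤ n := by
    simpa using Finset.card_le_univ (univ.filter (fun i => x i = true))
  omega

end HT

end Pool.Agent.Results.MP_2af48a_lc.FewNegations
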