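import Pool.Agent.Lib_MP_2af48a_lc.NotWin
import Pool.Agent.Lib_MP_2af48a_lc.NotThr
import Pool.Agent.Lib_MP_2af48a_lc.NotMono

/-!
# Monotone functions in NC need only `log n - e` NOT gates
-/

open Finset Filter

namespace Pool.Agent.Results.MP_2af48a_lc.FewNegations

/-- threshold functions -/
lemma thr_MComp (n K : ℕ) : MComp n 1 (8 * (n + 2) ^ 4) (2 * (Nat.log 2 n + 3) ^ 2) 0
    (fun _ x => decide (K ≤ wt x)) := by
  obtain ⟨C, h1, h2, h3, h4⟩ := HT.thr_circuit n K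
  exact ((MComp.ofCircuit C).mono h2.le h3 h1.negations.le).congr (fun _ x => h4 x)

/-- If `n < 2 ^ t * c`, then `t` NOT gates suffice for monotone functions of `n` variables. -/
theorem few_not (n c t : ℕ) (hc : n < 2 ^ t * c) (C : Circuit n)
    (hC : ∀ x y : Fin n → Bool, (∀ i, x i = true → y i = true) → C.eval x = true →
      C.eval y = true) :
    ∃ C' : Circuit n, (∀ x, C'.eval x = C.eval x) ∧ C'.negations ≤ t ∧
      C'.size ≤ 2 ^ t * (n + 2) ^ (c + 9) * C.size ∧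
      C'.depth ≤ c * C.depth + 2 * (Nat.log 2 n + 3) ^ 2 + 3 * t + 1 := by
  obtain ⟨R, h1, h2⟩ := exists_rail C
  obtain ⟨C', h3, h4, h5, h6⟩ :=
    (window_comp c t hc C.eval R hC h1 h2 (fun K => thr_MComp n K)).circuit
  refine ⟨C', h3, h6, le_trans h4 ?_, by omega⟩
  have hs : 1 ≤ C.size := Nat.one_le_iff_ne_zero.mpr (fun h => by
    have := C.out.isLt
    omega)
  have e1 : (n + 1) ^ c ≤ (n + 2) ^ c := Nat.pow_le_pow_left (by omega) c
  have e2 : 1 ≤ (n + 2) ^ c := Nat.one_le_pow _ _ (by omega)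
  have e3 : 2 ^ 5 ≤ (n + 2) ^ 5 := Nat.pow_le_pow_left (by omega) 5
  have e4 : 1 ≤ (n + 2) ^ 4 := Nat.one_le_pow _ _ (by omega)
  have e5 : 1 ≤ 2 ^ t := Nat.one_le_two_pow
  have e6 : (n + 2) ^ (c + 9) = (n + 2) ^ c * ((n + 2) ^ 5 * (n + 2) ^ 4) := by
    rw [← pow_add, ← pow_add]
  rw [e6]
  generalize (n + 2) ^ c = P at e1 e2 ⊢
  generalize (n + 1) ^ c = P' at e1 ⊢
  generalize (n + 2) ^ 5 = F at e3 ⊢
  generalize (n + 2) ^ 4 = A at e4 ⊢
  generalize 2 ^ t = T at e5 ⊢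
  generalize C.size = s at hs ⊢
  have a1 : 2 * T * (P' * (8 * A + 2 * s)) ≤ 2 * T * (P * (8 * A + 2 * s)) :=
    Nat.mul_le_mul_left _ (Nat.mul_le_mul_right _ e1)
  have a2 : 7 * T + 1 ≤ 8 * T := by omega
  have a3 : 8 * T ≤ 8 * (T * P * (A * s)) := by
    have : T * 1 ≤ T * (P * (A * s)) := Nat.mul_le_mul_left _ (Nat.one_le_iff_ne_zero.mpr
      (by positivity))
    calc 8 * T = 8 * (T * 1) := by ring
      _ ≤ 8 * (T * (P * (A * s))) := Nat.mul_le_mul_left _ this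
      _ = 8 * (T * P * (A * s)) := by ring
  have a4 : 8 * A + 2 * s ≤ 10 * (A * s) := by
    have b1 : A * 1 ≤ A * s := Nat.mul_le_mul_left _ hs
    have b2 : 1 * s ≤ A * s := Nat.mul_le_mul_right _ e4
    omega
  have a5 : 2 * T * (P * (8 * A + 2 * s)) ≤ 20 * (T * P * (A * s)) := by
    calc 2 * T * (P * (8 * A + 2 * s)) ≤ 2 * T * (P * (10 * (A * s))) :=
          Nat.mul_le_mul_left _ (Nat.mul_le_mul_left _ a4)
      _ = 20 * (T * P * (A * s)) := by ring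
  have a6 : 2 ^ 5 * (T * P * (A * s)) ≤ F * (T * P * (A * s)) := Nat.mul_le_mul_right _ e3
  calc 2 * T * (P' * (8 * A + 2 * s)) + 7 * T + 1 ≤ 2 ^ 5 * (T * P * (A * s)) := by
        generalize T * P * (A * s) = X at *
        omega
    _ ≤ F * (T * P * (A * s)) := a6
    _ = T * (P * (F * A)) * s := by ring

lemma pow_three_le (m K : ℕ) : (m + 3) ^ K ≤ 4 ^ K * m ^ K + 4 ^ K := by
  rcases Nat.eq_zero_or_pos m with h | h
  · subst h
    calc (0 + 3) ^ K ≤ 4 ^ K := Nat.pow_le_pow_left (by omega) K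
      _ ≤ _ := Nat.le_add_left _ _
  · calc (m + 3) ^ K ≤ (4 * m) ^ K := Nat.pow_le_pow_left (by omega) K
      _ = 4 ^ K * m ^ K := mul_pow _ _ _
      _ ≤ _ := Nat.le_add_right _ _

/-- A monotone function in NC is in NC with `log n - e` NOT gates. -/
theorem NC_few_not (e : ℕ) (f : (n : ℕ) → (Fin n → Bool) → Bool)
    (hf : ∀ (n : ℕ) (x y : Fin n → Bool), (∀ i, x i = true → y i = true) → f n x = true →
      f n y = true) (h : ∃ r, NC r f) : NC (fun n => Nat.log 2 n - e) f := by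
  obtain ⟨r, C, hC, ⟨a, k, hs⟩, ⟨b, d, hd⟩, -⟩ := h
  have key : ∀ n, ∃ C' : Circuit n, (∀ x, C'.eval x = f n x) ∧
      C'.negations ≤ Nat.log 2 n - e ∧
      C'.size ≤ 2 ^ (Nat.log 2 n - e) * (n + 2) ^ (2 ^ (e + 1) + 9) * (C n).size ∧
      C'.depth ≤ 2 ^ (e + 1) * (C n).depth + 2 * (Nat.log 2 n + 3) ^ 2 +
        3 * (Nat.log 2 n - e) + 1 := by
    intro n
    have hn : n < 2 ^ (Nat.log 2 n - e) * 2 ^ (e + 1) := by
      rw [← pow_add]
      calc n < 2 ^ (Nat.log 2 n + 1) := Nat.lt_pow_succ_log_self (by norm_num) n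
        _ ≤ _ := Nat.pow_le_pow_right (by norm_num) (by omega)
    obtain ⟨C', h1, h2, h3, h4⟩ := few_not n (2 ^ (e + 1)) (Nat.log 2 n - e) hn (C n)
      (fun x y hxy hx => by
        rw [hC] at hx ⊢
        exact hf n x y hxy hx)
    exact ⟨C', fun x => (h1 x).trans (hC n x), h2, h3, h4⟩
  choose C' h1 h2 h3 h4 using key
  refine ⟨C', h1, ⟨2 * a * 4 ^ (2 ^ (e + 1) + 10 + k), 2 ^ (e + 1) + 10 + k, fun n => ?_⟩,
    ⟨(2 ^ (e + 1) * (2 * b) + 6) * 4 ^ (d + 2), d + 2, fun n => ?_⟩, h2⟩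
  · have e1 : 2 ^ (Nat.log 2 n - e) ≤ n + 3 := by
      rcases Nat.eq_zero_or_pos n with h | h
      · subst h
        simp
      · calc 2 ^ (Nat.log 2 n - e) ≤ 2 ^ Nat.log 2 n :=
            Nat.pow_le_pow_right (by norm_num) (Nat.sub_le _ _)
          _ ≤ n := Nat.pow_log_le_self 2 (by omega)
          _ ≤ n + 3 := by omega
    have e2 : (n + 2) ^ (2 ^ (e + 1) + 9) ≤ (n + 3) ^ (2 ^ (e + 1) + 9) :=
      Nat.pow_le_pow_left (by omega) _
    have e3 : (C n).size ≤ 2 * a * (n + 3) ^ k := by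
      have b1 : (C n).size ≤ a * n ^ k + a := hs n
      have b2 : a * n ^ k ≤ a * (n + 3) ^ k :=
        Nat.mul_le_mul_left _ (Nat.pow_le_pow_left (by omega) _)
      have b3 : a * 1 ≤ a * (n + 3) ^ k :=
        Nat.mul_le_mul_left _ (Nat.one_le_pow _ _ (by omega))
      have b4 : 2 * a * (n + 3) ^ k = a * (n + 3) ^ k + a * (n + 3) ^ k := by ring
      omega
    have e4 := pow_three_le n (2 ^ (e + 1) + 10 + k)
    calc (C' n).size ≤ 2 ^ (Nat.log 2 n - e) * (n + 2) ^ (2 ^ (e + 1) + 9) * (C n).size := h3 n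
      _ ≤ (n + 3) * (n + 3) ^ (2 ^ (e + 1) + 9) * (2 * a * (n + 3) ^ k) :=
        Nat.mul_le_mul (Nat.mul_le_mul e1 e2) e3
      _ = 2 * a * (n + 3) ^ (2 ^ (e + 1) + 10 + k) := by ring
      _ ≤ 2 * a * (4 ^ (2 ^ (e + 1) + 10 + k) * n ^ (2 ^ (e + 1) + 10 + k) +
          4 ^ (2 ^ (e + 1) + 10 + k)) := Nat.mul_le_mul_left _ e4
      _ = _ := by ring
  · generalize hL : Nat.log 2 n = L
    have b1 : (C n).depth ≤ b * L ^ d + b := by
      rw [← hL]
      exact hd n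
    have b0 := h4 n
    rw [hL] at b0
    have c1 : L ^ d ≤ (L + 3) ^ (d + 2) :=
      le_trans (Nat.pow_le_pow_left (by omega) _) (Nat.pow_le_pow_right (by omega) (by omega))
    have c2 : (L + 3) ^ 2 ≤ (L + 3) ^ (d + 2) := Nat.pow_le_pow_right (by omega) (by omega)
    have c3 : L + 3 ≤ (L + 3) ^ (d + 2) := by
      calc L + 3 = (L + 3) ^ 1 := (pow_one _).symm
        _ ≤ _ := Nat.pow_le_pow_right (by omega) (by omega)
    have c4 := pow_three_le L (d + 2)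
    have c5 : (C n).depth ≤ 2 * b * (L + 3) ^ (d + 2) := by
      have b2 : b * L ^ d ≤ b * (L + 3) ^ (d + 2) := Nat.mul_le_mul_left _ c1
      have b3 : b * 1 ≤ b * (L + 3) ^ (d + 2) :=
        Nat.mul_le_mul_left _ (Nat.one_le_pow _ _ (by omega))
      have b4 : 2 * b * (L + 3) ^ (d + 2) = b * (L + 3) ^ (d + 2) + b * (L + 3) ^ (d + 2) := by
        ring
      omega
    have c6 : 2 ^ (e + 1) * (C n).depth ≤ 2 ^ (e + 1) * (2 * b * (L + 3) ^ (d + 2)) :=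
      Nat.mul_le_mul_left _ c5
    change (C' n).depth ≤ (2 ^ (e + 1) * (2 * b) + 6) * 4 ^ (d + 2) * L ^ (d + 2) +
      (2 ^ (e + 1) * (2 * b) + 6) * 4 ^ (d + 2)
    calc (C' n).depth ≤ 2 ^ (e + 1) * (2 * b * (L + 3) ^ (d + 2)) + 6 * (L + 3) ^ (d + 2) := by
          omega
      _ = (2 ^ (e + 1) * (2 * b) + 6) * (L + 3) ^ (d + 2) := by ring
      _ ≤ (2 ^ (e + 1) * (2 * b) + 6) * (4 ^ (d + 2) * L ^ (d + 2) + 4 ^ (d + 2)) :=
        Nat.mul_le_mul_left _ c4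
      _ = _ := by ring

/-- SC is not contained in NC if and only if some monotone function in SC is not in NC with
`log n - e` NOT gates. -/
theorem SC_NC_iff (e : ℕ) :
    (∃ f : (n : ℕ) → (Fin n → Bool) → Bool, (∃ r, SC r f) ∧ ∀ r, ¬ NC r f) ↔
    ∃ f : (n : ℕ) → (Fin n → Bool) → Bool,
      (∀ (n : ℕ) (x y : Fin n → Bool), (∀ i, x i = true → y i = true) → f n x = true →
        f n y = true) ∧ (∃ r, SC r f) ∧ ¬ NC (fun n => Nat.log 2 n - e) f := by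
  constructor
  · intro h
    obtain ⟨f, h1, h2, h3⟩ := exists_monotone h
    exact ⟨f, h1, h2, h3 _⟩
  · rintro ⟨f, h1, h2, h3⟩
    exact ⟨f, h2, fun r h4 => h3 (NC_few_not e f h1 ⟨r, h4⟩)⟩

end Pool.Agent.Results.MP_2af48a_lc.FewNegations
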