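import Pool.Agent.Lib_MP_2af48a_lc.NotWin

/-!
# Threshold functions in logarithmic depth without NOT gates

Following Valiant: a threshold function of `n` variables is the majority of `2 n + 1` variables and
constants; complete ternary trees of majorities of logarithmic depth with random leaves compute it.
-/

open Finset

namespace Pool.Agent.Results.MP_2af48a_lc.FewNegations

namespace VT

/-- complete ternary trees with leaves in `Fin N` -/
def Tr (N : ℕ) : ℕ → Type
  | 0 => Fin N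
  | j + 1 => Tr N j × Tr N j × Tr N j

instance instFin (N : ℕ) : ∀ j, Fintype (Tr N j)
  | 0 => inferInstanceAs (Fintype (Fin N))
  | j + 1 => by
    haveI := instFin N j
    exact inferInstanceAs (Fintype (Tr N j × Tr N j × Tr N j))

/-- majority -/
def maj (a b c : Bool) : Bool := (a && b) || (c && (a || b))

/-- value of a tree -/
def ev {N : ℕ} (v : Fin N → Bool) : (j : ℕ) → Tr N j → Bool
  | 0, p => v p
  | j + 1, t => maj (ev v j t.1) (ev v j t.2.1) (ev v j t.2.2)

/-- indicator of the value `b` -/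
def ind {N : ℕ} (v : Fin N → Bool) (b : Bool) (j : ℕ) (t : Tr N j) : ℝ :=
  if ev v j t = b then 1 else 0

lemma ind_succ {N : ℕ} (v : Fin N → Bool) (b : Bool) (j : ℕ) (t : Tr N (j + 1)) :
    ind v b (j + 1) t = ind v b j t.1 * ind v b j t.2.1 + ind v b j t.2.1 * ind v b j t.2.2 +
      ind v b j t.1 * ind v b j t.2.2 -
      2 * (ind v b j t.1 * ind v b j t.2.1 * ind v b j t.2.2) := by
  unfold ind
  change (if maj (ev v j t.1) (ev v j t.2.1) (ev v j t.2.2) = b then (1 : ℝ) else 0) = _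
  generalize ev v j t.1 = x
  generalize ev v j t.2.1 = y
  generalize ev v j t.2.2 = z
  cases b <;> cases x <;> cases y <;> cases z <;> simp [maj] <;> norm_num

lemma sum_three {A : Type} [Fintype A] (I : A → ℝ) :
    ∑ p : A × A × A, (I p.1 * I p.2.1 + I p.2.1 * I p.2.2 + I p.1 * I p.2.2 -
      2 * (I p.1 * I p.2.1 * I p.2.2)) =
    3 * (∑ a, I a) ^ 2 * (Fintype.card A : ℝ) - 2 * (∑ a, I a) ^ 3 := by
  have h1 : ∑ p : A × A × A, I p.1 * I p.2.1 = (∑ a, I a) ^ 2 * (Fintype.card A : ℝ) := by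
    rw [Fintype.sum_prod_type]
    have : ∀ a, ∑ y : A × A, I a * I y.1 = I a * (∑ b, I b) * (Fintype.card A : ℝ) := by
      intro a
      rw [Fintype.sum_prod_type]
      simp only [Finset.sum_const, Finset.card_univ, nsmul_eq_mul, ← Finset.mul_sum]
      ring
    simp only [this]
    rw [← Finset.sum_mul, ← Finset.sum_mul]
    ring
  have h2 : ∑ p : A × A × A, I p.2.1 * I p.2.2 = (∑ a, I a) ^ 2 * (Fintype.card A : ℝ) := by
    rw [Fintype.sum_prod_type]
    have : ∑ y : A × A, I y.1 * I y.2 = (∑ b, I b) ^ 2 := by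
      rw [Fintype.sum_prod_type]
      simp only [← Finset.mul_sum]
      rw [← Finset.sum_mul]
      ring
    simp only [this, Finset.sum_const, Finset.card_univ, nsmul_eq_mul]
    ring
  have h3 : ∑ p : A × A × A, I p.1 * I p.2.2 = (∑ a, I a) ^ 2 * (Fintype.card A : ℝ) := by
    rw [Fintype.sum_prod_type]
    have : ∀ a, ∑ y : A × A, I a * I y.2 = I a * (∑ b, I b) * (Fintype.card A : ℝ) := by
      intro a
      rw [Fintype.sum_prod_type]
      simp only [← Finset.mul_sum, Finset.sum_const, Finset.card_univ, nsmul_eq_mul]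
      ring
    simp only [this]
    rw [← Finset.sum_mul, ← Finset.sum_mul]
    ring
  have h4 : ∑ p : A × A × A, I p.1 * I p.2.1 * I p.2.2 = (∑ a, I a) ^ 3 := by
    rw [Fintype.sum_prod_type]
    have : ∀ a, ∑ y : A × A, I a * I y.1 * I y.2 = I a * (∑ b, I b) ^ 2 := by
      intro a
      rw [Fintype.sum_prod_type]
      simp only [← Finset.mul_sum]
      rw [← Finset.sum_mul, ← Finset.mul_sum]
      ring
    simp only [this]
    rw [← Finset.sum_mul]
    ring
  rw [Finset.sum_sub_distrib, Finset.sum_add_distrib, Finset.sum_add_distrib, ← Finset.mul_sum,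
    h1, h2, h3, h4]
  ring

/-- the fraction of the trees with value `b` -/
noncomputable def pr {N : ℕ} (v : Fin N → Bool) (b : Bool) (j : ℕ) : ℝ :=
  (∑ t, ind v b j t) / (Fintype.card (Tr N j) : ℝ)

lemma card_pos {N : ℕ} (hN : 0 < N) (j : ℕ) : 0 < Fintype.card (Tr N j) := by
  induction j with
  | zero =>
    change 0 < Fintype.card (Fin N)
    rw [Fintype.card_fin]
    exact hN
  | succ j ih =>
    change 0 < Fintype.card (Tr N j × Tr N j × Tr N j)
    rw [Fintype.card_prod, Fintype.card_prod]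
    positivity

lemma pr_succ {N : ℕ} (hN : 0 < N) (v : Fin N → Bool) (b : Bool) (j : ℕ) :
    pr v b (j + 1) = 3 * pr v b j ^ 2 - 2 * pr v b j ^ 3 := by
  have h1 : (∑ t, ind v b (j + 1) t) = 3 * (∑ t, ind v b j t) ^ 2 *
      (Fintype.card (Tr N j) : ℝ) - 2 * (∑ t, ind v b j t) ^ 3 := by
    rw [← sum_three]
    change ∑ t : Tr N j × Tr N j × Tr N j, _ = _
    apply Finset.sum_congr rfl
    intro t _
    exact ind_succ v b j t
  have h2 : (Fintype.card (Tr N (j + 1)) : ℝ) = (Fintype.card (Tr N j) : ℝ) ^ 3 := by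
    change ((Fintype.card (Tr N j × Tr N j × Tr N j) : ℕ) : ℝ) = _
    rw [Fintype.card_prod, Fintype.card_prod]
    push_cast
    ring
  have h3 : (Fintype.card (Tr N j) : ℝ) ≠ 0 := by
    have := card_pos hN j
    positivity
  unfold pr
  rw [h1, h2]
  field_simp

lemma pr_nonneg {N : ℕ} (v : Fin N → Bool) (b : Bool) (j : ℕ) : 0 ≤ pr v b j := by
  unfold pr
  apply div_nonneg _ (Nat.cast_nonneg _)
  apply Finset.sum_nonneg
  intro t _
  unfold ind
  split_ifs <;> norm_num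

/-- upper bound for the fraction of wrong trees -/
noncomputable def er (e0 : ℝ) : ℕ → ℝ
  | 0 => e0
  | j + 1 => 3 * er e0 j ^ 2 - 2 * er e0 j ^ 3

lemma phi_mono (a b : ℝ) (ha : 0 ≤ a) (hab : a ≤ b) (hb : b ≤ 1) :
    3 * a ^ 2 - 2 * a ^ 3 ≤ 3 * b ^ 2 - 2 * b ^ 3 := by
  have : 0 ≤ (b - a) * (3 * (a + b) - 2 * (a ^ 2 + a * b + b ^ 2)) := by
    apply mul_nonneg (by linarith)
    nlinarith [mul_nonneg ha (sub_nonneg.mpr hb), mul_nonneg ha (sub_nonneg.mpr (hab.trans hb)),
      mul_nonneg (ha.trans hab) (sub_nonneg.mpr hb)]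
  nlinarith

lemma er_bounds (e0 : ℝ) (h0 : 0 ≤ e0) (h1 : e0 ≤ 1 / 2) (j : ℕ) :
    0 ≤ er e0 j ∧ er e0 j ≤ 1 / 2 := by
  induction j with
  | zero => exact ⟨h0, h1⟩
  | succ j ih =>
    obtain ⟨ih1, ih2⟩ := ih
    constructor
    · have := phi_mono 0 (er e0 j) le_rfl ih1 (by linarith)
      change 0 ≤ 3 * er e0 j ^ 2 - 2 * er e0 j ^ 3
      linarith
    · have := phi_mono (er e0 j) (1 / 2) ih1 ih2 (by norm_num)
      change 3 * er e0 j ^ 2 - 2 * er e0 j ^ 3 ≤ 1 / 2
      linarith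

lemma pr_le {N : ℕ} (hN : 0 < N) (v : Fin N → Bool) (b : Bool) (e0 : ℝ) (h1 : e0 ≤ 1 / 2)
    (h : pr v b 0 ≤ e0) (j : ℕ) : pr v b j ≤ er e0 j := by
  have h0 : 0 ≤ e0 := (pr_nonneg v b 0).trans h
  induction j with
  | zero => exact h
  | succ j ih =>
    rw [pr_succ hN]
    exact phi_mono _ _ (pr_nonneg v b j) ih ((er_bounds e0 h0 h1 j).2.trans (by norm_num))

/-- first phase -/
lemma er_phase1 (d : ℝ) (hd : 0 < d) (hd2 : d ≤ 1 / 2) (j : ℕ) :
    1 / 4 ≤ 1 / 2 - er (1 / 2 - d) j ∨ (11 / 8) ^ j * d ≤ 1 / 2 - er (1 / 2 - d) j := by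
  induction j with
  | zero =>
    right
    change (11 / 8 : ℝ) ^ 0 * d ≤ 1 / 2 - (1 / 2 - d)
    rw [pow_zero]
    linarith
  | succ j ih =>
    obtain ⟨b1, b2⟩ := er_bounds (1 / 2 - d) (by linarith) (by linarith) j
    have e : 1 / 2 - er (1 / 2 - d) (j + 1) =
        (1 / 2 - er (1 / 2 - d) j) * (3 / 2 - 2 * (1 / 2 - er (1 / 2 - d) j) ^ 2) := by
      change 1 / 2 - (3 * er (1 / 2 - d) j ^ 2 - 2 * er (1 / 2 - d) j ^ 3) = _
      ring
    rw [e]
    generalize hδ : 1 / 2 - er (1 / 2 - d) j = δ at ih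
    have c1 : 0 ≤ δ := by linarith
    have c2 : δ ≤ 1 / 2 := by linarith
    by_cases h : 1 / 4 ≤ δ
    · left
      have : δ ^ 2 ≤ 1 / 4 := by nlinarith
      nlinarith
    · right
      have h3 : (11 / 8) ^ j * d ≤ δ := by
        rcases ih with ih | ih
        · exact absurd ih h
        · exact ih
      have h4 : δ ^ 2 ≤ 1 / 16 := by nlinarith
      rw [pow_succ]
      nlinarith

/-- second phase -/
lemma er_phase2 (e0 : ℝ) (h0 : 0 ≤ e0) (h1 : e0 ≤ 1 / 2) (j : ℕ) (hj : er e0 j ≤ 1 / 4) (i : ℕ) :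
    3 * er e0 (j + i) ≤ (3 / 4) ^ 2 ^ i := by
  induction i with
  | zero =>
    rw [pow_zero, pow_one, Nat.add_zero]
    linarith
  | succ i ih =>
    obtain ⟨b1, b2⟩ := er_bounds e0 h0 h1 (j + i)
    have e : er e0 (j + (i + 1)) = 3 * er e0 (j + i) ^ 2 - 2 * er e0 (j + i) ^ 3 := rfl
    rw [e, pow_succ 2 i, pow_mul]
    have h2 : 0 ≤ er e0 (j + i) ^ 3 := by positivity
    have h3 : (3 * er e0 (j + i)) ^ 2 ≤ ((3 / 4) ^ 2 ^ i) ^ 2 :=
      pow_le_pow_left₀ (by linarith) ih 2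
    nlinarith

/-- the fraction of the wrong trees is small -/
lemma er_small (n : ℕ) :
    er (1 / 2 - 1 / (2 * (2 * n + 1))) (3 * (Nat.log 2 n + 2) + (Nat.log 2 n + 3)) <
      (1 / 2) ^ n := by
  have hn : n + 1 ≤ 2 ^ (Nat.log 2 n + 1) := Nat.lt_pow_succ_log_self (by norm_num) n
  have hn' : ((n : ℝ) + 1) ≤ 2 ^ (Nat.log 2 n + 1) := by exact_mod_cast hn
  have hd : (0 : ℝ) < 1 / (2 * (2 * n + 1)) := by positivity
  have hd2 : (1 : ℝ) / (2 * (2 * n + 1)) ≤ 1 / 2 := by
    apply one_div_le_one_div_of_le (by norm_num)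
    have : (0 : ℝ) ≤ n := Nat.cast_nonneg n
    linarith
  have h1 : er (1 / 2 - 1 / (2 * (2 * n + 1))) (3 * (Nat.log 2 n + 2)) ≤ 1 / 4 := by
    rcases er_phase1 (1 / (2 * (2 * n + 1))) hd hd2 (3 * (Nat.log 2 n + 2)) with h | h
    · linarith
    · have h2 : (2 : ℝ) ^ (Nat.log 2 n + 2) ≤ (11 / 8) ^ (3 * (Nat.log 2 n + 2)) := by
        rw [pow_mul]
        exact pow_le_pow_left₀ (by norm_num) (by norm_num) _
      have h3 : (2 * n + 1 : ℝ) ≤ 2 ^ (Nat.log 2 n + 2) := by
        rw [pow_succ]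
        linarith
      have h4 : (1 : ℝ) / 4 ≤ (11 / 8) ^ (3 * (Nat.log 2 n + 2)) * (1 / (2 * (2 * n + 1))) := by
        calc (1 : ℝ) / 4 ≤ (2 * n + 1) * (1 / (2 * (2 * n + 1))) := by
              have : (0 : ℝ) < 2 * n + 1 := by positivity
              field_simp
              norm_num
          _ ≤ _ := mul_le_mul_of_nonneg_right (h3.trans h2) hd.le
      linarith
  have h2 := er_phase2 (1 / 2 - 1 / (2 * (2 * n + 1))) (by linarith) (by linarith) _ h1
    (Nat.log 2 n + 3)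
  have h3 : ((3 : ℝ) / 4) ^ 2 ^ (Nat.log 2 n + 3) ≤ (1 / 2) ^ (n + 1) := by
    have e1 : 4 * (n + 1) ≤ 2 ^ (Nat.log 2 n + 3) := by
      rw [show Nat.log 2 n + 3 = Nat.log 2 n + 1 + 2 by ring, pow_add]
      omega
    calc ((3 : ℝ) / 4) ^ 2 ^ (Nat.log 2 n + 3) ≤ (3 / 4) ^ (4 * (n + 1)) :=
          pow_le_pow_of_le_one (by norm_num) (by norm_num) e1
      _ = ((3 / 4) ^ 4) ^ (n + 1) := by rw [pow_mul]
      _ ≤ _ := pow_le_pow_left₀ (by norm_num) (by norm_num) _
  have h4 : ((1 : ℝ) / 2) ^ (n + 1) = (1 / 2) ^ n / 2 := by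
    rw [pow_succ]
    ring
  have h5 : (0 : ℝ) < (1 / 2) ^ n := by positivity
  linarith

/-! ### The leaves -/

/-- value of a leaf -/
def lab {n : ℕ} (K : ℕ) (x : Fin n → Bool) (p : Fin (2 * n + 1)) : Bool :=
  if h : p.val < n then x ⟨p.val, h⟩ else decide (p.val < n + (n + 1 - K))

lemma lab_card {n : ℕ} (K : ℕ) (hK : K ≤ n + 1) (x : Fin n → Bool) :
    (univ.filter (fun p => lab K x p = true)).card = wt x + (n + 1 - K) := by
  rw [Finset.card_filter]
  obtain ⟨g, hg⟩ : ∃ g : ℕ → ℕ, ∀ i, g i = if h : i < n then (x ⟨i, h⟩).toNat else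
      (decide (i < n + (n + 1 - K))).toNat := ⟨_, fun _ => rfl⟩
  have e1 : ∀ p : Fin (2 * n + 1), (if lab K x p = true then 1 else 0) = g p.val := by
    intro p
    rw [hg]
    unfold lab
    by_cases h : p.val < n
    · rw [dif_pos h, dif_pos h]
      cases x ⟨p.val, h⟩ <;> rfl
    · rw [dif_neg h, dif_neg h]
      cases decide (p.val < n + (n + 1 - K)) <;> rfl
  rw [Finset.sum_congr rfl (fun p _ => e1 p), Fin.sum_univ_eq_sum_range g (2 * n + 1),
    show 2 * n + 1 = n + (n + 1) by ring, Finset.sum_range_add]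
  congr 1
  · unfold wt
    rw [Finset.card_filter, Finset.sum_range]
    apply Finset.sum_congr rfl
    intro i _
    rw [hg, dif_pos i.isLt]
    cases x ⟨i.val, i.isLt⟩ <;> rfl
  · have e2 : ∀ i ∈ range (n + 1), g (n + i) = if i < n + 1 - K then 1 else 0 := by
      intro i _
      rw [hg, dif_neg (by omega)]
      by_cases h : i < n + 1 - K
      · rw [if_pos h, decide_eq_true (by omega)]
        rfl
      · rw [if_neg h, decide_eq_false (by omega)]
        rfl
    rw [Finset.sum_congr rfl e2, ← Finset.card_filter]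
    have e3 : (range (n + 1)).filter (fun i => i < n + 1 - K) = range (n + 1 - K) := by
      ext i
      simp only [mem_filter, mem_range]
      omega
    rw [e3, Finset.card_range]

lemma wrong_card {n : ℕ} (K : ℕ) (hK : K ≤ n + 1) (x : Fin n → Bool) :
    (univ.filter (fun p => lab K x p = !(decide (K ≤ wt x)))).card ≤ n := by
  have h := lab_card K hK x
  by_cases hx : K ≤ wt x
  · rw [decide_eq_true hx]
    have h1 := Finset.card_filter_add_card_filter_not (s := (univ : Finset (Fin (2 * n + 1))))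
      (fun p => lab K x p = true)
    rw [Finset.card_univ, Fintype.card_fin, h] at h1
    have h2 : (univ.filter (fun p => lab K x p = !true)) =
        (univ.filter (fun p => ¬ lab K x p = true)) := by
      ext p
      simp
    rw [h2]
    omega
  · rw [decide_eq_false hx]
    simp only [Bool.not_false]
    omega

lemma pr_zero {n : ℕ} (K : ℕ) (hK : K ≤ n + 1) (x : Fin n → Bool) :
    pr (lab K x) (!(decide (K ≤ wt x))) 0 ≤ 1 / 2 - 1 / (2 * (2 * (n : ℝ) + 1)) := by
  have h1 : (∑ t : Tr (2 * n + 1) 0, ind (lab K x) (!(decide (K ≤ wt x))) 0 t) =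
      ((univ.filter (fun p => lab K x p = !(decide (K ≤ wt x)))).card : ℝ) := by
    rw [Finset.card_filter]
    push_cast
    rfl
  have h2 : (Fintype.card (Tr (2 * n + 1) 0) : ℝ) = 2 * n + 1 := by
    change ((Fintype.card (Fin (2 * n + 1)) : ℕ) : ℝ) = _
    rw [Fintype.card_fin]
    push_cast
    ring
  unfold pr
  rw [h1, h2]
  have h3 : (((univ.filter (fun p => lab K x p = !(decide (K ≤ wt x)))).card : ℕ) : ℝ) ≤ n := by
    exact_mod_cast wrong_card K hK x
  have h4 : (0 : ℝ) < 2 * n + 1 := by positivity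
  have h5 : (1 : ℝ) / 2 - 1 / (2 * (2 * (n : ℝ) + 1)) = n / (2 * n + 1) := by
    field_simp
    ring
  rw [h5]
  exact div_le_div_of_nonneg_right h3 h4.le

/-- the depth of the trees -/
def dep (n : ℕ) : ℕ := 3 * (Nat.log 2 n + 2) + (Nat.log 2 n + 3)

/-- some tree is always right -/
lemma exists_tree (n K : ℕ) (hK : K ≤ n + 1) :
    ∃ t : Tr (2 * n + 1) (dep n), ∀ x : Fin n → Bool,
      ev (lab K x) (dep n) t = decide (K ≤ wt x) := by
  by_contra hcon
  push Not at hcon
  have h1 : ∀ t : Tr (2 * n + 1) (dep n),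
      (1 : ℝ) ≤ ∑ x : Fin n → Bool, ind (lab K x) (!(decide (K ≤ wt x))) (dep n) t := by
    intro t
    obtain ⟨x, hx⟩ := hcon t
    have h2 : ind (lab K x) (!(decide (K ≤ wt x))) (dep n) t = 1 := by
      unfold ind
      rw [if_pos]
      revert hx
      cases ev (lab K x) (dep n) t <;> cases decide (K ≤ wt x) <;> simp
    rw [← h2]
    apply Finset.single_le_sum (f := fun x => ind (lab K x) (!(decide (K ≤ wt x))) (dep n) t)
    · intro y _
      unfold ind
      split_ifs <;> norm_num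
    · exact Finset.mem_univ x
  have hcard : (0 : ℝ) < (Fintype.card (Tr (2 * n + 1) (dep n)) : ℝ) := by
    exact_mod_cast card_pos (Nat.succ_pos _) _
  have h2 : (Fintype.card (Tr (2 * n + 1) (dep n)) : ℝ) ≤
      ∑ x : Fin n → Bool, ∑ t : Tr (2 * n + 1) (dep n),
        ind (lab K x) (!(decide (K ≤ wt x))) (dep n) t := by
    rw [Finset.sum_comm]
    calc (Fintype.card (Tr (2 * n + 1) (dep n)) : ℝ) =
        ∑ t : Tr (2 * n + 1) (dep n), (1 : ℝ) := by
          rw [Finset.sum_const, Finset.card_univ, nsmul_eq_mul, mul_one]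
      _ ≤ _ := Finset.sum_le_sum (fun t _ => h1 t)
  have h3 : (1 : ℝ) ≤ ∑ x : Fin n → Bool, pr (lab K x) (!(decide (K ≤ wt x))) (dep n) := by
    unfold pr
    rw [← Finset.sum_div, le_div_iff₀ hcard, one_mul]
    exact h2
  have h4 : ∀ x : Fin n → Bool, pr (lab K x) (!(decide (K ≤ wt x))) (dep n) ≤
      er (1 / 2 - 1 / (2 * (2 * (n : ℝ) + 1))) (dep n) := by
    intro x
    apply pr_le (Nat.succ_pos _)
    · have : (0 : ℝ) < 1 / (2 * (2 * (n : ℝ) + 1)) := by positivity
      linarith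
    · exact pr_zero K hK x
  have h5 : ∑ x : Fin n → Bool, pr (lab K x) (!(decide (K ≤ wt x))) (dep n) ≤
      2 ^ n * er (1 / 2 - 1 / (2 * (2 * (n : ℝ) + 1))) (dep n) := by
    calc ∑ x : Fin n → Bool, pr (lab K x) (!(decide (K ≤ wt x))) (dep n) ≤
        ∑ x : Fin n → Bool, er (1 / 2 - 1 / (2 * (2 * (n : ℝ) + 1))) (dep n) :=
          Finset.sum_le_sum (fun x _ => h4 x)
      _ = _ := by
        rw [Finset.sum_const, Finset.card_univ, nsmul_eq_mul, Fintype.card_fun, Fintype.card_bool,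
          Fintype.card_fin]
        push_cast
        ring
  have h6 : (2 : ℝ) ^ n * er (1 / 2 - 1 / (2 * (2 * (n : ℝ) + 1))) (dep n) < 1 := by
    calc (2 : ℝ) ^ n * er (1 / 2 - 1 / (2 * (2 * (n : ℝ) + 1))) (dep n) <
        2 ^ n * (1 / 2) ^ n := mul_lt_mul_of_pos_left (er_small n) (by positivity)
      _ = 1 := by
        rw [← mul_pow]
        norm_num
  linarith

/-! ### Circuits -/

lemma maj_comp : MComp 3 1 4 3 0 (fun _ y => maj (y 0) (y 1) (y 2)) := by
  have h1 := MComp.gate1 (Gate.or (.var 0) (.var 1) : Gate 3 0) 0 (by simp [Gate.isNot])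
  have h2 : MComp 3 3 0 1 0 (fun (i : Fin 3) x => x i) :=
    ((MComp.proj (fun a : Fin 3 => (Sum.inr a : Bool ⊕ Fin 3))).mono le_rfl
      (Nat.zero_le _) le_rfl).congr (fun _ _ => rfl)
  have h3 := MComp.mux (n := 3 + 1) (Fin.castAdd 1 0) (Fin.castAdd 1 1) (Fin.castAdd 1 2)
    (Fin.natAdd 3 0)
  refine (((h2.par h1).comp h3).mono (by norm_num) (by norm_num) (by norm_num)).congr
    (fun _ x => ?_)
  simp only [Fin.append_left, Fin.append_right]
  rfl

lemma tree_comp {n : ℕ} (K : ℕ) : ∀ (j : ℕ) (t : Tr (2 * n + 1) j), ∃ s, s + 2 ≤ 2 * 3 ^ j ∧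
    MComp n 1 s (3 * j) 0 (fun _ x => ev (lab K x) j t) := by
  intro j
  induction j with
  | zero =>
    intro p
    change Fin (2 * n + 1) at p
    by_cases h : p.val < n
    · refine ⟨0, le_rfl, (MComp.proj (fun _ : Fin 1 => (Sum.inr ⟨p.val, h⟩ :
        Bool ⊕ Fin n))).congr (fun _ x => ?_)⟩
      change x ⟨p.val, h⟩ = lab K x p
      unfold lab
      rw [dif_pos h]
    · refine ⟨0, le_rfl, (MComp.proj (fun _ : Fin 1 =>
        (Sum.inl (decide (p.val < n + (n + 1 - K))) : Bool ⊕ Fin n))).congr (fun _ x => ?_)⟩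
      change decide _ = lab K x p
      unfold lab
      rw [dif_neg h]
  | succ j ih =>
    intro t
    obtain ⟨s1, g1, h1⟩ := ih t.1
    obtain ⟨s2, g2, h2⟩ := ih t.2.1
    obtain ⟨s3, g3, h3⟩ := ih t.2.2
    have h4 : MComp n 3 (s1 + s2 + s3) (3 * j) (0 + 0 + 0) (fun i x =>
        if i = 0 then ev (lab K x) j t.1 else if i = 1 then ev (lab K x) j t.2.1 else
          ev (lab K x) j t.2.2) := by
      refine ((h1.par h2).par h3).congr (fun i x => ?_)
      fin_cases i <;> rfl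
    refine ⟨s1 + s2 + s3 + 4, ?_, ((h4.comp maj_comp).mono le_rfl (by omega) (by omega)).congr
      (fun _ x => ?_)⟩
    · rw [pow_succ]
      omega
    · rfl

/-- threshold functions in logarithmic depth -/
theorem thr_shallow (n K : ℕ) : MComp n 1 (2 * 3 ^ dep n) (3 * dep n) 0
    (fun _ x => decide (K ≤ wt x)) := by
  obtain ⟨t, ht⟩ := exists_tree n (min K (n + 1)) (min_le_right _ _)
  obtain ⟨s, h0, hs⟩ := tree_comp (min K (n + 1)) (dep n) t
  refine (hs.mono (by omega) le_rfl le_rfl).congr (fun _ x => ?_)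
  rw [ht]
  have h6 : wt x ≤ n := by
    unfold wt
    simpa using Finset.card_le_univ (univ.filter (fun i => x i = true))
  apply Bool.eq_iff_iff.mpr
  simp only [decide_eq_true_eq]
  omega

/-- Threshold functions have circuits of logarithmic depth without NOT gates. -/
theorem shallow_thr : ∃ a : ℕ, ∀ n K : ℕ, ∃ C : Circuit n,
    (∀ g, (C.gate g).isNot = false) ∧ C.depth ≤ a * Nat.log 2 n + a ∧
      ∀ x, C.eval x = decide (K ≤ wt x) := by
  refine ⟨28, fun n K => ?_⟩
  obtain ⟨C, h1, h2, h3, h4⟩ := (thr_shallow n K).circuit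
  refine ⟨C, fun g => ?_, ?_, h1⟩
  · have h5 : C.negations = 0 := Nat.le_zero.mp h4
    unfold Circuit.negations at h5
    rw [Finset.card_eq_zero, Finset.filter_eq_empty_iff] at h5
    exact Bool.eq_false_iff.mpr (h5 (Finset.mem_univ g))
  · refine le_trans h3 ?_
    unfold dep
    omega

/-- the size of the trees -/
lemma three_pow_dep (n : ℕ) : 2 * 3 ^ dep n ≤ (n + 2) ^ 23 := by
  have e1 : 3 ^ dep n = 3 ^ 9 * 81 ^ Nat.log 2 n := by
    unfold dep
    rw [show (81 : ℕ) = 3 ^ 4 by norm_num, ← pow_mul, ← pow_add]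
    congr 1
    ring
  have e2 : 81 ^ Nat.log 2 n ≤ (n + 2) ^ 7 := by
    calc 81 ^ Nat.log 2 n ≤ 128 ^ Nat.log 2 n := Nat.pow_le_pow_left (by norm_num) _
      _ = (2 ^ Nat.log 2 n) ^ 7 := by
        rw [show (128 : ℕ) = 2 ^ 7 by norm_num, ← pow_mul, ← pow_mul, Nat.mul_comm]
      _ ≤ (n + 2) ^ 7 := by
        apply Nat.pow_le_pow_left
        rcases Nat.eq_zero_or_pos n with h | h
        · subst h
          simp
        · exact le_trans (Nat.pow_log_le_self 2 (by omega)) (by omega)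
  have e3 : 2 ^ 16 ≤ (n + 2) ^ 16 := Nat.pow_le_pow_left (by omega) _
  calc 2 * 3 ^ dep n = (2 * 3 ^ 9) * 81 ^ Nat.log 2 n := by rw [e1]; ring
    _ ≤ 2 ^ 16 * (n + 2) ^ 7 := Nat.mul_le_mul (by norm_num) e2
    _ ≤ (n + 2) ^ 16 * (n + 2) ^ 7 := Nat.mul_le_mul_right _ e3
    _ = _ := by rw [← pow_add]

end VT

end Pool.Agent.Results.MP_2af48a_lc.FewNegations
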