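import Pool.Agent.Lib_MP_2af48a_lc.NotRail

/-!
# Monotone functions: the choice of the window with few NOT gates

`s i` says whether the weight is above the window number `i`; the value for the window of the input
is chosen among `2 ^ t` values with `t` NOT gates by binary search.
-/

open Finset

namespace Pool.Agent.Results.MP_2af48a_lc.FewNegations

/-- extension by `false` -/
def exf {n : ℕ} (x : Fin n → Bool) (i : ℕ) : Bool := if h : i < n then x ⟨i, h⟩ else false

lemma exf_lt {n : ℕ} (x : Fin n → Bool) (i : ℕ) (h : i < n) : exf x i = x ⟨i, h⟩ := dif_pos h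

/-- binary search -/
def bsel : ℕ → (ℕ → Bool) → (ℕ → Bool) → Bool
  | 0, _, v => v 0
  | t + 1, s, v => bsel t
      (fun i => (s i && !(s (2 ^ t - 1))) || (s (2 ^ t + i) && s (2 ^ t + i)))
      (fun i => (v i && !(s (2 ^ t - 1))) || (v (2 ^ t + i) && s (2 ^ t - 1)))

lemma bsel_congr (t : ℕ) (s s' v v' : ℕ → Bool) (hs : ∀ i < 2 ^ t, s i = s' i)
    (hv : ∀ i < 2 ^ t, v i = v' i) : bsel t s v = bsel t s' v' := by
  induction t generalizing s s' v v' with
  | zero => exact hv 0 (by simp)
  | succ t ih =>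
    unfold bsel
    have hp : 2 ^ (t + 1) = 2 ^ t + 2 ^ t := by rw [pow_succ]; ring
    have h1 : 0 < 2 ^ t := by positivity
    apply ih
    · intro i hi
      rw [hs i (by omega), hs (2 ^ t - 1) (by omega), hs (2 ^ t + i) (by omega)]
    · intro i hi
      rw [hv i (by omega), hs (2 ^ t - 1) (by omega), hv (2 ^ t + i) (by omega)]

lemma bsel_spec (t : ℕ) (s v : ℕ → Bool) (q : ℕ) (hq : q < 2 ^ t)
    (hs : ∀ i, i + 1 < 2 ^ t → s i = decide (i < q)) : bsel t s v = v q := by
  induction t generalizing s v q with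
  | zero =>
    have : q = 0 := by simpa using hq
    subst this
    rfl
  | succ t ih =>
    unfold bsel
    have hp : 2 ^ (t + 1) = 2 ^ t + 2 ^ t := by rw [pow_succ]; ring
    have h1 : 0 < 2 ^ t := by positivity
    have hm := hs (2 ^ t - 1) (by omega)
    by_cases hqm : 2 ^ t ≤ q
    · have e : s (2 ^ t - 1) = true := by
        rw [hm]
        exact decide_eq_true (by omega)
      rw [ih _ _ (q - 2 ^ t) (by omega)]
      · rw [e]
        simp only [Bool.not_true, Bool.and_false, Bool.and_true, Bool.false_or]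
        congr 1
        omega
      · intro i hi
        rw [e, hs (2 ^ t + i) (by omega)]
        simp only [Bool.not_true, Bool.and_false, Bool.and_self, Bool.false_or]
        apply Bool.eq_iff_iff.mpr
        simp only [decide_eq_true_eq]
        omega
    · have e : s (2 ^ t - 1) = false := by
        rw [hm]
        exact decide_eq_false (by omega)
      rw [ih _ _ q (by omega)]
      · rw [e]
        simp
      · intro i hi
        rw [e, hs i (by omega), hs (2 ^ t + i) (by omega)]
        simp only [Bool.not_false, Bool.and_true, Bool.and_self]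
        apply Bool.eq_iff_iff.mpr
        simp only [Bool.or_eq_true, decide_eq_true_eq]
        omega

/-- a formula with three gates -/
lemma MComp.mux {n : ℕ} (a b c d : Fin n) :
    MComp n 1 3 2 0 (fun _ x => (x a && x b) || (x c && x d)) := by
  have h1 := MComp.gate1 (Gate.and (.var a) (.var b) : Gate n 0) 0 (by simp [Gate.isNot])
  have h2 := MComp.gate1 (Gate.and (.var c) (.var d) : Gate n 0) 0 (by simp [Gate.isNot])
  have h3 := MComp.gate1 (Gate.or (.var 0) (.var 1) : Gate (1 + 1) 0) 0 (by simp [Gate.isNot])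
  exact ((h1.par h2).comp h3).congr (fun _ x => rfl)

/-- one step of the binary search -/
lemma MComp.step {n n' : ℕ} (a c d : Fin n' → Fin n) (u : Fin n) :
    MComp n n' (1 + n' * 3) 3 1 (fun j x => (x (a j) && !(x u)) || (x (c j) && x (d j))) := by
  have h1 := MComp.gate1 (Gate.not (.var u) : Gate n 0) 1 (by simp [Gate.isNot])
  have h2 : MComp n n 0 1 0 (fun (i : Fin n) x => x i) :=
    ((MComp.proj (fun a : Fin n => (Sum.inr a : Bool ⊕ Fin n))).mono le_rfl
      (Nat.zero_le _) le_rfl).congr (fun _ _ => rfl)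
  have h3 : MComp (n + 1) n' (n' * 3) 2 (n' * 0) (fun (j : Fin n') (y : Fin (n + 1) → Bool) =>
      (y (Fin.castAdd 1 (a j)) && y (Fin.natAdd n 0)) ||
        (y (Fin.castAdd 1 (c j)) && y (Fin.castAdd 1 (d j)))) :=
    MComp.family 3 2 0 n' _ (fun j => MComp.mux _ _ _ _)
  refine (((h2.par h1).comp h3).mono ?_ ?_ ?_).congr (fun j x => ?_)
  · omega
  · omega
  · omega
  · simp only [Fin.append_left, Fin.append_right]
    rfl

/-- The choice with `t` NOT gates. -/
theorem bsel_comp (t : ℕ) : MComp (2 * 2 ^ t) 1 (7 * 2 ^ t) (3 * t) t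
    (fun _ x => bsel t (exf x) (fun i => exf x (2 ^ t + i))) := by
  induction t with
  | zero =>
    refine ((MComp.proj (fun _ : Fin 1 => (Sum.inr ⟨1, by norm_num⟩ :
      Bool ⊕ Fin (2 * 2 ^ 0)))).mono (Nat.zero_le _) (Nat.zero_le _) le_rfl).congr (fun _ x => ?_)
    change x ⟨1, _⟩ = exf x (2 ^ 0 + 0)
    rw [exf_lt x _ (by norm_num)]
    congr 1
  | succ t ih =>
    have hp : 2 ^ (t + 1) = 2 ^ t + 2 ^ t := by rw [pow_succ]; ring
    have h1 : 0 < 2 ^ t := by positivity
    have h := (MComp.step (n := 2 * 2 ^ (t + 1)) (n' := 2 * 2 ^ t)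
      (fun j => if j.val < 2 ^ t then ⟨j.val, by have := j.isLt; omega⟩ else
        ⟨2 ^ t + j.val, by have := j.isLt; omega⟩)
      (fun j => if j.val < 2 ^ t then ⟨2 ^ t + j.val, by have := j.isLt; omega⟩ else
        ⟨2 * 2 ^ t + j.val, by have := j.isLt; omega⟩)
      (fun j => if j.val < 2 ^ t then ⟨2 ^ t + j.val, by have := j.isLt; omega⟩ else
        ⟨2 ^ t - 1, by omega⟩)
      ⟨2 ^ t - 1, by omega⟩).comp ih
    refine (h.mono ?_ ?_ ?_).congr (fun _ x => ?_)
    · omega
    · omega
    · omega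
    · change bsel t _ _ = bsel t _ _
      apply bsel_congr
      · intro i hi
        rw [exf_lt _ i (by omega), exf_lt x i (by omega), exf_lt x (2 ^ t - 1) (by omega),
          exf_lt x (2 ^ t + i) (by omega)]
        simp only [if_pos hi]
      · intro i hi
        have h2 : ¬ (2 ^ t + i < 2 ^ t) := by omega
        beta_reduce
        rw [exf_lt _ (2 ^ t + i) (by omega), exf_lt x (2 ^ (t + 1) + i) (by omega),
          exf_lt x (2 ^ t - 1) (by omega), exf_lt x (2 ^ (t + 1) + (2 ^ t + i)) (by omega)]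
        simp only [if_neg h2]
        have e1 : 2 ^ t + (2 ^ t + i) = 2 ^ (t + 1) + i := by omega
        have e2 : 2 * 2 ^ t + (2 ^ t + i) = 2 ^ (t + 1) + (2 ^ t + i) := by omega
        simp only [e1, e2]

/-- Monotone functions of `n < 2 ^ t * c` variables need only `t` NOT gates. -/
theorem window_comp {n s d S D : ℕ} (c t : ℕ) (hc : n < 2 ^ t * c)
    (f : (Fin n → Bool) → Bool) (R : (Fin (n + n) → Bool) → Bool)
    (hf : ∀ x y, (∀ i, x i = true → y i = true) → f x = true → f y = true)
    (hR : MComp (n + n) 1 s d 0 (fun _ => R)) (hRf : ∀ x, R (dbl x) = f x)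
    (h0 : ∀ K, MComp n 1 S D 0 (fun _ x => decide (K ≤ wt x))) :
    MComp n 1 (2 * 2 ^ t * ((n + 1) ^ c * (S + s)) + 7 * 2 ^ t) (D + c * d + 3 * t) t
      (fun _ => f) := by
  have hR' : ∀ x y, (∀ i, x i = true → y i = true) → R x = true → R y = true :=
    fun x y h1 h2 => hR.monotone 0 x y h1 h2
  have hfam : MComp n (2 * 2 ^ t) (2 * 2 ^ t * ((n + 1) ^ c * (S + s))) (D + c * d)
      (2 * 2 ^ t * 0) (fun (j : Fin (2 * 2 ^ t)) (x : Fin n → Bool) =>
        if j.val < 2 ^ t then decide ((j.val + 1) * c ≤ wt x) else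
          gj R ((j.val - 2 ^ t + 1) * c) c x) := by
    apply MComp.family
    intro j
    by_cases hj : j.val < 2 ^ t
    · refine ((h0 ((j.val + 1) * c)).mono ?_ ?_ le_rfl).congr (fun _ x => ?_)
      · calc S ≤ S + s := Nat.le_add_right _ _
          _ = 1 * (S + s) := (Nat.one_mul _).symm
          _ ≤ (n + 1) ^ c * (S + s) :=
            Nat.mul_le_mul_right _ (Nat.one_le_pow _ _ (Nat.succ_pos n))
      · exact Nat.le_add_right _ _
      · rw [if_pos hj]
    · refine (gj_comp R hR ((j.val - 2 ^ t + 1) * c) (h0 _) c).congr (fun _ x => ?_)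
      rw [if_neg hj]
  refine ((hfam.comp (bsel_comp t)).mono le_rfl le_rfl (by omega)).congr (fun _ x => ?_)
  have hwt : wt x ≤ n := by
    unfold wt
    simpa using Finset.card_le_univ (univ.filter (fun i => x i = true))
  have hc0 : 0 < c := by
    rcases Nat.eq_zero_or_pos c with h | h
    · rw [h] at hc
      omega
    · exact h
  have hq : wt x / c < 2 ^ t := by
    rw [Nat.div_lt_iff_lt_mul hc0]
    omega
  have h3 : wt x / c * c ≤ wt x := Nat.div_mul_le_self (wt x) c
  have h4 : wt x < c * (wt x / c + 1) := Nat.lt_mul_div_succ (wt x) hc0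
  have h5 : ∀ i, (i + 1) * c ≤ wt x ↔ i < wt x / c := by
    intro i
    rw [← Nat.le_div_iff_mul_le hc0]
    exact Nat.succ_le_iff
  generalize wt x / c = q at hq h3 h4 h5
  rw [bsel_spec t _ _ q hq]
  · rw [exf_lt _ (2 ^ t + q) (by omega)]
    have h2 : ¬ (2 ^ t + q < 2 ^ t) := by omega
    simp only [if_neg h2]
    have e : 2 ^ t + q - 2 ^ t = q := by omega
    rw [e]
    apply gj_eq R f hR' hf hRf
    · rw [Nat.mul_comm]
      exact h4
    · rw [Nat.succ_mul]
      omega
  · intro i hi
    rw [exf_lt _ i (by omega)]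
    have h2 : i < 2 ^ t := by omega
    simp only [if_pos h2]
    apply Bool.eq_iff_iff.mpr
    simp only [decide_eq_true_eq]
    exact h5 i

end Pool.Agent.Results.MP_2af48a_lc.FewNegations
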