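import Pool.Agent.Lib_MP_2af48a_lc.MonotoneSeparation

open Finset

namespace Pool.Agent.Results.MP_2af48a_lc.Odometer

open MonotoneSeparation

/-! # Lifting an adversary argument to monotone circuits -/

section Lift

variable {V Q : Type} [Fintype V] [DecidableEq V] [Fintype Q] [DecidableEq Q] {n r : ℕ}

/-- triples of cells -/
abbrev Tri (V : Type) (r : ℕ) := (V × Fin (r * r)) × (V × Fin (r * r)) × (V × Fin (r * r))

/-- Alice's inputs -/
def tA (e : Fin n → Tri V r) (σ : V → Fin (r * r)) : Fin n → Bool := fun i =>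
  decide (σ (e i).1.1 = (e i).1.2 ∧ σ (e i).2.1.1 = (e i).2.1.2 ∧ σ (e i).2.2.1 = (e i).2.2.2)

open Classical in
/-- Bob's inputs -/
noncomputable def tB (Viol : V → V → V → Q → Q → Q → Prop) (e : Fin n → Tri V r)
    (y : V × Fin (r * r) → Q) : Fin n → Bool := fun i =>
  decide (¬ Viol (e i).1.1 (e i).2.1.1 (e i).2.2.1 (y (e i).1) (y (e i).2.1) (y (e i).2.2))

/-- Alice sets -/
def tX (C : MonCircuit n) (e : Fin n → Tri V r) (k : ℕ) : Finset (V → Fin (r * r)) :=
  univ.filter (fun σ => nodeVal C (tA e σ) k = true)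

/-- Bob sets -/
noncomputable def tY (Viol : V → V → V → Q → Q → Q → Prop) (C : MonCircuit n)
    (e : Fin n → Tri V r) (k : ℕ) : Finset (V × Fin (r * r) → Q) :=
  univ.filter (fun y => nodeVal C (tB Viol e y) k = false)

/-- No good state without violated constraints at an input node. -/
lemma tinput_contra (Viol : V → V → V → Q → Q → Q → Prop) (C : MonCircuit n)
    (e : Fin n → Tri V r) (hr : 0 < r) (hr2 : 2 ≤ r) (hQ : 0 < Fintype.card Q)
    (W Δ : ℕ) (k : ℕ) (hk : k < n) (I : Finset V)
    (γ : V → Fin (r * r)) (b : V → Q)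
    (hgood : Good r W Δ (Fintype.card_fin (r * r)) hr (tX C e) (tY Viol C e) k I γ b)
    (hfin : ∀ u ∈ I, ∀ v ∈ I, ∀ z ∈ I, ¬ Viol u v z (b u) (b v) (b z)) : False := by
  obtain ⟨P, hPG, hPne, hfix, hd, hIW, Y', hY', hYb, hYc⟩ := hgood
  -- an element of Bob's side
  have hYne : Y'.Nonempty := by
    by_contra h
    rw [Finset.not_nonempty_iff_eq_empty] at h
    rw [h] at hYc
    simp only [Finset.card_empty, zero_mul, nonpos_iff_eq_zero] at hYc
    have : 0 < (Fintype.card Q) ^ (Fintype.card (V × Fin (r * r))) := Nat.pow_pos hQ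
    omega
  obtain ⟨y, hy⟩ := hYne
  have hy0 := hY' hy
  rw [Finset.mem_sdiff] at hy0
  have hyv : nodeVal C (tB Viol e y) k = false := (Finset.mem_filter.mp hy0.1).2
  unfold nodeVal at hyv
  rw [dif_pos hk] at hyv
  rcases he : e ⟨k, hk⟩ with ⟨⟨u, a⟩, ⟨v, a'⟩, ⟨z, a''⟩⟩
  have hV : Viol u v z (y (u, a)) (y (v, a')) (y (z, a'')) := by
    have h := hyv
    unfold tB at h
    rw [he] at h
    simpa using h
  -- Alice's side
  have hal : ∀ σ ∈ P, σ u = a ∧ σ v = a' ∧ σ z = a'' := by
    intro σ hσ
    have h1 := hPG hσ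
    unfold GX at h1
    rw [Finset.mem_sdiff] at h1
    have h2 : nodeVal C (tA e σ) k = true := (Finset.mem_filter.mp h1.1).2
    unfold nodeVal at h2
    rw [dif_pos hk] at h2
    unfold tA at h2
    rw [he] at h2
    simpa using h2
  -- a coordinate on which all of P agrees lies in I
  have hconst : ∀ (v : V) (a : Fin (r * r)), (∀ σ ∈ P, σ v = a) → v ∈ I := by
    intro v a hva
    by_contra hvI
    have := hd {v} (by rw [Finset.disjoint_singleton_left]; exact hvI) (fun _ => a)
    have hfil : P.filter (fun x => ∀ u ∈ ({v} : Finset V), x u = a) = P := by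
      rw [Finset.filter_eq_self]
      intro σ hσ u hu
      rw [Finset.mem_singleton] at hu
      rw [hu]
      exact hva σ hσ
    rw [hfil, Finset.card_singleton, pow_one] at this
    have hpos := hPne.card_pos
    nlinarith
  obtain ⟨σ0, hσ0⟩ := hPne
  have hlab : ∀ (v : V) (a : Fin (r * r)), (∀ σ ∈ P, σ v = a) → v ∈ I ∧ y (v, a) = b v := by
    intro v a hva
    have hm := hconst v a hva
    refine ⟨hm, ?_⟩
    have h1 := hYb y hy v hm
    rwa [← hfix σ0 hσ0 v hm, hva σ0 hσ0] at h1
  obtain ⟨hu, hu'⟩ := hlab u a (fun σ hσ => (hal σ hσ).1)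
  obtain ⟨hv, hv'⟩ := hlab v a' (fun σ hσ => (hal σ hσ).2.1)
  obtain ⟨hz, hz'⟩ := hlab z a'' (fun σ hσ => (hal σ hσ).2.2)
  rw [hu', hv', hz'] at hV
  exact hfin u hu v hv z hz hV

/-- A strategy of the adversary. -/
structure Strategy (Viol : V → V → V → Q → Q → Q → Prop) (W D : ℕ) where
  Inv : Finset V → (V → Q) → ℕ → Prop
  init : ∀ b, Inv ∅ b D
  step : ∀ I b d, Inv I b d → I.card ≤ W → ∃ c : Finset V → V → Q,
    ∀ (I' : Finset V) (b' : V → Q) (d' : ℕ), I'.card ≤ W → d' + 1 ≤ d →
      (∀ v ∈ I', v ∈ I → b' v = b v) → (∀ v ∈ I', v ∉ I → b' v = c I' v) → Inv I' b' d'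
  fin : ∀ I b d, Inv I b d → ∀ u ∈ I, ∀ v ∈ I, ∀ z ∈ I, ¬ Viol u v z (b u) (b v) (b z)

/-- No good state satisfying the invariant exists at any node. -/
theorem tno_state (Viol : V → V → V → Q → Q → Q → Prop) (W D Δ : ℕ) (S : Strategy Viol W D)
    (C : MonCircuit n) (e : Fin n → Tri V r) (hr : 0 < r) (hr2 : 2 ≤ r)
    (hQ : 0 < Fintype.card Q) (hcardV : 2 * W ≤ Fintype.card V)
    (h3 : 20 * W * ((Δ + 2) * Fintype.card Q) ≤ r) (k : ℕ) (hk : k < n + C.size) :
    ∀ (I : Finset V) (γ : V → Fin (r * r)) (b : V → Q),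
    Good r W Δ (Fintype.card_fin (r * r)) hr (tX C e) (tY Viol C e) k I γ b →
    S.Inv I b (nodeDepth C k) → False := by
  induction k using Nat.strong_induction_on with
  | _ k ih =>
  intro I γ b hgood hinv
  by_cases hkn : k < n
  · exact tinput_contra Viol C e hr hr2 hQ W Δ k hkn I γ b hgood (S.fin I b _ hinv)
  obtain ⟨g, rfl⟩ : ∃ g, k = n + g := ⟨k - n, by omega⟩
  have hg : g < C.size := by omega
  obtain ⟨P, hPG, hPne, hfix, hd, hIW, Y', hY', hYb, hYc⟩ := hgood
  have hZ : 0 < (Fintype.card Q) ^ (Fintype.card (V × Fin (r * r))) := Nat.pow_pos hQ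
  obtain ⟨c, hc⟩ := S.step I b _ hinv hIW
  set G := C.gate ⟨g, hg⟩ with hG
  have hval : ∀ x, nodeVal C x (n + g)
      = G.val x (fun g' => C.gateVal x g'.val (lt_trans g'.isLt hg)) := by
    intro x
    have h0 : nodeVal C x (n + g) = C.gateVal x g hg := by
      unfold nodeVal
      have h1 : ¬ n + g < n := by omega
      have e : n + g - n = g := by omega
      have h2 : n + g - n < C.size := by omega
      rw [dif_neg h1, dif_pos h2]
      congr 1
    rw [h0]
    conv_lhs => unfold MonCircuit.gateVal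
  have hdep : nodeDepth C (n + g)
      = max (G.left.depth (fun g' => C.gateDepth g'.val (lt_trans g'.isLt hg)))
        (G.right.depth (fun g' => C.gateDepth g'.val (lt_trans g'.isLt hg))) + 1 := by
    have h0 : nodeDepth C (n + g) = C.gateDepth g hg := by
      unfold nodeDepth
      have h1 : ¬ n + g < n := by omega
      have e : n + g - n = g := by omega
      have h2 : n + g - n < C.size := by omega
      rw [if_neg h1, dif_pos h2]
      congr 1
    rw [h0]
    conv_lhs => unfold MonCircuit.gateDepth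
  -- generic step
  have step : ∀ (Y'' : Finset (V × Fin (r * r) → Q)), Y'' ⊆ Y' →
      (Fintype.card Q) ^ (Fintype.card (V × Fin (r * r))) ≤ Y''.card * 2 ^ (Δ + 1) →
      ∀ (ω : (V → Fin (r * r)) → Wire n g),
      (∀ σ ∈ P, ω σ = G.left ∨ ω σ = G.right) →
      (∀ σ ∈ P, (ω σ).val (tA e σ)
        (fun g' => C.gateVal (tA e σ) g'.val (lt_trans g'.isLt hg)) = true) →
      (∀ σ ∈ P, ∀ y ∈ Y'', (ω σ).val (tB Viol e y)
        (fun g' => C.gateVal (tB Viol e y) g'.val (lt_trans g'.isLt hg)) = false) → False := by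
    intro Y'' hYY hYc'' ω hω hωA hωB
    have hYne : Y''.Nonempty := by
      by_contra h
      rw [Finset.not_nonempty_iff_eq_empty] at h
      rw [h] at hYc''
      simp only [Finset.card_empty, zero_mul, nonpos_iff_eq_zero] at hYc''
      omega
    obtain ⟨y0, hy0⟩ := hYne
    have hnc : ∀ σ ∈ P, ∀ b', ω σ ≠ Wire.const b' := by
      intro σ hσ b' hc
      have h1 := hωA σ hσ
      have h2 := hωB σ hσ y0 hy0
      rw [hc] at h1 h2
      simp only [Wire.val] at h1 h2
      rw [h1] at h2
      exact Bool.noConfusion h2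
    have hspec := fun σ hσ => wnode_spec C g hg (ω σ) (hnc σ hσ)
    obtain ⟨σ, hσ, I', γ', b', hgood', hag1, hag2⟩ := core_step (Q := Q) r W Δ
      (Fintype.card_fin (r * r)) hr (tX C e) (tY Viol C e) hQ hcardV
      h3 P hPne I hIW hd γ b hfix Y'' hYc''
      (fun y hy => hYb y (hYY hy)) (fun σ => wnode (ω σ))
      (by
        intro σ hσ
        have hlt := (hspec σ hσ).1
        have h1 := hPG hσ
        unfold GX at h1 ⊢
        rw [Finset.mem_sdiff] at h1 ⊢
        refine ⟨?_, fun hU => h1.2 (UX_mono r W _ hr _ (by omega) hU)⟩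
        unfold tX
        rw [Finset.mem_filter]
        refine ⟨Finset.mem_univ _, ?_⟩
        rw [(hspec σ hσ).2.1]
        exact hωA σ hσ)
      (by
        intro σ hσ y hy
        have hlt := (hspec σ hσ).1
        have h1 := hY' (hYY hy)
        unfold GY
        rw [Finset.mem_sdiff] at h1 ⊢
        refine ⟨?_, fun hU => h1.2 (UY_mono W Δ _ (by omega) hU)⟩
        unfold tY
        rw [Finset.mem_filter]
        refine ⟨Finset.mem_univ _, ?_⟩
        rw [(hspec σ hσ).2.1]
        exact hωB σ hσ y hy)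
      c
    have hlt := (hspec σ hσ).1
    have hdlt : nodeDepth C (wnode (ω σ)) + 1 ≤ nodeDepth C (n + g) := by
      rw [(hspec σ hσ).2.2, hdep]
      rcases hω σ hσ with h | h
      · rw [h]
        exact Nat.succ_le_succ (le_max_left _ _)
      · rw [h]
        exact Nat.succ_le_succ (le_max_right _ _)
    have hI'W : I'.card ≤ W := by
      obtain ⟨_, _, _, _, _, h, _⟩ := hgood'
      exact h
    refine ih (wnode (ω σ)) hlt (by omega) I' γ' b' hgood' ?_
    exact hc I' b' _ hI'W hdlt (fun v hv hvI => (hag1 v hv hvI).2) hag2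
  -- values at the node
  have hPA : ∀ σ ∈ P, G.val (tA e σ)
      (fun g' => C.gateVal (tA e σ) g'.val (lt_trans g'.isLt hg)) = true := by
    intro σ hσ
    have h1 := hPG hσ
    unfold GX at h1
    rw [Finset.mem_sdiff] at h1
    have h2 := h1.1
    unfold tX at h2
    rw [← hval]
    exact (Finset.mem_filter.mp h2).2
  have hYB : ∀ y ∈ Y', G.val (tB Viol e y)
      (fun g' => C.gateVal (tB Viol e y) g'.val (lt_trans g'.isLt hg)) = false := by
    intro y hy
    have h1 := hY' hy
    rw [Finset.mem_sdiff] at h1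
    have h2 := h1.1
    unfold tY at h2
    rw [← hval]
    exact (Finset.mem_filter.mp h2).2
  by_cases hand : G.isAnd = true
  · -- AND gate
    have hA : ∀ σ ∈ P, G.left.val (tA e σ)
          (fun g' => C.gateVal (tA e σ) g'.val (lt_trans g'.isLt hg)) = true ∧
        G.right.val (tA e σ)
          (fun g' => C.gateVal (tA e σ) g'.val (lt_trans g'.isLt hg)) = true := by
      intro σ hσ
      have := hPA σ hσ
      unfold Gate.val at this
      rw [if_pos hand, Bool.and_eq_true] at this
      exact this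
    set Yl := Y'.filter (fun y => G.left.val (tB Viol e y)
          (fun g' => C.gateVal (tB Viol e y) g'.val (lt_trans g'.isLt hg)) = false) with hYl
    set Yr := Y'.filter (fun y => ¬ (G.left.val (tB Viol e y)
          (fun g' => C.gateVal (tB Viol e y) g'.val (lt_trans g'.isLt hg)) = false)) with hYr
    have hsum : Yl.card + Yr.card = Y'.card :=
      Finset.card_filter_add_card_filter_not _
    by_cases hl : (Fintype.card Q) ^ (Fintype.card (V × Fin (r * r))) ≤ Yl.card * 2 ^ (Δ + 1)
    · exact step Yl (Finset.filter_subset _ _) hl (fun _ => G.left) (fun _ _ => Or.inl rfl)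
        (fun σ hσ => (hA σ hσ).1) (fun σ _ y hy => (Finset.mem_filter.mp hy).2)
    · have hr' : (Fintype.card Q) ^ (Fintype.card (V × Fin (r * r)))
          ≤ Yr.card * 2 ^ (Δ + 1) := by
        rw [pow_succ, ← mul_assoc] at hl ⊢
        have h5 : Y'.card * 2 ^ Δ = Yl.card * 2 ^ Δ + Yr.card * 2 ^ Δ := by rw [← hsum]; ring
        omega
      refine step Yr (Finset.filter_subset _ _) hr' (fun _ => G.right) (fun _ _ => Or.inr rfl)
        (fun σ hσ => (hA σ hσ).2) (fun σ _ y hy => ?_)
      have h1 := Finset.mem_filter.mp hy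
      have h2 := hYB y h1.1
      unfold Gate.val at h2
      rw [if_pos hand, Bool.and_eq_false_iff] at h2
      rcases h2 with h2 | h2
      · exact absurd h2 h1.2
      · exact h2
  · -- OR gate
    have hA : ∀ σ ∈ P, G.left.val (tA e σ)
          (fun g' => C.gateVal (tA e σ) g'.val (lt_trans g'.isLt hg)) = true ∨
        G.right.val (tA e σ)
          (fun g' => C.gateVal (tA e σ) g'.val (lt_trans g'.isLt hg)) = true := by
      intro σ hσ
      have := hPA σ hσ
      unfold Gate.val at this
      rw [if_neg hand, Bool.or_eq_true] at this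
      exact this
    have hB : ∀ y ∈ Y', G.left.val (tB Viol e y)
          (fun g' => C.gateVal (tB Viol e y) g'.val (lt_trans g'.isLt hg)) = false ∧
        G.right.val (tB Viol e y)
          (fun g' => C.gateVal (tB Viol e y) g'.val (lt_trans g'.isLt hg)) = false := by
      intro y hy
      have := hYB y hy
      unfold Gate.val at this
      rw [if_neg hand, Bool.or_eq_false_iff] at this
      exact this
    classical
    refine step Y' (Finset.Subset.refl _) ?_ (fun σ => if G.left.val (tA e σ)
          (fun g' => C.gateVal (tA e σ) g'.val (lt_trans g'.isLt hg)) = true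
          then G.left else G.right) ?_ ?_ ?_
    · rw [pow_succ]
      nlinarith
    · intro σ _
      by_cases h : G.left.val (tA e σ)
          (fun g' => C.gateVal (tA e σ) g'.val (lt_trans g'.isLt hg)) = true
      · left; rw [if_pos h]
      · right; rw [if_neg h]
    · intro σ hσ
      by_cases h : G.left.val (tA e σ)
          (fun g' => C.gateVal (tA e σ) g'.val (lt_trans g'.isLt hg)) = true
      · simp only [if_pos h]; exact h
      · simp only [if_neg h]; exact (hA σ hσ).resolve_left h
    · intro σ hσ y hy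
      by_cases h : G.left.val (tA e σ)
          (fun g' => C.gateVal (tA e σ) g'.val (lt_trans g'.isLt hg)) = true
      · simp only [if_pos h]; exact (hB y hy).1
      · simp only [if_neg h]; exact (hB y hy).2

/-- Lifting theorem for the depth of monotone circuits. -/
theorem lift_depth (Viol : V → V → V → Q → Q → Q → Prop) (W D Δ : ℕ) (S : Strategy Viol W D)
    (C : MonCircuit n) (e : Fin n → Tri V r) (hr2 : 2 ≤ r)
    (hQ : 0 < Fintype.card Q) (hcardV : 2 * W ≤ Fintype.card V)
    (hA : ∀ σ : V → Fin (r * r), C.eval (tA e σ) = true)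
    (hB : ∀ y : V × Fin (r * r) → Q, C.eval (tB Viol e y) = false)
    (h1 : 2 * (n + C.size) ≤ r ^ (W + 1))
    (h2 : 2 * ((n + C.size) * (Fintype.card V * (r * r) * Fintype.card Q + 1) ^ W) ≤ 2 ^ Δ)
    (h3 : 20 * W * ((Δ + 2) * Fintype.card Q) ≤ r) : D ≤ C.depth := by
  by_contra hlt
  push Not at hlt
  have hr : 0 < r := by omega
  have hm : 0 < r * r := Nat.mul_pos hr hr
  have hcardM : Fintype.card (Fin (r * r)) = r * r := Fintype.card_fin _
  have hZ : 0 < (Fintype.card Q) ^ (Fintype.card (V × Fin (r * r))) := Nat.pow_pos hQ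
  set N := n + C.size with hN
  have hout : n + C.out.val < N := by
    have := C.out.isLt
    omega
  have hN0 : 0 < N := by omega
  -- sizes of the error sets
  set UXS := UX r W (Fintype.card_fin (r * r)) hr (tX C e) N with hUXS
  set UYS := UY W Δ (tY Viol C e) N with hUYS
  have hUX : 2 * UXS.card ≤ (Fintype.card (Fin (r * r))) ^ (Fintype.card V) := by
    have h := UX_card r W (Fintype.card_fin (r * r)) hr (tX C e) N
    have h' : (2 * UXS.card) * N ≤ (Fintype.card (Fin (r * r))) ^ (Fintype.card V) * N := by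
      calc (2 * UXS.card) * N = UXS.card * (2 * N) := by ring
        _ ≤ UXS.card * r ^ (W + 1) := Nat.mul_le_mul_left _ h1
        _ ≤ _ := h
        _ = _ := by ring
    exact Nat.le_of_mul_le_mul_right h' hN0
  have hUY : 2 * UYS.card ≤ (Fintype.card Q) ^ (Fintype.card (V × Fin (r * r))) := by
    have h := UY_card W Δ (tY Viol C e) N
    rw [hcardM] at h
    set A := (Fintype.card V * (r * r) * Fintype.card Q + 1) ^ W with hA
    have hA0 : 0 < N * A := Nat.mul_pos hN0 (by rw [hA]; positivity)
    have h' : (2 * UYS.card) * (N * A) ≤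
        (Fintype.card Q) ^ (Fintype.card (V × Fin (r * r))) * (N * A) := by
      calc (2 * UYS.card) * (N * A) = UYS.card * (2 * (N * A)) := by ring
        _ ≤ UYS.card * 2 ^ Δ := Nat.mul_le_mul_left _ h2
        _ ≤ _ := h
        _ = _ := by ring
    exact Nat.le_of_mul_le_mul_right h' hA0
  -- initial sets
  set P0 : Finset (V → Fin (r * r)) := univ \ UXS with hP0
  set Q0 : Finset (V × Fin (r * r) → Q) := univ \ UYS with hQ0
  have hP0c : (Fintype.card (Fin (r * r))) ^ (Fintype.card V) ≤ 2 * P0.card := by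
    rw [hP0, Finset.card_sdiff_of_subset (Finset.subset_univ _), Finset.card_univ,
      Fintype.card_fun]
    omega
  have hQ0c : (Fintype.card Q) ^ (Fintype.card (V × Fin (r * r))) ≤ 2 * Q0.card := by
    rw [hQ0, Finset.card_sdiff_of_subset (Finset.subset_univ _), Finset.card_univ,
      Fintype.card_fun]
    omega
  have hMpos : 0 < (Fintype.card (Fin (r * r))) ^ (Fintype.card V) := by
    apply Nat.pow_pos
    rw [hcardM]
    exact hm
  have hP0ne : P0.Nonempty := by
    rw [← Finset.card_pos]
    omega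
  have hdense : Dense r P0 (∅ : Finset V) := by
    intro K _ γ
    rcases K.eq_empty_or_nonempty with rfl | hK
    · simp
    · have h := card_fixed_le K γ (by rw [hcardM]; exact hm) P0
      have h4 := h.trans hP0c
      rw [hcardM, mul_pow] at h4
      have hrK : 2 ≤ r ^ K.card := by
        calc 2 ≤ r := hr2
          _ = r ^ 1 := (pow_one r).symm
          _ ≤ r ^ K.card := Nat.pow_le_pow_right hr hK.card_pos
      set A := (P0.filter (fun x => ∀ v ∈ K, x v = γ v)).card with hA
      have h5 : (A * r ^ K.card) * 2 ≤ P0.card * 2 := by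
        calc (A * r ^ K.card) * 2 ≤ (A * r ^ K.card) * r ^ K.card := Nat.mul_le_mul_left _ hrK
          _ = A * (r ^ K.card * r ^ K.card) := by ring
          _ ≤ 2 * P0.card := h4
          _ = _ := by ring
      exact Nat.le_of_mul_le_mul_right h5 (by norm_num)
  obtain ⟨σ0, hσ0⟩ := hP0ne
  have hcard0 : (∅ : Finset V).card ≤ W := by simp
  have hnode : ∀ x, nodeVal C x (n + C.out.val) = C.eval x := by
    intro x
    unfold nodeVal
    have h1 : ¬ n + C.out.val < n := by omega
    have e : n + C.out.val - n = C.out.val := by omega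
    have h2 : n + C.out.val - n < C.size := by omega
    rw [dif_neg h1, dif_pos h2]
    simp only [e]
    rfl
  have hdepth : nodeDepth C (n + C.out.val) = C.depth := by
    unfold nodeDepth
    have h1 : ¬ n + C.out.val < n := by omega
    have e : n + C.out.val - n = C.out.val := by omega
    have h2 : n + C.out.val - n < C.size := by omega
    rw [if_neg h1, dif_pos h2]
    simp only [e]
    rfl
  have hQne : Nonempty Q := Fintype.card_pos_iff.mp hQ
  obtain ⟨q0⟩ := hQne
  obtain ⟨c, hc⟩ := S.step ∅ (fun _ => q0) D (S.init _) hcard0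
  obtain ⟨σ, hσ, I', γ', b', hgood', hag1, hag2⟩ := core_step (Q := Q) r W Δ
      (Fintype.card_fin (r * r)) hr (tX C e) (tY Viol C e) hQ hcardV
      h3 P0 ⟨σ0, hσ0⟩ ∅ hcard0 hdense σ0 (fun _ => q0)
      (fun x _ v hv => absurd hv (Finset.notMem_empty v)) Q0
      (by
        calc _ ≤ 2 * Q0.card := hQ0c
          _ = Q0.card * 2 := by ring
          _ ≤ Q0.card * 2 ^ (Δ + 1) := by
            apply Nat.mul_le_mul_left
            rw [pow_succ]
            have := Nat.one_le_two_pow (n := Δ)
            omega)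
      (fun y _ v hv => absurd hv (Finset.notMem_empty v)) (fun _ => n + C.out.val)
      (by
        intro σ hσ
        unfold GX
        rw [hP0, Finset.mem_sdiff] at hσ
        rw [Finset.mem_sdiff]
        refine ⟨?_, fun hU => hσ.2 (UX_mono r W _ hr _ (by omega) hU)⟩
        unfold tX
        rw [Finset.mem_filter]
        exact ⟨Finset.mem_univ _, by rw [hnode]; exact hA σ⟩)
      (by
        intro σ _ y hy
        unfold GY
        rw [hQ0, Finset.mem_sdiff] at hy
        rw [Finset.mem_sdiff]
        refine ⟨?_, fun hU => hy.2 (UY_mono W Δ _ (by omega) hU)⟩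
        unfold tY
        rw [Finset.mem_filter]
        exact ⟨Finset.mem_univ _, by rw [hnode]; exact hB y⟩)
      c
  have hI'W : I'.card ≤ W := by
    obtain ⟨_, _, _, _, _, h, _⟩ := hgood'
    exact h
  refine tno_state Viol W D Δ S C e hr hr2 hQ hcardV h3 (n + C.out.val) hout I' γ' b' hgood' ?_
  rw [hdepth]
  exact hc I' b' C.depth hI'W (by omega) (fun v _ hvI => absurd hvI (Finset.notMem_empty v)) hag2

end Lift

end Pool.Agent.Results.MP_2af48a_lc.Odometer
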