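import Pool.Agent.Lib_MP_2af48a_lc.OdoDefs
import Pool.Agent.Lib_MP_2af48a_lc.OdoLift

open Finset

namespace Pool.Agent.Results.MP_2af48a_lc.Odometer

/-! # The adversary for the odometer constraints -/

section Adv

variable {K p w : ℕ}

/-- what is registered for an index at a level: digit, context, base -/
@[ext]
structure Rec (w : ℕ) where
  dig : ℕ
  ctx : Fin w
  base : ℕ

/-- registry -/
abbrev Reg (w : ℕ) := ℕ → Fin w → Rec w

/-- consistency of the base of a row of level `l` with context `c` -/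
def Par (K p : ℕ) {w : ℕ} (reg : Reg w) (l : ℕ) (c : Fin w) (base : ℕ) : Prop :=
  (l = K ∧ c.val = 0 ∧ base = 0) ∨
  (l < K ∧ 1 ≤ (reg (l + 1) c).dig ∧
    base = (reg (l + 1) c).base + ((reg (l + 1) c).dig - 1) * wt p (l + 1))

/-- a row which agrees with the registry -/
def OKr (reg : Reg w) (v : Row K p w) : Prop :=
  (reg v.lev.val v.idx).dig = v.dig.val ∧ (reg v.lev.val v.idx).ctx = v.ctx ∧
    Par K p reg v.lev.val v.ctx (reg v.lev.val v.idx).base

/-- number of steps to the bottom -/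
def rho (reg : Reg w) (v : Row K p w) : ℕ :=
  (reg v.lev.val v.idx).base + v.dig.val * wt p v.lev.val

/-- indices promised by the labels of the memory -/
def Prom (I : Finset (Row K p w)) (b : Row K p w → Lab w) (l : ℕ) (i : Fin w) : Prop :=
  (l = K ∧ i.val = 0) ∨
  (∃ u ∈ I, ∃ α, b u = some (α, i) ∧ u.lev.val = l + 1 ∧ 1 ≤ u.dig.val) ∨
  (∃ u ∈ I, ∃ β, b u = some (i, β) ∧ u.lev.val + 1 = l ∧ u.dig.val = 0)

/-- rows which have to be zero -/
def Live (I : Finset (Row K p w)) (b : Row K p w → Lab w) (reg : Reg w) (v : Row K p w) : Prop :=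
  Prom I b v.lev.val v.idx ∧ OKr reg v

/-- the invariant, for a given registry -/
structure InvR (reg : Reg w) (I : Finset (Row K p w)) (b : Row K p w → Lab w) (d : ℕ) : Prop where
  dle : d ≤ dmax p K * wt p K
  top : ∀ i : Fin w, i.val = 0 →
    (reg K i).dig = dmax p K ∧ (reg K i).ctx.val = 0 ∧ (reg K i).base = 0
  zero : ∀ v ∈ I, b v ≠ none → OKr reg v ∧ d + 1 ≤ rho reg v
  startP : ∀ v ∈ I, ∀ α β, b v = some (α, β) → 1 ≤ v.dig.val → ∀ l, v.lev.val = l + 1 →
    reg l β = ⟨dmax p l, v.idx, (reg v.lev.val v.idx).base + (v.dig.val - 1) * wt p v.lev.val⟩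
  retP : ∀ v ∈ I, ∀ α β, b v = some (α, β) → v.dig.val = 0 → v.lev.val < K →
    reg (v.lev.val + 1) α = ⟨(reg (v.lev.val + 1) v.ctx).dig - 1,
      (reg (v.lev.val + 1) v.ctx).ctx, (reg (v.lev.val + 1) v.ctx).base⟩
  one : ∀ v ∈ I, b v = none → ¬ Live I b reg v

/-- The invariant implies that no constraint is violated. -/
lemma inv_fin (reg : Reg w) (I : Finset (Row K p w)) (b : Row K p w → Lab w) (d : ℕ)
    (h : InvR reg I b d) (u v z : Row K p w) (hu : u ∈ I) (hv : v ∈ I) (hz : z ∈ I) :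
    ¬ Viol u v z (b u) (b v) (b z) := by
  rintro (⟨h1, h2, h3, h4, h5⟩ | ⟨h1, h2, h3⟩ | ⟨h1, h2, h3, h4, ⟨α, h5⟩, h6⟩ |
    ⟨h1, h2, h3, h4, h5, h6, h7, h8, ⟨β, h9⟩, h10⟩)
  · refine h.one z hz h5 ⟨Or.inl ⟨h1, h3⟩, ?_⟩
    obtain ⟨t1, t2, t3⟩ := h.top z.idx h3
    have hctx : (reg K z.idx).ctx = z.ctx := Fin.ext (by omega)
    refine ⟨by rw [h1, t1, h2], by rw [h1, hctx], ?_⟩
    rw [h1, t3]
    exact Or.inl ⟨rfl, h4, rfl⟩
  · obtain ⟨⟨_, _, hp⟩, h4⟩ := h.zero z hz h3
    unfold rho at h4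
    rcases hp with ⟨_, _, hp⟩ | ⟨hp, _⟩
    · rw [hp, h2] at h4
      omega
    · omega
  · have hs := h.startP u hu α z.idx h5 h1 z.lev.val h2.symm
    obtain ⟨⟨k1, k2, k3⟩, _⟩ := h.zero u hu (by rw [h5]; simp)
    refine h.one z hz h6 ⟨Or.inr (Or.inl ⟨u, hu, α, h5, h2.symm, h1⟩), ?_⟩
    refine ⟨by rw [hs, h3], by rw [hs, h4], ?_⟩
    have hlt : z.lev.val < K := by
      have := u.lev.isLt
      omega
    refine Or.inr ⟨hlt, ?_, ?_⟩
    · rw [h2, h4, k1]; exact h1
    · rw [hs, h2, h4, k1]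
  · obtain ⟨⟨k1, k2, k3⟩, _⟩ := h.zero u hu h8
    have hvK : v.lev.val < K := by
      have := u.lev.isLt
      omega
    have hr := h.retP v hv z.idx β h9 h3 hvK
    have hzl : z.lev.val = u.lev.val := by rw [h5]
    refine h.one z hz h10 ⟨Or.inr (Or.inr ⟨v, hv, β, h9, by omega, h3⟩), ?_⟩
    rw [h2, h4] at hr
    refine ⟨by rw [hzl, hr]; simp only; omega, by rw [hzl, hr]; simp only; rw [k2, h7], ?_⟩
    rw [hzl, hr, h7]
    exact k3

/-- fresh values -/
lemma exists_fresh {A B : Type} [DecidableEq A] [Fintype B] [DecidableEq B] [Nonempty B]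
    (S : Finset A) (T : Finset B) (h : S.card + T.card ≤ Fintype.card B) :
    ∃ g : A → B, (∀ a ∈ S, g a ∉ T) ∧ ∀ a ∈ S, ∀ a' ∈ S, g a = g a' → a = a' := by
  classical
  have hc : Fintype.card S ≤ Fintype.card (Tᶜ : Finset B) := by
    rw [Fintype.card_coe, Fintype.card_coe, Finset.card_compl]
    omega
  obtain ⟨φ⟩ := Function.Embedding.nonempty_of_card_le hc
  refine ⟨fun a => if h : a ∈ S then (φ ⟨a, h⟩).val else Classical.arbitrary B, ?_, ?_⟩
  · intro a ha
    simp only [dif_pos ha]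
    exact Finset.mem_compl.mp (φ ⟨a, ha⟩).2
  · intro a ha a' ha' he
    simp only [dif_pos ha, dif_pos ha'] at he
    have := φ.injective (Subtype.ext he)
    exact congrArg Subtype.val this

/-- old indices -/
def OldI (I I' : Finset (Row K p w)) (b : Row K p w → Lab w) : Finset (Fin w) :=
  (univ.filter (fun i : Fin w => i.val = 0)) ∪ ((I ∪ I').image (fun v => v.idx) ∪
    ((I ∪ I').image (fun v => v.ctx) ∪ I.biUnion (fun v => (b v).elim ∅ (fun q => {q.1, q.2}))))

lemma OldI_card (W : ℕ) (I I' : Finset (Row K p w)) (b : Row K p w → Lab w) (hI : I.card ≤ W)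
    (hI' : I'.card ≤ W) : (OldI I I' b).card ≤ 6 * W + 1 := by
  have h1 : (univ.filter (fun i : Fin w => i.val = 0)).card ≤ 1 := by
    rw [Finset.card_le_one]
    intro a ha b hb
    simp only [mem_filter, mem_univ, true_and] at ha hb
    exact Fin.ext (by omega)
  have h0 := Finset.card_union_le I I'
  have h2 := Finset.card_image_le (s := I ∪ I') (f := fun v : Row K p w => v.idx)
  have h3 := Finset.card_image_le (s := I ∪ I') (f := fun v : Row K p w => v.ctx)
  have h4 : (I.biUnion (fun v => (b v).elim ∅ (fun q => ({q.1, q.2} : Finset (Fin w))))).card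
      ≤ I.card * 2 := by
    apply Finset.card_biUnion_le_card_mul
    intro v hv
    rcases b v with _ | q
    · simp
    · exact Finset.card_le_two
  unfold OldI
  refine (Finset.card_union_le _ _).trans ?_
  have h5 := Finset.card_union_le ((I ∪ I').image (fun v => v.idx))
    ((I ∪ I').image (fun v => v.ctx) ∪
      I.biUnion (fun v => (b v).elim ∅ (fun q => ({q.1, q.2} : Finset (Fin w)))))
  have h6 := Finset.card_union_le ((I ∪ I').image (fun v => v.ctx))
      (I.biUnion (fun v => (b v).elim ∅ (fun q => ({q.1, q.2} : Finset (Fin w)))))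
  omega

lemma OldI_zero (I I' : Finset (Row K p w)) (b : Row K p w → Lab w) (i : Fin w)
    (h : i.val = 0) : i ∈ OldI I I' b := by
  unfold OldI
  simp [h]

lemma OldI_idx (I I' : Finset (Row K p w)) (b : Row K p w → Lab w) (v : Row K p w)
    (h : v ∈ I ∨ v ∈ I') : v.idx ∈ OldI I I' b := by
  unfold OldI
  refine Finset.mem_union_right _ (Finset.mem_union_left _ ?_)
  exact Finset.mem_image_of_mem _ (Finset.mem_union.mpr h)

lemma OldI_ctx (I I' : Finset (Row K p w)) (b : Row K p w → Lab w) (v : Row K p w)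
    (h : v ∈ I ∨ v ∈ I') : v.ctx ∈ OldI I I' b := by
  unfold OldI
  refine Finset.mem_union_right _ (Finset.mem_union_right _ (Finset.mem_union_left _ ?_))
  exact Finset.mem_image_of_mem _ (Finset.mem_union.mpr h)

lemma OldI_lab (I I' : Finset (Row K p w)) (b : Row K p w → Lab w) (v : Row K p w)
    (h : v ∈ I) (α β : Fin w) (hb : b v = some (α, β)) :
    α ∈ OldI I I' b ∧ β ∈ OldI I I' b := by
  unfold OldI
  constructor
  · refine Finset.mem_union_right _ (Finset.mem_union_right _ (Finset.mem_union_right _ ?_))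
    rw [Finset.mem_biUnion]
    exact ⟨v, h, by rw [hb]; simp⟩
  · refine Finset.mem_union_right _ (Finset.mem_union_right _ (Finset.mem_union_right _ ?_))
    rw [Finset.mem_biUnion]
    exact ⟨v, h, by rw [hb]; simp⟩

/-- registration of the new labels -/
lemma exists_reg (reg : Reg w) (I' : Finset (Row K p w)) (T : Finset (Fin w))
    (g : Row K p w × Bool → Fin w) (hg1 : ∀ q ∈ I' ×ˢ (univ : Finset Bool), g q ∉ T)
    (hg2 : ∀ q ∈ I' ×ˢ (univ : Finset Bool), ∀ q' ∈ I' ×ˢ (univ : Finset Bool), g q = g q' → q = q')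
    (val : Row K p w × Bool → Rec w) :
    ∃ reg' : Reg w, (∀ v ∈ I', ∀ e l, reg' l (g (v, e)) = val (v, e)) ∧
      ∀ i ∈ T, ∀ l, reg' l i = reg l i := by
  classical
  refine ⟨fun l i => if h : ∃ q, q ∈ I' ×ˢ (univ : Finset Bool) ∧ g q = i then val h.choose
    else reg l i, ?_, ?_⟩
  · intro v hv e l
    have hm : (v, e) ∈ I' ×ˢ (univ : Finset Bool) := by simp [hv]
    have h : ∃ q, q ∈ I' ×ˢ (univ : Finset Bool) ∧ g q = g (v, e) := ⟨(v, e), hm, rfl⟩
    simp only [dif_pos h]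
    rw [hg2 _ h.choose_spec.1 _ hm h.choose_spec.2]
  · intro i hi l
    have h : ¬ ∃ q, q ∈ I' ×ˢ (univ : Finset Bool) ∧ g q = i := by
      rintro ⟨q, hq, he⟩
      exact hg1 q hq (he ▸ hi)
    simp only [dif_neg h]

/-- value registered for the labels of a new zero cell -/
def newRec (reg : Reg w) (q : Row K p w × Bool) : Rec w :=
  if q.2 = true then
    ⟨dmax p (q.1.lev.val - 1), q.1.idx,
      (reg q.1.lev.val q.1.idx).base + (q.1.dig.val - 1) * wt p q.1.lev.val⟩
  else ⟨(reg (q.1.lev.val + 1) q.1.ctx).dig - 1, (reg (q.1.lev.val + 1) q.1.ctx).ctx,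
      (reg (q.1.lev.val + 1) q.1.ctx).base⟩

/-- The promised cells are not much lower. -/
lemma rho_live (reg : Reg w) (I : Finset (Row K p w)) (b : Row K p w → Lab w) (d : ℕ)
    (h : InvR reg I b d) (v : Row K p w) (hv : Live I b reg v) : d ≤ rho reg v := by
  obtain ⟨hprom, h1, h2, h3⟩ := hv
  rcases hprom with ⟨hl, hi⟩ | ⟨u, hu, α, hb, hl, hd⟩ | ⟨u, hu, β, hb, hl, hd⟩
  · obtain ⟨t1, t2, t3⟩ := h.top v.idx hi
    rw [hl] at h1
    unfold rho
    rw [← h1, t1, hl]
    have := h.dle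
    omega
  · have hs := h.startP u hu α v.idx hb hd v.lev.val hl
    obtain ⟨⟨k1, k2, k3⟩, k4⟩ := h.zero u hu (by rw [hb]; simp)
    rw [hs] at h1
    simp only at h1
    unfold rho at k4 ⊢
    rw [hs]
    simp only
    rw [← h1]
    rw [hl] at k4 ⊢
    obtain ⟨e, he⟩ : ∃ e, u.dig.val = e + 1 := ⟨u.dig.val - 1, by omega⟩
    rw [he] at k4 ⊢
    have hw : wt p (v.lev.val + 1) = dmax p v.lev.val * wt p v.lev.val + 1 := rfl
    rw [add_mul, one_mul] at k4
    have e1 : e + 1 - 1 = e := by omega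
    rw [e1]
    omega
  · have huK : u.lev.val < K := by
      have := v.lev.isLt
      omega
    have hr := h.retP u hu v.idx β hb hd huK
    obtain ⟨⟨k1, k2, k3⟩, k4⟩ := h.zero u hu (by rw [hb]; simp)
    rcases k3 with ⟨hk, _⟩ | ⟨_, k5, k6⟩
    · omega
    rw [hl] at hr k5 k6
    rw [hr] at h1
    simp only at h1
    unfold rho at k4 ⊢
    rw [hr]
    simp only
    rw [hd] at k4
    rw [k6, h1] at k4
    omega

/-- Preservation of the invariant. -/
lemma inv_step (reg : Reg w) (I : Finset (Row K p w)) (b : Row K p w → Lab w) (d : ℕ)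
    (h : InvR reg I b d) (I' : Finset (Row K p w)) (b' : Row K p w → Lab w) (d' : ℕ)
    (hdd : d' + 1 ≤ d) (g : Row K p w × Bool → Fin w)
    (hg1 : ∀ q ∈ I' ×ˢ (univ : Finset Bool), g q ∉ OldI I I' b)
    (hg2 : ∀ q ∈ I' ×ˢ (univ : Finset Bool), ∀ q' ∈ I' ×ˢ (univ : Finset Bool), g q = g q' → q = q')
    (h1 : ∀ v ∈ I', v ∈ I → b' v = b v)
    (h2 : ∀ v ∈ I', v ∉ I → (Live I b reg v → b' v = some (g (v, false), g (v, true))) ∧
      (¬ Live I b reg v → b' v = none)) :
    ∃ reg', InvR reg' I' b' d' := by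
  classical
  obtain ⟨reg', hnew, hold⟩ := exists_reg reg I' (OldI I I' b) g hg1 hg2 (newRec reg)
  have hidx : ∀ v ∈ I', ∀ l, reg' l v.idx = reg l v.idx := fun v hv l =>
    hold _ (OldI_idx I I' b v (Or.inr hv)) l
  have hctx : ∀ v ∈ I', ∀ l, reg' l v.ctx = reg l v.ctx := fun v hv l =>
    hold _ (OldI_ctx I I' b v (Or.inr hv)) l
  have hPar : ∀ v ∈ I', ∀ l base, Par K p reg' l v.ctx base ↔ Par K p reg l v.ctx base := by
    intro v hv l base
    unfold Par
    rw [hctx v hv]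
  have hOK : ∀ v ∈ I', OKr reg' v ↔ OKr reg v := by
    intro v hv
    unfold OKr
    rw [hidx v hv, hPar v hv]
  have hrho : ∀ v ∈ I', rho reg' v = rho reg v := by
    intro v hv
    unfold rho
    rw [hidx v hv]
  -- labels of new cells are fresh
  have hfresh : ∀ v ∈ I', ∀ e, ∀ z ∈ I', g (v, e) ≠ z.idx := by
    intro v hv e z hz he
    exact hg1 (v, e) (by simp [hv]) (he ▸ OldI_idx I I' b z (Or.inr hz))
  have hcase : ∀ v ∈ I', ∀ α β, b' v = some (α, β) → (v ∈ I ∧ b v = some (α, β)) ∨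
      (v ∉ I ∧ Live I b reg v ∧ α = g (v, false) ∧ β = g (v, true)) := by
    intro v hv α β hb
    by_cases hvI : v ∈ I
    · left
      rw [h1 v hv hvI] at hb
      exact ⟨hvI, hb⟩
    · right
      by_cases hL : Live I b reg v
      · have := (h2 v hv hvI).1 hL
        rw [this] at hb
        simp only [Option.some.injEq, Prod.mk.injEq] at hb
        exact ⟨hvI, hL, hb.1.symm, hb.2.symm⟩
      · have := (h2 v hv hvI).2 hL
        rw [this] at hb
        exact absurd hb (by simp)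
  refine ⟨reg', ?_, ?_, ?_, ?_, ?_, ?_⟩
  · have := h.dle
    omega
  · intro i hi
    rw [hold i (OldI_zero I I' b i hi)]
    exact h.top i hi
  · intro v hv hne
    obtain ⟨⟨α, β⟩, hb⟩ := Option.ne_none_iff_exists'.mp hne
    rw [hOK v hv, hrho v hv]
    rcases hcase v hv α β hb with ⟨hvI, hb'⟩ | ⟨hvI, hL, _⟩
    · obtain ⟨k1, k2⟩ := h.zero v hvI (by rw [hb']; simp)
      exact ⟨k1, by omega⟩
    · have := rho_live reg I b d h v hL
      exact ⟨hL.2, by omega⟩
  · intro v hv α β hb hd l hl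
    rw [hidx v hv]
    rcases hcase v hv α β hb with ⟨hvI, hb'⟩ | ⟨hvI, hL, hα, hβ⟩
    · rw [hold β (OldI_lab I I' b v hvI α β hb').2]
      exact h.startP v hvI α β hb' hd l hl
    · rw [hβ, hnew v hv true l]
      unfold newRec
      simp only [if_true]
      have e : v.lev.val - 1 = l := by omega
      rw [e]
  · intro v hv α β hb hd hl
    rw [hctx v hv]
    rcases hcase v hv α β hb with ⟨hvI, hb'⟩ | ⟨hvI, hL, hα, hβ⟩
    · rw [hold α (OldI_lab I I' b v hvI α β hb').1]
      exact h.retP v hvI α β hb' hd hl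
    · rw [hα, hnew v hv false]
      unfold newRec
      simp
  · intro v hv hb hL'
    obtain ⟨hprom, hok⟩ := hL'
    rw [hOK v hv] at hok
    have hprom' : Prom I b v.lev.val v.idx := by
      rcases hprom with hp | ⟨u, hu, α, hb', hl, hd⟩ | ⟨u, hu, β, hb', hl, hd⟩
      · exact Or.inl hp
      · rcases hcase u hu α v.idx hb' with ⟨huI, hb''⟩ | ⟨_, _, _, hβ⟩
        · exact Or.inr (Or.inl ⟨u, huI, α, hb'', hl, hd⟩)
        · exact absurd hβ.symm (hfresh u hu true v hv)
      · rcases hcase u hu v.idx β hb' with ⟨huI, hb''⟩ | ⟨_, _, hα, _⟩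
        · exact Or.inr (Or.inr ⟨u, huI, β, hb'', hl, hd⟩)
        · exact absurd hα.symm (hfresh u hu false v hv)
    by_cases hvI : v ∈ I
    · rw [h1 v hv hvI] at hb
      exact h.one v hvI hb ⟨hprom', hok⟩
    · have := (h2 v hv hvI).1 ⟨hprom', hok⟩
      rw [this] at hb
      exact absurd hb (by simp)

/-- The strategy of the adversary. -/
theorem adversary (W : ℕ) (hw : 8 * W + 1 ≤ w) :
    Nonempty (Strategy (Viol (K := K) (p := p) (w := w)) W (dmax p K * wt p K)) := by
  classical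
  have hw0 : 0 < w := by omega
  have : Nonempty (Fin w) := ⟨⟨0, hw0⟩⟩
  refine ⟨⟨fun I b d => ∃ reg, InvR reg I b d, ?_, ?_, ?_⟩⟩
  · intro b
    refine ⟨fun _ _ => ⟨dmax p K, ⟨0, hw0⟩, 0⟩, le_refl _, fun i _ => ⟨rfl, rfl, rfl⟩, ?_, ?_, ?_, ?_⟩
    · intro v hv; exact absurd hv (Finset.notMem_empty v)
    · intro v hv; exact absurd hv (Finset.notMem_empty v)
    · intro v hv; exact absurd hv (Finset.notMem_empty v)
    · intro v hv; exact absurd hv (Finset.notMem_empty v)
  · rintro I b d ⟨reg, h⟩ hI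
    have hg : ∀ I' : Finset (Row K p w), ∃ g : Row K p w × Bool → Fin w, I'.card ≤ W →
        (∀ q ∈ I' ×ˢ (univ : Finset Bool), g q ∉ OldI I I' b) ∧
        (∀ q ∈ I' ×ˢ (univ : Finset Bool), ∀ q' ∈ I' ×ˢ (univ : Finset Bool),
          g q = g q' → q = q') := by
      intro I'
      by_cases hI' : I'.card ≤ W
      · obtain ⟨g, hg1, hg2⟩ := exists_fresh (I' ×ˢ (univ : Finset Bool)) (OldI I I' b) (by
          have h1 := OldI_card W I I' b hI hI'
          rw [Finset.card_product, Finset.card_univ, Fintype.card_bool, Fintype.card_fin]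
          omega)
        exact ⟨g, fun _ => ⟨hg1, hg2⟩⟩
      · exact ⟨fun _ => ⟨0, hw0⟩, fun h => absurd h hI'⟩
    choose g hg using hg
    refine ⟨fun I' v => if Live I b reg v then some (g I' (v, false), g I' (v, true)) else none, ?_⟩
    intro I' b' d' hI' hdd h1 h2
    obtain ⟨hg1, hg2⟩ := hg I' hI'
    refine inv_step reg I b d h I' b' d' hdd (g I') hg1 hg2 h1 ?_
    intro v hv hvI
    constructor
    · intro hL
      rw [h2 v hv hvI]
      simp only [if_pos hL]
    · intro hL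
      rw [h2 v hv hvI]
      simp only [if_neg hL]
  · rintro I b d ⟨reg, h⟩ u hu v hv z hz
    exact inv_fin reg I b d h u v z hu hv hz

/-- The number of steps is exponential in the number of levels. -/
lemma wt_ge (p : ℕ) : ∀ l, p ^ l ≤ wt p (l + 1)
  | 0 => by simp [wt]
  | l + 1 => by
    have ih := wt_ge p l
    have e : wt p (l + 1 + 1) = dmax p (l + 1) * wt p (l + 1) + 1 := rfl
    rw [e]
    unfold dmax
    rw [if_neg (by omega), pow_succ']
    exact (Nat.mul_le_mul_left _ ih).trans (Nat.le_succ _)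

lemma wt_lower (hK : 1 ≤ K) : p ^ K ≤ dmax p K * wt p K := by
  obtain ⟨k, rfl⟩ : ∃ k, K = k + 1 := ⟨K - 1, by omega⟩
  unfold dmax
  rw [if_neg (by omega), pow_succ']
  exact Nat.mul_le_mul_left _ (wt_ge p k)

end Adv

end Pool.Agent.Results.MP_2af48a_lc.Odometer
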