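import Pool.Agent.Lib_MP_2af48a_lc.SCProg

/-!
# Programs with few registers: layered circuits

A layered circuit without NOT gates is run with two copies of the registers of a layer, and whenever
it reads a variable the value of this variable is computed by a program.
-/

open Finset

namespace Pool.Agent.Results.MP_2af48a_lc.FewNegations

namespace RP

/-- One layer: `K` functions are computed and written to the registers from `v` on. -/
lemma layer_prog {M n w L K : ℕ} (F : Fin K → (Fin M → Bool) → Bool)
    (hF : ∀ k, PC M w L 0 (F k)) (loc' : Fin M → Loc n) (v W0 : ℕ) (hv : v + K ≤ W0)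
    (hloc : ∀ i, (loc' i).Sat (fun r => r < W0 ∧ (r < v ∨ v + K ≤ r))) :
    ∃ P : List (Instr n), P.length ≤ K * (L + 1) ∧ nots P = 0 ∧
      OK (fun r => (v ≤ r ∧ r < v + K) ∨ W0 ≤ r) (W0 + max 1 w) P ∧
      ∀ x s (k : Fin K), exec x P s (v + k.val) = F k (fun i => (loc' i).val x s) := by
  have key : ∀ k ≤ K, ∃ P : List (Instr n), P.length ≤ k * (L + 1) ∧ nots P = 0 ∧
      OK (fun r => (v ≤ r ∧ r < v + K) ∨ W0 ≤ r) (W0 + max 1 w) P ∧
      ∀ x s (k' : Fin K), k'.val < k → exec x P s (v + k'.val) =
        F k' (fun i => (loc' i).val x s) := by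
    intro k
    induction k with
    | zero =>
      intro _
      refine ⟨[], Nat.zero_le _, rfl, fun I hI => absurd hI (List.not_mem_nil), ?_⟩
      intro x s k' hk'
      exact absurd hk' (Nat.not_lt_zero _)
    | succ k ih =>
      intro hk
      obtain ⟨P, p1, p2, p3, p4⟩ := ih (by omega)
      obtain ⟨Q, q1, q2, q3, q4⟩ := hF ⟨k, by omega⟩ n loc' W0
        (fun i => (hloc i).mono (fun r hr => hr.1))
      refine ⟨P ++ Q ++ [⟨v + k, .or (.reg W0) (.reg W0)⟩], ?_, ?_, ?_, fun x s k' hk' => ?_⟩
      · rw [List.length_append, List.length_append, List.length_singleton, Nat.succ_mul]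
        omega
      · rw [nots_append, nots_append]
        have : nots [(⟨v + k, .or (.reg W0) (.reg W0)⟩ : Instr n)] = 0 := rfl
        omega
      · apply OK.append
        · apply OK.append p3
          exact q3.mono (fun _ _ h => Or.inr h) (by omega)
        · intro I hI
          rw [List.mem_singleton] at hI
          subst hI
          exact ⟨Or.inl ⟨by simp only; omega, by simp only; omega⟩, by simp only; omega,
            show W0 < _ by omega, show W0 < _ by omega⟩
      · rw [exec_append, exec_append, exec_single]
        unfold act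
        by_cases h : k'.val = k
        · subst h
          simp only [if_true]
          change (exec x Q (exec x P s) W0 || exec x Q (exec x P s) W0) = _
          rw [Bool.or_self, q4]
          congr 1
          funext i
          apply Loc.val_congr (hloc i)
          intro r hr
          exact p3.exec_eq x s r (by omega)
        · have h2 : v + k'.val ≠ v + k := by omega
          have h3 := k'.isLt
          rw [if_neg h2, q3.exec_eq x _ _ (by omega)]
          exact p4 x s k' (by omega)
  obtain ⟨P, p1, p2, p3, p4⟩ := key K le_rfl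
  exact ⟨P, p1, p2, p3, fun x s k => p4 x s k k.isLt⟩

/-- the states of a loop -/
def lst {m K : ℕ} (F : ℕ → Fin K → (Fin (m + K) → Bool) → Bool) (y : Fin m → Bool) :
    ℕ → Fin K → Bool
  | 0 => fun _ => false
  | j + 1 => fun k => F j k (Fin.append y (lst F y j))

lemma loop_prog {m K w L ℓ n : ℕ} (hL : 1 ≤ L) (F : ℕ → Fin K → (Fin (m + K) → Bool) → Bool)
    (hF : ∀ j < ℓ, ∀ k, PC (m + K) w L 0 (F j k)) (loc : Fin m → Loc n) (b W0 : ℕ)
    (hb : ∀ i, (loc i).Sat (fun r => r < b)) : ∀ j ≤ ℓ, ∀ u v, b ≤ u → b ≤ v → u + K ≤ W0 →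
    v + K ≤ W0 → (u + K ≤ v ∨ v + K ≤ u) →
    ∃ P : List (Instr n), P.length ≤ (j + 1) * (K * (L + 1)) ∧ nots P = 0 ∧
      OK (fun r => b ≤ r) (W0 + max 1 w) P ∧
      ∀ x s (k : Fin K), exec x P s (u + k.val) = lst F (fun i => (loc i).val x s) j k := by
  intro j
  induction j with
  | zero =>
    intro _ u v hu hv hu2 hv2 huv
    obtain ⟨P, p1, p2, p3, p4⟩ := layer_prog (n := n) (K := K) (fun _ : Fin K => fun _ => false)
      (fun k => PC.cst m false) loc u W0 hu2 (fun i => (hb i).mono (fun r hr => by omega))
    refine ⟨P, ?_, p2, p3.mono (fun r _ h => by omega) (by omega), fun x s k => p4 x s k⟩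
    rw [Nat.zero_add, Nat.one_mul]
    exact le_trans p1 (Nat.mul_le_mul_left _ (by omega))
  | succ j ih =>
    intro hj u v hu hv hu2 hv2 huv
    obtain ⟨P, p1, p2, p3, p4⟩ := ih (by omega) v u hv hu hv2 hu2 huv.symm
    obtain ⟨Q, q1, q2, q3, q4⟩ := layer_prog (n := n) (F j) (hF j (by omega))
      (Fin.append loc (fun k => .reg (v + k.val))) u W0 hu2 (by
        intro i
        refine Fin.addCases (fun i => ?_) (fun k => ?_) i
        · rw [Fin.append_left]
          exact (hb i).mono (fun r hr => by omega)
        · rw [Fin.append_right]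
          have := k.isLt
          exact ⟨by omega, by omega⟩)
    refine ⟨P ++ Q, ?_, ?_, ?_, fun x s k => ?_⟩
    · rw [List.length_append, Nat.succ_mul]
      omega
    · rw [nots_append]
      omega
    · apply OK.append p3
      exact q3.mono (fun r _ h => by omega) le_rfl
    · rw [exec_append, q4]
      change _ = F j k _
      congr 1
      funext i
      refine Fin.addCases (fun i => ?_) (fun k' => ?_) i
      · rw [Fin.append_left, Fin.append_left]
        apply Loc.val_congr (hb i)
        intro r hr
        exact p3.exec_eq x s r (by omega)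
      · rw [Fin.append_right, Fin.append_right]
        exact p4 x s k'

/-- loops -/
theorem PC.loop {m K w L ℓ : ℕ} (hL : 1 ≤ L) (F : ℕ → Fin K → (Fin (m + K) → Bool) → Bool)
    (hF : ∀ j < ℓ, ∀ k, PC (m + K) w L 0 (F j k)) (o : Fin K) :
    PC m (1 + 2 * K + max 1 w) ((ℓ + 1) * (K * (L + 1)) + 1) 0 (fun y => lst F y ℓ o) := by
  intro n loc b hb
  obtain ⟨P, p1, p2, p3, p4⟩ := loop_prog hL F hF loc b (b + 1 + 2 * K) hb ℓ le_rfl (b + 1)
    (b + 1 + K) (by omega) (by omega) (by omega) (by omega) (by omega)
  refine ⟨P ++ [⟨b, .or (.reg (b + 1 + o.val)) (.reg (b + 1 + o.val))⟩], ?_, ?_, ?_,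
    fun x s => ?_⟩
  · rw [List.length_append, List.length_singleton]
    omega
  · rw [nots_append]
    have : nots [(⟨b, .or (.reg (b + 1 + o.val)) (.reg (b + 1 + o.val))⟩ : Instr n)] = 0 := rfl
    omega
  · have ho := o.isLt
    apply OK.append
    · exact p3.mono (fun _ _ h => h) (by omega)
    · intro I hI
      rw [List.mem_singleton] at hI
      subst hI
      exact ⟨le_rfl, by simp only; omega, show b + 1 + o.val < _ by omega,
        show b + 1 + o.val < _ by omega⟩
  · rw [exec_append, exec_single]
    unfold act
    simp only [if_true]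
    change (exec x P s (b + 1 + o.val) || exec x P s (b + 1 + o.val)) = _
    rw [Bool.or_self, p4]

/-! ### Layered circuits without NOT gates -/

/-- the bit number `u` of a state -/
def bit {m K : ℕ} (z : Fin (m + K) → Bool) (u : ℕ) : Bool :=
  if h : u < K then z (Fin.natAdd m ⟨u, h⟩) else false

lemma bit_lt {m K : ℕ} (z : Fin (m + K) → Bool) (u : ℕ) (h : u < K) :
    bit z u = z (Fin.natAdd m ⟨u, h⟩) := dif_pos h

lemma wire_PC {m m' w L K k : ℕ} (hw : 1 ≤ w) (hL : 1 ≤ L) (g : Fin m' → (Fin m → Bool) → Bool)
    (hg : ∀ i, PC m w L 0 (g i)) (W : Wire m' k) :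
    PC (m + K) w L 0 (fun z => W.val (fun i => g i (fun a => z (Fin.castAdd K a)))
      (fun u => bit z u.val)) := by
  cases W with
  | const c => exact (PC.cst _ c).mono hw hL le_rfl
  | var i =>
    exact ((hg i).subst (fun a => (Sum.inr (Fin.castAdd K a) : Bool ⊕ Fin (m + K)))).congr
      (fun _ => rfl)
  | gate u =>
    by_cases h : u.val < K
    · refine ((PC.var (Fin.natAdd m ⟨u.val, h⟩)).mono hw hL le_rfl).congr (fun z => ?_)
      change _ = bit z u.val
      unfold bit
      rw [dif_pos h]
    · refine ((PC.cst _ false).mono hw hL le_rfl).congr (fun z => ?_)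
      change _ = bit z u.val
      unfold bit
      rw [dif_neg h]

lemma gate_PC {m m' w L K k : ℕ} (hw : 1 ≤ w) (hL : 1 ≤ L) (g : Fin m' → (Fin m → Bool) → Bool)
    (hg : ∀ i, PC m w L 0 (g i)) (G : Gate m' k) (hG : G.isNot = false) :
    PC (m + K) (w + 1) (2 * L + 1) 0
      (fun z => G.val (fun i => g i (fun a => z (Fin.castAdd K a))) (fun u => bit z u.val)) := by
  cases G with
  | and a b =>
    exact (((wire_PC hw hL g hg a).and (wire_PC hw hL g hg b)).mono (by omega) (by omega)
      le_rfl).congr (fun _ => rfl)
  | or a b =>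
    exact (((wire_PC hw hL g hg a).or (wire_PC hw hL g hg b)).mono (by omega) (by omega)
      le_rfl).congr (fun _ => rfl)
  | not a => exact absurd hG (by simp [Gate.isNot])

/-- Layered circuits without NOT gates whose variables are computed by programs. -/
theorem PC.layered {m m' w L K : ℕ} (hw : 1 ≤ w) (hL : 1 ≤ L) (D : Layered m')
    (hD : ∀ j < D.layers, ∀ g, (D.gate j g).isNot = false)
    (hK : ∀ j ≤ D.layers, D.width j ≤ K) (g : Fin m' → (Fin m → Bool) → Bool)
    (hg : ∀ i, PC m w L 0 (g i)) :
    PC m (2 * K + w + 2) ((D.layers + 1) * (K * (2 * L + 2)) + 1) 0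
      (fun y => D.eval (fun i => g i y)) := by
  have h := PC.loop (m := m) (K := K) (w := w + 1) (L := 2 * L + 1) (ℓ := D.layers) (by omega)
    (fun j k z => if h : k.val < D.width (j + 1) then
      (D.gate j ⟨k.val, h⟩).val (fun i => g i (fun a => z (Fin.castAdd K a)))
        (fun u => bit z u.val) else false) (by
      intro j hj k
      by_cases hk : k.val < D.width (j + 1)
      · refine (gate_PC hw hL g hg (D.gate j ⟨k.val, hk⟩) (hD j hj _)).congr (fun z => ?_)
        rw [dif_pos hk]
      · refine ((PC.cst _ false).mono (by omega) (by omega) le_rfl).congr (fun z => ?_)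
        rw [dif_neg hk]) ⟨D.out.val, lt_of_lt_of_le D.out.isLt (hK _ le_rfl)⟩
  refine (h.mono (by omega) le_rfl le_rfl).congr (fun y => ?_)
  have key : ∀ j ≤ D.layers, ∀ k : Fin K, lst (fun j k z => if h : k.val < D.width (j + 1) then
      (D.gate j ⟨k.val, h⟩).val (fun i => g i (fun a => z (Fin.castAdd K a)))
        (fun u => bit z u.val) else false) y j k =
      if h : k.val < D.width j then D.val (fun i => g i y) j ⟨k.val, h⟩ else false := by
    intro j
    induction j with
    | zero =>
      intro _ k
      rw [dif_neg (by rw [D.width_zero]; omega)]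
      rfl
    | succ j ih =>
      intro hj k
      unfold lst
      by_cases hk : k.val < D.width (j + 1)
      · rw [dif_pos hk, dif_pos hk]
        change _ = (D.gate j ⟨k.val, hk⟩).val (fun i => g i y) (D.val (fun i => g i y) j)
        congr 1
        · funext i
          congr 1
          funext a
          rw [Fin.append_left]
        · funext u
          rw [bit_lt _ _ (lt_of_lt_of_le u.isLt (hK j (by omega))), Fin.append_right,
            ih (by omega), dif_pos (show u.val < D.width j from u.isLt)]
      · rw [dif_neg hk, dif_neg hk]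
  rw [key _ le_rfl, dif_pos D.out.isLt]
  rfl

/-! ### Circuits of small depth -/

/-- A circuit of depth `d` without NOT gates is evaluated with `d + 1` registers. -/
theorem PC.circuit {m : ℕ} (C : Circuit m) (hC : ∀ g, (C.gate g).isNot = false) :
    PC m (C.depth + 1) (2 ^ (C.depth + 1) - 1) 0 (fun x => C.eval x) := by
  have key : ∀ g (hg : g < C.size), PC m (C.gateDepth g hg + 1)
      (2 ^ (C.gateDepth g hg + 1) - 1) 0 (fun x => C.gateVal x g hg) := by
    intro g
    induction g using Nat.strong_induction_on with
    | _ g ih =>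
      intro hg
      have hw : ∀ W : Wire m g, PC m (W.depth (fun g' => C.gateDepth g'.val
          (lt_trans g'.isLt hg)) + 1) (2 ^ (W.depth (fun g' => C.gateDepth g'.val
          (lt_trans g'.isLt hg)) + 1) - 1) 0
          (fun x => W.val x (fun g' => C.gateVal x g'.val (lt_trans g'.isLt hg))) := by
        intro W
        cases W with
        | const c => exact PC.cst m c
        | var i => exact PC.var i
        | gate u => exact ih u.val u.isLt _
      have h1 := hC ⟨g, hg⟩
      have e1 : ∀ x, C.gateVal x g hg = (C.gate ⟨g, hg⟩).val x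
          (fun g' => C.gateVal x g'.val (lt_trans g'.isLt hg)) := by
        intro x
        rw [Circuit.gateVal]
      have e2 : C.gateDepth g hg = (C.gate ⟨g, hg⟩).depth
          (fun g' => C.gateDepth g'.val (lt_trans g'.isLt hg)) := by
        rw [Circuit.gateDepth]
      rw [e2]
      simp only [e1]
      generalize C.gate ⟨g, hg⟩ = G at h1
      have hpow : ∀ d d' : ℕ, d ≤ d' → 2 ^ (d + 1) ≤ 2 ^ (d' + 1) :=
        fun d d' h => Nat.pow_le_pow_right (by norm_num) (by omega)
      cases G with
      | and a b =>
        refine ((hw a).and (hw b)).mono ?_ ?_ le_rfl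
        · change _ ≤ max (a.depth _) (b.depth _) + 1 + 1
          omega
        · change _ ≤ 2 ^ (max (a.depth _) (b.depth _) + 1 + 1) - 1
          have g1 := hpow _ _ (le_max_left (a.depth (fun g' => C.gateDepth g'.val
            (lt_trans g'.isLt hg))) (b.depth (fun g' => C.gateDepth g'.val
            (lt_trans g'.isLt hg))))
          have g2 := hpow _ _ (le_max_right (a.depth (fun g' => C.gateDepth g'.val
            (lt_trans g'.isLt hg))) (b.depth (fun g' => C.gateDepth g'.val
            (lt_trans g'.isLt hg))))
          have g3 := Nat.one_le_two_pow (n := a.depth (fun g' => C.gateDepth g'.val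
            (lt_trans g'.isLt hg)) + 1)
          have g4 := Nat.one_le_two_pow (n := b.depth (fun g' => C.gateDepth g'.val
            (lt_trans g'.isLt hg)) + 1)
          rw [pow_succ 2 (max (a.depth _) (b.depth _) + 1)]
          omega
      | or a b =>
        refine ((hw a).or (hw b)).mono ?_ ?_ le_rfl
        · change _ ≤ max (a.depth _) (b.depth _) + 1 + 1
          omega
        · change _ ≤ 2 ^ (max (a.depth _) (b.depth _) + 1 + 1) - 1
          have g1 := hpow _ _ (le_max_left (a.depth (fun g' => C.gateDepth g'.val
            (lt_trans g'.isLt hg))) (b.depth (fun g' => C.gateDepth g'.val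
            (lt_trans g'.isLt hg))))
          have g2 := hpow _ _ (le_max_right (a.depth (fun g' => C.gateDepth g'.val
            (lt_trans g'.isLt hg))) (b.depth (fun g' => C.gateDepth g'.val
            (lt_trans g'.isLt hg))))
          have g3 := Nat.one_le_two_pow (n := a.depth (fun g' => C.gateDepth g'.val
            (lt_trans g'.isLt hg)) + 1)
          have g4 := Nat.one_le_two_pow (n := b.depth (fun g' => C.gateDepth g'.val
            (lt_trans g'.isLt hg)) + 1)
          rw [pow_succ 2 (max (a.depth _) (b.depth _) + 1)]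
          omega
      | not a => exact absurd h1 (by simp [Gate.isNot])
  exact key C.out.val C.out.isLt

end RP

end Pool.Agent.Results.MP_2af48a_lc.FewNegations
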