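import Pool.Agent.Lib_MP_2af48a_lc.FewNegDefs

/-!
# Programs with few registers

`PC m w L t f`: the function `f` of `m` bits, which are found at arbitrary places (constants,
variables of an arbitrary input, registers below `b`), is computed by a program of length at most
`L` with at most `t` NOT instructions which writes the `w` registers from `b` on; the result is left
in the register `b`.
-/

open Finset

namespace Pool.Agent.Results.MP_2af48a_lc.FewNegations

namespace RP

/-- where a bit is found: a constant, a variable or a register -/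
inductive Loc (n : ℕ)
  | cst (b : Bool)
  | var (i : Fin n)
  | reg (r : ℕ)

/-- value -/
def Loc.val {n : ℕ} (x : Fin n → Bool) (s : ℕ → Bool) : Loc n → Bool
  | .cst b => b
  | .var i => x i
  | .reg r => s r

/-- every register which is read satisfies `A` -/
def Loc.Sat {n : ℕ} (A : ℕ → Prop) : Loc n → Prop
  | .cst _ => True
  | .var _ => True
  | .reg r => A r

lemma Loc.Sat.mono {n : ℕ} {A B : ℕ → Prop} (h : ∀ r, A r → B r) {l : Loc n} (hl : l.Sat A) :
    l.Sat B := by
  cases l with
  | cst b => trivial
  | var i => trivial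
  | reg r => exact h r hl

lemma Loc.val_congr {n : ℕ} {A : ℕ → Prop} {l : Loc n} (hl : l.Sat A) (x : Fin n → Bool)
    (s s' : ℕ → Bool) (h : ∀ r, A r → s r = s' r) : l.val x s = l.val x s' := by
  cases l with
  | cst b => rfl
  | var i => rfl
  | reg r => exact h r hl

/-- operations -/
inductive Op (n : ℕ)
  | and (a b : Loc n)
  | or (a b : Loc n)
  | not (a : Loc n)

/-- value -/
def Op.val {n : ℕ} (x : Fin n → Bool) (s : ℕ → Bool) : Op n → Bool
  | .and a b => a.val x s && b.val x s
  | .or a b => a.val x s || b.val x s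
  | .not a => !(a.val x s)

/-- every register which is read satisfies `A` -/
def Op.Sat {n : ℕ} (A : ℕ → Prop) : Op n → Prop
  | .and a b => a.Sat A ∧ b.Sat A
  | .or a b => a.Sat A ∧ b.Sat A
  | .not a => a.Sat A

/-- Is it a NOT operation? -/
def Op.isNot {n : ℕ} : Op n → Bool
  | .and _ _ => false
  | .or _ _ => false
  | .not _ => true

lemma Op.Sat.mono {n : ℕ} {A B : ℕ → Prop} (h : ∀ r, A r → B r) {o : Op n} (ho : o.Sat A) :
    o.Sat B := by
  cases o with
  | and a b => exact ⟨ho.1.mono h, ho.2.mono h⟩
  | or a b => exact ⟨ho.1.mono h, ho.2.mono h⟩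
  | not a => exact Loc.Sat.mono h ho

/-- instructions -/
structure Instr (n : ℕ) where
  dest : ℕ
  op : Op n

/-- effect of an instruction -/
def act {n : ℕ} (x : Fin n → Bool) (s : ℕ → Bool) (I : Instr n) : ℕ → Bool :=
  fun r => if r = I.dest then I.op.val x s else s r

/-- effect of a program -/
def exec {n : ℕ} (x : Fin n → Bool) (P : List (Instr n)) (s : ℕ → Bool) : ℕ → Bool :=
  P.foldl (act x) s

lemma exec_append {n : ℕ} (x : Fin n → Bool) (P Q : List (Instr n)) (s : ℕ → Bool) :
    exec x (P ++ Q) s = exec x Q (exec x P s) := by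
  unfold exec
  rw [List.foldl_append]

lemma exec_single {n : ℕ} (x : Fin n → Bool) (I : Instr n) (s : ℕ → Bool) :
    exec x [I] s = act x s I := rfl

/-- the number of NOT instructions -/
def nots {n : ℕ} (P : List (Instr n)) : ℕ := P.countP (fun I => I.op.isNot)

lemma nots_append {n : ℕ} (P Q : List (Instr n)) : nots (P ++ Q) = nots P + nots Q :=
  List.countP_append

/-- `P` writes only registers which satisfy `A` and are smaller than `B`, and reads only registers
smaller than `B`. -/
def OK {n : ℕ} (A : ℕ → Prop) (B : ℕ) (P : List (Instr n)) : Prop :=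
  ∀ I ∈ P, A I.dest ∧ I.dest < B ∧ I.op.Sat (fun r => r < B)

lemma OK.append {n : ℕ} {A : ℕ → Prop} {B : ℕ} {P Q : List (Instr n)} (hP : OK A B P)
    (hQ : OK A B Q) : OK A B (P ++ Q) := by
  intro I hI
  rcases List.mem_append.mp hI with h | h
  · exact hP I h
  · exact hQ I h

lemma OK.mono {n : ℕ} {A A' : ℕ → Prop} {B B' : ℕ} {P : List (Instr n)} (hP : OK A B P)
    (h : ∀ r, r < B → A r → A' r) (hB : B ≤ B') : OK A' B' P := by
  intro I hI
  obtain ⟨h1, h2, h3⟩ := hP I hI
  exact ⟨h _ h2 h1, lt_of_lt_of_le h2 hB, h3.mono (fun r hr => lt_of_lt_of_le hr hB)⟩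

lemma OK.exec_eq {n : ℕ} {A : ℕ → Prop} {B : ℕ} {P : List (Instr n)} (hP : OK A B P)
    (x : Fin n → Bool) (s : ℕ → Bool) (r : ℕ) (hr : ¬ A r) : exec x P s r = s r := by
  induction P generalizing s with
  | nil => rfl
  | cons I P ih =>
    have h1 := hP I (List.mem_cons_self)
    have h2 : OK A B P := fun J hJ => hP J (List.mem_cons_of_mem _ hJ)
    change exec x P (act x s I) r = s r
    rw [ih h2]
    unfold act
    rw [if_neg]
    intro h
    subst h
    exact hr h1.1

/-- See the head of the file. -/
def PC (m w L t : ℕ) (f : (Fin m → Bool) → Bool) : Prop :=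
  ∀ (n : ℕ) (loc : Fin m → Loc n) (b : ℕ), (∀ i, (loc i).Sat (fun r => r < b)) →
    ∃ P : List (Instr n), P.length ≤ L ∧ nots P ≤ t ∧ OK (fun r => b ≤ r) (b + w) P ∧
      ∀ x s, exec x P s b = f (fun i => (loc i).val x s)

lemma PC.mono {m w L t w' L' t' : ℕ} {f : (Fin m → Bool) → Bool} (h : PC m w L t f)
    (hw : w ≤ w') (hL : L ≤ L') (ht : t ≤ t') : PC m w' L' t' f := by
  intro n loc b hb
  obtain ⟨P, h1, h2, h3, h4⟩ := h n loc b hb
  exact ⟨P, le_trans h1 hL, le_trans h2 ht, h3.mono (fun _ _ h => h) (by omega), h4⟩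

lemma PC.congr {m w L t : ℕ} {f g : (Fin m → Bool) → Bool} (h : PC m w L t f)
    (hfg : ∀ x, f x = g x) : PC m w L t g := by
  intro n loc b hb
  obtain ⟨P, h1, h2, h3, h4⟩ := h n loc b hb
  exact ⟨P, h1, h2, h3, fun x s => (h4 x s).trans (hfg _)⟩

lemma PC.loc1 {m : ℕ} (f : (Fin m → Bool) → Bool)
    (h : ∀ (n : ℕ) (loc : Fin m → Loc n) (b : ℕ), (∀ i, (loc i).Sat (fun r => r < b)) →
      ∃ l : Loc n, l.Sat (fun r => r < b) ∧ ∀ x s, l.val x s = f (fun i => (loc i).val x s)) :
    PC m 1 1 0 f := by
  intro n loc b hb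
  obtain ⟨l, h1, h2⟩ := h n loc b hb
  have h3 : l.Sat (fun r => r < b + 1) := h1.mono (fun r hr => by omega)
  refine ⟨[⟨b, .or l l⟩], le_rfl, le_rfl, ?_, fun x s => ?_⟩
  · intro I hI
    rw [List.mem_singleton] at hI
    subst hI
    exact ⟨le_rfl, by simp, h3, h3⟩
  · rw [exec_single]
    unfold act
    simp only [if_true]
    change (l.val x s || l.val x s) = _
    rw [Bool.or_self, h2]

/-- a variable -/
lemma PC.var {m : ℕ} (i : Fin m) : PC m 1 1 0 (fun y => y i) :=
  PC.loc1 _ (fun _ loc _ hb => ⟨loc i, hb i, fun _ _ => rfl⟩)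

/-- a constant -/
lemma PC.cst (m : ℕ) (c : Bool) : PC m 1 1 0 (fun _ => c) :=
  PC.loc1 _ (fun _ _ _ _ => ⟨.cst c, trivial, fun _ _ => rfl⟩)

/-- substitution of constants and variables -/
lemma PC.subst {m m' w L t : ℕ} {f : (Fin m → Bool) → Bool} (h : PC m w L t f)
    (o : Fin m → Bool ⊕ Fin m') :
    PC m' w L t (fun y => f (fun i => Sum.elim (fun b => b) y (o i))) := by
  intro n loc b hb
  obtain ⟨P, h1, h2, h3, h4⟩ := h n (fun i => Sum.elim (fun c => Loc.cst c) loc (o i)) b (by
    intro i
    cases o i with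
    | inl c => trivial
    | inr j => exact hb j)
  refine ⟨P, h1, h2, h3, fun x s => (h4 x s).trans ?_⟩
  congr 1
  funext i
  cases o i <;> rfl

/-- a combination of two functions -/
lemma PC.bin {m w L t w' L' t' : ℕ} {f g : (Fin m → Bool) → Bool} (hf : PC m w L t f)
    (hg : PC m w' L' t' g) (isAnd : Bool) :
    PC m (max w (1 + max 1 w')) (L + L' + 1) (t + t')
      (fun y => if isAnd then (f y && g y) else (f y || g y)) := by
  intro n loc b hb
  obtain ⟨P, p1, p2, p3, p4⟩ := hf n loc b hb
  obtain ⟨Q, q1, q2, q3, q4⟩ := hg n loc (b + 1) (fun i => (hb i).mono (fun r hr => by omega))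
  refine ⟨P ++ Q ++ [⟨b, if isAnd then .and (.reg b) (.reg (b + 1)) else
    .or (.reg b) (.reg (b + 1))⟩], ?_, ?_, ?_, fun x s => ?_⟩
  · rw [List.length_append, List.length_append, List.length_singleton]
    omega
  · rw [nots_append, nots_append]
    have : nots [(⟨b, if isAnd then .and (.reg b) (.reg (b + 1)) else
        .or (.reg b) (.reg (b + 1))⟩ : Instr n)] = 0 := by
      cases isAnd <;> rfl
    omega
  · apply OK.append
    · apply OK.append
      · exact p3.mono (fun _ _ h => h) (by omega)
      · exact q3.mono (fun _ _ h => by omega) (by omega)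
    · intro I hI
      rw [List.mem_singleton] at hI
      subst hI
      refine ⟨le_rfl, by simp only; omega, ?_⟩
      cases isAnd
      · exact ⟨show b < _ by omega, show b + 1 < _ by omega⟩
      · exact ⟨show b < _ by omega, show b + 1 < _ by omega⟩
  · rw [exec_append, exec_append, exec_single]
    have e1 : exec x Q (exec x P s) b = f (fun i => (loc i).val x s) := by
      rw [q3.exec_eq x _ b (by omega), p4]
    have e2 : exec x Q (exec x P s) (b + 1) = g (fun i => (loc i).val x s) := by
      rw [q4]
      congr 1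
      funext i
      apply Loc.val_congr (hb i)
      intro r hr
      exact p3.exec_eq x s r (by omega)
    unfold act
    simp only [if_true]
    cases isAnd
    · change (exec x Q (exec x P s) b || exec x Q (exec x P s) (b + 1)) = _
      rw [e1, e2]
      rfl
    · change (exec x Q (exec x P s) b && exec x Q (exec x P s) (b + 1)) = _
      rw [e1, e2]
      rfl

lemma PC.and {m w L t w' L' t' : ℕ} {f g : (Fin m → Bool) → Bool} (hf : PC m w L t f)
    (hg : PC m w' L' t' g) : PC m (max w (1 + max 1 w')) (L + L' + 1) (t + t')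
      (fun y => f y && g y) := hf.bin hg true

lemma PC.or {m w L t w' L' t' : ℕ} {f g : (Fin m → Bool) → Bool} (hf : PC m w L t f)
    (hg : PC m w' L' t' g) : PC m (max w (1 + max 1 w')) (L + L' + 1) (t + t')
      (fun y => f y || g y) := hf.bin hg false

/-- negation -/
lemma PC.not {m w L t : ℕ} {f : (Fin m → Bool) → Bool} (hf : PC m w L t f) :
    PC m (max w 1) (L + 1) (t + 1) (fun y => !(f y)) := by
  intro n loc b hb
  obtain ⟨P, p1, p2, p3, p4⟩ := hf n loc b hb
  refine ⟨P ++ [⟨b, .not (.reg b)⟩], ?_, ?_, ?_, fun x s => ?_⟩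
  · rw [List.length_append, List.length_singleton]
    omega
  · rw [nots_append]
    have : nots [(⟨b, .not (.reg b)⟩ : Instr n)] = 1 := rfl
    omega
  · apply OK.append
    · exact p3.mono (fun _ _ h => h) (by omega)
    · intro I hI
      rw [List.mem_singleton] at hI
      subst hI
      exact ⟨le_rfl, by simp only; omega, show b < _ by omega⟩
  · rw [exec_append, exec_single]
    unfold act
    simp only [if_true]
    change (!(exec x P s b)) = _
    rw [p4]

/-- a function of the value of another function -/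
lemma PC.letin {m w L t w' L' t' : ℕ} {g : (Fin m → Bool) → Bool}
    {f : (Fin (m + 1) → Bool) → Bool} (hg : PC m w L t g) (hf : PC (m + 1) w' L' t' f) :
    PC m (max w (1 + max 1 w')) (L + L' + 1) (t + t')
      (fun y => f (Fin.append y (fun _ => g y))) := by
  intro n loc b hb
  obtain ⟨P, p1, p2, p3, p4⟩ := hg n loc b hb
  obtain ⟨Q, q1, q2, q3, q4⟩ := hf n (Fin.append loc (fun _ => .reg b)) (b + 1) (by
    intro i
    refine Fin.addCases (fun i => ?_) (fun i => ?_) i
    · rw [Fin.append_left]
      exact (hb i).mono (fun r hr => by omega)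
    · rw [Fin.append_right]
      exact Nat.lt_succ_self b)
  refine ⟨P ++ Q ++ [⟨b, .or (.reg (b + 1)) (.reg (b + 1))⟩], ?_, ?_, ?_, fun x s => ?_⟩
  · rw [List.length_append, List.length_append, List.length_singleton]
    omega
  · rw [nots_append, nots_append]
    have : nots [(⟨b, .or (.reg (b + 1)) (.reg (b + 1))⟩ : Instr n)] = 0 := rfl
    omega
  · apply OK.append
    · apply OK.append
      · exact p3.mono (fun _ _ h => h) (by omega)
      · exact q3.mono (fun _ _ h => by omega) (by omega)
    · intro I hI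
      rw [List.mem_singleton] at hI
      subst hI
      exact ⟨le_rfl, by simp only; omega, show b + 1 < _ by omega, show b + 1 < _ by omega⟩
  · rw [exec_append, exec_append, exec_single]
    unfold act
    simp only [if_true]
    change (exec x Q (exec x P s) (b + 1) || exec x Q (exec x P s) (b + 1)) = _
    rw [Bool.or_self, q4]
    congr 1
    funext i
    refine Fin.addCases (fun i => ?_) (fun i => ?_) i
    · rw [Fin.append_left, Fin.append_left]
      apply Loc.val_congr (hb i)
      intro r hr
      exact p3.exec_eq x s r (by omega)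
    · rw [Fin.append_right, Fin.append_right]
      exact p4 x s

end RP

end Pool.Agent.Results.MP_2af48a_lc.FewNegations
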