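import Pool.Agent.Lib_MP_2af48a_lc.SCLoop
import Pool.Agent.Lib_MP_2af48a_lc.NotWin

/-!
# Monotone functions in SC: few NOT gates

The construction of the files `NotRail` and `NotWin` for programs with few registers.
-/

open Finset

namespace Pool.Agent.Results.MP_2af48a_lc.FewNegations

namespace RP

/-! ### The two rails of a layered circuit -/

section Rail

variable {n : ℕ} (C : Layered n)

/-- the gates of the layered circuit with two rails -/
def rlGate (j g : ℕ) (hg : g < 2 * C.width (j + 1)) : Gate (n + n) (2 * C.width j) :=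
  if g % 2 = 0 then
    (C.gate j ⟨g / 2, by omega⟩).rp (fun u => .gate ⟨2 * u.val, by have := u.isLt; omega⟩)
      (fun u => .gate ⟨2 * u.val + 1, by have := u.isLt; omega⟩)
  else
    (C.gate j ⟨g / 2, by omega⟩).rn (fun u => .gate ⟨2 * u.val, by have := u.isLt; omega⟩)
      (fun u => .gate ⟨2 * u.val + 1, by have := u.isLt; omega⟩)

/-- the layered circuit with two rails -/
def RL : Layered (n + n) where
  layers := C.layers
  width := fun j => 2 * C.width j
  width_zero := by rw [C.width_zero]
  gate := fun j g => rlGate C j g.val g.isLt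
  out := ⟨2 * C.out.val, by have := C.out.isLt; omega⟩

lemma RL_isNot (j : ℕ) (g : Fin ((RL C).width (j + 1))) : ((RL C).gate j g).isNot = false := by
  change (rlGate C j g.val g.isLt).isNot = false
  unfold rlGate
  split_ifs
  · rw [Gate.rp_isNot]
  · rw [Gate.rn_isNot]

lemma rlGate_1 (j g : ℕ) (hg : g < C.width (j + 1)) :
    rlGate C j (2 * g) (by omega) =
      (C.gate j ⟨g, hg⟩).rp (fun u => .gate ⟨2 * u.val, by have := u.isLt; omega⟩)
      (fun u => .gate ⟨2 * u.val + 1, by have := u.isLt; omega⟩) := by
  unfold rlGate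
  rw [if_pos (by omega)]
  have e : 2 * g / 2 = g := by omega
  congr 2
  exact Fin.ext e

lemma rlGate_0 (j g : ℕ) (hg : g < C.width (j + 1)) :
    rlGate C j (2 * g + 1) (by omega) =
      (C.gate j ⟨g, hg⟩).rn (fun u => .gate ⟨2 * u.val, by have := u.isLt; omega⟩)
      (fun u => .gate ⟨2 * u.val + 1, by have := u.isLt; omega⟩) := by
  unfold rlGate
  rw [if_neg (by omega)]
  have e : (2 * g + 1) / 2 = g := by omega
  congr 2
  exact Fin.ext e

lemma RL_val (x : Fin n → Bool) (j : ℕ) : ∀ g : Fin (C.width j),
    (RL C).val (dbl x) j ⟨2 * g.val, by have := g.isLt; change _ < 2 * C.width j; omega⟩ =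
      C.val x j g ∧
    (RL C).val (dbl x) j ⟨2 * g.val + 1, by have := g.isLt; change _ < 2 * C.width j; omega⟩ =
      !(C.val x j g) := by
  induction j with
  | zero =>
    intro g
    exact Fin.elim0 (Fin.cast C.width_zero g)
  | succ j ih =>
    intro g
    constructor
    · change (rlGate C j (2 * g.val) (by have := g.isLt; omega)).val (dbl x)
          ((RL C).val (dbl x) j) =
        (C.gate j g).val x (C.val x j)
      rw [rlGate_1 C j g.val g.isLt]
      apply Gate.rp_val
      · intro u
        exact (ih u).1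
      · intro u
        exact (ih u).2
    · change (rlGate C j (2 * g.val + 1) (by have := g.isLt; omega)).val (dbl x)
          ((RL C).val (dbl x) j) =
        !((C.gate j g).val x (C.val x j))
      rw [rlGate_0 C j g.val g.isLt]
      apply Gate.rn_val
      · intro u
        exact (ih u).1
      · intro u
        exact (ih u).2

lemma RL_eval (x : Fin n → Bool) : (RL C).eval (dbl x) = C.eval x :=
  (RL_val C x C.layers C.out).1

end Rail

lemma layered_val_mono {m : ℕ} (D : Layered m) (hD : ∀ j g, (D.gate j g).isNot = false)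
    (x y : Fin m → Bool) (h : ∀ i, x i = true → y i = true) (j : ℕ) :
    ∀ g, D.val x j g = true → D.val y j g = true := by
  induction j with
  | zero =>
    intro g
    exact Fin.elim0 (Fin.cast D.width_zero g)
  | succ j ih =>
    intro g
    change (D.gate j g).val x (D.val x j) = true → (D.gate j g).val y (D.val y j) = true
    have hw : ∀ w : Wire m (D.width j), w.val x (D.val x j) = true →
        w.val y (D.val y j) = true := by
      intro w
      cases w with
      | const b => exact id
      | var i => exact h i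
      | gate u => exact ih u
    have h1 := hD j g
    revert h1
    generalize D.gate j g = G
    intro h1
    cases G with
    | and a b =>
      change (a.val x _ && b.val x _) = true → (a.val y _ && b.val y _) = true
      rw [Bool.and_eq_true, Bool.and_eq_true]
      exact fun h2 => ⟨hw a h2.1, hw b h2.2⟩
    | or a b =>
      change (a.val x _ || b.val x _) = true → (a.val y _ || b.val y _) = true
      rw [Bool.or_eq_true, Bool.or_eq_true]
      exact fun h2 => h2.imp (hw a) (hw b)
    | not a =>
      exact absurd h1 (by simp [Gate.isNot])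

/-! ### The recursion -/

theorem gj_PC {n W w L : ℕ} (C : Layered n) (hW : ∀ j ≤ C.layers, C.width j ≤ W) (hw : 1 ≤ w)
    (hL : 1 ≤ L) (K : ℕ) (h0 : PC n w L 0 (fun x => decide (K ≤ wt x))) (j : ℕ) :
    PC n (w + j * (4 * W + 2)) ((8 * (C.layers + 1) * W + 1) ^ j * L) 0
      (gj (RL C).eval K j) := by
  induction j with
  | zero =>
    refine (h0.mono ?_ ?_ le_rfl).congr (fun x => rfl)
    · simp
    · simp
  | succ j ih =>
    have hL' : 1 ≤ (8 * (C.layers + 1) * W + 1) ^ j * L :=
      Nat.one_le_iff_ne_zero.mpr (by positivity)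
    have e0 : (8 * (C.layers + 1) * W + 1) ^ (j + 1) * L =
        (8 * (C.layers + 1) * W + 1) * ((8 * (C.layers + 1) * W + 1) ^ j * L) := by ring
    rw [e0]
    generalize (8 * (C.layers + 1) * W + 1) ^ j * L = Lj at ih hL'
    have h := PC.layered (m := n) (w := w + j * (4 * W + 2)) (L := Lj) (K := 2 * W)
      (by omega) hL' (RL C) (fun j _ g => RL_isNot C j g)
      (fun j hj => Nat.mul_le_mul_left 2 (hW j hj))
      (Fin.append (fun i x => x i) (fun i x => gj (RL C).eval K j (Function.update x i true)))
      (by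
        intro i
        refine Fin.addCases (fun i => ?_) (fun i => ?_) i
        · rw [Fin.append_left]
          exact (PC.var i).mono (by omega) hL' le_rfl
        · rw [Fin.append_right]
          refine (ih.subst (fun a => if a = i then Sum.inl true else Sum.inr a)).congr
            (fun x => ?_)
          congr 1
          funext a
          by_cases h : a = i
          · subst h
            simp
          · simp [h])
    refine (h.mono ?_ ?_ le_rfl).congr (fun x => ?_)
    · have e : (j + 1) * (4 * W + 2) = j * (4 * W + 2) + (4 * W + 2) := by ring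
      omega
    · change (C.layers + 1) * (2 * W * (2 * Lj + 2)) + 1 ≤ _
      calc (C.layers + 1) * (2 * W * (2 * Lj + 2)) + 1
          ≤ (C.layers + 1) * (2 * W * (4 * Lj)) + Lj :=
            Nat.add_le_add (Nat.mul_le_mul_left _ (Nat.mul_le_mul_left _ (by omega))) hL'
        _ = (8 * (C.layers + 1) * W + 1) * Lj := by ring
    · change (RL C).eval _ = (RL C).eval _
      congr 1
      funext i
      refine Fin.addCases (fun i => ?_) (fun i => ?_) i
      · rw [Fin.append_left, Fin.append_left]
      · rw [Fin.append_right, Fin.append_right]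

/-! ### The selection -/

theorem bsel_PC (t : ℕ) : ∀ (m w L : ℕ) (_ : 1 ≤ w) (_ : 1 ≤ L)
    (s v : ℕ → (Fin m → Bool) → Bool) (_ : ∀ i, PC m w L 0 (s i))
    (_ : ∀ i, PC m w L 0 (v i)),
    PC m (w + 4 * t) (4 ^ t * (L + 8)) t (fun y => bsel t (fun i => s i y) (fun i => v i y)) := by
  induction t with
  | zero =>
    intro m w L hw hL s v hs hv
    refine ((hv 0).mono ?_ ?_ le_rfl).congr (fun x => rfl)
    · simp
    · simp
  | succ t ih =>
    intro m w L hw hL s v hs hv
    have lift : ∀ f : (Fin m → Bool) → Bool, PC m w L 0 f → PC (m + 1 + 1) w L 0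
        (fun z => f (fun a => z (Fin.castAdd 1 (Fin.castAdd 1 a)))) := by
      intro f hf
      exact (hf.subst (fun a => (Sum.inr (Fin.castAdd 1 (Fin.castAdd 1 a)) :
        Bool ⊕ Fin (m + 1 + 1)))).congr (fun _ => rfl)
    have h1 := ih (m + 1 + 1) (w + 2) (2 * L + 5) (by omega) (by omega)
      (fun i z => (s i (fun a => z (Fin.castAdd 1 (Fin.castAdd 1 a))) &&
          z (Fin.natAdd (m + 1) 0)) ||
        s (2 ^ t + i) (fun a => z (Fin.castAdd 1 (Fin.castAdd 1 a))))
      (fun i z => (v i (fun a => z (Fin.castAdd 1 (Fin.castAdd 1 a))) &&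
          z (Fin.natAdd (m + 1) 0)) ||
        (v (2 ^ t + i) (fun a => z (Fin.castAdd 1 (Fin.castAdd 1 a))) &&
          z (Fin.castAdd 1 (Fin.natAdd m 0))))
      (by
        intro i
        exact ((((lift _ (hs i)).and (PC.var _)).or (lift _ (hs (2 ^ t + i)))).mono
          (by omega) (by omega) le_rfl))
      (by
        intro i
        exact ((((lift _ (hv i)).and (PC.var _)).or
          ((lift _ (hv (2 ^ t + i))).and (PC.var _))).mono (by omega) (by omega) le_rfl))
    have h2 := (PC.var (Fin.natAdd m (0 : Fin 1))).not.letin h1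
    have h3 := (hs (2 ^ t - 1)).letin h2
    have hp : 1 ≤ 4 ^ t := Nat.one_le_pow _ _ (by norm_num)
    refine (h3.mono ?_ ?_ ?_).congr (fun y => ?_)
    · omega
    · have e1 : 4 ^ (t + 1) * (L + 8) = 4 ^ t * (2 * L + 5 + 8) + 4 ^ t * (2 * L + 19) := by ring
      have e2 : 1 * (2 * L + 19) ≤ 4 ^ t * (2 * L + 19) := Nat.mul_le_mul_right _ hp
      omega
    · omega
    · simp only [Fin.append_left, Fin.append_right]
      conv_rhs => rw [bsel]
      congr 1
      funext i
      rw [Bool.and_self]

/-- Monotone functions of `n < 2 ^ t * c` variables need only `t` NOT gates. -/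
theorem window_PC {n W w L : ℕ} (c t : ℕ) (hc : n < 2 ^ t * c) (C : Layered n)
    (hW : ∀ j ≤ C.layers, C.width j ≤ W)
    (hf : ∀ x y, (∀ i, x i = true → y i = true) → C.eval x = true → C.eval y = true)
    (hw : 1 ≤ w) (hL : 1 ≤ L)
    (h0 : ∀ K, PC n w L 0 (fun x => decide (K ≤ wt x))) :
    PC n (w + c * (4 * W + 2) + 4 * t)
      (4 ^ t * ((8 * (C.layers + 1) * W + 1) ^ c * L + 8)) t (fun x => C.eval x) := by
  have hM : 1 ≤ (8 * (C.layers + 1) * W + 1) ^ c := Nat.one_le_pow _ _ (by omega)
  have hML : L ≤ (8 * (C.layers + 1) * W + 1) ^ c * L := Nat.le_mul_of_pos_left _ hM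
  have h := bsel_PC t n (w + c * (4 * W + 2)) ((8 * (C.layers + 1) * W + 1) ^ c * L) (by omega)
    (le_trans hL hML) (fun i x => decide ((i + 1) * c ≤ wt x))
    (fun i x => gj (RL C).eval ((i + 1) * c) c x)
    (fun i => (h0 _).mono (by omega) hML le_rfl)
    (fun i => gj_PC C hW hw hL _ (h0 _) c)
  refine h.congr (fun x => ?_)
  have hwt : wt x ≤ n := by
    unfold wt
    simpa using Finset.card_le_univ (univ.filter (fun i => x i = true))
  have hc0 : 0 < c := by
    rcases Nat.eq_zero_or_pos c with h | h
    · rw [h] at hc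
      omega
    · exact h
  have hq : wt x / c < 2 ^ t := by
    rw [Nat.div_lt_iff_lt_mul hc0]
    omega
  have h3 : wt x / c * c ≤ wt x := Nat.div_mul_le_self (wt x) c
  have h4 : wt x < c * (wt x / c + 1) := Nat.lt_mul_div_succ (wt x) hc0
  have h5 : ∀ i, (i + 1) * c ≤ wt x ↔ i < wt x / c := by
    intro i
    rw [← Nat.le_div_iff_mul_le hc0]
    exact Nat.succ_le_iff
  generalize wt x / c = q at hq h3 h4 h5
  rw [bsel_spec t _ _ q hq]
  · apply gj_eq (RL C).eval C.eval
      (fun x y h1 h2 => layered_val_mono (RL C) (RL_isNot C) x y h1 _ _ h2) hf (RL_eval C)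
    · rw [Nat.mul_comm]
      exact h4
    · rw [Nat.succ_mul]
      omega
  · intro i hi
    apply Bool.eq_iff_iff.mpr
    simp only [decide_eq_true_eq]
    exact h5 i

end RP

end Pool.Agent.Results.MP_2af48a_lc.FewNegations
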