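import Pool.Agent.Lib_MP_2af48a_lc.NearUpper
import Pool.Agent.Lib_MP_2af48a_lc.FewNegGeneral

/-!
# Functions of small depth which have no narrow circuits with few NOT gates
-/

open Finset Filter

namespace Pool.Agent.Results.MP_2af48a_lc.FewNegations

open Undirected (near near_circuit near_of_walk near_of_stconn near_zero Symm Walk)

/-- number of squarings -/
def kk (d : ℕ → ℕ) (n : ℕ) : ℕ :=
  min ((d n - (Nat.log 2 n + 3)) / (Nat.log 2 n + 2)) (Nat.log 2 n + 1)

/-- the disjunction of copies of the function: is there a short path? -/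
noncomputable def shal (r d : ℕ → ℕ) (n : ℕ) (x : Fin n → Bool) : Bool :=
  copies (fun m => near (2 ^ kk d n) m) r n x

theorem shal_circuit (r d : ℕ → ℕ) (n : ℕ) : ∃ E : Circuit n, (∀ x, E.eval x = shal r d n x) ∧
    Pos E ∧ E.size ≤ (n + 2) ^ 8 ∧
    E.depth ≤ kk d n * (Nat.log 2 n + 2) + (Nat.log 2 n + 3) := by
  set m := mb r n with hm
  obtain ⟨D, hD1, hD2, hD3⟩ := near_circuit m (kk d n)
  let σ : ℕ → Fin m → Bool ⊕ Fin n := fun j i => if h : j * m + i.val < n then
    Sum.inr ⟨j * m + i.val, h⟩ else Sum.inl false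
  let A : ℕ → Circuit n := fun j => subC (σ j) (fromCircuit (le_refl m) D)
  have hA : ∀ j x, (A j).eval x = near (2 ^ kk d n) m (rst m (fun p => ext x (j * m + p))) := by
    intro j x
    change (subC (σ j) (fromCircuit (le_refl m) D)).eval x = _
    rw [subC_eval]
    have e : (fun i => Sum.elim (fun b => b) x (σ j i)) = rst m (fun p => ext x (j * m + p)) := by
      funext i
      by_cases h : j * m + i.val < n
      · simp [σ, rst, ext, h]
      · simp [σ, rst, ext, h]
    rw [e, fromCircuit_eval, hD1]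
  obtain ⟨E, h1, h2, h3, h4⟩ := exists_orC D.size D.depth (Nat.log 2 n + 1)
    ((List.range (min (nb r n) (n + 1))).map A) (by
      rw [List.length_map, List.length_range]
      exact min_le_pow r n) (by
      intro D' hD'
      rw [List.mem_map] at hD'
      obtain ⟨j, -, rfl⟩ := hD'
      exact ⟨subC_pos _ _ (pos_of_negations (fromCircuit_negations _ _)), le_refl _,
        le_trans (subC_depth _ _) (fromCircuit_depth _ _)⟩)
  have hmn : m ≤ n := mb_le r n
  have hlog : Nat.log 2 m ≤ Nat.log 2 n := Nat.log_mono_right hmn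
  have hk : kk d n ≤ Nat.log 2 n + 1 := min_le_right _ _
  refine ⟨E, fun x => ?_, h1, ?_, ?_⟩
  · rw [h4]
    apply Bool.eq_iff_iff.mpr
    unfold shal copies
    rw [decide_eq_true_eq, List.any_eq_true]
    constructor
    · rintro ⟨D', hD', hv⟩
      rw [List.mem_map] at hD'
      obtain ⟨j, hj, rfl⟩ := hD'
      rw [List.mem_range] at hj
      rw [hA] at hv
      exact ⟨j, hj, hv⟩
    · rintro ⟨j, hj, hv⟩
      refine ⟨A j, List.mem_map.mpr ⟨j, List.mem_range.mpr hj, rfl⟩, ?_⟩
      rw [hA]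
      exact hv
  · have hl := Nat.log_le_self 2 n
    have h6 := two_pow_log_le n
    have h7 : D.size + 2 ≤ (n + 2) ^ 5 + (n + 2) ^ 5 := by
      have h8 : D.size ≤ (n + 2) ^ 5 := by
        calc D.size ≤ (1 + kk d n * (Nat.log 2 m + 2)) * ((m + 1) * (m + 1) * (m + 1)) := hD2
          _ ≤ (1 + (n + 1) * (n + 2)) * ((n + 2) * (n + 2) * (n + 2)) := by
              gcongr <;> omega
          _ ≤ ((n + 2) * (n + 2)) * ((n + 2) * (n + 2) * (n + 2)) := by
              apply Nat.mul_le_mul_right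
              nlinarith
          _ = (n + 2) ^ 5 := by ring
      have h9 : 2 ≤ (n + 2) ^ 5 := by
        calc 2 ≤ (n + 2) ^ 1 := by rw [pow_one]; omega
          _ ≤ _ := Nat.pow_le_pow_right (by omega) (by norm_num)
      omega
    calc E.size ≤ 2 ^ (Nat.log 2 n + 1) * (D.size + 2) := by omega
      _ ≤ (2 * (n + 1)) * ((n + 2) ^ 5 + (n + 2) ^ 5) := Nat.mul_le_mul h6 h7
      _ = (n + 2) ^ 5 * (4 * (n + 1)) := by ring
      _ ≤ (n + 2) ^ 5 * (n + 2) ^ 3 := by
          apply Nat.mul_le_mul_left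
          have : 4 ≤ (n + 2) * (n + 2) := by nlinarith
          calc 4 * (n + 1) ≤ ((n + 2) * (n + 2)) * (n + 2) := Nat.mul_le_mul this (by omega)
            _ = (n + 2) ^ 3 := by ring
      _ = (n + 2) ^ 8 := by rw [← pow_add]
  · calc E.depth ≤ D.depth + 1 + (Nat.log 2 n + 1) := h3
      _ ≤ (1 + kk d n * (Nat.log 2 m + 2)) + 1 + (Nat.log 2 n + 1) := by omega
      _ ≤ (1 + kk d n * (Nat.log 2 n + 2)) + 1 + (Nat.log 2 n + 1) := by gcongr
      _ = _ := by ring

/-- Bounds for the logarithm. -/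
lemma log_bounds (n : ℕ) (hn : 2 ≤ n) :
    (Nat.log 2 n : ℝ) ≤ Real.logb 2 n ∧ Real.logb 2 n < (Nat.log 2 n : ℝ) + 1 ∧
      (1 : ℝ) ≤ Nat.log 2 n := by
  have hn0 : (0 : ℝ) < n := by exact_mod_cast (by omega : 0 < n)
  refine ⟨?_, ?_, ?_⟩
  · rw [Real.le_logb_iff_rpow_le (by norm_num) hn0, Real.rpow_natCast]
    exact_mod_cast Nat.pow_log_le_self 2 (by omega : n ≠ 0)
  · rw [Real.logb_lt_iff_lt_rpow (by norm_num) hn0]
    have : n < 2 ^ (Nat.log 2 n + 1) := Nat.lt_pow_succ_log_self (by norm_num) n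
    have h5 : (n : ℝ) < 2 ^ (Nat.log 2 n + 1) := by exact_mod_cast this
    calc (n : ℝ) < 2 ^ (Nat.log 2 n + 1) := h5
      _ = (2 : ℝ) ^ ((Nat.log 2 n : ℝ) + 1) := by
          rw [show (Nat.log 2 n : ℝ) + 1 = ((Nat.log 2 n + 1 : ℕ) : ℝ) by push_cast; ring,
            Real.rpow_natCast]
  · have : 1 ≤ Nat.log 2 n := Nat.le_log_of_pow_le (by norm_num) (by simpa using hn)
    exact_mod_cast this

/-- The lower bound for large `n`. -/
theorem shal_lower (r d : ℕ → ℕ) (K n : ℕ) (hn : 2 ≤ n) (hnb : nb r n ≤ n)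
    (hs : ((10 : ℝ) ^ 5 + 160 * (K + 5)) * Real.sqrt (Real.logb 2 n) ≤ Real.logb 2 n - r n)
    (hx1 : 1 ≤ Real.logb 2 n)
    (hd : (3 * (160 * ((K : ℝ) + 5) + 8)) * (Real.logb 2 n) ^ 2 ≤ (Real.logb 2 n - r n) * d n)
    (C : Layered n) (hC : ∀ x, C.eval x = shal r d n x) (ht : C.negations ≤ r n)
    (hw : (C.maxWidth : ℝ) ≤ 2 ^ ((Real.logb 2 n - r n) / 50)) :
    n ^ K < C.size := by
  obtain ⟨hl1, hl2, hl3⟩ := log_bounds n hn
  have hbl := block_large_gen r n hn hnb
  set L := Real.logb 2 (n : ℝ) with hL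
  set l := Nat.log 2 n with hl
  set s := L - (r n : ℝ) with hsdef
  set x := Real.sqrt L with hx
  have hxx : x * x = L := Real.mul_self_sqrt (by linarith)
  have hx1' : 1 ≤ x := by
    rw [hx]
    exact Real.one_le_sqrt.mpr hx1
  have hK0 : (0 : ℝ) ≤ K := Nat.cast_nonneg K
  have hsx : (10 : ℝ) ^ 5 * x ≤ s := by
    have : 0 ≤ 160 * ((K : ℝ) + 5) * x := by positivity
    linarith
  have hsL : s ≤ L := by
    rw [hsdef]
    have : (0 : ℝ) ≤ r n := Nat.cast_nonneg _
    linarith
  set m := mb r n with hm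
  set l' := Nat.log 2 m with hl'
  have hm0 : m ≠ 0 := by
    intro h0
    rw [h0] at hbl
    simp only [Nat.cast_zero, mul_zero] at hbl
    have : (0 : ℝ) < 2 ^ s := by positivity
    linarith
  have hml : 2 ^ l' ≤ m := Nat.pow_log_le_self 2 hm0
  have hmn : m ≤ n := mb_le r n
  have hll : l' ≤ l := Nat.log_mono_right hmn
  -- the size of the blocks
  have hl's : s - 8 * x ≤ l' := by
    have e1 : (m : ℝ) ≤ (2 : ℝ) ^ ((l' : ℝ) + 1) := by
      have h1 : m < 2 ^ (l' + 1) := Nat.lt_pow_succ_log_self (by norm_num) m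
      have h2 : (m : ℝ) < 2 ^ (l' + 1) := by exact_mod_cast h1
      refine h2.le.trans (le_of_eq ?_)
      rw [show (l' : ℝ) + 1 = ((l' + 1 : ℕ) : ℝ) by push_cast; ring, Real.rpow_natCast]
    have e2 : Real.logb 2 (8 * l) ≤ 3 + 4 * x := by
      rw [Real.logb_mul (by norm_num) (by linarith)]
      have e3 : Real.logb 2 8 = 3 := by
        rw [show (8 : ℝ) = 2 ^ (3 : ℝ) by norm_num, Real.logb_rpow (by norm_num) (by norm_num)]
      have e4 : Real.logb 2 l ≤ 4 * x := by
        unfold Real.logb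
        rw [div_le_iff₀ (Real.log_pos (by norm_num))]
        have e5 : (0.5 : ℝ) ≤ Real.log 2 := by
          have := Real.log_two_gt_d9
          linarith
        have e6 : Real.log l ≤ 2 * x := by
          calc Real.log l ≤ Real.log L := Real.log_le_log (by linarith) hl1
            _ = Real.log x + Real.log x := by
                rw [← hxx, Real.log_mul (by linarith) (by linarith)]
            _ ≤ 2 * x := by
                have := Real.log_le_sub_one_of_pos (by linarith : 0 < x)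
                linarith
        nlinarith
      linarith
    have e7 : (2 : ℝ) ^ s ≤ (2 : ℝ) ^ (3 + 4 * x + (l' + 1)) := by
      rw [Real.rpow_add (by norm_num) (3 + 4 * x)]
      refine le_trans hbl (mul_le_mul ?_ e1 (by positivity) (by positivity))
      calc 8 * (l : ℝ) = (2 : ℝ) ^ (Real.logb 2 (8 * l)) := by
            rw [Real.rpow_logb (by norm_num) (by norm_num) (by linarith)]
        _ ≤ _ := Real.rpow_le_rpow_of_exponent_le (by norm_num) e2
    have e8 := (Real.rpow_le_rpow_left_iff (by norm_num : (1 : ℝ) < 2)).mp e7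
    linarith
  obtain ⟨e, he⟩ : ∃ e, e = l' / 40 := ⟨_, rfl⟩
  have he1 : (l' : ℝ) ≤ 40 * e + 39 := by
    have : l' ≤ 40 * e + 39 := by omega
    exact_mod_cast this
  have hes : s / 50 + 3 ≤ 2 * (e : ℝ) := by
    linarith
  have hes2 : s / 80 ≤ (e : ℝ) := by linarith
  have he10 : 10 ≤ e := by
    have : (10 : ℝ) ≤ e := by linarith
    exact_mod_cast this
  have hm4 : 4 ≤ m := by
    calc 4 = 2 ^ 2 := by norm_num
      _ ≤ 2 ^ l' := Nat.pow_le_pow_right (by norm_num) (by omega)
      _ ≤ m := hml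
  -- the monotone circuit for one block
  obtain ⟨D, hD1, hD2, hD3, hD4⟩ := layered_copies C (nb r n) (neg_lt_nb r n _ ht)
    (near (2 ^ kk d n) m) (near_zero _ m hm4) (blk m) (fun j hj y hy z => by
      rw [hC]
      exact copies_spec (fun m => near (2 ^ kk d n) m) r n hnb (near_zero _ m hm4) j hj y hy z)
  obtain ⟨D', hD'1, hD'2, hD'3⟩ := layered_to_mon (m := m) (r := 0) D hD2.le
    (near (2 ^ kk d n) m) (fun X => by
      rw [hD1]; rfl)
  have hwid : 2 * C.maxWidth + 3 ≤ 2 ^ (2 * e) := by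
    have e1 : (1 : ℝ) ≤ 2 ^ (s / 50) := Real.one_le_rpow (by norm_num) (by linarith)
    have e2 : (2 * (C.maxWidth : ℝ) + 3) ≤ (2 : ℝ) ^ (3 : ℝ) * 2 ^ (s / 50) := by
      have : (2 : ℝ) ^ (3 : ℝ) = 8 := by norm_num
      rw [this]
      linarith
    have e3 : (2 * (C.maxWidth : ℝ) + 3) ≤ (2 : ℝ) ^ ((2 * e : ℕ) : ℝ) := by
      refine le_trans e2 ?_
      rw [← Real.rpow_add (by norm_num)]
      apply Real.rpow_le_rpow_of_exponent_le (by norm_num)
      push_cast
      linarith
    rw [Real.rpow_natCast] at e3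
    exact_mod_cast e3
  -- number of rounds
  obtain ⟨R, hRe, hRk, hRbig⟩ : ∃ R, R ≤ e ∧ R + 1 ≤ kk d n ∧ (K + 5) * (l + 1) ≤ e * R := by
    have hkk1 : (kk d n : ℝ) = l + 1 ∨ (d n : ℝ) ≤ ((kk d n : ℝ) + 1) * (l + 2) + (l + 3) := by
      unfold kk
      rw [← hl]
      rcases min_choice ((d n - (l + 3)) / (l + 2)) (l + 1) with h | h
      · right
        rw [h]
        have h1 : d n - (l + 3) < (l + 2) * ((d n - (l + 3)) / (l + 2) + 1) :=
          Nat.lt_mul_div_succ _ (by omega)
        have h2 : d n ≤ ((d n - (l + 3)) / (l + 2) + 1) * (l + 2) + (l + 3) := by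
          rw [mul_comm ((d n - (l + 3)) / (l + 2) + 1)]
          omega
        exact_mod_cast h2
      · left
        rw [h]
        push_cast
        ring
    have hee : ((K : ℝ) + 5) * (l + 1) ≤ e * e := by
      have e1 : (10 ^ 5 + 160 * ((K : ℝ) + 5)) * x ≤ 80 * e := by linarith
      have e2 : ((10 ^ 5 + 160 * ((K : ℝ) + 5)) * x) * ((10 ^ 5 + 160 * ((K : ℝ) + 5)) * x) ≤
          (80 * e) * (80 * e) := mul_self_le_mul_self (by positivity) e1
      have e3 : ((10 ^ 5 + 160 * ((K : ℝ) + 5)) * x) * ((10 ^ 5 + 160 * ((K : ℝ) + 5)) * x)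
          = (10 ^ 5 + 160 * ((K : ℝ) + 5)) ^ 2 * L := by rw [← hxx]; ring
      have e4 : 2 * 6400 * ((K : ℝ) + 5) ≤ (10 ^ 5 + 160 * ((K : ℝ) + 5)) ^ 2 := by nlinarith
      have e5 : (2 * 6400 * ((K : ℝ) + 5)) * L ≤ (10 ^ 5 + 160 * ((K : ℝ) + 5)) ^ 2 * L :=
        mul_le_mul_of_nonneg_right e4 (by linarith)
      have e6 : (l : ℝ) + 1 ≤ 2 * L := by linarith
      have e7 : ((K : ℝ) + 5) * (l + 1) ≤ ((K : ℝ) + 5) * (2 * L) :=
        mul_le_mul_of_nonneg_left e6 (by linarith)
      nlinarith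
    rcases hkk1 with hk | hk
    · have hk' : kk d n = l + 1 := by exact_mod_cast hk
      refine ⟨e, le_rfl, ?_, ?_⟩
      · rw [hk']
        omega
      · exact_mod_cast hee
    · -- `s (k - 1)` is large
      have h1 : 160 * ((K : ℝ) + 5) * L ≤ s * ((kk d n : ℝ) - 1) := by
        have hs0 : 0 ≤ s := by
          have : 0 ≤ (10 : ℝ) ^ 5 * x := by positivity
          linarith
        have e1 : s * d n ≤ s * (((kk d n : ℝ) + 1) * (l + 2) + (l + 3)) :=
          mul_le_mul_of_nonneg_left hk hs0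
        have e2 : s * (((kk d n : ℝ) + 1) * (l + 2) + (l + 3)) =
            (s * ((kk d n : ℝ) - 1)) * (l + 2) + s * (2 * (l + 2) + (l + 3)) := by ring
        have e3 : s * (2 * (l + 2) + (l + 3)) ≤ L * (10 * L) :=
          mul_le_mul hsL (by linarith) (by linarith) (by linarith)
        by_contra hcon
        push Not at hcon
        have e4 : (s * ((kk d n : ℝ) - 1)) * (l + 2) ≤ (160 * ((K : ℝ) + 5) * L) * (3 * L) := by
          calc (s * ((kk d n : ℝ) - 1)) * (l + 2) ≤ (160 * ((K : ℝ) + 5) * L) * (l + 2) :=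
                mul_le_mul_of_nonneg_right hcon.le (by linarith)
            _ ≤ _ := mul_le_mul_of_nonneg_left (by linarith) (by positivity)
        have e5 : (3 * (160 * ((K : ℝ) + 5) + 8)) * L ^ 2 ≤
            (160 * ((K : ℝ) + 5) * L) * (3 * L) + L * (10 * L) := by linarith
        have e6 : 0 < L * L := by positivity
        nlinarith
      have h2 : 1 ≤ kk d n := by
        by_contra h
        have h0 : kk d n = 0 := by omega
        rw [h0] at h1
        have : 0 ≤ 160 * ((K : ℝ) + 5) * L := by positivity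
        have hs0 : 0 < s := by
          have : 0 < (10 : ℝ) ^ 5 * x := by positivity
          linarith
        simp only [Nat.cast_zero, zero_sub] at h1
        linarith
      refine ⟨min e (kk d n - 1), min_le_left _ _, ?_, ?_⟩
      · have := min_le_right e (kk d n - 1)
        omega
      · rcases min_choice e (kk d n - 1) with h | h
        · rw [h]
          exact_mod_cast hee
        · rw [h]
          have e1 : ((kk d n - 1 : ℕ) : ℝ) = (kk d n : ℝ) - 1 := by
            rw [Nat.cast_sub h2]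
            simp
          have e2 : ((K : ℝ) + 5) * (l + 1) ≤ e * ((kk d n : ℝ) - 1) := by
            have e3 : (0 : ℝ) ≤ (kk d n : ℝ) - 1 := by
              have : (1 : ℝ) ≤ kk d n := by exact_mod_cast h2
              linarith
            have e4 : (s / 80) * ((kk d n : ℝ) - 1) ≤ e * ((kk d n : ℝ) - 1) :=
              mul_le_mul_of_nonneg_right hes2 e3
            have e5 : ((K : ℝ) + 5) * (l + 1) ≤ ((K : ℝ) + 5) * (2 * L) :=
              mul_le_mul_of_nonneg_left (by linarith) (by linarith)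
            linarith
          have e3 : (((K + 5) * (l + 1) : ℕ) : ℝ) ≤ ((e * (kk d n - 1) : ℕ) : ℝ) := by
            push_cast
            rw [← e1] at e2
            exact e2
          exact_mod_cast e3
  have hkey := Undirected.und_width D' (2 ^ kk d n)
    (fun z _ hz => by rw [hD'1]; exact near_of_walk z hz)
    (fun z _ hz => by rw [hD'1]; exact near_of_stconn z hz) e R (by rw [he]) he10
    (by rw [hD'3]; exact le_trans hD3 hwid) hRe (Nat.pow_le_pow_right (by norm_num) hRk)
  by_contra hle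
  push Not at hle
  have hn' : n < 2 ^ (l + 1) := Nat.lt_pow_succ_log_self (by norm_num) n
  have hsz : C.size ≤ 2 ^ (K * (l + 1)) := by
    refine le_trans hle ?_
    rw [mul_comm, pow_mul]
    exact Nat.pow_le_pow_left hn'.le _
  have hwn : 2 * C.maxWidth + 3 ≤ 2 ^ (l + 1) :=
    le_trans hwid (Nat.pow_le_pow_right (by norm_num) (by omega))
  have ht' : 2 ^ C.negations * (C.negations + 1) ≤ 2 ^ (l + 1) := by
    have := neg_lt_nb r n _ ht
    omega
  have h6 : D'.size ≤ 2 ^ (e * R) := by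
    rw [hD'2]
    refine le_trans hD4 (le_trans (narrow_size _ _ _ l _ ht' hwn hsz) ?_)
    apply Nat.pow_le_pow_right (by norm_num)
    refine le_trans ?_ hRbig
    have : (K + 5) * (l + 1) = K * (l + 1) + 5 * (l + 1) := by ring
    omega
  omega

/-- Functions of small depth which have no narrow circuits with few NOT gates. -/
theorem shallow_general (r d : ℕ → ℕ)
    (h1 : Tendsto (fun n : ℕ => (Real.logb 2 n - r n) / Real.sqrt (Real.logb 2 n)) atTop atTop)
    (h2 : Tendsto (fun n : ℕ => (Real.logb 2 n - r n) * d n / (Real.logb 2 n) ^ 2) atTop atTop) :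
    ∃ f : (n : ℕ) → (Fin n → Bool) → Bool,
      (∃ C : (n : ℕ) → Circuit n, (∀ n x, (C n).eval x = f n x) ∧
        PolyBounded (fun n => (C n).size) ∧ (∀ᶠ n in atTop, (C n).depth ≤ d n) ∧
        ∀ n, (C n).negations = 0) ∧
      ¬ SC r f ∧
      ∀ K : ℕ, ∃ N : ℕ, ∀ n ≥ N, ∀ C : Layered n, (∀ x, C.eval x = f n x) →
        C.negations ≤ r n → (C.maxWidth : ℝ) ≤ 2 ^ ((Real.logb 2 n - r n) / 50) →
        n ^ K < C.size := by
  have hlog : Tendsto (fun n : ℕ => Real.logb 2 (n : ℝ)) atTop atTop :=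
    (Real.tendsto_logb_atTop (by norm_num)).comp tendsto_natCast_atTop_atTop
  have hsqrt : Tendsto (fun n : ℕ => Real.sqrt (Real.logb 2 (n : ℝ))) atTop atTop :=
    Real.tendsto_sqrt_atTop.comp hlog
  have h1' : Tendsto (fun n : ℕ => (Real.logb 2 n - r n) / (Real.logb 2 n) ^ (1 / 2 : ℝ))
      atTop atTop := by
    simpa only [Real.sqrt_eq_rpow] using h1
  have hlow : ∀ K : ℕ, ∃ N : ℕ, ∀ n ≥ N, ∀ C : Layered n, (∀ x, C.eval x = shal r d n x) →
        C.negations ≤ r n → (C.maxWidth : ℝ) ≤ 2 ^ ((Real.logb 2 n - r n) / 50) →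
        n ^ K < C.size := by
    intro K
    have hev : ∀ᶠ n : ℕ in atTop, ∀ C : Layered n, (∀ x, C.eval x = shal r d n x) →
        C.negations ≤ r n → (C.maxWidth : ℝ) ≤ 2 ^ ((Real.logb 2 n - r n) / 50) →
        n ^ K < C.size := by
      filter_upwards [growthC r (1 / 2) (by norm_num) h1' 2 (by norm_num) 0,
        eventually_ge_atTop 2, hlog.eventually_ge_atTop 1,
        h1.eventually_ge_atTop ((10 : ℝ) ^ 5 + 160 * (K + 5)),
        h2.eventually_ge_atTop (3 * (160 * ((K : ℝ) + 5) + 8))] with n g1 g2 g3 g4 g5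
      intro C hC ht hw
      refine shal_lower r d K n g2 g1.1 ?_ g3 ?_ C hC ht hw
      · rwa [le_div_iff₀ (Real.sqrt_pos.mpr (by linarith))] at g4
      · rwa [le_div_iff₀ (by positivity)] at g5
    exact eventually_atTop.mp hev
  refine ⟨shal r d, ?_, ?_, hlow⟩
  · choose E hE1 hE2 hE3 hE4 using shal_circuit r d
    refine ⟨E, hE1, polyBounded_of 8 hE3, ?_, fun n => (hE2 n).negations⟩
    filter_upwards [h2.eventually_ge_atTop 4, hlog.eventually_ge_atTop 1, eventually_ge_atTop 2]
      with n g1 g2 g3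
    obtain ⟨hl1, hl2, hl3⟩ := log_bounds n g3
    refine le_trans (hE4 n) ?_
    set l := Nat.log 2 n with hl
    have hd : l + 3 ≤ d n := by
      rw [le_div_iff₀ (by positivity)] at g1
      have h3 : (Real.logb 2 n - r n) * d n ≤ Real.logb 2 n * d n := by
        apply mul_le_mul_of_nonneg_right _ (Nat.cast_nonneg _)
        have : (0 : ℝ) ≤ r n := Nat.cast_nonneg _
        linarith
      have h4 : 4 * Real.logb 2 n ≤ d n := by
        have h5 : (4 * Real.logb 2 n) * Real.logb 2 n ≤ d n * Real.logb 2 n := by nlinarith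
        exact le_of_mul_le_mul_right h5 (by linarith)
      have h6 : (l : ℝ) + 3 ≤ d n := by linarith
      exact_mod_cast h6
    have hk : kk d n ≤ (d n - (l + 3)) / (l + 2) := min_le_left _ _
    have h7 : kk d n * (l + 2) ≤ d n - (l + 3) :=
      le_trans (Nat.mul_le_mul_right _ hk) (Nat.div_mul_le_self _ _)
    omega
  · rintro ⟨C, hC, ⟨a, c, hs⟩, ⟨a', c', hd⟩, hneg⟩
    obtain ⟨N, hN⟩ := hlow (a + c + 1)
    obtain ⟨L0, hL0⟩ := pow_lt_two_pow (2 * a' * 4 ^ c') (2 * c')
    obtain ⟨n, g1, g2, g3, g4, g5⟩ := ((h1.eventually_ge_atTop 50).and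
      ((hlog.eventually_ge_atTop 1).and ((hsqrt.eventually_ge_atTop ((L0 : ℝ) + 1)).and
        ((eventually_ge_atTop (a + 2)).and (eventually_ge_atTop N))))).exists
    have hn2 : 2 ≤ n := by omega
    obtain ⟨hl1, hl2, hl3⟩ := log_bounds n hn2
    set L := Real.logb 2 (n : ℝ) with hL
    set x := Real.sqrt L with hx
    have hL00 : (0 : ℝ) ≤ L0 := Nat.cast_nonneg L0
    have hx0 : 0 < x := by linarith
    have hxx : x * x = L := Real.mul_self_sqrt (by linarith)
    set l := Nat.log 2 n with hl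
    have hwid : ((C n).maxWidth : ℝ) ≤ 2 ^ ((L - r n) / 50) := by
      obtain ⟨q, hq⟩ : ∃ q, q = ⌊x⌋₊ := ⟨_, rfl⟩
      have hq1 : (q : ℝ) ≤ x := by rw [hq]; exact Nat.floor_le hx0.le
      have hq2 : x < (q : ℝ) + 1 := by rw [hq]; exact Nat.lt_floor_add_one x
      have hqL0 : L0 ≤ q := by
        have : (L0 : ℝ) ≤ q := by linarith
        exact_mod_cast this
      have hq0 : 1 ≤ q := by
        have : (0 : ℝ) < q := by linarith
        exact_mod_cast this
      have hlq : l ≤ 4 * q ^ 2 := by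
        have e1 : (l : ℝ) ≤ 4 * (q : ℝ) ^ 2 := by
          have e2 : (1 : ℝ) ≤ q := by exact_mod_cast hq0
          nlinarith
        exact_mod_cast e1
      have h5 : (C n).maxWidth ≤ 2 ^ q := by
        have h6 := hd n
        simp only at h6
        rw [← hl] at h6
        have h7 : l ^ c' ≤ 4 ^ c' * q ^ (2 * c') := by
          calc l ^ c' ≤ (4 * q ^ 2) ^ c' := Nat.pow_le_pow_left hlq _
            _ = _ := by rw [mul_pow, ← pow_mul]
        have h8 : 1 ≤ 4 ^ c' * q ^ (2 * c') :=
          Nat.mul_pos (by positivity) (Nat.pow_pos hq0)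
        calc (C n).maxWidth ≤ a' * l ^ c' + a' * 1 := by rw [mul_one]; exact h6
          _ ≤ a' * (4 ^ c' * q ^ (2 * c')) + a' * (4 ^ c' * q ^ (2 * c')) :=
              Nat.add_le_add (Nat.mul_le_mul_left _ h7) (Nat.mul_le_mul_left _ h8)
          _ = 2 * a' * 4 ^ c' * q ^ (2 * c') := by ring
          _ ≤ 2 ^ q := (hL0 q hqL0).le
      calc ((C n).maxWidth : ℝ) ≤ ((2 ^ q : ℕ) : ℝ) := by exact_mod_cast h5
        _ = (2 : ℝ) ^ (q : ℝ) := by rw [Real.rpow_natCast]; push_cast; rfl
        _ ≤ _ := by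
            apply Real.rpow_le_rpow_of_exponent_le (by norm_num)
            rw [le_div_iff₀ hx0] at g1
            linarith
    have h3 := hN n g5 (C n) (hC n) (hneg n) hwid
    have h4 := hs n
    simp only at h4
    have h5 : a * n ^ c + a ≤ n ^ (a + c + 1) := by
      have e1 : 1 ≤ n ^ c := Nat.one_le_pow _ _ (by omega)
      calc a * n ^ c + a ≤ a * n ^ c + a * n ^ c := by nlinarith
        _ = (2 * a) * n ^ c := by ring
        _ ≤ n ^ (a + 1) * n ^ c := by
            apply Nat.mul_le_mul_right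
            have e2 : a < 2 ^ a := Nat.lt_two_pow_self
            calc 2 * a ≤ 2 ^ (a + 1) := by rw [pow_succ]; omega
              _ ≤ n ^ (a + 1) := Nat.pow_le_pow_left hn2 _
        _ = n ^ (a + c + 1) := by rw [← pow_add]; congr 1; ring
    omega

end Pool.Agent.Results.MP_2af48a_lc.FewNegations
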