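import Pool.Agent.Lib_MP_2af48a_lc.NarrowSharp

open Finset Filter

namespace Pool.Agent.Results.MP_2af48a_lc.FewNegations

/-! ## Parameters of the sharp function

`L` is the logarithm of the number of variables, `b` the logarithm of the number of variables of a
block, `D` the depth, and `R ≤ (L + 2) ^ a` the number of rounds. -/

/-- an upper bound for the logarithm of `L + 2` -/
def su (L : ℕ) : ℕ := Nat.log 2 (L + 2) + 1

lemma lt_pow_su (L : ℕ) : L + 2 < 2 ^ su L := Nat.lt_pow_succ_log_self (by norm_num) _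

lemma pow_su_le (L : ℕ) : 2 ^ su L ≤ (L + 2) ^ 2 := by
  unfold su
  rw [pow_succ, sq]
  exact Nat.mul_le_mul (Nat.pow_log_le_self 2 (by omega)) (by omega)

lemma two_le_su (L : ℕ) : 2 ≤ su L := by
  unfold su
  have : 1 ≤ Nat.log 2 (L + 2) := Nat.le_log_of_pow_le (by norm_num) (by omega)
  omega

/-- the gadget parameter -/
def se (a L b : ℕ) : ℕ := (b - 8 - (3 * a + 6) * su L) / 20

/-- the depth of one round -/
def sX (a L b : ℕ) : ℕ := 10 * se a L b + (a + 2) * su L + 8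

/-- the number of rounds -/
def sR (a L D b : ℕ) : ℕ := min (D / sX a L b - 3) ((L + 2) ^ a)

lemma sR_le (a L D b : ℕ) : sR a L D b ≤ (L + 2) ^ a := min_le_right _ _

lemma vw_le (a L R : ℕ) (hR : R ≤ (L + 2) ^ a) : vw R ≤ (L + 2) ^ (a + 2) := by
  unfold vw
  have h1 : 1 ≤ (L + 2) ^ a := Nat.one_le_pow _ _ (by omega)
  calc 2 * R + 1 ≤ (L + 2) ^ a * 4 := by omega
    _ ≤ (L + 2) ^ a * (L + 2) ^ 2 := by
        apply Nat.mul_le_mul_left
        have : 2 ^ 2 ≤ (L + 2) ^ 2 := Nat.pow_le_pow_left (by omega) _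
        omega
    _ = _ := by rw [← pow_add]

lemma log_vw_le (a L R : ℕ) (hR : R ≤ (L + 2) ^ a) : Nat.log 2 (vw R) ≤ (a + 2) * su L := by
  have h1 : vw R ≤ 2 ^ ((a + 2) * su L) := by
    calc vw R ≤ (L + 2) ^ (a + 2) := vw_le a L R hR
      _ ≤ (2 ^ su L) ^ (a + 2) := Nat.pow_le_pow_left (lt_pow_su L).le _
      _ = 2 ^ ((a + 2) * su L) := by rw [← pow_mul, mul_comm]
  calc Nat.log 2 (vw R) ≤ Nat.log 2 (2 ^ ((a + 2) * su L)) := Nat.log_mono_right h1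
    _ = _ := Nat.log_pow (by norm_num) _

/-- number of variables of a block -/
lemma vM_le (a L b R : ℕ) (hR : R ≤ (L + 2) ^ a) (hb : 8 + (3 * a + 6) * su L ≤ b) :
    vM R (se a L b) ≤ 2 ^ b := by
  obtain ⟨e, he⟩ : ∃ e, e = se a L b := ⟨_, rfl⟩
  rw [← he]
  have he8 : 20 * e + 8 + (3 * a + 6) * su L ≤ b := by
    rw [he]
    unfold se
    have := Nat.div_mul_le_self (b - 8 - (3 * a + 6) * su L) 20
    omega
  have h1 : 1 ≤ (L + 2) ^ a := Nat.one_le_pow _ _ (by omega)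
  have hR3 : R + 3 ≤ (L + 2) ^ (a + 2) := by
    calc R + 3 ≤ (L + 2) ^ a * 4 := by omega
      _ ≤ (L + 2) ^ a * (L + 2) ^ 2 := by
          apply Nat.mul_le_mul_left
          have : 2 ^ 2 ≤ (L + 2) ^ 2 := Nat.pow_le_pow_left (by omega) _
          omega
      _ = _ := by rw [← pow_add]
  have hw := vw_le a L R hR
  unfold vM
  rw [vrr_eq]
  calc (R + 3) * ((vw R * 2 ^ (10 * e + 4)) * (vw R * 2 ^ (10 * e + 4)))
      = ((R + 3) * (vw R * vw R)) * (2 ^ (10 * e + 4) * 2 ^ (10 * e + 4)) := by ring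
    _ ≤ ((L + 2) ^ (a + 2) * ((L + 2) ^ (a + 2) * (L + 2) ^ (a + 2))) *
          (2 ^ (10 * e + 4) * 2 ^ (10 * e + 4)) :=
        Nat.mul_le_mul_right _ (Nat.mul_le_mul hR3 (Nat.mul_le_mul hw hw))
    _ = (L + 2) ^ (3 * a + 6) * 2 ^ (20 * e + 8) := by
        rw [← pow_add, ← pow_add, ← pow_add]
        congr 2 <;> ring
    _ ≤ (2 ^ su L) ^ (3 * a + 6) * 2 ^ (20 * e + 8) :=
        Nat.mul_le_mul_right _ (Nat.pow_le_pow_left (lt_pow_su L).le _)
    _ = 2 ^ (20 * e + 8 + (3 * a + 6) * su L) := by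
        rw [← pow_mul, ← pow_add]
        congr 1
        ring
    _ ≤ 2 ^ b := Nat.pow_le_pow_right (by norm_num) he8

/-- the gadget is large enough -/
lemma se_large (a L b S : ℕ) (hS : (S + 1) ^ 5 * (L + 2) ^ (86 * a + 280) ≤ 2 ^ (b + 1)) :
    8 + (3 * a + 6) * su L ≤ b ∧ (S + 1) * (L + 2) ^ (16 * a + 48) ≤ 2 ^ (4 * se a L b) := by
  obtain ⟨q, hq⟩ : ∃ q, q = L + 2 := ⟨_, rfl⟩
  have hq2 : 2 ≤ q := by omega
  have hsu : 2 ^ su L ≤ q ^ 2 := by rw [hq]; exact pow_su_le L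
  rw [← hq] at hS ⊢
  have hS1 : 1 ≤ (S + 1) ^ 5 := Nat.one_le_pow _ _ (by omega)
  have hpow : 2 ^ ((3 * a + 6) * su L) ≤ q ^ (6 * a + 12) := by
    calc 2 ^ ((3 * a + 6) * su L) = (2 ^ su L) ^ (3 * a + 6) := by rw [← pow_mul, mul_comm]
      _ ≤ (q ^ 2) ^ (3 * a + 6) := Nat.pow_le_pow_left hsu _
      _ = q ^ (6 * a + 12) := by rw [← pow_mul]; congr 1; ring
  have hb : 8 + (3 * a + 6) * su L ≤ b := by
    by_contra hcon
    push Not at hcon
    have h1 : 2 ^ (b + 1) ≤ 2 ^ (8 + (3 * a + 6) * su L) :=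
      Nat.pow_le_pow_right (by norm_num) (by omega)
    have h2 : 2 ^ (8 + (3 * a + 6) * su L) < q ^ (86 * a + 280) := by
      calc 2 ^ (8 + (3 * a + 6) * su L) = 2 ^ 8 * 2 ^ ((3 * a + 6) * su L) := pow_add _ _ _
        _ ≤ q ^ 8 * q ^ (6 * a + 12) := Nat.mul_le_mul (Nat.pow_le_pow_left hq2 _) hpow
        _ = q ^ (6 * a + 20) := by rw [← pow_add]; congr 1; ring
        _ < q ^ (86 * a + 280) := Nat.pow_lt_pow_right (by omega) (by omega)
    have h3 : q ^ (86 * a + 280) ≤ (S + 1) ^ 5 * q ^ (86 * a + 280) :=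
      Nat.le_mul_of_pos_left _ hS1
    omega
  refine ⟨hb, ?_⟩
  obtain ⟨e, he⟩ : ∃ e, e = se a L b := ⟨_, rfl⟩
  rw [← he]
  have he8 : b < 20 * (e + 1) + (8 + (3 * a + 6) * su L) := by
    rw [he]
    unfold se
    have := Nat.lt_mul_div_succ (b - 8 - (3 * a + 6) * su L) (by norm_num : 0 < 20)
    omega
  by_contra hcon
  push Not at hcon
  obtain ⟨c0, hc0⟩ : ∃ c0, c0 = 16 * a + 48 := ⟨_, rfl⟩
  rw [← hc0] at hcon
  have h1 : (2 ^ (4 * e)) ^ 5 < ((S + 1) * q ^ c0) ^ 5 :=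
    Nat.pow_lt_pow_left hcon (by norm_num)
  have h1' : ((S + 1) * q ^ c0) ^ 5 = (S + 1) ^ 5 * q ^ (c0 * 5) := by
    rw [mul_pow, ← pow_mul]
  have h2 : 2 ^ (b + 1) ≤ (2 ^ (4 * e)) ^ 5 * (2 ^ 28 * 2 ^ ((3 * a + 6) * su L)) := by
    rw [← pow_mul, ← pow_add, ← pow_add]
    exact Nat.pow_le_pow_right (by norm_num) (by omega)
  have h3 : 2 ^ 28 * 2 ^ ((3 * a + 6) * su L) ≤ q ^ (6 * a + 40) := by
    calc 2 ^ 28 * 2 ^ ((3 * a + 6) * su L) ≤ q ^ 28 * q ^ (6 * a + 12) :=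
          Nat.mul_le_mul (Nat.pow_le_pow_left hq2 _) hpow
      _ = q ^ (6 * a + 40) := by rw [← pow_add]; congr 1; ring
  have h4 : 2 ^ (b + 1) < 2 ^ (b + 1) := by
    calc 2 ^ (b + 1) ≤ (2 ^ (4 * e)) ^ 5 * (2 ^ 28 * 2 ^ ((3 * a + 6) * su L)) := h2
      _ ≤ (2 ^ (4 * e)) ^ 5 * q ^ (6 * a + 40) := Nat.mul_le_mul_left _ h3
      _ < ((S + 1) * q ^ c0) ^ 5 * q ^ (6 * a + 40) :=
          Nat.mul_lt_mul_of_pos_right h1 (Nat.pow_pos (by omega))
      _ = (S + 1) ^ 5 * q ^ (c0 * 5) * q ^ (6 * a + 40) := by rw [h1']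
      _ = (S + 1) ^ 5 * (q ^ (c0 * 5) * q ^ (6 * a + 40)) := mul_assoc _ _ _
      _ = (S + 1) ^ 5 * q ^ (86 * a + 280) := by
          rw [← pow_add]
          congr 2
          rw [hc0]
          ring
      _ ≤ 2 ^ (b + 1) := hS
  exact lt_irrefl _ h4

/-- the conditions of the lower bound -/
lemma big_ok (a L R S lc e : ℕ) (hR : R ≤ (L + 2) ^ a) (hlc : lc ≤ L + 2) (he : e ≤ L)
    (h : (S + 1) * (L + 2) ^ (4 * a + 12) ≤ 2 ^ (4 * e)) :
    4 * S < vr e ∧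
    20 * R * ((R * (R * lc + 2 * S + (e + 1) + 1) + 2) * (vw R + 1)) ≤ 2 ^ (4 * e) := by
  have hvw := vw_le a L R hR
  obtain ⟨q, hq⟩ : ∃ q, q = L + 2 := ⟨_, rfl⟩
  have hq2 : 2 ≤ q := by omega
  rw [← hq] at h hR hvw hlc
  have hq1 : ∀ j, 1 ≤ q ^ j := fun j => Nat.one_le_pow _ _ (by omega)
  constructor
  · have h1 : S + 1 ≤ 2 ^ (4 * e) := le_trans (Nat.le_mul_of_pos_right _ (hq1 _)) h
    have h2 : vr e = 2 ^ (4 * e) * 2 ^ e * 4 := by
      unfold vr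
      rw [show 5 * e + 2 = 4 * e + e + 2 by ring, pow_add, pow_add]
      norm_num
    rw [h2]
    have h3 : 1 ≤ 2 ^ e := Nat.one_le_two_pow
    have h4 : 2 ^ (4 * e) * 1 ≤ 2 ^ (4 * e) * 2 ^ e := Nat.mul_le_mul_left _ h3
    omega
  · refine le_trans ?_ h
    have b1 : R * lc + 2 * S + (e + 1) + 1 ≤ (S + 1) * q ^ (a + 3) := by
      have a1 : R * lc ≤ q ^ (a + 1) := by
        calc R * lc ≤ q ^ a * q := Nat.mul_le_mul hR hlc
          _ = _ := (pow_succ _ _).symm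
      have a2 : q ≤ q ^ (a + 1) := Nat.le_self_pow (by omega) _
      have a3 : q ^ (a + 3) = q ^ (a + 1) * q ^ 2 := by rw [← pow_add]
      have a4 : 4 ≤ q ^ 2 := by
        have : 2 ^ 2 ≤ q ^ 2 := Nat.pow_le_pow_left hq2 _
        omega
      calc R * lc + 2 * S + (e + 1) + 1 ≤ q ^ (a + 1) + 2 * S + q ^ (a + 1) := by omega
        _ ≤ (S + 1) * (q ^ (a + 1) * 4) := by
            have a5 : S * 1 ≤ S * q ^ (a + 1) := Nat.mul_le_mul_left _ (hq1 _)
            have a6 : (S + 1) * (q ^ (a + 1) * 4) = 4 * (S * q ^ (a + 1)) + 4 * q ^ (a + 1) := by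
              ring
            omega
        _ ≤ (S + 1) * (q ^ (a + 1) * q ^ 2) :=
            Nat.mul_le_mul_left _ (Nat.mul_le_mul_left _ a4)
        _ = _ := by rw [← a3]
    have b2 : R * (R * lc + 2 * S + (e + 1) + 1) + 2 ≤ (S + 1) * q ^ (2 * a + 4) := by
      have a1 : R * (R * lc + 2 * S + (e + 1) + 1) ≤ (S + 1) * q ^ (2 * a + 3) := by
        calc R * (R * lc + 2 * S + (e + 1) + 1) ≤ q ^ a * ((S + 1) * q ^ (a + 3)) :=
              Nat.mul_le_mul hR b1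
          _ = (S + 1) * (q ^ a * q ^ (a + 3)) := by ring
          _ = _ := by rw [← pow_add]; congr 2; ring
      have a2 : 2 ≤ (S + 1) * q ^ (2 * a + 3) := by
        calc 2 ≤ q := hq2
          _ ≤ q ^ (2 * a + 3) := Nat.le_self_pow (by omega) _
          _ ≤ _ := Nat.le_mul_of_pos_left _ (by omega)
      calc _ ≤ (S + 1) * q ^ (2 * a + 3) * 2 := by omega
        _ ≤ (S + 1) * q ^ (2 * a + 3) * q := Nat.mul_le_mul_left _ hq2
        _ = _ := by rw [mul_assoc, ← pow_succ]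
    have b3 : vw R + 1 ≤ q ^ (a + 3) := by
      calc vw R + 1 ≤ q ^ (a + 2) * 2 := by have := hq1 (a + 2); omega
        _ ≤ q ^ (a + 2) * q := Nat.mul_le_mul_left _ hq2
        _ = _ := (pow_succ _ _).symm
    have b4 : 20 * R ≤ q ^ (a + 5) := by
      calc 20 * R ≤ 32 * q ^ a := by omega
        _ = 2 ^ 5 * q ^ a := by norm_num
        _ ≤ q ^ 5 * q ^ a := Nat.mul_le_mul_right _ (Nat.pow_le_pow_left hq2 _)
        _ = q ^ (a + 5) := by rw [← pow_add]; congr 1; ring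
    calc 20 * R * ((R * (R * lc + 2 * S + (e + 1) + 1) + 2) * (vw R + 1))
        ≤ q ^ (a + 5) * (((S + 1) * q ^ (2 * a + 4)) * q ^ (a + 3)) :=
          Nat.mul_le_mul b4 (Nat.mul_le_mul b2 b3)
      _ = (S + 1) * (q ^ (a + 5) * q ^ (2 * a + 4) * q ^ (a + 3)) := by ring
      _ = (S + 1) * q ^ (4 * a + 12) := by
          rw [← pow_add, ← pow_add]
          congr 2
          ring

/-- The number of rounds is large. -/
lemma eR_large (a L D b d : ℕ) (he : (a + 2) * su L + 8 ≤ se a L b) (hel : 20 * se a L b ≤ L)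
    (hD : d ≤ D + 5 * L) (hda : d ≤ (L + 2) ^ a) :
    d ≤ 11 * (se a L b * sR a L D b) + 8 * L := by
  obtain ⟨e, hee⟩ : ∃ e, e = se a L b := ⟨_, rfl⟩
  obtain ⟨X, hX⟩ : ∃ X, X = sX a L b := ⟨_, rfl⟩
  have hX5 : X ≤ 11 * e := by
    rw [hX, hee]
    unfold sX
    omega
  have hX1 : 0 < X := by
    rw [hX]
    unfold sX
    omega
  have he1 : 1 ≤ e := by omega
  unfold sR
  rw [← hee, ← hX]
  rcases min_choice (D / X - 3) ((L + 2) ^ a) with h | h
  · rw [h]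
    have h1 : D < X * (D / X + 1) := Nat.lt_mul_div_succ D hX1
    have h2 : X * (D / X + 1) ≤ 11 * e * (D / X + 1) := Nat.mul_le_mul_right _ hX5
    have h3 : D / X + 1 ≤ (D / X - 3) + 4 := by omega
    have h4 : 11 * e * (D / X + 1) ≤ 11 * e * ((D / X - 3) + 4) := Nat.mul_le_mul_left _ h3
    have h5 : 11 * e * ((D / X - 3) + 4) = 11 * (e * (D / X - 3)) + 44 * e := by ring
    omega
  · rw [h]
    have h1 : 1 * (L + 2) ^ a ≤ e * (L + 2) ^ a := Nat.mul_le_mul_right _ he1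
    omega

lemma se_ge (a L S e : ℕ) (h : (S + 1) * (L + 2) ^ (16 * a + 48) ≤ 2 ^ (4 * e)) :
    (a + 2) * su L + 8 ≤ e := by
  obtain ⟨g, hg⟩ : ∃ g, g = Nat.log 2 (L + 2) := ⟨_, rfl⟩
  have hg1 : 1 ≤ g := by
    rw [hg]; exact Nat.le_log_of_pow_le (by norm_num) (by omega)
  have hgL : 2 ^ g ≤ L + 2 := by rw [hg]; exact Nat.pow_log_le_self 2 (by omega)
  have h1 : 2 ^ (g * (16 * a + 48)) ≤ 2 ^ (4 * e) := by
    calc 2 ^ (g * (16 * a + 48)) = (2 ^ g) ^ (16 * a + 48) := by rw [pow_mul]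
      _ ≤ (L + 2) ^ (16 * a + 48) := Nat.pow_le_pow_left hgL _
      _ ≤ (S + 1) * (L + 2) ^ (16 * a + 48) := Nat.le_mul_of_pos_left _ (by omega)
      _ ≤ 2 ^ (4 * e) := h
  have h2 : g * (16 * a + 48) ≤ 4 * e := (Nat.pow_le_pow_iff_right (by norm_num)).mp h1
  unfold su
  rw [← hg]
  have h3 : a * 1 ≤ a * g := Nat.mul_le_mul_left _ hg1
  have h4 : (a + 2) * (g + 1) + 8 = a * g + a + 2 * g + 10 := by ring
  have h5 : g * (16 * a + 48) = 16 * (a * g) + 48 * g := by ring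
  omega

/-- number of variables of a block, in general -/
lemma vM_le' (a L b R : ℕ) (hR : R ≤ (L + 2) ^ a) (hbL : b ≤ L) :
    vM R (se a L b) ≤ (L + 2) ^ (3 * a + 6) * 2 ^ (L + 8) := by
  obtain ⟨e, he⟩ : ∃ e, e = se a L b := ⟨_, rfl⟩
  rw [← he]
  have he8 : 20 * e ≤ L := by
    rw [he]
    unfold se
    have := Nat.div_mul_le_self (b - 8 - (3 * a + 6) * su L) 20
    omega
  have h1 : 1 ≤ (L + 2) ^ a := Nat.one_le_pow _ _ (by omega)
  have hR3 : R + 3 ≤ (L + 2) ^ (a + 2) := by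
    calc R + 3 ≤ (L + 2) ^ a * 4 := by omega
      _ ≤ (L + 2) ^ a * (L + 2) ^ 2 := by
          apply Nat.mul_le_mul_left
          have : 2 ^ 2 ≤ (L + 2) ^ 2 := Nat.pow_le_pow_left (by omega) _
          omega
      _ = _ := by rw [← pow_add]
  have hw := vw_le a L R hR
  unfold vM
  rw [vrr_eq]
  calc (R + 3) * ((vw R * 2 ^ (10 * e + 4)) * (vw R * 2 ^ (10 * e + 4)))
      = ((R + 3) * (vw R * vw R)) * (2 ^ (10 * e + 4) * 2 ^ (10 * e + 4)) := by ring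
    _ ≤ ((L + 2) ^ (a + 2) * ((L + 2) ^ (a + 2) * (L + 2) ^ (a + 2))) *
          (2 ^ (10 * e + 4) * 2 ^ (10 * e + 4)) :=
        Nat.mul_le_mul_right _ (Nat.mul_le_mul hR3 (Nat.mul_le_mul hw hw))
    _ = (L + 2) ^ (3 * a + 6) * 2 ^ (20 * e + 8) := by
        rw [← pow_add, ← pow_add, ← pow_add]
        congr 2 <;> ring
    _ ≤ (L + 2) ^ (3 * a + 6) * 2 ^ (L + 8) :=
        Nat.mul_le_mul_left _ (Nat.pow_le_pow_right (by norm_num) (by omega))

/-- The depth of the circuits. -/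
lemma depth_ok (a L D b : ℕ) (hD : 3 * sX a L b ≤ D) :
    1 + (sR a L D b + 3) * (10 * se a L b + Nat.log 2 (vw (sR a L D b)) + 8) ≤ 1 + D := by
  have hlog := log_vw_le a L (sR a L D b) (sR_le a L D b)
  have hX1 : 0 < sX a L b := by
    unfold sX
    omega
  have h1 : sR a L D b + 3 ≤ D / sX a L b := by
    have h2 : 3 ≤ D / sX a L b := (Nat.le_div_iff_mul_le hX1).mpr (by omega)
    have h3 : sR a L D b ≤ D / sX a L b - 3 := min_le_left _ _
    omega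
  apply Nat.add_le_add_left
  calc (sR a L D b + 3) * (10 * se a L b + Nat.log 2 (vw (sR a L D b)) + 8)
      ≤ D / sX a L b * sX a L b := by
        apply Nat.mul_le_mul h1
        unfold sX
        omega
    _ ≤ D := Nat.div_mul_le_self _ _

end Pool.Agent.Results.MP_2af48a_lc.FewNegations
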