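import Pool.Agent.Lib_MP_2af48a_lc.SwitchUni
import Pool.Agent.Lib_MP_2af48a_lc.SharpParam

open Finset Filter

namespace Pool.Agent.Results.MP_2af48a_lc.FewNegations

/-! ## A function of small depth which has no narrow circuits of small size -/

/-- the block functions -/
def hardS (a : ℕ) (d : ℕ → ℕ) (n i : ℕ) : (Fin (2 ^ i) → Bool) → Bool :=
  hardV (sR a (Nat.log 2 n) (d n - (4 * Nat.log 2 n + 11)) i) (se a (Nat.log 2 n) i) (2 ^ i)

/-- the function -/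
def fS (a : ℕ) (d : ℕ → ℕ) (n : ℕ) (x : Fin n → Bool) : Bool := fG n (hardS a d n) x

lemma hardS_zero (a : ℕ) (d : ℕ → ℕ) (n i : ℕ) : hardS a d n i (fun _ => false) = false :=
  hardV_zero _ _ _

/-- conditions satisfied by all large `n` -/
def Big (a : ℕ) (d : ℕ → ℕ) (n : ℕ) : Prop :=
  64 ≤ n ∧ 300 * Nat.log 2 n ≤ d n ∧ d n ≤ (Nat.log 2 n) ^ a ∧
    (a + 2) * su (Nat.log 2 n) + 8 ≤ Nat.log 2 n

/-- a bound for the size of the circuits -/
lemma size_bound (n N A B j : ℕ) (hN : N = n + 2) (hA : A ≤ N ^ j) (hB : B ≤ N ^ 9) :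
    2 * (n + 1) * (16 * (n + 1) ^ 3 + 2 * (n + 1) * (8 * (A * B) + 2) + 3) ≤ N ^ (j + 30) := by
  have hN2 : 2 ≤ N := by omega
  have hj1 : 1 ≤ N ^ j := Nat.one_le_pow _ _ (by omega)
  have s2 : 2 * (n + 1) ≤ N ^ 2 := by rw [hN]; nlinarith
  have s1 : 8 * (A * B) + 2 ≤ N ^ (j + 13) := by
    have t1 : A * B ≤ N ^ (j + 9) := by
      rw [pow_add]; exact Nat.mul_le_mul hA hB
    have t2 : 1 ≤ N ^ (j + 9) := Nat.one_le_pow _ _ (by omega)
    have t3 : 2 ^ 4 ≤ N ^ 4 := Nat.pow_le_pow_left hN2 _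
    have t4 : N ^ (j + 13) = N ^ (j + 9) * N ^ 4 := by rw [← pow_add]
    have t5 : N ^ (j + 9) * 16 ≤ N ^ (j + 9) * N ^ 4 := Nat.mul_le_mul_left _ (by omega)
    omega
  have s3 : 16 * (n + 1) ^ 3 + 3 ≤ N ^ (j + 15) := by
    have t1 : (n + 1) ^ 3 ≤ N ^ 3 := Nat.pow_le_pow_left (by omega) _
    have t2 : 1 ≤ N ^ 3 := Nat.one_le_pow _ _ (by omega)
    have t3 : 2 ^ 5 ≤ N ^ 5 := Nat.pow_le_pow_left hN2 _
    have t4 : N ^ 8 = N ^ 3 * N ^ 5 := by rw [← pow_add]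
    have t5 : N ^ 3 * 32 ≤ N ^ 3 * N ^ 5 := Nat.mul_le_mul_left _ (by omega)
    have t6 : N ^ 8 ≤ N ^ (j + 15) := Nat.pow_le_pow_right (by omega) (by omega)
    omega
  have s4 : 2 * (n + 1) * (8 * (A * B) + 2) ≤ N ^ (j + 15) := by
    have t1 : N ^ 2 * N ^ (j + 13) = N ^ (j + 15) := by rw [← pow_add]; congr 1; ring
    rw [← t1]
    exact Nat.mul_le_mul s2 s1
  have s5 : 16 * (n + 1) ^ 3 + 2 * (n + 1) * (8 * (A * B) + 2) + 3 ≤ N ^ (j + 15) * 2 := by omega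
  have s6 : N ^ (j + 15) * 2 ≤ N ^ (j + 16) := by
    rw [pow_succ]
    exact Nat.mul_le_mul_left _ hN2
  have s7 : N ^ 2 * N ^ (j + 16) = N ^ (j + 18) := by rw [← pow_add]; congr 1; ring
  have s8 : N ^ (j + 18) ≤ N ^ (j + 30) := Nat.pow_le_pow_right (by omega) (by omega)
  refine le_trans (Nat.mul_le_mul s2 (le_trans s5 s6)) ?_
  rw [s7]
  exact s8

theorem fS_circuit (a : ℕ) (d : ℕ → ℕ) (n : ℕ) : ∃ E : Circuit n, Pos E ∧
    E.size ≤ (n + 2) ^ (3 * a + 36) ∧ (Big a d n → E.depth ≤ d n) ∧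
    ∀ x, E.eval x = fS a d n x := by
  rcases Nat.eq_zero_or_pos n with h0 | hn0
  · subst h0
    obtain ⟨E, e1, e2, e3, e4⟩ := exists_orC (n := 0) 0 0 0 [] (by simp) (by simp)
    refine ⟨E, e1, ?_, ?_, fun x => ?_⟩
    · have : 1 ≤ (0 + 2) ^ (3 * a + 36) := Nat.one_le_pow _ _ (by norm_num)
      simp only [pow_zero, one_mul, zero_add] at e2
      omega
    · rintro ⟨h, -⟩
      omega
    · rw [e4]
      symm
      simp only [List.any_nil]
      unfold fS fG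
      rw [decide_eq_false_iff_not]
      rintro ⟨i, hi, h, -⟩
      simp [ext] at h
  obtain ⟨L, hL⟩ : ∃ L, L = Nat.log 2 n := ⟨_, rfl⟩
  obtain ⟨D, hD⟩ : ∃ D, D = d n - (4 * L + 11) := ⟨_, rfl⟩
  have hLn : 2 ^ L ≤ n := by rw [hL]; exact Nat.pow_log_le_self 2 (by omega)
  have hLn' : L ≤ n := by rw [hL]; exact Nat.log_le_self 2 n
  have hLL : LL n = L + 1 := by unfold LL; rw [← hL]
  obtain ⟨A, hA⟩ : ∃ A, A = (L + 2) ^ (3 * a + 6) := ⟨_, rfl⟩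
  obtain ⟨B, hB⟩ : ∃ B, B = 2 ^ (L + 8) := ⟨_, rfl⟩
  obtain ⟨dd, hdd, hdd2⟩ : ∃ dd, (∀ i < LL n, 1 + (sR a L D i + 3) *
      (10 * se a L i + Nat.log 2 (vw (sR a L D i)) + 8) ≤ dd) ∧
      (Big a d n → dd ≤ 1 + D) := by
    refine ⟨(Finset.range (LL n)).sup (fun i => 1 + (sR a L D i + 3) *
      (10 * se a L i + Nat.log 2 (vw (sR a L D i)) + 8)), fun i hi =>
      Finset.le_sup (f := fun i => 1 + (sR a L D i + 3) *
          (10 * se a L i + Nat.log 2 (vw (sR a L D i)) + 8)) (Finset.mem_range.mpr hi), ?_⟩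
    rintro ⟨b1, b2, b3, b4⟩
    rw [← hL] at b2 b3 b4
    apply Finset.sup_le
    intro i hi
    rw [Finset.mem_range, hLL] at hi
    apply depth_ok
    have h3 : 20 * se a L i ≤ L := by
      unfold se
      have := Nat.div_mul_le_self (i - 8 - (3 * a + 6) * su L) 20
      omega
    unfold sX
    omega
  obtain ⟨E, e1, e2, e3, e4⟩ := fG_upper n (8 * (A * B)) dd hn0 (hardS a d n) (by
      intro i hi
      obtain ⟨C, c1, c2, c3, c4⟩ := hardV_circuit (sR a L D i) (se a L i) (2 ^ i)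
      refine ⟨C, c1, ?_, ?_, ?_⟩
      · refine le_trans c2 (Nat.mul_le_mul_left _ ?_)
        rw [hA, hB]
        apply vM_le' a L i _ (sR_le _ _ _ _)
        omega
      · exact le_trans c3 (hdd i hi)
      · intro x
        rw [c4]
        unfold hardS
        rw [← hL, ← hD])
  refine ⟨E, e1, ?_, ?_, e4⟩
  · refine le_trans e2 ?_
    have h1 : A ≤ (n + 2) ^ (3 * a + 6) := by
      rw [hA]
      exact Nat.pow_le_pow_left (by omega) _
    have h2 : B ≤ (n + 2) ^ 9 := by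
      rw [hB, pow_add]
      have t1 : 2 ^ 8 ≤ (n + 2) ^ 8 := Nat.pow_le_pow_left (by omega) _
      calc 2 ^ L * 2 ^ 8 ≤ (n + 2) * (n + 2) ^ 8 := Nat.mul_le_mul (by omega) t1
        _ = (n + 2) ^ 9 := (pow_succ' _ _).symm
    exact size_bound n (n + 2) A B (3 * a + 6) rfl h1 h2
  · intro hb
    have h1 := hdd2 hb
    obtain ⟨b1, b2, b3, b4⟩ := hb
    rw [← hL] at e3 b2
    omega

/-- **Lower bound.** -/
theorem fS_lower (a : ℕ) (d : ℕ → ℕ) (n : ℕ) (hB : Big a d n) (C : Layered n)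
    (hC : ∀ x, C.eval x = fS a d n x) (P : Finset (Fin n))
    (hP : (C.maxWidth + 1) ^ 5 * 2 ^ C.negationsAbove P * Nat.log 2 n ^ (180 * a + 600) ≤ P.card) :
    2 ^ (d n / 12) < C.size := by
  obtain ⟨b1, b2, b3, b4⟩ := hB
  obtain ⟨t, ht⟩ : ∃ t, C.negationsAbove P = t := ⟨_, rfl⟩
  obtain ⟨W, hW⟩ : ∃ W, C.maxWidth = W := ⟨_, rfl⟩
  rw [ht, hW] at hP
  have hPn : P.card ≤ n := by
    have := P.card_le_univ
    rwa [Fintype.card_fin] at this
  obtain ⟨L, hL⟩ : ∃ L, L = Nat.log 2 n := ⟨_, rfl⟩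
  rw [← hL] at hP b2 b3 b4
  have hsu := two_le_su L
  have hL12 : 12 ≤ L := by
    have h1 : 2 * 2 ≤ (a + 2) * su L := Nat.mul_le_mul (by omega) hsu
    omega
  have hL4 : 4 ≤ L := by omega
  have hn' : n < 2 ^ (L + 1) := by rw [hL]; exact Nat.lt_pow_succ_log_self (by norm_num) n
  have hLLn : LL n = L + 1 := by unfold LL; rw [← hL]
  obtain ⟨c0, hc0⟩ : ∃ c0, c0 = 86 * a + 280 := ⟨_, rfl⟩
  obtain ⟨q, hq⟩ : ∃ q, q = L + 2 := ⟨_, rfl⟩
  have hq1 : ∀ j, 1 ≤ q ^ j := fun j => Nat.one_le_pow _ _ (by omega)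
  have hqL : q ≤ L ^ 2 := by rw [hq]; nlinarith
  obtain ⟨w5, hw5⟩ : ∃ w5, w5 = (W + 1) ^ 5 := ⟨_, rfl⟩
  have hw51 : W + 1 ≤ w5 := by rw [hw5]; exact Nat.le_self_pow (by norm_num) _
  obtain ⟨T, hT⟩ : ∃ T, T = 2 ^ t := ⟨_, rfl⟩
  have hT1 : 1 ≤ T := by rw [hT]; exact Nat.one_le_two_pow
  rw [← hw5, ← hT] at hP
  obtain ⟨Y, hY⟩ : ∃ Y, Y = w5 * T * q ^ (c0 + 2) := ⟨_, rfl⟩
  -- the total bound
  have hbig : 2 ^ 14 * Y ≤ P.card := by
    refine le_trans ?_ hP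
    have h1 : q ^ (c0 + 2) ≤ L ^ (2 * (c0 + 2)) := by
      rw [pow_mul]; exact Nat.pow_le_pow_left hqL _
    have h2 : 2 ^ 14 ≤ L ^ 7 := by
      calc 2 ^ 14 = 4 ^ 7 := by norm_num
        _ ≤ L ^ 7 := Nat.pow_le_pow_left hL4 _
    have h3 : 2 ^ 14 * q ^ (c0 + 2) ≤ L ^ (180 * a + 600) := by
      refine le_trans (Nat.mul_le_mul h2 h1) ?_
      rw [← pow_add]
      exact Nat.pow_le_pow_right (by omega) (by omega)
    calc 2 ^ 14 * Y = w5 * T * (2 ^ 14 * q ^ (c0 + 2)) := by rw [hY]; ring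
      _ ≤ _ := Nat.mul_le_mul_left _ h3
  have hTY : T ≤ Y := by
    calc T = 1 * T * 1 := by ring
      _ ≤ w5 * T * q ^ (c0 + 2) := Nat.mul_le_mul (Nat.mul_le_mul_right _ (by omega)) (hq1 _)
      _ = Y := hY.symm
  have htL : t ≤ L := by
    rw [hL]; exact Nat.le_log_of_pow_le (by norm_num) (by rw [← hT]; omega)
  -- the block size
  obtain ⟨Z, hZ⟩ : ∃ Z, Z = (2 * W + 4) ^ 5 * q ^ c0 := ⟨_, rfl⟩
  have hZ1 : 1 ≤ Z := by
    rw [hZ]; exact Nat.mul_pos (Nat.pow_pos (by omega)) (hq1 _)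
  have hZle : Z ≤ 2 ^ 10 * w5 * q ^ c0 := by
    rw [hZ, hw5]
    apply Nat.mul_le_mul_right
    calc (2 * W + 4) ^ 5 ≤ (4 * (W + 1)) ^ 5 := Nat.pow_le_pow_left (by omega) _
      _ = 2 ^ 10 * (W + 1) ^ 5 := by rw [mul_pow]; norm_num
  obtain ⟨i, hi⟩ : ∃ i, i = Nat.log 2 Z := ⟨_, rfl⟩
  have hi1 : Z ≤ 2 ^ (i + 1) := by
    rw [hi]; exact (Nat.lt_pow_succ_log_self (by norm_num) Z).le
  have hi2 : 2 ^ i ≤ Z := by
    rw [hi]; exact Nat.pow_log_le_self 2 (by omega : Z ≠ 0)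
  obtain ⟨K', hK'⟩ : ∃ K', 2 ^ t * (t + 1) + 1 = K' := ⟨_, rfl⟩
  have hK'le : K' ≤ T * q := by
    rw [← hK', ← hT]
    have h2 : T * (t + 1) ≤ T * (L + 1) := Nat.mul_le_mul_left _ (by omega)
    have h3 : T * q = T * (L + 1) + T := by rw [hq]; ring
    omega
  have hLL2 : 2 * LL n + 1 ≤ 2 * q := by rw [hLLn, hq]; omega
  have hmul : K' * 2 ^ i * (2 * LL n + 1) ≤ 2 ^ 11 * Y := by
    calc K' * 2 ^ i * (2 * LL n + 1) ≤ (T * q) * (2 ^ 10 * w5 * q ^ c0) * (2 * q) := by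
          apply Nat.mul_le_mul _ hLL2
          exact Nat.mul_le_mul hK'le (le_trans hi2 hZle)
      _ = 2 ^ 11 * (w5 * T * (q ^ c0 * q ^ 2)) := by ring
      _ = _ := by rw [← pow_add, hY]
  have hqle : w5 * T * q ≤ Y := by
    rw [hY]
    exact Nat.mul_le_mul_left _ (Nat.le_self_pow (by omega) _)
  have hqY : LL n ≤ Y := by
    refine le_trans ?_ hqle
    calc LL n ≤ 1 * 1 * q := by rw [hLLn, hq]; omega
      _ ≤ w5 * T * q := Nat.mul_le_mul_right _ (Nat.mul_le_mul (by omega) hT1)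
  have hPP : 2 * (K' * 2 ^ i * (2 * LL n + 1)) + LL n ≤ P.card := by omega
  have hin : 2 ^ i ≤ n := by
    have hK'pos : 1 ≤ K' := by omega
    have h1 : 1 * 2 ^ i * 1 ≤ K' * 2 ^ i * (2 * LL n + 1) :=
      Nat.mul_le_mul (Nat.mul_le_mul_right _ hK'pos) (by omega)
    omega
  have hiL : i ≤ L := by
    rw [hL]; exact Nat.le_log_of_pow_le (by norm_num) hin
  obtain ⟨D, hD1, hD2, hD3⟩ := fG_lower n (by omega) (hardS a d n) C hC P i t ht.le
    (hardS_zero a d n i) (by rw [hK']; exact hPP)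
  rw [hW] at hD2 hD3
  -- the lower bound for one block
  obtain ⟨Dd, hDd⟩ : ∃ Dd, Dd = d n - (4 * L + 11) := ⟨_, rfl⟩
  obtain ⟨e, he⟩ : ∃ e, e = se a L i := ⟨_, rfl⟩
  obtain ⟨R, hR⟩ : ∃ R, R = sR a L Dd i := ⟨_, rfl⟩
  have hRle : R ≤ (L + 2) ^ a := by rw [hR]; exact sR_le _ _ _ _
  have hlarge := se_large a L i (2 * W + 3) (by
    rw [← hc0, ← hq]
    exact le_trans hZ.symm.le hi1)
  rw [← he] at hlarge
  have he8 : 20 * e ≤ L := by
    rw [he]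
    unfold se
    have := Nat.div_mul_le_self (i - 8 - (3 * a + 6) * su L) 20
    omega
  have hok := big_ok a L R (2 * W + 3) i e hRle (by omega) (by omega)
    (le_trans (Nat.mul_le_mul_left _ (Nat.pow_le_pow_right (by omega) (by omega))) hlarge.2)
  have hvm : vM R e ≤ 2 ^ i := by
    rw [he]
    exact vM_le a L i R hRle hlarge.1
  have h5 := hardV_lower R e (2 ^ i) (2 * W + 3) i hvm le_rfl hok.1 hok.2 D (by
    intro x
    rw [hD1]
    unfold hardS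
    rw [← hL, ← hDd, ← he, ← hR]) hD2
  have h6 : d n ≤ 11 * (e * R) + 8 * L := by
    have := eR_large a L Dd i (d n) (by rw [← he]; exact se_ge a L (2 * W + 3) e hlarge.2)
      (by rw [← he]; exact he8) (by omega)
      (le_trans b3 (Nat.pow_le_pow_left (by omega) _))
    rw [← he, ← hR] at this
    exact this
  by_contra hcon
  push Not at hcon
  obtain ⟨G, hG⟩ : ∃ G, G = 2 ^ (d n / 12) := ⟨_, rfl⟩
  have hG1 : 1 ≤ G := by rw [hG]; exact Nat.one_le_two_pow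
  rw [← hG] at hcon
  have h7 : D.size ≤ 2 ^ 14 * Y * G := by
    obtain ⟨k1, hk1⟩ : ∃ k1, k1 = 2 ^ t * (t + 1) := ⟨_, rfl⟩
    rw [← hk1] at hD3 hK'
    calc D.size ≤ (k1 * (3 * C.size + 1) + 1) * (2 * W + 3) := hD3
      _ ≤ (k1 * (4 * G) + 4 * G) * (4 * (W + 1)) := by
          apply Nat.mul_le_mul _ (by omega)
          exact Nat.add_le_add (Nat.mul_le_mul_left _ (by omega)) (by omega)
      _ = 16 * (K' * (W + 1) * G) := by rw [← hK']; ring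
      _ ≤ 16 * (T * q * w5 * G) := by
          apply Nat.mul_le_mul_left
          exact Nat.mul_le_mul_right _ (Nat.mul_le_mul hK'le hw51)
      _ = 16 * (w5 * T * q) * G := by ring
      _ ≤ 2 ^ 14 * Y * G := by
          apply Nat.mul_le_mul_right
          exact Nat.mul_le_mul (by norm_num) hqle
  have h8 : 2 ^ (e * R) < 2 ^ (L + 1 + d n / 12) := by
    refine lt_of_lt_of_le h5 (le_trans h7 ?_)
    rw [pow_add, ← hG]
    apply Nat.mul_le_mul_right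
    omega
  have h9 : e * R < L + 1 + d n / 12 := (Nat.pow_lt_pow_iff_right (by norm_num)).mp h8
  omega

end Pool.Agent.Results.MP_2af48a_lc.FewNegations
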