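import Mathlib

namespace Pool.Agent.Results.MP_2af48a_lc.StConnFewNeg

/-- `x` encodes the digraph on the vertices `0, ..., N - 1`, where `N = ⌊√n⌋`, in which there is an
arc from `u` to `v` when the bit of `x` in position `u * N + v` is `1`. -/
def Arc (n : ℕ) (x : Fin n → Bool) (u v : ℕ) : Prop :=
  u < Nat.sqrt n ∧ v < Nat.sqrt n ∧ ∃ h : u * Nat.sqrt n + v < n, x ⟨u * Nat.sqrt n + v, h⟩ = true

open Classical in
/-- Directed st-connectivity: is there a directed path from the vertex `0` to the vertex `N - 1`? -/
noncomputable def stconn (n : ℕ) (x : Fin n → Bool) : Bool :=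
  decide (Relation.ReflTransGen (Arc n x) 0 (Nat.sqrt n - 1))

/-- The digraph encoded by `x` is symmetric, that is, an undirected graph. -/
def Symm (n : ℕ) (x : Fin n → Bool) : Prop := ∀ u v, Arc n x u v → Arc n x v u

end Pool.Agent.Results.MP_2af48a_lc.StConnFewNeg
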