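import Pool.Agent.Lib_MP_2af48a_lc.WidthUni

open Finset Filter

namespace Pool.Agent.Results.MP_2af48a_lc.FewNegations

/-! ## The switch between block sizes for an arbitrary family of functions -/

/-- copies of `F i` on selected variables -/
def partG (n : ℕ) (F : (i : ℕ) → (Fin (2 ^ i) → Bool) → Bool) (i : ℕ) (x : Fin n → Bool) : Bool :=
  selF n (nW n i * 2 ^ i) (copyF (nW n i) (2 ^ i) (F i)) (shiftF n x)

/-- the variable `i` switches on the copies of `F i` -/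
def fG (n : ℕ) (F : (i : ℕ) → (Fin (2 ^ i) → Bool) → Bool) (x : Fin n → Bool) : Bool :=
  decide (∃ i < LL n, ext x i = true ∧ partG n F i x = true)

/-- **Upper bound.** -/
theorem fG_upper (n s d : ℕ) (hn0 : 0 < n) (F : (i : ℕ) → (Fin (2 ^ i) → Bool) → Bool)
    (hF : ∀ i < LL n, ∃ D : Circuit (2 ^ i), Pos D ∧ D.size ≤ s ∧ D.depth ≤ d ∧
      ∀ x, D.eval x = F i x) :
    ∃ E : Circuit n, Pos E ∧
      E.size ≤ 2 * (n + 1) * (16 * (n + 1) ^ 3 + 2 * (n + 1) * (s + 2) + 3) ∧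
      E.depth ≤ d + 4 * Nat.log 2 n + 10 ∧ ∀ x, E.eval x = fG n F x := by
  have part : ∀ i < LL n, ∃ E : Circuit n, Pos E ∧
      E.size ≤ 16 * (n + 1) ^ 3 + 2 * (n + 1) * (s + 2) + 1 ∧
      E.depth ≤ d + (3 * Nat.log 2 n + 8) ∧
      ∀ x, E.eval x = (ext x i && partG n F i x) := by
    intro i hi
    obtain ⟨D, d1, d2, d3, d4⟩ := hF i hi
    have hK : nW n i ≤ n := Nat.div_le_self _ _
    obtain ⟨E1, e1, e2, e3, e4⟩ := copyF_circ n (nW n i) (2 ^ i) hK (F i) D d1 d4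
    obtain ⟨E, g1, g2, g3, g4⟩ := selF_circuit n (nW n i * 2 ^ i) (nW_mul n i) E1 e2
    let σ : Fin n → Bool ⊕ Fin n := fun p => if h : p.val + LL n < n then
      Sum.inr ⟨p.val + LL n, h⟩ else Sum.inl false
    have hσ : ∀ x : Fin n → Bool, (fun p => Sum.elim (fun b => b) x (σ p)) = shiftF n x := by
      intro x
      funext p
      by_cases h : p.val + LL n < n
      · simp [σ, shiftF, ext, h]
      · simp [σ, shiftF, ext, h]
    refine ⟨andC (subC σ E) i, andC_pos _ _ (subC_pos _ _ g1), ?_, ?_, fun x => ?_⟩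
    · change E.size + 1 ≤ _
      have h1 := two_pow_log_le n
      have h3 : E1.size ≤ 2 * (n + 1) * (D.size + 2) := by
        calc E1.size ≤ 2 ^ (Nat.log 2 n + 1) * (D.size + 2) := by omega
          _ ≤ _ := Nat.mul_le_mul_right _ h1
      have h4 : 2 * (n + 1) * (D.size + 2) ≤ 2 * (n + 1) * (s + 2) :=
        Nat.mul_le_mul_left _ (by omega)
      omega
    · have h1 := andC_depth (subC σ E) i
      have h2 := subC_depth σ E
      omega
    · rw [andC_eval, subC_eval, hσ, g4]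
      unfold partG selF
      rw [e1]
  haveI : Nonempty (Circuit n) := ⟨⟨1, fun _ => .or (.const false) (.const false), 0⟩⟩
  choose! A hA1 hA2 hA3 hA4 using part
  obtain ⟨E, e1, e2, e3, e4⟩ := exists_orC
    (16 * (n + 1) ^ 3 + 2 * (n + 1) * (s + 2) + 1)
    (d + (3 * Nat.log 2 n + 8)) (Nat.log 2 n + 1)
    ((List.range (LL n)).map A) (by
      rw [List.length_map, List.length_range]
      exact (Nat.lt_two_pow_self).le) (by
      intro D hD
      rw [List.mem_map] at hD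
      obtain ⟨i, hi, rfl⟩ := hD
      rw [List.mem_range] at hi
      exact ⟨hA1 i hi, hA2 i hi, hA3 i hi⟩)
  refine ⟨E, e1, ?_, by omega, fun x => ?_⟩
  · have h1 := two_pow_log_le n
    calc E.size ≤ 2 ^ (Nat.log 2 n + 1) * (16 * (n + 1) ^ 3 + 2 * (n + 1) * (s + 2) + 1 + 2) := by
          omega
      _ ≤ 2 * (n + 1) * (16 * (n + 1) ^ 3 + 2 * (n + 1) * (s + 2) + 1 + 2) :=
          Nat.mul_le_mul_right _ h1
  · rw [e4]
    apply Bool.eq_iff_iff.mpr
    unfold fG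
    rw [decide_eq_true_eq, List.any_eq_true]
    constructor
    · rintro ⟨D, hD, hv⟩
      rw [List.mem_map] at hD
      obtain ⟨i, hi, rfl⟩ := hD
      rw [List.mem_range] at hi
      rw [hA4 i hi, Bool.and_eq_true] at hv
      exact ⟨i, hi, hv.1, hv.2⟩
    · rintro ⟨i, hi, hv1, hv2⟩
      refine ⟨A i, List.mem_map.mpr ⟨i, List.mem_range.mpr hi, rfl⟩, ?_⟩
      rw [hA4 i hi, Bool.and_eq_true]
      exact ⟨hv1, hv2⟩

/-- After the substitution only the first copies of `F i` remain. -/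
lemma fG_fill {n K' i a : ℕ} (F : (i : ℕ) → (Fin (2 ^ i) → Bool) → Bool)
    (hF0 : F i (fun _ => false) = false) (hi : i < LL n) (hn : LL n ≤ n) (hKK : K' ≤ nW n i)
    (P : Finset (Fin n)) (e : ℕ → ℕ)
    (he : ∀ j < K' * 2 ^ i, 2 * (K' * 2 ^ i * LL n) ≤ e j ∧ e j < n)
    (hinj : ∀ j < K' * 2 ^ i, ∀ j' < K' * 2 ^ i, e j = e j' → j = j') (ha : a < LL n)
    (hmem : ∀ j < K' * 2 ^ i, ∀ p : Fin n, e j = p.val → p ∈ shP P)
    (hea : ∀ j < K' * 2 ^ i, e j / 2 % LL n ≠ a)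
    (hm : 2 * (K' * 2 ^ i * LL n) + LL n ≤ n) (z : Fin (K' * 2 ^ i) → Bool) :
    fG n F (fill (swS n (K' * 2 ^ i) i e) z) = copyF K' (2 ^ i) (F i) z := by
  have key : partG n F i (fill (swS n (K' * 2 ^ i) i e) z) = copyF K' (2 ^ i) (F i) z := by
    unfold partG
    rw [swS_shift e P hmem hm z]
    exact selF_fill hKK (F i) hF0 e he hinj a ha hea z
  apply Bool.eq_iff_iff.mpr
  rw [← key]
  unfold fG
  rw [decide_eq_true_eq]
  constructor
  · rintro ⟨j, hj, h1, h2⟩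
    rw [swS_switch hi hn e z j hj, decide_eq_true_eq] at h1
    subst h1
    exact h2
  · intro h
    refine ⟨i, hi, ?_, h⟩
    rw [swS_switch hi hn e z i hi]
    simp

/-- **Lower bound for layered circuits.** -/
theorem fG_lower (n : ℕ) (hn4 : 4 ≤ n) (F : (i : ℕ) → (Fin (2 ^ i) → Bool) → Bool) (C : Layered n)
    (hC : ∀ x, C.eval x = fG n F x) (P : Finset (Fin n)) (i t : ℕ)
    (ht : C.negationsAbove P ≤ t) (hF0 : F i (fun _ => false) = false)
    (hP : 2 * ((2 ^ t * (t + 1) + 1) * 2 ^ i * (2 * LL n + 1)) + LL n ≤ P.card) :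
    ∃ D : StConnectivity.MonLayered (2 ^ i), (∀ x, D.eval x = F i x) ∧
      D.maxWidth ≤ 2 * C.maxWidth + 3 ∧
      D.size ≤ (2 ^ t * (t + 1) * (3 * C.size + 1) + 1) * (2 * C.maxWidth + 3) := by
  have hPn : P.card ≤ n := by
    have := P.card_le_univ
    rwa [Fintype.card_fin] at this
  obtain ⟨K', hK'⟩ : ∃ K', 2 ^ t * (t + 1) + 1 = K' := ⟨_, rfl⟩
  rw [hK'] at hP
  have hLL2 : 2 ≤ LL n := by
    unfold LL
    have : 2 ≤ Nat.log 2 n := Nat.le_log_of_pow_le (by norm_num) (by simpa using hn4)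
    omega
  have hLLn : LL n = Nat.log 2 n + 1 := rfl
  have hlog : Nat.log 2 n < n := Nat.log_lt_self 2 (by omega)
  have hQcard := card_shP P
  have hQ : 2 * (K' * 2 ^ i * (2 * LL n + 1)) ≤ (shP P).card := by omega
  have hsum : 2 * (K' * 2 ^ i * (2 * LL n + 1)) + LL n ≤ n := by omega
  have hK'pos : 1 ≤ K' := by omega
  have hin : 2 ^ i ≤ n := by
    have h1 : 1 * 2 ^ i * 1 ≤ K' * 2 ^ i * (2 * LL n + 1) :=
      Nat.mul_le_mul (Nat.mul_le_mul_right _ hK'pos) (by omega)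
    omega
  have hiL : i < LL n := by
    rw [hLLn]
    have := Nat.le_log_of_pow_le (by norm_num) hin
    omega
  have hKK : K' ≤ nW n i := by
    unfold nW
    have hpos : 0 < 2 * LL n + 1 := by omega
    rw [Nat.le_div_iff_mul_le (Nat.mul_pos (Nat.pow_pos (by norm_num)) hpos), ← mul_assoc]
    omega
  have hm2 : 2 * (K' * 2 ^ i * LL n) + LL n ≤ n := by
    have h1 : K' * 2 ^ i * LL n ≤ K' * 2 ^ i * (2 * LL n + 1) := Nat.mul_le_mul_left _ (by omega)
    omega
  obtain ⟨a, ha, e, he, hinj, hmem, hea⟩ := exists_sel_uni n (K' * 2 ^ i) hLL2 (shP P) hQ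
  obtain ⟨C', c1, c2, c3, c4⟩ := layered_restrict C P (swS n (K' * 2 ^ i) i e)
    (fun p k h => swS_mem e P hmem p k h)
  have hneg : C'.negations ≤ t := le_trans c4 ht
  have hB1 : 2 ^ C'.negations * (C'.negations + 1) ≤ 2 ^ t * (t + 1) :=
    Nat.mul_le_mul (Nat.pow_le_pow_right (by norm_num) hneg) (Nat.add_le_add_right hneg 1)
  have hB : 2 ^ C'.negations * (C'.negations + 1) < K' := by omega
  obtain ⟨D, hD1, hD2, hD3, hD4⟩ := layered_copies C' K' hB
    (F i) hF0 (blk (2 ^ i)) (fun j hj y hy z => by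
      rw [c1, hC, fG_fill F hF0 hiL (by omega) hKK P e he hinj ha hmem hea hm2]
      exact copies_spec' (F i) K' (K' * 2 ^ i) (le_refl _) hF0 j hj y hy z)
  obtain ⟨D', hD'1, hD'2, hD'3⟩ := layered_to_mon (m := 2 ^ i) (r := 0) D hD2.le
    (F i) (fun X => by
      rw [hD1]; rfl)
  refine ⟨D', hD'1, ?_, ?_⟩
  · rw [hD'3, ← c3]
    exact hD3
  · rw [hD'2]
    refine le_trans hD4 ?_
    rw [c2, c3]
    apply Nat.mul_le_mul_right
    apply Nat.add_le_add_right
    exact Nat.mul_le_mul_right _ hB1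

end Pool.Agent.Results.MP_2af48a_lc.FewNegations
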