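import Pool.Agent.Lib_MP_2af48a_lc.TradeUni

open Finset Filter

namespace Pool.Agent.Results.MP_2af48a_lc.FewNegations

lemma sq_le_two_powT {g : ℕ} (hg : 4 ≤ g) : g ^ 2 ≤ 2 ^ g := by
  induction g, hg using Nat.le_induction with
  | base => norm_num
  | succ g hg ih =>
    rw [pow_succ 2 g]
    nlinarith

/-- The parameter `xu` is small. -/
lemma xu_small (a L : ℕ) (hL : 2 ^ (a + 14) ≤ L) : (a + 2) * xu L + 8 ≤ L := by
  obtain ⟨g, hg⟩ : ∃ g, g = Nat.log 2 (L + 2) := ⟨_, rfl⟩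
  have hga : a + 14 ≤ g := by
    rw [hg]; exact Nat.le_log_of_pow_le (by norm_num) (by omega)
  have hgL : 2 ^ g ≤ L + 2 := by rw [hg]; exact Nat.pow_log_le_self 2 (by omega)
  have h1 := sq_le_two_powT (by omega : 4 ≤ g)
  have h2 : (a + 14) * g ≤ g ^ 2 := by rw [sq]; exact Nat.mul_le_mul_right _ hga
  unfold xu
  rw [← hg]
  have h3 : (a + 14) * g = a * g + 14 * g := by ring
  have h4 : (a + 2) * (g + 1) = a * g + a + 2 * g + 2 := by ring
  omega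

/-- The conditions are satisfied by all large `n`. -/
lemma bigT_eventually (a : ℕ) (d : ℕ → ℕ) (h1 : ∀ m : ℕ, ∀ᶠ n in atTop, m * Nat.log 2 n ≤ d n)
    (h2 : ∀ᶠ n in atTop, d n ≤ (Nat.log 2 n) ^ a) : ∀ᶠ n in atTop, BigT a d n := by
  filter_upwards [h1 100, h2, eventually_ge_atTop 64,
    eventually_ge_atTop (2 ^ 2 ^ (a + 14))] with n q1 q2 q3 q4
  exact ⟨q3, q1, q2, xu_small a _ (Nat.le_log_of_pow_le (by norm_num) q4)⟩

/-- **Main theorem.** -/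
theorem trade_uni (a : ℕ) (d : ℕ → ℕ) (h1 : ∀ m : ℕ, ∀ᶠ n in atTop, m * Nat.log 2 n ≤ d n)
    (h2 : ∀ᶠ n in atTop, d n ≤ (Nat.log 2 n) ^ a) :
    ∃ f : (n : ℕ) → (Fin n → Bool) → Bool,
      (∃ C : (n : ℕ) → Circuit n, (∀ n x, (C n).eval x = f n x) ∧
        PolyBounded (fun n => (C n).size) ∧ (∀ᶠ n in atTop, (C n).depth ≤ d n) ∧
        ∀ n, (C n).negations = 0) ∧
      (∀ r : ℕ → ℕ, (∀ b : ℕ, ∀ᶠ n in atTop, 2 ^ r n * Nat.log 2 n ^ b ≤ n) → ¬ SC r f) ∧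
      (∀ N r : ℕ → ℕ, (∀ b : ℕ, ∀ᶠ n in atTop, 2 ^ r n * Nat.log 2 n ^ b ≤ N n) →
        ¬ SCAbove N r f) ∧
      ∃ n₀ : ℕ, ∀ n ≥ n₀, ∀ k ≥ 1, 50 * (k + 1) * Nat.log 2 n ≤ d n →
        ∀ C : Layered n, (∀ x, C.eval x = f n x) → ∀ P : Finset (Fin n),
        ((C.maxWidth + 1) ^ 4) ^ (k + 1) *
          (2 ^ C.negationsAbove P * Nat.log 2 n ^ (150 * a + 500)) ^ k ≤ P.card ^ k →
        2 ^ (d n / (3 * (k + 1))) < C.size := by
  have hno : ∀ N r : ℕ → ℕ, (∀ b : ℕ, ∀ᶠ n in atTop, 2 ^ r n * Nat.log 2 n ^ b ≤ N n) →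
      ¬ SCAbove N r (fT a d) := by
    rintro N r hr ⟨C, hC, ⟨b, c, hs⟩, ⟨b', c', hw⟩, hP⟩
    obtain ⟨n, hB, hn1, hn2⟩ := ((bigT_eventually a d h1 h2).and
      ((hr (8 * (2 * (b' + 1 + c' + 1)) + (150 * a + 500))).and
        (h1 (12 * (b + c + 1))))).exists
    obtain ⟨P, p1, p2⟩ := hP n
    obtain ⟨L, hL⟩ : ∃ L, L = Nat.log 2 n := ⟨_, rfl⟩
    have hL4 : 4 ≤ L := by
      rw [hL]
      refine Nat.le_log_of_pow_le (by norm_num) (le_trans (by norm_num) hB.1)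
    have h3 := fT_lower a d n hB 1 le_rfl hB.2.1 (C n) (hC n) P (by
      rw [pow_one, pow_one, ← hL, ← pow_mul]
      rw [← hL] at hn1
      refine le_trans ?_ (le_trans hn1 p1)
      have e1 : (C n).maxWidth ≤ b' * L ^ c' + b' := by rw [hL]; exact hw n
      have e2 := bound_aux b' c' L
      have e3 : (C n).maxWidth + 1 ≤ L ^ (2 * (b' + 1 + c' + 1)) := by
        have q1 : 1 ≤ (L + 2) ^ (b' + 1 + c') := Nat.one_le_pow _ _ (by omega)
        calc (C n).maxWidth + 1 ≤ (L + 2) ^ (b' + 1 + c') + (L + 2) ^ (b' + 1 + c') := by omega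
          _ = (L + 2) ^ (b' + 1 + c') * 2 := by ring
          _ ≤ (L + 2) ^ (b' + 1 + c') * (L + 2) := Nat.mul_le_mul_left _ (by omega)
          _ = (L + 2) ^ (b' + 1 + c' + 1) := (pow_succ _ _).symm
          _ ≤ (L ^ 2) ^ (b' + 1 + c' + 1) := Nat.pow_le_pow_left (by nlinarith) _
          _ = _ := by rw [← pow_mul]
      obtain ⟨c1, hc1⟩ : ∃ c1, c1 = 150 * a + 500 := ⟨_, rfl⟩
      rw [← hc1]
      calc ((C n).maxWidth + 1) ^ (4 * (1 + 1)) * (2 ^ (C n).negationsAbove P * L ^ c1)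
          ≤ (L ^ (2 * (b' + 1 + c' + 1))) ^ 8 * (2 ^ r n * L ^ c1) := by
            apply Nat.mul_le_mul (Nat.pow_le_pow_left e3 _)
            exact Nat.mul_le_mul_right _ (Nat.pow_le_pow_right (by norm_num) p2)
        _ = 2 ^ r n * (L ^ (2 * (b' + 1 + c' + 1) * 8) * L ^ c1) := by
            rw [← pow_mul]; ring
        _ = 2 ^ r n * L ^ (8 * (2 * (b' + 1 + c' + 1)) + c1) := by
            rw [← pow_add, mul_comm (2 * (b' + 1 + c' + 1)) 8])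
    have h4 : (C n).size ≤ b * n ^ c + b := hs n
    have h5 : b * n ^ c + b ≤ 2 ^ ((b + c + 1) * (L + 1)) := by rw [hL]; exact size_aux b c n
    have h6 : (b + c + 1) * (L + 1) ≤ d n / (3 * (1 + 1)) := by
      rw [Nat.le_div_iff_mul_le (by norm_num)]
      rw [← hL] at hn2
      refine le_trans ?_ hn2
      calc (b + c + 1) * (L + 1) * (3 * (1 + 1)) ≤ (b + c + 1) * (2 * L) * (3 * (1 + 1)) :=
            Nat.mul_le_mul_right _ (Nat.mul_le_mul_left _ (by omega))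
        _ = 12 * (b + c + 1) * L := by ring
    have h7 : 2 ^ ((b + c + 1) * (L + 1)) ≤ 2 ^ (d n / (3 * (1 + 1))) :=
      Nat.pow_le_pow_right (by norm_num) h6
    exact absurd (lt_of_lt_of_le h3 (le_trans h4 (le_trans h5 h7))) (lt_irrefl _)
  choose E hE1 hE2 hE3 hE4 using fT_circuit a d
  refine ⟨fT a d, ⟨E, hE4, polyBounded_of _ hE2, ?_, fun n => (hE1 n).negations⟩,
    fun r hr hf => hno (fun n => n) r hr (SC_toAbove hf), hno, ?_⟩
  · filter_upwards [bigT_eventually a d h1 h2] with n hn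
    exact hE3 n hn
  · obtain ⟨n0, hn0⟩ := eventually_atTop.mp (bigT_eventually a d h1 h2)
    exact ⟨n0, fun n hn k hk hkd C hC P hP => fT_lower a d n (hn0 n hn) k hk hkd C hC P hP⟩

end Pool.Agent.Results.MP_2af48a_lc.FewNegations
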