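import Pool.Agent.Lib_MP_2af48a_lc.TradeHard

open Finset Filter

namespace Pool.Agent.Results.MP_2af48a_lc.FewNegations

/-! ## Parameters

`L` is the logarithm of the number of variables, `b` the logarithm of the number of variables of a
block, `D` the depth, and `R ≤ (L + 2) ^ a` the number of rounds. -/

/-- an upper bound for the logarithm of `L + 2` -/
def xu (L : ℕ) : ℕ := Nat.log 2 (L + 2) + 1

lemma lt_pow_xu (L : ℕ) : L + 2 < 2 ^ xu L := Nat.lt_pow_succ_log_self (by norm_num) _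

lemma pow_xu_le (L : ℕ) : 2 ^ xu L ≤ (L + 2) ^ 2 := by
  unfold xu
  rw [pow_succ, sq]
  exact Nat.mul_le_mul (Nat.pow_log_le_self 2 (by omega)) (by omega)

lemma two_le_xu (L : ℕ) : 2 ≤ xu L := by
  unfold xu
  have : 1 ≤ Nat.log 2 (L + 2) := Nat.le_log_of_pow_le (by norm_num) (by omega)
  omega

/-- the gadget parameter -/
def xB (a L b : ℕ) : ℕ := (b - 8 - (3 * a + 6) * xu L) / 4

/-- the depth of one round -/
def xX (a L b : ℕ) : ℕ := 2 * xB a L b + (a + 2) * xu L + 8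

/-- the number of rounds -/
def xR (a L D b : ℕ) : ℕ := min (D / xX a L b - 3) ((L + 2) ^ a)

lemma xR_le (a L D b : ℕ) : xR a L D b ≤ (L + 2) ^ a := min_le_right _ _

lemma xw_le (a L R : ℕ) (hR : R ≤ (L + 2) ^ a) : xw R ≤ (L + 2) ^ (a + 2) := by
  unfold xw
  have h1 : 1 ≤ (L + 2) ^ a := Nat.one_le_pow _ _ (by omega)
  calc 2 * R + 1 ≤ (L + 2) ^ a * 4 := by omega
    _ ≤ (L + 2) ^ a * (L + 2) ^ 2 := by
        apply Nat.mul_le_mul_left
        have : 2 ^ 2 ≤ (L + 2) ^ 2 := Nat.pow_le_pow_left (by omega) _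
        omega
    _ = _ := by rw [← pow_add]

lemma log_xw_le (a L R : ℕ) (hR : R ≤ (L + 2) ^ a) : Nat.log 2 (xw R) ≤ (a + 2) * xu L := by
  have h1 : xw R ≤ 2 ^ ((a + 2) * xu L) := by
    calc xw R ≤ (L + 2) ^ (a + 2) := xw_le a L R hR
      _ ≤ (2 ^ xu L) ^ (a + 2) := Nat.pow_le_pow_left (lt_pow_xu L).le _
      _ = 2 ^ ((a + 2) * xu L) := by rw [← pow_mul, mul_comm]
  calc Nat.log 2 (xw R) ≤ Nat.log 2 (2 ^ ((a + 2) * xu L)) := Nat.log_mono_right h1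
    _ = _ := Nat.log_pow (by norm_num) _

/-- number of variables of a block, for all gadget parameters -/
lemma xM_le0 (a L R B : ℕ) (hR : R ≤ (L + 2) ^ a) :
    xM R B ≤ (L + 2) ^ (3 * a + 6) * 2 ^ (4 * B + 8) := by
  have h1 : 1 ≤ (L + 2) ^ a := Nat.one_le_pow _ _ (by omega)
  have hR3 : R + 3 ≤ (L + 2) ^ (a + 2) := by
    calc R + 3 ≤ (L + 2) ^ a * 4 := by omega
      _ ≤ (L + 2) ^ a * (L + 2) ^ 2 := by
          apply Nat.mul_le_mul_left
          have : 2 ^ 2 ≤ (L + 2) ^ 2 := Nat.pow_le_pow_left (by omega) _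
          omega
      _ = _ := by rw [← pow_add]
  have hw := xw_le a L R hR
  unfold xM
  rw [xrr_eq]
  calc (R + 3) * ((xw R * 2 ^ (2 * B + 4)) * (xw R * 2 ^ (2 * B + 4)))
      = ((R + 3) * (xw R * xw R)) * (2 ^ (2 * B + 4) * 2 ^ (2 * B + 4)) := by ring
    _ ≤ ((L + 2) ^ (a + 2) * ((L + 2) ^ (a + 2) * (L + 2) ^ (a + 2))) *
          (2 ^ (2 * B + 4) * 2 ^ (2 * B + 4)) :=
        Nat.mul_le_mul_right _ (Nat.mul_le_mul hR3 (Nat.mul_le_mul hw hw))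
    _ = (L + 2) ^ (3 * a + 6) * 2 ^ (4 * B + 8) := by
        rw [← pow_add, ← pow_add, ← pow_add]
        congr 2 <;> ring

/-- number of variables of a block -/
lemma xM_le (a L b R : ℕ) (hR : R ≤ (L + 2) ^ a) (hb : 8 + (3 * a + 6) * xu L ≤ b) :
    xM R (xB a L b) ≤ 2 ^ b := by
  obtain ⟨B, hB⟩ : ∃ B, B = xB a L b := ⟨_, rfl⟩
  rw [← hB]
  have he8 : 4 * B + 8 + (3 * a + 6) * xu L ≤ b := by
    rw [hB]
    unfold xB
    have := Nat.div_mul_le_self (b - 8 - (3 * a + 6) * xu L) 4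
    omega
  calc xM R B ≤ (L + 2) ^ (3 * a + 6) * 2 ^ (4 * B + 8) := xM_le0 a L R B hR
    _ ≤ (2 ^ xu L) ^ (3 * a + 6) * 2 ^ (4 * B + 8) :=
        Nat.mul_le_mul_right _ (Nat.pow_le_pow_left (lt_pow_xu L).le _)
    _ = 2 ^ (4 * B + 8 + (3 * a + 6) * xu L) := by
        rw [← pow_mul, ← pow_add]
        congr 1
        ring
    _ ≤ 2 ^ b := Nat.pow_le_pow_right (by norm_num) he8

/-- number of variables of a block, in general -/
lemma xM_le' (a L b R : ℕ) (hR : R ≤ (L + 2) ^ a) (hbL : b ≤ L) :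
    xM R (xB a L b) ≤ (L + 2) ^ (3 * a + 6) * 2 ^ (L + 8) := by
  refine le_trans (xM_le0 a L R _ hR) (Nat.mul_le_mul_left _ ?_)
  apply Nat.pow_le_pow_right (by norm_num)
  unfold xB
  have := Nat.div_mul_le_self (b - 8 - (3 * a + 6) * xu L) 4
  omega

/-- The depth of the circuits. -/
lemma depth_okx (a L D b : ℕ) (hD : 3 * xX a L b ≤ D) :
    1 + (xR a L D b + 3) * (2 * xB a L b + Nat.log 2 (xw (xR a L D b)) + 8) ≤ 1 + D := by
  have hlog := log_xw_le a L (xR a L D b) (xR_le a L D b)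
  have hX1 : 0 < xX a L b := by
    unfold xX
    omega
  have h1 : xR a L D b + 3 ≤ D / xX a L b := by
    have h2 : 3 ≤ D / xX a L b := (Nat.le_div_iff_mul_le hX1).mpr (by omega)
    have h3 : xR a L D b ≤ D / xX a L b - 3 := min_le_left _ _
    omega
  apply Nat.add_le_add_left
  calc (xR a L D b + 3) * (2 * xB a L b + Nat.log 2 (xw (xR a L D b)) + 8)
      ≤ D / xX a L b * xX a L b := by
        apply Nat.mul_le_mul h1
        unfold xX
        omega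
    _ ≤ D := Nat.div_mul_le_self _ _

/-- The gadget is large enough.  Here `e = B / (k + 1) + 1`. -/
lemma xB_large (a L b S k : ℕ) (hk : 1 ≤ k)
    (hS : ((S + 1) ^ 4) ^ (k + 1) * ((L + 2) ^ (70 * a + 224)) ^ k ≤ 2 ^ ((b + 1) * k)) :
    8 + (3 * a + 6) * xu L ≤ b ∧ xB a L b / (k + 1) + 1 ≤ xB a L b ∧
      (S + 1) * (L + 2) ^ (8 * a + 24) ≤ 2 ^ (xB a L b - (xB a L b / (k + 1) + 1)) := by
  obtain ⟨q, hq⟩ : ∃ q, q = L + 2 := ⟨_, rfl⟩
  have hq2 : 2 ≤ q := by omega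
  have hxu : 2 ^ xu L ≤ q ^ 2 := by rw [hq]; exact pow_xu_le L
  rw [← hq] at hS ⊢
  have hS1 : 1 ≤ ((S + 1) ^ 4) ^ (k + 1) := Nat.one_le_pow _ _ (Nat.pow_pos (by omega))
  have hpow : 2 ^ ((3 * a + 6) * xu L) ≤ q ^ (6 * a + 12) := by
    calc 2 ^ ((3 * a + 6) * xu L) = (2 ^ xu L) ^ (3 * a + 6) := by rw [← pow_mul, mul_comm]
      _ ≤ (q ^ 2) ^ (3 * a + 6) := Nat.pow_le_pow_left hxu _
      _ = q ^ (6 * a + 12) := by rw [← pow_mul]; congr 1; ring
  obtain ⟨c1, hc1⟩ : ∃ c1, c1 = 70 * a + 224 := ⟨_, rfl⟩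
  rw [← hc1] at hS
  have hb : 8 + (3 * a + 6) * xu L ≤ b := by
    by_contra hcon
    push Not at hcon
    have h1 : 2 ^ (b + 1) ≤ 2 ^ (8 + (3 * a + 6) * xu L) :=
      Nat.pow_le_pow_right (by norm_num) (by omega)
    have h2 : 2 ^ (8 + (3 * a + 6) * xu L) < q ^ c1 := by
      calc 2 ^ (8 + (3 * a + 6) * xu L) = 2 ^ 8 * 2 ^ ((3 * a + 6) * xu L) := pow_add _ _ _
        _ ≤ q ^ 8 * q ^ (6 * a + 12) := Nat.mul_le_mul (Nat.pow_le_pow_left hq2 _) hpow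
        _ = q ^ (6 * a + 20) := by rw [← pow_add]; congr 1; ring
        _ < q ^ c1 := Nat.pow_lt_pow_right (by omega) (by omega)
    have h3 : (2 ^ (b + 1)) ^ k < (q ^ c1) ^ k :=
      Nat.pow_lt_pow_left (lt_of_le_of_lt h1 h2) (by omega)
    have h4 : (q ^ c1) ^ k ≤ ((S + 1) ^ 4) ^ (k + 1) * (q ^ c1) ^ k :=
      Nat.le_mul_of_pos_left _ hS1
    rw [← pow_mul] at h3
    omega
  refine ⟨hb, ?_⟩
  obtain ⟨B, hB⟩ : ∃ B, B = xB a L b := ⟨_, rfl⟩
  rw [← hB]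
  have he8 : b + 1 ≤ 4 * B + (12 + (3 * a + 6) * xu L) := by
    rw [hB]
    unfold xB
    have := Nat.lt_mul_div_succ (b - 8 - (3 * a + 6) * xu L) (by norm_num : 0 < 4)
    omega
  -- the exponent `F = B - B / (k + 1)`
  have hdB : B / (k + 1) ≤ B := Nat.div_le_self _ _
  obtain ⟨F, hF⟩ : ∃ F, F + B / (k + 1) = B := ⟨B - B / (k + 1), by omega⟩
  have hF1 : k * B ≤ (k + 1) * F := by
    have h1 : (k + 1) * (B / (k + 1)) ≤ B := Nat.mul_div_le _ _
    have h2 : (k + 1) * B = (k + 1) * F + (k + 1) * (B / (k + 1)) := by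
      rw [← Nat.mul_add, hF]
    have h3 : (k + 1) * B = k * B + B := by ring
    omega
  obtain ⟨m0, hm0⟩ : ∃ m0, m0 = 8 * a + 24 := ⟨_, rfl⟩
  rw [← hm0]
  have key : 2 * ((S + 1) * q ^ m0) ≤ 2 ^ F := by
    by_contra hcon
    push Not at hcon
    have h1 : (2 ^ F) ^ (4 * (k + 1)) < (2 * ((S + 1) * q ^ m0)) ^ (4 * (k + 1)) :=
      Nat.pow_lt_pow_left hcon (by omega)
    have h2 : 2 ^ (4 * (k * B)) ≤ (2 ^ F) ^ (4 * (k + 1)) := by
      rw [← pow_mul]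
      apply Nat.pow_le_pow_right (by norm_num)
      calc 4 * (k * B) ≤ 4 * ((k + 1) * F) := Nat.mul_le_mul_left _ hF1
        _ = F * (4 * (k + 1)) := by ring
    have h3 : 2 ^ ((b + 1) * k) ≤ 2 ^ (4 * (k * B)) * (q ^ (6 * a + 24)) ^ k := by
      have g1 : 2 ^ (12 + (3 * a + 6) * xu L) ≤ q ^ (6 * a + 24) := by
        calc 2 ^ (12 + (3 * a + 6) * xu L) = 2 ^ 12 * 2 ^ ((3 * a + 6) * xu L) := pow_add _ _ _
          _ ≤ q ^ 12 * q ^ (6 * a + 12) := Nat.mul_le_mul (Nat.pow_le_pow_left hq2 _) hpow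
          _ = q ^ (6 * a + 24) := by rw [← pow_add]; congr 1; ring
      calc 2 ^ ((b + 1) * k) ≤ 2 ^ ((4 * B + (12 + (3 * a + 6) * xu L)) * k) :=
            Nat.pow_le_pow_right (by norm_num) (Nat.mul_le_mul_right _ he8)
        _ = 2 ^ (4 * (k * B)) * (2 ^ (12 + (3 * a + 6) * xu L)) ^ k := by
            rw [← pow_mul, ← pow_add]
            congr 1
            ring
        _ ≤ _ := Nat.mul_le_mul_left _ (Nat.pow_le_pow_left g1 _)
    have h4 : (2 * ((S + 1) * q ^ m0)) ^ (4 * (k + 1)) ≤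
        ((S + 1) ^ 4) ^ (k + 1) * (q ^ (8 * m0 + 8)) ^ k := by
      have g1 : (2 * q ^ m0) ^ 4 ≤ q ^ (4 * m0 + 4) := by
        calc (2 * q ^ m0) ^ 4 ≤ (q * q ^ m0) ^ 4 :=
              Nat.pow_le_pow_left (Nat.mul_le_mul_right _ hq2) _
          _ = q ^ (4 * m0 + 4) := by
              rw [← pow_succ', ← pow_mul]
              congr 1
              ring
      calc (2 * ((S + 1) * q ^ m0)) ^ (4 * (k + 1))
          = ((S + 1) ^ 4) ^ (k + 1) * ((2 * q ^ m0) ^ 4) ^ (k + 1) := by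
            rw [← pow_mul, ← pow_mul, ← mul_pow]
            congr 1
            ring
        _ ≤ ((S + 1) ^ 4) ^ (k + 1) * (q ^ (4 * m0 + 4)) ^ (k + 1) :=
            Nat.mul_le_mul_left _ (Nat.pow_le_pow_left g1 _)
        _ ≤ ((S + 1) ^ 4) ^ (k + 1) * (q ^ (4 * m0 + 4)) ^ (2 * k) :=
            Nat.mul_le_mul_left _ (Nat.pow_le_pow_right (Nat.pow_pos (by omega)) (by omega))
        _ = _ := by
            congr 1
            rw [← pow_mul, ← pow_mul]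
            congr 1
            ring
    have h5 : 2 ^ ((b + 1) * k) < 2 ^ ((b + 1) * k) := by
      calc 2 ^ ((b + 1) * k) ≤ 2 ^ (4 * (k * B)) * (q ^ (6 * a + 24)) ^ k := h3
        _ ≤ (2 ^ F) ^ (4 * (k + 1)) * (q ^ (6 * a + 24)) ^ k := Nat.mul_le_mul_right _ h2
        _ < (2 * ((S + 1) * q ^ m0)) ^ (4 * (k + 1)) * (q ^ (6 * a + 24)) ^ k :=
            Nat.mul_lt_mul_of_pos_right h1 (Nat.pow_pos (Nat.pow_pos (by omega)))
        _ ≤ (((S + 1) ^ 4) ^ (k + 1) * (q ^ (8 * m0 + 8)) ^ k) * (q ^ (6 * a + 24)) ^ k :=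
            Nat.mul_le_mul_right _ h4
        _ = ((S + 1) ^ 4) ^ (k + 1) * (q ^ c1) ^ k := by
            rw [mul_assoc, ← mul_pow, ← pow_add]
            congr 3
            rw [hc1, hm0]
            ring
        _ ≤ 2 ^ ((b + 1) * k) := hS
    exact lt_irrefl _ h5
  have hF0 : F ≠ 0 := by
    rintro rfl
    have : 1 ≤ (S + 1) * q ^ m0 := Nat.mul_pos (by omega) (Nat.pow_pos (by omega))
    rw [pow_zero] at key
    omega
  refine ⟨by omega, ?_⟩
  obtain ⟨F', rfl⟩ : ∃ F', F = F' + 1 := ⟨F - 1, by omega⟩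
  have hF' : B - (B / (k + 1) + 1) = F' := by omega
  rw [hF']
  rw [pow_succ] at key
  omega

/-- the conditions of the lower bound -/
lemma big_okx (a L R S lc e B : ℕ) (hR : R ≤ (L + 2) ^ a) (hlc : lc ≤ L + 2) (he : e ≤ L)
    (heB : e ≤ B) (h : (S + 1) * (L + 2) ^ (4 * a + 12) ≤ 2 ^ (B - e)) :
    4 * S < xr B ∧
    20 * R * ((R * (R * lc + 2 * S + (e + 1) + 1) + 2) * (xw R + 1)) ≤ 2 ^ (B - e) := by
  have hvw := xw_le a L R hR
  obtain ⟨q, hq⟩ : ∃ q, q = L + 2 := ⟨_, rfl⟩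
  have hq2 : 2 ≤ q := by omega
  rw [← hq] at h hR hvw hlc
  have hq1 : ∀ j, 1 ≤ q ^ j := fun j => Nat.one_le_pow _ _ (by omega)
  constructor
  · have h1 : S + 1 ≤ 2 ^ (B - e) := le_trans (Nat.le_mul_of_pos_right _ (hq1 _)) h
    have h2 : 2 ^ (B - e) ≤ 2 ^ B := Nat.pow_le_pow_right (by norm_num) (by omega)
    unfold xr
    rw [pow_add]
    omega
  · refine le_trans ?_ h
    have b1 : R * lc + 2 * S + (e + 1) + 1 ≤ (S + 1) * q ^ (a + 3) := by
      have a1 : R * lc ≤ q ^ (a + 1) := by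
        calc R * lc ≤ q ^ a * q := Nat.mul_le_mul hR hlc
          _ = _ := (pow_succ _ _).symm
      have a2 : q ≤ q ^ (a + 1) := Nat.le_self_pow (by omega) _
      have a3 : q ^ (a + 3) = q ^ (a + 1) * q ^ 2 := by rw [← pow_add]
      have a4 : 4 ≤ q ^ 2 := by
        have : 2 ^ 2 ≤ q ^ 2 := Nat.pow_le_pow_left hq2 _
        omega
      calc R * lc + 2 * S + (e + 1) + 1 ≤ q ^ (a + 1) + 2 * S + q ^ (a + 1) := by omega
        _ ≤ (S + 1) * (q ^ (a + 1) * 4) := by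
            have a5 : S * 1 ≤ S * q ^ (a + 1) := Nat.mul_le_mul_left _ (hq1 _)
            have a6 : (S + 1) * (q ^ (a + 1) * 4) = 4 * (S * q ^ (a + 1)) + 4 * q ^ (a + 1) := by
              ring
            omega
        _ ≤ (S + 1) * (q ^ (a + 1) * q ^ 2) :=
            Nat.mul_le_mul_left _ (Nat.mul_le_mul_left _ a4)
        _ = _ := by rw [← a3]
    have b2 : R * (R * lc + 2 * S + (e + 1) + 1) + 2 ≤ (S + 1) * q ^ (2 * a + 4) := by
      have a1 : R * (R * lc + 2 * S + (e + 1) + 1) ≤ (S + 1) * q ^ (2 * a + 3) := by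
        calc R * (R * lc + 2 * S + (e + 1) + 1) ≤ q ^ a * ((S + 1) * q ^ (a + 3)) :=
              Nat.mul_le_mul hR b1
          _ = (S + 1) * (q ^ a * q ^ (a + 3)) := by ring
          _ = _ := by rw [← pow_add]; congr 2; ring
      have a2 : 2 ≤ (S + 1) * q ^ (2 * a + 3) := by
        calc 2 ≤ q := hq2
          _ ≤ q ^ (2 * a + 3) := Nat.le_self_pow (by omega) _
          _ ≤ _ := Nat.le_mul_of_pos_left _ (by omega)
      calc _ ≤ (S + 1) * q ^ (2 * a + 3) * 2 := by omega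
        _ ≤ (S + 1) * q ^ (2 * a + 3) * q := Nat.mul_le_mul_left _ hq2
        _ = _ := by rw [mul_assoc, ← pow_succ]
    have b3 : xw R + 1 ≤ q ^ (a + 3) := by
      calc xw R + 1 ≤ q ^ (a + 2) * 2 := by have := hq1 (a + 2); omega
        _ ≤ q ^ (a + 2) * q := Nat.mul_le_mul_left _ hq2
        _ = _ := (pow_succ _ _).symm
    have b4 : 20 * R ≤ q ^ (a + 5) := by
      calc 20 * R ≤ 32 * q ^ a := by omega
        _ = 2 ^ 5 * q ^ a := by norm_num
        _ ≤ q ^ 5 * q ^ a := Nat.mul_le_mul_right _ (Nat.pow_le_pow_left hq2 _)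
        _ = q ^ (a + 5) := by rw [← pow_add]; congr 1; ring
    calc 20 * R * ((R * (R * lc + 2 * S + (e + 1) + 1) + 2) * (xw R + 1))
        ≤ q ^ (a + 5) * (((S + 1) * q ^ (2 * a + 4)) * q ^ (a + 3)) :=
          Nat.mul_le_mul b4 (Nat.mul_le_mul b2 b3)
      _ = (S + 1) * (q ^ (a + 5) * q ^ (2 * a + 4) * q ^ (a + 3)) := by ring
      _ = (S + 1) * q ^ (4 * a + 12) := by
          rw [← pow_add, ← pow_add]
          congr 2
          ring

/-- The gadget parameter is large. -/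
lemma xB_ge (a L S F : ℕ) (h : (S + 1) * (L + 2) ^ (8 * a + 24) ≤ 2 ^ F) :
    2 * ((a + 2) * xu L + 8) ≤ F := by
  obtain ⟨g, hg⟩ : ∃ g, g = Nat.log 2 (L + 2) := ⟨_, rfl⟩
  have hg1 : 1 ≤ g := by
    rw [hg]; exact Nat.le_log_of_pow_le (by norm_num) (by omega)
  have hgL : 2 ^ g ≤ L + 2 := by rw [hg]; exact Nat.pow_log_le_self 2 (by omega)
  have h1 : 2 ^ (g * (8 * a + 24)) ≤ 2 ^ F := by
    calc 2 ^ (g * (8 * a + 24)) = (2 ^ g) ^ (8 * a + 24) := by rw [pow_mul]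
      _ ≤ (L + 2) ^ (8 * a + 24) := Nat.pow_le_pow_left hgL _
      _ ≤ (S + 1) * (L + 2) ^ (8 * a + 24) := Nat.le_mul_of_pos_left _ (by omega)
      _ ≤ 2 ^ F := h
  have h2 : g * (8 * a + 24) ≤ F := (Nat.pow_le_pow_iff_right (by norm_num)).mp h1
  unfold xu
  rw [← hg]
  have h3 : a * 1 ≤ a * g := Nat.mul_le_mul_left _ hg1
  have h4 : (a + 2) * (g + 1) + 8 = a * g + a + 2 * g + 10 := by ring
  have h5 : g * (8 * a + 24) = 8 * (a * g) + 24 * g := by ring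
  omega

/-- The number of rounds is large. -/
lemma eR_largex (a L D b d k : ℕ) (hB : 2 * ((a + 2) * xu L + 8) ≤ xB a L b)
    (hB4 : 4 * xB a L b ≤ L) (hD : d ≤ D + 5 * L) (hda : d ≤ (L + 2) ^ a) :
    2 * d ≤ 5 * ((k + 1) * ((xB a L b / (k + 1) + 1) * xR a L D b)) + 15 * L + 20 * (k + 1) := by
  obtain ⟨B, hBB⟩ : ∃ B, B = xB a L b := ⟨_, rfl⟩
  obtain ⟨e, hee⟩ : ∃ e, e = B / (k + 1) + 1 := ⟨_, rfl⟩
  obtain ⟨X, hX⟩ : ∃ X, X = xX a L b := ⟨_, rfl⟩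
  have hX5 : 2 * X ≤ 5 * B := by
    rw [hX, hBB]
    unfold xX
    omega
  have hX1 : 0 < X := by
    rw [hX]
    unfold xX
    omega
  have he1 : 1 ≤ e := by rw [hee]; exact Nat.le_add_left 1 _
  have he2 : B ≤ (k + 1) * e := by
    rw [hee]
    exact (Nat.lt_mul_div_succ B (Nat.succ_pos k)).le
  have he3 : (k + 1) * e ≤ B + (k + 1) := by
    rw [hee, Nat.mul_add, mul_one]
    have := Nat.mul_div_le B (k + 1)
    omega
  unfold xR
  rw [← hBB, ← hee, ← hX]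
  rw [← hBB] at hB4
  rcases min_choice (D / X - 3) ((L + 2) ^ a) with h | h
  · rw [h]
    obtain ⟨R, hR⟩ : ∃ R, R = D / X - 3 := ⟨_, rfl⟩
    rw [← hR]
    have h1 : D < X * (D / X + 1) := Nat.lt_mul_div_succ D hX1
    have h3 : D / X + 1 ≤ R + 4 := by omega
    have h2 : X * (D / X + 1) ≤ X * (R + 4) := Nat.mul_le_mul_left _ h3
    have h4 : 2 * (X * (R + 4)) ≤ 5 * ((k + 1) * e * (R + 4)) := by
      calc 2 * (X * (R + 4)) = (2 * X) * (R + 4) := by ring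
        _ ≤ (5 * B) * (R + 4) := Nat.mul_le_mul_right _ hX5
        _ ≤ (5 * ((k + 1) * e)) * (R + 4) := Nat.mul_le_mul_right _ (Nat.mul_le_mul_left _ he2)
        _ = _ := by ring
    have h5 : (k + 1) * e * (R + 4) = (k + 1) * (e * R) + 4 * ((k + 1) * e) := by ring
    omega
  · rw [h]
    have h1 : 1 * (1 * (L + 2) ^ a) ≤ (k + 1) * (e * (L + 2) ^ a) :=
      Nat.mul_le_mul (by omega) (Nat.mul_le_mul_right _ he1)
    omega

end Pool.Agent.Results.MP_2af48a_lc.FewNegations
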