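import Pool.Agent.Lib_MP_2af48a_lc.SwitchUni
import Pool.Agent.Lib_MP_2af48a_lc.TradeParam

open Finset Filter

namespace Pool.Agent.Results.MP_2af48a_lc.FewNegations

/-! ## A function of small depth which has no narrow circuits of small size -/

/-- the block functions -/
def hardT (a : ℕ) (d : ℕ → ℕ) (n i : ℕ) : (Fin (2 ^ i) → Bool) → Bool :=
  hardX (xR a (Nat.log 2 n) (d n - (4 * Nat.log 2 n + 11)) i) (xB a (Nat.log 2 n) i) (2 ^ i)

/-- the function -/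
def fT (a : ℕ) (d : ℕ → ℕ) (n : ℕ) (x : Fin n → Bool) : Bool := fG n (hardT a d n) x

lemma hardT_zero (a : ℕ) (d : ℕ → ℕ) (n i : ℕ) : hardT a d n i (fun _ => false) = false :=
  hardX_zero _ _ _

/-- conditions satisfied by all large `n` -/
def BigT (a : ℕ) (d : ℕ → ℕ) (n : ℕ) : Prop :=
  64 ≤ n ∧ 100 * Nat.log 2 n ≤ d n ∧ d n ≤ (Nat.log 2 n) ^ a ∧
    (a + 2) * xu (Nat.log 2 n) + 8 ≤ Nat.log 2 n

/-- a bound for the size of the circuits -/
lemma size_boundT (n N A B j : ℕ) (hN : N = n + 2) (hA : A ≤ N ^ j) (hB : B ≤ N ^ 9) :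
    2 * (n + 1) * (16 * (n + 1) ^ 3 + 2 * (n + 1) * (8 * (A * B) + 2) + 3) ≤ N ^ (j + 30) := by
  have hN2 : 2 ≤ N := by omega
  have hj1 : 1 ≤ N ^ j := Nat.one_le_pow _ _ (by omega)
  have s2 : 2 * (n + 1) ≤ N ^ 2 := by rw [hN]; nlinarith
  have s1 : 8 * (A * B) + 2 ≤ N ^ (j + 13) := by
    have t1 : A * B ≤ N ^ (j + 9) := by
      rw [pow_add]; exact Nat.mul_le_mul hA hB
    have t2 : 1 ≤ N ^ (j + 9) := Nat.one_le_pow _ _ (by omega)
    have t3 : 2 ^ 4 ≤ N ^ 4 := Nat.pow_le_pow_left hN2 _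
    have t4 : N ^ (j + 13) = N ^ (j + 9) * N ^ 4 := by rw [← pow_add]
    have t5 : N ^ (j + 9) * 16 ≤ N ^ (j + 9) * N ^ 4 := Nat.mul_le_mul_left _ (by omega)
    omega
  have s3 : 16 * (n + 1) ^ 3 + 3 ≤ N ^ (j + 15) := by
    have t1 : (n + 1) ^ 3 ≤ N ^ 3 := Nat.pow_le_pow_left (by omega) _
    have t2 : 1 ≤ N ^ 3 := Nat.one_le_pow _ _ (by omega)
    have t3 : 2 ^ 5 ≤ N ^ 5 := Nat.pow_le_pow_left hN2 _
    have t4 : N ^ 8 = N ^ 3 * N ^ 5 := by rw [← pow_add]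
    have t5 : N ^ 3 * 32 ≤ N ^ 3 * N ^ 5 := Nat.mul_le_mul_left _ (by omega)
    have t6 : N ^ 8 ≤ N ^ (j + 15) := Nat.pow_le_pow_right (by omega) (by omega)
    omega
  have s4 : 2 * (n + 1) * (8 * (A * B) + 2) ≤ N ^ (j + 15) := by
    have t1 : N ^ 2 * N ^ (j + 13) = N ^ (j + 15) := by rw [← pow_add]; congr 1; ring
    rw [← t1]
    exact Nat.mul_le_mul s2 s1
  have s5 : 16 * (n + 1) ^ 3 + 2 * (n + 1) * (8 * (A * B) + 2) + 3 ≤ N ^ (j + 15) * 2 := by omega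
  have s6 : N ^ (j + 15) * 2 ≤ N ^ (j + 16) := by
    rw [pow_succ]
    exact Nat.mul_le_mul_left _ hN2
  have s7 : N ^ 2 * N ^ (j + 16) = N ^ (j + 18) := by rw [← pow_add]; congr 1; ring
  have s8 : N ^ (j + 18) ≤ N ^ (j + 30) := Nat.pow_le_pow_right (by omega) (by omega)
  refine le_trans (Nat.mul_le_mul s2 (le_trans s5 s6)) ?_
  rw [s7]
  exact s8

theorem fT_circuit (a : ℕ) (d : ℕ → ℕ) (n : ℕ) : ∃ E : Circuit n, Pos E ∧
    E.size ≤ (n + 2) ^ (3 * a + 36) ∧ (BigT a d n → E.depth ≤ d n) ∧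
    ∀ x, E.eval x = fT a d n x := by
  rcases Nat.eq_zero_or_pos n with h0 | hn0
  · subst h0
    obtain ⟨E, e1, e2, e3, e4⟩ := exists_orC (n := 0) 0 0 0 [] (by simp) (by simp)
    refine ⟨E, e1, ?_, ?_, fun x => ?_⟩
    · have : 1 ≤ (0 + 2) ^ (3 * a + 36) := Nat.one_le_pow _ _ (by norm_num)
      simp only [pow_zero, one_mul, zero_add] at e2
      omega
    · rintro ⟨h, -⟩
      omega
    · rw [e4]
      symm
      simp only [List.any_nil]
      unfold fT fG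
      rw [decide_eq_false_iff_not]
      rintro ⟨i, hi, h, -⟩
      simp [ext] at h
  obtain ⟨L, hL⟩ : ∃ L, L = Nat.log 2 n := ⟨_, rfl⟩
  obtain ⟨D, hD⟩ : ∃ D, D = d n - (4 * L + 11) := ⟨_, rfl⟩
  have hLn : 2 ^ L ≤ n := by rw [hL]; exact Nat.pow_log_le_self 2 (by omega)
  have hLn' : L ≤ n := by rw [hL]; exact Nat.log_le_self 2 n
  have hLL : LL n = L + 1 := by unfold LL; rw [← hL]
  obtain ⟨A, hA⟩ : ∃ A, A = (L + 2) ^ (3 * a + 6) := ⟨_, rfl⟩
  obtain ⟨B, hB⟩ : ∃ B, B = 2 ^ (L + 8) := ⟨_, rfl⟩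
  obtain ⟨dd, hdd, hdd2⟩ : ∃ dd, (∀ i < LL n, 1 + (xR a L D i + 3) *
      (2 * xB a L i + Nat.log 2 (xw (xR a L D i)) + 8) ≤ dd) ∧
      (BigT a d n → dd ≤ 1 + D) := by
    refine ⟨(Finset.range (LL n)).sup (fun i => 1 + (xR a L D i + 3) *
      (2 * xB a L i + Nat.log 2 (xw (xR a L D i)) + 8)), fun i hi =>
      Finset.le_sup (f := fun i => 1 + (xR a L D i + 3) *
          (2 * xB a L i + Nat.log 2 (xw (xR a L D i)) + 8)) (Finset.mem_range.mpr hi), ?_⟩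
    rintro ⟨b1, b2, b3, b4⟩
    rw [← hL] at b2 b3 b4
    apply Finset.sup_le
    intro i hi
    rw [Finset.mem_range, hLL] at hi
    apply depth_okx
    have h3 : 4 * xB a L i ≤ L := by
      unfold xB
      have := Nat.div_mul_le_self (i - 8 - (3 * a + 6) * xu L) 4
      omega
    unfold xX
    omega
  obtain ⟨E, e1, e2, e3, e4⟩ := fG_upper n (8 * (A * B)) dd hn0 (hardT a d n) (by
      intro i hi
      obtain ⟨C, c1, c2, c3, c4⟩ := hardX_circuit (xR a L D i) (xB a L i) (2 ^ i)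
      refine ⟨C, c1, ?_, ?_, ?_⟩
      · refine le_trans c2 (Nat.mul_le_mul_left _ ?_)
        rw [hA, hB]
        apply xM_le' a L i _ (xR_le _ _ _ _)
        omega
      · exact le_trans c3 (hdd i hi)
      · intro x
        rw [c4]
        unfold hardT
        rw [← hL, ← hD])
  refine ⟨E, e1, ?_, ?_, e4⟩
  · refine le_trans e2 ?_
    have h1 : A ≤ (n + 2) ^ (3 * a + 6) := by
      rw [hA]
      exact Nat.pow_le_pow_left (by omega) _
    have h2 : B ≤ (n + 2) ^ 9 := by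
      rw [hB, pow_add]
      have t1 : 2 ^ 8 ≤ (n + 2) ^ 8 := Nat.pow_le_pow_left (by omega) _
      calc 2 ^ L * 2 ^ 8 ≤ (n + 2) * (n + 2) ^ 8 := Nat.mul_le_mul (by omega) t1
        _ = (n + 2) ^ 9 := (pow_succ' _ _).symm
    exact size_boundT n (n + 2) A B (3 * a + 6) rfl h1 h2
  · intro hb
    have h1 := hdd2 hb
    obtain ⟨b1, b2, b3, b4⟩ := hb
    rw [← hL] at e3 b2
    omega

/-- **Lower bound.** -/
theorem fT_lower (a : ℕ) (d : ℕ → ℕ) (n : ℕ) (hB : BigT a d n) (k : ℕ) (hk : 1 ≤ k)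
    (hkd : 50 * (k + 1) * Nat.log 2 n ≤ d n) (C : Layered n)
    (hC : ∀ x, C.eval x = fT a d n x) (P : Finset (Fin n))
    (hP : ((C.maxWidth + 1) ^ 4) ^ (k + 1) *
      (2 ^ C.negationsAbove P * Nat.log 2 n ^ (150 * a + 500)) ^ k ≤ P.card ^ k) :
    2 ^ (d n / (3 * (k + 1))) < C.size := by
  obtain ⟨b1, b2, b3, b4⟩ := hB
  obtain ⟨t, ht⟩ : ∃ t, C.negationsAbove P = t := ⟨_, rfl⟩
  obtain ⟨W, hW⟩ : ∃ W, C.maxWidth = W := ⟨_, rfl⟩
  rw [ht, hW] at hP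
  have hPn : P.card ≤ n := by
    have := P.card_le_univ
    rwa [Fintype.card_fin] at this
  obtain ⟨L, hL⟩ : ∃ L, L = Nat.log 2 n := ⟨_, rfl⟩
  rw [← hL] at hP b2 b3 b4 hkd
  have hxu := two_le_xu L
  have hL12 : 12 ≤ L := by
    have h1 : 2 * 2 ≤ (a + 2) * xu L := Nat.mul_le_mul (by omega) hxu
    omega
  have hL4 : 4 ≤ L := by omega
  have hk0 : k ≠ 0 := by omega
  have hn' : n < 2 ^ (L + 1) := by rw [hL]; exact Nat.lt_pow_succ_log_self (by norm_num) n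
  have hLLn : LL n = L + 1 := by unfold LL; rw [← hL]
  obtain ⟨c1, hc1⟩ : ∃ c1, c1 = 70 * a + 224 := ⟨_, rfl⟩
  obtain ⟨q, hq⟩ : ∃ q, q = L + 2 := ⟨_, rfl⟩
  have hq1 : ∀ j, 1 ≤ q ^ j := fun j => Nat.one_le_pow _ _ (by omega)
  have hqL : q ≤ L ^ 2 := by rw [hq]; nlinarith
  obtain ⟨Q, hQ⟩ : ∃ Q, Q = L ^ (150 * a + 500) := ⟨_, rfl⟩
  rw [← hQ] at hP
  -- `Q` is large
  have hQ1 : 2 ^ 19 * q ^ (c1 + 2) ≤ Q := by
    have h1 : q ^ (c1 + 2) ≤ L ^ (2 * (c1 + 2)) := by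
      rw [pow_mul]; exact Nat.pow_le_pow_left hqL _
    have h2 : 2 ^ 19 ≤ L ^ 10 := by
      calc 2 ^ 19 ≤ 4 ^ 10 := by norm_num
        _ ≤ L ^ 10 := Nat.pow_le_pow_left hL4 _
    refine le_trans (Nat.mul_le_mul h2 h1) ?_
    rw [← pow_add, hQ]
    exact Nat.pow_le_pow_right (by omega) (by omega)
  have hQ2 : (2 ^ 16 * q ^ c1) * (8 * q ^ 2) ≤ Q := by
    refine le_trans (le_of_eq ?_) hQ1
    rw [pow_add]
    ring
  have hQ3 : 16 * q ^ 2 ≤ Q := by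
    refine le_trans ?_ hQ1
    exact Nat.mul_le_mul (by norm_num) (Nat.pow_le_pow_right (by omega) (by omega))
  have hqq : q ≤ q ^ 2 := Nat.le_self_pow (by norm_num) _
  obtain ⟨T, hT⟩ : ∃ T, T = 2 ^ t := ⟨_, rfl⟩
  have hT1 : 1 ≤ T := by rw [hT]; exact Nat.one_le_two_pow
  rw [← hT] at hP
  -- the total bound
  have hWT : (W + 1) * (T * Q) ≤ P.card := by
    have h1 : ((W + 1) * (T * Q)) ^ k ≤ P.card ^ k := by
      refine le_trans ?_ hP
      rw [mul_pow]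
      apply Nat.mul_le_mul_right
      rw [← pow_mul]
      exact Nat.pow_le_pow_right (by omega) (by omega)
    exact (Nat.pow_le_pow_iff_left hk0).mp h1
  have hTQ : T * Q ≤ P.card := le_trans (Nat.le_mul_of_pos_left _ (by omega)) hWT
  have hTP : T ≤ P.card := by
    refine le_trans (Nat.le_mul_of_pos_right _ ?_) hTQ
    have := hq1 2
    omega
  have htL : t ≤ L := by
    rw [hL]; exact Nat.le_log_of_pow_le (by norm_num) (by rw [← hT]; omega)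
  -- the block size
  obtain ⟨M, hM⟩ : ∃ M, M = T * (8 * q ^ 2) := ⟨_, rfl⟩
  have hM0 : 0 < M := by
    rw [hM]
    have := hq1 2
    exact Nat.mul_pos hT1 (by omega)
  have hMP : M ≤ P.card := by
    rw [hM]
    exact le_trans (Nat.mul_le_mul_left _ (by omega)) hTQ
  obtain ⟨i, hi⟩ : ∃ i, i = Nat.log 2 (P.card / M) := ⟨_, rfl⟩
  have hPM : P.card / M ≠ 0 := by
    have := Nat.div_pos hMP hM0
    omega
  have hi1 : P.card ≤ M * 2 ^ (i + 1) := by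
    have h1 : P.card / M < 2 ^ (i + 1) := by
      rw [hi]; exact Nat.lt_pow_succ_log_self (by norm_num) _
    have h2 : P.card < M * (P.card / M + 1) := Nat.lt_mul_div_succ _ hM0
    exact le_trans h2.le (Nat.mul_le_mul_left _ h1)
  have hi2 : M * 2 ^ i ≤ P.card := by
    have h1 : 2 ^ i ≤ P.card / M := by
      rw [hi]; exact Nat.pow_log_le_self 2 hPM
    calc M * 2 ^ i ≤ M * (P.card / M) := Nat.mul_le_mul_left _ h1
      _ ≤ P.card := Nat.mul_div_le _ _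
  obtain ⟨K', hK'⟩ : ∃ K', 2 ^ t * (t + 1) + 1 = K' := ⟨_, rfl⟩
  have hK'le : K' ≤ T * q := by
    rw [← hK', ← hT]
    have h2 : T * (t + 1) ≤ T * (L + 1) := Nat.mul_le_mul_left _ (by omega)
    have h3 : T * q = T * (L + 1) + T := by rw [hq]; ring
    omega
  have hLL2 : 2 * LL n + 1 ≤ 2 * q := by rw [hLLn, hq]; omega
  have hmul : K' * 2 ^ i * (2 * LL n + 1) ≤ 2 * (T * q ^ 2 * 2 ^ i) := by
    calc K' * 2 ^ i * (2 * LL n + 1) ≤ (T * q) * 2 ^ i * (2 * q) := by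
          apply Nat.mul_le_mul _ hLL2
          exact Nat.mul_le_mul_right _ hK'le
      _ = 2 * (T * q ^ 2 * 2 ^ i) := by ring
  have hM2 : M * 2 ^ i = 8 * (T * q ^ 2 * 2 ^ i) := by rw [hM]; ring
  have hqM : LL n ≤ T * q ^ 2 * 2 ^ i := by
    calc LL n ≤ 1 * q ^ 2 * 1 := by rw [hLLn]; omega
      _ ≤ T * q ^ 2 * 2 ^ i := by
          apply Nat.mul_le_mul _ Nat.one_le_two_pow
          exact Nat.mul_le_mul_right _ hT1
  have hPP : 2 * (K' * 2 ^ i * (2 * LL n + 1)) + LL n ≤ P.card := by omega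
  have hin : 2 ^ i ≤ n := by
    have h1 : 1 * 2 ^ i ≤ M * 2 ^ i := Nat.mul_le_mul_right _ hM0
    omega
  have hiL : i ≤ L := by
    rw [hL]; exact Nat.le_log_of_pow_le (by norm_num) hin
  obtain ⟨D, hD1, hD2, hD3⟩ := fG_lower n (by omega) (hardT a d n) C hC P i t ht.le
    (hardT_zero a d n i) (by rw [hK']; exact hPP)
  rw [hW] at hD2 hD3
  -- the gadget is large enough
  have hcond : ((2 * W + 3 + 1) ^ 4) ^ (k + 1) * (q ^ c1) ^ k ≤ 2 ^ ((i + 1) * k) := by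
    have h1 : ((2 * W + 3 + 1) ^ 4) ^ (k + 1) ≤ ((W + 1) ^ 4) ^ (k + 1) * (2 ^ 16) ^ k := by
      have g1 : (2 * W + 3 + 1) ^ 4 ≤ 2 ^ 8 * (W + 1) ^ 4 := by
        calc (2 * W + 3 + 1) ^ 4 ≤ (4 * (W + 1)) ^ 4 := Nat.pow_le_pow_left (by omega) _
          _ = 2 ^ 8 * (W + 1) ^ 4 := by rw [mul_pow]; norm_num
      calc ((2 * W + 3 + 1) ^ 4) ^ (k + 1) ≤ (2 ^ 8 * (W + 1) ^ 4) ^ (k + 1) :=
            Nat.pow_le_pow_left g1 _
        _ = ((W + 1) ^ 4) ^ (k + 1) * (2 ^ 8) ^ (k + 1) := by rw [mul_pow, mul_comm]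
        _ ≤ ((W + 1) ^ 4) ^ (k + 1) * (2 ^ 8) ^ (2 * k) :=
            Nat.mul_le_mul_left _ (Nat.pow_le_pow_right (by norm_num) (by omega))
        _ = _ := by
            congr 1
            rw [pow_mul]
            norm_num
    have h2 : ((2 * W + 3 + 1) ^ 4) ^ (k + 1) * (q ^ c1) ^ k * M ^ k ≤
        2 ^ ((i + 1) * k) * M ^ k := by
      calc ((2 * W + 3 + 1) ^ 4) ^ (k + 1) * (q ^ c1) ^ k * M ^ k
          ≤ ((W + 1) ^ 4) ^ (k + 1) * (2 ^ 16) ^ k * (q ^ c1) ^ k * M ^ k :=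
            Nat.mul_le_mul_right _ (Nat.mul_le_mul_right _ h1)
        _ = ((W + 1) ^ 4) ^ (k + 1) * (T * ((2 ^ 16 * q ^ c1) * (8 * q ^ 2))) ^ k := by
            rw [hM, mul_assoc, mul_assoc, ← mul_pow, ← mul_pow]
            congr 2
            ring
        _ ≤ ((W + 1) ^ 4) ^ (k + 1) * (T * Q) ^ k := by
            apply Nat.mul_le_mul_left
            exact Nat.pow_le_pow_left (Nat.mul_le_mul_left _ hQ2) _
        _ ≤ P.card ^ k := hP
        _ ≤ (M * 2 ^ (i + 1)) ^ k := Nat.pow_le_pow_left hi1 _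
        _ = 2 ^ ((i + 1) * k) * M ^ k := by rw [mul_pow, ← pow_mul, mul_comm]
    exact Nat.le_of_mul_le_mul_right h2 (Nat.pow_pos hM0)
  -- the lower bound for one block
  obtain ⟨Dd, hDd⟩ : ∃ Dd, Dd = d n - (4 * L + 11) := ⟨_, rfl⟩
  obtain ⟨R, hR⟩ : ∃ R, R = xR a L Dd i := ⟨_, rfl⟩
  have hRle : R ≤ (L + 2) ^ a := by rw [hR]; exact xR_le _ _ _ _
  have hlarge := xB_large a L i (2 * W + 3) k hk (by
    rw [← hc1, ← hq]
    exact hcond)
  have hB4 : 4 * xB a L i ≤ L := by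
    unfold xB
    have := Nat.div_mul_le_self (i - 8 - (3 * a + 6) * xu L) 4
    omega
  obtain ⟨B, hBB⟩ : ∃ B, B = xB a L i := ⟨_, rfl⟩
  obtain ⟨e, he⟩ : ∃ e, e = B / (k + 1) + 1 := ⟨_, rfl⟩
  have h6 : 2 * d n ≤ 5 * ((k + 1) * (e * R)) + 15 * L + 20 * (k + 1) := by
    have h1 : 2 * ((a + 2) * xu L + 8) ≤ xB a L i :=
      le_trans (xB_ge a L (2 * W + 3) _ hlarge.2.2) (Nat.sub_le _ _)
    have := eR_largex a L Dd i (d n) k h1 hB4 (by omega)
      (le_trans b3 (Nat.pow_le_pow_left (by omega) _))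
    rw [← hBB, ← hR, ← he] at this
    exact this
  rw [← hBB, ← he] at hlarge
  rw [← hBB] at hB4
  have hok := big_okx a L R (2 * W + 3) i e B hRle (by omega) (by omega) hlarge.2.1
    (le_trans (Nat.mul_le_mul_left _ (Nat.pow_le_pow_right (by omega) (by omega))) hlarge.2.2)
  have hvm : xM R B ≤ 2 ^ i := by
    rw [hBB]
    exact xM_le a L i R hRle hlarge.1
  have h5 := hardX_lower R B e (2 ^ i) (2 * W + 3) i hlarge.2.1 hvm le_rfl hok.1 hok.2 D (by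
    intro x
    rw [hD1]
    unfold hardT
    rw [← hL, ← hDd, ← hBB, ← hR]) hD2
  by_contra hcon
  push Not at hcon
  obtain ⟨G, hG⟩ : ∃ G, G = 2 ^ (d n / (3 * (k + 1))) := ⟨_, rfl⟩
  have hG1 : 1 ≤ G := by rw [hG]; exact Nat.one_le_two_pow
  rw [← hG] at hcon
  have h7 : D.size ≤ P.card * G := by
    obtain ⟨k1, hk1⟩ : ∃ k1, k1 = 2 ^ t * (t + 1) := ⟨_, rfl⟩
    rw [← hk1] at hD3 hK'
    calc D.size ≤ (k1 * (3 * C.size + 1) + 1) * (2 * W + 3) := hD3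
      _ ≤ (k1 * (4 * G) + 4 * G) * (4 * (W + 1)) := by
          apply Nat.mul_le_mul _ (by omega)
          exact Nat.add_le_add (Nat.mul_le_mul_left _ (by omega)) (by omega)
      _ = 16 * (K' * (W + 1) * G) := by rw [← hK']; ring
      _ ≤ 16 * (T * q * (W + 1) * G) := by
          apply Nat.mul_le_mul_left
          exact Nat.mul_le_mul_right _ (Nat.mul_le_mul_right _ hK'le)
      _ = ((W + 1) * (T * (16 * q))) * G := by ring
      _ ≤ ((W + 1) * (T * Q)) * G := by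
          apply Nat.mul_le_mul_right
          exact Nat.mul_le_mul_left _ (Nat.mul_le_mul_left _ (by omega))
      _ ≤ P.card * G := Nat.mul_le_mul_right _ hWT
  have h8 : 2 ^ (e * R) < 2 ^ (L + 1 + d n / (3 * (k + 1))) := by
    refine lt_of_lt_of_le h5 (le_trans h7 ?_)
    rw [pow_add, ← hG]
    apply Nat.mul_le_mul_right
    omega
  have h9 : e * R < L + 1 + d n / (3 * (k + 1)) := (Nat.pow_lt_pow_iff_right (by norm_num)).mp h8
  obtain ⟨d', hd'⟩ : ∃ d', d' = d n / (3 * (k + 1)) := ⟨_, rfl⟩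
  rw [← hd'] at h9
  have h10 : 3 * ((k + 1) * d') ≤ d n := by
    rw [hd', ← mul_assoc]
    exact Nat.mul_div_le _ _
  have h11 : (k + 1) * (e * R) ≤ (k + 1) * L + (k + 1) * d' := by
    rw [← Nat.mul_add]
    exact Nat.mul_le_mul_left _ (by omega)
  have h12 : 2 * L ≤ (k + 1) * L := Nat.mul_le_mul_right _ (by omega)
  have h13 : (k + 1) * 12 ≤ (k + 1) * L := Nat.mul_le_mul_left _ hL12
  have h14 : 50 * ((k + 1) * L) ≤ d n := by
    rw [← mul_assoc]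
    exact hkd
  omega

end Pool.Agent.Results.MP_2af48a_lc.FewNegations
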