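import Pool.Agent.Lib_MP_2af48a_lc.UGraph

/-!
# Disjoint copies, version for circuits which are correct on a part of the inputs only
-/

open Finset Filter

namespace Pool.Agent.Results.MP_2af48a_lc.FewNegations

/-- The chain argument, version for promise problems. -/
theorem chainP {ι : Type*} (I : Finset ι) (g : ι → (ℕ → Bool) → Bool)
    (hmono : ∀ i ∈ I, Monotone (g i)) (F : (ℕ → Bool) → Bool)
    (hsep : ∀ w w' : ℕ → Bool, w ≤ w' → F w = false → F w' = true →
      ∃ i ∈ I, g i w = false ∧ g i w' = true)
    (Pos Neg : (ℕ → Bool) → Prop)
    (E : ℕ → (ℕ → Bool) → ℕ → Bool)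
    (B : ℕ) (hB : I.card < B)
    (H1 : ∀ j < B, ∀ y : ℕ → ℕ → Bool, (∀ k < j, Neg (y k)) → ∀ z, Pos z →
      F (fun p => decide (∃ k < j, E k (y k) p = true) || E j z p) = true)
    (H0 : ∀ j < B, ∀ y : ℕ → ℕ → Bool, (∀ k < j, Neg (y k)) →
      F (fun p => decide (∃ k < j, E k (y k) p = true)) = false) :
    ∃ j < B, ∃ w : ℕ → Bool,
      (∀ z, Pos z → ∃ i ∈ I, g i w = false ∧ g i (fun p => w p || E j z p) = true) ∧
      (∀ z, Neg z → ¬ ∃ i ∈ I, g i w = false ∧ g i (fun p => w p || E j z p) = true) := by
  classical
  by_contra hcon
  push Not at hcon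
  have key : ∀ j, j ≤ I.card + 1 → ∃ y : ℕ → ℕ → Bool, (∀ k < j, Neg (y k)) ∧
      (I.filter (fun i => g i (fun p => decide (∃ k < j, E k (y k) p = true)) = false)).card + j
        ≤ I.card := by
    intro j
    induction j with
    | zero =>
      intro _
      refine ⟨fun _ _ => false, fun k hk => absurd hk (Nat.not_lt_zero k), ?_⟩
      rw [add_zero]
      exact Finset.card_le_card (Finset.filter_subset _ _)
    | succ j ih =>
      intro hj
      obtain ⟨y, hy, hc⟩ := ih (by omega)
      have hjB : j < B := by omega
      set w : ℕ → Bool := fun p => decide (∃ k < j, E k (y k) p = true) with hw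
      have hFw : F w = false := H0 j hjB y hy
      have hle : ∀ z, w ≤ fun p => w p || E j z p := by
        intro z p
        show w p ≤ (w p || E j z p)
        cases w p <;> simp
      have hpos : ∀ z, Pos z → ∃ i ∈ I, g i w = false ∧ g i (fun p => w p || E j z p) = true :=
        fun z hz => hsep w _ (hle z) hFw (H1 j hjB y hy z hz)
      obtain ⟨z, hzN, i0, hi0, h3, h4⟩ := hcon j hjB w hpos
      refine ⟨Function.update y j z, ?_, ?_⟩
      · intro k hk
        by_cases hkj : k = j
        · subst hkj
          rw [Function.update_self]
          exact hzN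
        · rw [Function.update_of_ne hkj]
          exact hy k (by omega)
      · have hW : (fun p => decide (∃ k < j + 1, E k (Function.update y j z k) p = true))
            = fun p => w p || E j z p := by
          funext p
          rw [hw]
          apply Bool.eq_iff_iff.mpr
          simp only [decide_eq_true_eq, Bool.or_eq_true]
          constructor
          · rintro ⟨k, hk, h⟩
            by_cases hkj : k = j
            · subst hkj
              rw [Function.update_self] at h
              exact Or.inr h
            · rw [Function.update_of_ne hkj] at h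
              exact Or.inl ⟨k, by omega, h⟩
          · rintro (⟨k, hk, h⟩ | h)
            · refine ⟨k, by omega, ?_⟩
              rw [Function.update_of_ne (by omega)]
              exact h
            · refine ⟨j, by omega, ?_⟩
              rw [Function.update_self]
              exact h
        rw [hW]
        have hsub : I.filter (fun i => g i (fun p => w p || E j z p) = false)
            ⊆ (I.filter (fun i => g i w = false)).erase i0 := by
          intro i hi
          rw [Finset.mem_filter] at hi
          rw [Finset.mem_erase, Finset.mem_filter]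
          refine ⟨?_, hi.1, ?_⟩
          · intro h
            rw [h, h4] at hi
            exact absurd hi.2 (by simp)
          · have h5 := hmono i hi.1 (hle z)
            rw [hi.2] at h5
            exact le_antisymm h5 (Bool.false_le _)
        have h6 := Finset.card_le_card hsub
        have hi0m : i0 ∈ I.filter (fun i => g i w = false) := Finset.mem_filter.mpr ⟨hi0, h3⟩
        rw [Finset.card_erase_of_mem hi0m] at h6
        have h7 : 0 < (I.filter (fun i => g i w = false)).card := Finset.card_pos.mpr ⟨i0, hi0m⟩
        omega
  obtain ⟨y, -, hc⟩ := key (I.card + 1) le_rfl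
  omega

open SCup in
/-- Copies of a promise problem which is solved by a layered circuit with NOT gates: it has a narrow
circuit without NOT gates. -/
theorem layered_copiesP {n m : ℕ} (C : Layered n) (B : ℕ)
    (hB : 2 ^ C.negations * (C.negations + 1) < B) (Pos Neg : (Fin m → Bool) → Prop)
    (φ : ℕ → ℕ → Option (Fin m))
    (H1 : ∀ j < B, ∀ y : ℕ → Fin m → Bool, (∀ k < j, Neg (y k)) → ∀ z : Fin m → Bool, Pos z →
      C.eval (rst n (fun p => decide (∃ k < j, (φ k p).elim false (y k) = true) ||
        (φ j p).elim false z)) = true)
    (H0 : ∀ j < B, ∀ y : ℕ → Fin m → Bool, (∀ k < j, Neg (y k)) →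
      C.eval (rst n (fun p => decide (∃ k < j, (φ k p).elim false (y k) = true))) = false) :
    ∃ D : Layered m, (∀ z, Pos z → D.eval z = true) ∧ (∀ z, Neg z → D.eval z = false) ∧
      D.negations = 0 ∧ D.maxWidth ≤ 2 * C.maxWidth + 3 ∧
      D.size ≤ (2 ^ C.negations * (C.negations + 1) * (3 * C.size + 1) + 1) * (2 * C.maxWidth + 3) := by
  classical
  obtain ⟨j, hj, w, hw1, hw0⟩ := chainP (idxL C) (fun i X => (famL C i).eval (rst n X))
    (fun i _ => layered_monotone (famL C i) (famL_pos C i)) (fun X => C.eval (rst n X))
    (by
      intro w w' hle h0 h1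
      exact separateL C (rst n w) (rst n w') (fun i => hle i.val) h0 h1)
    (fun z => Pos (rst m z)) (fun z => Neg (rst m z))
    (fun j z p => (φ j p).elim false (rst m z))
    B (by rw [card_idxL]; exact hB)
    (fun j hj y hy z hz => H1 j hj (fun k => rst m (y k)) hy (rst m z) hz)
    (fun j hj y hy => H0 j hj (fun k => rst m (y k)) hy)
  set W := C.maxWidth with hW
  let σ : ℕ → Bool ⊕ ℕ := fun p => if w p = true then Sum.inl true else
    (φ j p).elim (Sum.inl false) (fun q => Sum.inr q.val)
  have hσ : ∀ z, sX σ z = fun p => w p || (φ j p).elim false (rst m z) := by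
    intro z
    funext p
    unfold sX
    by_cases hp : w p = true
    · simp [σ, hp]
    · have hp' : w p = false := by simpa using hp
      simp only [σ, hp', Bool.false_or]
      cases φ j p <;> simp [rst]
  have hσm : ∀ p < n, ∀ q, σ p = Sum.inr q → q < m := by
    intro p _ q h
    by_cases hp : w p = true
    · simp [σ, hp] at h
    · have hp' : w p = false := by simpa using hp
      simp only [σ, hp'] at h
      cases hφ : φ j p with
      | none => rw [hφ] at h; simp at h
      | some q' =>
        rw [hφ] at h
        simp only [Option.elim] at h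
        simp at h
        rw [← h]
        exact q'.isLt
  let I := (idxL C).filter (fun i => (famL C i).eval (rst n w) = false)
  have hI : ∀ i ∈ I, i ∈ idxL C := fun i hi => (Finset.mem_filter.mp hi).1
  have hwid : ∀ i ∈ I, ∀ j ≤ (famL C i).layers, (famL C i).width j ≤ W := by
    intro i hi j hj
    exact le_trans (width_le_max _ j hj) (famL_width C i (hI i hi))
  have hlen : ∀ i ∈ I, (famL C i).size ≤ C.size := fun i hi => famL_size C i (hI i hi)
  let pr : (Finset (Adr C) × Option (Adr C)) → List Ins × ℕ := fun i =>
    ((progL (famL C i) W (famL C i).layers).map (subI σ),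
      bk W (famL C i).layers + (famL C i).out.val)
  have hprv : ∀ i ∈ I, ∀ X s, run X s (pr i).1 (pr i).2
      = (famL C i).eval (rst n (fun p => w p || (φ j p).elim false (rst m X))) := by
    intro i hi X s
    change run X s ((progL (famL C i) W (famL C i).layers).map (subI σ))
      (bk W (famL C i).layers + (famL C i).out.val) = _
    rw [subI_run, hσ]
    exact progL_run (famL C i) W _ s (famL C i).layers (hwid i hi) (famL C i).out
  obtain ⟨D, hD1, hD2, hD3, hD4⟩ := exists_orL (2 * W + 2) m (3 * C.size) (I.toList.map pr)
    (fun P X => run X (fun _ => false) P.1 P.2) (by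
      intro P hP
      rw [List.mem_map] at hP
      obtain ⟨i, hi, rfl⟩ := hP
      rw [Finset.mem_toList] at hi
      refine ⟨?_, ?_, ?_, ?_⟩
      · have := bk_lt W (famL C i).layers (famL C i).out.val _ (famL C i).out.isLt
          (hwid i hi _ le_rfl)
        change bk W (famL C i).layers + (famL C i).out.val < 2 * W + 2
        omega
      · intro ins hins
        change ins ∈ (progL (famL C i) W (famL C i).layers).map (subI σ) at hins
        rw [List.mem_map] at hins
        obtain ⟨ins', hins', rfl⟩ := hins
        have h1 := progL_ok (famL C i) W (famL_pos C i) (famL C i).layers (hwid i hi) ins' hins'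
        exact ⟨subI_ok σ _ n m hσm ins' h1.1, by rw [subI_isNot]; exact h1.2⟩
      · change ((progL (famL C i) W (famL C i).layers).map (subI σ)).length ≤ 3 * C.size
        rw [List.length_map, progL_length]
        exact Nat.mul_le_mul_left 3 (hlen i hi)
      · intro X s
        rw [hprv i hi X s, hprv i hi X])
  have hDv : ∀ z, D.eval z = true ↔ ∃ i ∈ idxL C, (famL C i).eval (rst n w) = false ∧
      (famL C i).eval (rst n (fun p => w p || (φ j p).elim false (rst m (ext z)))) = true := by
    intro z
    have h1 := hD1 (ext z)
    rw [rst_ext] at h1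
    rw [h1, List.any_eq_true]
    constructor
    · rintro ⟨P, hP, hv⟩
      rw [List.mem_map] at hP
      obtain ⟨i, hi, rfl⟩ := hP
      rw [Finset.mem_toList] at hi
      rw [hprv i hi] at hv
      exact ⟨i, hI i hi, (Finset.mem_filter.mp hi).2, hv⟩
    · rintro ⟨i, hi, h3, h4⟩
      have hiI : i ∈ I := Finset.mem_filter.mpr ⟨hi, h3⟩
      refine ⟨pr i, List.mem_map.mpr ⟨i, Finset.mem_toList.mpr hiI, rfl⟩, ?_⟩
      rw [hprv i hiI]
      exact h4
  refine ⟨D, fun z hz => ?_, fun z hz => ?_, hD2, by omega, ?_⟩
  · rw [hDv]
    exact hw1 (ext z) (by rw [rst_ext]; exact hz)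
  · have h := hw0 (ext z) (by rw [rst_ext]; exact hz)
    by_contra hne
    have : D.eval z = true := by simpa using hne
    rw [hDv] at this
    exact h this
  · refine le_trans hD4 ?_
    apply Nat.mul_le_mul_right
    apply Nat.add_le_add_right
    apply Nat.mul_le_mul_right
    rw [List.length_map, Finset.length_toList, ← card_idxL]
    exact Finset.card_le_card (Finset.filter_subset _ _)

end Pool.Agent.Results.MP_2af48a_lc.FewNegations
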