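import Pool.Agent.Lib_MP_2af48a_lc.StConnectivity

namespace Pool.Agent.Results.MP_2af48a_lc.Undirected

open StConnectivity

/-- the graph coded by `x` is undirected -/
def Symm (n : ℕ) (x : Fin n → Bool) : Prop := ∀ u v, Arc n x u v → Arc n x v u

/-- there is a walk with `L` arcs from `0` to `N - 1` -/
def Walk (n : ℕ) (x : Fin n → Bool) (L : ℕ) : Prop :=
  ∃ p : ℕ → ℕ, p 0 = 0 ∧ p L = Nat.sqrt n - 1 ∧ ∀ i < L, Arc n x (p i) (p (i + 1))

end Pool.Agent.Results.MP_2af48a_lc.Undirected
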