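import Pool.Agent.Lib_MP_2af48a_lc.URec
import Pool.Agent.Lib_MP_2af48a_lc.UDefs

open Finset

namespace Pool.Agent.Results.MP_2af48a_lc.Undirected

open StConnectivity

/-! ## Paths and cuts in undirected graphs -/

section KW

variable {n D m : ℕ}

/-- the undirected graph of a path -/
def inXs (n : ℕ) (x : Fin D → Fin m) : Fin n → Bool := fun i =>
  decide (∃ p < D + 1,
    i.val = vn n m p (xv x p) * Nat.sqrt n + vn n m (p + 1) (xv x (p + 1)) ∨
    i.val = vn n m (p + 1) (xv x (p + 1)) * Nat.sqrt n + vn n m p (xv x p))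

/-- the undirected graph of a cut -/
def inYs (n : ℕ) (y : Fin D × Fin m → Bool) : Fin n → Bool := fun i =>
  side D y (i.val / Nat.sqrt n) == side D y (i.val % Nat.sqrt n)

lemma code_inj (N u v u' v' : ℕ) (hv : v < N) (hv' : v' < N) (h : u * N + v = u' * N + v') :
    u = u' ∧ v = v' := by
  have hN : 0 < N := by omega
  have e1 : (u * N + v) / N = u := by
    rw [Nat.add_comm, Nat.add_mul_div_right _ _ hN, Nat.div_eq_of_lt hv, zero_add]
  have e2 : (u * N + v) % N = v := by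
    rw [Nat.add_comm, Nat.add_mul_mod_self_right, Nat.mod_eq_of_lt hv]
  have e3 : (u' * N + v') / N = u' := by
    rw [Nat.add_comm, Nat.add_mul_div_right _ _ hN, Nat.div_eq_of_lt hv', zero_add]
  have e4 : (u' * N + v') % N = v' := by
    rw [Nat.add_comm, Nat.add_mul_mod_self_right, Nat.mod_eq_of_lt hv']
  constructor
  · rw [← e1, h, e3]
  · rw [← e2, h, e4]

lemma code_lt_n (n u v : ℕ) (hu : u < Nat.sqrt n) (hv : v < Nat.sqrt n) :
    u * Nat.sqrt n + v < n := by
  calc u * Nat.sqrt n + v < u * Nat.sqrt n + Nat.sqrt n := by omega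
    _ = (u + 1) * Nat.sqrt n := by ring
    _ ≤ Nat.sqrt n * Nat.sqrt n := Nat.mul_le_mul_right _ hu
    _ ≤ n := Nat.sqrt_le n

lemma arc_inXs (hN : D * m + 2 ≤ Nat.sqrt n) (x : Fin D → Fin m) (u v : ℕ) :
    Arc n (inXs n x) u v ↔ ∃ p < D + 1,
      (u = vn n m p (xv x p) ∧ v = vn n m (p + 1) (xv x (p + 1))) ∨
      (u = vn n m (p + 1) (xv x (p + 1)) ∧ v = vn n m p (xv x p)) := by
  constructor
  · rintro ⟨hu, hv, hlt, h⟩
    unfold inXs at h
    rw [decide_eq_true_eq] at h
    obtain ⟨p, hp, h⟩ := h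
    refine ⟨p, hp, ?_⟩
    rcases h with h | h
    · exact Or.inl (code_inj _ _ _ _ _ hv (vn_lt hN x (p + 1)) h)
    · exact Or.inr (code_inj _ _ _ _ _ hv (vn_lt hN x p) h)
  · rintro ⟨p, hp, h⟩
    have h1 := vn_lt hN x p
    have h2 := vn_lt hN x (p + 1)
    have hu : u < Nat.sqrt n := by rcases h with ⟨h, _⟩ | ⟨h, _⟩ <;> omega
    have hv : v < Nat.sqrt n := by rcases h with ⟨_, h⟩ | ⟨_, h⟩ <;> omega
    refine ⟨hu, hv, code_lt_n n u v hu hv, ?_⟩
    unfold inXs
    rw [decide_eq_true_eq]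
    refine ⟨p, hp, ?_⟩
    rcases h with ⟨h3, h4⟩ | ⟨h3, h4⟩
    · left
      show u * Nat.sqrt n + v = _
      rw [h3, h4]
    · right
      show u * Nat.sqrt n + v = _
      rw [h3, h4]

lemma inXs_symm (hN : D * m + 2 ≤ Nat.sqrt n) (x : Fin D → Fin m) : Symm n (inXs n x) := by
  intro u v h
  rw [arc_inXs hN] at h ⊢
  obtain ⟨p, hp, h⟩ := h
  refine ⟨p, hp, ?_⟩
  rcases h with ⟨h1, h2⟩ | ⟨h1, h2⟩
  · exact Or.inr ⟨h2, h1⟩
  · exact Or.inl ⟨h2, h1⟩

lemma inXs_walk (hN : D * m + 2 ≤ Nat.sqrt n) (x : Fin D → Fin m) :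
    Walk n (inXs n x) (D + 1) := by
  refine ⟨fun p => vn n m p (xv x p), ?_, ?_, ?_⟩
  · simp [xv, vn]
  · have : xv x (D + 1) = none := by
      unfold xv
      rw [dif_neg (by omega)]
    simp only [this, vn]
    rw [if_neg (by omega)]
  · intro i hi
    rw [arc_inXs hN]
    exact ⟨i, hi, Or.inl ⟨rfl, rfl⟩⟩

lemma arc_inYs (hN : D * m + 2 ≤ Nat.sqrt n) (y : Fin D × Fin m → Bool) (u v : ℕ)
    (h : Arc n (inYs n y) u v) : side D y u = side D y v := by
  obtain ⟨hu, hv, hlt, h⟩ := h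
  have hN0 : 0 < Nat.sqrt n := by omega
  have e1 : (u * Nat.sqrt n + v) / Nat.sqrt n = u := by
    rw [Nat.add_comm, Nat.add_mul_div_right _ _ hN0, Nat.div_eq_of_lt hv, zero_add]
  have e2 : (u * Nat.sqrt n + v) % Nat.sqrt n = v := by
    rw [Nat.add_comm, Nat.add_mul_mod_self_right, Nat.mod_eq_of_lt hv]
  unfold inYs at h
  simp only at h
  rw [e1, e2] at h
  exact beq_iff_eq.mp h

lemma inYs_symm (hN : D * m + 2 ≤ Nat.sqrt n) (y : Fin D × Fin m → Bool) : Symm n (inYs n y) := by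
  intro u v h
  have h1 := arc_inYs hN y u v h
  obtain ⟨hu, hv, hlt, -⟩ := h
  refine ⟨hv, hu, code_lt_n n v u hv hu, ?_⟩
  have hN0 : 0 < Nat.sqrt n := by omega
  have e1 : (v * Nat.sqrt n + u) / Nat.sqrt n = v := by
    rw [Nat.add_comm, Nat.add_mul_div_right _ _ hN0, Nat.div_eq_of_lt hu, zero_add]
  have e2 : (v * Nat.sqrt n + u) % Nat.sqrt n = u := by
    rw [Nat.add_comm, Nat.add_mul_mod_self_right, Nat.mod_eq_of_lt hu]
  unfold inYs
  simp only
  rw [e1, e2, h1]
  simp

lemma inYs_false (hN : D * m + 2 ≤ Nat.sqrt n) (y : Fin D × Fin m → Bool) :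
    stconn n (inYs n y) = false := by
  classical
  unfold stconn
  refine decide_eq_false ?_
  intro h
  have key : ∀ v, Relation.ReflTransGen (Arc n (inYs n y)) 0 v → side D y v = true := by
    intro v hv
    induction hv with
    | refl => simp [side]
    | @tail u v _ huv ih => rw [← arc_inYs hN y u v huv]; exact ih
  have h1 := key _ h
  rw [side_sink hN y] at h1
  exact absurd h1 (by decide)

lemma dec2_vn (hN : D * m + 2 ≤ Nat.sqrt n) (hm : 0 < m) (x : Fin D → Fin m) (p : ℕ) (hp : p ≤ D) :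
    dec2 n m hm (vn n m p (xv x p)) (vn n m (p + 1) (xv x (p + 1))) = (p, xv x p, xv x (p + 1)) := by
  unfold dec2
  have hx1 : (if vn n m p (xv x p) = 0 then 0 else (vn n m p (xv x p) - 1) / m + 1) = p ∧
      (if vn n m p (xv x p) = 0 then none else
        some (⟨(vn n m p (xv x p) - 1) % m, Nat.mod_lt _ hm⟩ : Fin m)) = xv x p := by
    by_cases hp0 : p = 0
    · subst hp0
      simp [xv, vn]
    · have hxv : xv x p = some (x ⟨p - 1, by omega⟩) := by
        unfold xv
        rw [dif_pos ⟨by omega, by omega⟩]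
      rw [hxv]
      set a := x ⟨p - 1, by omega⟩ with ha
      have ham := a.isLt
      have hvn : vn n m p (some a) = 1 + (p - 1) * m + a.val := rfl
      have f1 : vn n m p (some a) - 1 = a.val + (p - 1) * m := by omega
      have f2 : ¬ (vn n m p (some a) = 0) := by omega
      rw [if_neg f2, if_neg f2]
      constructor
      · rw [f1, Nat.add_mul_div_right _ _ hm, Nat.div_eq_of_lt ham]
        omega
      · congr 1
        apply Fin.ext
        simp only
        rw [f1, Nat.add_mul_mod_self_right, Nat.mod_eq_of_lt ham]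
  have hx2 : (if vn n m (p + 1) (xv x (p + 1)) = Nat.sqrt n - 1 then none else
        some (⟨(vn n m (p + 1) (xv x (p + 1)) - 1) % m, Nat.mod_lt _ hm⟩ : Fin m))
        = xv x (p + 1) := by
    by_cases hpD : p = D
    · have hxv : xv x (p + 1) = none := by
        unfold xv
        rw [dif_neg (by omega)]
      rw [hxv]
      simp [vn]
    · have hxv : xv x (p + 1) = some (x ⟨p, by omega⟩) := by
        unfold xv
        rw [dif_pos ⟨by omega, by omega⟩]
        rfl
      rw [hxv]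
      set a := x ⟨p, by omega⟩ with ha
      have ham := a.isLt
      have h2 : p * m + m ≤ D * m := by
        calc p * m + m = (p + 1) * m := by ring
          _ ≤ D * m := Nat.mul_le_mul_right _ (by omega)
      have hvn : vn n m (p + 1) (some a) = 1 + p * m + a.val := rfl
      have f1 : vn n m (p + 1) (some a) - 1 = a.val + p * m := by omega
      have f2 : ¬ (vn n m (p + 1) (some a) = Nat.sqrt n - 1) := by omega
      rw [if_neg f2]
      congr 1
      apply Fin.ext
      simp only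
      rw [f1, Nat.add_mul_mod_self_right, Nat.mod_eq_of_lt ham]
  rw [hx1.1, hx1.2, hx2]

/-- the two possible positions of an edge -/
def decs (n m : ℕ) (hm : 0 < m) (i : ℕ) : Finset (ℕ × Option (Fin m) × Option (Fin m)) :=
  {dec2 n m hm (i / Nat.sqrt n) (i % Nat.sqrt n), dec2 n m hm (i % Nat.sqrt n) (i / Nat.sqrt n)}

lemma violate_und (hN : D * m + 2 ≤ Nat.sqrt n) (hm : 0 < m) (x : Fin D → Fin m)
    (y : Fin D × Fin m → Bool) (i : Fin n) (hx : inXs n x i = true) (hy : inYs n y i = false) :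
    ∃ p ≤ D, (p, xv x p, xv x (p + 1)) ∈ decs n m hm i.val ∧ zv x y p ≠ zv x y (p + 1) := by
  unfold inXs at hx
  rw [decide_eq_true_eq] at hx
  obtain ⟨p, hp, hi⟩ := hx
  have hNpos : 0 < Nat.sqrt n := by omega
  have hu := vn_lt hN x p
  have hv := vn_lt hN x (p + 1)
  refine ⟨p, by omega, ?_⟩
  rcases hi with hi | hi
  · have e1 : i.val / Nat.sqrt n = vn n m p (xv x p) := by
      rw [hi, Nat.add_comm, Nat.add_mul_div_right _ _ hNpos, Nat.div_eq_of_lt hv, zero_add]
    have e2 : i.val % Nat.sqrt n = vn n m (p + 1) (xv x (p + 1)) := by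
      rw [hi, Nat.add_comm, Nat.add_mul_mod_self_right, Nat.mod_eq_of_lt hv]
    constructor
    · unfold decs
      rw [e1, e2, dec2_vn hN hm x p (by omega)]
      exact Finset.mem_insert_self _ _
    · unfold inYs at hy
      rw [e1, e2, side_vn hN x y p (by omega), side_vn hN x y (p + 1) (by omega)] at hy
      simpa using hy
  · have e1 : i.val / Nat.sqrt n = vn n m (p + 1) (xv x (p + 1)) := by
      rw [hi, Nat.add_comm, Nat.add_mul_div_right _ _ hNpos, Nat.div_eq_of_lt hu, zero_add]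
    have e2 : i.val % Nat.sqrt n = vn n m p (xv x p) := by
      rw [hi, Nat.add_comm, Nat.add_mul_mod_self_right, Nat.mod_eq_of_lt hu]
    constructor
    · unfold decs
      rw [e1, e2, dec2_vn hN hm x p (by omega)]
      exact Finset.mem_insert_of_mem (Finset.mem_singleton_self _)
    · unfold inYs at hy
      rw [e1, e2, side_vn hN x y p (by omega), side_vn hN x y (p + 1) (by omega)] at hy
      have h : zv x y (p + 1) ≠ zv x y p := by simpa using hy
      exact h.symm

end KW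

/-- The lower bound with parameters. -/
theorem und_lower {n : ℕ} (C : MonLayered n)
    (D r r1 q S R δ lc lq : ℕ) (hS : C.maxWidth ≤ S)
    (hC1 : ∀ x : Fin D → Fin (r * r), C.eval (inXs n x) = true)
    (hC0 : ∀ y : Fin D × Fin (r * r) → Bool, C.eval (inYs n y) = false)
    (hr : r = 4 * q * r1) (hr1 : 0 < r1) (hq : 0 < q) (hSr : 8 * S < r) (hRD : 2 * R ≤ D)
    (hRD2 : 2 ^ (R + 1) ≤ D + 1)
    (hN : D * (r * r) + 2 ≤ Nat.sqrt n)
    (hlc : D * (r * r) * 2 + 1 ≤ 2 ^ lc) (hlq : 2 * q ≤ 2 ^ lq)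
    (hδ : R * lc + 2 * S + lq + 1 ≤ δ)
    (hbig : 20 * R * ((R * δ + 2) * 2) ≤ r1) : q ^ R < C.size := by
  classical
  by_contra hle
  push Not at hle
  have hr0 : 0 < r := by rw [hr]; positivity
  have hm : 0 < r * r := Nat.mul_pos hr0 hr0
  obtain ⟨t0, ht0, hw0, hlay⟩ := empty_layer C
  have hwS : ∀ t ≤ C.layers, C.width t ≤ S := fun t ht => le_trans (width_le C t ht) hS
  have hstS : ∀ t ≤ C.layers, ∀ x y : Fin n → Bool, sepS C S t x (stateOf C S t y) ↔
      ∃ g, C.val x t g = true ∧ C.val y t g = false := fun t ht x y => sepS_iff C S t (hwS t ht) x y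
  refine recursionU (M := Fin (r * r)) (σ := Fin S → Bool) r r1 q S R δ lc lq C.layers (by simp) hr hr1 hq
    hSr hRD (by simp) hlc hlq hδ hbig
    (fun t y => stateOf C S t (inYs n y)) (fun t x b => sepS C S t (inXs n x) b)
    (fun t => (readVars C t).biUnion (decs n (r * r) hm)) ?_ ?_ R 0 rfl t0 C.layers ht0 le_rfl
    (by omega) univ ∅ (fun _ => ⟨0, hm⟩) (fun _ => true) 0 (D + 1) univ ?_ (by simp) ?_ ?_ (by simp)
    (by simp) (by simpa using hRD2) le_rfl (by simp) (by simp) ?_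
  · intro t ht
    have h1 : ((readVars C t).biUnion (decs n (r * r) hm)).card ≤ (readVars C t).card * 2 := by
      refine le_trans Finset.card_biUnion_le ?_
      calc ∑ u ∈ readVars C t, (decs n (r * r) hm u).card ≤ ∑ _u ∈ readVars C t, 2 := by
            apply Finset.sum_le_sum
            intro u _
            exact Finset.card_le_two
        _ = _ := by rw [Finset.sum_const, smul_eq_mul]
    have h2 := readVars_card C t
    have h3 := hwS (t + 1) ht
    omega
  · intro t ht x y h1 h2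
    rw [hstS t ht.le] at h1
    rw [hstS (t + 1) ht] at h2
    obtain ⟨i, hi, hx, hy⟩ := step_sep C t _ _ h1 h2
    obtain ⟨p, hp, hdec, hz⟩ := violate_und hN hm x y i hx hy
    refine ⟨p, hp, ?_, hz⟩
    rw [Finset.mem_biUnion]
    exact ⟨i.val, hi, hdec⟩
  · exact ⟨fun _ => ⟨0, hm⟩, Finset.mem_univ _⟩
  · intro K _ γ
    have h1 := card_prescribed K γ
    rw [Fintype.card_fin] at h1
    have h2 : r ^ K.card ≤ (r * r) ^ K.card := Nat.pow_le_pow_left (Nat.le_mul_of_pos_left r hr0) _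
    calc _ ≤ _ * (r * r) ^ K.card := Nat.mul_le_mul_left _ h2
      _ = (r * r) ^ Fintype.card (Fin D) := h1
      _ ≤ _ := by simp
  · simp
  · intro x _ y _
    constructor
    · rw [hstS t0 ht0]
      rintro ⟨g, _⟩
      have := g.isLt
      omega
    · rw [hstS C.layers le_rfl]
      exact ⟨C.out, hC1 x, hC0 y⟩

/-- The lower bound for width up to `2 ^ (2 * (log n / 40))`. -/
theorem und_width {n : ℕ} (C : MonLayered n) (L : ℕ)
    (hC1 : ∀ x, Symm n x → (∃ i ≤ L, Walk n x i) → C.eval x = true)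
    (hC0 : ∀ x, Symm n x → stconn n x = false → C.eval x = false)
    (e R : ℕ) (he : e ≤ Nat.log 2 n / 40) (he9 : 10 ≤ e) (hw : C.maxWidth ≤ 2 ^ (2 * e))
    (hRe : R ≤ e) (hRL : 2 ^ (R + 1) ≤ L) :
    2 ^ (e * R) < C.size := by
  have hsq := sq_le_two_pow e (by omega)
  have hpow10 : 2 ^ 10 ≤ 2 ^ e := Nat.pow_le_pow_right (by norm_num) he9
  have h2e : 2 ^ (2 * e) = 2 ^ e * 2 ^ e := by rw [← pow_add]; congr 1; ring
  have hn0 : n ≠ 0 := by
    rintro rfl
    simp at he
    omega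
  obtain ⟨D, hD⟩ : ∃ D, D + 1 = 2 ^ (R + 1) :=
    ⟨2 ^ (R + 1) - 1, Nat.sub_add_cancel Nat.one_le_two_pow⟩
  have hDe : D + 1 ≤ 2 ^ (e + 1) := by
    rw [hD]
    exact Nat.pow_le_pow_right (by norm_num) (by omega)
  have hRD : 2 * R ≤ D := by
    have h1 : 2 * R + 1 ≤ 2 ^ (R + 1) := by
      have h2 : R + 1 ≤ 2 ^ R := Nat.lt_two_pow_self
      rw [pow_succ]
      omega
    omega
  have hN : D * (2 ^ (5 * e + 2) * 2 ^ (5 * e + 2)) + 2 ≤ Nat.sqrt n := by
    rw [Nat.le_sqrt]
    have h1 : 2 ^ (40 * e) ≤ n := by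
      refine le_trans (Nat.pow_le_pow_right (by norm_num) ?_) (Nat.pow_log_le_self 2 hn0)
      omega
    have h2 : D * (2 ^ (5 * e + 2) * 2 ^ (5 * e + 2)) + 2 ≤ 2 ^ (20 * e) := by
      have h0 : D * (2 ^ (5 * e + 2) * 2 ^ (5 * e + 2)) ≤
          2 ^ (e + 1) * (2 ^ (5 * e + 2) * 2 ^ (5 * e + 2)) := Nat.mul_le_mul_right _ (by omega)
      rw [← pow_add, ← pow_add] at h0
      have h3 : 2 ^ (e + 1 + (5 * e + 2 + (5 * e + 2))) ≤ 2 ^ (20 * e - 1) :=
        Nat.pow_le_pow_right (by norm_num) (by omega)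
      have h4 : 2 ^ (20 * e) = 2 * 2 ^ (20 * e - 1) := by
        rw [← pow_succ']; congr 1; omega
      have h5 : 2 ^ 1 ≤ 2 ^ (20 * e - 1) := Nat.pow_le_pow_right (by norm_num) (by omega)
      rw [← pow_add]
      omega
    calc _ ≤ 2 ^ (20 * e) * 2 ^ (20 * e) := Nat.mul_le_mul h2 h2
      _ = 2 ^ (40 * e) := by rw [← pow_add]; congr 1; ring
      _ ≤ n := h1
  have key := und_lower C D (2 ^ (5 * e + 2)) (2 ^ (4 * e)) (2 ^ e) (2 ^ (2 * e)) R
    (2 ^ (2 * e + 2)) (11 * e + 7) (e + 1) hw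
    (fun x => hC1 _ (inXs_symm hN x) ⟨D + 1, by omega, inXs_walk hN x⟩)
    (fun y => hC0 _ (inYs_symm hN y) (inYs_false hN y)) (by
      rw [show (4 : ℕ) = 2 ^ 2 by norm_num, ← pow_add, ← pow_add]; congr 1; ring)
    (by positivity) (by positivity) (by
      rw [show (8 : ℕ) = 2 ^ 3 by norm_num, ← pow_add]
      exact Nat.pow_lt_pow_right (by norm_num) (by omega))
    hRD hD.ge hN
    (by
      have h0 : D * (2 ^ (5 * e + 2) * 2 ^ (5 * e + 2)) * 2 ≤
          2 ^ (e + 1) * (2 ^ (5 * e + 2) * 2 ^ (5 * e + 2)) * 2 :=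
        Nat.mul_le_mul_right _ (Nat.mul_le_mul_right _ (by omega))
      have h1 : 2 ^ (e + 1) * (2 ^ (5 * e + 2) * 2 ^ (5 * e + 2)) * 2 = 2 ^ (11 * e + 6) := by
        rw [← pow_add, ← pow_add, ← pow_succ]; congr 1; ring
      have h2 : 2 ^ (11 * e + 7) = 2 * 2 ^ (11 * e + 6) := by rw [← pow_succ']
      have : 1 ≤ 2 ^ (11 * e + 6) := Nat.one_le_two_pow
      omega)
    (by rw [pow_succ]; omega)
    (by
      rw [pow_add, h2e]
      nlinarith)
    (by
      rw [show 4 * e = 2 * e + 2 * e by ring, pow_add, pow_add, h2e]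
      set b := 2 ^ e with hb
      have h1 : e ≤ e * e := by nlinarith
      have h2 : 1 ≤ e * (b * b) := by
        have : 1 ≤ b * b := by nlinarith
        nlinarith
      calc 20 * R * ((R * (b * b * 2 ^ 2) + 2) * 2) ≤ 20 * e * ((e * (b * b * 2 ^ 2) + 2) * 2) := by
            gcongr
        _ = 160 * ((e * e) * (b * b)) + 80 * e := by ring
        _ ≤ 160 * (b * (b * b)) + 80 * b := by
            have : e ≤ b := le_trans h1 hsq
            gcongr
        _ ≤ b * b * (b * b) := by nlinarith [Nat.mul_le_mul hpow10 (le_refl (b * b * b))])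
  calc 2 ^ (e * R) = (2 ^ e) ^ R := by rw [pow_mul]
    _ < C.size := key

end Pool.Agent.Results.MP_2af48a_lc.Undirected
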