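import Pool.Agent.Lib_MP_2af48a_lc.UCopies

/-!
# Copies of small undirected graphs in a large undirected graph
-/

open Finset Filter

namespace Pool.Agent.Results.MP_2af48a_lc.FewNegations

section UGraph

open StConnectivity (Arc stconn)
open Undirected (Symm Walk)

/-- the large graph -/
def bigG (n m j : ℕ) (y : ℕ → Fin m → Bool) (z : Fin m → Bool) : Fin n → Bool :=
  rst n (fun p => decide (∃ k < j, (gblk n m k p).elim false (y k) = true) ||
      (gblk n m j p).elim false z)

lemma bigG_arc (n m j : ℕ) (hm : 4 ≤ m) (hN : (j + 1) * (Nat.sqrt m - 2) + 2 ≤ Nat.sqrt n)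
    (y : ℕ → Fin m → Bool) (z : Fin m → Bool) (U V : ℕ) :
    Arc n (bigG n m j y z) U V ↔
    U < Nat.sqrt n ∧ V < Nat.sqrt n ∧ ∃ k ≤ j, ∃ u v, inv (Nat.sqrt n) (Nat.sqrt m) k U = some u ∧
      inv (Nat.sqrt n) (Nat.sqrt m) k V = some v ∧ Arc m (if k < j then y k else z) u v := by
  have h := arc_iff n m j hm hN (fun k => if k < j then y k else z) U V
  have e : (fun p => decide (∃ k < j, (gblk n m k p).elim false (y k) = true) ||
      (gblk n m j p).elim false z) = (fun p =>
      decide (∃ k < j, (gblk n m k p).elim false ((fun k => if k < j then y k else z) k) = true) ||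
      (gblk n m j p).elim false ((fun k => if k < j then y k else z) j)) := by
    funext p
    have h1 : (fun k => if k < j then y k else z) j = z := by simp
    rw [h1]
    congr 1
    apply Bool.eq_iff_iff.mpr
    rw [decide_eq_true_eq, decide_eq_true_eq]
    constructor
    · rintro ⟨k, hk, h⟩
      exact ⟨k, hk, by simp only [if_pos hk]; exact h⟩
    · rintro ⟨k, hk, h⟩
      exact ⟨k, hk, by simp only [if_pos hk] at h; exact h⟩
  unfold bigG
  rw [e]
  exact h

lemma bigG_symm (n m j : ℕ) (hm : 4 ≤ m) (hN : (j + 1) * (Nat.sqrt m - 2) + 2 ≤ Nat.sqrt n)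
    (y : ℕ → Fin m → Bool) (hy : ∀ k < j, Symm m (y k)) (z : Fin m → Bool) (hz : Symm m z) :
    Symm n (bigG n m j y z) := by
  intro U V h
  rw [bigG_arc n m j hm hN] at h ⊢
  obtain ⟨hU, hV, k, hk, u, v, hu, hv, h⟩ := h
  refine ⟨hV, hU, k, hk, v, u, hv, hu, ?_⟩
  by_cases hkj : k < j
  · rw [if_pos hkj] at h ⊢
    exact hy k hkj u v h
  · rw [if_neg hkj] at h ⊢
    exact hz u v h

lemma bigG_walk (n m j : ℕ) (hm : 4 ≤ m) (hN : (j + 1) * (Nat.sqrt m - 2) + 2 ≤ Nat.sqrt n)
    (y : ℕ → Fin m → Bool) (z : Fin m → Bool) (i : ℕ) (hz : Walk m z i) :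
    Walk n (bigG n m j y z) i := by
  have hM : 2 ≤ Nat.sqrt m := by rw [Nat.le_sqrt]; omega
  obtain ⟨p, h0, h1, h2⟩ := hz
  refine ⟨fun t => emb (Nat.sqrt n) (Nat.sqrt m) j (p t), ?_, ?_, ?_⟩
  · simp only [h0]
    simp [emb]
  · simp only [h1]
    unfold emb
    rw [if_neg (by omega), if_pos rfl]
  · intro t ht
    have h3 := h2 t ht
    have hu := h3.1
    have hv := h3.2.1
    rw [bigG_arc n m j hm hN]
    refine ⟨emb_lt _ _ j _ hM hu hN, emb_lt _ _ j _ hM hv hN, j, le_rfl, p t, p (t + 1),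
      inv_emb _ _ j _ hM hu hN, inv_emb _ _ j _ hM hv hN, ?_⟩
    rw [if_neg (lt_irrefl j)]
    exact h3

lemma bigG_zero (n m j : ℕ) (y : ℕ → Fin m → Bool) :
    rst n (fun p => decide (∃ k < j, (gblk n m k p).elim false (y k) = true)) =
      bigG n m j y (fun _ => false) := by
  unfold bigG
  congr 1
  funext p
  have : (gblk n m j p).elim false (fun _ : Fin m => false) = false := by
    cases gblk n m j p <;> rfl
  rw [this, Bool.or_false]

/-- A layered circuit with few NOT gates for undirected st-connectivity contains a circuit without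
NOT gates for undirected st-connectivity of smaller graphs. -/
theorem und_copies {n m : ℕ} (C : Layered n) (L : ℕ)
    (hC1 : ∀ x, Symm n x → (∃ i ≤ L, Walk n x i) → C.eval x = true)
    (hC0 : ∀ x, Symm n x → stconn n x = false → C.eval x = false) (hm : 4 ≤ m)
    (hN : (2 ^ C.negations * (C.negations + 1) + 1) * Nat.sqrt m ≤ Nat.sqrt n) :
    ∃ D : StConnectivity.MonLayered m,
      (∀ x, Symm m x → (∃ i ≤ L, Walk m x i) → D.eval x = true) ∧
      (∀ x, Symm m x → stconn m x = false → D.eval x = false) ∧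
      D.maxWidth ≤ 2 * C.maxWidth + 3 ∧
      D.size ≤ (2 ^ C.negations * (C.negations + 1) * (3 * C.size + 1) + 1) * (2 * C.maxWidth + 3) := by
  set B := 2 ^ C.negations * (C.negations + 1) + 1 with hB
  set M := Nat.sqrt m with hMdef
  have hM : 2 ≤ M := by rw [hMdef, Nat.le_sqrt]; omega
  have hBpos : 1 ≤ B := Nat.succ_le_succ (Nat.zero_le _)
  have hN' : ∀ j < B, (j + 1) * (M - 2) + 2 ≤ Nat.sqrt n := by
    intro j hj
    have h1 : (j + 1) * (M - 2) ≤ B * (M - 2) := Nat.mul_le_mul_right _ hj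
    have h2 : B * (M - 2) + B * 2 = B * M := by
      rw [← Nat.mul_add]
      congr 1
      omega
    omega
  have hs0 : Symm m (fun _ => false) := by
    rintro u v ⟨_, _, _, h⟩
    exact absurd h (by simp)
  obtain ⟨D, hD1, hD0, hD2, hD3, hD4⟩ := layered_copiesP C B (Nat.lt_succ_self _)
    (fun z => Symm m z ∧ ∃ i ≤ L, Walk m z i) (fun y => Symm m y ∧ stconn m y = false) (gblk n m)
    (fun j hj y hy z hz => by
      obtain ⟨hz1, i, hi, hz2⟩ := hz
      exact hC1 (bigG n m j y z) (bigG_symm n m j hm (hN' j hj) y (fun k hk => (hy k hk).1) z hz1)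
        ⟨i, hi, bigG_walk n m j hm (hN' j hj) y z i hz2⟩)
    (fun j hj y hy => by
      rw [bigG_zero]
      refine hC0 _ (bigG_symm n m j hm (hN' j hj) y (fun k hk => (hy k hk).1) _ hs0) ?_
      unfold bigG
      rw [graph_copies n m j hm (hN' j hj) y (fun k hk => (hy k hk).2) (fun _ => false)]
      exact stconn_zero m hm)
  obtain ⟨D', hD'1, hD'2, hD'3⟩ := layered_to_mon (m := m) (r := 0) D hD2.le
    D.eval (fun X => rfl)
  refine ⟨D', fun x h1 h2 => ?_, fun x h1 h2 => ?_, by rw [hD'3]; exact hD3, by rw [hD'2]; exact hD4⟩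
  · rw [hD'1]
    exact hD1 x ⟨h1, h2⟩
  · rw [hD'1]
    exact hD0 x ⟨h1, h2⟩

end UGraph

end Pool.Agent.Results.MP_2af48a_lc.FewNegations
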