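import Pool.Agent.Lib_MP_2af48a_lc.CopiesProof

/-!
# Undirected st-connectivity: lower bound for monotone layered circuits
-/

open Finset

namespace Pool.Agent.Results.MP_2af48a_lc.Undirected

open StConnectivity

section Rec

variable {D : ℕ} {M : Type*} [Fintype M] [DecidableEq M]

/-- The recursion over time intervals. -/
theorem recursionU {σ : Type*} [Fintype σ] [DecidableEq σ] (r r1 q S R δ lc lq Tm : ℕ)
    (hM : Fintype.card M = r * r)
    (hr : r = 4 * q * r1) (hr1 : 0 < r1) (hq : 0 < q) (hSr : 8 * S < r) (hRD : 2 * R ≤ D)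
    (hσ : Fintype.card σ ≤ 2 ^ S)
    (hlc : D * (r * r) * 2 + 1 ≤ 2 ^ lc) (hlq : 2 * q ≤ 2 ^ lq)
    (hδ : R * lc + 2 * S + lq + 1 ≤ δ)
    (hbig : 20 * R * ((R * δ + 2) * 2) ≤ r1)
    (st : ℕ → (Fin D × M → Bool) → σ) (sep : ℕ → (Fin D → M) → σ → Prop)
    (Rd : ℕ → Finset (ℕ × Option M × Option M)) (hRd : ∀ t < Tm, (Rd t).card ≤ 2 * (2 * S))
    (hstep : ∀ t < Tm, ∀ x y, ¬ sep t x (st t y) → sep (t + 1) x (st (t + 1) y) →
      ∃ p ≤ D, (p, xv x p, xv x (p + 1)) ∈ Rd t ∧ zv x y p ≠ zv x y (p + 1))
    (k : ℕ) : ∀ s, k + s = R → ∀ t0 t1, t0 ≤ t1 → t1 ≤ Tm → t1 ≤ t0 + q ^ k →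
    ∀ (P : Finset (Fin D → M)) (I : Finset (Fin D)) (γ : Fin D → M) (z : Fin D → Bool) (i j : ℕ)
      (Y : Finset (Fin D × M → Bool)), P.Nonempty → (∀ x ∈ P, ∀ v ∈ I, x v = γ v) → Dense r P I →
      (Fintype.card M) ^ D ≤ P.card * (4 * q) ^ s * r ^ I.card →
      2 ^ (Fintype.card (Fin D × M)) ≤ Y.card * 2 ^ (s * δ) →
      (∀ y ∈ Y, ∀ v ∈ I, y (v, γ v) = z v) →
      i + 2 ^ (R + 1 - I.card) ≤ j → j ≤ D + 1 → I.card ≤ R →
      (∀ v ∈ I, (v.val + 1 ≤ i ∧ z v = true) ∨ (j ≤ v.val + 1 ∧ z v = false)) →
      (∀ x ∈ P, ∀ y ∈ Y, ¬ sep t0 x (st t0 y) ∧ sep t1 x (st t1 y)) → False := by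
  classical
  have hr0 : 0 < r := by rw [hr]; positivity
  induction k with
  | zero =>
    intro s hs t0 t1 h01 h1T hlen P I γ z i j Y hP hγ hd hc hY hyz hgap hjD hIR hg hall
    have hYne : Y.Nonempty := by
      rw [Finset.nonempty_iff_ne_empty]
      rintro rfl
      simp at hY
    rw [pow_zero] at hlen
    rcases Nat.lt_or_ge t0 t1 with hlt | hge
    · have ht1 : t1 = t0 + 1 := by omega
      subst ht1
      obtain ⟨x, hx, hav⟩ := avoid r (2 * S) P hP I hd (Rd t0) (hRd t0 (by omega)) (by omega)
      obtain ⟨y, hy⟩ := hYne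
      obtain ⟨p, hpD, hpR, hz⟩ := hstep t0 (by omega) x y (hall x hx y hy).1 (hall x hx y hy).2
      have hgap2 : i + 2 ≤ j := by
        have : 2 ^ 1 ≤ 2 ^ (R + 1 - I.card) := Nat.pow_le_pow_right (by norm_num) (by omega)
        omega
      -- position p
      have hk1 : (p ≤ i ∧ zv x y p = true) ∨ (j ≤ p ∧ zv x y p = false) := by
        rcases Nat.eq_zero_or_pos p with h0 | h0
        · left
          refine ⟨by omega, ?_⟩
          rw [h0]
          simp [zv]
        · obtain ⟨v, hv⟩ : ∃ v : Fin D, p = v.val + 1 := ⟨⟨p - 1, by omega⟩, by simp only; omega⟩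
          have hvI : v ∈ I := by
            by_contra hvI
            refine (hav _ hpR v hvI).1 ⟨hv.symm, ?_⟩
            simp only
            rw [hv, xv_succ]
          rw [hv, zv_succ, hγ x hx v hvI, hyz y hy v hvI]
          exact hg v hvI
      have hk2 : (p + 1 ≤ i ∧ zv x y (p + 1) = true) ∨ (j ≤ p + 1 ∧ zv x y (p + 1) = false) := by
        rcases Nat.lt_or_ge p D with h0 | h0
        · obtain ⟨v, hv⟩ : ∃ v : Fin D, p = v.val := ⟨⟨p, h0⟩, rfl⟩
          have hvI : v ∈ I := by
            by_contra hvI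
            refine (hav _ hpR v hvI).2 ⟨hv.symm, ?_⟩
            simp only
            rw [hv, xv_succ]
          rw [hv, zv_succ, hγ x hx v hvI, hyz y hy v hvI]
          exact hg v hvI
        · right
          refine ⟨by omega, ?_⟩
          unfold zv
          rw [dif_neg (by omega)]
          simp
      rcases hk1 with ⟨h1, h2⟩ | ⟨h1, h2⟩ <;> rcases hk2 with ⟨h3, h4⟩ | ⟨h3, h4⟩
      · rw [h2, h4] at hz
        exact hz rfl
      · omega
      · omega
      · rw [h2, h4] at hz
        exact hz rfl
    · have : t1 = t0 := by omega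
      subst this
      obtain ⟨x, hx⟩ := hP
      obtain ⟨y, hy⟩ := hYne
      exact (hall x hx y hy).1 (hall x hx y hy).2
  | succ k ih =>
    intro s hs t0 t1 h01 h1T hlen P I γ z i j Y hP hγ hd hc hY hyz hgap hjD hIR hg hall
    have hYne : Y.Nonempty := by
      rw [Finset.nonempty_iff_ne_empty]
      rintro rfl
      simp at hY
    -- partition points
    let τ : ℕ → ℕ := fun a => min (t0 + a * q ^ k) t1
    have hτ0 : τ 0 = t0 := by simp only [τ]; rw [zero_mul, add_zero]; exact min_eq_left h01
    have hτq : τ q = t1 := by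
      simp only [τ]
      apply min_eq_right
      rw [pow_succ, mul_comm] at hlen
      exact hlen
    have hτle : ∀ a, τ a ≤ τ (a + 1) := by
      intro a
      simp only [τ]
      apply min_le_min_right
      have : a * q ^ k ≤ (a + 1) * q ^ k := Nat.mul_le_mul_right _ (by omega)
      omega
    have hτlen : ∀ a, τ (a + 1) ≤ τ a + q ^ k := by
      intro a
      simp only [τ]
      have e : (a + 1) * q ^ k = a * q ^ k + q ^ k := by ring
      rw [e]
      omega
    have hτT : ∀ a, τ a ≤ Tm := fun a => le_trans (min_le_right _ _) h1T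
    let st' : ℕ → (Fin D × M → Bool) → σ × σ := fun a y => (st (τ a) y, st (τ (a + 1)) y)
    let E : ℕ → (Fin D → M) → σ × σ → Prop := fun a x b => ¬ sep (τ a) x b.1 ∧ sep (τ (a + 1)) x b.2
    have hex : ∀ x ∈ P, ∀ y ∈ Y, ∃ a < q, E a x (st' a y) := by
      intro x hx y hy
      obtain ⟨h1, h2⟩ := hall x hx y hy
      by_contra hno
      push Not at hno
      have : ∀ a ≤ q, ¬ sep (τ a) x (st (τ a) y) := by
        intro a
        induction a with
        | zero => intro _; rw [hτ0]; exact h1
        | succ a iha =>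
          intro ha h3
          exact hno a (by omega) ⟨iha (by omega), h3⟩
      have h4 := this q le_rfl
      rw [hτq] at h4
      exact h4 h2
    obtain ⟨a, haq, b, hPc, hYc⟩ := popular q P Y hP hYne st' E hex
    set P1 := P.filter (fun x => E a x b) with hP1
    set Y1 := Y.filter (fun y => st' a y = b) with hY1
    have hP1sub : P1 ⊆ P := Finset.filter_subset _ _
    have hY1sub : Y1 ⊆ Y := Finset.filter_subset _ _
    have hPpos : 0 < P.card := hP.card_pos
    have hP1pos : 0 < P1.card := by
      by_contra h0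
      have : P1.card = 0 := by omega
      rw [this] at hPc
      omega
    have hσσ : Fintype.card (σ × σ) ≤ 2 ^ (2 * S) := by
      rw [Fintype.card_prod]
      calc _ ≤ 2 ^ S * 2 ^ S := Nat.mul_le_mul hσ hσ
        _ = 2 ^ (2 * S) := by rw [← pow_add]; congr 1; ring
    -- size of Y1
    have hY1c : 2 ^ (Fintype.card (Fin D × M)) ≤ Y1.card * 2 ^ (s * δ + 2 * S + lq) := by
      calc 2 ^ (Fintype.card (Fin D × M)) ≤ Y.card * 2 ^ (s * δ) := hY
        _ ≤ (2 * q * Fintype.card (σ × σ) * Y1.card) * 2 ^ (s * δ) := Nat.mul_le_mul_right _ hYc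
        _ ≤ (2 ^ lq * 2 ^ (2 * S) * Y1.card) * 2 ^ (s * δ) := by gcongr
        _ = Y1.card * 2 ^ (s * δ + 2 * S + lq) := by rw [pow_add, pow_add]; ring
    have hsR : s + 1 ≤ R := by omega
    have hΔ1 : s * δ + 2 * S + lq + 1 + R * lc ≤ (s + 1) * δ := by
      have : (s + 1) * δ = s * δ + δ := by ring
      omega
    have hΔR : (s + 1) * δ ≤ R * δ := Nat.mul_le_mul_right _ hsR
    -- good points
    let good : (Fin D → M) → Prop := fun x => ∀ J : Finset (Fin D), J.card ≤ R → Disjoint J I →
      ∀ c : Fin D → Bool, 2 ^ (Fintype.card (Fin D × M)) ≤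
        (Y1.filter (fun y => ∀ v ∈ J, y (v, x v) = c v)).card * 2 ^ ((s + 1) * δ)
    have hbad : 2 * (P1.filter (fun x => ¬ good x)).card < P1.card := by
      by_contra hlt
      push Not at hlt
      set bad := P1.filter (fun x => ¬ good x) with hbad
      have hbadpos : 0 < bad.card := by omega
      have hdb : Dense r1 bad I := by
        apply dense_sub r1 (4 * q) P bad I
        · rw [← hr]; exact hd
        · exact (Finset.filter_subset _ _).trans hP1sub
        · omega
        · calc P.card ≤ 2 * q * P1.card := hPc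
            _ ≤ 2 * q * (2 * bad.card) := Nat.mul_le_mul_left _ hlt
            _ = 4 * q * bad.card := by ring
      obtain ⟨x, hx, hgx⟩ := exists_good (Q := Bool) r1 R (s * δ + 2 * S + lq) ((s + 1) * δ) bad
        (Finset.card_pos.mp hbadpos) I hIR hdb (by simp) hr1 (by simpa using hRD) (by
          rw [Fintype.card_bool]
          refine le_trans ?_ hbig
          apply Nat.mul_le_mul_left
          apply Nat.mul_le_mul_right
          omega) Y1 (by rw [Fintype.card_bool]; exact hY1c) (by
          rw [Fintype.card_bool, Fintype.card_fin, hM]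
          calc (D * (r * r) * 2 + 1) ^ R * 2 ^ (s * δ + 2 * S + lq + 1)
              ≤ (2 ^ lc) ^ R * 2 ^ (s * δ + 2 * S + lq + 1) := by gcongr
            _ = 2 ^ (s * δ + 2 * S + lq + 1 + R * lc) := by
                rw [← pow_mul, ← pow_add]; congr 1; ring
            _ ≤ 2 ^ ((s + 1) * δ) := Nat.pow_le_pow_right (by norm_num) hΔ1)
      rw [hbad, Finset.mem_filter] at hx
      apply hx.2
      intro J hJ hJI c
      have := hgx J hJ hJI c
      rw [Fintype.card_bool] at this
      convert this
    set P2 := P1.filter (fun x => good x) with hP2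
    have hP2c : P.card ≤ 4 * q * P2.card := by
      have h1 : P2.card + (P1.filter (fun x => ¬ good x)).card = P1.card :=
        Finset.card_filter_add_card_filter_not _
      have h2 : P1.card ≤ 2 * P2.card := by omega
      calc P.card ≤ 2 * q * P1.card := hPc
        _ ≤ 2 * q * (2 * P2.card) := Nat.mul_le_mul_left _ h2
        _ = 4 * q * P2.card := by ring
    have hP2pos : 0 < P2.card := by
      by_contra h0
      have : P2.card = 0 := by omega
      rw [this] at hP2c
      omega
    have hP2sub : P2 ⊆ P1 := Finset.filter_subset _ _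
    obtain ⟨K, γ', P3, hKI, hγ', hP3sub, hP3K, hrest, hd'⟩ := restore r hr0 P2 I γ
    have hP3pos : 0 < P3.card := by
      by_contra h0
      have : P3.card = 0 := by omega
      rw [this] at hrest
      omega
    have hcardI : (I ∪ K).card = I.card + K.card := Finset.card_union_of_disjoint hKI.symm
    have hc' : (Fintype.card M) ^ D ≤ P3.card * (4 * q) ^ (s + 1) * r ^ (I ∪ K).card := by
      calc (Fintype.card M) ^ D ≤ P.card * (4 * q) ^ s * r ^ I.card := hc
        _ ≤ (4 * q * P2.card) * (4 * q) ^ s * r ^ I.card := by gcongr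
        _ ≤ (4 * q * (P3.card * r ^ K.card)) * (4 * q) ^ s * r ^ I.card := by gcongr
        _ = P3.card * (4 * q) ^ (s + 1) * r ^ (I ∪ K).card := by
            rw [hcardI, pow_add, pow_succ]; ring
    have hfixed : ∀ x ∈ P3, ∀ v ∈ I ∪ K, x v = γ' v := by
      intro x hx v hv
      rw [Finset.mem_union] at hv
      rcases hv with hv | hv
      · rw [hγ' v hv]
        exact hγ x (hP1sub (hP2sub (hP3sub hx))) v hv
      · exact hP3K x hx v hv
    have hI' : (I ∪ K).card ≤ s + 1 := by
      have hMpos : 0 < Fintype.card M := by rw [hM]; positivity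
      have h1 : P3.card * (Fintype.card M) ^ (I ∪ K).card ≤ (Fintype.card M) ^ D := by
        have h2 := card_fixed_le (I ∪ K) γ' hMpos P3
        rw [Fintype.card_fin] at h2
        refine le_trans (Nat.mul_le_mul_right _ (Finset.card_le_card ?_)) h2
        intro x hx
        simp only [Finset.mem_filter]
        exact ⟨hx, hfixed x hx⟩
      have h3 : P3.card * (r * r) ^ (I ∪ K).card ≤ P3.card * ((4 * q) ^ (s + 1) * r ^ (I ∪ K).card) := by
        rw [← hM]
        calc _ ≤ _ := h1
          _ ≤ _ := hc'
          _ = _ := by ring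
      have h4 := Nat.le_of_mul_le_mul_left h3 hP3pos
      rw [mul_pow] at h4
      have h5 : r ^ (I ∪ K).card ≤ (4 * q) ^ (s + 1) :=
        Nat.le_of_mul_le_mul_right h4 (by positivity)
      have h6 : (4 * q) ^ (s + 1) ≤ r ^ (s + 1) := by
        apply Nat.pow_le_pow_left
        rw [hr]
        exact Nat.le_mul_of_pos_right _ hr1
      have h7 : 1 < r := by
        rw [hr]
        have : 1 ≤ q * r1 := Nat.mul_pos hq hr1
        calc 1 < 4 * (q * r1) := by omega
          _ = 4 * q * r1 := by ring
      exact (Nat.pow_le_pow_iff_right h7).mp (le_trans h5 h6)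
    -- the gap
    have hKn : (K.image (fun v : Fin D => v.val + 1)).card = K.card := by
      apply Finset.card_image_of_injective
      intro v v' h
      exact Fin.ext (by simpa using h)
    obtain ⟨i', j', hii', hjj', hgap', hK'⟩ := gap_lemma (2 ^ (R + 1 - (I ∪ K).card))
      (K.image (fun v : Fin D => v.val + 1)) i j (by
        rw [hKn, ← pow_add]
        have : R + 1 - (I ∪ K).card + K.card = R + 1 - I.card := by omega
        rw [this]
        exact hgap)
    have hgpos : 0 < 2 ^ (R + 1 - (I ∪ K).card) := by positivity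
    let z' : Fin D → Bool := fun v => decide (v.val + 1 ≤ i')
    have hzI : ∀ v ∈ I, z v = z' v := by
      intro v hv
      simp only [z']
      rcases hg v hv with ⟨h1, h2⟩ | ⟨h1, h2⟩
      · rw [h2]
        symm
        rw [decide_eq_true_eq]
        omega
      · rw [h2]
        symm
        rw [decide_eq_false_iff_not]
        omega
    have hKR : K.card ≤ R := by omega
    set Y3 := Y1.filter (fun y => ∀ v ∈ K, y (v, γ' v) = z' v) with hY3
    have hY3sub : Y3 ⊆ Y1 := Finset.filter_subset _ _
    have hY3c : 2 ^ (Fintype.card (Fin D × M)) ≤ Y3.card * 2 ^ ((s + 1) * δ) := by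
      obtain ⟨x, hx⟩ := Finset.card_pos.mp hP3pos
      have hgx : good x := (Finset.mem_filter.mp (hP3sub hx)).2
      have h1 := hgx K hKR hKI z'
      have h2 : Y1.filter (fun y => ∀ v ∈ K, y (v, x v) = z' v) = Y3 := by
        rw [hY3]
        apply Finset.filter_congr
        intro y _
        constructor
        · intro h v hv
          rw [← hfixed x hx v (Finset.mem_union_right _ hv)]
          exact h v hv
        · intro h v hv
          rw [hfixed x hx v (Finset.mem_union_right _ hv)]
          exact h v hv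
      rw [h2] at h1
      exact h1
    refine ih (s + 1) (by omega) (τ a) (τ (a + 1)) (hτle a) (hτT _) (hτlen a) P3 (I ∪ K) γ' z' i' j'
      Y3 (Finset.card_pos.mp hP3pos) hfixed hd' hc' hY3c ?_ hgap' (le_trans hjj' hjD) (by omega) ?_ ?_
    · intro y hy v hv
      rw [Finset.mem_union] at hv
      rcases hv with hv | hv
      · rw [hγ' v hv, ← hzI v hv]
        exact hyz y (hY1sub (hY3sub hy)) v hv
      · exact (Finset.mem_filter.mp hy).2 v hv
    · intro v hv
      rw [Finset.mem_union] at hv
      by_cases hvi : v.val + 1 ≤ i'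
      · left
        exact ⟨hvi, by simp only [z']; exact decide_eq_true hvi⟩
      · right
        refine ⟨?_, by simp only [z']; exact decide_eq_false hvi⟩
        rcases hv with hv | hv
        · rcases hg v hv with ⟨h1, _⟩ | ⟨h1, _⟩
          · omega
          · omega
        · rcases hK' (v.val + 1) (Finset.mem_image.mpr ⟨v, hv, rfl⟩) with h | h
          · omega
          · exact h
    · intro x hx y hy
      have hxE : E a x b := (Finset.mem_filter.mp (hP2sub (hP3sub hx))).2
      have hyb : st' a y = b := (Finset.mem_filter.mp (hY3sub hy)).2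
      rw [← hyb] at hxE
      exact hxE

end Rec

end Pool.Agent.Results.MP_2af48a_lc.Undirected
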