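import Pool.Agent.Lib_MP_2af48a_lc.UMain

/-!
# Undirected st-connectivity with few NOT gates: trade-off
-/

open Finset Filter

namespace Pool.Agent.Results.MP_2af48a_lc.FewNegations

open StConnectivity (Arc stconn)
open Undirected (Symm Walk)

lemma walk_stconn {n : ℕ} (x : Fin n → Bool) (i : ℕ) (h : Walk n x i) : stconn n x = true := by
  classical
  obtain ⟨p, h0, h1, h2⟩ := h
  unfold stconn
  refine decide_eq_true ?_
  have key : ∀ t ≤ i, Relation.ReflTransGen (Arc n x) 0 (p t) := by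
    intro t
    induction t with
    | zero => intro _; rw [h0]
    | succ t ih => intro ht; exact (ih (by omega)).tail (h2 t (by omega))
  rw [← h1]
  exact key i le_rfl

/-- Small width forces size `n ^ Ω(log n)`. -/
theorem und_tradeoff (n : ℕ) (hl : 400 ≤ Nat.log 2 n) (C : StConnectivity.MonLayered n) (L : ℕ)
    (hC1 : ∀ x, Symm n x → (∃ i ≤ L, Walk n x i) → C.eval x = true)
    (hC0 : ∀ x, Symm n x → stconn n x = false → C.eval x = false)
    (hL : 2 ^ (Nat.log 2 n / 40 + 1) ≤ L) (hw : C.maxWidth ^ 100 ≤ n) :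
    ∀ b, 2000 ≤ b → n ^ (Nat.log 2 n) ≤ C.size ^ b := by
  intro b hb
  set l := Nat.log 2 n with hldef
  obtain ⟨e, he⟩ : ∃ e, e = l / 40 := ⟨_, rfl⟩
  have he10 : 10 ≤ e := by omega
  have hn2 : n < 2 ^ (l + 1) := Nat.lt_pow_succ_log_self (by norm_num) n
  have hw2 : C.maxWidth ≤ 2 ^ (2 * e) := by
    by_contra hlt
    push Not at hlt
    have h1 : (2 ^ (2 * e)) ^ 100 ≤ C.maxWidth ^ 100 := Nat.pow_le_pow_left hlt.le _
    rw [← pow_mul] at h1
    have h2 : 2 ^ (l + 1) ≤ 2 ^ (2 * e * 100) := Nat.pow_le_pow_right (by norm_num) (by omega)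
    omega
  have hkey := Undirected.und_width C L hC1 hC0 e e (by rw [he, hldef]) he10 hw2 le_rfl
    (by rw [he]; exact hL)
  have hle : l * (l + 1) ≤ b * (e * e) := by
    have h1 : l + 1 ≤ 44 * e := by omega
    have h2 : l * (l + 1) ≤ 2000 * (e * e) := by nlinarith
    exact le_trans h2 (Nat.mul_le_mul_right _ hb)
  calc n ^ l ≤ (2 ^ (l + 1)) ^ l := Nat.pow_le_pow_left hn2.le _
    _ = 2 ^ (l * (l + 1)) := by rw [← pow_mul]; congr 1; ring
    _ ≤ 2 ^ (b * (e * e)) := Nat.pow_le_pow_right (by norm_num) hle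
    _ = (2 ^ (e * e)) ^ b := by rw [← pow_mul]; congr 1; ring
    _ ≤ C.size ^ b := Nat.pow_le_pow_left hkey.le _

/-- Trade-off between size, width and number of NOT gates. -/
theorem und_tradeoff_neg (n : ℕ) (ε : ℝ) (hε : 8000 ≤ ε * Real.sqrt (Real.logb 2 n))
    (C : Layered n) (hC : ∀ x, Symm n x → C.eval x = stconn n x)
    (ht : (C.negations : ℝ) ≤ (1 / 2 - ε) * Real.logb 2 n)
    (hw : (C.maxWidth : ℝ) ≤ (n : ℝ) ^ (ε / 51)) :
    (n : ℝ) ^ (ε ^ 2 / 501 * Real.logb 2 n) ≤ C.size := by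
  obtain ⟨b, hb⟩ : ∃ b, b = 2000 := ⟨_, rfl⟩
  set L := Real.logb 2 (n : ℝ) with hL
  set x := Real.sqrt L with hx
  have hx0 : 0 ≤ x := Real.sqrt_nonneg _
  have hεpos : 0 < ε := by
    by_contra h
    push Not at h
    nlinarith
  have hL0 : 0 ≤ L := by
    by_contra h
    push Not at h
    rw [hx, Real.sqrt_eq_zero_of_nonpos h.le] at hε
    norm_num at hε
  have hxx : x * x = L := Real.mul_self_sqrt hL0
  have hε2 : ε ≤ 1 / 2 := by
    by_contra h
    push Not at h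
    have h1 : 0 ≤ (1 / 2 - ε) * L := le_trans (Nat.cast_nonneg _) ht
    have h2 : L ≤ 0 := by
      by_contra h3
      push Not at h3
      nlinarith
    have h3 : x = 0 := Real.sqrt_eq_zero_of_nonpos h2
    rw [h3] at hε
    norm_num at hε
  set u := ε * x with hu
  have hx1 : 16000 ≤ x := by nlinarith
  have hLbig : 16000 ≤ L := by nlinarith
  have hn2 : 2 ≤ n := by
    by_contra h
    have : n = 0 ∨ n = 1 := by omega
    rcases this with h | h <;> rw [hL, h] at hLbig <;> norm_num at hLbig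
  have hn0 : (0 : ℝ) < n := by exact_mod_cast (by omega : 0 < n)
  have hnL : (n : ℝ) = (2 : ℝ) ^ L := by
    rw [hL, Real.rpow_logb (by norm_num) (by norm_num) hn0]
  have hεL : ε * L = u * x := by rw [← hxx, hu]; ring
  set l := Nat.log 2 n with hl
  have hl1 : (l : ℝ) ≤ L := by
    rw [hL, Real.le_logb_iff_rpow_le (by norm_num) hn0, Real.rpow_natCast]
    exact_mod_cast Nat.pow_log_le_self 2 (by omega : n ≠ 0)
  have hl2 : L < (l : ℝ) + 1 := by
    rw [hL, Real.logb_lt_iff_lt_rpow (by norm_num) hn0]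
    have : n < 2 ^ (l + 1) := Nat.lt_pow_succ_log_self (by norm_num) n
    have h5 : (n : ℝ) < 2 ^ (l + 1) := by exact_mod_cast this
    calc (n : ℝ) < 2 ^ (l + 1) := h5
      _ = (2 : ℝ) ^ ((l : ℝ) + 1) := by
          rw [show (l : ℝ) + 1 = ((l + 1 : ℕ) : ℝ) by push_cast; ring, Real.rpow_natCast]
  obtain ⟨t, htdef⟩ : ∃ t, t = C.negations := ⟨_, rfl⟩
  rw [← htdef] at ht
  have ht' : 2 * (t : ℝ) ≤ L - 2 * (u * x) := by rw [← hεL]; linarith
  have hux : 0 ≤ u * x := by nlinarith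
  have htL : (t : ℝ) + 1 ≤ L := by linarith
  set lg := Nat.log 2 (t + 1) with hlg
  have hlgT : (lg : ℝ) ≤ 4 * x := by
    have e1 : ((2 : ℝ)) ^ lg ≤ (t : ℝ) + 1 := by
      exact_mod_cast Nat.pow_log_le_self 2 (by omega : t + 1 ≠ 0)
    have e2 : (lg : ℝ) * Real.log 2 ≤ Real.log L := by
      rw [← Real.log_pow]
      exact Real.log_le_log (by positivity) (le_trans e1 htL)
    have e3 : (0.5 : ℝ) ≤ Real.log 2 := by
      have := Real.log_two_gt_d9
      linarith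
    have e4 : (0 : ℝ) ≤ lg := Nat.cast_nonneg lg
    have e5 : Real.log L ≤ 2 * x := by
      rw [← hxx, Real.log_mul (by linarith) (by linarith)]
      have := Real.log_le_sub_one_of_pos (by linarith : 0 < x)
      linarith
    have e6 : (lg : ℝ) * 0.5 ≤ lg * Real.log 2 := mul_le_mul_of_nonneg_left e3 e4
    linarith
  set N := Nat.sqrt n with hN
  obtain ⟨B, hB⟩ : ∃ B, B = 2 ^ t * (t + 1) + 1 := ⟨_, rfl⟩
  have hBpos : 0 < B := by omega
  have hBle : B ≤ 2 ^ (t + lg + 2) := by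
    have e1 : t + 1 < 2 ^ (lg + 1) := Nat.lt_pow_succ_log_self (by norm_num) _
    have e2 : 1 ≤ 2 ^ (t + lg + 1) := Nat.one_le_two_pow
    calc B = 2 ^ t * (t + 1) + 1 := hB
      _ ≤ 2 ^ t * 2 ^ (lg + 1) + 2 ^ (t + lg + 1) :=
          Nat.add_le_add (Nat.mul_le_mul_left _ e1.le) e2
      _ = 2 ^ (t + lg + 2) := by rw [← pow_add, pow_succ 2 (t + lg + 1)]; ring
  have hu8 : 8000 ≤ u := hε
  have hux8 : 8000 * x ≤ u * x := mul_le_mul_of_nonneg_right hu8 hx0
  have h1 : 2 * (t + lg + 2) ≤ l := by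
    have : 2 * ((t : ℝ) + lg + 2) ≤ l := by linarith
    exact_mod_cast this
  have hN2 : 2 ^ (l / 2) ≤ N := by
    rw [hN, Nat.le_sqrt, ← pow_add]
    refine le_trans (Nat.pow_le_pow_right (by norm_num) ?_) (Nat.pow_log_le_self 2 (by omega : n ≠ 0))
    omega
  set M := N / B with hM
  have hBM : B * M ≤ N := Nat.mul_div_le _ _
  have hMlow : 2 ^ (l / 2 - (t + lg + 2)) ≤ M := by
    rw [hM, Nat.le_div_iff_mul_le hBpos]
    calc 2 ^ (l / 2 - (t + lg + 2)) * B ≤ 2 ^ (l / 2 - (t + lg + 2)) * 2 ^ (t + lg + 2) :=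
          Nat.mul_le_mul_left _ hBle
      _ = 2 ^ (l / 2) := by rw [← pow_add]; congr 1; omega
      _ ≤ N := hN2
  obtain ⟨m, hm⟩ : ∃ m, m = M * M := ⟨_, rfl⟩
  have hsq : Nat.sqrt m = M := by rw [hm, Nat.sqrt_eq]
  have hmlow : 2 ^ (2 * (l / 2 - (t + lg + 2))) ≤ m := by
    rw [hm, two_mul, pow_add]
    exact Nat.mul_le_mul hMlow hMlow
  obtain ⟨l', hl'⟩ : ∃ l', l' = Nat.log 2 m := ⟨_, rfl⟩
  have hl'low : 2 * (l / 2 - (t + lg + 2)) ≤ l' := by
    rw [hl']
    exact Nat.le_log_of_pow_le (by norm_num) hmlow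
  have hm0 : m ≠ 0 := by
    have : 1 ≤ 2 ^ (2 * (l / 2 - (t + lg + 2))) := Nat.one_le_two_pow
    omega
  have hl'R0 : 2 * (u * x) - 14 * x ≤ l' := by
    have h2 : l ≤ l' + 2 * (t + lg + 2) + 1 := by omega
    have h3 : (l : ℝ) ≤ l' + 2 * (t + lg + 2) + 1 := by exact_mod_cast h2
    linarith
  have hl'R : (2 * u - 14) * x ≤ l' := by
    have e : (2 * u - 14) * x = 2 * (u * x) - 14 * x := by ring
    rw [e]
    exact hl'R0
  have hl'400 : 400 ≤ l' := by
    have : (400 : ℝ) ≤ l' := by linarith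
    exact_mod_cast this
  have hml' : 2 ^ l' ≤ m := by rw [hl']; exact Nat.pow_log_le_self 2 hm0
  have hm4 : 4 ≤ m := by
    have : 2 ^ 2 ≤ 2 ^ l' := Nat.pow_le_pow_right (by norm_num) (by omega)
    omega
  obtain ⟨D, hD1, hD0, hD2, hD3⟩ := und_copies (m := m) C (2 ^ (l' / 40 + 1))
    (fun x hx hw => by
      obtain ⟨i, -, hi⟩ := hw
      rw [hC x hx]
      exact walk_stconn x i hi)
    (fun x hx h0 => by rw [hC x hx]; exact h0) hm4 (by
    rw [hsq, ← htdef, ← hB]; exact hBM)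
  rw [← htdef] at hD3
  -- the width
  have hP1 : (1 : ℝ) ≤ (2 : ℝ) ^ (L * (ε / 51)) :=
    Real.one_le_rpow (by norm_num) (by positivity)
  have hw' : (C.maxWidth : ℝ) ≤ (2 : ℝ) ^ (L * (ε / 51)) := by
    rw [Real.rpow_mul (by norm_num), ← hnL]
    exact hw
  have hwR : ((2 * C.maxWidth + 3 : ℕ) : ℝ) ≤ 5 * (2 : ℝ) ^ (L * (ε / 51)) := by
    push_cast
    linarith
  have hwidth : D.maxWidth ^ 100 ≤ m := by
    have h2 : (D.maxWidth : ℝ) ≤ 5 * (2 : ℝ) ^ (L * (ε / 51)) :=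
      le_trans (by exact_mod_cast hD2) hwR
    have h3 : (D.maxWidth : ℝ) ^ 100 ≤ (m : ℝ) := by
      calc (D.maxWidth : ℝ) ^ 100 ≤ (5 * (2 : ℝ) ^ (L * (ε / 51))) ^ 100 :=
            pow_le_pow_left₀ (Nat.cast_nonneg _) h2 100
        _ = 5 ^ 100 * (2 : ℝ) ^ (L * (ε / 51) * 100) := by
            rw [mul_pow (5 : ℝ), ← Real.rpow_natCast ((2 : ℝ) ^ (L * (ε / 51))) 100,
              ← Real.rpow_mul (by norm_num)]
            norm_num
        _ ≤ (2 : ℝ) ^ (240 : ℝ) * (2 : ℝ) ^ (L * (ε / 51) * 100) := by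
            apply mul_le_mul_of_nonneg_right _ (by positivity)
            rw [show (240 : ℝ) = ((240 : ℕ) : ℝ) by norm_num, Real.rpow_natCast]
            norm_num
        _ = (2 : ℝ) ^ (240 + L * (ε / 51) * 100) := by rw [← Real.rpow_add (by norm_num)]
        _ ≤ (2 : ℝ) ^ (l' : ℝ) := by
            apply Real.rpow_le_rpow_of_exponent_le (by norm_num)
            have e : L * (ε / 51) * 100 = (100 / 51) * (u * x) := by rw [← hεL]; ring
            rw [e]
            linarith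
        _ ≤ m := by
            rw [Real.rpow_natCast]
            exact_mod_cast hml'
    exact_mod_cast h3
  have hmain := und_tradeoff m (by rw [← hl']; exact hl'400) D _ hD1 hD0 (by rw [← hl']) hwidth b hb.ge
  rw [← hl'] at hmain
  -- the size
  by_contra hcon
  push Not at hcon
  set E := ε ^ 2 / 501 * L * L with hE
  have hE0 : 0 ≤ E := by positivity
  have hS : (C.size : ℝ) ≤ (2 : ℝ) ^ E := by
    refine le_trans hcon.le ?_
    rw [hnL, ← Real.rpow_mul (by norm_num), hE]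
    apply le_of_eq
    congr 1
    ring
  have hE1 : (1 : ℝ) ≤ (2 : ℝ) ^ E := Real.one_le_rpow (by norm_num) hE0
  have hLL : (1 : ℝ) ≤ (2 : ℝ) ^ (L / 2) := Real.one_le_rpow (by norm_num) (by linarith)
  have hBR : ((2 ^ t * (t + 1) : ℕ) : ℝ) ≤ (2 : ℝ) ^ (L / 2) := by
    have h2 : 2 ^ t * (t + 1) ≤ 2 ^ (t + lg + 2) := by omega
    calc ((2 ^ t * (t + 1) : ℕ) : ℝ) ≤ ((2 ^ (t + lg + 2) : ℕ) : ℝ) := by exact_mod_cast h2
      _ = (2 : ℝ) ^ ((t + lg + 2 : ℕ) : ℝ) := by rw [Real.rpow_natCast]; push_cast; ring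
      _ ≤ (2 : ℝ) ^ (L / 2) := by
          apply Real.rpow_le_rpow_of_exponent_le (by norm_num)
          have h3 : ((2 * (t + lg + 2) : ℕ) : ℝ) ≤ l := by exact_mod_cast h1
          push_cast at h3 ⊢
          linarith
  have hDR : (D.size : ℝ) ≤ (2 : ℝ) ^ (5 + L + E) := by
    have h2 : (D.size : ℝ) ≤ ((2 ^ t * (t + 1) : ℕ) * (3 * (C.size : ℝ) + 1) + 1) *
        ((2 * C.maxWidth + 3 : ℕ) : ℝ) := by exact_mod_cast hD3
    set P := (2 : ℝ) ^ (L / 2) with hP
    set Q := (2 : ℝ) ^ E with hQ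
    set R := (2 : ℝ) ^ (L * (ε / 51)) with hR
    have h3 : ((2 ^ t * (t + 1) : ℕ) : ℝ) * (3 * (C.size : ℝ) + 1) + 1 ≤ 5 * (P * Q) := by
      have e1 : 3 * (C.size : ℝ) + 1 ≤ 4 * Q := by linarith
      have e2 : ((2 ^ t * (t + 1) : ℕ) : ℝ) * (3 * (C.size : ℝ) + 1) ≤ P * (4 * Q) :=
        mul_le_mul hBR e1 (by positivity) (by linarith)
      have e3 : 1 ≤ P * Q := one_le_mul_of_one_le_of_one_le hLL hE1
      linarith
    calc (D.size : ℝ) ≤ (5 * (P * Q)) * (5 * R) :=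
          le_trans h2 (mul_le_mul h3 hwR (by positivity) (by positivity))
      _ = 25 * (P * Q * R) := by ring
      _ ≤ (2 : ℝ) ^ (5 : ℝ) * (P * Q * R) := by
          apply mul_le_mul_of_nonneg_right _ (by positivity)
          rw [show (5 : ℝ) = ((5 : ℕ) : ℝ) by norm_num, Real.rpow_natCast]
          norm_num
      _ = (2 : ℝ) ^ (5 + (L / 2 + E + L * (ε / 51))) := by
          rw [hP, hQ, hR, ← Real.rpow_add (by norm_num), ← Real.rpow_add (by norm_num),
            ← Real.rpow_add (by norm_num)]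
      _ ≤ (2 : ℝ) ^ (5 + L + E) := by
          apply Real.rpow_le_rpow_of_exponent_le (by norm_num)
          have e1 : L * ε ≤ L * (1 / 2) := mul_le_mul_of_nonneg_left hε2 hL0
          have e2 : L * (ε / 51) = L * ε / 51 := by ring
          rw [e2]
          linarith
  have hfin : (2 : ℝ) ^ ((l' : ℝ) * l') ≤ (2 : ℝ) ^ ((5 + L + E) * b) := by
    calc (2 : ℝ) ^ ((l' : ℝ) * l') = ((2 ^ l' : ℕ) : ℝ) ^ l' := by
          rw [Real.rpow_mul (by norm_num), Real.rpow_natCast, Real.rpow_natCast]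
          push_cast
          rfl
      _ ≤ (m : ℝ) ^ l' := by
          apply pow_le_pow_left₀ (by positivity)
          exact_mod_cast hml'
      _ ≤ (D.size : ℝ) ^ b := by exact_mod_cast hmain
      _ ≤ ((2 : ℝ) ^ (5 + L + E)) ^ b := pow_le_pow_left₀ (Nat.cast_nonneg _) hDR b
      _ = (2 : ℝ) ^ ((5 + L + E) * b) := by rw [Real.rpow_mul (by norm_num), Real.rpow_natCast]
  have hexp : (l' : ℝ) * l' ≤ (5 + L + E) * b :=
    (Real.rpow_le_rpow_left_iff (by norm_num : (1 : ℝ) < 2)).mp hfin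
  have hbR : (b : ℝ) = 2000 := by rw [hb]; norm_num
  rw [hbR] at hexp
  have hEu : E = u ^ 2 * L / 501 := by
    rw [hE, hu, mul_pow, show x ^ 2 = L by rw [sq]; exact hxx]
    ring
  have hsq2 : ((2 * u - 14) * x) * ((2 * u - 14) * x) ≤ (l' : ℝ) * l' :=
    mul_self_le_mul_self (mul_nonneg (by linarith) hx0) hl'R
  have e1 : ((2 * u - 14) * x) * ((2 * u - 14) * x) = (2 * u - 14) ^ 2 * L := by
    rw [← hxx]; ring
  rw [e1] at hsq2
  have e2 : (2 * u - 14) ^ 2 * L ≤ (4000 + 2000 / 501 * u ^ 2) * L := by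
    calc (2 * u - 14) ^ 2 * L ≤ (5 + L + E) * 2000 := le_trans hsq2 hexp
      _ ≤ (2 * L + E) * 2000 := by linarith
      _ = _ := by rw [hEu]; ring
  have e3 : (2 * u - 14) ^ 2 ≤ 4000 + 2000 / 501 * u ^ 2 :=
    le_of_mul_le_mul_right e2 (by linarith)
  have e4 : 8000 * u ≤ u ^ 2 := by
    rw [sq]
    exact mul_le_mul_of_nonneg_right hu8 (by linarith)
  have e5 : (2 * u - 14) ^ 2 = 4 * u ^ 2 - 56 * u + 196 := by ring
  rw [e5] at e3
  linarith


theorem und_not_SC_r (r : ℕ → ℕ)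
    (hr : Tendsto (fun n : ℕ => (Real.logb 2 n / 2 - r n) / Real.sqrt (Real.logb 2 n)) atTop atTop)
    (g : (n : ℕ) → (Fin n → Bool) → Bool) (hg : ∀ n x, Symm n x → g n x = stconn n x) :
    ¬ SC r g := by
  rintro ⟨C, hC, ⟨a, c, hs⟩, ⟨a', c', hd⟩, hneg⟩
  obtain ⟨L0, hL0⟩ := pow_lt_two_pow (2 * a' * 4 ^ c') (2 * c')
  have hlog : Tendsto (fun n : ℕ => Real.logb 2 (n : ℝ)) atTop atTop :=
    (Real.tendsto_logb_atTop (by norm_num)).comp tendsto_natCast_atTop_atTop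
  have hsqrt : Tendsto (fun n : ℕ => Real.sqrt (Real.logb 2 (n : ℝ))) atTop atTop :=
    Real.tendsto_sqrt_atTop.comp hlog
  obtain ⟨n, h1, h2, h3, h4⟩ := ((hr.eventually_ge_atTop (8000 + (a + c + 1 : ℝ))).and
    ((hlog.eventually_ge_atTop 1).and ((hsqrt.eventually_ge_atTop ((L0 : ℝ) + 1)).and
      (eventually_ge_atTop 2)))).exists
  set L := Real.logb 2 (n : ℝ) with hL
  set x := Real.sqrt L with hx
  have hx0 : 0 < x := by
    have : (0 : ℝ) ≤ L0 := Nat.cast_nonneg _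
    linarith
  have hxx : x * x = L := Real.mul_self_sqrt (by linarith)
  have hn0 : (0 : ℝ) < n := by exact_mod_cast (by omega : 0 < n)
  have hnL : (n : ℝ) = (2 : ℝ) ^ L := by
    rw [hL, Real.rpow_logb (by norm_num) (by norm_num) hn0]
  set l := Nat.log 2 n with hl
  have hl1 : (l : ℝ) ≤ L := by
    rw [hL, Real.le_logb_iff_rpow_le (by norm_num) hn0, Real.rpow_natCast]
    exact_mod_cast Nat.pow_log_le_self 2 (by omega : n ≠ 0)
  set u := (L / 2 - r n) / x with hu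
  have hac : (0 : ℝ) ≤ (a : ℝ) + c + 1 := by positivity
  have hux : u * x = L / 2 - r n := by rw [hu]; field_simp
  obtain ⟨ε, hε⟩ : ∃ ε, ε = u / x := ⟨_, rfl⟩
  have hεx : ε * x = u := by rw [hε]; field_simp
  have hεL : ε * L = u * x := by rw [← hxx, ← mul_assoc, hεx]
  have hu51 : 51 ≤ u := by linarith
  have ht : ((C n).negations : ℝ) ≤ (1 / 2 - ε) * L := by
    have e1 : (1 / 2 - ε) * L = r n := by
      have : (1 / 2 - ε) * L = L / 2 - ε * L := by ring
      rw [this, hεL, hux]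
      ring
    rw [e1]
    exact_mod_cast hneg n
  have hwid : ((C n).maxWidth : ℝ) ≤ (n : ℝ) ^ (ε / 51) := by
    obtain ⟨q, hq⟩ : ∃ q, q = ⌊x⌋₊ := ⟨_, rfl⟩
    have hq1 : (q : ℝ) ≤ x := by rw [hq]; exact Nat.floor_le hx0.le
    have hq2 : x < (q : ℝ) + 1 := by rw [hq]; exact Nat.lt_floor_add_one x
    have hqL0 : L0 ≤ q := by
      have : (L0 : ℝ) ≤ q := by linarith
      exact_mod_cast this
    have hq0 : 1 ≤ q := by
      have h5 : (0 : ℝ) ≤ L0 := Nat.cast_nonneg _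
      have : (0 : ℝ) < q := by linarith
      exact_mod_cast this
    have hlq : l ≤ 4 * q ^ 2 := by
      have e1 : (l : ℝ) ≤ 4 * (q : ℝ) ^ 2 := by
        have e2 : (1 : ℝ) ≤ q := by exact_mod_cast hq0
        nlinarith
      exact_mod_cast e1
    have h5 : (C n).maxWidth ≤ 2 ^ q := by
      have h6 := hd n
      simp only at h6
      rw [← hl] at h6
      have h7 : l ^ c' ≤ 4 ^ c' * q ^ (2 * c') := by
        calc l ^ c' ≤ (4 * q ^ 2) ^ c' := Nat.pow_le_pow_left hlq _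
          _ = _ := by rw [mul_pow, ← pow_mul]
      have h8 : 1 ≤ 4 ^ c' * q ^ (2 * c') :=
        Nat.mul_pos (by positivity) (Nat.pow_pos hq0)
      calc (C n).maxWidth ≤ a' * l ^ c' + a' * 1 := by rw [mul_one]; exact h6
        _ ≤ a' * (4 ^ c' * q ^ (2 * c')) + a' * (4 ^ c' * q ^ (2 * c')) :=
            Nat.add_le_add (Nat.mul_le_mul_left _ h7) (Nat.mul_le_mul_left _ h8)
        _ = 2 * a' * 4 ^ c' * q ^ (2 * c') := by ring
        _ ≤ 2 ^ q := (hL0 q hqL0).le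
    calc ((C n).maxWidth : ℝ) ≤ ((2 ^ q : ℕ) : ℝ) := by exact_mod_cast h5
      _ = (2 : ℝ) ^ (q : ℝ) := by rw [Real.rpow_natCast]; push_cast; rfl
      _ ≤ (2 : ℝ) ^ (L * (ε / 51)) := by
          apply Real.rpow_le_rpow_of_exponent_le (by norm_num)
          have e1 : L * (ε / 51) = u * x / 51 := by rw [← hεL]; ring
          rw [e1]
          have e2 : 51 * x ≤ u * x := mul_le_mul_of_nonneg_right hu51 hx0.le
          linarith
      _ = (n : ℝ) ^ (ε / 51) := by rw [Real.rpow_mul (by norm_num), ← hnL]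
  have hmain := und_tradeoff_neg n ε (by rw [← hL, ← hx, hεx]; linarith) (C n)
    (fun x hx => by rw [hC, hg n x hx])
    (by rw [← hL]; exact ht) hwid
  rw [← hL] at hmain
  have hsz := le_trans (hs n) (size_aux a c n)
  rw [← hl] at hsz
  simp only at hsz
  have hszR : ((C n).size : ℝ) ≤ (2 : ℝ) ^ (((a : ℝ) + c + 1) * (2 * L)) := by
    calc ((C n).size : ℝ) ≤ ((2 ^ ((a + c + 1) * (l + 1)) : ℕ) : ℝ) := by exact_mod_cast hsz
      _ = (2 : ℝ) ^ (((a + c + 1) * (l + 1) : ℕ) : ℝ) := by rw [Real.rpow_natCast]; push_cast; rfl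
      _ ≤ _ := by
          apply Real.rpow_le_rpow_of_exponent_le (by norm_num)
          push_cast
          exact mul_le_mul_of_nonneg_left (by linarith) hac
  have e1 : (n : ℝ) ^ (ε ^ 2 / 501 * L) = (2 : ℝ) ^ (u ^ 2 / 501 * L) := by
    rw [hnL, ← Real.rpow_mul (by norm_num)]
    congr 1
    have : u ^ 2 = ε ^ 2 * L := by rw [← hεx, mul_pow, ← hxx]; ring
    rw [this]
    ring
  rw [e1] at hmain
  have e2 := (Real.rpow_le_rpow_left_iff (by norm_num : (1 : ℝ) < 2)).mp (le_trans hmain hszR)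
  have e3 : u ^ 2 / 501 ≤ 2 * ((a : ℝ) + c + 1) := by
    have : u ^ 2 / 501 * L ≤ 2 * ((a : ℝ) + c + 1) * L := by linarith
    exact le_of_mul_le_mul_right this (by linarith)
  have e4 : 8000 * u ≤ u ^ 2 := by
    rw [sq]
    exact mul_le_mul_of_nonneg_right (by linarith) (by linarith)
  linarith


end Pool.Agent.Results.MP_2af48a_lc.FewNegations
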